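import Pool.Agent.LSF.ADefs

/-!
AA3 (linking, all cases).
-/

namespace Pool.Agent.LSF

open Polynomial Pool.Agent.LenSpec

theorem AA3_holds (hACa : ACaS) (hACb : ACbS) (hACc : ACcS) : AA3S := by
  intro K _ _ c R _ _ _ V A X U hL
  by_cases h : ∃ β, EqB A X (c.σ '' X) β
  · obtain ⟨β, hβ⟩ := h
    by_cases h2 : ∃ x ∈ X, c.σ x ≠ β x
    · exact hACb K c A X U β hL hβ h2
    · push Not at h2
      apply hACc K c R V A X U hL
      refine ⟨hβ.bij.congr (fun x hx => (h2 x hx).symm), ?_⟩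
      intro τ hτ x hx
      rw [h2 _ (hL.invX τ hτ x hx), h2 x hx]
      exact hβ.equi τ hτ x hx
  · exact hACa K c A X U hL h

end Pool.Agent.LSF
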