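import Pool.Agent.LSF.ADefs
import Pool.Agent.LenSpec.U1
import Pool.Agent.LenSpec.RZ

/-!
AAbs (the absolute value of sequences modulo the ultrafilter).
-/

namespace Pool.Agent.LSF

open Polynomial Pool.Agent.LenSpec Filter

/-- the absolute value of a sequence modulo the ultrafilter -/
noncomputable def aabsF (x : HC) : Hyperreal := Filter.Germ.map (fun z : ℂ => ‖z‖) x

theorem aabsF_coe (z : ℕ → ℂ) : aabsF (z : HC) = Filter.Germ.ofFun (fun j => ‖z j‖) := rfl

theorem aabs_nrm (z : ℂ) : z * starRingEnd ℂ z = ((‖z‖ ^ 2 : ℝ) : ℂ) := by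
  rw [Complex.mul_conj, Complex.normSq_eq_norm_sq]

theorem AAbs_holds : AAbsS := by
  intro c hc
  refine ⟨⟨aabsF, ?_, ?_, ?_, ?_⟩⟩
  · have h0 : (0 : HC) = ((fun _ => (0 : ℂ) : ℕ → ℂ) : HC) := rfl
    rw [h0, aabsF_coe]
    simp only [norm_zero]
    rfl
  · intro x
    induction x using Filter.Germ.inductionOn with
    | _ z =>
      intro hz
      have h1 : ∀ᶠ j in (hyperfilter ℕ : Filter ℕ), z j ≠ 0 := by
        rw [← qH_ne_iff]
        exact hz
      rw [aabsF_coe]
      have h2 : (0 : Hyperreal) = Filter.Germ.ofFun (fun _ => (0 : ℝ)) := rfl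
      rw [h2]
      refine (Filter.Germ.coe_lt).2 ?_
      filter_upwards [h1] with j hj
      exact norm_pos_iff.2 hj
  · intro x y
    induction x using Filter.Germ.inductionOn with
    | _ z =>
      induction y using Filter.Germ.inductionOn with
      | _ w =>
        have h1 : (z : HC) * (w : HC) = ((fun j => z j * w j : ℕ → ℂ) : HC) := rfl
        rw [h1, aabsF_coe, aabsF_coe, aabsF_coe]
        simp only [norm_mul]
        rfl
  · intro x y
    induction x using Filter.Germ.inductionOn with
    | _ z =>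
      induction y using Filter.Germ.inductionOn with
      | _ w =>
        have h1 : ∀ z : ℕ → ℂ, c.nrm (z : HC) = ((fun j => ((‖z j‖ ^ 2 : ℝ) : ℂ) : ℕ → ℂ) : HC) := by
          intro z
          have h2 : (z : HC) * ((fun j => starRingEnd ℂ (z j) : ℕ → ℂ) : HC) =
            ((fun j => z j * starRingEnd ℂ (z j) : ℕ → ℂ) : HC) := rfl
          rw [Cj.nrm, hc, h2]
          congr 1
          funext j
          exact aabs_nrm (z j)
        rw [h1, h1, aabsF_coe, aabsF_coe, rz_germ_eq]
        have h3 : (Filter.Germ.ofFun (fun j => ‖z j‖) : Hyperreal) =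
            Filter.Germ.ofFun (fun j => ‖w j‖) ↔
            ∀ᶠ j in (hyperfilter ℕ : Filter ℕ), ‖z j‖ = ‖w j‖ := Filter.Germ.coe_eq
        refine Iff.trans ?_ h3.symm
        constructor
        · intro h
          filter_upwards [h] with j hj
          have h4 : ‖z j‖ ^ 2 = ‖w j‖ ^ 2 := by exact_mod_cast hj
          exact (sq_eq_sq₀ (norm_nonneg _) (norm_nonneg _)).1 h4
        · intro h
          filter_upwards [h] with j hj
          rw [hj]

end Pool.Agent.LSF
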