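import Pool.Agent.LSF.ADefs
import Pool.Agent.LenSpec.W1
import Pool.Agent.LenSpec.E34

/-!
AAct (automorphisms permute the multipliers).

PROOF. (1) If τ fixes the coefficients of f then f.num.map τ = f.num etc., and τ maps points of exact period n to such points and multipliers to
multipliers: see Pool/Agent/LenSpec/W1.lean (fix_XS). (2) Pool/Agent/LenSpec/E34.lean (e3_perX_map, e3_mult_map, or E3_holds): the points of exact
period n of c.conj f are the σ z, with multipliers σ(mult z); σ is bijective (involution). (3) τ' = σ τ σ: c.σ as a RingEquiv (RingEquiv.ofRingHom or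
built from invol), τ' = σ.trans (τ.trans σ). x algebraic over ℚ ⇒ σ x algebraic ⇒ τ σ x = σ x ⇒ τ' x = x; for x ∈ A: σ x ∈ A, τ σ x = σ x.
-/

namespace Pool.Agent.LSF

open Polynomial Pool.Agent.LenSpec

theorem AAct_alg {K : Type} [Field K] [CharZero K] (φ : K →+* K) (x : K)
    (h : IsAlgebraic ℚ x) : IsAlgebraic ℚ (φ x) := by
  obtain ⟨p, hp, hpx⟩ := h
  refine ⟨p, hp, ?_⟩
  rw [aeval_def] at hpx ⊢
  have h1 : algebraMap ℚ K = φ.comp (algebraMap ℚ K) := Subsingleton.elim _ _
  rw [h1, ← hom_eval₂, hpx, map_zero]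

theorem AAct_holds : AActS := by
  intro K _ _ c d n f A
  refine ⟨?_, ?_, ?_⟩
  · intro hA τ hτ x hx
    have h1 := W1.fix_XS f (τ : K →+* K) (fun i => hτ.2 _ (hA i)) hx
    exact h1
  · ext y
    constructor
    · rintro ⟨z, hz, rfl⟩
      rw [e3_conj_num, e3_conj_den] at hz ⊢
      refine ⟨mult f.num f.den n (c.σ z), ⟨c.σ z, ?_, rfl⟩, ?_⟩
      · have h1 := e3_perX_map c.σ f.num f.den n (c.σ z)
        rw [c.invol] at h1
        exact h1.1 hz
      · have h1 := e3_mult_map c.σ f.num f.den n (c.σ z)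
        rw [c.invol] at h1
        exact h1.symm
    · rintro ⟨x, ⟨z, hz, rfl⟩, rfl⟩
      rw [e3_conj_num, e3_conj_den]
      refine ⟨c.σ z, ?_, ?_⟩
      · exact (e3_perX_map c.σ f.num f.den n z).2 hz
      · exact e3_mult_map c.σ f.num f.den n z
  · intro hA τ hτ
    let s : K ≃+* K := RingEquiv.ofRingHom c.σ c.σ
      (RingHom.ext fun x => c.invol x) (RingHom.ext fun x => c.invol x)
    have hs : ∀ x, s x = c.σ x := fun x => rfl
    refine ⟨s.trans (τ.trans s), ⟨?_, ?_⟩, ?_⟩
    · intro x hx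
      show c.σ (τ (c.σ x)) = x
      rw [hτ.1 _ (AAct_alg c.σ x hx), c.invol]
    · intro x hx
      show c.σ (τ (c.σ x)) = x
      rw [hτ.2 _ (hA x hx), c.invol]
    · intro x
      rfl

end Pool.Agent.LSF
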