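import Pool.Agent.LSF.ADefs
import Pool.Agent.LenSpec.PlBasic

/-!
ACa (linking, case 1).
-/

namespace Pool.Agent.LSF

open Polynomial Pool.Agent.LenSpec

section aca

variable {K : Type} [Field K]

/-- the group of the automorphisms over `A` -/
def aca_G [CharZero K] (A : Set K) : Subgroup (RingAut K) where
  carrier := {τ | Fx A τ}
  one_mem' := ⟨fun _ _ => rfl, fun _ _ => rfl⟩
  mul_mem' := by
    intro a b ha hb
    refine ⟨fun x hx => ?_, fun x hx => ?_⟩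
    · show a (b x) = x
      rw [hb.1 x hx, ha.1 x hx]
    · show a (b x) = x
      rw [hb.2 x hx, ha.2 x hx]
  inv_mem' := by
    intro a ha
    refine ⟨fun x hx => ?_, fun x hx => ?_⟩
    · show a.symm x = x
      rw [RingEquiv.symm_apply_eq]
      exact (ha.1 x hx).symm
    · show a.symm x = x
      rw [RingEquiv.symm_apply_eq]
      exact (ha.2 x hx).symm

/-- the action on an invariant set -/
@[reducible] def aca_act [CharZero K] (A Y : Set K) (hY : InvX A Y) : MulAction (aca_G A) Y where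
  smul g y := ⟨g.1 y.1, hY g.1 g.2 y.1 y.2⟩
  one_smul _ := rfl
  mul_smul _ _ _ := rfl

lemma aca_Fx_trans [CharZero K] {A : Set K} {τ τ' : K ≃+* K} (h : Fx A τ) (h' : Fx A τ') :
    Fx A (τ.trans τ') := by
  refine ⟨fun x hx => ?_, fun x hx => ?_⟩
  · show τ' (τ x) = x
    rw [h.1 x hx, h'.1 x hx]
  · show τ' (τ x) = x
    rw [h.2 x hx, h'.2 x hx]

lemma aca_Fx_symm [CharZero K] {A : Set K} {τ : K ≃+* K} (h : Fx A τ) :
    Fx A τ.symm := by
  refine ⟨fun x hx => ?_, fun x hx => ?_⟩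
  · rw [RingEquiv.symm_apply_eq]
    exact (h.1 x hx).symm
  · rw [RingEquiv.symm_apply_eq]
    exact (h.2 x hx).symm

lemma aca_alg [CharZero K] (c : Cj K) {x : K} (hx : IsAlgebraic ℚ x) :
    IsAlgebraic ℚ (c.σ x) := by
  have := hx.algHom (c.σ.toRatAlgHom)
  simpa using this

lemma aca_conj [CharZero K] (c : Cj K) {A : Set K} (hA : ∀ x ∈ A, c.σ x ∈ A) {τ : K ≃+* K}
    (h : Fx A τ) : ∃ τ' : K ≃+* K, Fx A τ' ∧ ∀ x, τ' x = c.σ (τ (c.σ x)) := by
  let s : K ≃+* K := RingEquiv.ofRingHom c.σ c.σ (by ext x; simp [c.invol])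
    (by ext x; simp [c.invol])
  have hs : ∀ x, s x = c.σ x := fun x => rfl
  refine ⟨(s.trans τ).trans s, ⟨fun x hx => ?_, fun x hx => ?_⟩, fun x => ?_⟩
  · show s (τ (s x)) = x
    rw [hs, hs, h.1 _ (aca_alg c hx), c.invol]
  · show s (τ (s x)) = x
    rw [hs, hs, h.2 _ (hA x hx), c.invol]
  · show s (τ (s x)) = _
    rw [hs, hs]

lemma aca_inv [CharZero K] (c : Cj K) {A Y : Set K} (hA : ∀ x ∈ A, c.σ x ∈ A)
    (hY : InvX A Y) : InvX A (c.σ '' Y) := by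
  rintro τ hτ _ ⟨x, hx, rfl⟩
  obtain ⟨τ', hτ', h'⟩ := aca_conj c hA hτ
  refine ⟨τ' x, hY τ' hτ' x hx, ?_⟩
  rw [h', c.invol]

lemma aca_sinj (c : Cj K) : Function.Injective c.σ := fun x y h => by
  rw [← c.invol x, ← c.invol y, h]

lemma aca_sym [CharZero K] (c : Cj K) {A X : Set K} (hA : ∀ x ∈ A, c.σ x ∈ A)
    (hX : SymOn A X) : SymOn A (c.σ '' X) := by
  intro π
  let e : X ≃ (c.σ '' X : Set K) := Equiv.Set.image c.σ X (aca_sinj c)
  have he : ∀ x : X, ((e x : (c.σ '' X : Set K)) : K) = c.σ x := fun x => rfl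
  obtain ⟨τ, hτ, h⟩ := hX ((e.trans π).trans e.symm)
  obtain ⟨τ', hτ', h'⟩ := aca_conj c hA hτ
  refine ⟨τ', hτ', fun y => ?_⟩
  obtain ⟨x, rfl⟩ := e.surjective y
  rw [h', he, c.invol, h x]
  show c.σ ((e.symm (π (e x)) : X) : K) = _
  rw [← he, Equiv.apply_symm_apply]

lemma aca_noeq [CharZero K] {A X Y : Set K} (hX : InvX A X) (hY : InvX A Y)
    (hno : ¬ ∃ β, EqB A X Y β) :
    ¬ ∃ b : X ≃ Y, @EqvA (aca_G A) X Y _ (aca_act A X hX) (aca_act A Y hY) b := by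
  classical
  rintro ⟨b, hb⟩
  apply hno
  refine ⟨fun x => if hx : x ∈ X then (b ⟨x, hx⟩ : K) else 0, ?_, ?_⟩
  · refine ⟨?_, ?_, ?_⟩
    · intro x hx
      simp only [hx, dif_pos]
      exact (b ⟨x, hx⟩).2
    · intro x hx y hy hxy
      simp only [hx, hy, dif_pos] at hxy
      have := b.injective (Subtype.ext hxy)
      exact congrArg Subtype.val this
    · intro y hy
      refine ⟨(b.symm ⟨y, hy⟩ : K), (b.symm ⟨y, hy⟩).2, ?_⟩
      simp
  · intro τ hτ x hx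
    have h1 := hX τ hτ x hx
    simp only [hx, h1, dif_pos]
    have := congrArg Subtype.val (hb ⟨τ, hτ⟩ ⟨x, hx⟩)
    exact this

lemma aca_card {X : Set K} [Fintype X] : Fintype.card X = X.ncard := by
  rw [← Nat.card_eq_fintype_card, Nat.card_coe_set_eq]

lemma aca_swap [CharZero K] {A X : Set K} (hs : SymOn A X) {x y : K} (hx : x ∈ X) (hy : y ∈ X) :
    ∃ τ, Fx A τ ∧ τ x = y ∧ ∀ z ∈ X, z ≠ x → z ≠ y → τ z = z := by
  classical
  obtain ⟨τ, hτ, h⟩ := hs (Equiv.swap ⟨x, hx⟩ ⟨y, hy⟩)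
  refine ⟨τ, hτ, ?_, fun z hz h1 h2 => ?_⟩
  · have := h ⟨x, hx⟩
    rwa [Equiv.swap_apply_left] at this
  · have := h ⟨z, hz⟩
    rw [Equiv.swap_apply_of_ne_of_ne] at this
    · exact this
    · intro e
      exact h1 (congrArg Subtype.val e)
    · intro e
      exact h2 (congrArg Subtype.val e)

lemma aca_trans [CharZero K] (hAGo : AGoS) {A X Y : Set K} (hX : InvX A X) (hY : InvX A Y)
    (fX : X.Finite) (fY : Y.Finite) (hc : X.ncard = Y.ncard) (h5 : 5 ≤ X.ncard)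
    (sX : SymOn A X) (sY : SymOn A Y) (hno : ¬ ∃ β, EqB A X Y β) :
    ∀ x ∈ X, ∀ x' ∈ X, ∀ y ∈ Y, ∀ y' ∈ Y, ∃ τ, Fx A τ ∧ τ x = x' ∧ τ y = y' := by
  intro x hx x' hx' y hy y' hy'
  obtain ⟨τ₁, h1, h1x, -⟩ := aca_swap sX hx hx'
  have key : ∃ τ, Fx A τ ∧ τ x' = x' ∧ τ (τ₁ y) = y' := by
    by_contra hcon
    push Not at hcon
    haveI := fX.fintype
    haveI := fY.fintype
    letI := aca_act A X hX
    letI := aca_act A Y hY
    have := hAGo (aca_G A) X Y (by rw [aca_card, aca_card, hc]) (by rw [aca_card]; exact h5)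
      (by
        intro π
        obtain ⟨τ, hτ, h⟩ := sY π
        exact ⟨⟨τ, hτ⟩, fun y => Subtype.ext (h y)⟩)
      (by
        intro a b
        obtain ⟨τ, hτ, h, -⟩ := aca_swap sX a.2 b.2
        exact ⟨⟨τ, hτ⟩, Subtype.ext h⟩)
      ⟨⟨x', hx'⟩, ⟨τ₁ y, hY τ₁ h1 y hy⟩, ⟨y', hy'⟩, by
        intro g hg hg'
        exact hcon g.1 g.2 (congrArg Subtype.val hg) (congrArg Subtype.val hg')⟩
    exact aca_noeq hX hY hno this
  obtain ⟨τ₂, h2, h2x, h2y⟩ := key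
  refine ⟨τ₁.trans τ₂, aca_Fx_trans h1 h2, ?_, ?_⟩
  · show τ₂ (τ₁ x) = x'
    rw [h1x, h2x]
  · exact h2y

lemma aca_ker [CharZero K] (hAKer : AKerS) {A X Y : Set K} (hX : InvX A X) (hY : InvX A Y)
    (fX : X.Finite) (fY : Y.Finite) (hc : X.ncard = Y.ncard) (h10 : 10 ≤ X.ncard)
    (sX : SymOn A X) (sY : SymOn A Y) (hno : ¬ ∃ β, EqB A X Y β) [Fintype X] [DecidableEq X]
    (π : Equiv.Perm X) (hπ : Equiv.Perm.sign π = 1) :
    ∃ τ, Fx A τ ∧ (∀ y ∈ Y, τ y = y) ∧ ∀ x : X, τ x = π x := by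
  haveI := fY.fintype
  letI := aca_act A X hX
  letI := aca_act A Y hY
  obtain ⟨g, hg, hg'⟩ := hAKer (aca_G A) X Y (by rw [aca_card, aca_card, hc])
    (by rw [aca_card]; exact h10)
    (by
      intro π
      obtain ⟨τ, hτ, h⟩ := sX π
      exact ⟨⟨τ, hτ⟩, fun y => Subtype.ext (h y)⟩)
    (by
      intro π
      obtain ⟨τ, hτ, h⟩ := sY π
      exact ⟨⟨τ, hτ⟩, fun y => Subtype.ext (h y)⟩)
    (aca_noeq hX hY hno) π hπ
  exact ⟨g.1, g.2, fun y hy => congrArg Subtype.val (hg ⟨y, hy⟩),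
    fun x => congrArg Subtype.val (hg' x)⟩

/-- a 3-cycle `p → a → b → p` -/
lemma aca_cyc {α : Type} [Fintype α] [DecidableEq α] (p a b : α) (h1 : p ≠ a) (h2 : p ≠ b)
    (h3 : a ≠ b) : ∃ π : Equiv.Perm α, Equiv.Perm.sign π = 1 ∧ π p = a ∧
      ∀ x, x ≠ p → x ≠ a → x ≠ b → π x = x := by
  refine ⟨Equiv.swap p b * Equiv.swap p a, ?_, ?_, ?_⟩
  · rw [Equiv.Perm.sign_mul, Equiv.Perm.sign_swap h2, Equiv.Perm.sign_swap h1]
    rfl
  · rw [Equiv.Perm.mul_apply, Equiv.swap_apply_left,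
      Equiv.swap_apply_of_ne_of_ne h1.symm h3]
  · intro x hp ha hb
    rw [Equiv.Perm.mul_apply, Equiv.swap_apply_of_ne_of_ne hp ha,
      Equiv.swap_apply_of_ne_of_ne hp hb]

lemma aca_claim {X : Set K} [Fintype X] [DecidableEq X] (h10 : 10 ≤ X.ncard)
    (h0 : ∀ x ∈ X, x ≠ 0) (κ : K) (x₁ x₂ x₃ x₄ : X)
    (H : ∀ π : Equiv.Perm X, Equiv.Perm.sign π = 1 →
      (π x₁ : K) * π x₂ = κ * ((π x₃ : K) * π x₄)) :
    (x₁ = x₃ ∧ x₂ = x₄) ∨ (x₁ = x₄ ∧ x₂ = x₃) := by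
  -- two further elements
  obtain ⟨a, ha⟩ : ∃ a : X, a ∉ ({x₁, x₂, x₃, x₄} : Finset X) := by
    by_contra hcon
    push Not at hcon
    have h1 : (Finset.univ : Finset X) ⊆ {x₁, x₂, x₃, x₄} := fun x _ => hcon x
    have h2 := Finset.card_le_card h1
    have h3 : ({x₁, x₂, x₃, x₄} : Finset X).card ≤ 4 := Finset.card_le_four
    rw [Finset.card_univ, aca_card] at h2
    omega
  obtain ⟨b, hb⟩ : ∃ b : X, b ∉ insert a ({x₁, x₂, x₃, x₄} : Finset X) := by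
    by_contra hcon
    push Not at hcon
    have h1 : (Finset.univ : Finset X) ⊆ insert a {x₁, x₂, x₃, x₄} := fun x _ => hcon x
    have h2 := Finset.card_le_card h1
    have h3 : ({x₁, x₂, x₃, x₄} : Finset X).card ≤ 4 := Finset.card_le_four
    have h4 := Finset.card_insert_le a ({x₁, x₂, x₃, x₄} : Finset X)
    rw [Finset.card_univ, aca_card] at h2
    omega
  simp only [Finset.mem_insert, Finset.mem_singleton, not_or] at ha hb
  obtain ⟨ha1, ha2, ha3, ha4⟩ := ha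
  obtain ⟨hba, hb1, hb2, hb3, hb4⟩ := hb
  have H1 : (x₁ : K) * x₂ = κ * ((x₃ : K) * x₄) := by
    have := H 1 (by simp)
    simpa using this
  have n1 := h0 _ x₁.2
  have n2 := h0 _ x₂.2
  have n3 := h0 _ x₃.2
  have n4 := h0 _ x₄.2
  have na := h0 _ a.2
  -- the first case
  have case1 : ∀ (y₃ y₄ : X), y₃ = x₁ → y₄ ≠ x₂ → a ≠ y₄ → b ≠ y₄ →
      (∀ π : Equiv.Perm X, Equiv.Perm.sign π = 1 →
      (π x₁ : K) * π x₂ = κ * ((π y₃ : K) * π y₄)) → False := by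
    intro y₃ y₄ e3 e4 ea eb HH
    subst e3
    have G1 : (y₃ : K) * x₂ = κ * ((y₃ : K) * y₄) := by
      have := HH 1 (by simp)
      simpa using this
    have G2 : (x₂ : K) = κ * y₄ := by
      apply mul_left_cancel₀ n1
      rw [G1]; ring
    obtain ⟨π, hs, hp, hf⟩ := aca_cyc x₂ a b (Ne.symm ha2) (Ne.symm hb2) (Ne.symm hba)
    have G3 := HH π hs
    have e4' : π y₄ = y₄ := hf y₄ e4 (Ne.symm ea) (Ne.symm eb)
    have nn : ((π y₃ : X) : K) ≠ 0 := h0 _ (π y₃).2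
    rw [e4', hp] at G3
    have : (a : K) = κ * y₄ := by
      apply mul_left_cancel₀ nn
      rw [G3]; ring
    apply ha2
    exact Subtype.ext (this.trans G2.symm)
  by_cases e13 : x₁ = x₃
  · left
    refine ⟨e13, ?_⟩
    by_contra e24
    exact case1 x₃ x₄ e13.symm (fun h => e24 h.symm) ha4 hb4 H
  by_cases e14 : x₁ = x₄
  · right
    refine ⟨e14, ?_⟩
    by_contra e23
    refine case1 x₄ x₃ e14.symm (fun h => e23 h.symm) ha3 hb3 (fun π hπ => ?_)
    rw [H π hπ]; ring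
  exfalso
  obtain ⟨π, hs, hp, hf⟩ := aca_cyc x₁ a b (Ne.symm ha1) (Ne.symm hb1) (Ne.symm hba)
  obtain ⟨π', hs', hp', hf'⟩ := aca_cyc x₁ b a (Ne.symm hb1) (Ne.symm ha1) hba
  have e3 : π x₃ = x₃ := hf x₃ (Ne.symm e13) (Ne.symm ha3) (Ne.symm hb3)
  have e4 : π x₄ = x₄ := hf x₄ (Ne.symm e14) (Ne.symm ha4) (Ne.symm hb4)
  have e3' : π' x₃ = x₃ := hf' x₃ (Ne.symm e13) (Ne.symm hb3) (Ne.symm ha3)
  have e4' : π' x₄ = x₄ := hf' x₄ (Ne.symm e14) (Ne.symm hb4) (Ne.symm ha4)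
  have G := H π hs
  have G' := H π' hs'
  rw [e3, e4, hp, ← H1] at G
  rw [e3', e4', hp', ← H1] at G'
  by_cases e12 : x₁ = x₂
  · rw [← e12, hp] at G
    rw [← e12, hp'] at G'
    have q1 : (a : K) = x₁ ∨ (a : K) = - x₁ := mul_self_eq_mul_self_iff.1 G
    have q2 : (b : K) = x₁ ∨ (b : K) = - x₁ := mul_self_eq_mul_self_iff.1 G'
    rcases q1 with q1 | q1
    · exact ha1 (Subtype.ext q1)
    rcases q2 with q2 | q2
    · exact hb1 (Subtype.ext q2)
    exact hba (Subtype.ext (q2.trans q1.symm))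
  · have e2 : π x₂ = x₂ := hf x₂ (Ne.symm e12) (Ne.symm ha2) (Ne.symm hb2)
    rw [e2] at G
    exact ha1 (Subtype.ext (mul_right_cancel₀ n2 G))

lemma aca_fin [CharZero K] {A X W : Set K} (hX : InvX A X) (hW : InvX A W) (fX : X.Finite)
    (h10 : 10 ≤ X.ncard) (sX : SymOn A X) (h0 : ∀ x ∈ X, x ≠ 0) {e : K} (he : e ≠ 0)
    (hXW : ∀ x, x ∈ X ↔ ∃ u ∈ W, x = e * u) : EqB A X W (fun x => e⁻¹ * x) := by
  classical
  have hmem : ∀ s : Finset K, s.card ≤ 2 → ∃ z ∈ X, z ∉ s := by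
    intro s hs
    by_contra hcon
    push Not at hcon
    have h1 : X ⊆ (s : Set K) := fun x hx => hcon x hx
    have h2 := Set.ncard_le_ncard h1 s.finite_toSet
    rw [Set.ncard_coe_finset] at h2
    omega
  have fixe : ∀ τ, Fx A τ → τ e = e := by
    intro τ hτ
    have hρ : ∀ x ∈ X, (τ e / e) * x ∈ X := by
      intro x hx
      obtain ⟨u, hu, rfl⟩ := (hXW x).1 hx
      have h1 : τ.symm u ∈ W := hW _ (aca_Fx_symm hτ) u hu
      have h2 : e * τ.symm u ∈ X := (hXW _).2 ⟨_, h1, rfl⟩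
      have h3 := hX τ hτ _ h2
      rw [map_mul, RingEquiv.apply_symm_apply] at h3
      have : τ e / e * (e * u) = τ e * u := by field_simp
      rw [this]; exact h3
    obtain ⟨x, hx, -⟩ := hmem ∅ (by simp)
    have nx := h0 x hx
    have hpow : ∀ k : ℕ, (τ e / e) ^ k * x ∈ X := by
      intro k
      induction k with
      | zero => simpa using hx
      | succ k ih =>
        have := hρ _ ih
        rwa [← mul_assoc, ← pow_succ'] at this
    have halg : IsAlgebraic ℚ (τ e / e) := by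
      have hnoninj : ¬ Function.Injective (fun k : ℕ => (τ e / e) ^ k * x) := by
        intro hinj
        have h1 : (Set.range (fun k : ℕ => (τ e / e) ^ k * x)).Infinite :=
          Set.infinite_range_of_injective hinj
        exact h1 (fX.subset (by rintro _ ⟨k, rfl⟩; exact hpow k))
      rw [Function.Injective] at hnoninj
      push Not at hnoninj
      obtain ⟨i, j, hij, hne⟩ := hnoninj
      have hij' : (τ e / e) ^ i = (τ e / e) ^ j := mul_right_cancel₀ nx hij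
      refine ⟨(Polynomial.X : ℚ[X]) ^ i - Polynomial.X ^ j, ?_, ?_⟩
      · intro h
        have h2 := sub_eq_zero.1 h
        have h3 := congrArg Polynomial.natDegree h2
        rw [Polynomial.natDegree_X_pow, Polynomial.natDegree_X_pow] at h3
        exact hne h3
      · simp [hij']
    by_contra hne
    have hρ1 : τ e / e ≠ 1 := by
      intro h
      rw [div_eq_one_iff_eq he] at h
      exact hne h
    have hxx : (τ e / e) * x ≠ x := by
      intro h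
      apply hρ1
      exact mul_right_cancel₀ nx (h.trans (one_mul x).symm)
    obtain ⟨z, hz, hz2⟩ := hmem {x, (τ e / e) * x} (Finset.card_le_two)
    simp only [Finset.mem_insert, Finset.mem_singleton, not_or] at hz2
    obtain ⟨τ', hτ', h1, h2⟩ := aca_swap sX (hρ x hx) hz
    have h3 : τ' x = x := h2 x hx (Ne.symm hxx) (Ne.symm hz2.1)
    rw [map_mul, hτ'.1 _ halg, h3] at h1
    exact hz2.2 h1.symm
  refine ⟨⟨?_, ?_, ?_⟩, ?_⟩
  · intro x hx
    obtain ⟨u, hu, rfl⟩ := (hXW x).1 hx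
    show e⁻¹ * (e * u) ∈ W
    rw [inv_mul_cancel_left₀ he]; exact hu
  · intro x _ y _ hxy
    exact mul_left_cancel₀ (inv_ne_zero he) hxy
  · intro u hu
    refine ⟨e * u, (hXW _).2 ⟨u, hu, rfl⟩, ?_⟩
    exact inv_mul_cancel_left₀ he u
  · intro τ hτ x _
    show e⁻¹ * τ x = τ (e⁻¹ * x)
    rw [map_mul, map_inv₀, fixe τ hτ]

end aca

theorem ACa_holds (hAGo : AGoS) (hAKer : AKerS) (hRect : RectS) : ACaS := by
  classical
  intro K _ _ c A X U h hno
  obtain ⟨hA, fX, fU, iX, iU, sX, h10, hcard, h0, hn⟩ := h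
  have fX' : (c.σ '' X).Finite := fX.image _
  have fU' : (c.σ '' U).Finite := fU.image _
  have iX' : InvX A (c.σ '' X) := aca_inv c hA iX
  have iU' : InvX A (c.σ '' U) := aca_inv c hA iU
  have sX' : SymOn A (c.σ '' X) := aca_sym c hA sX
  have cX : (c.σ '' X).ncard = X.ncard := Set.ncard_image_of_injective X (aca_sinj c)
  have cU : (c.σ '' U).ncard = U.ncard := Set.ncard_image_of_injective U (aca_sinj c)
  have h0' : ∀ y ∈ c.σ '' X, y ≠ 0 := by
    rintro _ ⟨x, hx, rfl⟩ h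
    exact h0 x hx ((map_eq_zero c.σ).1 h)
  have tr := aca_trans hAGo iX iX' fX fX' cX.symm (by omega) sX sX' hno
  have hne : X.Nonempty := by
    rw [← Set.ncard_pos fX]; omega
  obtain ⟨x₀, hx₀, hx₀1⟩ : ∃ x₀ ∈ X, c.nrm x₀ ≠ 1 := by
    by_contra hcon
    push Not at hcon
    obtain ⟨x₀, hx₀⟩ := hne
    obtain ⟨x, hx, hxne⟩ := Set.exists_ne_of_one_lt_ncard (by omega : 1 < X.ncard) x₀
    obtain ⟨τ, hτ, h1, h2⟩ := tr x₀ hx₀ x hx (c.σ x₀) ⟨x₀, hx₀, rfl⟩ (c.σ x₀) ⟨x₀, hx₀, rfl⟩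
    have h3 := hcon x₀ hx₀
    have h4 := congrArg τ h3
    rw [Cj.nrm, map_mul, h1, h2, map_one] at h4
    rw [Cj.nrm] at h3
    have h5 : c.σ x₀ ≠ 0 := h0' _ ⟨x₀, hx₀, rfl⟩
    exact hxne (mul_right_cancel₀ h5 (h4.trans h3.symm))
  obtain ⟨u, hu, hun⟩ := hn x₀ hx₀ hx₀1
  have hprod : ∀ x ∈ X, ∀ y ∈ c.σ '' X, ∃ u ∈ U, ∃ v ∈ c.σ '' U, x * y = u * v := by
    intro x hx y hy
    obtain ⟨τ, hτ, h1, h2⟩ := tr x₀ hx₀ x hx (c.σ x₀) ⟨x₀, hx₀, rfl⟩ y hy
    refine ⟨τ u, iU τ hτ u hu, τ (c.σ u), iU' τ hτ _ ⟨u, hu, rfl⟩, ?_⟩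
    rw [Cj.nrm, Cj.nrm] at hun
    rw [← map_mul, hun, map_mul, h1, h2]
  haveI := fX.fintype
  haveI := fX'.fintype
  obtain ⟨e, he, hcase⟩ := hRect K fX.toFinset fX'.toFinset fU.toFinset fU'.toFinset
    (by rw [← Set.ncard_eq_toFinset_card _ fX, ← Set.ncard_eq_toFinset_card _ fX', cX])
    (by rw [← Set.ncard_eq_toFinset_card _ fX, ← Set.ncard_eq_toFinset_card _ fU]; exact hcard)
    (by rw [← Set.ncard_eq_toFinset_card _ fX', ← Set.ncard_eq_toFinset_card _ fU', cX, cU]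
        exact hcard)
    (by intro x hx; exact h0 x (by simpa using hx))
    (by intro x hx; exact h0' x (by rwa [Set.Finite.mem_toFinset] at hx))
    (by
      obtain ⟨x, hx⟩ := hne
      exact ⟨x, by simpa using hx⟩)
    (by
      obtain ⟨x, hx⟩ := hne
      exact ⟨c.σ x, by rw [Set.Finite.mem_toFinset]; exact ⟨x, hx, rfl⟩⟩)
    (by
      intro x hx y hy
      rw [Set.Finite.mem_toFinset] at hx hy
      obtain ⟨u, hu, v, hv, huv⟩ := hprod x hx y hy
      exact ⟨u, by rw [Set.Finite.mem_toFinset]; exact hu, v,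
        by rw [Set.Finite.mem_toFinset]; exact hv, huv⟩)
    (by
      intro x₁ h1 x₂ h2 x₃ h3 x₄ h4 y₁ g1 y₂ g2 y₃ g3 y₄ g4 heq
      rw [Set.Finite.mem_toFinset] at h1 h2 h3 h4 g1 g2 g3 g4
      have n1 := h0' _ g1
      have n2 := h0' _ g2
      have H : ∀ π : Equiv.Perm X, Equiv.Perm.sign π = 1 →
          ((π ⟨x₁, h1⟩ : X) : K) * (π ⟨x₂, h2⟩ : X) =
            (y₃ * y₄ / (y₁ * y₂)) * (((π ⟨x₃, h3⟩ : X) : K) * (π ⟨x₄, h4⟩ : X)) := by
        intro π hπ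
        obtain ⟨τ, hτ, hy, hx⟩ := aca_ker hAKer iX iX' fX fX' cX.symm h10 sX sX' hno π hπ
        have hh := congrArg τ heq
        simp only [map_mul] at hh
        rw [hy _ g1, hy _ g2, hy _ g3, hy _ g4] at hh
        rw [← hx ⟨x₁, h1⟩, ← hx ⟨x₂, h2⟩, ← hx ⟨x₃, h3⟩, ← hx ⟨x₄, h4⟩]
        field_simp
        linear_combination hh
      rcases aca_claim h10 h0 _ _ _ _ _ H with ⟨a1, a2⟩ | ⟨a1, a2⟩
      · left
        exact ⟨congrArg Subtype.val a1, congrArg Subtype.val a2⟩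
      · right
        exact ⟨congrArg Subtype.val a1, congrArg Subtype.val a2⟩)
    (by
      intro y₁ g1 y₂ g2 y₃ g3 y₄ g4 heq
      rw [Set.Finite.mem_toFinset] at g1 g2 g3 g4
      have H : ∀ π : Equiv.Perm (c.σ '' X : Set K), Equiv.Perm.sign π = 1 →
          ((π ⟨y₁, g1⟩ : (c.σ '' X : Set K)) : K) * (π ⟨y₂, g2⟩ : (c.σ '' X : Set K)) =
            1 * (((π ⟨y₃, g3⟩ : (c.σ '' X : Set K)) : K) * (π ⟨y₄, g4⟩ : (c.σ '' X : Set K))) := by
        intro π hπ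
        obtain ⟨τ, hτ, hx⟩ := sX' π
        have hh := congrArg τ heq
        simp only [map_mul] at hh
        rw [← hx ⟨y₁, g1⟩, ← hx ⟨y₂, g2⟩, ← hx ⟨y₃, g3⟩, ← hx ⟨y₄, g4⟩, one_mul]
        exact hh
      rcases aca_claim (by rw [cX]; exact h10) h0' _ _ _ _ _ H with ⟨a1, a2⟩ | ⟨a1, a2⟩
      · left
        exact ⟨congrArg Subtype.val a1, congrArg Subtype.val a2⟩
      · right
        exact ⟨congrArg Subtype.val a1, congrArg Subtype.val a2⟩)
  rcases hcase with ⟨h1, -⟩ | ⟨h1, -⟩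
  · left
    refine ⟨e, he, aca_fin iX iU fX h10 sX h0 he ?_⟩
    intro x
    have := h1 x
    simpa only [Set.Finite.mem_toFinset] using this
  · right; left
    refine ⟨e, he, aca_fin iX iU' fX h10 sX h0 he ?_⟩
    intro x
    have := h1 x
    simpa only [Set.Finite.mem_toFinset] using this

end Pool.Agent.LSF
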