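import Pool.Agent.LSF.ADefs
import Pool.Agent.LenSpec.PlBasic

/-!
ACb (linking, case 2).

NOTATION as in ACa: Γ = {τ | Fx A τ}, X' = σ(X), U' = σ(U); στσ ∈ Γ for τ ∈ Γ, so Γ preserves X', U'. β : X → X' equivariant bijection,
σ x0 ≠ β x0 for some x0 ∈ X. Let y0 ∈ X with β y0 = σ x0; y0 ≠ x0. Γ acts on X as the full symmetric group (SymOn), r = |X| ≥ 10.
V(x, y) := x β(y); V(τ x, τ y) = τ V(x, y).
PROOF. (1) V(x, y) = V(x', y') with x ≠ y, x' ≠ y' in X implies {x, y} = {x', y'}: suppose an element z of the list x, y, x', y' occurs exactly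
once in it. Take z' ∈ X not in the list and τ ∈ Γ inducing the transposition (z z'). If z = x: x β(y) = x' β(y') and z' β(y) = x' β(y'),
so x = z' (β(y) ≠ 0; elements of X' are nonzero): contradiction. If z = y: β(y) = β(z'), contradiction. The same for x', y'. So no element occurs
exactly once; as x ≠ y and x' ≠ y', {x, y} = {x', y'}.
(2) nrm x0 = x0 σ x0 = V(x0, y0) ≠ 1: otherwise V(x, y) = 1 for all x ≠ y (Γ is 2-transitive), against (1) (r ≥ 3). So there is u ∈ U with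
u σ(u) = V(x0, y0). If τ ∈ Γ fixes u and u' := σ u, then V(τ x0, τ y0) = V(x0, y0) and by (1) τ preserves {x0, y0}.
(3) APair (α := X, β := U, β' := U'; |U|, |U'| ≤ r): equivariant bijections b : X → U, b' : X → U' with
 (i) b x0 = u, b' y0 = u' or (ii) b y0 = u, b' x0 = u'.
(4) Case (i): x0 β(y0) = b(x0) b'(y0), so by 2-transitivity x β(y) = b(x) b'(y) for all x ≠ y in X. b(x) ≠ 0 (product of nonzero elements). For
x1, x2 ∈ X choose y different from both: x1 / b(x1) = b'(y) / β(y) = x2 / b(x2). So x / b(x) = κ is constant on X, κ ≠ 0, b(x) = κ⁻¹ x on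
X: first type (EqB for x ↦ κ⁻¹ x follows from the properties of b by congruence on X; note τ x ∈ X).
Case (ii): x β(y) = b(y) b'(x) for all x ≠ y, so x / b'(x) = b(y)/β(y) is constant: second type.
-/

namespace Pool.Agent.LSF

open Polynomial Pool.Agent.LenSpec

section acb

variable {K : Type} [Field K] [CharZero K]

/-- the group of automorphisms over `A` -/
def acb_G (A : Set K) : Subgroup (RingAut K) where
  carrier := {τ | Fx A τ}
  mul_mem' := by
    intro a b ha hb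
    refine ⟨fun x hx => ?_, fun x hx => ?_⟩
    · rw [RingAut.mul_apply, hb.1 x hx, ha.1 x hx]
    · rw [RingAut.mul_apply, hb.2 x hx, ha.2 x hx]
  one_mem' := ⟨fun x _ => rfl, fun x _ => rfl⟩
  inv_mem' := by
    intro a ha
    refine ⟨fun x hx => ?_, fun x hx => ?_⟩
    · have h1 := ha.1 x hx
      have h2 : a⁻¹ (a x) = x := by rw [← RingAut.mul_apply, inv_mul_cancel, RingAut.one_apply]
      rw [h1] at h2; exact h2
    · have h1 := ha.2 x hx
      have h2 : a⁻¹ (a x) = x := by rw [← RingAut.mul_apply, inv_mul_cancel, RingAut.one_apply]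
      rw [h1] at h2; exact h2

/-- the action on an invariant set -/
def acb_act (A Y : Set K) (hY : InvX A Y) : MulAction (acb_G A) Y where
  smul g y := ⟨g.1 y, hY g.1 g.2 y y.2⟩
  one_smul y := Subtype.ext rfl
  mul_smul g h y := Subtype.ext rfl

/-- the conjugate of an automorphism -/
def acb_cj (c : Cj K) (τ : K ≃+* K) : K ≃+* K where
  toFun x := c.σ (τ (c.σ x))
  invFun x := c.σ (τ.symm (c.σ x))
  left_inv x := by simp [c.invol]
  right_inv x := by simp [c.invol]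
  map_mul' x y := by simp
  map_add' x y := by simp

theorem acb_cj_fx (c : Cj K) (A : Set K) (hA : ∀ x ∈ A, c.σ x ∈ A) (τ : K ≃+* K) (h : Fx A τ) :
    Fx A (acb_cj c τ) := by
  refine ⟨fun x hx => ?_, fun x hx => ?_⟩
  · have h1 : IsAlgebraic ℚ (c.σ x) := by
      exact hx.algHom (c.σ.toRatAlgHom)
    change c.σ (τ (c.σ x)) = x
    rw [h.1 _ h1, c.invol]
  · change c.σ (τ (c.σ x)) = x
    rw [h.2 _ (hA x hx), c.invol]

theorem acb_inv (c : Cj K) (A Y : Set K) (hA : ∀ x ∈ A, c.σ x ∈ A) (hY : InvX A Y) :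
    InvX A (c.σ '' Y) := by
  rintro τ hτ _ ⟨y, hy, rfl⟩
  refine ⟨acb_cj c τ y, hY _ (acb_cj_fx c A hA τ hτ) y hy, ?_⟩
  change c.σ (c.σ (τ (c.σ y))) = _
  rw [c.invol]

theorem acb_third {X : Set K} (hf : X.Finite) (h10 : 10 ≤ X.ncard) (a b c d : K) :
    ∃ z ∈ X, z ≠ a ∧ z ≠ b ∧ z ≠ c ∧ z ≠ d := by
  classical
  by_contra hcon
  push Not at hcon
  have hsub : X ⊆ (({a, b, c, d} : Finset K) : Set K) := by
    intro z hz
    by_cases h1 : z = a
    · simp [h1]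
    by_cases h2 : z = b
    · simp [h2]
    by_cases h3 : z = c
    · simp [h3]
    have := hcon z hz h1 h2 h3
    simp [this]
  have h1 := Set.ncard_le_ncard hsub (Finset.finite_toSet _)
  rw [Set.ncard_coe_finset] at h1
  have h2 : ({a, b, c, d} : Finset K).card ≤ 4 := Finset.card_le_four
  omega

theorem acb_two {A X : Set K} (hs : SymOn A X) (x y x' y' : K) (hx : x ∈ X) (hy : y ∈ X)
    (hx' : x' ∈ X) (hy' : y' ∈ X) (hxy : x ≠ y) (hxy' : x' ≠ y') :
    ∃ τ, Fx A τ ∧ τ x = x' ∧ τ y = y' := by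
  classical
  set p : X := ⟨x, hx⟩
  set q : X := ⟨y, hy⟩
  set p' : X := ⟨x', hx'⟩
  set q' : X := ⟨y', hy'⟩
  have hpq : p ≠ q := fun h => hxy (congrArg Subtype.val h)
  have hpq' : p' ≠ q' := fun h => hxy' (congrArg Subtype.val h)
  set s := Equiv.swap p p'
  have hsq : s q ≠ p' := by
    intro h
    have : s p = p' := Equiv.swap_apply_left p p'
    exact hpq (s.injective (this.trans h.symm))
  obtain ⟨τ, h1, h2⟩ := hs (s.trans (Equiv.swap (s q) q'))
  refine ⟨τ, h1, ?_, ?_⟩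
  · have h3 := h2 p
    have h4 : (s.trans (Equiv.swap (s q) q')) p = p' := by
      rw [Equiv.trans_apply, show s p = p' from Equiv.swap_apply_left p p',
        Equiv.swap_apply_of_ne_of_ne (Ne.symm hsq) hpq']
    rw [h4] at h3
    exact h3
  · have h3 := h2 q
    have h4 : (s.trans (Equiv.swap (s q) q')) q = q' := by
      rw [Equiv.trans_apply, Equiv.swap_apply_left]
    rw [h4] at h3
    exact h3

theorem acb_swap {A X : Set K} (hs : SymOn A X) (x y : K) (hx : x ∈ X) (hy : y ∈ X) :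
    ∃ τ, Fx A τ ∧ τ x = y ∧ ∀ z ∈ X, z ≠ x → z ≠ y → τ z = z := by
  classical
  obtain ⟨τ, h1, h2⟩ := hs (Equiv.swap ⟨x, hx⟩ ⟨y, hy⟩)
  refine ⟨τ, h1, ?_, ?_⟩
  · have := h2 ⟨x, hx⟩
    rw [Equiv.swap_apply_left] at this
    exact this
  · intro z hz hzx hzy
    have := h2 ⟨z, hz⟩
    rw [Equiv.swap_apply_of_ne_of_ne (fun h => hzx (congrArg Subtype.val h))
      (fun h => hzy (congrArg Subtype.val h))] at this
    exact this

theorem acb_const {A X Y : Set K} (hf : X.Finite) (h10 : 10 ≤ X.ncard)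
    (h0 : ∀ x ∈ X, x ≠ 0) (hinv : InvX A X) (β β' : K → K)
    (hβ : ∀ x ∈ X, β x ≠ 0) (b : X ≃ Y)
    (hb : ∀ τ, Fx A τ → ∀ (x : X) (hx : τ x ∈ X), ((b ⟨τ x, hx⟩ : Y) : K) = τ (b x : K))
    (h : ∀ x y : X, x ≠ y → (x : K) * β y = (b x : K) * β' y) :
    ∃ κ : K, κ ≠ 0 ∧ EqB A X Y (fun x => κ⁻¹ * x) := by
  classical
  obtain ⟨x0, hx0, -⟩ := acb_third hf h10 0 0 0 0
  have hbne : ∀ x : X, (b x : K) ≠ 0 := by
    intro x hx
    obtain ⟨y, hy, hyx, -⟩ := acb_third hf h10 x x x x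
    have h1 := h x ⟨y, hy⟩ (fun e => hyx (congrArg Subtype.val e).symm)
    rw [hx, zero_mul] at h1
    exact mul_ne_zero (h0 x x.2) (hβ y hy) h1
  set κ : K := x0 / (b ⟨x0, hx0⟩ : K) with hκ
  have hκ0 : κ ≠ 0 := div_ne_zero (h0 x0 hx0) (hbne _)
  have hkey : ∀ x : X, (b x : K) = κ⁻¹ * x := by
    intro x
    obtain ⟨y, hy, hyx, hyx0, -⟩ := acb_third hf h10 x x0 x x
    have h1 := h x ⟨y, hy⟩ (fun e => hyx (congrArg Subtype.val e).symm)
    have h2 := h ⟨x0, hx0⟩ ⟨y, hy⟩ (fun e => hyx0 (congrArg Subtype.val e).symm)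
    simp only at h1 h2
    have b1 := hbne x
    have b2 := hbne ⟨x0, hx0⟩
    have b3 := hβ y hy
    have b4 : β' y ≠ 0 := by
      intro e
      rw [e, mul_zero] at h2
      exact mul_ne_zero (h0 x0 hx0) b3 h2
    have b5 := h0 x0 hx0
    rw [hκ, inv_div, div_mul_eq_mul_div, eq_div_iff b5]
    have h3 : (b x : K) * β' y * (x0 * β y) = (x : K) * β y * ((b ⟨x0, hx0⟩ : K) * β' y) := by
      rw [← h1, h2]
    have h4 : (b x : K) * x0 * (β y * β' y) = (b ⟨x0, hx0⟩ : K) * x * (β y * β' y) := by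
      linear_combination h3
    exact mul_right_cancel₀ (mul_ne_zero b3 b4) h4
  refine ⟨κ, hκ0, ⟨⟨?_, ?_, ?_⟩, ?_⟩⟩
  · intro x hx
    change κ⁻¹ * x ∈ Y
    have := hkey ⟨x, hx⟩
    simp only at this
    rw [← this]
    exact (b ⟨x, hx⟩).2
  · intro x _ y _ hxy
    exact mul_left_cancel₀ (inv_ne_zero hκ0) hxy
  · intro y hy
    refine ⟨(b.symm ⟨y, hy⟩ : X), (b.symm ⟨y, hy⟩).2, ?_⟩
    change κ⁻¹ * ((b.symm ⟨y, hy⟩ : X) : K) = y
    rw [← hkey, Equiv.apply_symm_apply]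
  · intro τ hτ x hx
    change κ⁻¹ * τ x = τ (κ⁻¹ * x)
    have h1 := hb τ hτ ⟨x, hx⟩ (hinv τ hτ x hx)
    have h2 := hkey ⟨x, hx⟩
    have h3 := hkey ⟨τ x, hinv τ hτ x hx⟩
    simp only at h1 h2 h3
    rw [← h3, h1, h2]

end acb

theorem ACb_holds (hAPair : APairS) : ACbS := by
  classical
  intro K _ _ c A X U β L hβ ⟨x0, hx0, hne0⟩
  have hf := L.finX
  have h10 := L.ten
  have hβ0 : ∀ y ∈ X, β y ≠ 0 := by
    intro y hy
    obtain ⟨z, hz, hzy⟩ := hβ.bij.mapsTo hy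
    rw [← hzy]
    intro h
    have : c.σ z = c.σ 0 := by rw [h, map_zero]
    exact L.zero z hz (c.σ.injective this)
  have hinj : ∀ x ∈ X, ∀ y ∈ X, β x = β y → x = y := fun x hx y hy h => hβ.bij.injOn hx hy h
  -- (1)
  have key1 : ∀ x ∈ X, ∀ y ∈ X, ∀ x' ∈ X, ∀ y' ∈ X, x ≠ y → x' ≠ y' →
      x * β y = x' * β y' → (x = x' ∧ y = y') ∨ (x = y' ∧ y = x') := by
    intro x hx y hy x' hx' y' hy' hxy hxy' heq
    by_cases h1 : x = x'
    · left
      refine ⟨h1, ?_⟩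
      rw [h1] at heq
      exact hinj y hy y' hy' (mul_left_cancel₀ (L.zero x' hx') heq)
    by_cases h2 : x = y'
    · right
      refine ⟨h2, ?_⟩
      by_contra h3
      obtain ⟨z, hz, hz1, hz2, hz3, hz4⟩ := acb_third hf h10 x y x' y'
      obtain ⟨τ, t1, t2, t3⟩ := acb_swap L.sym y z hy hz
      have e1 : τ (x * β y) = τ (x' * β y') := by rw [heq]
      rw [map_mul, map_mul, ← hβ.equi τ t1 y hy, ← hβ.equi τ t1 y' hy', t2,
        t3 x hx hxy (Ne.symm hz1), t3 x' hx' (Ne.symm h3) (Ne.symm hz3),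
        t3 y' hy' (by rw [← h2]; exact hxy) (Ne.symm hz4), ← heq] at e1
      exact hz2 (hinj z hz y hy (mul_left_cancel₀ (L.zero x hx) e1))
    · exfalso
      obtain ⟨z, hz, hz1, hz2, hz3, hz4⟩ := acb_third hf h10 x y x' y'
      obtain ⟨τ, t1, t2, t3⟩ := acb_swap L.sym x z hx hz
      have e1 : τ (x * β y) = τ (x' * β y') := by rw [heq]
      rw [map_mul, map_mul, ← hβ.equi τ t1 y hy, ← hβ.equi τ t1 y' hy', t2,
        t3 y hy (Ne.symm hxy) (Ne.symm hz2), t3 x' hx' (Ne.symm h1) (Ne.symm hz3),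
        t3 y' hy' (Ne.symm h2) (Ne.symm hz4), ← heq] at e1
      exact hz1 (mul_right_cancel₀ (hβ0 y hy) e1)
  -- (2)
  obtain ⟨y0, hy0, hy0e⟩ := hβ.bij.surjOn (⟨x0, hx0, rfl⟩ : c.σ x0 ∈ c.σ '' X)
  have hxy0 : x0 ≠ y0 := by
    rintro rfl
    exact hne0 hy0e.symm
  have hnrm : c.nrm x0 ≠ 1 := by
    intro h1
    have h1' : x0 * β y0 = 1 := by rw [hy0e]; exact h1
    obtain ⟨z, hz, hz1, hz2, -⟩ := acb_third hf h10 x0 y0 x0 y0
    obtain ⟨τ, t1, t2, t3⟩ := acb_two L.sym x0 y0 x0 z hx0 hy0 hx0 hz hxy0 (Ne.symm hz1)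
    have e1 : τ (x0 * β y0) = τ 1 := by rw [h1']
    rw [map_mul, map_one, ← hβ.equi τ t1 y0 hy0, t2, t3, ← h1'] at e1
    exact hz2 (hinj z hz y0 hy0 (mul_left_cancel₀ (L.zero x0 hx0) e1))
  obtain ⟨u, hu, hun⟩ := L.nrm x0 hx0 hnrm
  have hun' : u * c.σ u = x0 * β y0 := by rw [hy0e]; exact hun
  -- (3)
  have invX' := acb_inv c A X L.conj L.invX
  have invU' := acb_inv c A U L.conj L.invU
  letI i1 : MulAction (acb_G A) X := acb_act A X L.invX
  letI i2 : MulAction (acb_G A) U := acb_act A U L.invU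
  letI i3 : MulAction (acb_G A) (c.σ '' U : Set K) := acb_act A _ invU'
  haveI f1 : Fintype X := L.finX.fintype
  haveI f2 : Fintype U := L.finU.fintype
  haveI f3 : Fintype (c.σ '' U : Set K) := (L.finU.image _).fintype
  have c1 : Fintype.card X = X.ncard := by rw [← Nat.card_eq_fintype_card]; rfl
  have c2 : Fintype.card U = U.ncard := by rw [← Nat.card_eq_fintype_card]; rfl
  have c3 : Fintype.card (c.σ '' U : Set K) = (c.σ '' U).ncard := by
    rw [← Nat.card_eq_fintype_card]; rfl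
  have c4 : (c.σ '' U).ncard ≤ U.ncard := Set.ncard_image_le L.finU
  have hfull : FullA (acb_G A) X := by
    intro π
    obtain ⟨τ, h1, h2⟩ := L.sym π
    exact ⟨⟨τ, h1⟩, fun x => Subtype.ext (h2 x)⟩
  obtain ⟨b, b', hb, hb', hcase⟩ := hAPair (acb_G A) X U (c.σ '' U : Set K)
    (by rw [c1, c2]; exact L.card) (by rw [c1, c3]; exact c4.trans L.card)
    (by rw [c1]; exact h10) hfull ⟨x0, hx0⟩ ⟨y0, hy0⟩ ⟨u, hu⟩ ⟨c.σ u, u, hu, rfl⟩
    (fun h => hxy0 (congrArg Subtype.val h))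
    (by
      intro g hg1 hg2
      have g1 : g.1 u = u := congrArg Subtype.val hg1
      have g2 : g.1 (c.σ u) = c.σ u := congrArg Subtype.val hg2
      have e1 : g.1 x0 * β (g.1 y0) = x0 * β y0 := by
        rw [hβ.equi g.1 g.2 y0 hy0, ← map_mul, ← hun', map_mul, g1, g2]
      rcases key1 (g.1 x0) (L.invX g.1 g.2 x0 hx0) (g.1 y0) (L.invX g.1 g.2 y0 hy0) x0 hx0 y0 hy0
        (fun h => hxy0 (g.1.injective h)) hxy0 e1 with h | h
      · left
        exact ⟨Subtype.ext h.1, Subtype.ext h.2⟩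
      · right
        exact ⟨Subtype.ext h.1, Subtype.ext h.2⟩)
  have hbe : ∀ τ, Fx A τ → ∀ (x : X) (hx : τ x ∈ X), ((b ⟨τ x, hx⟩ : U) : K) = τ (b x : K) := by
    intro τ hτ x hx
    exact congrArg Subtype.val (hb ⟨τ, hτ⟩ x)
  have hbe' : ∀ τ, Fx A τ → ∀ (x : X) (hx : τ x ∈ X),
      ((b' ⟨τ x, hx⟩ : (c.σ '' U : Set K)) : K) = τ (b' x : K) := by
    intro τ hτ x hx
    exact congrArg Subtype.val (hb' ⟨τ, hτ⟩ x)
  rcases hcase with ⟨hc1, hc2⟩ | ⟨hc1, hc2⟩
  · left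
    refine acb_const hf h10 L.zero L.invX β (fun y => if h : y ∈ X then (b' ⟨y, h⟩ : K) else 0)
      hβ0 b hbe ?_
    intro x y hxy
    obtain ⟨τ, t1, t2, t3⟩ := acb_two L.sym x0 y0 x y hx0 hy0 x.2 y.2 hxy0
      (fun h => hxy (Subtype.ext h))
    have e1 : τ (x0 * β y0) = τ (u * c.σ u) := by rw [hun']
    have e2 : (x : K) * β y = τ (x0 * β y0) := by
      rw [map_mul, ← hβ.equi τ t1 y0 hy0, t2, t3]
    have e3 : (b x : K) = τ u := by
      have := hbe τ t1 ⟨x0, hx0⟩ (by change τ x0 ∈ X; rw [t2]; exact x.2)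
      rw [hc1] at this
      rw [← this]
      congr 2
      exact Subtype.ext t2.symm
    have e4 : (b' y : K) = τ (c.σ u) := by
      have := hbe' τ t1 ⟨y0, hy0⟩ (by change τ y0 ∈ X; rw [t3]; exact y.2)
      rw [hc2] at this
      rw [← this]
      congr 2
      exact Subtype.ext t3.symm
    simp only [y.2, dif_pos, Subtype.coe_eta]
    rw [e2, e1, map_mul, e3, e4]
  · right; left
    refine acb_const hf h10 L.zero L.invX β (fun y => if h : y ∈ X then (b ⟨y, h⟩ : K) else 0)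
      hβ0 b' hbe' ?_
    intro x y hxy
    obtain ⟨τ, t1, t2, t3⟩ := acb_two L.sym x0 y0 x y hx0 hy0 x.2 y.2 hxy0
      (fun h => hxy (Subtype.ext h))
    have e1 : τ (x0 * β y0) = τ (u * c.σ u) := by rw [hun']
    have e2 : (x : K) * β y = τ (x0 * β y0) := by
      rw [map_mul, ← hβ.equi τ t1 y0 hy0, t2, t3]
    have e3 : (b y : K) = τ u := by
      have := hbe τ t1 ⟨y0, hy0⟩ (by change τ y0 ∈ X; rw [t3]; exact y.2)
      rw [hc1] at this
      rw [← this]
      congr 2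
      exact Subtype.ext t3.symm
    have e4 : (b' x : K) = τ (c.σ u) := by
      have := hbe' τ t1 ⟨x0, hx0⟩ (by change τ x0 ∈ X; rw [t2]; exact x.2)
      rw [hc2] at this
      rw [← this]
      congr 2
      exact Subtype.ext t2.symm
    simp only [y.2, dif_pos, Subtype.coe_eta]
    rw [e2, e1, map_mul, e3, e4, mul_comm]

end Pool.Agent.LSF
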