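import Pool.Agent.LSF.ADefs

/-!
ACc (linking, case 3).
-/

namespace Pool.Agent.LSF

open Polynomial Pool.Agent.LenSpec

section

variable {K : Type} [Field K] [CharZero K] {c : Cj K}

/-- the conjugation as an automorphism -/
def accS (c : Cj K) : K ≃+* K where
  toFun := c.σ
  invFun := c.σ
  left_inv := c.invol
  right_inv := c.invol
  map_mul' := map_mul c.σ
  map_add' := map_add c.σ

theorem accS_apply (x : K) : accS c x = c.σ x := rfl

theorem acc_alg (x : K) (hx : IsAlgebraic ℚ x) : IsAlgebraic ℚ (c.σ x) := by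
  have : IsAlgebraic ℚ ((c.σ.toRatAlgHom) x) := hx.algHom c.σ.toRatAlgHom
  exact this

theorem acc_conj {A : Set K} (hA : ∀ x ∈ A, c.σ x ∈ A) {τ : K ≃+* K} (hτ : Fx A τ) :
    Fx A ((accS c).trans (τ.trans (accS c))) := by
  refine ⟨fun x hx => ?_, fun x hx => ?_⟩
  · change c.σ (τ (c.σ x)) = x
    rw [hτ.1 _ (acc_alg x hx), c.invol]
  · change c.σ (τ (c.σ x)) = x
    rw [hτ.2 _ (hA x hx), c.invol]

theorem acc_symm {A : Set K} {τ : K ≃+* K} (hτ : Fx A τ) : Fx A τ.symm := by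
  refine ⟨fun x hx => ?_, fun x hx => ?_⟩
  · rw [RingEquiv.symm_apply_eq, hτ.1 x hx]
  · rw [RingEquiv.symm_apply_eq, hτ.2 x hx]

theorem acc_trans {A : Set K} {τ ρ : K ≃+* K} (hτ : Fx A τ) (hρ : Fx A ρ) :
    Fx A (τ.trans ρ) := by
  refine ⟨fun x hx => ?_, fun x hx => ?_⟩
  · change ρ (τ x) = x
    rw [hτ.1 x hx, hρ.1 x hx]
  · change ρ (τ x) = x
    rw [hτ.2 x hx, hρ.2 x hx]

/-- transitivity on `X` -/
theorem acc_one {A X : Set K} (hs : SymOn A X) {x y : K} (hx : x ∈ X) (hy : y ∈ X) :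
    ∃ τ, Fx A τ ∧ τ x = y := by
  classical
  obtain ⟨τ, hτ, h⟩ := hs (Equiv.swap ⟨x, hx⟩ ⟨y, hy⟩)
  refine ⟨τ, hτ, ?_⟩
  have := h ⟨x, hx⟩
  rw [Equiv.swap_apply_left] at this
  exact this

/-- fixing one point and moving another one -/
theorem acc_two {A X : Set K} (hs : SymOn A X) {x y z : K} (hx : x ∈ X) (hy : y ∈ X)
    (hz : z ∈ X) (hxy : x ≠ y) (hxz : x ≠ z) : ∃ τ, Fx A τ ∧ τ x = x ∧ τ y = z := by
  classical
  obtain ⟨τ, hτ, h⟩ := hs (Equiv.swap ⟨y, hy⟩ ⟨z, hz⟩)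
  refine ⟨τ, hτ, ?_, ?_⟩
  · have := h ⟨x, hx⟩
    rw [Equiv.swap_apply_of_ne_of_ne] at this
    · exact this
    · exact fun h => hxy (congrArg Subtype.val h)
    · exact fun h => hxz (congrArg Subtype.val h)
  · have := h ⟨y, hy⟩
    rw [Equiv.swap_apply_left] at this
    exact this

/-- an equivariant map is constant or injective -/
theorem acc_const {A X : Set K} (hs : SymOn A X) (b : K → K)
    (hb : ∀ τ, Fx A τ → ∀ x ∈ X, b (τ x) = τ (b x)) {x y : K} (hx : x ∈ X) (hy : y ∈ X)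
    (hxy : x ≠ y) (h : b x = b y) : ∀ z ∈ X, b z = b x := by
  intro z hz
  by_cases hzx : x = z
  · rw [hzx]
  · obtain ⟨τ, hτ, h1, h2⟩ := acc_two hs hx hy hz hxy hzx
    rw [← h2, hb τ hτ y hy, ← h, ← hb τ hτ x hx, h1]

end

theorem ACc_holds : ACcS := by
  intro K _ _ c R _ _ _ V A X U hL hE
  classical
  have hs := hL.sym
  have htwo : ∃ x ∈ X, ∃ y ∈ X, x ≠ y := by
    have h1 : 1 < X.ncard := by
      have := hL.ten
      omega
    obtain ⟨x, y, hx, hy, hxy⟩ := (Set.one_lt_ncard_iff hL.finX).1 h1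
    exact ⟨x, hx, y, hy, hxy⟩
  have hnrm : ∀ τ, Fx A τ → ∀ x ∈ X, c.nrm (τ x) = τ (c.nrm x) := by
    intro τ hτ x hx
    rw [Cj.nrm, Cj.nrm, hE.equi τ hτ x hx, map_mul]
  by_cases hinj : ∃ x ∈ X, ∃ y ∈ X, x ≠ y ∧ c.nrm x = c.nrm y
  · -- the norm is constant
    obtain ⟨x, hx, y, hy, hxy, h⟩ := hinj
    right; right; left
    exact ⟨c.σ, c.nrm x, hE, fun z hz => acc_const hs c.nrm hnrm hx hy hxy h z hz⟩
  push Not at hinj
  -- the norm is injective
  have hinj' : Set.InjOn c.nrm X := by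
    intro x hx y hy hxy
    by_contra hne
    exact hinj x hx y hy hne hxy
  have hne1 : ∀ x ∈ X, c.nrm x ≠ 1 := by
    intro x hx h1
    obtain ⟨a, ha, b, hb, hab⟩ := htwo
    have h2 : ∀ y ∈ X, c.nrm y = 1 := by
      intro y hy
      obtain ⟨τ, hτ, h3⟩ := acc_one hs hx hy
      rw [← h3, hnrm τ hτ x hx, h1, map_one]
    exact hab (hinj' ha hb ((h2 a ha).trans (h2 b hb).symm))
  have hU1 : ∀ x ∈ X, ∃ u ∈ U, c.nrm u = c.nrm x := fun x hx => hL.nrm x hx (hne1 x hx)
  have himg : c.nrm '' X ⊆ c.nrm '' U := by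
    rintro _ ⟨x, hx, rfl⟩
    obtain ⟨u, hu, h⟩ := hU1 x hx
    exact ⟨u, hu, h⟩
  have hcX : (c.nrm '' X).ncard = X.ncard := hinj'.ncard_image
  have hcU : (c.nrm '' U).ncard ≤ U.ncard := Set.ncard_image_le hL.finU
  have hle : (c.nrm '' X).ncard ≤ (c.nrm '' U).ncard :=
    Set.ncard_le_ncard himg (hL.finU.image _)
  have hcard := hL.card
  have heq : c.nrm '' X = c.nrm '' U := by
    apply Set.eq_of_subset_of_ncard_le himg _ (hL.finU.image _)
    omega
  have hUinj : Set.InjOn c.nrm U := by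
    apply Set.injOn_of_ncard_image_eq _ hL.finU
    omega
  have hUcard : U.ncard = X.ncard := by omega
  -- the maximum
  obtain ⟨a0, ha0, b0, hb0, hab0⟩ := htwo
  obtain ⟨xm, hxm, hmax⟩ := Set.exists_max_image X V.ab hL.finX ⟨a0, ha0⟩
  obtain ⟨um, hum, hnum⟩ := hU1 xm hxm
  have habm : V.ab um = V.ab xm := (V.nrm_iff _ _).1 hnum
  have hposm : 0 < V.ab um := by
    rw [habm]
    exact V.pos _ (hL.zero xm hxm)
  have hUmax : ∀ u ∈ U, V.ab u ≤ V.ab um := by
    intro u hu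
    have h1 : c.nrm u ∈ c.nrm '' X := by
      rw [heq]
      exact ⟨u, hu, rfl⟩
    obtain ⟨x, hx, h2⟩ := h1
    rw [← (V.nrm_iff _ _).1 h2, habm]
    exact hmax x hx
  have habσ : ∀ x, V.ab (c.σ x) = V.ab x := by
    intro x
    rw [← V.nrm_iff, Cj.nrm, Cj.nrm, c.invol, mul_comm]
  have hkey : ∀ τ, Fx A τ → τ xm = xm → τ um = um ∧ τ (c.σ um) = c.σ um := by
    intro τ hτ hxm'
    have h1 : τ (c.nrm xm) = c.nrm xm := by
      rw [← hnrm τ hτ xm hxm, hxm']
    rw [← hnum] at h1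
    set ρ := (accS c).trans (τ.trans (accS c)) with hρ
    have hρ' : Fx A ρ := acc_conj hL.conj hτ
    have h2 : τ (c.σ um) = c.σ (ρ um) := by
      change τ (c.σ um) = c.σ (c.σ (τ (c.σ um)))
      rw [c.invol]
    have h3 : V.ab (τ um) * V.ab (ρ um) = V.ab um * V.ab um := by
      have h4 : τ um * τ (c.σ um) = um * c.σ um := by
        rw [← map_mul]
        exact h1
      have h5 := congrArg V.ab h4
      rw [V.map_mul, V.map_mul, h2, habσ, habσ] at h5
      exact h5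
    have h6 : V.ab (τ um) ≤ V.ab um := hUmax _ (hL.invU τ hτ um hum)
    have h7 : V.ab (ρ um) ≤ V.ab um := hUmax _ (hL.invU ρ hρ' um hum)
    have h8 : 0 < V.ab (τ um) := by
      apply V.pos
      intro h0
      have h9 : um = 0 := by
        have := (map_eq_zero τ).1 h0
        exact this
      rw [h9, V.map_zero] at hposm
      exact lt_irrefl _ hposm
    have h10 : V.ab (ρ um) = V.ab um := by
      apply le_antisymm h7
      by_contra hlt
      push Not at hlt
      have h11 : V.ab (τ um) * V.ab (ρ um) < V.ab um * V.ab um :=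
        mul_lt_mul' h6 hlt (by
          have : 0 ≤ V.ab (ρ um) := by
            by_cases hz : ρ um = 0
            · rw [hz, V.map_zero]
            · exact (V.pos _ hz).le
          exact this) hposm
      exact absurd h3 (ne_of_lt h11)
    have h12 : V.ab (τ um) = V.ab um := by
      rw [h10] at h3
      exact mul_right_cancel₀ hposm.ne' h3
    refine ⟨hUinj (hL.invU τ hτ um hum) hum ((V.nrm_iff _ _).2 h12), ?_⟩
    rw [h2, hUinj (hL.invU ρ hρ' um hum) hum ((V.nrm_iff _ _).2 h10)]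
  -- the bijections
  have hch : ∀ x ∈ X, ∃ τ, Fx A τ ∧ τ xm = x := fun x hx => acc_one hs hxm hx
  choose! θ hθ1 hθ2 using hch
  have hval : ∀ w : K, (∀ τ, Fx A τ → τ xm = xm → τ w = w) → ∀ τ, Fx A τ →
      θ (τ xm) w = τ w := by
    intro w hw τ hτ
    have hm : τ xm ∈ X := hL.invX τ hτ xm hxm
    have h1 := hw ((θ (τ xm)).trans τ.symm) (acc_trans (hθ1 _ hm) (acc_symm hτ)) (by
      change τ.symm (θ (τ xm) xm) = xm
      rw [hθ2 _ hm, RingEquiv.symm_apply_apply])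
    have h2 : τ.symm (θ (τ xm) w) = w := h1
    rw [RingEquiv.symm_apply_eq] at h2
    exact h2
  have hequi : ∀ w : K, (∀ τ, Fx A τ → τ xm = xm → τ w = w) → ∀ τ, Fx A τ → ∀ x ∈ X,
      θ (τ x) w = τ (θ x w) := by
    intro w hw τ hτ x hx
    have h1 := hval w hw ((θ x).trans τ) (acc_trans (hθ1 x hx) hτ)
    change θ (τ (θ x xm)) w = τ (θ x w) at h1
    rw [hθ2 x hx] at h1
    exact h1
  have hself : ∀ w : K, (∀ τ, Fx A τ → τ xm = xm → τ w = w) → θ xm w = w := by
    intro w hw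
    exact hw (θ xm) (hθ1 xm hxm) (hθ2 xm hxm)
  have hw1 : ∀ τ, Fx A τ → τ xm = xm → τ um = um := fun τ h1 h2 => (hkey τ h1 h2).1
  have hw2 : ∀ τ, Fx A τ → τ xm = xm → τ (c.σ um) = c.σ um := fun τ h1 h2 => (hkey τ h1 h2).2
  -- `um` is not fixed
  have hnf : ¬ ∀ τ, Fx A τ → τ um = um := by
    intro hf
    have h1 : ∀ τ, Fx A τ → c.nrm (τ xm) = c.nrm xm := by
      intro τ hτ
      rw [hnrm τ hτ xm hxm, ← hnum, Cj.nrm, map_mul, hf τ hτ]
      have h2 := hf _ (acc_conj hL.conj hτ)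
      change c.σ (τ (c.σ um)) = um at h2
      have h3 : τ (c.σ um) = c.σ um := by
        rw [← c.invol (τ (c.σ um)), h2]
      rw [h3]
    have h2 : ∀ x ∈ X, x = xm := by
      intro x hx
      obtain ⟨τ, hτ, h3⟩ := acc_one hs hxm hx
      apply hinj' hx hxm
      rw [← h3]
      exact h1 τ hτ
    exact hab0 ((h2 a0 ha0).trans (h2 b0 hb0).symm)
  have hinj1 : Set.InjOn (fun x => θ x um) X := by
    intro x hx y hy hxy
    by_contra hne
    apply hnf
    intro τ hτ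
    have h1 := acc_const hs (fun x => θ x um) (hequi um hw1) hx hy hne hxy
    have h2 := h1 xm hxm
    have h3 := h1 (τ xm) (hL.invX τ hτ xm hxm)
    rw [hself um hw1] at h2
    rw [hval um hw1 τ hτ, ← h2] at h3
    exact h3
  have hinj2 : Set.InjOn (fun x => θ x (c.σ um)) X := by
    intro x hx y hy hxy
    by_contra hne
    apply hnf
    have h0 : ∀ τ, Fx A τ → τ (c.σ um) = c.σ um := by
      intro τ hτ
      have h1 := acc_const hs (fun x => θ x (c.σ um)) (hequi _ hw2) hx hy hne hxy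
      have h2 := h1 xm hxm
      have h3 := h1 (τ xm) (hL.invX τ hτ xm hxm)
      rw [hself _ hw2] at h2
      rw [hval _ hw2 τ hτ, ← h2] at h3
      exact h3
    intro τ hτ
    have h2 := h0 _ (acc_conj hL.conj hτ)
    change c.σ (τ (c.σ (c.σ um))) = c.σ um at h2
    rw [c.invol] at h2
    rw [← c.invol (τ um), h2, c.invol]
  have hbij : ∀ (w : K) (W : Set K), W.Finite → W.ncard = X.ncard →
      Set.InjOn (fun x => θ x w) X → (∀ x ∈ X, θ x w ∈ W) → Set.BijOn (fun x => θ x w) X W := by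
    intro w W hfin hc hi hm
    refine ⟨hm, hi, ?_⟩
    have h1 : (fun x => θ x w) '' X = W := by
      apply Set.eq_of_subset_of_ncard_le _ _ hfin
      · rintro _ ⟨x, hx, rfl⟩
        exact hm x hx
      · rw [hi.ncard_image, hc]
    intro y hy
    rw [← h1] at hy
    exact hy
  right; right; right
  refine ⟨c.σ, fun x => θ x um, fun x => θ x (c.σ um), hE, ⟨?_, hequi um hw1⟩,
    ⟨?_, hequi _ hw2⟩, ?_⟩
  · exact hbij um U hL.finU hUcard hinj1 (fun x hx => hL.invU _ (hθ1 x hx) um hum)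
  · apply hbij (c.σ um) (c.σ '' U) (hL.finU.image _) _ hinj2
    · intro x hx
      refine ⟨((accS c).trans ((θ x).trans (accS c))) um,
        hL.invU _ (acc_conj hL.conj (hθ1 x hx)) um hum, ?_⟩
      change c.σ (c.σ (θ x (c.σ um))) = _
      rw [c.invol]
    · rw [Set.ncard_image_of_injective _ c.σ.injective, hUcard]
  · intro x hx
    have h1 : xm * c.σ xm = um * c.σ um := hnum.symm
    have h2 := congrArg (θ x) h1
    rw [map_mul, map_mul, ← hE.equi _ (hθ1 x hx) xm hxm, hθ2 x hx] at h2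
    exact h2

end Pool.Agent.LSF
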