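import Pool.Agent.LSF.ADefs
import Pool.Agent.LenSpec.L7

/-!
ACol (the structure of collisions).
-/

namespace Pool.Agent.LSF

open Polynomial Pool.Agent.LenSpec

theorem ACol_inj {F : Type} [Field F] {d n : ℕ} {t a : F} (ha : (T d t)^[n] a = a)
    (hex : ∀ m, 0 < m → m < n → (T d t)^[m] a ≠ a) (i j : ℕ) (hi : i < n) (hj : j < n)
    (h : (T d t)^[i] a = (T d t)^[j] a) : i = j := by
  have key : ∀ i j : ℕ, i < j → j < n → (T d t)^[i] a = (T d t)^[j] a → False := by
    intro i j hij hj h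
    apply hex (n - j + i) (by omega) (by omega)
    rw [Function.iterate_add_apply, h, ← Function.iterate_add_apply, Nat.sub_add_cancel hj.le, ha]
  rcases lt_trichotomy i j with h1 | h1 | h1
  · exact absurd h (fun h => key i j h1 hj h)
  · exact h1
  · exact absurd h.symm (fun h => key j i h1 hi h)

theorem ACol_symm {F : Type} [Field F] {d n : ℕ} {t x y : F} (hn : 1 ≤ n)
    (hy : (T d t)^[n] y = y) (h : ∀ k, y ≠ (T d t)^[k] x) : ∀ k, x ≠ (T d t)^[k] y := by
  intro k hk
  have h1 : k ≤ n * k := Nat.le_mul_of_pos_left k hn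
  apply h (n * k - k)
  rw [hk, ← Function.iterate_add_apply, Nat.sub_add_cancel h1]
  have h2 : Function.IsPeriodicPt (T d t) n y := hy
  exact (h2.mul_const k).symm

theorem ACol_holds (hAQn : AQnS) (hJ0 : J0S) (hJ1 : J1S) (hL4 : L4S) : AColS := by
  classical
  intro F Ω _ _ _ φ _ _ _ t p t₀ d n x y ht hp ht₀ hd hn hx hx1 hy hy1 horb hxy
  have hn1 : 1 ≤ n := hn.one_lt.le
  obtain ⟨Γ, _, v, hv1, hvt⟩ := hJ0 F Ω t ht
  obtain ⟨D⟩ := J1_data (F := F) v t d hv1 hvt hd
  obtain ⟨P, hPc, hP, hPp⟩ := D.card_roots (n := n) hn1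
  obtain ⟨hQf, hQc⟩ := hAQn F φ d n t₀ hd hn1
  have hL := hL4 F Ω t p t₀ d n ht hp ht₀ hd
  have horb' := ACol_symm hn1 hy horb
  have hT : ∀ z, (T d t)^[n] z = z → p.rs (T d t z) = T d t₀ (p.rs z) :=
    fun z hz => (hL.1 z hz hn1).2.2.2
  have hTi : ∀ z, (T d t)^[n] z = z → ∀ k, p.rs ((T d t)^[k] z) = (T d t₀)^[k] (p.rs z) := by
    intro z hz k
    induction k with
    | zero => rfl
    | succ k ih =>
      rw [Function.iterate_succ_apply', Function.iterate_succ_apply', hT _ (J1_iter_per hz k), ih]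
  have hmem : ∀ z, (T d t)^[n] z = z → (T d t₀)^[n] (p.rs z) = p.rs z := by
    intro z hz
    rw [← hTi z hz n, hz]
  have hconst : ∀ (q : F) (k : ℕ), p.Red ((T d t)^[k] (algebraMap F Ω q)) ((T d t₀)^[k] q) := by
    intro q k
    induction k with
    | zero => exact hp.const q
    | succ k ih =>
      rw [Function.iterate_succ_apply', Function.iterate_succ_apply']
      exact (ih.pow d).add ht₀
  have hsurj : ∀ q, (T d t₀)^[n] q = q → ∃ w ∈ P, p.rs w = q := by
    intro q hq
    have h1 : p.Red ((T d t)^[n] (algebraMap F Ω q) - algebraMap F Ω q) 0 := by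
      have h2 := (hconst q n).sub (hp.const q)
      rw [hq, sub_self] at h2
      exact h2
    have h2 : (T d t)^[n] (algebraMap F Ω q) - algebraMap F Ω q =
        ∏ w ∈ P, (algebraMap F Ω q - w) := by
      have h3 := congrArg (eval (algebraMap F Ω q)) hPp
      rw [eval_sub, eval_X, J1q_eval, eval_prod] at h3
      simpa using h3
    have h3 : p.Red (∏ w ∈ P, (algebraMap F Ω q - w)) (∏ w ∈ P, (q - p.rs w)) := by
      apply Pl.red_prod
      intro w hw
      exact (hp.const q).sub (Pl.red_rs (hp.int w (L7_int t w d n hd hn1 ((hP w).1 hw))))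
    rw [← h2] at h3
    have h4 := h3.unique h1
    rw [Finset.prod_eq_zero_iff] at h4
    obtain ⟨w, hw, h5⟩ := h4
    exact ⟨w, hw, (sub_eq_zero.1 h5).symm⟩
  -- injectivity outside one orbit
  have hinj : ∀ a b : Ω, (T d t)^[n] a = a → (T d t)^[n] b = b → T d t a ≠ a →
      (∀ k, b ≠ (T d t)^[k] a) → p.rs a = p.rs b →
      Set.InjOn p.rs {w | (T d t)^[n] w = w ∧ ∀ k < n, w ≠ (T d t)^[k] a} := by
    intro a b ha hb ha1 hab hrs
    set O := (Finset.range n).image (fun i => (T d t)^[i] a) with hO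
    have hOc : O.card = n := by
      rw [hO, Finset.card_image_of_injOn, Finset.card_range]
      intro i hi j hj hij
      exact ACol_inj ha (L7_exact hn ha ha1) i j (Finset.mem_range.1 hi) (Finset.mem_range.1 hj) hij
    have hOP : O ⊆ P := by
      intro w hw
      rw [hO, Finset.mem_image] at hw
      obtain ⟨i, -, rfl⟩ := hw
      exact (hP _).2 (J1_iter_per ha i)
    have hcard : (P \ O).card ≤ hQf.toFinset.card := by
      rw [Finset.card_sdiff_of_subset hOP, hPc, hOc]
      rw [Set.ncard_eq_toFinset_card _ hQf] at hQc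
      omega
    have hI := Finset.injOn_of_surjOn_of_card_le p.rs (s := P \ O) (t := hQf.toFinset) (by
      intro w hw
      have h1 : w ∈ P \ O := hw
      rw [Finset.mem_sdiff] at h1
      have h2 : p.rs w ∈ hQf.toFinset := by
        rw [Set.Finite.mem_toFinset]
        exact hmem w ((hP w).1 h1.1)
      exact h2) (by
      intro q hq
      have h1 : q ∈ hQf.toFinset := hq
      rw [Set.Finite.mem_toFinset] at h1
      obtain ⟨w, hw, hwq⟩ := hsurj q h1
      by_cases hwO : w ∈ O
      · rw [hO, Finset.mem_image] at hwO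
        obtain ⟨i, hi, rfl⟩ := hwO
        have hin : i < n := Finset.mem_range.1 hi
        refine ⟨(T d t)^[i] b, ?_, ?_⟩
        · have h2 : (T d t)^[i] b ∈ P \ O := by
            rw [Finset.mem_sdiff]
            refine ⟨(hP _).2 (J1_iter_per hb i), ?_⟩
            intro h3
            rw [hO, Finset.mem_image] at h3
            obtain ⟨j, -, hj⟩ := h3
            have hj' : (T d t)^[j] a = (T d t)^[i] b := hj
            apply hab (n - i + j)
            rw [Function.iterate_add_apply, hj', ← Function.iterate_add_apply,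
              Nat.sub_add_cancel hin.le, hb]
          exact h2
        · rw [hTi b hb i, ← hrs, ← hTi a ha i]
          exact hwq
      · have h2 : w ∈ P \ O := by
          rw [Finset.mem_sdiff]
          exact ⟨hw, hwO⟩
        exact ⟨w, h2, hwq⟩) hcard
    intro u hu w hw huw
    have hmemPO : ∀ u, ((T d t)^[n] u = u ∧ ∀ k < n, u ≠ (T d t)^[k] a) → u ∈ P \ O := by
      intro u hu
      rw [Finset.mem_sdiff, hP, hO, Finset.mem_image]
      refine ⟨hu.1, ?_⟩
      rintro ⟨j, hj, hj'⟩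
      exact hu.2 j (Finset.mem_range.1 hj) hj'.symm
    exact hI (hmemPO u hu) (hmemPO w hw) huw
  have hix := hinj x y hx hy hx1 horb hxy
  have hiy := hinj y x hy hx hy1 horb' hxy.symm
  have hxney : x ≠ y := horb' 0
  have hL2 := hL.2.1 x y hn1 hxney hx hy hxy
  have hfix : T d t₀ (p.rs x) ≠ p.rs x := by
    intro h
    have h1 : p.rs y = p.rs (T d t y) := by
      rw [hT y hy, ← hxy, h]
    have h2 : y = T d t y := by
      apply hix ⟨hy, fun k _ => horb k⟩ ⟨J1_iter_per hy 1, ?_⟩ h1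
      intro k _ hk
      apply horb (n - 1 + k)
      rw [Function.iterate_add_apply, ← hk]
      rw [← Function.iterate_add_apply, Nat.sub_add_cancel hn1, hy]
    exact hy1 h2.symm
  have hex := L7_exact hn hL2.1 hfix
  refine ⟨hfix, hL2.1, hL2.2, ?_⟩
  intro u w hu hw huw hrs
  have h1 : (∃ i < n, u = (T d t)^[i] x) ∨ (∃ i < n, w = (T d t)^[i] x) := by
    by_contra hcon
    rw [not_or] at hcon
    apply huw
    apply hix ⟨hu, ?_⟩ ⟨hw, ?_⟩ hrs
    · intro k hk h
      exact hcon.1 ⟨k, hk, h⟩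
    · intro k hk h
      exact hcon.2 ⟨k, hk, h⟩
  have h2 : (∃ i < n, u = (T d t)^[i] y) ∨ (∃ i < n, w = (T d t)^[i] y) := by
    by_contra hcon
    rw [not_or] at hcon
    apply huw
    apply hiy ⟨hu, ?_⟩ ⟨hw, ?_⟩ hrs
    · intro k hk h
      exact hcon.1 ⟨k, hk, h⟩
    · intro k hk h
      exact hcon.2 ⟨k, hk, h⟩
  have hdisj : ∀ i j : ℕ, j < n → (T d t)^[i] x ≠ (T d t)^[j] y := by
    intro i j hj h
    apply horb (n - j + i)
    rw [Function.iterate_add_apply, h, ← Function.iterate_add_apply, Nat.sub_add_cancel hj.le, hy]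
  have hij : ∀ i j, i < n → j < n → p.rs ((T d t)^[i] x) = p.rs ((T d t)^[j] y) → i = j := by
    intro i j hi hj h
    rw [hTi x hx, hTi y hy, ← hxy] at h
    exact ACol_inj hL2.1 hex i j hi hj h
  rcases h1 with ⟨i, hi, h1⟩ | ⟨i, hi, h1⟩
  · rcases h2 with ⟨j, hj, h2⟩ | ⟨j, hj, h2⟩
    · exact absurd (h1.symm.trans h2) (hdisj i j hj)
    · have h3 := hij i j hi hj (by rw [← h1, ← h2, hrs])
      subst h3
      exact ⟨i, hi, Or.inl ⟨h1, h2⟩⟩
  · rcases h2 with ⟨j, hj, h2⟩ | ⟨j, hj, h2⟩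
    · have h3 := hij i j hi hj (by rw [← h1, ← h2, hrs])
      subst h3
      exact ⟨i, hi, Or.inr ⟨h2, h1⟩⟩
    · exact absurd (h1.symm.trans h2) (hdisj i j hj)

end Pool.Agent.LSF
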