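import Pool.Agent.LSF.ADefs
import Pool.Agent.LenSpec.L7

/-!
ACut (a collision across every cut).
-/

namespace Pool.Agent.LSF

open Polynomial Pool.Agent.LenSpec

theorem ACut_holds (hJ0 : J0S) (hJ1 : J1S) (hJ2 : J2S) (hL1 : L1S) : ACutS := by
  classical
  intro F Ω _ _ _ _ _ _ t d n ht halg hd hn1 A B hAB hmem hAne hBne
  obtain ⟨Γ, _, v, hv1, hvt⟩ := hJ0 F Ω t ht
  have hAint : ∀ x ∈ A, IntT F t x := fun x hx =>
    L7_int t x d n hd hn1 ((hmem x).mp (Or.inl hx)).1
  have hBint : ∀ x ∈ B, IntT F t x := fun x hx =>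
    L7_int t x d n hd hn1 ((hmem x).mp (Or.inr hx)).1
  -- the resultant
  set ρ : Ω := ∏ x ∈ A, ∏ y ∈ B, (x - y) with hρ
  have hρint : IntT F t ρ := by
    apply IsIntegral.prod
    intro x hx
    apply IsIntegral.prod
    intro y hy
    exact (hAint x hx).sub (hBint y hy)
  have hconj : ∀ τ : Ω ≃ₐ[F] Ω, τ t = t → 1 < v (τ ρ) := by
    intro τ hτ
    have h1 : τ ρ = ∏ x ∈ A.image τ, ∏ y ∈ B.image τ, (x - y) := by
      rw [hρ, map_prod, Finset.prod_image (fun x _ y _ h => τ.injective h)]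
      apply Finset.prod_congr rfl
      intro x _
      rw [map_prod, Finset.prod_image (fun x _ y _ h => τ.injective h)]
      apply Finset.prod_congr rfl
      intro y _
      rw [map_sub]
    have hper : ∀ w, ((T d t)^[n] (τ w) = τ w ∧ T d t (τ w) ≠ τ w) ↔
        ((T d t)^[n] w = w ∧ T d t w ≠ w) := by
      intro w
      have h2 : (T d t)^[n] (τ w) = τ ((T d t)^[n] w) := (L7_tau t d τ hτ n w).symm
      have h3 : T d t (τ w) = τ (T d t w) := (L7_tau t d τ hτ 1 w).symm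
      rw [h2, h3, ne_eq, ne_eq, τ.injective.eq_iff, τ.injective.eq_iff]
    rw [h1]
    apply hJ2 F Ω Γ v t d n hv1 hvt hd hn1
    · rw [Finset.disjoint_left]
      intro w hw1 hw2
      rw [Finset.mem_image] at hw1 hw2
      obtain ⟨x, hx, hxw⟩ := hw1
      obtain ⟨y, hy, hyw⟩ := hw2
      have h4 : x = y := τ.injective (hxw.trans hyw.symm)
      rw [← h4] at hy
      exact (Finset.disjoint_left.mp hAB) hx hy
    · intro w
      rw [Finset.mem_image, Finset.mem_image]
      constructor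
      · rintro (⟨x, hx, rfl⟩ | ⟨x, hx, rfl⟩)
        · exact (hper x).mpr ((hmem x).mp (Or.inl hx))
        · exact (hper x).mpr ((hmem x).mp (Or.inr hx))
      · intro h
        obtain ⟨x, rfl⟩ := τ.surjective w
        rcases (hmem x).mpr ((hper x).mp h) with h4 | h4
        · exact Or.inl ⟨x, h4, rfl⟩
        · exact Or.inr ⟨x, h4, rfl⟩
    · exact hAne.image _
    · exact hBne.image _
  obtain ⟨p, hp, hpρ⟩ := hL1 F Ω Γ v t ρ ht halg hv1 hvt hρint hconj
  -- two points that collide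
  obtain ⟨x, hx, y, hy, hxy⟩ : ∃ x ∈ A, ∃ y ∈ B, p.rs x = p.rs y := by
    have h1 : p.Red ρ (∏ x ∈ A, ∏ y ∈ B, (p.rs x - p.rs y)) := by
      apply Pl.red_prod
      intro x hx
      apply Pl.red_prod
      intro y hy
      exact (Pl.red_rs (hp.int x (hAint x hx))).sub (Pl.red_rs (hp.int y (hBint y hy)))
    have h2 := h1.unique hpρ
    rw [Finset.prod_eq_zero_iff] at h2
    obtain ⟨x, hx, h3⟩ := h2
    rw [Finset.prod_eq_zero_iff] at h3
    obtain ⟨y, hy, h4⟩ := h3
    exact ⟨x, hx, y, hy, sub_eq_zero.mp h4⟩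
  have htint : IntT F t t := by
    have ht' : t ∈ Algebra.adjoin F ({t} : Set Ω) := Algebra.subset_adjoin (Set.mem_singleton _)
    exact (isIntegral_algebraMap (R := Algebra.adjoin F ({t} : Set Ω)) (A := Ω) (x := ⟨t, ht'⟩))
  exact ⟨p, p.rs t, hp, Pl.red_rs (hp.int t htint), x, hx, y, hy, hxy⟩

end Pool.Agent.LSF
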