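import Pool.Agent.LSF.ADefs
import Pool.Agent.LenSpec.PlBasic

/-!
ADst (different cycles of the generic map have different multipliers).
-/

namespace Pool.Agent.LSF

open Polynomial Pool.Agent.LenSpec

theorem ADst_holds (hAQ0 : AQ0S) (hP1 : P1S) (hB8 : B8S) : ADstS := by
  classical
  intro K _ _ _ d n f hd hf hn z z' hz hz' he
  obtain ⟨F, a, b, t, s, hFc, haF, hbF, ha, hb, hS⟩ := hAQ0 K d f hd hf
  have hev := fun z => (hB8 K f.num f.den a b ha hb z).1
  have hper := fun z n => ((hB8 K f.num f.den a b ha hb z).2 n).1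
  have hmul := fun z n => ((hB8 K f.num f.den a b ha hb z).2 n).2
  have hit : ∀ (k : ℕ) (z : K), (ev (C (a * b) * f.num.comp (C a⁻¹ * X))
      (C b * f.den.comp (C a⁻¹ * X)))^[k] (a * z) = a * (ev f.num f.den)^[k] z := by
    intro k
    induction k with
    | zero => intro z; rfl
    | succ k ih =>
      intro z
      rw [Function.iterate_succ_apply, hev, ih, Function.iterate_succ_apply]
  have : IsAlgClosed F := hFc
  obtain ⟨k, hk⟩ := (hP1 K F d n _ _ t s hS hn).2 (a * z) (a * z') ((hper z n).2 hz)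
    ((hper z' n).2 hz') (by rw [hmul, hmul]; exact he)
  rw [hit] at hk
  exact ⟨k, mul_left_cancel₀ ha hk⟩

end Pool.Agent.LSF
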