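import Pool.Agent.LSF.ADefs
import Pool.Agent.LenSpec.L7

/-!
AEdge (a transposition of two cycles across every cut).
-/

namespace Pool.Agent.LSF

open Polynomial Pool.Agent.LenSpec

theorem AEdge_holds (hACut : ACutS) (hAGcl : AGclS) (hAUnr : AUnrS) (hAInert : AInertS) (hACol : AColS) (hAFac : AFacS) (hL4 : L4S) (hJ0 : J0S) (hJ1 : J1S) (hQD2 : QD2S) : AEdgeS := by
  classical
  intro F Ω _ _ _ φ _ _ _ t d ht halg hd S
  obtain ⟨S', hSS', hS'⟩ := hAGcl F Ω t halg S
  obtain ⟨Bad, hBad⟩ := hAUnr F Ω t ht halg S'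
  choose N1 hN1 using fun t₀ : F => L7_bound1 hQD2 φ d hd t₀
  obtain ⟨Γ, _, v, hv1, hvt⟩ := hJ0 F Ω t ht
  obtain ⟨D⟩ := J1_data (F := F) v t d hv1 hvt hd
  refine ⟨Bad.sup N1 + 1, ?_⟩
  intro n hn hn₀ A B hAB hmem hAT hBT hAne hBne
  have hn1 : 1 ≤ n := hn.one_lt.le
  obtain ⟨p, t₀, hp, ht₀, x, hxA, y, hyB, hxy⟩ :=
    hACut F Ω t d n ht halg hd hn1 A B hAB hmem hAne hBne
  have hxper := (hmem x).1 (Or.inl hxA)
  have hyper := (hmem y).1 (Or.inr hyB)
  have hA' : ∀ k, (T d t)^[k] x ∈ A := by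
    intro k
    induction k with
    | zero => exact hxA
    | succ k ih =>
      rw [Function.iterate_succ_apply']
      exact hAT _ ih
  have hB' : ∀ k, (T d t)^[k] y ∈ B := by
    intro k
    induction k with
    | zero => exact hyB
    | succ k ih =>
      rw [Function.iterate_succ_apply']
      exact hBT _ ih
  have horb : ∀ k, y ≠ (T d t)^[k] x := by
    intro k hk
    have h1 := hA' k
    rw [← hk] at h1
    exact Finset.disjoint_left.1 hAB h1 hyB
  have horb' : ∀ k, x ≠ (T d t)^[k] y := by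
    intro k hk
    have h1 := hB' k
    rw [← hk] at h1
    exact Finset.disjoint_left.1 hAB hxA h1
  obtain ⟨c1, c2, c3, c4⟩ := hACol F Ω φ t p t₀ d n x y ht hp ht₀ hd hn hxper.1 hxper.2
    hyper.1 hyper.2 horb hxy
  have hbad : t₀ ∉ Bad := by
    intro h
    have h1 := Finset.le_sup (f := N1) h
    have h2 := hN1 t₀ n hn ⟨p.rs x, c2, c1, c3⟩
    omega
  obtain ⟨P, _, hP, _⟩ := D.card_roots (n := n) hn1
  have hper : ∀ τ : Ω ≃ₐ[F] Ω, τ t = t → ∀ w, (T d t)^[n] w = w → (T d t)^[n] (τ w) = τ w := by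
    intro τ hτ w hw
    rw [← L7_tau t d τ hτ n w, hw]
  have hZ : ∀ τ : Ω ≃ₐ[F] Ω, τ t = t → ∀ z ∈ P ∪ S', τ z ∈ P ∪ S' := by
    intro τ hτ z hz
    rcases Finset.mem_union.1 hz with h | h
    · exact Finset.mem_union_left _ ((hP _).2 (hper τ hτ z ((hP z).1 h)))
    · exact Finset.mem_union_right _ (hS' τ hτ z h)
  obtain ⟨α, hα, β, hβ, u, hu, b, hb, iα, iβ, iu, ib, rα, rβ, rb, he⟩ :=
    hAFac F Ω φ t p t₀ d n x y ht hp ht₀ hd hn hxper.1 hxper.2 hyper.1 hyper.2 horb hxy (P ∪ S')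
      (fun z hz => Finset.mem_union_left _ ((hP z).2 hz))
  obtain ⟨τ, hτt, ⟨z, hzZ, hτz⟩, hτr⟩ := hAInert F Ω t p t₀ (P ∪ S') ht halg hp ht₀ hZ
    α hα β hβ u hu b hb iα iβ iu ib rα rβ rb he
  have hmono : IntermediateField.adjoin F (insert t (S' : Set Ω)) ≤
      IntermediateField.adjoin F (insert t ((P ∪ S' : Finset Ω) : Set Ω)) := by
    apply IntermediateField.adjoin.mono
    apply Set.insert_subset_insert
    intro w hw
    simp only [Finset.coe_union, Set.mem_union]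
    exact Or.inr hw
  have hfix : ∀ s ∈ S', τ s = s := hBad p hp t₀ ht₀ hbad τ hτt (fun s hs => hS' τ hτt s hs)
    (fun a ha ia => hτr a (hmono ha) ia)
  have hzP : z ∈ P := by
    rcases Finset.mem_union.1 hzZ with h | h
    · exact h
    · exact absurd (hfix z h) hτz
  have hred : ∀ w, (T d t)^[n] w = w → p.rs (τ w) = p.rs w := by
    intro w hw
    have hwint : IntT F t w := L7_int t w d n hd hn1 hw
    have hwZ : w ∈ (insert t ((P ∪ S' : Finset Ω) : Set Ω)) := by
      right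
      simp only [Finset.coe_union, Set.mem_union]
      exact Or.inl ((hP w).2 hw)
    have h1 := hτr w (IntermediateField.subset_adjoin _ _ hwZ) hwint
    have h2 := Pl.red_rs (hp.int w hwint)
    have h3 := h1.add h2
    rw [sub_add_cancel, zero_add] at h3
    exact h3.rs_eq
  have hmv : ∀ w, (T d t)^[n] w = w → τ w ≠ w →
      ∃ i < n, (w = (T d t)^[i] x ∧ τ w = (T d t)^[i] y) ∨
        (w = (T d t)^[i] y ∧ τ w = (T d t)^[i] x) := by
    intro w hw hne
    exact c4 w (τ w) hw (hper τ hτt w hw) hne.symm (hred w hw).symm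
  have hback : ∀ (i : ℕ) (a c : Ω), i < n → (T d t)^[n] a = a → (T d t)^[n] c = c →
      τ ((T d t)^[i] a) = (T d t)^[i] c → τ a = c := by
    intro i a c hi ha hc h
    have h1 : (T d t)^[n - i] ((T d t)^[i] a) = a := by
      rw [← Function.iterate_add_apply, Nat.sub_add_cancel hi.le, ha]
    have h2 : (T d t)^[n - i] ((T d t)^[i] c) = c := by
      rw [← Function.iterate_add_apply, Nat.sub_add_cancel hi.le, hc]
    rw [← h2, ← h, ← L7_tau t d τ hτt, h1]
  have hxy' : x ≠ y := horb' 0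
  have key1 : τ x = y → τ y = x := by
    intro h
    have hne : τ y ≠ y := by
      intro h1
      exact hxy' (τ.injective (h.trans h1.symm))
    obtain ⟨j, hj, h1 | h1⟩ := hmv y hyper.1 hne
    · exact absurd h1.1 (horb j)
    · rcases Nat.eq_zero_or_pos j with rfl | hj0
      · exact h1.2
      · exact absurd h1.1.symm (L7_exact hn hyper.1 hyper.2 j hj0 hj)
  have key2 : τ y = x → τ x = y := by
    intro h
    have hne : τ x ≠ x := by
      intro h1
      exact hxy' (τ.injective (h1.trans h.symm))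
    obtain ⟨j, hj, h1 | h1⟩ := hmv x hxper.1 hne
    · rcases Nat.eq_zero_or_pos j with rfl | hj0
      · exact h1.2
      · exact absurd h1.1.symm (L7_exact hn hxper.1 hxper.2 j hj0 hj)
    · exact absurd h1.1 (horb' j)
  have hsw : τ x = y ∧ τ y = x := by
    obtain ⟨i, hi, h1 | h1⟩ := hmv z ((hP z).1 hzP) hτz
    · have h2 : τ x = y := hback i x y hi hxper.1 hyper.1 (by rw [← h1.1, h1.2])
      exact ⟨h2, key1 h2⟩
    · have h2 : τ y = x := hback i y x hi hyper.1 hxper.1 (by rw [← h1.1, h1.2])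
      exact ⟨key2 h2, h2⟩
  refine ⟨τ, hτt, fun s hs => hfix s (hSS' hs), x, hxA, y, hyB, hsw.1, hsw.2, ?_⟩
  intro w hw hwx hwy
  by_contra hne
  obtain ⟨i, -, h1 | h1⟩ := hmv w hw hne
  · exact hwx i h1.1
  · exact hwy i h1.1

end Pool.Agent.LSF
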