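import Pool.Agent.LSF.ADefs
import Pool.Agent.LenSpec.PlBasic
import Pool.Agent.LenSpec.Z3
import Pool.Agent.LenSpec.FG

/-!
AFG (the generic map is in general position).
-/

namespace Pool.Agent.LSF

open Polynomial Pool.Agent.LenSpec

/-- a place at which `f` reduces to `z ^ m / z ^ m'` -/
theorem AFG_place {K : Type} [Field K] [IsAlgClosed K] [CharZero K] (hV1 : V1S)
    {d : ℕ} (f : RatMap K d) (hf : AlgebraicIndependent ℚ f.coef) (m m' : ℕ) :
    ∃ (κ : Type) (_ : Field κ) (_ : CharZero κ) (p : Pl K κ),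
      (∀ j : Fin (d + 1), p.Red (f.num.coeff j) (if (j : ℕ) = m then 1 else 0)) ∧
      (∀ j : Fin (d + 1), p.Red (f.den.coeff j) (if (j : ℕ) = m' then 1 else 0)) := by
  let e : CI d → K := Sum.elim (fun j => if (j : ℕ) = m then 1 else 0)
    (fun j => if (j : ℕ) = m' then 1 else 0)
  have hite : ∀ (q : Prop) [Decidable q], (if q then (1 : K) else 0) ∈ algebraicClosure ℚ K := by
    intro q _
    split_ifs
    · exact one_mem _
    · exact zero_mem _
  obtain ⟨κ, _, _, p, -, hk, hx⟩ := hV1 K (algebraicClosure ℚ K) (CI d) f.coef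
    e hf.algebraicClosure (by
      rintro (i | i) <;> exact hite _)
  have h01 : ∀ (q : Prop) [Decidable q],
      p.Red (if q then (1 : K) else 0) (if q then (1 : κ) else 0) := by
    intro q _
    split_ifs
    · exact Pl.red_one
    · exact Pl.red_zero
  refine ⟨κ, inferInstance, inferInstance, p, ?_, ?_⟩
  · intro j
    exact ((hx (Sum.inl j)).add (h01 ((j : ℕ) = m))).eq
      (by simp [RatMap.coef, e]) (by rw [zero_add])
  · intro j
    exact ((hx (Sum.inr j)).add (h01 ((j : ℕ) = m'))).eq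
      (by simp [RatMap.coef, e]) (by rw [zero_add])

/-- a power of an element that reduces to an integer `e`, `|e| ≥ 2` -/
theorem AFG_key {K κ : Type} [Field K] [Field κ] [CharZero κ] (p : Pl K κ) (x : K)
    (e : ℤ) (he : 2 ≤ e.natAbs) (h1 : p.Red x (e : κ)) (n : ℕ)
    (hn : 1 ≤ n) : x ^ n ≠ 1 ∧ x ^ n ≠ 0 := by
  have hp := h1.pow n
  refine ⟨?_, ?_⟩
  · intro h
    rw [h] at hp
    exact fg_pow_ne_one e n he hn (hp.unique Pl.red_one)
  · intro h
    rw [h] at hp
    have h3 : (e : κ) ^ n = 0 := hp.unique Pl.red_zero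
    have h4 : (e : κ) ≠ 0 := by
      have : e ≠ 0 := by
        rintro rfl
        simp at he
      exact_mod_cast this
    exact pow_ne_zero n h4 h3

theorem AFG_holds (hFN : FNS) (hV1 : V1S) (hZ1 : Z1S) (hZ2 : Z2S) (hA6 : A6S) (hG1 : G1S) : AFGS := by
  intro K _ _ _ d f hd2 hf
  have hno : NoInf d f.num f.den := hFN K d f (by omega) hf
  obtain ⟨κ, _, _, p, h1, h2⟩ := AFG_place hV1 f hf d 0
  obtain ⟨κ', _, _, p', h1', h2'⟩ := AFG_place hV1 f hf 0 d
  have a1 : p.RedP f.num (X ^ d) := Z3.redP_of p d d le_rfl _ f.num_le h1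
  have a2 : p.RedP f.den 1 := by
    rw [← pow_zero X]
    exact Z3.redP_of p d 0 (Nat.zero_le d) _ f.den_le h2
  have b1 : p'.RedP f.num 1 := by
    rw [← pow_zero X]
    exact Z3.redP_of p' d 0 (Nat.zero_le d) _ f.num_le h1'
  have b2 : p'.RedP f.den (X ^ d) := Z3.redP_of p' d d le_rfl _ f.den_le h2'
  have hp : ∀ n z, 2 ≤ n → PerX f.num f.den n z →
      p.Red (mult f.num f.den n z) ((d : κ) ^ n) := fun n z hn hz =>
    (hZ1 K κ p d n f hd2 hn a1 a2 z hz).2.2.2
  have hp' : ∀ z, PerX f.num f.den 1 z → p'.Red (mult f.num f.den 1 z) (-(d : κ')) :=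
    fun z hz => hZ2 K κ' p' d f hd2 b1 b2 z hz
  have key : ∀ n z, 1 ≤ n → Per f.num f.den n z →
      mult f.num f.den n z ≠ 1 ∧ mult f.num f.den n z ≠ 0 := by
    intro n z hn hz
    obtain ⟨m, ⟨q, hq⟩, hm1, hmX, hmult⟩ := hA6 K f.num f.den n z hn hz
    have hm0 : 0 < m := hm1
    have hnm : n / m = q := by
      rw [hq, Nat.mul_div_cancel_left q hm0]
    have hq1 : 1 ≤ q := by
      rcases Nat.eq_zero_or_pos q with h0 | h0
      · rw [h0, mul_zero] at hq
        omega
      · exact h0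
    rw [hmult, hnm]
    rcases hm1.lt_or_eq with hm2 | hm2
    · refine AFG_key p _ ((d : ℤ) ^ m) ?_ ?_ q hq1
      · rw [Int.natAbs_pow, Int.natAbs_natCast]
        calc 2 ≤ d := hd2
          _ = d ^ 1 := (pow_one d).symm
          _ ≤ d ^ m := Nat.pow_le_pow_right (by omega) hm1
      · exact (hp m z hm2 hmX).eq rfl (by push_cast; rfl)
    · subst hm2
      refine AFG_key p' _ (-(d : ℤ)) ?_ ?_ q hq1
      · rw [Int.natAbs_neg, Int.natAbs_natCast]
        exact hd2
      · exact (hp' z hmX).eq rfl (by push_cast; rfl)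
  have hgood : Good f := ⟨hd2, hno, fun n z hn hz => (key n z hn hz).1⟩
  refine ⟨hgood, ?_⟩
  intro n hn x hx
  obtain ⟨-, -, -, hroots, hspec⟩ := hG1 K d n f hgood hn
  rw [hspec, Multiset.mem_map] at hx
  obtain ⟨z, hz, rfl⟩ := hx
  exact (key n z hn ((hroots z).1 hz)).2

end Pool.Agent.LSF
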