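import Pool.Agent.LSF.ADefs
import Pool.Agent.LenSpec.L7
import Pool.Agent.LenSpec.L5
import Pool.Agent.LenSpec.L3

/-!
AFac (t - t₀ is divisible by two elements that vanish at p).

PROOF. z0 = p.rs x ∈ F. α = algebraMap z0 - x, β = algebraMap z0 - y, u = ∏_{w ∈ P_n, w ≠ x, y} (algebraMap z0 - w), where P_n = {w | T^[n] w = w} (finite, d^n elements,
J1q d t n - X = ∏_{w ∈ P_n} (X - C w): see J1_data / card_roots as used in L7.lean). They are integral (L7_int) and in adjoin F (insert t Z). p.Red α 0, p.Red β 0.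
E := the polynomial l5g of Pool/Agent/LenSpec/L5.lean with (l5g d z0 n).eval t₁ = (T d t₁)^[n] z0 for all t₁, minus C z0; E.eval t₀ = 0 (ACol: T0^[n] z0 = z0), so
E = (X - C t₀) * G; G.eval t₀ = (derivative E).eval t₀ = Dt d t₀ z0 n (l5g_deriv) ≠ 0 by QD1 (exact period n: ACol and n prime, L7_exact; Tm = 1). B := aeval t G: integral, in adjoin F {t},
p.Red B (G.eval t₀), so not p.Red B 0. aeval t E = T^[n] z0 - z0 = ∏_{w ∈ P_n} (z0 - w) = α β u (x ≠ y in P_n). See the proof of l5_holds in L5.lean for the same computation.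
-/

namespace Pool.Agent.LSF

open Polynomial Pool.Agent.LenSpec

theorem AFac_prod_mem {F Ω : Type} [Field F] [Field Ω] [Algebra F Ω] (E : IntermediateField F Ω)
    (t : Ω) (s : Multiset Ω) (h : ∀ z ∈ s, z ∈ E ∧ IntT F t z) :
    s.prod ∈ E ∧ IntT F t s.prod := by
  induction s using Multiset.induction with
  | empty =>
    rw [Multiset.prod_zero]
    exact ⟨one_mem _, isIntegral_one⟩
  | cons a s ih =>
    rw [Multiset.prod_cons]
    have h1 := h a (Multiset.mem_cons_self a s)
    have h2 := ih fun z hz => h z (Multiset.mem_cons_of_mem hz)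
    exact ⟨mul_mem h1.1 h2.1, IsIntegral.mul h1.2 h2.2⟩

theorem AFac_holds (hACol : AColS) (hQD1 : QD1S) (hJ0 : J0S) (hJ1 : J1S) : AFacS := by
  intro F Ω _ _ _ φ _ _ _ t p t₀ d n x y htr hp ht hd hnp hx hx1 hy hy1 hxy hrs Z hZ
  classical
  have hn : 1 ≤ n := hnp.one_lt.le
  obtain ⟨hfix, hper, hTm, -⟩ := hACol F Ω φ t p t₀ d n x y htr hp ht hd hnp hx hx1 hy hy1 hxy hrs
  obtain ⟨z₀, hz₀⟩ : ∃ z₀, z₀ = p.rs x := ⟨_, rfl⟩
  rw [← hz₀] at hper hTm hfix
  have hDt := hQD1 F φ d n t₀ z₀ hd hn hper (L7_exact hnp hper hfix) hTm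
  obtain ⟨G, hG⟩ : ∃ G : F[X], G = l5g d z₀ n - C z₀ := ⟨_, rfl⟩
  have hG0 : G.IsRoot t₀ := by
    rw [IsRoot, hG, eval_sub, l5g_eval, eval_C, hper, sub_self]
  obtain ⟨G1, hG1⟩ := dvd_iff_isRoot.mpr hG0
  have hG1' : G1.eval t₀ = Dt d t₀ z₀ n := by
    have h1 : (derivative G).eval t₀ = Dt d t₀ z₀ n := by
      rw [hG, derivative_sub, derivative_C, sub_zero, l5g_deriv]
    rw [← h1, hG1, derivative_mul]
    simp
  have hGt : aeval t G = (T d t)^[n] (algebraMap F Ω z₀) - algebraMap F Ω z₀ := by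
    rw [hG, map_sub, l5g_aeval, aeval_C]
  have hGt1 : aeval t G = (t - algebraMap F Ω t₀) * aeval t G1 := by
    rw [hG1, map_mul, map_sub, aeval_X, aeval_C]
  set E := IntermediateField.adjoin F (insert t (Z : Set Ω)) with hE
  have hZE : ∀ z, (T d t)^[n] z = z → z ∈ E := fun z hz =>
    IntermediateField.subset_adjoin _ _ (Set.mem_insert_of_mem _ (by exact_mod_cast hZ z hz))
  have hZint : ∀ z, (T d t)^[n] z = z → IntT F t z := fun z hz => L7_int t z d n hd hn hz
  set c : Ω := algebraMap F Ω z₀ with hc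
  have hcE : c ∈ E := IntermediateField.algebraMap_mem _ _
  have hcint : IntT F t c := l5_const_int t z₀
  have hcred : p.Red c z₀ := hp.const z₀
  -- the polynomial W
  obtain ⟨W, hW⟩ : ∃ W : Polynomial Ω, W = l4W d t n - X := ⟨_, rfl⟩
  have hWm : W.Monic := by
    rw [hW]
    exact l5_monic d t hd n hn
  have hWev : ∀ z, W.eval z = (T d t)^[n] z - z := fun z => by rw [hW, l5_eval]
  have hroots : ∀ z ∈ W.roots, (T d t)^[n] z = z := by
    intro z hz
    have h1 := (mem_roots hWm.ne_zero).mp hz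
    rw [IsRoot, hWev] at h1
    exact sub_eq_zero.mp h1
  have hyx : y ≠ x := hxy 0
  have hle : ({x, y} : Finset Ω).val ≤ W.roots := by
    rw [Multiset.le_iff_subset ({x, y} : Finset Ω).nodup]
    intro z hz
    have hz1 : z = x ∨ z = y := by
      have : z ∈ ({x, y} : Finset Ω) := hz
      simpa using this
    rw [mem_roots hWm.ne_zero, IsRoot, hWev]
    rcases hz1 with rfl | rfl
    · rw [hx, sub_self]
    · rw [hy, sub_self]
  obtain ⟨R, hR⟩ : ∃ R : Multiset Ω, R = W.roots - ({x, y} : Finset Ω).val := ⟨_, rfl⟩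
  have hRroots : W.roots = ({x, y} : Finset Ω).val + R := by
    rw [hR, add_tsub_cancel_of_le hle]
  have hRmem : ∀ z ∈ R, (T d t)^[n] z = z := by
    intro z hz
    apply hroots
    rw [hRroots]
    exact Multiset.mem_add.2 (Or.inr hz)
  have hWc : W.eval c = (c - x) * (c - y) * (R.map (fun z => c - z)).prod := by
    have h1 := (IsAlgClosed.splits W).eq_prod_roots
    rw [hWm.leadingCoeff, map_one, one_mul] at h1
    rw [h1, hRroots, Multiset.map_add, Multiset.prod_add, eval_mul, eval_multiset_prod,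
      eval_multiset_prod, Multiset.map_map, Multiset.map_map]
    have h2 : (({x, y} : Finset Ω).val.map ((eval c) ∘ fun z => X - C z)).prod =
        ∏ z ∈ ({x, y} : Finset Ω), (c - z) := by
      show _ = (Multiset.map (fun z => c - z) ({x, y} : Finset Ω).val).prod
      congr 1
      apply Multiset.map_congr rfl
      intro z _
      simp
    rw [h2, Finset.prod_pair (Ne.symm hyx)]
    congr 2
    apply Multiset.map_congr rfl
    intro z _
    simp
  have hu := AFac_prod_mem E t (R.map (fun z => c - z)) (by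
    intro z hz
    obtain ⟨w, hw, rfl⟩ := Multiset.mem_map.1 hz
    exact ⟨sub_mem hcE (hZE w (hRmem w hw)), IsIntegral.sub hcint (hZint w (hRmem w hw))⟩)
  have hB : aeval t G1 ∈ Algebra.adjoin F ({t} : Set Ω) := by
    rw [Algebra.adjoin_singleton_eq_range_aeval]
    exact ⟨G1, rfl⟩
  have hle2 : Algebra.adjoin F ({t} : Set Ω) ≤ E.toSubalgebra := by
    rw [Algebra.adjoin_le_iff]
    intro w hw
    rw [Set.mem_singleton_iff] at hw
    rw [hw]
    exact IntermediateField.subset_adjoin _ _ (Set.mem_insert _ _)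
  refine ⟨c - x, sub_mem hcE (hZE x hx), c - y, sub_mem hcE (hZE y hy), _, hu.1, aeval t G1,
    hle2 hB, IsIntegral.sub hcint (hZint x hx), IsIntegral.sub hcint (hZint y hy), hu.2,
    L3.int_coe ⟨_, hB⟩, ?_, ?_, ?_, ?_⟩
  · have h1 := hcred.sub (Pl.red_rs (hp.int x (hZint x hx)))
    rw [← hz₀, sub_self] at h1
    exact h1
  · have h1 := hcred.sub (Pl.red_rs (hp.int y (hZint y hy)))
    rw [← hrs, ← hz₀, sub_self] at h1
    exact h1
  · intro h0
    have h1 := (l5_red_aeval hp ht G1).unique h0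
    exact hDt (by rw [← hG1', h1])
  · rw [← hWc, hWev, ← hGt, hGt1]
    ring

end Pool.Agent.LSF
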