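import Pool.Agent.LSF.ADefs

/-!
AGcl (finite stable sets).
-/

namespace Pool.Agent.LSF

open Polynomial Pool.Agent.LenSpec

theorem AGcl_holds : AGclS := by
  classical
  intro F Ω _ _ _ _ _ _ t halg S
  set E := IntermediateField.adjoin F ({t} : Set Ω) with hE
  refine ⟨S ∪ S.biUnion (fun s => ((minpoly E s).aroots Ω).toFinset), Finset.subset_union_left, ?_⟩
  intro τ hτ s hs
  have hfix : ∀ x : E, τ (x : Ω) = x := by
    intro x
    have h1 : E ≤ IntermediateField.fixedField (Subgroup.zpowers τ) := by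
      rw [hE, IntermediateField.adjoin_le_iff]
      intro y hy
      rw [Set.mem_singleton_iff] at hy
      rw [hy]
      rintro ⟨g, hg⟩
      obtain ⟨k, rfl⟩ := Subgroup.mem_zpowers_iff.1 hg
      have h2 : τ ∈ MulAction.stabilizer (Ω ≃ₐ[F] Ω) t := hτ
      exact (Subgroup.zpow_mem _ h2 k)
    exact h1 x.2 ⟨τ, Subgroup.mem_zpowers τ⟩
  let σ : Ω →ₐ[E] Ω := { τ.toAlgHom.toRingHom with commutes' := fun x => hfix x }
  have hσ : ∀ x, σ x = τ x := fun x => rfl
  rw [Finset.mem_union, Finset.mem_biUnion]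
  right
  have key : ∃ s₀ ∈ S, s ∈ ((minpoly E s₀).aroots Ω).toFinset := by
    rw [Finset.mem_union, Finset.mem_biUnion] at hs
    rcases hs with hs | hs
    · refine ⟨s, hs, ?_⟩
      rw [Multiset.mem_toFinset, mem_aroots]
      exact ⟨minpoly.ne_zero (halg s).isIntegral, minpoly.aeval E s⟩
    · exact hs
  obtain ⟨s₀, hs₀, h⟩ := key
  refine ⟨s₀, hs₀, ?_⟩
  rw [Multiset.mem_toFinset, mem_aroots] at h ⊢
  refine ⟨h.1, ?_⟩
  rw [← hσ, aeval_algHom_apply, h.2, map_zero]

end Pool.Agent.LSF
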