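import Pool.Agent.LSF.ADefs
import Pool.Agent.LenSpec.PlBasic

/-!
AGo (an equivariant bijection from intransitivity).

STATEMENT: Γ acts on α and β, card α = card β = r ≥ 5, on β as the full symmetric group, transitively on α, and the stabilizer of some
x in α is not transitive on β. Then there is an equivariant bijection α ≃ β.
PROOF. Let S = stabilizer of x (in Γ). y' is not in the S-orbit of y, so β has at least two S-orbits and one of them, O (a Finset of β),
has k = |O| ≤ r / 2 elements, k ≥ 1. S O = O. For x1 = g x put O(x1) := g O: well defined (g x = g' x ⇒ g⁻¹ g' ∈ S), and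
O(g x1) = g O(x1). The set {O(x1)} of k-subsets of β is Γ-invariant and nonempty; Γ acts on β as Perm β, so transitively on k-subsets: the
map x1 ↦ O(x1) is surjective onto the k-subsets of β, hence C(r, k) ≤ r. For 2 ≤ k ≤ r/2: C(r, k) ≥ C(r, 2) = r (r-1)/2 > r
(r ≥ 5). So k = 1, O(x1) = {b(x1)}, b : α → β is equivariant and surjective, hence bijective (same cardinality).
(Equivalent: directly, if k ≥ 2 ...; C(r,k) ≥ C(r,2) by Nat.choose_le_succ_of_lt_half_left and induction.)
Transitivity on k-subsets: for finsets O, O' of β with the same card there is π : Perm β with O.map π = O' (extend an equivalence,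
Equiv.extendSubtype or Finset.exists... ), then take g with g • y = π y.
-/

namespace Pool.Agent.LSF

open Polynomial Pool.Agent.LenSpec
open scoped Pointwise

theorem ago_choose (r k : ℕ) (hr : 5 ≤ r) (hk : 1 ≤ k) (hk2 : k ≤ r / 2)
    (h : r.choose k ≤ r) : k = 1 := by
  by_contra hne
  have h2 : 2 ≤ k := by omega
  have mono : ∀ j, 2 ≤ j → j ≤ r / 2 → r.choose 2 ≤ r.choose j := by
    intro j hj
    induction j, hj using Nat.le_induction with
    | base => intro _; exact le_rfl
    | succ j hj ih =>
      intro hj2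
      exact (ih (by omega)).trans (Nat.choose_le_succ_of_lt_half_left (by omega))
  have h3 := mono k h2 hk2
  rw [Nat.choose_two_right] at h3
  have h4 : 2 * r ≤ r * (r - 1) / 2 := by
    rw [Nat.le_div_iff_mul_le (by norm_num)]
    obtain ⟨s, rfl⟩ : ∃ s, r = s + 5 := ⟨r - 5, by omega⟩
    simp only [Nat.add_succ_sub_one]
    nlinarith
  omega

theorem ago_trans {Γ β : Type} [Group Γ] [MulAction Γ β] [Fintype β] [DecidableEq β]
    (hF : FullA Γ β) (O O' : Finset β) (h : O.card = O'.card) : ∃ g : Γ, g • O = O' := by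
  let e : {y // y ∈ O} ≃ {y // y ∈ O'} := Finset.equivOfCardEq h
  obtain ⟨g, hg⟩ := hF e.extendSubtype
  refine ⟨g, ?_⟩
  apply Finset.eq_of_subset_of_card_le
  · intro z hz
    rw [Finset.mem_smul_finset] at hz
    obtain ⟨y, hy, rfl⟩ := hz
    rw [hg]
    exact e.extendSubtype_mem y hy
  · rw [Finset.card_smul_finset, h]

theorem AGo_holds : AGoS := by
  classical
  intro Γ α β _ _ _ _ _ hcard h5 hF htr hex
  obtain ⟨x, y, y', hxy⟩ := hex
  -- an invariant small set
  have hO : ∃ O : Finset β, O.Nonempty ∧ 2 * O.card ≤ Fintype.card β ∧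
      ∀ g : Γ, g • x = x → g • O = O := by
    let O1 : Finset β := Finset.univ.filter (fun z => ∃ g : Γ, g • x = x ∧ g • y = z)
    have hO1 : ∀ g : Γ, g • x = x → g • O1 = O1 := by
      have key : ∀ g : Γ, g • x = x → g • O1 ⊆ O1 := by
        intro g hg z hz
        rw [Finset.mem_smul_finset] at hz
        obtain ⟨w, hw, rfl⟩ := hz
        rw [Finset.mem_filter] at hw ⊢
        obtain ⟨-, g', hg', rfl⟩ := hw
        exact ⟨Finset.mem_univ _, g * g', by rw [mul_smul, hg', hg], mul_smul _ _ _⟩
      intro g hg
      exact Finset.eq_of_subset_of_card_le (key g hg) (by rw [Finset.card_smul_finset])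
    have hy : y ∈ O1 := by
      rw [Finset.mem_filter]
      exact ⟨Finset.mem_univ _, 1, one_smul _ _, one_smul _ _⟩
    have hy' : y' ∉ O1 := by
      rw [Finset.mem_filter]
      rintro ⟨-, g, hg, hg'⟩
      exact hxy g hg hg'
    by_cases hc : 2 * O1.card ≤ Fintype.card β
    · exact ⟨O1, ⟨y, hy⟩, hc, hO1⟩
    · refine ⟨O1ᶜ, ⟨y', by simpa using hy'⟩, ?_, ?_⟩
      · rw [Finset.card_compl]; omega
      · intro g hg
        have : g • O1ᶜ ⊆ O1ᶜ := by
          intro z hz
          rw [Finset.mem_smul_finset] at hz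
          obtain ⟨w, hw, rfl⟩ := hz
          rw [Finset.mem_compl] at hw ⊢
          intro hcon
          apply hw
          rw [← hO1 g hg, Finset.smul_mem_smul_finset_iff] at hcon
          exact hcon
        exact Finset.eq_of_subset_of_card_le this (by rw [Finset.card_smul_finset])
  obtain ⟨O, hOne, hOc, hOinv⟩ := hO
  choose G hG using htr x
  let F : α → Finset β := fun x1 => G x1 • O
  have hFg : ∀ (g : Γ) (x1 : α), F (g • x1) = g • F x1 := by
    intro g x1
    change G (g • x1) • O = g • (G x1 • O)
    have h1 : (((g * G x1)⁻¹ * G (g • x1)) : Γ) • x = x := by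
      rw [mul_smul, hG, inv_smul_eq_iff, mul_smul, hG]
    have h2 := hOinv _ h1
    rw [mul_smul, inv_smul_eq_iff, mul_smul] at h2
    exact h2
  have hFx : F x = O := hOinv _ (hG x)
  have hFc : ∀ x1, (F x1).card = O.card := fun x1 => Finset.card_smul_finset _ _
  have hsurj : ∀ O' : Finset β, O'.card = O.card → ∃ x1, F x1 = O' := by
    intro O' hO'
    obtain ⟨g, hg⟩ := ago_trans hF O O' hO'.symm
    exact ⟨g • x, by rw [hFg, hFx, hg]⟩
  have hchoose : (Fintype.card β).choose O.card ≤ Fintype.card β := by
    have h1 : (Finset.powersetCard O.card (Finset.univ : Finset β)).card ≤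
        (Finset.univ : Finset α).card := by
      apply Finset.card_le_card_of_surjOn F
      intro O' hO'
      rw [Finset.mem_coe, Finset.mem_powersetCard] at hO'
      obtain ⟨x1, hx1⟩ := hsurj O' hO'.2
      exact ⟨x1, by simp, hx1⟩
    rw [Finset.card_powersetCard, Finset.card_univ, Finset.card_univ, hcard] at h1
    exact h1
  have hk : O.card = 1 := by
    apply ago_choose (Fintype.card β) O.card (by omega) (Finset.card_pos.2 hOne)
    · omega
    · exact hchoose
  have hb : ∀ x1, ∃ z, F x1 = {z} := fun x1 => Finset.card_eq_one.1 ((hFc x1).trans hk)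
  choose b hb using hb
  have hbg : ∀ (g : Γ) (x1 : α), b (g • x1) = g • b x1 := by
    intro g x1
    have h1 := hFg g x1
    rw [hb, hb, Finset.smul_finset_singleton] at h1
    exact Finset.singleton_injective h1
  have hbs : Function.Surjective b := by
    intro z
    obtain ⟨x1, hx1⟩ := hsurj {z} (by simp [hk])
    rw [hb] at hx1
    exact ⟨x1, Finset.singleton_injective hx1⟩
  have hbb : Function.Bijective b :=
    (Fintype.bijective_iff_surjective_and_card b).2 ⟨hbs, hcard⟩
  exact ⟨Equiv.ofBijective b hbb, fun g x1 => hbg g x1⟩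

end Pool.Agent.LSF
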