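import Pool.Agent.LSF.ADefs
import Pool.Agent.LenSpec.PlBasic

/-!
AIdx (subgroups of index at most r of the symmetric group).

STATEMENT: H subgroup of Perm α, r = card α ≥ 10, [Perm α : H] ≤ r. Then H contains the alternating group or H is the stabilizer of
a point.
PROOF. 2 r < r (r - 1), so by AOrb H is transitive or fixes a point x. If H fixes x: H ≤ Stab(x), [Perm α : Stab(x)] = r (orbit of x;
MulAction.index_stabilizer), [Perm α : H] = r [Stab(x) : H] ≤ r, so H = Stab(x) (Subgroup.relIndex_mul_index, relIndex = 1).
If H is transitive, it is 2-transitive by APrm, hence primitive (MulAction.isPreprimitive_of_is_two_pretransitive or similar in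
Mathlib.GroupTheory.GroupAction.MultiplePrimitivity / MultipleTransitivity). By ATri it contains a swap or a 3-cycle. Jordan
(Mathlib.GroupTheory.GroupAction.Jordan): Equiv.Perm.subgroup_eq_top_of_isPreprimitive_of_isSwap_mem, resp.
Equiv.Perm.alternatingGroup_le_of_isPreprimitive_of_isThreeCycle_mem.
-/

namespace Pool.Agent.LSF

open Polynomial Pool.Agent.LenSpec

theorem AIdx_holds (hAOrb : AOrbS) (hATri : ATriS) (hAPrm : APrmS) : AIdxS := by
  intro α _ _ H hr hi
  have h2 : 2 * H.index < Fintype.card α * (Fintype.card α - 1) := by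
    obtain ⟨k, hk⟩ : ∃ k, Fintype.card α = k + 10 := ⟨Fintype.card α - 10, by omega⟩
    rw [hk] at hi ⊢
    have : k + 10 - 1 = k + 9 := by omega
    rw [this]
    nlinarith
  rcases hAOrb α H (by omega) h2 with ht | ⟨x, hx⟩
  · left
    have h2t := hAPrm α H hr hi ht
    have hpre : MulAction.IsPreprimitive H α := by
      apply MulAction.isPreprimitive_of_is_two_pretransitive
      rw [MulAction.is_two_pretransitive_iff]
      intro a b c d hab hcd
      obtain ⟨π, hπ, h1, h2⟩ := h2t a b c d hab hcd
      exact ⟨⟨π, hπ⟩, h1, h2⟩
    obtain ⟨π, hπ, hs | h3⟩ := hATri α H hr hi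
    · rw [Equiv.Perm.subgroup_eq_top_of_isPreprimitive_of_isSwap_mem hpre π hs hπ]
      exact le_top
    · exact Equiv.Perm.alternatingGroup_le_of_isPreprimitive_of_isThreeCycle_mem hpre h3 hπ
  · right
    refine ⟨x, fun π => ⟨hx π, fun hπ => ?_⟩⟩
    set S : Subgroup (Equiv.Perm α) := MulAction.stabilizer (Equiv.Perm α) x with hS
    have hle : H ≤ S := fun π hπ => by
      rw [hS, MulAction.mem_stabilizer_iff]
      exact hx π hπ
    have hSi : S.index = Fintype.card α := by
      rw [hS, MulAction.index_stabilizer]
      have : MulAction.orbit (Equiv.Perm α) x = Set.univ := by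
        ext y
        simp only [MulAction.mem_orbit_iff, Set.mem_univ, iff_true]
        exact ⟨Equiv.swap x y, by simp⟩
      rw [this, Set.ncard_univ, Nat.card_eq_fintype_card]
    have hmul := Subgroup.relIndex_mul_index hle
    have hH0 : H.index ≠ 0 := Subgroup.index_ne_zero_of_finite
    have hrel : H.relIndex S = 1 := by
      rw [hSi] at hmul
      have h0 : H.relIndex S ≠ 0 := by
        intro h
        rw [h] at hmul
        simp at hmul
        exact hH0 hmul.symm
      by_contra hne
      have : 2 ≤ H.relIndex S := by omega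
      have : 2 * Fintype.card α ≤ H.index := by
        rw [← hmul]
        exact Nat.mul_le_mul_right _ this
      omega
    rw [Subgroup.relIndex_eq_one] at hrel
    apply hrel
    rw [hS, MulAction.mem_stabilizer_iff]
    exact hπ

end Pool.Agent.LSF
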