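import Pool.Agent.LSF.ADefs
import Pool.Agent.LenSpec.PlBasic
import Pool.Agent.LenSpec.R1
import Pool.Agent.LenSpec.R4

/-!
AInert: ramification produces a nontrivial element of the inertia group.
-/

namespace Pool.Agent.LSF

open Polynomial Pool.Agent.LenSpec

namespace AInert

variable {F Ω : Type} [Field F] [Field Ω] [Algebra F Ω]

/-- the elements of the ring of the place whose derivative is in the ring of the place -/
def W [CharZero Ω] (p : Pl Ω F) (D : Derivation ℚ Ω Ω) : Subring Ω where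
  carrier := {x | x ∈ p.O ∧ D x ∈ p.O}
  mul_mem' := by
    rintro a b ⟨h1, h2⟩ ⟨h3, h4⟩
    refine ⟨p.O.mul_mem h1 h3, ?_⟩
    rw [D.leibniz, smul_eq_mul, smul_eq_mul]
    exact p.O.add_mem (p.O.mul_mem h1 h4) (p.O.mul_mem h3 h2)
  one_mem' := ⟨p.O.one_mem, by rw [D.map_one_eq_zero]; exact p.O.zero_mem⟩
  add_mem' := by
    rintro a b ⟨h1, h2⟩ ⟨h3, h4⟩
    exact ⟨p.O.add_mem h1 h3, by rw [map_add]; exact p.O.add_mem h2 h4⟩
  zero_mem' := ⟨p.O.zero_mem, by rw [map_zero]; exact p.O.zero_mem⟩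
  neg_mem' := by
    rintro a ⟨h1, h2⟩
    exact ⟨p.O.neg_mem h1, by rw [map_neg]; exact p.O.neg_mem h2⟩

omit [Algebra F Ω] in
theorem mem_W [CharZero Ω] {p : Pl Ω F} {D : Derivation ℚ Ω Ω} {x : Ω} :
    x ∈ W p D ↔ x ∈ p.O ∧ D x ∈ p.O := Iff.rfl

omit [Algebra F Ω] in
theorem inv_mem_W [CharZero Ω] {p : Pl Ω F} {D : Derivation ℚ Ω Ω} {x : Ω} {y : F}
    (hx : x ∈ W p D) (hr : p.Red x y) (hy : y ≠ 0) : x⁻¹ ∈ W p D := by
  have h1 : x⁻¹ ∈ p.O := (hr.inv hy).mem
  refine ⟨h1, ?_⟩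
  rw [D.leibniz_inv, smul_eq_mul]
  exact p.O.mul_mem (p.O.neg_mem (p.O.pow_mem h1 2)) hx.2

theorem aeval_mem_W [CharZero Ω] {p : Pl Ω F} {D : Derivation ℚ Ω Ω} {t : Ω}
    (hc : ∀ a : F, algebraMap F Ω a ∈ W p D) (ht : t ∈ W p D) (N : F[X]) :
    aeval t N ∈ W p D := by
  rw [aeval_eq_sum_range]
  refine Subring.sum_mem _ (fun i _ => ?_)
  rw [Algebra.smul_def]
  exact (W p D).mul_mem (hc _) ((W p D).pow_mem ht _)

theorem red_aeval {p : Pl Ω F} {t : Ω} {t₀ : F} (hc : ∀ a : F, p.Red (algebraMap F Ω a) a)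
    (ht : p.Red t t₀) (N : F[X]) : p.Red (aeval t N) (N.eval t₀) := by
  have h : p.RedP (N.map (algebraMap F Ω)) N := by
    intro i
    rw [coeff_map]
    exact hc _
  have h1 := h.eval ht
  rwa [eval_map_algebraMap] at h1

/-- an element of `F(t)` that is finite at the place is in `W` -/
theorem mem_W_of_mem [CharZero Ω] {p : Pl Ω F} {D : Derivation ℚ Ω Ω} {t : Ω} {t₀ : F}
    (hc : ∀ a : F, p.Red (algebraMap F Ω a) a) (hcW : ∀ a : F, algebraMap F Ω a ∈ W p D)
    (ht : p.Red t t₀) (htW : t ∈ W p D) {c : Ω}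
    (hcE : c ∈ IntermediateField.adjoin F ({t} : Set Ω)) (hcO : c ∈ p.O) : c ∈ W p D := by
  obtain ⟨N, M, rfl⟩ := (IntermediateField.mem_adjoin_simple_iff F c).1 hcE
  by_cases hN0 : aeval t N = 0
  · rw [hN0, zero_div]
    exact (W p D).zero_mem
  by_cases hM0 : aeval t M = 0
  · rw [hM0, div_zero]
    exact (W p D).zero_mem
  have hN : N ≠ 0 := by
    rintro rfl
    exact hN0 (map_zero _)
  have hM : M ≠ 0 := by
    rintro rfl
    exact hM0 (map_zero _)
  obtain ⟨N₁, hN₁, hN₂⟩ := exists_eq_pow_rootMultiplicity_mul_and_not_dvd N hN t₀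
  obtain ⟨M₁, hM₁, hM₂⟩ := exists_eq_pow_rootMultiplicity_mul_and_not_dvd M hM t₀
  generalize N.rootMultiplicity t₀ = a at hN₁
  generalize M.rootMultiplicity t₀ = b at hM₁
  rw [dvd_iff_isRoot, IsRoot] at hN₂ hM₂
  have e1 : aeval t N = (t - algebraMap F Ω t₀) ^ a * aeval t N₁ := by
    conv_lhs => rw [hN₁]
    simp
  have e2 : aeval t M = (t - algebraMap F Ω t₀) ^ b * aeval t M₁ := by
    conv_lhs => rw [hM₁]
    simp
  have r1 := red_aeval hc ht N₁
  have r2 := red_aeval hc ht M₁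
  have n1 := r1.ne_zero hN₂
  have n2 := r2.ne_zero hM₂
  have ht0 : t - algebraMap F Ω t₀ ≠ 0 ∨ (a = 0 ∧ b = 0) ∨ True := Or.inr (Or.inr trivial)
  have hs : t - algebraMap F Ω t₀ ∈ W p D := (W p D).sub_mem htW (hcW t₀)
  have hsr : p.Red (t - algebraMap F Ω t₀) 0 := by
    have := ht.sub (hc t₀)
    rwa [sub_self] at this
  by_cases hs0 : t - algebraMap F Ω t₀ = 0
  · have ha : a = 0 := by
      by_contra h
      rw [hs0, zero_pow h, zero_mul] at e1
      exact hN0 e1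
    have hb : b = 0 := by
      by_contra h
      rw [hs0, zero_pow h, zero_mul] at e2
      exact hM0 e2
    rw [e1, e2, ha, hb, pow_zero, one_mul, one_mul, div_eq_mul_inv]
    exact (W p D).mul_mem (aeval_mem_W hcW htW _)
      (inv_mem_W (aeval_mem_W hcW htW _) r2 hM₂)
  rcases le_total b a with hab | hab
  · obtain ⟨k, rfl⟩ := Nat.exists_eq_add_of_le hab
    have e3 : aeval t N / aeval t M = (t - algebraMap F Ω t₀) ^ k * aeval t N₁ *
        (aeval t M₁)⁻¹ := by
      rw [e1, e2, pow_add]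
      field_simp
    rw [e3]
    exact (W p D).mul_mem ((W p D).mul_mem ((W p D).pow_mem hs k) (aeval_mem_W hcW htW _))
      (inv_mem_W (aeval_mem_W hcW htW _) r2 hM₂)
  · obtain ⟨k, rfl⟩ := Nat.exists_eq_add_of_le hab
    rcases Nat.eq_zero_or_pos k with rfl | hk
    · have e3 : aeval t N / aeval t M = aeval t N₁ * (aeval t M₁)⁻¹ := by
        rw [e1, e2]
        simp only [add_zero]
        field_simp
      rw [e3]
      exact (W p D).mul_mem (aeval_mem_W hcW htW _)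
        (inv_mem_W (aeval_mem_W hcW htW _) r2 hM₂)
    · exfalso
      have e3 : aeval t N / aeval t M * ((t - algebraMap F Ω t₀) ^ k * aeval t M₁ *
          (aeval t N₁)⁻¹) = 1 := by
        rw [e1, e2, pow_add]
        field_simp
      have h4 := (Pl.red_rs hcO).mul (((hsr.pow k).mul r2).mul (r1.inv hN₂))
      rw [e3, zero_pow hk.ne', zero_mul, zero_mul, mul_zero] at h4
      exact one_ne_zero (Pl.red_one.unique h4)

/-- the derivation with respect to `t` -/
theorem exists_der [CharZero Ω] {t : Ω} (ht : Transcendental F t) :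
    ∃ D : Derivation ℚ Ω Ω, (∀ a : F, D (algebraMap F Ω a) = 0) ∧ D t = 1 := by
  have hq : ∀ q : ℚ, algebraMap ℚ Ω q ∈ (algebraMap F Ω).fieldRange := by
    intro q
    rw [eq_ratCast]
    exact SubfieldClass.ratCast_mem _ q
  obtain ⟨D, hD1, hD2⟩ := R1_holds Ω ((algebraMap F Ω).fieldRange.toIntermediateField hq) t (by
    rintro ⟨P, hP, hPt⟩
    have h1 : P.map (algebraMap _ Ω) ∈ lifts (algebraMap F Ω) := by
      rw [lifts_iff_coeff_lifts]
      intro i
      rw [coeff_map]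
      exact (P.coeff i).2
    obtain ⟨q, hq1⟩ := (mem_lifts _).1 h1
    refine ht ⟨q, ?_, ?_⟩
    · rintro rfl
      rw [Polynomial.map_zero] at hq1
      exact hP ((Polynomial.map_eq_zero _).1 hq1.symm)
    · rw [aeval_def, ← eval_map, hq1, eval_map, ← aeval_def, hPt])
  refine ⟨(D t)⁻¹ • D, fun a => ?_, ?_⟩
  · rw [Derivation.smul_apply, hD1 _ ⟨a, rfl⟩, smul_zero]
  · rw [Derivation.smul_apply, smul_eq_mul, inv_mul_cancel₀ hD2]

theorem int_map {t : Ω} (τ : Ω ≃ₐ[F] Ω) (hτ : τ t = t) {x : Ω} (hx : IntT F t x) :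
    IntT F t (τ x) := by
  refine IsIntegral.map_of_comp_eq (RingHom.id _) (τ : Ω →+* Ω) ?_ hx
  refine RingHom.ext fun a => ?_
  obtain ⟨a, ha⟩ := a
  rw [Algebra.adjoin_singleton_eq_range_aeval] at ha
  obtain ⟨q, rfl⟩ := ha
  change aeval t q = τ (aeval t q)
  have h := Polynomial.aeval_algHom_apply (τ : Ω →ₐ[F] Ω) t q
  have h2 : (τ : Ω →ₐ[F] Ω) t = t := hτ
  rw [h2] at h
  exact h

omit [Algebra F Ω] in
theorem red_prod_ne {p : Pl Ω F} (R : Multiset Ω) (θ : Ω)
    (h : ∀ r ∈ R, ∃ y : F, y ≠ 0 ∧ p.Red (θ - r) y) :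
    ∃ y : F, y ≠ 0 ∧ p.Red (R.map (fun r => θ - r)).prod y := by
  induction R using Multiset.induction_on with
  | empty => exact ⟨1, one_ne_zero, by simpa using Pl.red_one⟩
  | cons a R ih =>
    obtain ⟨y, hy, h1⟩ := h a (Multiset.mem_cons_self a R)
    obtain ⟨z, hz, h2⟩ := ih (fun r hr => h r (Multiset.mem_cons_of_mem hr))
    refine ⟨y * z, mul_ne_zero hy hz, ?_⟩
    rw [Multiset.map_cons, Multiset.prod_cons]
    exact h1.mul h2

omit [Algebra F Ω] in
theorem coeff_prod_mem {p : Pl Ω F} (R : Multiset Ω) (h : ∀ r ∈ R, r ∈ p.O) :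
    ∃ V : F[X], p.RedP (R.map (fun r => X - C r)).prod V := by
  induction R using Multiset.induction_on with
  | empty => exact ⟨1, by simpa using Pl.redP_one⟩
  | cons a R ih =>
    obtain ⟨V, hV⟩ := ih (fun r hr => h r (Multiset.mem_cons_of_mem hr))
    refine ⟨(X - C (p.rs a)) * V, ?_⟩
    rw [Multiset.map_cons, Multiset.prod_cons]
    exact (Pl.redP_X.sub (Pl.redP_C (Pl.red_rs (h a (Multiset.mem_cons_self a R))))).mul hV

/-- the derivative of an integral element whose conjugates have a different reduction is finite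
at the place -/
theorem der_mem [CharZero Ω] [IsAlgClosed Ω] {p : Pl Ω F} {D : Derivation ℚ Ω Ω} {t : Ω} {t₀ : F}
    (hp : SpPl t p) (halg : AlgT F t) (hcW : ∀ a : F, algebraMap F Ω a ∈ W p D)
    (ht : p.Red t t₀) (htW : t ∈ W p D) {θ : Ω} (hθ : IntT F t θ)
    (hsep : ∀ τ : Ω ≃ₐ[F] Ω, τ t = t → p.rs (τ θ) = p.rs θ → τ θ = θ) : D θ ∈ p.O := by
  set E := IntermediateField.adjoin F ({t} : Set Ω) with hE
  have : Algebra.IsAlgebraic E Ω := ⟨halg⟩
  have : IsAlgClosure E Ω := ⟨inferInstance, inferInstance⟩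
  have : Normal E Ω := IsAlgClosure.normal E Ω
  have hint : IsIntegral E θ := (halg θ).isIntegral
  have hconj : ∀ r, aeval r (minpoly E θ) = 0 → ∃ τ : Ω ≃ₐ[F] Ω, τ t = t ∧ τ θ = r := by
    intro r hr
    obtain ⟨g, hg⟩ := minpoly.exists_algEquiv_of_root' (halg θ) hr
    refine ⟨g.restrictScalars F, ?_, hg⟩
    exact g.commutes ⟨t, IntermediateField.mem_adjoin_simple_self F t⟩
  set P : Polynomial Ω := (minpoly E θ).map (algebraMap E Ω) with hP
  have hmon : P.Monic := (minpoly.monic hint).map _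
  have hsplit : P.Splits := IsAlgClosed.splits P
  have hnodup : P.roots.Nodup := by
    refine nodup_roots ?_
    exact ((minpoly.irreducible hint).separable).map
  have hrt : ∀ r, r ∈ P.roots → aeval r (minpoly E θ) = 0 := by
    intro r hr
    have h1 := (mem_roots'.1 hr).2
    rwa [IsRoot, hP, eval_map_algebraMap] at h1
  have hθr : θ ∈ P.roots := by
    rw [mem_roots hmon.ne_zero, IsRoot, hP, eval_map_algebraMap]
    exact minpoly.aeval E θ
  have hrO : ∀ r ∈ P.roots, r ∈ p.O := by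
    intro r hr
    obtain ⟨τ, h1, rfl⟩ := hconj r (hrt r hr)
    exact hp.int _ (int_map τ h1 hθ)
  obtain ⟨R, hR⟩ := Multiset.exists_cons_of_mem hθr
  have hPprod : P = (X - C θ) * (R.map (fun r => X - C r)).prod := by
    have h1 := hsplit.eq_prod_roots_of_monic hmon
    rw [hR, Multiset.map_cons, Multiset.prod_cons] at h1
    exact h1
  have hder : (derivative P).eval θ = (R.map (fun r => θ - r)).prod := by
    rw [hPprod, derivative_mul, eval_add, eval_mul, eval_mul]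
    simp [eval_multiset_prod]
  rw [hR, Multiset.nodup_cons] at hnodup
  obtain ⟨y, hy, hyr⟩ := red_prod_ne (p := p) R θ (by
    intro r hr
    have hr' : r ∈ P.roots := by
      rw [hR]
      exact Multiset.mem_cons_of_mem hr
    refine ⟨p.rs θ - p.rs r, ?_, (Pl.red_rs (hrO θ hθr)).sub (Pl.red_rs (hrO r hr'))⟩
    intro h0
    obtain ⟨τ, h1, h2⟩ := hconj r (hrt r hr')
    have h3 := hsep τ h1 (by rw [h2]; exact (sub_eq_zero.1 h0).symm)
    rw [h2] at h3
    rw [h3] at hr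
    exact hnodup.1 hr)
  rw [← hder] at hyr
  obtain ⟨V, hV⟩ := coeff_prod_mem (p := p) P.roots hrO
  rw [← hsplit.eq_prod_roots_of_monic hmon] at hV
  have hcoef : ∀ i, P.coeff i ∈ W p D := by
    intro i
    refine mem_W_of_mem hp.const hcW ht htW ?_ (hV i).mem
    rw [hP, coeff_map]
    exact ((minpoly E θ).coeff i).2
  have h0 := r4_D_eval D P θ
  have h1 : P.eval θ = 0 := (mem_roots'.1 hθr).2
  rw [h1, map_zero] at h0
  have h2 : (r4cD D P).eval θ ∈ p.O := by
    rw [eval_eq_sum_range]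
    refine Subring.sum_mem _ (fun i _ => p.O.mul_mem ?_ (p.O.pow_mem (hrO θ hθr) i))
    rw [r4cD_coeff]
    exact (hcoef i).2
  have h3 : D θ = -((r4cD D P).eval θ * ((derivative P).eval θ)⁻¹) := by
    have h4 := hyr.ne_zero hy
    field_simp
    linear_combination -h0
  rw [h3]
  exact p.O.neg_mem (p.O.mul_mem h2 (hyr.inv hy).mem)

theorem eq_on_adjoin (τ τ' : Ω ≃ₐ[F] Ω) (S : Set Ω) (h : ∀ x ∈ S, τ x = τ' x) :
    ∀ x ∈ IntermediateField.adjoin F S, τ x = τ' x := by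
  intro x hx
  induction hx using IntermediateField.adjoin_induction with
  | mem x hx => exact h x hx
  | algebraMap x => rw [AlgEquiv.commutes, AlgEquiv.commutes]
  | add x y hx hy h1 h2 => rw [map_add, map_add, h1, h2]
  | inv x hx h1 => rw [map_inv₀, map_inv₀, h1]
  | mul x y hx hy h1 h2 => rw [map_mul, map_mul, h1, h2]

theorem int_algebraMap {t : Ω} (a : F) : IntT F t (algebraMap F Ω a) :=
  isIntegral_algebraMap (R := Algebra.adjoin F ({t} : Set Ω)) (A := Ω)
    (x := algebraMap F (Algebra.adjoin F ({t} : Set Ω)) a)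

/-- the integral elements of `L` -/
def V (L : IntermediateField F Ω) (t : Ω) : Submodule F Ω where
  carrier := {a | a ∈ L ∧ IntT F t a}
  add_mem' := by
    rintro a b ⟨h1, h2⟩ ⟨h3, h4⟩
    exact ⟨L.add_mem h1 h3, IsIntegral.add h2 h4⟩
  zero_mem' := ⟨L.zero_mem, isIntegral_zero⟩
  smul_mem' := by
    rintro c a ⟨h1, h2⟩
    refine ⟨L.smul_mem h1, ?_⟩
    rw [Algebra.smul_def]
    exact IsIntegral.mul (int_algebraMap c) h2

/-- the change of the reduction under an automorphism -/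
noncomputable def lin {p : Pl Ω F} {t : Ω} (hp : SpPl t p) (L : IntermediateField F Ω)
    (τ : Ω ≃ₐ[F] Ω) (hτ : τ t = t) : V L t →ₗ[F] F where
  toFun a := p.rs (τ (a : Ω)) - p.rs (a : Ω)
  map_add' := by
    rintro ⟨a, ha⟩ ⟨b, hb⟩
    have h1 := ((Pl.red_rs (hp.int _ ha.2)).add (Pl.red_rs (hp.int _ hb.2))).rs_eq
    have h2 := ((Pl.red_rs (hp.int _ (int_map τ hτ ha.2))).add
      (Pl.red_rs (hp.int _ (int_map τ hτ hb.2)))).rs_eq
    change p.rs (τ (a + b)) - p.rs (a + b) = (p.rs (τ a) - p.rs a) + (p.rs (τ b) - p.rs b)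
    rw [map_add, h1, h2]
    ring
  map_smul' := by
    rintro c ⟨a, ha⟩
    have h1 := ((hp.const c).mul (Pl.red_rs (hp.int _ ha.2))).rs_eq
    have h2 := ((hp.const c).mul (Pl.red_rs (hp.int _ (int_map τ hτ ha.2)))).rs_eq
    change p.rs (τ (c • a)) - p.rs (c • a) = c * (p.rs (τ a) - p.rs a)
    rw [Algebra.smul_def, map_mul, AlgEquiv.commutes, h1, h2]
    ring

/-- the automorphisms that act nontrivially -/
abbrev G (t : Ω) (Z : Finset Ω) : Type :=
  {τ : Ω ≃ₐ[F] Ω // τ t = t ∧ ∃ z ∈ Z, τ z ≠ z}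

/-- finitely many representatives -/
theorem exists_reps {t : Ω} (Z : Finset Ω)
    (hZ : ∀ τ : Ω ≃ₐ[F] Ω, τ t = t → ∀ z ∈ Z, τ z ∈ Z) :
    ∃ (ι : Type) (_ : Finite ι) (g : ι → G (F := F) t Z), ∀ τ : G (F := F) t Z, ∃ i,
      ∀ x ∈ IntermediateField.adjoin F (insert t (Z : Set Ω)), (g i).1 x = τ.1 x := by
  let ρ : G (F := F) t Z → (Z → Z) := fun g z => ⟨g.1 z.1, hZ g.1 g.2.1 z.1 z.2⟩
  refine ⟨Set.range ρ, inferInstance, fun φ => Classical.choose φ.2, fun τ => ?_⟩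
  refine ⟨⟨ρ τ, τ, rfl⟩, ?_⟩
  have h : ρ (Classical.choose (⟨τ, rfl⟩ : ∃ y, ρ y = ρ τ)) = ρ τ :=
    Classical.choose_spec (⟨τ, rfl⟩ : ∃ y, ρ y = ρ τ)
  refine eq_on_adjoin _ _ _ ?_
  intro x hx
  rcases Set.mem_insert_iff.1 hx with rfl | hx
  · rw [τ.2.1]
    exact (Classical.choose (⟨τ, rfl⟩ : ∃ y, ρ y = ρ τ)).2.1
  · have h2 := congrFun h ⟨x, hx⟩
    exact congrArg Subtype.val h2

end AInert

open AInert in
theorem AInert_holds : AInertS := by
  intro F Ω _ _ _ _ _ _ t p t₀ Z htr halg hp ht hZ α hα β hβ u hu B hB iα iβ iu iB rα rβ rB heq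
  have : CharZero Ω := charZero_of_injective_algebraMap (algebraMap F Ω).injective
  by_contra hcon
  push Not at hcon
  obtain ⟨D, hD0, hD1⟩ := exists_der htr
  set L := IntermediateField.adjoin F (insert t (Z : Set Ω)) with hL
  have hcW : ∀ a : F, algebraMap F Ω a ∈ W p D := fun a =>
    ⟨(hp.const a).mem, by rw [hD0]; exact p.O.zero_mem⟩
  have htW : t ∈ W p D := ⟨ht.mem, by rw [hD1]; exact p.O.one_mem⟩
  obtain ⟨ι, _, g, hg⟩ := exists_reps Z hZ
  have hLt : t ∈ L := IntermediateField.subset_adjoin F _ (Set.mem_insert _ _)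
  -- a separating element
  obtain ⟨θ, hθ⟩ : ∃ θ : V L t, ∀ i, p.rs ((g i).1 θ) ≠ p.rs (θ : Ω) := by
    by_contra hno
    push Not at hno
    obtain ⟨i, hi⟩ := Subspace.exists_eq_top_of_iUnion_eq_univ
      (p := fun i => LinearMap.ker (lin hp L (g i).1 (g i).2.1)) (by
        rw [Set.eq_univ_iff_forall]
        intro θ
        obtain ⟨i, hi⟩ := hno θ
        refine Set.mem_iUnion.2 ⟨i, ?_⟩
        exact LinearMap.mem_ker.2 (sub_eq_zero.2 hi))
    obtain ⟨a, ha, ia, hna⟩ := hcon (g i).1 (g i).2.1 (g i).2.2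
    have h1 : (⟨a, ha, ia⟩ : V L t) ∈ LinearMap.ker (lin hp L (g i).1 (g i).2.1) := by
      rw [hi]
      exact Submodule.mem_top
    have h2 : p.rs ((g i).1 a) - p.rs a = 0 := LinearMap.mem_ker.1 h1
    apply hna
    have h3 := (Pl.red_rs (hp.int _ (int_map (g i).1 (g i).2.1 ia))).sub (Pl.red_rs (hp.int _ ia))
    rwa [h2] at h3
  obtain ⟨θ, hθL, iθ⟩ := θ
  change ∀ i, p.rs ((g i).1 θ) ≠ p.rs θ at hθ
  -- an automorphism with no effect on `Z` has none on `L`
  have htriv : ∀ τ : Ω ≃ₐ[F] Ω, τ t = t → (¬ ∃ z ∈ Z, τ z ≠ z) → ∀ x ∈ L, τ x = x := by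
    intro τ h1 h2 x hx
    push Not at h2
    refine eq_on_adjoin τ AlgEquiv.refl _ ?_ x hx
    intro y hy
    rcases Set.mem_insert_iff.1 hy with rfl | hy
    · exact h1
    · exact h2 y hy
  have hθD : D θ ∈ p.O := by
    refine der_mem hp halg hcW ht htW iθ ?_
    intro τ h1 h2
    by_cases h3 : ∃ z ∈ Z, τ z ≠ z
    · obtain ⟨i, hi⟩ := hg ⟨τ, h1, h3⟩
      have h4 := hi θ hθL
      exfalso
      apply hθ i
      rw [h4]
      exact h2
    · exact htriv τ h1 h3 θ hθL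
  have hall : ∀ a ∈ L, IntT F t a → D a ∈ p.O := by
    intro a haL ia
    obtain ⟨c, hc⟩ := (Set.finite_range (fun i : ι =>
      (p.rs a - p.rs ((g i).1 a)) / (p.rs ((g i).1 θ) - p.rs θ))).exists_notMem
    have ic : IntT F t (a + algebraMap F Ω c * θ) :=
      IsIntegral.add ia (IsIntegral.mul (int_algebraMap c) iθ)
    have hcL : a + algebraMap F Ω c * θ ∈ L :=
      L.add_mem haL (L.mul_mem (L.algebraMap_mem c) hθL)
    have h0 : D (a + algebraMap F Ω c * θ) ∈ p.O := by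
      refine der_mem hp halg hcW ht htW ic ?_
      intro τ h1 h2
      by_cases h3 : ∃ z ∈ Z, τ z ≠ z
      · exfalso
        obtain ⟨i, hi⟩ := hg ⟨τ, h1, h3⟩
        have h4 := hi θ hθL
        have h5 := hi a haL
        change (g i).1 θ = τ θ at h4
        change (g i).1 a = τ a at h5
        apply hc
        refine ⟨i, ?_⟩
        have h6 := ((Pl.red_rs (hp.int _ (int_map τ h1 ia))).add
          ((hp.const c).mul (Pl.red_rs (hp.int _ (int_map τ h1 iθ))))).rs_eq
        have h7 := ((Pl.red_rs (hp.int _ ia)).add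
          ((hp.const c).mul (Pl.red_rs (hp.int _ iθ)))).rs_eq
        rw [map_add, map_mul, AlgEquiv.commutes, h6, h7] at h2
        have h8 := hθ i
        rw [h4] at h8
        have h9 : p.rs (τ θ) - p.rs θ ≠ 0 := sub_ne_zero.2 h8
        change (p.rs a - p.rs ((g i).1 a)) / (p.rs ((g i).1 θ) - p.rs θ) = c
        rw [h4, h5, div_eq_iff h9]
        linear_combination -h2
      · exact htriv τ h1 h3 _ hcL
    have h1 : D a = D (a + algebraMap F Ω c * θ) - algebraMap F Ω c * D θ := by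
      rw [map_add, D.leibniz, hD0, smul_zero, add_zero, smul_eq_mul]
      ring
    rw [h1]
    exact p.O.sub_mem h0 (p.O.mul_mem (hp.const c).mem hθD)
  -- the final computation
  have e1 := congrArg D heq
  rw [D.leibniz, D.leibniz, D.leibniz, map_sub, hD0, hD1] at e1
  simp only [smul_eq_mul, sub_zero, mul_one] at e1
  have rt : p.Red (t - algebraMap F Ω t₀) 0 := by
    have := ht.sub (hp.const t₀)
    rwa [sub_self] at this
  have r1 := (Pl.red_rs (hp.int _ iB)).add (rt.mul (Pl.red_rs (hall B hB iB)))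
  have r2 := ((rα.mul rβ).mul (Pl.red_rs (hall u hu iu))).add
    ((Pl.red_rs (hp.int _ iu)).mul ((rα.mul (Pl.red_rs (hall β hβ iβ))).add
      (rβ.mul (Pl.red_rs (hall α hα iα)))))
  rw [e1] at r1
  have h0 := r1.unique r2
  simp only [zero_mul, mul_zero, add_zero] at h0
  apply rB
  have h1 := Pl.red_rs (hp.int _ iB)
  rwa [h0] at h1

end Pool.Agent.LSF
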