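import Pool.Agent.LSF.ADefs
import Pool.Agent.LenSpec.PlBasic

/-!
AKer (two independent actions).

STATEMENT: Γ acts on α and on β as the full symmetric groups, card α = card β = r ≥ 10, no equivariant bijection α ≃ β. Then every even
permutation of α is induced by some g ∈ Γ that acts trivially on β.
PROOF. φ : Γ → Perm α, ψ : Γ → Perm β (MulAction.toPermHom), both surjective. N := (ker ψ).map φ is normal in Perm α (φ surjective).
If N ≠ ⊥ then alternatingGroup α ≤ N (Mathlib: alternatingGroup_le_of_normal, in Mathlib.GroupTheory.SpecificGroups.Alternating.Simple,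
5 ≤ card) and we are done. Suppose N = ⊥: every g acting trivially on β acts trivially on α; hence (*) if g, g' act in the same way
on β they act in the same way on α. Let x ∈ α. Apply AStb with the roles (α := β, β := α, u := x) (an equivariant bijection β ≃ α
gives one α ≃ β, excluded): every even permutation of β is induced by some g with g x = x. Take any g0 acting on β as an even
permutation ρ. For every x there is g_x inducing ρ on β with g_x x = x; by (*) g0 x = g_x x = x. So g0 acts trivially on α.
Now choose g ∈ Γ acting on α as a 3-cycle (r ≥ 3). g^2 acts on β as a square, an even permutation, so g^2 acts trivially on α; but the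
square of a 3-cycle is not 1: contradiction.
-/

namespace Pool.Agent.LSF

open Polynomial Pool.Agent.LenSpec

theorem AKer_holds (hAStb : AStbS) : AKerS := by
  classical
  intro Γ α β _ _ _ _ _ _ hcard h10 hFα hFβ hno π hπ
  let φ : Γ →* Equiv.Perm α := MulAction.toPermHom Γ α
  let ψ : Γ →* Equiv.Perm β := MulAction.toPermHom Γ β
  have hφa : ∀ (g : Γ) (x : α), φ g x = g • x := fun g x => rfl
  have hψa : ∀ (g : Γ) (y : β), ψ g y = g • y := fun g y => rfl
  have hφ : Function.Surjective φ := by
    intro p
    obtain ⟨g, hg⟩ := hFα p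
    exact ⟨g, Equiv.ext fun x => by rw [hφa, hg]⟩
  have hnorm : ((ψ.ker).map φ).Normal := Subgroup.Normal.map (MonoidHom.normal_ker ψ) φ hφ
  by_cases hN : (ψ.ker).map φ = ⊥
  · exfalso
    have h1 : ∀ g : Γ, (∀ y : β, g • y = y) → ∀ x : α, g • x = x := by
      intro g hg x
      have hgk : g ∈ ψ.ker := by
        rw [MonoidHom.mem_ker]
        exact Equiv.ext fun y => by rw [hψa, hg]; rfl
      have h2 : φ g ∈ (ψ.ker).map φ := Subgroup.mem_map_of_mem φ hgk
      rw [hN, Subgroup.mem_bot] at h2
      have h3 := hφa g x
      rw [h2] at h3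
      exact h3.symm
    have h2 : ∀ g g' : Γ, (∀ y : β, g • y = g' • y) → ∀ x : α, g • x = g' • x := by
      intro g g' h x
      have h3 := h1 (g'⁻¹ * g) (fun y => by rw [mul_smul, inv_smul_eq_iff, h]) x
      rw [mul_smul, inv_smul_eq_iff] at h3
      exact h3
    obtain ⟨a, b, c, hab, hac, hbc⟩ := Fintype.two_lt_card_iff.1 (show 2 < Fintype.card α by omega)
    obtain ⟨g, hg⟩ := hFα (Equiv.swap a b * Equiv.swap a c)
    have hcc : (g * g) • c = c := by
      have hs : Equiv.Perm.sign (ψ g * ψ g) = 1 := by
        rw [map_mul, Int.units_mul_self]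
      rcases hAStb Γ β α hcard.le (by omega) hFβ c with h | ⟨e, he⟩
      · obtain ⟨g', hg', hgy⟩ := h _ hs
        have h3 := h2 (g * g) g' (fun y => by
          rw [hgy]
          change _ = ψ g (ψ g y)
          rw [hψa, hψa, mul_smul]) c
        rw [h3, hg']
      · exfalso
        apply hno
        refine ⟨e.symm, ?_⟩
        intro g x
        rw [Equiv.symm_apply_eq, he, Equiv.apply_symm_apply]
    rw [mul_smul, hg, hg, Equiv.Perm.mul_apply, Equiv.Perm.mul_apply, Equiv.swap_apply_right,
      Equiv.swap_apply_left, Equiv.swap_apply_of_ne_of_ne hab.symm hbc,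
      Equiv.swap_apply_right] at hcc
    exact hac hcc
  · have hnt : Nontrivial ↥((ψ.ker).map φ) := (Subgroup.nontrivial_iff_ne_bot _).2 hN
    have hle := Equiv.Perm.alternatingGroup_le_of_normal
      (by rw [Nat.card_eq_fintype_card]; omega) hnt
    have hmem : π ∈ (ψ.ker).map φ := hle (Equiv.Perm.mem_alternatingGroup.2 hπ)
    obtain ⟨g, hg, hgπ⟩ := Subgroup.mem_map.1 hmem
    refine ⟨g, ?_, ?_⟩
    · intro y
      have h1 := hψa g y
      rw [MonoidHom.mem_ker.1 hg] at h1
      exact h1.symm
    · intro x
      rw [← hgπ, hφa]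

end Pool.Agent.LSF
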