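import Pool.Agent.LSF.ADefs
import Pool.Agent.LenSpec.PlBasic

/-!
ALift (lifting of automorphisms from the residue field).

PROOF. G := K ≃ₐ[E] K; K/E is algebraic, K algebraically closed of characteristic 0, so K/E is Galois and an element of K fixed by all of G is in E (see o1_holds in
Pool/Agent/LenSpec/O1.lean: IsGalois E K; IsGalois.mem_bot_iff_fixed or similar). G permutes the finite set X (injective self-maps of a finite set). Let 𝓗 be the finite set of the maps h : X → X induced by
elements of G (Finset of X → X). Let x̄ = p.rs x. (1) Choose a bijection e : X → Fin r (injective numbering e : X → ℕ is enough) and c ∈ ℕ such that for all maps h, h' : X → X, h ≠ h':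
∑_{x ∈ X} c^(e x) (rs (h x) - rs (h' x)) ≠ 0 in κ. It exists: for each of the finitely many pairs (h, h') the polynomial ∑_x (rs (h x) - rs (h' x)) T^(e x) ∈ κ[T] is nonzero (rs is injective on X), so it has
finitely many roots, and ℕ → κ is injective (CharZero κ). (2) For h ∈ 𝓗 put θ_h = ∑_x c^(e x) h(x) ∈ K and Φ = ∏_{h ∈ 𝓗} (Z - θ_h) ∈ K[Z]. For τ ∈ G, τ θ_h = θ_{τ h} and h ↦ τ h is a bijection of 𝓗,
so the coefficients of Φ are fixed by G: they are in E. θ_h ∈ p.O, so Φ reduces to Φ̄ = ∏_h (Z - θ̄_h), θ̄_h = ∑ c^(e x) rs(h x) (RedP, redP_prod in PlBasic), and the coefficients of Φ̄ are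
in E' by hypothesis. (3) θ̄_1 (h = identity, in 𝓗) is a root of Φ̄, and σ fixes the coefficients of Φ̄, so σ θ̄_1 is a root of Φ̄: σ θ̄_1 = θ̄_h for some h ∈ 𝓗. σ θ̄_1 = ∑ c^(e x) σ(rs x) (σ fixes natural numbers)
and σ(rs x) = rs (h' x) for a map h' : X → X by hypothesis. By the choice of c, h' = h. h is induced by some τ ∈ G: rs (τ x) = rs (h x) = σ (rs x) for x ∈ X.
-/

namespace Pool.Agent.LSF

open Polynomial Pool.Agent.LenSpec

/-- a natural number that separates finitely many families -/
theorem ALift_sep {κ ι : Type} [Field κ] [CharZero κ] [Fintype ι] (e : ι → ℕ)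
    (he : Function.Injective e) (S : Finset (ι → κ)) (hS : ∀ v ∈ S, v ≠ 0) :
    ∃ c : ℕ, ∀ v ∈ S, ∑ i, (c : κ) ^ (e i) * v i ≠ 0 := by
  classical
  set q : (ι → κ) → κ[X] := fun v => ∑ i, C (v i) * X ^ (e i) with hq
  have hq0 : ∀ v ∈ S, q v ≠ 0 := by
    intro v hv h0
    apply hS v hv
    funext i
    have h1 := congrArg (fun R : κ[X] => R.coeff (e i)) h0
    simp only [hq, finsetSum_coeff, coeff_C_mul, coeff_X_pow, coeff_zero] at h1
    rw [Finset.sum_eq_single i] at h1
    · simpa using h1
    · intro j _ hj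
      rw [if_neg (fun h => hj (he h.symm))]
      simp
    · intro h
      exact absurd (Finset.mem_univ i) h
  have hQ : (∏ v ∈ S, q v) ≠ 0 := Finset.prod_ne_zero_iff.2 hq0
  by_contra hcon
  push Not at hcon
  apply hQ
  apply Polynomial.eq_zero_of_infinite_isRoot
  refine Set.Infinite.mono ?_ (Set.infinite_range_of_injective (Nat.cast_injective (R := κ)))
  rintro _ ⟨c, rfl⟩
  obtain ⟨v, hv, h⟩ := hcon c
  show IsRoot _ _
  rw [IsRoot.def, eval_prod]
  refine Finset.prod_eq_zero hv ?_
  simp only [hq, eval_finsetSum, eval_mul, eval_C, eval_pow, eval_X]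
  rw [← h]
  exact Finset.sum_congr rfl (fun i _ => mul_comm _ _)

theorem ALift_holds : ALiftS := by
  intro K κ F _ _ _ _ _ _ _ _ p E E' X halg hEE' hXO hinj hX σ hσ hσX
  classical
  have : Algebra.IsAlgebraic E K := ⟨halg⟩
  have : IsAlgClosure E K := ⟨inferInstance, inferInstance⟩
  have : CharZero E := (algebraMap E K).charZero
  have : IsGalois E K := ⟨⟩
  set e : X → ℕ := fun x => (X.equivFin x : ℕ) with he
  have heinj : Function.Injective e := fun x y h => X.equivFin.injective (Fin.ext h)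
  -- the differences
  set D : Finset (X → κ) := ((Finset.univ : Finset ((X → X) × (X → X))).filter
    (fun w => w.1 ≠ w.2)).image (fun w x => p.rs (w.1 x) - p.rs (w.2 x)) with hD
  obtain ⟨c, hc⟩ := ALift_sep e heinj D (by
    intro v hv h0
    rw [hD, Finset.mem_image] at hv
    obtain ⟨w, hw, rfl⟩ := hv
    apply (Finset.mem_filter.1 hw).2
    funext x
    have h1 := congrFun h0 x
    have h2 : p.rs (w.1 x) = p.rs (w.2 x) := sub_eq_zero.1 h1
    exact Subtype.ext (hinj _ (w.1 x).2 _ (w.2 x).2 h2))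
  set θ : (X → X) → K := fun h => ∑ x, (c : K) ^ (e x) * (h x : K) with hθ
  set θ' : (X → X) → κ := fun h => ∑ x, (c : κ) ^ (e x) * p.rs (h x) with hθ'
  have hsep : ∀ h h' : X → X, θ' h = θ' h' → h = h' := by
    intro h h' hh
    by_contra hne
    apply hc (fun x => p.rs (h x) - p.rs (h' x))
      (Finset.mem_image.2 ⟨(h, h'), Finset.mem_filter.2 ⟨Finset.mem_univ _, hne⟩, rfl⟩)
    simp only [mul_sub, Finset.sum_sub_distrib]
    exact sub_eq_zero.2 hh
  set H : Finset (X → X) := Finset.univ.filter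
    (fun h => ∃ τ : K ≃ₐ[E] K, ∀ x : X, (h x : K) = τ x) with hH
  have hmemH : ∀ h, h ∈ H ↔ ∃ τ : K ≃ₐ[E] K, ∀ x : X, (h x : K) = τ x := by
    intro h
    rw [hH, Finset.mem_filter]
    exact ⟨fun h => h.2, fun h => ⟨Finset.mem_univ _, h⟩⟩
  set W : K[X] := ∏ h ∈ H, (Polynomial.X - C (θ h)) with hW
  set act : (K ≃ₐ[E] K) → (X → X) → (X → X) :=
    fun τ h x => ⟨τ (h x), hX τ _ (h x).2⟩ with hact
  have hθact : ∀ τ h, θ (act τ h) = τ (θ h) := by
    intro τ h
    simp only [hθ, hact, map_sum, map_mul, map_pow, map_natCast]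
  have hWE : ∀ i, W.coeff i ∈ E := by
    intro i
    have hfix : ∀ τ : Gal(K/E), τ (W.coeff i) = W.coeff i := by
      intro τ
      have hmap : W.map ((τ : K ≃ₐ[E] K) : K →+* K) = W := by
        rw [hW, Polynomial.map_prod]
        simp only [Polynomial.map_sub, map_X, map_C]
        refine Finset.prod_bij (fun h _ => act τ h) ?_ ?_ ?_ ?_
        · intro h hh
          rw [hmemH] at hh ⊢
          obtain ⟨τ', hτ'⟩ := hh
          refine ⟨τ'.trans τ, fun x => ?_⟩
          show τ (h x) = τ (τ' x)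
          rw [hτ']
        · intro h _ h' _ hhh
          funext x
          have := congrFun hhh x
          exact Subtype.ext (τ.injective (congrArg Subtype.val this))
        · intro h hh
          rw [hmemH] at hh
          obtain ⟨τ', hτ'⟩ := hh
          refine ⟨act τ.symm h, ?_, ?_⟩
          · rw [hmemH]
            refine ⟨τ'.trans τ.symm, fun x => ?_⟩
            show τ.symm (h x) = τ.symm (τ' x)
            rw [hτ']
          · funext x
            apply Subtype.ext
            show τ (τ.symm (h x)) = h x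
            exact τ.apply_symm_apply _
        · intro h _
          rw [hθact]
          rfl
      have := congrArg (fun R : K[X] => R.coeff i) hmap
      simp only [coeff_map] at this
      exact this
    have hbot := (InfiniteGalois.mem_bot_iff_fixed (k := E) (W.coeff i)).2 hfix
    obtain ⟨a, ha⟩ := IntermediateField.mem_bot.1 hbot
    rw [← ha]
    exact a.2
  set V : κ[X] := ∏ h ∈ H, (Polynomial.X - C (θ' h)) with hV
  have hred : p.RedP W V := by
    rw [hW, hV]
    refine Pl.redP_prod _ fun h _ => ?_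
    refine Pl.redP_X.sub (Pl.redP_C ?_)
    exact Pl.red_sum _ fun x _ => ((Pl.red_natCast c).pow _).mul (Pl.red_rs (hXO _ (h x).2))
  have hVE : ∀ i, V.coeff i ∈ E' := fun i => hEE' _ _ (hWE i) (hred i)
  have hVσ : V.map (σ : κ →+* κ) = V := by
    ext i
    rw [coeff_map]
    exact hσ _ (hVE i)
  have hid : (fun x => x : X → X) ∈ H := by
    rw [hmemH]
    exact ⟨AlgEquiv.refl, fun x => rfl⟩
  have hroot : V.eval (σ (θ' (fun x => x))) = 0 := by
    have h1 := Polynomial.eval_map_apply (σ : κ →+* κ) (θ' (fun x => x)) (p := V)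
    rw [hVσ] at h1
    have h2 : V.eval (θ' (fun x => x)) = 0 := by
      rw [hV, eval_prod]
      refine Finset.prod_eq_zero hid ?_
      simp
    rw [h2, map_zero] at h1
    exact h1
  choose g hgX hg using hσX
  set h' : X → X := fun x => ⟨g x x.2, hgX x x.2⟩ with hh'
  have hσθ : σ (θ' (fun x => x)) = θ' h' := by
    simp only [hθ', hh', map_sum, map_mul, map_pow, map_natCast]
    exact Finset.sum_congr rfl fun x _ => by rw [hg x x.2]
  rw [hσθ, hV, eval_prod, Finset.prod_eq_zero_iff] at hroot
  obtain ⟨h, hhH, hh⟩ := hroot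
  rw [eval_sub, eval_X, eval_C, sub_eq_zero] at hh
  have heq : h' = h := hsep _ _ hh
  obtain ⟨τ, hτ⟩ := (hmemH h).1 hhH
  refine ⟨τ, fun x hx => ?_⟩
  rw [hg x hx]
  have h1 := hτ ⟨x, hx⟩
  rw [← heq] at h1
  rw [← h1]

end Pool.Agent.LSF
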