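import Pool.Agent.LSF.ADefs
import Pool.Agent.LenSpec.PlBasic

/-!
ANrm (multipliers of large prime period whose norm is not 1).
-/

namespace Pool.Agent.LSF

open Polynomial Pool.Agent.LenSpec

theorem anrm_g (a1 : A1S) (a2 : A2S) (a4 : A4S) {K : Type} [Field K] [IsAlgClosed K] {d n : ℕ}
    (f : RatMap K d) (hd1 : 1 ≤ d) (hn : 1 ≤ n) (hf : NoInf d f.num f.den) :
    (fixPoly d f.num f.den n).natDegree = d ^ n + 1 ∧ fixPoly d f.num f.den n ≠ 0 ∧
    (∀ z, z ∈ (fixPoly d f.num f.den n).roots ↔ Per f.num f.den n z) ∧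
    f.multSpec n = (fixPoly d f.num f.den n).roots.map (mult f.num f.den n) ∧
    ∀ z, Per f.num f.den n z → mult f.num f.den n z ≠ 1 →
      (fixPoly d f.num f.den n).rootMultiplicity z = 1 := by
  classical
  obtain ⟨h2a, h2b, -, h2d⟩ := a2 K d n f.num f.den hd1 f.num_le f.den_le f.deg_eq f.coprime
  have hcoef := hf n hn
  obtain ⟨A, hA⟩ : ∃ A, A = (iter d f.num f.den n).1 := ⟨_, rfl⟩
  obtain ⟨B, hB⟩ : ∃ B, B = (iter d f.num f.den n).2 := ⟨_, rfl⟩
  have hfix : fixPoly d f.num f.den n = A - X * B := by rw [fixPoly, hA, hB]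
  rw [← hA] at h2a h2d
  rw [← hB] at h2b h2d hcoef
  have hB0 : B ≠ 0 := by
    rintro h
    rw [h, coeff_zero] at hcoef
    exact hcoef rfl
  have hBdeg : B.natDegree = d ^ n := le_antisymm h2b (le_natDegree_of_ne_zero hcoef)
  have hXB : (X * B).natDegree = d ^ n + 1 := by rw [natDegree_X_mul hB0, hBdeg]
  have hdeg : (fixPoly d f.num f.den n).natDegree = d ^ n + 1 := by
    rw [hfix, natDegree_sub_eq_right_of_natDegree_lt (by rw [hXB]; omega), hXB]
  have hne : fixPoly d f.num f.den n ≠ 0 := by
    intro h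
    rw [h, natDegree_zero] at hdeg
    omega
  have hroots : ∀ z, z ∈ (fixPoly d f.num f.den n).roots ↔ Per f.num f.den n z := by
    intro z
    rw [mem_roots hne, IsRoot]
    exact a4 K d n f z hd1 hn hf
  have hder : ∀ z, Per f.num f.den n z → derivAt A B z = mult f.num f.den n z := by
    intro z hper
    rw [hA, hB]
    exact (a1 K d n f.num f.den z f.num_le f.den_le (fun k _ => hper.1 k)).2.2
  refine ⟨hdeg, hne, hroots, ?_, ?_⟩
  · have h1 : f.multSpec n = (A - X * B).roots.map (derivAt A B) +
        Multiset.replicate (d ^ n + 1 - (A - X * B).natDegree) (multInf A B) := by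
      rw [RatMap.multSpec, fixMult, hA, hB]
    rw [h1, ← hfix, hdeg, Nat.sub_self, Multiset.replicate_zero, add_zero]
    exact Multiset.map_congr rfl (fun z hz => hder z ((hroots z).1 hz))
  · intro z hper hm
    have hBz : B.eval z ≠ 0 := by
      rw [hB]
      exact (a1 K d n f.num f.den z f.num_le f.den_le (fun k _ => hper.1 k)).1
    have h1 : (fixPoly d f.num f.den n).eval z = 0 := by
      have := (hroots z).2 hper
      rw [mem_roots hne] at this
      exact this
    have hpos : 0 < (fixPoly d f.num f.den n).rootMultiplicity z :=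
      (rootMultiplicity_pos hne).2 h1
    by_contra hcon
    have h2 : 1 < (fixPoly d f.num f.den n).rootMultiplicity z := by omega
    rw [one_lt_rootMultiplicity_iff_isRoot hne] at h2
    have h3 : (derivative (fixPoly d f.num f.den n)).eval z = 0 := h2.2
    apply hm
    rw [← hder z hper]
    rw [hfix, derivative_sub, derivative_mul, derivative_X, eval_sub, eval_add, eval_mul,
      eval_mul, eval_one, eval_X] at h3
    rw [hfix, eval_sub, eval_mul, eval_X] at h1
    rw [derivAt, div_eq_one_iff_eq (pow_ne_zero 2 hBz)]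
    linear_combination (B.eval z) * h3 - (derivative B).eval z * h1

theorem ANrm_holds (hA1 : A1S) (hA2 : A2S) (hA4 : A4S) (hA5 : A5S) (hA6 : A6S) (hG1 : G1S)
    (hG2 : G2S) (hG3 : G3S) : ANrmS := by
  classical
  intro K _ _ _ c d n f g hf hg hnp hdn hdist hspec
  have hd1 : 1 ≤ d := le_trans (by norm_num) hf.two_le
  have hn : 1 ≤ n := hnp.one_lt.le
  obtain ⟨hG3a, hG3b, hG3c, hG3d⟩ := hG3 K d n f hf hn
  have hXcard : n * (XS f.num f.den n).ncard + d = d ^ n := by
    rw [hG3d hdist]
    exact hG3a hnp
  obtain ⟨hdeg, hne, hroots, hms, hsimple⟩ := anrm_g hA1 hA2 hA4 g hd1 hn hg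
  -- the multipliers of `g`
  set R : Finset K := (fixPoly d g.num g.den n).roots.toFinset.filter
    (fun z => PerX g.num g.den n z) with hR
  have hRmem : ∀ z, z ∈ R ↔ PerX g.num g.den n z := by
    intro z
    rw [hR, Finset.mem_filter, Multiset.mem_toFinset, hroots]
    exact ⟨fun h => h.2, fun h => ⟨h.1, h⟩⟩
  have hRcard : R.card ≤ d ^ n + 1 := by
    calc R.card ≤ (fixPoly d g.num g.den n).roots.toFinset.card := Finset.card_filter_le _ _
      _ ≤ Multiset.card (fixPoly d g.num g.den n).roots := Multiset.toFinset_card_le _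
      _ ≤ (fixPoly d g.num g.den n).natDegree := card_roots' _
      _ = d ^ n + 1 := hdeg
  have hXS : XS g.num g.den n = (R.image (mult g.num g.den n) : Finset K) := by
    ext x
    rw [Finset.coe_image]
    constructor
    · rintro ⟨z, hz, rfl⟩
      exact ⟨z, (hRmem z).2 hz, rfl⟩
    · rintro ⟨z, hz, rfl⟩
      exact ⟨z, (hRmem z).1 hz, rfl⟩
  have hcardXS : (XS g.num g.den n).ncard = (R.image (mult g.num g.den n)).card := by
    rw [hXS, Set.ncard_coe_finset]
  have horb : ∀ (P Q : K[X]) (z : K), PerX P Q n z →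
      ((Finset.range n).image (fun k => (ev P Q)^[k] z)).card = n := by
    intro P Q z hz
    obtain ⟨h1, h2, h3⟩ := hA5 K P Q n z hn hz
    rw [Finset.card_image_of_injOn, Finset.card_range]
    intro i hi j hj h
    exact h3 i (Finset.mem_range.1 hi) j (Finset.mem_range.1 hj) h
  have hUle : n * (XS g.num g.den n).ncard ≤ d ^ n + 1 := by
    refine le_trans ?_ hRcard
    have hfib := Finset.card_eq_sum_card_image (mult g.num g.den n) R
    rw [hcardXS, hfib, mul_comm, ← smul_eq_mul, ← Finset.sum_const]
    refine Finset.sum_le_sum fun x hx => ?_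
    obtain ⟨z, hz, rfl⟩ := Finset.mem_image.1 hx
    have hz' := (hRmem z).1 hz
    calc n = _ := (horb _ _ z hz').symm
      _ ≤ _ := by
        apply Finset.card_le_card
        intro u hu
        obtain ⟨k, _, rfl⟩ := Finset.mem_image.1 hu
        obtain ⟨h1, h2, h3⟩ := hA5 K g.num g.den n z hn hz'
        exact Finset.mem_filter.2 ⟨(hRmem _).2 (h1 k), h2 k⟩
  refine ⟨?_, hG3b, ?_, hXcard, ?_⟩
  · intro x hx hx1
    obtain ⟨z, hz, hzx⟩ := hx
    set v := c.nrm x with hv
    obtain ⟨-, -, -, hfroots, hfms⟩ := hG1 K d n f hf hn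
    -- the value `v` occurs at least `n` times
    have h1 : n ≤ Multiset.count v (c.spec f n) := by
      rw [Cj.spec, hfms, Multiset.map_map, Multiset.count_map]
      have h2 : ((Finset.range n).image (fun k => (ev f.num f.den)^[k] z)).val ≤
          Multiset.filter (fun a => v = (c.nrm ∘ mult f.num f.den n) a)
            (fixPoly d f.num f.den n).roots := by
        rw [Multiset.le_iff_subset (Finset.nodup _)]
        intro w hw
        rw [Finset.mem_val, Finset.mem_image] at hw
        obtain ⟨k, _, rfl⟩ := hw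
        obtain ⟨h3, h4, -⟩ := hA5 K f.num f.den n z hn hz
        rw [Multiset.mem_filter, hfroots]
        refine ⟨(h3 k).1, ?_⟩
        rw [Function.comp_apply, h4 k, hzx]
      have h3 := Multiset.card_le_card h2
      rw [Finset.card_val, horb _ _ z hz] at h3
      exact h3
    rw [hspec, Cj.spec, hms, Multiset.map_map, Multiset.count_map] at h1
    set M := Multiset.filter (fun a => v = (c.nrm ∘ mult g.num g.den n) a)
      (fixPoly d g.num g.den n).roots with hM
    have hMmem : ∀ w ∈ M, Per g.num g.den n w ∧ c.nrm (mult g.num g.den n w) = v := by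
      intro w hw
      rw [hM, Multiset.mem_filter, hroots] at hw
      exact ⟨hw.1, hw.2.symm⟩
    have hMnd : M.Nodup := by
      rw [Multiset.nodup_iff_count_le_one]
      intro w
      by_cases hw : w ∈ M
      · obtain ⟨h3, h4⟩ := hMmem w hw
        have h5 : mult g.num g.den n w ≠ 1 := by
          intro h6
          rw [h6] at h4
          apply hx1
          rw [← h4, Cj.nrm, map_one, mul_one]
        calc Multiset.count w M ≤ Multiset.count w (fixPoly d g.num g.den n).roots :=
              Multiset.count_le_of_le _ (Multiset.filter_le _ _)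
          _ = 1 := by rw [count_roots, hsimple w h3 h5]
      · rw [Multiset.count_eq_zero_of_notMem hw]
        exact Nat.zero_le _
    obtain ⟨hdeg1, hne1, hroots1, -, -⟩ := anrm_g hA1 hA2 hA4 g hd1 (le_refl 1) hg
    have h3 : ∃ w ∈ M, ¬ Per g.num g.den 1 w := by
      by_contra hcon
      push Not at hcon
      have h4 : M ≤ (fixPoly d g.num g.den 1).roots := by
        rw [Multiset.le_iff_subset hMnd]
        intro w hw
        rw [hroots1]
        exact hcon w hw
      have h5 := Multiset.card_le_card h4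
      have h6 := card_roots' (fixPoly d g.num g.den 1)
      rw [hdeg1, pow_one] at h6
      omega
    obtain ⟨w, hw, hw1⟩ := h3
    obtain ⟨hwper, hwv⟩ := hMmem w hw
    obtain ⟨m, hm1, hm2, hm3, -⟩ := hA6 K g.num g.den n w hn hwper
    rcases (Nat.dvd_prime hnp).1 hm1 with h | h
    · rw [h] at hm3
      exact absurd hm3.1 hw1
    · rw [h] at hm3
      exact ⟨_, ⟨w, hm3, rfl⟩, hwv⟩
  · rw [hXS]
    exact Finset.finite_toSet _
  · by_contra hcon
    push Not at hcon
    have h1 : n * ((XS f.num f.den n).ncard + 1) ≤ n * (XS g.num g.den n).ncard :=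
      Nat.mul_le_mul_left n hcon
    rw [mul_add, mul_one] at h1
    omega

end Pool.Agent.LSF
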