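import Pool.Agent.LSF.ADefs
import Pool.Agent.LenSpec.PlBasic
import Pool.Agent.LenSpec.L5

/-!
ANz (a nonzero integral element vanishes over finitely many t₀ only).

PROOF. e is a root of a monic polynomial over R = Algebra.adjoin F {t}; take such a monic polynomial W of minimal degree, or divide by X as long as the constant coefficient is 0
(e ≠ 0, Ω a field): there is a monic W over R with W(e) = 0 and constant coefficient c0 ≠ 0. (E.g. minpoly, or: rootMultiplicity of 0.) c0 = G(t) for a
polynomial G ∈ F[X] (Algebra.adjoin_singleton_eq_range_aeval), G ≠ 0. Bad = roots of G. If p is a place with SpPl t p, p.Red t t₀, p.Red e 0: in p.O apply the residue map to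
e^m + ... + c1 e + c0 = 0: all coefficients are in p.O, so 0 = residue of c0 = G(t₀) (p.Red (aeval t G) (G.eval t₀): see L3.lean red_coe / L5.lean l5_red_aeval). So t₀ ∈ Bad.
-/

namespace Pool.Agent.LSF

open Polynomial Pool.Agent.LenSpec

theorem ANz_div {R Ω : Type} [CommRing R] [Nontrivial R] [Field Ω] [Algebra R Ω] (e : Ω)
    (he : e ≠ 0) : ∀ (m : ℕ) (W : R[X]), W.natDegree ≤ m → W.Monic → aeval e W = 0 →
    ∃ W' : R[X], W'.Monic ∧ aeval e W' = 0 ∧ W'.coeff 0 ≠ 0 := by
  intro m
  induction m with
  | zero =>
    intro W hdeg hW h0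
    have h1 : W = 1 := by
      apply Polynomial.eq_one_of_monic_natDegree_zero hW
      omega
    rw [h1, map_one] at h0
    exact absurd h0 one_ne_zero
  | succ m ih =>
    intro W hdeg hW h0
    by_cases hc : W.coeff 0 = 0
    · have h1 : W = W.divX * X := by
        have := Polynomial.divX_mul_X_add W
        rw [hc, map_zero, add_zero] at this
        exact this.symm
      have h2 : W.divX.Monic := by
        have h3 : (W.divX * X).Monic := by rwa [← h1]
        exact (Polynomial.monic_X.of_mul_monic_right h3)
      have h4 : aeval e W.divX = 0 := by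
        rw [h1, map_mul, aeval_X] at h0
        rcases mul_eq_zero.mp h0 with h | h
        · exact h
        · exact absurd h he
      refine ih W.divX ?_ h2 h4
      rw [Polynomial.natDegree_divX_eq_natDegree_tsub_one]
      omega
    · exact ⟨W, hW, h0, hc⟩

theorem ANz_holds : ANzS := by
  classical
  intro F Ω _ _ _ _ _ _ t ht e hint he
  obtain ⟨W, hW, h0⟩ := hint
  obtain ⟨W, hW, h0, hc⟩ := ANz_div e he W.natDegree W le_rfl hW h0
  have hG : ∀ a : Algebra.adjoin F ({t} : Set Ω), ∃ G : F[X], aeval t G = (a : Ω) := by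
    rintro ⟨a, h1⟩
    rw [Algebra.adjoin_singleton_eq_range_aeval] at h1
    exact h1
  choose G hG using hG
  have hne : G (W.coeff 0) ≠ 0 := by
    intro h1
    apply hc
    apply Subtype.ext
    rw [← hG, h1, map_zero]
    rfl
  refine ⟨(G (W.coeff 0)).roots.toFinset, ?_⟩
  intro p hp t₀ ht₀ he₀
  rw [Multiset.mem_toFinset, mem_roots hne]
  have h2 : p.Red (aeval e W) (∑ i ∈ Finset.range (W.natDegree + 1),
      (G (W.coeff i)).eval t₀ * 0 ^ i) := by
    rw [aeval_eq_sum_range]
    refine Pl.red_sum _ fun i _ => ?_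
    rw [Algebra.smul_def]
    refine Pl.Red.mul ?_ (he₀.pow i)
    have h3 := l5_red_aeval hp ht₀ (G (W.coeff i))
    rw [hG] at h3
    exact h3
  have h4 : p.Red (aeval e W) 0 := by
    rw [h0]
    exact Pl.red_zero
  have h5 := h2.unique h4
  rw [Finset.sum_range_succ', pow_zero, mul_one] at h5
  rw [Finset.sum_eq_zero (fun i _ => by rw [pow_succ, mul_zero, mul_zero]), zero_add] at h5
  exact h5

end Pool.Agent.LSF
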