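import Pool.Agent.LSF.ADefs
import Pool.Agent.LenSpec.PlBasic

/-!
AOrb (orbits of a subgroup of small index).

STATEMENT: H subgroup of Perm α, r = card α ≥ 4, 2 [Perm α : H] < r (r - 1). Then H is transitive or fixes a point.
PROOF. If H is not transitive one of its orbits, O, has k ≤ r / 2 elements. If k = 1 it is a fixed point. Otherwise H is contained
in the stabilizer of O, of index C(r, k) ≥ C(r, 2).
-/

namespace Pool.Agent.LSF

open Polynomial Pool.Agent.LenSpec

theorem aorb_choose {r k : ℕ} (hk : 2 ≤ k) (h : 2 * k ≤ r) : r * (r - 1) ≤ 2 * r.choose k := by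
  have h2 : 2 * r.choose 2 = r * (r - 1) := by
    rw [Nat.choose_two_right]
    exact Nat.mul_div_cancel' (Nat.even_mul_pred_self r).two_dvd
  have h3 : ∀ j, 2 ≤ j → 2 * j ≤ r → r.choose 2 ≤ r.choose j := by
    intro j hj
    induction j, hj using Nat.le_induction with
    | base => intro _; exact le_rfl
    | succ j hj ih =>
      intro hr
      exact (ih (by omega)).trans (Nat.choose_le_succ_of_lt_half_left (by omega))
  have h4 := h3 k hk h
  omega

theorem aorb_index {α : Type} [Fintype α] [DecidableEq α] (H : Subgroup (Equiv.Perm α))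
    (O : Finset α) (hO : ∀ π ∈ H, ∀ x ∈ O, π x ∈ O) :
    (Fintype.card α).choose O.card ≤ H.index := by
  have := Set.powersetCard.isPretransitive (α := α) (n := O.card)
  set S : Set.powersetCard α O.card := ⟨O, rfl⟩ with hS
  have h1 : H ≤ MulAction.stabilizer (Equiv.Perm α) S := by
    intro π hπ
    rw [MulAction.mem_stabilizer_iff]
    apply Subtype.ext
    rw [Set.powersetCard.coe_smul]
    ext w
    rw [← Finset.inv_smul_mem_iff]
    constructor
    · intro h
      have h2 := hO π hπ _ h
      have h3 : π (π⁻¹ • w) = w := by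
        show π (π⁻¹ w) = w
        simp
      rw [h3] at h2
      exact h2
    · intro h
      exact hO π⁻¹ (H.inv_mem hπ) w h
  have h2 := MulAction.index_stabilizer_of_transitive (G := Equiv.Perm α) S
  have h3 : Nat.card (Set.powersetCard α O.card) = (Fintype.card α).choose O.card := by
    rw [Set.powersetCard.card, Nat.card_eq_fintype_card]
  rw [← h3, ← h2]
  exact Nat.le_of_dvd (Nat.pos_of_ne_zero H.index_ne_zero_of_finite)
    (Subgroup.index_dvd_of_le h1)

theorem AOrb_holds : AOrbS := by
  classical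
  intro α _ _ H hr hidx
  by_contra hcon
  push Not at hcon
  obtain ⟨⟨x, y, hxy⟩, hfix⟩ := hcon
  set O : α → Finset α := fun z => Finset.univ.filter (fun w => ∃ π ∈ H, π z = w) with hO
  have hmem : ∀ z w, w ∈ O z ↔ ∃ π ∈ H, π z = w := by
    intro z w
    simp [hO]
  have hst : ∀ z, ∀ π ∈ H, ∀ w ∈ O z, π w ∈ O z := by
    intro z π hπ w hw
    obtain ⟨σ, hσ, rfl⟩ := (hmem z w).1 hw
    exact (hmem _ _).2 ⟨π * σ, H.mul_mem hπ hσ, rfl⟩
  have hself : ∀ z, z ∈ O z := fun z => (hmem z z).2 ⟨1, H.one_mem, rfl⟩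
  have hdis : Disjoint (O x) (O y) := by
    rw [Finset.disjoint_left]
    intro w hw hw'
    obtain ⟨π, hπ, h1⟩ := (hmem x w).1 hw
    obtain ⟨σ, hσ, h2⟩ := (hmem y w).1 hw'
    apply hxy (σ⁻¹ * π) (H.mul_mem (H.inv_mem hσ) hπ)
    show σ⁻¹ (π x) = y
    rw [h1, ← h2]
    simp
  have hcard : (O x).card + (O y).card ≤ Fintype.card α := by
    rw [← Finset.card_union_of_disjoint hdis]
    exact Finset.card_le_univ _
  obtain ⟨z, hz⟩ : ∃ z, 2 * (O z).card ≤ Fintype.card α := by
    by_cases h : (O x).card ≤ (O y).card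
    · exact ⟨x, by omega⟩
    · exact ⟨y, by omega⟩
  have hone : 2 ≤ (O z).card := by
    by_contra h
    have h0 : 0 < (O z).card := Finset.card_pos.2 ⟨z, hself z⟩
    have h1 : (O z).card = 1 := by omega
    obtain ⟨a, ha⟩ := Finset.card_eq_one.1 h1
    obtain ⟨π, hπ, hne⟩ := hfix z
    apply hne
    have h2 := hself z
    have h3 := hst z π hπ z h2
    rw [ha, Finset.mem_singleton] at h2 h3
    rw [h3, h2]
  have h1 := aorb_index H (O z) (hst z)
  have h2 := aorb_choose hone hz
  omega

end Pool.Agent.LSF
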