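import Pool.Agent.LSF.ADefs
import Pool.Agent.LenSpec.PlBasic

/-!
APair (pairs).

STATEMENT: see ADefs. Γ acts on α as the full symmetric group, r = card α ≥ 10; card β, card β' ≤ r; x ≠ y in α, u ∈ β, u' ∈ β', and every
g fixing u and u' preserves the set {x, y}. Then there are equivariant bijections b : α ≃ β, b' : α ≃ β' with (b x = u and b' y = u') or
(b y = u and b' x = u').
PROOF. (1) Claim: the first alternative of AStb is impossible for u. Suppose every even permutation of α is induced by an element of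
Γ_u (the stabilizer of u). For the pairs {p, q} ⊂ α, p ≠ q: choose (even permutations are 2-transitive on α, r ≥ 4) g ∈ Γ_u with
g{x, y} = {p, q} and map {p, q} to g u' ∈ β'. Conversely if g u' = h u' with g, h ∈ Γ_u, then h⁻¹ g fixes u and u', so it preserves
{x, y}, hence g{x, y} = h{x, y}. So {p, q} ↦ g u' is an injection of the set of 2-subsets of α (r (r-1)/2 > r elements) into β' (≤ r
elements): contradiction. (Simpler to formalise: fix x, for every p ≠ y... any injection from more than r pairs is fine; for example use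
the r - 1 pairs {x, q}, q ≠ x together with the pair {y, z} and one more pair.)
 The same for u' (exchange the roles of u and u').
(2) So AStb gives equivariant bijections b : α ≃ β, b' : α ≃ β'. Put x1 = b⁻¹ u, x2 = b'⁻¹ u'. g fixes u iff it fixes x1, and fixes u' iff
it fixes x2. So every g fixing x1 and x2 preserves {x, y}. Suppose x is not in {x1, x2}: take z not in {x, y, x1, x2} and g inducing the
transposition (x z): it fixes x1, x2, but moves x to z, which is not in {x, y}: contradiction. So x ∈ {x1, x2}; in the same way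
y ∈ {x1, x2}. As x ≠ y: (x1, x2) = (x, y) or (y, x), which is the conclusion.
-/

namespace Pool.Agent.LSF

open Polynomial Pool.Agent.LenSpec

theorem apair_even {α : Type} [Fintype α] [DecidableEq α] (hr : 10 ≤ Fintype.card α)
    {x y p q : α} (hxy : x ≠ y) (hpq : p ≠ q) :
    ∃ π : Equiv.Perm α, Equiv.Perm.sign π = 1 ∧ π x = p ∧ π y = q := by
  set σ : Equiv.Perm α := Equiv.swap (Equiv.swap x p y) q * Equiv.swap x p with hσ
  have hσx : σ x = p := by
    rw [hσ, Equiv.Perm.mul_apply, Equiv.swap_apply_left]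
    apply Equiv.swap_apply_of_ne_of_ne _ hpq
    intro h
    have := congrArg (Equiv.swap x p) h
    rw [Equiv.swap_apply_right, Equiv.swap_apply_self] at this
    exact hxy this
  have hσy : σ y = q := by
    rw [hσ, Equiv.Perm.mul_apply, Equiv.swap_apply_left]
  rcases Int.units_eq_one_or (Equiv.Perm.sign σ) with h | h
  · exact ⟨σ, h, hσx, hσy⟩
  · obtain ⟨c, hc⟩ : ∃ c, c ∉ ({p, q} : Finset α) := by
      by_contra hcon
      push Not at hcon
      have : (Finset.univ : Finset α) ⊆ {p, q} := fun z _ => hcon z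
      have h1 := Finset.card_le_card this
      have h2 : ({p, q} : Finset α).card ≤ 2 := Finset.card_le_two
      rw [Finset.card_univ] at h1
      omega
    obtain ⟨d, hd⟩ : ∃ d, d ∉ ({p, q, c} : Finset α) := by
      by_contra hcon
      push Not at hcon
      have : (Finset.univ : Finset α) ⊆ {p, q, c} := fun z _ => hcon z
      have h1 := Finset.card_le_card this
      have h2 : ({p, q, c} : Finset α).card ≤ 3 := Finset.card_le_three
      rw [Finset.card_univ] at h1
      omega
    simp only [Finset.mem_insert, Finset.mem_singleton, not_or] at hc hd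
    refine ⟨Equiv.swap c d * σ, ?_, ?_, ?_⟩
    · rw [map_mul, h, Equiv.Perm.sign_swap (Ne.symm hd.2.2)]
      simp
    · rw [Equiv.Perm.mul_apply, hσx]
      exact Equiv.swap_apply_of_ne_of_ne (Ne.symm hc.1) (Ne.symm hd.1)
    · rw [Equiv.Perm.mul_apply, hσy]
      exact Equiv.swap_apply_of_ne_of_ne (Ne.symm hc.2) (Ne.symm hd.2.1)

theorem apair_key {Γ α β β' : Type} [Group Γ] [MulAction Γ α] [MulAction Γ β]
    [MulAction Γ β'] [Fintype α] [DecidableEq α] [Fintype β']
    (hc : Fintype.card β' ≤ Fintype.card α) (hr : 10 ≤ Fintype.card α)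
    {x y : α} {u : β} {u' : β'} (hxy : x ≠ y)
    (hpres : ∀ g : Γ, g • u = u → g • u' = u' →
      (g • x = x ∧ g • y = y) ∨ (g • x = y ∧ g • y = x))
    (hev : ∀ π : Equiv.Perm α, Equiv.Perm.sign π = 1 → ∃ g : Γ, g • u = u ∧ ∀ x, g • x = π x) :
    False := by
  classical
  have hex : ∀ z : α × α, ∃ g : Γ, g • u = u ∧ (z.1 ≠ z.2 → g • x = z.1 ∧ g • y = z.2) := by
    intro z
    by_cases hz : z.1 = z.2
    · exact ⟨1, one_smul _ _, fun h => absurd hz h⟩
    · obtain ⟨π, h1, h2, h3⟩ := apair_even hr hxy hz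
      obtain ⟨g, hg, hg'⟩ := hev π h1
      exact ⟨g, hg, fun _ => ⟨by rw [hg', h2], by rw [hg', h3]⟩⟩
  choose g hgu hg using hex
  have hcard := Finset.card_le_mul_card_image (f := fun z : α × α => g z • u')
    (Finset.univ.offDiag : Finset (α × α)) 2 (by
      intro w hw
      obtain ⟨z₀, hz₀, rfl⟩ := Finset.mem_image.mp hw
      have hz₀' : z₀.1 ≠ z₀.2 := (Finset.mem_offDiag.mp hz₀).2.2
      refine le_trans (Finset.card_le_card (t := {z₀, (z₀.2, z₀.1)}) ?_) Finset.card_le_two
      intro z hz
      obtain ⟨hz1, hz2⟩ := Finset.mem_filter.mp hz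
      have hz' : z.1 ≠ z.2 := (Finset.mem_offDiag.mp hz1).2.2
      have hfix : ((g z₀)⁻¹ * g z) • u = u := by
        rw [mul_smul, hgu z, inv_smul_eq_iff, hgu z₀]
      have hfix' : ((g z₀)⁻¹ * g z) • u' = u' := by
        rw [mul_smul, inv_smul_eq_iff]
        exact hz2
      have h1 := hg z hz'
      have h2 := hg z₀ hz₀'
      rcases hpres _ hfix hfix' with ⟨h3, h4⟩ | ⟨h3, h4⟩
      · rw [mul_smul, inv_smul_eq_iff, h1.1, h2.1] at h3
        rw [mul_smul, inv_smul_eq_iff, h1.2, h2.2] at h4
        simp only [Finset.mem_insert, Finset.mem_singleton]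
        left
        exact Prod.ext h3 h4
      · rw [mul_smul, inv_smul_eq_iff, h1.1, h2.2] at h3
        rw [mul_smul, inv_smul_eq_iff, h1.2, h2.1] at h4
        simp only [Finset.mem_insert, Finset.mem_singleton]
        right
        exact Prod.ext h3 h4)
  have h1 : (Finset.image (fun z : α × α => g z • u') Finset.univ.offDiag).card
      ≤ Fintype.card β' := Finset.card_le_univ _
  rw [Finset.offDiag_card, Finset.card_univ] at hcard
  obtain ⟨k, hk⟩ : ∃ k, Fintype.card α = k + 10 := ⟨Fintype.card α - 10, by omega⟩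
  have h3 : Fintype.card α * Fintype.card α ≤ 3 * Fintype.card α := by omega
  rw [hk] at h3
  nlinarith

theorem apair_in {Γ α β β' : Type} [Group Γ] [MulAction Γ α] [MulAction Γ β]
    [MulAction Γ β'] [Fintype α] [DecidableEq α] (hr : 10 ≤ Fintype.card α) (hF : FullA Γ α)
    {x y x1 x2 : α} {u : β} {u' : β'}
    (hpres : ∀ g : Γ, g • u = u → g • u' = u' →
      (g • x = x ∧ g • y = y) ∨ (g • x = y ∧ g • y = x))
    (h1 : ∀ g : Γ, g • x1 = x1 → g • u = u) (h2 : ∀ g : Γ, g • x2 = x2 → g • u' = u') :
    x = x1 ∨ x = x2 := by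
  by_contra hcon
  push Not at hcon
  obtain ⟨z, hz⟩ : ∃ z, z ∉ ({x, y, x1, x2} : Finset α) := by
    by_contra hcon
    push Not at hcon
    have : (Finset.univ : Finset α) ⊆ {x, y, x1, x2} := fun z _ => hcon z
    have h1 := Finset.card_le_card this
    have h2 : ({x, y, x1, x2} : Finset α).card ≤ 4 := Finset.card_le_four
    rw [Finset.card_univ] at h1
    omega
  simp only [Finset.mem_insert, Finset.mem_singleton, not_or] at hz
  obtain ⟨g, hg⟩ := hF (Equiv.swap x z)
  have hg1 : g • x1 = x1 := by
    rw [hg]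
    exact Equiv.swap_apply_of_ne_of_ne (Ne.symm hcon.1) (Ne.symm hz.2.2.1)
  have hg2 : g • x2 = x2 := by
    rw [hg]
    exact Equiv.swap_apply_of_ne_of_ne (Ne.symm hcon.2) (Ne.symm hz.2.2.2)
  have hgx : g • x = z := by
    rw [hg]
    exact Equiv.swap_apply_left _ _
  rcases hpres g (h1 g hg1) (h2 g hg2) with h | h
  · exact hz.1 (by rw [← hgx]; exact h.1)
  · exact hz.2.1 (by rw [← hgx]; exact h.1)

theorem APair_holds (hAStb : AStbS) : APairS := by
  classical
  intro Γ α β β' _ _ _ _ _ _ _ hβ hβ' hr hF x y u u' hxy hpres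
  rcases hAStb Γ α β hβ hr hF u with h | ⟨b, hb⟩
  · exact (apair_key hβ' hr hxy hpres h).elim
  rcases hAStb Γ α β' hβ' hr hF u' with h | ⟨b', hb'⟩
  · exact (apair_key hβ hr hxy (fun g h1 h2 => hpres g h2 h1) h).elim
  refine ⟨b, b', hb, hb', ?_⟩
  have h1 : ∀ g : Γ, g • b.symm u = b.symm u → g • u = u := fun g hg => by
    have := hb g (b.symm u)
    rw [hg, Equiv.apply_symm_apply] at this
    exact this.symm
  have h2 : ∀ g : Γ, g • b'.symm u' = b'.symm u' → g • u' = u' := fun g hg => by
    have := hb' g (b'.symm u')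
    rw [hg, Equiv.apply_symm_apply] at this
    exact this.symm
  have hx := apair_in hr hF hpres h1 h2
  have hy := apair_in hr hF (x := y) (y := x)
    (fun g a b => (hpres g a b).elim (fun h => Or.inl h.symm) (fun h => Or.inr h.symm)) h1 h2
  rcases hx with hx | hx
  · rcases hy with hy | hy
    · exact absurd (hx.trans hy.symm) hxy
    · left
      exact ⟨by rw [hx, Equiv.apply_symm_apply], by rw [hy, Equiv.apply_symm_apply]⟩
  · rcases hy with hy | hy
    · right
      exact ⟨by rw [hy, Equiv.apply_symm_apply], by rw [hx, Equiv.apply_symm_apply]⟩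
    · exact absurd (hx.trans hy.symm) hxy

end Pool.Agent.LSF
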