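import Pool.Agent.LSF.ADefs
import Pool.Agent.LenSpec.PlBasic

/-!
APrm (a transitive subgroup of index at most r is 2-transitive).

STATEMENT: H transitive subgroup of Perm α, r = card α ≥ 10, [Perm α : H] ≤ r. Then H is 2-transitive.
PROOF. Fix x and let H_x = {π ∈ H : π x = x}. [H : H_x] = r (transitive).
(1) Claim: H_x is transitive on α \ {x} or fixes some y ≠ x. Restriction to α' = {y // y ≠ x} embeds H_x as a subgroup H' of Perm α'
(Equiv.Perm.subtypePerm; the stabilizer of x in Perm α is isomorphic to Perm α'), and [Perm α' : H'] = (r-1)! / |H_x| =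
(r-1)! r / |H| = [Perm α : H] ≤ r. Since 2 r < (r-1)(r-2) for r ≥ 10, AOrb for α' gives the claim. (Use cardinalities:
Nat.card H * index = r!, orbit-stabilizer Nat.card H = r * Nat.card H_x.)
(2) If H_x is transitive on α \ {x} for this x (hence, H being transitive, for every x by conjugation, or do (1) for every x), then H is
2-transitive: given x ≠ y, x' ≠ y', take h ∈ H with h x = x' and then k ∈ H_{x'} with k (h y) = y' (both are ≠ x').
(3) Suppose H_x fixes some y ≠ x. Let P_{xy} be the group of all permutations fixing x and y, |P_{xy}| = (r-2)!. H_x ≤ P_{xy} and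
|H_x| = |H| / r ≥ r! / r^2 = (r-1)! / r > (r-2)! / 2 (since 2 (r-1) > r). A subgroup of more than half the elements is everything:
H_x = P_{xy}. So H contains all permutations that fix x and y. Choose z not in {x, y}. By transitivity g x = z for some g ∈ H; put z' = g y;
H_z = g H_x g⁻¹ = P_{z z'}, z' ≠ z.  So: (i) every permutation in H that fixes x fixes y; (ii) every permutation fixing x and y is in H;
(iii) every permutation in H that fixes z fixes z'; (iv) every permutation fixing z and z' is in H.
 - z' not in {x, y}: choose w not in {x, y, z, z'}; π = (z' w) fixes x and y, so π ∈ H by (ii); it fixes z but moves z': against (iii).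
 - z' = x: choose w not in {x, y, z}; π = (y w) fixes z and z' = x, so π ∈ H by (iv); it fixes x but moves y: against (i).
 - z' = y: (x and y have the same stabilizer in H: H_x ≤ H_y by (i) and they have the same order, H being transitive.) Choose w not in
   {x, y, z}; π = (x w) fixes z and z' = y, so π ∈ H; it fixes y, so it is in H_y = H_x, but it moves x: contradiction.
HINT: alternatively do everything with Nat.card of subgroups / MulAction.stabilizer ↥H.
-/

namespace Pool.Agent.LSF

open Polynomial Pool.Agent.LenSpec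

theorem APrm_out {α : Type} [Fintype α] [DecidableEq α] (l : List α)
    (h : l.length < Fintype.card α) : ∃ x, x ∉ l := by
  by_contra hc
  push Not at hc
  have h1 : (Finset.univ : Finset α) ⊆ l.toFinset := by
    intro x _
    exact List.mem_toFinset.2 (hc x)
  have h2 := Finset.card_le_card h1
  have h3 := List.toFinset_card_le l
  rw [Finset.card_univ] at h2
  omega

/-- the permutations of the points different from `x`, as permutations -/
noncomputable def APrm_E {α : Type} [DecidableEq α] (x : α) :
    Equiv.Perm {y : α // y ≠ x} →* Equiv.Perm α :=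
  Equiv.Perm.ofSubtype

theorem APrm_E_coe {α : Type} [DecidableEq α] (x : α) (π : Equiv.Perm {y : α // y ≠ x})
    (y : {y : α // y ≠ x}) : APrm_E x π y = π y :=
  Equiv.Perm.ofSubtype_apply_coe π y

theorem APrm_E_self {α : Type} [DecidableEq α] (x : α) (π : Equiv.Perm {y : α // y ≠ x}) :
    APrm_E x π x = x :=
  Equiv.Perm.ofSubtype_apply_of_not_mem (p := fun y => y ≠ x) π (by simp)

theorem APrm_E_surj {α : Type} [DecidableEq α] (x : α) (π : Equiv.Perm α) (hπ : π x = x) :
    ∃ π' : Equiv.Perm {y : α // y ≠ x}, APrm_E x π' = π := by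
  have h1 : ∀ y, π y ≠ x ↔ y ≠ x := by
    intro y
    rw [not_iff_not]
    constructor
    · intro h
      exact π.injective (h.trans hπ.symm)
    · rintro rfl
      exact hπ
  refine ⟨π.subtypePerm h1, ?_⟩
  apply Equiv.Perm.ofSubtype_subtypePerm (p := fun y => y ≠ x) h1
  rintro y hy rfl
  exact hy hπ

theorem APrm_card {α : Type} [Fintype α] [DecidableEq α] (x : α) :
    Fintype.card {y : α // y ≠ x} + 1 = Fintype.card α := by
  have h1 : Fintype.card {y : α // y ≠ x} = Fintype.card α - 1 := by
    rw [Fintype.card_subtype_compl (fun y => y = x), Fintype.card_subtype_eq]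
  have h2 : 0 < Fintype.card α := Fintype.card_pos_iff.2 ⟨x⟩
  omega

theorem APrm_index {α : Type} [Fintype α] [DecidableEq α] (H : Subgroup (Equiv.Perm α)) (x : α) :
    (H.comap (APrm_E x)).index ≤ H.index := by
  rw [Subgroup.index_comap, ← Subgroup.relIndex_top_right H]
  apply Subgroup.relIndex_le_of_le_right le_top
  rw [Subgroup.relIndex_top_right]
  exact Subgroup.index_ne_zero_of_finite

theorem APrm_holds (hAOrb : AOrbS) : APrmS := by
  intro α _ _ H hr hidx htr
  -- no stabilizer fixes another point
  have key : ∀ x : α, ¬ ∃ y : {y : α // y ≠ x}, ∀ π ∈ H.comap (APrm_E x), π y = y := by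
    rintro x ⟨⟨y, hyx⟩, hy⟩
    have h1 : ∀ π ∈ H, π x = x → π y = y := by
      intro π hπ hx
      obtain ⟨π', rfl⟩ := APrm_E_surj x π hx
      have h2 := hy π' hπ
      have h3 := APrm_E_coe x π' ⟨y, hyx⟩
      rw [h2] at h3
      exact h3
    -- all permutations that fix `x` and `y` are in `H`
    have h2 : ∀ π : Equiv.Perm α, π x = x → π y = y → π ∈ H := by
      have hle : H.comap (APrm_E x) ≤
          MulAction.stabilizer (Equiv.Perm {y : α // y ≠ x}) (⟨y, hyx⟩ : {y : α // y ≠ x}) := by
        intro π hπ
        rw [MulAction.mem_stabilizer_iff]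
        exact hy π hπ
      have hmul := Subgroup.relIndex_mul_index hle
      rw [MulAction.index_stabilizer_of_transitive, Nat.card_eq_fintype_card] at hmul
      have hc := APrm_card x
      have hi := APrm_index H x
      have hle1 : (H.comap (APrm_E x)).relIndex
          (MulAction.stabilizer (Equiv.Perm {y : α // y ≠ x})
            (⟨y, hyx⟩ : {y : α // y ≠ x})) ≤ 1 := by
        by_contra hcon
        push Not at hcon
        have h5 : 2 * Fintype.card {y : α // y ≠ x} ≤ (H.comap (APrm_E x)).index := by
          rw [← hmul]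
          exact Nat.mul_le_mul_right _ hcon
        omega
      have hpos : (H.comap (APrm_E x)).index ≠ 0 := Subgroup.index_ne_zero_of_finite
      have hone : (H.comap (APrm_E x)).relIndex
          (MulAction.stabilizer (Equiv.Perm {y : α // y ≠ x})
            (⟨y, hyx⟩ : {y : α // y ≠ x})) = 1 := by
        rcases Nat.lt_or_ge 0 ((H.comap (APrm_E x)).relIndex
          (MulAction.stabilizer (Equiv.Perm {y : α // y ≠ x})
            (⟨y, hyx⟩ : {y : α // y ≠ x}))) with h | h
        · omega
        · exfalso
          apply hpos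
          rw [← hmul, Nat.le_zero.1 h, Nat.zero_mul]
      rw [Subgroup.relIndex_eq_one] at hone
      intro π hx hπy
      obtain ⟨π', rfl⟩ := APrm_E_surj x π hx
      have h3 := APrm_E_coe x π' ⟨y, hyx⟩
      simp only at h3
      rw [hπy] at h3
      refine hone (?_ : π' ∈ _)
      rw [MulAction.mem_stabilizer_iff]
      exact Subtype.ext h3.symm
    -- the stabilizers of `x` and `y` in `H` are equal
    have h3 : ∀ π ∈ H, π y = y → π x = x := by
      haveI : MulAction.IsPretransitive H α := ⟨fun a b => by
        obtain ⟨π, hπ, h⟩ := htr a b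
        exact ⟨⟨π, hπ⟩, h⟩⟩
      have hle : MulAction.stabilizer H x ≤ MulAction.stabilizer H y := by
        intro π hπ
        rw [MulAction.mem_stabilizer_iff] at hπ ⊢
        exact h1 π π.2 hπ
      have hmul := Subgroup.relIndex_mul_index hle
      rw [MulAction.index_stabilizer_of_transitive, MulAction.index_stabilizer_of_transitive,
        Nat.card_eq_fintype_card] at hmul
      have hone : (MulAction.stabilizer H x).relIndex (MulAction.stabilizer H y) = 1 := by
        have h5 : 0 < Fintype.card α := by omega
        exact Nat.eq_of_mul_eq_mul_right h5 (hmul.trans (Nat.one_mul _).symm)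
      rw [Subgroup.relIndex_eq_one] at hone
      intro π hπ hπy
      have h6 : (⟨π, hπ⟩ : H) ∈ MulAction.stabilizer H y := by
        rw [MulAction.mem_stabilizer_iff]
        exact hπy
      have h7 := hone h6
      rw [MulAction.mem_stabilizer_iff] at h7
      exact h7
    obtain ⟨z, hz⟩ := APrm_out [x, y] (by simp; omega)
    simp only [List.mem_cons, List.not_mem_nil, or_false, not_or] at hz
    obtain ⟨hzx, hzy⟩ := hz
    obtain ⟨g, hg, hgx⟩ := htr x z
    obtain ⟨z', hz'⟩ : ∃ z', g y = z' := ⟨_, rfl⟩
    have hzz : z' ≠ z := by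
      intro h
      rw [← hz', ← hgx] at h
      exact hyx (g.injective h)
    have hgix : g⁻¹ z = x := by rw [← hgx]; exact g.symm_apply_apply x
    have hgiy : g⁻¹ z' = y := by rw [← hz']; exact g.symm_apply_apply y
    have h4 : ∀ π ∈ H, π z = z → π z' = z' := by
      intro π hπ hπz
      have h5 := h1 (g⁻¹ * π * g) (H.mul_mem (H.mul_mem (H.inv_mem hg) hπ) hg) (by
        rw [Equiv.Perm.mul_apply, Equiv.Perm.mul_apply, hgx, hπz, hgix])
      rw [Equiv.Perm.mul_apply, Equiv.Perm.mul_apply, hz'] at h5
      rw [Equiv.Perm.inv_eq_iff_eq] at h5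
      rw [h5, hz']
    have h5 : ∀ π : Equiv.Perm α, π z = z → π z' = z' → π ∈ H := by
      intro π hπz hπz'
      have h6 := h2 (g⁻¹ * π * g) (by
        rw [Equiv.Perm.mul_apply, Equiv.Perm.mul_apply, hgx, hπz, hgix]) (by
        rw [Equiv.Perm.mul_apply, Equiv.Perm.mul_apply, hz', hπz', hgiy])
      have h7 := H.mul_mem (H.mul_mem hg h6) (H.inv_mem hg)
      have h8 : g * (g⁻¹ * π * g) * g⁻¹ = π := by group
      rwa [h8] at h7
    obtain ⟨w, hw⟩ := APrm_out [x, y, z, z'] (by simp; omega)
    simp only [List.mem_cons, List.not_mem_nil, or_false, not_or] at hw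
    obtain ⟨hwx, hwy, hwz, hwz'⟩ := hw
    by_cases hc1 : z' = x
    · have h6 : Equiv.swap y w ∈ H := by
        apply h5
        · exact Equiv.swap_apply_of_ne_of_ne hzy (fun h => hwz h.symm)
        · rw [hc1]
          exact Equiv.swap_apply_of_ne_of_ne (fun h => hyx h.symm) (fun h => hwx h.symm)
      have h7 := h1 _ h6 (Equiv.swap_apply_of_ne_of_ne (fun h => hyx h.symm)
        (fun h => hwx h.symm))
      rw [Equiv.swap_apply_left] at h7
      exact hwy h7
    · by_cases hc2 : z' = y
      · have h6 : Equiv.swap x w ∈ H := by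
          apply h5
          · exact Equiv.swap_apply_of_ne_of_ne hzx (fun h => hwz h.symm)
          · rw [hc2]
            exact Equiv.swap_apply_of_ne_of_ne hyx (fun h => hwy h.symm)
        have h7 := h3 _ h6 (Equiv.swap_apply_of_ne_of_ne hyx (fun h => hwy h.symm))
        rw [Equiv.swap_apply_left] at h7
        exact hwx h7
      · have h6 : Equiv.swap z' w ∈ H := by
          apply h2
          · exact Equiv.swap_apply_of_ne_of_ne (fun h => hc1 h.symm) (fun h => hwx h.symm)
          · exact Equiv.swap_apply_of_ne_of_ne (fun h => hc2 h.symm) (fun h => hwy h.symm)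
        have h7 := h4 _ h6 (Equiv.swap_apply_of_ne_of_ne (fun h => hzz h.symm)
          (fun h => hwz h.symm))
        rw [Equiv.swap_apply_left] at h7
        exact hwz' h7
  have htr' : ∀ (x : α) (y y' : {y : α // y ≠ x}), ∃ π ∈ H.comap (APrm_E x), π y = y' := by
    intro x
    have hc := APrm_card x
    have hi := APrm_index H x
    rcases hAOrb {y : α // y ≠ x} (H.comap (APrm_E x)) (by omega) (by
      obtain ⟨m, hm⟩ : ∃ m, Fintype.card {y : α // y ≠ x} = m + 1 := ⟨_, (Nat.succ_pred_eq_of_pos
        (by omega)).symm⟩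
      rw [hm] at hc ⊢
      have h1 : 8 ≤ m := by omega
      have h2 : (H.comap (APrm_E x)).index ≤ m + 2 := by omega
      rw [Nat.add_sub_cancel]
      nlinarith) with h | h
    · exact h
    · exact absurd h (key x)
  intro x y x' y' hxy hxy'
  obtain ⟨h, hh, hhx⟩ := htr x x'
  have hne : h y ≠ x' := by
    intro hc
    rw [← hhx] at hc
    exact hxy (h.injective hc.symm)
  obtain ⟨k, hk, hky⟩ := htr' x' ⟨h y, hne⟩ ⟨y', fun hc => hxy' hc.symm⟩
  refine ⟨APrm_E x' k * h, H.mul_mem hk hh, ?_, ?_⟩
  · rw [Equiv.Perm.mul_apply, hhx, APrm_E_self]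
  · rw [Equiv.Perm.mul_apply]
    have h3 := APrm_E_coe x' k ⟨h y, hne⟩
    rw [hky] at h3
    exact h3

end Pool.Agent.LSF
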