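import Pool.Agent.LSF.ADefs
import Pool.Agent.LenSpec.Q1

/-!
AQ0 (the coordinates t, s of the generic map).
-/

namespace Pool.Agent.LSF

open Polynomial Pool.Agent.LenSpec

open Q1 in
theorem AQ0_holds (hFN : FNS) : AQ0S := by
  intro K _ _ _ d f hd hind
  classical
  have hc := hind.ne_zero
  obtain ⟨u, hu⟩ : ∃ u, u = f.num.coeff 0 := ⟨_, rfl⟩
  obtain ⟨v, hv⟩ : ∃ v, v = f.num.coeff 1 := ⟨_, rfl⟩
  have hv0 : v ≠ 0 := by
    rw [hv]
    exact hc (Sum.inl ⟨1, by omega⟩)
  let w : CI d → K := fun i => match i with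
    | Sum.inl j => if (j : ℕ) = 0 ∨ (j : ℕ) = 1 ∨ (j : ℕ) = d then 1 else v⁻¹
    | Sum.inr j => if (j : ℕ) = 0 then 1 else v⁻¹
  have hw : ∀ i, w i = 1 ∨ w i = v⁻¹ := by
    intro i
    rcases i with j | j
    · by_cases h : (j : ℕ) = 0 ∨ (j : ℕ) = 1 ∨ (j : ℕ) = d
      · left; exact if_pos h
      · right; exact if_neg h
    · by_cases h : (j : ℕ) = 0
      · left; exact if_pos h
      · right; exact if_neg h
  let y : CI d → K := fun i => w i * f.coef i
  let i₀ : CI d := Sum.inl ⟨0, by omega⟩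
  let i₁ : CI d := Sum.inl ⟨1, by omega⟩
  have h01 : i₀ ≠ i₁ := by
    intro h
    simp [i₀, i₁] at h
  have hy0 : y i₀ = u := by
    simp [y, w, i₀, hu, RatMap.coef]
  have hy1 : y i₁ = v := by
    simp [y, w, i₁, hv, RatMap.coef]
  have hyi : AlgebraicIndependent ℚ y := by
    apply indep_of_alg hind
    intro i
    have hmem : f.coef i ∈ Algebra.adjoin ℚ (Set.range y) := by
      rcases hw i with h | h
      · have h1 : y i = f.coef i := by simp only [y, h, one_mul]
        rw [← h1]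
        exact Algebra.subset_adjoin ⟨i, rfl⟩
      · have h1 : f.coef i = y i₁ * y i := by
          rw [hy1]
          simp only [y, h]
          rw [mul_inv_cancel_left₀ hv0]
        rw [h1]
        exact mul_mem (Algebra.subset_adjoin ⟨i₁, rfl⟩) (Algebra.subset_adjoin ⟨i, rfl⟩)
    exact isAlgebraic_algebraMap (⟨_, hmem⟩ : Algebra.adjoin ℚ (Set.range y))
  obtain ⟨F, hF1, hF2, hF3, hF4⟩ := exists_field y hyi i₀ i₁ h01
  rw [hy0, hy1] at hF3
  rw [hy0, hy1] at hF4
  -- the remaining elements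
  have hα : f.num.coeff d ∈ F := by
    have h1 := hF2 (Sum.inl ⟨d, by omega⟩) (by
      intro h
      simp only [i₀, Sum.inl.injEq, Fin.mk.injEq] at h
      omega) (by
      intro h
      simp only [i₁, Sum.inl.injEq, Fin.mk.injEq] at h
      omega)
    simpa [y, w, RatMap.coef] using h1
  have hβ : f.den.coeff 0 ∈ F := by
    have h1 := hF2 (Sum.inr ⟨0, by omega⟩) (by
      intro h
      simp [i₀] at h) (by
      intro h
      simp [i₁] at h)
    simpa [y, w, RatMap.coef] using h1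
  have hα0 : f.num.coeff d ≠ 0 := hc (Sum.inl ⟨d, by omega⟩)
  have hβ0 : f.den.coeff 0 ≠ 0 := hc (Sum.inr ⟨0, by omega⟩)
  have hg : ∀ j, 2 ≤ j → j < d → v⁻¹ * f.num.coeff j ∈ F := by
    intro j hj2 hjd
    have h1 := hF2 (Sum.inl ⟨j, by omega⟩) (by
      intro h
      simp only [i₀, Sum.inl.injEq, Fin.mk.injEq] at h
      omega) (by
      intro h
      simp only [i₁, Sum.inl.injEq, Fin.mk.injEq] at h
      omega)
    have h2 : ¬ (j = 0 ∨ j = 1 ∨ j = d) := by omega
    simpa [y, w, RatMap.coef, h2] using h1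
  have hh : ∀ j, 1 ≤ j → j ≤ d → v⁻¹ * f.den.coeff j ∈ F := by
    intro j hj1 hjd
    have h1 := hF2 (Sum.inr ⟨j, by omega⟩) (by
      intro h
      simp [i₀] at h) (by
      intro h
      simp [i₁] at h)
    have h2 : ¬ (j = 0) := by omega
    simpa [y, w, RatMap.coef, h2] using h1
  obtain ⟨a', ha'⟩ := IsAlgClosed.exists_pow_nat_eq
    ((⟨f.num.coeff d, hα⟩ : F) / ⟨f.den.coeff 0, hβ⟩) (show 0 < d - 1 by omega)
  obtain ⟨a, ha⟩ : ∃ a : K, a = a' := ⟨_, rfl⟩
  obtain ⟨b, hb⟩ : ∃ b : K, b = (f.den.coeff 0)⁻¹ := ⟨_, rfl⟩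
  have haF : a ∈ F := by rw [ha]; exact a'.2
  have hbF : b ∈ F := by rw [hb]; exact F.inv_mem hβ
  have hpow : a ^ (d - 1) = f.num.coeff d * b := by
    have h1 := congrArg (algebraMap F K) ha'
    rw [map_pow, map_div₀] at h1
    rw [hb, ← div_eq_mul_inv, ha]
    exact h1
  have hb0 : b ≠ 0 := by rw [hb]; exact inv_ne_zero hβ0
  have ha0 : a ≠ 0 := by
    intro h
    rw [h, zero_pow (by omega)] at hpow
    exact mul_ne_zero hα0 hb0 hpow.symm
  have hpow' : a * a ^ (d - 1) = a ^ d := by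
    rw [← pow_succ']
    congr 1
    omega
  have hab0 : a * b ≠ 0 := mul_ne_zero ha0 hb0
  have huF : ∀ L : IntermediateField F K, a * b * u ∈ L → u ∈ L := by
    intro L hL
    have h1 : u = (a * b)⁻¹ * (a * b * u) := by
      rw [inv_mul_cancel_left₀ hab0]
    rw [h1]
    exact mul_mem (L.algebraMap_mem (⟨(a * b)⁻¹, F.inv_mem (F.mul_mem haF hbF)⟩ : F)) hL
  have hinv : ∀ j, a⁻¹ ^ j ∈ F := fun j => pow_mem (F.inv_mem haF) j
  refine ⟨F, a, b, a * b * u, v, hF1, haF, hbF, ha0, hb0, hd, ?_, ?_, ?_, ?_, ?_, ?_⟩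
  · apply indep_of_alg hF3
    intro i
    have hmem : ![u, v] i ∈ Algebra.adjoin F (Set.range ![a * b * u, v]) := by
      fin_cases i
      · have h1 : (a * b)⁻¹ * (a * b * u) ∈ Algebra.adjoin F (Set.range ![a * b * u, v]) :=
          mul_mem (Subalgebra.algebraMap_mem _
            (⟨(a * b)⁻¹, F.inv_mem (F.mul_mem haF hbF)⟩ : F)) (Algebra.subset_adjoin ⟨0, rfl⟩)
        rw [inv_mul_cancel_left₀ hab0] at h1
        exact h1
      · exact Algebra.subset_adjoin ⟨1, rfl⟩
    exact isAlgebraic_algebraMap (⟨_, hmem⟩ : Algebra.adjoin F (Set.range ![a * b * u, v]))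
  · intro x
    apply hF4
    · apply huF
      apply IntermediateField.subset_adjoin
      exact Or.inl rfl
    · apply IntermediateField.subset_adjoin
      exact Or.inr rfl
  · apply exists_R
    · intro j hj
      rw [coeff_C_mul, comp_C_mul_X_coeff, coeff_add, coeff_X_pow, coeff_C]
      rcases Nat.eq_zero_or_pos j with rfl | hj0
      · refine ⟨0, F.zero_mem, ?_⟩
        rw [if_neg (by omega), if_pos rfl, hu]
        ring
      rcases eq_or_lt_of_le hj with rfl | hjd
      · refine ⟨0, F.zero_mem, ?_⟩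
        rw [if_pos rfl, if_neg (by omega), inv_pow, ← hpow', hpow]
        field_simp
        ring
      rw [if_neg (by omega), if_neg (by omega)]
      rcases eq_or_lt_of_le (show 1 ≤ j from hj0) with rfl | hj1
      · refine ⟨b, hbF, ?_⟩
        rw [← hv]
        field_simp
        ring
      · refine ⟨a * b * a⁻¹ ^ j * (v⁻¹ * f.num.coeff j),
          mul_mem (mul_mem (mul_mem haF hbF) (hinv j)) (hg j hj1 hjd), ?_⟩
        field_simp
        ring
    · intro j hj
      rw [coeff_C_mul, comp_C_mul_X_coeff, coeff_add, coeff_X_pow, coeff_C,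
        coeff_eq_zero_of_natDegree_lt (lt_of_le_of_lt f.num_le hj), if_neg (by omega),
        if_neg (by omega)]
      ring
  · apply exists_R
    · intro j hj
      rw [coeff_C_mul, comp_C_mul_X_coeff, coeff_one]
      rcases Nat.eq_zero_or_pos j with rfl | hj0
      · refine ⟨0, F.zero_mem, ?_⟩
        rw [if_pos rfl, hb, pow_zero, mul_one, inv_mul_cancel₀ hβ0, mul_zero, add_zero]
      · refine ⟨b * a⁻¹ ^ j * (v⁻¹ * f.den.coeff j),
          mul_mem (mul_mem hbF (hinv j)) (hh j hj0 hj), ?_⟩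
        rw [if_neg (by omega)]
        field_simp
        ring
    · intro j hj
      rw [coeff_C_mul, comp_C_mul_X_coeff, coeff_one,
        coeff_eq_zero_of_natDegree_lt (lt_of_le_of_lt f.den_le hj), if_neg (by omega)]
      ring
  · have h1 : IsCoprime (f.num.comp (C a⁻¹ * X)) (f.den.comp (C a⁻¹ * X)) :=
      f.coprime.map (compRingHom (C a⁻¹ * X))
    have h2 : IsUnit (C (a * b) : K[X]) := isUnit_C.2 (isUnit_iff_ne_zero.2 hab0)
    have h3 : IsUnit (C b : K[X]) := isUnit_C.2 (isUnit_iff_ne_zero.2 hb0)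
    rw [isCoprime_mul_unit_left_left h2, isCoprime_mul_unit_left_right h3]
    exact h1
  · apply noInf_scale _ _ _ _ _ ha0 hb0
    apply hFN K d f (by omega)
    exact hind

end Pool.Agent.LSF
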