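import Pool.Agent.LSF.ADefs
import Pool.Agent.LenSpec.PlBasic

/-!
AQa (iterated push-forwards are finite sums over the preimages).
-/

namespace Pool.Agent.LSF

open Polynomial Pool.Agent.LenSpec

theorem aqa_merge (s : Multiset ℂ) (X : ℂ → Finset ℂ) (a : ℂ → ℂ → ℂ) (c : ℂ → ℂ)
    (P : ℂ → Prop) (h : ∀ x ∈ s, ∀ w ∈ X x, P w) :
    ∃ (Y : Finset ℂ) (b : ℂ → ℂ), (∀ w ∈ Y, P w) ∧
      ∀ g : ℂ → ℂ, (s.map (fun x => (∑ w ∈ X x, a x w * g w) * c x)).sum = ∑ w ∈ Y, b w * g w := by
  classical
  induction s using Multiset.induction with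
  | empty => exact ⟨∅, fun _ => 0, by simp, by simp⟩
  | cons x s ih =>
    obtain ⟨Y, b, h1, h2⟩ := ih (fun y hy => h y (Multiset.mem_cons_of_mem hy))
    refine ⟨X x ∪ Y, fun w => (if w ∈ X x then a x w * c x else 0) + (if w ∈ Y then b w else 0),
      ?_, ?_⟩
    · intro w hw
      rcases Finset.mem_union.1 hw with h3 | h3
      · exact h x (Multiset.mem_cons_self _ _) w h3
      · exact h1 w h3
    · intro g
      rw [Multiset.map_cons, Multiset.sum_cons, h2 g]
      have h3 : ∀ w, ((if w ∈ X x then a x w * c x else 0) + (if w ∈ Y then b w else 0)) * g w =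
          (if w ∈ X x then a x w * c x * g w else 0) + (if w ∈ Y then b w * g w else 0) := by
        intro w
        split_ifs <;> ring
      simp only [h3]
      rw [Finset.sum_add_distrib, ← Finset.sum_filter, ← Finset.sum_filter]
      have h4 : (X x ∪ Y).filter (fun w => w ∈ X x) = X x := by
        ext w
        simp only [Finset.mem_filter, Finset.mem_union]
        exact ⟨fun h => h.2, fun h => ⟨Or.inl h, h⟩⟩
      have h5 : (X x ∪ Y).filter (fun w => w ∈ Y) = Y := by
        ext w
        simp only [Finset.mem_filter, Finset.mem_union]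
        exact ⟨fun h => h.2, fun h => ⟨Or.inr h, h⟩⟩
      rw [h4, h5, Finset.sum_mul]
      congr 1
      apply Finset.sum_congr rfl
      intro w _
      ring

theorem AQa_holds : AQaS := by
  intro d n t y hd
  induction n generalizing y with
  | zero =>
    refine ⟨{y}, fun _ => 1, ?_, ?_⟩
    · intro x hx
      exact Finset.mem_singleton.1 hx
    · intro g
      rw [Finset.sum_singleton, one_mul]
      rfl
  | succ n ih =>
    choose X a h1 h2 using ih
    obtain ⟨Y, b, h3, h4⟩ := aqa_merge (nthRoots d (y - t)) X a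
      (fun x => (((d : ℂ) * x ^ (d - 1)) ^ 2)⁻¹) (fun w => (T d t)^[n + 1] w = y) (by
        intro x hx w hw
        rw [Function.iterate_succ_apply', h1 x w hw, T]
        rw [mem_nthRoots (by omega)] at hx
        rw [hx]
        ring)
    refine ⟨Y, b, h3, ?_⟩
    intro g
    rw [Function.iterate_succ_apply', ← h4 g, pw]
    congr 1
    apply Multiset.map_congr rfl
    intro x _
    rw [h2 x g]

end Pool.Agent.LSF
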