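import Pool.Agent.LSF.ADefs
import Pool.Agent.LenSpec.PlBasic

/-!
AQb (iterated push-forward of 1/(z - w)).
-/

namespace Pool.Agent.LSF

open Polynomial Pool.Agent.LenSpec

lemma aqb_iter_an (d : ℕ) (t : ℂ) (k : ℕ) (w : ℂ) :
    AnalyticAt ℂ (fun w => (T d t)^[k] w) w := by
  induction k with
  | zero => exact analyticAt_id
  | succ k ih =>
    simp only [Function.iterate_succ_apply']
    unfold T
    exact (ih.pow d).add analyticAt_const

lemma aqb_Tm_an (d : ℕ) (t : ℂ) (n : ℕ) (w : ℂ) :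
    AnalyticAt ℂ (fun w => Tm d t n w) w := by
  unfold Tm
  induction n with
  | zero => simpa using (analyticAt_const : AnalyticAt ℂ (fun _ : ℂ => (1 : ℂ)) w)
  | succ n ih =>
    simp only [Finset.prod_range_succ]
    exact ih.mul (analyticAt_const.mul ((aqb_iter_an d t n w).pow (d - 1)))

lemma aqb_Tm_succ (d : ℕ) (t : ℂ) (n : ℕ) (w : ℂ) :
    Tm d t (n + 1) w = Tm d t n w * ((d : ℂ) * ((T d t)^[n] w) ^ (d - 1)) := by
  unfold Tm
  rw [Finset.prod_range_succ]

lemma aqb_Tm_ne (d : ℕ) (t : ℂ) (n : ℕ) (w : ℂ) (hd : 2 ≤ d)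
    (h : ∀ j < n, (T d t)^[j] w ≠ 0) : Tm d t n w ≠ 0 := by
  unfold Tm
  rw [Finset.prod_ne_zero_iff]
  intro k hk
  have hdC : (d : ℂ) ≠ 0 := Nat.cast_ne_zero.2 (by omega)
  exact mul_ne_zero hdC (pow_ne_zero _ (h k (Finset.mem_range.1 hk)))

lemma aqb_sum0 (d : ℕ) (c : ℂ) (hd : 2 ≤ d) : (nthRoots d c).sum = 0 := by
  have hd0 : d ≠ 0 := by omega
  set ζ : ℂ := Complex.exp (2 * Real.pi * Complex.I / d) with hζdef
  have hζ : IsPrimitiveRoot ζ d := Complex.isPrimitiveRoot_exp d hd0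
  have h1 : (c ^ ((d : ℂ)⁻¹)) ^ d = c := Complex.cpow_nat_inv_pow _ hd0
  rw [hζ.nthRoots_eq h1, Multiset.sum_map_mul_right]
  have h2 : (Multiset.map (fun x => ζ ^ x) (Multiset.range d)).sum = 0 :=
    hζ.geom_sum_eq_zero (by omega)
  rw [h2, zero_mul]

lemma aqb_zero (hQDa : QDaS) (d : ℕ) (t a y : ℂ) (hd : 2 ≤ d) (hy : y ≠ t)
    (hya : y ≠ T d t a) :
    pw d t (fun z => (z - a)⁻¹) y =
      ((d : ℂ) * a ^ (d - 1))⁻¹ * ((y - T d t a)⁻¹ - (y - t)⁻¹) := by
  unfold pw
  by_cases ha : a = 0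
  · subst ha
    have hd1 : d - 1 ≠ 0 := by omega
    rw [zero_pow hd1, mul_zero, inv_zero, zero_mul]
    have hc0 : y - t ≠ 0 := sub_ne_zero.2 hy
    have hdC : (d : ℂ) ≠ 0 := Nat.cast_ne_zero.2 (by omega)
    have h1 : ((nthRoots d (y - t)).map
        (fun x => (x - 0)⁻¹ * (((d : ℂ) * x ^ (d - 1)) ^ 2)⁻¹)).sum =
        ((nthRoots d (y - t)).map (fun x => x * ((d : ℂ) ^ 2 * (y - t) ^ 2)⁻¹)).sum := by
      congr 1
      apply Multiset.map_congr rfl
      intro x hx
      have hxd : x ^ d = y - t := (mem_nthRoots (by omega)).1 hx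
      have hx0 : x ≠ 0 := by
        rintro rfl
        rw [zero_pow (by omega)] at hxd
        exact hc0 hxd.symm
      have h2 : x ^ (d - 1) * x = y - t := by
        rw [← pow_succ, Nat.sub_add_cancel (by omega), hxd]
      have h3 : x ^ (d - 1) ≠ 0 := pow_ne_zero _ hx0
      rw [← h2, sub_zero]
      field_simp
    rw [h1, Multiset.sum_map_mul_right, Multiset.map_id', aqb_sum0 d _ hd, zero_mul]
  · rw [← hQDa d t a y hd ha hy hya]
    congr 1
    apply Multiset.map_congr rfl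
    intro x _
    rw [mul_inv]

lemma aqb_lin (d : ℕ) (t y A : ℂ) (g : ℂ → ℂ) (n : ℕ) (κ : ℕ → ℂ) (h : ℕ → ℂ → ℂ) :
    pw d t (fun z => A * g z - ∑ i ∈ Finset.range n, κ i * h i z) y =
      A * pw d t g y - ∑ i ∈ Finset.range n, κ i * pw d t (h i) y := by
  unfold pw
  induction (nthRoots d (y - t)) using Multiset.induction with
  | empty => simp
  | cons a s ih =>
    simp only [Multiset.map_cons, Multiset.sum_cons, ih, mul_add, Finset.sum_add_distrib]
    have h1 : (∑ i ∈ Finset.range n, κ i * h i a) * (((d : ℂ) * a ^ (d - 1)) ^ 2)⁻¹ =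
        ∑ i ∈ Finset.range n, κ i * (h i a * (((d : ℂ) * a ^ (d - 1)) ^ 2)⁻¹) := by
      rw [Finset.sum_mul]
      exact Finset.sum_congr rfl fun i _ => by ring
    rw [← h1]
    ring

lemma aqb_congr (d : ℕ) (t y : ℂ) (hd : 2 ≤ d) (g h : ℂ → ℂ)
    (H : ∀ x, T d t x = y → g x = h x) : pw d t g y = pw d t h y := by
  unfold pw
  congr 1
  apply Multiset.map_congr rfl
  intro x hx
  have hxd : x ^ d = y - t := (mem_nthRoots (by omega)).1 hx
  rw [H x (by unfold T; rw [hxd]; ring)]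

theorem AQb_holds (hQDa : QDaS) : AQbS := by
  intro d n t hd
  induction n with
  | zero =>
    refine ⟨fun _ _ => 0, fun w _ i => analyticAt_const, ?_⟩
    intro w y _ _ _
    simp [Tm]
  | succ n ih =>
    obtain ⟨κ, hκ, hform⟩ := ih
    set ee : ℕ → ℂ := fun i => ((d : ℂ) * ((T d t)^[i] t) ^ (d - 1))⁻¹ with hee
    refine ⟨fun i w => match i with
      | 0 => (Tm d t (n + 1) w)⁻¹ - ∑ i ∈ Finset.range n, κ i w * ee i
      | (j + 1) => κ j w * ee j, ?_, ?_⟩
    · intro w hw i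
      have hw' : ∀ j < n, (T d t)^[j] w ≠ 0 := fun j hj => hw j (by omega)
      match i with
      | 0 =>
        show AnalyticAt ℂ (fun w => (Tm d t (n + 1) w)⁻¹ - ∑ i ∈ Finset.range n, κ i w * ee i) w
        refine ((aqb_Tm_an d t (n + 1) w).inv (aqb_Tm_ne d t (n + 1) w hd hw)).sub ?_
        refine Finset.analyticAt_fun_sum _ fun i _ => ?_
        exact (hκ w hw' i).mul analyticAt_const
      | (j + 1) =>
        show AnalyticAt ℂ (fun w => κ j w * ee j) w
        exact (hκ w hw' j).mul analyticAt_const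
    · intro w y hw hy hyw
      have hw' : ∀ j < n, (T d t)^[j] w ≠ 0 := fun j hj => hw j (by omega)
      have hyt : y ≠ t := hy 0 (by omega)
      rw [Function.iterate_succ_apply']
      have h1 : pw d t ((pw d t)^[n] fun z => (z - w)⁻¹) y =
          pw d t (fun x => (Tm d t n w)⁻¹ * (x - (T d t)^[n] w)⁻¹ -
            ∑ i ∈ Finset.range n, κ i w * (x - (T d t)^[i] t)⁻¹) y := by
        refine aqb_congr d t y hd _ _ ?_
        intro x hx
        refine hform w x hw' ?_ ?_
        · intro i hi h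
          refine hy (i + 1) (by omega) ?_
          rw [Function.iterate_succ_apply', ← h, hx]
        · intro h
          refine hyw ?_
          rw [Function.iterate_succ_apply', ← h, hx]
      rw [h1, aqb_lin d t y (Tm d t n w)⁻¹ (fun x => (x - (T d t)^[n] w)⁻¹) n
        (fun i => κ i w) (fun i x => (x - (T d t)^[i] t)⁻¹)]
      rw [aqb_zero hQDa d t ((T d t)^[n] w) y hd hyt (by
        rw [← Function.iterate_succ_apply' (T d t)]; exact hyw)]
      have h2 : ∀ i ∈ Finset.range n, κ i w * pw d t (fun x => (x - (T d t)^[i] t)⁻¹) y =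
          κ i w * ee i * (y - (T d t)^[i + 1] t)⁻¹ - κ i w * ee i * (y - t)⁻¹ := by
        intro i hi
        have hi' := Finset.mem_range.1 hi
        rw [aqb_zero hQDa d t ((T d t)^[i] t) y hd hyt (by
          rw [← Function.iterate_succ_apply' (T d t)]; exact hy (i + 1) (by omega))]
        rw [← Function.iterate_succ_apply' (T d t)]
        simp only [hee]
        ring
      rw [Finset.sum_congr rfl h2, Finset.sum_sub_distrib, Finset.sum_range_succ',
        ← Finset.sum_mul, ← Function.iterate_succ_apply' (T d t)]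
      simp only [Function.iterate_zero, id_eq, aqb_Tm_succ, mul_inv, Nat.succ_eq_add_one]
      ring

end Pool.Agent.LSF
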