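import Pool.Agent.LSF.ADefs
import Pool.Agent.LenSpec.PlBasic

/-!
AQc (iterated push-forward of 1/(z - p)^j at a multiple fixed point).
-/

namespace Pool.Agent.LSF

open Polynomial Pool.Agent.LenSpec

lemma aqc_iter_deriv (d : ℕ) (t : ℂ) (n : ℕ) (w : ℂ) :
    HasDerivAt ((T d t)^[n]) (Tm d t n w) w := by
  induction n with
  | zero =>
    simp only [Function.iterate_zero]
    have : Tm d t 0 w = 1 := by simp [Tm]
    rw [this]
    exact hasDerivAt_id w
  | succ n ih =>
    rw [Function.iterate_succ']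
    have h1 : HasDerivAt (T d t) ((d : ℂ) * ((T d t)^[n] w) ^ (d - 1)) ((T d t)^[n] w) := by
      have := (hasDerivAt_pow d ((T d t)^[n] w)).add_const t
      exact this
    have h2 := h1.comp w ih
    have h3 : Tm d t (n + 1) w = (d : ℂ) * ((T d t)^[n] w) ^ (d - 1) * Tm d t n w := by
      rw [Tm, Finset.prod_range_succ, mul_comm]
      rfl
    rw [h3]
    exact h2

lemma aqc_iter_diff (d : ℕ) (t : ℂ) (n : ℕ) : Differentiable ℂ ((T d t)^[n]) :=
  fun w => (aqc_iter_deriv d t n w).differentiableAt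

lemma aqc_Tm_diff (d : ℕ) (t : ℂ) (n : ℕ) : Differentiable ℂ (Tm d t n) := by
  induction n with
  | zero =>
    have : (Tm d t 0 : ℂ → ℂ) = fun _ => 1 := by funext w; simp [Tm]
    rw [this]
    exact differentiable_const 1
  | succ n ih =>
    have : (Tm d t (n + 1) : ℂ → ℂ) =
        fun w => Tm d t n w * ((d : ℂ) * ((T d t)^[n] w) ^ (d - 1)) := by
      funext w
      rw [Tm, Finset.prod_range_succ]
      rfl
    rw [this]
    exact ih.mul (((aqc_iter_diff d t n).pow _).const_mul _)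

lemma aqc_sum {ι : Type} (s : Finset ι) (N : ℕ) (p : ℂ) (f : ι → ℂ → ℂ) (c : ι → ℂ)
    (hf : ∀ i ∈ s, AnalyticAt ℂ (f i) p) :
    iteratedDeriv N (fun w => ∑ i ∈ s, c i * f i w) p =
      ∑ i ∈ s, c i * iteratedDeriv N (f i) p := by
  classical
  induction s using Finset.induction_on with
  | empty =>
    simp only [Finset.sum_empty]
    have := iteratedDeriv_const_mul_field (n := N) (x := p) (0 : ℂ) (fun _ : ℂ => (0 : ℂ))
    simpa using this
  | insert a s ha ih =>
    simp only [Finset.sum_insert ha]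
    have h1 : AnalyticAt ℂ (fun w => c a * f a w) p :=
      analyticAt_const.mul (hf a (Finset.mem_insert_self a s))
    have h2 : AnalyticAt ℂ (fun w => ∑ i ∈ s, c i * f i w) p := by
      apply Finset.analyticAt_fun_sum
      intro i hi
      exact analyticAt_const.mul (hf i (Finset.mem_insert_of_mem hi))
    rw [iteratedDeriv_fun_add h1.contDiffAt h2.contDiffAt, iteratedDeriv_const_mul_field,
      ih (fun i hi => hf i (Finset.mem_insert_of_mem hi))]

lemma aqc_inv (N : ℕ) (x p : ℂ) :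
    iteratedDeriv N (fun w => (x - w)⁻¹) p = (N.factorial : ℂ) * ((x - p) ^ (N + 1))⁻¹ := by
  have h1 := iter_deriv_inv_linear_sub (𝕜 := ℂ) N (-1) (-x)
  have h2 : (fun w : ℂ => (x - w)⁻¹) = fun w => (-1 * w - (-x))⁻¹ := by
    funext w; congr 1; ring
  rw [iteratedDeriv_eq_iterate, h2, h1]
  have h3 : (-1 * p - -x) = x - p := by ring
  simp only [h3]
  have h4 : (x - p) ^ (-1 - (N : ℤ)) = ((x - p) ^ (N + 1))⁻¹ := by
    rw [← zpow_natCast, ← zpow_neg]; congr 1; push_cast; ring
  rw [h4]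
  have h5 : (-1 : ℂ) ^ N * N.factorial * (-1) ^ N = N.factorial := by
    have : (-1 : ℂ) ^ N * (-1) ^ N = 1 := by rw [← mul_pow]; simp
    linear_combination (N.factorial : ℂ) * this
  rw [h5]

lemma aqc_inv_an (x p : ℂ) (h : x ≠ p) : AnalyticAt ℂ (fun w => (x - w)⁻¹) p := by
  have h1 : AnalyticAt ℂ (fun w : ℂ => x - w) p := analyticAt_const.sub analyticAt_id
  exact h1.inv (sub_ne_zero.2 h)

theorem AQc_holds (hAQa : AQaS) (hAQb : AQbS) : AQcS := by
  intro d n m j t p hd hn hj hjm hH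
  obtain ⟨H, hH⟩ := hH
  obtain ⟨κ, hκ, hb⟩ := hAQb d n t hd
  -- basic facts about the fixed point
  have Fp : (T d t)^[n] p = p := by
    have := hH p
    rw [sub_self, zero_pow (by omega), zero_mul] at this
    exact sub_eq_zero.1 this
  have hT : ∀ w, Tm d t n w = 1 + (w - p) ^ (m - 1) *
      ((m : ℂ) * H.eval w + (w - p) * (derivative H).eval w) := by
    intro w
    have h1 : HasDerivAt (fun z => (T d t)^[n] z - z) (Tm d t n w - 1) w :=
      (aqc_iter_deriv d t n w).sub (hasDerivAt_id w)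
    have h2 : HasDerivAt (fun z => (z - p) ^ m * H.eval z)
        ((m : ℂ) * (w - p) ^ (m - 1) * 1 * H.eval w + (w - p) ^ m * (derivative H).eval w) w :=
      (((hasDerivAt_id w).sub_const p).pow m).mul (H.hasDerivAt w)
    have h3 : (fun z => (T d t)^[n] z - z) = fun z => (z - p) ^ m * H.eval z := funext hH
    rw [h3] at h1
    have h4 := h1.unique h2
    have h5 : (w - p) ^ m = (w - p) ^ (m - 1) * (w - p) := by
      rw [← pow_succ]; congr 1; omega
    rw [h5] at h4
    linear_combination h4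
  have Tp : Tm d t n p = 1 := by
    rw [hT p, sub_self, zero_pow (by omega)]
    ring
  have hnz : ∀ j' < n, (T d t)^[j'] p ≠ 0 := by
    intro j' hj' h0
    have h1 : Tm d t n p = 0 := by
      rw [Tm]
      apply Finset.prod_eq_zero (Finset.mem_range.2 hj')
      rw [h0, zero_pow (by omega), mul_zero]
    rw [Tp] at h1
    exact one_ne_zero h1
  refine ⟨fun i => (((j - 1).factorial : ℂ))⁻¹ * iteratedDeriv (j - 1) (κ i) p, fun y hy hyp => ?_⟩
  obtain ⟨X, a, hX, ha⟩ := hAQa d n t y hd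
  have hXp : ∀ x ∈ X, x ≠ p := by
    rintro x hx rfl
    exact hyp ((hX x hx).symm.trans Fp)
  -- the identity near `p`
  have ev1 : ∀ᶠ w in nhds p, ∀ j' ∈ Finset.range n, (T d t)^[j'] w ≠ 0 := by
    rw [Filter.eventually_all_finset]
    intro j' hj'
    exact (aqc_iter_diff d t j').continuous.continuousAt.eventually_ne
      (hnz j' (Finset.mem_range.1 hj'))
  have ev2 : ∀ᶠ w in nhds p, (T d t)^[n] w ≠ y :=
    (aqc_iter_diff d t n).continuous.continuousAt.eventually_ne
      (by rw [Fp]; exact fun h => hyp h.symm)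
  have ev3 : ∀ᶠ w in nhds p, w ≠ y := eventually_ne_nhds (fun h => hyp h.symm)
  have ev4 : ∀ᶠ w in nhds p, Tm d t n w ≠ 0 :=
    (aqc_Tm_diff d t n).continuous.continuousAt.eventually_ne (by rw [Tp]; exact one_ne_zero)
  have e1 : (fun w => ∑ x ∈ X, a x * (x - w)⁻¹) =ᶠ[nhds p]
      fun w => (Tm d t n w)⁻¹ * (y - (T d t)^[n] w)⁻¹ -
          ∑ i ∈ Finset.range n, (y - (T d t)^[i] t)⁻¹ * κ i w := by
    filter_upwards [ev1, ev2] with w h1 h2
    have h3 := hb w y (fun j' hj' => h1 j' (Finset.mem_range.2 hj')) hy (Ne.symm h2)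
    rw [ha] at h3
    rw [h3]
    congr 1
    apply Finset.sum_congr rfl
    intro i _
    ring
  -- analyticity
  have anF : AnalyticAt ℂ (fun w => (T d t)^[n] w) p := (aqc_iter_diff d t n).analyticAt p
  have anT : AnalyticAt ℂ (fun w => Tm d t n w) p := (aqc_Tm_diff d t n).analyticAt p
  have anYF : AnalyticAt ℂ (fun w => (y - (T d t)^[n] w)⁻¹) p :=
    (analyticAt_const.sub anF).inv (by
      show y - (T d t)^[n] p ≠ 0
      rw [Fp]; exact sub_ne_zero.2 hyp)
  have anTi : AnalyticAt ℂ (fun w => (Tm d t n w)⁻¹) p :=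
    anT.inv (by rw [Tp]; exact one_ne_zero)
  have anY : AnalyticAt ℂ (fun w => (y - w)⁻¹) p := aqc_inv_an y p hyp
  have anM : AnalyticAt ℂ (fun w => (Tm d t n w)⁻¹ * (y - (T d t)^[n] w)⁻¹) p := anTi.mul anYF
  have anD : AnalyticAt ℂ (fun w => (Tm d t n w)⁻¹ * (y - (T d t)^[n] w)⁻¹ - (y - w)⁻¹) p :=
    anM.sub anY
  have anκ : ∀ i ∈ Finset.range n, AnalyticAt ℂ (κ i) p := fun i _ => hκ p hnz i
  have anH : AnalyticAt ℂ (fun w => H.eval w) p := H.differentiable.analyticAt p
  have anH' : AnalyticAt ℂ (fun w => (derivative H).eval w) p :=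
    (derivative H).differentiable.analyticAt p
  have anS : AnalyticAt ℂ (fun w => ∑ i ∈ Finset.range n, (y - (T d t)^[i] t)⁻¹ * κ i w) p := by
    apply Finset.analyticAt_fun_sum
    intro i hi
    exact analyticAt_const.mul (anκ i hi)
  have anW : AnalyticAt ℂ (fun w : ℂ => w - p) p := analyticAt_id.sub analyticAt_const
  -- the difference vanishes to high order
  have hD : ((m - 1 : ℕ) : ℕ∞) ≤
      analyticOrderAt (fun w => (Tm d t n w)⁻¹ * (y - (T d t)^[n] w)⁻¹ - (y - w)⁻¹) p := by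
    rw [natCast_le_analyticOrderAt anD]
    refine ⟨fun w => ((w - p) * H.eval w - ((m : ℂ) * H.eval w + (w - p) *
      (derivative H).eval w) * (y - (T d t)^[n] w)) * ((Tm d t n w)⁻¹ *
        (y - (T d t)^[n] w)⁻¹ * (y - w)⁻¹), ?_, ?_⟩
    · exact ((anW.mul anH).sub (((analyticAt_const.mul anH).add (anW.mul anH')).mul
        (analyticAt_const.sub anF))).mul (anM.mul anY)
    · filter_upwards [ev2, ev3, ev4] with w h2 h3 h4
      have h2' : y - (T d t)^[n] w ≠ 0 := sub_ne_zero.2 (Ne.symm h2)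
      have h3' : y - w ≠ 0 := sub_ne_zero.2 (Ne.symm h3)
      have h5 : (w - p) ^ m = (w - p) ^ (m - 1) * (w - p) := by
        rw [← pow_succ]; congr 1; omega
      have h6 := hH w
      rw [h5] at h6
      have h7 := hT w
      rw [smul_eq_mul]
      have key : (Tm d t n w)⁻¹ * (y - (T d t)^[n] w)⁻¹ - (y - w)⁻¹ =
          ((y - w) - Tm d t n w * (y - (T d t)^[n] w)) * ((Tm d t n w)⁻¹ *
            (y - (T d t)^[n] w)⁻¹ * (y - w)⁻¹) := by
        field_simp
      have key2 : (y - w) - Tm d t n w * (y - (T d t)^[n] w) = (w - p) ^ (m - 1) *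
          ((w - p) * H.eval w - ((m : ℂ) * H.eval w + (w - p) *
            (derivative H).eval w) * (y - (T d t)^[n] w)) := by
        linear_combination h6 - (y - (T d t)^[n] w) * h7
      rw [key, key2, mul_assoc]
  have hD0 : iteratedDeriv (j - 1)
      (fun w => (Tm d t n w)⁻¹ * (y - (T d t)^[n] w)⁻¹ - (y - w)⁻¹) p = 0 :=
    (natCast_le_analyticOrderAt_iff_iteratedDeriv_eq_zero anD).1 hD (j - 1) (by omega)
  rw [iteratedDeriv_fun_sub anM.contDiffAt anY.contDiffAt, aqc_inv, sub_eq_zero] at hD0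
  have e2 := Filter.EventuallyEq.iteratedDeriv_eq (j - 1) e1
  rw [aqc_sum X (j - 1) p (fun x w => (x - w)⁻¹) a (fun x hx => aqc_inv_an x p (hXp x hx)),
    iteratedDeriv_fun_sub anM.contDiffAt anS.contDiffAt, hD0,
    aqc_sum (Finset.range n) (j - 1) p κ _ anκ] at e2
  simp only [aqc_inv] at e2
  have hjj : j - 1 + 1 = j := by omega
  rw [hjj] at e2
  have hf : ((j - 1).factorial : ℂ) ≠ 0 := by exact_mod_cast Nat.factorial_ne_zero _
  rw [ha]
  apply mul_left_cancel₀ hf
  rw [mul_sub, Finset.mul_sum, Finset.mul_sum]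
  rw [← sub_eq_zero] at e2 ⊢
  rw [← e2]
  congr 1
  · apply Finset.sum_congr rfl
    intro x _
    ring
  · congr 1
    apply Finset.sum_congr rfl
    intro i _
    field_simp

end Pool.Agent.LSF
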