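import Pool.Agent.LSF.ADefs
import Pool.Agent.LenSpec.QD0
import Pool.Agent.LenSpec.QDb

/-!
AQd (the integral inequality).

PROOF. Induction on n for all measurable g and measurable E. n = 0: equality. Step: pw^[n+1] g = pw^[n] (pw g) (Function.iterate_succ_apply). pw g is
measurable: for all c, the multiset nthRoots d c is {ζ^k c^(1/d) : k < d} (ζ a primitive d-th root of unity, cpow; also for c = 0, where nthRoots d 0 =
replicate d 0; see IsPrimitiveRoot.nthRoots_eq and the proof of QDb in Pool/Agent/LenSpec/QDb.lean, which may already contain this measurability), so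
pw g y = ∑_{k<d} (measurable function of y). Induction hypothesis for pw g: ∫_E ‖pw^[n] (pw g)‖ₑ ≤ ∫_{E'} ‖pw g‖ₑ, E' = (T^[n])⁻¹ E (measurable, T continuous).
‖pw g y‖ₑ ≤ ∑ ‖g x‖ₑ / ENNReal.ofReal (‖d x^(d-1)‖^2) (triangle inequality; QD0Aux.enorm_ms_sum in Pool/Agent/LenSpec/QD0.lean; for x = 0 the left term is 0),
and QDb: ∫_{E'} of this sum = ∫_{T⁻¹ E'} ‖g‖ₑ, T⁻¹ E' = (T^[n+1])⁻¹ E (Function.iterate_succ).
-/

namespace Pool.Agent.LSF

open Polynomial MeasureTheory Pool.Agent.LenSpec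

theorem AQd_pw_eq (d : ℕ) (hd : 2 ≤ d) (t : ℂ) (g : ℂ → ℂ) (y : ℂ) :
    pw d t g y = ∑ k ∈ Finset.range d,
      g (QDbAux.br d t (Complex.exp (2 * Real.pi * Complex.I / d) ^ k) y) *
      (((d : ℂ) * QDbAux.br d t (Complex.exp (2 * Real.pi * Complex.I / d) ^ k) y ^ (d - 1)) ^ 2)⁻¹ := by
  have hd0 : d ≠ 0 := by omega
  have hζ : IsPrimitiveRoot (Complex.exp (2 * Real.pi * Complex.I / d)) d :=
    Complex.isPrimitiveRoot_exp d hd0
  have h1 : ((y - t) ^ ((d : ℂ)⁻¹)) ^ d = y - t := Complex.cpow_nat_inv_pow _ hd0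
  unfold pw
  rw [hζ.nthRoots_eq h1, Multiset.map_map]
  rfl

theorem AQd_pw_meas (d : ℕ) (hd : 2 ≤ d) (t : ℂ) (g : ℂ → ℂ) (hg : Measurable g) :
    Measurable (pw d t g) := by
  have h : pw d t g = fun y => ∑ k ∈ Finset.range d,
      g (QDbAux.br d t (Complex.exp (2 * Real.pi * Complex.I / d) ^ k) y) *
      (((d : ℂ) * QDbAux.br d t (Complex.exp (2 * Real.pi * Complex.I / d) ^ k) y ^ (d - 1)) ^ 2)⁻¹ := by
    funext y
    exact AQd_pw_eq d hd t g y
  rw [h]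
  refine Finset.measurable_sum _ fun k _ => ?_
  have hb := QDbAux.br_meas d t (Complex.exp (2 * Real.pi * Complex.I / d) ^ k)
  refine (hg.comp hb).mul ?_
  fun_prop

theorem AQd_bound (d : ℕ) (hd : 2 ≤ d) (t : ℂ) (g : ℂ → ℂ) (y : ℂ) :
    ‖pw d t g y‖ₑ ≤ ((nthRoots d (y - t)).map
      (fun x => ‖g x‖ₑ / ENNReal.ofReal (‖(d : ℂ) * x ^ (d - 1)‖ ^ 2))).sum := by
  unfold pw
  refine (QD0Aux.enorm_ms_sum _ _).trans ?_
  refine Multiset.sum_map_le_sum_map _ _ ?_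
  intro x _
  by_cases hx : (d : ℂ) * x ^ (d - 1) = 0
  · rw [hx]
    simp
  · have hpos : 0 < ‖(d : ℂ) * x ^ (d - 1)‖ ^ 2 := by positivity
    rw [enorm_mul, ENNReal.div_eq_inv_mul, mul_comm]
    gcongr
    rw [enorm_inv (pow_ne_zero _ hx), ← ofReal_norm, norm_pow]

theorem AQd_holds (hQDb : QDbS) : AQdS := by
  intro d n t g E hd hg hE
  induction n generalizing g with
  | zero =>
    simp
  | succ n ih =>
    rw [Function.iterate_succ_apply]
    refine (ih (pw d t g) (AQd_pw_meas d hd t g hg)).trans ?_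
    have hT : Measurable (T d t) := by
      unfold T
      fun_prop
    have hE' : MeasurableSet ((T d t)^[n] ⁻¹' E) := (hT.iterate n) hE
    calc ∫⁻ x in (T d t)^[n] ⁻¹' E, ‖pw d t g x‖ₑ
        ≤ ∫⁻ y in (T d t)^[n] ⁻¹' E, ((nthRoots d (y - t)).map
          (fun x => ‖g x‖ₑ / ENNReal.ofReal (‖(d : ℂ) * x ^ (d - 1)‖ ^ 2))).sum :=
          lintegral_mono fun y => AQd_bound d hd t g y
      _ = ∫⁻ x in T d t ⁻¹' ((T d t)^[n] ⁻¹' E), ‖g x‖ₑ :=
          hQDb d t (fun x => ‖g x‖ₑ) _ hd hg.enorm hE'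
      _ = ∫⁻ x in ((T d t)^[n + 1]) ⁻¹' E, ‖g x‖ₑ := by
          rw [← Set.preimage_comp, Function.iterate_succ]

end Pool.Agent.LSF
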