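import Pool.Agent.LSF.ADefs
import Pool.Agent.LenSpec.PlBasic

/-!
AQe (linear independence of partial fractions).
-/

namespace Pool.Agent.LSF

open Polynomial Pool.Agent.LenSpec

theorem AQe_holds : AQeS := by
  classical
  intro P m c A hA h p₀ hp₀ j₀ hj₀
  -- the numerator
  set Q : ℂ → ℂ[X] := fun p => ∏ q ∈ P.erase p, (X - C q) ^ (m q) with hQ
  set S : ℂ → ℂ[X] := fun p => ∑ j ∈ Finset.Ico 1 (m p), C (c p j) * (X - C p) ^ (m p - j)
    with hS
  have hR : ∑ p ∈ P, S p * Q p = 0 := by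
    apply Polynomial.eq_zero_of_infinite_isRoot
    have h1 : (A \ (P : Set ℂ)).Infinite := hA.sdiff P.finite_toSet
    refine h1.mono ?_
    rintro z ⟨hzA, hzP⟩
    have hne : ∀ p ∈ P, z - p ≠ 0 := by
      intro p hp h0
      apply hzP
      rw [sub_eq_zero.1 h0]
      exact hp
    have hterm : ∀ p ∈ P, (S p * Q p).eval z =
        (∏ q ∈ P, (z - q) ^ (m q)) *
          ∑ j ∈ Finset.Ico 1 (m p), c p j * ((z - p) ^ j)⁻¹ := by
      intro p hp
      have hpz := hne p hp
      have h2 : (S p).eval z = (z - p) ^ (m p) *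
          ∑ j ∈ Finset.Ico 1 (m p), c p j * ((z - p) ^ j)⁻¹ := by
        rw [hS]
        simp only [eval_finsetSum, eval_mul, eval_C, eval_pow, eval_sub, eval_X]
        rw [Finset.mul_sum]
        refine Finset.sum_congr rfl fun j hj => ?_
        rw [Finset.mem_Ico] at hj
        have h3 : (z - p) ^ (m p) = (z - p) ^ (m p - j) * (z - p) ^ j := by
          rw [← pow_add]
          congr 1
          omega
        rw [h3]
        have h4 : (z - p) ^ j ≠ 0 := pow_ne_zero _ hpz
        field_simp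
      have h5 : (Q p).eval z = ∏ q ∈ P.erase p, (z - q) ^ (m q) := by
        rw [hQ]
        simp only [eval_prod, eval_pow, eval_sub, eval_X, eval_C]
      rw [eval_mul, h2, h5, ← Finset.mul_prod_erase P (fun q => (z - q) ^ (m q)) hp]
      ring
    show IsRoot _ z
    rw [IsRoot.def, eval_finsetSum, Finset.sum_congr rfl hterm, ← Finset.mul_sum, h z hzA,
      mul_zero]
  have hdvd : (X - C p₀) ^ (m p₀) ∣ S p₀ * Q p₀ := by
    rw [← Finset.add_sum_erase P (fun p => S p * Q p) hp₀] at hR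
    rw [eq_neg_of_add_eq_zero_left hR, dvd_neg]
    apply Finset.dvd_sum
    intro p hp
    apply Dvd.dvd.mul_left
    rw [hQ]
    have h1 : p₀ ∈ P.erase p := by
      rw [Finset.mem_erase] at hp ⊢
      exact ⟨fun h => hp.1 h.symm, hp₀⟩
    exact Finset.dvd_prod_of_mem (fun q => (X - C q) ^ (m q)) h1
  have hcop : IsCoprime ((X - C p₀) ^ (m p₀)) (Q p₀) := by
    rw [hQ]
    apply IsCoprime.prod_right
    intro q hq
    apply IsCoprime.pow
    apply isCoprime_X_sub_C_of_isUnit_sub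
    rw [Finset.mem_erase] at hq
    exact (sub_ne_zero.2 (fun h => hq.1 h.symm)).isUnit
  have hdvd2 : (X - C p₀) ^ (m p₀) ∣ S p₀ := hcop.dvd_of_dvd_mul_right hdvd
  have hdvd3 : (X : ℂ[X]) ^ (m p₀) ∣ ∑ j ∈ Finset.Ico 1 (m p₀), C (c p₀ j) * X ^ (m p₀ - j) := by
    have h1 := map_dvd (compRingHom (X + C p₀)) hdvd2
    have h2 : compRingHom (X + C p₀) ((X - C p₀) ^ (m p₀)) = X ^ (m p₀) := by
      simp
    have h3 : compRingHom (X + C p₀) (S p₀) =
        ∑ j ∈ Finset.Ico 1 (m p₀), C (c p₀ j) * X ^ (m p₀ - j) := by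
      rw [hS, map_sum]
      refine Finset.sum_congr rfl fun j _ => ?_
      simp
    rwa [h2, h3] at h1
  rw [Finset.mem_Ico] at hj₀
  have h1 := X_pow_dvd_iff.1 hdvd3 (m p₀ - j₀) (by omega)
  rw [finsetSum_coeff, Finset.sum_eq_single j₀] at h1
  · rwa [coeff_C_mul, coeff_X_pow_self, mul_one] at h1
  · intro j hj hjj
    rw [Finset.mem_Ico] at hj
    rw [coeff_C_mul, coeff_X_pow, if_neg (by omega), mul_zero]
  · intro hj
    exact absurd (Finset.mem_Ico.2 hj₀) hj

end Pool.Agent.LSF
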