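import Pool.Agent.LSF.ADefs
import Pool.Agent.LenSpec.QD0

/-!
AQf (there is no invariant quadratic differential with poles of small order).
-/

namespace Pool.Agent.LSF

open Polynomial Pool.Agent.LenSpec MeasureTheory

/-- the quadratic differential -/
noncomputable def aqf_q (P : Finset ℂ) (m : ℂ → ℕ) (c : ℂ → ℕ → ℂ) (z : ℂ) : ℂ :=
  ∑ p ∈ P, ∑ j ∈ Finset.Ico 1 (m p), c p j * ((z - p) ^ j)⁻¹

lemma aqf_meas (P : Finset ℂ) (m : ℂ → ℕ) (c : ℂ → ℕ → ℂ) : Measurable (aqf_q P m c) := by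
  unfold aqf_q
  refine Finset.measurable_fun_sum _ fun p _ => ?_
  refine Finset.measurable_fun_sum _ fun j _ => ?_
  fun_prop

lemma aqf_biUnion_le (P : Finset ℂ) (S : ℂ → Set ℂ) (f : ℂ → ENNReal) :
    ∫⁻ z in ⋃ p ∈ P, S p, f z ≤ ∑ p ∈ P, ∫⁻ z in S p, f z := by
  classical
  induction P using Finset.induction with
  | empty => simp
  | insert a s ha ih =>
    rw [Finset.set_biUnion_insert, Finset.sum_insert ha]
    exact (lintegral_union_le _ _ _).trans (by gcongr)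

/-- one step -/
lemma aqf_step (d : ℕ) (t : ℂ) (hd : 2 ≤ d) (R : ℝ) (hR : 3 + ‖t‖ ≤ R) (x : ℂ)
    (hx : ‖T d t x‖ ≤ R) : ‖x‖ ≤ R - 1 := by
  have ht0 : 0 ≤ ‖t‖ := norm_nonneg t
  by_contra hcon
  push Not at hcon
  have hx1 : ‖x‖ ^ d ≤ R + ‖t‖ := by
    have h2 : x ^ d = T d t x - t := by
      unfold T
      ring
    rw [← norm_pow, h2]
    exact (norm_sub_le _ _).trans (by linarith)
  have hx2 : (R - 1) ^ 2 < ‖x‖ ^ 2 := by
    refine pow_lt_pow_left₀ hcon (by linarith) (by norm_num)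
  have hx3 : ‖x‖ ^ 2 ≤ ‖x‖ ^ d := pow_le_pow_right₀ (by linarith) hd
  nlinarith

lemma aqf_iter (d : ℕ) (t : ℂ) (hd : 2 ≤ d) (R : ℝ) (hR : 3 + ‖t‖ ≤ R) (k : ℕ) :
    ∀ x : ℂ, ‖(T d t)^[k] x‖ ≤ R → ‖x‖ ≤ R := by
  induction k with
  | zero => intro x hx; simpa using hx
  | succ k ih =>
    intro x hx
    rw [Function.iterate_succ_apply] at hx
    have := aqf_step d t hd R hR x (ih _ hx)
    linarith

lemma aqf_iter' (d : ℕ) (t : ℂ) (hd : 2 ≤ d) (R : ℝ) (hR : 3 + ‖t‖ ≤ R) (n : ℕ) (hn : 1 ≤ n)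
    (x : ℂ) (hx : ‖(T d t)^[n] x‖ ≤ R) : ‖x‖ ≤ R - 1 := by
  obtain ⟨k, rfl⟩ : ∃ k, n = k + 1 := ⟨n - 1, by omega⟩
  rw [Function.iterate_succ_apply] at hx
  exact aqf_step d t hd R hR x (aqf_iter d t hd R hR k _ hx)

lemma aqf_fix (d : ℕ) (t : ℂ) (hd : 2 ≤ d) (n : ℕ) (hn : 1 ≤ n)
    (p : ℂ) (hp : (T d t)^[n] p = p) : ‖p‖ ≤ 3 + ‖t‖ - 1 := by
  have h1 := aqf_iter' d t hd (max (3 + ‖t‖) ‖p‖) (le_max_left _ _) n hn p
    (by rw [hp]; exact le_max_right _ _)
  rcases le_total (3 + ‖t‖) ‖p‖ with h | h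
  · rw [max_eq_right h] at h1
    linarith
  · rw [max_eq_left h] at h1
    exact h1

lemma aqf_shell_vol (p : ℂ) (ε s C : ℝ) (k : ℕ) (hε : 0 < ε) (hs0 : 0 ≤ s)
    (hs : s = ε - C * ε ^ k) (hsε : s ≤ ε) :
    volume (Metric.ball p ε \ Metric.ball p s) ≤
      ENNReal.ofReal (2 * Real.pi * C * ε ^ (k + 1)) := by
  rw [measure_sdiff (Metric.ball_subset_ball hsε) Metric.isOpen_ball.nullMeasurableSet
    measure_ball_lt_top.ne, Complex.volume_ball, Complex.volume_ball]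
  have h1 : ∀ r : ℝ, 0 ≤ r → ENNReal.ofReal r ^ 2 * (NNReal.pi : ENNReal) =
      ENNReal.ofReal (r ^ 2 * Real.pi) := by
    intro r hr
    rw [ENNReal.ofReal_mul (by positivity), ENNReal.ofReal_pow hr]
    congr 1
    rw [ENNReal.ofReal, ← NNReal.coe_real_pi, Real.toNNReal_coe]
  rw [h1 _ hε.le, h1 _ hs0, ← ENNReal.ofReal_sub _ (by positivity)]
  refine ENNReal.ofReal_le_ofReal ?_
  have h2 : C * ε ^ k = ε - s := by rw [hs]; ring
  have h3 : 2 * Real.pi * C * ε ^ (k + 1) = 2 * Real.pi * ε * (ε - s) := by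
    rw [← h2]; ring
  rw [h3]
  have hpi := Real.pi_pos
  nlinarith [mul_nonneg (mul_nonneg hpi.le (sub_nonneg.2 hsε)) (sub_nonneg.2 hsε)]

/-- the estimates near one point -/
lemma aqf_local (P : Finset ℂ) (m : ℂ → ℕ) (c : ℂ → ℕ → ℂ) (F : ℂ → ℂ) (p : ℂ) (hp : p ∈ P)
    (hm : 2 ≤ m p) (H : ℂ[X]) (hH : ∀ z, F z - z = (z - p) ^ (m p) * H.eval z) :
    ∃ K : ℝ, ∃ s : ℝ → ℝ, ∀ᶠ ε in nhdsWithin (0 : ℝ) (Set.Ioi 0),
      (∀ z, ‖z - p‖ < s ε → ‖F z - p‖ < ε) ∧
      ∫⁻ z in Metric.ball p ε \ Metric.ball p (s ε), ‖aqf_q P m c z‖ₑ ≤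
        ENNReal.ofReal (K * ε ^ 2) := by
  classical
  -- the bound for the polynomial
  obtain ⟨C0, hC0⟩ : ∃ C0 : ℝ, ∀ z ∈ Metric.closedBall p 1, ‖H.eval z‖ ≤ C0 := by
    have h1 : ContinuousOn (fun z => ‖H.eval z‖) (Metric.closedBall p 1) :=
      (H.continuous.norm).continuousOn
    obtain ⟨C0, h2⟩ := (isCompact_closedBall p 1).bddAbove_image h1
    exact ⟨C0, fun z hz => h2 ⟨z, hz, rfl⟩⟩
  set C : ℝ := max C0 1 with hC
  have hC1 : 1 ≤ C := le_max_right _ _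
  have hCH : ∀ z ∈ Metric.closedBall p 1, ‖H.eval z‖ ≤ C :=
    fun z hz => (hC0 z hz).trans (le_max_left _ _)
  -- the rest of the sum
  set g : ℂ → ℂ := fun z => ∑ p' ∈ P.erase p, ∑ j ∈ Finset.Ico 1 (m p'),
    c p' j * ((z - p') ^ j)⁻¹ with hg
  have hgc : ContinuousAt g p := by
    refine tendsto_finsetSum _ fun p' hp' => ?_
    refine tendsto_finsetSum _ fun j _ => ?_
    have hne : p - p' ≠ 0 := sub_ne_zero.2 (Finset.ne_of_mem_erase hp').symm
    refine ContinuousAt.mul continuousAt_const ?_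
    refine ContinuousAt.inv₀ (by fun_prop) (pow_ne_zero _ hne)
  set M : ℝ := ‖g p‖ + 1 with hM
  have hgM : ∀ᶠ z in nhds p, ‖g z‖ < M :=
    hgc.norm.eventually_lt_const (by rw [hM]; linarith)
  obtain ⟨δ, hδ, hδM⟩ := Metric.eventually_nhds_iff_ball.1 hgM
  set L : ℝ := (∑ j ∈ Finset.Ico 1 (m p), ‖c p j‖ * 2 ^ (m p)) + M with hL
  have hM0 : 0 < M := by positivity
  have hL0 : 0 ≤ L := by positivity
  refine ⟨2 * Real.pi * C * L, fun ε => ε - C * ε ^ (m p), ?_⟩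
  have hsmall : ∀ᶠ ε in nhdsWithin (0 : ℝ) (Set.Ioi 0), 0 < ε ∧ ε < min (min 1 δ) (1 / (2 * C)) := by
    have h1 : (0 : ℝ) < min (min 1 δ) (1 / (2 * C)) := by positivity
    filter_upwards [Ioo_mem_nhdsGT h1] with ε hε
    exact hε
  filter_upwards [hsmall] with ε hε
  obtain ⟨hε0, hε1⟩ := hε
  have hεa : ε < 1 := hε1.trans_le ((min_le_left _ _).trans (min_le_left _ _))
  have hεδ : ε < δ := hε1.trans_le ((min_le_left _ _).trans (min_le_right _ _))
  have hεC : C * ε ≤ 1 / 2 := by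
    have h1 : ε < 1 / (2 * C) := hε1.trans_le (min_le_right _ _)
    rw [lt_div_iff₀ (by linarith)] at h1
    linarith
  have hpow : ε ^ (m p) ≤ ε ^ 2 := pow_le_pow_of_le_one hε0.le hεa.le hm
  have hpow0 : 0 < ε ^ (m p) := pow_pos hε0 _
  have hs2 : ε / 2 ≤ ε - C * ε ^ (m p) := by
    have h1 : C * ε ^ (m p) ≤ C * ε ^ 2 := by gcongr
    nlinarith
  have hsε : ε - C * ε ^ (m p) ≤ ε := by nlinarith
  refine ⟨?_, ?_⟩
  · intro z hz
    have h1 : F z - p = (z - p) + (z - p) ^ (m p) * H.eval z := by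
      rw [← hH z]; ring
    have h2 : ‖z - p‖ < ε := hz.trans_le hsε
    have h3 : ‖H.eval z‖ ≤ C := by
      apply hCH
      rw [Metric.mem_closedBall, dist_eq_norm]
      linarith
    rw [h1]
    calc ‖(z - p) + (z - p) ^ (m p) * H.eval z‖ ≤ ‖z - p‖ + ‖(z - p) ^ (m p) * H.eval z‖ :=
          norm_add_le _ _
      _ = ‖z - p‖ + ‖z - p‖ ^ (m p) * ‖H.eval z‖ := by rw [norm_mul, norm_pow]
      _ ≤ ‖z - p‖ + ε ^ (m p) * C := by gcongr
      _ < ε := by linarith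
  · have hbd : ∀ z ∈ Metric.ball p ε \ Metric.ball p (ε - C * ε ^ (m p)),
        ‖aqf_q P m c z‖ₑ ≤ ENNReal.ofReal (L * (ε ^ (m p - 1))⁻¹) := by
      intro z hz
      rw [← ofReal_norm]
      refine ENNReal.ofReal_le_ofReal ?_
      have hz1 : ‖z - p‖ < ε := by
        have := hz.1
        rwa [Metric.mem_ball, dist_eq_norm] at this
      have hz2 : ε / 2 ≤ ‖z - p‖ := by
        have := hz.2
        rw [Metric.mem_ball, dist_eq_norm] at this
        linarith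
      have hgz : ‖g z‖ ≤ M := by
        refine (hδM z ?_).le
        rw [Metric.mem_ball, dist_eq_norm]
        linarith
      have hsplit : aqf_q P m c z =
          (∑ j ∈ Finset.Ico 1 (m p), c p j * ((z - p) ^ j)⁻¹) + g z := by
        unfold aqf_q
        rw [hg, ← Finset.add_sum_erase P _ hp]
      have hone : 1 ≤ (ε ^ (m p - 1))⁻¹ := by
        rw [one_le_inv₀ (pow_pos hε0 _)]
        exact pow_le_one₀ hε0.le hεa.le
      have hsum : ‖∑ j ∈ Finset.Ico 1 (m p), c p j * ((z - p) ^ j)⁻¹‖ ≤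
          (∑ j ∈ Finset.Ico 1 (m p), ‖c p j‖ * 2 ^ (m p)) * (ε ^ (m p - 1))⁻¹ := by
        rw [Finset.sum_mul]
        refine (norm_sum_le _ _).trans (Finset.sum_le_sum fun j hj => ?_)
        obtain ⟨hj1, hj2⟩ := Finset.mem_Ico.1 hj
        rw [norm_mul, norm_inv, norm_pow, mul_assoc]
        refine mul_le_mul_of_nonneg_left ?_ (norm_nonneg _)
        have h1 : (‖z - p‖ ^ j)⁻¹ ≤ ((ε / 2) ^ j)⁻¹ := by
          refine inv_anti₀ (by positivity) ?_
          exact pow_le_pow_left₀ (by positivity) hz2 j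
        refine h1.trans ?_
        rw [div_pow, inv_div, div_eq_mul_inv]
        have h2 : (ε ^ j)⁻¹ ≤ (ε ^ (m p - 1))⁻¹ := by
          refine inv_anti₀ (by positivity) ?_
          exact pow_le_pow_of_le_one hε0.le hεa.le (by omega)
        have h3 : (2 : ℝ) ^ j ≤ 2 ^ (m p) := pow_le_pow_right₀ (by norm_num) hj2.le
        gcongr
      rw [hsplit, hL, add_mul]
      refine (norm_add_le _ _).trans (add_le_add hsum ?_)
      refine hgz.trans ?_
      nlinarith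
    calc ∫⁻ z in Metric.ball p ε \ Metric.ball p (ε - C * ε ^ (m p)), ‖aqf_q P m c z‖ₑ
        ≤ ∫⁻ _ in Metric.ball p ε \ Metric.ball p (ε - C * ε ^ (m p)),
            ENNReal.ofReal (L * (ε ^ (m p - 1))⁻¹) :=
          setLIntegral_mono' (Metric.isOpen_ball.measurableSet.diff
            Metric.isOpen_ball.measurableSet) hbd
      _ = ENNReal.ofReal (L * (ε ^ (m p - 1))⁻¹) *
            volume (Metric.ball p ε \ Metric.ball p (ε - C * ε ^ (m p))) := setLIntegral_const _ _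
      _ ≤ ENNReal.ofReal (L * (ε ^ (m p - 1))⁻¹) *
            ENNReal.ofReal (2 * Real.pi * C * ε ^ (m p + 1)) := by
          gcongr
          exact aqf_shell_vol p ε _ C (m p) hε0 (by linarith) rfl hsε
      _ = ENNReal.ofReal (2 * Real.pi * C * L * ε ^ 2) := by
          rw [← ENNReal.ofReal_mul (by positivity)]
          congr 1
          have h1 : ε ^ (m p + 1) = ε ^ (m p - 1) * ε ^ 2 := by
            rw [← pow_add]
            congr 1
            omega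
          rw [h1]
          have h2 : ε ^ (m p - 1) ≠ 0 := (pow_pos hε0 _).ne'
          field_simp

lemma aqf_zero (hAQe : AQeS) (P : Finset ℂ) (m : ℂ → ℕ) (c : ℂ → ℕ → ℂ) (R : ℝ) (hR : 3 ≤ R)
    (h : ∫⁻ z in Metric.closedBall (0 : ℂ) R \ Metric.closedBall (0 : ℂ) (R - 1 / 2),
      ‖aqf_q P m c z‖ₑ = 0) :
    ∀ p ∈ P, ∀ j ∈ Finset.Ico 1 (m p), c p j = 0 := by
  set A : Set ℂ := Metric.closedBall (0 : ℂ) R \ Metric.closedBall (0 : ℂ) (R - 1 / 2) with hA
  have hAm : MeasurableSet A :=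
    Metric.isClosed_closedBall.measurableSet.diff Metric.isClosed_closedBall.measurableSet
  rw [setLIntegral_eq_zero_iff hAm (aqf_meas P m c).enorm] at h
  have h5 : ∀ᵐ y ∂volume, y ∈ A → aqf_q P m c y = 0 := by
    filter_upwards [h] with y hy hyA
    simpa using hy hyA
  apply hAQe P m c {y | y ∈ A ∧ aqf_q P m c y = 0}
  · intro hfin
    have h6 : volume A = 0 := by
      have h7 : A ⊆ {y | y ∈ A ∧ aqf_q P m c y = 0} ∪ {y | ¬ (y ∈ A → aqf_q P m c y = 0)} := by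
        intro y hy
        by_cases hq : aqf_q P m c y = 0
        · exact Or.inl ⟨hy, hq⟩
        · right
          intro h
          exact hq (h hy)
      refine measure_mono_null h7 (measure_union_null (hfin.measure_zero _) ?_)
      exact ae_iff.1 h5
    have h8 : Metric.ball ((R - 1 / 4 : ℝ) : ℂ) (1 / 8) ⊆ A := by
      intro z hz
      rw [Metric.mem_ball, dist_eq_norm] at hz
      have hn : ‖((R - 1 / 4 : ℝ) : ℂ)‖ = R - 1 / 4 := by
        rw [Complex.norm_real, Real.norm_eq_abs, abs_of_nonneg (by linarith)]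
      have h9 : ‖z‖ ≤ ‖z - ((R - 1 / 4 : ℝ) : ℂ)‖ + ‖((R - 1 / 4 : ℝ) : ℂ)‖ := by
        simpa using norm_add_le (z - ((R - 1 / 4 : ℝ) : ℂ)) ((R - 1 / 4 : ℝ) : ℂ)
      have h10 : ‖((R - 1 / 4 : ℝ) : ℂ)‖ ≤ ‖z‖ + ‖z - ((R - 1 / 4 : ℝ) : ℂ)‖ := by
        have := norm_sub_le z (z - ((R - 1 / 4 : ℝ) : ℂ))
        simpa using this
      refine ⟨?_, ?_⟩
      · rw [mem_closedBall_zero_iff]
        linarith
      · rw [mem_closedBall_zero_iff]
        push Not
        linarith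
    have h11 : volume (Metric.ball ((R - 1 / 4 : ℝ) : ℂ) (1 / 8)) = 0 := measure_mono_null h8 h6
    exact absurd h11 (Metric.measure_ball_pos volume _ (by norm_num)).ne'
  · intro z hz
    exact hz.2

theorem AQf_holds (hAQd : AQdS) (hAQe : AQeS) : AQfS := by
  intro d n t P m c B hd hn hP hB
  set R : ℝ := 3 + ‖t‖ with hR
  have ht0 : 0 ≤ ‖t‖ := norm_nonneg t
  set q : ℂ → ℂ := aqf_q P m c with hq
  have hqm : Measurable q := aqf_meas P m c
  have hfix : ∀ p ∈ P, (T d t)^[n] p = p := by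
    intro p hp
    obtain ⟨hm, H, hH⟩ := hP p hp
    have h1 := hH p
    rw [sub_self, zero_pow (by omega), zero_mul] at h1
    exact sub_eq_zero.1 h1
  have hPR : ∀ p ∈ P, ‖p‖ ≤ R - 1 := fun p hp => aqf_fix d t hd n hn p (hfix p hp)
  -- local estimates
  have hloc : ∀ p ∈ P, ∃ K : ℝ, ∃ s : ℝ → ℝ, ∀ᶠ ε in nhdsWithin (0 : ℝ) (Set.Ioi 0),
      (∀ z, ‖z - p‖ < s ε → ‖(T d t)^[n] z - p‖ < ε) ∧
      ∫⁻ z in Metric.ball p ε \ Metric.ball p (s ε), ‖q z‖ₑ ≤ ENNReal.ofReal (K * ε ^ 2) := by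
    intro p hp
    obtain ⟨hm, H, hH⟩ := hP p hp
    exact aqf_local P m c (T d t)^[n] p hp hm H hH
  choose! K s hKs using hloc
  have hev : ∀ᶠ ε in nhdsWithin (0 : ℝ) (Set.Ioi 0), ∀ p ∈ P,
      (∀ z, ‖z - p‖ < s p ε → ‖(T d t)^[n] z - p‖ < ε) ∧
      ∫⁻ z in Metric.ball p ε \ Metric.ball p (s p ε), ‖q z‖ₑ ≤
        ENNReal.ofReal (K p * ε ^ 2) :=
    (Filter.eventually_all_finset P).2 hKs
  set W : Set ℂ := Metric.closedBall (0 : ℂ) R \ Metric.closedBall (0 : ℂ) (R - 1 / 2) with hW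
  have hWm : MeasurableSet W :=
    Metric.isClosed_closedBall.measurableSet.diff Metric.isClosed_closedBall.measurableSet
  have hmain : ∀ᶠ ε in nhdsWithin (0 : ℝ) (Set.Ioi 0),
      ∫⁻ z in W, ‖q z‖ₑ ≤ ∑ p ∈ P, ENNReal.ofReal (K p * ε ^ 2) := by
    have hsm : ∀ᶠ ε in nhdsWithin (0 : ℝ) (Set.Ioi 0), 0 < ε ∧ ε < 1 / 2 := by
      filter_upwards [Ioo_mem_nhdsGT (show (0 : ℝ) < 1 / 2 by norm_num)] with ε hε
      exact hε
    filter_upwards [hev, hsm] with ε hε hε2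
    obtain ⟨hε0, hεh⟩ := hε2
    set V : Set ℂ := ⋃ p ∈ P, Metric.ball p ε with hV
    have hVo : IsOpen V := isOpen_biUnion fun p _ => Metric.isOpen_ball
    set A : Set ℂ := Metric.closedBall (0 : ℂ) R \ V with hA
    have hAm : MeasurableSet A :=
      Metric.isClosed_closedBall.measurableSet.diff hVo.measurableSet
    set D : Set ℂ := A ∩ Metric.closedBall (0 : ℂ) (R - 1) with hD
    have hDm : MeasurableSet D := hAm.inter Metric.isClosed_closedBall.measurableSet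
    -- the integral inequality
    have h1 : ∫⁻ y in A, ‖q y‖ₑ ≤ ∫⁻ x in ((T d t)^[n]) ⁻¹' A, ‖q x‖ₑ := by
      refine le_trans ?_ (hAQd d n t q A hd hqm hAm)
      refine lintegral_mono_ae ?_
      have hnull : volume (B : Set ℂ) = 0 := (Finset.countable_toSet _).measure_zero _
      have hae : ∀ᵐ y ∂(volume.restrict A), y ∉ (B : Set ℂ) :=
        ae_restrict_of_ae (measure_eq_zero_iff_ae_notMem.1 hnull)
      filter_upwards [hae] with y hy
      have h2 := hB y (by simpa using hy)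
      have h3 : (pw d t)^[n] q y = q y := h2
      rw [h3]
    -- the preimage
    have h2 : ((T d t)^[n]) ⁻¹' A ⊆
        D ∪ ⋃ p ∈ P, (Metric.ball p ε \ Metric.ball p (s p ε)) := by
      intro z hz
      have hz1 : ‖(T d t)^[n] z‖ ≤ R := by
        have := hz.1
        rwa [mem_closedBall_zero_iff] at this
      have hz2 : ‖z‖ ≤ R - 1 := aqf_iter' d t hd R le_rfl n hn z hz1
      by_cases hzV : z ∈ V
      · right
        obtain ⟨p, hp, hzp⟩ := Set.mem_iUnion₂.1 hzV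
        refine Set.mem_iUnion₂.2 ⟨p, hp, hzp, ?_⟩
        intro hzs
        rw [Metric.mem_ball, dist_eq_norm] at hzs
        have h3 := (hε p hp).1 z hzs
        apply hz.2
        refine Set.mem_iUnion₂.2 ⟨p, hp, ?_⟩
        rwa [Metric.mem_ball, dist_eq_norm]
      · left
        refine ⟨⟨?_, hzV⟩, ?_⟩
        · rw [mem_closedBall_zero_iff]; linarith
        · rw [mem_closedBall_zero_iff]; exact hz2
    have h3 : ∫⁻ y in A, ‖q y‖ₑ ≤ (∫⁻ y in D, ‖q y‖ₑ) +
        ∑ p ∈ P, ENNReal.ofReal (K p * ε ^ 2) := by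
      refine h1.trans ((lintegral_mono_set h2).trans ((lintegral_union_le _ _ _).trans ?_))
      gcongr
      refine (aqf_biUnion_le P _ _).trans ?_
      exact Finset.sum_le_sum fun p hp => (hε p hp).2
    -- W and D are disjoint parts of A
    have hWA : W ⊆ A := by
      intro z hz
      refine ⟨hz.1, ?_⟩
      intro hzV
      obtain ⟨p, hp, hzp⟩ := Set.mem_iUnion₂.1 hzV
      rw [Metric.mem_ball, dist_eq_norm] at hzp
      apply hz.2
      rw [mem_closedBall_zero_iff]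
      have h4 : ‖z‖ ≤ ‖z - p‖ + ‖p‖ := by simpa using norm_add_le (z - p) p
      have := hPR p hp
      linarith
    have hdis : Disjoint W D := by
      rw [Set.disjoint_left]
      intro z hz hzD
      apply hz.2
      have := hzD.2
      rw [mem_closedBall_zero_iff] at this ⊢
      linarith
    have h4 : (∫⁻ y in W, ‖q y‖ₑ) + ∫⁻ y in D, ‖q y‖ₑ ≤ ∫⁻ y in A, ‖q y‖ₑ := by
      rw [← lintegral_union hDm hdis]
      exact lintegral_mono_set (Set.union_subset hWA Set.inter_subset_left)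
    have hfin : ∫⁻ y in D, ‖q y‖ₑ < ⊤ := by
      set Cc : ℝ := ∑ p ∈ P, ∑ j ∈ Finset.Ico 1 (m p), ‖c p j‖ * (ε ^ j)⁻¹ with hCc
      have h5 : ∫⁻ y in D, ‖q y‖ₑ ≤ ∫⁻ _ in D, ENNReal.ofReal Cc := by
        refine setLIntegral_mono' hDm ?_
        intro z hz
        rw [← ofReal_norm]
        refine ENNReal.ofReal_le_ofReal ?_
        rw [hq, hCc]
        unfold aqf_q
        refine (norm_sum_le _ _).trans (Finset.sum_le_sum fun p hp => ?_)
        refine (norm_sum_le _ _).trans (Finset.sum_le_sum fun j _ => ?_)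
        rw [norm_mul, norm_inv, norm_pow]
        refine mul_le_mul_of_nonneg_left ?_ (norm_nonneg _)
        refine inv_anti₀ (by positivity) ?_
        refine pow_le_pow_left₀ hε0.le ?_ j
        by_contra hlt
        push Not at hlt
        apply hz.1.2
        refine Set.mem_iUnion₂.2 ⟨p, hp, ?_⟩
        rwa [Metric.mem_ball, dist_eq_norm]
      refine h5.trans_lt ?_
      rw [setLIntegral_const]
      refine ENNReal.mul_lt_top ENNReal.ofReal_lt_top ?_
      refine lt_of_le_of_lt (measure_mono Set.inter_subset_right) ?_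
      exact measure_closedBall_lt_top
    have h6 : (∫⁻ y in W, ‖q y‖ₑ) + ∫⁻ y in D, ‖q y‖ₑ ≤
        (∑ p ∈ P, ENNReal.ofReal (K p * ε ^ 2)) + ∫⁻ y in D, ‖q y‖ₑ := by
      rw [add_comm (∑ p ∈ P, ENNReal.ofReal (K p * ε ^ 2))]
      exact h4.trans h3
    exact (ENNReal.add_le_add_iff_right hfin.ne).1 h6
  have hlim : Filter.Tendsto (fun ε : ℝ => ∑ p ∈ P, ENNReal.ofReal (K p * ε ^ 2))
      (nhdsWithin (0 : ℝ) (Set.Ioi 0)) (nhds 0) := by
    have h1 : Continuous (fun ε : ℝ => ∑ p ∈ P, ENNReal.ofReal (K p * ε ^ 2)) := by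
      refine continuous_finsetSum _ fun p _ => ?_
      exact ENNReal.continuous_ofReal.comp (by fun_prop)
    have h2 := (h1.tendsto 0).mono_left (nhdsWithin_le_nhds (s := Set.Ioi (0 : ℝ)))
    simpa using h2
  have hzero : ∫⁻ z in W, ‖q z‖ₑ = 0 := le_antisymm (ge_of_tendsto hlim hmain) zero_le
  exact aqf_zero hAQe P m c R (by rw [hR]; linarith) hzero

end Pool.Agent.LSF
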