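import Pool.Agent.LSF.ADefs
import Pool.Agent.LenSpec.J1

/-!
AQg (the number of periodic points of z^d + t).

PROOF. Let W(z) = J1q d t n - X (Pool/Agent/LenSpec/J1.lean: J1q d t n is the polynomial of T^[n], J1q_eval; W monic of degree d^n, J1q_sub_monic,
J1q_sub_natDegree). Its roots are {z | T^[n] z = z}; let μ(z) = W.rootMultiplicity z. ∑_{roots} μ(z) = d^n (ℂ algebraically closed; card roots = degree,
Multiset.toFinset_sum_count_eq). So number of distinct roots = d^n - ∑ (μ(z) - 1), and we have to show ∑ (μ(z) - 1) ≤ n. Let P be the set of roots with μ ≥ 2,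
m p = μ(p). T^[n] z - z = W(z) = (z - p)^(m p) H_p(z) (Polynomial.exists_eq_pow_rootMultiplicity_mul...). Index set J = {(p, j) : p ∈ P, 1 ≤ j ≤ m p - 1}, |J| = ∑ (m p - 1).
Suppose |J| > n. For (p, j) ∈ J let k^{(p,j)} : ℕ → ℂ be given by AQc. The linear map ℂ^J → ℂ^n, c ↦ (∑ c_{p,j} k^{(p,j)}_i)_{i<n} has a nonzero vector c in its
kernel (LinearMap.exists_ne_zero..., finrank; e.g. Matrix.exists_mulVec_eq_zero... or LinearMap.ker_ne_bot_of_finrank_lt). Then for y not in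
B = P ∪ {T^[i] t : i < n}: pw^[n] (∑ c (z - p)^(-j)) y = ∑ c_{p,j} pw^[n] ((z - p)^(-j)) y (linearity from AQa: pw^[n] g y = ∑ a x g x) = ∑ c_{p,j} ((y - p)^j)⁻¹ - 0.
AQf: c = 0, contradiction.
-/

namespace Pool.Agent.LSF

open Polynomial Pool.Agent.LenSpec

/-- a nonzero vector in the kernel -/
theorem AQg_ker (J : Finset (ℂ × ℕ)) (n : ℕ) (hJ : n < J.card) (k : ℂ × ℕ → ℕ → ℂ) :
    ∃ c : ℂ → ℕ → ℂ, (∀ i < n, ∑ q ∈ J, c q.1 q.2 * k q i = 0) ∧ ∃ q ∈ J, c q.1 q.2 ≠ 0 := by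
  classical
  let L : (J → ℂ) →ₗ[ℂ] (Fin n → ℂ) :=
    { toFun := fun c i => ∑ q : J, c q * k q.1 i
      map_add' := by
        intro x y
        funext i
        simp only [Pi.add_apply, add_mul, Finset.sum_add_distrib]
      map_smul' := by
        intro a x
        funext i
        simp only [Pi.smul_apply, smul_eq_mul, Finset.mul_sum, mul_assoc, RingHom.id_apply] }
  have hker : LinearMap.ker L ≠ ⊥ := by
    apply LinearMap.ker_ne_bot_of_finrank_lt
    rw [Module.finrank_fintype_fun_eq_card, Module.finrank_fintype_fun_eq_card, Fintype.card_fin,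
      Fintype.card_coe]
    exact hJ
  obtain ⟨c, hc, hc0⟩ := (Submodule.ne_bot_iff _).mp hker
  rw [LinearMap.mem_ker] at hc
  refine ⟨fun p j => if h : (p, j) ∈ J then c ⟨(p, j), h⟩ else 0, ?_, ?_⟩
  · intro i hi
    have h1 := congrFun hc ⟨i, hi⟩
    have h2 : L c ⟨i, hi⟩ = ∑ q : J, c q * k q.1 i := rfl
    rw [h2] at h1
    have h3 : ∑ q : J, c q * k q.1 i = ∑ q ∈ J, (if h : (q.1, q.2) ∈ J then c ⟨(q.1, q.2), h⟩ else 0) * k q i := by
      rw [← Finset.sum_coe_sort J]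
      refine Finset.sum_congr rfl fun q _ => ?_
      rw [dif_pos q.2]
    rw [← h3, h1]
    rfl
  · by_contra hcon
    push_neg at hcon
    apply hc0
    funext q
    have h1 := hcon q.1 q.2
    rw [dif_pos q.2] at h1
    exact h1

theorem AQg_sum (d n : ℕ) (t : ℂ) (hd : 2 ≤ d) (hQa : AQaS) (J : Finset (ℂ × ℕ))
    (c : ℂ → ℕ → ℂ) (g : ℂ × ℕ → ℂ → ℂ) (y : ℂ) :
    (pw d t)^[n] (fun z => ∑ q ∈ J, c q.1 q.2 * g q z) y =
      ∑ q ∈ J, c q.1 q.2 * (pw d t)^[n] (g q) y := by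
  obtain ⟨X, a, -, h⟩ := hQa d n t y hd
  rw [h]
  simp only [h]
  simp only [Finset.mul_sum]
  rw [Finset.sum_comm]
  refine Finset.sum_congr rfl fun q _ => Finset.sum_congr rfl fun x _ => ?_
  ring

theorem AQg_holds (hAQa : AQaS) (hAQc : AQcS) (hAQf : AQfS) : AQgS := by
  classical
  intro d n t hd hn
  set W : ℂ[X] := J1q d t n - X with hWdef
  have hWm : W.Monic := J1q_sub_monic d hd t n hn
  have hWd : W.natDegree = d ^ n := J1q_sub_natDegree d hd t n hn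
  have hWe : ∀ z, W.eval z = (T d t)^[n] z - z := by
    intro z
    rw [hWdef, eval_sub, eval_X, J1q_eval]
  have hset : {z : ℂ | (T d t)^[n] z = z} = (W.roots.toFinset : Set ℂ) := by
    ext z
    rw [Set.mem_setOf_eq, Finset.mem_coe, Multiset.mem_toFinset, mem_roots hWm.ne_zero, IsRoot.def,
      hWe, sub_eq_zero]
  rw [hset, Set.ncard_coe_finset]
  have hcard : ∑ p ∈ W.roots.toFinset, W.rootMultiplicity p = d ^ n := by
    have h1 : W.roots.card = d ^ n := by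
      rw [← hWd]
      exact (IsAlgClosed.splits W).natDegree_eq_card_roots.symm
    rw [← h1, ← Multiset.toFinset_sum_count_eq]
    refine Finset.sum_congr rfl fun p _ => ?_
    rw [count_roots]
  set m : ℂ → ℕ := fun p => W.rootMultiplicity p with hm
  set P : Finset ℂ := W.roots.toFinset.filter (fun p => 2 ≤ m p) with hP
  set J : Finset (ℂ × ℕ) := P.sigma (fun p => Finset.Ico 1 (m p)) |>.image (fun q => (q.1, q.2))
    with hJdef
  have hsumJ : ∀ φ : ℂ → ℕ → ℂ, ∑ p ∈ P, ∑ j ∈ Finset.Ico 1 (m p), φ p j =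
      ∑ q ∈ J, φ q.1 q.2 := by
    intro φ
    rw [hJdef, Finset.sum_image, Finset.sum_sigma]
    rintro ⟨a, b⟩ _ ⟨a', b'⟩ _ hab
    simp only [Prod.mk.injEq] at hab
    obtain ⟨rfl, rfl⟩ := hab
    rfl
  have hmemJ : ∀ q ∈ J, q.1 ∈ P ∧ q.2 ∈ Finset.Ico 1 (m q.1) := by
    intro q hq
    rw [hJdef, Finset.mem_image] at hq
    obtain ⟨⟨a, b⟩, h, rfl⟩ := hq
    rw [Finset.mem_sigma] at h
    exact h
  have hcardJ : J.card = ∑ p ∈ W.roots.toFinset, (m p - 1) := by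
    rw [hJdef, Finset.card_image_of_injOn, Finset.card_sigma, hP, Finset.sum_filter]
    · refine Finset.sum_congr rfl fun p hp => ?_
      rw [Nat.card_Ico]
      by_cases h : 2 ≤ m p
      · rw [if_pos h]
      · rw [if_neg h]
        omega
    · rintro ⟨a, b⟩ _ ⟨a', b'⟩ _ hab
      simp only [Prod.mk.injEq] at hab
      obtain ⟨rfl, rfl⟩ := hab
      rfl
  have hpos : ∀ p ∈ W.roots.toFinset, 1 ≤ m p := by
    intro p hp
    rw [Multiset.mem_toFinset, mem_roots hWm.ne_zero] at hp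
    exact (rootMultiplicity_pos hWm.ne_zero).mpr hp
  have htot : J.card + W.roots.toFinset.card = d ^ n := by
    rw [hcardJ, ← hcard, Finset.card_eq_sum_ones, ← Finset.sum_add_distrib]
    refine Finset.sum_congr rfl fun p hp => ?_
    have := hpos p hp
    simp only [hm] at this ⊢
    omega
  by_contra hlt
  have hJn : n < J.card := by omega
  have hH : ∀ p ∈ P, 2 ≤ m p ∧ ∃ H : ℂ[X], ∀ z, (T d t)^[n] z - z = (z - p) ^ (m p) * H.eval z := by
    intro p hp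
    rw [hP, Finset.mem_filter] at hp
    refine ⟨hp.2, ?_⟩
    obtain ⟨H, hH⟩ := pow_rootMultiplicity_dvd W p
    refine ⟨H, fun z => ?_⟩
    rw [← hWe]
    conv_lhs => rw [hH]
    rw [eval_mul, eval_pow, eval_sub, eval_X, eval_C]
  have hk : ∀ q : ℂ × ℕ, ∃ k : ℕ → ℂ, q ∈ J → ∀ y : ℂ, (∀ i < n, y ≠ (T d t)^[i] t) → y ≠ q.1 →
      (pw d t)^[n] (fun z => ((z - q.1) ^ q.2)⁻¹) y =
        ((y - q.1) ^ q.2)⁻¹ - ∑ i ∈ Finset.range n, k i * (y - (T d t)^[i] t)⁻¹ := by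
    intro q
    by_cases hq : q ∈ J
    · obtain ⟨h1, h2⟩ := hmemJ q hq
      rw [Finset.mem_Ico] at h2
      obtain ⟨k, hk⟩ := hAQc d n (m q.1) q.2 t q.1 hd hn h2.1 (by omega) (hH q.1 h1).2
      exact ⟨k, fun _ => hk⟩
    · exact ⟨fun _ => 0, fun h => absurd h hq⟩
  choose k hk using hk
  obtain ⟨c, hc, q0, hq0, hcq0⟩ := AQg_ker J n hJn k
  have hz : ∀ p ∈ P, ∀ j ∈ Finset.Ico 1 (m p), c p j = 0 := by
    refine hAQf d n t P m c (P ∪ (Finset.range n).image (fun i => (T d t)^[i] t)) hd hn hH ?_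
    intro y hy
    rw [Finset.mem_union, not_or] at hy
    obtain ⟨hy1, hy2⟩ := hy
    have hy3 : ∀ i < n, y ≠ (T d t)^[i] t := by
      intro i hi h
      exact hy2 (Finset.mem_image.mpr ⟨i, Finset.mem_range.mpr hi, h.symm⟩)
    have e1 : (fun z => ∑ p ∈ P, ∑ j ∈ Finset.Ico 1 (m p), c p j * ((z - p) ^ j)⁻¹) =
        fun z => ∑ q ∈ J, c q.1 q.2 * ((z - q.1) ^ q.2)⁻¹ := by
      funext z
      exact hsumJ (fun p j => c p j * ((z - p) ^ j)⁻¹)
    rw [e1, AQg_sum d n t hd hAQa J c (fun q z => ((z - q.1) ^ q.2)⁻¹) y,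
      hsumJ (fun p j => c p j * ((y - p) ^ j)⁻¹)]
    have e2 : ∀ q ∈ J, c q.1 q.2 * (pw d t)^[n] (fun z => ((z - q.1) ^ q.2)⁻¹) y =
        c q.1 q.2 * ((y - q.1) ^ q.2)⁻¹ -
          ∑ i ∈ Finset.range n, c q.1 q.2 * k q i * (y - (T d t)^[i] t)⁻¹ := by
      intro q hq
      rw [hk q hq y hy3 (fun h => hy1 (h ▸ (hmemJ q hq).1)), mul_sub, Finset.mul_sum]
      congr 1
      refine Finset.sum_congr rfl fun i _ => ?_
      ring
    rw [Finset.sum_congr rfl e2, Finset.sum_sub_distrib, Finset.sum_comm]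
    have e3 : ∑ i ∈ Finset.range n, ∑ q ∈ J, c q.1 q.2 * k q i * (y - (T d t)^[i] t)⁻¹ = 0 := by
      refine Finset.sum_eq_zero fun i hi => ?_
      rw [← Finset.sum_mul, hc i (Finset.mem_range.mp hi), zero_mul]
    rw [e3, sub_zero]
  exact hcq0 (hz q0.1 (hmemJ q0 hq0).1 q0.2 (hmemJ q0 hq0).2)

end Pool.Agent.LSF
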