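import Pool.Agent.LSF.ADefs
import Pool.Agent.LenSpec.J1

/-!
AQn (the number of periodic points, any field).
-/

namespace Pool.Agent.LSF

open Polynomial Pool.Agent.LenSpec

theorem aqn_map {F : Type} [Field F] (φ : F →+* ℂ) (d : ℕ) (t : F) (n : ℕ) (z : F) :
    φ ((T d t)^[n] z) = (T d (φ t))^[n] (φ z) := by
  induction n generalizing z with
  | zero => rfl
  | succ n ih =>
    rw [Function.iterate_succ_apply, Function.iterate_succ_apply, ih]
    congr 1
    rw [T, T, map_add, map_pow]

theorem AQn_holds (hAQg : AQgS) : AQnS := by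
  intro F _ _ _ φ d n t hd hn
  have hmon : (J1q d t n - X).Monic := J1q_sub_monic d hd t n hn
  have hset : ∀ (E : Type) [Field E] (s : E), {z : E | (T d s)^[n] z = z} =
      {z | z ∈ (J1q d s n - X).roots} := by
    intro E _ s
    ext z
    simp only [Set.mem_setOf_eq]
    rw [mem_roots (J1q_sub_monic d hd s n hn).ne_zero, IsRoot.def, eval_sub, J1q_eval, eval_X,
      sub_eq_zero]
  have hfin : {z : F | (T d t)^[n] z = z}.Finite := by
    rw [hset]
    exact Multiset.finite_toSet _
  refine ⟨hfin, ?_⟩
  have h1 : {z : ℂ | (T d (φ t))^[n] z = z} = φ '' {z : F | (T d t)^[n] z = z} := by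
    rw [hset, hset]
    ext z
    simp only [Set.mem_setOf_eq, Set.mem_image]
    have h2 : J1q d (φ t) n - X = (J1q d t n - X).map φ := by
      rw [Polynomial.map_sub, J1q_map, map_X]
    rw [h2, (IsAlgClosed.splits (J1q d t n - X)).roots_map φ, Multiset.mem_map]
  have h3 := hAQg d n (φ t) hd hn
  rw [h1, Set.ncard_image_of_injective _ φ.injective] at h3
  exact h3

end Pool.Agent.LSF
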