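import Pool.Agent.LSF.ADefs
import Pool.Agent.LenSpec.PlBasic

/-!
AStb (the stabilizer of a point of a small set).

STATEMENT: Γ acts on α as the full symmetric group, r = card α ≥ 10, and on β, card β ≤ r; u ∈ β. Then the stabilizer of u induces all
even permutations of α, or there is an equivariant bijection α ≃ β.
PROOF. φ : Γ → Perm α (MulAction.toPermHom Γ α) is surjective. Let S = stabilizer of u, H = S.map φ. [Perm α : H] ≤ [Γ : S] =
card of the orbit of u ≤ card β ≤ r (Subgroup.index_map_dvd / Subgroup.index_map: index of the image under a surjective map divides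
the index; [Γ : S] is finite and nonzero because the orbit is finite; MulAction.index_stabilizer). Apply AIdx to H.
(a) alternatingGroup ≤ H: first alternative (sign π = 1 ⇒ π ∈ alternatingGroup ⇒ π = φ g with g ∈ S).
(b) H = {π : π x1 = x1}: then r = [Perm α : H] ≤ [Γ : S] = |orbit of u| ≤ card β ≤ r, so the orbit of u is all of β and card β = r.
For g ∈ S: φ g ∈ H, so g x1 = x1. Define c : β → α, c(g u) = g x1: well defined (g u = g' u ⇒ g⁻¹ g' ∈ S ⇒ g x1 = g' x1), equivariant,
surjective (Γ is transitive on α). card β = card α, so c is bijective; b = c⁻¹ is equivariant.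
-/

namespace Pool.Agent.LSF

open Polynomial Pool.Agent.LenSpec

theorem AStb_holds (hAIdx : AIdxS) : AStbS := by
  intro Γ α β _ _ _ _ _ _ hcard h10 hfull u
  classical
  have hsurj : Function.Surjective (MulAction.toPermHom Γ α) := by
    intro π
    obtain ⟨g, hg⟩ := hfull π
    exact ⟨g, Equiv.ext fun x => hg x⟩
  have hidx : (MulAction.stabilizer Γ u).index = (MulAction.orbit Γ u).ncard :=
    MulAction.index_stabilizer Γ u
  have horb : (MulAction.orbit Γ u).ncard ≤ Fintype.card β := by
    have := Set.ncard_le_ncard (Set.subset_univ (MulAction.orbit Γ u)) (Set.toFinite _)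
    rwa [Set.ncard_univ, Nat.card_eq_fintype_card] at this
  have horb0 : 0 < (MulAction.orbit Γ u).ncard := by
    rw [Set.ncard_pos (Set.toFinite _)]
    exact ⟨u, MulAction.mem_orbit_self u⟩
  have hdvd : ((MulAction.stabilizer Γ u).map (MulAction.toPermHom Γ α)).index ∣
      (MulAction.stabilizer Γ u).index := Subgroup.index_map_dvd _ hsurj
  have hle := Nat.le_of_dvd (by omega) hdvd
  rcases hAIdx α ((MulAction.stabilizer Γ u).map (MulAction.toPermHom Γ α)) h10 (by omega) with
    h | ⟨x1, h⟩
  · left
    intro π hπ
    have hm : π ∈ (MulAction.stabilizer Γ u).map (MulAction.toPermHom Γ α) :=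
      h (Equiv.Perm.mem_alternatingGroup.2 hπ)
    obtain ⟨g, hg, hgπ⟩ := Subgroup.mem_map.1 hm
    exact ⟨g, MulAction.mem_stabilizer_iff.1 hg, fun x => by rw [← hgπ]; rfl⟩
  · right
    have hH : (MulAction.stabilizer Γ u).map (MulAction.toPermHom Γ α) =
        MulAction.stabilizer (Equiv.Perm α) x1 := by
      ext π
      rw [h, MulAction.mem_stabilizer_iff]
      rfl
    have hα : Fintype.card α =
        ((MulAction.stabilizer Γ u).map (MulAction.toPermHom Γ α)).index := by
      rw [hH, MulAction.index_stabilizer]
      have : MulAction.orbit (Equiv.Perm α) x1 = Set.univ := by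
        ext y
        simp only [Set.mem_univ, iff_true]
        exact ⟨Equiv.swap x1 y, by simp⟩
      rw [this, Set.ncard_univ, Nat.card_eq_fintype_card]
    have hcb : Fintype.card β = Fintype.card α := by omega
    have hor : ∀ y : β, ∃ g : Γ, g • u = y := by
      have : MulAction.orbit Γ u = Set.univ := by
        apply Set.eq_of_subset_of_ncard_le (Set.subset_univ _) _ (Set.toFinite _)
        rw [Set.ncard_univ, Nat.card_eq_fintype_card]
        omega
      intro y
      have hy : y ∈ MulAction.orbit Γ u := by rw [this]; trivial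
      obtain ⟨g, hg⟩ := hy
      exact ⟨g, hg⟩
    choose γ hγ using hor
    have hwd : ∀ g g' : Γ, g • u = g' • u → g • x1 = g' • x1 := by
      intro g g' hgg
      have h1 : g⁻¹ * g' ∈ MulAction.stabilizer Γ u := by
        rw [MulAction.mem_stabilizer_iff, mul_smul, ← hgg, inv_smul_smul]
      have h2 : MulAction.toPermHom Γ α (g⁻¹ * g') ∈
          (MulAction.stabilizer Γ u).map (MulAction.toPermHom Γ α) :=
        Subgroup.mem_map_of_mem _ h1
      have h3 : (g⁻¹ * g') • x1 = x1 := (h _).1 h2
      rw [mul_smul, inv_smul_eq_iff] at h3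
      exact h3.symm
    let c : β → α := fun y => γ y • x1
    have hc : ∀ (g : Γ) (y : β), c (g • y) = g • c y := by
      intro g y
      change γ (g • y) • x1 = g • γ y • x1
      rw [← mul_smul]
      apply hwd
      rw [hγ, mul_smul, hγ]
    have hcs : Function.Surjective c := by
      intro x
      obtain ⟨g, hg⟩ := hfull (Equiv.swap x1 x)
      refine ⟨g • u, ?_⟩
      have : γ (g • u) • x1 = g • x1 := hwd _ _ (hγ _)
      change γ (g • u) • x1 = x
      rw [this, hg]
      simp
    have hcbij : Function.Bijective c :=
      (Fintype.bijective_iff_surjective_and_card c).2 ⟨hcs, hcb⟩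
    refine ⟨(Equiv.ofBijective c hcbij).symm, ?_⟩
    intro g x
    rw [Equiv.symm_apply_eq]
    have h1 : c ((Equiv.ofBijective c hcbij).symm x) = x :=
      (Equiv.ofBijective c hcbij).apply_symm_apply x
    change g • x = c (g • (Equiv.ofBijective c hcbij).symm x)
    rw [hc, h1]

end Pool.Agent.LSF
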