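import Pool.Agent.LSF.ADefs
import Pool.Agent.LenSpec.PlBasic

/-!
ATri (a subgroup of index at most r contains a transposition or a 3-cycle).

STATEMENT: H subgroup of Perm α, r = card α ≥ 10, [Perm α : H] ≤ r. Then H contains a swap or a 3-cycle.
PROOF. Suppose not. (a) If two different transpositions (a c), (a c') (c ≠ c') are in the same left coset C = g H, then
(a c)⁻¹ (a c') = (a c) (a c') is in H and it is a 3-cycle (Equiv.Perm.isThreeCycle_swap_mul_swap_same): contradiction. So two different
transpositions of one coset are disjoint (they share no point).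
(b) Fix a. c ↦ (a c) H is injective from the r - 1 points c ≠ a to the cosets different from H (H contains no transposition), and there
are at most r - 1 such cosets. So it is a bijection (Finset.surj_on_of_inj_on_of_card_le or Fintype / Function.Injective.bijective_of_nat_card_le):
for EVERY coset C ≠ H and EVERY point a there is exactly one c ≠ a with (a c) ∈ C; call it the partner of a in C. Partner is
symmetric: (a c) = (c a).
(c) Choose a ≠ c, C = (a c) H, b not in {a, c}, e the partner of b in C. By (a), e is not in {a, c} and e ≠ b; (a c)⁻¹ (b e) ∈ H, so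
h := (a c) (b e) ∈ H (product of two disjoint transpositions).
(d) Choose c' not in {a, c, b, e}; C' := (a c') H (≠ H). Let c1, b1, e1 be the partners in C' of c, b, e (the partner of a is c').
r ≥ 10, so there is x not in {a, c, b, e, c', c1, b1, e1}; let y be the partner of x in C'. Then y is not in {a, c, b, e} (otherwise x
would be the partner of a, c, b or e), and y ≠ c' (otherwise x = a). Put u1 = (a c'), u3 = (x y), both in C', so u1 u3 = u1⁻¹ u3 ∈ H.
h commutes with u3 (disjoint). h (u1 u3) h⁻¹ ∈ H equals (h u1 h⁻¹) u3 and h u1 h⁻¹ = (h a, h c') = (c c').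
So (c c') u3 (u1 u3)⁻¹ = (c c') u3 u3 u1 = (c c') (a c') ∈ H, and this is a 3-cycle (a ≠ c): contradiction.
HINT: it is convenient to describe cosets by the relation π⁻¹ ρ ∈ H and the quotient Perm α ⧸ H; Subgroup.index = Nat.card of it.
-/

namespace Pool.Agent.LSF

open Polynomial Pool.Agent.LenSpec

theorem ATri_out {α : Type} [Fintype α] [DecidableEq α] (l : List α)
    (h : l.length < Fintype.card α) : ∃ x, x ∉ l := by
  by_contra hc
  push Not at hc
  have h1 : (Finset.univ : Finset α) ⊆ l.toFinset := by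
    intro x _
    exact List.mem_toFinset.2 (hc x)
  have h2 := Finset.card_le_card h1
  have h3 := List.toFinset_card_le l
  rw [Finset.card_univ] at h2
  omega

theorem ATri_holds : ATriS := by
  intro α _ _ H hr hidx
  by_contra hno
  push Not at hno
  have hswap : ∀ a b : α, a ≠ b → Equiv.swap a b ∉ H := by
    intro a b hab h
    exact (hno _ h).1 ⟨a, b, hab, rfl⟩
  -- the map to the cosets is bijective
  have hinj : ∀ a : α, Function.Injective
      (fun c => (QuotientGroup.mk (Equiv.swap a c) : Equiv.Perm α ⧸ H)) := by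
    intro a c c' hcc
    simp only at hcc
    rw [QuotientGroup.eq, Equiv.swap_inv] at hcc
    by_contra hne
    by_cases h1 : c = a
    · rw [h1, Equiv.swap_self] at hcc
      have h2 : (Equiv.refl α * Equiv.swap a c' : Equiv.Perm α) = Equiv.swap a c' := rfl
      rw [h2] at hcc
      exact hswap a c' (by rintro rfl; exact hne h1) hcc
    · by_cases h2 : c' = a
      · rw [h2, Equiv.swap_self] at hcc
        have h3 : (Equiv.swap a c * Equiv.refl α : Equiv.Perm α) = Equiv.swap a c := rfl
        rw [h3] at hcc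
        exact hswap a c (fun h => h1 h.symm) hcc
      · exact (hno _ hcc).2 (Equiv.Perm.isThreeCycle_swap_mul_swap_same (fun h => h1 h.symm)
          (fun h => h2 h.symm) hne)
  have hsurj : ∀ (a : α) (C : Equiv.Perm α ⧸ H), ∃ c,
      (QuotientGroup.mk (Equiv.swap a c) : Equiv.Perm α ⧸ H) = C := by
    intro a
    have hb := (hinj a).bijective_of_nat_card_le (by
      rw [Nat.card_eq_fintype_card (α := α)]
      exact hidx)
    exact hb.2
  have hone : ∀ {a b : α}, a ≠ b → ∀ {x y : α},
      (QuotientGroup.mk (Equiv.swap x y) : Equiv.Perm α ⧸ H) =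
        QuotientGroup.mk (Equiv.swap a b) → y ≠ x := by
    intro a b hab x y h hxy
    rw [hxy] at h
    have h2 : (QuotientGroup.mk (Equiv.swap a a) : Equiv.Perm α ⧸ H) =
        QuotientGroup.mk (Equiv.swap x x) := by
      rw [Equiv.swap_self, Equiv.swap_self]
    exact hab (hinj a (h2.trans h))
  -- the choices
  obtain ⟨a, _⟩ := ATri_out ([] : List α) (by simp; omega)
  obtain ⟨c, hc⟩ := ATri_out [a] (by simp; omega)
  obtain ⟨b, hb⟩ := ATri_out [a, c] (by simp; omega)
  simp only [List.mem_cons, List.not_mem_nil, or_false, not_or] at hc hb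
  obtain ⟨hba, hbc⟩ := hb
  obtain ⟨e, he⟩ := hsurj b (QuotientGroup.mk (Equiv.swap a c))
  have heb : e ≠ b := hone (fun h => hc h.symm) he
  have hea : e ≠ a := by
    rintro rfl
    rw [Equiv.swap_comm] at he
    exact hbc (hinj _ he)
  have hec : e ≠ c := by
    rintro rfl
    rw [Equiv.swap_comm, Equiv.swap_comm a] at he
    exact hba (hinj _ he)
  have hH : Equiv.swap a c * Equiv.swap b e ∈ H := by
    have h1 := he.symm
    rw [QuotientGroup.eq, Equiv.swap_inv] at h1
    exact h1
  obtain ⟨c', hc'⟩ := ATri_out [a, c, b, e] (by simp; omega)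
  simp only [List.mem_cons, List.not_mem_nil, or_false, not_or] at hc'
  obtain ⟨h'a, h'c, h'b, h'e⟩ := hc'
  obtain ⟨c1, hc1⟩ := hsurj c (QuotientGroup.mk (Equiv.swap a c'))
  obtain ⟨b1, hb1⟩ := hsurj b (QuotientGroup.mk (Equiv.swap a c'))
  obtain ⟨e1, he1⟩ := hsurj e (QuotientGroup.mk (Equiv.swap a c'))
  obtain ⟨x, hx⟩ := ATri_out [a, c, b, e, c', c1, b1, e1] (by simp; omega)
  simp only [List.mem_cons, List.not_mem_nil, or_false, not_or] at hx
  obtain ⟨hxa, hxc, hxb, hxe, hxc', hxc1, hxb1, hxe1⟩ := hx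
  obtain ⟨y, hy⟩ := hsurj x (QuotientGroup.mk (Equiv.swap a c'))
  have hyx : y ≠ x := hone (fun h => h'a h.symm) hy
  have hya : y ≠ a := by
    rintro rfl
    rw [Equiv.swap_comm] at hy
    exact hxc' (hinj _ hy)
  have hyc : y ≠ c := by
    rintro rfl
    rw [Equiv.swap_comm] at hy
    exact hxc1 (hinj _ (hy.trans hc1.symm))
  have hyb : y ≠ b := by
    rintro rfl
    rw [Equiv.swap_comm] at hy
    exact hxb1 (hinj _ (hy.trans hb1.symm))
  have hye : y ≠ e := by
    rintro rfl
    rw [Equiv.swap_comm] at hy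
    exact hxe1 (hinj _ (hy.trans he1.symm))
  have hyc' : y ≠ c' := by
    rintro rfl
    rw [Equiv.swap_comm, Equiv.swap_comm a] at hy
    exact hxa (hinj _ hy)
  have hU : Equiv.swap a c' * Equiv.swap x y ∈ H := by
    have h1 := hy.symm
    rw [QuotientGroup.eq, Equiv.swap_inv] at h1
    exact h1
  have h1 : (Equiv.swap a c * Equiv.swap b e) * (Equiv.swap a c' * Equiv.swap x y) *
      (Equiv.swap a c * Equiv.swap b e)⁻¹ ∈ H := H.mul_mem (H.mul_mem hH hU) (H.inv_mem hH)
  have e1 : (Equiv.swap a c * Equiv.swap b e) * (Equiv.swap a c' * Equiv.swap x y) *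
      (Equiv.swap a c * Equiv.swap b e)⁻¹ =
      (Equiv.swap a c * Equiv.swap b e) * Equiv.swap a c' * (Equiv.swap a c * Equiv.swap b e)⁻¹ *
      ((Equiv.swap a c * Equiv.swap b e) * Equiv.swap x y *
        (Equiv.swap a c * Equiv.swap b e)⁻¹) := by group
  have f1 : (Equiv.swap a c * Equiv.swap b e) a = c := by
    rw [Equiv.Perm.mul_apply, Equiv.swap_apply_of_ne_of_ne (fun h => hba h.symm)
      (fun h => hea h.symm), Equiv.swap_apply_left]
  have f2 : ∀ z, z ≠ a → z ≠ c → z ≠ b → z ≠ e →
      (Equiv.swap a c * Equiv.swap b e) z = z := by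
    intro z h1 h2 h3 h4
    rw [Equiv.Perm.mul_apply, Equiv.swap_apply_of_ne_of_ne h3 h4,
      Equiv.swap_apply_of_ne_of_ne h1 h2]
  rw [e1, ← Equiv.swap_apply_apply, ← Equiv.swap_apply_apply, f1, f2 c' h'a h'c h'b h'e,
    f2 x hxa hxc hxb hxe, f2 y hya hyc hyb hye] at h1
  have h2 := H.mul_mem h1 (H.inv_mem hU)
  have e2 : Equiv.swap c c' * Equiv.swap x y * (Equiv.swap a c' * Equiv.swap x y)⁻¹ =
      Equiv.swap c' c * Equiv.swap c' a := by
    rw [mul_inv_rev, Equiv.swap_inv a c', Equiv.swap_comm c c', Equiv.swap_comm a c']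
    group
  rw [e2] at h2
  exact (hno _ h2).2 (Equiv.Perm.isThreeCycle_swap_mul_swap_same h'c h'a hc)

end Pool.Agent.LSF
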