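import Pool.Agent.LSF.ADefs
import Pool.Agent.LenSpec.L7

/-!
ATs (all transpositions of multipliers of z^d + t).
-/

namespace Pool.Agent.LSF

open Polynomial Pool.Agent.LenSpec

theorem ATs_Tm {Ω : Type} [Field Ω] (d n : ℕ) (t z : Ω) (hz : (T d t)^[n] z = z) :
    Tm d t n (T d t z) = Tm d t n z := by
  unfold Tm
  rcases n with _ | m
  · simp
  · rw [Finset.prod_range_succ, Finset.prod_range_succ' (fun k => (d : Ω) * ((T d t)^[k] z) ^ (d - 1))]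
    congr 1
    rw [← Function.iterate_succ_apply, hz]
    rfl

theorem ATs_Tm_iter {Ω : Type} [Field Ω] (d n : ℕ) (t z : Ω) (hz : (T d t)^[n] z = z) (k : ℕ) :
    Tm d t n ((T d t)^[k] z) = Tm d t n z := by
  induction k with
  | zero => rfl
  | succ k ih =>
    rw [Function.iterate_succ_apply', ATs_Tm d n t _ (J1_iter_per hz k), ih]

theorem ATs_tau {F Ω : Type} [Field F] [Field Ω] [Algebra F Ω] (t : Ω) (d n : ℕ)
    (τ : Ω ≃ₐ[F] Ω) (hτ : τ t = t) (z : Ω) : τ (Tm d t n z) = Tm d t n (τ z) := by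
  unfold Tm
  rw [map_prod]
  apply Finset.prod_congr rfl
  intro k _
  rw [map_mul, map_pow, L7_tau t d τ hτ, map_natCast]

theorem ATs_holds (hAEdge : AEdgeS) (hM1 : M1S) (hJ0 : J0S) (hJ1 : J1S) : ATsS := by
  classical
  intro F Ω _ _ _ φ _ _ _ t d ht halg hd S
  obtain ⟨Γ, _, v, hv1, hvt⟩ := hJ0 F Ω t ht
  obtain ⟨D⟩ := J1_data (F := F) v t d hv1 hvt hd
  obtain ⟨n₀, hn₀⟩ := hAEdge F Ω φ t d ht halg hd S
  refine ⟨n₀, ?_⟩
  intro n hn hnn
  have hn1 : 1 ≤ n := hn.one_lt.le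
  obtain ⟨P, _, hP, _⟩ := D.card_roots (n := n) hn1
  let Lk : Ω → Ω → Prop := fun a b => ∃ (τ : Ω ≃ₐ[F] Ω), τ t = t ∧ (∀ s ∈ S, τ s = s) ∧
      τ a = b ∧ τ b = a ∧ ∀ x ∈ XT d t n, x ≠ a → x ≠ b → τ x = x
  have hrefl : ∀ a, Lk a a := fun a => ⟨AlgEquiv.refl, rfl, fun _ _ => rfl, rfl, rfl,
    fun _ _ _ _ => rfl⟩
  have hsymm : ∀ a b, Lk a b → Lk b a := by
    rintro a b ⟨τ, h1, h2, h3, h4, h5⟩
    exact ⟨τ, h1, h2, h4, h3, fun x hx hxb hxa => h5 x hx hxa hxb⟩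
  have htrans : ∀ a b c, a ∈ XT d t n → b ∈ XT d t n → c ∈ XT d t n → Lk a b → Lk b c →
      Lk a c := by
    intro a b c ha hb hc hab hbc
    by_cases e1 : a = b
    · rw [e1]; exact hbc
    by_cases e2 : b = c
    · rw [← e2]; exact hab
    by_cases e3 : a = c
    · rw [e3]; exact hrefl c
    obtain ⟨τ, h1, h2, h3, h4, h5⟩ := hab
    obtain ⟨ρ, g1, g2, g3, g4, g5⟩ := hbc
    have hcf : τ c = c := h5 c hc (fun h => e3 h.symm) (fun h => e2 h.symm)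
    have haf : ρ a = a := g5 a ha e1 e3
    refine ⟨(τ.trans ρ).trans τ, ?_, ?_, ?_, ?_, ?_⟩
    · change τ (ρ (τ t)) = t
      rw [h1, g1, h1]
    · intro s hs
      change τ (ρ (τ s)) = s
      rw [h2 s hs, g2 s hs, h2 s hs]
    · change τ (ρ (τ a)) = c
      rw [h3, g3, hcf]
    · change τ (ρ (τ c)) = a
      rw [hcf, g4, h4]
    · intro x hx hxa hxc
      change τ (ρ (τ x)) = x
      by_cases hxb : x = b
      · rw [hxb, h4, haf, h3]
      · rw [h5 x hx hxa hxb, g5 x hx hxb hxc, h5 x hx hxa hxb]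
  intro a ha b hb
  by_contra hnot
  have hnot' : ¬ Lk a b := hnot
  have hX : ∀ z, (T d t)^[n] z = z → T d t z ≠ z → Tm d t n z ∈ XT d t n :=
    fun z h1 h2 => ⟨z, h1, h2, rfl⟩
  have hTne : ∀ z, (T d t)^[n] z = z → T d t z ≠ z → T d t (T d t z) ≠ T d t z := by
    intro z h1 h2 h3
    apply h2
    have h4 : (T d t)^[n] (T d t z) = T d t z := Function.iterate_fixed h3 n
    obtain ⟨m, rfl⟩ : ∃ m, n = m + 1 := ⟨n - 1, by omega⟩
    have h5 : (T d t)^[m] (T d t z) = T d t z := Function.iterate_fixed h3 m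
    rw [Function.iterate_succ_apply] at h1
    rw [h5] at h1
    exact h1
  have hmA : ∀ z, z ∈ P.filter (fun z => T d t z ≠ z ∧ Lk (Tm d t n z) a) ↔
      ((T d t)^[n] z = z ∧ T d t z ≠ z ∧ Lk (Tm d t n z) a) := by
    intro z
    rw [Finset.mem_filter, hP]
  have hmB : ∀ z, z ∈ P.filter (fun z => T d t z ≠ z ∧ ¬ Lk (Tm d t n z) a) ↔
      ((T d t)^[n] z = z ∧ T d t z ≠ z ∧ ¬ Lk (Tm d t n z) a) := by
    intro z
    rw [Finset.mem_filter, hP]
  obtain ⟨τ, hτt, hτS, x, hx, y, hy, hxy, hyx, hτ⟩ := hn₀ n hn hnn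
    (P.filter (fun z => T d t z ≠ z ∧ Lk (Tm d t n z) a))
    (P.filter (fun z => T d t z ≠ z ∧ ¬ Lk (Tm d t n z) a)) (by
      rw [Finset.disjoint_left]
      intro z h1 h2
      exact ((hmB z).1 h2).2.2 ((hmA z).1 h1).2.2) (by
      intro z
      rw [hmA, hmB]
      constructor
      · rintro (h | h)
        · exact ⟨h.1, h.2.1⟩
        · exact ⟨h.1, h.2.1⟩
      · intro h
        by_cases hl : Lk (Tm d t n z) a
        · exact Or.inl ⟨h.1, h.2, hl⟩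
        · exact Or.inr ⟨h.1, h.2, hl⟩) (by
      intro z hz
      rw [hmA] at hz ⊢
      refine ⟨J1_iter_per hz.1 1, hTne z hz.1 hz.2.1, ?_⟩
      rw [ATs_Tm d n t z hz.1]
      exact hz.2.2) (by
      intro z hz
      rw [hmB] at hz ⊢
      refine ⟨J1_iter_per hz.1 1, hTne z hz.1 hz.2.1, ?_⟩
      rw [ATs_Tm d n t z hz.1]
      exact hz.2.2) (by
      obtain ⟨z, h1, h2, h3⟩ := ha
      refine ⟨z, (hmA z).2 ⟨h1, h2, ?_⟩⟩
      rw [h3]
      exact hrefl a) (by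
      obtain ⟨z, h1, h2, h3⟩ := hb
      refine ⟨z, (hmB z).2 ⟨h1, h2, ?_⟩⟩
      rw [h3]
      exact fun h => hnot' (hsymm _ _ h))
  rw [hmA] at hx
  rw [hmB] at hy
  have hlk : Lk (Tm d t n x) (Tm d t n y) := by
    refine ⟨τ, hτt, hτS, ?_, ?_, ?_⟩
    · rw [ATs_tau t d n τ hτt, hxy]
    · rw [ATs_tau t d n τ hτt, hyx]
    · rintro _ ⟨z, h1, h2, rfl⟩ h3 h4
      rw [ATs_tau t d n τ hτt, hτ z h1]
      · intro k hk
        apply h3
        rw [hk, ATs_Tm_iter d n t x hx.1]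
      · intro k hk
        apply h4
        rw [hk, ATs_Tm_iter d n t y hy.1]
  exact hy.2.2 (htrans _ _ _ (hX y hy.1 hy.2.1) (hX x hx.1 hx.2.1) ha (hsymm _ _ hlk) hx.2.2)

end Pool.Agent.LSF
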