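import Pool.Agent.LSF.ADefs
import Pool.Agent.LenSpec.PlBasic
import Pool.Agent.LenSpec.L3

/-!
AUnr (at almost all t₀ inertia acts trivially on S).

PROOF. Every s ∈ S is algebraic over F(t): there is D ∈ F[t] (an element of Algebra.adjoin F {t}), D ≠ 0, with D s integral over F[t], and by taking the product one D for all
s ∈ S (exists_integral_multiple, or see L3.lean `field`; F(t) is the fraction field of F[t]). For s ≠ s' in S let e = D s' - D s ≠ 0, integral; Bad := the union of the sets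
given by ANz for these e. Let p, t₀ ∉ Bad, τ be as in the statement and s ∈ S; s' := τ s ∈ S. Suppose s' ≠ s. a := D s is in adjoin F (insert t S) and integral,
τ a = D s' (τ D = D because D is a polynomial in t), p.Red (D s' - D s) 0, so t₀ ∈ Bad by ANz: contradiction.
-/

namespace Pool.Agent.LSF

open Polynomial Pool.Agent.LenSpec

open IntermediateField.algebraAdjoinAdjoin in
theorem AUnr_mult {F Ω : Type} [Field F] [Field Ω] [Algebra F Ω] {t : Ω} (halg : AlgT F t)
    (S : Finset Ω) : ∃ D : Algebra.adjoin F ({t} : Set Ω), D ≠ 0 ∧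
      ∀ s ∈ S, IntT F t ((D : Ω) * s) := by
  classical
  set A := Algebra.adjoin F ({t} : Set Ω) with hA
  set k := IntermediateField.adjoin F ({t} : Set Ω) with hk
  have h1 : ∀ s : Ω, ∃ c : A, c ≠ 0 ∧ IntT F t ((c : Ω) * s) := by
    intro s
    have hs : IsAlgebraic A s := (IsFractionRing.isAlgebraic_iff A k Ω).mpr (halg s)
    obtain ⟨c, hc, hint⟩ := hs.exists_integral_multiple
    refine ⟨c, hc, ?_⟩
    exact hint
  choose c hc hint using h1
  refine ⟨∏ s ∈ S, c s, Finset.prod_ne_zero_iff.2 fun s _ => hc s, fun s hs => ?_⟩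
  rw [← Finset.mul_prod_erase S c hs]
  have h2 : ((c s * ∏ x ∈ S.erase s, c x : A) : Ω) * s =
      ((∏ x ∈ S.erase s, c x : A) : Ω) * ((c s : Ω) * s) := by
    push_cast
    ring
  rw [h2]
  exact (L3.int_coe _).mul (hint s)

theorem AUnr_holds (hANz : ANzS) : AUnrS := by
  intro F Ω _ _ _ _ _ _ t htr halg S
  classical
  obtain ⟨D, hD0, hD⟩ := AUnr_mult halg S
  have hD0' : (D : Ω) ≠ 0 := by
    intro h
    exact hD0 (Subtype.ext h)
  have h1 : ∀ w : Ω × Ω, ∃ Bad : Finset F, w ∈ S.offDiag → ∀ p : Pl Ω F, SpPl t p → ∀ t₀,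
      p.Red t t₀ → p.Red ((D : Ω) * w.2 - D * w.1) 0 → t₀ ∈ Bad := by
    intro w
    by_cases hw : w ∈ S.offDiag
    · rw [Finset.mem_offDiag] at hw
      obtain ⟨Bad, hBad⟩ := hANz F Ω t htr ((D : Ω) * w.2 - D * w.1)
        (IsIntegral.sub (hD _ hw.2.1) (hD _ hw.1)) (by
          rw [← mul_sub]
          exact mul_ne_zero hD0' (sub_ne_zero.2 (Ne.symm hw.2.2)))
      exact ⟨Bad, fun _ => hBad⟩
    · exact ⟨∅, fun h => absurd h hw⟩
  choose Bad hBad using h1
  refine ⟨S.offDiag.biUnion Bad, ?_⟩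
  intro p hp t₀ ht ht₀ τ hτ hS hin s hs
  by_contra hne
  apply ht₀
  have hw : (s, τ s) ∈ S.offDiag := Finset.mem_offDiag.2 ⟨hs, hS s hs, Ne.symm hne⟩
  refine Finset.mem_biUnion.2 ⟨(s, τ s), hw, hBad _ hw p hp t₀ ht ?_⟩
  have hτD : τ (D : Ω) = D := by
    obtain ⟨x, hx⟩ : ∃ x : Ω, x = (D : Ω) := ⟨_, rfl⟩
    have h2 : x ∈ Algebra.adjoin F ({t} : Set Ω) := by
      rw [hx]
      exact D.2
    rw [Algebra.adjoin_singleton_eq_range_aeval] at h2
    obtain ⟨q, hq⟩ := h2
    have hq' : aeval t q = (D : Ω) := by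
      rw [← hx]
      exact hq
    rw [← hq']
    have h3 := Polynomial.aeval_algHom_apply (τ : Ω →ₐ[F] Ω) t q
    have h4 : (τ : Ω →ₐ[F] Ω) t = t := hτ
    rw [h4] at h3
    exact h3.symm
  have ha : (D : Ω) * s ∈ IntermediateField.adjoin F (insert t (S : Set Ω)) := by
    refine mul_mem ?_ (IntermediateField.subset_adjoin _ _ (Set.mem_insert_of_mem _ hs))
    have h2 : Algebra.adjoin F ({t} : Set Ω) ≤
        (IntermediateField.adjoin F (insert t (S : Set Ω))).toSubalgebra := by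
      rw [Algebra.adjoin_le_iff]
      intro x hx
      rw [Set.mem_singleton_iff] at hx
      rw [hx]
      exact IntermediateField.subset_adjoin _ _ (Set.mem_insert _ _)
    exact h2 D.2
  have h5 := hin _ ha (hD s hs)
  rw [map_mul, hτD] at h5
  exact h5

end Pool.Agent.LSF
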