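import Pool.Agent.LSF.AA3
import Pool.Agent.LSF.AAbs
import Pool.Agent.LSF.AAct
import Pool.Agent.LSF.ACa
import Pool.Agent.LSF.ACb
import Pool.Agent.LSF.ACc
import Pool.Agent.LSF.ACol
import Pool.Agent.LSF.ACut
import Pool.Agent.LSF.ADst
import Pool.Agent.LSF.AEdge
import Pool.Agent.LSF.AFG
import Pool.Agent.LSF.AFac
import Pool.Agent.LSF.AGcl
import Pool.Agent.LSF.AGo
import Pool.Agent.LSF.AIdx
import Pool.Agent.LSF.AInert
import Pool.Agent.LSF.AKer
import Pool.Agent.LSF.AL2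
import Pool.Agent.LSF.ALift
import Pool.Agent.LSF.ANrm
import Pool.Agent.LSF.ANz
import Pool.Agent.LSF.AOrb
import Pool.Agent.LSF.APair
import Pool.Agent.LSF.APrm
import Pool.Agent.LSF.AQ0
import Pool.Agent.LSF.AQa
import Pool.Agent.LSF.AQb
import Pool.Agent.LSF.AQc
import Pool.Agent.LSF.AQd
import Pool.Agent.LSF.AQe
import Pool.Agent.LSF.AQf
import Pool.Agent.LSF.AQg
import Pool.Agent.LSF.AQn
import Pool.Agent.LSF.ARz
import Pool.Agent.LSF.AStb
import Pool.Agent.LSF.ASym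
import Pool.Agent.LSF.ATri
import Pool.Agent.LSF.ATs
import Pool.Agent.LSF.AUnr
import Pool.Agent.LenSpec.Asm
import Pool.Agent.LenSpec.U1
import Pool.Agent.LenSpec.U2
import Pool.Agent.LenSpec.U4

/-!
Part A put together.
-/

namespace Pool.Agent.LSF

open Pool.Agent.LenSpec

namespace AAsm

theorem aAPrm : APrmS := APrm_holds AOrb_holds
theorem aIdx : AIdxS := AIdx_holds AOrb_holds ATri_holds aAPrm
theorem aStb : AStbS := AStb_holds aIdx
theorem aKer : AKerS := AKer_holds aStb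
theorem aPair : APairS := APair_holds aStb
theorem aCa : ACaS := ACa_holds AGo_holds aKer RECT_holds
theorem aCb : ACbS := ACb_holds aPair
theorem aA3 : AA3S := AA3_holds aCa aCb ACc_holds
theorem aFG : AFGS := AFG_holds Asm.fn v1_holds Asm.z1 Asm.z2 A6_holds Asm.g1
theorem aQ0 : AQ0S := AQ0_holds Asm.fn
theorem aDst : ADstS := ADst_holds aQ0 Asm.p1 b8_holds
theorem aNrm : ANrmS :=
  ANrm_holds a1_holds a2_holds Asm.a4 A5_holds A6_holds Asm.g1 Asm.g2 Asm.g3
theorem aQb : AQbS := AQb_holds QDa_holds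
theorem aQc : AQcS := AQc_holds AQa_holds aQb
theorem aQd : AQdS := AQd_holds QDb_holds
theorem aQf : AQfS := AQf_holds aQd AQe_holds
theorem aQg : AQgS := AQg_holds AQa_holds aQc aQf
theorem aQn : AQnS := AQn_holds aQg
theorem aCut : ACutS := ACut_holds J0_holds J1_holds Asm.j2 l1_holds
theorem aUnr : AUnrS := AUnr_holds ANz_holds
theorem aCol : AColS := ACol_holds aQn J0_holds J1_holds l4_holds
theorem aFac : AFacS := AFac_holds aCol Asm.qd1 J0_holds J1_holds
theorem aEdge : AEdgeS :=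
  AEdge_holds aCut AGcl_holds aUnr AInert_holds aCol aFac l4_holds J0_holds J1_holds Asm.qd2
theorem aTs : ATsS := ATs_holds aEdge Asm.m1 J0_holds J1_holds
theorem aSym : ASymS :=
  ASym_holds Asm.sr aTs Asm.m1 Asm.p1 ALift_holds aQ0 aFG aDst AAct_holds Asm.g3 a1_holds
    A5_holds b8_holds
theorem aL2 : AL2S := AL2_holds aSym aFG AAct_holds Asm.g3
theorem aRz (h : AMainS) : ARzS := ARz_holds h AAbs_holds U1 U2 Asm.u3 U4_holds E3_holds

end AAsm

end Pool.Agent.LSF
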