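import Pool.Agent.LenSpec.GIDefs

/-!
Part A: Galois groups, linking of multipliers, absolute values. Statements of the modules (as
propositions; the module `X` proves `XS` from the listed hypotheses).
-/

namespace Pool.Agent.LSF

open Polynomial Pool.Agent.LenSpec

/-! ### Group theory -/

section grp

/-- the group acts on `α` as the full symmetric group -/
def FullA (Γ α : Type) [Group Γ] [MulAction Γ α] : Prop :=
  ∀ π : Equiv.Perm α, ∃ g : Γ, ∀ x, g • x = π x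

/-- `b` is an equivariant bijection -/
def EqvA (Γ : Type) {α β : Type} [Group Γ] [MulAction Γ α] [MulAction Γ β] (b : α ≃ β) : Prop :=
  ∀ (g : Γ) (x : α), b (g • x) = g • b x

end grp

/-- AOrb: orbits of a subgroup of small index -/
def AOrbS : Prop := ∀ (α : Type) [Fintype α] [DecidableEq α] (H : Subgroup (Equiv.Perm α)),
  4 ≤ Fintype.card α → 2 * H.index < Fintype.card α * (Fintype.card α - 1) →
  (∀ x y, ∃ π ∈ H, π x = y) ∨ ∃ x, ∀ π ∈ H, π x = x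

/-- ATri: a subgroup of small index contains a transposition or a 3-cycle -/
def ATriS : Prop := ∀ (α : Type) [Fintype α] [DecidableEq α] (H : Subgroup (Equiv.Perm α)),
  10 ≤ Fintype.card α → H.index ≤ Fintype.card α →
  ∃ π ∈ H, Equiv.Perm.IsSwap π ∨ Equiv.Perm.IsThreeCycle π

/-- APrm (from AOrb): a transitive subgroup of small index is 2-transitive -/
def APrmS : Prop := ∀ (α : Type) [Fintype α] [DecidableEq α] (H : Subgroup (Equiv.Perm α)),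
  10 ≤ Fintype.card α → H.index ≤ Fintype.card α → (∀ x y, ∃ π ∈ H, π x = y) →
  ∀ x y x' y' : α, x ≠ y → x' ≠ y' → ∃ π ∈ H, π x = x' ∧ π y = y'

/-- AIdx (from AOrb, ATri, APrm): subgroups of small index of the symmetric group -/
def AIdxS : Prop := ∀ (α : Type) [Fintype α] [DecidableEq α] (H : Subgroup (Equiv.Perm α)),
  10 ≤ Fintype.card α → H.index ≤ Fintype.card α →
  alternatingGroup α ≤ H ∨ ∃ x, ∀ π : Equiv.Perm α, π ∈ H ↔ π x = x

/-- AGo: if `Γ` is not transitive on `α × β` there is an equivariant bijection -/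
def AGoS : Prop := ∀ (Γ α β : Type) [Group Γ] [MulAction Γ α] [MulAction Γ β] [Fintype α]
  [Fintype β], Fintype.card α = Fintype.card β → 5 ≤ Fintype.card α → FullA Γ β →
  (∀ x x' : α, ∃ g : Γ, g • x = x') →
  (∃ (x : α) (y y' : β), ∀ g : Γ, g • x = x → g • y ≠ y') →
  ∃ b : α ≃ β, EqvA Γ b

/-- AStb (from AIdx): the stabilizer of a point of a small set -/
def AStbS : Prop := ∀ (Γ α β : Type) [Group Γ] [MulAction Γ α] [MulAction Γ β] [Fintype α]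
  [Fintype β] [DecidableEq α], Fintype.card β ≤ Fintype.card α → 10 ≤ Fintype.card α →
  FullA Γ α → ∀ u : β,
  (∀ π : Equiv.Perm α, Equiv.Perm.sign π = 1 → ∃ g : Γ, g • u = u ∧ ∀ x, g • x = π x) ∨
  ∃ b : α ≃ β, EqvA Γ b

/-- AKer (from AStb): two independent actions -/
def AKerS : Prop := ∀ (Γ α β : Type) [Group Γ] [MulAction Γ α] [MulAction Γ β] [Fintype α]
  [Fintype β] [DecidableEq α], Fintype.card α = Fintype.card β → 10 ≤ Fintype.card α →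
  FullA Γ α → FullA Γ β → (¬ ∃ b : α ≃ β, EqvA Γ b) →
  ∀ π : Equiv.Perm α, Equiv.Perm.sign π = 1 → ∃ g : Γ, (∀ y : β, g • y = y) ∧ ∀ x, g • x = π x

/-- APair (from AStb) -/
def APairS : Prop := ∀ (Γ α β β' : Type) [Group Γ] [MulAction Γ α] [MulAction Γ β]
  [MulAction Γ β'] [Fintype α] [Fintype β] [Fintype β'], Fintype.card β ≤ Fintype.card α →
  Fintype.card β' ≤ Fintype.card α → 10 ≤ Fintype.card α → FullA Γ α →
  ∀ (x y : α) (u : β) (u' : β'), x ≠ y →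
  (∀ g : Γ, g • u = u → g • u' = u' → (g • x = x ∧ g • y = y) ∨ (g • x = y ∧ g • y = x)) →
  ∃ (b : α ≃ β) (b' : α ≃ β'), EqvA Γ b ∧ EqvA Γ b' ∧
    ((b x = u ∧ b' y = u') ∨ (b y = u ∧ b' x = u'))

/-! ### Linking -/

section link

variable {K : Type} [Field K]

/-- `τ` fixes the algebraic numbers and the elements of `A` -/
def Fx [CharZero K] (A : Set K) (τ : K ≃+* K) : Prop :=
  (∀ x, IsAlgebraic ℚ x → τ x = x) ∧ ∀ x ∈ A, τ x = x

/-- `X` is invariant under the automorphisms over `A` -/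
def InvX [CharZero K] (A X : Set K) : Prop := ∀ τ, Fx A τ → ∀ x ∈ X, τ x ∈ X

/-- the automorphisms over `A` induce all permutations of `X` -/
def SymOn [CharZero K] (A X : Set K) : Prop :=
  ∀ π : Equiv.Perm X, ∃ τ, Fx A τ ∧ ∀ x : X, τ x = π x

/-- `b` is an equivariant bijection of `X` and `Y` -/
structure EqB [CharZero K] (A X Y : Set K) (b : K → K) : Prop where
  bij : Set.BijOn b X Y
  equi : ∀ τ, Fx A τ → ∀ x ∈ X, b (τ x) = τ (b x)

/-- an absolute value with values in an ordered field that determines the norms -/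
structure AbV (c : Cj K) (R : Type) [Field R] [LinearOrder R] [IsStrictOrderedRing R] where
  /-- the absolute value -/
  ab : K → R
  map_zero : ab 0 = 0
  pos : ∀ x, x ≠ 0 → 0 < ab x
  map_mul : ∀ x y, ab (x * y) = ab x * ab y
  nrm_iff : ∀ x y, c.nrm x = c.nrm y ↔ ab x = ab y

/-- the data for the linking argument: `X` multipliers of `f`, `U` multipliers of `g` -/
structure Link [CharZero K] (c : Cj K) (A X U : Set K) : Prop where
  conj : ∀ x ∈ A, c.σ x ∈ A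
  finX : X.Finite
  finU : U.Finite
  invX : InvX A X
  invU : InvX A U
  sym : SymOn A X
  ten : 10 ≤ X.ncard
  card : U.ncard ≤ X.ncard
  zero : ∀ x ∈ X, x ≠ 0
  nrm : ∀ x ∈ X, c.nrm x ≠ 1 → ∃ u ∈ U, c.nrm u = c.nrm x

/-- the four types of linking -/
def Types [CharZero K] (c : Cj K) (A X U : Set K) : Prop :=
  (∃ κ : K, κ ≠ 0 ∧ EqB A X U (fun x => κ⁻¹ * x)) ∨
  (∃ κ : K, κ ≠ 0 ∧ EqB A X (c.σ '' U) (fun x => κ⁻¹ * x)) ∨
  (∃ (β : K → K) (C : K), EqB A X (c.σ '' X) β ∧ ∀ x ∈ X, x * β x = C) ∨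
  (∃ β b b' : K → K, EqB A X (c.σ '' X) β ∧ EqB A X U b ∧ EqB A X (c.σ '' U) b' ∧
    ∀ x ∈ X, x * β x = b x * b' x)

end link

/-- ACa (from AGo, AKer, RECT): there is no equivariant bijection of `X` and its conjugate -/
def ACaS : Prop := ∀ (K : Type) [Field K] [CharZero K] (c : Cj K) (A X U : Set K),
  Link c A X U → (¬ ∃ β, EqB A X (c.σ '' X) β) → Types c A X U

/-- ACb (from APair): there is an equivariant bijection different from the conjugation -/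
def ACbS : Prop := ∀ (K : Type) [Field K] [CharZero K] (c : Cj K) (A X U : Set K) (β : K → K),
  Link c A X U → EqB A X (c.σ '' X) β → (∃ x ∈ X, c.σ x ≠ β x) → Types c A X U

/-- ACc: the conjugation is an equivariant bijection -/
def ACcS : Prop := ∀ (K : Type) [Field K] [CharZero K] (c : Cj K) (R : Type) [Field R]
  [LinearOrder R] [IsStrictOrderedRing R] (_ : AbV c R) (A X U : Set K),
  Link c A X U → EqB A X (c.σ '' X) c.σ → Types c A X U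

/-- AA3 (from ACa, ACb, ACc) -/
def AA3S : Prop := ∀ (K : Type) [Field K] [CharZero K] (c : Cj K) (R : Type) [Field R]
  [LinearOrder R] [IsStrictOrderedRing R] (_ : AbV c R) (A X U : Set K),
  Link c A X U → Types c A X U

/-! ### Norms of multipliers -/

/-- AFG (from FN, V1, Z1, Z2, A6, G1): the generic map is in general position -/
def AFGS : Prop := ∀ (K : Type) [Field K] [IsAlgClosed K] [CharZero K] (d : ℕ)
  (f : RatMap K d), 2 ≤ d → AlgebraicIndependent ℚ f.coef →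
  Good f ∧ ∀ n, 1 ≤ n → ∀ x ∈ f.multSpec n, x ≠ 0

/-- ADst (from AQ0, P1, B8): different cycles of the generic map have different multipliers -/
def ADstS : Prop := ∀ (K : Type) [Field K] [IsAlgClosed K] [CharZero K] (d n : ℕ)
  (f : RatMap K d), 2 ≤ d → AlgebraicIndependent ℚ f.coef → 2 ≤ n →
  ∀ z z', PerX f.num f.den n z → PerX f.num f.den n z' →
    mult f.num f.den n z = mult f.num f.den n z' → ∃ k, z' = (ev f.num f.den)^[k] z

/-- ANrm (from A1, A2, A4, A5, A6, G1, G2, G3): multipliers of large prime period whose norm is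
not `1` -/
def ANrmS : Prop := ∀ (K : Type) [Field K] [IsAlgClosed K] [CharZero K] (c : Cj K) (d n : ℕ)
  (f g : RatMap K d), Good f → NoInf d g.num g.den → n.Prime → d + 1 < n →
  (∀ z z', PerX f.num f.den n z → PerX f.num f.den n z' →
      mult f.num f.den n z = mult f.num f.den n z' → ∃ k, z' = (ev f.num f.den)^[k] z) →
  c.spec f n = c.spec g n →
  (∀ x ∈ XS f.num f.den n, c.nrm x ≠ 1 → ∃ u ∈ XS g.num g.den n, c.nrm u = c.nrm x) ∧
  (XS f.num f.den n).Finite ∧ (XS g.num g.den n).Finite ∧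
  n * (XS f.num f.den n).ncard + d = d ^ n ∧
  (XS g.num g.den n).ncard ≤ (XS f.num f.den n).ncard

/-- AAct (may use E3): automorphisms that fix the coefficients permute the multipliers -/
def AActS : Prop := ∀ (K : Type) [Field K] [CharZero K] (c : Cj K) (d n : ℕ) (f : RatMap K d)
  (A : Set K),
  ((∀ i, f.coef i ∈ A) → InvX A (XS f.num f.den n)) ∧
  XS (c.conj f).num (c.conj f).den n = c.σ '' XS f.num f.den n ∧
  ((∀ x ∈ A, c.σ x ∈ A) → ∀ τ : K ≃+* K, Fx A τ →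
    ∃ τ' : K ≃+* K, Fx A τ' ∧ ∀ x, τ' x = c.σ (τ (c.σ x)))

/-! ### QN: multiplicities for `z ^ d + t` -/

/-- the push-forward of the quadratic differential `g dz ^ 2` under `z ^ d + t` -/
noncomputable def pw (d : ℕ) (t : ℂ) (g : ℂ → ℂ) (y : ℂ) : ℂ :=
  ((nthRoots d (y - t)).map (fun x => g x * (((d : ℂ) * x ^ (d - 1)) ^ 2)⁻¹)).sum

/-- AQa: iterated push-forwards are finite sums over the preimages -/
def AQaS : Prop := ∀ (d n : ℕ) (t y : ℂ), 2 ≤ d →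
  ∃ (X : Finset ℂ) (a : ℂ → ℂ), (∀ x ∈ X, (T d t)^[n] x = y) ∧
    ∀ g : ℂ → ℂ, (pw d t)^[n] g y = ∑ x ∈ X, a x * g x

/-- AQb (may use QDa): iterated push-forward of `1 / (z - w)` -/
def AQbS : Prop := ∀ (d n : ℕ) (t : ℂ), 2 ≤ d →
  ∃ κ : ℕ → ℂ → ℂ, (∀ w, (∀ j < n, (T d t)^[j] w ≠ 0) → ∀ i, AnalyticAt ℂ (κ i) w) ∧
    ∀ w y : ℂ, (∀ j < n, (T d t)^[j] w ≠ 0) → (∀ i < n, y ≠ (T d t)^[i] t) →
      y ≠ (T d t)^[n] w →
      (pw d t)^[n] (fun z => (z - w)⁻¹) y =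
        (Tm d t n w)⁻¹ * (y - (T d t)^[n] w)⁻¹ -
          ∑ i ∈ Finset.range n, κ i w * (y - (T d t)^[i] t)⁻¹

/-- AQc (from AQa, AQb): iterated push-forward of `1 / (z - p) ^ j` at a multiple fixed point -/
def AQcS : Prop := ∀ (d n m j : ℕ) (t p : ℂ), 2 ≤ d → 1 ≤ n → 1 ≤ j → j + 1 ≤ m →
  (∃ H : ℂ[X], ∀ z, (T d t)^[n] z - z = (z - p) ^ m * H.eval z) →
  ∃ k : ℕ → ℂ, ∀ y : ℂ, (∀ i < n, y ≠ (T d t)^[i] t) → y ≠ p →
    (pw d t)^[n] (fun z => ((z - p) ^ j)⁻¹) y =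
      ((y - p) ^ j)⁻¹ - ∑ i ∈ Finset.range n, k i * (y - (T d t)^[i] t)⁻¹

/-- AQd (may use QDb): the integral inequality -/
def AQdS : Prop := ∀ (d n : ℕ) (t : ℂ) (g : ℂ → ℂ) (E : Set ℂ), 2 ≤ d → Measurable g →
  MeasurableSet E →
  ∫⁻ y in E, ‖(pw d t)^[n] g y‖ₑ ≤ ∫⁻ x in ((T d t)^[n]) ⁻¹' E, ‖g x‖ₑ

/-- AQe: linear independence of partial fractions -/
def AQeS : Prop := ∀ (P : Finset ℂ) (m : ℂ → ℕ) (c : ℂ → ℕ → ℂ) (A : Set ℂ), A.Infinite →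
  (∀ z ∈ A, ∑ p ∈ P, ∑ j ∈ Finset.Ico 1 (m p), c p j * ((z - p) ^ j)⁻¹ = 0) →
  ∀ p ∈ P, ∀ j ∈ Finset.Ico 1 (m p), c p j = 0

/-- AQf (from AQd, AQe): there is no invariant quadratic differential with poles of small order -/
def AQfS : Prop := ∀ (d n : ℕ) (t : ℂ) (P : Finset ℂ) (m : ℂ → ℕ) (c : ℂ → ℕ → ℂ)
  (B : Finset ℂ), 2 ≤ d → 1 ≤ n →
  (∀ p ∈ P, 2 ≤ m p ∧ ∃ H : ℂ[X], ∀ z, (T d t)^[n] z - z = (z - p) ^ (m p) * H.eval z) →
  (∀ y, y ∉ B →
    (pw d t)^[n] (fun z => ∑ p ∈ P, ∑ j ∈ Finset.Ico 1 (m p), c p j * ((z - p) ^ j)⁻¹) y =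
      ∑ p ∈ P, ∑ j ∈ Finset.Ico 1 (m p), c p j * ((y - p) ^ j)⁻¹) →
  ∀ p ∈ P, ∀ j ∈ Finset.Ico 1 (m p), c p j = 0

/-- AQg (from AQa, AQc, AQf): the number of periodic points of `z ^ d + t` -/
def AQgS : Prop := ∀ (d n : ℕ) (t : ℂ), 2 ≤ d → 1 ≤ n →
  d ^ n ≤ {z : ℂ | (T d t)^[n] z = z}.ncard + n

/-- AQn (from AQg) -/
def AQnS : Prop := ∀ (F : Type) [Field F] [IsAlgClosed F] [CharZero F] (_ : F →+* ℂ) (d n : ℕ)
  (t : F), 2 ≤ d → 1 ≤ n →
  {z : F | (T d t)^[n] z = z}.Finite ∧ d ^ n ≤ {z : F | (T d t)^[n] z = z}.ncard + n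

/-! ### TS: the symmetric group for `z ^ d + t` -/

/-- ACut (from J0, J1, J2, L1): a collision between two complementary sets of periodic points -/
def ACutS : Prop := ∀ (F Ω : Type) [Field F] [IsAlgClosed F] [CharZero F]
  [Field Ω] [IsAlgClosed Ω] [Algebra F Ω] (t : Ω) (d n : ℕ), Transcendental F t → AlgT F t →
  2 ≤ d → 1 ≤ n → ∀ A B : Finset Ω, Disjoint A B →
  (∀ z, (z ∈ A ∨ z ∈ B) ↔ ((T d t)^[n] z = z ∧ T d t z ≠ z)) → A.Nonempty → B.Nonempty →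
  ∃ (p : Pl Ω F) (t₀ : F), SpPl t p ∧ p.Red t t₀ ∧ ∃ x ∈ A, ∃ y ∈ B, p.rs x = p.rs y

/-- ANz: a nonzero integral element vanishes over finitely many `t₀` only -/
def ANzS : Prop := ∀ (F Ω : Type) [Field F] [IsAlgClosed F] [CharZero F]
  [Field Ω] [IsAlgClosed Ω] [Algebra F Ω] (t : Ω), Transcendental F t →
  ∀ e : Ω, IntT F t e → e ≠ 0 → ∃ Bad : Finset F, ∀ p : Pl Ω F, SpPl t p → ∀ t₀,
    p.Red t t₀ → p.Red e 0 → t₀ ∈ Bad

/-- AGcl: finite sets are contained in finite sets that are stable under all automorphisms -/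
def AGclS : Prop := ∀ (F Ω : Type) [Field F] [IsAlgClosed F] [CharZero F]
  [Field Ω] [IsAlgClosed Ω] [Algebra F Ω] (t : Ω), AlgT F t → ∀ S : Finset Ω,
  ∃ S' : Finset Ω, S ⊆ S' ∧ ∀ τ : Ω ≃ₐ[F] Ω, τ t = t → ∀ s ∈ S', τ s ∈ S'

/-- AUnr (from ANz): at almost all `t₀` inertia acts trivially on `S` -/
def AUnrS : Prop := ∀ (F Ω : Type) [Field F] [IsAlgClosed F] [CharZero F]
  [Field Ω] [IsAlgClosed Ω] [Algebra F Ω] (t : Ω), Transcendental F t → AlgT F t →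
  ∀ S : Finset Ω, ∃ Bad : Finset F, ∀ p : Pl Ω F, SpPl t p → ∀ t₀, p.Red t t₀ → t₀ ∉ Bad →
    ∀ τ : Ω ≃ₐ[F] Ω, τ t = t → (∀ s ∈ S, τ s ∈ S) →
      (∀ a ∈ IntermediateField.adjoin F (insert t (S : Set Ω)), IntT F t a →
        p.Red (τ a - a) 0) →
      ∀ s ∈ S, τ s = s

/-- AInert: ramification produces a nontrivial element of the inertia group -/
def AInertS : Prop := ∀ (F Ω : Type) [Field F] [IsAlgClosed F] [CharZero F]
  [Field Ω] [IsAlgClosed Ω] [Algebra F Ω] (t : Ω) (p : Pl Ω F) (t₀ : F) (Z : Finset Ω),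
  Transcendental F t → AlgT F t → SpPl t p → p.Red t t₀ →
  (∀ τ : Ω ≃ₐ[F] Ω, τ t = t → ∀ z ∈ Z, τ z ∈ Z) →
  ∀ α ∈ IntermediateField.adjoin F (insert t (Z : Set Ω)),
  ∀ β ∈ IntermediateField.adjoin F (insert t (Z : Set Ω)),
  ∀ u ∈ IntermediateField.adjoin F (insert t (Z : Set Ω)),
  ∀ B ∈ IntermediateField.adjoin F (insert t (Z : Set Ω)),
  IntT F t α → IntT F t β → IntT F t u → IntT F t B → p.Red α 0 → p.Red β 0 → ¬ p.Red B 0 →
  B * (t - algebraMap F Ω t₀) = α * β * u →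
  ∃ τ : Ω ≃ₐ[F] Ω, τ t = t ∧ (∃ z ∈ Z, τ z ≠ z) ∧
    ∀ a ∈ IntermediateField.adjoin F (insert t (Z : Set Ω)), IntT F t a → p.Red (τ a - a) 0

/-- ACol (from AQn, J0, J1, L4): the structure of collisions -/
def AColS : Prop := ∀ (F Ω : Type) [Field F] [IsAlgClosed F] [CharZero F] (_ : F →+* ℂ)
  [Field Ω] [IsAlgClosed Ω] [Algebra F Ω] (t : Ω) (p : Pl Ω F) (t₀ : F) (d n : ℕ) (x y : Ω),
  Transcendental F t → SpPl t p → p.Red t t₀ → 2 ≤ d → n.Prime →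
  (T d t)^[n] x = x → T d t x ≠ x → (T d t)^[n] y = y → T d t y ≠ y →
  (∀ k, y ≠ (T d t)^[k] x) → p.rs x = p.rs y →
  T d t₀ (p.rs x) ≠ p.rs x ∧ (T d t₀)^[n] (p.rs x) = p.rs x ∧ Tm d t₀ n (p.rs x) = 1 ∧
  ∀ u w, (T d t)^[n] u = u → (T d t)^[n] w = w → u ≠ w → p.rs u = p.rs w →
    ∃ i < n, (u = (T d t)^[i] x ∧ w = (T d t)^[i] y) ∨
      (u = (T d t)^[i] y ∧ w = (T d t)^[i] x)

/-- AFac (from ACol, QD1, J0, J1): `t - t₀` is divisible by two elements that vanish at `p` -/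
def AFacS : Prop := ∀ (F Ω : Type) [Field F] [IsAlgClosed F] [CharZero F] (_ : F →+* ℂ)
  [Field Ω] [IsAlgClosed Ω] [Algebra F Ω] (t : Ω) (p : Pl Ω F) (t₀ : F) (d n : ℕ) (x y : Ω),
  Transcendental F t → SpPl t p → p.Red t t₀ → 2 ≤ d → n.Prime →
  (T d t)^[n] x = x → T d t x ≠ x → (T d t)^[n] y = y → T d t y ≠ y →
  (∀ k, y ≠ (T d t)^[k] x) → p.rs x = p.rs y →
  ∀ Z : Finset Ω, (∀ z, (T d t)^[n] z = z → z ∈ Z) →
  ∃ α ∈ IntermediateField.adjoin F (insert t (Z : Set Ω)),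
  ∃ β ∈ IntermediateField.adjoin F (insert t (Z : Set Ω)),
  ∃ u ∈ IntermediateField.adjoin F (insert t (Z : Set Ω)),
  ∃ B ∈ IntermediateField.adjoin F (insert t (Z : Set Ω)),
  IntT F t α ∧ IntT F t β ∧ IntT F t u ∧ IntT F t B ∧ p.Red α 0 ∧ p.Red β 0 ∧ ¬ p.Red B 0 ∧
  B * (t - algebraMap F Ω t₀) = α * β * u

/-- AEdge (from ACut, AGcl, AUnr, AInert, ACol, AFac, J0, J1, QD2): a transposition of two cycles
across every cut -/
def AEdgeS : Prop := ∀ (F Ω : Type) [Field F] [IsAlgClosed F] [CharZero F] (_ : F →+* ℂ)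
  [Field Ω] [IsAlgClosed Ω] [Algebra F Ω] (t : Ω) (d : ℕ), Transcendental F t → AlgT F t →
  2 ≤ d → ∀ S : Finset Ω, ∃ n₀ : ℕ, ∀ n, n.Prime → n₀ ≤ n → ∀ A B : Finset Ω,
    Disjoint A B → (∀ z, (z ∈ A ∨ z ∈ B) ↔ ((T d t)^[n] z = z ∧ T d t z ≠ z)) →
    (∀ z ∈ A, T d t z ∈ A) → (∀ z ∈ B, T d t z ∈ B) → A.Nonempty → B.Nonempty →
    ∃ (τ : Ω ≃ₐ[F] Ω), τ t = t ∧ (∀ s ∈ S, τ s = s) ∧ ∃ x ∈ A, ∃ y ∈ B, τ x = y ∧ τ y = x ∧
      ∀ z, (T d t)^[n] z = z → (∀ k, z ≠ (T d t)^[k] x) → (∀ k, z ≠ (T d t)^[k] y) → τ z = z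

/-- the multipliers at the points of exact period `n` (`n` prime) of `z ^ d + t` -/
def XT {Ω : Type} [Field Ω] (d : ℕ) (t : Ω) (n : ℕ) : Set Ω :=
  {x | ∃ z, (T d t)^[n] z = z ∧ T d t z ≠ z ∧ Tm d t n z = x}

/-- ATs (from AEdge, M1, J0, J1): all transpositions of multipliers -/
def ATsS : Prop := ∀ (F Ω : Type) [Field F] [IsAlgClosed F] [CharZero F] (_ : F →+* ℂ)
  [Field Ω] [IsAlgClosed Ω] [Algebra F Ω] (t : Ω) (d : ℕ), Transcendental F t → AlgT F t →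
  2 ≤ d → ∀ S : Finset Ω, ∃ n₀ : ℕ, ∀ n, n.Prime → n₀ ≤ n →
    ∀ a ∈ XT d t n, ∀ b ∈ XT d t n, ∃ (τ : Ω ≃ₐ[F] Ω), τ t = t ∧ (∀ s ∈ S, τ s = s) ∧
      τ a = b ∧ τ b = a ∧ ∀ x ∈ XT d t n, x ≠ a → x ≠ b → τ x = x

/-! ### The generic map -/

/-- ALift: lifting of automorphisms from the residue field -/
def ALiftS : Prop := ∀ (K κ F : Type) [Field K] [IsAlgClosed K] [CharZero K] [Field κ] [Field F]
  [Algebra F K] [Algebra F κ] [CharZero κ] (p : Pl K κ) (E : IntermediateField F K)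
  (E' : IntermediateField F κ) (X : Finset K), (∀ x : K, IsAlgebraic E x) →
  (∀ x y, x ∈ E → p.Red x y → y ∈ E') → (∀ x ∈ X, x ∈ p.O) →
  (∀ x ∈ X, ∀ x' ∈ X, p.rs x = p.rs x' → x = x') → (∀ τ : K ≃ₐ[E] K, ∀ x ∈ X, τ x ∈ X) →
  ∀ σ : κ ≃ₐ[F] κ, (∀ y ∈ E', σ y = y) → (∀ x ∈ X, ∃ x' ∈ X, σ (p.rs x) = p.rs x') →
  ∃ τ : K ≃ₐ[E] K, ∀ x ∈ X, p.rs (τ x) = σ (p.rs x)

/-- AQ0 (from FN; as Q1, without the conjugation): the coordinates `t`, `s` of the generic map -/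
def AQ0S : Prop := ∀ (K : Type) [Field K] [IsAlgClosed K] [CharZero K] (d : ℕ)
  (f : RatMap K d), 2 ≤ d → AlgebraicIndependent ℚ f.coef →
  ∃ (F : IntermediateField ℚ K) (a b t s : K), IsAlgClosed F ∧ a ∈ F ∧ b ∈ F ∧ a ≠ 0 ∧
    b ≠ 0 ∧
    Sit F d (C (a * b) * f.num.comp (C a⁻¹ * X)) (C b * f.den.comp (C a⁻¹ * X)) t s

/-- ASym (from SR, ATs, M1, P1, ALift, AQ0, AFG, ADst, AAct, G3, A1, A5, B8): the full symmetric
group for the generic map -/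
def ASymS : Prop := ∀ (K : Type) [Field K] [IsAlgClosed K] [CharZero K] (_ : K →+* ℂ) (d : ℕ)
  (f : RatMap K d), 2 ≤ d → AlgebraicIndependent ℚ f.coef → ∀ A : Set K, A.Finite →
  ∃ n₀ : ℕ, ∀ n, n.Prime → n₀ ≤ n → SymOn A (XS f.num f.den n)

/-- the automorphisms over `A` induce all permutations of the `X i`, independently -/
def FullSeq {K : Type} [Field K] [CharZero K] (A : Set K) (X : ℕ → Set K) : Prop :=
  ∀ (N : ℕ) (π : ∀ i : ℕ, Equiv.Perm (X i)), ∃ τ, Fx A τ ∧ ∀ i < N, ∀ x : X i, τ x = π i x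

/-- AL2 (from ASym, AFG, AAct, G3): a sequence of primes with independent Galois groups -/
def AL2S : Prop := ∀ (K : Type) [Field K] [IsAlgClosed K] [CharZero K] (_ : K →+* ℂ) (d : ℕ)
  (f : RatMap K d), 2 ≤ d → AlgebraicIndependent ℚ f.coef → ∀ (A : Set K) (N : ℕ), A.Finite →
  (∀ i, f.coef i ∈ A) →
  ∃ m : ℕ → ℕ, StrictMono m ∧ (∀ i, N ≤ m i) ∧ (∀ i, (m i).Prime) ∧
    FullSeq A (fun i => XS f.num f.den (m i))

/-! ### Compactness -/

/-- AAbs: the absolute value of sequences of complex numbers modulo the ultrafilter -/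
def AAbsS : Prop := ∀ c : Cj HC,
  (∀ z : ℕ → ℂ, c.σ (z : HC) = ((fun j => starRingEnd ℂ (z j) : ℕ → ℂ) : HC)) →
  Nonempty (AbV c Hyperreal)

/-- AMain: the theorem for a generic map (assembled from parts A, B, C) -/
def AMainS : Prop := ∀ (K : Type) [Field K] [IsAlgClosed K] [CharZero K] [Uncountable K]
  (_ : K →+* ℂ) (c : Cj K) (R : Type) [Field R] [LinearOrder R] [IsStrictOrderedRing R]
  (_ : AbV c R) (d : ℕ) (f g : RatMap K d), 2 ≤ d → AlgebraicIndependent ℚ f.coef →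
  (∀ n, 1 ≤ n → c.spec f n = c.spec g n) → MobConj f g ∨ MobConj (c.conj f) g

/-- ARz (from AMain, AAbs, U1, U2, U3, U4, E3): the final theorem -/
def ARzS : Prop := ∀ d : ℕ, 2 ≤ d → ∃ W : MvPolynomial (CI d) ℚ, W ≠ 0 ∧
  ∀ f : RatMap ℂ d, MvPolynomial.aeval f.coef W ≠ 0 → ∀ g : RatMap ℂ d,
    (∀ n, 1 ≤ n → f.lenSpec n = g.lenSpec n) → MobConj f g ∨ MobConj f.conj g

end Pool.Agent.LSF
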