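import Pool.Agent.LSF.ADefs
import Pool.Agent.LenSpec.E34

/-!
AL2 (a sequence of primes with independent Galois groups).
-/

namespace Pool.Agent.LSF

open Polynomial Pool.Agent.LenSpec

theorem AL2_inv {K : Type} [Field K] [CharZero K] {d n : ℕ} (f : RatMap K d) (A : Set K)
    (hA : ∀ i, f.coef i ∈ A) : InvX A (XS f.num f.den n) := by
  intro τ hτ x hx
  obtain ⟨z, hz, rfl⟩ := hx
  have hn : f.num.map (τ : K →+* K) = f.num := by
    ext i
    rw [coeff_map]
    by_cases h : i ≤ d
    · exact hτ.2 _ (hA (Sum.inl ⟨i, by omega⟩))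
    · rw [coeff_eq_zero_of_natDegree_lt (lt_of_le_of_lt f.num_le (not_le.1 h)), map_zero]
  have hd : f.den.map (τ : K →+* K) = f.den := by
    ext i
    rw [coeff_map]
    by_cases h : i ≤ d
    · exact hτ.2 _ (hA (Sum.inr ⟨i, by omega⟩))
    · rw [coeff_eq_zero_of_natDegree_lt (lt_of_le_of_lt f.den_le (not_le.1 h)), map_zero]
  refine ⟨τ z, ?_, ?_⟩
  · have h := (e3_perX_map (τ : K →+* K) f.num f.den n z).2 hz
    rw [hn, hd] at h
    exact h
  · have h := e3_mult_map (τ : K →+* K) f.num f.den n z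
    rw [hn, hd] at h
    exact h

theorem AL2_holds (hASym : ASymS) (hAFG : AFGS) (hAAct : AActS) (hG3 : G3S) : AL2S := by
  intro K _ _ _ ι d f hd hf A N hA hfA
  classical
  obtain ⟨hgood, -⟩ := hAFG K d f hd hf
  have hfin : ∀ n, 1 ≤ n → (XS f.num f.den n).Finite := fun n hn =>
    (hG3 K d n f hgood hn).2.1
  obtain ⟨F, hF, hr⟩ := exists_seq_of_forall_finset_exists
    (fun p : ℕ × Set K => p.1.Prime ∧ N ≤ p.1 ∧ A ⊆ p.2 ∧ SymOn p.2 (XS f.num f.den p.1))
    (fun p q => p.1 < q.1 ∧ XS f.num f.den p.1 ⊆ q.2) (by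
      intro s hs
      have hY : (A ∪ ⋃ p ∈ s, XS f.num f.den p.1).Finite := by
        refine hA.union (Set.Finite.biUnion s.finite_toSet ?_)
        intro p hp
        exact hfin _ (hs p hp).1.one_lt.le
      obtain ⟨n₀, hn₀⟩ := hASym K ι d f hd hf _ hY
      obtain ⟨q, hq1, hq2⟩ := Nat.exists_infinite_primes (n₀ + N + s.sup (fun p => p.1) + 1)
      refine ⟨(q, A ∪ ⋃ p ∈ s, XS f.num f.den p.1), ⟨hq2, by simp only; omega,
        Set.subset_union_left, hn₀ q hq2 (by omega)⟩, ?_⟩
      intro p hp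
      refine ⟨?_, ?_⟩
      · have h1 : p.1 ≤ s.sup (fun p => p.1) := Finset.le_sup (f := fun p : ℕ × Set K => p.1) hp
        simp only
        omega
      · intro x hx
        exact Or.inr (Set.mem_biUnion hp hx))
  refine ⟨fun i => (F i).1, ?_, fun i => (hF i).2.1, fun i => (hF i).1, ?_⟩
  · intro i j hij
    exact (hr i j hij).1
  · intro N' π
    induction N' with
    | zero =>
      exact ⟨RingEquiv.refl K, ⟨fun x _ => rfl, fun x _ => rfl⟩, fun i hi => absurd hi (by omega)⟩
    | succ n ih =>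
      obtain ⟨τ1, h1, h2⟩ := ih
      have hinv : ∀ x ∈ XS f.num f.den (F n).1, τ1 x ∈ XS f.num f.den (F n).1 :=
        AL2_inv f A hfA τ1 h1
      have hfinn : (XS f.num f.den (F n).1).Finite := hfin _ (hF n).1.one_lt.le
      have : Finite (XS f.num f.den (F n).1) := hfinn.to_subtype
      let e : XS f.num f.den (F n).1 → XS f.num f.den (F n).1 := fun x => ⟨τ1 x, hinv x x.2⟩
      have he : Function.Injective e := by
        intro x y hxy
        have h3 : τ1 x = τ1 y := congrArg Subtype.val hxy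
        exact Subtype.ext (τ1.injective h3)
      let E : Equiv.Perm (XS f.num f.den (F n).1) :=
        Equiv.ofBijective e (Finite.injective_iff_bijective.1 he)
      obtain ⟨ρ, hρ1, hρ2⟩ := (hF n).2.2.2 (E.symm.trans (π n))
      refine ⟨τ1.trans ρ, ⟨?_, ?_⟩, ?_⟩
      · intro x hx
        change ρ (τ1 x) = x
        rw [h1.1 x hx, hρ1.1 x hx]
      · intro x hx
        change ρ (τ1 x) = x
        rw [h1.2 x hx, hρ1.2 x ((hF n).2.2.1 hx)]
      · intro i hi x
        change ρ (τ1 x) = π i x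
        rcases Nat.lt_succ_iff_lt_or_eq.1 hi with h | rfl
        · rw [h2 i h x]
          exact hρ1.2 _ ((hr i n h).2 (π i x).2)
        · have h4 := hρ2 (E x)
          have h5 : ((E x : XS f.num f.den (F i).1) : K) = τ1 x := rfl
          rw [h5] at h4
          rw [h4]
          change ((π i) (E.symm (E x)) : K) = _
          rw [Equiv.symm_apply_apply]

end Pool.Agent.LSF
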