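import Pool.Agent.LSF.FDefs

/-!
AMain: the theorem for a generic map.
-/

namespace Pool.Agent.LSF

open Polynomial Pool.Agent.LenSpec

theorem AMain_holds (hAFG : AFGS) (hFX : FXS) (hFU : FUS) (hFV : FVS) (hFC : FCS) (hFL : FLS)
    (hFT : FTS) (hFE : FES) : AMainS := by
  intro K _ _ _ _ φ c R _ _ _ hR d f g hd hind hspec
  obtain ⟨hgood, hnz⟩ := hAFG K d f hd hind
  obtain ⟨x, hx, hx0, hx1⟩ := hFX K c d f g hgood (hnz 1 le_rfl) (hspec 1 le_rfl)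
  obtain ⟨u, g', hgg', hg'u, hux⟩ := hFU K d g x hd hx hx0 hx1
  obtain ⟨v, f', hff', hf'v, hnf, hvind⟩ := hFV K d f hd hind
  obtain ⟨A, m, hA, hvA, huA, hσA, hm, hmp, hfull, htyp⟩ :=
    hFL K φ c R hR d f f' g g' v u hd hind hff' hf'v hgg' hg'u hspec
  have hu1 : (nP d u).coeff 1 ≠ 1 := by
    rw [hux]
    exact hx1
  obtain ⟨M, hM, hMp, hcase⟩ := hFT K φ c d f f' g' v u A m hd hind hff' hf'v hnf hvind hg'u hu1
    hA hvA huA hσA hm hmp hfull htyp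
  rcases hcase with ⟨hI, hXS⟩ | ⟨hI, hXS⟩
  · left
    exact hFE K d f f' g g' v u hd hind hff' hf'v hgg' hg'u hI M hM hMp hXS
  · right
    obtain ⟨hc1, -, -, -⟩ := hFC K c d g g' u
    obtain ⟨-, hc2, -, -⟩ := hFC K c d g' g' u
    obtain ⟨-, -, hc3, -⟩ := hFC K c d g g' u
    have h1 : MobConj f (c.conj g) := hFE K d f f' (c.conj g) (c.conj g') v
      (fun i => c.σ (u i)) hd hind hff' hf'v (hc1 hgg') (hc2 hg'u) hI M hM hMp hXS
    obtain ⟨hc4, -⟩ := hFC K c d f (c.conj g) u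
    have h2 := hc4 h1
    rw [hc3] at h2
    exact h2

end Pool.Agent.LSF
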