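import Pool.Agent.LSF.ADefs
import Pool.Agent.LenSpec.PlBasic
import Pool.Agent.LenSpec.O1

/-!
ASym (the full symmetric group for the generic map).

PROOF. (φ : K → ℂ.) AQ0: F, a, b, t, s, Sit F d P1 Q1 t s with P1 = C(ab) f.num(X/a), Q1 = C b f.den(X/a). By B8: XS P1 Q1 n = XS f.num f.den n =: X (z ↦ a z). F ⊂ K is algebraically closed, so it contains all
elements of K algebraic over ℚ. Let Y = A ∪ {coefficients of f} as a Finset of K. SR for (F, P1, Q1, t, s): κ, p, t₁ and for G := Y a finite S ⊂ κ with: x ∈ E := adjoin F ({t, s} ∪ Y), p.Red x y ⇒ y ∈ E' := adjoin F (insert t₁ S).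
ATs for (F, κ, t₁) (embedding F → K → ℂ) and S: n₀. (κ is algebraically closed of characteristic 0: it contains F.) Let n ≥ max(n₀, 2) be prime.
(1) By SR the points z of exact period n of (P1, Q1) and the points of exact period n of T d t₁ correspond bijectively by p.rs, p.Red (mult P1 Q1 n z) (Tm d t₁ n (p.rs z)). So rs maps X onto XT d t₁ n
(n prime: exact period n means T^[n] z = z, T z ≠ z). It is injective on X: if Tm (rs z) = Tm (rs z') then rs z' = T^[k] (rs z) (M1 with κ = 1) = rs (ev^[k] z), so z' = ev^[k] z and mult is the same (A5).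
(2) Let x1 ≠ x2 ∈ X. ATs: σ : κ ≃ₐ[F] κ, σ t₁ = t₁, σ fixes S (so E' pointwise), exchanges rs x1 and rs x2 and fixes the other elements of XT = rs X. ALift (K algebraic over E because it is algebraic over
F(t, s); X finite: G3 / AFG; τ X ⊆ X for τ ∈ Gal(K/E): AAct, the coefficients of f are in E): τ : K ≃ₐ[E] K with rs (τ x) = σ (rs x), so τ exchanges x1 and x2 and fixes the other elements of X. As a ring
automorphism τ satisfies Fx A τ (algebraic numbers are in F, A ⊂ Y ⊂ E).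
(3) So all transpositions of X (as a finite type) are induced by elements of {τ | Fx A τ}; they generate Equiv.Perm X (Equiv.Perm.swap_induction_on; composition τ1.trans τ2): SymOn A X.
-/

namespace Pool.Agent.LSF

open Polynomial Pool.Agent.LenSpec

theorem ASym_mem_of_isAlgebraic {K : Type} [Field K] [CharZero K] {F : IntermediateField ℚ K}
    [IsAlgClosed F] {x : K} (hx : IsAlgebraic ℚ x) : x ∈ F := by
  have h1 : IsAlgebraic F x := hx.tower_top F
  have h2 := minpoly.irreducible h1.isIntegral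
  have h3 := IsAlgClosed.degree_eq_one_of_irreducible F h2
  obtain ⟨a, ha⟩ := minpoly.mem_range_of_degree_eq_one F x h3
  rw [← ha]
  exact a.2

theorem ASym_map_derivAt {K : Type} [Field K] {P Q : K[X]} {τ : K →+* K} (hP : P.map τ = P)
    (hQ : Q.map τ = Q) (x : K) : τ (derivAt P Q x) = derivAt P Q (τ x) := by
  unfold derivAt
  have hP' : (derivative P).map τ = derivative P := by rw [← derivative_map, hP]
  have hQ' : (derivative Q).map τ = derivative Q := by rw [← derivative_map, hQ]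
  rw [map_div₀, map_pow, map_sub, map_mul, map_mul, O1.map_evalP hP, O1.map_evalP hQ,
    O1.map_evalP hP', O1.map_evalP hQ']

theorem ASym_map_mult {K : Type} [Field K] {P Q : K[X]} {τ : K →+* K} (hP : P.map τ = P)
    (hQ : Q.map τ = Q) (n : ℕ) (x : K) : τ (mult P Q n x) = mult P Q n (τ x) := by
  unfold mult
  rw [map_prod]
  refine Finset.prod_congr rfl fun k _ => ?_
  rw [ASym_map_derivAt hP hQ, O1.map_ev_iter hP hQ]

theorem ASym_XS {K : Type} [Field K] (hB8 : B8S) (P Q : K[X]) (a b : K) (ha : a ≠ 0)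
    (hb : b ≠ 0) (n : ℕ) :
    XS (C (a * b) * P.comp (C a⁻¹ * X)) (C b * Q.comp (C a⁻¹ * X)) n = XS P Q n := by
  ext x
  constructor
  · rintro ⟨z, hz, hx⟩
    obtain ⟨-, h2⟩ := hB8 K P Q a b ha hb (a⁻¹ * z)
    obtain ⟨h3, h4⟩ := h2 n
    rw [mul_inv_cancel_left₀ ha] at h3 h4
    exact ⟨a⁻¹ * z, h3.1 hz, by rw [← h4, hx]⟩
  · rintro ⟨z, hz, hx⟩
    obtain ⟨-, h2⟩ := hB8 K P Q a b ha hb z
    obtain ⟨h3, h4⟩ := h2 n
    exact ⟨a * z, h3.2 hz, by rw [h4, hx]⟩

theorem ASym_exact {κ : Type} (g : κ → κ) (n : ℕ) (hn : n.Prime) (y : κ) (h1 : g^[n] y = y)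
    (h2 : g y ≠ y) (m : ℕ) (hm : 0 < m) (hmn : m < n) : g^[m] y ≠ y := by
  intro h3
  have e1 : Function.IsPeriodicPt g n y := h1
  have e2 : Function.IsPeriodicPt g m y := h3
  have e3 := e1.gcd e2
  have e4 : Nat.gcd n m = 1 := by
    refine (Nat.Prime.coprime_iff_not_dvd hn).2 fun hd => ?_
    exact absurd (Nat.le_of_dvd hm hd) (by omega)
  rw [e4] at e3
  exact h2 e3

theorem ASym_symOn {K : Type} [Field K] [CharZero K] (A X : Set K) (hX : X.Finite)
    (h : ∀ x ∈ X, ∀ y ∈ X, x ≠ y → ∃ τ, Fx A τ ∧ τ x = y ∧ τ y = x ∧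
      ∀ z ∈ X, z ≠ x → z ≠ y → τ z = z) : SymOn A X := by
  classical
  have : Finite X := hX
  have : Fintype X := hX.fintype
  intro π
  induction π using Equiv.Perm.swap_induction_on with
  | one => exact ⟨RingEquiv.refl K, ⟨fun _ _ => rfl, fun _ _ => rfl⟩, fun x => rfl⟩
  | swap_mul f x y hxy ih =>
    obtain ⟨τ, hτ, hτf⟩ := ih
    obtain ⟨τ', hτ', h1, h2, h3⟩ := h x x.2 y y.2 (fun he => hxy (Subtype.ext he))
    refine ⟨τ.trans τ', ⟨fun z hz => ?_, fun z hz => ?_⟩, fun z => ?_⟩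
    · rw [RingEquiv.trans_apply, hτ.1 z hz, hτ'.1 z hz]
    · rw [RingEquiv.trans_apply, hτ.2 z hz, hτ'.2 z hz]
    · rw [RingEquiv.trans_apply, hτf z, Equiv.Perm.mul_apply]
      by_cases hx : f z = x
      · rw [hx, Equiv.swap_apply_left, h1]
      · by_cases hy : f z = y
        · rw [hy, Equiv.swap_apply_right, h2]
        · rw [Equiv.swap_apply_of_ne_of_ne hx hy]
          exact h3 _ (f z).2 (fun he => hx (Subtype.ext he)) (fun he => hy (Subtype.ext he))

theorem ASym_fix {F κ : Type} [Field F] [Field κ] [Algebra F κ] (σ : κ ≃ₐ[F] κ) (S : Set κ)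
    (h : ∀ x ∈ S, σ x = x) : ∀ y ∈ IntermediateField.adjoin F S, σ y = y := by
  intro y hy
  induction hy using IntermediateField.adjoin_induction with
  | mem x hx => exact h x hx
  | algebraMap x => exact σ.commutes x
  | add x y _ _ hx hy => rw [map_add, hx, hy]
  | inv x _ hx => rw [map_inv₀, hx]
  | mul x y _ _ hx hy => rw [map_mul, hx, hy]

theorem ASym_holds (hSR : SRS) (hATs : ATsS) (hM1 : M1S) (hP1 : P1S) (hALift : ALiftS) (hAQ0 : AQ0S) (hAFG : AFGS) (hADst : ADstS) (hAAct : AActS) (hG3 : G3S) (hA1 : A1S) (hA5 : A5S) (hB8 : B8S) : ASymS := by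
  intro K _ _ _ φ d f hd hind A hA
  classical
  obtain ⟨F, a, b, t, s, hF, haF, hbF, ha, hb, hS⟩ := hAQ0 K d f hd hind
  set P1 : K[X] := C (a * b) * f.num.comp (C a⁻¹ * X) with hP1d
  set Q1 : K[X] := C b * f.den.comp (C a⁻¹ * X) with hQ1d
  obtain ⟨κ, _, _, p, t₁, hκ, htr, halg, hFred, hfin, hper⟩ := hSR K F d P1 Q1 t s hS
  have hcκ : CharZero κ := charZero_of_injective_algebraMap (algebraMap F κ).injective
  have hgood := hAFG K d f hd hind
  -- the finite set Y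
  set Y : Finset K := hA.toFinset ∪ Finset.univ.image f.coef with hY
  have hAY : ∀ x ∈ A, x ∈ Y := fun x hx =>
    Finset.mem_union_left _ (hA.mem_toFinset.2 hx)
  have hcY : ∀ i, f.coef i ∈ Y := fun i =>
    Finset.mem_union_right _ (Finset.mem_image_of_mem _ (Finset.mem_univ i))
  obtain ⟨S, hSres⟩ := hfin Y
  obtain ⟨n₀, hn₀⟩ := hATs F κ (φ.comp (algebraMap F K)) t₁ d htr halg hd S
  refine ⟨max n₀ 2, fun n hn hnn => ?_⟩
  have hn1 : 1 ≤ n := hn.one_lt.le
  have hXeq : XS P1 Q1 n = XS f.num f.den n := ASym_XS hB8 f.num f.den a b ha hb n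
  obtain ⟨-, hXfin, -, -⟩ := hG3 K d n f hgood.1 hn1
  set E : IntermediateField F K := IntermediateField.adjoin F (({t, s} : Set K) ∪ Y) with hE
  set E' : IntermediateField F κ := IntermediateField.adjoin F (insert t₁ (S : Set κ)) with hE'
  have hYE : ∀ x ∈ Y, x ∈ E := fun x hx =>
    IntermediateField.subset_adjoin _ _ (Or.inr (by exact_mod_cast hx))
  have hle : IntermediateField.adjoin F ({t, s} : Set K) ≤ E :=
    IntermediateField.adjoin.mono _ _ _ Set.subset_union_left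
  have halgE : ∀ x : K, IsAlgebraic E x := fun x => O1.isAlgebraic_mono hle (hS.alg x)
  obtain ⟨h1, h2, h3⟩ := hper n hn.two_le
  -- reductions of multipliers
  have hred : ∀ z, PerX P1 Q1 n z → p.Red (mult P1 Q1 n z) (Tm d t₁ n (p.rs z)) := fun z hz =>
    (h1 z hz).2.2.2.2
  have hXT : ∀ x ∈ XS f.num f.den n, p.rs x ∈ XT d t₁ n := by
    intro x hx
    rw [← hXeq] at hx
    obtain ⟨z, hz, hzx⟩ := hx
    refine ⟨p.rs z, (h1 z hz).2.1, ?_, ?_⟩
    · exact (h1 z hz).2.2.1 1 one_pos hn.one_lt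
    · rw [← hzx, (hred z hz).rs_eq]
  have hXT' : ∀ y ∈ XT d t₁ n, ∃ x ∈ XS f.num f.den n, p.rs x = y := by
    rintro y ⟨w, hw1, hw2, hw3⟩
    obtain ⟨z, hz, hzw⟩ := h3 w hw1 (fun m hm hmn => ASym_exact _ n hn w hw1 hw2 m hm hmn)
    refine ⟨mult P1 Q1 n z, ?_, ?_⟩
    · rw [← hXeq]
      exact ⟨z, hz, rfl⟩
    · rw [(hred z hz).rs_eq, hzw, hw3]
  have hO : ∀ x ∈ XS f.num f.den n, x ∈ p.O := by
    intro x hx
    rw [← hXeq] at hx
    obtain ⟨z, hz, hzx⟩ := hx
    rw [← hzx]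
    exact (hred z hz).mem
  have hinj : ∀ x ∈ XS f.num f.den n, ∀ x' ∈ XS f.num f.den n, p.rs x = p.rs x' → x = x' := by
    intro x hx x' hx' hxx
    rw [← hXeq] at hx hx'
    obtain ⟨z, hz, hzx⟩ := hx
    obtain ⟨z', hz', hzx'⟩ := hx'
    rw [← hzx, ← hzx', (hred z hz).rs_eq, (hred z' hz').rs_eq] at hxx
    have hm := hM1 F κ t₁ d n htr halg hd hn1 (p.rs z) (p.rs z) (p.rs z') (p.rs z') 1
      (h1 z hz).2.1 (h1 z hz).2.1 (h1 z' hz').2.1 (h1 z' hz').2.1
      (by rw [hxx, map_one, one_mul])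
    have hk : ∃ k, p.rs z' = (T d t₁)^[k] (p.rs z) := by
      rcases hm with ⟨h, -⟩ | ⟨h, -⟩
      · exact h
      · exact h
    obtain ⟨k, hk⟩ := hk
    rw [← (h1 z hz).2.2.2.1 k] at hk
    have hzz := h2 z' ((ev P1 Q1)^[k] z) hz' ((hA5 K P1 Q1 n z hn1 hz).1 k) hk
    rw [← hzx, ← hzx', hzz]
    exact ((hA5 K P1 Q1 n z hn1 hz).2.1 k).symm
  have hinv : ∀ τ : K ≃ₐ[E] K, ∀ x ∈ XS f.num f.den n, τ x ∈ XS f.num f.den n := by
    intro τ x hx
    obtain ⟨z, hz, hzx⟩ := hx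
    have hfixE : ∀ x ∈ E, τ x = x := fun x hx => τ.commutes ⟨x, hx⟩
    have hPm : f.num.map (τ : K →+* K) = f.num := by
      ext i
      rw [coeff_map]
      by_cases hi : i < d + 1
      · exact hfixE _ (hYE _ (hcY (Sum.inl ⟨i, hi⟩)))
      · rw [coeff_eq_zero_of_natDegree_lt (lt_of_le_of_lt f.num_le (by omega)), map_zero]
    have hQm : f.den.map (τ : K →+* K) = f.den := by
      ext i
      rw [coeff_map]
      by_cases hi : i < d + 1
      · exact hfixE _ (hYE _ (hcY (Sum.inr ⟨i, hi⟩)))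
      · rw [coeff_eq_zero_of_natDegree_lt (lt_of_le_of_lt f.den_le (by omega)), map_zero]
    refine ⟨τ z, O1.map_perX hPm hQm n z hz, ?_⟩
    rw [← hzx]
    exact (ASym_map_mult hPm hQm n z).symm
  refine ASym_symOn A _ hXfin fun x hx y hy hxy => ?_
  obtain ⟨σ, hσt, hσS, hσx, hσy, hσz⟩ := hn₀ n hn (le_of_max_le_left hnn) (p.rs x) (hXT x hx)
    (p.rs y) (hXT y hy)
  have hσE : ∀ w ∈ E', σ w = w := by
    refine ASym_fix σ _ fun w hw => ?_
    rcases Set.mem_insert_iff.1 hw with h | h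
    · rw [h, hσt]
    · exact hσS w (by exact_mod_cast h)
  obtain ⟨τ, hτ⟩ := hALift K κ F p E E' hXfin.toFinset halgE
    (fun x y hx hxy => hSres x y hx hxy)
    (fun x hx => hO x (hXfin.mem_toFinset.1 hx))
    (fun x hx x' hx' h => hinj x (hXfin.mem_toFinset.1 hx) x' (hXfin.mem_toFinset.1 hx') h)
    (fun τ x hx => hXfin.mem_toFinset.2 (hinv τ x (hXfin.mem_toFinset.1 hx)))
    σ hσE (fun z hz => by
      by_cases hzx : z = x
      · exact ⟨y, hXfin.mem_toFinset.2 hy, by rw [hzx, hσx]⟩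
      · by_cases hzy : z = y
        · exact ⟨x, hXfin.mem_toFinset.2 hx, by rw [hzy, hσy]⟩
        · refine ⟨z, hz, ?_⟩
          have hzX := hXfin.mem_toFinset.1 hz
          exact hσz _ (hXT z hzX) (fun h => hzx (hinj z hzX x hx h))
            (fun h => hzy (hinj z hzX y hy h)))
  have hfixE : ∀ x ∈ E, τ x = x := fun x hx => τ.commutes ⟨x, hx⟩
  have hτX : ∀ z ∈ XS f.num f.den n, ∀ w ∈ XS f.num f.den n, σ (p.rs z) = p.rs w → τ z = w := by
    intro z hz w hw h
    refine hinj _ (hinv τ z hz) w hw ?_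
    rw [hτ z (hXfin.mem_toFinset.2 hz), h]
  refine ⟨(τ : K ≃+* K), ⟨fun z hz => ?_, fun z hz => ?_⟩, ?_, ?_, ?_⟩
  · have hzF : z ∈ F := ASym_mem_of_isAlgebraic hz
    exact hfixE z (E.algebraMap_mem (⟨z, hzF⟩ : F))
  · exact hfixE z (hYE z (hAY z hz))
  · exact hτX x hx y hy hσx
  · exact hτX y hy x hx hσy
  · intro z hz hzx hzy
    exact hτX z hz z hz (hσz _ (hXT z hz) (fun h => hzx (hinj z hz x hx h))
            (fun h => hzy (hinj z hz y hy h)))

end Pool.Agent.LSF
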