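import Pool.Agent.LSF.BPDefs

/-!
BA1: elementary facts on families of monic polynomials.

Complete proof.
`pf_eval`: `(F s).eval w = ∑ i in range (D+1), (F s).coeff i * w^i` for `s ∈ U`
(`Polynomial.eval_eq_sum_range'`), so it is jointly continuous and, for fixed `w` or along a
differentiable function `w(s)`, differentiable in `s` on the open set `U`; the same for the
derivative polynomial.
`pf_bound`: on a compact `K ⊆ U` the coefficients are bounded by some `C`, so every root `w` of the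
monic polynomial `F s` satisfies `‖w‖ ≤ 1 + D C` (Cauchy bound: if `‖w‖ > 1`,
`‖w‖^D ≤ ∑_{i<D} C ‖w‖^i ≤ D C ‖w‖^(D-1)`).
`pf_root` (local root branch): implicit function theorem for `F(s, w) = (F s).eval w` at
`(s₀, z₀)`, `∂F/∂w ≠ 0`. Mathlib: `ContDiffAt.implicitFunction`.
-/

namespace Pool.Agent.LSF

open Polynomial Metric

theorem ba1_sum {U : Set ℂ} {D : ℕ} {F : ℂ → ℂ[X]} (h : PF U D F) {s : ℂ} (hs : s ∈ U) (w : ℂ) :
    (F s).eval w = ∑ i ∈ Finset.range (D + 1), (F s).coeff i * w ^ i :=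
  eval_eq_sum_range' (by rw [h.deg s hs]; omega) w

theorem ba1_sum' {U : Set ℂ} {D : ℕ} {F : ℂ → ℂ[X]} (h : PF U D F) {s : ℂ} (hs : s ∈ U) (w : ℂ) :
    (derivative (F s)).eval w =
      ∑ i ∈ Finset.range (D + 1), (F s).coeff (i + 1) * ((i : ℂ) + 1) * w ^ i := by
  rw [eval_eq_sum_range' (n := D + 1)
    (by have := natDegree_derivative_le (F s); rw [h.deg s hs] at this; omega) w]
  refine Finset.sum_congr rfl fun i _ => ?_
  rw [coeff_derivative]

theorem pf_eval {U : Set ℂ} {D : ℕ} {F : ℂ → ℂ[X]} (h : PF U D F) {w : ℂ → ℂ} {V : Set ℂ}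
    (hV : V ⊆ U) (hw : DifferentiableOn ℂ w V) :
    DifferentiableOn ℂ (fun s => (F s).eval (w s)) V ∧
    DifferentiableOn ℂ (fun s => (derivative (F s)).eval (w s)) V := by
  constructor
  · have h1 : DifferentiableOn ℂ
        (fun s => ∑ i ∈ Finset.range (D + 1), (F s).coeff i * w s ^ i) V :=
      DifferentiableOn.fun_sum fun i _ => ((h.coeff i).mono hV).mul (hw.pow i)
    exact h1.congr fun s hs => ba1_sum h (hV hs) (w s)
  · have h1 : DifferentiableOn ℂ (fun s =>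
        ∑ i ∈ Finset.range (D + 1), (F s).coeff (i + 1) * ((i : ℂ) + 1) * w s ^ i) V :=
      DifferentiableOn.fun_sum fun i _ =>
        (((h.coeff (i + 1)).mono hV).mul_const ((i : ℂ) + 1)).mul (hw.pow i)
    exact h1.congr fun s hs => ba1_sum' h (hV hs) (w s)

theorem pf_cont {U : Set ℂ} {D : ℕ} {F : ℂ → ℂ[X]} (h : PF U D F) :
    ContinuousOn (fun p : ℂ × ℂ => (F p.1).eval p.2) (U ×ˢ Set.univ) ∧
    ContinuousOn (fun p : ℂ × ℂ => (derivative (F p.1)).eval p.2) (U ×ˢ Set.univ) := by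
  have hc : ∀ i, ContinuousOn (fun p : ℂ × ℂ => (F p.1).coeff i) (U ×ˢ Set.univ) := fun i =>
    (h.coeff i).continuousOn.comp continuousOn_fst fun p hp => hp.1
  constructor
  · have h1 : ContinuousOn (fun p : ℂ × ℂ =>
        ∑ i ∈ Finset.range (D + 1), (F p.1).coeff i * p.2 ^ i) (U ×ˢ Set.univ) :=
      continuousOn_finsetSum _ fun i _ => (hc i).mul (continuousOn_snd.pow i)
    exact h1.congr fun p hp => ba1_sum h hp.1 p.2
  · have h1 : ContinuousOn (fun p : ℂ × ℂ =>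
        ∑ i ∈ Finset.range (D + 1), (F p.1).coeff (i + 1) * ((i : ℂ) + 1) * p.2 ^ i)
        (U ×ˢ Set.univ) :=
      continuousOn_finsetSum _ fun i _ =>
        ((hc (i + 1)).mul continuousOn_const).mul (continuousOn_snd.pow i)
    exact h1.congr fun p hp => ba1_sum' h hp.1 p.2

theorem pf_bound {U : Set ℂ} {D : ℕ} {F : ℂ → ℂ[X]} (h : PF U D F) (K : Set ℂ)
    (hK : IsCompact K) (hKU : K ⊆ U) : ∃ C : ℝ, ∀ s ∈ K, ∀ w, (F s).eval w = 0 → ‖w‖ ≤ C := by
  have h1 : ∀ i, ∃ C : ℝ, ∀ s ∈ K, ‖(F s).coeff i‖ ≤ C := fun i =>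
    hK.exists_bound_of_continuousOn ((h.coeff i).continuousOn.mono hKU)
  choose c hc using h1
  refine ⟨∑ i ∈ Finset.range D, |c i| + 1, fun s hs w hw => ?_⟩
  have hm := h.monic s (hKU hs)
  have hw0 := (IsRoot.norm_lt_cauchyBound hm.ne_zero (show (F s).IsRoot w from hw)).le
  have hw1 : ‖w‖ ≤ (cauchyBound (F s) : ℝ) := by exact_mod_cast hw0
  have hw2 : (cauchyBound (F s) : ℝ) ≤ ∑ i ∈ Finset.range D, |c i| + 1 := by
    unfold cauchyBound
    rw [hm.leadingCoeff, h.deg s (hKU hs)]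
    push_cast
    obtain ⟨B, hB⟩ : ∃ B : NNReal, (B : ℝ) = ∑ i ∈ Finset.range D, |c i| :=
      ⟨Real.toNNReal (∑ i ∈ Finset.range D, |c i|),
        Real.coe_toNNReal _ (Finset.sum_nonneg fun _ _ => abs_nonneg _)⟩
    have h2 : ((Finset.range D).sup fun i => ‖(F s).coeff i‖₊) ≤ B := by
      refine Finset.sup_le fun i hi => ?_
      have h4 : ((‖(F s).coeff i‖₊ : NNReal) : ℝ) ≤ (B : ℝ) := by
        rw [hB, coe_nnnorm]
        refine ((hc i s hs).trans (le_abs_self _)).trans ?_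
        exact Finset.single_le_sum (f := fun i => |c i|) (fun _ _ => abs_nonneg _) hi
      exact_mod_cast h4
    have h3 : (((Finset.range D).sup fun i => ‖(F s).coeff i‖₊ : NNReal) : ℝ) ≤
        ∑ i ∈ Finset.range D, |c i| := by
      rw [← hB]
      exact_mod_cast h2
    simpa using h3
  exact hw1.trans hw2

theorem pf_root {U : Set ℂ} {D : ℕ} {F : ℂ → ℂ[X]} (hU : IsOpen U) (h : PF U D F) (s₀ z₀ : ℂ)
    (hs : s₀ ∈ U) (hz : (F s₀).eval z₀ = 0) (hd : (derivative (F s₀)).eval z₀ ≠ 0) :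
    ∃ r > 0, ∃ ε > 0, ball s₀ r ⊆ U ∧ ∃ z : ℂ → ℂ, DifferentiableOn ℂ z (ball s₀ r) ∧
      z s₀ = z₀ ∧ ∀ s ∈ ball s₀ r, ‖z s - z₀‖ < ε ∧ (F s).eval (z s) = 0 ∧
        (derivative (F s)).eval (z s) ≠ 0 ∧
        ∀ w, ‖w - z₀‖ < ε → (F s).eval w = 0 → w = z s := by
  set f : ℂ × ℂ → ℂ := fun p => ∑ i ∈ Finset.range (D + 1), (F p.1).coeff i * p.2 ^ i with hf
  set u : ℂ × ℂ := (s₀, z₀) with hu
  have hfe : ∀ s ∈ U, ∀ w, f (s, w) = (F s).eval w := fun s hs w => (ba1_sum h hs w).symm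
  have hcd : ContDiffAt ℂ 1 f u := by
    have h1 : ∀ i, ContDiffAt ℂ 1 (fun p : ℂ × ℂ => (F p.1).coeff i) u := by
      intro i
      have h2 : ContDiffAt ℂ 1 (fun s => (F s).coeff i) s₀ :=
        ((h.coeff i).analyticAt (hU.mem_nhds hs)).contDiffAt
      exact ContDiffAt.comp (g := fun s => (F s).coeff i) (f := Prod.fst) u h2 contDiffAt_fst
    exact ContDiffAt.sum fun i _ => (h1 i).mul (contDiffAt_snd.pow i)
  have hval : (fderiv ℂ f u ∘L .inr ℂ ℂ ℂ) 1 = (derivative (F s₀)).eval z₀ := by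
    have h1 : HasFDerivAt f (fderiv ℂ f u) u := (hcd.differentiableAt one_ne_zero).hasFDerivAt
    have h2 : HasDerivAt (fun w : ℂ => ((s₀, w) : ℂ × ℂ)) ((0, 1) : ℂ × ℂ) z₀ :=
      (hasDerivAt_const z₀ s₀).prodMk (hasDerivAt_id z₀)
    have h3 : HasDerivAt (fun w : ℂ => f (s₀, w)) (fderiv ℂ f u (0, 1)) z₀ :=
      HasFDerivAt.comp_hasDerivAt (f := fun w : ℂ => ((s₀, w) : ℂ × ℂ)) z₀ h1 h2
    have h4 : (fun w : ℂ => f (s₀, w)) = fun w => (F s₀).eval w := by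
      funext w
      exact hfe s₀ hs w
    rw [h4] at h3
    have h5 := h3.unique ((F s₀).hasDerivAt z₀)
    rw [← h5]
    rfl
  have hinv : (fderiv ℂ f u ∘L .inr ℂ ℂ ℂ).IsInvertible := by
    refine ⟨ContinuousLinearEquiv.unitsEquivAut ℂ (Units.mk0 _ hd), ?_⟩
    apply ContinuousLinearMap.ext_ring
    rw [hval]
    simp
  obtain ⟨ψ, hψ⟩ : ∃ ψ, ψ = hcd.implicitFunction one_ne_zero hinv := ⟨_, rfl⟩
  have e1 : ψ s₀ = z₀ := by
    rw [hψ]
    exact hcd.implicitFunction_apply_self one_ne_zero hinv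
  have e2 : ContDiffAt ℂ 1 ψ s₀ := by
    rw [hψ]
    exact hcd.contDiffAt_implicitFunction one_ne_zero hinv
  have e3 : ∀ᶠ x in nhds s₀, ContDiffAt ℂ 1 ψ x := e2.eventually (by simp)
  have e4 : ∀ᶠ v in nhds u, f v = f u ↔ ψ v.1 = v.2 := by
    rw [hψ]
    exact hcd.eventually_apply_eq_iff_implicitFunction one_ne_zero hinv
  have hfu : f u = 0 := by
    rw [hu, hfe s₀ hs, hz]
  have e5 : ∀ᶠ v in nhds u, v.1 ∈ U := by
    have : Filter.Tendsto Prod.fst (nhds u) (nhds s₀) := continuous_fst.continuousAt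
    exact this.eventually (hU.mem_nhds hs)
  have e6 : ∀ᶠ v in nhds u, (derivative (F v.1)).eval v.2 ≠ 0 := by
    have h1 : ContinuousAt (fun p : ℂ × ℂ => (derivative (F p.1)).eval p.2) u :=
      (pf_cont h).2.continuousAt ((hU.prod isOpen_univ).mem_nhds ⟨hs, trivial⟩)
    exact h1.eventually_ne hd
  obtain ⟨ε, hε, hball⟩ := Metric.eventually_nhds_iff_ball.1 (e4.and (e5.and e6))
  have e7 : ∀ᶠ s in nhds s₀, ψ s ∈ ball z₀ ε := by
    have h1 := e2.continuousAt.tendsto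
    rw [e1] at h1
    exact h1.eventually (ball_mem_nhds z₀ hε)
  obtain ⟨r, hr, hball2⟩ := Metric.eventually_nhds_iff_ball.1
    (e3.and (e7.and (ball_mem_nhds s₀ hε)))
  have key : ∀ s ∈ ball s₀ r, ∀ w ∈ ball z₀ ε,
      (f (s, w) = f u ↔ ψ s = w) ∧ s ∈ U ∧ (derivative (F s)).eval w ≠ 0 := by
    intro s hs' w hw
    have h1 : (s, w) ∈ ball u ε := by
      rw [hu, ← ball_prod_same]
      exact ⟨(hball2 s hs').2.2, hw⟩
    exact hball (s, w) h1
  refine ⟨r, hr, ε, hε, fun s hs' => (key s hs' z₀ (mem_ball_self hε)).2.1, ψ, ?_, e1, ?_⟩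
  · intro s hs'
    exact ((hball2 s hs').1.differentiableAt one_ne_zero).differentiableWithinAt
  · intro s hs'
    have hψs := (hball2 s hs').2.1
    obtain ⟨k1, k2, k3⟩ := key s hs' (ψ s) hψs
    refine ⟨?_, ?_, k3, ?_⟩
    · rw [← dist_eq_norm]
      exact mem_ball.1 hψs
    · rw [← hfe s k2, k1.2 rfl, hfu]
    · intro w hw1 hw2
      have hw3 : w ∈ ball z₀ ε := by
        rw [mem_ball, dist_eq_norm]
        exact hw1
      obtain ⟨m1, m2, m3⟩ := key s hs' w hw3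
      refine (m1.1 ?_).symm
      rw [hfe s m2, hw2, hfu]

end Pool.Agent.LSF
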