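import Pool.Agent.LSF.BA1

/-!
BA2: a holomorphic discriminant; continuity of roots.

Complete proof.
`pf_disc`: let `g s := ∏_{i} (derivative (F s)).eval (ζ_i)` over the roots `ζ_i` of `F s` with
multiplicity, i.e. the resultant of `F s` and its derivative (as forms of degrees `D`, `D - 1`),
a polynomial in the coefficients: `Polynomial.resultant (F s) (derivative (F s)) D (D-1)` is a
determinant of coefficients (holomorphic on `U`) and equals that product for the monic `F s`
(`Polynomial.resultant_eq_prod_eval` or similar; or use the discriminant `Polynomial.discr`).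
It is nonzero iff no root is a root of the derivative iff the roots are simple
(`Polynomial.nodup_roots_iff..`, `Polynomial.nodup_roots`, `Polynomial.separable`). If the
library facts on resultants are inconvenient: alternative: `g` := the constant coefficient up to
sign of the characteristic polynomial of the matrix `(derivative (F s)).aeval (companion matrix of
F s)`, i.e. `det ((derivative (F s)) evaluated at the companion matrix)`.
`pf_cont_roots` (continuity of roots, one root): if `w₀` is a root of `F e`, `e ∈ U`, then for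
every `ε > 0` for all `s` near `e` the polynomial `F s` has a root in `ball w₀ ε`: otherwise
`‖(F s).eval w₀‖ = ∏ ‖w₀ - ζ_i‖ ≥ ε^D` for some `s` arbitrarily close to `e`, but it tends to `0`.
`pf_close`: for every `ε > 0`, for `s` near `e` every root `w` of `F s` is within `ε` of a root of
`F e`: `∏ ‖w - ζ_i(e)‖ = ‖(F e).eval w‖ = ‖(F e).eval w - (F s).eval w‖ → 0` uniformly for bounded
`w` (`pf_bound` on a small closed ball).
`pf_count`: let `w₀` be a root of `F e` of multiplicity `μ` (`rootMultiplicity`), `ε > 0` such that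
`F e` has no other root in `closedBall w₀ ε`. Then for `s` near `e`, `F s` has exactly `μ` roots
(with multiplicity) in `ball w₀ ε`: sequences/compactness: the multiset of roots of `F s` is
bounded; for a sequence `s_k → e` pass to a subsequence where the roots, listed as vectors in
`ℂ^D`, converge to a vector, whose entries are the roots of `F e` (`∏ (X - C ζ_i)` is continuous in
`ζ` and the coefficients converge). If the count were not `μ` for arbitrarily close `s`, take a
sequence and get a contradiction (number of entries in `ball w₀ ε` converges because no limit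
entry lies on the circle; entries in the ball tend to `w₀`).
-/

namespace Pool.Agent.LSF

open Polynomial Metric Filter

theorem ba2_prod_ge (m : Multiset ℝ) (a : ℝ) (ha : 0 ≤ a) (h : ∀ x ∈ m, a ≤ x) :
    a ^ Multiset.card m ≤ m.prod := by
  induction m using Multiset.induction_on with
  | empty => simp
  | cons x m ih =>
    rw [Multiset.card_cons, Multiset.prod_cons, pow_succ, mul_comm]
    have h1 := ih fun y hy => h y (Multiset.mem_cons_of_mem hy)
    have h2 := h x (Multiset.mem_cons_self x m)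
    exact mul_le_mul h2 h1 (by positivity) (ha.trans h2)

theorem ba2_near (P : ℂ[X]) (D : ℕ) (hP : P.Monic) (hD : P.natDegree = D) (hpos : D ≠ 0)
    (ζ : ℂ) : ∃ w, P.eval w = 0 ∧ ‖w - ζ‖ ^ D ≤ ‖P.eval ζ‖ := by
  classical
  have hs : P.Splits := IsAlgClosed.splits P
  have hcard : Multiset.card P.roots = D := by rw [← hs.natDegree_eq_card_roots, hD]
  have hne : P.roots.toFinset.Nonempty := by
    rw [Multiset.toFinset_nonempty]
    intro h0
    rw [h0, Multiset.card_zero] at hcard
    exact hpos hcard.symm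
  obtain ⟨w, hw, hmin⟩ := Finset.exists_min_image P.roots.toFinset (fun w => ‖w - ζ‖) hne
  rw [Multiset.mem_toFinset, mem_roots hP.ne_zero] at hw
  refine ⟨w, hw, ?_⟩
  have h1 : ‖P.eval ζ‖ = (P.roots.map (fun x => ‖x - ζ‖)).prod := by
    rw [hs.eval_eq_prod_roots_of_monic hP]
    have h2 : ∀ m : Multiset ℂ, ‖(m.map (ζ - ·)).prod‖ = (m.map (fun x => ‖x - ζ‖)).prod := by
      intro m
      induction m using Multiset.induction_on with
      | empty => simp
      | cons x m ih =>
        rw [Multiset.map_cons, Multiset.prod_cons, norm_mul, ih, Multiset.map_cons,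
          Multiset.prod_cons, norm_sub_rev]
    exact h2 _
  have h3 := ba2_prod_ge (P.roots.map (fun x => ‖x - ζ‖)) ‖w - ζ‖ (norm_nonneg _) (by
    intro y hy
    obtain ⟨x, hx, rfl⟩ := Multiset.mem_map.1 hy
    exact hmin x (Multiset.mem_toFinset.2 hx))
  rw [Multiset.card_map, hcard] at h3
  rw [h1]
  exact h3

theorem ba2_no_root {P : ℂ[X]} (hP : P.Monic) (hD : P.natDegree = 0) (w : ℂ) :
    P.eval w ≠ 0 := by
  have h1 : P = 1 := eq_one_of_monic_natDegree_zero hP hD
  rw [h1, eval_one]
  exact one_ne_zero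

theorem ba2_det {n : ℕ} {U : Set ℂ} (M : ℂ → Matrix (Fin n) (Fin n) ℂ)
    (h : ∀ i j, DifferentiableOn ℂ (fun s => M s i j) U) :
    DifferentiableOn ℂ (fun s => (M s).det) U := by
  simp only [Matrix.det_apply]
  refine DifferentiableOn.fun_sum fun σ _ => ?_
  have h1 : DifferentiableOn ℂ (fun s => ∏ i, M s (σ i) i) U :=
    DifferentiableOn.fun_finsetProd fun i _ => h (σ i) i
  exact h1.const_smul _

theorem pf_disc {U : Set ℂ} {D : ℕ} {F : ℂ → ℂ[X]} (h : PF U D F) :
    ∃ g : ℂ → ℂ, DifferentiableOn ℂ g U ∧ ∀ s ∈ U, (g s ≠ 0 ↔ (F s).roots.Nodup) := by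
  refine ⟨fun s => resultant (F s) (derivative (F s)) D D, ?_, ?_⟩
  · refine ba2_det _ fun i j => ?_
    have hc : ∀ k, DifferentiableOn ℂ (fun s => (derivative (F s)).coeff k) U := by
      intro k
      simp only [coeff_derivative]
      exact (h.coeff (k + 1)).mul_const _
    refine Fin.addCases (fun j₁ => ?_) (fun j₁ => ?_) j
    · simp only [sylvester, Matrix.of_apply, Fin.addCases_left]
      split_ifs
      · exact hc _
      · exact differentiableOn_const _
    · simp only [sylvester, Matrix.of_apply, Fin.addCases_right]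
      split_ifs
      · exact h.coeff _
      · exact differentiableOn_const _
  · intro s hs
    have hm := h.monic s hs
    have hd := h.deg s hs
    have hsp : (F s).Splits := IsAlgClosed.splits _
    have h1 : resultant (F s) (derivative (F s)) D D =
        ((F s).roots.map (derivative (F s)).eval).prod := by
      have h2 := resultant_eq_prod_eval (F s) (derivative (F s)) D
        ((natDegree_derivative_le _).trans (by rw [hd]; omega)) hsp
      rw [hd, hm.leadingCoeff, one_pow, one_mul] at h2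
      exact h2
    show resultant (F s) (derivative (F s)) D D ≠ 0 ↔ _
    rw [h1, Ne, Multiset.prod_eq_zero_iff, Multiset.nodup_iff_count_le_one]
    constructor
    · intro h2 a
      rw [count_roots]
      by_contra h3
      push Not at h3
      obtain ⟨h4, h5⟩ := (one_lt_rootMultiplicity_iff_isRoot hm.ne_zero).1 h3
      exact h2 (Multiset.mem_map.2 ⟨a, (mem_roots hm.ne_zero).2 h4, h5⟩)
    · intro h2 h3
      obtain ⟨a, ha, hb⟩ := Multiset.mem_map.1 h3
      have h4 := h2 a
      rw [count_roots] at h4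
      have h5 := (one_lt_rootMultiplicity_iff_isRoot hm.ne_zero).2
        ⟨(mem_roots hm.ne_zero).1 ha, hb⟩
      omega

theorem ba2_tendsto {U : Set ℂ} {D : ℕ} {F : ℂ → ℂ[X]} (hU : IsOpen U) (h : PF U D F)
    {e : ℂ} (he : e ∈ U) (i : ℕ) :
    Tendsto (fun s => (F s).coeff i) (nhds e) (nhds ((F e).coeff i)) :=
  ((h.coeff i).differentiableAt (hU.mem_nhds he)).continuousAt.tendsto

theorem ba2_eval_tendsto {α : Type*} {l : Filter α} {D : ℕ} {F : α → ℂ[X]} {G : ℂ[X]}
    (hF : ∀ᶠ s in l, (F s).natDegree = D) (hG : G.natDegree = D)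
    (hc : ∀ i, Tendsto (fun s => (F s).coeff i) l (nhds (G.coeff i))) (z : ℂ) :
    Tendsto (fun s => (F s).eval z) l (nhds (G.eval z)) := by
  have h1 : Tendsto (fun s => ∑ i ∈ Finset.range (D + 1), (F s).coeff i * z ^ i) l
      (nhds (∑ i ∈ Finset.range (D + 1), G.coeff i * z ^ i)) :=
    tendsto_finsetSum _ fun i _ => (hc i).mul_const _
  rw [eval_eq_sum_range' (n := D + 1) (by omega)]
  refine h1.congr' ?_
  filter_upwards [hF] with s hs
  rw [eval_eq_sum_range' (n := D + 1) (by omega)]

theorem pf_cont_roots {U : Set ℂ} {D : ℕ} {F : ℂ → ℂ[X]} (hU : IsOpen U) (h : PF U D F)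
    (e w₀ : ℂ) (he : e ∈ U) (hw : (F e).eval w₀ = 0) (ε : ℝ) (hε : 0 < ε) :
    ∀ᶠ s in nhds e, ∃ w ∈ ball w₀ ε, (F s).eval w = 0 := by
  have hD : D ≠ 0 := by
    intro h0
    exact ba2_no_root (h.monic e he) (by rw [h.deg e he, h0]) w₀ hw
  have hUe : ∀ᶠ s in nhds e, s ∈ U := hU.mem_nhds he
  have h1 := ba2_eval_tendsto (hUe.mono fun s hs => h.deg s hs) (h.deg e he)
    (fun i => ba2_tendsto hU h he i) w₀
  rw [hw] at h1
  have h2 : ∀ᶠ s in nhds e, ‖(F s).eval w₀‖ < ε ^ D := by
    have h3 := h1.norm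
    rw [norm_zero] at h3
    exact h3.eventually_lt_const (by positivity)
  filter_upwards [hUe, h2] with s hs hs2
  obtain ⟨w, hw1, hw2⟩ := ba2_near (F s) D (h.monic s hs) (h.deg s hs) hD w₀
  refine ⟨w, ?_, hw1⟩
  rw [mem_ball, dist_eq_norm]
  exact lt_of_pow_lt_pow_left₀ D hε.le (hw2.trans_lt hs2)

theorem pf_close {U : Set ℂ} {D : ℕ} {F : ℂ → ℂ[X]} (hU : IsOpen U) (h : PF U D F)
    (e : ℂ) (he : e ∈ U) (ε : ℝ) (hε : 0 < ε) :
    ∀ᶠ s in nhds e, ∀ w, (F s).eval w = 0 → ∃ w₀, (F e).eval w₀ = 0 ∧ ‖w - w₀‖ < ε := by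
  have hUe : ∀ᶠ s in nhds e, s ∈ U := hU.mem_nhds he
  by_cases hD : D = 0
  · filter_upwards [hUe] with s hs w hw
    exact absurd hw (ba2_no_root (h.monic s hs) (by rw [h.deg s hs, hD]) w)
  obtain ⟨r, hr, hrU⟩ := Metric.nhds_basis_closedBall.mem_iff.1 (hU.mem_nhds he)
  obtain ⟨C, hC⟩ := pf_bound h (closedBall e r) (isCompact_closedBall e r) hrU
  have h1 : Tendsto (fun s => ∑ i ∈ Finset.range (D + 1),
      ‖(F e).coeff i - (F s).coeff i‖ * |C| ^ i) (nhds e) (nhds 0) := by
    have h2 : Tendsto (fun s => ∑ i ∈ Finset.range (D + 1),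
        ‖(F e).coeff i - (F s).coeff i‖ * |C| ^ i) (nhds e)
        (nhds (∑ i ∈ Finset.range (D + 1), ‖(F e).coeff i - (F e).coeff i‖ * |C| ^ i)) :=
      tendsto_finsetSum _ fun i _ =>
        ((tendsto_const_nhds.sub (ba2_tendsto hU h he i)).norm).mul_const _
    simpa using h2
  have h2 : ∀ᶠ s in nhds e, ∑ i ∈ Finset.range (D + 1),
      ‖(F e).coeff i - (F s).coeff i‖ * |C| ^ i < ε ^ D :=
    h1.eventually_lt_const (by positivity)
  filter_upwards [hUe, h2, closedBall_mem_nhds e hr] with s hs hs2 hs3 w hw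
  obtain ⟨w₀, hw1, hw2⟩ := ba2_near (F e) D (h.monic e he) (h.deg e he) hD w
  refine ⟨w₀, hw1, ?_⟩
  have hwC : ‖w‖ ≤ |C| := (hC s hs3 w hw).trans (le_abs_self C)
  have h3 : ‖(F e).eval w‖ ≤ ∑ i ∈ Finset.range (D + 1),
      ‖(F e).coeff i - (F s).coeff i‖ * |C| ^ i := by
    have h4 : (F e).eval w = ∑ i ∈ Finset.range (D + 1),
        ((F e).coeff i - (F s).coeff i) * w ^ i := by
      have h5 : (F e).eval w = (F e).eval w - (F s).eval w := by rw [hw, sub_zero]
      rw [h5, eval_eq_sum_range' (n := D + 1) (by rw [h.deg e he]; omega),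
        eval_eq_sum_range' (n := D + 1) (by rw [h.deg s hs]; omega), ← Finset.sum_sub_distrib]
      exact Finset.sum_congr rfl fun i _ => by ring
    rw [h4]
    refine (norm_sum_le _ _).trans (Finset.sum_le_sum fun i _ => ?_)
    rw [norm_mul, norm_pow]
    exact mul_le_mul_of_nonneg_left (pow_le_pow_left₀ (norm_nonneg _) hwC i) (norm_nonneg _)
  rw [norm_sub_rev]
  exact lt_of_pow_lt_pow_left₀ D hε.le (hw2.trans_lt (h3.trans_lt hs2))

/-- the number of roots near a root of the limit, for a filter -/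
theorem ba2_count {α : Type*} (l : Filter α) (w₀ : ℂ) (ε : ℝ) (hε : 0 < ε) :
    ∀ (D : ℕ) (F : α → ℂ[X]) (G : ℂ[X]), (∀ᶠ s in l, (F s).Monic ∧ (F s).natDegree = D) →
      G.Monic → G.natDegree = D →
      (∀ i, Tendsto (fun s => (F s).coeff i) l (nhds (G.coeff i))) →
      (∀ w ∈ closedBall w₀ ε, G.eval w = 0 → w = w₀) →
      ∀ᶠ s in l, Multiset.card ((F s).roots.filter (fun w => ‖w - w₀‖ < ε)) =
        G.rootMultiplicity w₀ := by
  classical
  intro D
  induction D with
  | zero =>
    intro F G hF hG hGd _ _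
    have h1 : G = 1 := eq_one_of_monic_natDegree_zero hG hGd
    filter_upwards [hF] with s hs
    have h2 : F s = 1 := eq_one_of_monic_natDegree_zero hs.1 hs.2
    have h3 : (F s).roots = 0 := by
      rw [h2, roots_one]
      rfl
    rw [h3, Multiset.filter_zero, Multiset.card_zero, h1]
    symm
    apply rootMultiplicity_eq_zero
    simp
  | succ D ih =>
    intro F G hF hG hGd hc hw
    obtain ⟨ζ, hζ⟩ : ∃ ζ, G.IsRoot ζ := IsAlgClosed.exists_root G (by
      rw [degree_eq_natDegree hG.ne_zero, hGd]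
      exact_mod_cast Nat.succ_ne_zero D)
    have hex : ∀ s, ∃ w, ((F s).Monic ∧ (F s).natDegree = D + 1) →
        (F s).eval w = 0 ∧ ‖w - ζ‖ ^ (D + 1) ≤ ‖(F s).eval ζ‖ := by
      intro s
      by_cases hs : (F s).Monic ∧ (F s).natDegree = D + 1
      · obtain ⟨w, hw1⟩ := ba2_near (F s) (D + 1) hs.1 hs.2 (Nat.succ_ne_zero D) ζ
        exact ⟨w, fun _ => hw1⟩
      · exact ⟨0, fun h => absurd h hs⟩
    choose w hwr using hex
    have hev := ba2_eval_tendsto (hF.mono fun s hs => hs.2) hGd hc ζ
    have hζ0 : G.eval ζ = 0 := hζ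
    rw [hζ0] at hev
    have hwt : Tendsto w l (nhds ζ) := by
      rw [Metric.tendsto_nhds]
      intro δ hδ
      have h3 := hev.norm
      rw [norm_zero] at h3
      have h4 : ∀ᶠ s in l, ‖(F s).eval ζ‖ < δ ^ (D + 1) :=
        h3.eventually_lt_const (by positivity)
      filter_upwards [hF, h4] with s hs hs2
      rw [dist_eq_norm]
      exact lt_of_pow_lt_pow_left₀ (D + 1) hδ.le (((hwr s hs).2).trans_lt hs2)
    have hGf : (X - C ζ) * (G /ₘ (X - C ζ)) = G := mul_divByMonic_eq_iff_isRoot.2 hζ
    have hG' : (G /ₘ (X - C ζ)).Monic := by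
      refine (monic_X_sub_C ζ).of_mul_monic_left ?_
      rw [hGf]
      exact hG
    have hGd' : (G /ₘ (X - C ζ)).natDegree = D := by
      rw [natDegree_divByMonic _ (monic_X_sub_C ζ), natDegree_X_sub_C, hGd]
      omega
    have hFf : ∀ s, (F s).Monic ∧ (F s).natDegree = D + 1 →
        (X - C (w s)) * (F s /ₘ (X - C (w s))) = F s :=
      fun s hs => mul_divByMonic_eq_iff_isRoot.2 (hwr s hs).1
    have hF' : ∀ᶠ s in l, (F s /ₘ (X - C (w s))).Monic ∧
        (F s /ₘ (X - C (w s))).natDegree = D := by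
      filter_upwards [hF] with s hs
      constructor
      · refine (monic_X_sub_C (w s)).of_mul_monic_left ?_
        rw [hFf s hs]
        exact hs.1
      · rw [natDegree_divByMonic _ (monic_X_sub_C (w s)), natDegree_X_sub_C, hs.2]
        omega
    have hc' : ∀ i, Tendsto (fun s => (F s /ₘ (X - C (w s))).coeff i) l
        (nhds ((G /ₘ (X - C ζ)).coeff i)) := by
      intro i
      rw [coeff_divByMonic_X_sub_C, hGd]
      have h5 : Tendsto (fun s => ∑ j ∈ Finset.Icc (i + 1) (D + 1),
          (w s) ^ (j - (i + 1)) * (F s).coeff j) l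
          (nhds (∑ j ∈ Finset.Icc (i + 1) (D + 1), ζ ^ (j - (i + 1)) * G.coeff j)) :=
        tendsto_finsetSum _ fun j _ => (hwt.pow _).mul (hc j)
      refine h5.congr' ?_
      filter_upwards [hF] with s hs
      rw [coeff_divByMonic_X_sub_C, hs.2]
    have hw' : ∀ w ∈ closedBall w₀ ε, (G /ₘ (X - C ζ)).eval w = 0 → w = w₀ := by
      intro w hwb hw0
      apply hw w hwb
      rw [← hGf, eval_mul, hw0, mul_zero]
    have hih := ih (fun s => F s /ₘ (X - C (w s))) (G /ₘ (X - C ζ)) hF' hG' hGd' hc' hw'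
    have hmul : G.rootMultiplicity w₀ =
        (if w₀ = ζ then 1 else 0) + (G /ₘ (X - C ζ)).rootMultiplicity w₀ := by
      conv_lhs => rw [← hGf]
      rw [rootMultiplicity_mul (by rw [hGf]; exact hG.ne_zero), rootMultiplicity_X_sub_C]
    have hone : ∀ᶠ s in l, (if ‖w s - w₀‖ < ε then 1 else 0) = (if w₀ = ζ then 1 else 0) := by
      by_cases hζw : w₀ = ζ
      · rw [if_pos hζw]
        rw [← hζw] at hwt
        filter_upwards [hwt (ball_mem_nhds w₀ hε)] with s hs
        rw [if_pos]
        have : w s ∈ ball w₀ ε := hs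
        rwa [mem_ball, dist_eq_norm] at this
      · rw [if_neg hζw]
        have h6 : ζ ∉ closedBall w₀ ε := fun h7 => hζw (hw ζ h7 hζ0).symm
        filter_upwards [hwt (isClosed_closedBall.isOpen_compl.mem_nhds h6)] with s hs
        rw [if_neg]
        intro h8
        have h9 : w s ∈ (closedBall w₀ ε)ᶜ := hs
        apply h9
        rw [mem_closedBall, dist_eq_norm]
        exact h8.le
    filter_upwards [hF, hih, hone] with s hs hs1 hs2
    rw [hmul, ← hs1, ← hs2]
    have h10 : (F s).roots = w s ::ₘ (F s /ₘ (X - C (w s))).roots := by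
      conv_lhs => rw [← hFf s hs]
      rw [roots_mul (by rw [hFf s hs]; exact hs.1.ne_zero), roots_X_sub_C,
        Multiset.singleton_add]
    rw [h10, Multiset.filter_cons, Multiset.card_add]
    congr 1
    split_ifs <;> simp

theorem pf_count {U : Set ℂ} {D : ℕ} {F : ℂ → ℂ[X]} (hU : IsOpen U) (h : PF U D F)
    (e w₀ : ℂ) (he : e ∈ U) (ε : ℝ) (hε : 0 < ε)
    (hw : ∀ w ∈ closedBall w₀ ε, (F e).eval w = 0 → w = w₀) :
    ∀ᶠ s in nhds e, Multiset.card ((F s).roots.filter (fun w => ‖w - w₀‖ < ε)) =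
      (F e).rootMultiplicity w₀ := by
  have hUe : ∀ᶠ s in nhds e, s ∈ U := hU.mem_nhds he
  exact ba2_count (nhds e) w₀ ε hε D F (F e)
    (hUe.mono fun s hs => ⟨h.monic s hs, h.deg s hs⟩) (h.monic e he) (h.deg e he)
    (fun i => ba2_tendsto hU h he i) hw

end Pool.Agent.LSF
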