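import Mathlib

/-!
BA3 (RC): a holomorphic function on a disc that extends near every boundary point extends to a
larger disc.

Complete proof. Cover the compact sphere `S = sphere c ρ` by the balls `ball e (r e)`; by the
Lebesgue number lemma (`lebesgue_number_lemma_of_metric`) there is `δ > 0` (`δ < ρ`) such that for
every `x ∈ S` the ball `ball x δ` is contained in some `ball (e x) (r (e x))`. So for every `x ∈ S`
there is a holomorphic function `h_x` on `ball x δ` that agrees with `g` on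
`ball x δ ∩ ball c ρ`. For `x, y ∈ S` with `ball x (δ/2) ∩ ball y (δ/2) ≠ ∅`: `‖x - y‖ < δ`, and
`h_x = h_y` on the convex set `ball x δ ∩ ball y δ`, because this open connected set contains a
point `p` of the open ball `ball c ρ` (the point `(1 - t) x + t c`, `t > 0` small: it is in
`ball x δ`, in `ball c ρ`, and near `x ∈ ball y δ`), near which both are equal to `g` (identity
theorem, `DifferentiableOn.analyticOn`, `AnalyticOnNhd.eqOn_of_preconnected_of_eventuallyEq`).
For `s` with `ρ ≤ ‖s - c‖ < ρ + δ/2` let `x(s) := c + ρ (s - c)/‖s - c‖ ∈ S`,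
`‖s - x(s)‖ < δ/2`; define `G s := h_{x(s)} s` for such `s`, and `G s := g s` for
`s ∈ ball c ρ`. Then `ρ' := ρ + δ/2`. `G` is holomorphic on `ball c ρ'`: at `s₀ ∈ ball c ρ` clear
(open). At `s₀` with `‖s₀ - c‖ ≥ ρ`: for `s` near `s₀`, `G s = h_{x(s₀)} s`: if `‖s - c‖ < ρ` since
`h_{x(s₀)} = g` there; else `s ∈ ball (x s) (δ/2) ∩ ball (x s₀) (δ/2)` (for `s` near `s₀`), so
`h_{x(s)} s = h_{x(s₀)} s`.
-/

namespace Pool.Agent.LSF

open Metric

/-- the radial projection to the sphere -/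
noncomputable def ba3_proj (c : ℂ) (ρ : ℝ) (s : ℂ) : ℂ := c + ((ρ / ‖s - c‖ : ℝ) : ℂ) * (s - c)

theorem ba3_proj_mem (c : ℂ) (ρ : ℝ) (hρ : 0 < ρ) (s : ℂ) (hs : s ∉ ball c ρ) :
    ba3_proj c ρ s ∈ sphere c ρ ∧ ‖s - ba3_proj c ρ s‖ = ‖s - c‖ - ρ := by
  have h1 : ρ ≤ ‖s - c‖ := by
    rw [mem_ball, dist_eq_norm, not_lt] at hs
    exact hs
  have h2 : 0 < ‖s - c‖ := hρ.trans_le h1
  constructor
  · rw [mem_sphere, dist_eq_norm, ba3_proj, add_sub_cancel_left, norm_mul, Complex.norm_real,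
      Real.norm_of_nonneg (by positivity)]
    field_simp
  · have h3 : s - ba3_proj c ρ s = ((1 - ρ / ‖s - c‖ : ℝ) : ℂ) * (s - c) := by
      rw [ba3_proj]
      push_cast
      ring
    rw [h3, norm_mul, Complex.norm_real, Real.norm_of_nonneg]
    · field_simp
    · rw [sub_nonneg, div_le_one h2]
      exact h1

theorem rc (c : ℂ) (ρ : ℝ) (hρ : 0 < ρ) (g : ℂ → ℂ) (hg : DifferentiableOn ℂ g (ball c ρ))
    (h : ∀ e ∈ sphere c ρ, ∃ r > 0, ∃ ge : ℂ → ℂ, DifferentiableOn ℂ ge (ball e r) ∧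
      ∀ s ∈ ball e r, s ∈ ball c ρ → ge s = g s) :
    ∃ ρ' > ρ, ∃ G : ℂ → ℂ, DifferentiableOn ℂ G (ball c ρ') ∧ ∀ s ∈ ball c ρ, G s = g s := by
  classical
  choose! r hr ge hd he using h
  obtain ⟨δ, hδ, hL⟩ := lebesgue_number_lemma_of_metric (isCompact_sphere c ρ)
    (c := fun i : sphere c ρ => ball (i : ℂ) (r i)) (fun i => isOpen_ball)
    (fun x hx => Set.mem_iUnion.2 ⟨⟨x, hx⟩, mem_ball_self (hr x hx)⟩)
  have hH : ∀ x ∈ sphere c ρ, ∃ H : ℂ → ℂ, DifferentiableOn ℂ H (ball x δ) ∧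
      ∀ s ∈ ball x δ, s ∈ ball c ρ → H s = g s := by
    intro x hx
    obtain ⟨i, hi⟩ := hL x hx
    exact ⟨ge i, (hd i i.2).mono hi, fun s hs => he i i.2 s (hi hs)⟩
  choose! H hHd hHe using hH
  have key : ∀ x ∈ sphere c ρ, ∀ y ∈ sphere c ρ, ∀ s ∈ ball x (δ / 2), s ∈ ball y (δ / 2) →
      H x s = H y s := by
    intro x hx y hy s hsx hsy
    have hxy : dist x y < δ := by
      have h1 := dist_triangle_left x y s
      rw [mem_ball] at hsx hsy
      linarith
    have hW : IsOpen (ball x δ ∩ ball y δ) := isOpen_ball.inter isOpen_ball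
    have hxW : x ∈ ball x δ ∩ ball y δ := ⟨mem_ball_self hδ, hxy⟩
    have hxc : x ∈ closure (ball c ρ) := by
      rw [closure_ball c hρ.ne']
      exact sphere_subset_closedBall hx
    obtain ⟨p, hpW, hpc⟩ := mem_closure_iff.1 hxc _ hW hxW
    have h1 : DifferentiableOn ℂ (H x) (ball x δ ∩ ball y δ) :=
      (hHd x hx).mono Set.inter_subset_left
    have h2 : DifferentiableOn ℂ (H y) (ball x δ ∩ ball y δ) :=
      (hHd y hy).mono Set.inter_subset_right
    have hpre : IsPreconnected (ball x δ ∩ ball y δ) :=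
      ((convex_ball x δ).inter (convex_ball y δ)).isPreconnected
    have hev : H x =ᶠ[nhds p] H y := by
      have h3 : (ball x δ ∩ ball y δ) ∩ ball c ρ ∈ nhds p :=
        (hW.inter isOpen_ball).mem_nhds ⟨hpW, hpc⟩
      filter_upwards [h3] with q hq
      rw [hHe x hx q hq.1.1 hq.2, hHe y hy q hq.1.2 hq.2]
    have h4 := (h1.analyticOnNhd hW).eqOn_of_preconnected_of_eventuallyEq
      (h2.analyticOnNhd hW) hpre hpW hev
    refine h4 ⟨?_, ?_⟩
    · exact ball_subset_ball (by linarith) hsx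
    · exact ball_subset_ball (by linarith) hsy
  set G : ℂ → ℂ := fun s => if s ∈ ball c ρ then g s else H (ba3_proj c ρ s) s with hG
  refine ⟨ρ + δ / 2, by linarith, G, ?_, fun s hs => by rw [hG]; simp only [if_pos hs]⟩
  intro s₀ hs₀
  apply DifferentiableAt.differentiableWithinAt
  by_cases hin : s₀ ∈ ball c ρ
  · have h1 : DifferentiableAt ℂ g s₀ := hg.differentiableAt (isOpen_ball.mem_nhds hin)
    refine h1.congr_of_eventuallyEq ?_
    filter_upwards [isOpen_ball.mem_nhds hin] with s hs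
    simp only [hG, if_pos hs]
  · obtain ⟨h1, h2⟩ := ba3_proj_mem c ρ hρ s₀ hin
    set x₀ := ba3_proj c ρ s₀ with hx₀
    have h3 : s₀ ∈ ball x₀ (δ / 2) := by
      rw [mem_ball, dist_eq_norm, h2]
      rw [mem_ball, dist_eq_norm] at hs₀
      linarith
    have h4 : s₀ ∈ ball x₀ δ := ball_subset_ball (by linarith) h3
    have h5 : DifferentiableAt ℂ (H x₀) s₀ :=
      (hHd x₀ h1).differentiableAt (isOpen_ball.mem_nhds h4)
    refine h5.congr_of_eventuallyEq ?_
    filter_upwards [isOpen_ball.mem_nhds h3, isOpen_ball.mem_nhds hs₀] with s hs hs'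
    by_cases hsin : s ∈ ball c ρ
    · simp only [hG, if_pos hsin]
      rw [hHe x₀ h1 s (ball_subset_ball (by linarith) hs) hsin]
    · simp only [hG, if_neg hsin]
      obtain ⟨h6, h7⟩ := ba3_proj_mem c ρ hρ s hsin
      refine key _ h6 x₀ h1 s ?_ hs
      rw [mem_ball, dist_eq_norm, h7]
      rw [mem_ball, dist_eq_norm] at hs'
      linarith

end Pool.Agent.LSF
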