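import Pool.Agent.LSF.BA2

/-!
BA4: limits of root branches at boundary points, local extension.

`Br F c ρ z`: `z` is a holomorphic root branch on `ball c ρ`.

Complete proof.
`br_lim`: let `e ∈ U`, `‖e - c‖ = ρ` (`ρ > 0`). Let `R` be the finite set of roots of `F e`, choose
`ε > 0` such that the balls `ball w ε`, `w ∈ R`, are disjoint (if `R` has one element any `ε`). By
`pf_close` there is `r > 0` with: for `s ∈ ball e r`, all roots of `F s` lie in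
`⋃ ball w ε`. The set `ball e r ∩ ball c ρ` is convex, hence connected, nonempty, and `z` maps it
continuously into the disjoint union of the open balls, so into one ball `ball w ε`. Doing this for
smaller and smaller `ε' ≤ ε` gives the same `w` (the balls are disjoint, nested neighbourhoods): so
`z s → w` as `s → e` in `ball c ρ`.
`br_ext`: if the limit `w` is a simple root of `F e`, `pf_root` at `(e, w)` gives `r, ε, z₁`; for
`s ∈ ball c ρ` near `e` (say in `ball e r'`) `‖z s - w‖ < ε`, so `z s = z₁ s`.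
`br_reg`: if `RegAt D F e`: with the functions `z i` on `ball e r` (`ball e r ⊆ U` w.l.o.g.), on the
open connected set `ball e r ∩ ball c ρ` we have `z s ∈ {z i s}` for every `s`
(`z s` is a root). So the set is the union of the relatively closed sets `{s | z s = z i s}`, `i`
in the finite set `Fin D`; one of them is infinite with an accumulation point inside (e.g. take a
point and a sequence converging to it, pigeonhole), so by the identity theorem `z = z i` on the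
whole connected set.
-/

namespace Pool.Agent.LSF

open Polynomial Metric Filter

/-- a holomorphic root branch on a disc -/
def Br (F : ℂ → ℂ[X]) (c : ℂ) (ρ : ℝ) (z : ℂ → ℂ) : Prop :=
  DifferentiableOn ℂ z (ball c ρ) ∧ ∀ s ∈ ball c ρ, (F s).eval (z s) = 0

theorem ba4_conn (c e : ℂ) (ρ r : ℝ) : IsPreconnected (ball e r ∩ ball c ρ) :=
  ((convex_ball e r).inter (convex_ball c ρ)).isPreconnected

theorem ba4_mem_closure (c e : ℂ) (ρ : ℝ) (hρ : 0 < ρ) (hec : ‖e - c‖ = ρ) :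
    e ∈ closure (ball c ρ) := by
  rw [closure_ball c hρ.ne', mem_closedBall, dist_eq_norm, hec]

theorem ba4_nonempty (c e : ℂ) (ρ r : ℝ) (hρ : 0 < ρ) (hec : ‖e - c‖ = ρ) (hr : 0 < r) :
    (ball e r ∩ ball c ρ).Nonempty :=
  mem_closure_iff.1 (ba4_mem_closure c e ρ hρ hec) (ball e r) isOpen_ball (mem_ball_self hr)

theorem ba4_sep (R : Finset ℂ) : ∃ ε > 0, ∀ w ∈ R, ∀ w' ∈ R, ‖w - w'‖ < 2 * ε → w = w' := by
  classical
  by_cases h : ((R ×ˢ R).filter (fun p => p.1 ≠ p.2)).Nonempty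
  · obtain ⟨p, hp, hmin⟩ := Finset.exists_min_image _ (fun p : ℂ × ℂ => ‖p.1 - p.2‖) h
    rw [Finset.mem_filter] at hp
    have hpos : 0 < ‖p.1 - p.2‖ := norm_pos_iff.2 (sub_ne_zero.2 hp.2)
    refine ⟨‖p.1 - p.2‖ / 2, by positivity, fun w hw w' hw' hlt => ?_⟩
    by_contra hne
    have := hmin (w, w') (Finset.mem_filter.2 ⟨Finset.mem_product.2 ⟨hw, hw'⟩, hne⟩)
    simp only [] at this
    linarith
  · refine ⟨1, one_pos, fun w hw w' hw' _ => ?_⟩
    by_contra hne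
    exact h ⟨(w, w'), Finset.mem_filter.2 ⟨Finset.mem_product.2 ⟨hw, hw'⟩, hne⟩⟩

theorem ba4_near {U : Set ℂ} {D : ℕ} {F : ℂ → ℂ[X]} (hU : IsOpen U) (h : PF U D F) (c : ℂ)
    (ρ : ℝ) (hρ : 0 < ρ) (z : ℂ → ℂ) (hz : Br F c ρ z) (e : ℂ) (he : e ∈ U) (hec : ‖e - c‖ = ρ)
    (ε₀ : ℝ) (hsep : ∀ w ∈ (F e).roots.toFinset, ∀ w' ∈ (F e).roots.toFinset,
      ‖w - w'‖ < 2 * ε₀ → w = w') (ε : ℝ) (hε : 0 < ε) (hεε : ε ≤ ε₀) :
    ∃ r > 0, ∃ w ∈ (F e).roots.toFinset, ∀ s ∈ ball e r ∩ ball c ρ, ‖z s - w‖ < ε := by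
  have hF0 : F e ≠ 0 := (h.monic e he).ne_zero
  obtain ⟨r, hr, hclose⟩ := Metric.eventually_nhds_iff_ball.1 (pf_close hU h e he ε hε)
  obtain ⟨s₀, hs₀⟩ := ba4_nonempty c e ρ r hρ hec hr
  have hroot : ∀ w, (F e).eval w = 0 → w ∈ (F e).roots.toFinset := fun w hw =>
    Multiset.mem_toFinset.2 ((mem_roots hF0).2 hw)
  obtain ⟨w, hw, hsw⟩ := hclose s₀ hs₀.1 (z s₀) (hz.2 s₀ hs₀.2)
  refine ⟨r, hr, w, hroot w hw, ?_⟩
  have hcont : ContinuousOn z (ball e r ∩ ball c ρ) :=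
    (hz.1.continuousOn).mono Set.inter_subset_right
  have hpre := (ba4_conn c e ρ r).image z hcont
  have hV : IsOpen (⋃ w' ∈ {w' : ℂ | w' ∈ (F e).roots.toFinset ∧ w' ≠ w}, ball w' ε) :=
    isOpen_biUnion (fun _ _ => isOpen_ball)
  have hdisj : Disjoint (ball w ε)
      (⋃ w' ∈ {w' : ℂ | w' ∈ (F e).roots.toFinset ∧ w' ≠ w}, ball w' ε) := by
    rw [Set.disjoint_iff]
    rintro x ⟨hx1, hx2⟩
    simp only [Set.mem_iUnion, Set.mem_setOf_eq, exists_prop] at hx2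
    obtain ⟨w', ⟨hw', hne⟩, hx2⟩ := hx2
    apply hne
    apply hsep w' hw' w (hroot w hw)
    have h1 : dist w' w < ε + ε := by
      have h2 := dist_triangle w' x w
      have h3 : dist w' x < ε := by rw [dist_comm]; exact hx2
      have h4 : dist x w < ε := hx1
      linarith
    rw [dist_eq_norm] at h1
    linarith
  have hsub : z '' (ball e r ∩ ball c ρ) ⊆ ball w ε ∪
      ⋃ w' ∈ {w' : ℂ | w' ∈ (F e).roots.toFinset ∧ w' ≠ w}, ball w' ε := by
    rintro _ ⟨s, hs, rfl⟩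
    obtain ⟨w', hw', hsw'⟩ := hclose s hs.1 (z s) (hz.2 s hs.2)
    by_cases hww : w' = w
    · left
      rw [hww] at hsw'
      rw [mem_ball, dist_eq_norm]
      exact hsw'
    · right
      simp only [Set.mem_iUnion, Set.mem_setOf_eq, exists_prop]
      refine ⟨w', ⟨hroot w' hw', hww⟩, ?_⟩
      rw [mem_ball, dist_eq_norm]
      exact hsw'
  have hall := hpre.subset_left_of_subset_union isOpen_ball hV hdisj hsub
    ⟨z s₀, ⟨s₀, hs₀, rfl⟩, by rw [mem_ball, dist_eq_norm]; exact hsw⟩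
  intro s hs
  have := hall ⟨s, hs, rfl⟩
  rwa [mem_ball, dist_eq_norm] at this

theorem br_lim {U : Set ℂ} {D : ℕ} {F : ℂ → ℂ[X]} (hU : IsOpen U) (h : PF U D F) (c : ℂ) (ρ : ℝ)
    (hρ : 0 < ρ) (z : ℂ → ℂ) (hz : Br F c ρ z) (e : ℂ) (he : e ∈ U) (hec : ‖e - c‖ = ρ) :
    ∃ w, (F e).eval w = 0 ∧ Tendsto z (nhdsWithin e (ball c ρ)) (nhds w) := by
  have hF0 : F e ≠ 0 := (h.monic e he).ne_zero
  obtain ⟨ε₀, hε₀, hsep⟩ := ba4_sep (F e).roots.toFinset
  obtain ⟨r₀, hr₀, w, hw, hnear⟩ := ba4_near hU h c ρ hρ z hz e he hec ε₀ hsep ε₀ hε₀ le_rfl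
  refine ⟨w, (mem_roots hF0).1 (Multiset.mem_toFinset.1 hw), ?_⟩
  rw [Metric.tendsto_nhdsWithin_nhds]
  intro ε hε
  obtain ⟨r, hr, w', hw', hnear'⟩ := ba4_near hU h c ρ hρ z hz e he hec ε₀ hsep (min ε ε₀)
    (lt_min hε hε₀) (min_le_right _ _)
  obtain ⟨s₁, hs₁⟩ := ba4_nonempty c e ρ (min r r₀) hρ hec (lt_min hr hr₀)
  have hww : w' = w := by
    apply hsep w' hw' w hw
    have h1 := hnear' s₁ ⟨ball_subset_ball (min_le_left _ _) hs₁.1, hs₁.2⟩
    have h2 := hnear s₁ ⟨ball_subset_ball (min_le_right _ _) hs₁.1, hs₁.2⟩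
    have h3 : min ε ε₀ ≤ ε₀ := min_le_right _ _
    have h4 : ‖w' - w‖ ≤ ‖z s₁ - w‖ + ‖z s₁ - w'‖ := by
      have : w' - w = (z s₁ - w) - (z s₁ - w') := by ring
      rw [this]
      exact norm_sub_le _ _
    linarith
  refine ⟨r, hr, fun {s} hs hse => ?_⟩
  have h1 := hnear' s ⟨hse, hs⟩
  rw [hww] at h1
  rw [dist_eq_norm]
  exact h1.trans_le (min_le_left _ _)

theorem br_ext {U : Set ℂ} {D : ℕ} {F : ℂ → ℂ[X]} (hU : IsOpen U) (h : PF U D F) (c : ℂ) (ρ : ℝ)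
    (hρ : 0 < ρ) (z : ℂ → ℂ) (hz : Br F c ρ z) (e : ℂ) (he : e ∈ U) (hec : ‖e - c‖ = ρ) (w : ℂ)
    (hw : Tendsto z (nhdsWithin e (ball c ρ)) (nhds w))
    (hd : (derivative (F e)).eval w ≠ 0) :
    ∃ r > 0, ∃ z₁ : ℂ → ℂ, DifferentiableOn ℂ z₁ (ball e r) ∧
      ∀ s ∈ ball e r, s ∈ ball c ρ → z₁ s = z s := by
  obtain ⟨w', hw'0, hw'⟩ := br_lim hU h c ρ hρ z hz e he hec
  haveI : (nhdsWithin e (ball c ρ)).NeBot :=
    mem_closure_iff_nhdsWithin_neBot.1 (ba4_mem_closure c e ρ hρ hec)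
  have hww : w' = w := tendsto_nhds_unique hw' hw
  rw [hww] at hw'0
  obtain ⟨r, hr, ε, hε, -, z₁, hz₁, -, hz₁'⟩ := pf_root hU h e w he hw'0 hd
  rw [Metric.tendsto_nhdsWithin_nhds] at hw
  obtain ⟨r', hr', hclose⟩ := hw ε hε
  refine ⟨min r r', lt_min hr hr', z₁, hz₁.mono (ball_subset_ball (min_le_left _ _)), ?_⟩
  intro s hs hsc
  have h1 := hclose hsc (ball_subset_ball (min_le_right r r') hs)
  rw [dist_eq_norm] at h1
  exact ((hz₁' s (ball_subset_ball (min_le_left _ _) hs)).2.2.2 (z s) h1 (hz.2 s hsc)).symm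

theorem br_reg {U : Set ℂ} {D : ℕ} {F : ℂ → ℂ[X]} (hU : IsOpen U) (h : PF U D F) (c : ℂ) (ρ : ℝ)
    (hρ : 0 < ρ) (z : ℂ → ℂ) (hz : Br F c ρ z) (e : ℂ) (he : e ∈ U) (hec : ‖e - c‖ = ρ)
    (hr : RegAt D F e) :
    ∃ r > 0, ∃ z₁ : ℂ → ℂ, DifferentiableOn ℂ z₁ (ball e r) ∧
      ∀ s ∈ ball e r, s ∈ ball c ρ → z₁ s = z s := by
  obtain ⟨r, hr0, zz, hzz, hroots⟩ := hr
  obtain ⟨r', hr', hU'⟩ := Metric.isOpen_iff.1 hU e he
  have hm : 0 < min r r' := lt_min hr0 hr'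
  have hW : IsOpen (ball e (min r r') ∩ ball c ρ) := isOpen_ball.inter isOpen_ball
  obtain ⟨s₀, hs₀⟩ := ba4_nonempty c e ρ (min r r') hρ hec hm
  have hex : ∀ s ∈ ball e (min r r') ∩ ball c ρ, ∃ i, z s = zz i s := by
    intro s hs
    have hsU : s ∈ U := hU' (ball_subset_ball (min_le_right _ _) hs.1)
    have h1 : z s ∈ (F s).roots := (mem_roots (h.monic s hsU).ne_zero).2 (hz.2 s hs.2)
    rw [hroots s (ball_subset_ball (min_le_left _ _) hs.1)] at h1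
    obtain ⟨i, -, hi⟩ := Multiset.mem_map.1 h1
    exact ⟨i, hi.symm⟩
  have hfreq : ∃ i, ∃ᶠ s in nhdsWithin s₀ {s₀}ᶜ, z s = zz i s := by
    by_contra hno
    simp only [not_exists, Filter.not_frequently] at hno
    have h1 : ∀ᶠ s in nhdsWithin s₀ {s₀}ᶜ, ∀ i, ¬ z s = zz i s := Filter.eventually_all.2 hno
    have h2 : ∀ᶠ s in nhdsWithin s₀ {s₀}ᶜ, s ∈ ball e (min r r') ∩ ball c ρ :=
      mem_nhdsWithin_of_mem_nhds (hW.mem_nhds hs₀)
    obtain ⟨s, hs1, hs2⟩ := (h1.and h2).exists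
    obtain ⟨i, hi⟩ := hex s hs2
    exact hs1 i hi
  obtain ⟨i, hi⟩ := hfreq
  have ha : AnalyticOnNhd ℂ z (ball e (min r r') ∩ ball c ρ) :=
    (hz.1.mono Set.inter_subset_right).analyticOnNhd hW
  have hb : AnalyticOnNhd ℂ (zz i) (ball e (min r r') ∩ ball c ρ) :=
    ((hzz i).mono (Set.inter_subset_left.trans (ball_subset_ball (min_le_left _ _)))).analyticOnNhd
      hW
  have heq := ha.eqOn_of_preconnected_of_frequently_eq hb (ba4_conn c e ρ (min r r')) hs₀ hi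
  refine ⟨min r r', hm, zz i, (hzz i).mono (ball_subset_ball (min_le_left _ _)), ?_⟩
  intro s hs hsc
  exact (heq ⟨hs, hsc⟩).symm

end Pool.Agent.LSF
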