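import Pool.Agent.LSF.BA3
import Pool.Agent.LSF.BA4

/-!
BA5: continuation of root branches to the whole disc, except for few branches.

Complete proof of `rc_bad`. `U = ball a R`. `Ex` is the finite exceptional set. For a root `ζ` of
`F a` (simple by `ha`) let `G ζ ρ` mean: there is a branch `z` on `ball a ρ` (`Br F a ρ z`),
`z a = ζ`, with `(F e)'(z e) ≠ 0` for all `e ∈ Ex ∩ ball a ρ`. For `0 < ρ ≤ R` the branch is unique
(two branches with the same value at `a`: near `a` they agree by `pf_root` uniqueness, then by the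
identity theorem on the ball). `G ζ ρ` holds for small `ρ` (`pf_root`, `Ex` finite; if `a ∈ Ex` the
condition at `a` holds by `ha`: simple root: derivative nonzero), and `G ζ ρ`, `ρ' < ρ` implies
`G ζ ρ'`. Let `T ζ := sup {ρ ≤ R | G ζ ρ}`; the branches on `ball a ρ`, `ρ < T`, glue (uniqueness)
to a branch on `ball a T`, so `G ζ T`. Let `S` be the set of roots `ζ` with `T ζ < R`.
Claim: for `ζ ∈ S` there is `e ∈ Ex` with `‖e - a‖ = T ζ` such that the limit `w` (`br_lim`) of the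
branch at `e` is a multiple root of `F e`. Otherwise every point `e'` of the sphere of radius
`T = T ζ` has a local extension: if `e' ∉ Ex` by `br_reg` (`hreg`); if `e' ∈ Ex` the limit is a
simple root and `br_ext` applies. By `rc` there is a holomorphic extension to `ball a T'`,
`T' > T`, w.l.o.g. `T' ≤ R`, and no point of `Ex` in `ball a T' \ closedBall a T`; it is a root
branch by the identity theorem (`(F s).eval (z s)` vanishes on `ball a T`); at `e ∈ Ex` with
`‖e - a‖ = T` its value is the limit, a simple root. So `G ζ T'`, contradicting the sup.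
Count: fix `e ∈ Ex`, `ρ := ‖e - a‖`. The roots `ζ ∈ S` assigned to `e` have branches `z_ζ` on
`ball a ρ` with limits in the set of multiple roots of `F e`. Choose `ε` such that the closed balls
of radius `ε` around the roots of `F e` are disjoint, and a point `s ∈ ball a ρ` close to `e` such
that all these finitely many branches are within `ε` of their limits, and `pf_count` holds at `s` for
every multiple root. The values `z_ζ s` for different `ζ` could coincide only if... they may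
coincide at a point `s` where `F s` has a multiple root, so count with care: choose `s` such that
in addition `F s` has simple roots (possible: `pf_disc` with `g a ≠ 0`, so `g` has isolated zeros
in the ball). Then different branches (they differ near `a`, so they are different functions) have
different values at `s`?? They are different roots: if `z_ζ s = z_ζ' s` with `F s` having simple
roots then by `pf_root` they agree near `s`, hence everywhere on `ball a ρ`, a contradiction. So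
their number is at most the number of roots of `F s` in the balls around the multiple roots of
`F e`, which is `∑_w rootMultiplicity w ≤ M` over the multiple roots `w`, i.e. the cardinality of
`(F e).roots.filter (multiple root) `, `≤ M` by `hM`. Total `card S ≤ card Ex * M`.
`root_disc` (all roots simple on the whole disc): apply `rc_bad` with `Ex = ∅`; `hreg` holds since
all roots are simple: `pf_root` for each of the `D` distinct roots of `F e`, the values `z i s` are
distinct near `e`, so they are all `D` roots. Then enumerate the roots of `F a`.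
-/

namespace Pool.Agent.LSF

open Polynomial Metric Filter

/-! ### algebra -/

theorem ba5_enum (P : ℂ[X]) (D : ℕ) (hd : P.natDegree = D) (hn : P.roots.Nodup) :
    ∃ ζ : Fin D → ℂ, Function.Injective ζ ∧ P.roots = Finset.univ.val.map ζ := by
  have hc : Multiset.card P.roots = D := by
    rw [IsAlgClosed.card_roots_eq_natDegree, hd]
  obtain ⟨l, hl⟩ := Quot.exists_rep P.roots
  have hl' : P.roots = (l : Multiset ℂ) := hl.symm
  rw [hl'] at hc hn ⊢
  have hlen : l.length = D := by simpa using hc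
  subst hlen
  refine ⟨l.get, List.nodup_iff_injective_get.1 (by simpa using hn), ?_⟩
  rw [Fin.univ_val_map, List.ofFn_get]

theorem ba5_simple (P : ℂ[X]) (hP : P ≠ 0) (hn : P.roots.Nodup) (w : ℂ) (hw : P.eval w = 0) :
    (derivative P).eval w ≠ 0 := by
  intro h
  have h1 : 1 < P.rootMultiplicity w :=
    (one_lt_rootMultiplicity_iff_isRoot hP).2 ⟨hw, h⟩
  have h2 := Multiset.nodup_iff_count_le_one.1 hn w
  rw [count_roots] at h2
  omega

theorem ba5_full (P : ℂ[X]) (D : ℕ) (hP : P ≠ 0) (hd : P.natDegree = D) (z : Fin D → ℂ)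
    (hi : Function.Injective z) (hr : ∀ i, P.eval (z i) = 0) :
    P.roots = Finset.univ.val.map z := by
  symm
  have hnd : (Finset.univ.val.map z).Nodup := Finset.univ.nodup.map hi
  apply Multiset.eq_of_le_of_card_le
  · rw [Multiset.le_iff_subset hnd]
    intro w hw
    obtain ⟨i, _, rfl⟩ := Multiset.mem_map.1 hw
    exact (mem_roots hP).2 (hr i)
  · rw [IsAlgClosed.card_roots_eq_natDegree, hd]
    simp

/-! ### uniqueness of branches -/

theorem ba5_uniq {U : Set ℂ} {D : ℕ} {F : ℂ → ℂ[X]} (hU : IsOpen U) (h : PF U D F) (c : ℂ)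
    (ρ : ℝ) (hsub : ball c ρ ⊆ U) (z z' : ℂ → ℂ) (hz : Br F c ρ z) (hz' : Br F c ρ z') (p : ℂ)
    (hp : p ∈ ball c ρ) (hpp : z p = z' p) (hd : (derivative (F p)).eval (z p) ≠ 0) :
    Set.EqOn z z' (ball c ρ) := by
  obtain ⟨r, hr, ε, hε, hrU, z₀, hz₀, hz₀p, hz₀s⟩ := pf_root hU h p (z p) (hsub hp)
    (hz.2 p hp) hd
  have ha : AnalyticOnNhd ℂ z (ball c ρ) := fun x hx =>
    hz.1.analyticAt (isOpen_ball.mem_nhds hx)
  have ha' : AnalyticOnNhd ℂ z' (ball c ρ) := fun x hx =>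
    hz'.1.analyticAt (isOpen_ball.mem_nhds hx)
  have hev : ∀ (y : ℂ → ℂ), Br F c ρ y → y p = z p → ∀ᶠ s in nhds p, y s = z₀ s := by
    intro y hy hyp
    have hc : ContinuousAt y p := (hy.1.differentiableAt (isOpen_ball.mem_nhds hp)).continuousAt
    have h1 : ∀ᶠ s in nhds p, ‖y s - z p‖ < ε := by
      have := hc.eventually (ball_mem_nhds (y p) hε)
      filter_upwards [this] with s hs
      rw [← hyp]
      simpa [dist_eq_norm] using hs
    filter_upwards [h1, isOpen_ball.mem_nhds hp, ball_mem_nhds p hr] with s h1 h2 h3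
    exact (hz₀s s h3).2.2.2 _ h1 (hy.2 s h2)
  apply ha.eqOn_of_preconnected_of_eventuallyEq ha' (convex_ball c ρ).isPreconnected hp
  filter_upwards [hev z hz rfl, hev z' hz' hpp.symm] with s h1 h2
  rw [h1, h2]

/-! ### good branches -/

/-- a good branch on the ball of radius `ρ` -/
def Ba5G (F : ℂ → ℂ[X]) (a : ℂ) (Ex : Finset ℂ) (ζ : ℂ) (ρ : ℝ) (z : ℂ → ℂ) : Prop :=
  Br F a ρ z ∧ z a = ζ ∧ ∀ e ∈ ball a ρ, e ∈ Ex → (derivative (F e)).eval (z e) ≠ 0

theorem ba5_mono {F : ℂ → ℂ[X]} {a : ℂ} {Ex : Finset ℂ} {ζ : ℂ} {ρ ρ' : ℝ} {z : ℂ → ℂ}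
    (h : Ba5G F a Ex ζ ρ z) (hle : ρ' ≤ ρ) : Ba5G F a Ex ζ ρ' z :=
  ⟨⟨h.1.1.mono (ball_subset_ball hle), fun s hs => h.1.2 s (ball_subset_ball hle hs)⟩, h.2.1,
    fun e he he' => h.2.2 e (ball_subset_ball hle he) he'⟩

theorem ba5_small (a : ℂ) (R : ℝ) (hR : 0 < R) (D : ℕ) (F : ℂ → ℂ[X]) (h : PF (ball a R) D F)
    (ha : (F a).roots.Nodup) (Ex : Finset ℂ) (ζ : ℂ) (hζ : (F a).eval ζ = 0) :
    ∃ ρ > 0, ρ ≤ R ∧ ∃ z, Ba5G F a Ex ζ ρ z := by
  have haU : a ∈ ball a R := mem_ball_self hR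
  have hne : F a ≠ 0 := (h.monic a haU).ne_zero
  obtain ⟨r, hr, ε, hε, hrU, z₀, hz₀, hz₀p, hz₀s⟩ := pf_root isOpen_ball h a ζ haU hζ
    (ba5_simple _ hne ha ζ hζ)
  refine ⟨min r R, lt_min hr hR, min_le_right _ _, z₀, ?_⟩
  have hsub : ball a (min r R) ⊆ ball a r := ball_subset_ball (min_le_left _ _)
  exact ⟨⟨hz₀.mono hsub, fun s hs => (hz₀s s (hsub hs)).2.1⟩, hz₀p,
    fun e he _ => (hz₀s e (hsub he)).2.2.1⟩

/-- gluing -/
theorem ba5_glue (a : ℂ) (R : ℝ) (D : ℕ) (F : ℂ → ℂ[X]) (h : PF (ball a R) D F)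
    (hR : 0 < R) (ha : (F a).roots.Nodup) (Ex : Finset ℂ) (ζ : ℂ) (hζ : (F a).eval ζ = 0)
    (T : ℝ) (hTR : T ≤ R)
    (hT : ∀ ρ, 0 < ρ → ρ < T → ∃ z, Ba5G F a Ex ζ ρ z) (hT0 : 0 < T) :
    ∃ z, Ba5G F a Ex ζ T z := by
  classical
  have hd : (derivative (F a)).eval ζ ≠ 0 :=
    ba5_simple _ (h.monic a (mem_ball_self hR)).ne_zero ha ζ hζ
  choose! zz hzz using hT
  -- two of the branches agree
  have hag : ∀ ρ ρ', 0 < ρ → ρ ≤ ρ' → ρ' < T → Set.EqOn (zz ρ) (zz ρ') (ball a ρ) := by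
    intro ρ ρ' h0 h1 h2
    have g1 := hzz ρ h0 (lt_of_le_of_lt h1 h2)
    have g2 := ba5_mono (hzz ρ' (h0.trans_le h1) h2) h1
    apply ba5_uniq isOpen_ball h a ρ (ball_subset_ball ((h1.trans h2.le).trans hTR)) _ _ g1.1 g2.1 a
      (mem_ball_self h0) (by rw [g1.2.1, g2.2.1])
    rw [g1.2.1]
    exact hd
  obtain ⟨z, hz⟩ : ∃ z : ℂ → ℂ, z = fun s => zz ((dist s a + T) / 2) s := ⟨_, rfl⟩
  have key : ∀ ρ, 0 < ρ → ρ < T → Set.EqOn z (zz ρ) (ball a ρ) := by
    intro ρ h0 h1 s hs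
    have hs' : dist s a < ρ := hs
    have hd0 : 0 ≤ dist s a := dist_nonneg
    rw [hz]
    show zz ((dist s a + T) / 2) s = zz ρ s
    rcases le_total ρ ((dist s a + T) / 2) with hle | hle
    · exact (hag ρ _ h0 hle (by linarith) hs).symm
    · apply hag _ ρ (by linarith) hle h1
      show dist s a < _
      linarith
  have hpt : ∀ s ∈ ball a T, ∃ ρ, 0 < ρ ∧ ρ < T ∧ s ∈ ball a ρ := by
    intro s hs
    have hs' : dist s a < T := hs
    have hd0 : 0 ≤ dist s a := dist_nonneg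
    exact ⟨(dist s a + T) / 2, by linarith, by linarith, by show dist s a < _; linarith⟩
  refine ⟨z, ⟨?_, ?_⟩, ?_, ?_⟩
  · intro s hs
    obtain ⟨ρ, h0, h1, h2⟩ := hpt s hs
    have h3 : DifferentiableAt ℂ (zz ρ) s :=
      (hzz ρ h0 h1).1.1.differentiableAt (isOpen_ball.mem_nhds h2)
    have h4 : z =ᶠ[nhds s] zz ρ := by
      filter_upwards [isOpen_ball.mem_nhds h2] with x hx
      exact key ρ h0 h1 hx
    exact (h4.differentiableAt_iff.2 h3).differentiableWithinAt
  · intro s hs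
    obtain ⟨ρ, h0, h1, h2⟩ := hpt s hs
    rw [key ρ h0 h1 h2]
    exact (hzz ρ h0 h1).1.2 s h2
  · rw [key (T / 2) (by linarith) (by linarith) (mem_ball_self (by linarith))]
    exact (hzz (T / 2) (by linarith) (by linarith)).2.1
  · intro e he heE
    obtain ⟨ρ, h0, h1, h2⟩ := hpt e he
    rw [key ρ h0 h1 h2]
    exact (hzz ρ h0 h1).2.2 e h2 heE

/-! ### extension over the boundary -/

theorem ba5_neBot (a e : ℂ) (T : ℝ) (hT : 0 < T) (he : ‖e - a‖ = T) :
    (nhdsWithin e (ball a T)).NeBot := by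
  rw [← mem_closure_iff_nhdsWithin_neBot, closure_ball a hT.ne']
  simp [dist_eq_norm, he]

theorem ba5_extend (a : ℂ) (R : ℝ) (D : ℕ) (F : ℂ → ℂ[X]) (h : PF (ball a R) D F)
    (Ex : Finset ℂ) (ζ : ℂ) (T : ℝ) (hT : 0 < T) (hTR : T < R) (z : ℂ → ℂ)
    (hz : Ba5G F a Ex ζ T z)
    (hreg : ∀ e ∈ ball a R, e ∉ Ex → RegAt D F e)
    (hlim : ∀ e ∈ Ex, ‖e - a‖ = T → ∀ w, Tendsto z (nhdsWithin e (ball a T)) (nhds w) →
      (derivative (F e)).eval w ≠ 0) :
    ∃ T', T < T' ∧ T' ≤ R ∧ ∃ z', Ba5G F a Ex ζ T' z' := by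
  have hloc : ∀ e ∈ sphere a T, ∃ r > 0, ∃ ge : ℂ → ℂ, DifferentiableOn ℂ ge (ball e r) ∧
      ∀ s ∈ ball e r, s ∈ ball a T → ge s = z s := by
    intro e he
    have he' : ‖e - a‖ = T := by simpa [dist_eq_norm] using he
    have heR : e ∈ ball a R := by
      rw [mem_ball, dist_eq_norm, he']
      exact hTR
    by_cases hE : e ∈ Ex
    · obtain ⟨w, _, hw⟩ := br_lim isOpen_ball h a T hT z hz.1 e heR he'
      exact br_ext isOpen_ball h a T hT z hz.1 e heR he' w hw (hlim e hE he' w hw)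
    · exact br_reg isOpen_ball h a T hT z hz.1 e heR he' (hreg e heR hE)
  obtain ⟨ρ', hρ', G, hG, hGz⟩ := rc a T hT z hz.1.1 hloc
  obtain ⟨T'', hT'', hgap⟩ : ∃ T'' > T, ∀ e ∈ Ex, ‖e - a‖ < T'' → ‖e - a‖ ≤ T := by
    classical
    by_cases hne : (Ex.filter (fun e => T < ‖e - a‖)).Nonempty
    · refine ⟨(Ex.filter (fun e => T < ‖e - a‖)).inf' hne (fun e => ‖e - a‖), ?_, ?_⟩
      · rw [gt_iff_lt, Finset.lt_inf'_iff]
        intro e he
        exact (Finset.mem_filter.1 he).2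
      · intro e he hlt
        by_contra hcon
        push Not at hcon
        have hm : e ∈ Ex.filter (fun e => T < ‖e - a‖) := Finset.mem_filter.2 ⟨he, hcon⟩
        have := Finset.inf'_le (fun e => ‖e - a‖) hm
        exact absurd (lt_of_lt_of_le hlt this) (lt_irrefl _)
    · refine ⟨T + 1, by linarith, ?_⟩
      intro e he _
      by_contra hcon
      push Not at hcon
      exact hne ⟨e, Finset.mem_filter.2 ⟨he, hcon⟩⟩
  obtain ⟨T', hT'⟩ : ∃ T', T' = min ρ' (min R T'') := ⟨_, rfl⟩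
  have hT'T : T < T' := by
    rw [hT']
    exact lt_min hρ' (lt_min hTR hT'')
  have hT'R : T' ≤ R := by
    rw [hT']
    exact (min_le_right _ _).trans (min_le_left _ _)
  have hT'ρ : T' ≤ ρ' := by
    rw [hT']
    exact min_le_left _ _
  have hT'g : T' ≤ T'' := by
    rw [hT']
    exact (min_le_right _ _).trans (min_le_right _ _)
  have hGd : DifferentiableOn ℂ G (ball a T') := hG.mono (ball_subset_ball hT'ρ)
  refine ⟨T', hT'T, hT'R, G, ⟨hGd, ?_⟩, ?_, ?_⟩
  · have h1 : DifferentiableOn ℂ (fun s => (F s).eval (G s)) (ball a T') :=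
      (pf_eval h (ball_subset_ball hT'R) hGd).1
    have h2 : AnalyticOnNhd ℂ (fun s => (F s).eval (G s)) (ball a T') := fun x hx =>
      h1.analyticAt (isOpen_ball.mem_nhds hx)
    have h3 : AnalyticOnNhd ℂ (fun _ : ℂ => (0 : ℂ)) (ball a T') := fun x _ => analyticAt_const
    have h4 := h2.eqOn_of_preconnected_of_eventuallyEq h3 (convex_ball a T').isPreconnected
      (mem_ball_self (hT.trans hT'T)) (by
        filter_upwards [ball_mem_nhds a hT] with s hs
        show (F s).eval (G s) = 0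
        rw [hGz s hs]
        exact hz.1.2 s hs)
    intro s hs
    exact h4 hs
  · rw [hGz a (mem_ball_self hT)]
    exact hz.2.1
  · intro e he hE
    have he1 : ‖e - a‖ < T' := by simpa [dist_eq_norm] using he
    have he2 := hgap e hE (he1.trans_le hT'g)
    rcases he2.lt_or_eq with hlt | heq
    · have : e ∈ ball a T := by simpa [dist_eq_norm] using hlt
      rw [hGz e this]
      exact hz.2.2 e this hE
    · apply hlim e hE heq
      have hc : ContinuousAt G e :=
        (hGd.differentiableAt (isOpen_ball.mem_nhds he)).continuousAt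
      have h5 : Tendsto G (nhdsWithin e (ball a T)) (nhds (G e)) :=
        hc.tendsto.mono_left nhdsWithin_le_nhds
      apply h5.congr'
      filter_upwards [self_mem_nhdsWithin] with s hs
      exact hGz s hs

theorem ba5_sup (a : ℂ) (R : ℝ) (hR : 0 < R) (D : ℕ) (F : ℂ → ℂ[X]) (h : PF (ball a R) D F)
    (ha : (F a).roots.Nodup) (Ex : Finset ℂ)
    (hreg : ∀ e ∈ ball a R, e ∉ Ex → RegAt D F e) (ζ : ℂ) (hζ : (F a).eval ζ = 0)
    (hbad : ¬ ∃ z, Ba5G F a Ex ζ R z) :
    ∃ e ∈ Ex, e ∈ ball a R ∧ 0 < ‖e - a‖ ∧ ∃ z, Br F a ‖e - a‖ z ∧ z a = ζ ∧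
      ∃ w, Tendsto z (nhdsWithin e (ball a ‖e - a‖)) (nhds w) ∧ (F e).eval w = 0 ∧
        (derivative (F e)).eval w = 0 := by
  obtain ⟨A, hA⟩ : ∃ A : Set ℝ, A = {ρ | 0 < ρ ∧ ρ ≤ R ∧ ∃ z, Ba5G F a Ex ζ ρ z} := ⟨_, rfl⟩
  obtain ⟨ρ₀, h0, h0R, z₀, hz₀⟩ := ba5_small a R hR D F h ha Ex ζ hζ
  have hAne : A.Nonempty := ⟨ρ₀, by rw [hA]; exact ⟨h0, h0R, z₀, hz₀⟩⟩
  have hAb : BddAbove A := ⟨R, by
    intro x hx
    rw [hA] at hx
    exact hx.2.1⟩
  obtain ⟨T, hTdef⟩ : ∃ T, T = sSup A := ⟨_, rfl⟩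
  have hTR : T ≤ R := by
    rw [hTdef]
    apply csSup_le hAne
    intro x hx
    rw [hA] at hx
    exact hx.2.1
  have hρT : ρ₀ ≤ T := by
    rw [hTdef]
    apply le_csSup hAb
    rw [hA]
    exact ⟨h0, h0R, z₀, hz₀⟩
  have hT0 : 0 < T := h0.trans_le hρT
  obtain ⟨z, hz⟩ := ba5_glue a R D F h hR ha Ex ζ hζ T hTR (by
    intro ρ _ h2
    rw [hTdef] at h2
    obtain ⟨ρ₁, h3, h4⟩ := exists_lt_of_lt_csSup hAne h2
    rw [hA] at h3
    obtain ⟨_, _, z₁, hz₁⟩ := h3
    exact ⟨z₁, ba5_mono hz₁ h4.le⟩) hT0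
  have hlt : T < R := by
    rcases hTR.lt_or_eq with h1 | h1
    · exact h1
    · exact absurd ⟨z, h1 ▸ hz⟩ hbad
  by_contra hcon
  obtain ⟨T', h1, h2, z', hz'⟩ := ba5_extend a R D F h Ex ζ T hT0 hlt z hz hreg (by
    intro e hE heT w hw hdw
    have heR : e ∈ ball a R := by
      rw [mem_ball, dist_eq_norm, heT]
      exact hlt
    obtain ⟨w', hw'0, hw'⟩ := br_lim isOpen_ball h a T hT0 z hz.1 e heR heT
    have := ba5_neBot a e T hT0 heT
    have hww : w = w' := tendsto_nhds_unique hw hw'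
    apply hcon
    refine ⟨e, hE, heR, by rw [heT]; exact hT0, z, by rw [heT]; exact hz.1, hz.2.1, w,
      by rw [heT]; exact hw, by rw [hww]; exact hw'0, hdw⟩)
  have h3 : T' ≤ T := by
    rw [hTdef]
    apply le_csSup hAb
    rw [hA]
    exact ⟨hT0.trans h1, h2, z', hz'⟩
  linarith

/-! ### counting the branches that end in a multiple root -/

theorem ba5_count (a : ℂ) (R : ℝ) (hR : 0 < R) (D : ℕ) (F : ℂ → ℂ[X]) (h : PF (ball a R) D F)
    (ha : (F a).roots.Nodup) (e : ℂ) (he : e ∈ ball a R) (hea : 0 < ‖e - a‖) (S : Finset ℂ)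
    (hS : ∀ ζ ∈ S, ∃ z, Br F a ‖e - a‖ z ∧ z a = ζ ∧
      ∃ w, Tendsto z (nhdsWithin e (ball a ‖e - a‖)) (nhds w) ∧ (F e).eval w = 0 ∧
        (derivative (F e)).eval w = 0) (p : ℂ → Prop) [DecidablePred p]
    (hp : ∀ w, p w ↔ (derivative (F e)).eval w = 0) :
    S.card ≤ Multiset.card ((F e).roots.filter p) := by
  classical
  have hFe : F e ≠ 0 := (h.monic e he).ne_zero
  choose! z hz hza w hw hw0 hwd using hS
  have heR : ‖e - a‖ < R := by simpa [dist_eq_norm] using he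
  have hsubR : ball a ‖e - a‖ ⊆ ball a R := ball_subset_ball heR.le
  have := ba5_neBot a e ‖e - a‖ hea rfl
  -- a radius
  obtain ⟨ε, hε, hsep⟩ : ∃ ε > 0, ∀ w₁ ∈ (F e).roots.toFinset, ∀ w₂ ∈ (F e).roots.toFinset,
      dist w₁ w₂ ≤ ε → w₁ = w₂ := by
    obtain ⟨P, hP⟩ : ∃ P : Finset (ℂ × ℂ), P = ((F e).roots.toFinset ×ˢ
      (F e).roots.toFinset).filter (fun q => q.1 ≠ q.2) := ⟨_, rfl⟩
    by_cases hne : P.Nonempty
    · refine ⟨P.inf' hne (fun q => dist q.1 q.2) / 2, ?_, ?_⟩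
      · have : 0 < P.inf' hne (fun q => dist q.1 q.2) := by
          rw [Finset.lt_inf'_iff]
          intro q hq
          rw [hP] at hq
          exact dist_pos.2 (Finset.mem_filter.1 hq).2
        linarith
      · intro w₁ h1 w₂ h2 hle
        by_contra hcon
        have hm : (w₁, w₂) ∈ P := by
          rw [hP]
          exact Finset.mem_filter.2 ⟨Finset.mem_product.2 ⟨h1, h2⟩, hcon⟩
        have h3 := Finset.inf'_le (fun q : ℂ × ℂ => dist q.1 q.2) hm
        have h4 : 0 < dist w₁ w₂ := dist_pos.2 hcon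
        simp only at h3
        linarith
    · refine ⟨1, one_pos, ?_⟩
      intro w₁ h1 w₂ h2 _
      by_contra hcon
      apply hne
      refine ⟨(w₁, w₂), ?_⟩
      rw [hP]
      exact Finset.mem_filter.2 ⟨Finset.mem_product.2 ⟨h1, h2⟩, hcon⟩
  -- counting near e
  have hcnt : ∀ᶠ s in nhds e, ∀ w₁ ∈ (F e).roots.toFinset,
      Multiset.card ((F s).roots.filter (fun x => ‖x - w₁‖ < ε)) =
        (F e).rootMultiplicity w₁ := by
    rw [Filter.eventually_all_finset]
    intro w₁ h1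
    apply pf_count isOpen_ball h e w₁ he ε hε
    intro x hx hx0
    apply hsep x (by rw [Multiset.mem_toFinset]; exact (mem_roots hFe).2 hx0) w₁ h1
    exact hx
  -- simple roots near e
  obtain ⟨g, hg, hg0⟩ := pf_disc h
  have hga : g a ≠ 0 := (hg0 a (mem_ball_self hR)).2 ha
  have hgan : AnalyticOnNhd ℂ g (ball a R) := fun x hx =>
    hg.analyticAt (isOpen_ball.mem_nhds hx)
  have hgne : ∀ᶠ s in nhdsWithin e {e}ᶜ, g s ≠ 0 := by
    by_contra hcon
    have hfr : ∃ᶠ s in nhdsWithin e {e}ᶜ, g s = 0 := by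
      rw [Filter.not_eventually] at hcon
      exact hcon.mono (fun s hs => not_not.1 hs)
    have := hgan.eqOn_zero_of_preconnected_of_frequently_eq_zero
      (convex_ball a R).isPreconnected he hfr
    exact hga (this (mem_ball_self hR))
  have hle : nhdsWithin e (ball a ‖e - a‖) ≤ nhdsWithin e {e}ᶜ := by
    apply nhdsWithin_mono
    intro s hs hse
    rw [Set.mem_singleton_iff] at hse
    rw [hse, mem_ball, dist_eq_norm] at hs
    exact lt_irrefl _ hs
  have hlim : ∀ᶠ s in nhdsWithin e (ball a ‖e - a‖), ∀ ζ ∈ S, ‖z ζ s - w ζ‖ < ε := by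
    rw [Filter.eventually_all_finset]
    intro ζ hζ
    have := (hw ζ hζ).eventually (ball_mem_nhds (w ζ) hε)
    filter_upwards [this] with s hs
    simpa [dist_eq_norm] using hs
  obtain ⟨s, hs1, hs2, hs3, hs4⟩ := ((hcnt.filter_mono nhdsWithin_le_nhds).and
    ((hgne.filter_mono hle).and (hlim.and self_mem_nhdsWithin))).exists
  have hsR : s ∈ ball a R := hsubR hs4
  have hFs : F s ≠ 0 := (h.monic s hsR).ne_zero
  have hsimple : (F s).roots.Nodup := (hg0 s hsR).1 hs2
  obtain ⟨MR, hMR⟩ : ∃ MR : Finset ℂ, MR = ((F e).roots.filter p).toFinset := ⟨_, rfl⟩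
  have hMRm : ∀ x ∈ MR, x ∈ (F e).roots.toFinset ∧ p x := by
    intro x hx
    rw [hMR, Multiset.mem_toFinset, Multiset.mem_filter] at hx
    exact ⟨Multiset.mem_toFinset.2 hx.1, hx.2⟩
  calc S.card ≤ (MR.biUnion (fun x =>
        ((F s).roots.filter (fun y => ‖y - x‖ < ε)).toFinset)).card := by
        apply Finset.card_le_card_of_injOn (fun ζ => z ζ s)
        · intro ζ hζ
          have hζ' : ζ ∈ S := hζ
          rw [Finset.mem_coe, Finset.mem_biUnion]
          refine ⟨w ζ, ?_, ?_⟩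
          · rw [hMR, Multiset.mem_toFinset, Multiset.mem_filter]
            exact ⟨(mem_roots hFe).2 (hw0 ζ hζ'), (hp _).2 (hwd ζ hζ')⟩
          · rw [Multiset.mem_toFinset, Multiset.mem_filter]
            exact ⟨(mem_roots hFs).2 ((hz ζ hζ').2 s hs4), hs3 ζ hζ'⟩
        · intro ζ₁ h1 ζ₂ h2 heq
          have h1' : ζ₁ ∈ S := h1
          have h2' : ζ₂ ∈ S := h2
          have hd : (derivative (F s)).eval (z ζ₁ s) ≠ 0 :=
            ba5_simple _ hFs hsimple _ ((hz ζ₁ h1').2 s hs4)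
          have := ba5_uniq isOpen_ball h a ‖e - a‖ hsubR _ _ (hz ζ₁ h1') (hz ζ₂ h2') s hs4 heq hd
          have h3 := this (mem_ball_self hea)
          rw [hza ζ₁ h1', hza ζ₂ h2'] at h3
          exact h3
    _ ≤ ∑ x ∈ MR, (((F s).roots.filter (fun y => ‖y - x‖ < ε)).toFinset).card :=
        Finset.card_biUnion_le
    _ ≤ ∑ x ∈ MR, Multiset.card ((F s).roots.filter (fun y => ‖y - x‖ < ε)) := by
        apply Finset.sum_le_sum
        intro x _
        exact Multiset.toFinset_card_le _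
    _ = ∑ x ∈ MR, ((F e).roots.filter p).count x := by
        apply Finset.sum_congr rfl
        intro x hx
        rw [hs1 x (hMRm x hx).1, Multiset.count_filter_of_pos (hMRm x hx).2, count_roots]
    _ = Multiset.card ((F e).roots.filter p) := by
        rw [hMR, Multiset.toFinset_sum_count_eq]

open Classical in
theorem rc_bad (a : ℂ) (R : ℝ) (hR : 0 < R) (D : ℕ) (F : ℂ → ℂ[X]) (h : PF (ball a R) D F)
    (ha : (F a).roots.Nodup) (Ex : Finset ℂ) (M : ℕ)
    (hreg : ∀ e ∈ ball a R, e ∉ Ex → RegAt D F e)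
    (hM : ∀ e ∈ ball a R, e ∈ Ex →
      Multiset.card ((F e).roots.filter (fun w => (derivative (F e)).eval w = 0)) ≤ M) :
    ∃ S : Finset ℂ, S.card ≤ Ex.card * M ∧ ∀ ζ, (F a).eval ζ = 0 → ζ ∉ S →
      ∃ z, Br F a R z ∧ z a = ζ ∧
        ∀ e ∈ ball a R, e ∈ Ex → (derivative (F e)).eval (z e) ≠ 0 := by
  have hFa : F a ≠ 0 := (h.monic a (mem_ball_self hR)).ne_zero
  obtain ⟨S, hS⟩ : ∃ S : Finset ℂ, S = (F a).roots.toFinset.filter
    (fun ζ => ¬ ∃ z, Ba5G F a Ex ζ R z) := ⟨_, rfl⟩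
  have hSm : ∀ ζ, ζ ∈ S ↔ ((F a).eval ζ = 0 ∧ ¬ ∃ z, Ba5G F a Ex ζ R z) := by
    intro ζ
    rw [hS, Finset.mem_filter, Multiset.mem_toFinset, mem_roots hFa]
    exact Iff.rfl
  refine ⟨S, ?_, ?_⟩
  · have hsub : S ⊆ Ex.biUnion (fun e => S.filter (fun ζ => e ∈ ball a R ∧ 0 < ‖e - a‖ ∧
        ∃ z, Br F a ‖e - a‖ z ∧ z a = ζ ∧
          ∃ w, Tendsto z (nhdsWithin e (ball a ‖e - a‖)) (nhds w) ∧ (F e).eval w = 0 ∧
            (derivative (F e)).eval w = 0)) := by
      intro ζ hζ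
      obtain ⟨h1, h2⟩ := (hSm ζ).1 hζ
      obtain ⟨e, he, heR, hea, hrest⟩ := ba5_sup a R hR D F h ha Ex hreg ζ h1 h2
      rw [Finset.mem_biUnion]
      exact ⟨e, he, Finset.mem_filter.2 ⟨hζ, heR, hea, hrest⟩⟩
    refine (Finset.card_le_card hsub).trans ?_
    apply Finset.card_biUnion_le_card_mul
    intro e he
    by_cases hc : e ∈ ball a R ∧ 0 < ‖e - a‖
    · refine le_trans ?_ (hM e hc.1 he)
      apply ba5_count a R hR D F h ha e hc.1 hc.2
      · intro ζ hζ
        exact (Finset.mem_filter.1 hζ).2.2.2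
      · intro w
        exact Iff.rfl
    · have : S.filter (fun ζ => e ∈ ball a R ∧ 0 < ‖e - a‖ ∧
        ∃ z, Br F a ‖e - a‖ z ∧ z a = ζ ∧
          ∃ w, Tendsto z (nhdsWithin e (ball a ‖e - a‖)) (nhds w) ∧ (F e).eval w = 0 ∧
            (derivative (F e)).eval w = 0) = ∅ := by
        rw [Finset.filter_eq_empty_iff]
        intro ζ _ hcon
        exact hc ⟨hcon.1, hcon.2.1⟩
      rw [this]
      simp
  · intro ζ hζ hζS
    by_contra hcon
    apply hζS
    rw [hSm]
    refine ⟨hζ, ?_⟩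
    rintro ⟨z, hz⟩
    exact hcon ⟨z, hz.1, hz.2.1, hz.2.2⟩

theorem reg_simple {U : Set ℂ} {D : ℕ} {F : ℂ → ℂ[X]} (hU : IsOpen U) (h : PF U D F) (e : ℂ)
    (he : e ∈ U) (hs : (F e).roots.Nodup) : RegAt D F e := by
  have hFe : F e ≠ 0 := (h.monic e he).ne_zero
  obtain ⟨ζ, hζi, hζ⟩ := ba5_enum (F e) D (h.deg e he) hs
  have hζ0 : ∀ i, (F e).eval (ζ i) = 0 := by
    intro i
    have : ζ i ∈ (F e).roots := by
      rw [hζ]
      exact Multiset.mem_map_of_mem _ (Finset.mem_univ i)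
    exact (mem_roots hFe).1 this
  choose r hr ε hε hrU z hz hze hzs using fun i =>
    pf_root hU h e (ζ i) he (hζ0 i) (ba5_simple _ hFe hs _ (hζ0 i))
  obtain ⟨r₀, hr₀, hr₀U⟩ := Metric.isOpen_iff.1 hU e he
  -- the branches are distinct near `e`
  have hcont : ∀ i, ContinuousAt (z i) e := fun i =>
    ((hz i).differentiableAt (isOpen_ball.mem_nhds (mem_ball_self (hr i)))).continuousAt
  have hdist : ∀ᶠ s in nhds e, ∀ i j, i ≠ j → z i s ≠ z j s := by
    rw [Filter.eventually_all]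
    intro i
    rw [Filter.eventually_all]
    intro j
    by_cases hij : i = j
    · exact Filter.Eventually.of_forall (fun s hne => absurd hij hne)
    · have h1 : z i e ≠ z j e := by
        rw [hze i, hze j]
        exact fun hc => hij (hζi hc)
      have h2 : ∀ᶠ s in nhds e, z i s ≠ z j s :=
        ((hcont i).sub (hcont j)).eventually_ne (sub_ne_zero.2 h1) |>.mono
          (fun s hs => sub_ne_zero.1 hs)
      filter_upwards [h2] with s hs _
      exact hs
  have hball : ∀ᶠ s in nhds e, ∀ i, s ∈ ball e (r i) := by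
    rw [Filter.eventually_all]
    intro i
    exact ball_mem_nhds e (hr i)
  obtain ⟨r₁, hr₁, hr₁s⟩ := Metric.eventually_nhds_iff_ball.1
    (hdist.and (hball.and (ball_mem_nhds e hr₀)))
  refine ⟨r₁, hr₁, z, ?_, ?_⟩
  · intro i
    apply (hz i).mono
    intro s hs
    exact (hr₁s s hs).2.1 i
  · intro s hs
    obtain ⟨h1, h2, h3⟩ := hr₁s s hs
    have hsU : s ∈ U := hr₀U h3
    apply ba5_full _ _ (h.monic s hsU).ne_zero (h.deg s hsU)
    · intro i j hij
      by_contra hne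
      exact h1 i j hne hij
    · intro i
      exact (hzs i s (h2 i)).2.1

theorem root_disc (a : ℂ) (R : ℝ) (hR : 0 < R) (D : ℕ) (F : ℂ → ℂ[X]) (h : PF (ball a R) D F)
    (hs : ∀ s ∈ ball a R, (F s).roots.Nodup) :
    ∃ z : Fin D → ℂ → ℂ, (∀ i, DifferentiableOn ℂ (z i) (ball a R)) ∧
      ∀ s ∈ ball a R, (F s).roots = Finset.univ.val.map (fun i => z i s) := by
  classical
  have haU : a ∈ ball a R := mem_ball_self hR
  have hFa : F a ≠ 0 := (h.monic a haU).ne_zero
  obtain ⟨S, hS, hz⟩ := rc_bad a R hR D F h (hs a haU) ∅ 0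
    (fun e he _ => reg_simple isOpen_ball h e he (hs e he))
    (fun e _ he => absurd he (Finset.notMem_empty e))
  have hSe : S = ∅ := by
    rw [← Finset.card_eq_zero]
    simpa using hS
  obtain ⟨ζ, hζi, hζ⟩ := ba5_enum (F a) D (h.deg a haU) (hs a haU)
  have hζ0 : ∀ i, (F a).eval (ζ i) = 0 := by
    intro i
    have : ζ i ∈ (F a).roots := by
      rw [hζ]
      exact Multiset.mem_map_of_mem _ (Finset.mem_univ i)
    exact (mem_roots hFa).1 this
  choose z hz1 hz2 _ using fun i => hz (ζ i) (hζ0 i) (by rw [hSe]; exact Finset.notMem_empty _)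
  refine ⟨z, fun i => (hz1 i).1, ?_⟩
  intro s hsR
  have hFs : F s ≠ 0 := (h.monic s hsR).ne_zero
  apply ba5_full _ _ hFs (h.deg s hsR)
  · intro i j hij
    have hd : (derivative (F s)).eval (z i s) ≠ 0 :=
      ba5_simple _ hFs (hs s hsR) _ ((hz1 i).2 s hsR)
    have := ba5_uniq isOpen_ball h a R subset_rfl _ _ (hz1 i) (hz1 j) s hsR hij hd
    have h3 := this haU
    rw [hz2 i, hz2 j] at h3
    exact hζi h3
  · intro i
    exact (hz1 i).2 s hsR


end Pool.Agent.LSF
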