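import Pool.Agent.LSF.BA5

/-!
BA6 (Puiseux): the roots near an isolated multiple parameter.

Complete proof. Let `e ∈ U`, `r₀ > 0` with `closedBall e r₀ ⊆ U` and simple roots of `F s` for
`0 < ‖s - e‖ < r₀`. If `D = 0` trivial. Consider `F̃ σ := F (e + exp σ)` for `Re σ < log r₀ =: b`:
simple roots. For `n : ℕ`, `n ≥ 1` the balls `B_n := ball (b - n) n` are nested increasing
(`ball (b-n) n ⊆ ball (b-n-1) (n+1)`), contained in the half plane `H = {Re σ < b}` and exhaust it:
`(a + iy)` with `a < b` lies in `B_n` iff `(a - b + n)² + y² < n²` iff `(b-a)² + y² < 2 n (b - a)`,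
true for large `n`. `F̃` is a `PF` on `B_n` (composition with the holomorphic map
`σ ↦ e + exp σ`). By `root_disc` on each `B_n` there are `D` root functions; normalise them by their
values at the common point `σ₀ = b - 1 ∈ B_n`: they agree on `B_1 ⊆ B_n` with the earlier ones
(same value at `σ₀`, simple roots, identity theorem). So we get functions `Z i : H → ℂ`,
holomorphic on `H`, with `(F̃ σ).roots = {Z i σ}` for all `σ ∈ H`.
For fixed `i` the function `σ ↦ Z i (σ + 2πI)` is again a root function of `F̃` on `H`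
(`exp` is periodic), so it is one of the `Z j` (at one point it equals some `Z j`, then by
uniqueness everywhere): `Z i (σ + 2πI) = Z (π i) σ` for a map `π : Fin D → Fin D`, injective
(roots distinct), a permutation. `M := orderOf π` (or `D!`): `π^M = 1`, so
`Z i (σ + 2πI M) = Z i σ`. Define `z i τ := Z i (M * log τ)` for `0 < ‖τ‖ < r := r₀^(1/M)`, with
`Complex.log` the principal branch: on the slit plane it is holomorphic; across the cut
`M log τ` jumps by `2πI M`, where `Z i` is periodic, so `z i` is holomorphic on the punctured ball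
(near a point of the cut use another branch of the logarithm). `exp (M log τ) = τ^M`. The function
is bounded (roots bounded, `pf_bound` on the closed ball `closedBall e (r₀/2)`; shrink `r`), so by
Riemann's theorem (`Complex.differentiableOn_update_limUnder_of_bddAbove`) it extends
holomorphically to `ball 0 r`. The relation `(F (e + τ^M)).roots = {z i τ}` holds for `τ ≠ 0`, i.e.
`F (e + τ^M) = ∏ (X - C (z i τ))`; both sides are continuous at `τ = 0` coefficientwise, so it
holds at `τ = 0` too.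
`pui_mul`: replace `M` by `M k`, `z i τ` by `z i (τ^k)`, radius `min r 1` raised accordingly:
`‖τ‖ < min r 1 ≤ 1` gives `‖τ^k‖ ≤ ‖τ‖ < r`.
-/

namespace Pool.Agent.LSF

open Polynomial Metric Filter

lemma ba6_comp {U V : Set ℂ} {D : ℕ} {F : ℂ → ℂ[X]} (h : PF U D F) (g : ℂ → ℂ)
    (hg : DifferentiableOn ℂ g V) (hm : Set.MapsTo g V U) : PF V D (fun s => F (g s)) where
  monic := fun s hs => h.monic (g s) (hm hs)
  deg := fun s hs => h.deg (g s) (hm hs)
  coeff := fun i => (h.coeff i).comp hg hm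

/-- a holomorphic root function is one of the given ones -/
lemma ba6_same {H : Set ℂ} (hH : IsOpen H) (hc : IsPreconnected H) (hne : H.Nonempty) {D : ℕ}
    {G : ℂ → ℂ[X]} (hG : ∀ s ∈ H, G s ≠ 0) (Z : Fin D → ℂ → ℂ)
    (hZ : ∀ i, DifferentiableOn ℂ (Z i) H)
    (hr : ∀ s ∈ H, (G s).roots = Finset.univ.val.map (fun i => Z i s)) (y : ℂ → ℂ)
    (hy : DifferentiableOn ℂ y H) (hyr : ∀ s ∈ H, (G s).eval (y s) = 0) :
    ∃ j, ∀ s ∈ H, y s = Z j s := by
  obtain ⟨s₀, hs₀⟩ := hne
  have hex : ∀ s ∈ H, ∃ j, y s = Z j s := by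
    intro s hs
    have h1 : y s ∈ (G s).roots := (mem_roots (hG s hs)).2 (hyr s hs)
    rw [hr s hs, Multiset.mem_map] at h1
    obtain ⟨j, -, hj⟩ := h1
    exact ⟨j, hj.symm⟩
  have hfr : ∃ j, ∃ᶠ s in nhdsWithin s₀ {s₀}ᶜ, y s = Z j s := by
    by_contra hcon
    push Not at hcon
    have h1 : ∀ᶠ s in nhdsWithin s₀ {s₀}ᶜ, ∀ j, y s ≠ Z j s := by
      rw [eventually_all]
      intro j
      have := hcon j
      exact this
    have h2 : ∀ᶠ s in nhdsWithin s₀ {s₀}ᶜ, s ∈ H :=
      mem_nhdsWithin_of_mem_nhds (hH.mem_nhds hs₀)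
    obtain ⟨s, hs1, hs2⟩ := (h1.and h2).exists
    obtain ⟨j, hj⟩ := hex s hs2
    exact hs1 j hj
  obtain ⟨j, hj⟩ := hfr
  refine ⟨j, ?_⟩
  exact (hy.analyticOnNhd hH).eqOn_of_preconnected_of_frequently_eq
    ((hZ j).analyticOnNhd hH) hc hs₀ hj

/-- root functions on a half plane -/
lemma ba6_half (b : ℝ) (D : ℕ) (G : ℂ → ℂ[X]) (h : PF {σ : ℂ | σ.re < b} D G)
    (hs : ∀ σ : ℂ, σ.re < b → (G σ).roots.Nodup) :
    ∃ Z : Fin D → ℂ → ℂ, (∀ i, DifferentiableOn ℂ (Z i) {σ : ℂ | σ.re < b}) ∧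
      ∀ σ : ℂ, σ.re < b → (G σ).roots = Finset.univ.val.map (fun i => Z i σ) := by
  have key : ∀ u : ℂ, u ∈ ball (0 : ℂ) 1 → 1 - u ≠ 0 := by
    intro u hu h0
    have : u = 1 := (sub_eq_zero.1 h0).symm
    rw [this, mem_ball_zero_iff] at hu
    simp at hu
  have hφd : DifferentiableOn ℂ (fun u : ℂ => (b : ℂ) - (1 + u) / (1 - u)) (ball 0 1) := by
    intro u hu
    have := key u hu
    refine DifferentiableAt.differentiableWithinAt ?_
    refine (differentiableAt_const _).sub (DifferentiableAt.div ?_ ?_ this)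
    · exact (differentiableAt_const _).add differentiableAt_id
    · exact (differentiableAt_const _).sub differentiableAt_id
  have hφm : Set.MapsTo (fun u : ℂ => (b : ℂ) - (1 + u) / (1 - u)) (ball 0 1)
      {σ : ℂ | σ.re < b} := by
    intro u hu
    have h0 := key u hu
    rw [mem_ball_zero_iff] at hu
    have h1 : 0 < ((1 + u) / (1 - u)).re := by
      have h2 : ((1 + u) / (1 - u)).re = (1 - Complex.normSq u) / Complex.normSq (1 - u) := by
        rw [Complex.div_re]
        rw [← add_div]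
        congr 1
        simp only [Complex.add_re, Complex.sub_re, Complex.add_im, Complex.sub_im,
          Complex.one_re, Complex.one_im, Complex.normSq_apply]
        ring
      rw [h2]
      apply div_pos
      · have h3 : Complex.normSq u = ‖u‖ ^ 2 := Complex.normSq_eq_norm_sq u
        rw [h3]
        have h4 : 0 ≤ ‖u‖ := norm_nonneg u
        nlinarith
      · exact Complex.normSq_pos.2 h0
    change ((b : ℂ) - (1 + u) / (1 - u)).re < b
    rw [Complex.sub_re, Complex.ofReal_re]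
    linarith
  have hP := ba6_comp h _ hφd hφm
  obtain ⟨z, hz, hzr⟩ := root_disc 0 1 one_pos D _ hP (fun u hu => hs _ (hφm hu))
  have key2 : ∀ σ : ℂ, σ.re < b → (b : ℂ) - σ + 1 ≠ 0 := by
    intro σ hσ h0
    have := congrArg Complex.re h0
    simp only [Complex.add_re, Complex.sub_re, Complex.ofReal_re, Complex.one_re,
      Complex.zero_re] at this
    linarith
  have hψd : DifferentiableOn ℂ (fun σ : ℂ => ((b : ℂ) - σ - 1) / ((b : ℂ) - σ + 1))
      {σ : ℂ | σ.re < b} := by
    intro σ hσ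
    have := key2 σ hσ
    refine DifferentiableAt.differentiableWithinAt ?_
    refine DifferentiableAt.div ?_ ?_ this
    · exact ((differentiableAt_const _).sub differentiableAt_id).sub (differentiableAt_const _)
    · exact ((differentiableAt_const _).sub differentiableAt_id).add (differentiableAt_const _)
  have hψm : Set.MapsTo (fun σ : ℂ => ((b : ℂ) - σ - 1) / ((b : ℂ) - σ + 1))
      {σ : ℂ | σ.re < b} (ball 0 1) := by
    intro σ hσ
    have h0 := key2 σ hσ
    change ((b : ℂ) - σ - 1) / ((b : ℂ) - σ + 1) ∈ ball (0 : ℂ) 1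
    have hσ' : σ.re < b := hσ
    rw [mem_ball_zero_iff, norm_div, div_lt_one (norm_pos_iff.2 h0)]
    have h1 : ‖(b : ℂ) - σ - 1‖ ^ 2 < ‖(b : ℂ) - σ + 1‖ ^ 2 := by
      rw [← Complex.normSq_eq_norm_sq, ← Complex.normSq_eq_norm_sq, Complex.normSq_apply,
        Complex.normSq_apply]
      simp only [Complex.add_re, Complex.sub_re, Complex.add_im, Complex.sub_im,
        Complex.one_re, Complex.one_im, Complex.ofReal_re, Complex.ofReal_im]
      nlinarith
    exact lt_of_pow_lt_pow_left₀ 2 (norm_nonneg _) h1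
  have hinv : ∀ σ : ℂ, σ.re < b → (b : ℂ) - (1 + ((b : ℂ) - σ - 1) / ((b : ℂ) - σ + 1)) /
      (1 - ((b : ℂ) - σ - 1) / ((b : ℂ) - σ + 1)) = σ := by
    intro σ hσ
    have h0 := key2 σ hσ
    have h1 : 1 + ((b : ℂ) - σ - 1) / ((b : ℂ) - σ + 1) =
        2 * ((b : ℂ) - σ) / ((b : ℂ) - σ + 1) := by
      field_simp
      ring
    have h2 : 1 - ((b : ℂ) - σ - 1) / ((b : ℂ) - σ + 1) = 2 / ((b : ℂ) - σ + 1) := by
      field_simp
      ring
    rw [h1, h2]
    field_simp
    ring
  refine ⟨fun i σ => z i (((b : ℂ) - σ - 1) / ((b : ℂ) - σ + 1)), ?_, ?_⟩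
  · intro i
    exact (hz i).comp hψd hψm
  · intro σ hσ
    have h1 := hzr _ (hψm hσ)
    beta_reduce at h1
    rw [hinv σ hσ] at h1
    exact h1

theorem puiseux {U : Set ℂ} {D : ℕ} {F : ℂ → ℂ[X]} (hU : IsOpen U) (h : PF U D F) (e : ℂ)
    (he : e ∈ U) (hs : ∀ᶠ s in nhdsWithin e {e}ᶜ, (F s).roots.Nodup) :
    ∃ (M : ℕ) (r : ℝ) (z : Fin D → ℂ → ℂ), Pui D F e M r z ∧
      (∀ τ ∈ ball (0 : ℂ) r, e + τ ^ M ∈ U) := by
  -- the radius
  obtain ⟨r₀, hr₀, hsub, hnd⟩ : ∃ r₀ > 0, closedBall e r₀ ⊆ U ∧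
      ∀ s, s ≠ e → ‖s - e‖ < r₀ → (F s).roots.Nodup := by
    rw [eventually_nhdsWithin_iff] at hs
    obtain ⟨r₁, hr₁, h1⟩ := Metric.eventually_nhds_iff.1 hs
    obtain ⟨r₂, hr₂, h2⟩ := Metric.isOpen_iff.1 hU e he
    refine ⟨min r₁ (r₂ / 2), lt_min hr₁ (by linarith), ?_, ?_⟩
    · refine Set.Subset.trans ?_ h2
      apply closedBall_subset_ball
      have := min_le_right r₁ (r₂ / 2)
      linarith
    · intro s hse hsr
      apply h1 _ hse
      rw [dist_eq_norm]
      exact lt_of_lt_of_le hsr (min_le_left _ _)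
  set b : ℝ := Real.log r₀ with hb
  set H : Set ℂ := {σ : ℂ | σ.re < b} with hH
  have hHo : IsOpen H := isOpen_lt Complex.continuous_re continuous_const
  have hHc : IsPreconnected H := (convex_halfSpace_re_lt b).isPreconnected
  have hHne : H.Nonempty := ⟨((b - 1 : ℝ) : ℂ), by
    change (((b - 1 : ℝ) : ℂ)).re < b
    rw [Complex.ofReal_re]
    linarith⟩
  have hexpn : ∀ σ ∈ H, ‖Complex.exp σ‖ < r₀ := by
    intro σ hσ
    rw [Complex.norm_exp]
    have : σ.re < b := hσ
    rw [← Real.exp_log hr₀]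
    exact Real.exp_lt_exp.2 this
  have hgd : DifferentiableOn ℂ (fun σ : ℂ => e + Complex.exp σ) H := by
    intro σ _
    exact ((differentiableAt_const _).add Complex.differentiableAt_exp).differentiableWithinAt
  have hgm : Set.MapsTo (fun σ : ℂ => e + Complex.exp σ) H U := by
    intro σ hσ
    apply hsub
    change e + Complex.exp σ ∈ closedBall e r₀
    rw [mem_closedBall, dist_eq_norm, add_sub_cancel_left]
    exact (hexpn σ hσ).le
  have hG := ba6_comp h _ hgd hgm
  have hGnd : ∀ σ : ℂ, σ.re < b → (F (e + Complex.exp σ)).roots.Nodup := by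
    intro σ hσ
    apply hnd
    · intro h0
      exact Complex.exp_ne_zero σ (by linear_combination h0)
    · rw [add_sub_cancel_left]
      exact hexpn σ hσ
  obtain ⟨Z, hZd, hZr⟩ := ba6_half b D _ hG hGnd
  have hG0 : ∀ σ ∈ H, F (e + Complex.exp σ) ≠ 0 := fun σ hσ => (hG.monic σ hσ).ne_zero
  -- the monodromy
  have hshift : ∀ σ : ℂ, σ ∈ H → σ + 2 * Real.pi * Complex.I ∈ H := by
    intro σ hσ
    change (σ + 2 * Real.pi * Complex.I).re < b
    have : (σ + 2 * Real.pi * Complex.I).re = σ.re := by simp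
    rw [this]
    exact hσ
  have hmon : ∀ i, ∃ j, ∀ σ ∈ H, Z i (σ + 2 * Real.pi * Complex.I) = Z j σ := by
    intro i
    refine ba6_same hHo hHc hHne (G := fun σ => F (e + Complex.exp σ)) hG0 Z hZd hZr
      (fun σ => Z i (σ + 2 * Real.pi * Complex.I)) ?_ ?_
    · refine (hZd i).comp ?_ hshift
      intro σ _
      exact (differentiableAt_id.add (differentiableAt_const _)).differentiableWithinAt
    · intro σ hσ
      have h1 := hZr _ (hshift σ hσ)
      have h2 : Z i (σ + 2 * Real.pi * Complex.I) ∈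
          (F (e + Complex.exp (σ + 2 * Real.pi * Complex.I))).roots := by
        rw [h1, Multiset.mem_map]
        exact ⟨i, Finset.mem_univ i, rfl⟩
      have h3 := (mem_roots'.1 h2).2
      rw [Complex.exp_periodic σ] at h3
      exact h3
  choose π hπ using hmon
  have hinjZ : ∀ σ ∈ H, Function.Injective (fun i => Z i σ) := by
    intro σ hσ i j hij
    have h1 := hGnd σ hσ
    rw [hZr σ hσ] at h1
    exact Multiset.inj_on_of_nodup_map h1 i (Finset.mem_univ i) j (Finset.mem_univ j) hij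
  have hπi : Function.Injective π := by
    intro i j hij
    obtain ⟨σ, hσ⟩ := hHne
    apply hinjZ _ (hshift σ hσ)
    change Z i (σ + 2 * Real.pi * Complex.I) = Z j (σ + 2 * Real.pi * Complex.I)
    rw [hπ i σ hσ, hπ j σ hσ, hij]
  obtain ⟨M, hM1, hM⟩ : ∃ M : ℕ, 1 ≤ M ∧ ∀ i, π^[M] i = i := by
    have hbij : Function.Bijective π := Finite.injective_iff_bijective.1 hπi
    set p : Equiv.Perm (Fin D) := Equiv.ofBijective π hbij with hp
    refine ⟨orderOf p, orderOf_pos p, ?_⟩
    intro i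
    have h1 : (p ^ orderOf p) i = i := by rw [pow_orderOf_eq_one]; rfl
    rw [← Equiv.Perm.iterate_eq_pow] at h1
    exact h1
  have hiter : ∀ (k : ℕ) (i : Fin D), ∀ σ ∈ H,
      Z i (σ + (k : ℂ) * (2 * Real.pi * Complex.I)) = Z (π^[k] i) σ := by
    intro k
    induction k with
    | zero =>
      intro i σ _
      simp
    | succ k ih =>
      intro i σ hσ
      have h1 : σ + ((k + 1 : ℕ) : ℂ) * (2 * Real.pi * Complex.I) =
          (σ + 2 * Real.pi * Complex.I) + (k : ℂ) * (2 * Real.pi * Complex.I) := by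
        push_cast
        ring
      rw [h1, ih i _ (hshift σ hσ), hπ _ σ hσ, ← Function.iterate_succ_apply' π k i]
  have hperN : ∀ (k : ℕ) (i : Fin D), ∀ σ ∈ H,
      Z i (σ + (k : ℂ) * (M * (2 * Real.pi * Complex.I))) = Z i σ := by
    intro k
    induction k with
    | zero =>
      intro i σ _
      simp
    | succ k ih =>
      intro i σ hσ
      have h0 : σ + (M : ℂ) * (2 * Real.pi * Complex.I) ∈ H := by
        change (σ + (M : ℂ) * (2 * Real.pi * Complex.I)).re < b
        have : (σ + (M : ℂ) * (2 * Real.pi * Complex.I)).re = σ.re := by simp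
        rw [this]
        exact hσ
      have h1 : σ + ((k + 1 : ℕ) : ℂ) * (M * (2 * Real.pi * Complex.I)) =
          (σ + (M : ℂ) * (2 * Real.pi * Complex.I)) +
            (k : ℂ) * (M * (2 * Real.pi * Complex.I)) := by
        push_cast
        ring
      rw [h1, ih i _ h0, hiter M i σ hσ, hM i]
  have hre : ∀ (σ : ℂ) (k : ℤ), (σ + (k : ℂ) * (M * (2 * Real.pi * Complex.I))).re = σ.re := by
    intro σ k
    simp
  have hperZ : ∀ (k : ℤ) (i : Fin D), ∀ σ ∈ H,
      Z i (σ + (k : ℂ) * (M * (2 * Real.pi * Complex.I))) = Z i σ := by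
    intro k i σ hσ
    obtain ⟨n, rfl | rfl⟩ := k.eq_nat_or_neg
    · exact_mod_cast hperN n i σ hσ
    · have h0 : σ + ((-(n : ℤ) : ℤ) : ℂ) * (M * (2 * Real.pi * Complex.I)) ∈ H := by
        change (σ + ((-(n : ℤ) : ℤ) : ℂ) * (M * (2 * Real.pi * Complex.I))).re < b
        rw [hre]
        exact hσ
      have h1 := hperN n i _ h0
      rw [← h1]
      congr 1
      push_cast
      ring
  -- the functions on the punctured ball
  set r : ℝ := min 1 r₀ with hr
  have hrpos : 0 < r := lt_min one_pos hr₀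
  have hτ : ∀ τ : ℂ, τ ≠ 0 → ‖τ‖ < r → ∀ L : ℂ, Complex.exp L = τ → (M : ℂ) * L ∈ H := by
    intro τ h0 hτr L hL
    change ((M : ℂ) * L).re < b
    have h1 : ((M : ℂ) * L).re = M * L.re := by simp
    have h2 : ‖τ‖ = Real.exp L.re := by rw [← hL, Complex.norm_exp]
    have h3 : L.re < 0 := by
      have h4 : Real.exp L.re < 1 := by
        rw [← h2]
        exact lt_of_lt_of_le hτr (min_le_left _ _)
      exact Real.exp_lt_one_iff.1 h4
    have h4 : L.re < b := by
      have h5 : Real.exp L.re < r₀ := by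
        rw [← h2]
        exact lt_of_lt_of_le hτr (min_le_right _ _)
      rw [hb]
      exact (Real.lt_log_iff_exp_lt hr₀).2 h5
    have h5 : (1 : ℝ) ≤ M := by exact_mod_cast hM1
    rw [h1]
    nlinarith
  have hMexp : ∀ τ : ℂ, τ ≠ 0 → Complex.exp ((M : ℂ) * Complex.log τ) = τ ^ M := by
    intro τ h0
    rw [Complex.exp_nat_mul, Complex.exp_log h0]
  have hdiff : ∀ i, DifferentiableOn ℂ (fun τ => Z i ((M : ℂ) * Complex.log τ))
      (ball 0 r \ {0}) := by
    intro i τ₀ hτ₀
    obtain ⟨hτ1, hτ2⟩ := hτ₀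
    rw [mem_ball_zero_iff] at hτ1
    have h0 : τ₀ ≠ 0 := hτ2
    refine DifferentiableAt.differentiableWithinAt ?_
    -- a local branch of the logarithm
    have hlog : ∀ᶠ τ in nhds τ₀, τ / τ₀ ∈ Complex.slitPlane := by
      have h1 : ContinuousAt (fun τ : ℂ => τ / τ₀) τ₀ := continuousAt_id.div_const _
      have h2 : τ₀ / τ₀ ∈ Complex.slitPlane := by
        rw [div_self h0]
        exact Complex.one_mem_slitPlane
      exact h1.eventually_mem (Complex.isOpen_slitPlane.mem_nhds h2)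
    have hL : DifferentiableAt ℂ (fun τ : ℂ => Complex.log (τ / τ₀) + Complex.log τ₀) τ₀ := by
      refine DifferentiableAt.add ?_ (differentiableAt_const _)
      refine DifferentiableAt.clog (differentiableAt_id.div_const _) ?_
      rw [div_self h0]
      exact Complex.one_mem_slitPlane
    have hne : ∀ᶠ τ in nhds τ₀, τ ≠ 0 ∧ ‖τ‖ < r := by
      have h1 : ∀ᶠ τ in nhds τ₀, τ ≠ 0 := isOpen_ne.mem_nhds h0
      have h2 : ∀ᶠ τ in nhds τ₀, ‖τ‖ < r :=
        (isOpen_lt continuous_norm continuous_const).mem_nhds hτ1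
      exact h1.and h2
    have heq : (fun τ => Z i ((M : ℂ) * Complex.log τ)) =ᶠ[nhds τ₀]
        fun τ => Z i ((M : ℂ) * (Complex.log (τ / τ₀) + Complex.log τ₀)) := by
      filter_upwards [hne] with τ hτ'
      obtain ⟨h1, h2⟩ := hτ'
      have h3 : Complex.exp (Complex.log (τ / τ₀) + Complex.log τ₀) = τ := by
        rw [Complex.exp_add, Complex.exp_log (div_ne_zero h1 h0), Complex.exp_log h0,
          div_mul_cancel₀ _ h0]
      have h4 : Complex.exp (Complex.log τ) =
          Complex.exp (Complex.log (τ / τ₀) + Complex.log τ₀) := by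
        rw [h3, Complex.exp_log h1]
      obtain ⟨k, hk⟩ := Complex.exp_eq_exp_iff_exists_int.1 h4
      rw [hk]
      have h5 := hperZ k i _ (hτ τ h1 h2 _ h3)
      rw [← h5]
      congr 1
      ring
    refine DifferentiableAt.congr_of_eventuallyEq ?_ heq
    have h6 : Complex.exp (Complex.log (τ₀ / τ₀) + Complex.log τ₀) = τ₀ := by
      rw [div_self h0, Complex.log_one, zero_add, Complex.exp_log h0]
    have h7 : DifferentiableAt ℂ (Z i)
        ((M : ℂ) * (Complex.log (τ₀ / τ₀) + Complex.log τ₀)) :=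
      (hZd i).differentiableAt (hHo.mem_nhds (hτ τ₀ h0 hτ1 _ h6))
    exact h7.comp τ₀ ((differentiableAt_const _).mul hL)
  -- boundedness
  have hUmem : ∀ τ : ℂ, ‖τ‖ < r → e + τ ^ M ∈ closedBall e r₀ := by
    intro τ hτr
    rw [mem_closedBall, dist_eq_norm, add_sub_cancel_left, norm_pow]
    have h1 : ‖τ‖ < 1 := lt_of_lt_of_le hτr (min_le_left _ _)
    have h2 : ‖τ‖ < r₀ := lt_of_lt_of_le hτr (min_le_right _ _)
    have h3 : ‖τ‖ ^ M ≤ ‖τ‖ := pow_le_of_le_one (norm_nonneg _) h1.le (by omega)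
    linarith
  have hroots0 : ∀ τ : ℂ, τ ≠ 0 → ‖τ‖ < r → (F (e + τ ^ M)).roots =
      Finset.univ.val.map (fun i => Z i ((M : ℂ) * Complex.log τ)) := by
    intro τ h0 hτr
    have h1 := hZr _ (hτ τ h0 hτr _ (Complex.exp_log h0))
    rw [hMexp τ h0] at h1
    exact h1
  obtain ⟨CC, hC⟩ := pf_bound h (closedBall e r₀) (isCompact_closedBall e r₀) hsub
  have hbdd : ∀ i, BddAbove (norm ∘ (fun τ => Z i ((M : ℂ) * Complex.log τ)) ''
      (ball 0 r \ {0})) := by
    intro i
    refine ⟨CC, ?_⟩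
    rintro _ ⟨τ, ⟨hτ1, hτ2⟩, rfl⟩
    rw [mem_ball_zero_iff] at hτ1
    have h0 : τ ≠ 0 := hτ2
    apply hC _ (hUmem τ hτ1)
    have h1 : Z i ((M : ℂ) * Complex.log τ) ∈ (F (e + τ ^ M)).roots := by
      rw [hroots0 τ h0 hτ1, Multiset.mem_map]
      exact ⟨i, Finset.mem_univ i, rfl⟩
    exact (mem_roots'.1 h1).2
  set z : Fin D → ℂ → ℂ := fun i => Function.update (fun τ => Z i ((M : ℂ) * Complex.log τ)) 0
    (limUnder (nhdsWithin 0 {0}ᶜ) (fun τ => Z i ((M : ℂ) * Complex.log τ))) with hz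
  have hzd : ∀ i, DifferentiableOn ℂ (z i) (ball 0 r) := fun i =>
    Complex.differentiableOn_update_limUnder_of_bddAbove (ball_mem_nhds 0 hrpos) (hdiff i)
      (hbdd i)
  have hzne : ∀ i, ∀ τ : ℂ, τ ≠ 0 → z i τ = Z i ((M : ℂ) * Complex.log τ) := by
    intro i τ h0
    rw [hz]
    exact Function.update_of_ne h0 _ _
  have hprod : ∀ τ : ℂ, τ ≠ 0 → ‖τ‖ < r → F (e + τ ^ M) = ∏ i, (X - C (z i τ)) := by
    intro τ h0 hτr
    have h1 : F (e + τ ^ M) = ((F (e + τ ^ M)).roots.map fun a => X - C a).prod := by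
      symm
      apply prod_multiset_X_sub_C_of_monic_of_roots_card_eq
      · exact h.monic _ (hsub (hUmem τ hτr))
      · rw [hroots0 τ h0 hτr, Multiset.card_map, h.deg _ (hsub (hUmem τ hτr))]
        simp
    rw [h1, hroots0 τ h0 hτr, Multiset.map_map]
    change (Finset.univ.val.map _).prod = (Finset.univ.val.map _).prod
    congr 1
    apply Multiset.map_congr rfl
    intro i _
    rw [hzne i τ h0]
    rfl
  have hprod0 : F (e + (0 : ℂ) ^ M) = ∏ i, (X - C (z i 0)) := by
    apply Polynomial.funext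
    intro w
    have hc1 : ContinuousAt (fun τ : ℂ => (F (e + τ ^ M)).eval w) 0 := by
      have h1 : DifferentiableOn ℂ (fun s => (F s).eval w) U :=
        (pf_eval h (w := fun _ => w) (Set.Subset.refl U) (differentiableOn_const w)).1
      have h2 : ContinuousAt (fun s => (F s).eval w) (e + (0 : ℂ) ^ M) := by
        have h3 : e + (0 : ℂ) ^ M ∈ U := by
          apply hsub
          apply hUmem
          rw [norm_zero]
          exact hrpos
        exact (h1.differentiableAt (hU.mem_nhds h3)).continuousAt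
      exact ContinuousAt.comp (f := fun τ : ℂ => e + τ ^ M) h2
        (by fun_prop)
    have hc2 : ContinuousAt (fun τ : ℂ => (∏ i, (X - C (z i τ))).eval w) 0 := by
      have h1 : (fun τ : ℂ => (∏ i, (X - C (z i τ))).eval w) =
          fun τ : ℂ => ∏ i, (w - z i τ) := by
        funext τ
        rw [eval_prod]
        simp
      rw [h1]
      apply tendsto_finsetProd
      intro i _
      exact continuousAt_const.sub
        ((hzd i).differentiableAt (ball_mem_nhds 0 hrpos)).continuousAt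
    have hev : (fun τ : ℂ => (F (e + τ ^ M)).eval w) =ᶠ[nhdsWithin 0 {0}ᶜ]
        fun τ : ℂ => (∏ i, (X - C (z i τ))).eval w := by
      have h1 : ∀ᶠ τ : ℂ in nhdsWithin 0 {0}ᶜ, ‖τ‖ < r := by
        apply mem_nhdsWithin_of_mem_nhds
        apply (isOpen_lt continuous_norm continuous_const).mem_nhds
        change ‖(0 : ℂ)‖ < r
        rw [norm_zero]
        exact hrpos
      filter_upwards [h1, self_mem_nhdsWithin] with τ hτ1 hτ2
      rw [hprod τ hτ2 hτ1]
    have t1 := hc1.tendsto.mono_left (nhdsWithin_le_nhds (s := {0}ᶜ))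
    have t2 := hc2.tendsto.mono_left (nhdsWithin_le_nhds (s := {0}ᶜ))
    exact tendsto_nhds_unique (t1.congr' hev) t2
  refine ⟨M, r, z, ⟨hM1, hrpos, hzd, ?_⟩, ?_⟩
  · intro τ hτr
    rw [mem_ball_zero_iff] at hτr
    have h1 : F (e + τ ^ M) = ∏ i, (X - C (z i τ)) := by
      by_cases h0 : τ = 0
      · rw [h0]
        exact hprod0
      · exact hprod τ h0 hτr
    rw [h1]
    have h2 : ∏ i, (X - C (z i τ)) =
        ((Finset.univ.val.map (fun i => z i τ)).map (fun a => X - C a)).prod := by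
      rw [Multiset.map_map]
      rfl
    rw [h2, roots_multiset_prod_X_sub_C]
  · intro τ hτr
    rw [mem_ball_zero_iff] at hτr
    exact hsub (hUmem τ hτr)

theorem pui_mul {D : ℕ} {F : ℂ → ℂ[X]} {e : ℂ} {M : ℕ} {r : ℝ} {z : Fin D → ℂ → ℂ}
    (h : Pui D F e M r z) (k : ℕ) (hk : 1 ≤ k) :
    Pui D F e (k * M) (min r 1) (fun i τ => z i (τ ^ k)) := by
  have hm : ∀ τ ∈ ball (0 : ℂ) (min r 1), τ ^ k ∈ ball (0 : ℂ) r := by
    intro τ hτ
    rw [mem_ball_zero_iff] at hτ ⊢
    rw [norm_pow]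
    have h1 : ‖τ‖ < 1 := lt_of_lt_of_le hτ (min_le_right _ _)
    have h2 : ‖τ‖ < r := lt_of_lt_of_le hτ (min_le_left _ _)
    have h3 : ‖τ‖ ^ k ≤ ‖τ‖ := pow_le_of_le_one (norm_nonneg _) h1.le (by omega)
    linarith
  refine ⟨Nat.mul_pos hk h.posM, lt_min h.posr one_pos, ?_, ?_⟩
  · intro i
    refine (h.diff i).comp ?_ hm
    exact (differentiable_id.pow k).differentiableOn
  · intro τ hτ
    rw [pow_mul, h.roots _ (hm τ hτ)]

end Pool.Agent.LSF
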