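import Mathlib

/-!
BA7 (AVGA, DIR): families of holomorphic functions with value `1` at `0`.
-/

namespace Pool.Agent.LSF

open Metric Filter

namespace BA7

open Topology

lemma locform (f : ℂ → ℂ) (r : ℝ) (hr : 0 < r) (hf : DifferentiableOn ℂ f (ball 0 r))
    (h1 : f 0 = 1) (hne : ∀ τ ∈ ball (0 : ℂ) r, τ ≠ 0 → f τ ≠ 1) :
    ∃ (k : ℕ) (h : ℂ → ℂ), 1 ≤ k ∧ ContinuousAt h 0 ∧ h 0 ≠ 0 ∧
      ∀ᶠ τ in 𝓝 (0 : ℂ), f τ = 1 + τ ^ k * h τ := by
  have hb : ball (0 : ℂ) r ∈ 𝓝 (0 : ℂ) := ball_mem_nhds _ hr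
  have ha : AnalyticAt ℂ (fun τ => f τ - 1) 0 :=
    (hf.analyticAt hb).sub analyticAt_const
  have hn : ¬ ∀ᶠ z in 𝓝 (0 : ℂ), (fun τ => f τ - 1) z = 0 := by
    intro hcon
    obtain ⟨ε, hε, hball⟩ := Metric.eventually_nhds_iff_ball.1 hcon
    have hm : 0 < min ε r := lt_min hε hr
    have hx : (((min ε r / 2 : ℝ)) : ℂ) ∈ ball (0 : ℂ) (min ε r) := by
      rw [mem_ball_zero_iff, Complex.norm_real, Real.norm_of_nonneg (by positivity)]
      linarith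
    have h2 := hball _ (ball_subset_ball (min_le_left _ _) hx)
    have h3 := hne _ (ball_subset_ball (min_le_right _ _) hx) (by
      rw [Complex.ofReal_ne_zero]; positivity)
    exact h3 (sub_eq_zero.1 h2)
  obtain ⟨k, h, hh, h0, he⟩ := ha.exists_eventuallyEq_pow_smul_nonzero_iff.2 hn
  refine ⟨k, h, ?_, hh.continuousAt, h0, ?_⟩
  · rcases Nat.eq_zero_or_pos k with hk | hk
    · exfalso
      have h2 := he.self_of_nhds
      simp only [hk, h1, sub_self, pow_zero, one_smul] at h2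
      exact h0 h2.symm
    · exact hk
  · filter_upwards [he] with τ hτ
    simp only [sub_zero, smul_eq_mul] at hτ
    rw [← hτ]; ring

/-- the path `ρ ↦ ρ u` -/
lemma tend_path (u : ℂ) : Tendsto (fun ρ : ℝ => (ρ : ℂ) * u) (𝓝[>] 0) (𝓝 0) := by
  have h : Continuous fun ρ : ℝ => (ρ : ℂ) * u := by fun_prop
  have h2 := (h.tendsto 0).mono_left (nhdsWithin_le_nhds (s := Set.Ioi (0 : ℝ)))
  simpa using h2

lemma tend_w {h : ℂ → ℂ} (hh : ContinuousAt h 0) (u : ℂ) (k : ℕ) :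
    Tendsto (fun ρ : ℝ => u ^ k * h (ρ * u)) (𝓝[>] 0) (𝓝 (u ^ k * h 0)) :=
  tendsto_const_nhds.mul (hh.tendsto.comp (tend_path u))

lemma norm_sq (k : ℕ) (ρ : ℝ) (w : ℂ) : ‖1 + (ρ : ℂ) ^ k * w‖ ^ 2 =
    1 + ρ ^ k * (2 * w.re + ρ ^ k * ‖w‖ ^ 2) := by
  rw [← Complex.ofReal_pow, Complex.sq_norm, Complex.sq_norm, Complex.normSq_apply,
    Complex.normSq_apply]
  obtain ⟨s, hs⟩ : ∃ s : ℝ, s = ρ ^ k := ⟨_, rfl⟩
  rw [← hs]
  simp only [Complex.add_re, Complex.add_im, Complex.one_re, Complex.one_im,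
    Complex.re_ofReal_mul, Complex.im_ofReal_mul]
  ring

lemma dirloc {f h : ℂ → ℂ} {k : ℕ} (hk : 1 ≤ k) (hh : ContinuousAt h 0)
    (he : ∀ᶠ τ in 𝓝 (0 : ℂ), f τ = 1 + τ ^ k * h τ) (u : ℂ)
    (hre : (h 0 * u ^ k).re < 0) : ∀ᶠ ρ : ℝ in 𝓝[>] 0, ‖f (ρ * u)‖ < 1 := by
  have hw := tend_w hh u k
  obtain ⟨a, ha⟩ : ∃ a : ℝ, a = -(h 0 * u ^ k).re := ⟨_, rfl⟩
  have ha0 : 0 < a := by rw [ha]; linarith
  have e1 : ∀ᶠ ρ : ℝ in 𝓝[>] 0, (u ^ k * h (ρ * u)).re < -(a / 2) := by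
    have h2 := (Complex.continuous_re.tendsto _).comp hw
    have h3 : (u ^ k * h 0).re < -(a / 2) := by
      rw [mul_comm, ← neg_neg (h 0 * u ^ k).re, ← ha]; linarith
    exact h2.eventually (gt_mem_nhds h3)
  have e2 : ∀ᶠ ρ : ℝ in 𝓝[>] 0, ρ ^ k * ‖u ^ k * h (ρ * u)‖ ^ 2 < a := by
    have h2 : Tendsto (fun ρ : ℝ => ρ ^ k * ‖u ^ k * h (ρ * u)‖ ^ 2) (𝓝[>] 0)
        (𝓝 ((0 : ℝ) ^ k * ‖u ^ k * h 0‖ ^ 2)) := by
      refine Tendsto.mul ?_ (hw.norm.pow 2)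
      exact ((continuous_pow k).tendsto 0).mono_left nhdsWithin_le_nhds
    rw [zero_pow (by omega), zero_mul] at h2
    exact h2.eventually (gt_mem_nhds ha0)
  filter_upwards [e1, e2, (tend_path u).eventually he, self_mem_nhdsWithin] with ρ h1 h2 h3 h4
  have h4' : 0 < ρ := h4
  rw [h3, mul_pow, mul_assoc]
  have h5 := norm_sq k ρ (u ^ k * h (ρ * u))
  have h6 : ρ ^ k * (2 * (u ^ k * h (ρ * u)).re + ρ ^ k * ‖u ^ k * h (ρ * u)‖ ^ 2) < 0 := by
    refine mul_neg_of_pos_of_neg (pow_pos h4' k) ?_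
    linarith
  nlinarith [norm_nonneg (1 + (ρ : ℂ) ^ k * (u ^ k * h (ρ * u)))]

lemma reloc {f h : ℂ → ℂ} {k : ℕ} (hk : 1 ≤ k) (hh : ContinuousAt h 0)
    (he : ∀ᶠ τ in 𝓝 (0 : ℂ), f τ = 1 + τ ^ k * h τ) (u : ℂ)
    (hre : 0 < (h 0 * u ^ k).re) :
    ∃ m : ℝ, 0 < m ∧ ∀ᶠ ρ : ℝ in 𝓝[>] 0, (1 / (1 - f (ρ * u))).re ≤ -m / ρ := by
  have hw := tend_w hh u k
  obtain ⟨a, ha⟩ : ∃ a : ℝ, a = (h 0 * u ^ k).re := ⟨_, rfl⟩
  have ha0 : 0 < a := by rw [ha]; exact hre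
  obtain ⟨B, hB⟩ : ∃ B : ℝ, B = ‖u ^ k * h 0‖ + 1 := ⟨_, rfl⟩
  have hB0 : 0 < B := by rw [hB]; positivity
  have e1 : ∀ᶠ ρ : ℝ in 𝓝[>] 0, a / 2 < (u ^ k * h (ρ * u)).re := by
    have h2 := (Complex.continuous_re.tendsto _).comp hw
    have h3 : a / 2 < (u ^ k * h 0).re := by
      rw [mul_comm, ← ha]; linarith
    exact h2.eventually (lt_mem_nhds h3)
  have e2 : ∀ᶠ ρ : ℝ in 𝓝[>] 0, ‖u ^ k * h (ρ * u)‖ < B :=
    hw.norm.eventually (gt_mem_nhds (by rw [hB]; linarith))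
  have e3 : ∀ᶠ ρ : ℝ in 𝓝[>] 0, ρ < 1 :=
    (eventually_lt_nhds one_pos).filter_mono nhdsWithin_le_nhds
  refine ⟨a / 2 / B ^ 2, by positivity, ?_⟩
  filter_upwards [e1, e2, e3, (tend_path u).eventually he, self_mem_nhdsWithin]
    with ρ h1 h2 h3 h4 h5
  have h5' : 0 < ρ := h5
  rw [h4, mul_pow, mul_assoc]
  obtain ⟨w, hwd⟩ : ∃ w, w = u ^ k * h (ρ * u) := ⟨_, rfl⟩
  rw [← hwd] at h1 h2 ⊢
  have hwne : w ≠ 0 := by
    intro h0
    rw [h0, Complex.zero_re] at h1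
    linarith
  have hwn : 0 < ‖w‖ := norm_pos_iff.2 hwne
  have hρk : 0 < ρ ^ k := pow_pos h5' k
  have hρk1 : ρ ^ k ≤ ρ := by
    calc ρ ^ k ≤ ρ ^ 1 := pow_le_pow_of_le_one h5'.le h3.le hk
      _ = ρ := pow_one ρ
  have e4 : 1 - (1 + (ρ : ℂ) ^ k * w) = ((-(ρ ^ k) : ℝ) : ℂ) * w := by
    push_cast; ring
  have e5 : (1 / (1 - (1 + (ρ : ℂ) ^ k * w))).re = -(w.re / (ρ ^ k * ‖w‖ ^ 2)) := by
    rw [e4, one_div, mul_inv, ← Complex.ofReal_inv, Complex.re_ofReal_mul, Complex.inv_re,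
      Complex.normSq_eq_norm_sq]
    have : ρ ^ k ≠ 0 := hρk.ne'
    field_simp
  rw [e5]
  have e6 : a / 2 / B ^ 2 / ρ ≤ w.re / (ρ ^ k * ‖w‖ ^ 2) := by
    rw [div_div]
    refine div_le_div₀ (by linarith) h1.le (by positivity) ?_
    calc ρ ^ k * ‖w‖ ^ 2 ≤ ρ * B ^ 2 := by gcongr
      _ = B ^ 2 * ρ := mul_comm _ _
  rw [neg_div]
  linarith

lemma fin_bad (c : ℂ) (hc : c ≠ 0) (k : ℕ) (hk : 1 ≤ k) :
    {u : ℂ | ‖u‖ = 1 ∧ (c * u ^ k).re = 0}.Finite := by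
  classical
  obtain ⟨P, hP⟩ : ∃ P : Polynomial ℂ, P = Polynomial.C (c ^ 2) * Polynomial.X ^ (2 * k) +
      Polynomial.C ((‖c‖ ^ 2 : ℝ) : ℂ) := ⟨_, rfl⟩
  have hP0 : P ≠ 0 := by
    intro h0
    have h1 := congrArg (fun Q : Polynomial ℂ => Q.coeff 0) h0
    simp only [hP, Polynomial.coeff_add, Polynomial.coeff_C_mul, Polynomial.coeff_X_pow,
      Polynomial.coeff_C_zero, Polynomial.coeff_zero] at h1
    rw [if_neg (by omega), mul_zero, zero_add, Complex.ofReal_eq_zero] at h1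
    have : 0 < ‖c‖ ^ 2 := by positivity
    linarith
  refine (P.roots.toFinset.finite_toSet).subset ?_
  rintro u ⟨hu, hre⟩
  rw [Finset.mem_coe, Multiset.mem_toFinset, Polynomial.mem_roots hP0, Polynomial.IsRoot, hP]
  simp only [Polynomial.eval_add, Polynomial.eval_mul, Polynomial.eval_C, Polynomial.eval_pow,
    Polynomial.eval_X]
  have h1 : ‖c * u ^ k‖ = ‖c‖ := by rw [norm_mul, norm_pow, hu, one_pow, mul_one]
  have h2 : (c * u ^ k) ^ 2 = -((‖c‖ ^ 2 : ℝ) : ℂ) := by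
    rw [← h1, Complex.sq_norm, Complex.normSq_apply, hre]
    apply Complex.ext
    · simp [pow_two, hre]
    · simp [pow_two, hre]
  have h3 : c ^ 2 * u ^ (2 * k) = (c * u ^ k) ^ 2 := by ring
  rw [h3, h2]
  ring

lemma circle_infinite : {u : ℂ | ‖u‖ = 1}.Infinite := by
  have h := (isPreconnected_sphere (E := ℂ) (by rw [Complex.rank_real_complex]; norm_num) 0 1)
  have h2 : (Metric.sphere (0 : ℂ) 1).Nontrivial :=
    ⟨1, by simp, -1, by simp, by norm_num⟩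
  have h3 := h.infinite_of_nontrivial h2
  refine h3.mono ?_
  intro u hu
  simpa using hu

end BA7

open BA7 in
theorem avga {ι : Type} (I : Finset ι) (f : ι → ℂ → ℂ) (r : ℝ) (hr : 0 < r) (M' : ℕ)
    (hf : ∀ i ∈ I, DifferentiableOn ℂ (f i) (ball 0 r)) (h1 : ∀ i ∈ I, f i 0 = 1)
    (hne : ∀ i ∈ I, ∀ τ ∈ ball (0 : ℂ) r, τ ≠ 0 → f i τ ≠ 1)
    (hc : ∀ τ ∈ ball (0 : ℂ) r, τ ≠ 0 → ∀ J : Finset ι, J ⊆ I → (∀ i ∈ J, ‖f i τ‖ < 1) →
      (∀ i ∈ I, ‖f i τ‖ < 1 → f i τ ≠ 0) → J.card ≤ M') : I.card ≤ 2 * M' := by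
  classical
  have hloc : ∀ i ∈ I, ∃ (k : ℕ) (h : ℂ → ℂ), 1 ≤ k ∧ ContinuousAt h 0 ∧ h 0 ≠ 0 ∧
      ∀ᶠ τ in nhds (0 : ℂ), f i τ = 1 + τ ^ k * h τ :=
    fun i hi => locform (f i) r hr (hf i hi) (h1 i hi) (hne i hi)
  choose! k h hk hh h0 he using hloc
  obtain ⟨κ, hκ⟩ : ∃ κ : ℕ, κ = ∏ i ∈ I, k i := ⟨_, rfl⟩
  have hκ0 : 0 < κ := by
    rw [hκ]; exact Finset.prod_pos fun i hi => hk i hi
  have hκC : (κ : ℂ) ≠ 0 := by exact_mod_cast hκ0.ne'
  obtain ⟨ω, hω⟩ : ∃ ω : ℕ → ℂ, ω = fun j : ℕ =>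
      Complex.exp (Real.pi * Complex.I * (j : ℂ) / (κ : ℂ)) := ⟨_, rfl⟩
  have hωn : ∀ j, ‖ω j‖ = 1 := by
    intro j
    rw [hω]
    have : (Real.pi * Complex.I * j / κ : ℂ) = ((Real.pi * j / κ : ℝ) : ℂ) * Complex.I := by
      push_cast; ring
    simp only [this]
    exact Complex.norm_exp_ofReal_mul_I _
  have hω0 : ∀ j, ω j ≠ 0 := fun j => by
    rw [← norm_ne_zero_iff, hωn]; exact one_ne_zero
  have hωper : ∀ j, ω (j + 2 * κ) = ω j := by
    intro j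
    rw [hω]
    simp only
    have : (Real.pi * Complex.I * ((j + 2 * κ : ℕ) : ℂ) / κ : ℂ) =
        Real.pi * Complex.I * j / κ + 2 * Real.pi * Complex.I := by
      push_cast; field_simp
    rw [this, Complex.exp_add, Complex.exp_two_pi_mul_I, mul_one]
  have hωshift : ∀ i ∈ I, ∀ j, ω (j + κ / k i) ^ k i = -(ω j ^ k i) := by
    intro i hi j
    have hdiv : k i ∣ κ := by rw [hκ]; exact Finset.dvd_prod_of_mem _ hi
    obtain ⟨q, hq⟩ := hdiv
    have hki := hk i hi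
    have hq' : κ / k i = q := by rw [hq]; exact Nat.mul_div_cancel_left _ (by omega)
    have hkC : (k i : ℂ) ≠ 0 := by exact_mod_cast (by omega : k i ≠ 0)
    have hqC : (q : ℂ) ≠ 0 := by
      intro h00
      apply hκC
      rw [hq]; push_cast; rw [h00, mul_zero]
    rw [hq', hω]
    simp only
    rw [← Complex.exp_nat_mul, ← Complex.exp_nat_mul]
    have : (k i : ℂ) * (Real.pi * Complex.I * ((j + q : ℕ) : ℂ) / κ) =
        (k i : ℂ) * (Real.pi * Complex.I * j / κ) + Real.pi * Complex.I := by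
      rw [hq]; push_cast; field_simp
    rw [this, Complex.exp_add, Complex.exp_pi_mul_I]
    ring
  -- choice of the direction
  obtain ⟨u₀, hu1, hu2⟩ : ∃ u₀ : ℂ, ‖u₀‖ = 1 ∧
      ∀ i ∈ I, ∀ j ∈ Finset.range (2 * κ), (h i 0 * (u₀ * ω j) ^ k i).re ≠ 0 := by
    have hfin : (⋃ i ∈ I, ⋃ j ∈ Finset.range (2 * κ),
        {u : ℂ | ‖u‖ = 1 ∧ ((h i 0 * ω j ^ k i) * u ^ k i).re = 0}).Finite := by
      refine Set.Finite.biUnion (Finset.finite_toSet I) fun i hi => ?_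
      refine Set.Finite.biUnion (Finset.finite_toSet _) fun j _ => ?_
      exact fin_bad _ (mul_ne_zero (h0 i hi) (pow_ne_zero _ (hω0 j))) _ (hk i hi)
    obtain ⟨u, hu, hnu⟩ := circle_infinite.exists_notMem_finite hfin
    refine ⟨u, hu, fun i hi j hj hre => hnu ?_⟩
    refine Set.mem_biUnion hi (Set.mem_biUnion hj ⟨hu, ?_⟩)
    rw [← hre]
    congr 1
    rw [mul_pow]; ring
  -- attracting indices
  have hcount : ∀ i ∈ I, κ ≤ ((Finset.range (2 * κ)).filter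
      (fun j => (h i 0 * (u₀ * ω j) ^ k i).re < 0)).card := by
    intro i hi
    obtain ⟨p, hp⟩ : ∃ p : ℕ → Prop, p = fun j => (h i 0 * (u₀ * ω j) ^ k i).re < 0 := ⟨_, rfl⟩
    have hper : Function.Periodic p (2 * κ) := by
      intro j
      rw [hp]
      simp only
      rw [hωper]
    have hne' : ∀ j, (h i 0 * (u₀ * ω j) ^ k i).re ≠ 0 := by
      intro j
      have hred : ω j = ω (j % (2 * κ)) := by
        have : ∀ m a : ℕ, ω (a + m * (2 * κ)) = ω a := by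
          intro m a
          induction m with
          | zero => simp
          | succ m ih => rw [Nat.succ_mul, ← Nat.add_assoc, hωper, ih]
        conv_lhs => rw [← Nat.mod_add_div j (2 * κ), mul_comm (2 * κ) (j / (2 * κ))]
        rw [this]
      rw [hred]
      exact hu2 i hi _ (Finset.mem_range.2 (Nat.mod_lt _ (by omega)))
    have hsh : ∀ j, p (j + κ / k i) ↔ ¬ p j := by
      intro j
      rw [hp]
      simp only
      have e1 : h i 0 * (u₀ * ω (j + κ / k i)) ^ k i = -(h i 0 * (u₀ * ω j) ^ k i) := by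
        rw [mul_pow, hωshift i hi j, mul_pow]; ring
      rw [e1, Complex.neg_re]
      have := hne' j
      constructor
      · intro h3 h4; linarith
      · intro h3
        rw [not_lt] at h3
        have := lt_of_le_of_ne h3 (Ne.symm this)
        linarith
    have c1 := Nat.filter_Ico_card_eq_of_periodic 0 (2 * κ) p hper
    have c2 := Nat.filter_Ico_card_eq_of_periodic (κ / k i) (2 * κ) p hper
    rw [← c1] at c2
    have c3 : ((Finset.Ico (κ / k i) (κ / k i + 2 * κ)).filter p).card =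
        ((Finset.range (2 * κ)).filter (fun j => ¬ p j)).card := by
      symm
      refine Finset.card_bij (fun j _ => j + κ / k i) ?_ ?_ ?_
      · intro j hj
        rw [Finset.mem_filter, Finset.mem_range] at hj
        rw [Finset.mem_filter, Finset.mem_Ico]
        exact ⟨⟨by omega, by omega⟩, (hsh j).2 hj.2⟩
      · intro a _ b _ hab
        exact Nat.add_right_cancel hab
      · intro b hb
        rw [Finset.mem_filter, Finset.mem_Ico] at hb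
        refine ⟨b - κ / k i, ?_, by omega⟩
        rw [Finset.mem_filter, Finset.mem_range]
        refine ⟨by omega, ?_⟩
        rw [← hsh, Nat.sub_add_cancel hb.1.1]
        exact hb.2
    have c4 := Finset.card_filter_add_card_filter_not (s := Finset.range (2 * κ)) p
    rw [Finset.card_range] at c4
    have c5 : Finset.Ico 0 (0 + 2 * κ) = Finset.range (2 * κ) := by
      rw [zero_add, Finset.range_eq_Ico]
    rw [c5] at c2
    have c6 : κ ≤ ((Finset.range (2 * κ)).filter p).card := by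
      have := c3.symm.trans c2
      omega
    rw [hp] at c6
    exact c6
  -- a small radius
  have hev : ∀ᶠ ρ : ℝ in nhdsWithin 0 (Set.Ioi 0), ∀ i ∈ I, ∀ j ∈ Finset.range (2 * κ),
      ((h i 0 * (u₀ * ω j) ^ k i).re < 0 → ‖f i (ρ * (u₀ * ω j))‖ < 1) ∧
      f i (ρ * (u₀ * ω j)) ≠ 0 := by
    rw [eventually_all_finset]
    intro i hi
    rw [eventually_all_finset]
    intro j hj
    refine Eventually.and ?_ ?_
    · by_cases hre : (h i 0 * (u₀ * ω j) ^ k i).re < 0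
      · filter_upwards [dirloc (hk i hi) (hh i hi) (he i hi) _ hre] with ρ hρ _ using hρ
      · exact Eventually.of_forall fun ρ h3 => absurd h3 hre
    · have hcont : ContinuousAt (f i) 0 :=
        (hf i hi).continuousOn.continuousAt (ball_mem_nhds _ hr)
      have hne0 : ∀ᶠ τ in nhds (0 : ℂ), f i τ ≠ 0 :=
        hcont.eventually_ne (by rw [h1 i hi]; exact one_ne_zero)
      exact (tend_path _).eventually hne0
  have hev2 : ∀ᶠ ρ : ℝ in nhdsWithin 0 (Set.Ioi 0), ρ < r :=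
    (eventually_lt_nhds hr).filter_mono nhdsWithin_le_nhds
  obtain ⟨ρ, ⟨hρ1, hρ2⟩, hρ3⟩ := ((hev.and hev2).and self_mem_nhdsWithin).exists
  have hρ0 : 0 < ρ := hρ3
  have hnorm : ∀ j, ‖(ρ : ℂ) * (u₀ * ω j)‖ = ρ := by
    intro j
    rw [norm_mul, norm_mul, hu1, hωn, Complex.norm_real, Real.norm_of_nonneg hρ0.le]
    ring
  have hJ : ∀ j ∈ Finset.range (2 * κ),
      (I.filter (fun i => (h i 0 * (u₀ * ω j) ^ k i).re < 0)).card ≤ M' := by
    intro j hj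
    refine hc (ρ * (u₀ * ω j)) ?_ ?_ _ (Finset.filter_subset _ _) ?_ ?_
    · rw [mem_ball_zero_iff, hnorm]; exact hρ2
    · rw [← norm_ne_zero_iff, hnorm]; exact hρ0.ne'
    · intro i hi
      rw [Finset.mem_filter] at hi
      exact (hρ1 i hi.1 j hj).1 hi.2
    · intro i hi _
      exact (hρ1 i hi j hj).2
  have hdc : ∑ i ∈ I, ((Finset.range (2 * κ)).filter
      (fun j => (h i 0 * (u₀ * ω j) ^ k i).re < 0)).card =
      ∑ j ∈ Finset.range (2 * κ),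
        (I.filter (fun i => (h i 0 * (u₀ * ω j) ^ k i).re < 0)).card := by
    simp_rw [Finset.card_filter]
    exact Finset.sum_comm
  have t1 : κ * I.card ≤ ∑ i ∈ I, ((Finset.range (2 * κ)).filter
      (fun j => (h i 0 * (u₀ * ω j) ^ k i).re < 0)).card := by
    rw [mul_comm, ← smul_eq_mul]
    exact Finset.card_nsmul_le_sum _ _ _ hcount
  have t2 : ∑ j ∈ Finset.range (2 * κ),
      (I.filter (fun i => (h i 0 * (u₀ * ω j) ^ k i).re < 0)).card ≤ 2 * κ * M' := by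
    have := Finset.sum_le_card_nsmul _ _ _ hJ
    rwa [Finset.card_range, smul_eq_mul] at this
  have t3 : κ * I.card ≤ κ * (2 * M') := by
    calc κ * I.card ≤ 2 * κ * M' := t1.trans (hdc.le.trans t2)
      _ = κ * (2 * M') := by ring
  exact Nat.le_of_mul_le_mul_left t3 hκ0

open BA7 in
theorem dir {ι : Type} (I : Finset ι) (hI : I.Nonempty) (f : ι → ℂ → ℂ) (r : ℝ) (hr : 0 < r)
    (hf : ∀ i ∈ I, DifferentiableOn ℂ (f i) (ball 0 r)) (h1 : ∀ i ∈ I, f i 0 = 1)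
    (hne : ∀ i ∈ I, ∀ τ ∈ ball (0 : ℂ) r, τ ≠ 0 → f i τ ≠ 1)
    (C : ℝ) (hC : ∀ τ ∈ ball (0 : ℂ) r, τ ≠ 0 → ‖∑ i ∈ I, 1 / (1 - f i τ)‖ ≤ C) :
    ∃ Φ : Finset ℂ, ∀ u : ℂ, ‖u‖ = 1 → u ∉ Φ →
      ∃ i ∈ I, ∃ ρ₀ > 0, ∀ ρ : ℝ, 0 < ρ → ρ < ρ₀ → ‖f i (ρ * u)‖ < 1 := by
  classical
  have hloc : ∀ i ∈ I, ∃ (k : ℕ) (h : ℂ → ℂ), 1 ≤ k ∧ ContinuousAt h 0 ∧ h 0 ≠ 0 ∧
      ∀ᶠ τ in nhds (0 : ℂ), f i τ = 1 + τ ^ k * h τ :=
    fun i hi => locform (f i) r hr (hf i hi) (h1 i hi) (hne i hi)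
  choose! k h hk hh h0 he using hloc
  have hfin : (⋃ i ∈ I, {u : ℂ | ‖u‖ = 1 ∧ (h i 0 * u ^ k i).re = 0}).Finite :=
    Set.Finite.biUnion (Finset.finite_toSet I) fun i hi => fin_bad _ (h0 i hi) _ (hk i hi)
  refine ⟨hfin.toFinset, fun u hu hnu => ?_⟩
  rw [Set.Finite.mem_toFinset] at hnu
  have hre : ∀ i ∈ I, (h i 0 * u ^ k i).re ≠ 0 := by
    intro i hi h3
    exact hnu (Set.mem_biUnion hi ⟨hu, h3⟩)
  by_cases hex : ∃ i ∈ I, (h i 0 * u ^ k i).re < 0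
  · obtain ⟨i, hi, hneg⟩ := hex
    have hev := dirloc (hk i hi) (hh i hi) (he i hi) u hneg
    obtain ⟨ρ₀, hρ₀, hsub⟩ := mem_nhdsGT_iff_exists_Ioo_subset.1 hev
    exact ⟨i, hi, ρ₀, hρ₀, fun ρ h3 h4 => hsub ⟨h3, h4⟩⟩
  · exfalso
    push Not at hex
    have hpos : ∀ i ∈ I, 0 < (h i 0 * u ^ k i).re :=
      fun i hi => lt_of_le_of_ne (hex i hi) (Ne.symm (hre i hi))
    have hm : ∀ i ∈ I, ∃ m : ℝ, 0 < m ∧
        ∀ᶠ ρ : ℝ in nhdsWithin 0 (Set.Ioi 0), (1 / (1 - f i (ρ * u))).re ≤ -m / ρ :=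
      fun i hi => reloc (hk i hi) (hh i hi) (he i hi) u (hpos i hi)
    choose! m hm0 hm1 using hm
    obtain ⟨i₀, hi₀⟩ := hI
    have hev : ∀ᶠ ρ : ℝ in nhdsWithin 0 (Set.Ioi 0), ∀ i ∈ I,
        (1 / (1 - f i (ρ * u))).re ≤ -m i / ρ := by
      rw [eventually_all_finset]
      exact hm1
    have hev2 : ∀ᶠ ρ : ℝ in nhdsWithin 0 (Set.Ioi 0), ρ < r :=
      (eventually_lt_nhds hr).filter_mono nhdsWithin_le_nhds
    have hδ : 0 < m i₀ / (|C| + 1) := div_pos (hm0 i₀ hi₀) (by positivity)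
    have hev3 : ∀ᶠ ρ : ℝ in nhdsWithin 0 (Set.Ioi 0), ρ < m i₀ / (|C| + 1) :=
      (eventually_lt_nhds hδ).filter_mono nhdsWithin_le_nhds
    obtain ⟨ρ, ⟨⟨⟨g1, g2⟩, g3⟩, g4⟩⟩ :=
      (((hev.and hev2).and hev3).and self_mem_nhdsWithin).exists
    have hρ0 : 0 < ρ := g4
    have hnorm : ‖(ρ : ℂ) * u‖ = ρ := by
      rw [norm_mul, hu, Complex.norm_real, Real.norm_of_nonneg hρ0.le, mul_one]
    have hb := hC (ρ * u) (by rw [mem_ball_zero_iff, hnorm]; exact g2)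
      (by rw [← norm_ne_zero_iff, hnorm]; exact hρ0.ne')
    have hre2 : (∑ i ∈ I, 1 / (1 - f i (ρ * u))).re ≤ -m i₀ / ρ := by
      rw [Complex.re_sum, ← Finset.add_sum_erase _ _ hi₀]
      have s1 : ∑ i ∈ I.erase i₀, (1 / (1 - f i (ρ * u))).re ≤ 0 := by
        refine Finset.sum_nonpos fun i hi => ?_
        have hi' := Finset.mem_of_mem_erase hi
        refine (g1 i hi').trans ?_
        rw [neg_div]
        have := div_pos (hm0 i hi') hρ0
        linarith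
      have := g1 i₀ hi₀
      linarith
    have h5 := (Complex.abs_re_le_norm (∑ i ∈ I, 1 / (1 - f i (ρ * u)))).trans hb
    have h6 : |C| + 1 < m i₀ / ρ := by
      rw [lt_div_iff₀ hρ0, mul_comm]
      rwa [lt_div_iff₀ (by positivity)] at g3
    have h7 := neg_abs_le (∑ i ∈ I, 1 / (1 - f i (ρ * u))).re
    have h8 := le_abs_self C
    rw [neg_div] at hre2
    linarith

/-- on a small circle a function with value `1` at the centre exceeds `1` somewhere -/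
theorem circ_exceed (f : ℂ → ℂ) (r : ℝ) (hr : 0 < r) (hf : DifferentiableOn ℂ f (ball 0 r))
    (h1 : f 0 = 1) (hne : ∀ τ ∈ ball (0 : ℂ) r, τ ≠ 0 → f τ ≠ 1) (ρ : ℝ) (h0 : 0 < ρ)
    (hρ : ρ < r) : ∃ τ : ℂ, ‖τ‖ = ρ ∧ 1 < ‖f τ‖ := by
  by_contra hcon
  push Not at hcon
  have hsub : closedBall (0 : ℂ) ρ ⊆ ball 0 r := closedBall_subset_ball hρ
  have hd : DiffContOnCl ℂ f (ball 0 ρ) := by
    refine ⟨hf.mono (ball_subset_closedBall.trans hsub), ?_⟩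
    refine hf.continuousOn.mono ?_
    rw [closure_ball _ h0.ne']
    exact hsub
  have hle : ∀ τ ∈ ball (0 : ℂ) ρ, ‖f τ‖ ≤ 1 := by
    intro τ hτ
    refine Complex.norm_le_of_forall_mem_frontier_norm_le isBounded_ball hd ?_
      (subset_closure hτ)
    intro z hz
    rw [frontier_ball _ h0.ne', mem_sphere_zero_iff_norm] at hz
    exact hcon z hz
  have hmax : IsMaxOn (norm ∘ f) (ball (0 : ℂ) ρ) 0 := by
    intro τ hτ
    simp only [Set.mem_ofPred_eq, Function.comp_apply, h1, norm_one]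
    exact hle τ hτ
  have heq := Complex.eqOn_of_isPreconnected_of_isMaxOn_norm
    (convex_ball (0 : ℂ) ρ).isPreconnected isOpen_ball
    (hf.mono (ball_subset_closedBall.trans hsub)) (mem_ball_self h0) hmax
  have hx : (((ρ / 2 : ℝ)) : ℂ) ∈ ball (0 : ℂ) ρ := by
    rw [mem_ball_zero_iff, Complex.norm_real, Real.norm_of_nonneg (by positivity)]
    linarith
  have h3 := heq hx
  simp only [Function.const_apply, h1] at h3
  exact hne _ (hsub (ball_subset_closedBall hx)) (by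
    rw [Complex.ofReal_ne_zero]; positivity) h3

end Pool.Agent.LSF
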