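import Pool.Agent.LSF.BA6

/-!
BA8: bounded partial sums of residues near a multiple root.

Complete proof. `Bf s` is a polynomial of degree `< D` with holomorphic coefficients, `F` has
Puiseux roots `z i`. Fix the root `w` of `F e`, and `ε > 0` such that `w` is the only root of `F e`
in `closedBall w ε` . By `pf_close` (roots of `F s` near roots of `F e`, applied with a
tolerance `η < ε/2`, `η < ` half the distance of the other roots to `closedBall w ε`) for
`s = e + τ^M` near `e` no root of `F s` lies on the circle `C : |x - w| = ε`, and the roots inside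
are exactly the `z i τ` with `i ∈ I := {i | z i 0 = w}` (by continuity of `z i`, for small `τ`).
For `τ ≠ 0` small, the roots are simple, and by partial fractions
(`Bf s / F s = ∑_i Bf(z_i)/(F'(z_i) (x - z_i))`, Lagrange interpolation, degree of `Bf s` `< D`)
`(2πi)⁻¹ ∮_C Bf(x)/F(x) dx = ∑_{i ∈ I} Bf(z_i)/F'(z_i)` (`circleIntegral.integral_sub_inv_of_mem_ball`
for the roots inside and `0` for the roots outside by Cauchy,
`DiffContOnCl`/`circleIntegral_eq_zero_of_...`). On the circle `‖Bf/F‖` is bounded uniformly for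
`s` near `e` (continuity on the compact set, `F e ≠ 0` on `C`), so the sum is bounded by
`ε * sup` (`circleIntegral.norm_integral_le_of_norm_le_const`).
-/

namespace Pool.Agent.LSF

open Polynomial Metric Filter

theorem ba8_pf {D : ℕ} (v : Fin D → ℂ) (hv : Function.Injective v) (B : ℂ[X])
    (hB : B.natDegree < D) (P : ℂ[X]) (hP : P = ∏ i, (X - C (v i))) (x : ℂ)
    (hx : ∀ i, x ≠ v i) :
    B.eval x / P.eval x = ∑ i, (B.eval (v i) / (derivative P).eval (v i)) * (x - v i)⁻¹ := by
  have hPn : P = Lagrange.nodal Finset.univ v := by rw [hP, Lagrange.nodal_eq]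
  have hdeg : B.degree < (Finset.univ : Finset (Fin D)).card := by
    rw [Finset.card_univ, Fintype.card_fin]
    refine lt_of_le_of_lt degree_le_natDegree ?_
    exact_mod_cast hB
  have h1 := Lagrange.eq_interpolate (s := Finset.univ) (v := v) (f := B)
    (hv.injOn) hdeg
  have h2 := Lagrange.eval_interpolate_not_at_node (s := Finset.univ) (v := v)
    (fun i => B.eval (v i)) (x := x) (fun i _ => hx i)
  rw [← h1] at h2
  have hP0 : P.eval x ≠ 0 := by
    rw [hP, eval_prod]
    apply Finset.prod_ne_zero_iff.2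
    intro i _
    simp only [eval_sub, eval_X, eval_C]
    exact sub_ne_zero.2 (hx i)
  rw [h2, ← hPn, mul_div_cancel_left₀ _ hP0]
  refine Finset.sum_congr rfl (fun i hi => ?_)
  rw [Lagrange.nodalWeight_eq_eval_derivative_nodal hi, ← hPn]
  rw [div_eq_mul_inv]; ring

theorem ba8_int {D : ℕ} (v : Fin D → ℂ) (c : Fin D → ℂ) (w : ℂ) (ε : ℝ) (hε : 0 < ε)
    (I : Finset (Fin D)) (hin : ∀ i ∈ I, ‖v i - w‖ < ε) (hout : ∀ i, i ∉ I → ε < ‖v i - w‖) :
    (∮ x in C(w, ε), ∑ i, c i * (x - v i)⁻¹) = 2 * Real.pi * Complex.I * ∑ i ∈ I, c i := by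
  classical
  have hne : ∀ i, v i ∉ sphere w |ε| := by
    intro i h
    rw [abs_of_pos hε, mem_sphere, Complex.dist_eq] at h
    by_cases hi : i ∈ I
    · exact absurd h (ne_of_lt (hin i hi))
    · exact absurd h (ne_of_gt (hout i hi))
  rw [circleIntegral.integral_fun_sum]
  · simp only [circleIntegral.integral_const_mul]
    have hz : ∀ i, i ∉ I → (∮ x in C(w, ε), (x - v i)⁻¹) = 0 := by
      intro i hi
      have hmem : ∀ x ∈ closedBall w ε, x - v i ≠ 0 := by
        intro x hx h0
        rw [mem_closedBall, Complex.dist_eq] at hx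
        have : x = v i := sub_eq_zero.1 h0
        rw [this] at hx
        exact absurd hx (not_le.2 (hout i hi))
      refine Complex.circleIntegral_eq_zero_of_differentiable_on_off_countable hε.le
        Set.countable_empty ?_ ?_
      · exact ContinuousOn.inv₀ (continuousOn_id.sub continuousOn_const) hmem
      · intro x hx
        have hx' : x ∈ closedBall w ε := ball_subset_closedBall hx.1
        exact (differentiableAt_id.sub_const _).inv (hmem x hx')
    have hi : ∀ i ∈ I, (∮ x in C(w, ε), (x - v i)⁻¹) = 2 * Real.pi * Complex.I := by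
      intro i hi
      apply circleIntegral.integral_sub_inv_of_mem_ball
      rw [mem_ball, Complex.dist_eq]
      exact hin i hi
    rw [← Finset.sum_subset (Finset.subset_univ I)]
    · rw [Finset.mul_sum]
      refine Finset.sum_congr rfl (fun i hii => ?_)
      rw [hi i hii]; ring
    · intro i _ hii
      rw [hz i hii, mul_zero]
  · intro i _
    have h1 : CircleIntegrable (fun x => (x - v i)⁻¹) w ε :=
      circleIntegrable_sub_inv_iff.2 (Or.inr (hne i))
    have h2 := h1.const_fun_smul (a := c i)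
    exact h2

theorem res_bound {U : Set ℂ} {D : ℕ} {F : ℂ → ℂ[X]} (hU : IsOpen U) (h : PF U D F) (e : ℂ)
    (he : e ∈ U) (M : ℕ) (r : ℝ) (z : Fin D → ℂ → ℂ) (hp : Pui D F e M r z)
    (hs : ∀ᶠ s in nhdsWithin e {e}ᶜ, (F s).roots.Nodup)
    (Bf : ℂ → ℂ[X]) (hB : ∀ s ∈ U, (Bf s).natDegree < D)
    (hBc : ∀ i, DifferentiableOn ℂ (fun s => (Bf s).coeff i) U) (w : ℂ) (I : Finset (Fin D))
    (hI : ∀ i, i ∈ I ↔ z i 0 = w) :
    ∃ r' > 0, ∃ C : ℝ, ∀ τ ∈ ball (0 : ℂ) r', τ ≠ 0 →
      ‖∑ i ∈ I, (Bf (e + τ ^ M)).eval (z i τ) /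
        (derivative (F (e + τ ^ M))).eval (z i τ)‖ ≤ C := by
  classical
  obtain ⟨hM, hr, hd, hroots⟩ := hp
  have hM0 : M ≠ 0 := by omega
  -- choice of ε
  obtain ⟨ε, hε, hεout⟩ : ∃ ε : ℝ, 0 < ε ∧ ∀ i, i ∉ I → 2 * ε ≤ ‖z i 0 - w‖ := by
    by_cases hne : (Finset.univ \ I).Nonempty
    · obtain ⟨i0, hi0, hmin⟩ := Finset.exists_min_image (Finset.univ \ I)
        (fun i => ‖z i 0 - w‖) hne
      have hpos : 0 < ‖z i0 0 - w‖ := by
        rw [norm_pos_iff]
        intro h0
        rw [Finset.mem_sdiff] at hi0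
        exact hi0.2 ((hI i0).2 (sub_eq_zero.1 h0))
      refine ⟨‖z i0 0 - w‖ / 2, by linarith, ?_⟩
      intro i hi
      have := hmin i (by simp [hi])
      linarith
    · refine ⟨1, one_pos, ?_⟩
      intro i hi
      exfalso
      exact hne ⟨i, by simp [hi]⟩
  -- continuity of the parametrisation
  have hcs : Continuous (fun τ : ℂ => e + τ ^ M) := by fun_prop
  have htend : Tendsto (fun τ : ℂ => e + τ ^ M) (nhds 0) (nhds e) := by
    have := hcs.tendsto 0
    simp only [zero_pow hM0, add_zero] at this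
    exact this
  have hUe : ∀ᶠ τ in nhds (0 : ℂ), e + τ ^ M ∈ U := htend.eventually (hU.mem_nhds he)
  have hball : ∀ᶠ τ in nhds (0 : ℂ), τ ∈ ball (0 : ℂ) r := ball_mem_nhds 0 hr
  have hzc : ∀ i, ∀ᶠ τ in nhds (0 : ℂ), ‖z i τ - z i 0‖ < ε / 2 := by
    intro i
    have hc : ContinuousAt (z i) 0 :=
      ((hd i).differentiableAt (ball_mem_nhds 0 hr)).continuousAt
    have := Metric.tendsto_nhds.1 hc (ε / 2) (by linarith)
    filter_upwards [this] with τ hτ
    rwa [Complex.dist_eq] at hτ
  have hzc' : ∀ᶠ τ in nhds (0 : ℂ), ∀ i, ‖z i τ - z i 0‖ < ε / 2 :=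
    eventually_all.2 hzc
  have hbc : ∀ j : Fin D, ∀ᶠ τ in nhds (0 : ℂ),
      ‖(Bf (e + τ ^ M)).coeff j‖ ≤ ‖(Bf e).coeff j‖ + 1 := by
    intro j
    have hc : ContinuousAt (fun s => (Bf s).coeff j) e :=
      ((hBc j).differentiableAt (hU.mem_nhds he)).continuousAt
    have hc2 : Tendsto (fun τ : ℂ => ‖(Bf (e + τ ^ M)).coeff j‖) (nhds 0)
        (nhds ‖(Bf e).coeff j‖) := (hc.tendsto.comp htend).norm
    exact hc2.eventually (eventually_le_nhds (by linarith))
  have hbc' : ∀ᶠ τ in nhds (0 : ℂ), ∀ j : Fin D,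
      ‖(Bf (e + τ ^ M)).coeff j‖ ≤ ‖(Bf e).coeff j‖ + 1 := eventually_all.2 hbc
  have hnd : ∀ᶠ τ in nhds (0 : ℂ), τ ≠ 0 → (F (e + τ ^ M)).roots.Nodup := by
    rw [eventually_nhdsWithin_iff] at hs
    filter_upwards [htend.eventually hs] with τ hτ hτ0
    apply hτ
    simp only [Set.mem_compl_iff, Set.mem_singleton_iff]
    intro h0
    have : τ ^ M = 0 := by
      have h1 : e + τ ^ M = e + 0 := by rw [h0, add_zero]
      exact add_left_cancel h1
    exact hτ0 (pow_eq_zero_iff hM0 |>.1 this)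
  have hall := hUe.and (hball.and (hzc'.and (hbc'.and hnd)))
  obtain ⟨r', hr', hsub⟩ := Metric.eventually_nhds_iff_ball.1 hall
  set K : ℝ := ∑ j : Fin D, (‖(Bf e).coeff j‖ + 1) * (‖w‖ + ε) ^ (j : ℕ) with hK
  refine ⟨r', hr', ε * (K / (ε / 2) ^ D), ?_⟩
  intro τ hτ hτ0
  obtain ⟨h1, h2, h3, h4, h5⟩ := hsub τ hτ
  have h5 := h5 hτ0
  set s := e + τ ^ M with hsdef
  set P := F s with hPdef
  have hPr : P.roots = Finset.univ.val.map (fun i => z i τ) := hroots τ h2
  have hPprod : P = ∏ i, (X - C (z i τ)) := by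
    have hsplit := (IsAlgClosed.splits P).eq_prod_roots_of_monic (h.monic s h1)
    rw [hPr] at hsplit
    conv_lhs => rw [hsplit]
    rw [Multiset.map_map]
    rfl
  have hinj : Function.Injective (fun i => z i τ) := by
    rw [hPr] at h5
    intro i j hij
    have h6 := (Multiset.nodup_map_iff_inj_on (s := (Finset.univ : Finset (Fin D)).val)
      (f := fun i => z i τ) Finset.univ.nodup).1 h5
    exact h6 i (Finset.mem_univ_val i) j (Finset.mem_univ_val j) hij
  have hdist : ∀ x ∈ sphere w ε, ∀ i, ε / 2 ≤ ‖x - z i τ‖ := by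
    intro x hx i
    rw [mem_sphere, Complex.dist_eq] at hx
    have h6 := h3 i
    by_cases hi : i ∈ I
    · rw [(hI i).1 hi] at h6
      have h7 : ‖x - w‖ ≤ ‖x - z i τ‖ + ‖z i τ - w‖ := by
        have : x - w = (x - z i τ) + (z i τ - w) := by ring
        rw [this]; exact norm_add_le _ _
      linarith
    · have h8 := hεout i hi
      have h7 : ‖z i 0 - w‖ ≤ ‖x - z i τ‖ + ‖z i τ - z i 0‖ + ‖x - w‖ := by
        have : z i 0 - w = -(x - z i τ) - (z i τ - z i 0) + (x - w) := by ring
        rw [this]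
        refine le_trans (norm_add_le _ _) ?_
        have h9 := norm_sub_le (-(x - z i τ)) (z i τ - z i 0)
        rw [norm_neg] at h9
        linarith
      linarith
  have hneq : ∀ x ∈ sphere w ε, ∀ i, x ≠ z i τ := by
    intro x hx i h0
    have := hdist x hx i
    rw [h0, sub_self, norm_zero] at this
    linarith
  have hin : ∀ i ∈ I, ‖z i τ - w‖ < ε := by
    intro i hi
    have h6 := h3 i
    rw [(hI i).1 hi] at h6
    linarith
  have hout : ∀ i, i ∉ I → ε < ‖z i τ - w‖ := by
    intro i hi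
    have h6 := h3 i
    have h8 := hεout i hi
    have h7 : ‖z i 0 - w‖ ≤ ‖z i τ - w‖ + ‖z i τ - z i 0‖ := by
      have : z i 0 - w = (z i τ - w) - (z i τ - z i 0) := by ring
      rw [this]; exact norm_sub_le _ _
    linarith
  have hint := ba8_int (fun i => z i τ)
    (fun i => (Bf s).eval (z i τ) / (derivative P).eval (z i τ)) w ε hε I hin hout
  have hcongr : (∮ x in C(w, ε), (Bf s).eval x / P.eval x) =
      ∮ x in C(w, ε), ∑ i, (Bf s).eval (z i τ) / (derivative P).eval (z i τ) *
        (x - z i τ)⁻¹ := by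
    refine circleIntegral.integral_congr hε.le ?_
    intro x hx
    exact ba8_pf (fun i => z i τ) hinj (Bf s) (hB s h1) P hPprod x (hneq x hx)
  have hbound : ∀ x ∈ sphere w ε, ‖(Bf s).eval x / P.eval x‖ ≤ K / (ε / 2) ^ D := by
    intro x hx
    rw [norm_div]
    have hxn : ‖x‖ ≤ ‖w‖ + ε := by
      rw [mem_sphere, Complex.dist_eq] at hx
      have : x = w + (x - w) := by ring
      rw [this]
      refine le_trans (norm_add_le _ _) ?_
      rw [hx]
    have hBb : ‖(Bf s).eval x‖ ≤ K := by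
      rw [eval_eq_sum_range' (hB s h1) x]
      rw [Finset.sum_range]
      refine le_trans (norm_sum_le _ _) ?_
      refine Finset.sum_le_sum (fun j _ => ?_)
      rw [norm_mul, norm_pow]
      refine mul_le_mul (h4 j) (pow_le_pow_left₀ (norm_nonneg _) hxn _) (by positivity)
        (by positivity)
    have hPb : (ε / 2) ^ D ≤ ‖P.eval x‖ := by
      rw [hPprod, eval_prod, norm_prod]
      have : (ε / 2) ^ D = ∏ _i : Fin D, (ε / 2) := by
        rw [Finset.prod_const, Finset.card_univ, Fintype.card_fin]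
      rw [this]
      refine Finset.prod_le_prod (fun _ _ => by positivity) (fun i _ => ?_)
      simp only [eval_sub, eval_X, eval_C]
      exact hdist x hx i
    have hpos : 0 < (ε / 2) ^ D := by positivity
    have hK0 : 0 ≤ K := le_trans (norm_nonneg _) hBb
    exact div_le_div₀ hK0 hBb hpos hPb
  have hnb := circleIntegral.norm_two_pi_i_inv_smul_integral_le_of_norm_le_const hε.le hbound
  rw [hcongr, hint, smul_eq_mul, ← mul_assoc, inv_mul_cancel₀, one_mul] at hnb
  · exact hnb
  · have : (Real.pi : ℂ) ≠ 0 := by exact_mod_cast Real.pi_ne_zero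
    simp [this]

end Pool.Agent.LSF
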