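import Mathlib

/-!
BA9: the number of solutions of `f(s) ^ l = 1` in a compact disc is at most a constant times `l`.

Complete proof. If `f` is constant on the ball (`f = κ`, with `κ^l ≠ 1` for all `l ≥ 1` by the
hypothesis at the point `s₁`) there are no solutions. Otherwise `f` is nonconstant on the
connected ball. Claim: there is `C₁` such that for every `w` the set
`{s ∈ closedBall c r | f s = w}` has at most `C₁` elements. Each `s₀ ∈ closedBall c r` has an open
neighbourhood `V` on which every value is taken at most `m` times: `f s = f s₀ + η(s)^m` with `η`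
analytic, injective near `s₀` (factor `f s - f s₀ = (s - s₀)^m g(s)`, `g s₀ ≠ 0`, `m`-th root of
`g`; `Pool/Agent/TB/RootLoc.lean` `local_power` has this: statement: for `f` analytic at `x` not
locally constant there are `m ≥ 1`, `η` analytic at `x` with `η x = 0`, `η' x ≠ 0` and
`f z = f x + η z ^ m` near `x`; you may prove it again here with prefix `ba9_`, or avoid it: use that
the number of zeros of `f - w` in a small closed disc is at most the number of zeros of `f - f s₀`
by a compactness argument with isolated zeros (Hurwitz)). Cover the compact ball by finitely many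
such `V`. Then `{s | f s ^ l = 1}` is the union over the `l` roots of unity `w` of
`{s | f s = w}`: at most `C₁ l` elements.
-/

namespace Pool.Agent.LSF

open Metric Filter Topology

theorem ba9_local_power {f : ℂ → ℂ} {x : ℂ} (hf : AnalyticAt ℂ f x)
    (hne : ¬ ∀ᶠ z in 𝓝 x, f z = f x) :
    ∃ (m : ℕ) (η : ℂ → ℂ), 1 ≤ m ∧ AnalyticAt ℂ η x ∧ η x = 0 ∧ deriv η x ≠ 0 ∧
      ∀ᶠ z in 𝓝 x, f z = f x + η z ^ m := by
  have hF : AnalyticAt ℂ (fun z => f z - f x) x := hf.sub analyticAt_const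
  have hne' : ¬ ∀ᶠ z in 𝓝 x, (fun z => f z - f x) z = 0 := by
    intro h
    exact hne (h.mono (fun z hz => sub_eq_zero.1 hz))
  obtain ⟨m, g, hg, hgx, hfg⟩ := hF.exists_eventuallyEq_pow_smul_nonzero_iff.2 hne'
  have hm : m ≠ 0 := by
    rintro rfl
    have := hfg.self_of_nhds
    simp only [sub_self, pow_zero, one_smul] at this
    exact hgx this.symm
  have hmpos : 0 < m := Nat.pos_of_ne_zero hm
  have hmC : (m : ℂ) ≠ 0 := by exact_mod_cast hm
  obtain ⟨c, hc⟩ := IsAlgClosed.exists_pow_nat_eq (g x) hmpos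
  have hc0 : c ≠ 0 := by
    rintro rfl
    rw [zero_pow hm] at hc
    exact hgx hc.symm
  set h : ℂ → ℂ := fun z => c * Complex.exp (Complex.log (g z / g x) / m) with hh
  have hquot : AnalyticAt ℂ (fun z => g z / g x) x := hg.div_const
  have hslit : (fun z => g z / g x) x ∈ Complex.slitPlane := by
    simp only
    rw [div_self hgx]
    exact Complex.one_mem_slitPlane
  have hhan : AnalyticAt ℂ h x :=
    analyticAt_const.mul ((hquot.clog hslit).div_const).cexp
  have hhx : h x = c := by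
    simp only [hh]
    rw [div_self hgx, Complex.log_one, zero_div, Complex.exp_zero, mul_one]
  refine ⟨m, fun z => (z - x) * h z, hmpos, (analyticAt_id.sub analyticAt_const).mul hhan,
    by simp, ?_, ?_⟩
  · have hd : HasDerivAt (fun z => (z - x) * h z) (1 * h x + (x - x) * deriv h x) x :=
      ((hasDerivAt_id x).sub_const x).mul hhan.differentiableAt.hasDerivAt
    rw [hd.deriv, hhx]
    simpa using hc0
  · have hgne : ∀ᶠ z in 𝓝 x, g z ≠ 0 := hg.continuousAt.eventually_ne hgx
    filter_upwards [hfg, hgne] with z hz hgz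
    have hz' : f z = f x + (z - x) ^ m * g z := by
      rw [← smul_eq_mul, ← hz]
      ring
    rw [hz']
    congr 1
    rw [mul_pow]
    congr 1
    simp only [hh]
    rw [mul_pow, hc, ← Complex.exp_nat_mul, mul_div_cancel₀ _ hmC,
      Complex.exp_log (div_ne_zero hgz hgx)]
    field_simp

theorem ba9_local_count {f : ℂ → ℂ} {x : ℂ} (hf : AnalyticAt ℂ f x)
    (hne : ¬ ∀ᶠ z in 𝓝 x, f z = f x) :
    ∃ V ∈ 𝓝 x, ∃ C : ℕ, ∀ w : ℂ, ∃ S : Finset ℂ, S.card ≤ C ∧ ∀ s ∈ V, f s = w → s ∈ S := by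
  classical
  obtain ⟨m, η, hm, hη, -, hd, hfe⟩ := ba9_local_power hf hne
  have hst : HasStrictDerivAt η (deriv η x) x := hη.hasStrictDerivAt
  have hinv := hst.eventually_left_inverse hd
  set L := HasStrictDerivAt.localInverse η (deriv η x) x hst hd with hL
  refine ⟨{z | f z = f x + η z ^ m ∧ L (η z) = z}, hfe.and hinv, m, fun w => ?_⟩
  refine ⟨((Polynomial.nthRoots m (w - f x)).toFinset).image L, ?_, ?_⟩
  · refine le_trans Finset.card_image_le ?_
    exact le_trans (Multiset.toFinset_card_le _) (Polynomial.card_nthRoots _ _)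
  · rintro s ⟨hs1, hs2⟩ hs3
    rw [Finset.mem_image]
    refine ⟨η s, ?_, hs2⟩
    rw [Multiset.mem_toFinset, Polynomial.mem_nthRoots hm]
    rw [← hs3, hs1]; ring

theorem sat_count (c : ℂ) (r R : ℝ) (hr : 0 < r) (hrR : r < R) (f : ℂ → ℂ)
    (hf : DifferentiableOn ℂ f (ball c R)) (s₁ : ℂ) (hs₁ : s₁ ∈ ball c R)
    (h1 : ∀ l : ℕ, 1 ≤ l → f s₁ ^ l ≠ 1) :
    ∃ C : ℕ, ∀ l : ℕ, 1 ≤ l → ∃ S : Finset ℂ, S.card ≤ C * l ∧
      ∀ s ∈ closedBall c r, f s ^ l = 1 → s ∈ S := by
  classical
  have hfa : AnalyticOnNhd ℂ f (ball c R) := hf.analyticOnNhd isOpen_ball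
  have hsub : closedBall c r ⊆ ball c R := closedBall_subset_ball hrR
  by_cases hconst : ∃ x ∈ ball c R, ∀ᶠ z in 𝓝 x, f z = f x
  · obtain ⟨x, hx, hxe⟩ := hconst
    have heq : Set.EqOn f (fun _ => f x) (ball c R) :=
      hfa.eqOn_of_preconnected_of_eventuallyEq analyticOnNhd_const
        (convex_ball c R).isPreconnected hx hxe
    refine ⟨0, fun l hl => ⟨∅, by simp, ?_⟩⟩
    intro s hs hsl
    exfalso
    apply h1 l hl
    rw [heq hs₁, ← heq (hsub hs)]
    exact hsl
  · have hconst : ∀ x ∈ ball c R, ¬ ∀ᶠ z in 𝓝 x, f z = f x :=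
      fun x hx h => hconst ⟨x, hx, h⟩
    have key : ∃ C : ℕ, ∀ w : ℂ, ∃ S : Finset ℂ, S.card ≤ C ∧
        ∀ s ∈ closedBall c r, f s = w → s ∈ S := by
      refine (isCompact_closedBall c r).induction_on
        (p := fun K => ∃ C : ℕ, ∀ w : ℂ, ∃ S : Finset ℂ, S.card ≤ C ∧
          ∀ s ∈ K, f s = w → s ∈ S) ?_ ?_ ?_ ?_
      · exact ⟨0, fun w => ⟨∅, by simp, by simp⟩⟩
      · rintro s t hst ⟨C, hC⟩
        refine ⟨C, fun w => ?_⟩
        obtain ⟨S, hS1, hS2⟩ := hC w
        exact ⟨S, hS1, fun x hx => hS2 x (hst hx)⟩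
      · rintro s t ⟨C, hC⟩ ⟨C', hC'⟩
        refine ⟨C + C', fun w => ?_⟩
        obtain ⟨S, hS1, hS2⟩ := hC w
        obtain ⟨S', hS1', hS2'⟩ := hC' w
        refine ⟨S ∪ S', le_trans (Finset.card_union_le _ _) (add_le_add hS1 hS1'), ?_⟩
        rintro x (hx | hx) hxw
        · exact Finset.mem_union_left _ (hS2 x hx hxw)
        · exact Finset.mem_union_right _ (hS2' x hx hxw)
      · intro x hx
        obtain ⟨V, hV, C, hC⟩ := ba9_local_count (hfa x (hsub hx)) (hconst x (hsub hx))
        exact ⟨V, mem_nhdsWithin_of_mem_nhds hV, C, hC⟩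
    obtain ⟨C, hC⟩ := key
    choose S hS1 hS2 using hC
    refine ⟨C, fun l hl => ⟨(Polynomial.nthRoots l (1 : ℂ)).toFinset.biUnion S, ?_, ?_⟩⟩
    · refine le_trans Finset.card_biUnion_le ?_
      refine le_trans (Finset.sum_le_card_nsmul _ _ C (fun w _ => hS1 w)) ?_
      rw [smul_eq_mul, mul_comm]
      apply Nat.mul_le_mul_left
      exact le_trans (Multiset.toFinset_card_le _) (Polynomial.card_nthRoots _ _)
    · intro s hs hsl
      rw [Finset.mem_biUnion]
      refine ⟨f s, ?_, hS2 _ s hs rfl⟩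
      rw [Multiset.mem_toFinset, Polynomial.mem_nthRoots (by omega)]
      exact hsl

end Pool.Agent.LSF
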