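import Pool.Agent.LSF.BDefs

/-!
BBas1: periodic orbits of maps in the normal form avoid the poles.

Complete proof.
`nf_rm`: `(nP d v).natDegree ≤ d - 1 < d` (sum of monomials of degree `≤ d - 1`), `nQ d v` is monic
of degree `d` (leading term `X ^ d`, all other terms have degree `≤ d - 1`, `2 ≤ d`), the values at
`0` are `0` and `1` since all monomials `X ^ (i+1)` vanish at `0`.
`ev_zero`: `P(0)/Q(0) = 0/1`.
`rm_per`: if `Q(f^k z) = 0` then `f^(k+1) z = P(..)/0 = 0` and, as `f 0 = 0`, `f^j z = 0` for all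
`j ≥ k+1`; with `j = n (k+1)` this is `z` (`f^n z = z`), so `z = 0`, all iterates are `0` and
`Q 0 = 1 ≠ 0`, a contradiction.
`rm_deriv`: where `Q z ≠ 0` the function `ev P Q` has derivative `derivAt P Q z`.
`rm_deriv_iter`: chain rule by induction on `n` (`Function.iterate_succ_apply'`, and
`mult P Q (n+1) z = mult P Q n z * derivAt P Q (f^n z)`, `Finset.prod_range_succ`).
-/

namespace Pool.Agent.LSF

open Polynomial Pool.Agent.LenSpec

theorem bbas1_deg {K : Type} [Field K] (d : ℕ) (c : Fin (d - 1) → K) :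
    (∑ i : Fin (d - 1), C (c i) * X ^ (i.val + 1) : K[X]).natDegree ≤ d - 1 := by
  refine natDegree_sum_le_of_forall_le _ _ fun i _ => ?_
  refine (natDegree_C_mul_X_pow_le _ _).trans ?_
  have := i.2
  omega

theorem bbas1_eval {K : Type} [Field K] (d : ℕ) (c : Fin (d - 1) → K) :
    (∑ i : Fin (d - 1), C (c i) * X ^ (i.val + 1) : K[X]).eval 0 = 0 := by
  rw [eval_finsetSum]
  refine Finset.sum_eq_zero fun i _ => ?_
  simp

theorem nP_natDegree {K : Type} [Field K] (d : ℕ) (hd : 2 ≤ d) (v : VI d → K) :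
    (nP d v).natDegree < d := by
  have h : (nP d v).natDegree ≤ d - 1 := bbas1_deg d (fun i => v (Sum.inl i))
  omega

theorem nR_natDegree {K : Type} [Field K] (d : ℕ) (hd : 2 ≤ d) (v : VI d → K) :
    (nR d v).natDegree < d := by
  have h : (nR d v).natDegree ≤ d - 1 := bbas1_deg d (fun i => v (Sum.inr i))
  omega

theorem nQ_monic {K : Type} [Field K] (d : ℕ) (hd : 2 ≤ d) (v : VI d → K) :
    (nQ d v).Monic ∧ (nQ d v).natDegree = d := by
  have h1 : (1 + nR d v).degree < (d : ℕ) := by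
    refine (degree_le_natDegree (p := 1 + nR d v)).trans_lt ?_
    have h2 : (1 + nR d v).natDegree ≤ max (1 : K[X]).natDegree (nR d v).natDegree :=
      natDegree_add_le _ _
    have h3 := nR_natDegree d hd v
    rw [natDegree_one] at h2
    exact_mod_cast (by omega : (1 + nR d v).natDegree < d)
  have hm : (nQ d v).Monic := by
    unfold nQ
    rw [add_comm]
    exact monic_X_pow_add h1
  refine ⟨hm, ?_⟩
  unfold nQ
  rw [add_comm, natDegree_add_eq_left_of_degree_lt (by rwa [degree_X_pow]), natDegree_X_pow]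

theorem n_eval_zero {K : Type} [Field K] (d : ℕ) (hd : 2 ≤ d) (v : VI d → K) :
    (nP d v).eval 0 = 0 ∧ (nR d v).eval 0 = 0 ∧ (nQ d v).eval 0 = 1 := by
  have h1 : (nP d v).eval 0 = 0 := bbas1_eval d (fun i => v (Sum.inl i))
  have h2 : (nR d v).eval 0 = 0 := bbas1_eval d (fun i => v (Sum.inr i))
  refine ⟨h1, h2, ?_⟩
  unfold nQ
  rw [eval_add, eval_add, h2, eval_one, eval_pow, eval_X, zero_pow (by omega)]
  ring

theorem nf_rm {d : ℕ} {v : VI d → ℂ} (h : Nf d v) : RM d (nP d v) (nQ d v) := by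
  obtain ⟨m, e⟩ := nQ_monic d h.two_le v
  obtain ⟨e1, -, e3⟩ := n_eval_zero d h.two_le v
  exact ⟨h.two_le, nP_natDegree d h.two_le v, e, m, h.cop, e1, e3⟩

theorem ev_zero {d : ℕ} {P Q : ℂ[X]} (h : RM d P Q) : ev P Q 0 = 0 := by
  unfold ev
  rw [h.zP, zero_div]

theorem rm_per {d : ℕ} {P Q : ℂ[X]} (h : RM d P Q) {n : ℕ} {z : ℂ} (hn : 1 ≤ n)
    (hz : (ev P Q)^[n] z = z) : ∀ k, Q.eval ((ev P Q)^[k] z) ≠ 0 := by
  intro k hk
  have h0 : ∀ j, (ev P Q)^[j] 0 = 0 := fun j => Function.iterate_fixed (ev_zero h) j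
  have h1 : (ev P Q)^[k + 1] z = 0 := by
    rw [Function.iterate_succ_apply']
    change P.eval ((ev P Q)^[k] z) / Q.eval ((ev P Q)^[k] z) = 0
    rw [hk, div_zero]
  have h2 : (ev P Q)^[n * (k + 1)] z = z := by
    rw [Function.iterate_mul]
    exact Function.iterate_fixed hz (k + 1)
  have h3 : (ev P Q)^[n * (k + 1)] z = 0 := by
    have e : n * (k + 1) = (n * (k + 1) - (k + 1)) + (k + 1) := by
      have : 1 * (k + 1) ≤ n * (k + 1) := Nat.mul_le_mul_right _ hn
      omega
    rw [e, Function.iterate_add_apply, h1, h0]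
  have h4 : z = 0 := h2.symm.trans h3
  rw [h4, h0, h.zQ] at hk
  exact one_ne_zero hk

theorem rm_deriv (P Q : ℂ[X]) (z : ℂ) (hz : Q.eval z ≠ 0) :
    HasDerivAt (ev P Q) (derivAt P Q z) z :=
  (P.hasDerivAt z).div (Q.hasDerivAt z) hz

theorem rm_deriv_iter (P Q : ℂ[X]) (n : ℕ) (z : ℂ)
    (hz : ∀ k < n, Q.eval ((ev P Q)^[k] z) ≠ 0) :
    HasDerivAt ((ev P Q)^[n]) (mult P Q n z) z := by
  induction n with
  | zero =>
    have h : mult P Q 0 z = 1 := by simp [mult]
    rw [h]
    exact hasDerivAt_id z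
  | succ n ih =>
    have h1 := ih fun k hk => hz k (by omega)
    have h2 := rm_deriv P Q _ (hz n (by omega))
    have h3 := h2.comp z h1
    have h4 : mult P Q (n + 1) z = derivAt P Q ((ev P Q)^[n] z) * mult P Q n z := by
      unfold mult
      rw [Finset.prod_range_succ, mul_comm]
    rw [h4, Function.iterate_succ']
    exact h3

end Pool.Agent.LSF
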