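import Pool.Agent.LenSpec.Stmt

/-!
Definitions for the second part of the length spectrum theorem: the normal form in which infinity
is mapped to the fixed point `0`, families of maps, functionals on tangent directions.
-/

namespace Pool.Agent.LSF

open Polynomial Pool.Agent.LenSpec

/-! ### The normal form -/

/-- index set of the parameters of the normal form: `Sum.inl i` is the coefficient of `X ^ (i + 1)`
in the numerator, `Sum.inr i` the one in the denominator -/
abbrev VI (d : ℕ) : Type := Fin (d - 1) ⊕ Fin (d - 1)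

section field

variable {K : Type} [Field K]

/-- the numerator: no constant term, degree less than `d` -/
noncomputable def nP (d : ℕ) (v : VI d → K) : K[X] :=
  ∑ i : Fin (d - 1), C (v (Sum.inl i)) * X ^ (i.val + 1)

/-- the part of the denominator that depends on the parameters -/
noncomputable def nR (d : ℕ) (v : VI d → K) : K[X] :=
  ∑ i : Fin (d - 1), C (v (Sum.inr i)) * X ^ (i.val + 1)

/-- the denominator: monic of degree `d`, constant term `1` -/
noncomputable def nQ (d : ℕ) (v : VI d → K) : K[X] := 1 + nR d v + X ^ d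

/-- admissible parameters: the map has degree `d`, the multiplier of the fixed point `0` is not
`1`, and infinity is not a critical point -/
structure Nf (d : ℕ) (v : VI d → K) : Prop where
  two_le : 2 ≤ d
  cop : IsCoprime (nP d v) (nQ d v)
  one_ne : (nP d v).coeff 1 ≠ 1
  top_ne : (nP d v).coeff (d - 1) ≠ 0

/-- the numerator of the derivative -/
noncomputable def EE (P Q : K[X]) : K[X] := derivative P * Q - P * derivative Q

/-- the numerator of the tangent direction `δ` at the parameter `v` -/
noncomputable def tanP (d : ℕ) (v δ : VI d → K) : K[X] := nP d δ * nQ d v - nP d v * nR d δ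

end field

/-- maps for which infinity is mapped to the fixed point `0` -/
structure RM (d : ℕ) (P Q : ℂ[X]) : Prop where
  two_le : 2 ≤ d
  degP : P.natDegree < d
  degQ : Q.natDegree = d
  monic : Q.Monic
  cop : IsCoprime P Q
  zP : P.eval 0 = 0
  zQ : Q.eval 0 = 1

/-! ### Functionals on tangent directions -/

/-- the functional with coefficients `β` at the derivatives and `γ` at the values -/
noncomputable def LF (Z : Finset ℂ) (β γ : ℂ → ℂ) (η : ℂ → ℂ) : ℂ :=
  ∑ z ∈ Z, (β z * deriv η z + γ z * η z)

/-- the second derivative of `P / Q` -/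
noncomputable def f2 (P Q : ℂ[X]) (z : ℂ) : ℂ := deriv (fun w => derivAt P Q w) z

/-- the functional `LF Z β γ` vanishes on all infinitesimal conjugations -/
structure Inv (P Q : ℂ[X]) (Z : Finset ℂ) (β γ : ℂ → ℂ) : Prop where
  ne : ∀ z ∈ Z, Q.eval z ≠ 0
  mem : ∀ z ∈ Z, ev P Q z ∈ Z
  inj : ∀ z ∈ Z, ∀ z' ∈ Z, ev P Q z = ev P Q z' → z = z'
  beta : ∀ z ∈ Z, β z * derivAt P Q z = β (ev P Q z) * derivAt P Q (ev P Q z)
  gamma : ∀ z ∈ Z, γ z = γ (ev P Q z) * derivAt P Q (ev P Q z) +
    β (ev P Q z) * f2 P Q (ev P Q z)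

/-- every point of `Z` is periodic and attracting -/
def Att (P Q : ℂ[X]) (Z : Finset ℂ) : Prop :=
  ∀ z ∈ Z, ∃ m, 1 ≤ m ∧ (ev P Q)^[m] z = z ∧ ‖mult P Q m z‖ < 1

/-- the value of the functional at `1 / (Q ^ 2 (w - z))` -/
noncomputable def TT (Q : ℂ[X]) (Z : Finset ℂ) (β γ : ℂ → ℂ) (w : ℂ) : ℂ :=
  LF Z β γ (fun z => 1 / (Q.eval z ^ 2 * (w - z)))

/-- the quadratic differential of the functional -/
noncomputable def qq (P Q : ℂ[X]) (Z : Finset ℂ) (β γ : ℂ → ℂ) (w : ℂ) : ℂ :=
  (EE P Q).eval w * TT Q Z β γ w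

/-- the value of the functional at the tangent direction `δ` -/
noncomputable def LT (d : ℕ) (v : VI d → ℂ) (Z : Finset ℂ) (β γ : ℂ → ℂ) (δ : VI d → ℂ) : ℂ :=
  LF Z β γ (fun z => (tanP d v δ).eval z / ((nQ d v).eval z) ^ 2)

end Pool.Agent.LSF
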