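import Mathlib

/-!
BE1: Bezout relation for an irreducible polynomial in two variables and its derivative.
-/

namespace Pool.Agent.LSF

open Polynomial

theorem sep_bezout (k : Type) [Field k] [CharZero k] (Φ : Polynomial (Polynomial k))
    (hΦ : Irreducible Φ) (hd : 0 < Φ.natDegree) :
    ∃ U V : Polynomial (Polynomial k), ∃ R : Polynomial k, R ≠ 0 ∧
      U * Φ + V * derivative Φ = C R := by
  have hprim : Φ.IsPrimitive := hΦ.isPrimitive hd.ne'
  have hirr : Irreducible (Φ.map (algebraMap k[X] (FractionRing k[X]))) :=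
    (hprim.irreducible_iff_irreducible_map_fraction_map (K := FractionRing k[X])).1 hΦ
  have hchar : CharZero (FractionRing k[X]) :=
    charZero_of_injective_algebraMap (IsFractionRing.injective k[X] (FractionRing k[X]))
  obtain ⟨U', V', h⟩ := hirr.separable
  obtain ⟨b₁, h₁⟩ := IsLocalization.integerNormalization_map_to_map (nonZeroDivisors k[X]) U'
  obtain ⟨b₂, h₂⟩ := IsLocalization.integerNormalization_map_to_map (nonZeroDivisors k[X]) V'
  refine ⟨C (b₂ : k[X]) * IsLocalization.integerNormalization (nonZeroDivisors k[X]) U',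
    C (b₁ : k[X]) * IsLocalization.integerNormalization (nonZeroDivisors k[X]) V',
    (b₁ : k[X]) * b₂, mul_ne_zero (nonZeroDivisors.ne_zero b₁.2) (nonZeroDivisors.ne_zero b₂.2),
    ?_⟩
  apply map_injective _ (IsFractionRing.injective k[X] (FractionRing k[X]))
  rw [Polynomial.map_add, Polynomial.map_mul, Polynomial.map_mul, Polynomial.map_mul,
    Polynomial.map_mul, map_C, map_C, map_C, h₁, h₂, ← derivative_map, map_mul, C_mul]
  rw [← algebraMap_smul (FractionRing k[X]) (b₁ : k[X]) U',
    ← algebraMap_smul (FractionRing k[X]) (b₂ : k[X]) V', smul_eq_C_mul, smul_eq_C_mul]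
  linear_combination (C ((algebraMap k[X] (FractionRing k[X])) (b₁ : k[X])) *
    C ((algebraMap k[X] (FractionRing k[X])) (b₂ : k[X]))) * h

end Pool.Agent.LSF
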