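import Mathlib

/-!
BE10: local inverse of a holomorphic function. (Mathlib only.)

Complete proof. `f` is analytic at `s₀` with `deriv f s₀ ≠ 0`: `HasStrictDerivAt.localInverse` /
`HasStrictDerivAt.to_localInverse`, `HasStrictDerivAt.eventually_right_inverse`,
`HasStrictDerivAt.eventually_left_inverse` (`HasStrictFDerivAt.eventually_left_inverse`) give `ψ`,
defined and differentiable near `f s₀` (at every nearby point the derivative of `f` is nonzero: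
`HasDerivAt.of_local_left_inverse`), with `f (ψ y) = y` for `y` near `f s₀`, `ψ (f s) = s` for `s` near
`s₀`, `ψ (f s₀) = s₀`. Shrink the radii: `r` such that `ψ` maps `ball (f s₀) r` into `ball s₀ ρ`
(continuity), and `ρ'` such that `f` maps `ball s₀ ρ'` into `ball (f s₀) r` and `ψ (f s) = s` there.
Compare the proof of BH5 (lsf_BH5.lean).
-/

namespace Pool.Agent.LSF

open Metric

theorem inv_loc (f : ℂ → ℂ) (s₀ : ℂ) (ρ : ℝ) (hρ : 0 < ρ) (hf : DifferentiableOn ℂ f (ball s₀ ρ))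
    (hd : deriv f s₀ ≠ 0) :
    ∃ r > 0, ∃ ρ' > 0, ρ' ≤ ρ ∧ ∃ ψ : ℂ → ℂ, DifferentiableOn ℂ ψ (ball (f s₀) r) ∧
      (∀ y ∈ ball (f s₀) r, ψ y ∈ ball s₀ ρ ∧ f (ψ y) = y) ∧
      ∀ s ∈ ball s₀ ρ', f s ∈ ball (f s₀) r ∧ ψ (f s) = s := by
  have han : ∀ s ∈ ball s₀ ρ, AnalyticAt ℂ f s := fun s hs =>
    hf.analyticAt (isOpen_ball.mem_nhds hs)
  have h0 := han s₀ (mem_ball_self hρ)
  have hst : HasStrictDerivAt f (deriv f s₀) s₀ := h0.hasStrictDerivAt
  have hst' := hst.hasStrictFDerivAt_equiv hd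
  set e := hst'.toOpenPartialHomeomorph f with he
  have hef : ∀ s, e s = f s := fun s => rfl
  have hsrc : s₀ ∈ e.source := hst'.mem_toOpenPartialHomeomorph_source
  have htgt : f s₀ ∈ e.target := hst'.image_mem_toOpenPartialHomeomorph_target
  have hsymm0 : e.symm (f s₀) = s₀ := e.left_inv hsrc
  have hne : ∀ᶠ s in nhds s₀, deriv f s ≠ 0 := h0.deriv.continuousAt.eventually_ne hd
  obtain ⟨ρ₁, hρ₁, hne'⟩ := Metric.eventually_nhds_iff_ball.1 hne
  set ρ₂ := min ρ ρ₁ with hρ₂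
  have hρ₂pos : 0 < ρ₂ := lt_min hρ hρ₁
  have hT : IsOpen (e.target ∩ e.symm ⁻¹' ball s₀ ρ₂) :=
    e.symm.isOpen_inter_preimage isOpen_ball
  have hT0 : f s₀ ∈ e.target ∩ e.symm ⁻¹' ball s₀ ρ₂ := by
    refine ⟨htgt, ?_⟩
    rw [Set.mem_preimage, hsymm0]
    exact mem_ball_self hρ₂pos
  obtain ⟨r, hr, hrT⟩ := Metric.isOpen_iff.1 hT _ hT0
  have hS : e.source ∩ f ⁻¹' ball (f s₀) r ∈ nhds s₀ :=
    Filter.inter_mem (e.open_source.mem_nhds hsrc)
      (h0.continuousAt.preimage_mem_nhds (ball_mem_nhds _ hr))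
  obtain ⟨ρ₃, hρ₃, hρ₃S⟩ := Metric.mem_nhds_iff.1 hS
  refine ⟨r, hr, min ρ ρ₃, lt_min hρ hρ₃, min_le_left _ _, e.symm, ?_, ?_, ?_⟩
  · intro y hy
    obtain ⟨hy1, hy2⟩ := hrT hy
    have hy3 : e.symm y ∈ ball s₀ ρ := ball_subset_ball (min_le_left _ _) hy2
    have hy4 : e.symm y ∈ ball s₀ ρ₁ := ball_subset_ball (min_le_right _ _) hy2
    have hd' : HasDerivAt e (deriv f (e.symm y)) (e.symm y) :=
      (han _ hy3).differentiableAt.hasDerivAt
    exact (e.hasDerivAt_symm hy1 (hne' _ hy4) hd').differentiableAt.differentiableWithinAt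
  · intro y hy
    obtain ⟨hy1, hy2⟩ := hrT hy
    exact ⟨ball_subset_ball (min_le_left _ _) hy2, e.right_inv hy1⟩
  · intro s hs
    obtain ⟨hs1, hs2⟩ := hρ₃S (ball_subset_ball (min_le_right _ _) hs)
    exact ⟨hs2, e.left_inv hs1⟩

end Pool.Agent.LSF
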