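import Mathlib

/-!
BG5 (absolute irreducibility): an irreducible polynomial in two variables over an algebraically
closed field stays irreducible over every extension field.

Complete proof. Let `k` be algebraically closed, `K` an extension field, `Φ ∈ k[X][Y]` irreducible.
Suppose `Φ = G H` over `K` with `G, H` non-units (non-constants) in `K[X][Y]`. Let `R ⊆ K` be the
`k`-algebra generated by the finitely many coefficients of `G` and `H`, and by the inverses of a
nonzero coefficient `g` of a monomial of positive total degree of `G` and of one, `h`, of `H`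
(they exist as `G`, `H` are not constant). `R` is a finitely generated `k`-algebra, a nonzero ring;
let `m` be a maximal ideal; `R/m` is a field, finitely generated as a `k`-algebra, so finite over
`k` (Zariski's lemma / Nullstellensatz, Mathlib: `finite_of_finite_type_of_isJacobsonRing` or
`RingHom.FiniteType...`), so `R/m = k`: there is a `k`-algebra homomorphism `φ : R → k`. Then
`Φ = φ(G) φ(H)` in `k[X][Y]` (`φ` fixes the coefficients of `Φ`), and `φ(G)`, `φ(H)` are not
constants because `φ(g)`, `φ(h)` are invertible. This contradicts irreducibility.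
(Constants: the units of `k[X][Y]` are the nonzero constants `C (C c)`.)
Alternative: view `Φ` in `MvPolynomial (Fin 2) k`; Mathlib may contain
`MvPolynomial`-irreducibility under base change or geometric irreducibility.
-/
namespace Pool.Agent.LSF

open Polynomial

theorem BG5_unit {F : Type} [Field F] (G : Polynomial (Polynomial F)) (h : IsUnit G) (i j : ℕ)
    (hij : i ≠ 0 ∨ j ≠ 0) : (G.coeff i).coeff j = 0 := by
  obtain ⟨r, hr, rfl⟩ := Polynomial.isUnit_iff.1 h
  obtain ⟨s, hs, rfl⟩ := Polynomial.isUnit_iff.1 hr
  rw [coeff_C]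
  split_ifs with h0
  · rw [coeff_C, if_neg]
    rcases hij with h1 | h1
    · exact absurd h0 h1
    · exact h1
  · rw [coeff_zero]

theorem BG5_nonunit {F : Type} [Field F] (G : Polynomial (Polynomial F)) (hG : G ≠ 0)
    (h : ¬ IsUnit G) : ∃ i j, (i ≠ 0 ∨ j ≠ 0) ∧ (G.coeff i).coeff j ≠ 0 := by
  by_contra hno
  push Not at hno
  have h1 : G = C (C ((G.coeff 0).coeff 0)) := by
    ext i j
    rw [coeff_C]
    split_ifs with h0
    · rw [coeff_C]
      split_ifs with h1
      · rw [h0, h1]
      · exact hno i j (Or.inr h1)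
    · rw [coeff_zero]
      exact hno i j (Or.inl h0)
  have h2 : (G.coeff 0).coeff 0 ≠ 0 := by
    intro h3
    rw [h3, C_0, C_0] at h1
    exact hG h1
  rw [h1] at h
  exact h (isUnit_C.2 (isUnit_C.2 (isUnit_iff_ne_zero.2 h2)))

theorem BG5_hom (k K : Type) [Field k] [IsAlgClosed k] [Field K] [Algebra k K] (S : Finset K) :
    Nonempty (Algebra.adjoin k (S : Set K) →ₐ[k] k) := by
  have hft : Algebra.FiniteType k (Algebra.adjoin k (S : Set K)) :=
    (Subalgebra.fg_iff_finiteType _).1 (Subalgebra.fg_adjoin_finset S)
  obtain ⟨m, hm⟩ := Ideal.exists_maximal (Algebra.adjoin k (S : Set K))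
  let inst : Field (Algebra.adjoin k (S : Set K) ⧸ m) := Ideal.Quotient.field m
  have hft2 : Algebra.FiniteType k (Algebra.adjoin k (S : Set K) ⧸ m) :=
    hft.of_surjective (Ideal.Quotient.mkₐ k m) (Ideal.Quotient.mkₐ_surjective k m)
  have hfin : Module.Finite k (Algebra.adjoin k (S : Set K) ⧸ m) :=
    finite_of_finite_type_of_isJacobsonRing k _
  have hbij : Function.Bijective (algebraMap k (Algebra.adjoin k (S : Set K) ⧸ m)) :=
    IsAlgClosed.algebraMap_bijective_of_isIntegral
  exact ⟨((AlgEquiv.ofBijective (Algebra.ofId k _) hbij).symm : _ →ₐ[k] k).comp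
    (Ideal.Quotient.mkₐ k m)⟩

theorem BG5_lift {R K : Type} [CommRing R] [Field K] (f : R →+* K) (G : Polynomial (Polynomial K))
    (h : ∀ i j, (G.coeff i).coeff j ∈ Set.range f) :
    ∃ G' : Polynomial (Polynomial R), G'.map (mapRingHom f) = G := by
  have h1 : G ∈ lifts (mapRingHom f) := by
    rw [lifts_iff_coeff_lifts]
    intro i
    have h2 : G.coeff i ∈ lifts f := by
      rw [lifts_iff_coeff_lifts]
      exact fun j => h i j
    obtain ⟨q, hq⟩ := (mem_lifts _).1 h2
    exact ⟨q, hq⟩
  exact (mem_lifts _).1 h1

theorem BG5_inj {R K : Type} [CommRing R] [CommRing K] (f : R →+* K)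
    (hf : Function.Injective f) : Function.Injective (fun G : Polynomial (Polynomial R) =>
      G.map (mapRingHom f)) :=
  map_injective _ (map_injective f hf)

open Classical in
theorem girr (k K : Type) [Field k] [IsAlgClosed k] [Field K] [Algebra k K]
    (Φ : Polynomial (Polynomial k)) (h : Irreducible Φ) :
    Irreducible (Φ.map (mapRingHom (algebraMap k K))) := by
  have hinj : Function.Injective (algebraMap k K) := (algebraMap k K).injective
  have hne : Φ.map (mapRingHom (algebraMap k K)) ≠ 0 := by
    intro h0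
    exact h.ne_zero (BG5_inj _ hinj (by simpa using h0))
  constructor
  · intro hu
    obtain ⟨i, j, hij, hc⟩ := BG5_nonunit Φ h.ne_zero h.not_isUnit
    have h1 := BG5_unit _ hu i j hij
    rw [coeff_map, coe_mapRingHom, coeff_map] at h1
    exact hc ((map_eq_zero _).1 h1)
  · intro G H hGH
    by_contra hno
    push Not at hno
    obtain ⟨hG, hH⟩ := hno
    have hG0 : G ≠ 0 := by
      rintro rfl
      rw [zero_mul] at hGH
      exact hne hGH
    have hH0 : H ≠ 0 := by
      rintro rfl
      rw [mul_zero] at hGH
      exact hne hGH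
    obtain ⟨i, j, hij, hg⟩ := BG5_nonunit G hG0 hG
    obtain ⟨i', j', hij', hh⟩ := BG5_nonunit H hH0 hH
    set g := (G.coeff i).coeff j with hgd
    set h' := (H.coeff i').coeff j' with hhd
    -- all coefficients
    set cf : Polynomial (Polynomial K) → Finset K := fun G =>
      G.support.biUnion (fun a => (G.coeff a).support.image (fun b => (G.coeff a).coeff b)) with hcf
    have hcfm : ∀ (G : Polynomial (Polynomial K)) (a b : ℕ), (G.coeff a).coeff b ∈ cf G ∨
        (G.coeff a).coeff b = 0 := by
      intro G a b
      by_cases hb : (G.coeff a).coeff b = 0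
      · exact Or.inr hb
      · left
        rw [hcf]
        refine Finset.mem_biUnion.2 ⟨a, ?_, Finset.mem_image.2 ⟨b, mem_support_iff.2 hb, rfl⟩⟩
        rw [mem_support_iff]
        intro h0
        rw [h0, coeff_zero] at hb
        exact hb rfl
    set S : Finset K := insert g⁻¹ (insert h'⁻¹ (cf G ∪ cf H)) with hS
    have hGS : ∀ x ∈ cf G, x ∈ S := fun x hx =>
      Finset.mem_insert_of_mem (Finset.mem_insert_of_mem (Finset.mem_union_left _ hx))
    have hHS : ∀ x ∈ cf H, x ∈ S := fun x hx =>
      Finset.mem_insert_of_mem (Finset.mem_insert_of_mem (Finset.mem_union_right _ hx))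
    have hgS : g⁻¹ ∈ S := Finset.mem_insert_self _ _
    have hhS : h'⁻¹ ∈ S := Finset.mem_insert_of_mem (Finset.mem_insert_self _ _)
    set R := Algebra.adjoin k (S : Set K) with hR
    have hSR : ∀ x ∈ S, x ∈ R := fun x hx => Algebra.subset_adjoin (by exact_mod_cast hx)
    obtain ⟨φ⟩ := BG5_hom k K S
    have hGr : ∀ a b, (G.coeff a).coeff b ∈ Set.range (algebraMap R K) := by
      intro a b
      rcases hcfm G a b with h1 | h1
      · exact ⟨⟨_, hSR _ (hGS _ h1)⟩, rfl⟩
      · rw [h1]
        exact ⟨0, map_zero _⟩
    have hHr : ∀ a b, (H.coeff a).coeff b ∈ Set.range (algebraMap R K) := by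
      intro a b
      rcases hcfm H a b with h1 | h1
      · exact ⟨⟨_, hSR _ (hHS _ h1)⟩, rfl⟩
      · rw [h1]
        exact ⟨0, map_zero _⟩
    obtain ⟨G', hG'⟩ := BG5_lift _ G hGr
    obtain ⟨H', hH'⟩ := BG5_lift _ H hHr
    have hRi : Function.Injective (algebraMap R K) := Subtype.val_injective
    have hprod : Φ.map (mapRingHom (algebraMap k R)) = G' * H' := by
      refine BG5_inj (algebraMap R K) hRi ?_
      simp only
      rw [Polynomial.map_mul, hG', hH', ← hGH, Polynomial.map_map, mapRingHom_comp,
        ← IsScalarTower.algebraMap_eq]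
    have hprod2 : Φ = G'.map (mapRingHom (φ : R →+* k)) * H'.map (mapRingHom (φ : R →+* k)) := by
      rw [← Polynomial.map_mul, ← hprod, Polynomial.map_map, mapRingHom_comp]
      have h1 : ((φ : R →+* k)).comp (algebraMap k R) = RingHom.id k := by
        ext x
        exact φ.commutes x
      rw [h1, mapRingHom_id, Polynomial.map_id]
    have key : ∀ (P' : Polynomial (Polynomial R)) (P : Polynomial (Polynomial K)) (a b : ℕ),
        P'.map (mapRingHom (algebraMap R K)) = P → (a ≠ 0 ∨ b ≠ 0) →
        ((P.coeff a).coeff b)⁻¹ ∈ S → (P.coeff a).coeff b ≠ 0 →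
        ¬ IsUnit (P'.map (mapRingHom (φ : R →+* k))) := by
      intro P' P a b hP' hab hS' hne hu
      have h1 := BG5_unit _ hu a b hab
      rw [coeff_map, coe_mapRingHom, coeff_map] at h1
      have h2 : algebraMap R K ((P'.coeff a).coeff b) = (P.coeff a).coeff b := by
        rw [← hP', coeff_map, coe_mapRingHom, coeff_map]
      have h3 : (P'.coeff a).coeff b * ⟨((P.coeff a).coeff b)⁻¹, hSR _ hS'⟩ = 1 := by
        apply hRi
        rw [map_mul, h2, map_one]
        exact mul_inv_cancel₀ hne
      have h4 := congrArg φ h3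
      rw [map_mul, map_one] at h4
      have h5 : φ ((P'.coeff a).coeff b) = 0 := h1
      rw [h5, zero_mul] at h4
      exact zero_ne_one h4
    rcases h.isUnit_or_isUnit hprod2 with hu | hu
    · exact key G' G i j hG' hij hgS hg hu
    · exact key H' H i' j' hH' hij' hhS hh hu

end Pool.Agent.LSF
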