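import Pool.Agent.LSF.BG3
import Pool.Agent.LSF.BG5

/-!
BG6: points on an irreducible curve are conjugate; simultaneous conjugation of independent pairs.

Complete proof.
`conj_curve`: view `Φ` over `A` (`k ≤ A`, coefficients mapped by the inclusion): irreducible in
`A[X][Y]` by `girr`. It has positive degree in `Y`, or else `Φ ∈ A[X]` would be a nonzero
polynomial with root `x ∉ A`, impossible. By Gauss' lemma `Φ(x, ·)` is irreducible over `A(x)`
(`A[X] ≅ A[x]`, `IsPrimitive`, `Polynomial.IsPrimitive.irreducible_iff_irreducible_map_fraction_map`)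
and has root `c`, so for `F ∈ A[X][Y]`: `F(x, c) = 0` iff `Φ ∣ F` in `A(X)[Y]`, a condition that
does not depend on `(x, c)`. The same for `(x', c')`. So `(x, c)` and `(x', c')` satisfy the same
polynomial relations over `A` and `ext_iso` (index set `Fin 2` or `Bool`) gives `σ`.
`autp`: induction on `n`. For `n = 0` take `σ = 1`. Step: let `σ₀` be an automorphism over `K0` with
`σ₀ (x i) = x' i`, `σ₀ (c i) = c' i` for `i < n` (the first `n` indices). Replace `x n`, `c n` by
`σ₀ (x n)`, `σ₀ (c n)`: so we may assume `x i = x' i`, `c i = c' i` for `i < n`. Let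
`A := ACL {x' i | i < n}`, a countable algebraically closed field containing `c' i`, `i < n`
(`hc`: `c i ∈ ACL {x i}`). `x n ∉ A`, `x' n ∉ A` by independence. By hypothesis there is an
automorphism `τ` over `K0` with `τ (x n) = x' n`, `τ (c n) = c' n`; let `Φ ∈ K0[X][Y]` be
irreducible with `Φ(x n, c n) = 0` (`acl_rel` for `A = K0`); then `Φ(x' n, c' n) = 0` too. By
`conj_curve` there is `σ₁` over `A` with `σ₁ (x n) = x' n`, `σ₁ (c n) = c' n`, and `σ₁` fixes the
other pairs. Compose.
-/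

namespace Pool.Agent.LSF

open Polynomial

theorem bg6_ev2_eval₂ {k : Type} [Field k] [Algebra k ℂ] (Φ : Polynomial (Polynomial k))
    (x y : ℂ) : ev2 Φ x y = Φ.eval₂ (Polynomial.eval₂RingHom (algebraMap k ℂ) x) y := by
  unfold ev2
  rw [Polynomial.eval_map]

theorem bg6_ev2_aut (k : IntermediateField ℚ ℂ) (Φ : Polynomial (Polynomial k)) (σ : ℂ ≃ₐ[k] ℂ)
    (x y : ℂ) : ev2 Φ (σ x) (σ y) = σ (ev2 Φ x y) := by
  rw [bg6_ev2_eval₂, bg6_ev2_eval₂]
  have h := Polynomial.hom_eval₂ Φ (Polynomial.eval₂RingHom (algebraMap k ℂ) x)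
    (σ : ℂ →+* ℂ) y
  have h2 : (σ : ℂ →+* ℂ).comp (Polynomial.eval₂RingHom (algebraMap k ℂ) x)
      = Polynomial.eval₂RingHom (algebraMap k ℂ) (σ x) := by
    refine Polynomial.ringHom_ext ?_ ?_
    · intro a
      simp only [RingHom.coe_comp, Function.comp_apply, Polynomial.coe_eval₂RingHom,
        Polynomial.eval₂_C]
      exact σ.commutes a
    · simp
  rw [h2] at h
  exact h.symm

theorem bg6_transc (A : IntermediateField ℚ ℂ) (hA : IsAlgClosed A) (x : ℂ) (hx : x ∉ A) :
    Transcendental A x := by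
  intro halg
  apply hx
  have hint : IsIntegral A x := halg.isIntegral
  have hirr := minpoly.irreducible hint
  have hdeg : (minpoly A x).degree = 1 := IsAlgClosed.degree_eq_one_of_irreducible A hirr
  obtain ⟨a, ha⟩ := minpoly.mem_range_of_degree_eq_one A x hdeg
  rw [← ha]
  exact a.2

theorem bg6_inj (A : IntermediateField ℚ ℂ) (x : ℂ) (hx : Transcendental A x) :
    Function.Injective (Polynomial.eval₂RingHom (algebraMap A ℂ) x) := by
  have h := transcendental_iff_injective.mp hx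
  intro a b hab
  apply h
  simpa [Polynomial.aeval_def] using hab

theorem bg6_key (A : IntermediateField ℚ ℂ) (Ψ : Polynomial (Polynomial A))
    (hΨ : Irreducible (Ψ.map (algebraMap (Polynomial A) (FractionRing (Polynomial A)))))
    (x c : ℂ) (hx : Transcendental A x) (h : ev2 Ψ x c = 0) (G : Polynomial (Polynomial A)) :
    ev2 G x c = 0 ↔ Ψ.map (algebraMap (Polynomial A) (FractionRing (Polynomial A))) ∣
      G.map (algebraMap (Polynomial A) (FractionRing (Polynomial A))) := by
  have hinj := bg6_inj A x hx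
  set φ : FractionRing (Polynomial A) →+* ℂ := IsFractionRing.lift hinj with hφ
  have hcomp : φ.comp (algebraMap (Polynomial A) (FractionRing (Polynomial A)))
      = Polynomial.eval₂RingHom (algebraMap A ℂ) x := by
    ext a
    · simp [hφ]
    · simp [hφ]
  have hev : ∀ P : Polynomial (Polynomial A), ev2 P x c =
      (P.map (algebraMap (Polynomial A) (FractionRing (Polynomial A)))).eval₂ φ c := by
    intro P
    rw [Polynomial.eval₂_map, hcomp, bg6_ev2_eval₂]
  rw [hev] at h
  rw [hev]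
  constructor
  · intro hG
    by_contra hnd
    have hco : IsCoprime (Ψ.map (algebraMap (Polynomial A) (FractionRing (Polynomial A))))
        (G.map (algebraMap (Polynomial A) (FractionRing (Polynomial A)))) :=
      (EuclideanDomain.dvd_or_coprime _ _ hΨ).resolve_left hnd
    obtain ⟨a, b, hab⟩ := hco
    have := congrArg (Polynomial.eval₂ φ c) hab
    rw [Polynomial.eval₂_add, Polynomial.eval₂_mul, Polynomial.eval₂_mul, h, hG] at this
    simp at this
  · rintro ⟨Q, hQ⟩
    rw [hQ, Polynomial.eval₂_mul, h, zero_mul]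

theorem conj_curve (k A : IntermediateField ℚ ℂ) (hk : IsAlgClosed k) (hA : IsAlgClosed A)
    (hc : (A : Set ℂ).Countable) (hkA : k ≤ A) (Φ : Polynomial (Polynomial k))
    (hΦ : Irreducible Φ) (x c x' c' : ℂ) (h : ev2 Φ x c = 0) (h' : ev2 Φ x' c' = 0)
    (hx : x ∉ A) (hx' : x' ∉ A) : ∃ σ : ℂ ≃ₐ[A] ℂ, σ x = x' ∧ σ c = c' := by
  letI : Algebra k A := (IntermediateField.inclusion hkA).toRingHom.toAlgebra
  have hcomp : (algebraMap A ℂ).comp (algebraMap k A) = algebraMap k ℂ := by
    ext a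
    rfl
  have hirr : Irreducible (Φ.map (mapRingHom (algebraMap k A))) := girr k A Φ hΦ
  set Ψ : Polynomial (Polynomial A) := Φ.map (mapRingHom (algebraMap k A)) with hΨ
  have hevΨ : ∀ a b : ℂ, ev2 Ψ a b = ev2 Φ a b := by
    intro a b
    rw [bg6_ev2_eval₂, bg6_ev2_eval₂, hΨ, Polynomial.eval₂_map]
    congr 1
    refine Polynomial.ringHom_ext ?_ ?_
    · intro r
      simp only [RingHom.coe_comp, Function.comp_apply, Polynomial.coe_mapRingHom,
        Polynomial.map_C, Polynomial.coe_eval₂RingHom, Polynomial.eval₂_C]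
      exact congrArg (fun f => f r) hcomp
    · simp
  have hxT := bg6_transc A hA x hx
  have hxT' := bg6_transc A hA x' hx'
  have h1 : ev2 Ψ x c = 0 := by rw [hevΨ]; exact h
  have h1' : ev2 Ψ x' c' = 0 := by rw [hevΨ]; exact h'
  have hdeg : Ψ.natDegree ≠ 0 := by
    intro h0
    obtain ⟨a, ha⟩ : ∃ a, Ψ = C a := ⟨_, Polynomial.eq_C_of_natDegree_eq_zero h0⟩
    rw [ha, bg6_ev2_eval₂, Polynomial.eval₂_C] at h1
    have : a = 0 := by
      apply bg6_inj A x hxT
      rw [h1, map_zero]
    rw [this, C_0] at ha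
    exact hirr.ne_zero ha
  have hirrK : Irreducible (Ψ.map (algebraMap (Polynomial A) (FractionRing (Polynomial A)))) := by
    have hprim : Ψ.IsPrimitive := hirr.isPrimitive hdeg
    classical
    letI : NormalizedGCDMonoid (Polynomial A) := Nonempty.some inferInstance
    exact (hprim.irreducible_iff_irreducible_map_fraction_map
      (K := FractionRing (Polynomial A))).mp hirr
  let τ : MvPolynomial (Fin 2) A →+* Polynomial (Polynomial A) :=
    MvPolynomial.eval₂Hom ((C : Polynomial A →+* Polynomial (Polynomial A)).comp C)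
      ![C X, X]
  have hτ : ∀ (a b : ℂ) (F : MvPolynomial (Fin 2) A),
      MvPolynomial.aeval ![a, b] F = ev2 (τ F) a b := by
    intro a b F
    rw [bg6_ev2_eval₂]
    have : (MvPolynomial.aeval ![a, b] : MvPolynomial (Fin 2) A →ₐ[A] ℂ).toRingHom
        = (Polynomial.eval₂RingHom (Polynomial.eval₂RingHom (algebraMap A ℂ) a) b).comp τ := by
      refine MvPolynomial.ringHom_ext ?_ ?_
      · intro r
        simp [τ]
      · intro i
        fin_cases i
        · simp [τ]
        · simp [τ]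
    exact congrArg (fun f => f F) this
  obtain ⟨σ, hσ⟩ := ext_iso A hc (ι := Fin 2) ![x, c] ![x', c'] (by
    intro F
    rw [hτ, hτ, bg6_key A Ψ hirrK x c hxT h1, bg6_key A Ψ hirrK x' c' hxT' h1'])
  exact ⟨σ, by simpa using hσ 0, by simpa using hσ 1⟩

theorem autp (n : ℕ) (x c x' c' : Fin n → ℂ) (hx : AlgebraicIndependent ℚ x)
    (hx' : AlgebraicIndependent ℚ x') (hc : ∀ i, c i ∈ ACL {x i})
    (h : ∀ i, ∃ σ : ℂ ≃ₐ[K0] ℂ, σ (x i) = x' i ∧ σ (c i) = c' i) :
    ∃ σ : ℂ ≃ₐ[K0] ℂ, ∀ i, σ (x i) = x' i ∧ σ (c i) = c' i := by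
  induction n with
  | zero => exact ⟨AlgEquiv.refl, fun i => i.elim0⟩
  | succ n ih =>
    obtain ⟨σ₀, hσ₀⟩ := ih (fun i => x i.castSucc) (fun i => c i.castSucc)
      (fun i => x' i.castSucc) (fun i => c' i.castSucc)
      (hx.comp _ (Fin.castSucc_injective n)) (hx'.comp _ (Fin.castSucc_injective n))
      (fun i => hc _) (fun i => h _)
    set A : IntermediateField ℚ ℂ := ACL (x' '' {j | j ≠ Fin.last n}) with hAdef
    have hK0 : K0 ≤ A := acl_mono _ _ (Set.empty_subset _)
    have himg : σ₀ '' (x '' {j | j ≠ Fin.last n}) = x' '' {j | j ≠ Fin.last n} := by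
      rw [Set.image_image]
      apply Set.image_congr
      intro j hj
      obtain ⟨i, rfl⟩ : ∃ i, j = Fin.castSucc i := ⟨j.castPred hj, by simp⟩
      exact (hσ₀ i).1
    have hlast' : x' (Fin.last n) ∉ A := ai_not_mem x' hx' (Fin.last n)
    have hlast : x (Fin.last n) ∉ ACL (x '' {j | j ≠ Fin.last n}) := ai_not_mem x hx _
    have hy : σ₀ (x (Fin.last n)) ∉ A := by
      intro hmem
      apply hlast
      have := acl_aut (σ₀.symm : ℂ ≃+* ℂ) _ _ hmem
      have e1 : ((σ₀.symm : ℂ ≃+* ℂ)) '' (x' '' {j | j ≠ Fin.last n})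
          = x '' {j | j ≠ Fin.last n} := by
        rw [← himg, Set.image_image]
        simp
      rw [e1] at this
      simpa using this
    have hxK : x (Fin.last n) ∉ K0 := fun hm => hlast (acl_mono _ _ (Set.empty_subset _) hm)
    obtain ⟨Φ, hΦ, -, hΦ0⟩ := acl_rel K0 (acl_isAlgClosed ∅) (x (Fin.last n)) (c (Fin.last n))
      hxK (acl_mono {x (Fin.last n)} _ (by
        intro z hz
        exact Or.inl hz) (hc _))
    obtain ⟨τ, hτ1, hτ2⟩ := h (Fin.last n)
    have e1 : ev2 Φ (x' (Fin.last n)) (c' (Fin.last n)) = 0 := by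
      rw [← hτ1, ← hτ2, bg6_ev2_aut, hΦ0, map_zero]
    have e2 : ev2 Φ (σ₀ (x (Fin.last n))) (σ₀ (c (Fin.last n))) = 0 := by
      rw [bg6_ev2_aut, hΦ0, map_zero]
    have hcount : (A : Set ℂ).Countable :=
      acl_countable _ ((Set.finite_range x').countable.mono (Set.image_subset_range _ _))
    obtain ⟨σ₁, hs1, hs2⟩ := conj_curve K0 A (acl_isAlgClosed ∅) (acl_isAlgClosed _) hcount hK0
      Φ hΦ _ _ _ _ e2 e1 hy hlast'
    let σ₂ : ℂ ≃ₐ[K0] ℂ := AlgEquiv.ofRingEquiv (f := (σ₁ : ℂ ≃+* ℂ)) (by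
      intro r
      exact σ₁.commutes ⟨(r : ℂ), hK0 r.2⟩)
    have hfix : ∀ z ∈ A, σ₂ z = z := by
      intro z hz
      exact σ₁.commutes ⟨z, hz⟩
    refine ⟨σ₀.trans σ₂, fun i => ?_⟩
    refine Fin.lastCases ?_ (fun i => ?_) i
    · exact ⟨hs1, hs2⟩
    · have hxi : x' i.castSucc ∈ A := acl_sub _ ⟨i.castSucc, (Fin.castSucc_lt_last i).ne, rfl⟩
      have hci : c' i.castSucc ∈ A := by
        have h3 := acl_aut (σ₀ : ℂ ≃+* ℂ) _ _ (hc i.castSucc)
        rw [Set.image_singleton] at h3
        have h4 : (σ₀ : ℂ ≃+* ℂ) (x i.castSucc) = x' i.castSucc := (hσ₀ i).1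
        have h5 : (σ₀ : ℂ ≃+* ℂ) (c i.castSucc) = c' i.castSucc := (hσ₀ i).2
        rw [h4, h5] at h3
        refine acl_mono _ _ ?_ h3
        rintro z rfl
        exact ⟨i.castSucc, (Fin.castSucc_lt_last i).ne, rfl⟩
      constructor
      · rw [AlgEquiv.trans_apply, (hσ₀ i).1]
        exact hfix _ hxi
      · rw [AlgEquiv.trans_apply, (hσ₀ i).2]
        exact hfix _ hci

end Pool.Agent.LSF
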