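import Pool.Agent.LSF.BE4
import Pool.Agent.LSF.BG6

/-!
BE7: conjugating the link to a given sequence of points of the curve.

Complete proof. `A := Ao v i₀`, `t := v i₀` (`ao_facts`: algebraically closed, countable, `K0 ≤ A`,
`x ∉ A`). For every `j`: `conj_curve` (BG6) with `k := K0`, `A`, `Φ`, `(x, c) := (x, L.b m a x)`,
`(x', c') := (la j, c j)` gives `τ j : ℂ ≃ₐ[A] ℂ` with `τ j x = la j`, `τ j (L.b m a x) = c j`
(`acl_isAlgClosed` for `K0`). The sequence `j ↦ τ j t` is bounded: otherwise for every `R` there are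
infinitely many `j` with `‖τ j t‖ > R` (an unbounded sequence has `limsup = ∞`), hence for all
`ε > 0` and `U ∈ Bornology.cobounded ℂ` there is `j` with `‖la j - e‖ < ε` and `τ j t ∈ U`, that
is `Bd d v i₀ m (Bornology.cobounded ℂ)` with the point `e`, a contradiction to `hinf`. (Convenient:
`Filter.Frequently`: either `∃ᶠ` statement for `cobounded`, or `∃ R, ∀ᶠ j, ‖τ j t‖ ≤ R`.) So there
is a convergent subsequence (`tendsto_subseq_of_bounded` or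
`IsCompact.tendsto_subseq'` in a closed ball, `Filter.Frequently`), `τ (φ j) t → s₀`, `φ` strictly
monotone. If `s₀ ∈ B` then `Bd d v i₀ m (nhds s₀)` (`la (φ j) → e`, `τ (φ j) t → s₀`), a contradiction
to `hB`. Put `σ j := τ (φ j)`.
-/

namespace Pool.Agent.LSF

open Polynomial Pool.Agent.LenSpec Metric Filter

theorem conj_seq {d : ℕ} {MM : Set ℕ} {k : ℕ} {L : LinkD k} {v u : VI d → ℂ} {a : Fin k → ℂ}
    (h : GP d MM k L v u a) (i₀ : VI d) (m : ℕ) (hm : m ∈ MM) (B : Finset ℂ)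
    (hB : ∀ b ∈ B, ¬ Bd d v i₀ m (nhds b)) (hinf : ¬ Bd d v i₀ m (Bornology.cobounded ℂ))
    (Φ : Polynomial (Polynomial K0)) (hΦ : Irreducible Φ) (x : ℂ) (hx : x ∈ XV d v m)
    (h0 : ev2 Φ x (L.b m a x) = 0) (e : ℂ) (he : ‖e‖ < 1) (la c : ℕ → ℂ)
    (hla : Tendsto la atTop (nhds e)) (hA : ∀ j, la j ∉ Ao v i₀)
    (hc : ∀ j, ev2 Φ (la j) (c j) = 0) :
    ∃ s₀, s₀ ∉ B ∧ ∃ φ : ℕ → ℕ, StrictMono φ ∧ ∃ σ : ℕ → (ℂ ≃ₐ[Ao v i₀] ℂ),
      (∀ j, σ j x = la (φ j) ∧ σ j (L.b m a x) = c (φ j)) ∧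
      Tendsto (fun j => σ j (v i₀)) atTop (nhds s₀) := by
  obtain ⟨hA', hcA, hK0, ht, -, -, hX⟩ := ao_facts h i₀
  have h1 : ∀ j, ∃ σ : ℂ ≃ₐ[Ao v i₀] ℂ, σ x = la j ∧ σ (L.b m a x) = c j := fun j =>
    conj_curve K0 (Ao v i₀) (acl_isAlgClosed ∅) hA' hcA hK0 Φ hΦ x (L.b m a x) (la j) (c j) h0
      (hc j) (hX m hm x hx).2 (hA j)
  choose τ hτ1 hτ2 using h1
  have hbd : ∀ (l : Filter ℂ) (φ : ℕ → ℕ), Tendsto φ atTop atTop →
      Tendsto (fun j => τ (φ j) (v i₀)) atTop l → Bd d v i₀ m l := by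
    intro l φ hφ hl
    refine ⟨e, he, fun ε hε U hU => ?_⟩
    have h2 : ∀ᶠ j in atTop, ‖la (φ j) - e‖ < ε := by
      have h3 : Tendsto (fun j => la (φ j)) atTop (nhds e) := hla.comp hφ
      have h4 := (tendsto_iff_norm_sub_tendsto_zero.1 h3).eventually (gt_mem_nhds hε)
      exact h4
    have h3 : ∀ᶠ j in atTop, τ (φ j) (v i₀) ∈ U := hl hU
    obtain ⟨j, hj1, hj2⟩ := (h2.and h3).exists
    exact ⟨τ (φ j), x, hx, by rw [hτ1]; exact hj1, hj2⟩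
  have hR : ∃ R : ℝ, ∃ᶠ j in atTop, τ j (v i₀) ∈ closedBall (0 : ℂ) R := by
    by_contra hcon
    push Not at hcon
    apply hinf
    apply hbd _ id tendsto_id
    rw [← tendsto_norm_atTop_iff_cobounded, Filter.tendsto_atTop]
    intro R
    have h2 := hcon R
    filter_upwards [h2] with j hj
    rw [mem_closedBall_zero_iff, not_le] at hj
    exact hj.le
  obtain ⟨R, hR⟩ := hR
  obtain ⟨s₀, -, φ, hφ, hlim⟩ := (isCompact_closedBall (0 : ℂ) R).tendsto_subseq' hR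
  refine ⟨s₀, ?_, φ, hφ, fun j => τ (φ j), fun j => ⟨hτ1 _, hτ2 _⟩, hlim⟩
  intro hs
  exact hB s₀ hs (hbd _ φ hφ.tendsto_atTop hlim)

end Pool.Agent.LSF
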