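import Pool.Agent.LSF.BF0
import Pool.Agent.LSF.BA2

/-!
BF1: elementary facts on periodic points in families.
-/

namespace Pool.Agent.LSF

open Polynomial Pool.Agent.LenSpec Metric Filter

theorem per_prime (d l : ℕ) (hl : l.Prime) (v : VI d → ℂ) (hv : Nf d v) (z : ℂ)
    (hz : (fv d v)^[l] z = z) : fv d v z = z ∨ PX d v l z := by
  by_cases h : fv d v z = z
  · exact Or.inl h
  · refine Or.inr ⟨⟨rm_per (nf_rm hv) hl.one_le hz, hz⟩, fun m hm0 hml hm => h ?_⟩
    have h1 : Function.IsPeriodicPt (fv d v) m z := hm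
    have h2 : Function.IsPeriodicPt (fv d v) l z := hz
    have h3 := h1.gcd h2
    have h4 : Nat.gcd m l = 1 := by
      have : Nat.Coprime l m := by
        rw [Nat.Prime.coprime_iff_not_dvd hl]
        intro hd
        exact absurd (Nat.le_of_dvd hm0 hd) (not_le.mpr hml)
      exact this.symm
    rw [h4] at h3
    have h5 : (fv d v)^[1] z = z := h3
    simpa using h5

theorem px_pow (d l : ℕ) (v : VI d → ℂ) (z : ℂ) (hz : fv d v z = z) :
    mu d v l z = (mu d v 1 z) ^ l := by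
  unfold mu mult
  have h : ∀ k, (ev (nP d v) (nQ d v))^[k] z = z := fun k => Function.iterate_fixed hz k
  simp only [h, Finset.prod_const, Finset.card_range, pow_one]

theorem vg_nodup (d l : ℕ) (MM : Set ℕ) (hl : l.Prime) (hM : l ∈ MM) (v : VI d → ℂ)
    (hv : VG d MM v) : (fixF d l v).roots.Nodup := by
  apply fixF_nodup d l hl.one_le v hv.nf
  intro z hz hmu
  rcases per_prime d l hl v hv.nf z hz with h | h
  · rw [px_pow d l v z h] at hmu
    exact hv.fix_ne z h l hl.one_le hmu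
  · exact (hv.mult_ne l hM z h).1 hmu

theorem bf1_nP (d : ℕ) (v : VI d → ℂ) (w : ℂ) :
    (nP d v).eval w = ∑ i : Fin (d - 1), v (Sum.inl i) * w ^ (i.val + 1) := by
  simp [nP, eval_finsetSum]

theorem bf1_nP' (d : ℕ) (v : VI d → ℂ) (w : ℂ) :
    (derivative (nP d v)).eval w =
      ∑ i : Fin (d - 1), v (Sum.inl i) * ((i.val + 1 : ℕ) * w ^ i.val) := by
  simp only [nP, derivative_sum, eval_finsetSum]
  refine Finset.sum_congr rfl fun i _ => ?_
  simp

theorem bf1_nQ (d : ℕ) (v : VI d → ℂ) (w : ℂ) :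
    (nQ d v).eval w = 1 + (∑ i : Fin (d - 1), v (Sum.inr i) * w ^ (i.val + 1)) + w ^ d := by
  simp [nQ, nR, eval_finsetSum]

theorem bf1_nQ' (d : ℕ) (v : VI d → ℂ) (w : ℂ) :
    (derivative (nQ d v)).eval w =
      (∑ i : Fin (d - 1), v (Sum.inr i) * ((i.val + 1 : ℕ) * w ^ i.val)) + d * w ^ (d - 1) := by
  simp only [nQ, nR, derivative_add, derivative_one, derivative_sum, eval_add, eval_finsetSum,
    zero_add, derivative_X_pow]
  congr 1
  · refine Finset.sum_congr rfl fun i _ => ?_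
    simp
  · simp

theorem bf1_diff (d : ℕ) (U : Set ℂ) (v : ℂ → VI d → ℂ) (hv : DifferentiableOn ℂ v U)
    (w : ℂ → ℂ) (hw : DifferentiableOn ℂ w U) :
    DifferentiableOn ℂ (fun s => (nP d (v s)).eval (w s)) U ∧
    DifferentiableOn ℂ (fun s => (nQ d (v s)).eval (w s)) U ∧
    DifferentiableOn ℂ (fun s => (derivative (nP d (v s))).eval (w s)) U ∧
    DifferentiableOn ℂ (fun s => (derivative (nQ d (v s))).eval (w s)) U := by
  have hvi : ∀ i, DifferentiableOn ℂ (fun s => v s i) U := fun i =>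
    (differentiableOn_pi.mp hv) i
  refine ⟨?_, ?_, ?_, ?_⟩
  · simp only [bf1_nP]
    exact DifferentiableOn.fun_sum fun i _ => (hvi _).mul (hw.pow _)
  · simp only [bf1_nQ]
    exact ((differentiableOn_const _).add
      (DifferentiableOn.fun_sum fun i _ => (hvi _).mul (hw.pow _))).add (hw.pow _)
  · simp only [bf1_nP']
    exact DifferentiableOn.fun_sum fun i _ => (hvi _).mul ((hw.pow _).const_mul _)
  · simp only [bf1_nQ']
    exact (DifferentiableOn.fun_sum fun i _ => (hvi _).mul ((hw.pow _).const_mul _)).add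
      ((hw.pow _).const_mul _)

theorem mu_diff (d n : ℕ) (U : Set ℂ) (v : ℂ → VI d → ℂ) (hv : DifferentiableOn ℂ v U)
    (z : ℂ → ℂ) (hz : DifferentiableOn ℂ z U)
    (hne : ∀ s ∈ U, ∀ k < n, (nQ d (v s)).eval ((fv d (v s))^[k] (z s)) ≠ 0) :
    DifferentiableOn ℂ (fun s => mu d (v s) n (z s)) U ∧
    ∀ k ≤ n, DifferentiableOn ℂ (fun s => (fv d (v s))^[k] (z s)) U := by
  have h1 : ∀ k ≤ n, DifferentiableOn ℂ (fun s => (fv d (v s))^[k] (z s)) U := by
    intro k
    induction k with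
    | zero => intro _; exact hz
    | succ k ih =>
      intro hk
      have h2 := ih (by omega)
      obtain ⟨hP, hQ, -, -⟩ := bf1_diff d U v hv _ h2
      have h3 : (fun s => (fv d (v s))^[k + 1] (z s)) =
          fun s => (nP d (v s)).eval ((fv d (v s))^[k] (z s)) /
            (nQ d (v s)).eval ((fv d (v s))^[k] (z s)) := by
        funext s
        rw [Function.iterate_succ_apply']
        rfl
      rw [h3]
      exact hP.div hQ (fun s hs => hne s hs k (by omega))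
  refine ⟨?_, h1⟩
  unfold mu mult
  refine DifferentiableOn.fun_finsetProd fun k hk => ?_
  have hk' := Finset.mem_range.mp hk
  obtain ⟨hP, hQ, hP', hQ'⟩ := bf1_diff d U v hv _ (h1 k hk'.le)
  unfold derivAt
  exact ((hP'.mul hQ).sub (hP.mul hQ')).div (hQ.pow 2)
    (fun s hs => pow_ne_zero 2 (hne s hs k hk'))

theorem branch (d n : ℕ) (hn : 1 ≤ n) (c : ℂ) (R : ℝ) (hR : 0 < R) (v : ℂ → VI d → ℂ)
    (hv : DifferentiableOn ℂ v (ball c R)) (hnf : ∀ s ∈ ball c R, Nf d (v s)) (z₀ : ℂ)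
    (hz : PX d (v c) n z₀) (h1 : mu d (v c) n z₀ ≠ 1) :
    ∃ ρ > 0, ρ ≤ R ∧ ∃ ε > 0, ∃ z : ℂ → ℂ, DifferentiableOn ℂ z (ball c ρ) ∧ z c = z₀ ∧
      (∀ s ∈ ball c ρ, PX d (v s) n (z s) ∧ ‖z s - z₀‖ < ε ∧
        ∀ w, ‖w - z₀‖ < ε → (fv d (v s))^[n] w = w → w = z s) ∧
      DifferentiableOn ℂ (fun s => mu d (v s) n (z s)) (ball c ρ) := by
  have hc : c ∈ ball c R := mem_ball_self hR
  have hd : 2 ≤ d := (hnf c hc).two_le
  have hpf := (fixF_pf d n hd hn (ball c R) v hv).1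
  have hroot : (fixF d n (v c)).eval z₀ = 0 := (fixF_root d n hn (v c) (hnf c hc) z₀).mpr hz.1.2
  have hder : (derivative (fixF d n (v c))).eval z₀ ≠ 0 := by
    obtain ⟨hB, hD⟩ := fixF_deriv d n hn (v c) (hnf c hc) z₀ hz.1.2
    rw [hD]
    exact mul_ne_zero hB (sub_ne_zero.mpr (Ne.symm h1))
  obtain ⟨r, hr, ε, hε, hrR, z, hzd, hzc, hprop⟩ :=
    pf_root isOpen_ball hpf c z₀ hc hroot hder
  have hfix : ∀ s ∈ ball c r, (fv d (v s))^[n] (z s) = z s := fun s hs =>
    (fixF_root d n hn (v s) (hnf s (hrR hs)) (z s)).mp (hprop s hs).2.1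
  have hpole : ∀ s ∈ ball c r, ∀ k, (nQ d (v s)).eval ((fv d (v s))^[k] (z s)) ≠ 0 :=
    fun s hs => rm_per (nf_rm (hnf s (hrR hs))) hn (hfix s hs)
  obtain ⟨hmu, hit⟩ := mu_diff d n (ball c r) v (hv.mono hrR) z hzd
    (fun s hs k _ => hpole s hs k)
  -- exact period near `c`
  have hev : ∀ᶠ s in nhds c, ∀ k ∈ Finset.range n, 0 < k → (fv d (v s))^[k] (z s) ≠ z s := by
    rw [Finset.eventually_all]
    intro k hk
    by_cases hk0 : 0 < k
    · have hk' := Finset.mem_range.mp hk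
      have hne : (fv d (v c))^[k] (z c) ≠ z c := by
        rw [hzc]
        exact hz.2 k hk0 hk'
      have hcont : ContinuousAt (fun s => (fv d (v s))^[k] (z s)) c :=
        ((hit k hk'.le).differentiableAt (isOpen_ball.mem_nhds (mem_ball_self hr))).continuousAt
      have hcont2 : ContinuousAt z c :=
        (hzd.differentiableAt (isOpen_ball.mem_nhds (mem_ball_self hr))).continuousAt
      have hsub : ContinuousAt (fun s => (fv d (v s))^[k] (z s) - z s) c := hcont.sub hcont2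
      have hne2 : (fun s => (fv d (v s))^[k] (z s) - z s) c ≠ 0 := sub_ne_zero.mpr hne
      exact (hsub.eventually_ne hne2).mono fun s hs _ => sub_ne_zero.mp hs
    · exact Filter.Eventually.of_forall fun s h => absurd h hk0
  obtain ⟨r', hr', hball⟩ := Metric.eventually_nhds_iff_ball.mp hev
  have hsub : ball c (min (min r r') R) ⊆ ball c r :=
    ball_subset_ball ((min_le_left _ _).trans (min_le_left _ _))
  refine ⟨min (min r r') R, lt_min (lt_min hr hr') hR, min_le_right _ _, ε, hε, z,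
    hzd.mono hsub, hzc, ?_, hmu.mono hsub⟩
  intro s hs
  have hs1 : s ∈ ball c r := hsub hs
  have hs2 : s ∈ ball c r' := ball_subset_ball ((min_le_left _ _).trans (min_le_right _ _)) hs
  refine ⟨⟨⟨hpole s hs1, hfix s hs1⟩, fun m hm0 hmn => hball s hs2 m
    (Finset.mem_range.mpr hmn) hm0⟩, (hprop s hs1).1, fun w hw hfw => ?_⟩
  exact (hprop s hs1).2.2.2 w hw ((fixF_root d n hn (v s) (hnf s (hrR hs1)) w).mpr hfw)

theorem punct (d l : ℕ) (MM : Set ℕ) (hl : l.Prime) (hM : l ∈ MM) (c : ℂ) (R : ℝ)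
    (v : ℂ → VI d → ℂ) (h : Fam d MM c R v) (e : ℂ) (he : e ∈ ball c R) :
    ∀ᶠ s in nhdsWithin e {e}ᶜ, (fixF d l (v s)).roots.Nodup := by
  have hd : 2 ≤ d := (h.nf e he).two_le
  have hpf := (fixF_pf d l hd hl.one_le (ball c R) v h.diff).1
  obtain ⟨g, hg, hgn⟩ := pf_disc hpf
  have hmem : ball c R ∈ nhds e := isOpen_ball.mem_nhds he
  have han : AnalyticAt ℂ g e := hg.analyticAt hmem
  rcases han.eventually_eq_zero_or_eventually_ne_zero with h0 | h0
  · exfalso
    obtain ⟨Z, hZ, hvg⟩ := h.vg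
    have h1 : ∀ᶠ s in nhds e, g s = 0 ∧ s ∈ ball c R := h0.and hmem
    obtain ⟨O, hO, hOo, heO⟩ := _root_.mem_nhds_iff.mp h1
    obtain ⟨s, hsO, hsZ⟩ := (hZ.dense_compl ℂ).inter_open_nonempty O hOo ⟨e, heO⟩
    have h2 := hO hsO
    exact ((hgn s h2.2).mpr (vg_nodup d l MM hl hM (v s) (hvg s h2.2 hsZ))) h2.1
  · have h1 : ∀ᶠ s in nhdsWithin e {e}ᶜ, s ∈ ball c R :=
      mem_nhdsWithin_of_mem_nhds hmem
    exact (h0.and h1).mono fun s hs => (hgn s hs.2).mp hs.1

end Pool.Agent.LSF
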