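import Pool.Agent.LSF.BG2
import Pool.Agent.LSF.BF1
import Pool.Agent.LenSpec.B5

/-!
BG7: automorphisms act on everything; symmetry.

Complete proof.
`aut_ev`, `aut_px`: `σ` is a field automorphism; `nP d (σ ∘ v) = (nP d v).map σ`,
`nQ d (σ ∘ v) = (nQ d v).map σ`, so `ev`, `derivAt`, `mult` commute with `σ`:
`fv d (σ ∘ v) (σ z) = σ (fv d v z)`, `mu d (σ ∘ v) n (σ z) = σ (mu d v n z)`,
`PX d (σ ∘ v) n (σ z) ↔ PX d v n z`, `XV d (σ ∘ v) n = σ '' XV d v n`,
`Nf d (σ ∘ v) ↔ Nf d v` (`IsCoprime` is preserved and reflected by the field automorphism),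
`VG d MM v → VG d MM (σ ∘ v)` (each condition is algebraic; apply the above with `σ⁻¹`).
`mev_aut`: `σ` fixes `K0`, so `mev F (σ ∘ a) (σ x) = σ (mev F a x)`.
`gp_aut`: `aiv`, `aiu` by `ai_aut`; `vu` .. `av` by `acl_aut` (`σ '' range v = range (σ ∘ v)`);
`lnk`, `lnk'` by `mev_aut` and `XV d (σ ∘ v) m = σ '' XV d v m`; `sym`: conjugate: given bijections
`π m` of `σ '' XV d v m`, apply `sym` of the original pair to `σ⁻¹ ∘ π m ∘ σ` and conjugate the
resulting automorphism by `σ` (it fixes `K0`); `rankv`, `ranku` by `acl_aut`; `fin`, `card` by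
injectivity of `σ`.
`gp_swap`: `GP` for `(u, v, a)` and `L.swap`: `av`: `a i ∈ ACL (range v) ≤ ACL (range u)` by `uv`
(`acl_le`); `sym`: given bijections `π m` of `XV d u m`, conjugate by the linking bijection
`b := L.b m a : XV d v m → XV d u m` (bijective by `lnk`, `lnk'`): `π' m := b⁻¹ ∘ π m ∘ b`; the
automorphism `σ` with `σ x = π' m x` satisfies, as it fixes `a` and `K0`,
`σ (b x) = b (σ x) = b (π' x) = π (b x)`; `fin`, `card` for `u` via the bijection; the rest is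
symmetric (`L.swap.swap = L` definitionally).
`b_equiv`: `σ (L.b m a x) = L.b m a (σ x)` if `σ` fixes `a`.
-/

namespace Pool.Agent.LSF

open Polynomial Pool.Agent.LenSpec

theorem bg7_nP {K L : Type} [Field K] [Field L] (φ : K →+* L) (d : ℕ) (v : VI d → K) :
    nP d (fun i => φ (v i)) = (nP d v).map φ := by
  simp [nP, Polynomial.map_sum]

theorem bg7_nQ {K L : Type} [Field K] [Field L] (φ : K →+* L) (d : ℕ) (v : VI d → K) :
    nQ d (fun i => φ (v i)) = (nQ d v).map φ := by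
  simp [nQ, nR, Polynomial.map_sum]

theorem bg7_ev {K L : Type} [Field K] [Field L] (φ : K →+* L) (P Q : K[X]) (z : K) :
    ev (P.map φ) (Q.map φ) (φ z) = φ (ev P Q z) := by
  simp only [ev, Polynomial.eval_map_apply, map_div₀]

theorem bg7_it {K L : Type} [Field K] [Field L] (φ : K →+* L) (P Q : K[X]) (z : K) (k : ℕ) :
    (ev (P.map φ) (Q.map φ))^[k] (φ z) = φ ((ev P Q)^[k] z) := by
  induction k with
  | zero => rfl
  | succ k ih => rw [Function.iterate_succ_apply', Function.iterate_succ_apply', ih, bg7_ev]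

theorem bg7_derivAt {K L : Type} [Field K] [Field L] (φ : K →+* L) (P Q : K[X]) (z : K) :
    derivAt (P.map φ) (Q.map φ) (φ z) = φ (derivAt P Q z) := by
  simp only [derivAt, Polynomial.derivative_map, Polynomial.eval_map_apply, map_div₀, map_sub,
    map_mul, map_pow]

theorem bg7_mult {K L : Type} [Field K] [Field L] (φ : K →+* L) (P Q : K[X]) (z : K) (n : ℕ) :
    mult (P.map φ) (Q.map φ) n (φ z) = φ (mult P Q n z) := by
  unfold mult
  rw [map_prod]
  refine Finset.prod_congr rfl fun k _ => ?_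
  rw [bg7_it, bg7_derivAt]

theorem bg7_perX {K L : Type} [Field K] [Field L] (φ : K →+* L) (P Q : K[X]) (z : K) (n : ℕ) :
    PerX (P.map φ) (Q.map φ) n (φ z) ↔ PerX P Q n z := by
  have hinj := φ.injective
  unfold PerX Per
  simp only [bg7_it, Polynomial.eval_map_apply, hinj.eq_iff, ne_eq, map_eq_zero]

theorem aut_px (d : ℕ) (σ : ℂ ≃+* ℂ) (v : VI d → ℂ) :
    (∀ z, fv d (fun i => σ (v i)) (σ z) = σ (fv d v z)) ∧
    (∀ n z, mu d (fun i => σ (v i)) n (σ z) = σ (mu d v n z)) ∧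
    (∀ n z, PX d (fun i => σ (v i)) n (σ z) ↔ PX d v n z) ∧
    (∀ n, XV d (fun i => σ (v i)) n = σ '' XV d v n) ∧
    (Nf d (fun i => σ (v i)) ↔ Nf d v) ∧
    (∀ MM, VG d MM v → VG d MM (fun i => σ (v i))) := by
  have hP : nP d (fun i => σ (v i)) = (nP d v).map (σ : ℂ →+* ℂ) := bg7_nP (σ : ℂ →+* ℂ) d v
  have hQ : nQ d (fun i => σ (v i)) = (nQ d v).map (σ : ℂ →+* ℂ) := bg7_nQ (σ : ℂ →+* ℂ) d v
  have h1 : ∀ z, fv d (fun i => σ (v i)) (σ z) = σ (fv d v z) := by
    intro z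
    unfold fv
    rw [hP, hQ]
    exact bg7_ev (σ : ℂ →+* ℂ) _ _ z
  have hit : ∀ k z, (fv d (fun i => σ (v i)))^[k] (σ z) = σ ((fv d v)^[k] z) := by
    intro k z
    unfold fv
    rw [hP, hQ]
    exact bg7_it (σ : ℂ →+* ℂ) _ _ z k
  have h2 : ∀ n z, mu d (fun i => σ (v i)) n (σ z) = σ (mu d v n z) := by
    intro n z
    unfold mu
    rw [hP, hQ]
    exact bg7_mult (σ : ℂ →+* ℂ) _ _ z n
  have h3 : ∀ n z, PX d (fun i => σ (v i)) n (σ z) ↔ PX d v n z := by
    intro n z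
    unfold PX
    rw [hP, hQ]
    exact bg7_perX (σ : ℂ →+* ℂ) _ _ z n
  have h4 : ∀ n, XV d (fun i => σ (v i)) n = σ '' XV d v n := by
    intro n
    ext x
    constructor
    · rintro ⟨z, hz, hzx⟩
      obtain ⟨w, rfl⟩ := σ.surjective z
      refine ⟨mu d v n w, ⟨w, (h3 n w).1 hz, rfl⟩, ?_⟩
      rw [← h2]
      exact hzx
    · rintro ⟨y, ⟨w, hw, rfl⟩, rfl⟩
      exact ⟨σ w, (h3 n w).2 hw, h2 n w⟩
  have h5 : Nf d (fun i => σ (v i)) ↔ Nf d v := by
    have hc : IsCoprime (nP d (fun i => σ (v i))) (nQ d (fun i => σ (v i))) ↔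
        IsCoprime (nP d v) (nQ d v) := by
      rw [hP, hQ]
      exact Polynomial.isCoprime_map (σ : ℂ →+* ℂ)
    have hk : ∀ k, (nP d (fun i => σ (v i))).coeff k = σ ((nP d v).coeff k) := by
      intro k
      rw [hP, Polynomial.coeff_map]
      rfl
    constructor
    · intro h
      refine ⟨h.two_le, hc.1 h.cop, ?_, ?_⟩
      · intro h1'
        apply h.one_ne
        rw [hk, h1', map_one]
      · intro h0
        apply h.top_ne
        rw [hk, h0, map_zero]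
    · intro h
      refine ⟨h.two_le, hc.2 h.cop, ?_, ?_⟩
      · intro h1'
        apply h.one_ne
        rw [hk] at h1'
        exact (map_eq_one_iff σ σ.injective).1 h1'
      · intro h0
        apply h.top_ne
        rw [hk] at h0
        exact (map_eq_zero_iff σ σ.injective).1 h0
  refine ⟨h1, h2, h3, h4, h5, ?_⟩
  intro MM h
  refine ⟨h5.2 h.nf, ?_, ?_, ?_⟩
  · intro z hz k hk
    obtain ⟨w, rfl⟩ := σ.surjective z
    rw [h1] at hz
    rw [h2, ← map_pow]
    intro h0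
    exact h.fix_ne w (σ.injective hz) k hk ((map_eq_one_iff σ σ.injective).1 h0)
  · intro n hn z hz
    obtain ⟨w, rfl⟩ := σ.surjective z
    have hw := h.mult_ne n hn w ((h3 n w).1 hz)
    rw [h2]
    exact ⟨fun h0 => hw.1 ((map_eq_one_iff σ σ.injective).1 h0),
      fun h0 => hw.2 ((map_eq_zero_iff σ σ.injective).1 h0)⟩
  · intro n hn z z' hz hz' he
    obtain ⟨w, rfl⟩ := σ.surjective z
    obtain ⟨w', rfl⟩ := σ.surjective z'
    rw [h2, h2] at he
    obtain ⟨k, hk⟩ := h.same n hn w w' ((h3 n w).1 hz) ((h3 n w').1 hz') (σ.injective he)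
    exact ⟨k, by rw [hit, ← hk]⟩

theorem mev_aut {k : ℕ} (σ : ℂ ≃ₐ[K0] ℂ) (F : MvPolynomial (Option (Fin k)) K0) (a : Fin k → ℂ)
    (x : ℂ) : mev F (fun i => σ (a i)) (σ x) = σ (mev F a x) := by
  unfold mev
  have h : (MvPolynomial.aeval (fun o : Option (Fin k) => o.elim (σ x) (fun i => σ (a i))) :
      MvPolynomial (Option (Fin k)) K0 →ₐ[K0] ℂ) =
      (σ : ℂ →ₐ[K0] ℂ).comp (MvPolynomial.aeval (fun o : Option (Fin k) => o.elim x a)) := by
    refine MvPolynomial.algHom_ext ?_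
    intro o
    cases o <;> simp
  rw [h]
  rfl

theorem b_aut {k : ℕ} (L : LinkD k) (m : ℕ) (σ : ℂ ≃ₐ[K0] ℂ) (a : Fin k → ℂ) (x : ℂ) :
    L.b m (fun i => σ (a i)) (σ x) = σ (L.b m a x) := by
  unfold LinkD.b
  rw [mev_aut, mev_aut, map_div₀]

theorem gp_aut {d : ℕ} {MM : Set ℕ} {k : ℕ} {L : LinkD k} {v u : VI d → ℂ} {a : Fin k → ℂ}
    (h : GP d MM k L v u a) (σ : ℂ ≃ₐ[K0] ℂ) :
    GP d MM k L (fun i => σ (v i)) (fun i => σ (u i)) (fun i => σ (a i)) := by
  obtain ⟨-, -, -, hXv, -, hVGv⟩ := aut_px d (σ : ℂ ≃+* ℂ) v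
  obtain ⟨-, -, -, hXu, -, hVGu⟩ := aut_px d (σ : ℂ ≃+* ℂ) u
  have hXv' : ∀ n, XV d (fun i => σ (v i)) n = σ '' XV d v n := hXv
  have hXu' : ∀ n, XV d (fun i => σ (u i)) n = σ '' XV d u n := hXu
  have hr : ∀ (w : VI d → ℂ) (x : ℂ), x ∈ ACL (Set.range w) →
      σ x ∈ ACL (Set.range (fun i => σ (w i))) := by
    intro w x hx
    have := acl_aut (σ : ℂ ≃+* ℂ) _ _ hx
    rw [← Set.range_comp] at this
    exact this
  have hinj : Function.Injective (σ : ℂ → ℂ) := σ.injective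
  refine ⟨ai_aut (σ : ℂ ≃+* ℂ) v h.aiv, ai_aut (σ : ℂ ≃+* ℂ) u h.aiu, fun i => hr v _ (h.vu i),
    fun i => hr u _ (h.uv i), fun i => hr v _ (h.av i), ?_, ?_, hVGv MM h.vgv, hVGu MM h.vgu,
    ?_, ?_, ?_, ?_, ?_, ?_, ?_, h.prime, h.inf⟩
  · intro i
    obtain ⟨j, hj⟩ := h.va i
    exact ⟨j, by simp only [hj]⟩
  · intro i
    obtain ⟨j, hj⟩ := h.ua i
    exact ⟨j, by simp only [hj]⟩
  · intro m hm x hx
    rw [hXv'] at hx
    obtain ⟨x, hx, rfl⟩ := hx
    obtain ⟨h1, h2, h3, h4⟩ := h.lnk m hm x hx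
    refine ⟨?_, ?_, ?_, ?_⟩
    · rw [mev_aut]
      exact (map_ne_zero_iff σ hinj).2 h1
    · rw [b_aut, hXu']
      exact ⟨_, h2, rfl⟩
    · rw [b_aut, mev_aut]
      exact (map_ne_zero_iff σ hinj).2 h3
    · rw [b_aut, b_aut, h4]
  · intro m hm x hx
    rw [hXu'] at hx
    obtain ⟨x, hx, rfl⟩ := hx
    obtain ⟨h1, h2, h3, h4⟩ := h.lnk' m hm x hx
    refine ⟨?_, ?_, ?_, ?_⟩
    · rw [mev_aut]
      exact (map_ne_zero_iff σ hinj).2 h1
    · rw [b_aut, hXv']
      exact ⟨_, h2, rfl⟩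
    · rw [b_aut, mev_aut]
      exact (map_ne_zero_iff σ hinj).2 h3
    · rw [b_aut, b_aut, h4]
  · intro S hS π hπ
    obtain ⟨τ, hτa, hτ⟩ := h.sym S hS (fun m x => σ.symm (π m (σ x))) (by
      intro m hm
      have hb := hπ m hm
      rw [hXv'] at hb
      have b1 : Set.BijOn σ (XV d v m) (σ '' XV d v m) := hinj.injOn.bijOn_image
      have b2 : Set.BijOn σ.symm (σ '' XV d v m) (XV d v m) := by
        have h0 := (σ.symm.injective.injOn (s := σ '' XV d v m)).bijOn_image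
        rw [Set.image_image] at h0
        simpa using h0
      exact b2.comp (hb.comp b1))
    refine ⟨(σ.symm.trans τ).trans σ, ?_, ?_⟩
    · intro i
      simp [hτa]
    · intro m hm x hx
      rw [hXv'] at hx
      obtain ⟨x, hx, rfl⟩ := hx
      simp [hτ m hm x hx]
  · intro m hm i
    rw [hXv']
    exact acl_aut (σ : ℂ ≃+* ℂ) _ _ (h.rankv m hm i)
  · intro m hm i
    rw [hXu']
    exact acl_aut (σ : ℂ ≃+* ℂ) _ _ (h.ranku m hm i)
  · intro m hm
    rw [hXv']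
    exact (h.fin m hm).image _
  · intro m hm
    rw [hXv', Set.ncard_image_of_injective _ hinj]
    exact h.card m hm

theorem bg7_bij {d : ℕ} {MM : Set ℕ} {k : ℕ} {L : LinkD k} {v u : VI d → ℂ} {a : Fin k → ℂ}
    (h : GP d MM k L v u a) (m : ℕ) (hm : m ∈ MM) :
    Set.BijOn (L.b m a) (XV d v m) (XV d u m) ∧
    Set.BijOn (L.swap.b m a) (XV d u m) (XV d v m) := by
  have hinv : Set.InvOn (L.swap.b m a) (L.b m a) (XV d v m) (XV d u m) :=
    ⟨fun x hx => (h.lnk m hm x hx).2.2.2, fun y hy => (h.lnk' m hm y hy).2.2.2⟩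
  have m1 : Set.MapsTo (L.b m a) (XV d v m) (XV d u m) := fun x hx => (h.lnk m hm x hx).2.1
  have m2 : Set.MapsTo (L.swap.b m a) (XV d u m) (XV d v m) :=
    fun y hy => (h.lnk' m hm y hy).2.1
  exact ⟨hinv.bijOn m1 m2, hinv.symm.bijOn m2 m1⟩

theorem gp_swap {d : ℕ} {MM : Set ℕ} {k : ℕ} {L : LinkD k} {v u : VI d → ℂ} {a : Fin k → ℂ}
    (h : GP d MM k L v u a) : GP d MM k L.swap u v a := by
  refine ⟨h.aiu, h.aiv, h.uv, h.vu, ?_, h.ua, h.va, h.vgu, h.vgv, h.lnk', h.lnk, ?_, h.ranku,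
    h.rankv, ?_, ?_, h.prime, h.inf⟩
  · intro i
    refine acl_le (Set.range v) (Set.range u) ?_ (h.av i)
    rintro _ ⟨j, rfl⟩
    exact h.uv j
  · intro S hS π hπ
    obtain ⟨τ, hτa, hτ⟩ := h.sym S hS (fun m x => L.swap.b m a (π m (L.b m a x))) (by
      intro m hm
      obtain ⟨b1, b2⟩ := bg7_bij h m (hS m hm)
      exact b2.comp ((hπ m hm).comp b1))
    refine ⟨τ, hτa, ?_⟩
    intro m hm y hy
    have hmm := hS m hm
    obtain ⟨-, h2, -, h4⟩ := h.lnk' m hmm y hy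
    have hπy : π m y ∈ XV d u m := (hπ m hm).mapsTo hy
    obtain ⟨-, -, -, h4'⟩ := h.lnk' m hmm (π m y) hπy
    have e1 : τ y = L.b m a (τ (L.swap.b m a y)) := by
      conv_lhs => rw [← h4]
      rw [← b_aut]
      simp only [hτa]
    rw [e1, hτ m hm _ h2, h4, h4']
  · intro m hm
    have := (bg7_bij h m hm).1.image_eq
    rw [← this]
    exact (h.fin m hm).image _
  · intro m hm
    have hb := (bg7_bij h m hm).1
    rw [← hb.image_eq, Set.ncard_image_of_injOn hb.injOn]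
    exact h.card m hm

theorem bg7_mem (A : IntermediateField ℚ ℂ) (hA : IsAlgClosed A) (x : ℂ)
    (halg : IsAlgebraic A x) : x ∈ A := by
  have hint : IsIntegral A x := halg.isIntegral
  have hirr := minpoly.irreducible hint
  have hdeg : (minpoly A x).degree = 1 := IsAlgClosed.degree_eq_one_of_irreducible A hirr
  obtain ⟨a, ha⟩ := minpoly.mem_range_of_degree_eq_one A x hdeg
  rw [← ha]
  exact a.2

/-- every periodic point and every multiplier is algebraic over the parameters -/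
theorem px_acl (d n : ℕ) (hn : 1 ≤ n) (v : VI d → ℂ) (hv : Nf d v) (z : ℂ) (hz : PX d v n z) :
    z ∈ ACL (Set.range v) ∧ mu d v n z ∈ ACL (Set.range v) := by
  set F : IntermediateField ℚ ℂ := ACL (Set.range v) with hF
  have hFc : IsAlgClosed F := acl_isAlgClosed _
  let v' : VI d → F := fun i => ⟨v i, acl_sub _ ⟨i, rfl⟩⟩
  have hvv : (fun i => algebraMap F ℂ (v' i)) = v := rfl
  have hP : nP d v = (nP d v').map (algebraMap F ℂ) := by
    rw [← bg7_nP, hvv]
  have hQ : nQ d v = (nQ d v').map (algebraMap F ℂ) := by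
    rw [← bg7_nQ, hvv]
  have hzF : z ∈ F := by
    apply bg7_mem F hFc
    have hroot : (fixF d n v).eval z = 0 := (fixF_root d n hn v hv z).2 hz.1.2
    have hmon : (fixF d n v).Monic := (fixF_monic d n hv.two_le hn v).1
    have hmap : fixF d n v = (- fixPoly d (nP d v') (nQ d v') n).map (algebraMap F ℂ) := by
      unfold fixF fixPoly
      rw [hP, hQ, b5_iter_map]
      simp
    refine ⟨- fixPoly d (nP d v') (nQ d v') n, ?_, ?_⟩
    · intro h0
      rw [h0, Polynomial.map_zero] at hmap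
      exact hmon.ne_zero hmap
    · rw [Polynomial.aeval_def, ← Polynomial.eval_map, ← hmap]
      exact hroot
  refine ⟨hzF, ?_⟩
  have : mu d v n z = algebraMap F ℂ (mult (nP d v') (nQ d v') n ⟨z, hzF⟩) := by
    unfold mu
    rw [hP, hQ, ← bg7_mult]
    rfl
  rw [this]
  exact (mult (nP d v') (nQ d v') n ⟨z, hzF⟩).2

end Pool.Agent.LSF
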