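import Pool.Agent.LSF.BE4
import Pool.Agent.LSF.BF1
import Pool.Agent.LSF.BA2
import Pool.Agent.LSF.BG7

/-!
BE8: the local branch of periodic points at the limit parameter.

Complete proof. Write `w s := Function.update v i₀ s`, `t j := σ j (v i₀) → s₀`. `w` is
differentiable. By `nf_fin` (the exceptional set is finite, hence closed, and does not contain
`s₀`) there is `R > 0` with `Nf d (w s)` for `s ∈ ball s₀ R`. `m` is prime (`h.prime`), `1 ≤ m`.
`F s := fixF d m (w s)` is a `PF` family over `ball s₀ R` (`fixF_pf`, BF0), and so the denominator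
`Dn s := (iter d (nP d (w s)) (nQ d (w s)) m).2` has holomorphic coefficients (same lemma; its degree
is bounded by `fixF_monic`).
Let `z` be a point with `PX d v m z`, `mu d v m z = x` (`hx`, unfold `XV`, `XS`). `z j := σ j z`
satisfies `PX d (w (t j)) m (z j)` and `mu d (w (t j)) m (z j) = σ j x` (`aut_px` and `aut_upd`). So
`z j` is a root of `F (t j)` (`fixF_root`, for the `j` with `t j ∈ ball s₀ R`, which are all large
`j`); by `pf_bound` (compact set `closedBall s₀ (R/2)`) the `z j` are bounded; pass to a subsequence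
`z j → z₀` (`tendsto_subseq_of_bounded`). `(F s).eval y`, `(derivative (F s)).eval y`
(`pf_cont`, BA1) and `(Dn s).eval y` are continuous in `(s, y)`, so `(F s₀).eval z₀ = 0`, i.e.
`(fv d (w s₀))^[m] z₀ = z₀` (`fixF_root`), and, because `(derivative (F s)).eval y =
(Dn s).eval y * (1 - mu d (w s) m y)`, `(Dn s).eval y ≠ 0` at periodic points (`fixF_deriv`),
`mu d (w s₀) m z₀ = lim mu d (w (t j)) m (z j) = lim σ j x = e`.
`PX d (w s₀) m z₀`: by `per_prime` (BF1) otherwise `fv d (w s₀) z₀ = z₀`. In that case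
`(mu d (w s₀) 1 z₀)^m = e` (`px_pow`), so `mu d (w s₀) 1 z₀ ≠ 1` and `branch` (BF1) with `n = 1` gives
fixed points `y s` of the maps `w s`, `y s₀ = z₀`, near `s₀`, continuous. The root `z₀` of `F s₀` is
simple (`fixF_simple`: multiplier `e ≠ 1`, `‖e‖ < 1`), so by `pf_root` (BA1) there is `ε' > 0` such that
for `s` near `s₀` there is only one root of `F s` within `ε'` of `z₀`; `y s` is such a root
(`fixF_root`; `(fv ..)^[m]` fixes a fixed point), and `z j` for large `j` (`s = t j`) too, so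
`z j = y (t j)` is a fixed point, in contradiction to `PX d (w (t j)) m (z j)`, `m ≥ 2`
(unfold `PerX`).
Now `branch` (BF1) with `n = m` (`mu .. = e ≠ 1`) gives `ρ ≤ R`, `ε`, `Z` with `Z s₀ = z₀`,
`PX d (w s) m (Z s)`, holomorphic multiplier, and uniqueness: for large `j` of the subsequence
`t j ∈ ball s₀ ρ` and `‖z j - z₀‖ < ε`, so `z j = Z (t j)` and
`mu d (w (t j)) m (Z (t j)) = σ j x`. (`∃ᶠ j in atTop`: true for all large `j` of a subsequence.)
-/

namespace Pool.Agent.LSF

open Polynomial Pool.Agent.LenSpec Metric Filter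

theorem be8_upd {d : ℕ} (v : VI d → ℂ) (i₀ : VI d) :
    Differentiable ℂ (fun s : ℂ => (Function.update v i₀ s : VI d → ℂ)) := by
  rw [differentiable_pi]
  intro i
  by_cases h : i = i₀
  · subst h
    simp only [Function.update_self]
    exact differentiable_id
  · simp only [Function.update_of_ne h]
    exact differentiable_const _

theorem be8_den {U : Set ℂ} (hU : IsOpen U) (D : ℕ) (G : ℂ → ℂ[X])
    (hdeg : ∀ s, (G s).natDegree < D) (hc : ∀ i, DifferentiableOn ℂ (fun s => (G s).coeff i) U)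
    (s₀ z₀ : ℂ) (hs : s₀ ∈ U) :
    ContinuousAt (fun p : ℂ × ℂ => (G p.1).eval p.2) (s₀, z₀) := by
  have h1 : (fun p : ℂ × ℂ => (G p.1).eval p.2) =
      fun p : ℂ × ℂ => ∑ i ∈ Finset.range D, (G p.1).coeff i * p.2 ^ i := by
    funext p
    exact eval_eq_sum_range' (hdeg p.1) p.2
  rw [h1]
  refine tendsto_finsetSum _ fun i _ => ?_
  have h2 : ContinuousAt (fun s => (G s).coeff i) s₀ :=
    ((hc i).differentiableAt (hU.mem_nhds hs)).continuousAt
  have h3 : ContinuousAt (fun p : ℂ × ℂ => (G p.1).coeff i) (s₀, z₀) :=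
    ContinuousAt.comp (g := fun s => (G s).coeff i) (f := Prod.fst) (x := (s₀, z₀)) h2
      continuousAt_fst
  exact h3.mul (continuousAt_snd.pow i)

theorem loc_branch {d : ℕ} {MM : Set ℕ} {k : ℕ} {L : LinkD k} {v u : VI d → ℂ} {a : Fin k → ℂ}
    (h : GP d MM k L v u a) (i₀ : VI d) (m : ℕ) (hm : m ∈ MM) (s₀ : ℂ)
    (hnf : Nf d (Function.update v i₀ s₀)) (x : ℂ) (hx : x ∈ XV d v m) (e : ℂ) (he : ‖e‖ < 1)
    (σ : ℕ → (ℂ ≃ₐ[Ao v i₀] ℂ)) (hs : Tendsto (fun j => σ j (v i₀)) atTop (nhds s₀))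
    (hx' : Tendsto (fun j => σ j x) atTop (nhds e)) :
    ∃ ρ > 0, ∃ Z : ℂ → ℂ, DifferentiableOn ℂ Z (ball s₀ ρ) ∧
      (∀ s ∈ ball s₀ ρ, PX d (Function.update v i₀ s) m (Z s)) ∧
      DifferentiableOn ℂ (fun s => mu d (Function.update v i₀ s) m (Z s)) (ball s₀ ρ) ∧
      mu d (Function.update v i₀ s₀) m (Z s₀) = e ∧
      ∃ᶠ j in atTop, σ j (v i₀) ∈ ball s₀ ρ ∧
        mu d (Function.update v i₀ (σ j (v i₀))) m (Z (σ j (v i₀))) = σ j x := by
  have hprime := h.prime m hm
  have hm1 : 1 ≤ m := hprime.one_le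
  have hm2 : 2 ≤ m := hprime.two_le
  have hd : 2 ≤ d := hnf.two_le
  have hwd : Differentiable ℂ (fun s : ℂ => (Function.update v i₀ s : VI d → ℂ)) := be8_upd v i₀
  have he1 : e ≠ 1 := by
    intro h1
    rw [h1, norm_one] at he
    exact lt_irrefl _ he
  have hev : ∀ᶠ s in nhds s₀, Nf d (Function.update v i₀ s) := by
    have h1 := (nf_fin d v h.vgv.nf i₀).isClosed.isOpen_compl.mem_nhds
      (show s₀ ∈ {s : ℂ | ¬ Nf d (Function.update v i₀ s)}ᶜ from fun h2 => h2 hnf)
    filter_upwards [h1] with s hs1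
    exact not_not.1 hs1
  obtain ⟨R, hR, hball⟩ := Metric.eventually_nhds_iff_ball.1 hev
  have hs0 : s₀ ∈ ball s₀ R := mem_ball_self hR
  obtain ⟨hpf, hDc⟩ := fixF_pf d m hd hm1 (ball s₀ R)
    (fun s : ℂ => (Function.update v i₀ s : VI d → ℂ)) hwd.differentiableOn
  obtain ⟨z, hz, hzx⟩ := hx
  have hupd : ∀ j, (fun i => σ j (v i)) = Function.update v i₀ (σ j (v i₀)) :=
    fun j => aut_upd v i₀ (σ j)
  have hzj : ∀ j, PX d (Function.update v i₀ (σ j (v i₀))) m (σ j z) := by
    intro j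
    have h1 := ((aut_px d (σ j : ℂ ≃+* ℂ) v).2.2.1 m z).2 hz
    have h2 : PX d (fun i => σ j (v i)) m (σ j z) := h1
    rw [hupd] at h2
    exact h2
  have hmj : ∀ j, mu d (Function.update v i₀ (σ j (v i₀))) m (σ j z) = σ j x := by
    intro j
    have h1 := (aut_px d (σ j : ℂ ≃+* ℂ) v).2.1 m z
    have h2 : mu d (fun i => σ j (v i)) m (σ j z) = σ j (mu d v m z) := h1
    rw [hupd] at h2
    rw [h2]
    exact congrArg (σ j) hzx
  -- boundedness
  obtain ⟨C, hC⟩ := pf_bound hpf (closedBall s₀ (R / 2)) (isCompact_closedBall _ _)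
    (closedBall_subset_ball (by linarith))
  have hnear : ∀ᶠ j in atTop, σ j (v i₀) ∈ closedBall s₀ (R / 2) :=
    hs.eventually (closedBall_mem_nhds s₀ (by linarith))
  have hzC : ∀ᶠ j in atTop, σ j z ∈ closedBall (0 : ℂ) C := by
    filter_upwards [hnear] with j hj
    rw [mem_closedBall, dist_zero_right]
    refine hC _ hj _ ?_
    exact (fixF_root d m hm1 _ (hball _ (closedBall_subset_ball (by linarith) hj)) _).2
      (hzj j).1.2
  obtain ⟨z₀, -, φ, hφ, hlim⟩ := tendsto_subseq_of_frequently_bounded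
    (isBounded_closedBall (x := (0 : ℂ)) (r := C)) hzC.frequently
  have hs' : Tendsto (fun j => σ (φ j) (v i₀)) atTop (nhds s₀) := hs.comp hφ.tendsto_atTop
  have hx'' : Tendsto (fun j => σ (φ j) x) atTop (nhds e) := hx'.comp hφ.tendsto_atTop
  have hlim' : Tendsto (fun j => σ (φ j) z) atTop (nhds z₀) := hlim
  have hpair : Tendsto (fun j => (σ (φ j) (v i₀), σ (φ j) z)) atTop (nhds (s₀, z₀)) :=
    hs'.prodMk_nhds hlim'
  have hin : ∀ᶠ j in atTop, σ (φ j) (v i₀) ∈ ball s₀ R :=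
    hs'.eventually (ball_mem_nhds s₀ hR)
  have hopen : (ball s₀ R ×ˢ (Set.univ : Set ℂ)) ∈ nhds (s₀, z₀) :=
    (isOpen_ball.prod isOpen_univ).mem_nhds ⟨hs0, trivial⟩
  have hroot : (fixF d m (Function.update v i₀ s₀)).eval z₀ = 0 := by
    have h1 := ((pf_cont hpf).1.continuousAt hopen).tendsto.comp hpair
    have h2 : Tendsto (fun _ : ℕ => (0 : ℂ)) atTop
        (nhds ((fixF d m (Function.update v i₀ s₀)).eval z₀)) := by
      refine h1.congr' ?_
      filter_upwards [hin] with j hj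
      exact (fixF_root d m hm1 _ (hball _ hj) _).2 (hzj (φ j)).1.2
    exact tendsto_nhds_unique h2 tendsto_const_nhds
  have hfix : (fv d (Function.update v i₀ s₀))^[m] z₀ = z₀ :=
    (fixF_root d m hm1 _ hnf _).1 hroot
  obtain ⟨hD0, hD1⟩ := fixF_deriv d m hm1 _ hnf z₀ hfix
  have hmu : mu d (Function.update v i₀ s₀) m z₀ = e := by
    have h1 := ((pf_cont hpf).2.continuousAt hopen).tendsto.comp hpair
    have h2 := (be8_den isOpen_ball (d ^ m + 1)
      (fun s => (iter d (nP d (Function.update v i₀ s)) (nQ d (Function.update v i₀ s)) m).2)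
      (fun s => (fixF_monic d m hd hm1 _).2.2) hDc s₀ z₀ hs0).tendsto.comp hpair
    have h3 := h2.mul ((tendsto_const_nhds (x := (1 : ℂ))).sub hx'')
    have h4 : Tendsto ((fun p : ℂ × ℂ => (derivative (fixF d m (Function.update v i₀ p.1))).eval
        p.2) ∘ fun j => (σ (φ j) (v i₀), σ (φ j) z)) atTop
        (nhds ((iter d (nP d (Function.update v i₀ s₀)) (nQ d (Function.update v i₀ s₀)) m).2.eval
          z₀ * (1 - e))) := by
      refine h3.congr' ?_
      filter_upwards [hin] with j hj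
      have h5 := (fixF_deriv d m hm1 _ (hball _ hj) _ (hzj (φ j)).1.2).2
      rw [hmj] at h5
      exact h5.symm
    have h6 := tendsto_nhds_unique h1 h4
    have h7 : (derivative (fixF d m (Function.update v i₀ s₀))).eval z₀ =
        (iter d (nP d (Function.update v i₀ s₀)) (nQ d (Function.update v i₀ s₀)) m).2.eval z₀ *
          (1 - e) := h6
    rw [hD1] at h7
    have h8 := mul_left_cancel₀ hD0 h7
    linear_combination -h8
  have hder : (derivative (fixF d m (Function.update v i₀ s₀))).eval z₀ ≠ 0 := by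
    rw [hD1, hmu]
    exact mul_ne_zero hD0 (sub_ne_zero.2 (Ne.symm he1))
  have hPX : PX d (Function.update v i₀ s₀) m z₀ := by
    rcases per_prime d m hprime _ hnf z₀ hfix with hf | hf
    · exfalso
      have hmu1 : mu d (Function.update v i₀ s₀) 1 z₀ ≠ 1 := by
        intro h1
        have h2 := px_pow d m _ z₀ hf
        rw [h1, one_pow, hmu] at h2
        exact he1 h2
      have hP1 : PX d (Function.update v i₀ s₀) 1 z₀ := by
        refine ⟨⟨rm_per (nf_rm hnf) le_rfl (by simpa using hf), by simpa using hf⟩, ?_⟩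
        intro l hl0 hl1
        omega
      obtain ⟨ρ, hρ, hρR, ε, hε, y, hyd, hy0, hyp, -⟩ := branch d 1 le_rfl s₀ R hR
        (fun s : ℂ => (Function.update v i₀ s : VI d → ℂ)) hwd.differentiableOn hball z₀ hP1 hmu1
      obtain ⟨r, hr, ε', hε', hrU, ψ, hψd, hψ0, hψp⟩ :=
        pf_root isOpen_ball hpf s₀ z₀ hs0 hroot hder
      have hyc : ContinuousAt y s₀ :=
        (hyd.differentiableAt (isOpen_ball.mem_nhds (mem_ball_self hρ))).continuousAt
      have hyt : Tendsto (fun j => y (σ (φ j) (v i₀))) atTop (nhds z₀) := by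
        have := hyc.tendsto.comp hs'
        rw [hy0] at this
        exact this
      have e1 : ∀ᶠ j in atTop, y (σ (φ j) (v i₀)) ∈ ball z₀ ε' :=
        hyt.eventually (ball_mem_nhds z₀ hε')
      have e2 : ∀ᶠ j in atTop, σ (φ j) z ∈ ball z₀ ε' :=
        hlim'.eventually (ball_mem_nhds z₀ hε')
      have e3 : ∀ᶠ j in atTop, σ (φ j) (v i₀) ∈ ball s₀ ρ :=
        hs'.eventually (ball_mem_nhds s₀ hρ)
      have e4 : ∀ᶠ j in atTop, σ (φ j) (v i₀) ∈ ball s₀ r :=
        hs'.eventually (ball_mem_nhds s₀ hr)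
      obtain ⟨j, h1, h2, h3, h4, h5⟩ := (e1.and (e2.and (e3.and (e4.and hin)))).exists
      rw [mem_ball, dist_eq_norm] at h1 h2
      obtain ⟨-, -, -, huniq⟩ := hψp _ h4
      have hyfix : fv d (Function.update v i₀ (σ (φ j) (v i₀))) (y (σ (φ j) (v i₀))) =
          y (σ (φ j) (v i₀)) := by
        have := (hyp _ h3).1.1.2
        simpa using this
      have r1 := huniq _ h1 ((fixF_root d m hm1 _ (hball _ h5) _).2
        (Function.iterate_fixed hyfix m))
      have r2 := huniq _ h2 ((fixF_root d m hm1 _ (hball _ h5) _).2 (hzj (φ j)).1.2)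
      have r3 : σ (φ j) z = y (σ (φ j) (v i₀)) := by rw [r2, ← r1]
      have r4 := (hzj (φ j)).2 1 one_pos hm2
      apply r4
      rw [r3]
      simpa using hyfix
    · exact hf
  obtain ⟨ρ, hρ, hρR, ε, hε, Z, hZd, hZ0, hZp, hZmu⟩ := branch d m hm1 s₀ R hR
    (fun s : ℂ => (Function.update v i₀ s : VI d → ℂ)) hwd.differentiableOn hball z₀ hPX
    (by rw [hmu]; exact he1)
  refine ⟨ρ, hρ, Z, hZd, fun s hs1 => (hZp s hs1).1, hZmu, by rw [hZ0]; exact hmu, ?_⟩
  refine hφ.tendsto_atTop.frequently (Eventually.frequently ?_)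
  have e2 : ∀ᶠ j in atTop, σ (φ j) z ∈ ball z₀ ε :=
    hlim'.eventually (ball_mem_nhds z₀ hε)
  have e3 : ∀ᶠ j in atTop, σ (φ j) (v i₀) ∈ ball s₀ ρ :=
    hs'.eventually (ball_mem_nhds s₀ hρ)
  filter_upwards [e2, e3] with j h2 h3
  rw [mem_ball, dist_eq_norm] at h2
  refine ⟨h3, ?_⟩
  have r1 := (hZp _ h3).2.2 _ h2 (hzj (φ j)).1.2
  rw [← r1]
  exact hmj (φ j)

end Pool.Agent.LSF
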