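import Pool.Agent.LSF.BFDefs
import Pool.Agent.LSF.BBas1
import Pool.Agent.LenSpec.A1
import Pool.Agent.LenSpec.A2
import Pool.Agent.LenSpec.A3
import Pool.Agent.LenSpec.A4

/-!
BF0: the polynomial `fixF`.

Complete proof. Let `P = nP d v`, `Q = nQ d v`, `(A_n, B_n) = iter d P Q n`. For `n ≥ 1`: `B_n` is
monic of degree `d^n`, `A_n` has degree `< d^n`: induction: `A_{n+1} = ∑_i p_i A_n^i B_n^(d-i)`
(`i ≥ 1`, so it is divisible by `A_n`, degree `< d^(n+1)`: each term with `i ≥ 1` has degree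
`i deg A_n + (d-i) d^n < d^(n+1)`), `B_{n+1} = ∑_i q_i A_n^i B_n^(d-i)`, `q_0 = 1` gives the leading
term `B_n^d`, the others have smaller degree. (For `n = 0 → 1` directly: `A_1 = P`, `B_1 = Q`:
`homComp d P X 1 = P`.) So `fixF = X B_n - A_n` is monic of degree `d^n + 1`. The coefficients of
`A_n, B_n` are polynomials in the parameters, so differentiable along `v(s)` (induction on `n`;
`homComp` is a finite sum of products; differentiability of all coefficients of `A(s)`, `B(s)` is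
preserved under sums, products, multiplication by differentiable scalars; `Polynomial.coeff_mul`).
Roots: if `(ev P Q)^[n] z = z` (`n ≥ 1`) then the orbit avoids poles (`rm_per`), and
`A_n(z) = z B_n(z)`, `B_n(z) ≠ 0`, `derivAt A_n B_n z = mult P Q n z`: this is the library statement
A1 (`Pool.Agent.LenSpec.A1S`, its proof is in `Pool/Agent/LenSpec/A1.lean`, module
`Pool.Agent.LenSpec.A1`; you may import it). Conversely if
`fixF.eval z = 0` then `A_n(z) = z B_n(z)`; if the orbit of `z` up to time `n` avoids poles then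
`f^n z = z` by A1. If it meets a pole at time `k < n`: a homogeneous version: the pairs
`(A_k(z), B_k(z)) ≠ (0,0)` (coprime: `P, Q` coprime forms), first `k` with
`Q(f^k z) = 0`: then `B_{k+1}(z) = 0`, and from then on `A_{k+2}(z) = ∑_{i≥1} p_i A^i 0^{d-i}`: since
`deg P < d` the form `P` vanishes at `(A, 0)`, so `A_{k+2}(z) = 0`, `B_{k+2}(z) = A_{k+1}(z)^d ≠ 0`,
and then `A_j(z) = 0`, `B_j(z) ≠ 0` for all `j ≥ k+2`; if `n ≥ k+2`: `0 = z B_n(z)`, so `z = 0`, but
the orbit of `0` is constant and avoids poles; if `n = k+1`: `B_n(z) = 0` and `A_n(z) = z B_n(z) = 0`,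
contradiction to `(A_n(z), B_n(z)) ≠ (0,0)`. (Alternatively use `A4S` of the library,
`Pool/Agent/LenSpec/A4.lean`, with `NoInf`, since `B_n.coeff (d^n) = 1`; needs a `RatMap`.)
Derivative: `fixF = X B - A`, `fixF' = B + X B' - A'`, at a root `A = z B`:
`derivAt A B z = (A' - z B')/B`, so `fixF'(z) = B(z) (1 - mu)`.
-/

namespace Pool.Agent.LSF

open Polynomial Pool.Agent.LenSpec Metric

section deg

variable {K : Type} [Field K]

theorem bf0_homComp_one (d : ℕ) (P : K[X]) (hP : P.natDegree ≤ d) : homComp d P X 1 = P := by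
  unfold homComp
  conv_rhs => rw [P.as_sum_range' (d + 1) (Nat.lt_succ_of_le hP)]
  refine Finset.sum_congr rfl fun i _ => ?_
  rw [one_pow, mul_one, C_mul_X_pow_eq_monomial]

theorem bf0_small (d D : ℕ) (P A B : K[X]) (hP : P.coeff 0 = 0) (hD : 1 ≤ D) (hd : 1 ≤ d)
    (hA : A.natDegree < D) (hB : B.natDegree ≤ D) : (homComp d P A B).natDegree < D * d := by
  have hDd : 1 ≤ D * d := Nat.mul_le_mul hD hd
  suffices h : (homComp d P A B).natDegree ≤ D * d - 1 by omega
  unfold homComp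
  refine natDegree_sum_le_of_forall_le _ _ fun i hi => ?_
  have hid : i ≤ d := Nat.lt_succ_iff.1 (Finset.mem_range.1 hi)
  rcases Nat.eq_zero_or_pos i with rfl | hi0
  · rw [hP, C_0, zero_mul, zero_mul, natDegree_zero]
    exact Nat.zero_le _
  · have h1 : (C (P.coeff i) * A ^ i * B ^ (d - i)).natDegree ≤
        i * A.natDegree + (d - i) * B.natDegree := by
      refine (natDegree_mul_le).trans (add_le_add ?_ natDegree_pow_le)
      exact (natDegree_C_mul_le _ _).trans natDegree_pow_le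
    refine h1.trans ?_
    obtain ⟨e, rfl⟩ := Nat.exists_eq_add_of_le hid
    obtain ⟨D', rfl⟩ := Nat.exists_eq_add_of_le hD
    have hA' : A.natDegree ≤ D' := by omega
    rw [Nat.add_sub_cancel_left]
    have h2 : i * A.natDegree ≤ i * D' := Nat.mul_le_mul_left _ hA'
    have h3 : e * B.natDegree ≤ e * (1 + D') := Nat.mul_le_mul_left _ hB
    have h4 : (1 + D') * (i + e) = i * D' + e * (1 + D') + i := by ring
    rw [h4]
    omega

theorem bf0_homComp_add (d : ℕ) (P Q A B : K[X]) :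
    homComp d (P + Q) A B = homComp d P A B + homComp d Q A B := by
  unfold homComp
  rw [← Finset.sum_add_distrib]
  refine Finset.sum_congr rfl fun i _ => ?_
  rw [coeff_add, C_add]
  ring

theorem bf0_homComp_C (d : ℕ) (A B : K[X]) : homComp d 1 A B = B ^ d := by
  unfold homComp
  rw [Finset.sum_eq_single_of_mem 0 (Finset.mem_range.2 (Nat.succ_pos d))]
  · simp
  · intro i _ hi
    rw [coeff_one, if_neg hi, C_0, zero_mul, zero_mul]

theorem bf0_coeff_nP (d : ℕ) (v : VI d → K) (k : ℕ) :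
    (nP d v).coeff k = ∑ i : Fin (d - 1), v (Sum.inl i) * (if k = i.val + 1 then 1 else 0) := by
  unfold nP
  rw [finsetSum_coeff]
  refine Finset.sum_congr rfl fun i _ => ?_
  rw [coeff_C_mul, coeff_X_pow]

theorem bf0_coeff_nR (d : ℕ) (v : VI d → K) (k : ℕ) :
    (nR d v).coeff k = ∑ i : Fin (d - 1), v (Sum.inr i) * (if k = i.val + 1 then 1 else 0) := by
  unfold nR
  rw [finsetSum_coeff]
  refine Finset.sum_congr rfl fun i _ => ?_
  rw [coeff_C_mul, coeff_X_pow]

theorem bf0_iter (d : ℕ) (hd : 2 ≤ d) (v : VI d → K) (n : ℕ) :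
    (iter d (nP d v) (nQ d v) (n + 1)).1.natDegree < d ^ (n + 1) ∧
    (iter d (nP d v) (nQ d v) (n + 1)).2.Monic ∧
    (iter d (nP d v) (nQ d v) (n + 1)).2.natDegree = d ^ (n + 1) := by
  induction n with
  | zero =>
    have hP := nP_natDegree d hd v
    have hQ := nQ_monic d hd v
    have h1 : (iter d (nP d v) (nQ d v) (0 + 1)).1 = nP d v := bf0_homComp_one d _ hP.le
    have h2 : (iter d (nP d v) (nQ d v) (0 + 1)).2 = nQ d v := bf0_homComp_one d _ hQ.2.le
    rw [h1, h2, zero_add, pow_one]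
    exact ⟨hP, hQ.1, hQ.2⟩
  | succ n ih =>
    obtain ⟨hA, hBm, hB⟩ := ih
    have e1 : (iter d (nP d v) (nQ d v) (n + 1 + 1)).1 =
        homComp d (nP d v) (iter d (nP d v) (nQ d v) (n + 1)).1
          (iter d (nP d v) (nQ d v) (n + 1)).2 := rfl
    have e2 : (iter d (nP d v) (nQ d v) (n + 1 + 1)).2 =
        homComp d (nQ d v) (iter d (nP d v) (nQ d v) (n + 1)).1
          (iter d (nP d v) (nQ d v) (n + 1)).2 := rfl
    rw [e1, e2]
    generalize (iter d (nP d v) (nQ d v) (n + 1)).1 = A at *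
    generalize (iter d (nP d v) (nQ d v) (n + 1)).2 = B at *
    have hD : 1 ≤ d ^ (n + 1) := Nat.one_le_pow _ _ (by omega)
    have hd1 : 1 ≤ d := by omega
    obtain ⟨z1, z2, z3⟩ := n_eval_zero d hd v
    have c1 : (nP d v).coeff 0 = 0 := by rw [coeff_zero_eq_eval_zero, z1]
    have c2 : (nR d v + X ^ d).coeff 0 = 0 := by
      rw [coeff_zero_eq_eval_zero, eval_add, z2, eval_pow, eval_X, zero_pow (by omega), add_zero]
    have hs1 := bf0_small d (d ^ (n + 1)) (nP d v) A B c1 hD hd1 hA hB.le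
    have hs2 := bf0_small d (d ^ (n + 1)) (nR d v + X ^ d) A B c2 hD hd1 hA hB.le
    have e3 : homComp d (nQ d v) A B = B ^ d + homComp d (nR d v + X ^ d) A B := by
      rw [← bf0_homComp_C d A B, ← bf0_homComp_add]
      congr 1
      unfold nQ
      ring
    have hBd : (B ^ d).natDegree = d ^ (n + 1) * d := by
      rw [hBm.natDegree_pow, hB, mul_comm]
    rw [e3, pow_succ d (n + 1)]
    refine ⟨hs1, ?_, ?_⟩
    · refine (hBm.pow d).add_of_left ?_
      refine degree_lt_degree ?_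
      rw [hBd]
      exact hs2
    · rw [natDegree_add_eq_left_of_natDegree_lt (by rw [hBd]; exact hs2), hBd]

end deg

theorem bf0_fixF (d n : ℕ) (v : VI d → ℂ) :
    fixF d n v = X * (iter d (nP d v) (nQ d v) n).2 - (iter d (nP d v) (nQ d v) n).1 := by
  unfold fixF fixPoly
  ring

theorem fixF_monic (d n : ℕ) (hd : 2 ≤ d) (hn : 1 ≤ n) (v : VI d → ℂ) :
    (fixF d n v).Monic ∧ (fixF d n v).natDegree = d ^ n + 1 ∧
    (iter d (nP d v) (nQ d v) n).2.natDegree < d ^ n + 1 := by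
  obtain ⟨m, rfl⟩ : ∃ m, n = m + 1 := ⟨n - 1, by omega⟩
  obtain ⟨hA, hBm, hB⟩ := bf0_iter d hd v m
  have hX : (X * (iter d (nP d v) (nQ d v) (m + 1)).2).natDegree = d ^ (m + 1) + 1 := by
    rw [monic_X.natDegree_mul hBm, natDegree_X, hB, add_comm]
  rw [bf0_fixF]
  refine ⟨?_, ?_, by rw [hB]; exact Nat.lt_succ_self _⟩
  · refine (monic_X.mul hBm).sub_of_left ?_
    refine degree_lt_degree ?_
    rw [hX]
    omega
  · rw [natDegree_sub_eq_left_of_natDegree_lt (by rw [hX]; omega), hX]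

/-- all coefficients are holomorphic -/
def bf0_CD (U : Set ℂ) (F : ℂ → ℂ[X]) : Prop :=
  ∀ i, DifferentiableOn ℂ (fun s => (F s).coeff i) U

theorem bf0_CD_const (U : Set ℂ) (P : ℂ[X]) : bf0_CD U (fun _ => P) := fun _ =>
  differentiableOn_const _

theorem bf0_CD_add {U : Set ℂ} {F G : ℂ → ℂ[X]} (hF : bf0_CD U F) (hG : bf0_CD U G) :
    bf0_CD U (fun s => F s + G s) := by
  intro i
  have : (fun s => (F s + G s).coeff i) = fun s => (F s).coeff i + (G s).coeff i := by
    funext s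
    rw [coeff_add]
  rw [this]
  exact (hF i).add (hG i)

theorem bf0_CD_sub {U : Set ℂ} {F G : ℂ → ℂ[X]} (hF : bf0_CD U F) (hG : bf0_CD U G) :
    bf0_CD U (fun s => F s - G s) := by
  intro i
  have : (fun s => (F s - G s).coeff i) = fun s => (F s).coeff i - (G s).coeff i := by
    funext s
    rw [coeff_sub]
  rw [this]
  exact (hF i).sub (hG i)

theorem bf0_CD_mul {U : Set ℂ} {F G : ℂ → ℂ[X]} (hF : bf0_CD U F) (hG : bf0_CD U G) :
    bf0_CD U (fun s => F s * G s) := by
  intro i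
  have : (fun s => (F s * G s).coeff i) =
      fun s => ∑ x ∈ Finset.HasAntidiagonal.antidiagonal i, (F s).coeff x.1 * (G s).coeff x.2 := by
    funext s
    rw [coeff_mul]
  rw [this]
  exact DifferentiableOn.fun_sum fun x _ => (hF x.1).mul (hG x.2)

theorem bf0_CD_pow {U : Set ℂ} {F : ℂ → ℂ[X]} (hF : bf0_CD U F) (k : ℕ) :
    bf0_CD U (fun s => F s ^ k) := by
  induction k with
  | zero =>
    simp only [pow_zero]
    exact bf0_CD_const U 1
  | succ k ih =>
    simp only [pow_succ]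
    exact bf0_CD_mul ih hF

theorem bf0_CD_C {U : Set ℂ} {c : ℂ → ℂ} (hc : DifferentiableOn ℂ c U) :
    bf0_CD U (fun s => C (c s)) := by
  intro i
  have : (fun s => (C (c s)).coeff i) = fun s => if i = 0 then c s else 0 := by
    funext s
    rw [coeff_C]
  rw [this]
  by_cases hi : i = 0
  · simp only [if_pos hi]
    exact hc
  · simp only [if_neg hi]
    exact differentiableOn_const _

theorem bf0_CD_sum {U : Set ℂ} {ι : Type} (t : Finset ι) {F : ι → ℂ → ℂ[X]}
    (hF : ∀ j ∈ t, bf0_CD U (F j)) : bf0_CD U (fun s => ∑ j ∈ t, F j s) := by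
  intro i
  have : (fun s => (∑ j ∈ t, F j s).coeff i) = fun s => ∑ j ∈ t, (F j s).coeff i := by
    funext s
    rw [finsetSum_coeff]
  rw [this]
  exact DifferentiableOn.fun_sum fun j hj => hF j hj i

theorem bf0_CD_homComp {U : Set ℂ} (d : ℕ) {P A B : ℂ → ℂ[X]} (hP : bf0_CD U P)
    (hA : bf0_CD U A) (hB : bf0_CD U B) : bf0_CD U (fun s => homComp d (P s) (A s) (B s)) := by
  unfold homComp
  refine bf0_CD_sum _ fun i _ => ?_
  exact bf0_CD_mul (bf0_CD_mul (bf0_CD_C (hP i)) (bf0_CD_pow hA i)) (bf0_CD_pow hB _)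

theorem bf0_CD_nP {U : Set ℂ} (d : ℕ) {v : ℂ → VI d → ℂ} (hv : DifferentiableOn ℂ v U) :
    bf0_CD U (fun s => nP d (v s)) := by
  have hv' := differentiableOn_pi.1 hv
  unfold nP
  refine bf0_CD_sum _ fun i _ => ?_
  exact bf0_CD_mul (bf0_CD_C (hv' _)) (bf0_CD_const U _)

theorem bf0_CD_nQ {U : Set ℂ} (d : ℕ) {v : ℂ → VI d → ℂ} (hv : DifferentiableOn ℂ v U) :
    bf0_CD U (fun s => nQ d (v s)) := by
  have hv' := differentiableOn_pi.1 hv
  unfold nQ
  refine bf0_CD_add (bf0_CD_add (bf0_CD_const U _) ?_) (bf0_CD_const U _)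
  unfold nR
  refine bf0_CD_sum _ fun i _ => ?_
  exact bf0_CD_mul (bf0_CD_C (hv' _)) (bf0_CD_const U _)

theorem bf0_CD_iter {U : Set ℂ} (d : ℕ) {v : ℂ → VI d → ℂ} (hv : DifferentiableOn ℂ v U)
    (n : ℕ) : bf0_CD U (fun s => (iter d (nP d (v s)) (nQ d (v s)) n).1) ∧
    bf0_CD U (fun s => (iter d (nP d (v s)) (nQ d (v s)) n).2) := by
  induction n with
  | zero => exact ⟨bf0_CD_const U _, bf0_CD_const U _⟩
  | succ n ih =>
    exact ⟨bf0_CD_homComp d (bf0_CD_nP d hv) ih.1 ih.2,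
      bf0_CD_homComp d (bf0_CD_nQ d hv) ih.1 ih.2⟩

theorem fixF_pf (d n : ℕ) (hd : 2 ≤ d) (hn : 1 ≤ n) (U : Set ℂ) (v : ℂ → VI d → ℂ)
    (hv : DifferentiableOn ℂ v U) :
    PF U (d ^ n + 1) (fun s => fixF d n (v s)) ∧
    ∀ i, DifferentiableOn ℂ (fun s => (iter d (nP d (v s)) (nQ d (v s)) n).2.coeff i) U := by
  obtain ⟨h1, h2⟩ := bf0_CD_iter d hv n
  refine ⟨⟨fun s _ => (fixF_monic d n hd hn (v s)).1, fun s _ => (fixF_monic d n hd hn (v s)).2.1,
    ?_⟩, h2⟩
  have h3 := bf0_CD_sub (bf0_CD_mul (bf0_CD_const U X) h2) h1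
  intro i
  have h4 := h3 i
  refine h4.congr fun s _ => ?_
  simp only
  rw [bf0_fixF]

theorem fixF_root (d n : ℕ) (hn : 1 ≤ n) (v : VI d → ℂ) (hv : Nf d v) (z : ℂ) :
    (fixF d n v).eval z = 0 ↔ (fv d v)^[n] z = z := by
  have hrm := nf_rm hv
  have hd : 2 ≤ d := hv.two_le
  let f : RatMap ℂ d :=
    { num := nP d v
      den := nQ d v
      num_le := hrm.degP.le
      den_le := hrm.degQ.le
      deg_eq := Or.inr hrm.degQ
      coprime := hrm.cop }
  have hno : NoInf d f.num f.den := by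
    intro m hm
    obtain ⟨k, rfl⟩ : ∃ k, m = k + 1 := ⟨m - 1, by omega⟩
    obtain ⟨_, hBm, hB⟩ := bf0_iter d hd v k
    have h1 : (iter d (nP d v) (nQ d v) (k + 1)).2.coeff (d ^ (k + 1)) = 1 := by
      rw [← hB]
      exact hBm
    change (iter d (nP d v) (nQ d v) (k + 1)).2.coeff (d ^ (k + 1)) ≠ 0
    rw [h1]
    exact one_ne_zero
  have h4 := a4_holds a1_holds a2_holds a3_holds ℂ d n f z (by omega) hn hno
  have h5 : (fixF d n v).eval z = 0 ↔ (fixPoly d f.num f.den n).eval z = 0 := by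
    unfold fixF
    rw [eval_neg, neg_eq_zero]
  rw [h5, h4]
  constructor
  · intro h
    exact h.2
  · intro h
    exact ⟨rm_per hrm hn h, h⟩

theorem fixF_deriv (d n : ℕ) (hn : 1 ≤ n) (v : VI d → ℂ) (hv : Nf d v) (z : ℂ)
    (hz : (fv d v)^[n] z = z) :
    (iter d (nP d v) (nQ d v) n).2.eval z ≠ 0 ∧
    (derivative (fixF d n v)).eval z =
      (iter d (nP d v) (nQ d v) n).2.eval z * (1 - mu d v n z) := by
  have hrm := nf_rm hv
  obtain ⟨h1, h2, h3⟩ := a1_holds ℂ d n (nP d v) (nQ d v) z hrm.degP.le hrm.degQ.le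
    (fun k _ => rm_per hrm hn hz k)
  refine ⟨h1, ?_⟩
  have hz' : (ev (nP d v) (nQ d v))^[n] z = z := hz
  rw [hz'] at h2
  have h4 : mu d v n z = mult (nP d v) (nQ d v) n z := rfl
  rw [h4, ← h3, derivAt, bf0_fixF, derivative_sub, derivative_mul, derivative_X, eval_sub,
    eval_add, eval_mul, eval_mul, eval_one, eval_X, h2]
  field_simp
  ring

/-- multiple roots are the periodic points with multiplier `1` -/
theorem fixF_simple (d n : ℕ) (hn : 1 ≤ n) (v : VI d → ℂ) (hv : Nf d v) (z : ℂ)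
    (hz : (fv d v)^[n] z = z) :
    ((derivative (fixF d n v)).eval z = 0 ↔ mu d v n z = 1) := by
  obtain ⟨h1, h2⟩ := fixF_deriv d n hn v hv z hz
  rw [h2, mul_eq_zero, or_iff_right h1, sub_eq_zero]
  exact eq_comm

theorem fixF_nodup (d n : ℕ) (hn : 1 ≤ n) (v : VI d → ℂ) (hv : Nf d v)
    (h : ∀ z, (fv d v)^[n] z = z → mu d v n z ≠ 1) : (fixF d n v).roots.Nodup := by
  classical
  have hne : fixF d n v ≠ 0 := (fixF_monic d n hv.two_le hn v).1.ne_zero
  rw [Multiset.nodup_iff_count_le_one]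
  intro z
  rw [count_roots]
  by_contra hc
  have hc' : 1 < (fixF d n v).rootMultiplicity z := not_le.1 hc
  obtain ⟨h1, h2⟩ := (one_lt_rootMultiplicity_iff_isRoot hne).1 hc'
  have h3 := (fixF_root d n hn v hv z).1 h1
  exact h z h3 ((fixF_simple d n hn v hv z h3).1 h2)

theorem fixF_nodup' (d n : ℕ) (hn : 1 ≤ n) (v : VI d → ℂ) (hv : Nf d v)
    (h : (fixF d n v).roots.Nodup) (z : ℂ) (hz : (fv d v)^[n] z = z) : mu d v n z ≠ 1 := by
  classical
  intro h1
  have hne : fixF d n v ≠ 0 := (fixF_monic d n hv.two_le hn v).1.ne_zero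
  have h2 : 1 < (fixF d n v).rootMultiplicity z :=
    (one_lt_rootMultiplicity_iff_isRoot hne).2 ⟨(fixF_root d n hn v hv z).2 hz,
      (fixF_simple d n hn v hv z hz).2 h1⟩
  rw [← count_roots] at h2
  exact absurd (Multiset.nodup_iff_count_le_one.1 h z) (not_le.2 h2)

end Pool.Agent.LSF
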