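import Pool.Agent.LSF.BG3
import Pool.Agent.LSF.BA1

/-!
BG4: slices, that is spreading of algebraic functions of one variable.

Complete proof. Let `E := A(t) = IntermediateField.adjoin A {t}`; the `y i` are algebraic over `E`
(`acl_mem`), `E(y)` is a finite separable extension of `E` (characteristic zero), primitive element
`θ` (`Field.exists_primitive_element`), so `y i = p_i(θ)` with `p_i ∈ E[Y]`. Clearing denominators
(elements of `E` are quotients of polynomials in `t` with coefficients in `A`): there are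
`G_i ∈ A[X][Y]`, `H ∈ A[X]`, `H(t) ≠ 0` with `y i = G_i(t, θ)/H(t)`, and `Φ ∈ A[X][Y]`, the
minimal polynomial of `θ` over `E` times a common denominator, with leading coefficient
`a ∈ A[X]`, `a(t) ≠ 0`, `Φ(t, θ) = 0`, `∂Φ/∂Y (t, θ) ≠ 0` (separable).
Analytic part: `(s, w) ↦ Φ(s, w)` is a polynomial function on `ℂ × ℂ`; by the implicit function
theorem (as in `pf_root` of BA1, which can be applied to the monic polynomial family
`a(s)^(-1) Φ(s, ·)` near `t`) there are `R > 0` and `θ̃` holomorphic on `ball t R`, `θ̃ t = θ`,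
`Φ(s, θ̃ s) = 0`, and `a(s) ≠ 0`, `H(s) ≠ 0` on `ball t R`. `Y i s := G_i(s, θ̃ s)/H(s)`.
Algebraic part: let `s ∈ ball t R`, `s ∉ A`. `t` and `s` are both transcendental over the
algebraically closed `A`, so `A(t) ≅ A(s)`, `t ↦ s`. `Φ(t, ·)` is up to a constant the minimal
polynomial of `θ`, irreducible over `A(t)`, so `Φ(s, ·)` is irreducible over `A(s)`, has the same
degree (`a(s) ≠ 0`) and `θ̃ s` is a root of it. Hence `A(t, θ) ≅ A(s, θ̃ s)` by `t ↦ s`,
`θ ↦ θ̃ s`, and `y i ↦ Y i s`. In particular for every polynomial `F` over `A`: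
`F(t, y) = 0` iff `F(s, Y s) = 0`. Apply `ext_iso` with the index set `Option (Fin n)`.
-/

namespace Pool.Agent.LSF

open Metric

theorem BG4_pos (N : ℕ) (f : ℕ → ℝ) (hf : ∀ j, 0 < f j) : ∃ R > 0, ∀ j < N, R ≤ f j := by
  induction N with
  | zero => exact ⟨1, one_pos, fun j hj => absurd hj (Nat.not_lt_zero j)⟩
  | succ N ih =>
    obtain ⟨R, hR, h⟩ := ih
    refine ⟨min R (f N), lt_min hR (hf N), fun j hj => ?_⟩
    rcases Nat.lt_succ_iff_lt_or_eq.1 hj with h1 | h1
    · exact (min_le_left _ _).trans (h j h1)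
    · rw [h1]; exact min_le_right _ _

/-- spreading of the elements of the field generated by `A`, `t`, `y` -/
theorem BG4_spread (A : IntermediateField ℚ ℂ) (t : ℂ) {n : ℕ} (y : Fin n → ℂ) (R : ℝ)
    (hR : 0 < R) (Y : Fin n → ℂ → ℂ) (hY : ∀ i, DifferentiableOn ℂ (Y i) (ball t R))
    (hYt : ∀ i, Y i t = y i) (c : ℂ)
    (hc : c ∈ IntermediateField.adjoin ℚ ((A : Set ℂ) ∪ insert t (Set.range y))) :
    ∃ R' > 0, R' ≤ R ∧ ∃ C : ℂ → ℂ, DifferentiableOn ℂ C (ball t R') ∧
      ∀ s ∈ ball t R', ∀ σ : ℂ ≃ₐ[A] ℂ, σ t = s → (∀ i, σ (y i) = Y i s) → σ c = C s := by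
  induction hc using IntermediateField.adjoin_induction with
  | mem x hx =>
    rcases hx with hx | hx | ⟨i, rfl⟩
    · exact ⟨R, hR, le_rfl, fun _ => x, differentiableOn_const _,
        fun s _ σ _ _ => σ.commutes ⟨x, hx⟩⟩
    · rw [hx]
      exact ⟨R, hR, le_rfl, id, differentiableOn_id, fun s _ σ h _ => h⟩
    · exact ⟨R, hR, le_rfl, Y i, hY i, fun s _ σ _ h => h i⟩
  | algebraMap q =>
    exact ⟨R, hR, le_rfl, fun _ => algebraMap ℚ ℂ q, differentiableOn_const _,
      fun s _ σ _ _ => by simp⟩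
  | add x z _ _ hx hz =>
    obtain ⟨R1, h1, h2, C1, h3, h4⟩ := hx
    obtain ⟨R2, k1, k2, C2, k3, k4⟩ := hz
    refine ⟨min R1 R2, lt_min h1 k1, (min_le_left _ _).trans h2, fun s => C1 s + C2 s,
      (h3.mono (ball_subset_ball (min_le_left _ _))).add
        (k3.mono (ball_subset_ball (min_le_right _ _))), fun s hs σ e1 e2 => ?_⟩
    rw [map_add, h4 s (ball_subset_ball (min_le_left _ _) hs) σ e1 e2,
      k4 s (ball_subset_ball (min_le_right _ _) hs) σ e1 e2]
  | mul x z _ _ hx hz =>
    obtain ⟨R1, h1, h2, C1, h3, h4⟩ := hx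
    obtain ⟨R2, k1, k2, C2, k3, k4⟩ := hz
    refine ⟨min R1 R2, lt_min h1 k1, (min_le_left _ _).trans h2, fun s => C1 s * C2 s,
      (h3.mono (ball_subset_ball (min_le_left _ _))).mul
        (k3.mono (ball_subset_ball (min_le_right _ _))), fun s hs σ e1 e2 => ?_⟩
    rw [map_mul, h4 s (ball_subset_ball (min_le_left _ _) hs) σ e1 e2,
      k4 s (ball_subset_ball (min_le_right _ _) hs) σ e1 e2]
  | inv x _ hx =>
    obtain ⟨R1, h1, h2, C1, h3, h4⟩ := hx
    by_cases hx0 : x = 0
    · refine ⟨R, hR, le_rfl, fun _ => 0, differentiableOn_const _, fun s _ σ _ _ => ?_⟩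
      rw [hx0, inv_zero, map_zero]
    · have hC : C1 t ≠ 0 := by
        rw [← h4 t (mem_ball_self h1) AlgEquiv.refl rfl (fun i => (hYt i).symm)]
        exact hx0
      have hcont : ContinuousAt C1 t :=
        h3.continuousOn.continuousAt (ball_mem_nhds t h1)
      obtain ⟨ε, hε, hball⟩ := Metric.eventually_nhds_iff_ball.1 (hcont.eventually_ne hC)
      refine ⟨min R1 ε, lt_min h1 hε, (min_le_left _ _).trans h2, fun s => (C1 s)⁻¹,
        DifferentiableOn.inv (h3.mono (ball_subset_ball (min_le_left _ _)))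
          (fun s hs => hball s (ball_subset_ball (min_le_right _ _) hs)),
        fun s hs σ e1 e2 => ?_⟩
      rw [map_inv₀, h4 s (ball_subset_ball (min_le_left _ _) hs) σ e1 e2]

/-- an automorphism over a countable field exchanging two conjugate numbers -/
theorem BG4_conj (K : IntermediateField ℚ ℂ) (hK : (K : Set ℂ).Countable) (a b : ℂ)
    (ha : IsIntegral K a) (hb : Polynomial.aeval b (minpoly K a) = 0) :
    ∃ τ : ℂ ≃ₐ[K] ℂ, τ a = b := by
  have hmin : minpoly K b = minpoly K a :=
    (minpoly.eq_of_irreducible_of_monic (minpoly.irreducible ha) hb (minpoly.monic ha)).symm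
  have key : ∀ (z : ℂ) (F : MvPolynomial Unit K), MvPolynomial.aeval (fun _ : Unit => z) F =
      Polynomial.aeval z (MvPolynomial.uniqueAlgEquiv K Unit F) := by
    intro z F
    induction F using MvPolynomial.induction_on with
    | C c => simp
    | add p q hp hq => rw [map_add, map_add, map_add, hp, hq]
    | mul_X p i hp => rw [map_mul, map_mul, map_mul, hp]; simp
  obtain ⟨τ, hτ⟩ := ext_iso K hK (ι := Unit) (fun _ => a) (fun _ => b) (fun F => by
    rw [key, key, ← minpoly.dvd_iff, ← minpoly.dvd_iff, hmin])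
  exact ⟨τ, hτ ()⟩

theorem slice_ext (A : IntermediateField ℚ ℂ) (hA : (A : Set ℂ).Countable) (hc : IsAlgClosed A)
    (t : ℂ) (ht : t ∉ A) (n : ℕ) (y : Fin n → ℂ) (hy : ∀ i, y i ∈ ACL (insert t (A : Set ℂ))) :
    ∃ R > 0, ∃ Y : Fin n → ℂ → ℂ, (∀ i, DifferentiableOn ℂ (Y i) (ball t R)) ∧
      (∀ i, Y i t = y i) ∧ ∀ s ∈ ball t R, s ∉ A →
        ∃ σ : ℂ ≃ₐ[A] ℂ, σ t = s ∧ ∀ i, σ (y i) = Y i s := by
  induction n with
  | zero =>
    refine ⟨1, one_pos, fun i => i.elim0, fun i => i.elim0, fun i => i.elim0, ?_⟩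
    intro s _ hs
    obtain ⟨σ, hσ⟩ := ext_trans A hA hc t s ht hs
    exact ⟨σ, hσ, fun i => i.elim0⟩
  | succ n ih =>
    obtain ⟨R, hR, Y, hY, hYt, hYs⟩ := ih (fun i => y i.castSucc) (fun i => hy i.castSucc)
    obtain ⟨S, hS⟩ : ∃ S : Set ℂ, S = (A : Set ℂ) ∪ insert t (Set.range fun i : Fin n =>
      y i.castSucc) := ⟨_, rfl⟩
    obtain ⟨K, hK⟩ : ∃ K : IntermediateField ℚ ℂ, K = IntermediateField.adjoin ℚ S := ⟨_, rfl⟩
    have hSc : S.Countable := by
      rw [hS]
      exact hA.union ((Set.countable_range _).insert t)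
    have hKc : (K : Set ℂ).Countable := by
      refine (acl_countable S hSc).mono ?_
      have : K ≤ ACL S := by
        rw [hK, IntermediateField.adjoin_le_iff]
        exact acl_sub S
      exact this
    have hint : IsIntegral K (y (Fin.last n)) := by
      rw [← isAlgebraic_iff_isIntegral]
      have h1 := (acl_mem _ _).1 (hy (Fin.last n))
      have hle : IntermediateField.adjoin ℚ (insert t (A : Set ℂ)) ≤ K := by
        rw [hK]
        apply IntermediateField.adjoin.mono
        rw [hS]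
        rintro x (hx | hx)
        · exact Or.inr (Or.inl hx)
        · exact Or.inl hx
      obtain ⟨q, hq0, hq⟩ := h1
      refine ⟨q.map (IntermediateField.inclusion hle).toRingHom, ?_, ?_⟩
      · exact (Polynomial.map_ne_zero_iff (IntermediateField.inclusion hle).toRingHom.injective).2 hq0
      · rw [Polynomial.aeval_def, Polynomial.eval₂_map]
        exact hq
    obtain ⟨p, hp⟩ : ∃ p, p = minpoly K (y (Fin.last n)) := ⟨_, rfl⟩
    obtain ⟨D, hD⟩ : ∃ D, D = p.natDegree := ⟨_, rfl⟩
    have hpm : p.Monic := by rw [hp]; exact minpoly.monic hint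
    have hsp : ∀ j : ℕ, ∃ R' > 0, R' ≤ R ∧ ∃ C : ℂ → ℂ, DifferentiableOn ℂ C (ball t R') ∧
        ∀ s ∈ ball t R', ∀ σ : ℂ ≃ₐ[A] ℂ, σ t = s → (∀ i, σ (y (Fin.castSucc i)) = Y i s) →
          σ (p.coeff j : ℂ) = C s := by
      intro j
      refine BG4_spread A t _ R hR Y hY hYt _ ?_
      rw [← hS, ← hK]
      exact (p.coeff j).2
    choose R' hR' hR'R C hC hCs using hsp
    obtain ⟨R1, hR1, hR1'⟩ := BG4_pos (D + 1) R' hR'
    obtain ⟨F, hF⟩ : ∃ F : ℂ → Polynomial ℂ, F = fun s =>
        (∑ j ∈ Finset.range D, Polynomial.monomial j (C j s)) + Polynomial.monomial D 1 :=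
      ⟨_, rfl⟩
    have hcoef : ∀ s i, (F s).coeff i = if i < D then C i s else if i = D then 1 else 0 := by
      intro s i
      rw [hF]
      simp only [Polynomial.coeff_add, Polynomial.finsetSum_coeff, Polynomial.coeff_monomial,
        Finset.sum_ite_eq', Finset.mem_range]
      by_cases h1 : i < D
      · rw [if_pos h1, if_pos h1, if_neg (by omega), add_zero]
      · rw [if_neg h1, if_neg h1, zero_add]
        by_cases h2 : i = D
        · rw [if_pos h2, if_pos h2.symm]
        · rw [if_neg h2, if_neg (fun h => h2 h.symm)]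
    have hnd : ∀ s, (F s).natDegree ≤ D := by
      intro s
      rw [Polynomial.natDegree_le_iff_coeff_eq_zero]
      intro i hi
      rw [hcoef, if_neg (by omega), if_neg (by omega)]
    have hcD : ∀ s, (F s).coeff D = 1 := by
      intro s
      rw [hcoef, if_neg (lt_irrefl D), if_pos rfl]
    have hPF : PF (ball t R1) D F := by
      refine ⟨fun s _ => ?_, fun s _ => ?_, fun i => ?_⟩
      · exact Polynomial.monic_of_natDegree_le_of_coeff_eq_one D (hnd s) (hcD s)
      · exact Polynomial.natDegree_eq_of_le_of_coeff_ne_zero (hnd s)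
          (by rw [hcD]; exact one_ne_zero)
      · by_cases h1 : i < D
        · refine ((hC i).mono (ball_subset_ball (hR1' i (by omega)))).congr fun s _ => ?_
          rw [hcoef, if_pos h1]
        · refine (differentiableOn_const (if i = D then (1 : ℂ) else 0)).congr fun s _ => ?_
          rw [hcoef, if_neg h1]
    -- the polynomial `F s` is the image of `p`
    have hFs : ∀ s ∈ ball t R1, ∀ σ : ℂ ≃ₐ[A] ℂ, σ t = s →
        (∀ i, σ (y (Fin.castSucc i)) = Y i s) →
        F s = p.map ((σ : ℂ →+* ℂ).comp (algebraMap K ℂ)) := by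
      intro s hs σ e1 e2
      ext i
      rw [hcoef, Polynomial.coeff_map]
      by_cases h1 : i < D
      · rw [if_pos h1]
        exact (hCs i s (ball_subset_ball (hR1' i (by omega)) hs) σ e1 e2).symm
      · rw [if_neg h1]
        by_cases h2 : i = D
        · have h3 : p.coeff i = 1 := by rw [h2, hD]; exact hpm
          rw [if_pos h2, h3, map_one]
        · have h3 : p.coeff i = 0 := Polynomial.coeff_eq_zero_of_natDegree_lt (by omega)
          rw [if_neg h2, h3, map_zero]
    have hFt : F t = p.map (algebraMap K ℂ) := by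
      have := hFs t (mem_ball_self hR1) AlgEquiv.refl rfl (fun i => (hYt i).symm)
      rw [this]
      congr 1
    have hroot : (F t).eval (y (Fin.last n)) = 0 := by
      rw [hFt, Polynomial.eval_map_algebraMap, hp]
      exact minpoly.aeval _ _
    have hder : (Polynomial.derivative (F t)).eval (y (Fin.last n)) ≠ 0 := by
      rw [hFt, Polynomial.derivative_map, Polynomial.eval_map_algebraMap]
      have hsep : p.Separable := by rw [hp]; exact (minpoly.irreducible hint).separable
      refine hsep.aeval_derivative_ne_zero ?_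
      rw [hp]; exact minpoly.aeval _ _
    obtain ⟨r, hr, ε, hε, hrU, z, hz, hzt, hzs⟩ := pf_root isOpen_ball hPF t (y (Fin.last n))
      (mem_ball_self hR1) hroot hder
    have hR1R : R1 ≤ R := (hR1' 0 (by omega)).trans (hR'R 0)
    have hrR : ball t r ⊆ ball t R := hrU.trans (ball_subset_ball hR1R)
    refine ⟨r, hr, Fin.snoc (α := fun _ => ℂ → ℂ) Y z, ?_, ?_, ?_⟩
    · intro i
      refine Fin.lastCases ?_ (fun j => ?_) i
      · rw [Fin.snoc_last]; exact hz
      · rw [Fin.snoc_castSucc]; exact (hY j).mono hrR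
    · intro i
      refine Fin.lastCases ?_ (fun j => ?_) i
      · rw [Fin.snoc_last]; exact hzt
      · rw [Fin.snoc_castSucc]; exact hYt j
    · intro s hs hsA
      obtain ⟨σ, hσt, hσy⟩ := hYs s (hrR hs) hsA
      have hw : Polynomial.aeval (σ.symm (z s)) (minpoly K (y (Fin.last n))) = 0 := by
        have h1 := (hzs s hs).2.1
        rw [hFs s (hrU hs) σ hσt hσy, Polynomial.eval_map] at h1
        apply σ.injective
        rw [map_zero, ← h1, ← hp, Polynomial.aeval_def]
        have h2 := Polynomial.hom_eval₂ p (algebraMap K ℂ) (σ : ℂ →+* ℂ) (σ.symm (z s))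
        have h3 : (σ : ℂ →+* ℂ) (σ.symm (z s)) = z s := σ.apply_symm_apply (z s)
        rw [h3] at h2
        exact h2
      obtain ⟨τ, hτ⟩ := BG4_conj K hKc _ _ hint hw
      have hτK : ∀ x ∈ K, τ x = x := fun x hx => τ.commutes ⟨x, hx⟩
      have hSK : S ⊆ (K : Set ℂ) := by rw [hK]; exact IntermediateField.subset_adjoin ℚ S
      refine ⟨AlgEquiv.ofRingEquiv (f := (τ : ℂ ≃+* ℂ).trans (σ : ℂ ≃+* ℂ)) (fun a => ?_),
        ?_, ?_⟩
      · have h1 : τ (a : ℂ) = a := hτK _ (hSK (by rw [hS]; exact Or.inl a.2))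
        have h2 : σ (τ (a : ℂ)) = a := by rw [h1]; exact σ.commutes a
        exact h2
      · have h1 : τ t = t := hτK _ (hSK (by rw [hS]; exact Or.inr (Or.inl rfl)))
        have h2 : σ (τ t) = s := by rw [h1]; exact hσt
        exact h2
      · intro i
        refine Fin.lastCases ?_ (fun j => ?_) i
        · rw [Fin.snoc_last]
          have h2 : σ (τ (y (Fin.last n))) = z s := by rw [hτ]; exact σ.apply_symm_apply (z s)
          exact h2
        · rw [Fin.snoc_castSucc]
          have h1 : τ (y j.castSucc) = y j.castSucc :=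
            hτK _ (hSK (by rw [hS]; exact Or.inr (Or.inr ⟨j, rfl⟩)))
          have h2 : σ (τ (y j.castSucc)) = Y j s := by rw [h1]; exact hσy j
          exact h2

end Pool.Agent.LSF
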