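import Pool.Agent.LSF.BT12

/-!
BT14: the derivative of the multiplier of a periodic point along a curve of maps.
-/

namespace Pool.Agent.LSF

open Polynomial Pool.Agent.LenSpec

theorem bt14_pd {ι : Type} [Fintype ι] (c : ℂ → ι → ℂ) (c' : ι → ℂ) (s₀ : ℂ)
    (hc : ∀ i, HasDerivAt (fun s => c s i) (c' i) s₀) (g : ι → ℂ[X]) (y : ℂ → ℂ) (y' : ℂ)
    (hy : HasDerivAt y y' s₀) :
    HasDerivAt (fun s => (∑ i, C (c s i) * g i).eval (y s))
      ((∑ i, C (c' i) * g i).eval (y s₀) +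
        (derivative (∑ i, C (c s₀ i) * g i)).eval (y s₀) * y') s₀ := by
  have h : ∀ i ∈ (Finset.univ : Finset ι), HasDerivAt (fun s => c s i * (g i).eval (y s))
      (c' i * (g i).eval (y s₀) + c s₀ i * ((derivative (g i)).eval (y s₀) * y')) s₀ :=
    fun i _ => (hc i).fun_mul (((g i).hasDerivAt (y s₀)).comp s₀ hy)
  have h1 := HasDerivAt.fun_sum h
  have h2 : (fun s => (∑ i, C (c s i) * g i).eval (y s)) =
      fun s => ∑ i, c s i * (g i).eval (y s) := by
    funext s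
    rw [eval_finsetSum]
    refine Finset.sum_congr rfl (fun i _ => ?_)
    rw [eval_mul, eval_C]
  rw [h2]
  refine h1.congr_deriv ?_
  rw [derivative_sum, eval_finsetSum, eval_finsetSum, Finset.sum_mul, ← Finset.sum_add_distrib]
  refine Finset.sum_congr rfl (fun i _ => ?_)
  rw [eval_mul, eval_C, derivative_C_mul, eval_mul, eval_C]
  ring

theorem bt14_coef {d : ℕ} {v : ℂ → VI d → ℂ} {δ : VI d → ℂ} {s₀ : ℂ} (hv : HasDerivAt v δ s₀)
    (i : VI d) : HasDerivAt (fun s => v s i) (δ i) s₀ := hasDerivAt_pi.1 hv i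

theorem bt14_nP {d : ℕ} {v : ℂ → VI d → ℂ} {δ : VI d → ℂ} {s₀ : ℂ} (hv : HasDerivAt v δ s₀)
    {y : ℂ → ℂ} {y' : ℂ} (hy : HasDerivAt y y' s₀) :
    HasDerivAt (fun s => (nP d (v s)).eval (y s))
      ((nP d δ).eval (y s₀) + (derivative (nP d (v s₀))).eval (y s₀) * y') s₀ :=
  bt14_pd (fun s (i : Fin (d - 1)) => v s (Sum.inl i)) (fun i => δ (Sum.inl i)) s₀
    (fun _ => bt14_coef hv _) (fun i => X ^ (i.val + 1)) y y' hy

theorem bt14_nR {d : ℕ} {v : ℂ → VI d → ℂ} {δ : VI d → ℂ} {s₀ : ℂ} (hv : HasDerivAt v δ s₀)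
    {y : ℂ → ℂ} {y' : ℂ} (hy : HasDerivAt y y' s₀) :
    HasDerivAt (fun s => (nR d (v s)).eval (y s))
      ((nR d δ).eval (y s₀) + (derivative (nR d (v s₀))).eval (y s₀) * y') s₀ :=
  bt14_pd (fun s (i : Fin (d - 1)) => v s (Sum.inr i)) (fun i => δ (Sum.inr i)) s₀
    (fun _ => bt14_coef hv _) (fun i => X ^ (i.val + 1)) y y' hy

theorem bt14_dsum {n : ℕ} (c : Fin n → ℂ) :
    derivative (∑ i : Fin n, C (c i) * X ^ (i.val + 1)) =
      ∑ i : Fin n, C (c i) * derivative (X ^ (i.val + 1)) := by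
  rw [derivative_sum]
  refine Finset.sum_congr rfl (fun i _ => ?_)
  rw [derivative_C_mul]

theorem bt14_dnP {d : ℕ} {v : ℂ → VI d → ℂ} {δ : VI d → ℂ} {s₀ : ℂ} (hv : HasDerivAt v δ s₀)
    {y : ℂ → ℂ} {y' : ℂ} (hy : HasDerivAt y y' s₀) :
    HasDerivAt (fun s => (derivative (nP d (v s))).eval (y s))
      ((derivative (nP d δ)).eval (y s₀) +
        (derivative (derivative (nP d (v s₀)))).eval (y s₀) * y') s₀ := by
  have h := bt14_pd (fun s (i : Fin (d - 1)) => v s (Sum.inl i)) (fun i => δ (Sum.inl i)) s₀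
    (fun _ => bt14_coef hv _) (fun i => derivative (X ^ (i.val + 1))) y y' hy
  have e : ∀ u : VI d → ℂ, derivative (nP d u) =
      ∑ i : Fin (d - 1), C (u (Sum.inl i)) * derivative (X ^ (i.val + 1)) := fun u =>
    bt14_dsum (fun i => u (Sum.inl i))
  simp only [e]
  exact h

theorem bt14_dnR {d : ℕ} {v : ℂ → VI d → ℂ} {δ : VI d → ℂ} {s₀ : ℂ} (hv : HasDerivAt v δ s₀)
    {y : ℂ → ℂ} {y' : ℂ} (hy : HasDerivAt y y' s₀) :
    HasDerivAt (fun s => (derivative (nR d (v s))).eval (y s))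
      ((derivative (nR d δ)).eval (y s₀) +
        (derivative (derivative (nR d (v s₀)))).eval (y s₀) * y') s₀ := by
  have h := bt14_pd (fun s (i : Fin (d - 1)) => v s (Sum.inr i)) (fun i => δ (Sum.inr i)) s₀
    (fun _ => bt14_coef hv _) (fun i => derivative (X ^ (i.val + 1))) y y' hy
  have e : ∀ u : VI d → ℂ, derivative (nR d u) =
      ∑ i : Fin (d - 1), C (u (Sum.inr i)) * derivative (X ^ (i.val + 1)) := fun u =>
    bt14_dsum (fun i => u (Sum.inr i))
  simp only [e]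
  exact h

theorem bt14_nQ {d : ℕ} {v : ℂ → VI d → ℂ} {δ : VI d → ℂ} {s₀ : ℂ} (hv : HasDerivAt v δ s₀)
    {y : ℂ → ℂ} {y' : ℂ} (hy : HasDerivAt y y' s₀) :
    HasDerivAt (fun s => (nQ d (v s)).eval (y s))
      ((nR d δ).eval (y s₀) + (derivative (nQ d (v s₀))).eval (y s₀) * y') s₀ := by
  have h1 := bt14_nR hv hy
  have h2 := ((1 + X ^ d : ℂ[X]).hasDerivAt (y s₀)).comp s₀ hy
  have h3 := h1.fun_add h2
  have e : (fun s => (nQ d (v s)).eval (y s)) = fun s => (nR d (v s)).eval (y s) +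
      ((fun x => (1 + X ^ d : ℂ[X]).eval x) ∘ y) s := by
    funext s
    simp only [nQ, eval_add, Function.comp_apply]
    ring
  rw [e]
  refine h3.congr_deriv ?_
  rw [nQ, derivative_add, derivative_add, derivative_add, eval_add, eval_add, eval_add]
  ring

theorem bt14_dnQ {d : ℕ} {v : ℂ → VI d → ℂ} {δ : VI d → ℂ} {s₀ : ℂ} (hv : HasDerivAt v δ s₀)
    {y : ℂ → ℂ} {y' : ℂ} (hy : HasDerivAt y y' s₀) :
    HasDerivAt (fun s => (derivative (nQ d (v s))).eval (y s))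
      ((derivative (nR d δ)).eval (y s₀) +
        (derivative (derivative (nQ d (v s₀)))).eval (y s₀) * y') s₀ := by
  have h1 := bt14_dnR hv hy
  have h2 := ((derivative (1 + X ^ d : ℂ[X])).hasDerivAt (y s₀)).comp s₀ hy
  have h3 := h1.fun_add h2
  have e : (fun s => (derivative (nQ d (v s))).eval (y s)) =
      fun s => (derivative (nR d (v s))).eval (y s) +
      ((fun x => (derivative (1 + X ^ d : ℂ[X])).eval x) ∘ y) s := by
    funext s
    simp only [nQ, derivative_add, eval_add, Function.comp_apply]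
    ring
  rw [e]
  refine h3.congr_deriv ?_
  rw [nQ, derivative_add, derivative_add, derivative_add, derivative_add, derivative_add,
    derivative_add, eval_add, eval_add, eval_add]
  ring

theorem muld_ev (d : ℕ) (v : ℂ → VI d → ℂ) (δ : VI d → ℂ) (s₀ : ℂ) (hv : HasDerivAt v δ s₀)
    (y : ℂ → ℂ) (y' : ℂ) (hy : HasDerivAt y y' s₀) (hQ : (nQ d (v s₀)).eval (y s₀) ≠ 0) :
    HasDerivAt (fun s => ev (nP d (v s)) (nQ d (v s)) (y s))
      ((tanP d (v s₀) δ).eval (y s₀) / ((nQ d (v s₀)).eval (y s₀)) ^ 2 +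
        derivAt (nP d (v s₀)) (nQ d (v s₀)) (y s₀) * y') s₀ := by
  have h := (bt14_nP hv hy).fun_div (bt14_nQ hv hy) hQ
  refine h.congr_deriv ?_
  rw [tanP, derivAt, eval_sub, eval_mul, eval_mul]
  field_simp
  ring

theorem muld_der (d : ℕ) (v : ℂ → VI d → ℂ) (δ : VI d → ℂ) (s₀ : ℂ) (hv : HasDerivAt v δ s₀)
    (y : ℂ → ℂ) (y' : ℂ) (hy : HasDerivAt y y' s₀) (hQ : (nQ d (v s₀)).eval (y s₀) ≠ 0) :
    HasDerivAt (fun s => derivAt (nP d (v s)) (nQ d (v s)) (y s))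
      (deriv (fun w => (tanP d (v s₀) δ).eval w / ((nQ d (v s₀)).eval w) ^ 2) (y s₀) +
        f2 (nP d (v s₀)) (nQ d (v s₀)) (y s₀) * y') s₀ := by
  have hQ2 : (nQ d (v s₀)).eval (y s₀) ^ 2 ≠ 0 := pow_ne_zero _ hQ
  have h1 := (((bt14_dnP hv hy).fun_mul (bt14_nQ hv hy)).fun_sub
    ((bt14_nP hv hy).fun_mul (bt14_dnQ hv hy))).fun_div ((bt14_nQ hv hy).fun_pow 2) hQ2
  have h2 : deriv (fun w => (tanP d (v s₀) δ).eval w / ((nQ d (v s₀)).eval w) ^ 2) (y s₀) = _ :=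
    ((((tanP d (v s₀) δ).hasDerivAt (y s₀)).fun_div
      (((nQ d (v s₀)).hasDerivAt (y s₀)).fun_pow 2) hQ2)).deriv
  have h3 : f2 (nP d (v s₀)) (nQ d (v s₀)) (y s₀) = _ :=
    ((((((derivative (nP d (v s₀))).hasDerivAt (y s₀)).fun_mul
      ((nQ d (v s₀)).hasDerivAt (y s₀))).fun_sub
      (((nP d (v s₀)).hasDerivAt (y s₀)).fun_mul
        ((derivative (nQ d (v s₀))).hasDerivAt (y s₀)))).fun_div
      (((nQ d (v s₀)).hasDerivAt (y s₀)).fun_pow 2) hQ2)).deriv
  rw [h2, h3]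
  refine h1.congr_deriv ?_
  rw [tanP, derivative_sub, derivative_mul, derivative_mul, eval_sub, eval_sub, eval_add,
    eval_add, eval_mul, eval_mul, eval_mul, eval_mul, eval_mul, eval_mul]
  generalize hq : (nQ d (v s₀)).eval (y s₀) = q at *
  generalize (derivative (nQ d (v s₀))).eval (y s₀) = q1
  generalize (derivative (derivative (nQ d (v s₀)))).eval (y s₀) = q2
  generalize (nP d (v s₀)).eval (y s₀) = p0
  generalize (derivative (nP d (v s₀))).eval (y s₀) = p1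
  generalize (derivative (derivative (nP d (v s₀)))).eval (y s₀) = p2
  generalize (nP d δ).eval (y s₀) = a0
  generalize (derivative (nP d δ)).eval (y s₀) = a1
  generalize (nR d δ).eval (y s₀) = b0
  generalize (derivative (nR d δ)).eval (y s₀) = b1
  simp only [Nat.cast_ofNat, Nat.add_one_sub_one, pow_one]
  field_simp
  ring

theorem bt14_shift (m : ℕ) (h : ℕ → ℂ) (hm : h m = h 0) :
    ∑ k ∈ Finset.range m, h (k + 1) = ∑ k ∈ Finset.range m, h k := by
  have h1 := Finset.sum_range_succ' h m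
  have h2 := Finset.sum_range_succ h m
  rw [h1, hm] at h2
  exact add_right_cancel h2

theorem muld (d m : ℕ) (hm : 1 ≤ m) (v : ℂ → VI d → ℂ) (δ : VI d → ℂ) (s₀ : ℂ)
    (hv : HasDerivAt v δ s₀) (z : ℂ → ℂ) (z' : ℂ) (hz : HasDerivAt z z' s₀)
    (h₀ : PerX (nP d (v s₀)) (nQ d (v s₀)) m (z s₀))
    (hper : ∀ᶠ s in nhds s₀, (ev (nP d (v s)) (nQ d (v s)))^[m] (z s) = z s)
    (γ : ℂ → ℂ)
    (hI : Inv (nP d (v s₀)) (nQ d (v s₀)) (orb (nP d (v s₀)) (nQ d (v s₀)) m (z s₀))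
      (fun w => ∏ y ∈ (orb (nP d (v s₀)) (nQ d (v s₀)) m (z s₀)).erase w,
        derivAt (nP d (v s₀)) (nQ d (v s₀)) y) γ) :
    HasDerivAt (fun s => mult (nP d (v s)) (nQ d (v s)) m (z s))
      (LT d (v s₀) (orb (nP d (v s₀)) (nQ d (v s₀)) m (z s₀))
        (fun w => ∏ y ∈ (orb (nP d (v s₀)) (nQ d (v s₀)) m (z s₀)).erase w,
        derivAt (nP d (v s₀)) (nQ d (v s₀)) y) γ δ) s₀ := by
  classical
  obtain ⟨o1, -, -, o4, -⟩ := orb_facts (nP d (v s₀)) (nQ d (v s₀)) m hm (z s₀) h₀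
  -- the points of the orbit
  set w : ℕ → ℂ := fun k => (ev (nP d (v s₀)) (nQ d (v s₀)))^[k] (z s₀) with hw
  have hQ : ∀ k, (nQ d (v s₀)).eval (w k) ≠ 0 := h₀.1.1
  have hw0 : w 0 = z s₀ := rfl
  have hwm : w m = w 0 := h₀.1.2
  have hws : ∀ k, ev (nP d (v s₀)) (nQ d (v s₀)) (w k) = w (k + 1) := fun k =>
    (Function.iterate_succ_apply' _ _ _).symm
  have hinj : Set.InjOn w (Finset.range m : Set ℕ) := by
    intro i hi j hj hij
    exact o1 i (Finset.mem_range.1 (Finset.mem_coe.1 hi)) j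
      (Finset.mem_range.1 (Finset.mem_coe.1 hj)) hij
  have horb : orb (nP d (v s₀)) (nQ d (v s₀)) m (z s₀) = (Finset.range m).image w := by
    rw [orb]
  set et : ℂ → ℂ := fun w => (tanP d (v s₀) δ).eval w / ((nQ d (v s₀)).eval w) ^ 2 with het
  set da : ℂ → ℂ := fun w => derivAt (nP d (v s₀)) (nQ d (v s₀)) w with hda
  -- the derivatives of the points
  obtain ⟨x, hx0, hxs⟩ : ∃ x : ℕ → ℂ, x 0 = z' ∧ ∀ k, x (k + 1) = et (w k) + da (w k) * x k :=
    ⟨fun k => Nat.rec z' (fun k y => et (w k) + da (w k) * y) k, rfl, fun _ => rfl⟩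
  have hxd : ∀ k, HasDerivAt (fun s => (ev (nP d (v s)) (nQ d (v s)))^[k] (z s)) (x k) s₀ := by
    intro k
    induction k with
    | zero =>
      rw [hx0]
      exact hz
    | succ k ih =>
      have h1 := muld_ev d v δ s₀ hv _ _ ih (hQ k)
      rw [hxs]
      simp only [Function.iterate_succ_apply']
      exact h1
  have hxm : x m = x 0 := by
    rw [hx0]
    refine (hxd m).unique ?_
    exact hz.congr_of_eventuallyEq hper
  have hdd : ∀ k ∈ Finset.range m, HasDerivAt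
      (fun s => derivAt (nP d (v s)) (nQ d (v s)) ((ev (nP d (v s)) (nQ d (v s)))^[k] (z s)))
      (deriv et (w k) + f2 (nP d (v s₀)) (nQ d (v s₀)) (w k) * x k) s₀ := fun k _ =>
    muld_der d v δ s₀ hv _ _ (hxd k) (hQ k)
  have hmul := HasDerivAt.fun_finsetProd hdd
  have hmul' : HasDerivAt (fun s => mult (nP d (v s)) (nQ d (v s)) m (z s)) _ s₀ := hmul
  refine hmul'.congr_deriv ?_
  clear hmul hmul'
  have hβ : ∀ k ∈ Finset.range m, (∏ y ∈ (orb (nP d (v s₀)) (nQ d (v s₀)) m (z s₀)).erase (w k),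
      derivAt (nP d (v s₀)) (nQ d (v s₀)) y) = ∏ j ∈ (Finset.range m).erase k, da (w j) := by
    intro k hk
    rw [horb]
    have h1 : ((Finset.range m).image w).erase (w k) = ((Finset.range m).erase k).image w := by
      ext y
      simp only [Finset.mem_erase, Finset.mem_image]
      constructor
      · rintro ⟨hy, j, hj, rfl⟩
        exact ⟨j, ⟨fun h => hy (by rw [h]), hj⟩, rfl⟩
      · rintro ⟨j, ⟨hjk, hj⟩, rfl⟩
        exact ⟨fun h => hjk (hinj (Finset.mem_coe.2 hj) (Finset.mem_coe.2 hk) h), j, hj, rfl⟩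
    rw [h1, Finset.prod_image]
    intro i hi j hj hij
    exact hinj (Finset.mem_coe.2 (Finset.mem_of_mem_erase (Finset.mem_coe.1 hi)))
      (Finset.mem_coe.2 (Finset.mem_of_mem_erase (Finset.mem_coe.1 hj))) hij
  set β : ℂ → ℂ := fun w => ∏ y ∈ (orb (nP d (v s₀)) (nQ d (v s₀)) m (z s₀)).erase w,
    derivAt (nP d (v s₀)) (nQ d (v s₀)) y with hβd
  have hLT : LT d (v s₀) (orb (nP d (v s₀)) (nQ d (v s₀)) m (z s₀)) β γ δ =
      ∑ k ∈ Finset.range m, (β (w k) * deriv et (w k) + γ (w k) * et (w k)) := by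
    rw [LT, LF, horb, Finset.sum_image hinj]
  rw [hLT]
  have hg : ∀ k, γ (w k) = γ (w (k + 1)) * da (w (k + 1)) +
      β (w (k + 1)) * f2 (nP d (v s₀)) (nQ d (v s₀)) (w (k + 1)) := by
    intro k
    have h1 := hI.gamma (w k) (o4 k)
    rw [hws] at h1
    exact h1
  have e1 := bt14_shift m (fun k => β (w k) * (f2 (nP d (v s₀)) (nQ d (v s₀)) (w k) * x k))
    (by rw [hwm, hxm])
  have e2 := bt14_shift m (fun k => γ (w k) * da (w k) * x k) (by rw [hwm, hxm])
  have e3 : ∑ k ∈ Finset.range m, β (w k) * (f2 (nP d (v s₀)) (nQ d (v s₀)) (w k) * x k) =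
      ∑ k ∈ Finset.range m, γ (w k) * et (w k) := by
    rw [← e1]
    have h2 : ∑ k ∈ Finset.range m, γ (w k) * et (w k) =
        ∑ k ∈ Finset.range m, γ (w k) * x (k + 1) -
          ∑ k ∈ Finset.range m, γ (w k) * da (w k) * x k := by
      rw [← Finset.sum_sub_distrib]
      refine Finset.sum_congr rfl (fun k _ => ?_)
      rw [hxs]
      ring
    rw [h2, ← e2, ← Finset.sum_sub_distrib]
    refine Finset.sum_congr rfl (fun k _ => ?_)
    rw [hg k]
    ring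
  have e4 : ∑ k ∈ Finset.range m, (β (w k) * deriv et (w k) + γ (w k) * et (w k)) =
      ∑ k ∈ Finset.range m, β (w k) *
        (deriv et (w k) + f2 (nP d (v s₀)) (nQ d (v s₀)) (w k) * x k) := by
    rw [Finset.sum_add_distrib, ← e3, ← Finset.sum_add_distrib]
    refine Finset.sum_congr rfl (fun k _ => ?_)
    ring
  rw [e4]
  refine Finset.sum_congr rfl (fun k hk => ?_)
  have hk' : β (w k) = ∏ j ∈ (Finset.range m).erase k, da (w j) := hβ k hk
  rw [hk', smul_eq_mul]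

end Pool.Agent.LSF
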