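import Pool.Agent.LSF.BT11
import Pool.Agent.LSF.BT14

/-!
BT15 (SING): the multiplier of an attracting cycle with at most one critical point has a nonzero
derivative in some direction.

Complete proof. `β w := ∏_{y ∈ orb.erase w} f'(y)` satisfies `β w f'(w) = mult` for `w ∈ orb`
(`Finset.mul_prod_erase`, `orb_facts`), so `hβ` of `cycf` holds; the multiplier is not `1`
(modulus `< 1`), so `cycf` gives `γ` with `Inv`. `Att` holds (`orb_facts`). If `LT .. δ = 0` for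
all `δ` then by `kill` `β = 0` on the orbit; but by `hcrit` there is a point `w` of the orbit such
that `f'(y) ≠ 0` for all other points `y` of the orbit (if no point is critical take `w = z₀`),
so `β w ≠ 0`.
-/

namespace Pool.Agent.LSF

open Polynomial Pool.Agent.LenSpec

theorem sing (d m : ℕ) (hm : 1 ≤ m) (v : VI d → ℂ) (hv : Nf d v) (z₀ : ℂ)
    (h : PerX (nP d v) (nQ d v) m z₀) (h1 : ‖mult (nP d v) (nQ d v) m z₀‖ < 1)
    (hcrit : ∀ y ∈ orb (nP d v) (nQ d v) m z₀, ∀ y' ∈ orb (nP d v) (nQ d v) m z₀,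
      derivAt (nP d v) (nQ d v) y = 0 → derivAt (nP d v) (nQ d v) y' = 0 → y = y') :
    ∃ γ : ℂ → ℂ, Inv (nP d v) (nQ d v) (orb (nP d v) (nQ d v) m z₀)
      (fun w => ∏ y ∈ (orb (nP d v) (nQ d v) m z₀).erase w, derivAt (nP d v) (nQ d v) y) γ ∧
      ∃ δ, LT d v (orb (nP d v) (nQ d v) m z₀)
        (fun w => ∏ y ∈ (orb (nP d v) (nQ d v) m z₀).erase w,
          derivAt (nP d v) (nQ d v) y) γ δ ≠ 0 := by
  have hof := orb_facts (nP d v) (nQ d v) m hm z₀ h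
  have hβ1 : ∀ w ∈ orb (nP d v) (nQ d v) m z₀,
      (∏ y ∈ (orb (nP d v) (nQ d v) m z₀).erase w, derivAt (nP d v) (nQ d v) y) *
        derivAt (nP d v) (nQ d v) w = mult (nP d v) (nQ d v) m z₀ := by
    intro w hw
    rw [mul_comm, Finset.mul_prod_erase _ _ hw, hof.2.2.2.2]
  have hmem : ∀ w ∈ orb (nP d v) (nQ d v) m z₀,
      ev (nP d v) (nQ d v) w ∈ orb (nP d v) (nQ d v) m z₀ := fun w hw => (hof.2.1 w hw).2.1
  obtain ⟨γ, -, hγ⟩ := cycf (nP d v) (nQ d v) m hm z₀ h (by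
    intro h'
    rw [h'] at h1
    simp at h1)
    (fun w => ∏ y ∈ (orb (nP d v) (nQ d v) m z₀).erase w, derivAt (nP d v) (nQ d v) y)
    (fun w hw => (hβ1 w hw).trans (hβ1 _ (hmem w hw)).symm)
  refine ⟨γ, hγ, ?_⟩
  by_contra hcon
  push Not at hcon
  have hAtt : Att (nP d v) (nQ d v) (orb (nP d v) (nQ d v) m z₀) := by
    intro w hw
    obtain ⟨-, -, hper, hmu⟩ := hof.2.1 w hw
    refine ⟨m, hm, hper.1.2, ?_⟩
    rw [hmu]
    exact h1
  have hkill := kill d v hv _ _ γ hγ hAtt hcon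
  have hz₀ : z₀ ∈ orb (nP d v) (nQ d v) m z₀ := hof.2.2.2.1 0
  obtain ⟨w, hw, hw'⟩ : ∃ w ∈ orb (nP d v) (nQ d v) m z₀, ∀ y ∈ orb (nP d v) (nQ d v) m z₀,
      y ≠ w → derivAt (nP d v) (nQ d v) y ≠ 0 := by
    by_cases hc : ∃ w ∈ orb (nP d v) (nQ d v) m z₀, derivAt (nP d v) (nQ d v) w = 0
    · obtain ⟨w, hw, hw0⟩ := hc
      exact ⟨w, hw, fun y hy hne h0 => hne (hcrit y hy w hw h0 hw0)⟩
    · push Not at hc
      exact ⟨z₀, hz₀, fun y hy _ => hc y hy⟩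
  have h2 := (hkill w hw).1
  rw [Finset.prod_eq_zero_iff] at h2
  obtain ⟨y, hy, hy0⟩ := h2
  rw [Finset.mem_erase] at hy
  exact hw' y hy.2 hy.1 hy0

end Pool.Agent.LSF
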