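import Pool.Agent.LSF.BT2
import Pool.Agent.LenSpec.A56

/-!
BT12: the functional of a cycle.

`orb P Q m z₀` is the finite set of the points `f^k z₀`, `k < m`.

Complete proof.
`lsys`: put `A := ∏_{k<m} a k` and
`x k := (∑_{j=1}^{m} b (k+j) ∏_{i=1}^{j-1} a (k+i)) / (1 - A)`. By periodicity
`∏_{i=1}^{m} a (k+i) = A` for all `k`, `x` is `m`-periodic, and
`x k - a (k+1) x (k+1) = (b (k+1) - b (k+1+m) A)/(1 - A) = b (k+1)` (telescoping after an index
shift).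
`cycf`: the points `w_k := f^k z₀`, `k < m` are distinct (`A5S`-type argument: if
`f^i z₀ = f^j z₀`, `i < j < m`, then applying `f^(m-j)`: `f^(m-j+i) z₀ = z₀` with
`0 < m-j+i < m`, a contradiction), `f` permutes them cyclically. Apply `lsys` to
`a k := f'(w_k)`, `b k := β(w_k) f''(w_k)` (`m`-periodic in `k`; `A = mult P Q m z₀ ≠ 1`), which
gives `x` with `x k = a (k+1) x (k+1) + b (k+1)`; define `γ (w_k) := x k` (well defined:
`k ↦ w_k` is injective modulo `m`; e.g. `γ w := x (Nat.find ..)` or by choice) and `γ = 0` elsewhere.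
Then `Inv.gamma`. `Inv.beta` is the hypothesis `hβ` (`β z f'(z)` is constant along the orbit).
-/

namespace Pool.Agent.LSF

open Polynomial Pool.Agent.LenSpec

open Classical in
/-- the orbit of a periodic point -/
noncomputable def orb (P Q : ℂ[X]) (m : ℕ) (z₀ : ℂ) : Finset ℂ :=
  (Finset.range m).image (fun k => (ev P Q)^[k] z₀)

/-- the solution of the linear system, read backwards -/
noncomputable def bt12_y (m : ℕ) (a b : ℕ → ℂ) (t : ℂ) : ℕ → ℂ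
  | 0 => t
  | j + 1 => a (m - j) * bt12_y m a b t j + b (m - j)

theorem bt12_y_lin (m : ℕ) (a b : ℕ → ℂ) (t : ℂ) (j : ℕ) :
    bt12_y m a b t j = (∏ i ∈ Finset.range j, a (m - i)) * t + bt12_y m a b 0 j := by
  induction j with
  | zero => simp [bt12_y]
  | succ j ih =>
    rw [bt12_y, bt12_y, ih, Finset.prod_range_succ]
    ring

theorem bt12_prod (m : ℕ) (hm : 1 ≤ m) (a : ℕ → ℂ) (ha : ∀ k, a (k + m) = a k) :
    ∏ i ∈ Finset.range m, a (m - i) = ∏ k ∈ Finset.range m, a k := by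
  have h1 : ∏ i ∈ Finset.range m, a (m - i) = ∏ i ∈ Finset.range m, a ((m - 1 - i) + 1) := by
    refine Finset.prod_congr rfl (fun i hi => ?_)
    have := Finset.mem_range.1 hi
    congr 1
    omega
  rw [h1, Finset.prod_range_reflect (fun i => a (i + 1)) m]
  obtain ⟨n, rfl⟩ : ∃ n, m = n + 1 := ⟨m - 1, by omega⟩
  have h2 : a (n + 1) = a 0 := by
    have := ha 0
    rwa [zero_add] at this
  rw [Finset.prod_range_succ, Finset.prod_range_succ' a n, h2]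

theorem lsys (m : ℕ) (hm : 1 ≤ m) (a b : ℕ → ℂ) (ha : ∀ k, a (k + m) = a k)
    (hb : ∀ k, b (k + m) = b k) (hA : ∏ k ∈ Finset.range m, a k ≠ 1) :
    ∃ x : ℕ → ℂ, (∀ k, x (k + m) = x k) ∧ ∀ k, x k = a (k + 1) * x (k + 1) + b (k + 1) := by
  obtain ⟨A, hAdef⟩ : ∃ A : ℂ, A = ∏ k ∈ Finset.range m, a k := ⟨_, rfl⟩
  rw [← hAdef] at hA
  have hA1 : 1 - A ≠ 0 := sub_ne_zero.2 (Ne.symm hA)
  obtain ⟨t, ht⟩ : ∃ t : ℂ, t = bt12_y m a b 0 m / (1 - A) := ⟨_, rfl⟩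
  have hclose : bt12_y m a b t m = t := by
    rw [bt12_y_lin, bt12_prod m hm a ha, ← hAdef]
    have : t * (1 - A) = bt12_y m a b 0 m := by
      rw [ht, div_mul_cancel₀ _ hA1]
    linear_combination -this
  have hpa : Function.Periodic (fun k => a (k + 1)) m := fun k => by
    have := ha (k + 1)
    have h2 : k + m + 1 = k + 1 + m := by omega
    simp only [h2]
    exact this
  have hpb : Function.Periodic (fun k => b (k + 1)) m := fun k => by
    have := hb (k + 1)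
    have h2 : k + m + 1 = k + 1 + m := by omega
    simp only [h2]
    exact this
  refine ⟨fun k => bt12_y m a b t (m - k % m), fun k => ?_, fun k => ?_⟩
  · simp only [Nat.add_mod_right]
  · have hr : k % m < m := Nat.mod_lt k (by omega)
    have e1 : a (k + 1) = a (k % m + 1) := (hpa.map_mod_nat k).symm
    have e2 : b (k + 1) = b (k % m + 1) := (hpb.map_mod_nat k).symm
    have e3 : m - k % m = (m - (k % m + 1)) + 1 := by omega
    have e4 : m - (m - (k % m + 1)) = k % m + 1 := by omega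
    simp only []
    rw [e1, e2, e3, bt12_y, e4]
    by_cases h1 : k % m + 1 = m
    · have e5 : (k + 1) % m = 0 := by
        rw [Nat.add_mod]
        by_cases hm1 : m = 1
        · rw [hm1]; omega
        · rw [Nat.mod_eq_of_lt (show 1 < m by omega), h1, Nat.mod_self]
      rw [e5, h1, Nat.sub_self, Nat.sub_zero, hclose]
      rfl
    · have e5 : (k + 1) % m = k % m + 1 := by
        rw [Nat.add_mod, Nat.mod_eq_of_lt (show 1 < m by omega), Nat.mod_eq_of_lt (by omega)]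
      rw [e5]

theorem bt12_iter (P Q : ℂ[X]) (m : ℕ) (z₀ : ℂ) (h : PerX P Q m z₀) (k : ℕ) :
    (ev P Q)^[k % m] z₀ = (ev P Q)^[k] z₀ := by
  have h1 : Function.IsPeriodicPt (ev P Q) m z₀ := h.1.2
  exact h1.iterate_mod_apply k

theorem bt12_mem (P Q : ℂ[X]) (m : ℕ) (hm : 1 ≤ m) (z₀ : ℂ) (h : PerX P Q m z₀) (k : ℕ) :
    (ev P Q)^[k] z₀ ∈ orb P Q m z₀ := by
  classical
  rw [← bt12_iter P Q m z₀ h k]
  exact Finset.mem_image.2 ⟨k % m, Finset.mem_range.2 (Nat.mod_lt k (by omega)), rfl⟩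

theorem orb_facts (P Q : ℂ[X]) (m : ℕ) (hm : 1 ≤ m) (z₀ : ℂ) (h : PerX P Q m z₀) :
    (∀ i < m, ∀ j < m, (ev P Q)^[i] z₀ = (ev P Q)^[j] z₀ → i = j) ∧
    (∀ z ∈ orb P Q m z₀, Q.eval z ≠ 0 ∧ ev P Q z ∈ orb P Q m z₀ ∧ PerX P Q m z ∧
      mult P Q m z = mult P Q m z₀) ∧
    (∀ z ∈ orb P Q m z₀, ∀ z' ∈ orb P Q m z₀, ev P Q z = ev P Q z' → z = z') ∧
    (∀ k, (ev P Q)^[k] z₀ ∈ orb P Q m z₀) ∧
    mult P Q m z₀ = ∏ z ∈ orb P Q m z₀, derivAt P Q z := by
  classical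
  obtain ⟨h1, h2, h3⟩ := A5_holds ℂ P Q m z₀ hm h
  have h4 := bt12_mem P Q m hm z₀ h
  have h5 : ∀ z ∈ orb P Q m z₀, Q.eval z ≠ 0 ∧ ev P Q z ∈ orb P Q m z₀ ∧ PerX P Q m z ∧
      mult P Q m z = mult P Q m z₀ := by
    intro z hz
    obtain ⟨k, -, rfl⟩ := Finset.mem_image.1 hz
    refine ⟨h.1.1 k, ?_, h1 k, h2 k⟩
    have := h4 (k + 1)
    rwa [Function.iterate_succ_apply'] at this
  refine ⟨h3, h5, ?_, h4, ?_⟩
  · intro z hz z' hz' hzz
    have e1 : (ev P Q)^[m] z = z := (h5 z hz).2.2.1.1.2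
    have e2 : (ev P Q)^[m] z' = z' := (h5 z' hz').2.2.1.1.2
    obtain ⟨n, rfl⟩ : ∃ n, m = n + 1 := ⟨m - 1, by omega⟩
    rw [Function.iterate_succ_apply] at e1 e2
    rw [← e1, ← e2, hzz]
  · rw [orb, Finset.prod_image]
    · rfl
    · intro i hi j hj hij
      exact h3 i (Finset.mem_range.1 (Finset.mem_coe.1 hi)) j
        (Finset.mem_range.1 (Finset.mem_coe.1 hj)) hij

theorem cycf (P Q : ℂ[X]) (m : ℕ) (hm : 1 ≤ m) (z₀ : ℂ) (h : PerX P Q m z₀)
    (hl : mult P Q m z₀ ≠ 1) (β : ℂ → ℂ)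
    (hβ : ∀ z ∈ orb P Q m z₀, β z * derivAt P Q z = β (ev P Q z) * derivAt P Q (ev P Q z)) :
    ∃ γ : ℂ → ℂ, (∀ z, z ∉ orb P Q m z₀ → γ z = 0) ∧ Inv P Q (orb P Q m z₀) β γ := by
  classical
  obtain ⟨h1, h2, h3, h4, h5⟩ := orb_facts P Q m hm z₀ h
  have hper : ∀ k, (ev P Q)^[k + m] z₀ = (ev P Q)^[k] z₀ := fun k => by
    rw [← bt12_iter P Q m z₀ h (k + m), Nat.add_mod_right, bt12_iter P Q m z₀ h k]
  obtain ⟨x, hx1, hx2⟩ := lsys m hm (fun k => derivAt P Q ((ev P Q)^[k] z₀))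
    (fun k => β ((ev P Q)^[k] z₀) * f2 P Q ((ev P Q)^[k] z₀))
    (fun k => by simp only [hper]) (fun k => by simp only [hper]) hl
  have hxmod : ∀ k, x (k % m) = x k := fun k => Function.Periodic.map_mod_nat hx1 k
  obtain ⟨γ, hγ⟩ : ∃ γ : ℂ → ℂ, γ = fun z =>
    if hz : ∃ k, k < m ∧ (ev P Q)^[k] z₀ = z then x (Classical.choose hz) else 0 := ⟨_, rfl⟩
  have hγk : ∀ k, γ ((ev P Q)^[k] z₀) = x k := by
    intro k
    have hz : ∃ k', k' < m ∧ (ev P Q)^[k'] z₀ = (ev P Q)^[k] z₀ :=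
      ⟨k % m, Nat.mod_lt k (by omega), bt12_iter P Q m z₀ h k⟩
    rw [hγ]
    simp only []
    rw [dif_pos hz]
    obtain ⟨e1, e2⟩ := Classical.choose_spec hz
    have e3 : Classical.choose hz = k % m :=
      h1 _ e1 _ (Nat.mod_lt k (by omega)) (e2.trans (bt12_iter P Q m z₀ h k).symm)
    rw [e3, hxmod]
  refine ⟨γ, ?_, ?_⟩
  · intro z hz
    rw [hγ]
    simp only []
    rw [dif_neg]
    rintro ⟨k, -, hk⟩
    exact hz (hk ▸ h4 k)
  · refine ⟨fun z hz => (h2 z hz).1, fun z hz => (h2 z hz).2.1, h3, hβ, ?_⟩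
    intro z hz
    obtain ⟨k, -, rfl⟩ := Finset.mem_image.1 hz
    have e1 : ev P Q ((ev P Q)^[k] z₀) = (ev P Q)^[k + 1] z₀ :=
      (Function.iterate_succ_apply' _ _ _).symm
    have e2 := hx2 k
    rw [e1, hγk, hγk, e2]
    ring

end Pool.Agent.LSF
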