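import Mathlib

/-!
BT16: derivations of `ℂ` with prescribed values on algebraically independent elements.

Proof: `E`, the field of fractions of the polynomial ring, is embedded in `ℂ` by `x`; the
homomorphism of `E` into the dual numbers with `X i ↦ x i + ε c i` extends to `ℂ` because an
extension of fields of characteristic zero is formally smooth.
-/

namespace Pool.Agent.LSF

/-- Any extension of fields of characteristic zero is formally smooth. -/
theorem der_smooth (E K : Type) [Field E] [Field K] [Algebra E K] [CharZero E] :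
    Algebra.FormallySmooth E K := by
  obtain ⟨ι, v, hv⟩ := exists_isTranscendenceBasis' E K
  have : Algebra.IsAlgebraic (IntermediateField.adjoin E (Set.range v)) K := hv.isAlgebraic_field
  have : CharZero (IntermediateField.adjoin E (Set.range v)) :=
    charZero_of_injective_algebraMap (algebraMap E _).injective
  exact .of_algebraicIndependent_of_isSeparable hv.1

/-- Extension of derivations. -/
theorem der_ext_field {E K : Type} [Field E] [Field K] [CharZero K] [Algebra E K] [CharZero E]
    (ψ : E →+* TrivSqZeroExt K K) (hψ : ∀ a, (ψ a).fst = algebraMap E K a) :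
    ∃ D : Derivation ℚ K K, ∀ a, D (algebraMap E K a) = (ψ a).snd := by
  classical
  have hs := der_smooth E K
  let alg : Algebra E (TrivSqZeroExt K K) := ψ.toAlgebra
  have halg : ∀ a : E, (algebraMap E (TrivSqZeroExt K K)) a = ψ a := fun a => rfl
  let g : TrivSqZeroExt K K →ₐ[E] K :=
    { (TrivSqZeroExt.fstHom ℤ K K).toRingHom with
      commutes' := fun a => by
        change (ψ a).fst = _
        exact hψ a }
  have hg : ∀ z, g z = z.fst := fun z => rfl
  have hsurj : Function.Surjective g := fun a => ⟨TrivSqZeroExt.inl a, by simp [hg]⟩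
  have hnil : IsNilpotent (RingHom.ker (g : TrivSqZeroExt K K →+* K)) := by
    refine ⟨2, ?_⟩
    have h2 : (RingHom.ker (g : TrivSqZeroExt K K →+* K)) ^ 2
        = (RingHom.ker (g : TrivSqZeroExt K K →+* K)) *
          (RingHom.ker (g : TrivSqZeroExt K K →+* K)) :=
      sq _
    refine h2.trans ?_
    rw [Ideal.zero_eq_bot, eq_bot_iff, Ideal.mul_le]
    intro r hr s hs
    have hr' : r.fst = 0 := hr
    have hs' : s.fst = 0 := hs
    rw [Ideal.mem_bot]
    ext <;> simp [hr', hs']
  let h := Algebra.FormallySmooth.liftOfSurjective (AlgHom.id E K) g hsurj hnil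
  have hh : ∀ x, (h x).fst = x := fun x => by
    have := Algebra.FormallySmooth.liftOfSurjective_apply (AlgHom.id E K) g hsurj hnil x
    simpa [hg] using this
  refine ⟨Derivation.mk' ((TrivSqZeroExt.sndHom K K).toAddMonoidHom.comp
      (h : K →+* TrivSqZeroExt K K).toAddMonoidHom).toRatLinearMap ?_, ?_⟩
  · intro a b
    change (h (a * b)).snd = a • (h b).snd + b • (h a).snd
    rw [map_mul, TrivSqZeroExt.snd_mul, hh, hh]
    simp [mul_comm]
  · intro a
    change (h (algebraMap E K a)).snd = (ψ a).snd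
    rw [AlgHom.commutes]
    rfl

theorem der_exists {ι : Type} [Finite ι] (x : ι → ℂ) (hx : AlgebraicIndependent ℚ x)
    (c : ι → ℂ) : ∃ D : Derivation ℚ ℂ ℂ, ∀ i, D (x i) = c i := by
  classical
  have hinj : Function.Injective (MvPolynomial.aeval x : MvPolynomial ι ℚ →ₐ[ℚ] ℂ) := hx
  -- the embedding
  let φ : FractionRing (MvPolynomial ι ℚ) →+* ℂ :=
    IsFractionRing.lift (K := FractionRing (MvPolynomial ι ℚ))
      (g := (MvPolynomial.aeval x : MvPolynomial ι ℚ →ₐ[ℚ] ℂ).toRingHom) hinj
  have hφ : ∀ g : MvPolynomial ι ℚ,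
      φ (algebraMap (MvPolynomial ι ℚ) (FractionRing (MvPolynomial ι ℚ)) g) =
        MvPolynomial.aeval x g := fun g => IsFractionRing.lift_algebraMap _ g
  -- the homomorphism into the dual numbers
  let ψ0 : MvPolynomial ι ℚ →+* TrivSqZeroExt ℂ ℂ := MvPolynomial.eval₂Hom
    ((TrivSqZeroExt.inlHom ℂ ℂ).comp (algebraMap ℚ ℂ))
    (fun i => TrivSqZeroExt.inl (x i) + TrivSqZeroExt.inr (c i))
  have h1 : ∀ g, (ψ0 g).fst = MvPolynomial.aeval x g := by
    intro g
    have h2 : (TrivSqZeroExt.fstHom ℤ ℂ ℂ).toRingHom.comp ψ0 =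
        (MvPolynomial.aeval x : MvPolynomial ι ℚ →ₐ[ℚ] ℂ).toRingHom := by
      apply MvPolynomial.ringHom_ext
      · intro a
        simp [ψ0]
      · intro i
        simp [ψ0]
    exact congrArg (fun f : MvPolynomial ι ℚ →+* ℂ => f g) h2
  have hu : ∀ y : nonZeroDivisors (MvPolynomial ι ℚ), IsUnit (ψ0 y) := by
    intro y
    rw [TrivSqZeroExt.isUnit_iff_isUnit_fst, h1, isUnit_iff_ne_zero]
    intro h3
    refine nonZeroDivisors.coe_ne_zero y (hinj ?_)
    rw [h3, map_zero]
  let ψ : FractionRing (MvPolynomial ι ℚ) →+* TrivSqZeroExt ℂ ℂ :=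
    IsLocalization.lift (M := nonZeroDivisors (MvPolynomial ι ℚ)) hu
  have hψ : ∀ g : MvPolynomial ι ℚ,
      ψ (algebraMap (MvPolynomial ι ℚ) (FractionRing (MvPolynomial ι ℚ)) g) = ψ0 g := fun g =>
    IsLocalization.lift_eq hu g
  let alg : Algebra (FractionRing (MvPolynomial ι ℚ)) ℂ := φ.toAlgebra
  have halg : ∀ a, algebraMap (FractionRing (MvPolynomial ι ℚ)) ℂ a = φ a := fun _ => rfl
  have : CharZero (FractionRing (MvPolynomial ι ℚ)) :=
    charZero_of_injective_algebraMap (algebraMap ℚ (FractionRing (MvPolynomial ι ℚ))).injective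
  obtain ⟨D, hD⟩ := der_ext_field ψ (by
    intro a
    rw [halg]
    have h2 : (TrivSqZeroExt.fstHom ℤ ℂ ℂ).toRingHom.comp ψ = φ := by
      apply IsLocalization.ringHom_ext (nonZeroDivisors (MvPolynomial ι ℚ))
      refine RingHom.ext fun g => ?_
      change (ψ (algebraMap (MvPolynomial ι ℚ) (FractionRing (MvPolynomial ι ℚ)) g)).fst =
        φ (algebraMap (MvPolynomial ι ℚ) (FractionRing (MvPolynomial ι ℚ)) g)
      rw [hψ, hφ, h1]
    exact congrArg (fun f : FractionRing (MvPolynomial ι ℚ) →+* ℂ => f a) h2)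
  refine ⟨D, fun i => ?_⟩
  have h2 := hD (algebraMap (MvPolynomial ι ℚ) (FractionRing (MvPolynomial ι ℚ)) (MvPolynomial.X i))
  rw [halg, hφ, hψ] at h2
  simpa [ψ0] using h2

end Pool.Agent.LSF
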