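import Pool.Agent.LSF.BT11
import Pool.Agent.LSF.BT12
import Pool.Agent.LSF.BT16

/-!
BT17 (DBL): if all but one of the parameters are algebraically independent, no cycle contains two
critical points.

Complete proof. Suppose `y ≠ y'` are critical points in the orbit `Z` of `z₀` (exact period `m`).
The multiplier is `0 ≠ 1`. For a critical point `c ∈ Z` let `β_c w := if w = c then 1 else 0`; then
`β_c w f'(w) = 0` for all `w ∈ Z`, so `cycf` gives `γ_c` with `Inv P Q Z β_c γ_c`.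

Claim: for every derivation `D` of `ℂ`, with `δ i := D (v i)`: `LT d v Z β_c γ_c δ = 0`.
Proof. `η(w) := tanP(w)/Q(w)^2`. For `w` with `Q w ≠ 0`:
`D (f w) = η(w) + f'(w) D w` and `D (f'(w)) = (deriv η)(w) + f''(w) D w` (apply `D` to the quotients
of polynomials in `w` with coefficients `v i`: `D (P.eval w) = (nP d δ).eval w + P'.eval w * D w`,
`D (Q.eval w) = (nR d δ).eval w + Q'.eval w * D w`, similarly for `P'`, `Q'`; `deriv η` and `f''`
by the quotient rule). With `x_w := D w` for `w ∈ Z`: `x_{f w} = η(w) + f'(w) x_w`. As in BT14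
(summation by parts along the cycle with `Inv.gamma`):
`∑_w β_c(w) f''(w) x_w = ∑_w γ_c(w) η(w)`. [`∑_w β(w) f''(w) x_w = ∑_w β(f w) f''(f w) x_{f w} =
∑_w (γ(w) - γ(f w) f'(f w)) x_{f w} = ∑_w γ(w) x_{f w} - ∑_w γ(w) f'(w) x_w = ∑_w γ(w) η(w)`.]
Therefore `LT = ∑_w β_c(w) ((deriv η)(w) + f''(w) x_w) = (deriv η)(c) + f''(c) D c = D (f'(c)) =
D 0 = 0`.

By `der_exists`, for every `δ : VI d → ℂ` with... the values on the indices `i ≠ i₀` can be
prescribed: so `V := {δ | ∃ D, ∀ i, D (v i) = δ i}` contains, for every choice of the values off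
`i₀`, some vector. Let `L₁ = LT .. β_y γ_y`, `L₂ = LT .. β_{y'} γ_{y'}` (linear forms, both zero on
`V`). Claim: there is `(c₁, c₂) ≠ 0` with `c₁ L₁ + c₂ L₂ = 0`: the span `V'` of `V` together with
the vector `e_{i₀}` (unit vector) is everything (any `δ` differs from an element of `V` by a
multiple of `e_{i₀}`), so a linear form vanishing on `V` is determined by its value at `e_{i₀}`;
take `(c₁, c₂) := (L₂ e, - L₁ e)` if not both are zero, else `(1, 0)`.
Then the functional with `β := c₁ β_y + c₂ β_{y'}`, `γ := c₁ γ_y + c₂ γ_{y'}` satisfies `Inv`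
(all conditions are linear in `(β, γ)`), vanishes on all tangent directions, `Att` holds since the
multiplier is `0`; by `kill` `β = 0` on `Z`: `c₁ = β(y) = 0` and `c₂ = β(y') = 0`. Contradiction.
-/

namespace Pool.Agent.LSF

open Polynomial Pool.Agent.LenSpec

/-- the derivative of a value of a polynomial -/
lemma bt17_eval (D : Derivation ℚ ℂ ℂ) (p q : ℂ[X]) (h : ∀ n, D (p.coeff n) = q.coeff n)
    (w : ℂ) : D (p.eval w) = q.eval w + (derivative p).eval w * D w := by
  have hp : p.natDegree < max p.natDegree q.natDegree + 1 := by omega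
  have hq : q.natDegree < max p.natDegree q.natDegree + 1 := by omega
  have hp' : (derivative p).natDegree < max p.natDegree q.natDegree + 1 := by
    have := natDegree_derivative_le p
    omega
  generalize max p.natDegree q.natDegree + 1 = N at *
  have e1 : (derivative p).eval w =
      ∑ i ∈ Finset.range N, p.coeff i * ((i : ℂ) * w ^ (i - 1)) := by
    rw [derivative_eval, sum_over_range' p (by simp) N hp]
    exact Finset.sum_congr rfl fun i _ => by ring
  rw [eval_eq_sum_range' hp, eval_eq_sum_range' hq, e1, map_sum, Finset.sum_mul,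
    ← Finset.sum_add_distrib]
  apply Finset.sum_congr rfl
  intro i _
  rw [D.leibniz, D.leibniz_pow, h i]
  simp only [smul_eq_mul, nsmul_eq_mul]
  ring

lemma bt17_der (D : Derivation ℚ ℂ ℂ) (p q : ℂ[X]) (h : ∀ n, D (p.coeff n) = q.coeff n) :
    ∀ n, D ((derivative p).coeff n) = (derivative q).coeff n := by
  intro n
  rw [coeff_derivative, coeff_derivative, D.leibniz, h]
  have : D ((n : ℂ) + 1) = 0 := by
    have := D.map_natCast (n + 1)
    push_cast at this
    exact this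
  rw [this]
  simp only [smul_eq_mul]
  ring

lemma bt17_mul (D : Derivation ℚ ℂ ℂ) (p q p' q' : ℂ[X]) (h : ∀ n, D (p.coeff n) = q.coeff n)
    (h' : ∀ n, D (p'.coeff n) = q'.coeff n) :
    ∀ n, D ((p * p').coeff n) = (q * p' + p * q').coeff n := by
  intro n
  rw [coeff_add, coeff_mul, coeff_mul, coeff_mul, map_sum, ← Finset.sum_add_distrib]
  apply Finset.sum_congr rfl
  intro x _
  rw [D.leibniz, h, h']
  simp only [smul_eq_mul]
  ring

lemma bt17_sub (D : Derivation ℚ ℂ ℂ) (p q p' q' : ℂ[X]) (h : ∀ n, D (p.coeff n) = q.coeff n)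
    (h' : ∀ n, D (p'.coeff n) = q'.coeff n) :
    ∀ n, D ((p - p').coeff n) = (q - q').coeff n := by
  intro n
  rw [coeff_sub, coeff_sub, map_sub, h, h']

lemma bt17_nP (D : Derivation ℚ ℂ ℂ) (d : ℕ) (v : VI d → ℂ) :
    ∀ n, D ((nP d v).coeff n) = (nP d (fun i => D (v i))).coeff n := by
  intro n
  unfold nP
  rw [finsetSum_coeff, finsetSum_coeff, map_sum]
  apply Finset.sum_congr rfl
  intro i _
  rw [coeff_C_mul, coeff_C_mul, coeff_X_pow]
  split_ifs <;> simp

lemma bt17_nQ (D : Derivation ℚ ℂ ℂ) (d : ℕ) (v : VI d → ℂ) :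
    ∀ n, D ((nQ d v).coeff n) = (nR d (fun i => D (v i))).coeff n := by
  intro n
  unfold nQ nR
  rw [coeff_add, coeff_add, map_add, map_add, finsetSum_coeff, finsetSum_coeff, map_sum,
    coeff_X_pow, coeff_one]
  have h1 : D (if n = 0 then (1 : ℂ) else 0) = 0 := by split_ifs <;> simp
  have h2 : D (if n = d then (1 : ℂ) else 0) = 0 := by split_ifs <;> simp
  rw [h1, h2, zero_add, add_zero]
  apply Finset.sum_congr rfl
  intro i _
  rw [coeff_C_mul, coeff_C_mul, coeff_X_pow]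
  split_ifs <;> simp

/-- the derivative of a quotient -/
lemma bt17_quot (T Q : ℂ[X]) (w : ℂ) (hw : Q.eval w ≠ 0) :
    deriv (fun z => T.eval z / (Q.eval z) ^ 2) w =
      ((derivative T).eval w * (Q.eval w) ^ 2 -
        T.eval w * (2 * Q.eval w * (derivative Q).eval w)) / (Q.eval w) ^ 4 := by
  have h1 : HasDerivAt (fun z => T.eval z) ((derivative T).eval w) w := T.hasDerivAt w
  have h2 : HasDerivAt (fun z => (Q.eval z) ^ 2) (2 * Q.eval w * (derivative Q).eval w) w := by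
    have := (Q.hasDerivAt w).fun_pow 2
    refine this.congr_deriv ?_
    norm_num
  have h3 := h1.div h2 (pow_ne_zero 2 hw)
  have h4 := h3.deriv
  have h5 : ((fun z => T.eval z) / fun z => (Q.eval z) ^ 2) =
      fun z => T.eval z / (Q.eval z) ^ 2 := rfl
  rw [h5] at h4
  rw [h4]
  congr 1
  ring

lemma bt17_f2 (P Q : ℂ[X]) (w : ℂ) (hw : Q.eval w ≠ 0) :
    f2 P Q w = ((derivative (EE P Q)).eval w * (Q.eval w) ^ 2 -
        (EE P Q).eval w * (2 * Q.eval w * (derivative Q).eval w)) / (Q.eval w) ^ 4 := by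
  rw [← bt17_quot (EE P Q) Q w hw]
  unfold f2
  congr 1
  funext z
  unfold derivAt EE
  rw [eval_sub, eval_mul, eval_mul]

/-- the derivative of `f w` -/
lemma bt17_ev (D : Derivation ℚ ℂ ℂ) (d : ℕ) (v : VI d → ℂ) (w : ℂ)
    (hw : (nQ d v).eval w ≠ 0) :
    D (ev (nP d v) (nQ d v) w) =
      (tanP d v (fun i => D (v i))).eval w / ((nQ d v).eval w) ^ 2 +
        derivAt (nP d v) (nQ d v) w * D w := by
  have h1 := bt17_eval D _ _ (bt17_nP D d v) w
  have h2 := bt17_eval D _ _ (bt17_nQ D d v) w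
  unfold ev derivAt tanP
  rw [D.leibniz_div, h1, h2]
  simp only [smul_eq_mul, eval_sub, eval_mul]
  field_simp
  ring

/-- the derivative of `f' w` -/
lemma bt17_dd (D : Derivation ℚ ℂ ℂ) (d : ℕ) (v : VI d → ℂ) (w : ℂ)
    (hw : (nQ d v).eval w ≠ 0) :
    D (derivAt (nP d v) (nQ d v) w) =
      deriv (fun z => (tanP d v (fun i => D (v i))).eval z / ((nQ d v).eval z) ^ 2) w +
        f2 (nP d v) (nQ d v) w * D w := by
  rw [bt17_quot _ _ _ hw, bt17_f2 _ _ _ hw]
  have hP := bt17_nP D d v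
  have hQ := bt17_nQ D d v
  have hE := bt17_sub D _ _ _ _ (bt17_mul D _ _ _ _ (bt17_der D _ _ hP) hQ)
    (bt17_mul D _ _ _ _ hP (bt17_der D _ _ hQ))
  have hQQ := bt17_mul D _ _ _ _ hQ hQ
  have h1 := bt17_eval D _ _ hE w
  have h2 := bt17_eval D _ _ hQQ w
  have e1 : derivAt (nP d v) (nQ d v) w =
      (derivative (nP d v) * nQ d v - nP d v * derivative (nQ d v)).eval w /
        (nQ d v * nQ d v).eval w := by
    unfold derivAt
    simp only [eval_sub, eval_mul]
    congr 1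
    ring
  rw [e1, D.leibniz_div, h1, h2]
  unfold tanP EE
  simp only [smul_eq_mul, eval_sub, eval_mul, eval_add, derivative_mul, derivative_sub]
  field_simp
  ring

/-- summation along the cycle -/
lemma bt17_sum (P Q : ℂ[X]) (Z : Finset ℂ) (β γ : ℂ → ℂ) (h : Inv P Q Z β γ) (x η : ℂ → ℂ)
    (hx : ∀ w ∈ Z, x (ev P Q w) = η w + derivAt P Q w * x w) :
    ∑ w ∈ Z, β w * (f2 P Q w * x w) = ∑ w ∈ Z, γ w * η w := by
  have perm : ∀ g : ℂ → ℂ, ∑ w ∈ Z, g (ev P Q w) = ∑ w ∈ Z, g w := by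
    intro g
    refine Finset.sum_nbij (ev P Q) h.mem ?_ ?_ (fun _ _ => rfl)
    · intro a ha b hb hab
      exact h.inj a ha b hb hab
    · exact Finset.surjOn_of_injOn_of_card_le (ev P Q) h.mem
        (fun a ha b hb hab => h.inj a ha b hb hab) le_rfl
  rw [← perm (fun w => β w * (f2 P Q w * x w))]
  have e1 : ∑ w ∈ Z, β (ev P Q w) * (f2 P Q (ev P Q w) * x (ev P Q w)) =
      ∑ w ∈ Z, γ w * x (ev P Q w) -
        ∑ w ∈ Z, γ (ev P Q w) * derivAt P Q (ev P Q w) * x (ev P Q w) := by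
    rw [← Finset.sum_sub_distrib]
    apply Finset.sum_congr rfl
    intro w hw
    have := h.gamma w hw
    rw [this]
    ring
  rw [e1, perm (fun w => γ w * derivAt P Q w * x w), ← Finset.sum_sub_distrib]
  apply Finset.sum_congr rfl
  intro w hw
  rw [hx w hw]
  ring

lemma bt17_LT (d : ℕ) (v : VI d → ℂ) (Z : Finset ℂ) (β γ : ℂ → ℂ) (δ : VI d → ℂ)
    (hZ : ∀ z ∈ Z, (nQ d v).eval z ≠ 0) :
    LT d v Z β γ δ = ∑ z ∈ Z, (β z * (((derivative (tanP d v δ)).eval z *
      ((nQ d v).eval z) ^ 2 - (tanP d v δ).eval z *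
        (2 * (nQ d v).eval z * (derivative (nQ d v)).eval z)) / ((nQ d v).eval z) ^ 4) +
      γ z * ((tanP d v δ).eval z / ((nQ d v).eval z) ^ 2)) := by
  unfold LT LF
  apply Finset.sum_congr rfl
  intro z hz
  rw [bt17_quot _ _ _ (hZ z hz)]

lemma bt17_tan_add (d : ℕ) (v δ e : VI d → ℂ) (t : ℂ) :
    tanP d v (fun i => δ i + t * e i) = tanP d v δ + C t * tanP d v e := by
  have h1 : nP d (fun i => δ i + t * e i) = nP d δ + C t * nP d e := by
    unfold nP
    rw [Finset.mul_sum, ← Finset.sum_add_distrib]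
    apply Finset.sum_congr rfl
    intro i _
    rw [C_add, C_mul]
    ring
  have h2 : nR d (fun i => δ i + t * e i) = nR d δ + C t * nR d e := by
    unfold nR
    rw [Finset.mul_sum, ← Finset.sum_add_distrib]
    apply Finset.sum_congr rfl
    intro i _
    rw [C_add, C_mul]
    ring
  unfold tanP
  rw [h1, h2]
  ring

lemma bt17_LT_add (d : ℕ) (v : VI d → ℂ) (Z : Finset ℂ) (β γ : ℂ → ℂ) (δ e : VI d → ℂ) (t : ℂ)
    (hZ : ∀ z ∈ Z, (nQ d v).eval z ≠ 0) :
    LT d v Z β γ (fun i => δ i + t * e i) = LT d v Z β γ δ + t * LT d v Z β γ e := by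
  rw [bt17_LT _ _ _ _ _ _ hZ, bt17_LT _ _ _ _ _ _ hZ, bt17_LT _ _ _ _ _ _ hZ, bt17_tan_add,
    Finset.mul_sum, ← Finset.sum_add_distrib]
  apply Finset.sum_congr rfl
  intro z hz
  have := hZ z hz
  simp only [derivative_add, derivative_mul, derivative_C, zero_mul, zero_add, eval_add, eval_mul,
    eval_C]
  ring

lemma bt17_LT_lin (d : ℕ) (v : VI d → ℂ) (Z : Finset ℂ) (β γ β' γ' : ℂ → ℂ) (c c' : ℂ)
    (δ : VI d → ℂ) :
    LT d v Z (fun z => c * β z + c' * β' z) (fun z => c * γ z + c' * γ' z) δ =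
      c * LT d v Z β γ δ + c' * LT d v Z β' γ' δ := by
  unfold LT LF
  rw [Finset.mul_sum, Finset.mul_sum, ← Finset.sum_add_distrib]
  apply Finset.sum_congr rfl
  intro z _
  ring

/-- the functional of a critical point vanishes on the values of derivations -/
lemma bt17_van (d : ℕ) (v : VI d → ℂ) (Z : Finset ℂ) (c : ℂ) (β γ : ℂ → ℂ)
    (h : Inv (nP d v) (nQ d v) Z β γ) (hβ : ∀ z, z ≠ c → β z = 0)
    (hcrit : derivAt (nP d v) (nQ d v) c = 0) (D : Derivation ℚ ℂ ℂ) :
    LT d v Z β γ (fun i => D (v i)) = 0 := by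
  have hs := bt17_sum (nP d v) (nQ d v) Z β γ h (fun w => D w)
    (fun w => (tanP d v (fun i => D (v i))).eval w / ((nQ d v).eval w) ^ 2)
    (fun w hw => bt17_ev D d v w (h.ne w hw))
  beta_reduce at hs
  have h1 : LT d v Z β γ (fun i => D (v i)) =
      ∑ w ∈ Z, β w * deriv (fun z => (tanP d v (fun i => D (v i))).eval z /
        ((nQ d v).eval z) ^ 2) w +
      ∑ w ∈ Z, γ w * ((tanP d v (fun i => D (v i))).eval w / ((nQ d v).eval w) ^ 2) := by
    unfold LT LF
    rw [Finset.sum_add_distrib]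
  rw [h1, ← hs, ← Finset.sum_add_distrib]
  have h2 : ∀ w ∈ Z, β w * deriv (fun z => (tanP d v (fun i => D (v i))).eval z /
        ((nQ d v).eval z) ^ 2) w + β w * (f2 (nP d v) (nQ d v) w * D w) = 0 := by
    intro w hw
    rw [← mul_add, ← bt17_dd D d v w (h.ne w hw)]
    by_cases hwc : w = c
    · rw [hwc, hcrit, map_zero, mul_zero]
    · rw [hβ w hwc, zero_mul]
  exact Finset.sum_eq_zero h2

lemma bt17_inv (P Q : ℂ[X]) (Z : Finset ℂ) (β γ β' γ' : ℂ → ℂ) (c c' : ℂ)
    (h : Inv P Q Z β γ) (h' : Inv P Q Z β' γ') :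
    Inv P Q Z (fun z => c * β z + c' * β' z) (fun z => c * γ z + c' * γ' z) where
  ne := h.ne
  mem := h.mem
  inj := h.inj
  beta := by
    intro z hz
    linear_combination c * h.beta z hz + c' * h'.beta z hz
  gamma := by
    intro z hz
    linear_combination c * h.gamma z hz + c' * h'.gamma z hz

theorem dbl (d m : ℕ) (hm : 1 ≤ m) (v : VI d → ℂ) (hv : Nf d v) (i₀ : VI d)
    (hi : AlgebraicIndependent ℚ (fun i : {i : VI d // i ≠ i₀} => v i.val)) (z₀ : ℂ)
    (h : PerX (nP d v) (nQ d v) m z₀) :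
    ∀ y ∈ orb (nP d v) (nQ d v) m z₀, ∀ y' ∈ orb (nP d v) (nQ d v) m z₀,
      derivAt (nP d v) (nQ d v) y = 0 → derivAt (nP d v) (nQ d v) y' = 0 → y = y' := by
  intro y hy y' hy' hcy hcy'
  by_contra hne
  obtain ⟨o1, o2, o3, o4, o5⟩ := orb_facts (nP d v) (nQ d v) m hm z₀ h
  have hmult : mult (nP d v) (nQ d v) m z₀ = 0 := by
    rw [o5]
    exact Finset.prod_eq_zero hy hcy
  have hm1 : mult (nP d v) (nQ d v) m z₀ ≠ 1 := by
    rw [hmult]
    exact zero_ne_one
  classical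
  have hex : ∀ c ∈ orb (nP d v) (nQ d v) m z₀, derivAt (nP d v) (nQ d v) c = 0 →
      ∃ γ : ℂ → ℂ, Inv (nP d v) (nQ d v) (orb (nP d v) (nQ d v) m z₀)
        (fun w => if w = c then 1 else 0) γ := by
    intro c hc hcc
    obtain ⟨γ, -, hγ⟩ := cycf (nP d v) (nQ d v) m hm z₀ h hm1
      (fun w => if w = c then 1 else 0) (by
        have hall : ∀ z, (if z = c then (1 : ℂ) else 0) * derivAt (nP d v) (nQ d v) z = 0 := by
          intro z
          split_ifs with hz
          · rw [hz, hcc, mul_zero]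
          · rw [zero_mul]
        intro z _
        rw [hall, hall])
    exact ⟨γ, hγ⟩
  obtain ⟨γ₁, hI1⟩ := hex y hy hcy
  obtain ⟨γ₂, hI2⟩ := hex y' hy' hcy'
  have hQ : ∀ z ∈ orb (nP d v) (nQ d v) m z₀, (nQ d v).eval z ≠ 0 := fun z hz => (o2 z hz).1
  have V1 := bt17_van d v _ y _ γ₁ hI1 (fun z hz => if_neg hz) hcy
  have V2 := bt17_van d v _ y' _ γ₂ hI2 (fun z hz => if_neg hz) hcy'
  set e : VI d → ℂ := fun i => if i = i₀ then 1 else 0 with he
  have hdec : ∀ δ : VI d → ℂ, ∃ (D : Derivation ℚ ℂ ℂ) (t : ℂ),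
      δ = fun i => D (v i) + t * e i := by
    intro δ
    obtain ⟨D, hD⟩ := der_exists (fun i : {i : VI d // i ≠ i₀} => v i.val) hi
      (fun i => δ i.val)
    refine ⟨D, δ i₀ - D (v i₀), ?_⟩
    funext i
    by_cases hii : i = i₀
    · rw [hii, he]
      simp
    · have := hD ⟨i, hii⟩
      rw [he]
      simp only [if_neg hii, mul_zero, add_zero]
      exact this.symm
  set L₁ := LT d v (orb (nP d v) (nQ d v) m z₀) (fun w => if w = y then 1 else 0) γ₁ e
    with hL₁
  set L₂ := LT d v (orb (nP d v) (nQ d v) m z₀) (fun w => if w = y' then 1 else 0) γ₂ e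
    with hL₂
  obtain ⟨c₁, c₂, hc0, hcL⟩ : ∃ c₁ c₂ : ℂ, (c₁ ≠ 0 ∨ c₂ ≠ 0) ∧ c₁ * L₁ + c₂ * L₂ = 0 := by
    by_cases h1 : L₂ = 0
    · by_cases h2 : L₁ = 0
      · exact ⟨1, 0, Or.inl one_ne_zero, by rw [h1, h2]; ring⟩
      · exact ⟨L₂, -L₁, Or.inr (neg_ne_zero.2 h2), by ring⟩
    · exact ⟨L₂, -L₁, Or.inl h1, by ring⟩
  have hk := kill d v hv (orb (nP d v) (nQ d v) m z₀) _ _
    (bt17_inv _ _ _ _ _ _ _ c₁ c₂ hI1 hI2) (by
      intro z hz
      refine ⟨m, hm, (o2 z hz).2.2.1.1.2, ?_⟩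
      rw [(o2 z hz).2.2.2, hmult, norm_zero]
      exact one_pos) (by
      intro δ
      obtain ⟨D, t, rfl⟩ := hdec δ
      rw [bt17_LT_lin, bt17_LT_add _ _ _ _ _ _ _ _ hQ, bt17_LT_add _ _ _ _ _ _ _ _ hQ, V1, V2,
        ← hL₁, ← hL₂]
      linear_combination t * hcL)
  have k1 := (hk y hy).1
  have k2 := (hk y' hy').1
  rw [if_pos rfl, if_neg hne] at k1
  rw [if_pos rfl, if_neg (fun h => hne h.symm)] at k2
  rcases hc0 with h0 | h0
  · apply h0
    linear_combination k1
  · apply h0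
    linear_combination k2

end Pool.Agent.LSF
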