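import Pool.Agent.LSF.BE4
import Pool.Agent.LSF.BF1
import Pool.Agent.LSF.BF0
import Pool.Agent.LSF.BG4
import Pool.Agent.LSF.BT14
import Pool.Agent.LSF.BT15
import Pool.Agent.LSF.BT17

/-!
BE9: transversality in the direction `i₀` at a parameter where the multiplier is an algebraic number.

Complete proofs. `A := Ao v i₀`, `w s := Function.update v i₀ s`, `v₀ := w s₀`.
`lt_basis`: `LT d v Z β γ δ` is linear in `δ`: `nP d δ`, `nR d δ`, hence `tanP d v δ` are linear in `δ`,
evaluation and `deriv` of `z ↦ (tanP d v δ).eval z / ((nQ d v).eval z)^2` are additive at the points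
`z ∈ Z` where `(nQ d v).eval z ≠ 0`. So if `LT .. (Pi.single j 1) = 0` for all `j` then `LT .. δ = 0`
for all `δ = ∑ j, δ j • Pi.single j 1`. Also `LT` of a sum and of a multiple (`lt_add`, `lt_smul`).
`s0_mem`: suppose `s₀ ∉ A`. `ext_trans` (BG3) gives `σ : ℂ ≃ₐ[A] ℂ` with `σ (v i₀) = s₀`, so
`v₀ = fun i => σ (v i)` (`aut_upd`). By `aut_px`, `XV d v₀ m = σ '' XV d v m`; the number
`μ := mu d v₀ m z₀ ∈ XV d v₀ m`, so `μ = σ x` with `x ∈ XV d v m`; `μ ∈ K0 ≤ A`, so `x = σ⁻¹ μ = μ ∈ A`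
(`σ` fixes `A`), in contradiction to `ao_facts` (`x ∉ A`).
`transv`: let `z₀ := Z s₀`, `μ := mu d v₀ m z₀ ∈ K0`, `‖μ‖ < 1`. `dbl` (BT17; the numbers `v₀ i = v i`,
`i ≠ i₀`, are algebraically independent, `AlgebraicIndependent.comp` with `Subtype.val`) shows that
there is at most one critical point in the orbit, `sing` (BT15) gives `γ`, `hI : Inv ..`, and `δ` with
`LT .. δ ≠ 0`. `muld` (BT14) with `v := w`, `δ := Pi.single i₀ 1`
(`HasDerivAt (fun s => Function.update v i₀ s) (Pi.single i₀ 1) s₀`, `hasDerivAt_pi` or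
`hasDerivAt_update`) gives
`deriv (fun s => mu d (w s) m (Z s)) s₀ = LT .. (Pi.single i₀ 1)`. Suppose this is `0`. By `lt_basis`
there is `j` with `LT .. (Pi.single j 1) ≠ 0`, so `j ≠ i₀`. Let `A' := ACL (v '' {i | i ≠ i₀ ∧ i ≠ j})`
and `τ := v j ∉ A'` (`ai_not_mem` and `acl_mono`). `s₀ ∈ A` (`s0_mem`), and
`A = ACL (v '' {i | i ≠ i₀}) ≤ ACL (insert τ A')` (`acl_le`, `acl_sub`), so `s₀ ∈ ACL (insert τ A')`,
and also `z₀ ∈ ACL (Set.range v₀) ≤ ACL (insert τ A')` (`px_acl`; `v₀ i = v i` or `s₀`).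
`slice_ext` (BG4) with `A'`, `t := τ`, the tuple `(s₀, z₀)` (`Fin 2`) gives `R > 0` and holomorphic
`Y 0`, `Y 1` on `ball τ R` with `Y 0 τ = s₀`, `Y 1 τ = z₀`, and for `s ∈ ball τ R`, `s ∉ A'`, an
automorphism `σ` over `A'` with `σ τ = s`, `σ s₀ = Y 0 s`, `σ z₀ = Y 1 s`. Put
`W s := Function.update (Function.update v j s) i₀ (Y 0 s)`; `W τ = v₀`, and for such `s`
`W s = fun i => σ (v₀ i)`, so (`aut_px`) `PX d (W s) m (Y 1 s)` and
`mu d (W s) m (Y 1 s) = σ μ = μ` (`μ ∈ K0 ≤ A'`), `Nf d (W s)`.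
`W` has the derivative `Pi.single j 1 + (deriv (Y 0) τ) • Pi.single i₀ 1` at `τ`. To apply `muld` to
`W`, `Y 1` at `τ`, with the same `γ` (`W τ = v₀`, `Y 1 τ = z₀`), we need
`(fv d (W s))^[m] (Y 1 s) = Y 1 s` for ALL `s` near `τ` (`hper`): `nQ d (W s)` does not vanish at the points
`(fv d (W s))^[i] (Y 1 s)`, `i < m`, for `s` near `τ` by continuity (it does not at `s = τ`, since
`PerX`; see `mu_diff` in BF1 for the continuity of these iterates), so both sides are continuous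
near `τ`, and they agree off the countable set `A'`, which has a dense complement.
(`mu_diff` (BF1) may be used on a small ball around `τ`.) Then the function
`s ↦ mu d (W s) m (Y 1 s)` has the derivative
`LT .. (Pi.single j 1) + deriv (Y 0) τ * LT .. (Pi.single i₀ 1) = LT .. (Pi.single j 1) ≠ 0` at `τ`.
But it is equal to `μ` at `τ` and at all `s ∉ A'` near `τ`; there is a sequence
`s_n → τ`, `s_n ≠ τ`, `s_n ∉ A'`, so the difference quotients along it are `0` and the derivative is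
`0` (`HasDerivAt.tendsto_slope`, uniqueness of limits along `nhdsWithin τ A'ᶜ ∩ {τ}ᶜ`, which is
nontrivial), a contradiction.
-/

namespace Pool.Agent.LSF

open Polynomial Pool.Agent.LenSpec Metric Filter

theorem tanP_add (d : ℕ) (v δ δ' : VI d → ℂ) : tanP d v (δ + δ') = tanP d v δ + tanP d v δ' := by
  have h1 : nP d (δ + δ') = nP d δ + nP d δ' := by
    simp [nP, Finset.sum_add_distrib, add_mul]
  have h2 : nR d (δ + δ') = nR d δ + nR d δ' := by
    simp [nR, Finset.sum_add_distrib, add_mul]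
  unfold tanP
  rw [h1, h2]
  ring

theorem tanP_smul (d : ℕ) (v : VI d → ℂ) (c : ℂ) (δ : VI d → ℂ) :
    tanP d v (c • δ) = C c * tanP d v δ := by
  have h1 : nP d (c • δ) = C c * nP d δ := by
    simp [nP, Finset.mul_sum, mul_assoc]
  have h2 : nR d (c • δ) = C c * nR d δ := by
    simp [nR, Finset.mul_sum, mul_assoc]
  unfold tanP
  rw [h1, h2]
  ring

theorem tan_diff (d : ℕ) (v δ : VI d → ℂ) (z : ℂ) (hz : (nQ d v).eval z ≠ 0) :
    DifferentiableAt ℂ (fun z => (tanP d v δ).eval z / ((nQ d v).eval z) ^ 2) z := by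
  refine DifferentiableAt.div (Polynomial.differentiableAt _)
    ((Polynomial.differentiableAt _).pow 2) (pow_ne_zero 2 hz)

theorem lt_lin (d : ℕ) (v : VI d → ℂ) (Z : Finset ℂ) (β γ : ℂ → ℂ)
    (hZ : ∀ z ∈ Z, (nQ d v).eval z ≠ 0) :
    (∀ δ δ', LT d v Z β γ (δ + δ') = LT d v Z β γ δ + LT d v Z β γ δ') ∧
    ∀ (c : ℂ) (δ), LT d v Z β γ (c • δ) = c * LT d v Z β γ δ := by
  constructor
  · intro δ δ'
    unfold LT LF
    rw [← Finset.sum_add_distrib]
    refine Finset.sum_congr rfl ?_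
    intro z hz
    have hfun : (fun z => (tanP d v (δ + δ')).eval z / ((nQ d v).eval z) ^ 2) =
        (fun z => (tanP d v δ).eval z / ((nQ d v).eval z) ^ 2) +
        (fun z => (tanP d v δ').eval z / ((nQ d v).eval z) ^ 2) := by
      funext w
      simp only [Pi.add_apply]
      rw [tanP_add, eval_add, add_div]
    rw [hfun, deriv_add (tan_diff d v δ z (hZ z hz)) (tan_diff d v δ' z (hZ z hz))]
    simp only [Pi.add_apply]
    ring
  · intro c δ
    unfold LT LF
    rw [Finset.mul_sum]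
    refine Finset.sum_congr rfl ?_
    intro z hz
    have hfun : (fun z => (tanP d v (c • δ)).eval z / ((nQ d v).eval z) ^ 2) =
        (fun z => c * ((tanP d v δ).eval z / ((nQ d v).eval z) ^ 2)) := by
      funext w
      rw [tanP_smul, eval_mul, eval_C, mul_div_assoc]
    rw [hfun, deriv_const_mul c (tan_diff d v δ z (hZ z hz))]
    ring

theorem lt_basis (d : ℕ) (v : VI d → ℂ) (Z : Finset ℂ) (β γ : ℂ → ℂ)
    (hZ : ∀ z ∈ Z, (nQ d v).eval z ≠ 0) (δ : VI d → ℂ) (hδ : LT d v Z β γ δ ≠ 0) :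
    ∃ j, LT d v Z β γ (Pi.single j 1) ≠ 0 := by
  classical
  by_contra hcon
  push Not at hcon
  apply hδ
  obtain ⟨hadd, hsmul⟩ := lt_lin d v Z β γ hZ
  let φ : (VI d → ℂ) →ₗ[ℂ] ℂ :=
    { toFun := fun δ => LT d v Z β γ δ
      map_add' := hadd
      map_smul' := by
        intro c x
        simpa using hsmul c x }
  have hφ : φ δ = 0 := by
    rw [LinearMap.pi_apply_eq_sum_univ φ δ]
    refine Finset.sum_eq_zero ?_
    intro i _
    have : (fun j => if i = j then (1 : ℂ) else 0) = Pi.single i 1 := by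
      funext j
      by_cases hij : i = j
      · subst hij
        simp
      · simp [hij, Ne.symm hij]
    rw [this]
    have h2 : φ (Pi.single i 1) = 0 := hcon i
    rw [h2, smul_zero]
  exact hφ

theorem s0_mem {d : ℕ} {MM : Set ℕ} {k : ℕ} {L : LinkD k} {v u : VI d → ℂ} {a : Fin k → ℂ}
    (h : GP d MM k L v u a) (i₀ : VI d) (m : ℕ) (hm : m ∈ MM) (s₀ z₀ : ℂ)
    (hz : PX d (Function.update v i₀ s₀) m z₀)
    (he : mu d (Function.update v i₀ s₀) m z₀ ∈ K0) : s₀ ∈ Ao v i₀ := by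
  by_contra hs
  obtain ⟨hAc, hAcount, hK, htA, hv, ha, hX⟩ := ao_facts h i₀
  obtain ⟨σ, hσ⟩ := ext_trans (Ao v i₀) hAcount hAc (v i₀) s₀ htA hs
  have hupd : (fun i => (σ : ℂ ≃+* ℂ) (v i)) = Function.update v i₀ s₀ := by
    have := aut_upd v i₀ σ
    rw [hσ] at this
    exact this
  obtain ⟨-, -, -, hXV, -, -⟩ := aut_px d (σ : ℂ ≃+* ℂ) v
  have h1 : mu d (Function.update v i₀ s₀) m z₀ ∈ XV d (fun i => (σ : ℂ ≃+* ℂ) (v i)) m := by
    rw [hupd]
    exact ⟨z₀, hz, rfl⟩
  rw [hXV m] at h1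
  obtain ⟨x, hx, hxe⟩ := h1
  have h2 : mu d (Function.update v i₀ s₀) m z₀ ∈ Ao v i₀ := hK he
  have h3 : σ (mu d (Function.update v i₀ s₀) m z₀) = mu d (Function.update v i₀ s₀) m z₀ :=
    σ.commutes ⟨_, h2⟩
  have h4 : σ x = σ (mu d (Function.update v i₀ s₀) m z₀) := by
    rw [h3]
    exact hxe
  have h5 : x = mu d (Function.update v i₀ s₀) m z₀ := σ.injective h4
  exact (hX m hm x hx).2 (h5 ▸ h2)


theorem dense_eq (A : Set ℂ) (hA : A.Countable) (τ : ℂ) (r : ℝ) (f : ℂ → ℂ) (c : ℂ)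
    (hf : ContinuousOn f (ball τ r)) (h : ∀ s ∈ ball τ r, s ∉ A → f s = c) :
    ∀ s ∈ ball τ r, f s = c := by
  intro s hs
  have hd : Dense (Aᶜ) := hA.dense_compl ℝ
  have hne : (nhdsWithin s Aᶜ).NeBot := mem_closure_iff_nhdsWithin_neBot.1 (hd s)
  have hc : ContinuousAt f s := hf.continuousAt (isOpen_ball.mem_nhds hs)
  have h1 : Tendsto f (nhdsWithin s Aᶜ) (nhds (f s)) := hc.tendsto.mono_left nhdsWithin_le_nhds
  have h2 : Tendsto f (nhdsWithin s Aᶜ) (nhds c) := by
    refine tendsto_const_nhds.congr' ?_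
    have h3 : ∀ᶠ x in nhdsWithin s Aᶜ, x ∈ Aᶜ := self_mem_nhdsWithin
    have h4 : ∀ᶠ x in nhdsWithin s Aᶜ, x ∈ ball τ r :=
      nhdsWithin_le_nhds (isOpen_ball.mem_nhds hs)
    filter_upwards [h3, h4] with x hx hx'
    exact (h x hx' hx).symm
  exact tendsto_nhds_unique h1 h2

theorem nQ_cont (d : ℕ) (W : ℂ → VI d → ℂ) (y : ℂ → ℂ) (τ : ℂ) (hW : ContinuousAt W τ)
    (hy : ContinuousAt y τ) : ContinuousAt (fun s => (nQ d (W s)).eval (y s)) τ := by
  have hfun : (fun s => (nQ d (W s)).eval (y s)) =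
      fun s => 1 + (∑ i : Fin (d - 1), W s (Sum.inr i) * y s ^ (i.val + 1)) + y s ^ d := by
    funext s
    simp [nQ, nR, eval_finsetSum]
  rw [hfun]
  have h1 : ∀ i : Fin (d - 1), ContinuousAt (fun s => W s (Sum.inr i)) τ :=
    fun i => (continuous_apply (Sum.inr i)).continuousAt.comp hW
  refine ContinuousAt.add (ContinuousAt.add continuousAt_const ?_) (hy.pow d)
  exact tendsto_finsetSum _ (fun i _ => (h1 i).mul (hy.pow (i.val + 1)))

theorem iter_hol (d m : ℕ) (W : ℂ → VI d → ℂ) (y : ℂ → ℂ) (τ : ℂ) (R : ℝ) (hR : 0 < R)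
    (hW : DifferentiableOn ℂ W (ball τ R)) (hy : DifferentiableOn ℂ y (ball τ R))
    (hne : ∀ k < m, (nQ d (W τ)).eval ((fv d (W τ))^[k] (y τ)) ≠ 0) :
    ∃ r > 0, r ≤ R ∧ ∀ s ∈ ball τ r, ∀ k < m,
      (nQ d (W s)).eval ((fv d (W s))^[k] (y s)) ≠ 0 := by
  induction m with
  | zero => exact ⟨R, hR, le_refl _, fun s _ k hk => absurd hk (Nat.not_lt_zero k)⟩
  | succ m ih =>
    obtain ⟨r, hr, hrR, hrs⟩ := ih (fun k hk => hne k (Nat.lt_succ_of_lt hk))
    have hsub : ball τ r ⊆ ball τ R := ball_subset_ball hrR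
    have h1 := (mu_diff d m (ball τ r) W (hW.mono hsub) y (hy.mono hsub) hrs).2 m le_rfl
    have hc : ContinuousAt (fun s => (nQ d (W s)).eval ((fv d (W s))^[m] (y s))) τ := by
      refine nQ_cont d W (fun s => (fv d (W s))^[m] (y s)) τ ?_ ?_
      · exact (hW.differentiableAt (isOpen_ball.mem_nhds (mem_ball_self hR))).continuousAt
      · exact (h1.differentiableAt (isOpen_ball.mem_nhds (mem_ball_self hr))).continuousAt
    have h2 := hc.eventually_ne (hne m (Nat.lt_succ_self m))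
    obtain ⟨r', hr', hr's⟩ := Metric.eventually_nhds_iff_ball.1 h2
    refine ⟨min r r', lt_min hr hr', (min_le_left _ _).trans hrR, ?_⟩
    intro s hs k hk
    have hsr : s ∈ ball τ r := ball_subset_ball (min_le_left _ _) hs
    have hsr' : s ∈ ball τ r' := ball_subset_ball (min_le_right _ _) hs
    rcases Nat.lt_succ_iff_lt_or_eq.1 hk with hk' | hk'
    · exact hrs s hsr k hk'
    · subst hk'
      exact hr's s hsr'

/-- a multiplier that stays constant along a curve of parameters -/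
theorem curve_zero {d : ℕ} {MM : Set ℕ} {k : ℕ} {L : LinkD k} {v u : VI d → ℂ} {a : Fin k → ℂ}
    (h : GP d MM k L v u a) (i₀ j : VI d) (hj : j ≠ i₀) (m : ℕ) (hm : m ∈ MM) (s₀ z₀ : ℂ)
    (hnf : Nf d (Function.update v i₀ s₀)) (hz : PX d (Function.update v i₀ s₀) m z₀)
    (he : mu d (Function.update v i₀ s₀) m z₀ ∈ K0) (γ : ℂ → ℂ)
    (hI : Inv (nP d (Function.update v i₀ s₀)) (nQ d (Function.update v i₀ s₀))
      (orb (nP d (Function.update v i₀ s₀)) (nQ d (Function.update v i₀ s₀)) m z₀)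
      (fun w => ∏ y ∈ (orb (nP d (Function.update v i₀ s₀)) (nQ d (Function.update v i₀ s₀))
        m z₀).erase w,
        derivAt (nP d (Function.update v i₀ s₀)) (nQ d (Function.update v i₀ s₀)) y) γ) :
    ∃ c : ℂ, LT d (Function.update v i₀ s₀)
      (orb (nP d (Function.update v i₀ s₀)) (nQ d (Function.update v i₀ s₀)) m z₀)
      (fun w => ∏ y ∈ (orb (nP d (Function.update v i₀ s₀)) (nQ d (Function.update v i₀ s₀))
        m z₀).erase w,
        derivAt (nP d (Function.update v i₀ s₀)) (nQ d (Function.update v i₀ s₀)) y) γ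
      (Pi.single j 1 + c • Pi.single i₀ 1) = 0 := by
  classical
  obtain ⟨hAc, hAcount, hK, htA, hv, ha, hX⟩ := ao_facts h i₀
  have hs₀ : s₀ ∈ Ao v i₀ := s0_mem h i₀ m hm s₀ z₀ hz he
  have hmp : m.Prime := h.prime m hm
  have hm1 : 1 ≤ m := hmp.one_lt.le
  have hA'c : IsAlgClosed (ACL (v '' {i | i ≠ i₀ ∧ i ≠ j})) := acl_isAlgClosed _
  have hA'count : (ACL (v '' {i | i ≠ i₀ ∧ i ≠ j}) : Set ℂ).Countable :=
    acl_countable _ ((Set.toFinite _).image _).countable
  have hτ : v j ∉ ACL (v '' {i | i ≠ i₀ ∧ i ≠ j}) := by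
    intro hcon
    exact ai_not_mem v h.aiv j (acl_mono _ _ (Set.image_mono (fun i hi => hi.2)) hcon)
  have hKA' : K0 ≤ ACL (v '' {i | i ≠ i₀ ∧ i ≠ j}) := acl_mono _ _ (Set.empty_subset _)
  have hmemA' : ∀ i, i ≠ i₀ → i ≠ j → v i ∈ ACL (v '' {i | i ≠ i₀ ∧ i ≠ j}) :=
    fun i h1 h2 => acl_sub _ ⟨i, ⟨h1, h2⟩, rfl⟩
  generalize ACL (v '' {i | i ≠ i₀ ∧ i ≠ j}) = A' at hA'c hA'count hτ hKA' hmemA'
  have hAo : Ao v i₀ ≤ ACL (insert (v j) (A' : Set ℂ)) := by
    apply acl_le
    rintro _ ⟨i, hi, rfl⟩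
    by_cases hij : i = j
    · subst hij
      exact acl_sub _ (Set.mem_insert _ _)
    · exact acl_sub _ (Set.mem_insert_of_mem _ (hmemA' i hi hij))
  have hz₀ : z₀ ∈ ACL (insert (v j) (A' : Set ℂ)) := by
    have h1 := (px_acl d m hm1 (Function.update v i₀ s₀) hnf z₀ hz).1
    have h2 : ACL (Set.range (Function.update v i₀ s₀)) ≤ ACL (insert (v j) (A' : Set ℂ)) := by
      apply acl_le
      rintro _ ⟨i, rfl⟩
      by_cases hi : i = i₀
      · subst hi
        rw [Function.update_self]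
        exact hAo hs₀
      · rw [Function.update_of_ne hi]
        exact hAo (acl_sub _ ⟨i, hi, rfl⟩)
    exact h2 h1
  obtain ⟨R, hR, Y, hYd, hYt, hYσ⟩ := slice_ext A' hA'count hA'c (v j) hτ 2 ![s₀, z₀] (by
    intro i
    fin_cases i
    · exact hAo hs₀
    · exact hz₀)
  have hY0 : Y 0 (v j) = s₀ := hYt 0
  have hY1 : Y 1 (v j) = z₀ := hYt 1
  set W : ℂ → VI d → ℂ := fun s => Function.update (Function.update v j s) i₀ (Y 0 s) with hW
  have hWτ : W (v j) = Function.update v i₀ s₀ := by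
    simp only [hW, hY0, Function.update_eq_self]
  have hgen : ∀ s ∈ ball (v j) R, s ∉ (A' : Set ℂ) → PX d (W s) m (Y 1 s) ∧
      mu d (W s) m (Y 1 s) = mu d (Function.update v i₀ s₀) m z₀ := by
    intro s hs hsA
    obtain ⟨σ, hσt, hσy⟩ := hYσ s hs hsA
    have hupd : (fun i => (σ : ℂ ≃+* ℂ) (Function.update v i₀ s₀ i)) = W s := by
      funext i
      by_cases hi : i = i₀
      · subst hi
        simp only [hW, Function.update_self]
        exact hσy 0
      · by_cases hij : i = j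
        · subst hij
          simp only [hW, Function.update_of_ne hi, Function.update_self]
          exact hσt
        · simp only [hW, Function.update_of_ne hi, Function.update_of_ne hij]
          exact σ.commutes ⟨v i, hmemA' i hi hij⟩
    obtain ⟨-, hmu, hPX, -, -, -⟩ := aut_px d (σ : ℂ ≃+* ℂ) (Function.update v i₀ s₀)
    rw [← hupd]
    have hy1 : (σ : ℂ ≃+* ℂ) z₀ = Y 1 s := hσy 1
    rw [← hy1]
    refine ⟨(hPX m z₀).2 hz, ?_⟩
    rw [hmu m z₀]
    exact σ.commutes ⟨mu d (Function.update v i₀ s₀) m z₀, hKA' he⟩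
  have hWd : DifferentiableOn ℂ W (ball (v j) R) := by
    rw [differentiableOn_pi]
    intro i
    by_cases hi : i = i₀
    · subst hi
      simpa [hW] using hYd 0
    · by_cases hij : i = j
      · subst hij
        simp only [hW, Function.update_of_ne hi, Function.update_self]
        exact differentiableOn_id
      · simp only [hW, Function.update_of_ne hi, Function.update_of_ne hij]
        exact differentiableOn_const _
  have hmemb : v j ∈ ball (v j) R := mem_ball_self hR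
  have hWder : HasDerivAt W (Pi.single j 1 + (deriv (Y 0) (v j)) • Pi.single i₀ 1) (v j) := by
    rw [hasDerivAt_pi]
    intro i
    by_cases hi : i = i₀
    · subst hi
      have h1 : HasDerivAt (Y 0) (deriv (Y 0) (v j)) (v j) :=
        ((hYd 0).differentiableAt (isOpen_ball.mem_nhds hmemb)).hasDerivAt
      simpa [hW, Pi.single_apply, Ne.symm hj] using h1
    · by_cases hij : i = j
      · subst hij
        simp only [hW, Function.update_of_ne hi, Function.update_self]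
        simpa [Pi.single_apply, hi] using hasDerivAt_id' (v i)
      · simp only [hW, Function.update_of_ne hi, Function.update_of_ne hij]
        simpa [Pi.single_apply, hi, hij] using hasDerivAt_const (v j) (v i)
  have hne0 : ∀ k < m, (nQ d (W (v j))).eval ((fv d (W (v j)))^[k] (Y 1 (v j))) ≠ 0 := by
    rw [hWτ, hY1]
    exact fun k _ => hz.1.1 k
  obtain ⟨r, hr, hrR, hrne⟩ := iter_hol d m W (Y 1) (v j) R hR hWd (hYd 1) hne0
  have hsub : ball (v j) r ⊆ ball (v j) R := ball_subset_ball hrR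
  obtain ⟨hmud, hitd⟩ := mu_diff d m (ball (v j) r) W (hWd.mono hsub) (Y 1) ((hYd 1).mono hsub) hrne
  have hper : ∀ s ∈ ball (v j) r, (fv d (W s))^[m] (Y 1 s) - Y 1 s = 0 := by
    refine dense_eq (A' : Set ℂ) hA'count (v j) r _ 0 ?_ ?_
    · exact ((hitd m le_rfl).sub ((hYd 1).mono hsub)).continuousOn
    · intro s hs hsA
      have h3 := (hgen s (hsub hs) hsA).1
      exact sub_eq_zero.2 h3.1.2
  have hmuc : ∀ s ∈ ball (v j) r, mu d (W s) m (Y 1 s) = mu d (Function.update v i₀ s₀) m z₀ := by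
    refine dense_eq (A' : Set ℂ) hA'count (v j) r _ _ hmud.continuousOn ?_
    intro s hs hsA
    exact (hgen s (hsub hs) hsA).2
  have hmemr : v j ∈ ball (v j) r := mem_ball_self hr
  have hder0 : HasDerivAt (fun s => mult (nP d (W s)) (nQ d (W s)) m (Y 1 s)) 0 (v j) := by
    refine (hasDerivAt_const (v j) (mu d (Function.update v i₀ s₀) m z₀)).congr_of_eventuallyEq ?_
    filter_upwards [isOpen_ball.mem_nhds hmemr] with s hs
    exact hmuc s hs
  refine ⟨deriv (Y 0) (v j), ?_⟩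
  have hY1d : HasDerivAt (Y 1) (deriv (Y 1) (v j)) (v j) :=
    ((hYd 1).differentiableAt (isOpen_ball.mem_nhds hmemb)).hasDerivAt
  have hmain := muld d m hm1 W _ (v j) hWder (Y 1) _ hY1d (by rw [hWτ, hY1]; exact hz) (by
    filter_upwards [isOpen_ball.mem_nhds hmemr] with s hs
    exact sub_eq_zero.1 (hper s hs)) γ (by rw [hWτ, hY1]; exact hI)
  rw [hWτ, hY1] at hmain
  exact hmain.unique hder0

theorem transv {d : ℕ} {MM : Set ℕ} {k : ℕ} {L : LinkD k} {v u : VI d → ℂ} {a : Fin k → ℂ}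
    (h : GP d MM k L v u a) (i₀ : VI d) (m : ℕ) (hm : m ∈ MM) (s₀ : ℂ)
    (hnf : Nf d (Function.update v i₀ s₀)) (ρ : ℝ) (hρ : 0 < ρ) (Z : ℂ → ℂ)
    (hZ : DifferentiableOn ℂ Z (ball s₀ ρ))
    (hper : ∀ s ∈ ball s₀ ρ, PX d (Function.update v i₀ s) m (Z s))
    (he : mu d (Function.update v i₀ s₀) m (Z s₀) ∈ K0)
    (h1 : ‖mu d (Function.update v i₀ s₀) m (Z s₀)‖ < 1) :
    deriv (fun s => mu d (Function.update v i₀ s) m (Z s)) s₀ ≠ 0 := by
  classical
  have hmp : m.Prime := h.prime m hm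
  have hm1 : 1 ≤ m := hmp.one_lt.le
  have hmem : s₀ ∈ ball s₀ ρ := mem_ball_self hρ
  have hz : PX d (Function.update v i₀ s₀) m (Z s₀) := hper s₀ hmem
  have hind : AlgebraicIndependent ℚ
      (fun i : {i : VI d // i ≠ i₀} => Function.update v i₀ s₀ i.val) := by
    have h2 : (fun i : {i : VI d // i ≠ i₀} => Function.update v i₀ s₀ i.val) =
        v ∘ (Subtype.val : {i : VI d // i ≠ i₀} → VI d) := by
      funext i
      simp [Function.update_of_ne i.2]
    rw [h2]
    exact h.aiv.comp _ Subtype.val_injective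
  have hcrit := dbl d m hm1 (Function.update v i₀ s₀) hnf i₀ hind (Z s₀) hz
  obtain ⟨γ, hI, δ, hδ⟩ := sing d m hm1 (Function.update v i₀ s₀) hnf (Z s₀) hz h1 hcrit
  have hZne := hI.ne
  have hupd : HasDerivAt (fun s => Function.update v i₀ s) (Pi.single i₀ 1) s₀ := by
    rw [hasDerivAt_pi]
    intro i
    by_cases hi : i = i₀
    · subst hi
      simpa using hasDerivAt_id' s₀
    · simp only [Function.update_of_ne hi]
      simpa [Pi.single_apply, hi] using hasDerivAt_const s₀ (v i)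
  have hZd : HasDerivAt Z (deriv Z s₀) s₀ :=
    (hZ.differentiableAt (isOpen_ball.mem_nhds hmem)).hasDerivAt
  have hmain := muld d m hm1 (fun s => Function.update v i₀ s) _ s₀ hupd Z _ hZd hz (by
    filter_upwards [isOpen_ball.mem_nhds hmem] with s hs
    exact (hper s hs).1.2) γ hI
  intro hcon
  have h0 := hmain.deriv
  have h00 : LT d (Function.update v i₀ s₀)
      (orb (nP d (Function.update v i₀ s₀)) (nQ d (Function.update v i₀ s₀)) m (Z s₀))
      (fun w => ∏ y ∈ (orb (nP d (Function.update v i₀ s₀)) (nQ d (Function.update v i₀ s₀))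
        m (Z s₀)).erase w,
        derivAt (nP d (Function.update v i₀ s₀)) (nQ d (Function.update v i₀ s₀)) y) γ
      (Pi.single i₀ 1) = 0 := by
    rw [← h0]
    exact hcon
  obtain ⟨j, hjne⟩ := lt_basis d _ _ _ γ hZne δ hδ
  have hji : j ≠ i₀ := by
    rintro rfl
    exact hjne h00
  obtain ⟨c, hc⟩ := curve_zero h i₀ j hji m hm s₀ (Z s₀) hnf hz he γ hI
  obtain ⟨hadd, hsmul⟩ := lt_lin d _ _ (fun w => ∏ y ∈ (orb (nP d (Function.update v i₀ s₀))
    (nQ d (Function.update v i₀ s₀)) m (Z s₀)).erase w,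
    derivAt (nP d (Function.update v i₀ s₀)) (nQ d (Function.update v i₀ s₀)) y) γ hZne
  rw [hadd, hsmul, h00, mul_zero, add_zero] at hc
  exact hjne hc

end Pool.Agent.LSF
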