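import Pool.Agent.LSF.BE3
import Pool.Agent.LSF.BE7
import Pool.Agent.LSF.BE8
import Pool.Agent.LSF.BE9
import Pool.Agent.LSF.BE10

/-!
BE11: near an algebraic point `e` of the disc, the points of the curve on a sequence tending to `e`
are given (infinitely often) by one meromorphic function.

Complete proof. Choose `x ∈ XV d v m` (nonempty by `h.card`). `conj_seq` (BE7) gives
`s₀ ∉ B`, `φ`, `σ`. `loc_branch` (BE8) (`σ j x = la (φ j) → e`) gives `ρ`, `Z`; put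
`La s := mu d (Function.update v i₀ s) m (Z s)`, `La s₀ = e`. `transv` (BE9): `deriv La s₀ ≠ 0`
(`e ∈ K0`, `‖e‖ < 1`). Let `r₁`, `N₁`, `Y` be from `hsp s₀` (the spread of `a`). Apply `inv_loc` (BE10) to
`La` on `ball s₀ (min ρ r₁)`: `ψ` on `ball e r`, values in `ball s₀ (min ρ r₁)`, `ψ (La s) = s` on
`ball s₀ ρ'`. For infinitely many `j` (the `∃ᶠ` of `loc_branch` and `σ j (v i₀) → s₀`):
`σ j (v i₀) ∈ ball s₀ ρ'`, `La (σ j (v i₀)) = σ j x = la (φ j)`, so `la (φ j) ∈ ball e r` and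
`ψ (la (φ j)) = σ j (v i₀)`; there is `q : Fin N₁` with `σ j (a i) = Y q i (σ j (v i₀))` for all `i`.
By the pigeonhole principle (`q` ranges over a finite type; `Filter.frequently_exists`-type
statement for finite types: if `∃ᶠ j, ∃ q, p q j` then `∃ q, ∃ᶠ j, p q j`, e.g. by contradiction with
`Filter.eventually_all`) one `q` works for infinitely many `j`. Put
`N λ := mev (L.N m) (fun i => Y q i (ψ λ)) λ`, `D λ := mev (L.D m) (fun i => Y q i (ψ λ)) λ`, holomorphic on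
`ball e r` (`mev F` is a polynomial in the entries: `MvPolynomial.aeval` as a finite sum of products,
induction on `F`, `MvPolynomial.induction_on`). For these `j`, with `σ := σ j` restricted to a
`K0`-automorphism (`K0 ≤ Ao v i₀`; `σ` fixes `K0`: build `ℂ ≃ₐ[K0] ℂ` from the ring automorphism, or
reprove `mev_aut`): `D (la (φ j)) = mev (L.D m) (σ ∘ a) (σ x) = σ (mev (L.D m) a x) ≠ 0` (`h.lnk`), and
`N / D` at `la (φ j)` is `σ (L.b m a x) = c (φ j)` (`mev_aut`, BG7). As `φ` is strictly monotone,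
infinitely many `j` give infinitely many indices `φ j` (`StrictMono.tendsto_atTop`,
`Filter.Tendsto.frequently`).
-/

namespace Pool.Agent.LSF

open Polynomial Pool.Agent.LenSpec Metric Filter

/-- values of a polynomial at holomorphic functions are holomorphic -/
theorem BE11_mev_diff {k : ℕ} (F : MvPolynomial (Option (Fin k)) K0) (f : Fin k → ℂ → ℂ)
    (g : ℂ → ℂ) (U : Set ℂ) (hf : ∀ i, DifferentiableOn ℂ (f i) U) (hg : DifferentiableOn ℂ g U) :
    DifferentiableOn ℂ (fun s => mev F (fun i => f i s) (g s)) U := by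
  unfold mev
  induction F using MvPolynomial.induction_on with
  | C a =>
    simp only [MvPolynomial.aeval_C]
    exact differentiableOn_const _
  | add p q hp hq =>
    simp only [map_add]
    exact hp.add hq
  | mul_X p o hp =>
    simp only [map_mul, MvPolynomial.aeval_X]
    refine hp.mul ?_
    cases o with
    | none => exact hg
    | some i => exact hf i

/-- an automorphism over a field containing `K0` is an automorphism over `K0` -/
theorem BE11_aut (A : IntermediateField ℚ ℂ) (hA : K0 ≤ A) (σ : ℂ ≃ₐ[A] ℂ) :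
    ∃ τ : ℂ ≃ₐ[K0] ℂ, ∀ z, τ z = σ z := by
  refine ⟨AlgEquiv.ofRingEquiv (f := (σ : ℂ ≃+* ℂ)) ?_, fun z => rfl⟩
  intro r
  have h1 : algebraMap K0 ℂ r = algebraMap A ℂ ⟨(r : ℂ), hA r.2⟩ := rfl
  rw [h1]
  exact σ.commutes _

theorem loc_mer {d : ℕ} {MM : Set ℕ} {k : ℕ} {L : LinkD k} {v u : VI d → ℂ} {a : Fin k → ℂ}
    (h : GP d MM k L v u a) (i₀ : VI d) (m : ℕ) (hm : m ∈ MM) (B : Finset ℂ)
    (hB : ∀ b ∈ B, ¬ Bd d v i₀ m (nhds b)) (hinf : ¬ Bd d v i₀ m (Bornology.cobounded ℂ))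
    (hnf : ∀ s, s ∉ B → Nf d (Function.update v i₀ s))
    (hsp : ∀ s₀, s₀ ∉ B → ∃ r > 0, ∃ (N : ℕ) (Y : Fin N → Fin k → ℂ → ℂ),
      (∀ q i, DifferentiableOn ℂ (Y q i) (ball s₀ r)) ∧
      ∀ σ : ℂ ≃ₐ[Ao v i₀] ℂ, σ (v i₀) ∈ ball s₀ r → ∃ q, ∀ i, σ (a i) = Y q i (σ (v i₀)))
    (Φ : Polynomial (Polynomial K0)) (hΦ : Irreducible Φ)
    (hrel : ∀ x ∈ XV d v m, ev2 Φ x (L.b m a x) = 0) (e : ℂ) (he : e ∈ K0) (he1 : ‖e‖ < 1)
    (la c : ℕ → ℂ) (hla : Tendsto la atTop (nhds e)) (hA : ∀ j, la j ∉ Ao v i₀)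
    (hc : ∀ j, ev2 Φ (la j) (c j) = 0) :
    ∃ r > 0, ∃ N D : ℂ → ℂ, DifferentiableOn ℂ N (ball e r) ∧ DifferentiableOn ℂ D (ball e r) ∧
      ∃ᶠ j in atTop, la j ∈ ball e r ∧ D (la j) ≠ 0 ∧ c j = N (la j) / D (la j) := by
  have hxne : (XV d v m).Nonempty := by
    apply Set.nonempty_of_ncard_ne_zero
    have := h.card m hm
    omega
  obtain ⟨x, hx⟩ := hxne
  obtain ⟨s₀, hs₀, φ, hφ, σ, hσ, hσt⟩ := conj_seq h i₀ m hm B hB hinf Φ hΦ x hx (hrel x hx) e he1 la c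
    hla hA hc
  have hσx : Tendsto (fun j => σ j x) atTop (nhds e) := by
    have h1 : (fun j => σ j x) = fun j => la (φ j) := funext fun j => (hσ j).1
    rw [h1]
    exact hla.comp hφ.tendsto_atTop
  obtain ⟨ρ, hρ, Z, hZ, hZper, hLd, hLe, hfr⟩ := loc_branch h i₀ m hm s₀ (hnf s₀ hs₀) x hx e he1 σ
    hσt hσx
  obtain ⟨La, hLa⟩ : ∃ La : ℂ → ℂ, La = fun s => mu d (Function.update v i₀ s) m (Z s) := ⟨_, rfl⟩
  have hLa0 : La s₀ = e := by
    rw [hLa]
    exact hLe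
  have hder : deriv La s₀ ≠ 0 := by
    rw [hLa]
    exact transv h i₀ m hm s₀ (hnf s₀ hs₀) ρ hρ Z hZ hZper (by rw [hLe]; exact he)
      (by rw [hLe]; exact he1)
  obtain ⟨r₁, hr₁, N₁, Y, hY, hYσ⟩ := hsp s₀ hs₀
  have hLd' : DifferentiableOn ℂ La (ball s₀ (min ρ r₁)) := by
    rw [hLa]
    exact hLd.mono (ball_subset_ball (min_le_left _ _))
  obtain ⟨r, hr, ρ', hρ', hρle, ψ, hψd, hψ1, hψ2⟩ := inv_loc La s₀ (min ρ r₁) (lt_min hρ hr₁) hLd'
    hder
  rw [hLa0] at hψd hψ1 hψ2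
  have hev : ∀ᶠ j in atTop, σ j (v i₀) ∈ ball s₀ ρ' := hσt (ball_mem_nhds s₀ hρ')
  have hfr2 : ∃ᶠ j in atTop, ∃ q : Fin N₁, σ j (v i₀) ∈ ball s₀ ρ' ∧
      La (σ j (v i₀)) = σ j x ∧ ∀ i, σ j (a i) = Y q i (σ j (v i₀)) := by
    refine (hfr.and_eventually hev).mono ?_
    rintro j ⟨⟨_, h2⟩, h3⟩
    have h4 : σ j (v i₀) ∈ ball s₀ r₁ :=
      ball_subset_ball (hρle.trans (min_le_right _ _)) h3
    obtain ⟨q, hq⟩ := hYσ (σ j) h4
    refine ⟨q, h3, ?_, hq⟩
    rw [hLa]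
    exact h2
  have hfr3 : ∃ q : Fin N₁, ∃ᶠ j in atTop, σ j (v i₀) ∈ ball s₀ ρ' ∧
      La (σ j (v i₀)) = σ j x ∧ ∀ i, σ j (a i) = Y q i (σ j (v i₀)) := by
    by_contra hcon
    push Not at hcon
    apply hfr2
    have h5 : ∀ᶠ j in atTop, ∀ q : Fin N₁, ¬ (σ j (v i₀) ∈ ball s₀ ρ' ∧
      La (σ j (v i₀)) = σ j x ∧ ∀ i, σ j (a i) = Y q i (σ j (v i₀))) := by
      rw [eventually_all]
      intro q
      exact not_frequently.1 (not_frequently.2 (by
        refine (hcon q).mono ?_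
        intro j hj hh
        obtain ⟨i, hi⟩ := hj hh.1 hh.2.1
        exact hi (hh.2.2 i)))
    refine h5.mono ?_
    rintro j hj ⟨q, hq⟩
    exact hj q hq
  obtain ⟨q, hq⟩ := hfr3
  refine ⟨r, hr, fun l => mev (L.N m) (fun i => Y q i (ψ l)) l,
    fun l => mev (L.D m) (fun i => Y q i (ψ l)) l, ?_, ?_, ?_⟩
  · refine BE11_mev_diff (L.N m) _ _ _ (fun i => ?_) differentiableOn_id
    refine (hY q i).comp hψd ?_
    intro y hy
    exact ball_subset_ball (min_le_right _ _) (hψ1 y hy).1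
  · refine BE11_mev_diff (L.D m) _ _ _ (fun i => ?_) differentiableOn_id
    refine (hY q i).comp hψd ?_
    intro y hy
    exact ball_subset_ball (min_le_right _ _) (hψ1 y hy).1
  · refine hφ.tendsto_atTop.frequently (hq.mono ?_)
    rintro j ⟨h3, h4, h5⟩
    have hlaj : La (σ j (v i₀)) = la (φ j) := h4.trans (hσ j).1
    have h6 := hψ2 _ h3
    rw [hlaj] at h6
    obtain ⟨τ, hτ⟩ := BE11_aut (Ao v i₀) (ao_facts h i₀).2.2.1 (σ j)
    have hfun : (fun i => Y q i (ψ (la (φ j)))) = fun i => τ (a i) := by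
      funext i
      rw [h6.2, hτ, h5 i]
    have hx' : la (φ j) = τ x := by
      rw [hτ, (hσ j).1]
    have hD : mev (L.D m) (fun i => Y q i (ψ (la (φ j)))) (la (φ j)) = τ (mev (L.D m) a x) := by
      rw [hfun, hx']
      exact mev_aut τ (L.D m) a x
    have hN : mev (L.N m) (fun i => Y q i (ψ (la (φ j)))) (la (φ j)) = τ (mev (L.N m) a x) := by
      rw [hfun, hx']
      exact mev_aut τ (L.N m) a x
    refine ⟨h6.1, ?_, ?_⟩
    · show mev (L.D m) (fun i => Y q i (ψ (la (φ j)))) (la (φ j)) ≠ 0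
      rw [hD]
      exact fun h0 => (h.lnk m hm x hx).1 ((map_eq_zero τ).1 h0)
    · show c (φ j) = mev (L.N m) (fun i => Y q i (ψ (la (φ j)))) (la (φ j)) /
        mev (L.D m) (fun i => Y q i (ψ (la (φ j)))) (la (φ j))
      rw [hD, hN, ← map_div₀, ← (hσ j).2, ← hτ]
      rfl

end Pool.Agent.LSF
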