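import Pool.Agent.LSF.BE2
import Pool.Agent.LSF.BA6

/-!
BE12: if every sequence of points of the curve over a sequence tending to `e` is infinitely often on
the graph of a meromorphic function, then the curve has no ramification at `e`.

Complete proof. Let `F := nrmF Φ` (`nrm_pf`), `D₀ := Φ.natDegree`, `l := lcF Φ`. By `nrm_simple` the
roots of `F s` are simple and `l s ≠ 0` off a finite set, so for all `s ≠ e` near `e`; `puiseux` (BA6,
`U = univ`) gives `M ≥ 1`, `r₀ > 0` and `z : Fin D₀ → ℂ → ℂ` holomorphic on `ball 0 r₀` with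
`(F (e + τ^M)).roots = {z i τ}`. Fix `i`. As `A` is countable there is a sequence `τ_j → 0`,
`τ_j ≠ 0`, `τ_j ∈ ball 0 r₀`, `e + τ_j^M ∉ A` and `l (e + τ_j^M) ≠ 0` (the preimage of a countable set
under `τ ↦ e + τ^M` is countable, each fibre is finite; every ball contains uncountably many
points). Put `la j := e + τ_j^M → e`, `c j := z i (τ_j) / l (la j)`. By `nrm_root`
`ev2 Φ (la j) (c j) = 0` (`l * c = z i τ_j` is a root of `F (la j)`). The hypothesis `H` gives `r`, `N`,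
`D`, and infinitely many `j` with `D (la j) ≠ 0`, `c j = N (la j) / D (la j)`, i.e.
`z i (τ_j) D (e + τ_j^M) = l (e + τ_j^M) N (e + τ_j^M)`. Both sides are holomorphic functions of `τ`
near `0`, they agree at infinitely many points `τ_j → 0`, `τ_j ≠ 0`, so they agree near `0`
(identity theorem: `AnalyticAt.frequently_eq_iff_eventually_eq`, with `∃ᶠ τ in nhdsWithin 0 {0}ᶜ`). `D`
does not vanish identically near `e`, so `D (s) ≠ 0` for `s ≠ e` near `e`
(`AnalyticAt.eventually_eq_zero_or_eventually_ne_zero`). Put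
`W i s := l s * N s / D s` for `s ≠ e` near `e`: holomorphic on a punctured ball `ball e r₁ \ {e}`, and
`W i (e + τ^M) = z i τ` for small `τ ≠ 0`, so it is bounded near `e` (every `s` near `e` is `e + τ^M`,
`τ` small: `IsAlgClosed.exists_pow_nat_eq`, `‖τ‖ = ‖s - e‖^(1/M)`), so it extends holomorphically to `e`
(`Complex.differentiableOn_update_limUnder_of_bddAbove`); call the extension `W i` again;
by continuity `W i e = z i 0`. Take the minimum of the radii over `i : Fin D₀` (`D₀ ≥ 1`). For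
`s ∈ ball e r₂` write `s = e + τ^M`, `τ ∈ ball 0 r₀`:
`(F s).roots = {z i τ} = {W i s}` (`Multiset.map_congr`). This is `RegAt`.
-/

namespace Pool.Agent.LSF

open Polynomial Metric Filter

theorem pui_reg_seq (A : Set ℂ) (hA : A.Countable) (e : ℂ) (M : ℕ) (hM : 1 ≤ M) (r₀ : ℝ)
    (hr : 0 < r₀) :
    ∃ τ : ℕ → ℂ, Tendsto τ atTop (nhds 0) ∧
      ∀ j, τ j ≠ 0 ∧ τ j ∈ ball (0 : ℂ) r₀ ∧ e + τ j ^ M ∉ A := by
  have h1 : ({τ : ℂ | e + τ ^ M ∈ A} ∪ {0}).Countable := by
    apply Set.Countable.union _ (Set.countable_singleton 0)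
    have h2 : {τ : ℂ | e + τ ^ M ∈ A} ⊆ ⋃ a ∈ A, {τ : ℂ | τ ^ M = a - e} := by
      intro τ hτ
      simp only [Set.mem_iUnion]
      exact ⟨e + τ ^ M, hτ, by simp⟩
    apply Set.Countable.mono h2
    apply hA.biUnion
    intro a ha
    apply Set.Finite.countable
    apply Set.Finite.subset (Finset.finite_toSet (Polynomial.nthRoots M (a - e)).toFinset)
    intro τ hτ
    simp only [Finset.mem_coe, Multiset.mem_toFinset]
    rw [Polynomial.mem_nthRoots (by omega)]
    exact hτ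
  have h3 : ∀ j : ℕ, ∃ t : ℂ, t ∈ ball (0 : ℂ) (min r₀ (1 / ((j : ℝ) + 1))) ∧
      t ∉ ({τ : ℂ | e + τ ^ M ∈ A} ∪ {0}) := by
    intro j
    have h4 : 0 < min r₀ (1 / ((j : ℝ) + 1)) := lt_min hr (by positivity)
    obtain ⟨t, ht, ht2⟩ := (h1.dense_compl ℂ).inter_open_nonempty
      (ball (0 : ℂ) (min r₀ (1 / ((j : ℝ) + 1)))) isOpen_ball ⟨0, mem_ball_self h4⟩
    exact ⟨t, ht, ht2⟩
  choose τ hτ1 hτ2 using h3
  refine ⟨τ, ?_, ?_⟩
  · rw [tendsto_zero_iff_norm_tendsto_zero]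
    apply squeeze_zero (fun j => norm_nonneg _) (g := fun j : ℕ => 1 / ((j : ℝ) + 1))
    · intro j
      have h5 := hτ1 j
      rw [mem_ball_zero_iff] at h5
      exact (h5.trans_le (min_le_right _ _)).le
    · exact tendsto_one_div_add_atTop_nhds_zero_nat
  · intro j
    refine ⟨?_, ?_, ?_⟩
    · intro h
      exact hτ2 j (Or.inr h)
    · exact ball_subset_ball (min_le_left _ _) (hτ1 j)
    · intro h
      exact hτ2 j (Or.inl h)

theorem pui_reg_one (e : ℂ) (M : ℕ) (hM : 1 ≤ M) (r₀ : ℝ) (hr₀ : 0 < r₀) (z l : ℂ → ℂ)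
    (hz : DifferentiableOn ℂ z (ball 0 r₀)) (hl : Differentiable ℂ l)
    (τ : ℕ → ℂ) (hτ : Tendsto τ atTop (nhds 0)) (hτ0 : ∀ j, τ j ≠ 0)
    (hτl : ∀ j, l (e + τ j ^ M) ≠ 0)
    (r : ℝ) (hr : 0 < r) (N D : ℂ → ℂ) (hN : DifferentiableOn ℂ N (ball e r))
    (hD : DifferentiableOn ℂ D (ball e r))
    (hf : ∃ᶠ j in atTop, e + τ j ^ M ∈ ball e r ∧ D (e + τ j ^ M) ≠ 0 ∧
      z (τ j) / l (e + τ j ^ M) = N (e + τ j ^ M) / D (e + τ j ^ M)) :
    ∃ r₁ > 0, ∃ W : ℂ → ℂ, DifferentiableOn ℂ W (ball e r₁) ∧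
      ∀ t : ℂ, e + t ^ M ∈ ball e r₁ → W (e + t ^ M) = z t := by
  have hM0 : M ≠ 0 := by omega
  let P : ℂ → ℂ := fun t => e + t ^ M
  have hPd : Differentiable ℂ P := by
    intro t
    apply DifferentiableAt.const_add
    exact differentiableAt_id.pow M
  have hP0 : P 0 = e := by simp [P, hM0]
  let O : Set ℂ := ball 0 r₀ ∩ P ⁻¹' ball e r
  have hO : IsOpen O := isOpen_ball.inter (isOpen_ball.preimage hPd.continuous)
  have h0O : (0 : ℂ) ∈ O := by
    refine ⟨mem_ball_self hr₀, ?_⟩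
    change P 0 ∈ ball e r
    rw [hP0]
    exact mem_ball_self hr
  let f : ℂ → ℂ := fun t => z t * D (P t) - l (P t) * N (P t)
  have hfd : DifferentiableOn ℂ f O := by
    apply DifferentiableOn.sub
    · exact (hz.mono Set.inter_subset_left).mul
        (hD.comp hPd.differentiableOn (fun t ht => ht.2))
    · exact (hl.comp hPd).differentiableOn.mul
        (hN.comp hPd.differentiableOn (fun t ht => ht.2))
  have hfa : AnalyticAt ℂ f 0 := hfd.analyticAt (hO.mem_nhds h0O)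
  have hf0 : ∀ᶠ t in nhds (0 : ℂ), f t = 0 := by
    rw [← hfa.frequently_zero_iff_eventually_zero]
    have h1 : Tendsto τ atTop (nhdsWithin 0 {0}ᶜ) :=
      tendsto_nhdsWithin_iff.2 ⟨hτ, Filter.Eventually.of_forall hτ0⟩
    apply h1.frequently
    apply hf.mono
    rintro j ⟨-, h2, h3⟩
    change z (τ j) * D (e + τ j ^ M) - l (e + τ j ^ M) * N (e + τ j ^ M) = 0
    rw [div_eq_div_iff (hτl j) h2] at h3
    rw [h3]
    ring
  have hDa : AnalyticAt ℂ D e := hD.analyticAt (ball_mem_nhds e hr)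
  have hDn : ∀ᶠ s in nhdsWithin e {e}ᶜ, D s ≠ 0 := by
    rcases hDa.eventually_eq_zero_or_eventually_ne_zero with h | h
    · exfalso
      have h1 : Tendsto (fun j => P (τ j)) atTop (nhds e) := by
        have h2 := (hPd.continuous.tendsto 0).comp hτ
        rw [hP0] at h2
        exact h2
      have h3 := h1.eventually h
      obtain ⟨j, hj1, hj2⟩ := (hf.and_eventually h3).exists
      exact hj1.2.1 hj2
    · exact h
  -- a ball for the parameter
  have hzc : ContinuousAt z 0 := hz.continuousOn.continuousAt (ball_mem_nhds 0 hr₀)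
  have hzb : ∀ᶠ t in nhds (0 : ℂ), ‖z t‖ < ‖z 0‖ + 1 :=
    hzc.norm.eventually (gt_mem_nhds (by simp))
  obtain ⟨ε, hε, hεb⟩ := Metric.eventually_nhds_iff_ball.1
    ((hf0.and hzb).and (ball_mem_nhds (0 : ℂ) hr₀))
  rw [eventually_nhdsWithin_iff] at hDn
  obtain ⟨δ, hδ, hδb⟩ := Metric.eventually_nhds_iff_ball.1 hDn
  have hεM : 0 < ε ^ M := pow_pos hε M
  refine ⟨min (min r δ) (ε ^ M), lt_min (lt_min hr hδ) hεM, ?_⟩
  set r₁ := min (min r δ) (ε ^ M) with hr₁
  have hr₁0 : 0 < r₁ := lt_min (lt_min hr hδ) hεM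
  have ht : ∀ t : ℂ, e + t ^ M ∈ ball e r₁ → t ∈ ball (0 : ℂ) ε := by
    intro t h
    rw [mem_ball_iff_norm] at h
    have h1 : ‖t‖ ^ M < ε ^ M := by
      calc ‖t‖ ^ M = ‖e + t ^ M - e‖ := by rw [← norm_pow]; congr 1; ring
        _ < r₁ := h
        _ ≤ ε ^ M := min_le_right _ _
    rw [mem_ball_zero_iff]
    exact lt_of_pow_lt_pow_left₀ M hε.le h1
  let W₀ : ℂ → ℂ := fun s => l s * N s / D s
  have hsub : ball e r₁ ⊆ ball e r :=
    ball_subset_ball ((min_le_left _ _).trans (min_le_left _ _))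
  have hsubδ : ball e r₁ ⊆ ball e δ :=
    ball_subset_ball ((min_le_left _ _).trans (min_le_right _ _))
  have hW₀d : DifferentiableOn ℂ W₀ (ball e r₁ \ {e}) := by
    apply DifferentiableOn.div
    · exact hl.differentiableOn.mul (hN.mono (Set.sdiff_subset.trans hsub))
    · exact hD.mono (Set.sdiff_subset.trans hsub)
    · intro s hs
      exact hδb s (hsubδ hs.1) hs.2
  have hWz : ∀ t : ℂ, t ≠ 0 → e + t ^ M ∈ ball e r₁ → W₀ (e + t ^ M) = z t := by
    intro t ht0 hte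
    have h1 := (hεb t (ht t hte)).1.1
    change z t * D (e + t ^ M) - l (e + t ^ M) * N (e + t ^ M) = 0 at h1
    have h2 : D (e + t ^ M) ≠ 0 := by
      apply hδb _ (hsubδ hte)
      intro h3
      have h4 : e + t ^ M = e := h3
      have h5 : t ^ M = 0 := by
        have := add_eq_left.1 h4
        exact this
      exact pow_ne_zero M ht0 h5
    change l (e + t ^ M) * N (e + t ^ M) / D (e + t ^ M) = z t
    rw [div_eq_iff h2]
    exact (sub_eq_zero.1 h1).symm
  have hroot : ∀ s : ℂ, ∃ t : ℂ, e + t ^ M = s := by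
    intro s
    obtain ⟨t, ht⟩ := IsAlgClosed.exists_pow_nat_eq (s - e) (n := M) (by omega)
    exact ⟨t, by rw [ht]; ring⟩
  have hWd : DifferentiableOn ℂ (Function.update W₀ e (Filter.limUnder (nhdsWithin e {e}ᶜ) W₀))
      (ball e r₁) := by
    apply Complex.differentiableOn_update_limUnder_of_bddAbove (ball_mem_nhds e hr₁0) hW₀d
    refine ⟨‖z 0‖ + 1, ?_⟩
    rintro _ ⟨s, hs, rfl⟩
    obtain ⟨t, rfl⟩ := hroot s
    have ht0 : t ≠ 0 := by
      rintro rfl
      apply hs.2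
      simp [hM0]
    change ‖W₀ (e + t ^ M)‖ ≤ _
    rw [hWz t ht0 hs.1]
    exact (hεb t (ht t hs.1)).1.2.le
  refine ⟨_, hWd, ?_⟩
  intro t hte
  by_cases ht0 : t = 0
  · subst ht0
    have h1 : (e + 0 ^ M : ℂ) = e := by simp [hM0]
    rw [h1]
    set W := Function.update W₀ e (Filter.limUnder (nhdsWithin e {e}ᶜ) W₀) with hW
    have hWc : ContinuousAt W e :=
      hWd.continuousOn.continuousAt (ball_mem_nhds e hr₁0)
    have h2 : Tendsto (fun t => W (P t)) (nhdsWithin 0 {0}ᶜ) (nhds (W e)) := by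
      have h3 : Tendsto P (nhds 0) (nhds e) := by
        have h4 := hPd.continuous.tendsto 0
        rw [hP0] at h4
        exact h4
      exact (hWc.tendsto.comp h3).mono_left nhdsWithin_le_nhds
    have h5 : Tendsto z (nhdsWithin 0 {0}ᶜ) (nhds (z 0)) :=
      hzc.tendsto.mono_left nhdsWithin_le_nhds
    apply tendsto_nhds_unique (h2.congr' ?_) h5
    have h6 : ∀ᶠ t in nhdsWithin (0 : ℂ) {0}ᶜ, P t ∈ ball e r₁ := by
      apply Filter.Eventually.filter_mono nhdsWithin_le_nhds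
      apply hPd.continuous.continuousAt.eventually_mem
      rw [hP0]
      exact ball_mem_nhds e hr₁0
    filter_upwards [h6, self_mem_nhdsWithin] with t h7 h8
    have h9 : P t ≠ e := by
      intro h10
      have h11 : t ^ M = 0 := add_eq_left.1 (show e + t ^ M = e from h10)
      exact pow_ne_zero M h8 h11
    rw [hW, Function.update_of_ne h9]
    exact hWz t h8 h7
  · have h9 : e + t ^ M ≠ e := by
      intro h10
      have h11 : t ^ M = 0 := add_eq_left.1 h10
      exact pow_ne_zero M ht0 h11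
    rw [Function.update_of_ne h9]
    exact hWz t ht0 hte

theorem pui_reg (k : IntermediateField ℚ ℂ) (hk : IsAlgClosed k)
    (Φ : Polynomial (Polynomial k)) (hΦ : Irreducible Φ) (hd : 0 < Φ.natDegree)
    (A : Set ℂ) (hA : A.Countable) (e : ℂ)
    (H : ∀ la c : ℕ → ℂ, Tendsto la atTop (nhds e) → (∀ j, la j ∉ A) →
      (∀ j, ev2 Φ (la j) (c j) = 0) →
      ∃ r > 0, ∃ N D : ℂ → ℂ, DifferentiableOn ℂ N (ball e r) ∧
        DifferentiableOn ℂ D (ball e r) ∧
        ∃ᶠ j in atTop, la j ∈ ball e r ∧ D (la j) ≠ 0 ∧ c j = N (la j) / D (la j)) :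
    RegAt Φ.natDegree (nrmF Φ) e := by
  classical
  obtain ⟨B, -, hB⟩ := nrm_simple k hk Φ hΦ hd
  have hs : ∀ᶠ s in nhdsWithin e {e}ᶜ, (nrmF Φ s).roots.Nodup := by
    rw [eventually_nhdsWithin_iff]
    have h1 : ((B : Set ℂ) \ {e})ᶜ ∈ nhds e :=
      ((B.finite_toSet.subset Set.sdiff_subset).isClosed.isOpen_compl).mem_nhds (by simp)
    filter_upwards [h1] with s hs hse
    apply (hB s _).2
    intro hsB
    exact hs ⟨hsB, hse⟩
  obtain ⟨M, r₀, z, hP, -⟩ := puiseux isOpen_univ (nrm_pf k Φ hΦ.ne_zero) e (Set.mem_univ e) hs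
  have hM := hP.posM
  have hM0 : M ≠ 0 := by omega
  obtain ⟨τ, hτ, hτ2⟩ := pui_reg_seq (A ∪ B) (hA.union B.countable_toSet) e M hM r₀ hP.posr
  have hτl : ∀ j, lcF Φ (e + τ j ^ M) ≠ 0 := fun j =>
    (hB _ (fun h => (hτ2 j).2.2 (Or.inr h))).1
  have hPt : Tendsto (fun j => e + τ j ^ M) atTop (nhds e) := by
    have h1 : Tendsto (fun j => e + τ j ^ M) atTop (nhds (e + 0 ^ M)) :=
      (hτ.pow M).const_add e
    simpa [hM0] using h1
  have key : ∀ i : Fin Φ.natDegree, ∃ r₁ > 0, ∃ W : ℂ → ℂ, DifferentiableOn ℂ W (ball e r₁) ∧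
      ∀ t : ℂ, e + t ^ M ∈ ball e r₁ → W (e + t ^ M) = z i t := by
    intro i
    obtain ⟨r, hr, N, D, hN, hD, hf⟩ := H (fun j => e + τ j ^ M)
      (fun j => z i (τ j) / lcF Φ (e + τ j ^ M)) hPt
      (fun j h => (hτ2 j).2.2 (Or.inl h)) (by
        intro j
        rw [← nrm_root k Φ hd _ (hτl j)]
        rw [mul_div_cancel₀ _ (hτl j)]
        have h1 := hP.roots (τ j) (hτ2 j).2.1
        have h2 : z i (τ j) ∈ (nrmF Φ (e + τ j ^ M)).roots := by
          rw [h1, Multiset.mem_map]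
          exact ⟨i, Finset.mem_univ_val i, rfl⟩
        exact (Polynomial.mem_roots'.1 h2).2)
    exact pui_reg_one e M hM r₀ hP.posr (z i) (lcF Φ) (hP.diff i) (lc_diff k Φ) τ hτ
      (fun j => (hτ2 j).1) hτl r hr N D hN hD hf
  choose ρ hρ W hWd hW using key
  have h1 : ∀ᶠ x in nhdsWithin (0 : ℝ) (Set.Ioi 0), ∀ i, x < ρ i := by
    rw [Filter.eventually_all]
    intro i
    exact Filter.Eventually.filter_mono nhdsWithin_le_nhds (gt_mem_nhds (hρ i))
  have h2 : ∀ᶠ x in nhdsWithin (0 : ℝ) (Set.Ioi 0), x < r₀ ^ M :=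
    Filter.Eventually.filter_mono nhdsWithin_le_nhds (gt_mem_nhds (pow_pos hP.posr M))
  obtain ⟨x, ⟨hx1, hx2⟩, hx3⟩ := ((h1.and h2).and self_mem_nhdsWithin).exists
  have hx : 0 < x := hx3
  refine ⟨x, hx, W, ?_, ?_⟩
  · intro i
    exact (hWd i).mono (ball_subset_ball (hx1 i).le)
  · intro s hs
    obtain ⟨t, ht⟩ := IsAlgClosed.exists_pow_nat_eq (s - e) (n := M) (by omega)
    have hst : e + t ^ M = s := by rw [ht]; ring
    have htr : t ∈ ball (0 : ℂ) r₀ := by
      rw [mem_ball_zero_iff]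
      apply lt_of_pow_lt_pow_left₀ M hP.posr.le
      rw [← norm_pow, ht]
      rw [mem_ball_iff_norm] at hs
      exact hs.trans hx2
    have h3 := hP.roots t htr
    rw [hst] at h3
    rw [h3]
    apply Multiset.map_congr rfl
    intro i _
    have h4 := hW i t (by rw [hst]; exact ball_subset_ball (hx1 i).le hs)
    rw [hst] at h4
    exact h4.symm

end Pool.Agent.LSF
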