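import Mathlib

/-!
BE13: a meromorphic function on the disc whose modulus is `1` only on a countable set and less than
`1` somewhere. (Mathlib only.)

Complete proof. Let `U := ball 0 1`, `E := {z ∈ U | l z = 0}` (finite by `hfin`), `V := U \ E`, an
open set which is connected (`IsConnected`/`IsPreconnected` of a ball minus a finite (countable)
set: `IsOpen.isConnected_compl_of_countable`-type lemmas, e.g.
`Set.Countable.isPathConnected_compl_of_one_lt_rank` is for the whole space; alternatively avoid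
connectedness of `V` by the argument below). `q := g₀ / l` is holomorphic on `V`, `‖q z‖ ≠ 1` for
`z ∈ V \ K`.
(1) At every `z₀ ∈ V` with `‖q z₀‖ = 1`: if `q` is not constant near `z₀`, it is open
(`AnalyticAt.eventually_constant_or_nhds_le_map_nhds`): the image of every small ball contains a
neighbourhood of `q z₀`, which meets the unit circle in an uncountable set, while the points of the
ball where `‖q‖ = 1` are in the countable set `K`; a contradiction. So `q` is constant near `z₀`,
with modulus `1`; but the ball contains a point not in `K`, a contradiction again. So `‖q z‖ ≠ 1`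
for all `z ∈ V`.
(2) `V` is preconnected, `‖q‖` is continuous on `V` and avoids `1`, and it is `< 1` at `p`, so
`‖q z‖ < 1` on `V` (`IsPreconnected.image`, intermediate value). For the preconnectedness of `V`:
`V` is the ball minus a finite set; proof by polygonal paths or by
`IsPreconnected`: for the ball `U` in `ℂ` and countable `E` Mathlib has
`IsConnected.isConnected_compl..`; a direct argument: let `x, y ∈ V`; there are uncountably many
circular arcs/broken lines `x → w → y`, `w` on the perpendicular bisector of `[x, y]` near the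
midpoint, inside `U` (convex), pairwise disjoint except at the ends, so one of them avoids the
finite set `E`. Alternatively: suppose `‖q‖ > 1` somewhere on `V`. The functions `g₀` and `l` satisfy
`‖g₀ z‖ ≠ ‖l z‖` for `z ∈ V`; the sets `V₁ := {z ∈ U | ‖g₀ z‖ < ‖l z‖}`, `V₂ := {z ∈ U | ‖g₀ z‖ > ‖l z‖}`
are open, disjoint, and their union contains `V`; a point `z₀ ∈ E` is isolated in `E`, a punctured
ball around it is connected (Mathlib: `isPreconnected_..`; an annulus/punctured ball is the image
of a product of an interval and a circle under `(r, θ) ↦ z₀ + r e^{iθ}`), so is contained in `V₁` or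
in `V₂`; adding to `V₁`, `V₂` the points of `E` accordingly gives a separation of the connected
ball `U`, a contradiction.
(3) Riemann's theorem at every point of `E` (bounded by `1`;
`Complex.differentiableOn_update_limUnder_of_bddAbove`, induction on the finite set, or define
`g z := limUnder (nhdsWithin z {z}ᶜ) q` for `z ∈ E`): `g` is holomorphic on `U`, `‖g‖ ≤ 1`,
`l z * g z = g₀ z` by continuity. By the maximum principle `‖g z‖ < 1` on `U`, since `‖g p‖ < 1`
(`Complex.norm_eqOn_of_isPreconnected_of_isMaxOn`: if `‖g z₀‖ = 1`, a maximum, then `‖g‖ = 1` on `U`,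
a contradiction at `p`).
-/

namespace Pool.Agent.LSF

open Metric

theorem bdd_ext_pre (E : Set ℂ) (hE : E.Countable) : IsPreconnected (ball (0 : ℂ) 1 \ E) := by
  let h : ℂ ≃ₜ ball (0 : ℂ) 1 := Homeomorph.unitBall
  let φ : ℂ → ℂ := fun z => (h z : ℂ)
  have hφc : Continuous φ := continuous_subtype_val.comp h.continuous
  have hφi : Function.Injective φ := Subtype.val_injective.comp h.injective
  have h1 : (φ ⁻¹' E).Countable := hE.preimage_of_injOn hφi.injOn
  have h2 : IsConnected (φ ⁻¹' E)ᶜ :=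
    h1.isConnected_compl_of_one_lt_rank (by simp)
  have h3 : φ '' (φ ⁻¹' E)ᶜ = ball (0 : ℂ) 1 \ E := by
    ext z
    constructor
    · rintro ⟨w, hw, rfl⟩
      exact ⟨(h w).2, hw⟩
    · rintro ⟨hz, hzE⟩
      have h4 : φ (h.symm ⟨z, hz⟩) = z := by
        change ((h (h.symm ⟨z, hz⟩) : ball (0 : ℂ) 1) : ℂ) = z
        rw [h.apply_symm_apply]
      refine ⟨h.symm ⟨z, hz⟩, ?_, h4⟩
      intro h5
      exact hzE (by rw [← h4]; exact h5)
  rw [← h3]
  exact h2.isPreconnected.image _ hφc.continuousOn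

theorem bdd_ext_loc (V : Set ℂ) (hV : IsOpen V) (q : ℂ → ℂ) (hq : DifferentiableOn ℂ q V)
    (K : Set ℂ) (hK : K.Countable) (hne : ∀ z ∈ V, z ∉ K → ‖q z‖ ≠ 1) :
    ∀ z ∈ V, ‖q z‖ ≠ 1 := by
  intro z hz h1
  have hVz : V ∈ nhds z := hV.mem_nhds hz
  have ha : AnalyticAt ℂ q z := hq.analyticAt hVz
  rcases ha.eventually_constant_or_nhds_le_map_nhds with h | h
  · have h2 : V ∩ {w | q w = q z} ∈ nhds z := Filter.inter_mem hVz h
    obtain ⟨U, hU, hUo, hzU⟩ := _root_.mem_nhds_iff.1 h2
    obtain ⟨w, hwU, hwK⟩ := (hK.dense_compl ℂ).inter_open_nonempty U hUo ⟨z, hzU⟩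
    have h3 : q w = q z := (hU hwU).2
    exact hne w (hU hwU).1 hwK (by rw [h3, h1])
  · have h2 : q '' V ∈ nhds (q z) := h (Filter.image_mem_map hVz)
    let γ : ℝ → ℂ := fun t => q z * Complex.exp (t * Complex.I)
    have hγ : Continuous γ := by fun_prop
    have hγ0 : γ 0 = q z := by simp [γ]
    have h3 : γ ⁻¹' (q '' V) ∈ nhds (0 : ℝ) := by
      apply hγ.continuousAt
      rw [hγ0]
      exact h2
    have h4 : γ ⁻¹' (q '' V) ∩ Set.Ioo (-1) 1 ∈ nhds (0 : ℝ) :=
      Filter.inter_mem h3 (Ioo_mem_nhds (by norm_num) (by norm_num))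
    obtain ⟨U, hU, hUo, h0U⟩ := _root_.mem_nhds_iff.1 h4
    have hqz : q z ≠ 0 := by
      intro h5
      rw [h5] at h1
      simp at h1
    have hinj : Set.InjOn γ (Set.Ioo (-1) 1) := by
      intro s hs t ht hst
      have h5 : Complex.exp (s * Complex.I) = Complex.exp (t * Complex.I) :=
        mul_left_cancel₀ hqz hst
      have hpi : (3 : ℝ) < Real.pi := Real.pi_gt_three
      have h6 : (s : ℂ) * Complex.I = t * Complex.I := by
        apply Complex.exp_inj_of_neg_pi_lt_of_le_pi _ _ _ _ h5
        · simp; linarith [hs.1]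
        · simp; linarith [hs.2]
        · simp; linarith [ht.1]
        · simp; linarith [ht.2]
      have h7 := mul_right_cancel₀ Complex.I_ne_zero h6
      exact_mod_cast h7
    have h5 : (Set.Ioo (-1 : ℝ) 1 ∩ γ ⁻¹' (q '' K)).Countable := by
      apply Set.MapsTo.countable_of_injOn (f := γ) (t := q '' K)
      · intro t ht
        exact ht.2
      · exact hinj.mono Set.inter_subset_left
      · exact hK.image q
    obtain ⟨t, htU, htK⟩ := (h5.dense_compl ℝ).inter_open_nonempty U hUo ⟨0, h0U⟩
    obtain ⟨⟨v, hv, hqv⟩, ht1⟩ := hU htU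
    have h6 : ‖q v‖ = 1 := by
      rw [hqv]
      change ‖q z * Complex.exp (t * Complex.I)‖ = 1
      rw [norm_mul, h1, Complex.norm_exp_ofReal_mul_I, one_mul]
    by_cases hvK : v ∈ K
    · exact htK ⟨ht1, ⟨v, hvK, hqv⟩⟩
    · exact hne v hv hvK h6

theorem bdd_ext (g₀ l : ℂ → ℂ) (K : Set ℂ) (hK : K.Countable)
    (h0 : DifferentiableOn ℂ g₀ (ball 0 1)) (hl : DifferentiableOn ℂ l (ball 0 1))
    (hfin : {z | z ∈ ball (0 : ℂ) 1 ∧ l z = 0}.Finite)
    (hne : ∀ z ∈ ball (0 : ℂ) 1, z ∉ K → l z ≠ 0 → ‖g₀ z / l z‖ ≠ 1)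
    (p : ℂ) (hp : p ∈ ball (0 : ℂ) 1) (hlp : l p ≠ 0) (hp1 : ‖g₀ p / l p‖ < 1) :
    ∃ g : ℂ → ℂ, DifferentiableOn ℂ g (ball 0 1) ∧ (∀ z ∈ ball (0 : ℂ) 1, ‖g z‖ < 1) ∧
      ∀ z ∈ ball (0 : ℂ) 1, l z * g z = g₀ z := by
  classical
  set E : Set ℂ := {z | z ∈ ball (0 : ℂ) 1 ∧ l z = 0} with hEdef
  set U : Set ℂ := ball (0 : ℂ) 1 with hUdef
  set V : Set ℂ := U \ E with hVdef
  have hUo : IsOpen U := isOpen_ball
  have hVo : IsOpen V := hUo.sdiff hfin.isClosed
  have hVl : ∀ z ∈ V, l z ≠ 0 := fun z hz h => hz.2 ⟨hz.1, h⟩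
  let q : ℂ → ℂ := fun z => g₀ z / l z
  have hq : DifferentiableOn ℂ q V :=
    (h0.mono Set.sdiff_subset).div (hl.mono Set.sdiff_subset) hVl
  have hq1 : ∀ z ∈ V, ‖q z‖ ≠ 1 :=
    bdd_ext_loc V hVo q hq K hK (fun z hz hzK => hne z hz.1 hzK (hVl z hz))
  have hpV : p ∈ V := ⟨hp, fun h => hlp h.2⟩
  have hVp : IsPreconnected V := bdd_ext_pre E hfin.countable
  have hq2 : ∀ z ∈ V, ‖q z‖ < 1 := by
    intro z hz
    by_contra hcon
    have h1 : (1 : ℝ) ∈ Set.Icc (‖q p‖) (‖q z‖) := ⟨hp1.le, not_lt.1 hcon⟩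
    obtain ⟨w, hw, hw1⟩ := hVp.intermediate_value hpV hz hq.continuousOn.norm h1
    exact hq1 w hw hw1
  let g : ℂ → ℂ := fun z => Filter.limUnder (nhdsWithin z {z}ᶜ) q
  have hgV : ∀ z ∈ V, g z = q z := by
    intro z hz
    have hc : ContinuousAt q z := hq.continuousOn.continuousAt (hVo.mem_nhds hz)
    exact (hc.tendsto.mono_left nhdsWithin_le_nhds).limUnder_eq
  -- neighbourhoods
  have hnb : ∀ z ∈ U, insert z V ∈ nhds z := by
    intro z hz
    have h1 : (E \ {z})ᶜ ∈ nhds z :=
      (hfin.subset Set.sdiff_subset).isClosed.isOpen_compl.mem_nhds (by simp)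
    filter_upwards [hUo.mem_nhds hz, h1] with w hw1 hw2
    by_cases hwz : w = z
    · exact Or.inl hwz
    · exact Or.inr ⟨hw1, fun h => hw2 ⟨h, hwz⟩⟩
  have hgd : DifferentiableOn ℂ g U := by
    intro z hz
    apply DifferentiableAt.differentiableWithinAt
    by_cases hzV : z ∈ V
    · have h1 : g =ᶠ[nhds z] q := by
        filter_upwards [hVo.mem_nhds hzV] with w hw using hgV w hw
      exact (hq.differentiableAt (hVo.mem_nhds hzV)).congr_of_eventuallyEq h1
    · have h1 : insert z V \ {z} = V := by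
        ext w
        constructor
        · rintro ⟨h | h, h2⟩
          · exact absurd h h2
          · exact h
        · intro h
          refine ⟨Or.inr h, ?_⟩
          rintro rfl
          exact hzV h
      have h2 : DifferentiableOn ℂ (Function.update q z (Filter.limUnder (nhdsWithin z {z}ᶜ) q))
          (insert z V) := by
        apply Complex.differentiableOn_update_limUnder_of_bddAbove (hnb z hz)
        · rw [h1]
          exact hq
        · rw [h1]
          refine ⟨1, ?_⟩
          rintro _ ⟨w, hw, rfl⟩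
          exact (hq2 w hw).le
      have h3 : g =ᶠ[nhds z] Function.update q z (Filter.limUnder (nhdsWithin z {z}ᶜ) q) := by
        filter_upwards [hnb z hz] with w hw
        by_cases hwz : w = z
        · subst hwz
          simp [g]
        · rw [Function.update_of_ne hwz]
          exact hgV w (hw.resolve_left hwz)
      exact (h2.differentiableAt (hnb z hz)).congr_of_eventuallyEq h3
  have hev : ∀ z ∈ U, ∀ᶠ w in nhdsWithin z {z}ᶜ, w ∈ V := by
    intro z hz
    have h1 : insert z V ∈ nhdsWithin z {z}ᶜ := mem_nhdsWithin_of_mem_nhds (hnb z hz)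
    filter_upwards [h1, self_mem_nhdsWithin] with w hw hwz
    exact hw.resolve_left hwz
  have hgc : ∀ z ∈ U, ContinuousAt g z := fun z hz =>
    (hgd.differentiableAt (hUo.mem_nhds hz)).continuousAt
  have hle : ∀ z ∈ U, ‖g z‖ ≤ 1 := by
    intro z hz
    have h1 : Filter.Tendsto (fun w => ‖g w‖) (nhdsWithin z {z}ᶜ) (nhds ‖g z‖) :=
      ((hgc z hz).norm.tendsto).mono_left nhdsWithin_le_nhds
    apply le_of_tendsto h1
    filter_upwards [hev z hz] with w hw
    rw [hgV w hw]
    exact (hq2 w hw).le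
  refine ⟨g, hgd, ?_, ?_⟩
  · intro z hz
    apply lt_of_le_of_ne (hle z hz)
    intro h1
    have hm : IsMaxOn (norm ∘ g) U z := by
      intro w hw
      change ‖g w‖ ≤ ‖g z‖
      rw [h1]
      exact hle w hw
    have h2 := Complex.norm_eqOn_of_isPreconnected_of_isMaxOn
      (convex_ball (0 : ℂ) 1).isPreconnected hUo hgd hz hm
    have h3 : ‖g p‖ = ‖g z‖ := h2 hp
    rw [hgV p hpV, h1] at h3
    exact absurd h3 hp1.ne
  · intro z hz
    have h1 : Filter.Tendsto (fun w => l w * g w) (nhdsWithin z {z}ᶜ) (nhds (l z * g z)) :=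
      (((hl.differentiableAt (hUo.mem_nhds hz)).continuousAt.mul (hgc z hz)).tendsto).mono_left
        nhdsWithin_le_nhds
    have h2 : Filter.Tendsto g₀ (nhdsWithin z {z}ᶜ) (nhds (g₀ z)) :=
      ((h0.differentiableAt (hUo.mem_nhds hz)).continuousAt.tendsto).mono_left
        nhdsWithin_le_nhds
    apply tendsto_nhds_unique (h1.congr' ?_) h2
    filter_upwards [hev z hz] with w hw
    rw [hgV w hw]
    change l w * (g₀ w / l w) = g₀ w
    field_simp [hVl w hw]

end Pool.Agent.LSF
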