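import Pool.Agent.LSF.BGDefs

/-!
BG1: elementary properties of `ACL`.
-/

namespace Pool.Agent.LSF

open Polynomial

theorem acl_mem (S : Set ℂ) (x : ℂ) :
    x ∈ ACL S ↔ IsAlgebraic (IntermediateField.adjoin ℚ S) x := by
  rw [ACL, IntermediateField.mem_restrictScalars, mem_algebraicClosure_iff]

open IntermediateField.algebraAdjoinAdjoin in
theorem bg1_mem (S : Set ℂ) (x : ℂ) :
    x ∈ ACL S ↔ IsAlgebraic (Algebra.adjoin ℚ S) x := by
  rw [acl_mem]
  exact (IsFractionRing.isAlgebraic_iff (Algebra.adjoin ℚ S) (IntermediateField.adjoin ℚ S) ℂ).symm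

theorem bg1_iff (S : Set ℂ) (x : ℂ) :
    x ∈ ACL S ↔ x ∈ (AlgebraicIndependent.matroid ℚ ℂ).closure S := by
  rw [bg1_mem, AlgebraicIndependent.matroid_closure_eq]
  rfl

theorem bg1_coe (S : Set ℂ) :
    (ACL S : Set ℂ) = (AlgebraicIndependent.matroid ℚ ℂ).closure S :=
  Set.ext fun x => bg1_iff S x

theorem acl_sub (S : Set ℂ) : S ⊆ (ACL S : Set ℂ) := by
  rw [bg1_coe]
  exact Matroid.subset_closure _ _ (Set.subset_univ _)

theorem acl_le (S T : Set ℂ) (h : S ⊆ (ACL T : Set ℂ)) : ACL S ≤ ACL T := by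
  intro x hx
  rw [bg1_iff] at hx ⊢
  rw [bg1_coe] at h
  exact Matroid.closure_subset_closure_of_subset_closure h hx

theorem acl_mono (S T : Set ℂ) (h : S ⊆ T) : ACL S ≤ ACL T :=
  acl_le S T (h.trans (acl_sub T))

theorem acl_isAlgClosed (S : Set ℂ) : IsAlgClosed (ACL S) := by
  have h := (algebraicClosure.isAlgClosure (IntermediateField.adjoin ℚ S) ℂ).isAlgClosed
  exact h

theorem acl_countable (S : Set ℂ) (h : S.Countable) : (ACL S : Set ℂ).Countable := by
  have h1 : (Algebra.adjoin ℚ S : Set ℂ).Countable := by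
    rw [Algebra.adjoin_eq_range]
    have hc : Countable S := h.to_subtype
    have h3 : Countable (MvPolynomial S ℚ) := by
      rw [← Cardinal.mk_le_aleph0_iff]
      refine (MvPolynomial.cardinalMk_le_max (σ := S) (R := ℚ)).trans ?_
      simp
    exact Set.countable_range _
  have h4 : Countable (Algebra.adjoin ℚ S) := h1.to_subtype
  have h2 := Algebraic.countable (Algebra.adjoin ℚ S) ℂ
  refine h2.mono fun x hx => ?_
  exact (bg1_mem S x).1 hx

theorem acl_exch (S : Set ℂ) (x y : ℂ) (h : x ∈ ACL (insert y S)) (hx : x ∉ ACL S) :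
    y ∈ ACL (insert x S) := by
  rw [bg1_iff] at h hx ⊢
  exact (Matroid.closure_exchange ⟨h, hx⟩).1

theorem acl_aut (σ : ℂ ≃+* ℂ) (S : Set ℂ) (x : ℂ) (h : x ∈ ACL S) : σ x ∈ ACL (σ '' S) := by
  rw [bg1_mem] at h ⊢
  have hmap : ∀ c ∈ Algebra.adjoin ℚ S, σ c ∈ Algebra.adjoin ℚ (σ '' S) := by
    intro c hc
    induction hc using Algebra.adjoin_induction with
    | mem x hx => exact Algebra.subset_adjoin ⟨x, hx, rfl⟩
    | algebraMap r =>
      have : σ (algebraMap ℚ ℂ r) = algebraMap ℚ ℂ r := by simp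
      rw [this]
      exact Subalgebra.algebraMap_mem _ r
    | add x y _ _ hx hy => rw [map_add]; exact Subalgebra.add_mem _ hx hy
    | mul x y _ _ hx hy => rw [map_mul]; exact Subalgebra.mul_mem _ hx hy
  let f : Algebra.adjoin ℚ S →+* Algebra.adjoin ℚ (σ '' S) :=
    { toFun := fun c => ⟨σ c, hmap c c.2⟩
      map_one' := Subtype.ext (map_one σ)
      map_mul' := fun a b => Subtype.ext (map_mul σ _ _)
      map_zero' := Subtype.ext (map_zero σ)
      map_add' := fun a b => Subtype.ext (map_add σ _ _) }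
  have hf : Function.Injective f := by
    intro a b hab
    have := congrArg Subtype.val hab
    exact Subtype.ext (σ.injective this)
  exact h.ringHom_of_comp_eq f (σ : ℂ →+* ℂ) hf rfl

theorem bg1_alg (A : IntermediateField ℚ ℂ) (hA : IsAlgClosed A) (x : ℂ)
    (h : IsAlgebraic A x) : x ∈ A := by
  have h1 := minpoly.mem_range_of_degree_eq_one A x
    (IsAlgClosed.degree_eq_one_of_irreducible A (minpoly.irreducible h.isIntegral))
  obtain ⟨a, ha⟩ := h1
  rw [← ha]
  exact a.2

theorem acl_closed (A : IntermediateField ℚ ℂ) (hA : IsAlgClosed A) (x : ℂ)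
    (h : x ∈ ACL (A : Set ℂ)) : x ∈ A := by
  rw [acl_mem, IntermediateField.adjoin_self] at h
  exact bg1_alg A hA x h

theorem acl_self (S : Set ℂ) (x : ℂ) (h : x ∈ ACL (ACL S : Set ℂ)) : x ∈ ACL S :=
  acl_closed _ (acl_isAlgClosed S) x h

theorem acl_insert (S : Set ℂ) (t x : ℂ) :
    x ∈ ACL (insert t (ACL S : Set ℂ)) ↔ x ∈ ACL (insert t S) := by
  rw [bg1_iff, bg1_iff, bg1_coe, Matroid.closure_insert_closure_eq_closure_insert]

theorem bg1_inj (A : IntermediateField ℚ ℂ) (hA : IsAlgClosed A) (x : ℂ) (hx : x ∉ A) :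
    Function.Injective (Polynomial.eval₂RingHom (algebraMap A ℂ) x) := by
  have h1 : Transcendental A x := fun h => hx (bg1_alg A hA x h)
  rw [transcendental_iff_injective] at h1
  exact h1

/-- `ev2` as a ring homomorphism -/
noncomputable def bg1_hom (A : IntermediateField ℚ ℂ) (x y : ℂ) :
    Polynomial (Polynomial A) →+* ℂ :=
  (Polynomial.evalRingHom y).comp
    (Polynomial.mapRingHom (Polynomial.eval₂RingHom (algebraMap A ℂ) x))

theorem bg1_hom_apply (A : IntermediateField ℚ ℂ) (x y : ℂ) (Φ : Polynomial (Polynomial A)) :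
    bg1_hom A x y Φ = ev2 Φ x y := rfl

/-- a nonzero polynomial relation with coefficients in an algebraically closed field -/
theorem acl_rel (A : IntermediateField ℚ ℂ) (hA : IsAlgClosed A) (x y : ℂ) (hx : x ∉ A)
    (h : y ∈ ACL (insert x (A : Set ℂ))) :
    ∃ Φ : Polynomial (Polynomial A), Irreducible Φ ∧ 0 < Φ.natDegree ∧ ev2 Φ x y = 0 := by
  have hinj := bg1_inj A hA x hx
  rw [bg1_mem] at h
  obtain ⟨p, hp, hpy⟩ := h
  have hr : ∀ c ∈ Algebra.adjoin ℚ (insert x (A : Set ℂ)),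
      c ∈ Set.range (Polynomial.eval₂RingHom (algebraMap A ℂ) x) := by
    intro c hc
    induction hc using Algebra.adjoin_induction with
    | mem z hz =>
      rcases hz with rfl | hz
      · exact ⟨X, by simp⟩
      · exact ⟨C ⟨z, hz⟩, by simp⟩
    | algebraMap r => exact ⟨C (algebraMap ℚ A r), by simp⟩
    | add a b _ _ ha hb =>
      obtain ⟨a', rfl⟩ := ha
      obtain ⟨b', rfl⟩ := hb
      exact ⟨a' + b', map_add _ _ _⟩
    | mul a b _ _ ha hb =>
      obtain ⟨a', rfl⟩ := ha
      obtain ⟨b', rfl⟩ := hb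
      exact ⟨a' * b', map_mul _ _ _⟩
  have hl : p.map (algebraMap (Algebra.adjoin ℚ (insert x (A : Set ℂ))) ℂ) ∈
      Polynomial.lifts (Polynomial.eval₂RingHom (algebraMap A ℂ) x) := by
    rw [Polynomial.lifts_iff_coeff_lifts]
    intro n
    rw [Polynomial.coeff_map]
    exact hr _ (p.coeff n).2
  rw [Polynomial.mem_lifts] at hl
  obtain ⟨Φ₀, hΦ₀⟩ := hl
  have h0 : ev2 Φ₀ x y = 0 := by
    rw [ev2, hΦ₀, Polynomial.eval_map_algebraMap, hpy]
  have hne : Φ₀ ≠ 0 := by
    rintro rfl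
    rw [Polynomial.map_zero] at hΦ₀
    apply hp
    apply Polynomial.map_injective (algebraMap (Algebra.adjoin ℚ (insert x (A : Set ℂ))) ℂ)
      (fun a b hab => Subtype.ext hab)
    rw [← hΦ₀, Polynomial.map_zero]
  -- an irreducible factor
  have key : ∀ F : Polynomial (Polynomial A), F ≠ 0 → ev2 F x y = 0 →
      ∃ Φ : Polynomial (Polynomial A), Irreducible Φ ∧ ev2 Φ x y = 0 := by
    intro F
    induction F using WfDvdMonoid.induction_on_irreducible with
    | zero => intro h; exact absurd rfl h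
    | unit u hu =>
      intro _ h
      exfalso
      have := hu.map (bg1_hom A x y)
      rw [bg1_hom_apply, h] at this
      exact not_isUnit_zero this
    | mul a i ha hi ih =>
      intro _ h
      rw [← bg1_hom_apply, map_mul, mul_eq_zero] at h
      rcases h with h | h
      · exact ⟨i, hi, h⟩
      · exact ih ha h
  obtain ⟨Φ, hΦ, hΦ0⟩ := key Φ₀ hne h0
  refine ⟨Φ, hΦ, ?_, hΦ0⟩
  rw [Nat.pos_iff_ne_zero]
  intro hd
  rw [Polynomial.eq_C_of_natDegree_eq_zero hd, ev2, Polynomial.map_C, Polynomial.eval_C] at hΦ0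
  have h2 : Φ.coeff 0 = 0 := hinj (by rw [hΦ0, map_zero])
  apply hΦ.ne_zero
  rw [Polynomial.eq_C_of_natDegree_eq_zero hd, h2, C_0]

/-- the converse -/
theorem acl_of_rel (A : IntermediateField ℚ ℂ) (hA : IsAlgClosed A) (x y : ℂ) (hx : x ∉ A)
    (Φ : Polynomial (Polynomial A)) (hΦ : Φ ≠ 0) (h0 : ev2 Φ x y = 0) :
    y ∈ ACL (insert x (A : Set ℂ)) := by
  have hinj := bg1_inj A hA x hx
  rw [acl_mem]
  have hle : A ≤ IntermediateField.adjoin ℚ (insert x (A : Set ℂ)) := by
    intro a ha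
    exact IntermediateField.subset_adjoin ℚ _ (Set.mem_insert_of_mem x ha)
  have hxm : x ∈ IntermediateField.adjoin ℚ (insert x (A : Set ℂ)) :=
    IntermediateField.subset_adjoin ℚ _ (Set.mem_insert x _)
  let ψ : Polynomial A →+* IntermediateField.adjoin ℚ (insert x (A : Set ℂ)) :=
    Polynomial.eval₂RingHom (IntermediateField.inclusion hle : A →+* _) ⟨x, hxm⟩
  have hψ : (algebraMap (IntermediateField.adjoin ℚ (insert x (A : Set ℂ))) ℂ).comp ψ =
      Polynomial.eval₂RingHom (algebraMap A ℂ) x := by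
    apply Polynomial.ringHom_ext
    · intro a
      simp only [ψ, RingHom.comp_apply, Polynomial.coe_eval₂RingHom, Polynomial.eval₂_C]
      rfl
    · simp only [ψ, RingHom.comp_apply, Polynomial.coe_eval₂RingHom, Polynomial.eval₂_X]
      rfl
  refine ⟨Φ.map ψ, ?_, ?_⟩
  · have hψi : Function.Injective ψ := by
      intro a b hab
      apply hinj
      rw [← hψ, RingHom.comp_apply, RingHom.comp_apply, hab]
    intro h
    apply hΦ
    apply Polynomial.map_injective ψ hψi
    rw [h, Polynomial.map_zero]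
  · rw [← Polynomial.eval_map_algebraMap, Polynomial.map_map, hψ]
    exact h0

end Pool.Agent.LSF
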