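import Pool.Agent.LSF.BE2
import Pool.Agent.LSF.BE13
import Pool.Agent.LSF.BA5
import Pool.Agent.LSF.BG1

/-!
BE14: extension of a branch over the whole disc if there is no ramification in the disc.

Complete proof. `F := nrmF Φ`, `D₀ := Φ.natDegree > 0` (`pos_deg`, `la1 ∉ K0`), `l := lcF Φ`.
`nrm_simple` (`k = K0`): finite `B ⊆ K0`, `l s ≠ 0` and simple roots for `s ∉ B`; in particular at
`la1 ∉ K0`.
`T w := (w + la1) / (1 + conj la1 * w)` maps `ball 0 1` to itself, holomorphic, `T 0 = la1`, with the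
inverse `T' w := (w - la1) / (1 - conj la1 * w)` of the same kind
(`1 - ‖T w‖^2 = (1 - ‖la1‖^2) (1 - ‖w‖^2) / ‖1 + conj la1 w‖^2`). The family `F' w := F (T w)` is `PF` on
`ball 0 1` (composition of `nrm_pf` with `T`), and `RegAt D₀ F' w` for every `w` in the ball: from
`hreg (T w)` with `r`, `z`, take `r'` with `T (ball w r') ⊆ ball (T w) r` (and inside the unit ball)
and `z i ∘ T`. `(F' 0).roots = (F la1).roots` is nodup. `rc_bad` (BA5) with `a = 0`, `R = 1`,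
`Ex = ∅`, `M = 0`: `S.card ≤ 0`, so `S = ∅`, and there is a root branch `z` of `F'` on `ball 0 1` with
`z 0 = l la1 * c1` (a root of `F la1` by `nrm_root`). Let `g₀ s := z (T' s)`, holomorphic on
`ball 0 1`, `(F s).eval (g₀ s) = 0`, `g₀ la1 = l la1 * c1`. Apply `bdd_ext` (BE13) with `K := K0`
(countable: `acl_countable`), `l`, `p := la1`: for `s ∉ K0`, `l s ≠ 0`, `c := g₀ s / l s` satisfies
`ev2 Φ s c = 0` (`nrm_root`), so `‖c‖ ≠ 1` by `hne`; the zeros of `l` are in `B`. Let `g` be the result.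
`g la1 = c1` (`l la1 ≠ 0`). `ev2 Φ s (g s) = 0` for `s ∉ B` (`nrm_root`) and for `s ∈ B` by continuity
(`ev2_cont`; `B` is finite, its complement is dense).
-/

namespace Pool.Agent.LSF

open Polynomial Metric Filter

/-- the disc automorphism -/
noncomputable def be14T (a w : ℂ) : ℂ := (w + a) / (1 + starRingEnd ℂ a * w)

theorem be14_den (a w : ℂ) (ha : ‖a‖ < 1) (hw : ‖w‖ < 1) : 1 + starRingEnd ℂ a * w ≠ 0 := by
  intro h
  have h1 : starRingEnd ℂ a * w = -1 := by linear_combination h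
  have h2 : ‖a‖ * ‖w‖ = 1 := by
    have := congrArg norm h1
    rw [norm_mul, RCLike.norm_conj, norm_neg, norm_one] at this
    exact this
  nlinarith [norm_nonneg a, norm_nonneg w]

theorem be14_lt (a w : ℂ) (ha : ‖a‖ < 1) (hw : ‖w‖ < 1) : ‖be14T a w‖ < 1 := by
  have hd := be14_den a w ha hw
  unfold be14T
  rw [norm_div, div_lt_one (norm_pos_iff.2 hd)]
  have e1 : ‖w + a‖ ^ 2 = Complex.normSq (w + a) := (Complex.normSq_eq_norm_sq _).symm
  have e2 : ‖1 + starRingEnd ℂ a * w‖ ^ 2 = Complex.normSq (1 + starRingEnd ℂ a * w) :=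
    (Complex.normSq_eq_norm_sq _).symm
  have ea : ‖a‖ ^ 2 = Complex.normSq a := (Complex.normSq_eq_norm_sq _).symm
  have ew : ‖w‖ ^ 2 = Complex.normSq w := (Complex.normSq_eq_norm_sq _).symm
  have key : ‖1 + starRingEnd ℂ a * w‖ ^ 2 - ‖w + a‖ ^ 2 = (1 - ‖a‖ ^ 2) * (1 - ‖w‖ ^ 2) := by
    rw [e1, e2, ea, ew]
    simp only [Complex.normSq_apply, Complex.add_re, Complex.add_im, Complex.mul_re,
      Complex.mul_im, Complex.conj_re, Complex.conj_im, Complex.one_re, Complex.one_im]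
    ring
  have h3 : 0 < (1 - ‖a‖ ^ 2) * (1 - ‖w‖ ^ 2) := by
    apply mul_pos
    · nlinarith [norm_nonneg a]
    · nlinarith [norm_nonneg w]
  nlinarith [norm_nonneg (w + a), norm_nonneg (1 + starRingEnd ℂ a * w)]

theorem be14_inv (a w : ℂ) (ha : ‖a‖ < 1) (hw : ‖w‖ < 1) : be14T a (be14T (-a) w) = w := by
  have ha' : ‖-a‖ < 1 := by rwa [norm_neg]
  have hd := be14_den (-a) w ha' hw
  have hlt := be14_lt (-a) w ha' hw
  have hd2 := be14_den a _ ha hlt
  unfold be14T at hd2 ⊢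
  rw [div_eq_iff hd2]
  rw [map_neg] at hd ⊢
  have h1 : (w + -a) / (1 + -(starRingEnd ℂ) a * w) * (1 + -(starRingEnd ℂ) a * w) = w + -a :=
    div_mul_cancel₀ _ hd
  apply mul_right_cancel₀ hd
  linear_combination (1 - w * (starRingEnd ℂ) a) * h1

theorem be14_diff (a : ℂ) (ha : ‖a‖ < 1) : DifferentiableOn ℂ (be14T a) (ball 0 1) := by
  unfold be14T
  refine DifferentiableOn.div (by fun_prop) (by fun_prop) ?_
  intro w hw
  exact be14_den a w ha (by simpa using hw)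

theorem be14_maps (a : ℂ) (ha : ‖a‖ < 1) : Set.MapsTo (be14T a) (ball 0 1) (ball 0 1) := by
  intro w hw
  have := be14_lt a w ha (by simpa using hw)
  simpa using this

theorem ext_glob (Φ : Polynomial (Polynomial K0)) (hΦ : Irreducible Φ)
    (hreg : ∀ e : ℂ, ‖e‖ < 1 → RegAt Φ.natDegree (nrmF Φ) e)
    (hne : ∀ la c : ℂ, ev2 Φ la c = 0 → la ∉ K0 → ‖la‖ < 1 → ‖c‖ ≠ 1) (la1 c1 : ℂ)
    (hla : ‖la1‖ < 1) (hc : ‖c1‖ < 1) (hK : la1 ∉ K0) (h0 : ev2 Φ la1 c1 = 0) :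
    ∃ g : ℂ → ℂ, DifferentiableOn ℂ g (ball 0 1) ∧
      (∀ la ∈ ball (0 : ℂ) 1, ‖g la‖ < 1 ∧ ev2 Φ la (g la) = 0) ∧ g la1 = c1 := by
  have hd : 0 < Φ.natDegree := pos_deg K0 (acl_isAlgClosed ∅) Φ hΦ.ne_zero la1 c1 hK h0
  obtain ⟨B, hB, hBs⟩ := nrm_simple K0 (acl_isAlgClosed ∅) Φ hΦ hd
  have hlaB : la1 ∉ B := fun h => hK (hB la1 h)
  have hl1 : lcF Φ la1 ≠ 0 := (hBs la1 hlaB).1
  have hla' : ‖-la1‖ < 1 := by rwa [norm_neg]
  have hT0 : be14T la1 0 = la1 := by simp [be14T]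
  have hT1 : be14T (-la1) la1 = 0 := by simp [be14T]
  have hpf := nrm_pf K0 Φ hΦ.ne_zero
  have hPF : PF (ball 0 1) Φ.natDegree (fun w => nrmF Φ (be14T la1 w)) :=
    ⟨fun s _ => hpf.monic _ (Set.mem_univ _), fun s _ => hpf.deg _ (Set.mem_univ _),
      fun i => (hpf.coeff i).comp (be14_diff la1 hla) (fun _ _ => Set.mem_univ _)⟩
  have hreg' : ∀ w ∈ ball (0 : ℂ) 1, w ∉ (∅ : Finset ℂ) →
      RegAt Φ.natDegree (fun w => nrmF Φ (be14T la1 w)) w := by
    intro w hw _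
    have hwn : ‖w‖ < 1 := by simpa using hw
    obtain ⟨r, hr, z, hz, hzr⟩ := hreg (be14T la1 w) (be14_lt la1 w hla hwn)
    have hc : ContinuousAt (be14T la1) w :=
      ((be14_diff la1 hla).differentiableAt (isOpen_ball.mem_nhds hw)).continuousAt
    have h1 : ∀ᶠ s in nhds w, be14T la1 s ∈ ball (be14T la1 w) r :=
      hc (isOpen_ball.mem_nhds (mem_ball_self hr))
    have h2 : ∀ᶠ s in nhds w, s ∈ ball (0 : ℂ) 1 := isOpen_ball.mem_nhds hw
    obtain ⟨r', hr', hsub⟩ := Metric.eventually_nhds_iff_ball.1 (h1.and h2)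
    refine ⟨r', hr', fun i s => z i (be14T la1 s), fun i => ?_, fun s hs => ?_⟩
    · exact (hz i).comp ((be14_diff la1 hla).mono fun s hs => (hsub s hs).2)
        (fun s hs => (hsub s hs).1)
    · exact hzr _ (hsub s hs).1
  obtain ⟨S, hS, hSz⟩ := rc_bad 0 1 one_pos Φ.natDegree _ hPF
    (by rw [hT0]; exact (hBs la1 hlaB).2) ∅ 0 hreg'
    (fun e _ he => absurd he (Finset.notMem_empty e))
  have hSe : S = ∅ := by
    rw [← Finset.card_eq_zero]
    simpa using hS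
  obtain ⟨z, hzB, hz0, -⟩ := hSz (lcF Φ la1 * c1)
    (by rw [hT0]; exact (nrm_root K0 Φ hd la1 hl1 c1).2 h0) (by rw [hSe]; exact Finset.notMem_empty _)
  have hg0d : DifferentiableOn ℂ (fun s => z (be14T (-la1) s)) (ball 0 1) :=
    hzB.1.comp (be14_diff (-la1) hla') (be14_maps (-la1) hla')
  have hg0r : ∀ s ∈ ball (0 : ℂ) 1, (nrmF Φ s).eval (z (be14T (-la1) s)) = 0 := by
    intro s hs
    have h1 := hzB.2 _ (be14_maps (-la1) hla' hs)
    have h2 : be14T la1 (be14T (-la1) s) = s := be14_inv la1 s hla (by simpa using hs)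
    simp only [h2] at h1
    exact h1
  have hev : ∀ s ∈ ball (0 : ℂ) 1, lcF Φ s ≠ 0 → ∀ y, lcF Φ s * y = z (be14T (-la1) s) →
      ev2 Φ s y = 0 := by
    intro s hs hl y hy
    apply (nrm_root K0 Φ hd s hl y).1
    rw [hy]
    exact hg0r s hs
  have hp : la1 ∈ ball (0 : ℂ) 1 := by simpa using hla
  obtain ⟨g, hgd, hg1, hg2⟩ := bdd_ext (fun s => z (be14T (-la1) s)) (lcF Φ) (K0 : Set ℂ)
    (acl_countable ∅ Set.countable_empty) hg0d (lc_diff K0 Φ).differentiableOn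
    (B.finite_toSet.subset fun s hs => by
      by_contra hsB
      exact (hBs s hsB).1 hs.2)
    (fun s hs hsK hl => hne s _ (hev s hs hl _ (mul_div_cancel₀ _ hl)) hsK (by simpa using hs))
    la1 hp hl1 (by
      simp only [hT1, hz0, mul_div_cancel_left₀ _ hl1]
      exact hc)
  have hgB : ∀ s ∈ ball (0 : ℂ) 1, s ∉ B → ev2 Φ s (g s) = 0 := fun s hs hsB =>
    hev s hs (hBs s hsB).1 _ (hg2 s hs)
  refine ⟨g, hgd, fun s hs => ⟨hg1 s hs, ?_⟩, ?_⟩
  · have hcg : ContinuousAt g s := (hgd.differentiableAt (isOpen_ball.mem_nhds hs)).continuousAt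
    have hct : ContinuousAt (fun w => ev2 Φ w (g w)) s :=
      (ev2_cont K0 Φ).continuousAt.comp (f := fun w => (w, g w)) (continuousAt_id.prodMk hcg)
    have h1 : Tendsto (fun w => ev2 Φ w (g w)) (nhdsWithin s {s}ᶜ) (nhds (ev2 Φ s (g s))) :=
      hct.tendsto.mono_left nhdsWithin_le_nhds
    have h2 : ∀ᶠ w in nhdsWithin s {s}ᶜ, ev2 Φ w (g w) = 0 := by
      have e1 : ∀ᶠ w in nhdsWithin s {s}ᶜ, w ∈ ball (0 : ℂ) 1 :=
        nhdsWithin_le_nhds (isOpen_ball.mem_nhds hs)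
      have e2 : ∀ᶠ w in nhdsWithin s {s}ᶜ, w ∉ B.erase s := by
        apply nhdsWithin_le_nhds
        apply (B.erase s).finite_toSet.isClosed.isOpen_compl.mem_nhds
        simp
      have e3 : ∀ᶠ w in nhdsWithin s {s}ᶜ, w ≠ s := self_mem_nhdsWithin
      filter_upwards [e1, e2, e3] with w h1 h2 h3
      exact hgB w h1 fun h => h2 (Finset.mem_erase.2 ⟨h3, h⟩)
    have h3 : Tendsto (fun w => ev2 Φ w (g w)) (nhdsWithin s {s}ᶜ) (nhds 0) :=
      (tendsto_const_nhds).congr' (by filter_upwards [h2] with w hw using hw.symm)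
    exact tendsto_nhds_unique h1 h3
  · have h1 := hg2 la1 hp
    simp only [hT1, hz0] at h1
    exact mul_left_cancel₀ hl1 h1

end Pool.Agent.LSF
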