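import Pool.Agent.LSF.BEDefs
import Pool.Agent.LSF.BE1

/-!
BE2: the monic form of a polynomial in two variables.

`k` is an algebraically closed subfield of `ℂ`.

Complete proofs. Write `ρ_s := eval₂RingHom (algebraMap k ℂ) s : k[X] → ℂ`, `P_s := Φ.map ρ_s`
(so `ev2 Φ s y = P_s.eval y`), `l_s := lcF Φ s = ρ_s Φ.leadingCoeff`.
`ev2_cont`: `ev2 Φ s y = ∑_{i ≤ n} ρ_s (Φ.coeff i) y^i` (`Polynomial.eval_map`, `eval₂_eq_sum_range`)
and `ρ_s p = eval₂ .. = aeval s p` is a polynomial function of `s`.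
`nrm_pf`: `integralNormalization Φ` is monic of degree `Φ.natDegree`
(`monic_integralNormalization`, `natDegree_integralNormalization`), `Monic.map`,
`Monic.natDegree_map`; the coefficients are `ρ_s` of fixed polynomials.
`lc_diff`: clear.
`nrm_root`: with `n := Φ.natDegree ≥ 1`, `(nrmF Φ s).eval (l_s y) = l_s^(n-1) P_s.eval y` (compare
coefficients with `integralNormalization_coeff_..`: the coefficient of `Y^i` is `Φ_i l^(n-1-i)` for
`i < n`, and `1` for `i = n`; Mathlib has `integralNormalization_eval₂_leadingCoeff_mul` or similar,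
and `integralNormalization_coeff_mul_leadingCoeff_pow`).
`nrm_simple`: let `U Φ + V Φ_Y = C R`, `R ≠ 0` (`sep_bezout`); `B :=` the roots of `R` and of
`Φ.leadingCoeff` in `ℂ`; they are in `k` (`IsAlgClosed k`: the mapped polynomial splits with roots
in `k`). For `s ∉ B`: `l_s ≠ 0`, `ρ_s R ≠ 0`. If `w` is a multiple root of `nrmF Φ s`
(`Polynomial.one_lt_rootMultiplicity_iff_isRoot`; `nodup` of the roots if all multiplicities
are `≤ 1`: `Multiset.nodup_iff_count_le_one`, `count_roots`) then, since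
`(nrmF Φ s).comp (C l_s * X) = C (l_s^(n-1)) * P_s`, the number `y := w / l_s` satisfies
`P_s.eval y = 0` and `(derivative P_s).eval y = 0` (chain rule), so `ρ_s R = 0` (apply `ρ_s` and
evaluate the Bezout relation at `y`), a contradiction.
`pos_deg`: if `Φ = C p` (`natDegree = 0`) then `0 = ev2 Φ x y = ρ_x p`, `p ≠ 0`, so `x` is a root
of `p`, hence in `k` (`IsAlgClosed k`), a contradiction.
-/

namespace Pool.Agent.LSF

open Polynomial Metric

theorem be2_rho (k : IntermediateField ℚ ℂ) (R : Polynomial k) (s : ℂ) :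
    Polynomial.eval₂RingHom (algebraMap k ℂ) s R = (R.map (algebraMap k ℂ)).eval s := by
  rw [coe_eval₂RingHom, eval₂_eq_eval_map]

theorem be2_diff (k : IntermediateField ℚ ℂ) (R : Polynomial k) :
    Differentiable ℂ (fun s => Polynomial.eval₂RingHom (algebraMap k ℂ) s R) := by
  have h : (fun s => Polynomial.eval₂RingHom (algebraMap k ℂ) s R) =
      fun s => (R.map (algebraMap k ℂ)).eval s := by
    funext s
    exact be2_rho k R s
  rw [h]
  exact (R.map (algebraMap k ℂ)).differentiable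

theorem be2_root (k : IntermediateField ℚ ℂ) (hk : IsAlgClosed k) (R : Polynomial k)
    (hR : R ≠ 0) (s : ℂ) (h : Polynomial.eval₂RingHom (algebraMap k ℂ) s R = 0) : s ∈ k := by
  rw [be2_rho] at h
  have hR' : R.map (algebraMap k ℂ) ≠ 0 :=
    (Polynomial.map_ne_zero_iff (algebraMap k ℂ).injective).2 hR
  have h1 : s ∈ (R.map (algebraMap k ℂ)).roots := (mem_roots hR').2 h
  rw [(IsAlgClosed.splits R).roots_map (algebraMap k ℂ), Multiset.mem_map] at h1
  obtain ⟨a, _, ha⟩ := h1
  rw [← ha]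
  exact a.2

theorem be2_zeros (k : IntermediateField ℚ ℂ) (hk : IsAlgClosed k) (R : Polynomial k)
    (hR : R ≠ 0) : ∃ B : Finset ℂ, (∀ b ∈ B, b ∈ k) ∧
      ∀ s, s ∉ B → Polynomial.eval₂RingHom (algebraMap k ℂ) s R ≠ 0 := by
  classical
  have hR' : R.map (algebraMap k ℂ) ≠ 0 :=
    (Polynomial.map_ne_zero_iff (algebraMap k ℂ).injective).2 hR
  refine ⟨(R.map (algebraMap k ℂ)).roots.toFinset, ?_, ?_⟩
  · intro b hb
    rw [Multiset.mem_toFinset, mem_roots hR'] at hb
    refine be2_root k hk R hR b ?_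
    rw [be2_rho]
    exact hb
  · intro s hs h
    apply hs
    rw [Multiset.mem_toFinset, mem_roots hR']
    rw [be2_rho] at h
    exact h

theorem ev2_cont (k : IntermediateField ℚ ℂ) (Φ : Polynomial (Polynomial k)) :
    Continuous (fun p : ℂ × ℂ => ev2 Φ p.1 p.2) := by
  have h : (fun p : ℂ × ℂ => ev2 Φ p.1 p.2) = fun p : ℂ × ℂ =>
      ∑ i ∈ Finset.range (Φ.natDegree + 1),
        Polynomial.eval₂RingHom (algebraMap k ℂ) p.1 (Φ.coeff i) * p.2 ^ i := by
    funext p
    unfold ev2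
    rw [eval_map, eval₂_eq_sum_range]
  rw [h]
  refine continuous_finsetSum _ fun i _ => ?_
  exact ((be2_diff k (Φ.coeff i)).continuous.comp continuous_fst).mul (continuous_snd.pow i)

theorem lc_diff (k : IntermediateField ℚ ℂ) (Φ : Polynomial (Polynomial k)) :
    Differentiable ℂ (lcF Φ) := by
  unfold lcF
  exact be2_diff k _

theorem nrm_pf (k : IntermediateField ℚ ℂ) (Φ : Polynomial (Polynomial k)) (hΦ : Φ ≠ 0) :
    PF Set.univ Φ.natDegree (nrmF Φ) := by
  have hm := monic_integralNormalization hΦ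
  refine ⟨fun s _ => hm.map _, fun s _ => ?_, fun i => ?_⟩
  · unfold nrmF
    rw [hm.natDegree_map, natDegree_integralNormalization]
  · have h : (fun s => (nrmF Φ s).coeff i) = fun s =>
        Polynomial.eval₂RingHom (algebraMap k ℂ) s ((integralNormalization Φ).coeff i) := by
      funext s
      unfold nrmF
      rw [coeff_map]
    rw [h]
    exact (be2_diff k _).differentiableOn

theorem be2_eval (k : IntermediateField ℚ ℂ) (Φ : Polynomial (Polynomial k))
    (hd : 0 < Φ.natDegree) (s y : ℂ) :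
    (nrmF Φ s).eval (lcF Φ s * y) = lcF Φ s ^ (Φ.natDegree - 1) * ev2 Φ s y := by
  unfold nrmF lcF ev2
  rw [eval_map, eval_map]
  exact integralNormalization_eval₂_leadingCoeff_mul hd _ y

theorem be2_comp (k : IntermediateField ℚ ℂ) (Φ : Polynomial (Polynomial k))
    (hd : 0 < Φ.natDegree) (s : ℂ) :
    (nrmF Φ s).comp (C (lcF Φ s) * X) = C (lcF Φ s) ^ (Φ.natDegree - 1) *
      Φ.map (Polynomial.eval₂RingHom (algebraMap k ℂ) s) := by
  refine Polynomial.funext fun y => ?_
  rw [eval_comp, eval_mul, eval_C, eval_X, be2_eval k Φ hd, eval_mul, eval_pow, eval_C]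
  rfl

theorem nrm_root (k : IntermediateField ℚ ℂ) (Φ : Polynomial (Polynomial k))
    (hd : 0 < Φ.natDegree) (s : ℂ) (hl : lcF Φ s ≠ 0) (y : ℂ) :
    (nrmF Φ s).eval (lcF Φ s * y) = 0 ↔ ev2 Φ s y = 0 := by
  rw [be2_eval k Φ hd, mul_eq_zero, or_iff_right (pow_ne_zero _ hl)]

theorem nrm_simple (k : IntermediateField ℚ ℂ) (hk : IsAlgClosed k)
    (Φ : Polynomial (Polynomial k)) (hΦ : Irreducible Φ) (hd : 0 < Φ.natDegree) :
    ∃ B : Finset ℂ, (∀ b ∈ B, b ∈ k) ∧
      ∀ s, s ∉ B → lcF Φ s ≠ 0 ∧ (nrmF Φ s).roots.Nodup := by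
  classical
  obtain ⟨U, V, R, hR, hUV⟩ := sep_bezout k Φ hΦ hd
  have hlc : Φ.leadingCoeff ≠ 0 := leadingCoeff_ne_zero.2 hΦ.ne_zero
  obtain ⟨B₁, hB₁, hB₁'⟩ := be2_zeros k hk R hR
  obtain ⟨B₂, hB₂, hB₂'⟩ := be2_zeros k hk Φ.leadingCoeff hlc
  refine ⟨B₁ ∪ B₂, ?_, ?_⟩
  · intro b hb
    rcases Finset.mem_union.1 hb with h | h
    · exact hB₁ b h
    · exact hB₂ b h
  · intro s hs
    rw [Finset.mem_union, not_or] at hs
    have hl : lcF Φ s ≠ 0 := hB₂' s hs.2
    refine ⟨hl, ?_⟩
    have hne : nrmF Φ s ≠ 0 := ((nrm_pf k Φ hΦ.ne_zero).monic s (Set.mem_univ s)).ne_zero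
    rw [Multiset.nodup_iff_count_le_one]
    intro w
    rw [count_roots]
    by_contra hc
    obtain ⟨h1, h2⟩ := (one_lt_rootMultiplicity_iff_isRoot hne).1 (not_le.1 hc)
    apply hB₁' s hs.1
    have hw : lcF Φ s * (w / lcF Φ s) = w := mul_div_cancel₀ _ hl
    have e1 : (Φ.map (Polynomial.eval₂RingHom (algebraMap k ℂ) s)).eval (w / lcF Φ s) = 0 := by
      have := (nrm_root k Φ hd s hl (w / lcF Φ s)).1 (by rw [hw]; exact h1)
      exact this
    have e2 : (derivative (Φ.map (Polynomial.eval₂RingHom (algebraMap k ℂ) s))).eval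
        (w / lcF Φ s) = 0 := by
      have h3 := congrArg (fun q => (derivative q).eval (w / lcF Φ s)) (be2_comp k Φ hd s)
      beta_reduce at h3
      rw [derivative_comp, ← C_pow, derivative_C_mul, derivative_C_mul, derivative_X,
        eval_mul, eval_comp, eval_mul, eval_C, eval_one, eval_mul, eval_C, eval_X, hw,
        eval_mul, eval_C] at h3
      have h2' : (derivative (nrmF Φ s)).eval w = 0 := h2
      rw [h2', mul_zero] at h3
      exact (mul_eq_zero.1 h3.symm).resolve_left (pow_ne_zero _ hl)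
    have h4 := congrArg (fun q => (q.map (Polynomial.eval₂RingHom (algebraMap k ℂ) s)).eval
      (w / lcF Φ s)) hUV
    beta_reduce at h4
    rw [Polynomial.map_add, Polynomial.map_mul, Polynomial.map_mul, map_C, eval_add, eval_mul,
      eval_mul, eval_C, e1, ← derivative_map, e2, mul_zero, mul_zero, add_zero] at h4
    exact h4.symm

theorem pos_deg (k : IntermediateField ℚ ℂ) (hk : IsAlgClosed k)
    (Φ : Polynomial (Polynomial k)) (hΦ : Φ ≠ 0) (x y : ℂ) (hx : x ∉ k)
    (h : ev2 Φ x y = 0) : 0 < Φ.natDegree := by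
  by_contra hc
  have h0 : Φ.natDegree = 0 := by omega
  have h1 : Φ = C (Φ.coeff 0) := eq_C_of_natDegree_eq_zero h0
  have h2 : Φ.coeff 0 ≠ 0 := by
    intro h3
    apply hΦ
    rw [h1, h3, C_0]
  apply hx
  refine be2_root k hk _ h2 x ?_
  unfold ev2 at h
  rw [h1, map_C, eval_C] at h
  exact h

end Pool.Agent.LSF
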