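import Pool.Agent.LSF.BE2
import Pool.Agent.LSF.BA5
import Pool.Agent.LSF.BG1

/-!
BE3: all conjugates of finitely many algebraic functions of `t` are given, near all points except
finitely many, by finitely many tuples of holomorphic functions.

Complete proof. One function `y`: by `acl_rel` there is an irreducible `Φ ∈ A[X][Y]`,
`0 < Φ.natDegree`, `ev2 Φ t y = 0`. Let `B` be the finite set of `nrm_simple`. Let `s₀ ∉ B`. As `B`
is finite there is `r > 0` with `ball s₀ r ∩ B = ∅`; `nrm_pf` restricted to the ball and `root_disc`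
(BA5) give holomorphic functions `z q` (`q : Fin D`, `D = Φ.natDegree`) on `ball s₀ r` with
`(nrmF Φ s).roots = {z q s}`. Put `Y q s := z q s / lcF Φ s` (holomorphic: `lcF Φ s ≠ 0` on the
ball). For `σ : ℂ ≃ₐ[A] ℂ`: `ev2 Φ (σ t) (σ y) = σ (ev2 Φ t y) = 0` (`σ` fixes the coefficients; see
`mev_aut` in BG7 or prove directly: `ev2 Φ x y = eval₂ (eval₂RingHom (algebraMap A ℂ) x) y Φ`,
`Polynomial.hom_eval₂` twice). If `σ t ∈ ball s₀ r` then by `nrm_root` `lcF Φ (σ t) * σ y` is a root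
of `nrmF Φ (σ t)`, so it is `z q (σ t)` for some `q`, and `σ y = Y q (σ t)`.
Tuples: take the union of the sets `B_i` (`i : Fin n`), the minimum of the radii (`n = 0`: radius
`1`), and all combinations `q : ∀ i : Fin n, Fin (D i)` (a finite type; enumerate it by
`Fin N`, `Fintype.equivFin`).
-/

namespace Pool.Agent.LSF

open Polynomial Metric

theorem ev2_aut (A : IntermediateField ℚ ℂ) (Φ : Polynomial (Polynomial A)) (σ : ℂ ≃ₐ[A] ℂ)
    (x y : ℂ) : ev2 Φ (σ x) (σ y) = σ (ev2 Φ x y) := by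
  unfold ev2
  have h1 : (σ : ℂ →+* ℂ) (eval y (Polynomial.map (eval₂RingHom (algebraMap A ℂ) x) Φ)) =
      eval (σ y) (Polynomial.map ((σ : ℂ →+* ℂ).comp (eval₂RingHom (algebraMap A ℂ) x)) Φ) := by
    rw [eval_map, eval_map, Polynomial.hom_eval₂]
    rfl
  have h2 : (σ : ℂ →+* ℂ).comp (eval₂RingHom (algebraMap A ℂ) x) =
      eval₂RingHom (algebraMap A ℂ) (σ x) := by
    apply Polynomial.ringHom_ext
    · intro a
      simpa using σ.commutes a
    · simp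
  rw [h2] at h1
  exact h1.symm

theorem spread1 (A : IntermediateField ℚ ℂ) (hA : IsAlgClosed A) (t : ℂ) (ht : t ∉ A)
    (y : ℂ) (hy : y ∈ ACL (insert t (A : Set ℂ))) :
    ∃ B : Finset ℂ, ∀ s₀, s₀ ∉ B → ∃ r > 0, ∃ (N : ℕ) (Y : Fin N → ℂ → ℂ),
      (∀ q, DifferentiableOn ℂ (Y q) (ball s₀ r)) ∧
      ∀ σ : ℂ ≃ₐ[A] ℂ, σ t ∈ ball s₀ r → ∃ q, σ y = Y q (σ t) := by
  obtain ⟨Φ, hΦ, hd, hz⟩ := acl_rel A hA t y ht hy
  obtain ⟨B, -, hB⟩ := nrm_simple A hA Φ hΦ hd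
  refine ⟨B, fun s₀ hs₀ => ?_⟩
  have hopen : IsOpen ((B : Set ℂ)ᶜ) := B.finite_toSet.isClosed.isOpen_compl
  obtain ⟨r, hr, hrB⟩ := Metric.isOpen_iff.1 hopen s₀ (by simpa using hs₀)
  have hnb : ∀ s ∈ ball s₀ r, s ∉ B := fun s hs => by simpa using hrB hs
  have hpf : PF (ball s₀ r) Φ.natDegree (nrmF Φ) := by
    have h := nrm_pf A Φ hΦ.ne_zero
    exact ⟨fun s _ => h.monic s (Set.mem_univ _), fun s _ => h.deg s (Set.mem_univ _),
      fun i => (h.coeff i).mono (Set.subset_univ _)⟩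
  obtain ⟨z, hzd, hzr⟩ := root_disc s₀ r hr Φ.natDegree (nrmF Φ) hpf
    (fun s hs => (hB s (hnb s hs)).2)
  refine ⟨r, hr, Φ.natDegree, fun q s => z q s / lcF Φ s, ?_, ?_⟩
  · intro q
    exact (hzd q).div ((lc_diff A Φ).differentiableOn) (fun s hs => (hB s (hnb s hs)).1)
  · intro σ hσ
    have h0 : ev2 Φ (σ t) (σ y) = 0 := by rw [ev2_aut, hz, map_zero]
    have hl := (hB _ (hnb _ hσ)).1
    have h1 := (nrm_root A Φ hd (σ t) hl (σ y)).2 h0
    have hne : nrmF Φ (σ t) ≠ 0 := (hpf.monic _ hσ).ne_zero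
    have h2 : lcF Φ (σ t) * σ y ∈ (nrmF Φ (σ t)).roots := by
      rw [mem_roots hne]; exact h1
    rw [hzr _ hσ] at h2
    simp only [Multiset.mem_map, Finset.mem_val, Finset.mem_univ, true_and] at h2
    obtain ⟨q, hq⟩ := h2
    refine ⟨q, ?_⟩
    show σ y = z q (σ t) / lcF Φ (σ t)
    rw [hq, mul_div_cancel_left₀ _ hl]

theorem spread (A : IntermediateField ℚ ℂ) (hA : IsAlgClosed A) (t : ℂ) (ht : t ∉ A) (n : ℕ)
    (y : Fin n → ℂ) (hy : ∀ i, y i ∈ ACL (insert t (A : Set ℂ))) :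
    ∃ B : Finset ℂ, ∀ s₀, s₀ ∉ B → ∃ r > 0, ∃ (N : ℕ) (Y : Fin N → Fin n → ℂ → ℂ),
      (∀ q i, DifferentiableOn ℂ (Y q i) (ball s₀ r)) ∧
      ∀ σ : ℂ ≃ₐ[A] ℂ, σ t ∈ ball s₀ r → ∃ q, ∀ i, σ (y i) = Y q i (σ t) := by
  classical
  choose B hB using fun i => spread1 A hA t ht (y i) (hy i)
  refine ⟨Finset.univ.biUnion B, fun s₀ hs₀ => ?_⟩
  have hs : ∀ i, s₀ ∉ B i := fun i hi => hs₀ (Finset.mem_biUnion.2 ⟨i, Finset.mem_univ _, hi⟩)
  choose r hr N Y hY hσ using fun i => hB i s₀ (hs i)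
  obtain ⟨ρ, hρ, hle⟩ : ∃ ρ > 0, ∀ i, ρ ≤ r i := by
    rcases Nat.eq_zero_or_pos n with hn | hn
    · subst hn
      exact ⟨1, one_pos, fun i => i.elim0⟩
    · have : Nonempty (Fin n) := ⟨⟨0, hn⟩⟩
      obtain ⟨i₁, hi₁⟩ := Finite.exists_min r
      exact ⟨r i₁, hr i₁, hi₁⟩
  let T := (∀ i : Fin n, Fin (N i))
  let e : T ≃ Fin (Fintype.card T) := Fintype.equivFin T
  refine ⟨ρ, hρ, Fintype.card T, fun q i => Y i (e.symm q i), ?_, ?_⟩
  · intro q i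
    exact (hY i _).mono (ball_subset_ball (hle i))
  · intro σ hσt
    choose q hq using fun i => hσ i σ (ball_subset_ball (hle i) hσt)
    refine ⟨e q, fun i => ?_⟩
    show σ (y i) = Y i (e.symm (e q) i) (σ t)
    rw [Equiv.symm_apply_apply]
    exact hq i

end Pool.Agent.LSF
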