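import Pool.Agent.LSF.BG1

/-!
BG2: algebraic independence and `ACL`.
-/

namespace Pool.Agent.LSF

theorem bg2_iff {ι : Type} (x : ι → ℂ) : AlgebraicIndependent ℚ x ↔
    Function.Injective x ∧ (AlgebraicIndependent.matroid ℚ ℂ).Indep (Set.range x) := by
  constructor
  · intro h
    exact ⟨h.injective, h.to_subtype_range⟩
  · rintro ⟨h1, h2⟩
    exact (algebraicIndependent_subtype_range h1).1 h2

theorem bg2_enc {ι : Type} [Fintype ι] (x : ι → ℂ) (hx : Function.Injective x) :
    (Set.range x).encard = (Fintype.card ι : ℕ∞) := by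
  rw [← Set.image_univ, hx.encard_image, Set.encard_univ, ENat.card_eq_coe_fintype_card]

theorem ai_not_mem {ι : Type} [Finite ι] (x : ι → ℂ) (hx : AlgebraicIndependent ℚ x) (i : ι) :
    x i ∉ ACL (x '' {j | j ≠ i}) := by
  obtain ⟨h1, h2⟩ := (bg2_iff x).1 hx
  rw [bg1_iff]
  have h3 := h2.notMem_closure_sdiff_of_mem (Set.mem_range_self i)
  have h4 : x '' {j | j ≠ i} = Set.range x \ {x i} := by
    ext z
    constructor
    · rintro ⟨j, hj, rfl⟩
      exact ⟨Set.mem_range_self j, fun h => hj (h1 h)⟩
    · rintro ⟨⟨j, rfl⟩, h⟩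
      exact ⟨j, fun e => h (by rw [e]; rfl), rfl⟩
  rw [h4]
  exact h3

theorem ai_of_not_mem (n : ℕ) (x : Fin n → ℂ) (h : ∀ i, x i ∉ ACL (x '' {j | j < i})) :
    AlgebraicIndependent ℚ x := by
  rw [bg2_iff]
  constructor
  · have key : ∀ i j : Fin n, i < j → x i ≠ x j := by
      intro i j hij e
      apply h j
      rw [← e]
      exact acl_sub _ ⟨i, hij, rfl⟩
    intro i j e
    rcases lt_trichotomy i j with hij | hij | hij
    · exact absurd e (key i j hij)
    · exact hij
    · exact absurd e.symm (key j i hij)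
  · have key : ∀ k : ℕ, k ≤ n →
        (AlgebraicIndependent.matroid ℚ ℂ).Indep (x '' {j | j.val < k}) := by
      intro k
      induction k with
      | zero =>
        intro _
        have : x '' {j | j.val < 0} = ∅ := by
          rw [Set.image_eq_empty]
          ext j; simp
        rw [this]
        exact Matroid.empty_indep _
      | succ k ih =>
        intro hk
        have h1 : x '' {j : Fin n | j.val < k + 1} =
            insert (x ⟨k, hk⟩) (x '' {j | j.val < k}) := by
          rw [← Set.image_insert_eq]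
          congr 1
          ext j
          simp only [Set.mem_ofPred_eq, Set.mem_insert_iff, Fin.ext_iff]
          omega
        rw [h1, Matroid.insert_indep_iff]
        refine ⟨ih (by omega), fun _ => ⟨Set.mem_univ _, ?_⟩⟩
        have h2 := h ⟨k, hk⟩
        rw [bg1_iff] at h2
        exact h2
    have h3 := key n le_rfl
    have h4 : x '' {j : Fin n | j.val < n} = Set.range x := by
      rw [← Set.image_univ]
      congr 1
      ext j
      simp
    rwa [h4] at h3

theorem ai_card {ι : Type} [Fintype ι] (x : ι → ℂ) (hx : AlgebraicIndependent ℚ x)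
    (S : Finset ℂ) (hS : ∀ i, x i ∈ ACL (S : Set ℂ)) : Fintype.card ι ≤ S.card := by
  obtain ⟨h1, h2⟩ := (bg2_iff x).1 hx
  have h3 : Set.range x ⊆ (AlgebraicIndependent.matroid ℚ ℂ).closure (S : Set ℂ) := by
    rintro _ ⟨i, rfl⟩
    exact (bg1_iff _ _).1 (hS i)
  have h4 := h2.encard_le_eRk_of_subset h3
  rw [Matroid.eRk_closure_eq, bg2_enc x h1] at h4
  have h5 := h4.trans (Matroid.eRk_le_encard _ _)
  rw [Set.encard_coe_eq_coe_finsetCard] at h5
  exact_mod_cast h5

theorem ai_basis {ι κ : Type} [Fintype ι] [Fintype κ] (x : ι → ℂ) (y : κ → ℂ)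
    (hc : Fintype.card κ ≤ Fintype.card ι) (hx : AlgebraicIndependent ℚ x)
    (h : ∀ i, x i ∈ ACL (Set.range y)) :
    AlgebraicIndependent ℚ y ∧ ∀ j, y j ∈ ACL (Set.range x) := by
  classical
  obtain ⟨h1, h2⟩ := (bg2_iff x).1 hx
  have h3 : Set.range x ⊆ (AlgebraicIndependent.matroid ℚ ℂ).closure (Set.range y) := by
    rintro _ ⟨i, rfl⟩
    exact (bg1_iff _ _).1 (h i)
  have h4 := h2.encard_le_eRk_of_subset h3
  rw [Matroid.eRk_closure_eq, bg2_enc x h1] at h4
  have h5 := Matroid.eRk_le_encard (AlgebraicIndependent.matroid ℚ ℂ) (Set.range y)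
  have h6 : (Set.range y).encard ≤ (Fintype.card κ : ℕ∞) := by
    rw [← Set.image_univ]
    refine (Set.encard_image_le y Set.univ).trans ?_
    rw [Set.encard_univ, ENat.card_eq_coe_fintype_card]
  have h7 : (Fintype.card κ : ℕ∞) ≤ (Fintype.card ι : ℕ∞) := by exact_mod_cast hc
  -- all are equal
  have e1 : (Set.range y).encard = (Fintype.card κ : ℕ∞) :=
    le_antisymm h6 (h7.trans (h4.trans h5))
  have e2 : (AlgebraicIndependent.matroid ℚ ℂ).eRk (Set.range y) = (Fintype.card κ : ℕ∞) :=
    le_antisymm (h5.trans h6) (h7.trans h4)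
  constructor
  · rw [bg2_iff]
    have hfin : (Set.range y).Finite := Set.finite_range y
    constructor
    · have e3 : Fintype.card (Set.range y) = Fintype.card κ := by
        have e4 : (Set.range y).ncard = Fintype.card κ := by
          rw [Set.ncard, e1]; simp
        rw [← e4, ← Nat.card_coe_set_eq, Nat.card_eq_fintype_card]
      have e5 : Function.Injective (Set.rangeFactorization y) :=
        (Fintype.bijective_iff_surjective_and_card _).2
          ⟨Set.rangeFactorization_surjective, e3.symm⟩ |>.1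
      intro a b hab
      exact e5 (Subtype.ext hab)
    · obtain ⟨I, hI⟩ := Matroid.exists_isBasis (AlgebraicIndependent.matroid ℚ ℂ) (Set.range y)
      have e3 := hI.encard_eq_eRk
      rw [e2, ← e1] at e3
      have e4 : I = Set.range y :=
        (hfin.subset hI.subset).eq_of_subset_of_encard_le hI.subset e3.ge
      rw [← e4]
      exact hI.indep
  · intro j
    rw [bg1_iff]
    by_contra hj
    have h8 : (AlgebraicIndependent.matroid ℚ ℂ).Indep (insert (y j) (Set.range x)) := by
      rw [Matroid.insert_indep_iff]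
      exact ⟨h2, fun _ => ⟨Set.mem_univ _, hj⟩⟩
    have h9 : y j ∉ Set.range x := by
      intro hh
      apply hj
      exact Matroid.subset_closure _ _ (Set.subset_univ _) hh
    have h10 : insert (y j) (Set.range x) ⊆
        (AlgebraicIndependent.matroid ℚ ℂ).closure (Set.range y) := by
      apply Set.insert_subset _ h3
      exact Matroid.subset_closure _ _ (Set.subset_univ _) (Set.mem_range_self j)
    have h11 := h8.encard_le_eRk_of_subset h10
    rw [Matroid.eRk_closure_eq, Set.encard_insert_of_notMem h9, bg2_enc x h1, e2] at h11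
    have h12 : Fintype.card ι + 1 ≤ Fintype.card κ := by exact_mod_cast h11
    omega

theorem ai_aut {ι : Type} (σ : ℂ ≃+* ℂ) (x : ι → ℂ) (hx : AlgebraicIndependent ℚ x) :
    AlgebraicIndependent ℚ (fun i => σ (x i)) :=
  hx.map' (f := (σ : ℂ →+* ℂ).toRatAlgHom) σ.injective

theorem ai_inter {ι : Type} [Finite ι] (b : ι → ℂ) (hb : AlgebraicIndependent ℚ b) (i₀ : ι)
    (μ : ℂ) (h0 : μ ∈ ACL (Set.range b)) (h : ∀ j, j ≠ i₀ → μ ∈ ACL (b '' {i | i ≠ j})) :
    μ ∈ ACL {b i₀} := by
  obtain ⟨h1, h2⟩ := (bg2_iff b).1 hb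
  let Js : Option {j : ι // j ≠ i₀} → Set ℂ := fun o =>
    match o with
    | none => Set.range b
    | some j => b '' {i | i ≠ j.1}
  have hJs : ∀ o, Js o ⊆ Set.range b := by
    rintro (_ | j)
    · exact subset_rfl
    · exact Set.image_subset_range _ _
  have h3 := h2.closure_iInter_eq_biInter_closure_of_forall_subset hJs
  have h4 : (⋂ i, Js i) = {b i₀} := by
    ext z
    simp only [Set.mem_iInter, Set.mem_singleton_iff]
    constructor
    · intro hz
      obtain ⟨i, rfl⟩ := hz none
      by_contra hne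
      have hi : i ≠ i₀ := fun e => hne (by rw [e])
      obtain ⟨k, hk, hk'⟩ := hz (some ⟨i, hi⟩)
      exact hk (h1 hk')
    · rintro rfl (_ | j)
      · exact Set.mem_range_self i₀
      · exact ⟨i₀, fun e => j.2 e.symm, rfl⟩
  rw [h4] at h3
  rw [bg1_iff, h3, Set.mem_iInter]
  rintro (_ | j)
  · exact (bg1_iff _ _).1 h0
  · exact (bg1_iff _ _).1 (h j.1 j.2)

end Pool.Agent.LSF
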