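import Pool.Agent.LSF.BEDefs
import Pool.Agent.LSF.BG2
import Pool.Agent.LSF.BG7

/-!
BE4: elementary facts about the line `s ↦ Function.update v i₀ s`.

Complete proofs.
`aut_upd`: for `i ≠ i₀`, `v i ∈ Ao v i₀` (`acl_sub`), so `σ (v i) = v i`
(`AlgEquiv.commutes`, `v i = algebraMap (Ao v i₀) ℂ ⟨v i, _⟩`).
`ao_facts`: `acl_isAlgClosed`, `acl_countable` (the image of a finite set is finite),
`acl_mono ∅ _`, `ai_not_mem`; `v i ∈ ACL (insert (v i₀) (Ao v i₀))` by `acl_sub` (`i = i₀`:
`v i₀ ∈ insert ..`; `i ≠ i₀`: `v i ∈ Ao v i₀`), so `ACL (Set.range v) ≤ ACL (insert (v i₀) (Ao v i₀))`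
(`acl_le`), which gives the claims for `a i` (`h.av`) and for `x ∈ XV d v m` (`px_acl`;
`x = mu d v m z` for some `z` with `PX d v m z`; `1 ≤ m` since `m` is prime, `h.prime`). Also
`L.b m a x ∈ ACL (insert ..)` because it is in `XV d u m` (`h.lnk`), so in `ACL (Set.range u)`
(`px_acl`) which is `≤ ACL (Set.range v)` (`h.vu`, `acl_le`).
`x ∉ Ao v i₀`: suppose `x ∈ Ao v i₀`, `x ∈ XV d v m`. For `x' ∈ XV d v m` let `π` exchange `x` and
`x'` (`Equiv.swap x x'`, a bijection of `XV d v m`); `h.sym {m}` gives `σ` with `σ (a i) = a i`, so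
`σ (v i) = v i` for all `i` (`h.va`), and `σ x = x'`. By `acl_aut`, `x' = σ x ∈ ACL (σ '' (v '' {..})) =
ACL (v '' {..})`. So `XV d v m ⊆ Ao v i₀`, and by `h.rankv` and `acl_le` `v i₀ ∈ ACL (XV d v m) ≤
ACL (Ao v i₀)`, so `v i₀ ∈ Ao v i₀` (`acl_self`), a contradiction.
`nf_fin`: the conditions `one_ne` and `top_ne` fail for at most one value of `s` each (the
coefficient `(nP d w).coeff (i+1) = w (Sum.inl i)`, `i < d - 1`: either it does not depend on `s` or
it is `s`). Coprimality of `nP d w`, `nQ d w`, `w = update v i₀ s`: over `ℂ` it fails iff there is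
a common root `z` (`IsCoprime` over an algebraically closed field; e.g. `Polynomial.isCoprime_iff_..`
or: a nonconstant gcd has a root); `(nQ d w).eval 0 = 1`, so `z ≠ 0`. If `i₀ = Sum.inl i`:
`nQ d w = nQ d v`, `nP d w = nP d v + C (s - v i₀) * X^(i+1)`, so `z` is a root of `nQ d v` (finitely
many, `nQ d v ≠ 0` is monic) and `s = v i₀ - (nP d v).eval z / z^(i+1)`: finitely many `s`. If
`i₀ = Sum.inr i`: `nP d w = nP d v ≠ 0` (`top_ne`), `nQ d w = nQ d v + C (s - v i₀) * X^(i+1)`, so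
`z` is a root of `nP d v` and `s = v i₀ - (nQ d v).eval z / z^(i+1)`.
-/

namespace Pool.Agent.LSF

open Polynomial Pool.Agent.LenSpec Metric

theorem aut_upd {d : ℕ} (v : VI d → ℂ) (i₀ : VI d) (σ : ℂ ≃ₐ[Ao v i₀] ℂ) :
    (fun i => σ (v i)) = Function.update v i₀ (σ (v i₀)) := by
  funext i
  by_cases hi : i = i₀
  · subst hi
    rw [Function.update_self]
  · rw [Function.update_of_ne hi]
    have hm : v i ∈ Ao v i₀ := acl_sub _ ⟨i, hi, rfl⟩
    exact σ.commutes ⟨v i, hm⟩

theorem BE4_nP (d : ℕ) (v : VI d → ℂ) (i : Fin (d - 1)) (s : ℂ) :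
    nP d (Function.update v (Sum.inl i) s) = nP d v + C (s - v (Sum.inl i)) * X ^ (i.val + 1) := by
  have h : nP d (Function.update v (Sum.inl i) s) - nP d v =
      C (s - v (Sum.inl i)) * X ^ (i.val + 1) := by
    unfold nP
    rw [← Finset.sum_sub_distrib, Finset.sum_eq_single i]
    · rw [Function.update_self, C_sub, sub_mul]
    · intro j _ hj
      have hne : (Sum.inl j : VI d) ≠ Sum.inl i := fun h => hj (Sum.inl_injective h)
      rw [Function.update_of_ne hne, sub_self]
    · intro h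
      exact absurd (Finset.mem_univ _) h
  rw [← h]
  ring

theorem BE4_nP' (d : ℕ) (v : VI d → ℂ) (i : Fin (d - 1)) (s : ℂ) :
    nP d (Function.update v (Sum.inr i) s) = nP d v := by
  unfold nP
  refine Finset.sum_congr rfl (fun j _ => ?_)
  rw [Function.update_of_ne (by simp)]

theorem BE4_nQ (d : ℕ) (v : VI d → ℂ) (i : Fin (d - 1)) (s : ℂ) :
    nQ d (Function.update v (Sum.inr i) s) = nQ d v + C (s - v (Sum.inr i)) * X ^ (i.val + 1) := by
  have h : nR d (Function.update v (Sum.inr i) s) - nR d v =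
      C (s - v (Sum.inr i)) * X ^ (i.val + 1) := by
    unfold nR
    rw [← Finset.sum_sub_distrib, Finset.sum_eq_single i]
    · rw [Function.update_self, C_sub, sub_mul]
    · intro j _ hj
      have hne : (Sum.inr j : VI d) ≠ Sum.inr i := fun h => hj (Sum.inr_injective h)
      rw [Function.update_of_ne hne, sub_self]
    · intro h
      exact absurd (Finset.mem_univ _) h
  unfold nQ
  rw [← h]
  ring

theorem BE4_nQ' (d : ℕ) (v : VI d → ℂ) (i : Fin (d - 1)) (s : ℂ) :
    nQ d (Function.update v (Sum.inl i) s) = nQ d v := by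
  unfold nQ nR
  congr 2

theorem BE4_coeff (d : ℕ) (v : VI d → ℂ) (i : Fin (d - 1)) :
    (nP d v).coeff (i.val + 1) = v (Sum.inl i) := by
  unfold nP
  rw [finsetSum_coeff, Finset.sum_eq_single i]
  · simp
  · intro j _ hj
    rw [coeff_C_mul_X_pow, if_neg]
    intro h
    apply hj
    ext
    omega
  · intro h
    exact absurd (Finset.mem_univ _) h

theorem BE4_cop {P Q : ℂ[X]} (h : ¬ IsCoprime P Q) : ∃ z, P.eval z = 0 ∧ Q.eval z = 0 := by
  by_contra hc
  push Not at hc
  apply h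
  rw [Polynomial.isCoprime_iff_aeval_ne_zero_of_isAlgClosed ℂ ℂ]
  intro a
  by_cases ha : P.eval a = 0
  · right
    simpa [Polynomial.aeval_def] using hc a ha
  · left
    simpa [Polynomial.aeval_def] using ha

theorem nf_fin (d : ℕ) (v : VI d → ℂ) (hv : Nf d v) (i₀ : VI d) :
    {s : ℂ | ¬ Nf d (Function.update v i₀ s)}.Finite := by
  have hd := hv.two_le
  have hQ0 : ∀ w : VI d → ℂ, (nQ d w).eval 0 = 1 := fun w => (n_eval_zero d hd w).2.2
  have hQne : nQ d v ≠ 0 := (nQ_monic d hd v).1.ne_zero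
  have hPne : nP d v ≠ 0 := by
    intro h
    apply hv.top_ne
    rw [h, coeff_zero]
  have hS3 : {s : ℂ | ¬ IsCoprime (nP d (Function.update v i₀ s))
      (nQ d (Function.update v i₀ s))}.Finite := by
    rcases i₀ with i | i
    · apply ((nQ d v).roots.toFinset.finite_toSet.image
        (fun z => v (Sum.inl i) - (nP d v).eval z / z ^ (i.val + 1))).subset
      intro s hs
      obtain ⟨z, hz1, hz2⟩ := BE4_cop hs
      have hz0 : z ≠ 0 := by
        intro h
        rw [h, hQ0] at hz2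
        exact one_ne_zero hz2
      rw [BE4_nQ'] at hz2
      rw [BE4_nP] at hz1
      simp only [eval_add, eval_mul, eval_C, eval_pow, eval_X] at hz1
      refine ⟨z, ?_, ?_⟩
      · simp only [Finset.mem_coe, Multiset.mem_toFinset]
        rw [mem_roots hQne]
        exact hz2
      · have hp : z ^ (i.val + 1) ≠ 0 := pow_ne_zero _ hz0
        show v (Sum.inl i) - (nP d v).eval z / z ^ (i.val + 1) = s
        have : (nP d v).eval z = - (s - v (Sum.inl i)) * z ^ (i.val + 1) := by
          linear_combination hz1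
        rw [this, mul_div_cancel_right₀ _ hp]
        ring
    · apply ((nP d v).roots.toFinset.finite_toSet.image
        (fun z => v (Sum.inr i) - (nQ d v).eval z / z ^ (i.val + 1))).subset
      intro s hs
      obtain ⟨z, hz1, hz2⟩ := BE4_cop hs
      have hz0 : z ≠ 0 := by
        intro h
        rw [h, hQ0] at hz2
        exact one_ne_zero hz2
      rw [BE4_nP'] at hz1
      rw [BE4_nQ] at hz2
      simp only [eval_add, eval_mul, eval_C, eval_pow, eval_X] at hz2
      refine ⟨z, ?_, ?_⟩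
      · simp only [Finset.mem_coe, Multiset.mem_toFinset]
        rw [mem_roots hPne]
        exact hz1
      · have hp : z ^ (i.val + 1) ≠ 0 := pow_ne_zero _ hz0
        show v (Sum.inr i) - (nQ d v).eval z / z ^ (i.val + 1) = s
        have : (nQ d v).eval z = - (s - v (Sum.inr i)) * z ^ (i.val + 1) := by
          linear_combination hz2
        rw [this, mul_div_cancel_right₀ _ hp]
        ring
  apply ((Set.finite_singleton (1 : ℂ)).union
    ((Set.finite_singleton (0 : ℂ)).union hS3)).subset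
  intro s hs
  by_contra hc
  simp only [Set.mem_union, Set.mem_singleton_iff, Set.mem_ofPred_eq, not_or, not_not] at hc
  obtain ⟨h1, h0, hco⟩ := hc
  apply hs
  have hcf : ∀ i : Fin (d - 1), ∀ c : ℂ, s ≠ c → (nP d v).coeff (i.val + 1) ≠ c →
      (nP d (Function.update v i₀ s)).coeff (i.val + 1) ≠ c := by
    intro i c hsc hvc
    rw [BE4_coeff] at hvc ⊢
    by_cases hi : Sum.inl i = i₀
    · rw [hi, Function.update_self]
      exact hsc
    · rw [Function.update_of_ne hi]
      exact hvc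
  refine ⟨hd, hco, ?_, ?_⟩
  · exact hcf ⟨0, by omega⟩ 1 h1 hv.one_ne
  · have he : d - 2 + 1 = d - 1 := by omega
    have := hcf ⟨d - 2, by omega⟩ 0 h0 (by
      show (nP d v).coeff (d - 2 + 1) ≠ 0
      rw [he]
      exact hv.top_ne)
    simpa [he] using this

theorem BE4_swap {X : Set ℂ} {x x' : ℂ} (hx : x ∈ X) (hx' : x' ∈ X) :
    Set.BijOn (Equiv.swap x x') X X := by
  classical
  have hm : Set.MapsTo (Equiv.swap x x') X X := by
    intro y hy
    rw [Equiv.swap_apply_def]
    split_ifs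
    · exact hx'
    · exact hx
    · exact hy
  refine ⟨hm, (Equiv.swap x x').injective.injOn, ?_⟩
  intro y hy
  exact ⟨Equiv.swap x x' y, hm hy, Equiv.swap_apply_self _ _ _⟩

theorem ao_facts {d : ℕ} {MM : Set ℕ} {k : ℕ} {L : LinkD k} {v u : VI d → ℂ} {a : Fin k → ℂ}
    (h : GP d MM k L v u a) (i₀ : VI d) :
    IsAlgClosed (Ao v i₀) ∧ (Ao v i₀ : Set ℂ).Countable ∧ K0 ≤ Ao v i₀ ∧ v i₀ ∉ Ao v i₀ ∧
    (∀ i, v i ∈ ACL (insert (v i₀) (Ao v i₀ : Set ℂ))) ∧
    (∀ i, a i ∈ ACL (insert (v i₀) (Ao v i₀ : Set ℂ))) ∧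
    ∀ m ∈ MM, ∀ x ∈ XV d v m, x ∈ ACL (insert (v i₀) (Ao v i₀ : Set ℂ)) ∧ x ∉ Ao v i₀ := by
  have hv0 : v i₀ ∉ Ao v i₀ := ai_not_mem v h.aiv i₀
  have hv : ∀ i, v i ∈ ACL (insert (v i₀) (Ao v i₀ : Set ℂ)) := by
    intro i
    apply acl_sub
    by_cases hi : i = i₀
    · left
      rw [hi]
    · right
      exact acl_sub _ ⟨i, hi, rfl⟩
  have hle : ACL (Set.range v) ≤ ACL (insert (v i₀) (Ao v i₀ : Set ℂ)) := by
    apply acl_le
    rintro _ ⟨i, rfl⟩
    exact hv i
  refine ⟨acl_isAlgClosed _, acl_countable _ (Set.toFinite _).countable,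
    acl_mono _ _ (Set.empty_subset _), hv0, hv, fun i => hle (h.av i), ?_⟩
  intro m hm x hx
  have hpx : ∀ x' ∈ XV d v m, x' ∈ ACL (Set.range v) := by
    rintro x' ⟨z, hz, rfl⟩
    exact (px_acl d m (h.prime m hm).one_lt.le v h.vgv.nf z hz).2
  refine ⟨hle (hpx x hx), fun hxA => hv0 ?_⟩
  have hall : XV d v m ⊆ (Ao v i₀ : Set ℂ) := by
    intro x' hx'
    obtain ⟨σ, hσa, hσx⟩ := h.sym {m} (fun k hk => by
        rw [Finset.mem_singleton] at hk
        rw [hk]
        exact hm) (fun _ => Equiv.swap x x') (fun k hk => by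
        rw [Finset.mem_singleton] at hk
        rw [hk]
        exact BE4_swap hx hx')
    have h1 : σ x = x' := by
      rw [hσx m (Finset.mem_singleton_self m) x hx]
      exact Equiv.swap_apply_left _ _
    have hσv : ∀ i, σ (v i) = v i := by
      intro i
      obtain ⟨j, hj⟩ := h.va i
      rw [← hj]
      exact hσa j
    have h2 := acl_aut (σ : ℂ ≃+* ℂ) (v '' {i | i ≠ i₀}) x hxA
    have h3 : ((σ : ℂ ≃+* ℂ) '' (v '' {i | i ≠ i₀})) = v '' {i | i ≠ i₀} := by
      rw [Set.image_image]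
      exact Set.image_congr (fun i _ => hσv i)
    rw [h3] at h2
    have h4 : (σ : ℂ ≃+* ℂ) x = x' := h1
    rw [h4] at h2
    exact h2
  exact acl_self _ _ (acl_mono _ _ hall (h.rankv m hm i₀))

end Pool.Agent.LSF
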