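import Pool.Agent.LSF.BEDefs

/-!
BE5: continuity of roots for a polynomial in two variables, also at infinity.

Complete proofs.
`hur`: `G : ℂ → ℂ[X]` is a family of polynomials of degree `≤ n` with coefficients continuous at
`w₀` and `G w₀ ≠ 0`; `f : ℂ → ..` is not needed. Hypothesis: roots of `G w` accumulate at `e` as
`w → w₀` along `l ≤ nhds w₀`. First `(G w₀).eval e = 0`: the map `(w, y) ↦ (G w).eval y =
∑_{i ≤ n} (G w).coeff i * y^i` is continuous at `(w₀, e)`, and `(w₀, e)` is a limit of zeros. Let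
`ε > 0`. `G w₀` has finitely many roots, so there is `0 < ρ < ε` such that `(G w₀).eval y ≠ 0` for
`‖y - e‖ = ρ` (e.g. no root except `e` in the closed ball). Let `δ > 0` be the minimum of
`‖(G w₀).eval y‖` on the compact circle. For `w` near `w₀`: `‖(G w).eval y - (G w₀).eval y‖ < δ / 3`
for all `‖y - e‖ ≤ ρ` (`∑ |coeff difference| (‖e‖ + ρ)^i`). Suppose `G w` has no root in
`ball e ρ`; it has none on the circle, so `1 / (G w).eval` is holomorphic on a neighbourhood of the
closed ball and by the maximum principle (`Complex.norm_le_of_forall_mem_frontier_norm_le` or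
`Complex.exists_mem_frontier_isMaxOn_norm`) `1 / ‖(G w).eval e‖ ≤ 3 / (2 δ)`, but
`‖(G w).eval e‖ < δ / 3`, a contradiction. (Alternatively: product formula: if all roots of `G w` are
at distance `≥ ρ` from `e` then `‖(G w).eval y‖ ≤ 2^n ‖(G w).eval e‖` for `‖y - e‖ ≤ ρ`, since
`‖y - r‖ ≤ 2 ‖e - r‖`; this avoids complex analysis: choose `δ / 3` replaced by `δ / 2^(n+2)`.)
`hur_ev`: `M ∈ A[X][Y]` irreducible with positive degree in `Y` is primitive, so `M(s₀, ·) ≠ 0` for
every `s₀ ∈ ℂ`: otherwise all coefficients `M_i(X)` vanish at `s₀`; `s₀` is then algebraic over `A`,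
so in `A` (`IsAlgClosed A`) and `X - s₀` divides all `M_i`, i.e. `C (X - C s₀) ∣ M`, a contradiction
to `IsPrimitive` (`Irreducible.isPrimitive`). Case `l = nhds s₀`: `hur` with
`G s := M.map (eval₂RingHom (algebraMap A ℂ) s)`, `w₀ = s₀`, `l = nhds s₀`.
Case `l = cobounded ℂ`: let `N` be the maximum of the degrees of the coefficients `M_i`, let
`M_i^*(w) := w^N M_i(1/w)` for `w ≠ 0`, a polynomial in `w` with value `coeff N` at `w = 0`
(`Polynomial.reflect N`), `G w := ∑ M_i^*(w) Y^i`; `G 0 ≠ 0` by the choice of `N`; for `w ≠ 0`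
`(G w).eval y = w^N ev2 M (1/w) y`. Apply `hur` with `w₀ = 0` and `l = nhdsWithin 0 {0}ᶜ`, and
`Filter.tendsto_inv₀_cobounded`, `tendsto_inv₀_nhdsNE_zero` (`w ↦ w⁻¹` exchanges `cobounded ℂ` and
`nhdsWithin 0 {0}ᶜ`: `Filter.inv_cobounded₀`/`Filter.inv_nhdsWithin_ne_zero`).
-/

namespace Pool.Agent.LSF

open Polynomial Metric Filter

theorem BE5_prod (y e : ℂ) (ρ : ℝ) (hy : ‖y - e‖ ≤ ρ) (s : Multiset ℂ)
    (hs : ∀ r ∈ s, ρ ≤ ‖r - e‖) :
    ‖(s.map (fun r => y - r)).prod‖ ≤ 2 ^ s.card * ‖(s.map (fun r => e - r)).prod‖ := by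
  induction s using Multiset.induction_on with
  | empty => simp
  | cons a s ih =>
    have h1 := ih fun r hr => hs r (Multiset.mem_cons_of_mem hr)
    have h2 := hs a (Multiset.mem_cons_self a s)
    rw [Multiset.map_cons, Multiset.prod_cons, Multiset.map_cons, Multiset.prod_cons,
      Multiset.card_cons, norm_mul, norm_mul, pow_succ]
    have h3 : ‖y - a‖ ≤ 2 * ‖e - a‖ := by
      have h4 : ‖y - a‖ ≤ ‖y - e‖ + ‖e - a‖ := by
        have := norm_add_le (y - e) (e - a)
        rwa [sub_add_sub_cancel] at this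
      rw [norm_sub_rev e a] at h4 ⊢
      linarith
    calc ‖y - a‖ * ‖(s.map (fun r => y - r)).prod‖
        ≤ (2 * ‖e - a‖) * (2 ^ s.card * ‖(s.map (fun r => e - r)).prod‖) :=
          mul_le_mul h3 h1 (norm_nonneg _) (by positivity)
      _ = _ := by ring

theorem BE5_growth (n : ℕ) (P : ℂ[X]) (hd : P.natDegree ≤ n) (y e : ℂ) (ρ : ℝ)
    (hy : ‖y - e‖ ≤ ρ) (h : ∀ r, P.eval r = 0 → ρ ≤ ‖r - e‖) :
    ‖P.eval y‖ ≤ 2 ^ n * ‖P.eval e‖ := by
  have hs := IsAlgClosed.splits P
  rw [hs.eval_eq_prod_roots y, hs.eval_eq_prod_roots e, norm_mul, norm_mul]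
  have h1 := BE5_prod y e ρ hy P.roots fun r hr => h r (isRoot_of_mem_roots hr)
  have h2 : P.roots.card ≤ n := (card_roots' P).trans hd
  have h3 : (2 : ℝ) ^ P.roots.card ≤ 2 ^ n := pow_le_pow_right₀ one_le_two h2
  calc ‖P.leadingCoeff‖ * ‖(P.roots.map (fun r => y - r)).prod‖
      ≤ ‖P.leadingCoeff‖ * (2 ^ n * ‖(P.roots.map (fun r => e - r)).prod‖) := by
        refine mul_le_mul_of_nonneg_left (h1.trans ?_) (norm_nonneg _)
        exact mul_le_mul_of_nonneg_right h3 (norm_nonneg _)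
    _ = _ := by ring

theorem hur (n : ℕ) (G : ℂ → ℂ[X]) (w₀ : ℂ) (hd : ∀ w, (G w).natDegree ≤ n)
    (hc : ∀ i, ContinuousAt (fun w => (G w).coeff i) w₀) (h0 : G w₀ ≠ 0) (l : Filter ℂ)
    (hl : l ≤ nhds w₀) (e : ℂ)
    (he : ∀ ε : ℝ, 0 < ε → ∃ᶠ w in l, ∃ y, ‖y - e‖ < ε ∧ (G w).eval y = 0) :
    ∀ ε : ℝ, 0 < ε → ∀ᶠ w in l, ∃ y, ‖y - e‖ < ε ∧ (G w).eval y = 0 := by
  have hev : ∀ w y, (G w).eval y = ∑ i ∈ Finset.range (n + 1), (G w).coeff i * y ^ i :=
    fun w y => eval_eq_sum_range' (Nat.lt_succ_of_le (hd w)) y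
  -- `e` is a root
  have hroot : (G w₀).eval e = 0 := by
    by_contra hne
    have hcont : ContinuousAt (fun p : ℂ × ℂ => (G p.1).eval p.2) (w₀, e) := by
      have h1 : (fun p : ℂ × ℂ => (G p.1).eval p.2) =
          fun p : ℂ × ℂ => ∑ i ∈ Finset.range (n + 1), (G p.1).coeff i * p.2 ^ i := by
        funext p; exact hev p.1 p.2
      rw [h1]
      refine tendsto_finsetSum _ fun i _ => ?_
      refine Tendsto.mul ?_ ?_
      · exact (hc i).tendsto.comp continuousAt_fst
      · exact (continuousAt_snd.pow i)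
    have h2 : ∀ᶠ p in nhds ((w₀, e) : ℂ × ℂ), (G p.1).eval p.2 ≠ 0 :=
      hcont.eventually_ne hne
    rw [nhds_prod_eq, Filter.eventually_prod_iff] at h2
    obtain ⟨pa, hpa, pb, hpb, hab⟩ := h2
    obtain ⟨ε, hε, hball⟩ := Metric.eventually_nhds_iff_ball.1 hpb
    have h3 := (he ε hε).and_eventually (hl hpa)
    obtain ⟨w, ⟨y, hy, hy0⟩, hw⟩ := h3.exists
    exact hab hw (hball y (by rw [mem_ball_iff_norm]; exact hy)) hy0
  intro ε hε
  -- a point near `e` which is not a root of `G w₀`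
  obtain ⟨y₁, hy₁, hy₁0⟩ : ∃ y₁, ‖y₁ - e‖ < ε ∧ (G w₀).eval y₁ ≠ 0 := by
    have hfin : {y | (G w₀).IsRoot y}.Finite := by
      exact Polynomial.finite_setOfPred_isRoot h0
    have hinf : (ball e ε).Infinite := infinite_of_mem_nhds e (ball_mem_nhds e hε)
    obtain ⟨y, hy, hy'⟩ := hinf.exists_notMem_finite hfin
    exact ⟨y, by rw [← mem_ball_iff_norm]; exact hy, hy'⟩
  have hcy : ∀ y, Tendsto (fun w => (G w).eval y) l (nhds ((G w₀).eval y)) := by
    intro y
    have h1 : (fun w => (G w).eval y) =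
        fun w => ∑ i ∈ Finset.range (n + 1), (G w).coeff i * y ^ i := by
      funext w; exact hev w y
    rw [h1, hev]
    refine (tendsto_finsetSum _ fun i _ => ?_).mono_left hl
    exact (hc i).tendsto.mul tendsto_const_nhds
  have h1 : Tendsto (fun w => 2 ^ n * ‖(G w).eval e‖) l (nhds (2 ^ n * ‖(G w₀).eval e‖)) :=
    (hcy e).norm.const_mul _
  have h2 : Tendsto (fun w => ‖(G w).eval y₁‖) l (nhds ‖(G w₀).eval y₁‖) := (hcy y₁).norm
  have h3 : 2 ^ n * ‖(G w₀).eval e‖ < ‖(G w₀).eval y₁‖ := by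
    rw [hroot, norm_zero, mul_zero]
    exact norm_pos_iff.2 hy₁0
  filter_upwards [h1.eventually_lt h2 h3] with w hw
  by_contra hcon
  push Not at hcon
  refine absurd hw (not_lt.2 (BE5_growth n (G w) (hd w) y₁ e ‖y₁ - e‖ le_rfl fun r hr => ?_))
  by_contra h5
  rw [not_le] at h5
  exact hcon r (h5.trans hy₁) hr

theorem BE5_prim (A : IntermediateField ℚ ℂ) (hA : IsAlgClosed A) (M : Polynomial (Polynomial A))
    (hM : Irreducible M) (hd : 0 < M.natDegree) (s : ℂ)
    (h : ∀ i, (M.coeff i).eval₂ (algebraMap A ℂ) s = 0) : False := by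
  have hne : M.coeff M.natDegree ≠ 0 := by
    rw [coeff_natDegree]
    exact leadingCoeff_ne_zero.2 hM.ne_zero
  have halg : IsAlgebraic A s := ⟨M.coeff M.natDegree, hne, by rw [aeval_def]; exact h _⟩
  have hdeg : (minpoly A s).degree = 1 :=
    IsAlgClosed.degree_eq_one_of_irreducible A (minpoly.irreducible halg.isIntegral)
  obtain ⟨a, ha⟩ := minpoly.mem_range_of_degree_eq_one A s hdeg
  have hdvd : Polynomial.C (X - Polynomial.C a) ∣ M := by
    rw [C_dvd_iff_dvd_coeff]
    intro i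
    rw [dvd_iff_isRoot, IsRoot]
    have h1 := h i
    rw [← ha, eval₂_at_apply] at h1
    exact (algebraMap A ℂ).injective (by rw [h1, map_zero])
  exact not_isUnit_X_sub_C a (hM.isPrimitive hd.ne' _ hdvd)

theorem hur_ev (A : IntermediateField ℚ ℂ) (hA : IsAlgClosed A) (M : Polynomial (Polynomial A))
    (hM : Irreducible M) (hd : 0 < M.natDegree) (l : Filter ℂ)
    (hl : (∃ s₀, l = nhds s₀) ∨ l = Bornology.cobounded ℂ) (e : ℂ)
    (he : ∀ ε : ℝ, 0 < ε → ∃ᶠ s in l, ∃ y, ‖y - e‖ < ε ∧ ev2 M s y = 0) :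
    ∀ ε : ℝ, 0 < ε → ∀ᶠ s in l, ∃ y, ‖y - e‖ < ε ∧ ev2 M s y = 0 := by
  rcases hl with ⟨s₀, rfl⟩ | rfl
  · refine hur M.natDegree (fun s => M.map (eval₂RingHom (algebraMap A ℂ) s)) s₀
      (fun w => natDegree_map_le) (fun i => ?_) (fun h0 => ?_) (nhds s₀) le_rfl e he
    · simp only [coeff_map, coe_eval₂RingHom]
      have h1 : (fun w : ℂ => (M.coeff i).eval₂ (algebraMap A ℂ) w) =
          fun w => ((M.coeff i).map (algebraMap A ℂ)).eval w := by
        funext w; rw [eval_map]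
      rw [h1]
      exact (Polynomial.continuous _).continuousAt
    · refine BE5_prim A hA M hM hd s₀ fun i => ?_
      have h1 := congrArg (fun P : ℂ[X] => P.coeff i) h0
      simpa using h1
  · obtain ⟨N, hN⟩ : ∃ N, N = M.support.sup fun i => (M.coeff i).natDegree := ⟨_, rfl⟩
    have hNd : ∀ i, (M.coeff i).natDegree ≤ N := by
      intro i
      by_cases hi : i ∈ M.support
      · rw [hN]; exact Finset.le_sup (f := fun i => (M.coeff i).natDegree) hi
      · rw [notMem_support_iff.1 hi, natDegree_zero]; exact Nat.zero_le N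
    obtain ⟨G, hG⟩ : ∃ G : ℂ → ℂ[X], G = fun w => ∑ i ∈ Finset.range (M.natDegree + 1),
        monomial i ((reflect N (M.coeff i)).eval₂ (algebraMap A ℂ) w) := ⟨_, rfl⟩
    have hGc : ∀ w i, (G w).coeff i = (reflect N (M.coeff i)).eval₂ (algebraMap A ℂ) w := by
      intro w i
      rw [hG]
      simp only [finsetSum_coeff, coeff_monomial, Finset.sum_ite_eq', Finset.mem_range]
      by_cases hi : i < M.natDegree + 1
      · rw [if_pos hi]
      · rw [if_neg hi, coeff_eq_zero_of_natDegree_lt (by omega : M.natDegree < i),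
          reflect_zero, eval₂_zero]
    have hGd : ∀ w, (G w).natDegree ≤ M.natDegree := by
      intro w
      rw [natDegree_le_iff_coeff_eq_zero]
      intro i hi
      rw [hGc, coeff_eq_zero_of_natDegree_lt hi, reflect_zero, eval₂_zero]
    have hGs : ∀ s : ℂ, s ≠ 0 → ∀ y, (G s⁻¹).eval y * s ^ N = ev2 M s y := by
      intro s hs y
      rw [eval_eq_sum_range' (Nat.lt_succ_of_le (hGd _)), Finset.sum_mul]
      unfold ev2
      rw [eval_eq_sum_range' (Nat.lt_succ_of_le (natDegree_map_le :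
        (M.map (eval₂RingHom (algebraMap A ℂ) s)).natDegree ≤ M.natDegree))]
      refine Finset.sum_congr rfl fun i _ => ?_
      rw [hGc, coeff_map, coe_eval₂RingHom]
      have := invertibleOfNonzero hs
      have h1 := eval₂_reflect_mul_pow (algebraMap A ℂ) s N (M.coeff i) (hNd i)
      rw [invOf_eq_inv] at h1
      rw [← h1]
      ring
    have hG0 : G 0 ≠ 0 := by
      intro h0
      have hsupp : M.support.Nonempty := by
        rw [Polynomial.support_nonempty]; exact hM.ne_zero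
      obtain ⟨i, hi, hi'⟩ := Finset.exists_mem_eq_sup M.support hsupp
        (fun i => (M.coeff i).natDegree)
      rw [← hN] at hi'
      have h1 := congrArg (fun P : ℂ[X] => P.coeff i) h0
      simp only [hGc, coeff_zero] at h1
      rw [eval₂_at_zero, coeff_reflect, revAt_le (Nat.zero_le N), Nat.sub_zero, hi',
        coeff_natDegree] at h1
      exact mem_support_iff.1 hi (leadingCoeff_eq_zero.1
        ((algebraMap A ℂ).injective (by rw [h1, map_zero])))
    have hfr : ∀ ε : ℝ, 0 < ε → ∃ᶠ w in nhdsWithin (0 : ℂ) {0}ᶜ,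
        ∃ y, ‖y - e‖ < ε ∧ (G w).eval y = 0 := by
      intro ε hε
      refine tendsto_inv₀_cobounded'.frequently ?_
      refine ((he ε hε).and_eventually (Bornology.eventually_ne_cobounded (0 : ℂ))).mono ?_
      rintro s ⟨⟨y, hy, hy0⟩, hs⟩
      refine ⟨y, hy, ?_⟩
      have h1 := hGs s hs y
      rw [hy0] at h1
      rcases mul_eq_zero.1 h1 with h2 | h2
      · exact h2
      · exact absurd h2 (pow_ne_zero _ hs)
    intro ε hε
    have h1 := hur M.natDegree G 0 hGd (fun i => ?_) hG0 (nhdsWithin 0 {0}ᶜ) nhdsWithin_le_nhds e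
      hfr ε hε
    · filter_upwards [tendsto_inv₀_cobounded'.eventually h1,
        Bornology.eventually_ne_cobounded (0 : ℂ)] with s hs hs0
      obtain ⟨y, hy, hy0⟩ := hs
      refine ⟨y, hy, ?_⟩
      rw [← hGs s hs0 y, hy0, zero_mul]
    · simp only [hGc]
      have h1 : (fun w : ℂ => (reflect N (M.coeff i)).eval₂ (algebraMap A ℂ) w) =
          fun w => ((reflect N (M.coeff i)).map (algebraMap A ℂ)).eval w := by
        funext w; rw [eval_map]
      rw [h1]
      exact (Polynomial.continuous _).continuousAt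

end Pool.Agent.LSF
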