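import Pool.Agent.LSF.BT11
import Pool.Agent.LSF.BT12

/-!
BT13 (T3): a map of degree `d` in normal form has at most `2 d - 2` attracting cycles with nonzero
multiplier.

Complete proof. Suppose `card ι > 2 d - 2 = card (VI d)` (replace `ι` by a subtype with exactly
`2 d - 1` elements if wanted; not needed). For each `i` let `Z i := orb P Q (m i) (z i)`; these are
pairwise disjoint by `hd` (if the orbits meet they coincide, and then `z j = f^k (z i)` for some
`k`). `β i z := 1 / derivAt P Q z` for `z ∈ Z i` and `0` elsewhere (`derivAt ≠ 0` on `Z i` since the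
product of them is the multiplier, which is not `0`), so `β i z * f'(z) = 1` on `Z i`; `cycf` gives
`γ i` with `Inv P Q (Z i) (β i) (γ i)`, `γ i = 0` off `Z i`.
The functionals `L i := LT d v (Z i) (β i) (γ i)` are linear forms on `VI d → ℂ`
(`tanP` is linear in `δ`; `lf_add`, `lf_smul`), a space of dimension `2 d - 2 < card ι`, so they
are linearly dependent: there is `c : ι → ℂ`, not all zero, with `∑ i, c i * L i δ = 0` for all `δ`
(e.g. `Module.exists_nontrivial_relation_of_finrank_lt_card` in the dual space, or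
`exists_nontrivial_relation..` applied to the vectors `(L i)`).
Let `Z := ⋃ Z i` (disjoint union), `β z := ∑ i, c i * β i z`, `γ z := ∑ i, c i * γ i z`; on `Z i`
they are `c i * β i`, `c i * γ i`. Then `Inv P Q Z β γ` (check on each `Z i`; injectivity of `f` on
`Z`: `Z i` are disjoint cycles), `Att P Q Z`, and `LT d v Z β γ δ = ∑ i, c i * L i δ = 0`. By
`kill`: `β = 0` on `Z`, but on `Z i` with `c i ≠ 0` it is `c i / f'(z) ≠ 0`. Contradiction.
-/

namespace Pool.Agent.LSF

open Polynomial Pool.Agent.LenSpec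

theorem bt13_tan_add (d : ℕ) (v δ ε : VI d → ℂ) : tanP d v (δ + ε) = tanP d v δ + tanP d v ε := by
  simp only [tanP, bt10_nP_add, bt10_nR_add]
  ring

theorem bt13_tan_smul (d : ℕ) (v δ : VI d → ℂ) (a : ℂ) : tanP d v (a • δ) = C a * tanP d v δ := by
  simp only [tanP, bt10_nP_smul, bt10_nR_smul]
  ring

theorem bt13_diff (d : ℕ) (v δ : VI d → ℂ) (z : ℂ) (hz : (nQ d v).eval z ≠ 0) :
    DifferentiableAt ℂ (fun z => (tanP d v δ).eval z / ((nQ d v).eval z) ^ 2) z :=
  DifferentiableAt.div (Polynomial.differentiable _).differentiableAt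
    ((Polynomial.differentiable _).differentiableAt.pow 2) (pow_ne_zero 2 hz)

theorem bt13_LT_add (d : ℕ) (v : VI d → ℂ) (Z : Finset ℂ) (β γ : ℂ → ℂ)
    (hne : ∀ z ∈ Z, (nQ d v).eval z ≠ 0) (δ ε : VI d → ℂ) :
    LT d v Z β γ (δ + ε) = LT d v Z β γ δ + LT d v Z β γ ε := by
  unfold LT
  rw [← lf_add Z β γ _ _ (fun z hz => bt13_diff d v δ z (hne z hz))
    (fun z hz => bt13_diff d v ε z (hne z hz))]
  congr 1
  funext z
  rw [bt13_tan_add, eval_add, add_div]

theorem bt13_LT_smul (d : ℕ) (v : VI d → ℂ) (Z : Finset ℂ) (β γ : ℂ → ℂ) (a : ℂ)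
    (δ : VI d → ℂ) : LT d v Z β γ (a • δ) = a * LT d v Z β γ δ := by
  unfold LT
  rw [← lf_smul]
  congr 1
  funext z
  rw [bt13_tan_smul, eval_mul, eval_C, mul_div_assoc]

/-- the functional as a linear form -/
noncomputable def bt13_form (d : ℕ) (v : VI d → ℂ) (Z : Finset ℂ) (β γ : ℂ → ℂ)
    (hne : ∀ z ∈ Z, (nQ d v).eval z ≠ 0) : (VI d → ℂ) →ₗ[ℂ] ℂ where
  toFun δ := LT d v Z β γ δ
  map_add' := bt13_LT_add d v Z β γ hne
  map_smul' a δ := by
    simp only [RingHom.id_apply, smul_eq_mul]
    exact bt13_LT_smul d v Z β γ a δ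

theorem t3 (d : ℕ) (v : VI d → ℂ) (hv : Nf d v) (ι : Type) [Fintype ι] (m : ι → ℕ) (z : ι → ℂ)
    (hm : ∀ i, 1 ≤ m i) (hz : ∀ i, PerX (nP d v) (nQ d v) (m i) (z i))
    (h0 : ∀ i, mult (nP d v) (nQ d v) (m i) (z i) ≠ 0)
    (h1 : ∀ i, ‖mult (nP d v) (nQ d v) (m i) (z i)‖ < 1)
    (hd : ∀ i j, i ≠ j → ∀ k, z j ≠ (ev (nP d v) (nQ d v))^[k] (z i)) :
    Fintype.card ι ≤ 2 * d - 2 := by
  classical
  set P := nP d v with hP
  set Q := nQ d v with hQ
  have hof := fun i => orb_facts P Q (m i) (hm i) (z i) (hz i)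
  have hder : ∀ i, ∀ w ∈ orb P Q (m i) (z i), derivAt P Q w ≠ 0 := by
    intro i w hw h
    apply h0 i
    rw [(hof i).2.2.2.2]
    exact Finset.prod_eq_zero hw h
  let β : ι → ℂ → ℂ := fun i w => if w ∈ orb P Q (m i) (z i) then (derivAt P Q w)⁻¹ else 0
  have hβ1 : ∀ i, ∀ w ∈ orb P Q (m i) (z i), β i w * derivAt P Q w = 1 := by
    intro i w hw
    simp only [β, if_pos hw]
    exact inv_mul_cancel₀ (hder i w hw)
  have hmem : ∀ i, ∀ w ∈ orb P Q (m i) (z i), ev P Q w ∈ orb P Q (m i) (z i) :=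
    fun i w hw => ((hof i).2.1 w hw).2.1
  have hcyc : ∀ i, ∃ γ : ℂ → ℂ, (∀ w, w ∉ orb P Q (m i) (z i) → γ w = 0) ∧
      Inv P Q (orb P Q (m i) (z i)) (β i) γ := by
    intro i
    apply cycf P Q (m i) (hm i) (z i) (hz i)
    · intro h
      have := h1 i
      rw [h] at this
      simp at this
    · intro w hw
      rw [hβ1 i w hw, hβ1 i _ (hmem i w hw)]
  choose γ hγ0 hγ using hcyc
  have hdisj : ∀ i j, i ≠ j → ∀ w, w ∈ orb P Q (m i) (z i) → w ∉ orb P Q (m j) (z j) := by
    intro i j hij w hw hw'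
    simp only [orb, Finset.mem_image, Finset.mem_range] at hw hw'
    obtain ⟨k, hk, hk'⟩ := hw
    obtain ⟨l, hl, hl'⟩ := hw'
    apply hd i j hij ((m j - l) + k)
    rw [Function.iterate_add_apply, hk', ← hl', ← Function.iterate_add_apply,
      Nat.sub_add_cancel hl.le]
    exact (hz j).1.2.symm
  have hlin : LinearIndependent ℂ (fun i => bt13_form d v (orb P Q (m i) (z i)) (β i) (γ i)
      (fun w hw => ((hof i).2.1 w hw).1)) := by
    rw [Fintype.linearIndependent_iff]
    intro c hc
    let Z : Finset ℂ := Finset.univ.biUnion (fun i => orb P Q (m i) (z i))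
    let B : ℂ → ℂ := fun w => ∑ i, c i * β i w
    let G : ℂ → ℂ := fun w => ∑ i, c i * γ i w
    have hB : ∀ i, ∀ w ∈ orb P Q (m i) (z i), B w = c i * β i w := by
      intro i w hw
      simp only [B]
      rw [Finset.sum_eq_single i]
      · intro j _ hj
        simp only [β, if_neg (hdisj i j (Ne.symm hj) w hw), mul_zero]
      · simp
    have hG : ∀ i, ∀ w ∈ orb P Q (m i) (z i), G w = c i * γ i w := by
      intro i w hw
      simp only [G]
      rw [Finset.sum_eq_single i]
      · intro j _ hj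
        rw [hγ0 j w (hdisj i j (Ne.symm hj) w hw), mul_zero]
      · simp
    have hZ : ∀ w, w ∈ Z ↔ ∃ i, w ∈ orb P Q (m i) (z i) := by
      intro w
      simp [Z]
    have hInv : Inv P Q Z B G := by
      constructor
      · intro w hw
        obtain ⟨i, hi⟩ := (hZ w).1 hw
        exact ((hof i).2.1 w hi).1
      · intro w hw
        obtain ⟨i, hi⟩ := (hZ w).1 hw
        exact (hZ _).2 ⟨i, hmem i w hi⟩
      · intro w hw w' hw' he
        obtain ⟨i, hi⟩ := (hZ w).1 hw
        obtain ⟨j, hj⟩ := (hZ w').1 hw'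
        by_cases hij : i = j
        · subst hij
          exact (hof i).2.2.1 w hi w' hj he
        · exfalso
          apply hdisj i j hij _ (hmem i w hi)
          rw [he]
          exact hmem j w' hj
      · intro w hw
        obtain ⟨i, hi⟩ := (hZ w).1 hw
        rw [hB i w hi, hB i _ (hmem i w hi), mul_assoc, mul_assoc, hβ1 i w hi,
          hβ1 i _ (hmem i w hi)]
      · intro w hw
        obtain ⟨i, hi⟩ := (hZ w).1 hw
        rw [hG i w hi, hG i _ (hmem i w hi), hB i _ (hmem i w hi)]
        have := (hγ i).gamma w hi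
        rw [this]
        ring
    have hAtt : Att P Q Z := by
      intro w hw
      obtain ⟨i, hi⟩ := (hZ w).1 hw
      obtain ⟨-, -, hper, hmu⟩ := (hof i).2.1 w hi
      refine ⟨m i, hm i, hper.1.2, ?_⟩
      rw [hmu]
      exact h1 i
    have hL : ∀ δ, LT d v Z B G δ = 0 := by
      intro δ
      have e1 : LT d v Z B G δ = ∑ i, c i * LT d v (orb P Q (m i) (z i)) (β i) (γ i) δ := by
        unfold LT LF
        rw [Finset.sum_biUnion]
        · refine Finset.sum_congr rfl (fun i _ => ?_)
          rw [Finset.mul_sum]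
          refine Finset.sum_congr rfl (fun w hw => ?_)
          rw [hB i w hw, hG i w hw]
          ring
        · intro i _ j _ hij
          rw [Function.onFun, Finset.disjoint_left]
          intro w hw
          exact hdisj i j hij w hw
      rw [e1]
      have := congrArg (fun F : (VI d → ℂ) →ₗ[ℂ] ℂ => F δ) hc
      simpa [bt13_form] using this
    have hkill := kill d v hv Z B G hInv hAtt hL
    intro i
    have hzi : z i ∈ orb P Q (m i) (z i) := (hof i).2.2.2.1 0
    have h2 := (hkill (z i) ((hZ _).2 ⟨i, hzi⟩)).1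
    rw [hB i _ hzi] at h2
    have h3 := hβ1 i _ hzi
    have h4 : β i (z i) ≠ 0 := by
      intro h
      rw [h, zero_mul] at h3
      exact zero_ne_one h3
    exact (mul_eq_zero.1 h2).resolve_right h4
  have hcard := hlin.fintype_card_le_finrank
  rw [Module.finrank_linearMap, Module.finrank_pi, Module.finrank_self, mul_one] at hcard
  simp only [Fintype.card_sum, Fintype.card_fin] at hcard
  omega

end Pool.Agent.LSF
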