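import Pool.Agent.LSF.BF1
import Pool.Agent.LSF.BT13

/-!
BF2: at most `2 d - 2` attracting periods.
-/

namespace Pool.Agent.LSF

open Polynomial Pool.Agent.LenSpec Metric Filter

theorem t3c (d : ℕ) (MM : Set ℕ) (hMM : ∀ n ∈ MM, n.Prime) (v : VI d → ℂ) (hv : VG d MM v)
    (S : Finset ℕ) (hS : ∀ n ∈ S, n ∈ MM ∧ At d v n) : S.card ≤ 2 * d - 2 := by
  classical
  have hch : ∀ n : S, ∃ z, PX d v n.val z ∧ ‖mu d v n.val z‖ < 1 := fun n => (hS n.val n.2).2
  choose z hz hz1 using hch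
  have hm1 : ∀ n : S, 1 ≤ n.val := fun n => (hMM n.val (hS n.val n.2).1).one_le
  have h := t3 d v hv.nf S (fun n => n.val) z hm1 hz
    (fun n => (hv.mult_ne n.val (hS n.val n.2).1 (z n) (hz n)).2) hz1 ?_
  · simpa using h
  · intro i j hij k hk
    obtain ⟨-, h2, -, h4, -⟩ := orb_facts (nP d v) (nQ d v) i.val (hm1 i) (z i) (hz i)
    have h5 : PerX (nP d v) (nQ d v) i.val (z j) := by
      rw [hk]
      exact (h2 _ (h4 k)).2.2.1
    have h6 : PerX (nP d v) (nQ d v) j.val (z j) := hz j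
    have hne : i.val ≠ j.val := fun h => hij (Subtype.ext h)
    rcases lt_or_gt_of_ne hne with hlt | hlt
    · exact h6.2 i.val (hm1 i) hlt h5.1.2
    · exact h5.2 j.val (hm1 j) hlt h6.1.2

end Pool.Agent.LSF
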