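import Pool.Agent.LSF.BE3
import Pool.Agent.LSF.BE4
import Pool.Agent.LSF.BE5
import Pool.Agent.LSF.BF2
import Pool.Agent.LSF.BG6

/-!
BE6: at most `2 d - 2` periods are bad at a given point (or at infinity).

Complete proof of `bd_card`. Write `A := Ao v i₀`, `t := v i₀` (`ao_facts`). Let `m ∈ S`, and let
`e` (`‖e‖ < 1`) be as in `Bd`. There is a fixed `x ∈ XV d v m` such that for all `ε > 0`, `U ∈ l` there
is `σ : ℂ ≃ₐ[A] ℂ` with `‖σ x - e‖ < ε`, `σ t ∈ U`: otherwise for each of the finitely many `x`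
(`h.fin`) there are `ε_x`, `U_x` without such `σ`; take the minimum and the intersection, a
contradiction. Let `M ∈ A[X][Y]` be irreducible of positive degree with `ev2 M t x = 0` (`acl_rel`;
`x ∈ ACL (insert t A)`, `t ∉ A`). Then `ev2 M (σ t) (σ x) = 0` (`ev2_aut`), so the hypothesis of
`hur_ev` holds: `∃ᶠ s in l, ∃ y, ‖y - e‖ < ε ∧ ev2 M s y = 0` (`Filter.frequently_iff`), and
`hur_ev` with `ε := 1 - ‖e‖` gives: `∀ᶠ s in l, ∃ y, ‖y‖ < 1 ∧ ev2 M s y = 0`. This holds for all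
`m ∈ S` simultaneously (`S` is finite: `Filter.eventually_all_finset`). Every set of `l` is
uncountable (it contains a ball or the complement of a ball), `A` is countable, so there is `s ∉ A`
such that for all `m ∈ S` there is `y_m`, `‖y_m‖ < 1`, `ev2 M_m s y_m = 0`. `conj_curve` (with
`k = A`, `Φ = M_m`, `x := t`, `c := x_m`, `x' := s`, `c' := y_m`) gives `σ : ℂ ≃ₐ[A] ℂ` with
`σ t = s`, `σ x_m = y_m`. Put `w := Function.update v i₀ s = (fun i => σ (v i))` (`aut_upd`). By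
`aut_px` `XV d w m = σ '' XV d v m ∋ y_m`, so `At d w m` (unfold `XS`); and `VG d MM w` by `aut_px`
applied to any of these `σ` (`S` nonempty, the case `S = ∅` is trivial). `t3c` (BF2) gives the bound.
`bd_fin`: for each of the finitely many filters `l` (`nhds b`, `b ∈ B`, and `cobounded ℂ`) the set
`{m ∈ MM | Bd d v i₀ m l}` is finite: otherwise it has a finite subset with `2 d - 1` elements
(`Set.Infinite.exists_subset_card_eq`). `bad` is the union.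
-/

namespace Pool.Agent.LSF

open Polynomial Pool.Agent.LenSpec Metric Filter

theorem BE6_fix {d : ℕ} {v : VI d → ℂ} (i₀ : VI d) (l : Filter ℂ) (m : ℕ)
    (hfin : (XV d v m).Finite) (hB : Bd d v i₀ m l) :
    ∃ x ∈ XV d v m, ∃ e : ℂ, ‖e‖ < 1 ∧ ∀ ε : ℝ, 0 < ε → ∀ U ∈ l, ∃ σ : ℂ ≃ₐ[Ao v i₀] ℂ,
      ‖σ x - e‖ < ε ∧ σ (v i₀) ∈ U := by
  obtain ⟨e, he, hB⟩ := hB
  by_contra hcon
  push Not at hcon
  have h1 : ∀ x ∈ XV d v m, ∃ ε : ℝ, 0 < ε ∧ ∃ U ∈ l, ∀ σ : ℂ ≃ₐ[Ao v i₀] ℂ,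
      ‖σ x - e‖ < ε → σ (v i₀) ∉ U := by
    intro x hx
    obtain ⟨ε, hε, U, hU, h2⟩ := hcon x hx e he
    exact ⟨ε, hε, U, hU, h2⟩
  choose! ε hε U hU hno using h1
  have h2 : ∀ᶠ t in nhdsWithin (0 : ℝ) (Set.Ioi 0), ∀ x ∈ XV d v m, t ≤ ε x := by
    rw [Filter.eventually_all_finite hfin]
    intro x hx
    have h3 : Set.Ioc (0 : ℝ) (ε x) ∈ nhdsWithin (0 : ℝ) (Set.Ioi 0) := Ioc_mem_nhdsGT (hε x hx)
    filter_upwards [h3] with t ht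
    exact ht.2
  obtain ⟨t, ht1, ht2⟩ := (h2.and self_mem_nhdsWithin).exists
  have hW : (⋂ x ∈ XV d v m, U x) ∈ l := (Filter.biInter_mem hfin).2 hU
  obtain ⟨σ, x, hx, hσ1, hσ2⟩ := hB t ht2 _ hW
  refine hno x hx σ (lt_of_lt_of_le hσ1 (ht1 x hx)) ?_
  exact Set.mem_iInter₂.1 hσ2 x hx

theorem BE6_ev {d : ℕ} {MM : Set ℕ} {k : ℕ} {L : LinkD k} {v u : VI d → ℂ} {a : Fin k → ℂ}
    (h : GP d MM k L v u a) (i₀ : VI d) (l : Filter ℂ)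
    (hl : (∃ s₀, l = nhds s₀) ∨ l = Bornology.cobounded ℂ) (m : ℕ) (hm : m ∈ MM)
    (hB : Bd d v i₀ m l) :
    ∃ x ∈ XV d v m, ∃ M : Polynomial (Polynomial (Ao v i₀)), Irreducible M ∧
      ev2 M (v i₀) x = 0 ∧ ∀ᶠ s in l, ∃ y, ‖y‖ < 1 ∧ ev2 M s y = 0 := by
  obtain ⟨hA, hcA, -, ht, -, -, hX⟩ := ao_facts h i₀
  obtain ⟨x, hx, e, he, hσ⟩ := BE6_fix i₀ l m (h.fin m hm) hB
  obtain ⟨M, hM, hMd, hM0⟩ := acl_rel (Ao v i₀) hA (v i₀) x ht (hX m hm x hx).1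
  refine ⟨x, hx, M, hM, hM0, ?_⟩
  have h1 := hur_ev (Ao v i₀) hA M hM hMd l hl e (fun ε hε => by
    rw [Filter.frequently_iff]
    intro U hU
    obtain ⟨σ, hσ1, hσ2⟩ := hσ ε hε U hU
    refine ⟨σ (v i₀), hσ2, σ x, hσ1, ?_⟩
    rw [ev2_aut, hM0, map_zero]) (1 - ‖e‖) (by linarith)
  filter_upwards [h1] with s hs
  obtain ⟨y, hy1, hy2⟩ := hs
  refine ⟨y, ?_, hy2⟩
  have h2 : ‖y‖ ≤ ‖y - e‖ + ‖e‖ := by
    have := norm_add_le (y - e) e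
    rwa [sub_add_cancel] at this
  linarith

theorem BE6_pick (l : Filter ℂ) (hl : (∃ s₀, l = nhds s₀) ∨ l = Bornology.cobounded ℂ)
    (A : Set ℂ) (hA : A.Countable) {P : ℂ → Prop} (hP : ∀ᶠ s in l, P s) : ∃ s, s ∉ A ∧ P s := by
  have hd : Dense Aᶜ := hA.dense_compl ℝ
  rcases hl with ⟨s₀, rfl⟩ | rfl
  · obtain ⟨s, hs1, hs2⟩ := hd.inter_nhds_nonempty hP
    exact ⟨s, hs1, hs2⟩
  · have hb : Bornology.IsBounded {s | P s}ᶜ := by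
      rw [Bornology.isBounded_def, compl_compl]
      exact hP
    obtain ⟨r, hr⟩ := hb.subset_closedBall 0
    have ho : IsOpen (closedBall (0 : ℂ) r)ᶜ := isClosed_closedBall.isOpen_compl
    have hne : ((closedBall (0 : ℂ) r)ᶜ).Nonempty := by
      refine ⟨((|r| + 1 : ℝ) : ℂ), ?_⟩
      rw [Set.mem_compl_iff, mem_closedBall_zero_iff, Complex.norm_real, Real.norm_eq_abs,
        abs_of_pos (by positivity)]
      have := le_abs_self r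
      linarith
    obtain ⟨s, hs1, hs2⟩ := hd.inter_open_nonempty _ ho hne
    refine ⟨s, hs2, ?_⟩
    by_contra hs3
    exact hs1 (hr hs3)

theorem bd_card {d : ℕ} {MM : Set ℕ} {k : ℕ} {L : LinkD k} {v u : VI d → ℂ} {a : Fin k → ℂ}
    (h : GP d MM k L v u a) (i₀ : VI d) (l : Filter ℂ)
    (hl : (∃ s₀, l = nhds s₀) ∨ l = Bornology.cobounded ℂ) (S : Finset ℕ)
    (hS : ∀ m ∈ S, m ∈ MM ∧ Bd d v i₀ m l) : S.card ≤ 2 * d - 2 := by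
  classical
  obtain ⟨hA, hcA, -, ht, -, -, -⟩ := ao_facts h i₀
  rcases S.eq_empty_or_nonempty with rfl | hne
  · simp
  have h1 : ∀ m ∈ S, ∃ x ∈ XV d v m, ∃ M : Polynomial (Polynomial (Ao v i₀)), Irreducible M ∧
      ev2 M (v i₀) x = 0 ∧ ∀ᶠ s in l, ∃ y, ‖y‖ < 1 ∧ ev2 M s y = 0 :=
    fun m hm => BE6_ev h i₀ l hl m (hS m hm).1 (hS m hm).2
  choose! x hx M hM hMx hMev using h1
  have h2 : ∀ᶠ s in l, ∀ m ∈ S, ∃ y, ‖y‖ < 1 ∧ ev2 (M m) s y = 0 :=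
    (Filter.eventually_all_finset S).2 hMev
  obtain ⟨s, hsA, hs⟩ := BE6_pick l hl _ hcA h2
  have h3 : ∀ m ∈ S, ∃ σ : ℂ ≃ₐ[Ao v i₀] ℂ, σ (v i₀) = s ∧ ‖σ (x m)‖ < 1 := by
    intro m hm
    obtain ⟨y, hy1, hy2⟩ := hs m hm
    obtain ⟨σ, hσ1, hσ2⟩ := conj_curve (Ao v i₀) (Ao v i₀) hA hA hcA le_rfl (M m) (hM m hm)
      (v i₀) (x m) s y (hMx m hm) hy2 ht hsA
    exact ⟨σ, hσ1, by rw [hσ2]; exact hy1⟩
  have hvg : VG d MM (Function.update v i₀ s) := by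
    obtain ⟨m, hm⟩ := hne
    obtain ⟨σ, hσ1, -⟩ := h3 m hm
    have h4 := (aut_px d (σ : ℂ ≃+* ℂ) v).2.2.2.2.2 MM h.vgv
    have h5 := aut_upd v i₀ σ
    rw [hσ1] at h5
    rw [← h5]
    exact h4
  refine t3c d MM (fun n hn => h.prime n hn) _ hvg S fun m hm => ⟨(hS m hm).1, ?_⟩
  obtain ⟨σ, hσ1, hσ2⟩ := h3 m hm
  have h5 := aut_upd v i₀ σ
  rw [hσ1] at h5
  have h6 := (aut_px d (σ : ℂ ≃+* ℂ) v).2.2.2.1 m
  have h7 : σ (x m) ∈ XV d (fun i => (σ : ℂ ≃+* ℂ) (v i)) m := by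
    rw [h6]
    exact ⟨x m, hx m hm, rfl⟩
  have h8 : (fun i => (σ : ℂ ≃+* ℂ) (v i)) = Function.update v i₀ s := h5
  rw [h8] at h7
  obtain ⟨z, hz1, hz2⟩ := h7
  refine ⟨z, hz1, ?_⟩
  have h9 : mu d (Function.update v i₀ s) m z = σ (x m) := hz2
  rw [h9]
  exact hσ2

theorem bd_fin {d : ℕ} {MM : Set ℕ} {k : ℕ} {L : LinkD k} {v u : VI d → ℂ} {a : Fin k → ℂ}
    (h : GP d MM k L v u a) (i₀ : VI d) (B : Finset ℂ) :
    ∃ bad : Finset ℕ, ∀ m ∈ MM, m ∉ bad →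
      (∀ b ∈ B, ¬ Bd d v i₀ m (nhds b)) ∧ ¬ Bd d v i₀ m (Bornology.cobounded ℂ) := by
  classical
  have hd := h.vgv.nf.two_le
  have hfin : ∀ l : Filter ℂ, ((∃ s₀, l = nhds s₀) ∨ l = Bornology.cobounded ℂ) →
      {m | m ∈ MM ∧ Bd d v i₀ m l}.Finite := by
    intro l hl
    by_contra hinf
    obtain ⟨T, hT1, hT2⟩ := Set.Infinite.exists_subset_card_eq hinf (2 * d - 1)
    have h1 := bd_card h i₀ l hl T (fun m hm => hT1 hm)
    omega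
  have hb : ∀ b : ℂ, {m | m ∈ MM ∧ Bd d v i₀ m (nhds b)}.Finite :=
    fun b => hfin _ (Or.inl ⟨b, rfl⟩)
  have hc := hfin _ (Or.inr rfl)
  refine ⟨B.biUnion (fun b => (hb b).toFinset) ∪ hc.toFinset, ?_⟩
  intro m hm hbad
  rw [Finset.mem_union, not_or] at hbad
  refine ⟨fun b hbB hBd => hbad.1 ?_, fun hBd => hbad.2 ?_⟩
  · rw [Finset.mem_biUnion]
    refine ⟨b, hbB, ?_⟩
    rw [Set.Finite.mem_toFinset]
    exact ⟨hm, hBd⟩
  · rw [Set.Finite.mem_toFinset]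
    exact ⟨hm, hBd⟩

end Pool.Agent.LSF
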