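import Pool.Agent.LSF.BGDefs

/-!
Definitions for the extension of branches over the unit disc.
-/

namespace Pool.Agent.LSF

open Polynomial Metric

/-- the field of the numbers that are algebraic over the parameters other than `i₀` -/
noncomputable abbrev Ao {d : ℕ} (v : VI d → ℂ) (i₀ : VI d) : IntermediateField ℚ ℂ :=
  ACL (v '' {i | i ≠ i₀})

/-- conjugates (over `Ao v i₀`) of multipliers of period `m` accumulate at a point of the unit
disc while the parameter `v i₀` tends to `l` -/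
def Bd (d : ℕ) (v : VI d → ℂ) (i₀ : VI d) (m : ℕ) (l : Filter ℂ) : Prop :=
  ∃ e : ℂ, ‖e‖ < 1 ∧ ∀ ε : ℝ, 0 < ε → ∀ U ∈ l, ∃ σ : ℂ ≃ₐ[Ao v i₀] ℂ, ∃ x ∈ XV d v m,
    ‖σ x - e‖ < ε ∧ σ (v i₀) ∈ U

/-- the polynomial `Φ (s, ·)`, made monic: its roots are the numbers `lcF Φ s * y` where
`Φ (s, y) = 0` -/
noncomputable def nrmF {k : Type} [Field k] [Algebra k ℂ] (Φ : Polynomial (Polynomial k))
    (s : ℂ) : ℂ[X] :=
  (integralNormalization Φ).map (Polynomial.eval₂RingHom (algebraMap k ℂ) s)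

/-- the leading coefficient of `Φ (s, ·)` -/
noncomputable def lcF {k : Type} [Field k] [Algebra k ℂ] (Φ : Polynomial (Polynomial k))
    (s : ℂ) : ℂ :=
  Polynomial.eval₂RingHom (algebraMap k ℂ) s Φ.leadingCoeff

end Pool.Agent.LSF
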