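import Pool.Agent.LSF.BE6
import Pool.Agent.LSF.BE11
import Pool.Agent.LSF.BE12
import Pool.Agent.LSF.BE14

/-!
BExt: extension of the branches of the link over the unit disc.
-/

namespace Pool.Agent.LSF

open Polynomial Pool.Agent.LenSpec Metric Filter

theorem ebr {d : ℕ} {MM : Set ℕ} {k : ℕ} {L : LinkD k} {v u : VI d → ℂ} {a : Fin k → ℂ}
    (h : GP d MM k L v u a) :
    ∃ bad : Finset ℕ, ∀ m ∈ MM, m ∉ bad → ∀ Φ : Polynomial (Polynomial K0), Irreducible Φ →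
      (∀ x ∈ XV d v m, ev2 Φ x (L.b m a x) = 0) →
      (∀ la c : ℂ, ev2 Φ la c = 0 → la ∉ K0 → ‖la‖ < 1 → ‖c‖ ≠ 1) →
      ∀ la1 c1 : ℂ, ‖la1‖ < 1 → ‖c1‖ < 1 → la1 ∉ K0 → ev2 Φ la1 c1 = 0 →
      ∃ g : ℂ → ℂ, DifferentiableOn ℂ g (ball 0 1) ∧
        (∀ la ∈ ball (0 : ℂ) 1, ‖g la‖ < 1 ∧ ev2 Φ la (g la) = 0) ∧ g la1 = c1 := by
  classical
  have hd : 2 ≤ d := h.vgv.nf.two_le
  obtain ⟨i₀⟩ : Nonempty (VI d) := ⟨Sum.inl ⟨0, by omega⟩⟩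
  obtain ⟨hAc, hAcount, hK, htA, hv, ha, hX⟩ := ao_facts h i₀
  obtain ⟨B₁, hB₁⟩ := spread (Ao v i₀) hAc (v i₀) htA k a ha
  have hfin := nf_fin d v h.vgv.nf i₀
  set B : Finset ℂ := B₁ ∪ hfin.toFinset with hBdef
  obtain ⟨bad, hbad⟩ := bd_fin h i₀ B
  refine ⟨bad, ?_⟩
  intro m hm hmb Φ hΦ hrel hne la1 c1 hla hc1 hK1 h0
  obtain ⟨hBd, hinf⟩ := hbad m hm hmb
  have hk0 : IsAlgClosed K0 := acl_isAlgClosed _
  have hpos : 0 < Φ.natDegree := pos_deg K0 hk0 Φ hΦ.ne_zero la1 c1 hK1 h0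
  have hnf : ∀ s, s ∉ B → Nf d (Function.update v i₀ s) := by
    intro s hs
    by_contra hcon
    exact hs (by rw [hBdef]; exact Finset.mem_union_right _ (by simpa using hcon))
  have hreg : ∀ e : ℂ, ‖e‖ < 1 → RegAt Φ.natDegree (nrmF Φ) e := by
    intro e he
    by_cases heK : e ∈ K0
    · refine pui_reg K0 hk0 Φ hΦ hpos (Ao v i₀ : Set ℂ) hAcount e ?_
      intro la c hla' hA' hc'
      exact loc_mer h i₀ m hm B hBd hinf hnf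
        (fun s₀ hs₀ => hB₁ s₀ (fun hcon => hs₀ (by rw [hBdef]; exact Finset.mem_union_left _ hcon)))
        Φ hΦ hrel e heK he la c hla' hA' hc'
    · obtain ⟨B₂, hB₂, hs₂⟩ := nrm_simple K0 hk0 Φ hΦ hpos
      exact reg_simple isOpen_univ (nrm_pf K0 Φ hΦ.ne_zero) e (Set.mem_univ e)
        (hs₂ e (fun hcon => heK (hB₂ e hcon))).2
  exact ext_glob Φ hΦ hreg hne la1 c1 hla hc1 hK1 h0

end Pool.Agent.LSF
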