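import Pool.Agent.LSF.BF9

/-!
BF10 (FD, analytic part): near a label parameter there are parameters where a point of period `m`
of `v` and one of `u` have multipliers of modulus `1` simultaneously, on the boundary of the set
where both are attracting.

Complete proof. `stg` gives `l₀`; increase it so that `m ≥ l₀`, `m ∈ MM` implies `m ∉ T`. Fix such
`m`; `s₁ ∈ ball c R` with `Par` for `v` and `u`: points `w`, `w'` of exact period `m`, multiplier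
`1`. Puiseux data at `s₁` with a common exponent `M` (as in `par_near`), radius `r`, functions
`z i`, `y j`; `f i τ := mu d (v (s₁ + τ^M)) m (z i τ)`, `g j τ := mu d (u ..) m (y j τ)`,
holomorphic on `ball 0 r`; `parb` for both: a unit `x₀`, indices `i`, `j` with `z i 0 = w`,
`y j 0 = w'`, and `‖f i (ρ x₀)‖ < 1`, `‖g j (ρ x₀)‖ < 1` for `0 < ρ < ρ₀`. Shrink `r` and `ρ₀ ≤ r` so
that for `0 < ‖τ‖ < r` all roots are simple for both (`punct`), in particular `f i τ ≠ 1`,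
`g j τ ≠ 1`, and `z i τ`, `y j τ` have exact period `m` (as in `parb`).

(A) Local transfer. Let `0 < ‖τ₁‖ < r`, `s₂ := s₁ + τ₁^M`. There is a small ball `ball s₂ ρ'` on
which `κ(s)`, the local inverse of `τ ↦ s₁ + τ^M` with `κ(s₂) = τ₁`, is holomorphic with values in
`ball 0 r \ {0}`; `ẑ s := z i (κ s)`, `mu d (v s) m (ẑ s) = f i (κ s)`. `f i` is not constant near
`τ₁` (`f i 0 = 1`, `f i τ ≠ 1` for `τ ≠ 0`, identity theorem), so if `‖f i τ₁‖ = 1` then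
`Lab d v s₂ m ρ' ẑ`. If `‖f i τ₁‖ < 1`, then after shrinking `ρ'`, `At d (v s) m` for all
`s ∈ ball s₂ ρ'`. The same for `u`, `g j`.

(B) Fix `0 < ρ < ρ₀`. By `circ_exceed` some `τ` with `‖τ‖ = ρ` has `‖f i τ‖ > 1`. Let
`τ(θ) := ρ x₀ exp(I θ)`, `θ* := inf {θ ≥ 0 | ‖f i (τ θ)‖ ≥ 1}`. Then `θ* > 0`,
`‖f i (τ θ*)‖ = 1`, `‖f i (τ θ)‖ < 1` for `0 ≤ θ < θ*`.
Claim 1: `‖g j (τ θ)‖ < 1` for `0 ≤ θ < θ*`. Otherwise there is a first `θ₁ ∈ (0, θ*)` with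
`‖g j (τ θ₁)‖ = 1`. With `s₂ = s₁ + (τ θ₁)^M`, by (A) on a small ball around `s₂`: `At d (v s) m`, and
`At d (v s) n` for `n ∈ T` by hypothesis; `insert m T` has `2 d - 2` elements; and `Lab d u s₂ m`.
`slice_sub` and `bst` give a contradiction.
Claim 2: `‖g j (τ θ*)‖ = 1`. By continuity `≤ 1`. If `< 1`: on a small ball around
`s* = s₁ + (τ θ*)^M`: `At d (u s) n` for `n ∈ insert m T`, and `Lab d v s* m`: contradiction by
`bst` applied to the slice with the roles exchanged (`slice_symm`).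
So at `s_ρ := s₁ + (τ θ*)^M`: `x := z i (τ θ*)`, `y := y j (τ θ*)` have the required properties
(`mu ≠ 1` because roots are simple). `‖s_ρ - s₁‖ = ρ^M`, so different `ρ` give different `s_ρ`:
uncountably many, so one is not in `Z`.
The last condition: for `θ < θ*` close to `θ*`, `s' := s₁ + (τ θ)^M` is close to `s_ρ`,
`x' := z i (τ θ)`, `y' := y j (τ θ)` close to `x`, `y`, both multipliers of modulus `< 1`; this is an
open condition (A), so `s'` can be chosen outside the countable set `Z'`.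
-/

namespace Pool.Agent.LSF

open Polynomial Pool.Agent.LenSpec Metric Filter

/-- a root branch over the `M`-fold cover of a neighbourhood of `s₁`, with multiplier `1` exactly
over `s₁` -/
structure BF10L (d m : ℕ) (v : ℂ → VI d → ℂ) (s₁ : ℂ) (M : ℕ) (r : ℝ) (z : ℂ → ℂ) : Prop where
  posM : 1 ≤ M
  posr : 0 < r
  dz : DifferentiableOn ℂ z (ball 0 r)
  df : DifferentiableOn ℂ (fun τ => mu d (v (s₁ + τ ^ M)) m (z τ)) (ball 0 r)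
  px : ∀ τ ∈ ball (0 : ℂ) r, PX d (v (s₁ + τ ^ M)) m (z τ)
  one : mu d (v (s₁ + (0 : ℂ) ^ M)) m (z 0) = 1
  ne1 : ∀ τ ∈ ball (0 : ℂ) r, τ ≠ 0 → mu d (v (s₁ + τ ^ M)) m (z τ) ≠ 1

theorem BF10_mono {d m : ℕ} {v : ℂ → VI d → ℂ} {s₁ : ℂ} {M : ℕ} {r : ℝ} {z : ℂ → ℂ}
    (h : BF10L d m v s₁ M r z) {r' : ℝ} (h0 : 0 < r') (h1 : r' ≤ r) :
    BF10L d m v s₁ M r' z := by
  have hs : ball (0 : ℂ) r' ⊆ ball (0 : ℂ) r := ball_subset_ball h1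
  exact ⟨h.posM, h0, h.dz.mono hs, h.df.mono hs, fun τ hτ => h.px τ (hs hτ), h.one,
    fun τ hτ => h.ne1 τ (hs hτ)⟩

/-- the local inverse of `τ ↦ s₁ + τ ^ M` -/
theorem BF10_inv (s₁ τ₁ : ℂ) (M : ℕ) (hM : 1 ≤ M) (r : ℝ) (h0 : τ₁ ≠ 0)
    (hτ : τ₁ ∈ ball (0 : ℂ) r) :
    ∃ ρ > 0, ∃ κ : ℂ → ℂ, κ (s₁ + τ₁ ^ M) = τ₁ ∧
      DifferentiableOn ℂ κ (ball (s₁ + τ₁ ^ M) ρ) ∧
      ∀ s ∈ ball (s₁ + τ₁ ^ M) ρ, κ s ∈ ball (0 : ℂ) r ∧ s₁ + (κ s) ^ M = s := by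
  have hM0 : (M : ℂ) ≠ 0 := by
    exact_mod_cast (by omega : M ≠ 0)
  have hp : τ₁ ^ M ≠ 0 := pow_ne_zero _ h0
  have hn : 0 < ‖τ₁ ^ M‖ := norm_pos_iff.mpr hp
  set κ : ℂ → ℂ := fun s => τ₁ * Complex.exp (Complex.log ((s - s₁) / τ₁ ^ M) / M) with hκ
  have hslit : ∀ s ∈ ball (s₁ + τ₁ ^ M) ‖τ₁ ^ M‖, (s - s₁) / τ₁ ^ M ∈ Complex.slitPlane := by
    intro s hs
    rw [mem_ball, dist_eq_norm] at hs
    have h1 : (s - s₁) / τ₁ ^ M = 1 + (s - (s₁ + τ₁ ^ M)) / τ₁ ^ M := by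
      field_simp
      ring
    rw [h1]
    apply Complex.mem_slitPlane_of_norm_lt_one
    rw [norm_div, div_lt_one hn]
    exact hs
  have hd : DifferentiableOn ℂ κ (ball (s₁ + τ₁ ^ M) ‖τ₁ ^ M‖) := by
    intro s hs
    have h1 : DifferentiableAt ℂ (fun s : ℂ => (s - s₁) / τ₁ ^ M) s := by fun_prop
    have h2 := h1.clog (hslit s hs)
    exact (((h2.div_const (M : ℂ)).cexp).const_mul τ₁).differentiableWithinAt
  have hval : κ (s₁ + τ₁ ^ M) = τ₁ := by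
    simp only [hκ, add_sub_cancel_left, div_self hp, Complex.log_one, zero_div, Complex.exp_zero,
      mul_one]
  have hcenter : s₁ + τ₁ ^ M ∈ ball (s₁ + τ₁ ^ M) ‖τ₁ ^ M‖ := mem_ball_self hn
  have hcont : ContinuousAt κ (s₁ + τ₁ ^ M) :=
    (hd.differentiableAt (isOpen_ball.mem_nhds hcenter)).continuousAt
  have hev : ∀ᶠ s in nhds (s₁ + τ₁ ^ M), κ s ∈ ball (0 : ℂ) r := by
    apply hcont.eventually_mem
    rw [hval]
    exact isOpen_ball.mem_nhds hτ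
  rw [Metric.eventually_nhds_iff_ball] at hev
  obtain ⟨ρ, hρ, h2⟩ := hev
  refine ⟨min ρ ‖τ₁ ^ M‖, lt_min hρ hn, κ, hval,
    hd.mono (ball_subset_ball (min_le_right _ _)), fun s hs => ⟨h2 s
      (ball_subset_ball (min_le_left _ _) hs), ?_⟩⟩
  have hs2 := hslit s (ball_subset_ball (min_le_right _ _) hs)
  have hne := Complex.slitPlane_ne_zero hs2
  simp only [hκ]
  rw [mul_pow, ← Complex.exp_nat_mul, mul_div_cancel₀ _ hM0, Complex.exp_log hne,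
    mul_div_cancel₀ _ hp]
  ring

/-- a label over a point where the multiplier has modulus `1` -/
theorem BF10_lab {d m : ℕ} {v : ℂ → VI d → ℂ} {s₁ : ℂ} {M : ℕ} {r : ℝ} {z : ℂ → ℂ}
    (h : BF10L d m v s₁ M r z) {τ₁ : ℂ} (h0 : τ₁ ≠ 0) (hτ : τ₁ ∈ ball (0 : ℂ) r)
    (h1 : ‖mu d (v (s₁ + τ₁ ^ M)) m (z τ₁)‖ = 1) :
    ∃ ρ > 0, ∃ zh : ℂ → ℂ, ∀ ρ', 0 < ρ' → ρ' ≤ ρ → Lab d v (s₁ + τ₁ ^ M) m ρ' zh := by
  obtain ⟨ρ, hρ, κ, hval, hd, hκ⟩ := BF10_inv s₁ τ₁ M h.posM r h0 hτ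
  refine ⟨ρ, hρ, fun s => z (κ s), fun ρ' h0' hle => ?_⟩
  have hsub : ball (s₁ + τ₁ ^ M) ρ' ⊆ ball (s₁ + τ₁ ^ M) ρ := ball_subset_ball hle
  refine ⟨h0', ?_, ?_, ?_, ?_, ?_⟩
  · exact h.dz.comp (hd.mono hsub) (fun s hs => (hκ s (hsub hs)).1)
  · intro s hs
    have h2 := h.px (κ s) (hκ s (hsub hs)).1
    rw [(hκ s (hsub hs)).2] at h2
    exact h2
  · simp only [hval]
    exact h1
  · simp only [hval]
    exact h.ne1 τ₁ hτ h0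
  · by_contra hcon
    push Not at hcon
    have h3 : ∀ s ∈ ball (s₁ + τ₁ ^ M) ρ', mu d (v (s₁ + (κ s) ^ M)) m (z (κ s)) =
        mu d (v (s₁ + τ₁ ^ M)) m (z τ₁) := by
      intro s hs
      have h4 := hcon s hs
      simp only [hval] at h4
      rw [(hκ s (hsub hs)).2]
      exact h4
    have han : AnalyticOnNhd ℂ (fun τ => mu d (v (s₁ + τ ^ M)) m (z τ)) (ball 0 r) :=
      h.df.analyticOnNhd isOpen_ball
    have hcenter : s₁ + τ₁ ^ M ∈ ball (s₁ + τ₁ ^ M) ρ' := mem_ball_self h0'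
    have hcont : ContinuousAt κ (s₁ + τ₁ ^ M) :=
      (hd.differentiableAt (isOpen_ball.mem_nhds (hsub hcenter))).continuousAt
    have htend : Tendsto κ (nhdsWithin (s₁ + τ₁ ^ M) {s₁ + τ₁ ^ M}ᶜ) (nhdsWithin τ₁ {τ₁}ᶜ) := by
      apply tendsto_nhdsWithin_of_tendsto_nhds_of_eventually_within
      · have := hcont.tendsto
        rw [hval] at this
        exact this.mono_left nhdsWithin_le_nhds
      · have h5 : ∀ᶠ s in nhdsWithin (s₁ + τ₁ ^ M) {s₁ + τ₁ ^ M}ᶜ,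
            s ∈ ball (s₁ + τ₁ ^ M) ρ' :=
          nhdsWithin_le_nhds (isOpen_ball.mem_nhds hcenter)
        filter_upwards [h5, self_mem_nhdsWithin] with s hs hs2
        simp only [Set.mem_compl_iff, Set.mem_singleton_iff] at hs2 ⊢
        intro h6
        apply hs2
        rw [← (hκ s (hsub hs)).2, h6]
    have hfreq : ∃ᶠ τ in nhdsWithin τ₁ {τ₁}ᶜ, mu d (v (s₁ + τ ^ M)) m (z τ) =
        mu d (v (s₁ + τ₁ ^ M)) m (z τ₁) := by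
      apply htend.frequently
      apply Eventually.frequently
      have h5 : ∀ᶠ s in nhdsWithin (s₁ + τ₁ ^ M) {s₁ + τ₁ ^ M}ᶜ,
          s ∈ ball (s₁ + τ₁ ^ M) ρ' :=
        nhdsWithin_le_nhds (isOpen_ball.mem_nhds hcenter)
      filter_upwards [h5] with s hs
      exact h3 s hs
    have heq := han.eqOn_of_preconnected_of_frequently_eq
      (g := fun _ => mu d (v (s₁ + τ₁ ^ M)) m (z τ₁)) analyticOnNhd_const
      (convex_ball (0 : ℂ) r).isPreconnected hτ hfreq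
    have h7 := heq (mem_ball_self h.posr)
    simp only [h.one] at h7
    exact h.ne1 τ₁ hτ h0 h7.symm

/-- attracting points near a point where the multiplier has modulus less than `1` -/
theorem BF10_at {d m : ℕ} {v : ℂ → VI d → ℂ} {s₁ : ℂ} {M : ℕ} {r : ℝ} {z : ℂ → ℂ}
    (h : BF10L d m v s₁ M r z) {τ₁ : ℂ} (h0 : τ₁ ≠ 0) (hτ : τ₁ ∈ ball (0 : ℂ) r)
    (h1 : ‖mu d (v (s₁ + τ₁ ^ M)) m (z τ₁)‖ < 1) :
    ∃ ρ > 0, ∀ s ∈ ball (s₁ + τ₁ ^ M) ρ, At d (v s) m := by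
  obtain ⟨ρ, hρ, κ, hval, hd, hκ⟩ := BF10_inv s₁ τ₁ M h.posM r h0 hτ
  have hcenter : s₁ + τ₁ ^ M ∈ ball (s₁ + τ₁ ^ M) ρ := mem_ball_self hρ
  have hcont : ContinuousAt κ (s₁ + τ₁ ^ M) :=
    (hd.differentiableAt (isOpen_ball.mem_nhds hcenter)).continuousAt
  have hf : ContinuousAt (fun τ => mu d (v (s₁ + τ ^ M)) m (z τ)) τ₁ :=
    (h.df.differentiableAt (isOpen_ball.mem_nhds hτ)).continuousAt
  have h2 : ∀ᶠ τ in nhds τ₁, ‖mu d (v (s₁ + τ ^ M)) m (z τ)‖ < 1 :=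
    hf.norm.eventually_lt_const h1
  have h3 : ∀ᶠ s in nhds (s₁ + τ₁ ^ M), ‖mu d (v (s₁ + (κ s) ^ M)) m (z (κ s))‖ < 1 := by
    have h4 := hcont.tendsto
    rw [hval] at h4
    exact h4.eventually h2
  have h5 : ∀ᶠ s in nhds (s₁ + τ₁ ^ M), At d (v s) m := by
    filter_upwards [h3, isOpen_ball.mem_nhds hcenter] with s hs hs2
    have h6 := h.px (κ s) (hκ s hs2).1
    rw [(hκ s hs2).2] at hs h6
    exact ⟨z (κ s), h6, hs⟩
  rw [Metric.eventually_nhds_iff_ball] at h5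
  exact h5

/-- the first exit time -/
theorem BF10_exit (φ : ℝ → ℝ) (hφ : Continuous φ) (h0 : φ 0 < 1) (θ' : ℝ) (hθ' : 0 ≤ θ')
    (h1 : 1 ≤ φ θ') :
    ∃ θ, 0 < θ ∧ θ ≤ θ' ∧ φ θ = 1 ∧ ∀ t, 0 ≤ t → t < θ → φ t < 1 := by
  have hcomp : IsCompact (Set.Icc 0 θ' ∩ {t | 1 ≤ φ t}) :=
    isCompact_Icc.inter_right (isClosed_le continuous_const hφ)
  obtain ⟨θ, hθ, hle⟩ := hcomp.exists_isLeast ⟨θ', ⟨hθ', le_rfl⟩, h1⟩
  have hlt : ∀ t, 0 ≤ t → t < θ → φ t < 1 := by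
    intro t ht ht2
    by_contra hcon
    push Not at hcon
    exact absurd (hle ⟨⟨ht, ht2.le.trans hθ.1.2⟩, hcon⟩) (not_le.mpr ht2)
  have hpos : 0 < θ := by
    rcases lt_or_eq_of_le hθ.1.1 with h2 | h2
    · exact h2
    · exfalso
      have := hθ.2
      rw [Set.mem_ofPred_eq, ← h2] at this
      linarith
  refine ⟨θ, hpos, hθ.1.2, le_antisymm ?_ hθ.2, hlt⟩
  have hcl : θ ∈ closure (Set.Ico 0 θ) := by
    rw [closure_Ico hpos.ne]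
    exact ⟨hpos.le, le_rfl⟩
  have hsub : Set.Ico 0 θ ⊆ {t | φ t ≤ 1} := fun t ht => (hlt t ht.1 ht.2).le
  exact closure_minimal hsub (isClosed_le hφ continuous_const) hcl

/-- no label of `u` where all of `insert m T` is attracting for `v` -/
theorem BF10_no (d : ℕ) (MM : Set ℕ) (hMM : ∀ n ∈ MM, n.Prime) (hinf : MM.Infinite) (c : ℂ)
    (R : ℝ) (v u : ℂ → VI d → ℂ) (h : Slice d MM c R v u)
    (T : Finset ℕ) (hT : T.card + 1 = 2 * d - 2) (hTM : ∀ n ∈ T, n ∈ MM)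
    (hTA : ∀ s ∈ ball c R, ∀ n ∈ T, At d (v s) n) (m : ℕ) (hm : m ∈ MM) (hmT : m ∉ T)
    (s₂ : ℂ) (hs₂ : s₂ ∈ ball c R) (ρ₁ : ℝ) (hρ₁ : 0 < ρ₁) (hA : ∀ s ∈ ball s₂ ρ₁, At d (v s) m)
    (ρ₂ : ℝ) (hρ₂ : 0 < ρ₂) (zh : ℂ → ℂ)
    (hL : ∀ ρ', 0 < ρ' → ρ' ≤ ρ₂ → Lab d u s₂ m ρ' zh) : False := by
  classical
  obtain ⟨ρ₃, hρ₃, hb⟩ := Metric.isOpen_iff.mp isOpen_ball s₂ hs₂
  have hr : 0 < min ρ₁ (min ρ₂ ρ₃) := lt_min hρ₁ (lt_min hρ₂ hρ₃)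
  have hb1 : ball s₂ (min ρ₁ (min ρ₂ ρ₃)) ⊆ ball s₂ ρ₁ := ball_subset_ball (min_le_left _ _)
  have hb3 : ball s₂ (min ρ₁ (min ρ₂ ρ₃)) ⊆ ball c R :=
    (ball_subset_ball ((min_le_right _ _).trans (min_le_right _ _))).trans hb
  refine bst d MM hMM hinf s₂ (min ρ₁ (min ρ₂ ρ₃)) v u
    (slice_sub d MM c R v u h s₂ _ hr hb3) (insert m T) ?_ ?_ ?_ m hm
    (min ρ₁ (min ρ₂ ρ₃)) le_rfl zh (hL _ hr ((min_le_right _ _).trans (min_le_left _ _)))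
  · rw [Finset.card_insert_of_notMem hmT, hT]
  · intro n hn
    rcases Finset.mem_insert.mp hn with rfl | hn
    · exact hm
    · exact hTM n hn
  · intro s hs n hn
    rcases Finset.mem_insert.mp hn with rfl | hn
    · exact hA s (hb1 hs)
    · exact hTA s (hb3 hs) n hn

/-- exact period near `0` -/
theorem BF10_px {d l : ℕ} {MM : Set ℕ} (hl : l.Prime) {c : ℂ} {R : ℝ}
    {v : ℂ → VI d → ℂ} (h : Fam d MM c R v) {e : ℂ} {M : ℕ} {r : ℝ}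
    {z : Fin (d ^ l + 1) → ℂ → ℂ} (hp : Pui (d ^ l + 1) (fun s => fixF d l (v s)) e M r z)
    (hU : ∀ τ ∈ ball (0 : ℂ) r, e + τ ^ M ∈ ball c R) (i : Fin (d ^ l + 1))
    (hw : PX d (v e) l (z i 0)) :
    ∃ r' > 0, r' ≤ r ∧ ∀ τ ∈ ball (0 : ℂ) r', PX d (v (e + τ ^ M)) l (z i τ) := by
  have hM1 : 1 ≤ M := hp.posM
  have hr : 0 < r := hp.posr
  have h0r : (0 : ℂ) ∈ ball (0 : ℂ) r := mem_ball_self hr
  have he0 : e + (0 : ℂ) ^ M = e := by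
    rw [zero_pow (by omega), add_zero]
  have hcont : ContinuousAt (fun τ => (fv d (v (e + τ ^ M)))^[1] (z i τ) - z i τ) 0 := by
    have h2 := ((BF8_diff hl h hp hU i).2 1 hl.one_le).differentiableAt
      (isOpen_ball.mem_nhds h0r)
    have h3 := (hp.diff i).differentiableAt (isOpen_ball.mem_nhds h0r)
    exact h2.continuousAt.sub h3.continuousAt
  have hne0 : (fun τ => (fv d (v (e + τ ^ M)))^[1] (z i τ) - z i τ) 0 ≠ 0 := by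
    simp only [he0]
    exact sub_ne_zero.mpr (hw.2 1 one_pos hl.one_lt)
  have hev := hcont.eventually_ne hne0
  rw [Metric.eventually_nhds_iff_ball] at hev
  obtain ⟨r₄, hr₄, h5⟩ := hev
  refine ⟨min r r₄, lt_min hr hr₄, min_le_left _ _, fun τ hτ => ?_⟩
  have hτr : τ ∈ ball (0 : ℂ) r := ball_subset_ball (min_le_left _ _) hτ
  have h6 := h5 τ (ball_subset_ball (min_le_right _ _) hτ)
  rcases per_prime d l hl _ (h.nf _ (hU _ hτr)) _ (BF8_per hl h hp hU i hτr) with h7 | h7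
  · exact absurd (by rw [Function.iterate_one, h7, sub_self]) h6
  · exact h7

/-- the branch data -/
theorem BF10_data {d l : ℕ} {MM : Set ℕ} (hl : l.Prime) (hM : l ∈ MM) {c : ℂ} {R : ℝ}
    {v : ℂ → VI d → ℂ} (h : Fam d MM c R v) {e : ℂ} (he : e ∈ ball c R) {M : ℕ} {r : ℝ}
    {z : Fin (d ^ l + 1) → ℂ → ℂ} (hp : Pui (d ^ l + 1) (fun s => fixF d l (v s)) e M r z)
    (hU : ∀ τ ∈ ball (0 : ℂ) r, e + τ ^ M ∈ ball c R) (i : Fin (d ^ l + 1))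
    (hw : PX d (v e) l (z i 0)) (h1 : mu d (v e) l (z i 0) = 1) :
    ∃ r' > 0, r' ≤ r ∧ BF10L d l v e M r' (z i) := by
  have hM1 : 1 ≤ M := hp.posM
  obtain ⟨r₁, hr₁, hr₁r, h2⟩ := BF10_px hl h hp hU i hw
  obtain ⟨r₂, hr₂, h3⟩ := BF8_simple hl hM h he hM1
  have hr : 0 < min r₁ r₂ := lt_min hr₁ hr₂
  have hb1 : ball (0 : ℂ) (min r₁ r₂) ⊆ ball (0 : ℂ) r₁ := ball_subset_ball (min_le_left _ _)
  have hb2 : ball (0 : ℂ) (min r₁ r₂) ⊆ ball (0 : ℂ) r₂ := ball_subset_ball (min_le_right _ _)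
  have hb : ball (0 : ℂ) (min r₁ r₂) ⊆ ball (0 : ℂ) r := hb1.trans (ball_subset_ball hr₁r)
  refine ⟨min r₁ r₂, hr, (min_le_left _ _).trans hr₁r, hM1, hr, (hp.diff i).mono hb,
    (BF8_diff hl h hp hU i).1.mono hb, fun τ hτ => h2 τ (hb1 hτ), ?_, ?_⟩
  · rw [zero_pow (by omega), add_zero]
    exact h1
  · intro τ hτ hτ0
    exact fixF_nodup' d l hl.one_le _ (h.nf _ (hU τ (hb hτ))) (h3 τ (hb2 hτ) hτ0) _
      (BF8_per hl h hp hU i (hb hτ))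

/-- existence of the simultaneous boundary point on one circle -/
theorem BF10_circle (d : ℕ) (MM : Set ℕ) (hMM : ∀ n ∈ MM, n.Prime) (hinf : MM.Infinite) (c : ℂ)
    (R : ℝ) (v u : ℂ → VI d → ℂ) (h : Slice d MM c R v u)
    (T : Finset ℕ) (hT : T.card + 1 = 2 * d - 2) (hTM : ∀ n ∈ T, n ∈ MM)
    (hTA : ∀ s ∈ ball c R, ∀ n ∈ T, At d (v s) n ∧ At d (u s) n) (m : ℕ) (hm : m ∈ MM)
    (hmT : m ∉ T) (s₁ : ℂ) (M : ℕ) (r : ℝ) (z y : ℂ → ℂ)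
    (hU : ∀ τ ∈ ball (0 : ℂ) r, s₁ + τ ^ M ∈ ball c R)
    (hz : BF10L d m v s₁ M r z) (hy : BF10L d m u s₁ M r y) (x₀ : ℂ) (hx₀ : ‖x₀‖ = 1)
    (ρ : ℝ) (hρ : 0 < ρ) (hρr : ρ < r)
    (hzx : ‖mu d (v (s₁ + ((ρ : ℂ) * x₀) ^ M)) m (z ((ρ : ℂ) * x₀))‖ < 1)
    (hyx : ‖mu d (u (s₁ + ((ρ : ℂ) * x₀) ^ M)) m (y ((ρ : ℂ) * x₀))‖ < 1) :
    ∃ τ : ℂ, ‖τ‖ = ρ ∧ ‖mu d (v (s₁ + τ ^ M)) m (z τ)‖ = 1 ∧
      ‖mu d (u (s₁ + τ ^ M)) m (y τ)‖ = 1 ∧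
      ∀ W ∈ nhds τ, ∃ t ∈ W, t ≠ 0 ∧ t ∈ ball (0 : ℂ) r ∧
        ‖mu d (v (s₁ + t ^ M)) m (z t)‖ < 1 ∧ ‖mu d (u (s₁ + t ^ M)) m (y t)‖ < 1 := by
  set f : ℂ → ℂ := fun τ => mu d (v (s₁ + τ ^ M)) m (z τ) with hf
  set g : ℂ → ℂ := fun τ => mu d (u (s₁ + τ ^ M)) m (y τ) with hg
  set T0 : ℝ → ℂ := fun θ => (ρ : ℂ) * x₀ * Complex.exp (θ * Complex.I) with hT0
  have hTn : ∀ θ, ‖T0 θ‖ = ρ := by
    intro θ
    simp only [hT0]
    rw [norm_mul, norm_mul, hx₀, Complex.norm_exp_ofReal_mul_I, Complex.norm_real,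
      Real.norm_of_nonneg hρ.le, mul_one, mul_one]
  have hTb : ∀ θ, T0 θ ∈ ball (0 : ℂ) r := by
    intro θ
    rw [mem_ball_zero_iff, hTn]
    exact hρr
  have hT00 : ∀ θ, T0 θ ≠ 0 := by
    intro θ h0
    have := hTn θ
    rw [h0, norm_zero] at this
    exact hρ.ne this
  have hTc : Continuous T0 := by
    simp only [hT0]
    fun_prop
  have hfc : Continuous (fun θ => ‖f (T0 θ)‖) := by
    refine continuous_iff_continuousAt.mpr (fun θ => ?_)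
    have h1 : ContinuousAt f (T0 θ) :=
      (hz.df.differentiableAt (isOpen_ball.mem_nhds (hTb θ))).continuousAt
    exact (ContinuousAt.comp (f := T0) (g := f) h1 hTc.continuousAt).norm
  have hgc : Continuous (fun θ => ‖g (T0 θ)‖) := by
    refine continuous_iff_continuousAt.mpr (fun θ => ?_)
    have h1 : ContinuousAt g (T0 θ) :=
      (hy.df.differentiableAt (isOpen_ball.mem_nhds (hTb θ))).continuousAt
    exact (ContinuousAt.comp (f := T0) (g := g) h1 hTc.continuousAt).norm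
  have hT0z : T0 0 = (ρ : ℂ) * x₀ := by
    simp [hT0]
  have hf0 : ‖f (T0 0)‖ < 1 := by
    rw [hT0z]
    exact hzx
  have hg0 : ‖g (T0 0)‖ < 1 := by
    rw [hT0z]
    exact hyx
  -- the circle is left somewhere
  obtain ⟨τ', hτ', hfτ'⟩ := circ_exceed f r hz.posr hz.df hz.one hz.ne1 ρ hρ hρr
  obtain ⟨θ', hθ', hθτ⟩ : ∃ θ' : ℝ, 0 ≤ θ' ∧ T0 θ' = τ' := by
    have hx0 : x₀ ≠ 0 := by
      intro h0
      rw [h0, norm_zero] at hx₀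
      exact zero_ne_one hx₀
    have hρ0 : (ρ : ℂ) ≠ 0 := by exact_mod_cast hρ.ne'
    set q : ℂ := τ' / (ρ * x₀) with hq
    have hqn : ‖q‖ = 1 := by
      rw [hq, norm_div, norm_mul, hx₀, hτ', Complex.norm_real, Real.norm_of_nonneg hρ.le, mul_one,
        div_self hρ.ne']
    have hqe : Complex.exp (Complex.arg q * Complex.I) = q := by
      have := Complex.norm_mul_exp_arg_mul_I q
      rw [hqn] at this
      simpa using this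
    refine ⟨Complex.arg q + 2 * Real.pi, ?_, ?_⟩
    · have := Complex.neg_pi_lt_arg q
      have := Real.pi_pos
      linarith
    · simp only [hT0]
      push_cast
      rw [add_mul, Complex.exp_add, hqe, Complex.exp_two_pi_mul_I, mul_one, hq]
      field_simp
  obtain ⟨θ, hθ, _, hfθ, hlt⟩ := BF10_exit (fun θ => ‖f (T0 θ)‖) hfc hf0 θ' hθ'
    (by simp only [hθτ]; exact hfτ'.le)
  -- claim 1
  have hc1 : ∀ t, 0 ≤ t → t < θ → ‖g (T0 t)‖ < 1 := by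
    by_contra hcon
    push Not at hcon
    obtain ⟨t, ht0, htθ, hgt⟩ := hcon
    obtain ⟨θ₁, hθ₁, hθ₁t, hgθ₁, _⟩ := BF10_exit (fun θ => ‖g (T0 θ)‖) hgc hg0 t ht0 hgt
    obtain ⟨ρ₁, hρ₁, hA⟩ := BF10_at hz (hT00 θ₁) (hTb θ₁)
      (hlt θ₁ hθ₁.le (hθ₁t.trans_lt htθ))
    obtain ⟨ρ₂, hρ₂, zh, hL⟩ := BF10_lab hy (hT00 θ₁) (hTb θ₁) hgθ₁
    exact BF10_no d MM hMM hinf c R v u h T hT hTM (fun s hs n hn => (hTA s hs n hn).1) m hm hmT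
      _ (hU _ (hTb θ₁)) ρ₁ hρ₁ hA ρ₂ hρ₂ zh hL
  -- claim 2
  have hcl : θ ∈ closure (Set.Ico 0 θ) := by
    rw [closure_Ico hθ.ne]
    exact ⟨hθ.le, le_rfl⟩
  have hle : ‖g (T0 θ)‖ ≤ 1 := by
    have hsub : Set.Ico 0 θ ⊆ {t | ‖g (T0 t)‖ ≤ 1} := fun t ht => (hc1 t ht.1 ht.2).le
    exact closure_minimal hsub (isClosed_le hgc continuous_const) hcl
  have hgθ : ‖g (T0 θ)‖ = 1 := by
    rcases lt_or_eq_of_le hle with hlt2 | h2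
    · exfalso
      obtain ⟨ρ₁, hρ₁, hA⟩ := BF10_at hy (hT00 θ) (hTb θ) hlt2
      obtain ⟨ρ₂, hρ₂, zh, hL⟩ := BF10_lab hz (hT00 θ) (hTb θ) hfθ
      exact BF10_no d MM hMM hinf c R u v (slice_symm d MM c R v u h) T hT hTM
        (fun s hs n hn => (hTA s hs n hn).2) m hm hmT
        _ (hU _ (hTb θ)) ρ₁ hρ₁ hA ρ₂ hρ₂ zh hL
    · exact h2
  refine ⟨T0 θ, hTn θ, hfθ, hgθ, ?_⟩
  intro W hW
  have h3 : T0 ⁻¹' W ∈ nhds θ := hTc.continuousAt.preimage_mem_nhds hW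
  obtain ⟨t, ht1, ht2⟩ := mem_closure_iff_nhds.mp hcl _ h3
  exact ⟨T0 t, ht1, hT00 t, hTb t, hlt t ht2.1 ht2.2, hc1 t ht2.1 ht2.2⟩

theorem BF10_inj2 (s₁ τ : ℂ) (hτ : τ ≠ 0) (M : ℕ) (hM : 1 ≤ M) (δ : ℝ) :
    Set.InjOn (fun t : ℝ => s₁ + (τ * (1 + (t : ℂ))) ^ M) (Set.Ioo 0 δ) := by
  intro a ha b hb hab
  simp only [add_right_inj] at hab
  have h1 := congrArg norm hab
  have h2 : ∀ t : ℝ, 0 < t → ‖(1 : ℂ) + (t : ℂ)‖ = 1 + t := by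
    intro t ht
    rw [← Complex.ofReal_one, ← Complex.ofReal_add, Complex.norm_real,
      Real.norm_of_nonneg (by linarith)]
  rw [norm_pow, norm_pow, norm_mul, norm_mul, h2 a ha.1, h2 b hb.1] at h1
  have h3 := (pow_left_inj₀ (by have := ha.1; positivity) (by have := hb.1; positivity)
    (by omega)).mp h1
  have h4 := mul_left_cancel₀ (norm_ne_zero_iff.mpr hτ) h3
  linarith

theorem fda (d : ℕ) (MM : Set ℕ) (hMM : ∀ n ∈ MM, n.Prime) (hinf : MM.Infinite) (c : ℂ) (R : ℝ)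
    (v u : ℂ → VI d → ℂ) (h : Slice d MM c R v u) (hv : VG d MM (v c)) (hu : VG d MM (u c))
    (T : Finset ℕ) (hT : T.card + 1 = 2 * d - 2) (hTM : ∀ n ∈ T, n ∈ MM)
    (hTA : ∀ s ∈ ball c R, ∀ n ∈ T, At d (v s) n ∧ At d (u s) n)
    (n₀ : ℕ) (hn : n₀ ∈ MM) (ρ₀ : ℝ) (hρ₀ : ρ₀ ≤ R) (z : ℂ → ℂ) (hl : Lab d v c n₀ ρ₀ z) :
    ∃ l₀ : ℕ, ∀ m ∈ MM, l₀ ≤ m → ∀ Z : Set ℂ, Z.Countable → ∃ s ∈ ball c R, s ∉ Z ∧
      ∃ x y : ℂ, PX d (v s) m x ∧ ‖mu d (v s) m x‖ = 1 ∧ mu d (v s) m x ≠ 1 ∧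
        PX d (u s) m y ∧ ‖mu d (u s) m y‖ = 1 ∧ mu d (u s) m y ≠ 1 ∧
        ∀ ε > 0, ∀ Z' : Set ℂ, Z'.Countable → ∃ s' ∈ ball s ε, s' ∈ ball c R ∧ s' ∉ Z' ∧
          ∃ x' y' : ℂ, PX d (v s') m x' ∧ ‖x' - x‖ < ε ∧ ‖mu d (v s') m x'‖ < 1 ∧
            PX d (u s') m y' ∧ ‖y' - y‖ < ε ∧ ‖mu d (u s') m y'‖ < 1 := by
  classical
  have hR : 0 < R := h.fam.pos
  obtain ⟨l₀, hl₀⟩ := stg d MM hMM c R v u h hv hu n₀ hn ρ₀ hρ₀ z hl R hR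
  refine ⟨max l₀ (T.sup id + 1), fun m hm hml Z hZ => ?_⟩
  have hmT : m ∉ T := by
    intro hmT
    have h1 : id m ≤ T.sup id := Finset.le_sup hmT
    have h2 := (le_max_right l₀ (T.sup id + 1)).trans hml
    simp only [id] at h1
    omega
  have hmp := hMM m hm
  obtain ⟨s₁, _, hs₁, ⟨w, hw, hw1⟩, ⟨w', hw', hw1'⟩⟩ := hl₀ m hm ((le_max_left _ _).trans hml)
  obtain ⟨M, r, zz, yy, hzz, hyy, hU⟩ := BF8_common d m MM hmp hm c R v u h.fam h.fam' s₁ hs₁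
  obtain ⟨Φ, hΦ⟩ := parb d m MM hmp hm c R v h.fam s₁ hs₁ M r zz hzz hU w hw hw1
  obtain ⟨Φ', hΦ'⟩ := parb d m MM hmp hm c R u h.fam' s₁ hs₁ M r yy hyy hU w' hw' hw1'
  obtain ⟨x₀, hx₀, hxΦ⟩ := BF8_unit (Φ ∪ Φ')
  obtain ⟨i, hi0, ρ₁, hρ₁, hρ₁r, hi⟩ := hΦ x₀ hx₀ (fun hc => hxΦ (Finset.mem_union_left _ hc))
  obtain ⟨j, hj0, ρ₂, hρ₂, _, hj⟩ := hΦ' x₀ hx₀ (fun hc => hxΦ (Finset.mem_union_right _ hc))
  obtain ⟨r₁, hr₁, hr₁r, hD⟩ := BF10_data hmp hm h.fam hs₁ hzz hU i (by rw [hi0]; exact hw)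
    (by rw [hi0]; exact hw1)
  obtain ⟨r₂, hr₂, hr₂r, hD'⟩ := BF10_data hmp hm h.fam' hs₁ hyy hU j (by rw [hj0]; exact hw')
    (by rw [hj0]; exact hw1')
  have hr : 0 < min r₁ r₂ := lt_min hr₁ hr₂
  have hE := BF10_mono hD hr (min_le_left _ _)
  have hE' := BF10_mono hD' hr (min_le_right _ _)
  have hU' : ∀ τ ∈ ball (0 : ℂ) (min r₁ r₂), s₁ + τ ^ M ∈ ball c R := fun τ hτ =>
    hU τ (ball_subset_ball ((min_le_left _ _).trans hr₁r) hτ)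
  have hM1 : 1 ≤ M := hzz.posM
  have key : ∀ ρ ∈ Set.Ioo (0 : ℝ) (min (min r₁ r₂) (min ρ₁ ρ₂)), ∃ τ : ℂ, ‖τ‖ = ρ ∧
      ‖mu d (v (s₁ + τ ^ M)) m (zz i τ)‖ = 1 ∧
      ‖mu d (u (s₁ + τ ^ M)) m (yy j τ)‖ = 1 ∧
      ∀ W ∈ nhds τ, ∃ t ∈ W, t ≠ 0 ∧ t ∈ ball (0 : ℂ) (min r₁ r₂) ∧
        ‖mu d (v (s₁ + t ^ M)) m (zz i t)‖ < 1 ∧ ‖mu d (u (s₁ + t ^ M)) m (yy j t)‖ < 1 := by
    intro ρ hρ
    have h1 : ρ < min r₁ r₂ := hρ.2.trans_le (min_le_left _ _)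
    have h2 : ρ < ρ₁ := hρ.2.trans_le ((min_le_right _ _).trans (min_le_left _ _))
    have h3 : ρ < ρ₂ := hρ.2.trans_le ((min_le_right _ _).trans (min_le_right _ _))
    exact BF10_circle d MM hMM hinf c R v u h T hT hTM hTA m hm hmT s₁ M (min r₁ r₂) (zz i) (yy j)
      hU' hE hE' x₀ hx₀ ρ hρ.1 h1 (hi ρ hρ.1 h2).1 (hj ρ hρ.1 h3).1
  choose! G hG using key
  have hδ : 0 < min (min r₁ r₂) (min ρ₁ ρ₂) := lt_min hr (lt_min hρ₁ hρ₂)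
  have hinj : Set.InjOn (fun ρ => s₁ + G ρ ^ M) (Set.Ioo 0 (min (min r₁ r₂) (min ρ₁ ρ₂))) := by
    intro a ha b hb hab
    simp only [add_right_inj] at hab
    have h1 := congrArg norm hab
    rw [norm_pow, norm_pow, (hG a ha).1, (hG b hb).1] at h1
    exact (pow_left_inj₀ ha.1.le hb.1.le (by omega)).mp h1
  obtain ⟨ρ, hρ, hρZ⟩ := BF8_unc hδ hinj hZ
  obtain ⟨hn1, hf1, hg1, hW⟩ := hG ρ hρ
  have hGb : G ρ ∈ ball (0 : ℂ) (min r₁ r₂) := by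
    rw [mem_ball_zero_iff, hn1]
    exact hρ.2.trans_le (min_le_left _ _)
  have hG0 : G ρ ≠ 0 := by
    intro h0
    rw [h0, norm_zero] at hn1
    exact hρ.1.ne hn1
  refine ⟨s₁ + G ρ ^ M, hU' _ hGb, hρZ, zz i (G ρ), yy j (G ρ), hE.px _ hGb, hf1,
    hE.ne1 _ hGb hG0, hE'.px _ hGb, hg1, hE'.ne1 _ hGb hG0, ?_⟩
  intro ε hε Z' hZ'
  -- the open conditions
  set W : Set ℂ := {t | dist (s₁ + t ^ M) (s₁ + G ρ ^ M) < ε ∧ ‖zz i t - zz i (G ρ)‖ < ε ∧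
    ‖yy j t - yy j (G ρ)‖ < ε} with hWdef
  have hzc : ∀ t ∈ ball (0 : ℂ) (min r₁ r₂), ContinuousAt (zz i) t := fun t ht =>
    (hE.dz.differentiableAt (isOpen_ball.mem_nhds ht)).continuousAt
  have hyc : ∀ t ∈ ball (0 : ℂ) (min r₁ r₂), ContinuousAt (yy j) t := fun t ht =>
    (hE'.dz.differentiableAt (isOpen_ball.mem_nhds ht)).continuousAt
  have hsc : Continuous (fun t : ℂ => s₁ + t ^ M) := by fun_prop
  have hWn : ∀ t ∈ ball (0 : ℂ) (min r₁ r₂), t ∈ W → W ∈ nhds t := by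
    intro t ht htW
    have h1 : ∀ᶠ t' in nhds t, dist (s₁ + t' ^ M) (s₁ + G ρ ^ M) < ε :=
      (hsc.continuousAt.dist continuousAt_const).eventually_lt_const htW.1
    have h2 : ∀ᶠ t' in nhds t, ‖zz i t' - zz i (G ρ)‖ < ε :=
      ((hzc t ht).sub continuousAt_const).norm.eventually_lt_const htW.2.1
    have h3 : ∀ᶠ t' in nhds t, ‖yy j t' - yy j (G ρ)‖ < ε :=
      ((hyc t ht).sub continuousAt_const).norm.eventually_lt_const htW.2.2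
    filter_upwards [h1, h2, h3] with t' a b c
    exact ⟨a, b, c⟩
  have hWG : W ∈ nhds (G ρ) := hWn _ hGb ⟨by simpa using hε, by simpa using hε, by simpa using hε⟩
  obtain ⟨t, htW, ht0, htb, hft, hgt⟩ := hW W hWG
  have hev : ∀ᶠ t' in nhds t, t' ∈ W ∧ t' ∈ ball (0 : ℂ) (min r₁ r₂) ∧
      ‖mu d (v (s₁ + t' ^ M)) m (zz i t')‖ < 1 ∧ ‖mu d (u (s₁ + t' ^ M)) m (yy j t')‖ < 1 := by
    have h1 : ∀ᶠ t' in nhds t, ‖mu d (v (s₁ + t' ^ M)) m (zz i t')‖ < 1 :=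
      ((hE.df.differentiableAt (isOpen_ball.mem_nhds htb)).continuousAt).norm.eventually_lt_const
        hft
    have h2 : ∀ᶠ t' in nhds t, ‖mu d (u (s₁ + t' ^ M)) m (yy j t')‖ < 1 :=
      ((hE'.df.differentiableAt (isOpen_ball.mem_nhds htb)).continuousAt).norm.eventually_lt_const
        hgt
    filter_upwards [hWn t htb htW, isOpen_ball.mem_nhds htb, h1, h2] with t' a b c e
    exact ⟨a, b, c, e⟩
  have hline : Tendsto (fun a : ℝ => t * (1 + (a : ℂ))) (nhds 0) (nhds t) := by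
    have h1 : Continuous (fun a : ℝ => t * (1 + (a : ℂ))) := by fun_prop
    have h2 := h1.tendsto 0
    simpa using h2
  have hev2 := hline.eventually hev
  rw [Metric.eventually_nhds_iff_ball] at hev2
  obtain ⟨δ, hδ0, hδ1⟩ := hev2
  obtain ⟨a, ha, haZ⟩ := BF8_unc hδ0 (BF10_inj2 s₁ t ht0 M hM1 δ) hZ'
  obtain ⟨haW, hab, haf, hag⟩ := hδ1 a (by
    rw [mem_ball_zero_iff, Real.norm_of_nonneg ha.1.le]
    exact ha.2)
  exact ⟨s₁ + (t * (1 + (a : ℂ))) ^ M, haW.1, hU' _ hab, haZ, zz i _, yy j _, hE.px _ hab, haW.2.1,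
    haf, hE'.px _ hab, haW.2.2, hag⟩

end Pool.Agent.LSF
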