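import Pool.Agent.LSF.BF1
import Pool.Agent.LSF.BT13
import Pool.Agent.LSF.BA6
import Pool.Agent.LSF.BA7

/-!
BF3: the number of multiple roots of `fixF d l (v e)` is at most `2 (2 d - 2) l`.
-/

namespace Pool.Agent.LSF

open Polynomial Pool.Agent.LenSpec Metric Filter

open Classical in
/-- the exact period of a point with `f^l z = z` -/
noncomputable def bf3m (d l : ℕ) (v : VI d → ℂ) (x : ℂ) : ℕ := if fv d v x = x then 1 else l

theorem bf3_facts (d l : ℕ) (hl : l.Prime) (v : VI d → ℂ) (hv : Nf d v) (x : ℂ)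
    (hx : (fv d v)^[l] x = x) (h1 : ‖mu d v l x‖ < 1) (h0 : mu d v l x ≠ 0) :
    1 ≤ bf3m d l v x ∧ bf3m d l v x ≤ l ∧ PerX (nP d v) (nQ d v) (bf3m d l v x) x ∧
      mult (nP d v) (nQ d v) (bf3m d l v x) x ≠ 0 ∧
      ‖mult (nP d v) (nQ d v) (bf3m d l v x) x‖ < 1 := by
  unfold bf3m
  by_cases hf : fv d v x = x
  · rw [if_pos hf]
    have h2 : (fv d v)^[1] x = x := by simpa using hf
    rw [px_pow d l v x hf] at h1 h0
    refine ⟨le_refl 1, hl.one_le, ⟨⟨rm_per (nf_rm hv) (le_refl 1) h2, h2⟩, fun m h3 h4 => by omega⟩,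
      ?_, ?_⟩
    · intro h3
      apply h0
      have h4 : mu d v 1 x = 0 := h3
      rw [h4]
      exact zero_pow hl.ne_zero
    · by_contra h3
      rw [not_lt] at h3
      rw [norm_pow] at h1
      have h4 : (1 : ℝ) ≤ ‖mu d v 1 x‖ ^ l := one_le_pow₀ h3
      linarith
  · rw [if_neg hf]
    rcases per_prime d l hl v hv x hx with h | h
    · exact absurd h hf
    · exact ⟨hl.one_le, le_refl l, h, h0, h1⟩

theorem bf3_orb_card (P Q : ℂ[X]) (m : ℕ) (hm : 1 ≤ m) (x : ℂ) (h : PerX P Q m x) :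
    (orb P Q m x).card = m := by
  classical
  obtain ⟨h1, -, -, -, -⟩ := orb_facts P Q m hm x h
  unfold orb
  rw [Finset.card_image_of_injOn, Finset.card_range]
  intro i hi j hj hij
  exact h1 i (by simpa using hi) j (by simpa using hj) hij

theorem bf3_orb_eq (P Q : ℂ[X]) (m : ℕ) (hm : 1 ≤ m) (x : ℂ) (h : PerX P Q m x) (k : ℕ) :
    orb P Q m ((ev P Q)^[k] x) = orb P Q m x := by
  classical
  obtain ⟨-, h2, -, h4, -⟩ := orb_facts P Q m hm x h
  have hy : PerX P Q m ((ev P Q)^[k] x) := (h2 _ (h4 k)).2.2.1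
  apply Finset.eq_of_subset_of_card_le
  · intro w hw
    unfold orb at hw
    obtain ⟨j, -, rfl⟩ := Finset.mem_image.mp hw
    rw [← Function.iterate_add_apply]
    exact h4 (j + k)
  · rw [bf3_orb_card P Q m hm x h, bf3_orb_card P Q m hm _ hy]

theorem bf3_cyc (d l : ℕ) (hl : l.Prime) (v : VI d → ℂ) (hv : Nf d v) (X : Finset ℂ)
    (hX : ∀ x ∈ X, (fv d v)^[l] x = x ∧ ‖mu d v l x‖ < 1 ∧ mu d v l x ≠ 0) :
    X.card ≤ (2 * d - 2) * l := by
  classical
  have hF : ∀ x ∈ X, 1 ≤ bf3m d l v x ∧ bf3m d l v x ≤ l ∧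
      PerX (nP d v) (nQ d v) (bf3m d l v x) x ∧
      mult (nP d v) (nQ d v) (bf3m d l v x) x ≠ 0 ∧
      ‖mult (nP d v) (nQ d v) (bf3m d l v x) x‖ < 1 := fun x hx =>
    bf3_facts d l hl v hv x (hX x hx).1 (hX x hx).2.1 (hX x hx).2.2
  set g : ℂ → Finset ℂ := fun x => orb (nP d v) (nQ d v) (bf3m d l v x) x with hg
  have hself : ∀ x ∈ X, x ∈ g x := by
    intro x hx
    obtain ⟨h1, -, h3, -, -⟩ := hF x hx
    obtain ⟨-, -, -, h4, -⟩ := orb_facts (nP d v) (nQ d v) _ h1 x h3
    exact h4 0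
  have hcard : X.card ≤ l * (X.image g).card := by
    apply Finset.card_le_mul_card_image
    intro a ha
    obtain ⟨x, hx, rfl⟩ := Finset.mem_image.mp ha
    obtain ⟨h1, h2, h3, -, -⟩ := hF x hx
    calc (X.filter (fun y => g y = g x)).card ≤ (g x).card := by
          apply Finset.card_le_card
          intro y hy
          obtain ⟨hy1, hy2⟩ := Finset.mem_filter.mp hy
          rw [← hy2]
          exact hself y hy1
      _ = bf3m d l v x := bf3_orb_card _ _ _ h1 x h3
      _ ≤ l := h2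
  have hch : ∀ a : X.image g, ∃ x ∈ X, g x = a.val := fun a => by
    obtain ⟨x, hx, hxa⟩ := Finset.mem_image.mp a.2
    exact ⟨x, hx, hxa⟩
  choose p hpX hpg using hch
  have ht := t3 d v hv (X.image g) (fun a => bf3m d l v (p a)) p (fun a => (hF _ (hpX a)).1)
    (fun a => (hF _ (hpX a)).2.2.1) (fun a => (hF _ (hpX a)).2.2.2.1)
    (fun a => (hF _ (hpX a)).2.2.2.2) ?_
  · rw [Fintype.card_coe] at ht
    calc X.card ≤ l * (X.image g).card := hcard
      _ ≤ l * (2 * d - 2) := Nat.mul_le_mul_left l ht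
      _ = (2 * d - 2) * l := Nat.mul_comm _ _
  · intro i j hij k hk
    apply hij
    apply Subtype.ext
    rw [← hpg i, ← hpg j]
    obtain ⟨h1, -, h3, -, -⟩ := hF _ (hpX i)
    have hm : bf3m d l v (p j) = bf3m d l v (p i) := by
      unfold bf3m
      by_cases hf : fv d v (p i) = p i
      · have h5 : p j = p i := by rw [hk]; exact Function.iterate_fixed hf k
        rw [h5]
      · rw [if_neg hf]
        have h6 : bf3m d l v (p i) = l := if_neg hf
        rw [h6] at h1 h3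
        obtain ⟨-, h2', -, h4', -⟩ := orb_facts (nP d v) (nQ d v) l h1 (p i) h3
        have h7 : PerX (nP d v) (nQ d v) l (p j) := by
          rw [hk]
          exact (h2' _ (h4' k)).2.2.1
        have h8 : fv d v (p j) ≠ p j := by
          have := h7.2 1 one_pos hl.one_lt
          simpa using this
        rw [if_neg h8]
    show orb (nP d v) (nQ d v) (bf3m d l v (p i)) (p i) =
      orb (nP d v) (nQ d v) (bf3m d l v (p j)) (p j)
    rw [hm, hk, bf3_orb_eq _ _ _ h1 _ h3 k]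

open Classical in
theorem cnt_mult (d l : ℕ) (MM : Set ℕ) (hl : l.Prime) (hM : l ∈ MM) (c : ℂ) (R : ℝ)
    (v : ℂ → VI d → ℂ) (h : Fam d MM c R v) (e : ℂ) (he : e ∈ ball c R) :
    Multiset.card ((fixF d l (v e)).roots.filter
      (fun w => (derivative (fixF d l (v e))).eval w = 0)) ≤ 2 * ((2 * d - 2) * l) := by
  have hd : 2 ≤ d := (h.nf e he).two_le
  have hl1 : 1 ≤ l := hl.one_le
  have hpf := (fixF_pf d l hd hl1 (ball c R) v h.diff).1
  have hpun := punct d l MM hl hM c R v h e he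
  obtain ⟨M, r, z, hpui, hmem⟩ := puiseux isOpen_ball hpf e he hpun
  have hM1 := hpui.posM
  -- smaller radius with simple roots
  obtain ⟨ρ, hρ, hball⟩ := Metric.eventually_nhds_iff_ball.mp (eventually_nhdsWithin_iff.mp hpun)
  set r₁ : ℝ := min r (min 1 ρ) with hr₁
  have hr₁pos : 0 < r₁ := lt_min hpui.posr (lt_min one_pos hρ)
  have hsubr : ball (0 : ℂ) r₁ ⊆ ball 0 r := ball_subset_ball (min_le_left _ _)
  set w : ℂ → VI d → ℂ := fun τ => v (e + τ ^ M) with hw
  have hwd : DifferentiableOn ℂ w (ball 0 r) := by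
    refine h.diff.comp ?_ (fun τ hτ => hmem τ hτ)
    exact (differentiable_id.pow M).differentiableOn.const_add e
  have hroot : ∀ τ ∈ ball (0 : ℂ) r, ∀ i, (fv d (w τ))^[l] (z i τ) = z i τ := by
    intro τ hτ i
    have h1 : z i τ ∈ (fixF d l (v (e + τ ^ M))).roots := by
      rw [hpui.roots τ hτ]
      exact Multiset.mem_map_of_mem _ (Finset.mem_univ_val i)
    exact (fixF_root d l hl1 (w τ) (h.nf _ (hmem τ hτ)) _).mp (mem_roots'.mp h1).2
  have hpole : ∀ τ ∈ ball (0 : ℂ) r, ∀ i k,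
      (nQ d (w τ)).eval ((fv d (w τ))^[k] (z i τ)) ≠ 0 := fun τ hτ i =>
    rm_per (nf_rm (h.nf _ (hmem τ hτ))) hl1 (hroot τ hτ i)
  set f : Fin (d ^ l + 1) → ℂ → ℂ := fun i τ => mu d (w τ) l (z i τ) with hf
  have hfd : ∀ i, DifferentiableOn ℂ (f i) (ball 0 r) := fun i =>
    (mu_diff d l (ball 0 r) w hwd (z i) (hpui.diff i) (fun τ hτ k _ => hpole τ hτ i k)).1
  set I : Finset (Fin (d ^ l + 1)) := Finset.univ.filter (fun i => f i 0 = 1) with hI
  have h0r : (0 : ℂ) ∈ ball (0 : ℂ) r := mem_ball_self hpui.posr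
  have he0 : e + (0 : ℂ) ^ M = e := by
    rw [zero_pow (by omega), add_zero]
  have hw0 : w 0 = v e := by rw [hw]; simp only [he0]
  have hcardI : Multiset.card ((fixF d l (v e)).roots.filter
      (fun w => (derivative (fixF d l (v e))).eval w = 0)) = I.card := by
    have h1 := hpui.roots 0 h0r
    rw [he0] at h1
    rw [h1, Multiset.filter_map, Multiset.card_map, hI, Finset.card_def, Finset.filter_val]
    congr 1
    apply Multiset.filter_congr
    intro i _
    have h2 := hroot 0 h0r i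
    rw [hw0] at h2
    have h3 := fixF_simple d l hl1 (v e) (h.nf e he) (z i 0) h2
    simp only [Function.comp]
    rw [h3, hf]
    simp only [hw0]
  rw [hcardI]
  have hsimple : ∀ τ ∈ ball (0 : ℂ) r₁, τ ≠ 0 → (fixF d l (w τ)).roots.Nodup := by
    intro τ hτ hτ0
    have hn : ‖τ‖ < r₁ := by simpa using hτ
    have hn1 : ‖τ‖ < 1 := lt_of_lt_of_le hn ((min_le_right _ _).trans (min_le_left _ _))
    have hn2 : ‖τ‖ < ρ := lt_of_lt_of_le hn ((min_le_right _ _).trans (min_le_right _ _))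
    apply hball
    · rw [mem_ball_iff_norm, add_sub_cancel_left, norm_pow]
      exact lt_of_le_of_lt (pow_le_of_le_one (norm_nonneg _) hn1.le (by omega)) hn2
    · intro h4
      have h5 : e + τ ^ M = e := h4
      have h6 : τ ^ M = 0 := by simpa using h5
      exact hτ0 (pow_eq_zero_iff (by omega : M ≠ 0) |>.mp h6)
  refine avga I f r₁ hr₁pos ((2 * d - 2) * l) (fun i _ => (hfd i).mono hsubr)
    (fun i hi => (Finset.mem_filter.mp hi).2) ?_ ?_
  · intro i _ τ hτ hτ0
    exact fixF_nodup' d l hl1 (w τ) (h.nf _ (hmem τ (hsubr hτ))) (hsimple τ hτ hτ0) (z i τ)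
      (hroot τ (hsubr hτ) i)
  · intro τ hτ hτ0 J hJ hJ1 hJ0
    have hτr := hsubr hτ
    have hnd := hsimple τ hτ hτ0
    have hinj : ∀ i j, z i τ = z j τ → i = j := by
      have h1 := hpui.roots τ hτr
      have h2 : (Multiset.map (fun i => z i τ) Finset.univ.val).Nodup := by
        rw [← h1]
        exact hnd
      intro i j hij
      exact Multiset.inj_on_of_nodup_map h2 i (Finset.mem_univ_val i) j (Finset.mem_univ_val j) hij
    have h3 : J.card = (J.image (fun i => z i τ)).card := by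
      rw [Finset.card_image_of_injOn]
      intro i _ j _ hij
      exact hinj i j hij
    rw [h3]
    apply bf3_cyc d l hl (w τ) (h.nf _ (hmem τ hτr))
    intro x hx
    obtain ⟨i, hi, rfl⟩ := Finset.mem_image.mp hx
    exact ⟨hroot τ hτr i, hJ1 i hi, hJ0 i (hJ hi) (hJ1 i hi)⟩

end Pool.Agent.LSF
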