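import Pool.Agent.LSF.BF1
import Pool.Agent.LSF.BA6

/-!
BF4: if the multipliers of period `l` split at `e` and `e` is not a satellite parameter, all
periodic points near `e` are given by holomorphic functions.

Complete proof. Let `F s := fixF d l (v s)`, `D = d^l + 1`; `puiseux` (with `punct`) gives
`M, r, z i`; let `ω := exp(2πI/M)` . `f i τ := mu d (v (e + τ^M)) l (z i τ)` is holomorphic on
`ball 0 r` (`mu_diff`; `fixF_root`; `rm_per`). After shrinking `r` the roots are simple for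
`0 < ‖τ‖ < r`, and `ball e (r^M)` is contained in the ball of `Split`.
Fix `i`. Claim: `z i (ω τ) = z i τ` on `ball 0 r`. The function `τ ↦ z i (ω τ)` is a root function
(`(ω τ)^M = τ^M`), so it equals `z j` for some `j` on the ball (at every `τ` it equals one of the
`z j τ`; finitely many closed conditions, identity theorem on the connected ball, as in `br_reg`).
Suppose first that `z i τ` is a fixed point of `f_s` for some (hence, see below) `τ ≠ 0`: the
functions `fv d (v s) (z i τ) - z i τ` is holomorphic in `τ`; by `per_prime` at every `τ`, either it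
vanishes or `z i τ` has exact period `l`.
* Case A: `z i τ` is fixed for uncountably many `τ`, so identically. Then `z i 0` is a fixed point
of `f_e`; its multiplier satisfies `(mu 1)^l ≠ 1` (`hsat`), so `mu l ≠ 1` and `z i 0` is a simple
root of `F e` (`fixF_simple`); as `z j 0 = z i 0` (`z j τ = z i (ω τ)`, `τ = 0`), and the root `z i 0`
has multiplicity one in the multiset `{z k 0}`, `j = i`.
* Case B: `z i τ` has exact period `l` for all but countably many `τ`. By `Split` there is for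
all but countably many `τ` an index `k` with `f i τ = x k (e + τ^M)` (for `s = e + τ^M ∉ Z`; the
preimage of a countable set under `τ ↦ e + τ^M` is countable), so by the pigeonhole principle and
the identity theorem `f i τ = x k (e + τ^M)` on the ball for one `k`. Hence
`f j τ = f i (ω τ) = x k (e + τ^M) = f i τ` for all `τ`. (`f j τ = mu at z j τ = z i (ω τ)`, same `s`.)
For all but countably many `τ`, `VG` holds at `s`, and `z i τ`, `z j τ = z i (ω τ)` have exact period
`l`, so by `VG.same` `z j τ = f_s^a (z i τ)` with `0 ≤ a < l` (reduce modulo `l`); pigeonhole: one `a`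
works for uncountably many `τ`, and by the identity theorem (both sides holomorphic in `τ`,
`mu_diff`) for all `τ`. If `a = 0`: `z j = z i` as functions, so `j = i` (simple roots) and the claim.
If `a ≠ 0`: at `τ = 0`: `z j 0 = z i 0` and `z j 0 = f_e^a (z i 0)`, so `f_e^a w = w` and `f_e^l w = w`
with `w = z i 0`, `0 < a < l` coprime to the prime `l`: `f_e w = w`. And `w` is a multiple root of
`F e` (`z i 0 = z j 0`, `i ≠ j`), so `mu l w = 1` (`fixF_simple`), i.e. `(mu 1 w)^l = 1`, a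
contradiction to `hsat`.
So `z i (ω τ) = z i τ`. Then `z i τ = y i (τ^M)` for a holomorphic `y i` on `ball 0 (r^M)`: define
`y i t := z i τ` for any `τ` with `τ^M = t`; well defined (the solutions differ by powers of `ω`);
for `t ≠ 0` holomorphic (local branch of the root), continuous at `0` (bounded), so holomorphic
(removable singularity). Put `Z i s := y i (s - e)`: `RegAt`.
-/
namespace Pool.Agent.LSF

open Polynomial Pool.Agent.LenSpec Metric Filter

/-- identity theorem on a ball -/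
theorem BF4_ident {r : ℝ} {g : ℂ → ℂ} (hg : DifferentiableOn ℂ g (ball 0 r)) (A : Set ℂ)
    (hA : A ⊆ ball 0 r) (hAc : ¬ A.Countable) (h0 : ∀ τ ∈ A, g τ = 0) :
    ∀ τ ∈ ball (0 : ℂ) r, g τ = 0 := by
  have han : AnalyticOnNhd ℂ g (ball 0 r) := hg.analyticOnNhd isOpen_ball
  have hacc : ∃ x ∈ A, AccPt x (𝓟 A) := by
    by_contra hno
    push Not at hno
    have hd : DiscreteTopology A := discreteTopology_of_noAccPts hno
    exact hAc (Set.countable_coe_iff.1 (TopologicalSpace.separableSpace_iff_countable.1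
      (inferInstance : TopologicalSpace.SeparableSpace A)))
  obtain ⟨x, hxA, hx⟩ := hacc
  have hfr : ∃ᶠ y in nhdsWithin x {x}ᶜ, g y = 0 := by
    have h1 := accPt_iff_frequently.1 hx
    rw [frequently_nhdsWithin_iff]
    exact h1.mono fun y hy => ⟨h0 y hy.2, hy.1⟩
  exact fun τ hτ => han.eqOn_zero_of_preconnected_of_frequently_eq_zero
    (convex_ball _ _).isPreconnected (hA hxA) hfr hτ

/-- pigeonhole for holomorphic functions -/
theorem BF4_pigeon {r : ℝ} (hr : 0 < r) {ι : Type} [Finite ι] (g : ι → ℂ → ℂ)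
    (hg : ∀ i, DifferentiableOn ℂ (g i) (ball 0 r)) (B : Set ℂ) (hB : B.Countable)
    (h : ∀ τ ∈ ball (0 : ℂ) r, τ ∉ B → ∃ i, g i τ = 0) :
    ∃ i, ∀ τ ∈ ball (0 : ℂ) r, g i τ = 0 := by
  by_contra hno
  push Not at hno
  have hc : ∀ i, ({τ ∈ ball (0 : ℂ) r | g i τ = 0}).Countable := by
    intro i
    by_contra hi
    obtain ⟨τ, hτ, hne⟩ := hno i
    exact hne (BF4_ident (hg i) _ (fun x hx => hx.1) hi (fun x hx => hx.2) τ hτ)
  have hU : (B ∪ ⋃ i, {τ ∈ ball (0 : ℂ) r | g i τ = 0}).Countable :=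
    hB.union (Set.countable_iUnion hc)
  have hd := hU.dense_compl ℝ
  obtain ⟨x, hx1, hx2⟩ := hd.inter_open_nonempty (ball 0 r) isOpen_ball ⟨0, mem_ball_self hr⟩
  refine hx2 ?_
  by_cases hxB : x ∈ B
  · exact Or.inl hxB
  · obtain ⟨i, hi⟩ := h x hx1 hxB
    exact Or.inr (Set.mem_iUnion.2 ⟨i, hx1, hi⟩)

/-- the preimage of a countable set -/
theorem BF4_pre (e : ℂ) (M : ℕ) (hM : 1 ≤ M) (Z : Set ℂ) (hZ : Z.Countable) :
    ({τ : ℂ | e + τ ^ M ∈ Z}).Countable := by
  have h1 : {τ : ℂ | e + τ ^ M ∈ Z} ⊆ ⋃ c ∈ Z, {τ : ℂ | τ ^ M = c - e} := by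
    intro τ hτ
    refine Set.mem_biUnion (show e + τ ^ M ∈ Z from hτ) ?_
    show τ ^ M = e + τ ^ M - e
    ring
  refine Set.Countable.mono h1 (hZ.biUnion fun c _ => ?_)
  have h2 : {τ : ℂ | τ ^ M = c - e} ⊆ ((nthRoots M (c - e)).toFinset : Set ℂ) := by
    intro τ hτ
    simp only [Finset.mem_coe, Multiset.mem_toFinset]
    exact (mem_nthRoots (by omega)).2 hτ
  exact ((Finset.finite_toSet _).subset h2).countable

/-- two equal entries in the list of roots give a multiple root -/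
theorem BF4_mult {D : ℕ} {p : ℂ[X]} (hp : p ≠ 0) (w : Fin D → ℂ)
    (h : p.roots = Finset.univ.val.map w) {i j : Fin D} (hij : i ≠ j) (hw : w i = w j) :
    (derivative p).eval (w i) = 0 := by
  classical
  have h1 : 1 < p.rootMultiplicity (w i) := by
    rw [← count_roots, h, Multiset.count_map]
    have h2 : ({i, j} : Finset (Fin D)).val ≤
        Multiset.filter (fun a => w i = w a) (Finset.univ : Finset (Fin D)).val := by
      rw [← Finset.filter_val, Finset.val_le_iff]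
      intro a ha
      rw [Finset.mem_insert, Finset.mem_singleton] at ha
      rw [Finset.mem_filter]
      refine ⟨Finset.mem_univ _, ?_⟩
      rcases ha with rfl | rfl
      · rfl
      · exact hw
    have h3 := Multiset.card_le_card h2
    rw [Finset.card_val, Finset.card_pair hij] at h3
    omega
  exact ((one_lt_rootMultiplicity_iff_isRoot hp).1 h1).2

theorem BF4_fix {κ : Type} (g : κ → κ) (l a : ℕ) (hl : l.Prime) (y : κ) (h1 : g^[l] y = y)
    (ha : 0 < a) (hal : a < l) (h2 : g^[a] y = y) : g y = y := by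
  have e1 : Function.IsPeriodicPt g l y := h1
  have e2 : Function.IsPeriodicPt g a y := h2
  have e3 := e1.gcd e2
  have e4 : Nat.gcd l a = 1 := by
    refine (Nat.Prime.coprime_iff_not_dvd hl).2 fun hd => ?_
    exact absurd (Nat.le_of_dvd ha hd) (by omega)
  rw [e4] at e3
  exact e3

/-- descent to the base -/
theorem BF4_desc (D : ℕ) (F : ℂ → ℂ[X]) (e : ℂ) (M : ℕ) (r : ℝ) (z : Fin D → ℂ → ℂ)
    (hp : Pui D F e M r z) (ω : ℂ) (hω : IsPrimitiveRoot ω M)
    (hinv : ∀ i, ∀ τ ∈ ball (0 : ℂ) r, z i (ω * τ) = z i τ) : RegAt D F e := by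
  have hM : M ≠ 0 := by have := hp.posM; omega
  have hNZ : NeZero M := ⟨hM⟩
  have hnω : ‖ω‖ = 1 := hω.norm'_eq_one hM
  have hpow : ∀ i (k : ℕ), ∀ τ ∈ ball (0 : ℂ) r, z i (ω ^ k * τ) = z i τ := by
    intro i k τ hτ
    induction k with
    | zero => rw [pow_zero, one_mul]
    | succ k ih =>
      rw [pow_succ', mul_assoc, hinv i (ω ^ k * τ), ih]
      rw [mem_ball_zero_iff, norm_mul, norm_pow, hnω, one_pow, one_mul]
      exact mem_ball_zero_iff.1 hτ
  have hsame : ∀ i, ∀ τ ∈ ball (0 : ℂ) r, ∀ τ' : ℂ, τ' ^ M = τ ^ M → z i τ' = z i τ := by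
    intro i τ hτ τ' hτ'
    by_cases h0 : τ = 0
    · rw [h0, zero_pow hM] at hτ'
      rw [h0, pow_eq_zero_iff hM |>.1 hτ']
    · have h1 : (τ' / τ) ^ M = 1 := by
        rw [div_pow, hτ', div_self (pow_ne_zero _ h0)]
      obtain ⟨k, -, hk⟩ := hω.eq_pow_of_pow_eq_one h1
      have h2 : τ' = ω ^ k * τ := by
        rw [hk, div_mul_cancel₀ _ h0]
      rw [h2, hpow i k τ hτ]
  set κ₀ : ℂ → ℂ := fun s => (s - e) ^ ((M : ℂ)⁻¹) with hκ₀
  have hκM : ∀ s, κ₀ s ^ M = s - e := fun s => Complex.cpow_nat_inv_pow _ hM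
  have hκn : ∀ s, ∀ ρ : ℝ, 0 < ρ → ‖s - e‖ < ρ ^ M → ‖κ₀ s‖ < ρ := by
    intro s ρ hρ hs
    rw [← hκM s, norm_pow] at hs
    exact lt_of_pow_lt_pow_left₀ M hρ.le hs
  have hrM : 0 < r ^ M := pow_pos hp.posr M
  have hmem : ∀ s ∈ ball e (r ^ M), κ₀ s ∈ ball (0 : ℂ) r := by
    intro s hs
    rw [mem_ball_zero_iff]
    exact hκn s r hp.posr (by rwa [mem_ball_iff_norm] at hs)
  refine ⟨r ^ M, hrM, fun i s => z i (κ₀ s), fun i => ?_, fun s hs => ?_⟩
  · rw [← Complex.differentiableOn_compl_singleton_and_continuousAt_iff (c := e)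
      (isOpen_ball.mem_nhds (mem_ball_self hrM))]
    refine ⟨?_, ?_⟩
    · intro s₀ hs₀
      obtain ⟨hs1, hs2⟩ := hs₀
      have hne : s₀ - e ≠ 0 := sub_ne_zero.2 hs2
      refine DifferentiableAt.differentiableWithinAt ?_
      set κ : ℂ → ℂ := fun s => κ₀ s₀ * ((s - e) / (s₀ - e)) ^ ((M : ℂ)⁻¹) with hκ
      have hκd : DifferentiableAt ℂ κ s₀ := by
        refine DifferentiableAt.const_mul ?_ _
        refine DifferentiableAt.cpow_const ?_ ?_
        · exact (differentiableAt_id.sub_const e).div_const _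
        · rw [div_self hne]
          exact Complex.one_mem_slitPlane
      have hκs : κ s₀ = κ₀ s₀ := by
        rw [hκ]
        simp only [div_self hne, Complex.one_cpow, mul_one]
      have hκp : ∀ s, κ s ^ M = s - e := by
        intro s
        rw [hκ]
        simp only [mul_pow]
        rw [hκM, Complex.cpow_nat_inv_pow _ hM, mul_div_cancel₀ _ hne]
      have hz : DifferentiableAt ℂ (z i) (κ s₀) := by
        rw [hκs]
        exact (hp.diff i).differentiableAt (isOpen_ball.mem_nhds (hmem s₀ hs1))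
      have hcomp : DifferentiableAt ℂ (fun s => z i (κ s)) s₀ := hz.comp s₀ hκd
      refine hcomp.congr_of_eventuallyEq ?_
      filter_upwards [isOpen_ball.mem_nhds hs1] with s hs
      exact (hsame i (κ₀ s) (hmem s hs) (κ s) (by rw [hκp, hκM])).symm
    · have h0 : κ₀ e = 0 := by
        have := hκM e
        rw [sub_self] at this
        exact pow_eq_zero_iff hM |>.1 this
      have hc : ContinuousAt κ₀ e := by
        rw [Metric.continuousAt_iff]
        intro ε hε
        refine ⟨ε ^ M, pow_pos hε M, fun {s} hs => ?_⟩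
        rw [h0, dist_zero_right]
        exact hκn s ε hε (by rwa [dist_eq_norm] at hs)
      have hz : ContinuousAt (z i) (κ₀ e) := by
        rw [h0]
        exact ((hp.diff i).differentiableAt
          (isOpen_ball.mem_nhds (mem_ball_self hp.posr))).continuousAt
      exact ContinuousAt.comp (f := κ₀) (g := z i) hz hc
  · have h1 := hp.roots (κ₀ s) (hmem s hs)
    rw [hκM, add_sub_cancel] at h1
    exact h1

theorem reg_of_split (d l : ℕ) (MM : Set ℕ) (hl : l.Prime) (hM : l ∈ MM) (c : ℂ) (R : ℝ)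
    (v : ℂ → VI d → ℂ) (h : Fam d MM c R v) (e : ℂ) (he : e ∈ ball c R)
    (hsp : Split d v l e) (hsat : ¬ Sat d (v e) l) :
    RegAt (d ^ l + 1) (fun s => fixF d l (v s)) e := by
  have hl1 : 1 ≤ l := hl.one_lt.le
  have hd : 2 ≤ d := (h.nf e he).two_le
  obtain ⟨hPF, -⟩ := fixF_pf d l hd hl1 (ball c R) v h.diff
  have hpu := punct d l MM hl hM c R v h e he
  obtain ⟨M, r₀, z, hp₀, hmem₀⟩ := puiseux isOpen_ball hPF e he hpu
  have hM1 : 1 ≤ M := hp₀.posM
  have hM0 : M ≠ 0 := by omega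
  obtain ⟨r₁, hr₁, k₁, x, hx, Z, hZ, hxZ⟩ := hsp
  obtain ⟨Z₀, hZ₀, hvg⟩ := h.vg
  -- shrink the radius
  have htend : Tendsto (fun τ : ℂ => e + τ ^ M) (nhds 0) (nhds e) := by
    have : ContinuousAt (fun τ : ℂ => e + τ ^ M) 0 := by fun_prop
    have h2 := this.tendsto
    simpa [zero_pow hM0] using h2
  have hev1 : ∀ᶠ τ : ℂ in nhds 0, e + τ ^ M ∈ ball e r₁ :=
    htend.eventually (isOpen_ball.mem_nhds (mem_ball_self hr₁))
  have hev2 : ∀ᶠ τ : ℂ in nhds 0, τ ≠ 0 → (fixF d l (v (e + τ ^ M))).roots.Nodup := by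
    rw [eventually_nhdsWithin_iff] at hpu
    filter_upwards [htend.eventually hpu] with τ hτ h0
    refine hτ ?_
    simp only [Set.mem_compl_iff, Set.mem_singleton_iff, add_eq_left]
    exact pow_ne_zero _ h0
  obtain ⟨r₂, hr₂, hball⟩ := Metric.eventually_nhds_iff_ball.1 (hev1.and hev2)
  set r : ℝ := min r₀ r₂ with hr
  have hrpos : 0 < r := lt_min hp₀.posr hr₂
  have hsub : ball (0 : ℂ) r ⊆ ball 0 r₀ := ball_subset_ball (min_le_left _ _)
  have hp : Pui (d ^ l + 1) (fun s => fixF d l (v s)) e M r z :=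
    ⟨hM1, hrpos, fun i => (hp₀.diff i).mono hsub, fun τ hτ => hp₀.roots τ (hsub hτ)⟩
  have hmem : ∀ τ ∈ ball (0 : ℂ) r, e + τ ^ M ∈ ball c R := fun τ hτ => hmem₀ τ (hsub hτ)
  have hmem1 : ∀ τ ∈ ball (0 : ℂ) r, e + τ ^ M ∈ ball e r₁ := fun τ hτ =>
    (hball τ (ball_subset_ball (min_le_right _ _) hτ)).1
  have hnod : ∀ τ ∈ ball (0 : ℂ) r, τ ≠ 0 → (fixF d l (v (e + τ ^ M))).roots.Nodup :=
    fun τ hτ => (hball τ (ball_subset_ball (min_le_right _ _) hτ)).2
  have hne0 : ∀ s, fixF d l (v s) ≠ 0 := fun s => (fixF_monic d l hd hl1 (v s)).1.ne_zero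
  -- roots
  have hroot : ∀ τ ∈ ball (0 : ℂ) r, ∀ w : ℂ,
      ((fv d (v (e + τ ^ M)))^[l] w = w ↔ ∃ i, z i τ = w) := by
    intro τ hτ w
    rw [← fixF_root d l hl1 (v (e + τ ^ M)) (h.nf _ (hmem τ hτ)) w]
    have h1 := hp.roots τ hτ
    have h2 : (fixF d l (v (e + τ ^ M))).eval w = 0 ↔ w ∈ (fixF d l (v (e + τ ^ M))).roots := by
      rw [mem_roots (hne0 _), IsRoot.def]
    rw [h2]
    have h1' : (fixF d l (v (e + τ ^ M))).roots = Finset.univ.val.map (fun i => z i τ) := h1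
    rw [h1', Multiset.mem_map]
    constructor
    · rintro ⟨i, -, hi⟩
      exact ⟨i, hi⟩
    · rintro ⟨i, hi⟩
      exact ⟨i, Finset.mem_univ_val i, hi⟩
  have hinj : ∀ τ ∈ ball (0 : ℂ) r, τ ≠ 0 → ∀ i j, z i τ = z j τ → i = j := by
    intro τ hτ h0 i j hij
    have h1 := hnod τ hτ h0
    have h1' : (fixF d l (v (e + τ ^ M))).roots = Finset.univ.val.map (fun i => z i τ) :=
      hp.roots τ hτ
    rw [h1'] at h1
    exact Multiset.inj_on_of_nodup_map h1 i (Finset.mem_univ_val i) j (Finset.mem_univ_val j) hij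
  have hper : ∀ τ ∈ ball (0 : ℂ) r, ∀ i, (fv d (v (e + τ ^ M)))^[l] (z i τ) = z i τ :=
    fun τ hτ i => (hroot τ hτ _).2 ⟨i, rfl⟩
  -- differentiability
  have hvd : DifferentiableOn ℂ (fun τ => v (e + τ ^ M)) (ball 0 r) := by
    refine h.diff.comp (t := ball c R) ?_ hmem
    exact ((differentiable_const e).add (differentiable_id.pow M)).differentiableOn
  have hmu := fun i => mu_diff d l (ball 0 r) (fun τ => v (e + τ ^ M)) hvd (z i) (hp.diff i)
    (fun τ hτ k _ => rm_per (nf_rm (h.nf _ (hmem τ hτ))) hl1 (hper τ hτ i) k)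
  -- rotation
  set ω : ℂ := Complex.exp (2 * Real.pi * Complex.I / M) with hωd
  have hω : IsPrimitiveRoot ω M := Complex.isPrimitiveRoot_exp M hM0
  have hnω : ‖ω‖ = 1 := hω.norm'_eq_one hM0
  have hωM : ω ^ M = 1 := hω.pow_eq_one
  have hrot : ∀ τ ∈ ball (0 : ℂ) r, ω * τ ∈ ball (0 : ℂ) r := by
    intro τ hτ
    rw [mem_ball_zero_iff, norm_mul, hnω, one_mul]
    exact mem_ball_zero_iff.1 hτ
  have hrotp : ∀ τ : ℂ, (ω * τ) ^ M = τ ^ M := fun τ => by rw [mul_pow, hωM, one_mul]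
  have hrotd : ∀ g : ℂ → ℂ, DifferentiableOn ℂ g (ball 0 r) →
      DifferentiableOn ℂ (fun τ => g (ω * τ)) (ball 0 r) := by
    intro g hg
    exact hg.comp (t := ball 0 r) ((differentiable_const ω).mul differentiable_id).differentiableOn
      hrot
  refine BF4_desc _ _ e M r z hp ω hω fun i => ?_
  obtain ⟨j, hj⟩ := BF4_pigeon hrpos (fun (j : Fin (d ^ l + 1)) τ => z i (ω * τ) - z j τ)
    (fun j => (hrotd _ (hp.diff i)).sub (hp.diff j)) ∅ Set.countable_empty (by
      intro τ hτ _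
      have h1 := hper (ω * τ) (hrot τ hτ) i
      rw [hrotp] at h1
      obtain ⟨j, hj⟩ := (hroot τ hτ _).1 h1
      exact ⟨j, by rw [hj, sub_self]⟩)
  have hj' : ∀ τ ∈ ball (0 : ℂ) r, z i (ω * τ) = z j τ := fun τ hτ => sub_eq_zero.1 (hj τ hτ)
  suffices hij : i = j by
    intro τ hτ
    rw [hj' τ hτ, hij]
  by_contra hij
  have h0r : (0 : ℂ) ∈ ball (0 : ℂ) r := mem_ball_self hrpos
  have hz0 : z i 0 = z j 0 := by
    have := hj' 0 h0r
    rwa [mul_zero] at this
  have he0 : e + (0 : ℂ) ^ M = e := by rw [zero_pow hM0, add_zero]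
  have hperi : (fv d (v e))^[l] (z i 0) = z i 0 := by
    have := hper 0 h0r i
    rwa [he0] at this
  have hder : (derivative (fixF d l (v e))).eval (z i 0) = 0 := by
    refine BF4_mult (hne0 e) (fun i => z i 0) ?_ hij hz0
    have := hp.roots 0 h0r
    rwa [he0] at this
  have hmu1 : mu d (v e) l (z i 0) = 1 :=
    (fixF_simple d l hl1 (v e) (h.nf e he) _ hperi).1 hder
  have hnfix : ¬ fv d (v e) (z i 0) = z i 0 := by
    intro hfix
    refine hsat ⟨z i 0, hfix, ?_⟩
    rw [← px_pow d l (v e) _ hfix, hmu1]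
  -- the points are not fixed off a countable set
  have hgd : DifferentiableOn ℂ (fun τ => fv d (v (e + τ ^ M)) (z i τ) - z i τ) (ball 0 r) :=
    ((hmu i).2 1 hl1).sub (hp.diff i)
  have hB1 : ({τ ∈ ball (0 : ℂ) r | fv d (v (e + τ ^ M)) (z i τ) - z i τ = 0}).Countable := by
    by_contra hc
    have h1 := BF4_ident hgd _ (fun x hx => hx.1) hc (fun x hx => hx.2) 0 h0r
    rw [he0] at h1
    exact hnfix (sub_eq_zero.1 h1)
  set B1 : Set ℂ := {τ ∈ ball (0 : ℂ) r | fv d (v (e + τ ^ M)) (z i τ) - z i τ = 0} with hB1d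
  have hPX : ∀ τ ∈ ball (0 : ℂ) r, τ ∉ B1 → PX d (v (e + τ ^ M)) l (z i τ) := by
    intro τ hτ hτB
    rcases per_prime d l hl (v (e + τ ^ M)) (h.nf _ (hmem τ hτ)) (z i τ) (hper τ hτ i) with h1 | h1
    · exact absurd ⟨hτ, sub_eq_zero.2 h1⟩ hτB
    · exact h1
  -- the multiplier is one of the holomorphic functions
  obtain ⟨k, hk⟩ := BF4_pigeon hrpos
    (fun (k : Fin k₁) τ => mu d (v (e + τ ^ M)) l (z i τ) - x k (e + τ ^ M))
    (fun k => (hmu i).1.sub ((hx k).comp (t := ball e r₁)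
      ((differentiable_const e).add (differentiable_id.pow M)).differentiableOn hmem1))
    (B1 ∪ {τ | e + τ ^ M ∈ Z}) (hB1.union (BF4_pre e M hM1 Z hZ)) (by
      intro τ hτ hτB
      obtain ⟨k, hk⟩ := hxZ _ (hmem1 τ hτ) (fun h => hτB (Or.inr h)) (z i τ)
        (hPX τ hτ (fun h => hτB (Or.inl h)))
      exact ⟨k, by rw [hk, sub_self]⟩)
  have hk' : ∀ τ ∈ ball (0 : ℂ) r, mu d (v (e + τ ^ M)) l (z i τ) = x k (e + τ ^ M) :=
    fun τ hτ => sub_eq_zero.1 (hk τ hτ)
  have hmm : ∀ τ ∈ ball (0 : ℂ) r, mu d (v (e + τ ^ M)) l (z j τ) =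
      mu d (v (e + τ ^ M)) l (z i τ) := by
    intro τ hτ
    have h1 := hk' (ω * τ) (hrot τ hτ)
    rw [hrotp, hj' τ hτ] at h1
    rw [h1, hk' τ hτ]
  -- z j is an iterate of z i
  have hB2 : ({τ : ℂ | ω * τ ∈ B1}).Countable := by
    have hinj' : Function.Injective (fun τ : ℂ => ω * τ) := fun a b hab =>
      mul_left_cancel₀ (hω.ne_zero hM0) hab
    exact hB1.preimage_of_injOn hinj'.injOn
  obtain ⟨a, ha⟩ := BF4_pigeon hrpos
    (fun (a : Fin l) τ => z j τ - (fv d (v (e + τ ^ M)))^[a.val] (z i τ))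
    (fun a => (hp.diff j).sub ((hmu i).2 a.val a.2.le))
    (B1 ∪ {τ : ℂ | ω * τ ∈ B1} ∪ {τ | e + τ ^ M ∈ Z₀})
    ((hB1.union hB2).union (BF4_pre e M hM1 Z₀ hZ₀)) (by
      intro τ hτ hτB
      have hvgτ := hvg _ (hmem τ hτ) (fun h => hτB (Or.inr h))
      have p1 := hPX τ hτ (fun h => hτB (Or.inl (Or.inl h)))
      have p2 := hPX (ω * τ) (hrot τ hτ) (fun h => hτB (Or.inl (Or.inr h)))
      rw [hrotp, hj' τ hτ] at p2
      obtain ⟨k, hk⟩ := hvgτ.same l hM (z i τ) (z j τ) p1 p2 (hmm τ hτ).symm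
      have hpp : Function.IsPeriodicPt (fv d (v (e + τ ^ M))) l (z i τ) := hper τ hτ i
      refine ⟨⟨k % l, Nat.mod_lt _ hl.pos⟩, ?_⟩
      simp only
      rw [hpp.iterate_mod_apply k, ← hk, sub_self])
  have ha' : ∀ τ ∈ ball (0 : ℂ) r, z j τ = (fv d (v (e + τ ^ M)))^[a.val] (z i τ) :=
    fun τ hτ => sub_eq_zero.1 (ha τ hτ)
  rcases Nat.eq_zero_or_pos a.val with ha0 | hapos
  · -- a = 0
    have hr2 : ((r / 2 : ℝ) : ℂ) ∈ ball (0 : ℂ) r := by
      rw [mem_ball_zero_iff, Complex.norm_real, Real.norm_of_nonneg (by positivity)]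
      linarith
    have h1 := ha' _ hr2
    rw [ha0, Function.iterate_zero, id] at h1
    exact hij (hinj _ hr2 (by
      have : (r / 2 : ℝ) ≠ 0 := by positivity
      exact_mod_cast this) j i h1).symm
  · have h1 := ha' 0 h0r
    rw [he0, ← hz0] at h1
    exact hnfix (BF4_fix _ l a.val hl _ hperi hapos a.2 h1.symm)

end Pool.Agent.LSF
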