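import Pool.Agent.LSF.BF1
import Pool.Agent.LSF.BA5
import Pool.Agent.LSF.BA9

/-!
BF5: satellites in a disc; splitting at parameters without multiplier `1`.
-/

namespace Pool.Agent.LSF

open Polynomial Pool.Agent.LenSpec Metric Filter

/-- near a parameter without multiple periodic points of period `n` all periodic points are
holomorphic functions of the parameter, and so are their multipliers -/
theorem bf5_branches (d n : ℕ) (hn : 1 ≤ n) (MM : Set ℕ) (c : ℂ) (R : ℝ) (v : ℂ → VI d → ℂ)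
    (h : Fam d MM c R v) (e : ℂ) (he : e ∈ ball c R)
    (hm : ∀ z, (fv d (v e))^[n] z = z → mu d (v e) n z ≠ 1) :
    ∃ r > 0, ball e r ⊆ ball c R ∧ ∃ z : Fin (d ^ n + 1) → ℂ → ℂ,
      (∀ i, DifferentiableOn ℂ (fun s => mu d (v s) n (z i s)) (ball e r)) ∧
      (∀ i, ∀ s ∈ ball e r, (fv d (v s))^[n] (z i s) = z i s) ∧
      ∀ s ∈ ball e r, ∀ w, (fv d (v s))^[n] w = w → ∃ i, w = z i s := by
  have hd : 2 ≤ d := (h.nf e he).two_le
  have hpf := (fixF_pf d n hd hn (ball c R) v h.diff).1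
  obtain ⟨r, hr, z, hz, hroots⟩ := reg_simple isOpen_ball hpf e he
    (fixF_nodup d n hn (v e) (h.nf e he) hm)
  obtain ⟨ε, hε, hsub⟩ := Metric.isOpen_iff.1 isOpen_ball e he
  have hfix : ∀ i, ∀ s ∈ ball e (min r ε), (fv d (v s))^[n] (z i s) = z i s := by
    intro i s hs
    have hs1 : s ∈ ball e r := ball_subset_ball (min_le_left _ _) hs
    have hs2 : s ∈ ball c R := hsub (ball_subset_ball (min_le_right _ _) hs)
    have h1 : z i s ∈ (fixF d n (v s)).roots := by
      rw [hroots s hs1]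
      exact Multiset.mem_map_of_mem (fun i => z i s) (Finset.mem_univ_val i)
    exact (fixF_root d n hn (v s) (h.nf s hs2) _).1 (mem_roots'.1 h1).2
  refine ⟨min r ε, lt_min hr hε, (ball_subset_ball (min_le_right _ _)).trans hsub, z,
    fun i => ?_, hfix, ?_⟩
  · refine (mu_diff d n (ball e (min r ε)) v
      (h.diff.mono ((ball_subset_ball (min_le_right _ _)).trans hsub)) (z i)
      ((hz i).mono (ball_subset_ball (min_le_left _ _))) ?_).1
    intro s hs k _
    have hs2 : s ∈ ball c R := hsub (ball_subset_ball (min_le_right _ _) hs)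
    exact rm_per (nf_rm (h.nf s hs2)) hn (hfix i s hs) k
  · intro s hs w hw
    have hs1 : s ∈ ball e r := ball_subset_ball (min_le_left _ _) hs
    have hs2 : s ∈ ball c R := hsub (ball_subset_ball (min_le_right _ _) hs)
    have h1 : w ∈ (fixF d n (v s)).roots :=
      (mem_roots (hpf.monic s hs2).ne_zero).2 ((fixF_root d n hn (v s) (h.nf s hs2) _).2 hw)
    rw [hroots s hs1] at h1
    obtain ⟨i, -, hi⟩ := Multiset.mem_map.1 h1
    exact ⟨i, hi.symm⟩

theorem sat_fin (d : ℕ) (MM : Set ℕ) (c : ℂ) (R : ℝ) (v : ℂ → VI d → ℂ) (h : Fam d MM c R v)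
    (hc : VG d MM (v c)) :
    ∃ R₁ > 0, R₁ ≤ R ∧ ∃ C : ℕ, ∀ l : ℕ, 1 ≤ l → ∃ S : Finset ℂ, S.card ≤ C * l ∧
      ∀ s ∈ ball c R₁, Sat d (v s) l → s ∈ S := by
  classical
  have hcm : c ∈ ball c R := mem_ball_self h.pos
  obtain ⟨r, hr, hsub, z, hdiff, hfix, hall⟩ := bf5_branches d 1 le_rfl MM c R v h c hcm
    (fun z hz h1 => hc.fix_ne z hz 1 le_rfl (by rw [h1, one_pow]))
  have hcount : ∀ i : Fin (d ^ 1 + 1), ∃ C : ℕ, ∀ l : ℕ, 1 ≤ l → ∃ S : Finset ℂ,
      S.card ≤ C * l ∧ ∀ s ∈ closedBall c (min r R / 2), mu d (v s) 1 (z i s) ^ l = 1 → s ∈ S := by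
    intro i
    have hpos : 0 < min r R := lt_min hr h.pos
    refine sat_count c (min r R / 2) (min r R) (by linarith) (by linarith)
      (fun s => mu d (v s) 1 (z i s)) ((hdiff i).mono (ball_subset_ball (min_le_left _ _))) c
      (mem_ball_self hpos) ?_
    intro l hl
    exact hc.fix_ne (z i c) (hfix i c (mem_ball_self hr)) l hl
  choose C hC using hcount
  have hpos : 0 < min r R := lt_min hr h.pos
  refine ⟨min r R / 2, by linarith, by linarith [min_le_right r R], ∑ i, C i, fun l hl => ?_⟩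
  choose S hS1 hS2 using fun i => hC i l hl
  refine ⟨Finset.univ.biUnion S, ?_, ?_⟩
  · refine Finset.card_biUnion_le.trans ?_
    rw [Finset.sum_mul]
    exact Finset.sum_le_sum (fun i _ => hS1 i)
  · rintro s hs ⟨w, hw, hw1⟩
    have hs1 : s ∈ ball c r := ball_subset_ball (by linarith [min_le_left r R]) hs
    obtain ⟨i, rfl⟩ := hall s hs1 w hw
    exact Finset.mem_biUnion.2 ⟨i, Finset.mem_univ i, hS2 i s (ball_subset_closedBall hs) hw1⟩

theorem nsp (d l : ℕ) (hl : l.Prime) (MM : Set ℕ) (c : ℂ) (R : ℝ) (v : ℂ → VI d → ℂ)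
    (h : Fam d MM c R v) (e : ℂ) (he : e ∈ ball c R) (hs : ¬ Sat d (v e) l)
    (hp : ¬ Par d (v e) l) : Split d v l e := by
  obtain ⟨r, hr, hsub, z, hdiff, hfix, hall⟩ := bf5_branches d l hl.one_lt.le MM c R v h e he
    (by
      intro z hz h1
      rcases per_prime d l hl (v e) (h.nf e he) z hz with h2 | h2
      · refine hs ⟨z, h2, ?_⟩
        rw [← px_pow d l (v e) z h2, h1]
      · exact hp ⟨z, h2, h1⟩)
  refine ⟨r, hr, d ^ l + 1, fun i s => mu d (v s) l (z i s), hdiff, ∅, Set.countable_empty, ?_⟩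
  intro s hs _ w hw
  obtain ⟨i, hi⟩ := hall s hs w hw.1.2
  exact ⟨i, by rw [hi]⟩

end Pool.Agent.LSF
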