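import Pool.Agent.LSF.BF1

/-!
BF6: moving a label to the repelling and to the attracting side, and to a generic point.

Complete proof. `h(s) := mu d (v s) n (z s)` is holomorphic on `ball c ρ'`, `ρ' = min ρ R`
(`mu_diff`, `rm_per`), nonconstant near `c` (identity theorem and `Lab.nc`; if `nc` is witnessed at
a point outside `ball c R` restrict first: assume `ρ ≤ R`), `‖h c‖ = 1`. By the open mapping theorem
`h` maps every neighbourhood of `c` onto a neighbourhood of `h c`.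
`lab_sides`: so it takes values of modulus `> 1` and `< 1` on every ball around `c`; the set where
`‖h‖ > 1` is open and nonempty in it, so it contains points off the countable set `Z`; same for
`‖h‖ < 1`.
`lab_gen`: for every `ε > 0` and countable `Z` there is `c' ∈ ball c ε`, `c' ∉ Z` with `Lab` at `c'`:
the set `h (ball c ε)` contains an arc of the unit circle around `h c`, which is uncountable, so
the set of `s ∈ ball c ε` with `‖h s‖ = 1`, is uncountable; choose `c'` in it off `Z`; for small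
`ε`, `h c' ≠ 1` by continuity; `h` is nonconstant on every ball `ball c' ρ''` (identity theorem).
-/

namespace Pool.Agent.LSF

open Polynomial Pool.Agent.LenSpec Metric Filter

/-- the multiplier along a label is an open holomorphic map -/
theorem BF6_open (d n : ℕ) (c : ℂ) (R : ℝ) (v : ℂ → VI d → ℂ)
    (hv : DifferentiableOn ℂ v (ball c R)) (ρ : ℝ)
    (hρ : ρ ≤ R) (z : ℂ → ℂ) (hl : Lab d v c n ρ z) :
    ContinuousOn (fun s => mu d (v s) n (z s)) (ball c ρ) ∧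
    ∀ s ⊆ ball c ρ, IsOpen s → IsOpen ((fun s => mu d (v s) n (z s)) '' s) := by
  have hd : DifferentiableOn ℂ (fun s => mu d (v s) n (z s)) (ball c ρ) :=
    (mu_diff d n (ball c ρ) v (hv.mono (ball_subset_ball hρ)) z hl.diff
      (fun s hs k _ => (hl.per s hs).1.1 k)).1
  refine ⟨hd.continuousOn, ?_⟩
  have ha : AnalyticOnNhd ℂ (fun s => mu d (v s) n (z s)) (ball c ρ) :=
    hd.analyticOnNhd isOpen_ball
  rcases ha.is_constant_or_isOpen (convex_ball c ρ).isPreconnected with ⟨w, hw⟩ | h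
  · exfalso
    obtain ⟨s, hs, hne⟩ := hl.nc
    exact hne ((hw s hs).trans (hw c (mem_ball_self hl.pos)).symm)
  · exact h

/-- points off a countable set -/
theorem BF6_off {S : Set ℂ} (hS : IsOpen S) (hne : S.Nonempty) {Z : Set ℂ} (hZ : Z.Countable) :
    ∃ a ∈ S, a ∉ Z := by
  obtain ⟨a, ha, ha'⟩ := (hZ.dense_compl ℂ).inter_open_nonempty S hS hne
  exact ⟨a, ha, ha'⟩

theorem lab_sides (d n : ℕ) (hn : 1 ≤ n) (c : ℂ) (R : ℝ) (hR : 0 < R) (v : ℂ → VI d → ℂ)
    (hv : DifferentiableOn ℂ v (ball c R)) (hnf : ∀ s ∈ ball c R, Nf d (v s)) (ρ : ℝ)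
    (hρ : ρ ≤ R) (z : ℂ → ℂ) (hl : Lab d v c n ρ z) (Z : Set ℂ) (hZ : Z.Countable) (ε : ℝ)
    (hε : 0 < ε) :
    (∃ a ∈ ball c ε, a ∈ ball c ρ ∧ a ∉ Z ∧ 1 < ‖mu d (v a) n (z a)‖) ∧
    (∃ b ∈ ball c ε, b ∈ ball c ρ ∧ b ∉ Z ∧ ‖mu d (v b) n (z b)‖ < 1) := by
  obtain ⟨hc, ho⟩ := BF6_open d n c R v hv ρ hρ z hl
  set h : ℂ → ℂ := fun s => mu d (v s) n (z s) with hh
  set S : Set ℂ := ball c ε ∩ ball c ρ with hS
  have hSo : IsOpen S := isOpen_ball.inter isOpen_ball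
  have hcS : c ∈ S := ⟨mem_ball_self hε, mem_ball_self hl.pos⟩
  have hV : IsOpen (h '' S) := ho S Set.inter_subset_right hSo
  have h1 : ‖h c‖ = 1 := hl.one
  have hcont : Continuous (fun t : ℝ => (1 + (t : ℂ)) * h c) := by fun_prop
  have hpre : IsOpen ((fun t : ℝ => (1 + (t : ℂ)) * h c) ⁻¹' (h '' S)) := hV.preimage hcont
  have h0 : (0 : ℝ) ∈ ((fun t : ℝ => (1 + (t : ℂ)) * h c) ⁻¹' (h '' S)) := by
    refine ⟨c, hcS, ?_⟩
    simp
  obtain ⟨δ, hδ, hball⟩ := Metric.isOpen_iff.1 hpre 0 h0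
  have hnorm : ∀ t : ℝ, -1 < t → ‖(1 + (t : ℂ)) * h c‖ = 1 + t := by
    intro t ht
    rw [norm_mul, h1, mul_one]
    have : (1 + (t : ℂ)) = ((1 + t : ℝ) : ℂ) := by push_cast; rfl
    rw [this, Complex.norm_real, Real.norm_eq_abs, abs_of_pos (by linarith)]
  have hcS' : ContinuousOn h S := hc.mono Set.inter_subset_right
  constructor
  · have ht : (min (δ / 2) (1 / 2)) ∈ ball (0 : ℝ) δ := by
      rw [mem_ball, Real.dist_eq, sub_zero, abs_of_pos (by positivity)]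
      exact lt_of_le_of_lt (min_le_left _ _) (by linarith)
    obtain ⟨a, ha, hav⟩ := hball ht
    have hpos : 0 < min (δ / 2) (1 / 2) := by positivity
    have hO : IsOpen (S ∩ h ⁻¹' {w | 1 < ‖w‖}) :=
      hcS'.isOpen_inter_preimage hSo (isOpen_lt continuous_const continuous_norm)
    obtain ⟨x, ⟨hx1, hx2⟩, hxZ⟩ := BF6_off hO ⟨a, ha, by
      show 1 < ‖h a‖
      rw [hav, hnorm _ (by linarith)]; linarith⟩ hZ
    exact ⟨x, hx1.1, hx1.2, hxZ, hx2⟩
  · have hpos : 0 < min (δ / 2) (1 / 2) := by positivity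
    have hle : min (δ / 2) (1 / 2) ≤ 1 / 2 := min_le_right _ _
    have ht : (-(min (δ / 2) (1 / 2))) ∈ ball (0 : ℝ) δ := by
      rw [mem_ball, Real.dist_eq, sub_zero, abs_neg, abs_of_pos hpos]
      exact lt_of_le_of_lt (min_le_left _ _) (by linarith)
    obtain ⟨a, ha, hav⟩ := hball ht
    have hO : IsOpen (S ∩ h ⁻¹' {w | ‖w‖ < 1}) :=
      hcS'.isOpen_inter_preimage hSo (isOpen_lt continuous_norm continuous_const)
    obtain ⟨x, ⟨hx1, hx2⟩, hxZ⟩ := BF6_off hO ⟨a, ha, by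
      show ‖h a‖ < 1
      rw [hav, hnorm _ (by linarith)]; linarith⟩ hZ
    exact ⟨x, hx1.1, hx1.2, hxZ, hx2⟩

/-- the rational parametrisation of the unit circle -/
noncomputable def BF6_g (t : ℝ) : ℂ := (1 + (t : ℂ) * Complex.I) / (1 - (t : ℂ) * Complex.I)

theorem BF6_den (t : ℝ) : (1 - (t : ℂ) * Complex.I) ≠ 0 := by
  intro h
  have := congrArg Complex.re h
  simp at this

theorem BF6_norm (t : ℝ) : ‖BF6_g t‖ = 1 := by
  unfold BF6_g
  rw [norm_div]
  have h1 : (1 + (t : ℂ) * Complex.I) = (starRingEnd ℂ) (1 - (t : ℂ) * Complex.I) := by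
    simp
  rw [h1, Complex.norm_conj, div_self]
  exact norm_ne_zero_iff.2 (BF6_den t)

theorem BF6_inj : Function.Injective BF6_g := by
  intro s t h
  unfold BF6_g at h
  rw [div_eq_div_iff (BF6_den s) (BF6_den t)] at h
  have h2 : ((s : ℂ) - t) * Complex.I = 0 := by linear_combination h / 2
  rcases mul_eq_zero.1 h2 with h3 | h3
  · exact_mod_cast sub_eq_zero.1 h3
  · exact absurd h3 Complex.I_ne_zero

theorem BF6_cont : Continuous BF6_g := by
  unfold BF6_g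
  exact Continuous.div (by fun_prop) (by fun_prop) BF6_den

theorem lab_gen (d n : ℕ) (hn : 1 ≤ n) (c : ℂ) (R : ℝ) (hR : 0 < R) (v : ℂ → VI d → ℂ)
    (hv : DifferentiableOn ℂ v (ball c R)) (hnf : ∀ s ∈ ball c R, Nf d (v s)) (ρ : ℝ)
    (hρ : ρ ≤ R) (z : ℂ → ℂ) (hl : Lab d v c n ρ z) (Z : Set ℂ) (hZ : Z.Countable) (ε : ℝ)
    (hε : 0 < ε) :
    ∃ c' ∈ ball c ε, c' ∈ ball c ρ ∧ c' ∉ Z ∧ ∃ ρ' > 0, ball c' ρ' ⊆ ball c ρ ∧
      Lab d v c' n ρ' z := by
  obtain ⟨hc, ho⟩ := BF6_open d n c R v hv ρ hρ z hl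
  set h : ℂ → ℂ := fun s => mu d (v s) n (z s) with hh
  set S : Set ℂ := (ball c ε ∩ ball c ρ) ∩ h ⁻¹' {w | w ≠ 1} with hS
  have hSo : IsOpen S :=
    (hc.mono Set.inter_subset_right).isOpen_inter_preimage (isOpen_ball.inter isOpen_ball)
      isOpen_ne
  have hSsub : S ⊆ ball c ρ := fun x hx => hx.1.2
  have hcS : c ∈ S := ⟨⟨mem_ball_self hε, mem_ball_self hl.pos⟩, hl.ne1⟩
  have hV : IsOpen (h '' S) := ho S hSsub hSo
  have h1 : ‖h c‖ = 1 := hl.one
  have hc0 : h c ≠ 0 := by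
    intro h'
    rw [h', norm_zero] at h1
    exact one_ne_zero h1.symm
  -- the parameters of the arc
  have hU : IsOpen ((fun t : ℝ => h c * BF6_g t) ⁻¹' (h '' S)) :=
    hV.preimage (continuous_const.mul BF6_cont)
  have hU0 : (0 : ℝ) ∈ ((fun t : ℝ => h c * BF6_g t) ⁻¹' (h '' S)) := by
    refine ⟨c, hcS, ?_⟩
    simp [BF6_g]
  obtain ⟨x, hxS, hx1, hxZ⟩ : ∃ x ∈ S, ‖h x‖ = 1 ∧ x ∉ Z := by
    by_contra hcon
    push Not at hcon
    have hsub : (fun t : ℝ => h c * BF6_g t) '' ((fun t : ℝ => h c * BF6_g t) ⁻¹' (h '' S)) ⊆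
        h '' Z := by
      rintro w ⟨t, ⟨x, hx, hxt⟩, rfl⟩
      refine ⟨x, hcon x hx ?_, hxt⟩
      rw [hxt]
      show ‖h c * BF6_g t‖ = 1
      rw [norm_mul, h1, BF6_norm, one_mul]
    have hinj : Function.Injective (fun t : ℝ => h c * BF6_g t) := by
      intro s t hst
      exact BF6_inj (mul_left_cancel₀ hc0 hst)
    have hcount : ((fun t : ℝ => h c * BF6_g t) ⁻¹' (h '' S)).Countable :=
      Set.countable_of_injective_of_countable_image hinj.injOn ((hZ.image h).mono hsub)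
    obtain ⟨a, ha, ha'⟩ := (hcount.dense_compl ℝ).inter_open_nonempty _ hU ⟨0, hU0⟩
    exact ha' ha
  obtain ⟨ρ', hρ', hsub⟩ := Metric.isOpen_iff.1 isOpen_ball x (hSsub hxS)
  refine ⟨x, hxS.1.1, hxS.1.2, hxZ, ρ', hρ', hsub, ?_⟩
  refine ⟨hρ', hl.diff.mono hsub, fun s hs => hl.per s (hsub hs), hx1, hxS.2, ?_⟩
  by_contra hcon
  push Not at hcon
  have himg : h '' (ball x ρ') = {h x} := by
    ext w
    constructor
    · rintro ⟨s, hs, rfl⟩
      exact hcon s hs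
    · rintro rfl
      exact ⟨x, mem_ball_self hρ', rfl⟩
  have hopen := ho (ball x ρ') hsub isOpen_ball
  rw [himg] at hopen
  exact not_isOpen_singleton (h x) hopen

end Pool.Agent.LSF
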