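import Pool.Agent.LSF.BHDefs

/-!
BH8: counting the fixed points of the words.

Complete proof. Let `k0 = n0 * k + 1`. Let `l ≥ l0` (chosen below, `l0 ≥ 4`), `e = (l - 4) % n0`,
`r = 4 + e < 4 + n0`, `q = (l - r) / n0`, so `l = r + n0 * q` exactly, and `s = q - r * k` (`≥ 0`), so
`r * k0 + n0 * s = r * (n0 * k + 1) + n0 * s = l`.
For `a, b, c ≤ s / 3` (natural division), put `t = s - a - b - c` and
`Φ = β a ∘ β b ∘ β c ∘ β t ∘ (β 0)^[e]`. It maps `K` to `K` and satisfies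
`‖Φ w - Φ w'‖ ≤ 1 / 2 * ‖w - w'‖` on `K`, so it has a fixed point `x = x(a,b,c) ∈ K` (`K` is compact and
non-empty: take the minimum of the continuous function `w ↦ ‖w - Φ w‖` on `K`, or Banach's fixed
point theorem). By `back` (`k0 + n0 * m` steps for each letter `m`) `f^[l] x = x`:
`k0 + n0 a + k0 + n0 b + k0 + n0 c + k0 + n0 t + e * k0 = r * k0 + n0 * s = l`.
The map `(a, b, c) ↦ x` is injective: `x = β a x₁`, `x₁ = β b x₂`, `x₂ = β c x₃` with `x_i ∈ K`; `dec`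
gives `a`, `x₁`, then `b`, `x₂`, then `c`. So `S = image of (range (s / 3 + 1))^3` has
`(s / 3 + 1) ^ 3 ≥ (s / 3 : ℝ) ^ 3` elements. Finally `s ≥ l / n0 - r / n0 - 1 - r * k ≥
l / n0 - (n0 + 4) * (k + 2) ≥ l / (2 * n0)` for `l ≥ l0 := 2 * n0 * (n0 + 4) * (k + 2)` (this also
justifies the natural subtractions), so `c = 1 / (216 * n0 ^ 3)` works.
-/

namespace Pool.Agent.LSF

theorem bh8_fix {K : Set ℂ} (hK : IsCompact K) (hne : K.Nonempty) (Φ : ℂ → ℂ)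
    (hm : Set.MapsTo Φ K K)
    (hl : ∀ w ∈ K, ∀ w' ∈ K, ‖Φ w - Φ w'‖ ≤ 1 / 2 * ‖w - w'‖) : ∃ x ∈ K, Φ x = x := by
  have hc : ContinuousOn Φ K := by
    have : LipschitzOnWith (1 / 2 : NNReal) Φ K := by
      apply LipschitzOnWith.of_dist_le_mul
      intro x hx y hy
      rw [dist_eq_norm, dist_eq_norm]
      have := hl x hx y hy
      simpa using this
    exact this.continuousOn
  obtain ⟨x, hx, hmin⟩ := hK.exists_isMinOn hne
    (f := fun w => ‖w - Φ w‖) ((continuousOn_id.sub hc).norm)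
  refine ⟨x, hx, ?_⟩
  by_contra hne'
  have h1 : ‖x - Φ x‖ ≤ ‖Φ x - Φ (Φ x)‖ := hmin (hm hx)
  have h2 := hl x hx (Φ x) (hm hx)
  have h3 : 0 < ‖x - Φ x‖ := by
    rw [norm_pos_iff]
    intro h
    exact hne' (sub_eq_zero.mp h).symm
  linarith

theorem bh8_it_maps {K : Set ℂ} {β : ℂ → ℂ} (hm : Set.MapsTo β K K) (e : ℕ) :
    Set.MapsTo (β^[e]) K K := hm.iterate e

theorem bh8_it_lip {K : Set ℂ} {β : ℂ → ℂ} (hm : Set.MapsTo β K K)
    (hl : ∀ w ∈ K, ∀ w' ∈ K, ‖β w - β w'‖ ≤ 1 / 2 * ‖w - w'‖) (e : ℕ) :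
    ∀ w ∈ K, ∀ w' ∈ K, ‖β^[e] w - β^[e] w'‖ ≤ ‖w - w'‖ := by
  induction e with
  | zero => intro w _ w' _; simp
  | succ e ih =>
    intro w hw w' hw'
    rw [Function.iterate_succ_apply', Function.iterate_succ_apply']
    have h1 := hl _ (bh8_it_maps hm e hw) _ (bh8_it_maps hm e hw')
    have h2 := ih w hw w' hw'
    have h3 : 0 ≤ ‖β^[e] w - β^[e] w'‖ := norm_nonneg _
    linarith

theorem bh8_it_back {K : Set ℂ} {f β : ℂ → ℂ} {k0 : ℕ} (hm : Set.MapsTo β K K)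
    (hb : ∀ w ∈ K, f^[k0] (β w) = w) (e : ℕ) :
    ∀ w ∈ K, f^[e * k0] (β^[e] w) = w := by
  induction e with
  | zero => intro w _; simp
  | succ e ih =>
    intro w hw
    rw [Function.iterate_succ_apply', Nat.succ_mul, Function.iterate_add_apply,
      hb _ (bh8_it_maps hm e hw)]
    exact ih w hw

theorem bh8_word (f : ℂ → ℂ) (n0 k0 : ℕ) (K : Set ℂ) (β : ℕ → ℂ → ℂ)
    (H : HS f n0 k0 K β) (e a b c t : ℕ) :
    ∃ x x1 x2 x3 : ℂ, x ∈ K ∧ x1 ∈ K ∧ x2 ∈ K ∧ x3 ∈ K ∧ x = β a x1 ∧ x1 = β b x2 ∧ x2 = β c x3 ∧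
      f^[(k0 + n0 * t) + e * k0] x3 = x := by
  obtain ⟨x, hx, hfx⟩ := bh8_fix H.cpt H.ne
    (fun w => β a (β b (β c (β t ((β 0)^[e] w)))))
    (by
      intro w hw
      exact H.maps a (H.maps b (H.maps c (H.maps t (bh8_it_maps (H.maps 0) e hw)))))
    (by
      intro w hw w' hw'
      have m0 := bh8_it_maps (H.maps 0) e
      have e0 := bh8_it_lip (H.maps 0) (H.lip 0) e w hw w' hw'
      have e1 := H.lip t _ (m0 hw) _ (m0 hw')
      have e2 := H.lip c _ (H.maps t (m0 hw)) _ (H.maps t (m0 hw'))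
      have e3 := H.lip b _ (H.maps c (H.maps t (m0 hw))) _ (H.maps c (H.maps t (m0 hw')))
      have e4 := H.lip a _ (H.maps b (H.maps c (H.maps t (m0 hw)))) _
        (H.maps b (H.maps c (H.maps t (m0 hw'))))
      have p1 : 0 ≤ ‖w - w'‖ := norm_nonneg _
      linarith)
  have m0 := bh8_it_maps (H.maps 0) e hx
  refine ⟨x, β b (β c (β t ((β 0)^[e] x))), β c (β t ((β 0)^[e] x)), β t ((β 0)^[e] x), hx,
    H.maps b (H.maps c (H.maps t m0)), H.maps c (H.maps t m0), H.maps t m0, hfx.symm, rfl, rfl, ?_⟩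
  rw [Nat.add_comm (k0 + n0 * t) (e * k0), Function.iterate_add_apply, H.back t _ m0]
  exact bh8_it_back (H.maps 0) (fun w hw => by simpa using H.back 0 w hw) e x hx

theorem hs_count (f : ℂ → ℂ) (n0 k : ℕ) (K : Set ℂ) (β : ℕ → ℂ → ℂ) (hn : 1 ≤ n0)
    (H : HS f n0 (n0 * k + 1) K β) :
    ∃ c : ℝ, 0 < c ∧ ∃ l0 : ℕ, ∀ l : ℕ, l0 ≤ l → ∃ S : Finset ℂ,
      c * (l : ℝ) ^ 3 ≤ S.card ∧ ∀ z ∈ S, z ∈ K ∧ f^[l] z = z := by
  have hn0 : (0 : ℝ) < n0 := by exact_mod_cast hn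
  refine ⟨1 / (216 * (n0 : ℝ) ^ 3), by positivity, 2 * n0 * (n0 + 4) * (k + 2), fun l hl => ?_⟩
  have hl4 : 4 ≤ l := by
    have : 4 ≤ 2 * n0 * (n0 + 4) * (k + 2) := by
      have h1 : 1 * (0 + 4) * 1 ≤ n0 * (n0 + 4) * (k + 2) := by gcongr <;> omega
      nlinarith
    omega
  set e := (l - 4) % n0 with he
  set q := (l - 4) / n0 with hq
  have helt : e < n0 := Nat.mod_lt _ hn
  have hlq : l = 4 + e + n0 * q := by
    have := Nat.div_add_mod (l - 4) n0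
    rw [← he, ← hq] at this
    omega
  set r := 4 + e with hr
  set k0 := n0 * k + 1 with hk0
  have hrk : 2 * (r * k0) ≤ l := by
    refine le_trans ?_ hl
    have h1 : r ≤ n0 + 4 := by omega
    have h2 : k0 ≤ n0 * (k + 2) := by rw [hk0]; nlinarith
    calc 2 * (r * k0) ≤ 2 * ((n0 + 4) * (n0 * (k + 2))) := by gcongr
      _ = 2 * n0 * (n0 + 4) * (k + 2) := by ring
  have hle : r * k ≤ q := by
    have h1 : n0 * (r * k) ≤ n0 * q := by
      have h2 : r * k0 = n0 * (r * k) + r := by rw [hk0]; ring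
      omega
    exact Nat.le_of_mul_le_mul_left h1 hn
  obtain ⟨s, hs⟩ := Nat.exists_eq_add_of_le hle
  have hls : l = r * k0 + n0 * s := by
    rw [hlq, hs, hk0]; ring
  have hw := fun p : ℕ × ℕ × ℕ => bh8_word f n0 k0 K β H e p.1 p.2.1 p.2.2 (s - p.1 - p.2.1 - p.2.2)
  choose x x1 x2 x3 hx hx1 hx2 hx3 e1 e2 e3 e4 using hw
  set T : Finset (ℕ × ℕ × ℕ) :=
    Finset.range (s / 3 + 1) ×ˢ (Finset.range (s / 3 + 1) ×ˢ Finset.range (s / 3 + 1)) with hT
  have hinj : Function.Injective x := by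
    intro p p' hpp
    have h1 := H.dec p.1 p'.1 _ (hx1 p) _ (hx1 p') (by rw [← e1 p, ← e1 p', hpp])
    have h2 := H.dec p.2.1 p'.2.1 _ (hx2 p) _ (hx2 p') (by rw [← e2 p, ← e2 p', h1.2])
    have h3 := H.dec p.2.2 p'.2.2 _ (hx3 p) _ (hx3 p') (by rw [← e3 p, ← e3 p', h2.2])
    exact Prod.ext h1.1 (Prod.ext h2.1 h3.1)
  refine ⟨T.image x, ?_, ?_⟩
  · rw [Finset.card_image_of_injective _ hinj, hT]
    simp only [Finset.card_product, Finset.card_range]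
    have h1 : (l : ℝ) ≤ 2 * (n0 * s) := by
      have : l ≤ 2 * (n0 * s) := by omega
      exact_mod_cast this
    have h2 : (s : ℝ) ≤ 3 * ((s / 3 + 1 : ℕ) : ℝ) := by
      have : s ≤ 3 * (s / 3 + 1) := by omega
      exact_mod_cast this
    have h3 : (l : ℝ) ≤ 6 * n0 * ((s / 3 + 1 : ℕ) : ℝ) := by
      calc (l : ℝ) ≤ 2 * (n0 * s) := h1
        _ ≤ 2 * (n0 * (3 * ((s / 3 + 1 : ℕ) : ℝ))) := by gcongr
        _ = _ := by ring
    have h4 : (l : ℝ) ^ 3 ≤ (6 * n0 * ((s / 3 + 1 : ℕ) : ℝ)) ^ 3 := by gcongr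
    rw [div_mul_eq_mul_div, one_mul, div_le_iff₀ (by positivity)]
    push_cast at h4 ⊢
    calc (l : ℝ) ^ 3 ≤ _ := h4
      _ = _ := by ring
  · intro z hz
    rw [Finset.mem_image] at hz
    obtain ⟨p, hp, rfl⟩ := hz
    refine ⟨hx p, ?_⟩
    rw [hT, Finset.mem_product, Finset.mem_product, Finset.mem_range, Finset.mem_range,
      Finset.mem_range] at hp
    obtain ⟨hp1, hp2, hp3⟩ := hp
    set a := p.1
    set b := p.2.1
    set c := p.2.2
    have hsum : a + b + c + (s - a - b - c) = s := by omega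
    have hl' : l = ((k0 + n0 * (s - a - b - c)) + e * k0) + (k0 + n0 * c) + (k0 + n0 * b)
        + (k0 + n0 * a) := by
      rw [hls]
      calc r * k0 + n0 * s = r * k0 + n0 * (a + b + c + (s - a - b - c)) := by rw [hsum]
        _ = _ := by rw [hr]; ring
    rw [hl', Function.iterate_add_apply]
    have t1 : f^[k0 + n0 * a] (x p) = x1 p := by
      conv_lhs => rw [e1 p]
      exact H.back _ _ (hx1 p)
    have t2 : f^[k0 + n0 * b] (x1 p) = x2 p := by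
      conv_lhs => rw [e2 p]
      exact H.back _ _ (hx2 p)
    have t3 : f^[k0 + n0 * c] (x2 p) = x3 p := by
      conv_lhs => rw [e3 p]
      exact H.back _ _ (hx3 p)
    rw [t1, Function.iterate_add_apply, t2, Function.iterate_add_apply, t3]
    exact e4 p

end Pool.Agent.LSF
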