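import Pool.Agent.LSF.BH7
import Pool.Agent.LSF.BH8

/-!
BHom: many periodic points near a repelling periodic point (assembly).
-/

namespace Pool.Agent.LSF

open Polynomial Pool.Agent.LenSpec

theorem hom_count (d : ℕ) (P Q : ℂ[X]) (hR : RM d P Q) (n0 : ℕ) (hn : 2 ≤ n0) (z0 : ℂ)
    (h : PerX P Q n0 z0) (hrep : 1 < ‖mult P Q n0 z0‖) (δ : ℝ) (hδ : 0 < δ) :
    ∃ c : ℝ, 0 < c ∧ ∃ l0 : ℕ, ∀ l : ℕ, l.Prime → l0 ≤ l → ∃ S : Finset ℂ,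
      c * (l : ℝ) ^ 3 ≤ S.card ∧ ∀ z ∈ S, (ev P Q)^[l] z = z ∧ ‖z - z0‖ < δ := by
  obtain ⟨K, β, k, H, hK⟩ := hom_sys hR n0 hn z0 h hrep δ hδ
  obtain ⟨c, hc, l0, hl⟩ := hs_count (ev P Q) n0 k K β (by omega) H
  refine ⟨c, hc, l0, fun l _ hle => ?_⟩
  obtain ⟨S, h1, h2⟩ := hl l hle
  exact ⟨S, h1, fun z hz => ⟨(h2 z hz).2, hK z (h2 z hz).1⟩⟩

end Pool.Agent.LSF
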