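import Pool.Agent.LSF.BF7a
import Pool.Agent.LSF.BF3
import Pool.Agent.LSF.BF4
import Pool.Agent.LSF.BF5
import Pool.Agent.LSF.BF6
import Pool.Agent.LSF.BSprime
import Pool.Agent.LSF.BHom

/-!
BF7 (F1'): near a label parameter, cycles of large prime period in `MM` do not split.
-/

namespace Pool.Agent.LSF

open Polynomial Pool.Agent.LenSpec Metric Filter

theorem f1p (d : ℕ) (MM : Set ℕ) (hMM : ∀ n ∈ MM, n.Prime) (c : ℂ) (R : ℝ)
    (v : ℂ → VI d → ℂ) (h : Fam d MM c R v) (hc : VG d MM (v c)) (n₀ : ℕ) (hn : n₀ ∈ MM)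
    (ρ₀ : ℝ) (hρ₀ : ρ₀ ≤ R) (z : ℂ → ℂ) (hl : Lab d v c n₀ ρ₀ z) (C : ℕ) (ρ : ℝ) (hρ : 0 < ρ) :
    ∃ l₀ : ℕ, ∀ l ∈ MM, l₀ ≤ l → ∀ E : Finset ℂ, E.card ≤ C * l →
      ∃ s ∈ ball c ρ, s ∈ ball c R ∧ s ∉ E ∧ ¬ Sat d (v s) l ∧ ¬ Split d v l s := by
  classical
  have hn₀p := hMM n₀ hn
  have hn₀2 : 2 ≤ n₀ := hn₀p.two_le
  have hd : 2 ≤ d := hc.nf.two_le
  obtain ⟨R₁, hR₁, hR₁R, C₁, hC₁⟩ := sat_fin d MM c R v h hc
  obtain ⟨Zv, hZvc, hZv⟩ := h.vg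
  have hl0 := hl.pos
  obtain ⟨ρ₁, hρ₁, e1, e2, e3⟩ : ∃ ρ₁ > 0, 4 * ρ₁ ≤ ρ ∧ 4 * ρ₁ ≤ R₁ ∧ 4 * ρ₁ ≤ ρ₀ := by
    refine ⟨min (min ρ R₁) ρ₀ / 4, by positivity, ?_, ?_, ?_⟩
    · have := (min_le_left (min ρ R₁) ρ₀).trans (min_le_left ρ R₁)
      linarith
    · have := (min_le_left (min ρ R₁) ρ₀).trans (min_le_right ρ R₁)
      linarith
    · have := min_le_right (min ρ R₁) ρ₀
      linarith
  obtain ⟨⟨a, ha1, ha2, haZ, ha3⟩, ⟨b, hb1, hb2, -, hb3⟩⟩ :=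
    lab_sides d n₀ (by omega) c R h.pos v h.diff h.nf ρ₀ hρ₀ z hl Zv hZvc ρ₁ hρ₁
  have hBc : ∀ s ∈ ball a (2 * ρ₁), dist s c < 4 * ρ₁ := by
    intro s hs
    have h1 := dist_triangle s a c
    rw [mem_ball] at hs ha1
    linarith
  have hBρ : ∀ s ∈ ball a (2 * ρ₁), s ∈ ball c ρ := fun s hs =>
    mem_ball.2 (lt_of_lt_of_le (hBc s hs) e1)
  have hBR₁ : ∀ s ∈ ball a (2 * ρ₁), s ∈ ball c R₁ := fun s hs =>
    mem_ball.2 (lt_of_lt_of_le (hBc s hs) e2)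
  have hBρ₀ : ∀ s ∈ ball a (2 * ρ₁), s ∈ ball c ρ₀ := fun s hs =>
    mem_ball.2 (lt_of_lt_of_le (hBc s hs) e3)
  have hBR : ∀ s ∈ ball a (2 * ρ₁), s ∈ ball c R := fun s hs =>
    mem_ball.2 (lt_of_lt_of_le (hBc s hs) (e3.trans hρ₀))
  have hpos : 0 < 2 * ρ₁ := by linarith
  have haB : a ∈ ball a (2 * ρ₁) := mem_ball_self hpos
  have hbB : b ∈ ball a (2 * ρ₁) := by
    rw [mem_ball] at *
    have h1 := dist_triangle b c a
    rw [dist_comm c a] at h1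
    linarith
  have hfix0 : ∀ s ∈ ball a (2 * ρ₁), fv d (v s) 0 = 0 := fun s hs =>
    ev_zero (nf_rm (h.nf s (hBR s hs)))
  have hz0 : ∀ s ∈ ball a (2 * ρ₁), z s ≠ 0 := by
    intro s hs h0
    have h1 := (hl.per s (hBρ₀ s hs)).2 1 (by omega) (by omega)
    rw [h0] at h1
    exact h1 (hfix0 s hs)
  obtain ⟨εb, hεb, hatt⟩ := att_iso d n₀ (by omega) (v b) (h.nf b (hBR b hbB)) (z b)
    (hl.per b (hBρ₀ b hbB)) hb3
  have hzb : 0 < ‖z b‖ + 1 := by positivity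
  obtain ⟨δ', hδ', hsp⟩ := sprime a (2 * ρ₁) a b haB hbB (εb / (‖z b‖ + 1)) (div_pos hεb hzb)
  -- distance from the fixed points
  obtain ⟨δ'', hδ'', hfar⟩ : ∃ δ'' > 0, ∀ w, fv d (v a) w = w → δ'' ≤ ‖w - z a‖ := by
    have h1 : z a ∉ (fixF d 1 (v a)).roots.toFinset := by
      rw [Multiset.mem_toFinset]
      intro h2
      have h3 := (fixF_root d 1 le_rfl (v a) (h.nf a (hBR a haB)) _).1 (mem_roots'.1 h2).2
      exact (hl.per a (hBρ₀ a haB)).2 1 (by omega) (by omega) h3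
    obtain ⟨δ'', hδ'', hsub⟩ := Metric.isOpen_iff.1
      ((Finset.finite_toSet (fixF d 1 (v a)).roots.toFinset).isClosed.isOpen_compl) (z a) h1
    refine ⟨δ'', hδ'', fun w hw => ?_⟩
    by_contra hlt
    push Not at hlt
    have h2 := hsub (show w ∈ ball (z a) δ'' by rw [mem_ball, dist_eq_norm]; exact hlt)
    apply h2
    rw [Finset.mem_coe, Multiset.mem_toFinset, mem_roots]
    · exact (fixF_root d 1 le_rfl (v a) (h.nf a (hBR a haB)) _).2 hw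
    · exact (fixF_monic d 1 hd le_rfl (v a)).1.ne_zero
  have hza : 0 < ‖z a‖ := norm_pos_iff.2 (hz0 a haB)
  obtain ⟨c', hc', l₀', hcount⟩ := hom_count d (nP d (v a)) (nQ d (v a))
    (nf_rm (h.nf a (hBR a haB))) n₀ hn₀2 (z a) (hl.per a (hBρ₀ a haB)) ha3
    (min (δ' * ‖z a‖) δ'') (lt_min (mul_pos hδ' hza) hδ'')
  obtain ⟨N, hN⟩ := exists_nat_gt ((((C + C₁) * (2 * (2 * d - 2)) : ℕ) : ℝ) / c')
  refine ⟨max (max l₀' (n₀ + 1)) N, ?_⟩
  intro l hlM hl₀ E hE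
  have hl1 : l₀' ≤ l := le_trans (le_trans (le_max_left _ _) (le_max_left _ _)) hl₀
  have hl2 : n₀ + 1 ≤ l := le_trans (le_trans (le_max_right _ _) (le_max_left _ _)) hl₀
  have hl3 : N ≤ l := le_trans (le_max_right _ _) hl₀
  have hlp := hMM l hlM
  have hlpos : 1 ≤ l := hlp.one_lt.le
  by_contra hcon
  push Not at hcon
  obtain ⟨S₁, hS₁card, hS₁⟩ := hC₁ l hlpos
  have hnsat : ∀ e ∈ ball a (2 * ρ₁), e ∉ E ∪ S₁ → ¬ Sat d (v e) l := by
    intro e he hne hsat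
    exact hne (Finset.mem_union_right _ (hS₁ e (hBR₁ e he) hsat))
  obtain ⟨S, hScard, hS⟩ := rc_bad a (2 * ρ₁) hpos (d ^ l + 1) (fun s => fixF d l (v s))
    (fixF_pf d l hd hlpos (ball a (2 * ρ₁)) v (h.diff.mono hBR)).1
    (vg_nodup d l MM hlp hlM (v a) (hZv a (hBR a haB) haZ)) (E ∪ S₁) (2 * ((2 * d - 2) * l))
    (by
      intro e he hne
      have h1 := hnsat e he hne
      exact reg_of_split d l MM hlp hlM c R v h e (hBR e he)
        (hcon e (hBρ e he) (hBR e he) (fun h2 => hne (Finset.mem_union_left _ h2)) h1) h1)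
    (by
      intro e he _
      exact cnt_mult d l MM hlp hlM c R v h e (hBR e he))
  obtain ⟨T, hTcard, hT⟩ := hcount l hlp hl1
  have hcard : S.card < T.card := by
    have h1 : (E ∪ S₁).card ≤ (C + C₁) * l := by
      refine (Finset.card_union_le _ _).trans ?_
      rw [add_mul]
      exact add_le_add hE hS₁card
    have h2 : S.card ≤ (C + C₁) * l * (2 * ((2 * d - 2) * l)) :=
      hScard.trans (Nat.mul_le_mul_right _ h1)
    have h3 : (((C + C₁) * (2 * (2 * d - 2)) : ℕ) : ℝ) < c' * l := by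
      rw [div_lt_iff₀ hc'] at hN
      have h4 : (N : ℝ) ≤ l := by exact_mod_cast hl3
      have h5 : (N : ℝ) * c' ≤ l * c' := mul_le_mul_of_nonneg_right h4 hc'.le
      linarith
    have h6 : (S.card : ℝ) ≤ (((C + C₁) * (2 * (2 * d - 2)) : ℕ) : ℝ) * (l : ℝ) ^ 2 := by
      have h7 : (S.card : ℝ) ≤ (((C + C₁) * l * (2 * ((2 * d - 2) * l)) : ℕ) : ℝ) := by
        exact_mod_cast h2
      refine h7.trans (le_of_eq ?_)
      have h8 : (C + C₁) * l * (2 * ((2 * d - 2) * l)) =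
          (C + C₁) * (2 * (2 * d - 2)) * l ^ 2 := by ring
      rw [h8]
      push_cast
      ring
    have h9 : 0 < (l : ℝ) := by
      have : 0 < l := hlpos
      exact_mod_cast this
    have h10 : (((C + C₁) * (2 * (2 * d - 2)) : ℕ) : ℝ) * (l : ℝ) ^ 2 < c' * (l : ℝ) ^ 3 := by
      have h11 : c' * (l : ℝ) ^ 3 = (c' * l) * (l : ℝ) ^ 2 := by ring
      rw [h11]
      exact mul_lt_mul_of_pos_right h3 (by positivity)
    have h12 : (S.card : ℝ) < T.card := lt_of_le_of_lt h6 (lt_of_lt_of_le h10 hTcard)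
    exact_mod_cast h12
  obtain ⟨ζ, hζT, hζS⟩ := Finset.exists_mem_notMem_of_card_lt_card hcard
  obtain ⟨hζ1, hζ2⟩ := hT ζ hζT
  obtain ⟨Z, ⟨hZd, hZroot⟩, hZa, hZder⟩ := hS ζ
    ((fixF_root d l hlpos (v a) (h.nf a (hBR a haB)) ζ).2 hζ1) hζS
  have hroot : ∀ s ∈ ball a (2 * ρ₁), (fv d (v s))^[l] (Z s) = Z s := fun s hs =>
    (fixF_root d l hlpos (v s) (h.nf s (hBR s hs)) _).1 (hZroot s hs)
  have hnf := not_fixed d l hlp a (2 * ρ₁) hpos v (h.diff.mono hBR)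
    (fun s hs => h.nf s (hBR s hs)) Z hZd hroot (by
      intro s hs hfix h1
      by_cases hs' : s ∈ E ∪ S₁
      · exact hZder s hs hs' ((fixF_simple d l hlpos (v s) (h.nf s (hBR s hs)) _
          (hroot s hs)).2 h1)
      · refine hnsat s hs hs' ⟨Z s, hfix, ?_⟩
        rw [← px_pow d l (v s) _ hfix]
        exact h1) (by
      intro hfix
      rw [hZa] at hfix
      have h1 := hfar ζ hfix
      have h2 := lt_of_lt_of_le hζ2 (min_le_right _ _)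
      linarith)
  have hper : ∀ s ∈ ball a (2 * ρ₁), PX d (v s) l (Z s) := fun s hs =>
    (per_prime d l hlp (v s) (h.nf s (hBR s hs)) _ (hroot s hs)).resolve_left (hnf s hs)
  have hZ0 : ∀ s ∈ ball a (2 * ρ₁), Z s ≠ 0 := by
    intro s hs h0
    apply hnf s hs
    rw [h0]
    exact hfix0 s hs
  have hZz : ∀ s ∈ ball a (2 * ρ₁), Z s ≠ z s := by
    intro s hs h0
    have h1 := (hper s hs).2 n₀ (by omega) (by omega)
    rw [h0] at h1
    exact h1 (hl.per s (hBρ₀ s hs)).1.2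
  have hub := hsp (fun s => Z s / z s)
    (hZd.div (hl.diff.mono hBρ₀) hz0) (by
      intro s hs
      refine ⟨div_ne_zero (hZ0 s hs) (hz0 s hs), ?_⟩
      intro h1
      rw [div_eq_one_iff_eq (hz0 s hs)] at h1
      exact hZz s hs h1) (by
      have h1 : Z a / z a - 1 = (ζ - z a) / z a := by
        rw [hZa]
        have := hz0 a haB
        field_simp
      change ‖Z a / z a - 1‖ < δ'
      rw [h1, norm_div, div_lt_iff₀ hza]
      exact lt_of_lt_of_le hζ2 (min_le_left _ _))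
  have hzb0 : 0 < ‖z b‖ := norm_pos_iff.2 (hz0 b hbB)
  have hfin : ‖Z b - z b‖ < εb := by
    have h1 : Z b - z b = z b * (Z b / z b - 1) := by
      have := hz0 b hbB
      field_simp
    have h2 : ‖Z b / z b - 1‖ < εb / (‖z b‖ + 1) := hub
    rw [lt_div_iff₀ hzb] at h2
    rw [h1, norm_mul]
    have h3 : 0 ≤ ‖Z b / z b - 1‖ := norm_nonneg _
    nlinarith
  exact hZz b hbB (hatt l hlpos (Z b) hfin (hroot b hbB))

end Pool.Agent.LSF
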