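import Pool.Agent.LSF.BF1

/-!
BF7a: isolation of attracting points; restriction and symmetry of slices; branches that never
become fixed points.
-/

namespace Pool.Agent.LSF

open Polynomial Pool.Agent.LenSpec Metric Filter

theorem att_iso (d n : ℕ) (hn : 1 ≤ n) (v : VI d → ℂ) (hv : Nf d v) (z₀ : ℂ)
    (hz : PX d v n z₀) (h1 : ‖mu d v n z₀‖ < 1) :
    ∃ ε > 0, ∀ l : ℕ, 1 ≤ l → ∀ w, ‖w - z₀‖ < ε → (fv d v)^[l] w = w → w = z₀ := by
  have hder := rm_deriv_iter (nP d v) (nQ d v) n z₀ (fun k _ => hz.1.1 k)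
  obtain ⟨κ, hκ1, hκ2⟩ := exists_between h1
  have hκ0 : 0 ≤ κ := (norm_nonneg _).trans hκ1.le
  have hfix : (fv d v)^[n] z₀ = z₀ := hz.1.2
  have hev : ∀ᶠ w in nhds z₀, ‖(fv d v)^[n] w - z₀‖ ≤ κ * ‖w - z₀‖ := by
    have h3 := (hasDerivAt_iff_isLittleO.1 hder).def (sub_pos.2 hκ1)
    filter_upwards [h3] with w hw
    have h4 : (ev (nP d v) (nQ d v))^[n] z₀ = z₀ := hfix
    rw [h4] at hw
    have h5 : (fv d v)^[n] w - z₀ = ((ev (nP d v) (nQ d v))^[n] w - z₀ -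
        (w - z₀) • mult (nP d v) (nQ d v) n z₀) + (w - z₀) • mult (nP d v) (nQ d v) n z₀ := by
      change (ev (nP d v) (nQ d v))^[n] w - z₀ = _
      ring
    rw [h5]
    refine (norm_add_le _ _).trans ?_
    rw [norm_smul]
    have h6 : ‖mu d v n z₀‖ = ‖mult (nP d v) (nQ d v) n z₀‖ := rfl
    rw [← h6]
    nlinarith [hw]
  obtain ⟨ε, hε, hball⟩ := Metric.eventually_nhds_iff_ball.mp hev
  refine ⟨ε, hε, ?_⟩
  intro l hl w hw hwl
  have hind : ∀ k : ℕ, ‖((fv d v)^[n])^[k] w - z₀‖ ≤ κ ^ k * ‖w - z₀‖ := by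
    intro k
    induction k with
    | zero => simp
    | succ k ih =>
      rw [Function.iterate_succ_apply']
      have h2 : ‖((fv d v)^[n])^[k] w - z₀‖ ≤ ‖w - z₀‖ := by
        refine ih.trans ?_
        exact mul_le_of_le_one_left (norm_nonneg _) (pow_le_one₀ hκ0 hκ2.le)
      have h3 := hball (((fv d v)^[n])^[k] w) (by
        rw [mem_ball, dist_eq_norm]
        exact lt_of_le_of_lt h2 hw)
      refine h3.trans ?_
      rw [pow_succ', mul_assoc]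
      exact mul_le_mul_of_nonneg_left ih hκ0
  have h2 := hind l
  have h3 : ((fv d v)^[n])^[l] w = w := by
    rw [← Function.iterate_mul, mul_comm, Function.iterate_mul]
    exact Function.iterate_fixed hwl n
  rw [h3] at h2
  have h4 : κ ^ l < 1 := pow_lt_one₀ hκ0 hκ2 (by omega)
  have h5 : ‖w - z₀‖ = 0 := by
    by_contra hne
    have h6 : 0 < ‖w - z₀‖ := lt_of_le_of_ne (norm_nonneg _) (Ne.symm hne)
    nlinarith
  exact sub_eq_zero.1 (norm_eq_zero.1 h5)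

theorem fam_sub (d : ℕ) (MM : Set ℕ) (c : ℂ) (R : ℝ) (v : ℂ → VI d → ℂ) (h : Fam d MM c R v)
    (c' : ℂ) (R' : ℝ) (hR : 0 < R') (hs : ball c' R' ⊆ ball c R) : Fam d MM c' R' v := by
  obtain ⟨Z, hZ, hvg⟩ := h.vg
  exact ⟨hR, h.diff.mono hs, fun s hs' => h.nf s (hs hs'), Z, hZ,
    fun s hs' hsZ => hvg s (hs hs') hsZ⟩

theorem slice_sub (d : ℕ) (MM : Set ℕ) (c : ℂ) (R : ℝ) (v u : ℂ → VI d → ℂ)
    (h : Slice d MM c R v u) (c' : ℂ) (R' : ℝ) (hR : 0 < R') (hs : ball c' R' ⊆ ball c R) :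
    Slice d MM c' R' v u :=
  ⟨fam_sub d MM c R v h.fam c' R' hR hs, fam_sub d MM c R u h.fam' c' R' hR hs,
    fun m hm e he => h.link m hm e (hs he)⟩

theorem slice_symm (d : ℕ) (MM : Set ℕ) (c : ℂ) (R : ℝ) (v u : ℂ → VI d → ℂ)
    (h : Slice d MM c R v u) : Slice d MM c R u v :=
  ⟨h.fam', h.fam, fun m hm e he => (h.link m hm e he).symm⟩

theorem not_fixed (d l : ℕ) (hl : l.Prime) (a : ℂ) (r : ℝ) (hr : 0 < r) (v : ℂ → VI d → ℂ)
    (hv : DifferentiableOn ℂ v (ball a r)) (hnf : ∀ s ∈ ball a r, Nf d (v s)) (Z : ℂ → ℂ)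
    (hZ : DifferentiableOn ℂ Z (ball a r)) (hroot : ∀ s ∈ ball a r, (fv d (v s))^[l] (Z s) = Z s)
    (hsim : ∀ s ∈ ball a r, fv d (v s) (Z s) = Z s → mu d (v s) l (Z s) ≠ 1)
    (ha : fv d (v a) (Z a) ≠ Z a) : ∀ s ∈ ball a r, fv d (v s) (Z s) ≠ Z s := by
  intro s₁ hs₁ hfix
  have hd : 2 ≤ d := (hnf s₁ hs₁).two_le
  have hmul := hsim s₁ hs₁ hfix
  have hmu1 : mu d (v s₁) 1 (Z s₁) ≠ 1 := by
    intro h
    apply hmul
    rw [px_pow d l (v s₁) (Z s₁) hfix, h, one_pow]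
  have hpx : PX d (v s₁) 1 (Z s₁) :=
    ⟨⟨rm_per (nf_rm (hnf s₁ hs₁)) le_rfl hfix, hfix⟩, fun m h0 h1 => absurd h1 (by omega)⟩
  -- a small ball around `s₁`
  obtain ⟨R', hR', hsub⟩ := Metric.isOpen_iff.1 (isOpen_ball (x := a) (ε := r)) s₁ hs₁
  obtain ⟨ρ, hρ, hρR, ε, hε, φ, hφd, hφ1, hφ, -⟩ := branch d 1 le_rfl s₁ R' hR' v (hv.mono hsub)
    (fun s hs => hnf s (hsub hs)) (Z s₁) hpx hmu1
  have hpf := (fixF_pf d l hd hl.one_le (ball a r) v hv).1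
  have hroot1 : (fixF d l (v s₁)).eval (Z s₁) = 0 :=
    (fixF_root d l hl.one_le (v s₁) (hnf s₁ hs₁) (Z s₁)).2 (hroot s₁ hs₁)
  have hder1 : (derivative (fixF d l (v s₁))).eval (Z s₁) ≠ 0 := by
    intro h
    exact hmul ((fixF_simple d l hl.one_le (v s₁) (hnf s₁ hs₁) (Z s₁) (hroot s₁ hs₁)).1 h)
  obtain ⟨r', hr', ε', hε', hr'sub, ζ, -, -, hζ⟩ :=
    pf_root isOpen_ball hpf s₁ (Z s₁) hs₁ hroot1 hder1
  have hcZ : ContinuousAt Z s₁ :=
    (hZ.differentiableAt (isOpen_ball.mem_nhds hs₁)).continuousAt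
  have hcφ : ContinuousAt φ s₁ :=
    (hφd.differentiableAt (isOpen_ball.mem_nhds (mem_ball_self hρ))).continuousAt
  have e1 : ∀ᶠ s in nhds s₁, ‖Z s - Z s₁‖ < ε' := by
    have := hcZ.eventually (Metric.ball_mem_nhds (Z s₁) hε')
    filter_upwards [this] with s hs
    rwa [dist_eq_norm] at hs
  have e2 : ∀ᶠ s in nhds s₁, ‖φ s - Z s₁‖ < ε' := by
    have := hcφ.eventually (Metric.ball_mem_nhds (φ s₁) hε')
    filter_upwards [this] with s hs
    rw [hφ1] at hs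
    rwa [dist_eq_norm] at hs
  have e3 : ∀ᶠ s in nhds s₁, s ∈ ball a r := isOpen_ball.mem_nhds hs₁
  have e4 : ∀ᶠ s in nhds s₁, s ∈ ball s₁ ρ := isOpen_ball.mem_nhds (mem_ball_self hρ)
  have e5 : ∀ᶠ s in nhds s₁, s ∈ ball s₁ r' := isOpen_ball.mem_nhds (mem_ball_self hr')
  have hpole : ∀ s ∈ ball a r, ∀ k < l, (nQ d (v s)).eval ((fv d (v s))^[k] (Z s)) ≠ 0 :=
    fun s hs k _ => rm_per (nf_rm (hnf s hs)) hl.one_le (hroot s hs) k
  have hg : DifferentiableOn ℂ (fun s => fv d (v s) (Z s) - Z s) (ball a r) := by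
    have h1 := (mu_diff d l (ball a r) v hv Z hZ hpole).2 1 hl.one_le
    exact h1.sub hZ
  have hgan : AnalyticOnNhd ℂ (fun s => fv d (v s) (Z s) - Z s) (ball a r) :=
    hg.analyticOnNhd isOpen_ball
  have hzero : (fun s => fv d (v s) (Z s) - Z s) =ᶠ[nhds s₁] 0 := by
    filter_upwards [e1, e2, e3, e4, e5] with s h1 h2 h3 h4 h5
    have hφs := (hφ s h4).1
    have hφfix : fv d (v s) (φ s) = φ s := hφs.1.2
    have h6 : Z s = ζ s := (hζ s h5).2.2.2 (Z s) h1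
      ((fixF_root d l hl.one_le (v s) (hnf s h3) (Z s)).2 (hroot s h3))
    have h7 : φ s = ζ s := (hζ s h5).2.2.2 (φ s) h2
      ((fixF_root d l hl.one_le (v s) (hnf s h3) (φ s)).2 (Function.iterate_fixed hφfix l))
    have h8 : Z s = φ s := h6.trans h7.symm
    change fv d (v s) (Z s) - Z s = 0
    rw [h8, hφfix, sub_self]
  have hall := hgan.eqOn_zero_of_preconnected_of_eventuallyEq_zero
    (convex_ball a r).isPreconnected hs₁ hzero
  have h9 := hall (mem_ball_self hr)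
  exact ha (sub_eq_zero.1 h9)

end Pool.Agent.LSF
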