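import Pool.Agent.LSF.BF1
import Pool.Agent.LSF.BA7
import Pool.Agent.LSF.BA8

/-!
BF8 (parabolic directions): near a parabolic parameter, in all but finitely many directions one
of the colliding points is attracting.

Complete proof. `F s := fixF d l (v s)`. `I := {i | z i 0 = w}`, nonempty since `w` is a root of
`F e` (`fixF_root`) and `(F e).roots = {z i 0}`. `f i τ := mu d (v (e + τ^M)) l (z i τ)`,
holomorphic on `ball 0 r` (`mu_diff`, `fixF_root`, `rm_per`), `f i 0 = mu l w = 1` for `i ∈ I`.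
Shrinking `r`: simple roots for `τ ≠ 0` (`punct`), so `f i τ ≠ 1` (`fixF_nodup'`). By
`fixF_deriv`: with `Bf s := (iter d (nP d (v s)) (nQ d (v s)) l).2`,
`Bf(z_i)/F'(z_i) = 1/(1 - f i τ)`, so `res_bound` (hypotheses from `fixF_monic`, `fixF_pf`) says that
`∑_{i ∈ I} 1/(1 - f i τ)` is bounded near `0`. `dir` gives `Φ` and for `x ∉ Φ` an index `i ∈ I`
with `‖f i (ρ x)‖ < 1` for small `ρ`. Exact period: `f_e w ≠ w` (`l ≥ 2` prime, `w` has exact period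
`l`), so by continuity `f_s (z i τ) ≠ z i τ` for small `τ`, and `per_prime` gives `PX`.
`par_near`: take Puiseux data of `v` and of `u` at `e` (`puiseux`, `punct`) with exponents `M₁`,
`M₂`, pass to the common exponent `M₁ M₂` (`pui_mul` with `k = M₂` resp. `k = M₁`, use
`mul_comm`), apply `parb` to both, choose a unit `x` outside the two finite sets; for all small
`ρ > 0` the parameter `s = e + (ρ x)^M` has attracting points for both; the map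
`ρ ↦ e + (ρ x)^M` is injective for `ρ > 0`, so for uncountably many `ρ`, in particular for some
`ρ` with `s ∉ Z` and `s ∈ ball e ε`.
-/

namespace Pool.Agent.LSF

open Polynomial Pool.Agent.LenSpec Metric Filter

/-- the roots given by Puiseux data are periodic points -/
theorem BF8_per {d l : ℕ} {MM : Set ℕ} (hl : l.Prime) {c : ℂ} {R : ℝ}
    {v : ℂ → VI d → ℂ} (h : Fam d MM c R v) {e : ℂ} {M : ℕ} {r : ℝ}
    {z : Fin (d ^ l + 1) → ℂ → ℂ} (hp : Pui (d ^ l + 1) (fun s => fixF d l (v s)) e M r z)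
    (hU : ∀ τ ∈ ball (0 : ℂ) r, e + τ ^ M ∈ ball c R) (i : Fin (d ^ l + 1)) {τ : ℂ}
    (hτ : τ ∈ ball (0 : ℂ) r) :
    (fv d (v (e + τ ^ M)))^[l] (z i τ) = z i τ := by
  have hnf := h.nf _ (hU τ hτ)
  have hmem : z i τ ∈ (fixF d l (v (e + τ ^ M))).roots := by
    have := hp.roots τ hτ
    rw [this]
    exact Multiset.mem_map.mpr ⟨i, Finset.mem_univ_val i, rfl⟩
  exact (fixF_root d l hl.one_le _ hnf _).mp (isRoot_of_mem_roots hmem)

theorem BF8_diff {d l : ℕ} {MM : Set ℕ} (hl : l.Prime) {c : ℂ} {R : ℝ}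
    {v : ℂ → VI d → ℂ} (h : Fam d MM c R v) {e : ℂ} {M : ℕ} {r : ℝ}
    {z : Fin (d ^ l + 1) → ℂ → ℂ} (hp : Pui (d ^ l + 1) (fun s => fixF d l (v s)) e M r z)
    (hU : ∀ τ ∈ ball (0 : ℂ) r, e + τ ^ M ∈ ball c R) (i : Fin (d ^ l + 1)) :
    DifferentiableOn ℂ (fun τ => mu d (v (e + τ ^ M)) l (z i τ)) (ball 0 r) ∧
    ∀ k ≤ l, DifferentiableOn ℂ (fun τ => (fv d (v (e + τ ^ M)))^[k] (z i τ)) (ball 0 r) := by
  have hv : DifferentiableOn ℂ (fun τ => v (e + τ ^ M)) (ball (0 : ℂ) r) := by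
    refine h.diff.comp (t := ball c R) (by fun_prop) ?_
    intro τ hτ
    exact hU τ hτ
  refine mu_diff d l (ball 0 r) (fun τ => v (e + τ ^ M)) hv (z i) (hp.diff i) ?_
  intro τ hτ k _
  exact rm_per (nf_rm (h.nf _ (hU τ hτ))) hl.one_le (BF8_per hl h hp hU i hτ) k

/-- for small `τ ≠ 0` the roots are simple -/
theorem BF8_simple {d l : ℕ} {MM : Set ℕ} (hl : l.Prime) (hM : l ∈ MM) {c : ℂ} {R : ℝ}
    {v : ℂ → VI d → ℂ} (h : Fam d MM c R v) {e : ℂ} (he : e ∈ ball c R) {M : ℕ} (hM1 : 1 ≤ M) :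
    ∃ r > 0, ∀ τ ∈ ball (0 : ℂ) r, τ ≠ 0 → (fixF d l (v (e + τ ^ M))).roots.Nodup := by
  have h1 := punct d l MM hl hM c R v h e he
  have h2 : Tendsto (fun τ : ℂ => e + τ ^ M) (nhdsWithin 0 {0}ᶜ) (nhdsWithin e {e}ᶜ) := by
    apply tendsto_nhdsWithin_of_tendsto_nhds_of_eventually_within
    · have : Continuous (fun τ : ℂ => e + τ ^ M) := by fun_prop
      have h3 := this.tendsto 0
      simp only [zero_pow (by omega : M ≠ 0), add_zero] at h3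
      exact h3.mono_left nhdsWithin_le_nhds
    · filter_upwards [self_mem_nhdsWithin] with τ hτ
      simp only [Set.mem_compl_iff, Set.mem_singleton_iff] at hτ ⊢
      intro h4
      have h5 : τ ^ M = 0 := by simpa using h4
      exact hτ ((pow_eq_zero_iff (by omega : M ≠ 0)).mp h5)
  have h3 := h2.eventually h1
  rw [eventually_nhdsWithin_iff, Metric.eventually_nhds_iff] at h3
  obtain ⟨r, hr, h4⟩ := h3
  refine ⟨r, hr, fun τ hτ hτ0 => h4 (mem_ball.mp hτ) ?_⟩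
  simpa using hτ0

theorem parb (d l : ℕ) (MM : Set ℕ) (hl : l.Prime) (hM : l ∈ MM) (c : ℂ) (R : ℝ)
    (v : ℂ → VI d → ℂ) (h : Fam d MM c R v) (e : ℂ) (he : e ∈ ball c R) (M : ℕ) (r : ℝ)
    (z : Fin (d ^ l + 1) → ℂ → ℂ) (hp : Pui (d ^ l + 1) (fun s => fixF d l (v s)) e M r z)
    (hU : ∀ τ ∈ ball (0 : ℂ) r, e + τ ^ M ∈ ball c R) (w : ℂ) (hw : PX d (v e) l w)
    (h1 : mu d (v e) l w = 1) :
    ∃ Φ : Finset ℂ, ∀ x : ℂ, ‖x‖ = 1 → x ∉ Φ → ∃ i, z i 0 = w ∧ ∃ ρ₀ > 0, ρ₀ ≤ r ∧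
      ∀ ρ : ℝ, 0 < ρ → ρ < ρ₀ →
        ‖mu d (v (e + ((ρ : ℂ) * x) ^ M)) l (z i ((ρ : ℂ) * x))‖ < 1 ∧
        PX d (v (e + ((ρ : ℂ) * x) ^ M)) l (z i ((ρ : ℂ) * x)) := by
  classical
  have hM1 : 1 ≤ M := hp.posM
  have hr : 0 < r := hp.posr
  have hd : 2 ≤ d := (h.nf e he).two_le
  have h0r : (0 : ℂ) ∈ ball (0 : ℂ) r := mem_ball_self hr
  have he0 : e + (0 : ℂ) ^ M = e := by
    rw [zero_pow (by omega), add_zero]
  set f : Fin (d ^ l + 1) → ℂ → ℂ := fun i τ => mu d (v (e + τ ^ M)) l (z i τ) with hf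
  set I : Finset (Fin (d ^ l + 1)) := Finset.univ.filter (fun i => z i 0 = w) with hI
  have hImem : ∀ i, i ∈ I ↔ z i 0 = w := fun i => by simp [hI]
  -- `I` is nonempty
  have hIne : I.Nonempty := by
    have hmon := (fixF_monic d l hd hl.one_le (v e)).1
    have hroot : w ∈ (fixF d l (v e)).roots := by
      rw [mem_roots hmon.ne_zero]
      exact (fixF_root d l hl.one_le _ (h.nf e he) w).mpr hw.1.2
    have h2 := hp.roots 0 h0r
    simp only [he0] at h2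
    rw [h2] at hroot
    obtain ⟨i, _, hi⟩ := Multiset.mem_map.mp hroot
    exact ⟨i, (hImem i).mpr hi⟩
  obtain ⟨r₁, hr₁, hs₁⟩ := BF8_simple hl hM h he hM1
  have hne1 : ∀ i, ∀ τ ∈ ball (0 : ℂ) r, τ ∈ ball (0 : ℂ) r₁ → τ ≠ 0 → f i τ ≠ 1 := by
    intro i τ hτ hτ1 hτ0
    exact fixF_nodup' d l hl.one_le _ (h.nf _ (hU τ hτ)) (hs₁ τ hτ1 hτ0) _
      (BF8_per hl h hp hU i hτ)
  -- the bound of the sum of residues
  obtain ⟨r₂, hr₂, C, hC⟩ := res_bound (U := ball c R) isOpen_ball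
    (fixF_pf d l hd hl.one_le (ball c R) v h.diff).1 e he M r z hp
    (punct d l MM hl hM c R v h e he) (fun s => (iter d (nP d (v s)) (nQ d (v s)) l).2)
    (fun s _ => (fixF_monic d l hd hl.one_le (v s)).2.2)
    (fixF_pf d l hd hl.one_le (ball c R) v h.diff).2 w I hImem
  set r₃ : ℝ := min r (min r₁ r₂) with hr₃
  have hr₃0 : 0 < r₃ := lt_min hr (lt_min hr₁ hr₂)
  have hb1 : ball (0 : ℂ) r₃ ⊆ ball (0 : ℂ) r := ball_subset_ball (min_le_left _ _)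
  have hb2 : ball (0 : ℂ) r₃ ⊆ ball (0 : ℂ) r₁ :=
    ball_subset_ball ((min_le_right _ _).trans (min_le_left _ _))
  have hb3 : ball (0 : ℂ) r₃ ⊆ ball (0 : ℂ) r₂ :=
    ball_subset_ball ((min_le_right _ _).trans (min_le_right _ _))
  obtain ⟨Φ, hΦ⟩ := dir I hIne f r₃ hr₃0
    (fun i _ => (BF8_diff hl h hp hU i).1.mono hb1)
    (fun i hi => by
      have := (hImem i).mp hi
      simp only [hf, he0, this, h1])
    (fun i _ τ hτ hτ0 => hne1 i τ (hb1 hτ) (hb2 hτ) hτ0) C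
    (fun τ hτ hτ0 => by
      refine le_trans (le_of_eq ?_) (hC τ (hb3 hτ) hτ0)
      congr 1
      refine Finset.sum_congr rfl (fun i _ => ?_)
      obtain ⟨hB, hder⟩ := fixF_deriv d l hl.one_le _ (h.nf _ (hU τ (hb1 hτ))) (z i τ)
        (BF8_per hl h hp hU i (hb1 hτ))
      have h3 : 1 - f i τ ≠ 0 := sub_ne_zero.mpr (Ne.symm (hne1 i τ (hb1 hτ) (hb2 hτ) hτ0))
      rw [hder]
      have h4 : f i τ = mu d (v (e + τ ^ M)) l (z i τ) := rfl
      rw [← h4]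
      field_simp)
  refine ⟨Φ, fun x hx hxΦ => ?_⟩
  obtain ⟨i, hiI, ρ₁, hρ₁, hlt⟩ := hΦ x hx hxΦ
  have hi := (hImem i).mp hiI
  -- exact period
  have hcont : ContinuousAt (fun τ => (fv d (v (e + τ ^ M)))^[1] (z i τ) - z i τ) 0 := by
    have h2 := ((BF8_diff hl h hp hU i).2 1 hl.one_le).differentiableAt
      (isOpen_ball.mem_nhds h0r)
    have h3 := (hp.diff i).differentiableAt (isOpen_ball.mem_nhds h0r)
    exact h2.continuousAt.sub h3.continuousAt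
  have hne0 : (fun τ => (fv d (v (e + τ ^ M)))^[1] (z i τ) - z i τ) 0 ≠ 0 := by
    simp only [he0, hi]
    exact sub_ne_zero.mpr (hw.2 1 one_pos hl.one_lt)
  have hev := hcont.eventually_ne hne0
  rw [Metric.eventually_nhds_iff] at hev
  obtain ⟨r₄, hr₄, h5⟩ := hev
  refine ⟨i, hi, min ρ₁ (min r₃ r₄), lt_min hρ₁ (lt_min hr₃0 hr₄), ?_, ?_⟩
  · exact (min_le_right _ _).trans ((min_le_left _ _).trans (min_le_left _ _))
  · intro ρ hρ0 hρ
    have hnorm : ‖(ρ : ℂ) * x‖ = ρ := by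
      rw [norm_mul, hx, mul_one, Complex.norm_real, Real.norm_of_nonneg hρ0.le]
    have hρr : (ρ : ℂ) * x ∈ ball (0 : ℂ) r := by
      rw [mem_ball_zero_iff, hnorm]
      exact hρ.trans_le ((min_le_right _ _).trans ((min_le_left _ _).trans (min_le_left _ _)))
    refine ⟨hlt ρ hρ0 (hρ.trans_le (min_le_left _ _)), ?_⟩
    have h6 := h5 (y := (ρ : ℂ) * x) (by
      rw [dist_zero_right, hnorm]
      exact hρ.trans_le ((min_le_right _ _).trans (min_le_right _ _)))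
    rcases per_prime d l hl _ (h.nf _ (hU _ hρr)) _ (BF8_per hl h hp hU i hρr) with h7 | h7
    · exact absurd (by rw [Function.iterate_one, h7, sub_self]) h6
    · exact h7

theorem BF8_unc {g : ℝ → ℂ} {ρ : ℝ} (hρ : 0 < ρ) (hg : Set.InjOn g (Set.Ioo 0 ρ)) {Z : Set ℂ}
    (hZ : Z.Countable) : ∃ t ∈ Set.Ioo 0 ρ, g t ∉ Z := by
  by_contra hcon
  push Not at hcon
  have h1 : (Set.Ioo (0 : ℝ) ρ).Countable := Set.MapsTo.countable_of_injOn hcon hg hZ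
  have h2 := Cardinal.mk_Ioo_real hρ
  rw [← Cardinal.le_aleph0_iff_set_countable, h2] at h1
  exact absurd h1 (not_le.mpr Cardinal.aleph0_lt_continuum)

theorem BF8_unit (Φ : Finset ℂ) : ∃ x : ℂ, ‖x‖ = 1 ∧ x ∉ Φ := by
  have h1 : (sphere (0 : ℂ) 1).Infinite := by
    apply IsPreconnected.infinite_of_nontrivial
    · exact isPreconnected_sphere (by simp [Complex.rank_real_complex]) 0 1
    · exact ⟨1, by simp, -1, by simp, by norm_num⟩
  obtain ⟨x, hx, hx2⟩ := h1.exists_notMem_finset Φ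
  exact ⟨x, by simpa using hx, hx2⟩

theorem BF8_inj (e x : ℂ) (hx : ‖x‖ = 1) (M : ℕ) (hM : 1 ≤ M) (ρ : ℝ) :
    Set.InjOn (fun t : ℝ => e + ((t : ℂ) * x) ^ M) (Set.Ioo 0 ρ) := by
  intro a ha b hb hab
  simp only [add_right_inj] at hab
  have h1 := congrArg norm hab
  rw [norm_pow, norm_pow, norm_mul, norm_mul, hx, mul_one, mul_one, Complex.norm_real,
    Complex.norm_real, Real.norm_of_nonneg ha.1.le, Real.norm_of_nonneg hb.1.le] at h1
  exact (pow_left_inj₀ ha.1.le hb.1.le (by omega)).mp h1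

/-- Puiseux data for two families with a common exponent -/
theorem BF8_common (d l : ℕ) (MM : Set ℕ) (hl : l.Prime) (hM : l ∈ MM) (c : ℂ) (R : ℝ)
    (v u : ℂ → VI d → ℂ) (h : Fam d MM c R v) (h' : Fam d MM c R u) (e : ℂ)
    (he : e ∈ ball c R) :
    ∃ (M : ℕ) (r : ℝ) (z y : Fin (d ^ l + 1) → ℂ → ℂ),
      Pui (d ^ l + 1) (fun s => fixF d l (v s)) e M r z ∧
      Pui (d ^ l + 1) (fun s => fixF d l (u s)) e M r y ∧
      ∀ τ ∈ ball (0 : ℂ) r, e + τ ^ M ∈ ball c R := by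
  have hd : 2 ≤ d := (h.nf e he).two_le
  obtain ⟨M₁, r₁, z, hz, hz'⟩ := puiseux isOpen_ball
    (fixF_pf d l hd hl.one_le (ball c R) v h.diff).1 e he (punct d l MM hl hM c R v h e he)
  obtain ⟨M₂, r₂, y, hy, _⟩ := puiseux isOpen_ball
    (fixF_pf d l hd hl.one_le (ball c R) u h'.diff).1 e he (punct d l MM hl hM c R u h' e he)
  have h1 := pui_mul hz M₂ hy.posM
  have h2 := pui_mul hy M₁ hz.posM
  rw [mul_comm] at h2
  have hr1 : 0 < min (min r₁ 1) (min r₂ 1) := lt_min h1.posr h2.posr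
  have hs1 : ball (0 : ℂ) (min (min r₁ 1) (min r₂ 1)) ⊆ ball (0 : ℂ) (min r₁ 1) :=
    ball_subset_ball (min_le_left _ _)
  have hs2 : ball (0 : ℂ) (min (min r₁ 1) (min r₂ 1)) ⊆ ball (0 : ℂ) (min r₂ 1) :=
    ball_subset_ball (min_le_right _ _)
  refine ⟨M₂ * M₁, min (min r₁ 1) (min r₂ 1), _, _,
    ⟨h1.posM, hr1, fun i => (h1.diff i).mono hs1, fun τ hτ => h1.roots τ (hs1 hτ)⟩,
    ⟨h2.posM, hr1, fun i => (h2.diff i).mono hs2, fun τ hτ => h2.roots τ (hs2 hτ)⟩, ?_⟩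
  intro τ hτ
  rw [pow_mul]
  apply hz'
  have h3 := hs1 hτ
  rw [mem_ball_zero_iff] at h3 ⊢
  rw [norm_pow]
  have h4 : ‖τ‖ ≤ 1 := (h3.trans_le (min_le_right _ _)).le
  calc ‖τ‖ ^ M₂ ≤ ‖τ‖ ^ 1 := pow_le_pow_of_le_one (norm_nonneg _) h4 hy.posM
    _ = ‖τ‖ := pow_one _
    _ < r₁ := h3.trans_le (min_le_left _ _)

theorem par_near (d l : ℕ) (MM : Set ℕ) (hl : l.Prime) (hM : l ∈ MM) (c : ℂ) (R : ℝ)
    (v u : ℂ → VI d → ℂ) (h : Fam d MM c R v) (h' : Fam d MM c R u) (e : ℂ) (he : e ∈ ball c R)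
    (hv : Par d (v e) l) (hu : Par d (u e) l) (ε : ℝ) (hε : 0 < ε) (Z : Set ℂ)
    (hZ : Z.Countable) :
    ∃ s ∈ ball e ε, s ∈ ball c R ∧ s ∉ Z ∧ At d (v s) l ∧ At d (u s) l := by
  classical
  obtain ⟨M, r, z, y, hz, hy, hU⟩ := BF8_common d l MM hl hM c R v u h h' e he
  obtain ⟨w, hw, hw1⟩ := hv
  obtain ⟨w', hw', hw1'⟩ := hu
  obtain ⟨Φ, hΦ⟩ := parb d l MM hl hM c R v h e he M r z hz hU w hw hw1
  obtain ⟨Φ', hΦ'⟩ := parb d l MM hl hM c R u h' e he M r y hy hU w' hw' hw1'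
  obtain ⟨x, hx, hxΦ⟩ := BF8_unit (Φ ∪ Φ')
  obtain ⟨i, _, ρ₁, hρ₁, hρ₁r, hi⟩ := hΦ x hx (fun hc => hxΦ (Finset.mem_union_left _ hc))
  obtain ⟨j, _, ρ₂, hρ₂, _, hj⟩ := hΦ' x hx (fun hc => hxΦ (Finset.mem_union_right _ hc))
  have hM1 : 1 ≤ M := hz.posM
  have hρ : 0 < min (min ρ₁ ρ₂) (min ε 1) := lt_min (lt_min hρ₁ hρ₂) (lt_min hε one_pos)
  obtain ⟨t, ht, htZ⟩ := BF8_unc hρ (BF8_inj e x hx M hM1 _) hZ
  have ht1 : t < ρ₁ := ht.2.trans_le ((min_le_left _ _).trans (min_le_left _ _))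
  have ht2 : t < ρ₂ := ht.2.trans_le ((min_le_left _ _).trans (min_le_right _ _))
  have ht3 : t < ε := ht.2.trans_le ((min_le_right _ _).trans (min_le_left _ _))
  have ht4 : t < 1 := ht.2.trans_le ((min_le_right _ _).trans (min_le_right _ _))
  have hnorm : ‖(t : ℂ) * x‖ = t := by
    rw [norm_mul, hx, mul_one, Complex.norm_real, Real.norm_of_nonneg ht.1.le]
  have hmem : (t : ℂ) * x ∈ ball (0 : ℂ) r := by
    rw [mem_ball_zero_iff, hnorm]
    exact ht1.trans_le hρ₁r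
  refine ⟨e + ((t : ℂ) * x) ^ M, ?_, hU _ hmem, htZ, ⟨_, (hi t ht.1 ht1).2, (hi t ht.1 ht1).1⟩,
    ⟨_, (hj t ht.1 ht2).2, (hj t ht.1 ht2).1⟩⟩
  rw [mem_ball, dist_eq_norm, add_sub_cancel_left, norm_pow, hnorm]
  calc t ^ M ≤ t ^ 1 := pow_le_pow_of_le_one ht.1.le ht4.le hM1
    _ = t := pow_one _
    _ < ε := ht3

end Pool.Agent.LSF
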