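import Pool.Agent.LSF.BF7
import Pool.Agent.LSF.BF8
import Pool.Agent.LSF.BF2

/-!
BF9: common parabolic parameters; the contradiction.
-/

namespace Pool.Agent.LSF

open Polynomial Pool.Agent.LenSpec Metric Filter

theorem stg (d : ℕ) (MM : Set ℕ) (hMM : ∀ n ∈ MM, n.Prime) (c : ℂ) (R : ℝ)
    (v u : ℂ → VI d → ℂ) (h : Slice d MM c R v u) (hv : VG d MM (v c)) (hu : VG d MM (u c))
    (n₀ : ℕ) (hn : n₀ ∈ MM) (ρ₀ : ℝ) (hρ₀ : ρ₀ ≤ R) (z : ℂ → ℂ) (hl : Lab d v c n₀ ρ₀ z)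
    (ρ : ℝ) (hρ : 0 < ρ) :
    ∃ l₀ : ℕ, ∀ l ∈ MM, l₀ ≤ l → ∃ s ∈ ball c ρ, s ∈ ball c R ∧ Par d (v s) l ∧ Par d (u s) l := by
  obtain ⟨R₁, hR₁, hR₁R, C, hC⟩ := sat_fin d MM c R u h.fam' hu
  obtain ⟨l₀, hl₀⟩ := f1p d MM hMM c R v h.fam hv n₀ hn ρ₀ hρ₀ z hl C (min ρ R₁) (lt_min hρ hR₁)
  refine ⟨l₀, ?_⟩
  intro l hlM hll
  obtain ⟨S, hSc, hS⟩ := hC l (hMM l hlM).one_le
  obtain ⟨s, hs1, hs2, hsE, hsat, hspl⟩ := hl₀ l hlM hll S hSc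
  have hsatu : ¬ Sat d (u s) l := fun h' =>
    hsE (hS s (ball_subset_ball (min_le_right _ _) hs1) h')
  have hsplu : ¬ Split d u l s := fun h' => hspl ((h.link l hlM s hs2).2 h')
  refine ⟨s, ball_subset_ball (min_le_left _ _) hs1, hs2, ?_, ?_⟩
  · by_contra hp
    exact hspl (nsp d l (hMM l hlM) MM c R v h.fam s hs2 hsat hp)
  · by_contra hp
    exact hsplu (nsp d l (hMM l hlM) MM c R u h.fam' s hs2 hsatu hp)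

theorem bst (d : ℕ) (MM : Set ℕ) (hMM : ∀ n ∈ MM, n.Prime) (hinf : MM.Infinite) (c : ℂ) (R : ℝ)
    (v u : ℂ → VI d → ℂ) (h : Slice d MM c R v u) (T : Finset ℕ) (hT : T.card = 2 * d - 2)
    (hTM : ∀ n ∈ T, n ∈ MM) (hTA : ∀ s ∈ ball c R, ∀ n ∈ T, At d (v s) n)
    (n₀ : ℕ) (hn : n₀ ∈ MM) (ρ₀ : ℝ) (hρ₀ : ρ₀ ≤ R) (z : ℂ → ℂ) (hl : Lab d u c n₀ ρ₀ z) :
    False := by
  classical
  have hR : 0 < R := h.fam.pos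
  obtain ⟨Z1, hZ1, hvg1⟩ := h.fam.vg
  obtain ⟨Z2, hZ2, hvg2⟩ := h.fam'.vg
  obtain ⟨c', -, hc'2, hc'Z, ρ', hρ', hsub, hlab⟩ := lab_gen d n₀ (hMM n₀ hn).one_le c R hR u
    h.fam'.diff h.fam'.nf ρ₀ hρ₀ z hl (Z1 ∪ Z2) (hZ1.union hZ2) 1 one_pos
  have hsubR : ball c' ρ' ⊆ ball c R := hsub.trans (ball_subset_ball hρ₀)
  have hc'R : c' ∈ ball c R := ball_subset_ball hρ₀ hc'2
  have hs' : Slice d MM c' ρ' u v :=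
    slice_symm d MM c' ρ' v u (slice_sub d MM c R v u h c' ρ' hρ' hsubR)
  obtain ⟨l₀, hl₀⟩ := stg d MM hMM c' ρ' u v hs'
    (hvg2 c' hc'R (fun hz => hc'Z (Or.inr hz))) (hvg1 c' hc'R (fun hz => hc'Z (Or.inl hz)))
    n₀ hn ρ' le_rfl z hlab ρ' hρ'
  have hinf2 : (MM \ ((T ∪ Finset.range l₀ : Finset ℕ) : Set ℕ)).Infinite :=
    hinf.sdiff (Finset.finite_toSet _)
  obtain ⟨l, hlM, hlT⟩ := hinf2.nonempty
  have hlT' : l ∉ T ∪ Finset.range l₀ := fun hx => hlT hx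
  rw [Finset.mem_union, Finset.mem_range, not_or, not_lt] at hlT'
  obtain ⟨s₁, hs₁, -, hpu, hpv⟩ := hl₀ l hlM hlT'.2
  obtain ⟨s, -, hs, hsZ, -, hAt⟩ := par_near d l MM (hMM l hlM) hlM c' ρ' u v hs'.fam hs'.fam' s₁
    hs₁ hpu hpv 1 one_pos Z1 hZ1
  have hsR : s ∈ ball c R := hsubR hs
  have hcard := t3c d MM hMM (v s) (hvg1 s hsR hsZ) (insert l T) (by
    intro n hn
    rcases Finset.mem_insert.1 hn with rfl | hn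
    · exact ⟨hlM, hAt⟩
    · exact ⟨hTM n hn, hTA s hsR n hn⟩)
  rw [Finset.card_insert_of_notMem hlT'.1, hT] at hcard
  omega

end Pool.Agent.LSF
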