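import Mathlib

/-!
Families of monic polynomials with holomorphic coefficients.
-/

namespace Pool.Agent.LSF

open Polynomial

/-- a family of monic polynomials of degree `D` over `U` with holomorphic coefficients -/
structure PF (U : Set ℂ) (D : ℕ) (F : ℂ → ℂ[X]) : Prop where
  monic : ∀ s ∈ U, (F s).Monic
  deg : ∀ s ∈ U, (F s).natDegree = D
  coeff : ∀ i, DifferentiableOn ℂ (fun s => (F s).coeff i) U

/-- near `e` all roots are given by holomorphic functions -/
def RegAt (D : ℕ) (F : ℂ → ℂ[X]) (e : ℂ) : Prop :=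
  ∃ r > 0, ∃ z : Fin D → ℂ → ℂ, (∀ i, DifferentiableOn ℂ (z i) (Metric.ball e r)) ∧
    ∀ s ∈ Metric.ball e r, (F s).roots = Finset.univ.val.map (fun i => z i s)

/-- the roots over a punctured neighbourhood of `e`, parametrised by `s = e + τ ^ M` -/
structure Pui (D : ℕ) (F : ℂ → ℂ[X]) (e : ℂ) (M : ℕ) (r : ℝ) (z : Fin D → ℂ → ℂ) : Prop where
  posM : 1 ≤ M
  posr : 0 < r
  diff : ∀ i, DifferentiableOn ℂ (z i) (Metric.ball 0 r)
  roots : ∀ τ ∈ Metric.ball (0 : ℂ) r,
    (F (e + τ ^ M)).roots = Finset.univ.val.map (fun i => z i τ)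

end Pool.Agent.LSF
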