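import Pool.Agent.LSF.BDefs
import Pool.Agent.LSF.BPDefs

/-!
Definitions for holomorphic families of maps in the normal form.
-/

namespace Pool.Agent.LSF

open Polynomial Pool.Agent.LenSpec Metric

/-- the map with parameter `v` -/
noncomputable abbrev fv (d : ℕ) (v : VI d → ℂ) : ℂ → ℂ := ev (nP d v) (nQ d v)

/-- `z` has exact period `n` for the map with parameter `v` -/
abbrev PX (d : ℕ) (v : VI d → ℂ) (n : ℕ) (z : ℂ) : Prop := PerX (nP d v) (nQ d v) n z

/-- the multiplier of the `n`-th iterate at `z` -/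
noncomputable abbrev mu (d : ℕ) (v : VI d → ℂ) (n : ℕ) (z : ℂ) : ℂ := mult (nP d v) (nQ d v) n z

/-- the multipliers at the points of exact period `n` -/
abbrev XV (d : ℕ) (v : VI d → ℂ) (n : ℕ) : Set ℂ := XS (nP d v) (nQ d v) n

/-- the monic polynomial of degree `d ^ n + 1` whose roots are the points with `f^n z = z` -/
noncomputable def fixF (d n : ℕ) (v : VI d → ℂ) : ℂ[X] := - fixPoly d (nP d v) (nQ d v) n

/-- the map has an attracting point of exact period `n` -/
def At (d : ℕ) (v : VI d → ℂ) (n : ℕ) : Prop := ∃ z, PX d v n z ∧ ‖mu d v n z‖ < 1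

/-- very general position with respect to the periods in `MM` -/
structure VG (d : ℕ) (MM : Set ℕ) (v : VI d → ℂ) : Prop where
  nf : Nf d v
  fix_ne : ∀ z, fv d v z = z → ∀ k, 1 ≤ k → (mu d v 1 z) ^ k ≠ 1
  mult_ne : ∀ n ∈ MM, ∀ z, PX d v n z → mu d v n z ≠ 1 ∧ mu d v n z ≠ 0
  same : ∀ n ∈ MM, ∀ z z', PX d v n z → PX d v n z' → mu d v n z = mu d v n z' →
    ∃ k, z' = (fv d v)^[k] z

/-- near `e` the multipliers at the points of exact period `l` are among finitely many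
holomorphic functions, off a countable set -/
def Split (d : ℕ) (v : ℂ → VI d → ℂ) (l : ℕ) (e : ℂ) : Prop :=
  ∃ r > 0, ∃ (k : ℕ) (x : Fin k → ℂ → ℂ), (∀ i, DifferentiableOn ℂ (x i) (ball e r)) ∧
    ∃ Z : Set ℂ, Z.Countable ∧ ∀ s ∈ ball e r, s ∉ Z → ∀ z, PX d (v s) l z →
      ∃ i, mu d (v s) l z = x i s

/-- a fixed point whose multiplier is an `l`-th root of unity -/
def Sat (d : ℕ) (v : VI d → ℂ) (l : ℕ) : Prop := ∃ z, fv d v z = z ∧ (mu d v 1 z) ^ l = 1

/-- a point of exact period `l` with multiplier `1` -/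
def Par (d : ℕ) (v : VI d → ℂ) (l : ℕ) : Prop := ∃ z, PX d v l z ∧ mu d v l z = 1

/-- a holomorphic family of maps over a disc, in very general position off a countable set -/
structure Fam (d : ℕ) (MM : Set ℕ) (c : ℂ) (R : ℝ) (v : ℂ → VI d → ℂ) : Prop where
  pos : 0 < R
  diff : DifferentiableOn ℂ v (ball c R)
  nf : ∀ s ∈ ball c R, Nf d (v s)
  vg : ∃ Z : Set ℂ, Z.Countable ∧ ∀ s ∈ ball c R, s ∉ Z → VG d MM (v s)

/-- two linked families -/
structure Slice (d : ℕ) (MM : Set ℕ) (c : ℂ) (R : ℝ) (v u : ℂ → VI d → ℂ) : Prop where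
  fam : Fam d MM c R v
  fam' : Fam d MM c R u
  link : ∀ m ∈ MM, ∀ e ∈ ball c R, (Split d v m e ↔ Split d u m e)

/-- a holomorphic periodic point whose multiplier is not constant and has modulus `1` at the
centre, but is not equal to `1` there -/
structure Lab (d : ℕ) (v : ℂ → VI d → ℂ) (c : ℂ) (n : ℕ) (ρ : ℝ) (z : ℂ → ℂ) : Prop where
  pos : 0 < ρ
  diff : DifferentiableOn ℂ z (ball c ρ)
  per : ∀ s ∈ ball c ρ, PX d (v s) n (z s)
  one : ‖mu d (v c) n (z c)‖ = 1
  ne1 : mu d (v c) n (z c) ≠ 1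
  nc : ∃ s ∈ ball c ρ, mu d (v s) n (z s) ≠ mu d (v c) n (z c)

end Pool.Agent.LSF
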