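import Pool.Agent.LSF.BG9
import Pool.Agent.LSF.BF6

/-!
BG10: constant and nonconstant functions on slices, labels and attracting points on slices.
-/

namespace Pool.Agent.LSF

open Polynomial Pool.Agent.LenSpec Metric Filter

theorem sl_const {d : ℕ} {MM : Set ℕ} {k : ℕ} {L : LinkD k} {A : IntermediateField ℚ ℂ} {t : ℂ}
    {R : ℝ} {v u : VI d → ℂ} {a : Fin k → ℂ} {n : ℕ} {y : Fin n → ℂ} {V U : ℂ → VI d → ℂ}
    {As : Fin k → ℂ → ℂ} {Y : Fin n → ℂ → ℂ} (h : GSl d MM k L A t R v u a n y V U As Y)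
    (hA : (A : Set ℂ).Countable) (i : Fin n) (hi : y i ∈ A) : ∀ s ∈ ball t R, Y i s = y i := by
  apply bg9_dense (A : Set ℂ) hA t R (Y i) (fun _ => y i) (h.dY i).continuousOn continuousOn_const
  intro s hs hsA
  obtain ⟨σ, -, -, -, -, h5⟩ := h.conj s hs hsA
  rw [← h5 i]
  exact σ.commutes ⟨y i, hi⟩

theorem sl_nonconst {d : ℕ} {MM : Set ℕ} {k : ℕ} {L : LinkD k} {A : IntermediateField ℚ ℂ} {t : ℂ}
    {R : ℝ} {v u : VI d → ℂ} {a : Fin k → ℂ} {n : ℕ} {y : Fin n → ℂ} {V U : ℂ → VI d → ℂ}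
    {As : Fin k → ℂ → ℂ} {Y : Fin n → ℂ → ℂ} (h : GSl d MM k L A t R v u a n y V U As Y)
    (hA : (A : Set ℂ).Countable) (hc : IsAlgClosed A) (i : Fin n) (hi : y i ∉ A)
    (hy : y i ∈ ACL (insert t (A : Set ℂ))) (r : ℝ) (hr : 0 < r) (hrR : r ≤ R) :
    ∃ s ∈ ball t r, Y i s ≠ y i := by
  by_contra hcon
  push Not at hcon
  have hex : t ∈ ACL (insert (y i) (A : Set ℂ)) :=
    acl_exch (A : Set ℂ) (y i) t hy (fun h' => hi (acl_closed A hc _ h'))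
  have hcount : ((A : Set ℂ) ∪ (ACL (insert (y i) (A : Set ℂ)) : Set ℂ)).Countable :=
    hA.union (acl_countable _ (hA.insert _))
  obtain ⟨s, hs, hsn⟩ := (hcount.dense_compl ℂ).inter_open_nonempty (ball t r) isOpen_ball
    ⟨t, mem_ball_self hr⟩
  have hsA : s ∉ A := fun h' => hsn (Or.inl h')
  have hsR : s ∈ ball t R := ball_subset_ball hrR hs
  obtain ⟨σ, h1, -, -, -, h5⟩ := h.conj s hsR hsA
  apply hsn
  right
  have h6 := acl_aut (σ : ℂ ≃+* ℂ) _ _ hex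
  have h7 : (σ : ℂ ≃+* ℂ) '' (insert (y i) (A : Set ℂ)) = insert (y i) (A : Set ℂ) := by
    rw [Set.image_insert_eq]
    have h8 : (σ : ℂ ≃+* ℂ) (y i) = y i := (h5 i).trans (hcon s hs)
    rw [h8]
    congr 1
    ext x
    constructor
    · rintro ⟨w, hw, rfl⟩
      have h9 : (σ : ℂ ≃+* ℂ) w = w := σ.commutes ⟨w, hw⟩
      rw [h9]
      exact hw
    · intro hx
      exact ⟨x, hx, σ.commutes ⟨x, hx⟩⟩
  rw [h7] at h6
  have h10 : (σ : ℂ ≃+* ℂ) t = s := h1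
  rw [h10] at h6
  exact h6

theorem at_open (d n : ℕ) (hn : 1 ≤ n) (c : ℂ) (R : ℝ) (hR : 0 < R) (V : ℂ → VI d → ℂ)
    (hv : DifferentiableOn ℂ V (ball c R)) (hnf : ∀ s ∈ ball c R, Nf d (V s))
    (h : At d (V c) n) : ∃ r > 0, r ≤ R ∧ ∀ s ∈ ball c r, At d (V s) n := by
  obtain ⟨z₀, hz, h1⟩ := h
  have hne : mu d (V c) n z₀ ≠ 1 := by
    intro h2
    rw [h2, norm_one] at h1
    exact lt_irrefl _ h1
  obtain ⟨ρ, hρ, hρR, ε, hε, z, hzd, hzc, hprop, hmu⟩ := branch d n hn c R hR V hv hnf z₀ hz hne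
  have hcont : ContinuousAt (fun s => ‖mu d (V s) n (z s)‖) c :=
    ((hmu.differentiableAt (isOpen_ball.mem_nhds (mem_ball_self hρ))).continuousAt).norm
  have h2 : ∀ᶠ s in nhds c, ‖mu d (V s) n (z s)‖ < 1 := by
    have h3 : ‖mu d (V c) n (z c)‖ < 1 := by
      rw [hzc]
      exact h1
    exact hcont.eventually_lt_const h3
  obtain ⟨r, hr, hball⟩ := Metric.eventually_nhds_iff_ball.mp h2
  refine ⟨min r ρ, lt_min hr hρ, (min_le_right _ _).trans hρR, ?_⟩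
  intro s hs
  exact ⟨z s, (hprop s (ball_subset_ball (min_le_right _ _) hs)).1,
    hball s (ball_subset_ball (min_le_left _ _) hs)⟩

theorem bg10_point (d p : ℕ) (hp : 1 ≤ p) (t : ℂ) (R : ℝ) (hR : 0 < R) (W : ℂ → VI d → ℂ)
    (hW : DifferentiableOn ℂ W (ball t R)) (hnf : ∀ s ∈ ball t R, Nf d (W s)) (A : Set ℂ)
    (hA : A.Countable) (f g : ℂ → ℂ) (hf : DifferentiableOn ℂ f (ball t R))
    (hg : DifferentiableOn ℂ g (ball t R))
    (hconj : ∀ s ∈ ball t R, s ∉ A → ∃ σ : ℂ ≃+* ℂ, (∀ i, σ (W t i) = W s i) ∧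
      σ (f t) = f s ∧ σ (g t) = g s)
    (hz : PX d (W t) p (f t)) (h1 : mu d (W t) p (f t) ≠ 1) (h2 : g t = mu d (W t) p (f t)) :
    ∃ ρ > 0, ρ ≤ R ∧ ∀ s ∈ ball t ρ, PX d (W s) p (f s) ∧ mu d (W s) p (f s) = g s := by
  obtain ⟨ρ, hρ, hρR, ε, hε, z, hzd, hzc, hprop, hmu⟩ :=
    branch d p hp t R hR W hW hnf (f t) hz h1
  have hcf : ContinuousAt f t :=
    (hf.differentiableAt (isOpen_ball.mem_nhds (mem_ball_self hR))).continuousAt
  have e1 : ∀ᶠ s in nhds t, ‖f s - f t‖ < ε := by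
    have := hcf.eventually (Metric.ball_mem_nhds (f t) hε)
    filter_upwards [this] with s hs
    rwa [dist_eq_norm] at hs
  obtain ⟨r, hr, hball⟩ := Metric.eventually_nhds_iff_ball.mp e1
  have s1 : ball t (min r ρ) ⊆ ball t r := ball_subset_ball (min_le_left _ _)
  have s2 : ball t (min r ρ) ⊆ ball t ρ := ball_subset_ball (min_le_right _ _)
  have s3 : ball t (min r ρ) ⊆ ball t R := s2.trans (ball_subset_ball hρR)
  have hfz : ∀ s ∈ ball t (min r ρ), f s = z s := by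
    apply bg9_dense A hA t _ f z (hf.continuousOn.mono s3) (hzd.continuousOn.mono s2)
    intro s hs hsA
    obtain ⟨σ, g1, g2, -⟩ := hconj s (s3 hs) hsA
    have hpx := ((aut_px d σ (W t)).2.2.1 p (f t)).2 hz
    have hWs : (fun i => σ (W t i)) = W s := funext g1
    rw [hWs, g2] at hpx
    exact (hprop s (s2 hs)).2.2 (f s) (hball s (s1 hs)) hpx.1.2
  have hmg : ∀ s ∈ ball t (min r ρ), mu d (W s) p (z s) = g s := by
    apply bg9_dense A hA t _ (fun s => mu d (W s) p (z s)) g (hmu.continuousOn.mono s2)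
      (hg.continuousOn.mono s3)
    intro s hs hsA
    obtain ⟨σ, g1, g2, g3⟩ := hconj s (s3 hs) hsA
    have hmm := (aut_px d σ (W t)).2.1 p (f t)
    have hWs : (fun i => σ (W t i)) = W s := funext g1
    rw [hWs, g2, ← h2, g3] at hmm
    rw [← hfz s hs]
    exact hmm
  refine ⟨min r ρ, lt_min hr hρ, (min_le_right _ _).trans hρR, ?_⟩
  intro s hs
  rw [hfz s hs]
  exact ⟨(hprop s (s2 hs)).1, hmg s hs⟩

theorem sl_point {d : ℕ} {MM : Set ℕ} {k : ℕ} {L : LinkD k} {A : IntermediateField ℚ ℂ} {t : ℂ}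
    {R : ℝ} {v u : VI d → ℂ} {a : Fin k → ℂ} {n : ℕ} {y : Fin n → ℂ} {V U : ℂ → VI d → ℂ}
    {As : Fin k → ℂ → ℂ} {Y : Fin n → ℂ → ℂ} (h : GSl d MM k L A t R v u a n y V U As Y)
    (hA : (A : Set ℂ).Countable) (p : ℕ) (hp : 1 ≤ p) (z₀ : ℂ) (i j : Fin n) (hi : y i = z₀) :
    (PX d v p z₀ → mu d v p z₀ ≠ 1 → y j = mu d v p z₀ →
      ∃ ρ > 0, ρ ≤ R ∧ ∀ s ∈ ball t ρ, PX d (V s) p (Y i s) ∧ mu d (V s) p (Y i s) = Y j s) ∧
    (PX d u p z₀ → mu d u p z₀ ≠ 1 → y j = mu d u p z₀ →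
      ∃ ρ > 0, ρ ≤ R ∧ ∀ s ∈ ball t ρ, PX d (U s) p (Y i s) ∧ mu d (U s) p (Y i s) = Y j s) := by
  constructor
  · intro h1 h2 h3
    apply bg10_point d p hp t R h.slice.fam.pos V h.slice.fam.diff h.slice.fam.nf (A : Set ℂ) hA
      (Y i) (Y j) (h.dY i) (h.dY j)
    · intro s hs hsA
      obtain ⟨σ, -, g2, -, -, g5⟩ := h.conj s hs hsA
      refine ⟨(σ : ℂ ≃+* ℂ), ?_, ?_, ?_⟩
      · intro l
        rw [h.V0]
        exact g2 l
      · rw [h.Y0]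
        exact g5 i
      · rw [h.Y0]
        exact g5 j
    · rw [h.V0, h.Y0, hi]
      exact h1
    · rw [h.V0, h.Y0, hi]
      exact h2
    · rw [h.V0, h.Y0, h.Y0, hi]
      exact h3
  · intro h1 h2 h3
    apply bg10_point d p hp t R h.slice.fam'.pos U h.slice.fam'.diff h.slice.fam'.nf (A : Set ℂ) hA
      (Y i) (Y j) (h.dY i) (h.dY j)
    · intro s hs hsA
      obtain ⟨σ, -, -, g3, -, g5⟩ := h.conj s hs hsA
      refine ⟨(σ : ℂ ≃+* ℂ), ?_, ?_, ?_⟩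
      · intro l
        rw [h.U0]
        exact g3 l
      · rw [h.Y0]
        exact g5 i
      · rw [h.Y0]
        exact g5 j
    · rw [h.U0, h.Y0, hi]
      exact h1
    · rw [h.U0, h.Y0, hi]
      exact h2
    · rw [h.U0, h.Y0, h.Y0, hi]
      exact h3

theorem sl_lab {d : ℕ} {MM : Set ℕ} {k : ℕ} {L : LinkD k} {A : IntermediateField ℚ ℂ} {t : ℂ}
    {R : ℝ} {v u : VI d → ℂ} {a : Fin k → ℂ} {n : ℕ} {y : Fin n → ℂ} {V U : ℂ → VI d → ℂ}
    {As : Fin k → ℂ → ℂ} {Y : Fin n → ℂ → ℂ} (h : GSl d MM k L A t R v u a n y V U As Y)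
    (hA : (A : Set ℂ).Countable) (hc : IsAlgClosed A)
    (hyA : ∀ i, y i ∈ ACL (insert t (A : Set ℂ))) (p : ℕ) (hp : 1 ≤ p) (z₀ : ℂ)
    (i j : Fin n) (hi : y i = z₀) (hj : y j ∉ A) (h1 : ‖y j‖ = 1) :
    (PX d v p z₀ → y j = mu d v p z₀ → ∃ ρ > 0, ρ ≤ R ∧ Lab d V t p ρ (Y i)) ∧
    (PX d u p z₀ → y j = mu d u p z₀ → ∃ ρ > 0, ρ ≤ R ∧ Lab d U t p ρ (Y i)) := by
  have hj1 : y j ≠ 1 := fun h' => hj (by rw [h']; exact A.one_mem)
  constructor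
  · intro hz hm
    obtain ⟨ρ, hρ, hρR, hprop⟩ := (sl_point h hA p hp z₀ i j hi).1 hz (by rw [← hm]; exact hj1) hm
    have ht := hprop t (mem_ball_self hρ)
    rw [h.Y0 j] at ht
    obtain ⟨s, hs, hne⟩ := sl_nonconst h hA hc j hj (hyA j) ρ hρ hρR
    refine ⟨ρ, hρ, hρR, hρ, (h.dY i).mono (ball_subset_ball hρR), fun s hs => (hprop s hs).1,
      ?_, ?_, s, hs, ?_⟩
    · rw [ht.2]
      exact h1
    · rw [ht.2]
      exact hj1
    · rw [ht.2, (hprop s hs).2]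
      exact hne
  · intro hz hm
    obtain ⟨ρ, hρ, hρR, hprop⟩ := (sl_point h hA p hp z₀ i j hi).2 hz (by rw [← hm]; exact hj1) hm
    have ht := hprop t (mem_ball_self hρ)
    rw [h.Y0 j] at ht
    obtain ⟨s, hs, hne⟩ := sl_nonconst h hA hc j hj (hyA j) ρ hρ hρR
    refine ⟨ρ, hρ, hρR, hρ, (h.dY i).mono (ball_subset_ball hρR), fun s hs => (hprop s hs).1,
      ?_, ?_, s, hs, ?_⟩
    · rw [ht.2]
      exact h1
    · rw [ht.2]
      exact hj1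
    · rw [ht.2, (hprop s hs).2]
      exact hne

end Pool.Agent.LSF
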