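import Pool.Agent.LSF.BG2

/-!
BG3: extension of isomorphisms to automorphisms of `ℂ`.

Complete proof. `ext_iso`: the map `A[x] → A[y]`, `F(x) ↦ F(y)` is a well defined isomorphism of
`A`-algebras by `h`, it extends to the fraction fields `E = A(x) → E' = A(y)`
(`IntermediateField.adjoin A (Set.range x)`), both countable. Choose transcendence bases `B`, `B'`
of `ℂ` over `E`, `E'`. Both have the cardinality of the continuum, because `ℂ` is algebraic over
`E(B)` and `#ℂ ≤ max (#E(B)) ℵ₀ = max #B ℵ₀`. (Mathlib: `IsAlgClosed.cardinal_le_max_transcendence_basis`,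
`IsAlgClosed.cardinal_eq_cardinal_transcendence_basis_of_aleph0_lt`.) Choose a bijection
`B ≃ B'` and extend: give `ℂ` the structure of an `E`-algebra via `E ≅ E' ⊆ ℂ`; then
`IsAlgClosed.equivOfTranscendenceBasis` gives an `E`-isomorphism of `ℂ` with this second
structure.
`ext_alg`: two algebraically independent families over `ℚ` (finite, same index set) have the same
polynomial relations over `K0`: none (an independent family over `ℚ` is independent over the
algebraic extension `K0`: `AlgebraicIndependent.extendScalars..` or via `ai_of_not_mem`-type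
arguments: `x i ∉ ACL(others)`, and `ACL` contains `K0`). So `ext_iso` applies with `A = K0`
(countable).
`ext_trans`: if `t`, `s` are not in the algebraically closed countable field `A` there is an
automorphism over `A` with `t ↦ s` (both transcendental over `A`).
`unit_gen`: unimodular numbers outside a countable set exist arbitrarily, so one can choose
successively `e 0, e 1, ...` of modulus one with `e i ∉ ACL {e j | j < i}` (countable).
-/
namespace Pool.Agent.LSF

open Cardinal

section classif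

/-- algebraically closed fields with equipotent transcendence bases over a common subring -/
theorem BG3_equiv {R K L : Type} [CommRing R] [IsDomain R] [Field K] [Field L] [Algebra R K]
    [Algebra R L] [IsAlgClosed K] [IsAlgClosed L] {ι κ : Type} (v : ι → K) (w : κ → L)
    (e : ι ≃ κ) (hv : IsTranscendenceBasis R v) (hw : IsTranscendenceBasis R w) :
    ∃ σ : K ≃+* L, ∀ r, σ (algebraMap R K r) = algebraMap R L r := by
  let i1 := IsAlgClosed.isAlgClosure_of_transcendence_basis v hv
  let i2 := IsAlgClosed.isAlgClosure_of_transcendence_basis w hw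
  let e' : Algebra.adjoin R (Set.range v) ≃ₐ[R] Algebra.adjoin R (Set.range w) :=
    (hv.1.aevalEquiv.symm.trans (MvPolynomial.renameEquiv R e)).trans hw.1.aevalEquiv
  refine ⟨IsAlgClosure.equivOfEquiv K L e'.toRingEquiv, fun r => ?_⟩
  have h1 : algebraMap R K r =
      algebraMap (Algebra.adjoin R (Set.range v)) K (algebraMap R _ r) := rfl
  rw [h1, IsAlgClosure.equivOfEquiv_algebraMap]
  have h2 : e'.toRingEquiv (algebraMap R _ r) = algebraMap R _ r := e'.commutes r
  rw [h2]
  rfl

theorem BG3_ring (R : Type) [CommRing R] (hR : #R ≤ ℵ₀) (j1 j2 : R →+* ℂ)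
    (h1 : Function.Injective j1) (h2 : Function.Injective j2) :
    ∃ σ : ℂ ≃+* ℂ, ∀ r, σ (j1 r) = j2 r := by
  have hdom : IsDomain R := h1.isDomain j1
  have hC : ℵ₀ < #ℂ := by
    rw [mk_complex]
    exact aleph0_lt_continuum
  have key : ∀ j : R →+* ℂ, Function.Injective j → ∃ (inst : Algebra R ℂ),
      (∀ r, @algebraMap R ℂ _ _ inst r = j r) ∧ ∃ (s : Set ℂ),
        @IsTranscendenceBasis s R ℂ _ _ inst ((↑) : s → ℂ) ∧ #ℂ = #s := by
    intro j hj
    let inst : Algebra R ℂ := j.toAlgebra
    have hf : FaithfulSMul R ℂ := (faithfulSMul_iff_algebraMap_injective R ℂ).2 hj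
    obtain ⟨s, hs⟩ := exists_isTranscendenceBasis R ℂ
    refine ⟨inst, fun r => rfl, s, hs, ?_⟩
    exact IsAlgClosed.cardinal_eq_cardinal_transcendence_basis_of_aleph0_lt' _ hs hR hC
  obtain ⟨i1, hi1, s1, hs1, hc1⟩ := key j1 h1
  obtain ⟨i2, hi2, s2, hs2, hc2⟩ := key j2 h2
  obtain ⟨e⟩ := Cardinal.eq.1 (hc1.symm.trans hc2)
  obtain ⟨σ, hσ⟩ := @BG3_equiv R ℂ ℂ _ _ _ _ i1 i2 _ _ s1 s2 _ _ e hs1 hs2
  refine ⟨σ, fun r => ?_⟩
  rw [← hi1, ← hi2, hσ]

end classif

theorem ext_iso (A : IntermediateField ℚ ℂ) (hA : (A : Set ℂ).Countable) {ι : Type} [Countable ι]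
    (x y : ι → ℂ) (h : ∀ F : MvPolynomial ι A, MvPolynomial.aeval x F = 0 ↔
      MvPolynomial.aeval y F = 0) : ∃ σ : ℂ ≃ₐ[A] ℂ, ∀ i, σ (x i) = y i := by
  set I : Ideal (MvPolynomial ι A) := RingHom.ker (MvPolynomial.aeval x : MvPolynomial ι A →ₐ[A] ℂ)
    with hI
  have hAc : Countable A := hA
  have hcard : #(MvPolynomial ι A ⧸ I) ≤ ℵ₀ := by
    refine (mk_quotient_le).trans ?_
    refine MvPolynomial.cardinalMk_le_max.trans ?_
    refine max_le (max_le ?_ ?_) le_rfl
    · exact mk_le_aleph0
    · exact mk_le_aleph0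
  set j1 : MvPolynomial ι A ⧸ I →+* ℂ :=
    Ideal.Quotient.lift I (MvPolynomial.aeval x : MvPolynomial ι A →ₐ[A] ℂ).toRingHom
      (fun a ha => ha) with hj1
  set j2 : MvPolynomial ι A ⧸ I →+* ℂ :=
    Ideal.Quotient.lift I (MvPolynomial.aeval y : MvPolynomial ι A →ₐ[A] ℂ).toRingHom
      (fun a ha => (h a).1 ha) with hj2
  have hi1 : Function.Injective j1 := by
    rw [injective_iff_map_eq_zero]
    intro a ha
    obtain ⟨a, rfl⟩ := Ideal.Quotient.mk_surjective a
    rw [Ideal.Quotient.eq_zero_iff_mem]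
    exact ha
  have hi2 : Function.Injective j2 := by
    rw [injective_iff_map_eq_zero]
    intro a ha
    obtain ⟨a, rfl⟩ := Ideal.Quotient.mk_surjective a
    rw [Ideal.Quotient.eq_zero_iff_mem]
    exact (h a).2 ha
  obtain ⟨σ, hσ⟩ := BG3_ring _ hcard j1 j2 hi1 hi2
  have hσF : ∀ F : MvPolynomial ι A, σ (MvPolynomial.aeval x F) = MvPolynomial.aeval y F :=
    fun F => hσ (Ideal.Quotient.mk I F)
  refine ⟨AlgEquiv.ofRingEquiv (f := σ) fun a => ?_, fun i => ?_⟩
  · have h1 := hσF (MvPolynomial.C a)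
    rw [MvPolynomial.aeval_C, MvPolynomial.aeval_C] at h1
    exact h1
  · have h1 := hσF (MvPolynomial.X i)
    rw [MvPolynomial.aeval_X, MvPolynomial.aeval_X] at h1
    exact h1

theorem BG3_of_indep (A : IntermediateField ℚ ℂ) (hA : (A : Set ℂ).Countable) {ι : Type}
    [Countable ι] (x y : ι → ℂ) (hx : AlgebraicIndependent A x) (hy : AlgebraicIndependent A y) :
    ∃ σ : ℂ ≃ₐ[A] ℂ, ∀ i, σ (x i) = y i := by
  refine ext_iso A hA x y fun F => ?_
  constructor
  · intro h0
    rw [(algebraicIndependent_iff.1 hx) F h0, map_zero]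
  · intro h0
    rw [(algebraicIndependent_iff.1 hy) F h0, map_zero]

theorem BG3_alg : Algebra.IsAlgebraic ℚ K0 := by
  refine ⟨fun x => ?_⟩
  have h1 := (acl_mem ∅ (x : ℂ)).1 x.2
  have h2 : IsAlgebraic ℚ (x : ℂ) := by
    rw [IntermediateField.adjoin_empty] at h1
    have h3 : Algebra.IsAlgebraic ℚ (⊥ : IntermediateField ℚ ℂ) := by
      refine ⟨fun y => ?_⟩
      obtain ⟨q, hq⟩ := IntermediateField.mem_bot.1 y.2
      have : y = algebraMap ℚ _ q := Subtype.ext hq.symm
      rw [this]
      exact isAlgebraic_algebraMap q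
    exact IsAlgebraic.restrictScalars ℚ h1
  exact (isAlgebraic_algebraMap_iff (algebraMap K0 ℂ).injective).1 h2

theorem ext_alg {ι : Type} [Finite ι] (x y : ι → ℂ) (hx : AlgebraicIndependent ℚ x)
    (hy : AlgebraicIndependent ℚ y) : ∃ σ : ℂ ≃ₐ[K0] ℂ, ∀ i, σ (x i) = y i := by
  have := BG3_alg
  exact BG3_of_indep K0 (acl_countable ∅ Set.countable_empty) x y (hx.extendScalars K0)
    (hy.extendScalars K0)

theorem BG3_transc (A : IntermediateField ℚ ℂ) (hc : IsAlgClosed A) (t : ℂ) (ht : t ∉ A) :
    Transcendental A t := by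
  intro h1
  have h2 := minpoly.irreducible h1.isIntegral
  have h3 := IsAlgClosed.degree_eq_one_of_irreducible A h2
  obtain ⟨a, ha⟩ := minpoly.mem_range_of_degree_eq_one A t h3
  exact ht (by rw [← ha]; exact a.2)

theorem ext_trans (A : IntermediateField ℚ ℂ) (hA : (A : Set ℂ).Countable) (hc : IsAlgClosed A)
    (t s : ℂ) (ht : t ∉ A) (hs : s ∉ A) : ∃ σ : ℂ ≃ₐ[A] ℂ, σ t = s := by
  obtain ⟨σ, hσ⟩ := BG3_of_indep A hA (fun _ : Unit => t) (fun _ : Unit => s)
    (algebraicIndependent_unique_type_iff.2 (BG3_transc A hc t ht))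
    (algebraicIndependent_unique_type_iff.2 (BG3_transc A hc s hs))
  exact ⟨σ, hσ ()⟩

theorem BG3_circ (A : Set ℂ) (hA : A.Countable) : ∃ z : ℂ, ‖z‖ = 1 ∧ z ∉ A := by
  by_contra hno
  push Not at hno
  have hne : ∀ t : ℝ, (1 : ℂ) - t * Complex.I ≠ 0 := by
    intro t h0
    have := congrArg Complex.re h0
    simp at this
  have hne' : ∀ t : ℝ, (1 : ℂ) + t * Complex.I ≠ 0 := by
    intro t h0
    have := congrArg Complex.re h0
    simp at this
  have hinj : Function.Injective (fun t : ℝ => ((1 : ℂ) + t * Complex.I) / (1 - t * Complex.I)) := by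
    intro a b hab
    simp only at hab
    rw [div_eq_div_iff (hne a) (hne b)] at hab
    have h1 := congrArg Complex.im hab
    simp at h1
    linarith
  have h1 : (Set.range (fun t : ℝ => ((1 : ℂ) + t * Complex.I) / (1 - t * Complex.I))).Countable := by
    refine hA.mono ?_
    rintro _ ⟨t, rfl⟩
    refine hno _ ?_
    have h3 : (1 : ℂ) - t * Complex.I = (starRingEnd ℂ) (1 + t * Complex.I) := by
      rw [map_add, map_one, map_mul, Complex.conj_I, Complex.conj_ofReal]
      ring
    simp only
    rw [norm_div, h3, RCLike.norm_conj, div_self]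
    exact norm_ne_zero_iff.2 (hne' t)
  have h2 : (Set.univ : Set ℝ).Countable := by
    rw [← Set.image_univ] at h1
    exact Set.countable_of_injective_of_countable_image hinj.injOn h1
  exact Cardinal.not_countable_real h2

theorem BG3_seq (n : ℕ) : ∃ e : Fin n → ℂ, (∀ i, e i ∉ ACL (e '' {j | j < i})) ∧
    ∀ i, ‖e i‖ = 1 := by
  induction n with
  | zero => exact ⟨fun i => i.elim0, fun i => i.elim0, fun i => i.elim0⟩
  | succ n ih =>
    obtain ⟨e, he, hn⟩ := ih
    obtain ⟨z, hz, hzA⟩ := BG3_circ (ACL (Set.range e) : Set ℂ)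
      (acl_countable _ (Set.finite_range e).countable)
    refine ⟨Fin.snoc e z, fun i => ?_, fun i => ?_⟩
    · refine Fin.lastCases ?_ (fun i => ?_) i
      · rw [Fin.snoc_last]
        have h1 : (Fin.snoc e z : Fin (n + 1) → ℂ) '' {j | j < Fin.last n} = Set.range e := by
          ext w
          constructor
          · rintro ⟨j, hj, rfl⟩
            refine ⟨j.castLT (by simpa [Fin.lt_def] using hj), ?_⟩
            have : j = (j.castLT (by simpa [Fin.lt_def] using hj)).castSucc := by
              ext; simp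
            conv_rhs => rw [this]
            rw [Fin.snoc_castSucc]
          · rintro ⟨j, rfl⟩
            exact ⟨j.castSucc, Fin.castSucc_lt_last j, by rw [Fin.snoc_castSucc]⟩
        rw [h1]
        exact hzA
      · rw [Fin.snoc_castSucc]
        have h1 : (Fin.snoc e z : Fin (n + 1) → ℂ) '' {j | j < i.castSucc} = e '' {j | j < i} := by
          ext w
          constructor
          · rintro ⟨j, hj, rfl⟩
            have hj' : j.val < i.val := by simpa [Fin.lt_def] using hj
            refine ⟨⟨j.val, by omega⟩, ?_, ?_⟩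
            · exact hj'
            · have : j = (⟨j.val, by omega⟩ : Fin n).castSucc := by ext; simp
              conv_rhs => rw [this]
              rw [Fin.snoc_castSucc]
          · rintro ⟨j, hj, rfl⟩
            exact ⟨j.castSucc, by simpa using hj, by rw [Fin.snoc_castSucc]⟩
        rw [h1]
        exact he i
    · refine Fin.lastCases ?_ (fun i => ?_) i
      · rw [Fin.snoc_last]
        exact hz
      · rw [Fin.snoc_castSucc]
        exact hn i

theorem unit_gen (n : ℕ) : ∃ e : Fin n → ℂ, AlgebraicIndependent ℚ e ∧ ∀ i, ‖e i‖ = 1 := by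
  obtain ⟨e, he, hn⟩ := BG3_seq n
  exact ⟨e, ai_of_not_mem n e he, hn⟩

end Pool.Agent.LSF
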