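import Pool.Agent.LSF.BG7
import Pool.Agent.LSF.BG3

/-!
BG11 (IND): independence of multipliers of different periods in a generic pair.

Complete proof. Let `N = 2 d - 2 = card (VI d)`.
`gp_all`: (rank) if `W ⊆ ℂ` is a set with `XV d v m ⊆ ACL W` for some `m ∈ MM` then
`range v ⊆ ACL W` (`rankv`, `acl_le`), so `W` finite has at least `N` elements (`ai_card`).
`gp_ind`: `n ≤ N` different periods `m i ∈ MM` and `x i ∈ XV d v (m i)`: then `x` is algebraically
independent. By `ai_of_not_mem` it suffices that `x i ∉ ACL (x '' {j | j < i})`. Suppose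
`x i ∈ ACL (x '' {j | j < i})`. For every `x' ∈ XV d v (m i)` there is, by `sym` (with
`S = {m j | j ≤ i}`, `π (m j) = id` for `j < i`, `π (m i) =` the transposition of `x i` and `x'`), an
automorphism `σ` over `K0` fixing `x j`, `j < i`, with `σ (x i) = x'`. So
`x' ∈ ACL (x '' {j | j < i})` (`acl_aut`). Hence `XV d v (m i) ⊆ ACL (x '' {j | j < i})`, a set with
at most `i < N` elements: contradiction to `gp_all`.
`gp_basis`: for `n = N` in addition `v i ∈ ACL (range x)` by `ai_basis` (`x i ∈ ACL (range v)` by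
`px_acl`; here `ι = VI d`... apply `ai_basis` with the independent family `x` in
`ACL (range v)`: `card (VI d) ≤ card (Fin N)`: conclusion `v j ∈ ACL (range x)`).
`gp_pair`: two different elements `x ≠ x'` of `XV d v m` are not algebraic over each other:
if `x' ∈ ACL {x}` then by `sym` (permutations of `XV d v m` fixing `x`) all elements of `XV d v m`
are in `ACL {x}`, a set of cardinality `1 < N`: contradiction to `gp_all`. Also no element of
`XV d v m` is in `K0` (`gp_trans`).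
`gp_link_self`: if `μ ∈ XV d u m`, `x ∈ XV d v m` and `μ ∈ ACL {x}` then `μ = L.b m a x` and
`L.b m a x' ∈ ACL {x'}` for all `x' ∈ XV d v m`. Proof. `μ = L.b m a x₁` for some `x₁ ∈ XV d v m`
(`lnk'`). Suppose `x₁ ≠ x`. For any `x₂ ∈ XV d v m`, `x₂ ≠ x`, there is `σ` over `K0` fixing `a`
and `x` with `σ x₁ = x₂`; then `L.b m a x₂ = σ μ ∈ ACL {x}`. Choose two different elements
`p ≠ q` of `XV d v m`, different from `x`, and `σ` fixing `a` with `σ x = p`, `σ p = x`, `σ q = q`: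
applied to `L.b m a q ∈ ACL {x}`: `L.b m a q ∈ ACL {p}`. So `L.b m a q ∈ ACL {x} ∩ ACL {p}`; if it
is not in `K0` then by exchange `x ∈ ACL {L.b m a q} ⊆ ACL {p}` contradicting `gp_pair`. So
`L.b m a q ∈ K0`, contradicting `gp_trans` for the swapped pair (`gp_swap`). Hence `x₁ = x`. For
other `x'` apply an automorphism fixing `a` moving `x` to `x'` (`b_aut`).
`gp_back`: then also `x ∈ ACL {L.b m a x}` (exchange, as `L.b m a x ∉ K0`).
-/

namespace Pool.Agent.LSF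

open Polynomial Pool.Agent.LenSpec

theorem BG11_card (d : ℕ) : Fintype.card (VI d) = 2 * d - 2 := by
  simp only [Fintype.card_sum, Fintype.card_fin]
  omega

theorem gp_all {d : ℕ} {MM : Set ℕ} {k : ℕ} {L : LinkD k} {v u : VI d → ℂ} {a : Fin k → ℂ}
    (h : GP d MM k L v u a) (m : ℕ) (hm : m ∈ MM) (W : Finset ℂ)
    (hW : XV d v m ⊆ (ACL (W : Set ℂ) : Set ℂ)) : 2 * d - 2 ≤ W.card := by
  rw [← BG11_card d]
  exact ai_card v h.aiv W fun i => acl_le _ _ hW (h.rankv m hm i)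

theorem gp_ind {d : ℕ} {MM : Set ℕ} {k : ℕ} {L : LinkD k} {v u : VI d → ℂ} {a : Fin k → ℂ}
    (h : GP d MM k L v u a) (n : ℕ) (hn : n ≤ 2 * d - 2) (m : Fin n → ℕ)
    (hm : ∀ i, m i ∈ MM) (hi : Function.Injective m) (x : Fin n → ℂ)
    (hx : ∀ i, x i ∈ XV d v (m i)) : AlgebraicIndependent ℚ x := by
  classical
  refine ai_of_not_mem n x fun i hcon => ?_
  have hsub : XV d v (m i) ⊆ (ACL (x '' {j | j < i}) : Set ℂ) := by
    intro x' hx'
    obtain ⟨σ, -, hσ⟩ := h.sym ((Finset.univ.filter fun j => j ≤ i).image m)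
      (fun l hl => by
        obtain ⟨j, -, rfl⟩ := Finset.mem_image.1 hl
        exact hm j)
      (fun l => if l = m i then Equiv.swap (x i) x' else id)
      (fun l _ => by
        by_cases hl : l = m i
        · rw [if_pos hl, hl]
          exact Equiv.swap_bijOn_self (iff_of_true (hx i) hx')
        · rw [if_neg hl]
          exact Set.bijOn_id _)
    have h1 : σ (x i) = x' := by
      rw [hσ (m i) (Finset.mem_image_of_mem m (by simp)) (x i) (hx i), if_pos rfl,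
        Equiv.swap_apply_left]
    have h2 : ∀ j, j < i → σ (x j) = x j := by
      intro j hj
      rw [hσ (m j) (Finset.mem_image_of_mem m (by simp [hj.le])) (x j) (hx j),
        if_neg (fun he => hj.ne (hi he))]
      rfl
    have h3 := acl_aut (σ : ℂ ≃+* ℂ) _ _ hcon
    have h4 : (σ : ℂ ≃+* ℂ) '' (x '' {j | j < i}) = x '' {j | j < i} := by
      ext z
      constructor
      · rintro ⟨_, ⟨j, hj, rfl⟩, rfl⟩
        exact ⟨j, hj, (h2 j hj).symm⟩
      · rintro ⟨j, hj, rfl⟩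
        exact ⟨x j, ⟨j, hj, rfl⟩, h2 j hj⟩
    rw [h4] at h3
    have h5 : (σ : ℂ ≃+* ℂ) (x i) = x' := h1
    rw [h5] at h3
    exact h3
  have hW : XV d v (m i) ⊆
      (ACL ((((Finset.univ.filter fun j => j < i).image x : Finset ℂ)) : Set ℂ) : Set ℂ) := by
    rw [Finset.coe_image]
    simpa using hsub
  have h6 := gp_all h (m i) (hm i) _ hW
  have h7 := (Finset.card_image_le (s := Finset.univ.filter fun j => j < i) (f := x))
  have h8 : (Finset.univ.filter fun j => j < i).card = i := by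
    have h9 : (Finset.univ.filter fun j => j < i) = Finset.Iio i := by ext j; simp
    rw [h9, Fin.card_Iio]
  have := i.2
  omega

theorem BG11_mem {d : ℕ} {MM : Set ℕ} {k : ℕ} {L : LinkD k} {v u : VI d → ℂ} {a : Fin k → ℂ}
    (h : GP d MM k L v u a) (m : ℕ) (hm : m ∈ MM) (x : ℂ) (hx : x ∈ XV d v m) :
    x ∈ ACL (Set.range v) := by
  obtain ⟨z, hz, rfl⟩ := hx
  exact (px_acl d m (h.prime m hm).one_le v h.vgv.nf z hz).2

theorem gp_basis {d : ℕ} {MM : Set ℕ} {k : ℕ} {L : LinkD k} {v u : VI d → ℂ} {a : Fin k → ℂ}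
    (h : GP d MM k L v u a) (m : Fin (2 * d - 2) → ℕ)
    (hm : ∀ i, m i ∈ MM) (hi : Function.Injective m) (x : Fin (2 * d - 2) → ℂ)
    (hx : ∀ i, x i ∈ XV d v (m i)) : ∀ j, v j ∈ ACL (Set.range x) := by
  refine (ai_basis x v ?_ (gp_ind h _ le_rfl m hm hi x hx)
    fun i => BG11_mem h (m i) (hm i) (x i) (hx i)).2
  rw [BG11_card, Fintype.card_fin]

/-- symmetry for one period -/
theorem BG11_perm {d : ℕ} {MM : Set ℕ} {k : ℕ} {L : LinkD k} {v u : VI d → ℂ} {a : Fin k → ℂ}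
    (h : GP d MM k L v u a) (m : ℕ) (hm : m ∈ MM) (p q : ℂ) (hp : p ∈ XV d v m)
    (hq : q ∈ XV d v m) : ∃ σ : ℂ ≃ₐ[K0] ℂ, (∀ i, σ (a i) = a i) ∧ σ p = q ∧ σ q = p ∧
      (∀ x ∈ XV d v m, x ≠ p → x ≠ q → σ x = x) ∧
      ∀ x, L.b m a (σ x) = σ (L.b m a x) := by
  classical
  obtain ⟨σ, h1, h2⟩ := h.sym {m} (fun l hl => by rw [Finset.mem_singleton.1 hl]; exact hm)
    (fun _ => Equiv.swap p q) (fun l hl => by
      rw [Finset.mem_singleton.1 hl]
      exact Equiv.swap_bijOn_self (iff_of_true hp hq))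
  have h3 := h2 m (Finset.mem_singleton_self m)
  refine ⟨σ, h1, ?_, ?_, fun x hx hxp hxq => ?_, fun x => ?_⟩
  · rw [h3 p hp, Equiv.swap_apply_left]
  · rw [h3 q hq, Equiv.swap_apply_right]
  · rw [h3 x hx, Equiv.swap_apply_of_ne_of_ne hxp hxq]
  · have h4 := b_aut L m σ a x
    have h5 : (fun i => σ (a i)) = a := funext h1
    rw [h5] at h4
    exact h4

/-- an element of `XV` different from two given numbers -/
theorem BG11_ex {d : ℕ} {MM : Set ℕ} {k : ℕ} {L : LinkD k} {v u : VI d → ℂ} {a : Fin k → ℂ}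
    (h : GP d MM k L v u a) (m : ℕ) (hm : m ∈ MM) (p q : ℂ) :
    ∃ x ∈ XV d v m, x ≠ p ∧ x ≠ q := by
  have h1 : ({p, q} : Set ℂ).ncard < (XV d v m).ncard := by
    have h2 := h.card m hm
    have h3 : ({p, q} : Set ℂ).ncard ≤ ({q} : Set ℂ).ncard + 1 := Set.ncard_insert_le p {q}
    rw [Set.ncard_singleton] at h3
    omega
  obtain ⟨x, hx, hx'⟩ := Set.exists_mem_notMem_of_ncard_lt_ncard h1 (Set.toFinite _)
  exact ⟨x, hx, fun h2 => hx' (Or.inl h2), fun h2 => hx' (Or.inr h2)⟩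

theorem gp_trans {d : ℕ} {MM : Set ℕ} {k : ℕ} {L : LinkD k} {v u : VI d → ℂ} {a : Fin k → ℂ}
    (h : GP d MM k L v u a) (m : ℕ) (hm : m ∈ MM) (x : ℂ) (hx : x ∈ XV d v m) : x ∉ K0 := by
  intro h0
  obtain ⟨y, hy, hyx, -⟩ := BG11_ex h m hm x x
  obtain ⟨σ, -, h1, -⟩ := BG11_perm h m hm x y hx hy
  have h2 : σ x = x := σ.commutes ⟨x, h0⟩
  exact hyx (h1.symm.trans h2)

theorem BG11_aclimg (σ : ℂ ≃ₐ[K0] ℂ) (z x : ℂ) (h : z ∈ ACL {x}) : σ z ∈ ACL {σ x} := by
  have h1 := acl_aut (σ : ℂ ≃+* ℂ) _ _ h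
  rw [Set.image_singleton] at h1
  exact h1

theorem gp_pair {d : ℕ} {MM : Set ℕ} {k : ℕ} {L : LinkD k} {v u : VI d → ℂ} {a : Fin k → ℂ}
    (h : GP d MM k L v u a) (m : ℕ) (hm : m ∈ MM) (x x' : ℂ) (hx : x ∈ XV d v m)
    (hx' : x' ∈ XV d v m) (hne : x ≠ x') : x' ∉ ACL {x} := by
  intro hcon
  have hsub : XV d v m ⊆ (ACL ((({x} : Finset ℂ)) : Set ℂ) : Set ℂ) := by
    intro y hy
    rw [Finset.coe_singleton]
    by_cases hyx : y = x
    · rw [hyx]; exact acl_sub _ (Set.mem_singleton x)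
    · obtain ⟨σ, -, h1, -, h3, -⟩ := BG11_perm h m hm x' y hx' hy
      have h4 := BG11_aclimg σ x' x hcon
      rw [h1, h3 x hx hne (fun h5 => hyx h5.symm)] at h4
      exact h4
  have h1 := gp_all h m hm _ hsub
  rw [Finset.card_singleton] at h1
  have hd : d ≤ 1 := by omega
  have hemp : IsEmpty (VI d) := by
    rw [← Fintype.card_eq_zero_iff, BG11_card]
    omega
  have h2 := BG11_mem h m hm x hx
  rw [Set.range_eq_empty] at h2
  exact gp_trans h m hm x hx h2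

/-- exchange for two numbers -/
theorem BG11_exch (x y : ℂ) (h : x ∈ ACL {y}) (hx : x ∉ K0) : y ∈ ACL {x} := by
  have h1 := acl_exch ∅ x y (by rwa [insert_empty_eq]) hx
  rwa [insert_empty_eq] at h1

theorem gp_link_self {d : ℕ} {MM : Set ℕ} {k : ℕ} {L : LinkD k} {v u : VI d → ℂ} {a : Fin k → ℂ}
    (h : GP d MM k L v u a) (m : ℕ) (hm : m ∈ MM) (x μ : ℂ) (hx : x ∈ XV d v m)
    (hμ : μ ∈ XV d u m) (h1 : μ ∈ ACL {x}) :
    μ = L.b m a x ∧ ∀ x' ∈ XV d v m, L.b m a x' ∈ ACL {x'} ∧ x' ∈ ACL {L.b m a x'} := by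
  obtain ⟨x₁, hx₁⟩ : ∃ x₁, x₁ = L.swap.b m a μ := ⟨_, rfl⟩
  have hl := h.lnk' m hm μ hμ
  rw [← hx₁] at hl
  obtain ⟨-, hx₁X, -, hbx₁⟩ := hl
  have hbK : ∀ z ∈ XV d v m, L.b m a z ∉ K0 := fun z hz =>
    gp_trans (gp_swap h) m hm _ (h.lnk m hm z hz).2.1
  have hxx : x₁ = x := by
    by_contra hne
    have hall : ∀ x₂ ∈ XV d v m, x₂ ≠ x → L.b m a x₂ ∈ ACL {x} := by
      intro x₂ hx₂ hx₂x
      obtain ⟨σ, -, e1, -, e3, e4⟩ := BG11_perm h m hm x₁ x₂ hx₁X hx₂
      have e5 := BG11_aclimg σ μ x h1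
      rw [e3 x hx (fun h9 => hne h9.symm) (fun h9 => hx₂x h9.symm), ← hbx₁, ← e4, e1] at e5
      exact e5
    obtain ⟨p, hp, hpx, -⟩ := BG11_ex h m hm x x
    obtain ⟨q, hq, hqx, hqp⟩ := BG11_ex h m hm x p
    obtain ⟨σ, -, e1, -, e3, e4⟩ := BG11_perm h m hm x p hx hp
    have e5 := hall q hq hqx
    have e6 := BG11_aclimg σ _ _ e5
    rw [← e4, e3 q hq hqx hqp, e1] at e6
    have e7 := BG11_exch _ _ e5 (hbK q hq)
    have e8 : x ∈ ACL {p} := acl_le {L.b m a q} {p} (by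
      rw [Set.singleton_subset_iff]; exact e6) e7
    exact gp_pair h m hm p x hp hx hpx e8
  refine ⟨by rw [← hxx, hbx₁], fun x' hx' => ?_⟩
  have h2 : L.b m a x' ∈ ACL {x'} := by
    obtain ⟨σ, -, e1, -, -, e4⟩ := BG11_perm h m hm x x' hx hx'
    have e5 := BG11_aclimg σ μ x h1
    rw [← hbx₁, hxx, ← e4, e1] at e5
    exact e5
  exact ⟨h2, BG11_exch _ _ h2 (hbK x' hx')⟩

end Pool.Agent.LSF
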