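import Pool.Agent.LSF.BG7
import Pool.Agent.LSF.BA2

/-!
BG8: transfer of splitting.

Complete proof. Let `x i`, `i : Fin n`, be the functions of `Split d V m e`, holomorphic on
`ball e r`, `r ≤` the distance of `e` to the boundary, countable exceptional set `Z₁`.
`D i s := mev (L.D m) (As s) (x i s)`, `N i s := mev (L.N m) (As s) (x i s)` are holomorphic on
`ball e r` (polynomials in holomorphic functions). Bound: there are `r' ≤ r` and `C` with
`‖mu d (U s) m z‖ ≤ C` for all `s ∈ closedBall e r'` and all `z` with `PX d (U s) m z`: the set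
`{(s, z) | s ∈ closedBall e r', (fixF d m (U s)).eval z = 0}` is compact (`pf_bound`, closed), on it
`mu` is continuous (`mu d (U s) m z` is a product of quotients of continuous functions with
denominators `(nQ ..).eval (f^k z) ≠ 0` on the set (`fixF_root`, `rm_per`); or use
`mu = 1 - fixF'/B`, `fixF_deriv`).
For each `i` there are three cases: (a) `D i` vanishes identically near `e` (on a small ball); (b)
`N i/D i = (s - e)^j g(s)` for `s ≠ e` near `e` with `g` holomorphic and `j ≥ 0` (or `N i = 0`): then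
`N i/D i` agrees near `e`, off `e` and off the isolated zeros of `D i` (only possibly `e`), with a
holomorphic function `y i`; (c) `j < 0`, `g e ≠ 0`: `‖N i/D i‖ → ∞`, so `> C` on a punctured ball.
Take a ball `ball e r''` small enough for all `i`, and the functions `y i` for the indices of type
(b). Let `s ∈ ball e r''` off the countable set `Z ∪ Z₁ ∪ {e}`, and `PX d (U s) m z`. Then
`y := mu d (U s) m z ∈ XV d (U s) m`, by `hlink` `y = L.b m (As s) x` with `x ∈ XV d (V s) m`,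
`mev (L.D m) (As s) x ≠ 0`; `x = x i s` for some `i` by `Split`. The index `i` is not of type (a)
(`D i s ≠ 0`), not of type (c) (`‖y‖ ≤ C`), so of type (b) and `y = y i s`. So `Split d U m e`.
`mer_dich` is the trichotomy for two holomorphic functions `N`, `D` near `e`
(`AnalyticAt.exists_eventuallyEq_pow_smul_nonzero_iff` for `N` and `D`).
-/

namespace Pool.Agent.LSF

open Polynomial Pool.Agent.LenSpec Metric Filter

theorem mer_dich (N D : ℂ → ℂ) (e : ℂ) (hN : AnalyticAt ℂ N e) (hD : AnalyticAt ℂ D e) :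
    (∀ᶠ s in nhds e, D s = 0) ∨
    (∃ r > 0, ∃ y : ℂ → ℂ, DifferentiableOn ℂ y (ball e r) ∧
      ∀ s ∈ ball e r, s ≠ e → D s ≠ 0 ∧ N s / D s = y s) ∨
    (∀ C : ℝ, ∀ᶠ s in nhdsWithin e {e}ᶜ, C < ‖N s / D s‖) := by
  by_cases hD0 : ∀ᶠ s in nhds e, D s = 0
  · exact Or.inl hD0
  right
  obtain ⟨p, g₂, hg2, hg20, hDe⟩ := (hD.exists_eventuallyEq_pow_smul_nonzero_iff).2 hD0
  have hg2ne : ∀ᶠ s in nhds e, g₂ s ≠ 0 := hg2.continuousAt.eventually_ne hg20
  have hg2d : ∀ᶠ s in nhds e, AnalyticAt ℂ g₂ s := hg2.eventually_analyticAt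
  by_cases hN0 : ∀ᶠ s in nhds e, N s = 0
  · left
    obtain ⟨r, hr, h⟩ := Metric.eventually_nhds_iff_ball.1 (hDe.and (hg2ne.and hN0))
    refine ⟨r, hr, fun _ => 0, differentiableOn_const _, fun s hs hse => ?_⟩
    obtain ⟨h1, h2, h3⟩ := h s hs
    have h4 : s - e ≠ 0 := sub_ne_zero.2 hse
    refine ⟨?_, ?_⟩
    · rw [h1, smul_eq_mul]
      exact mul_ne_zero (pow_ne_zero _ h4) h2
    · rw [h3, zero_div]
  obtain ⟨q, g₁, hg1, hg10, hNe⟩ := (hN.exists_eventuallyEq_pow_smul_nonzero_iff).2 hN0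
  have hg1ne : ∀ᶠ s in nhds e, g₁ s ≠ 0 := hg1.continuousAt.eventually_ne hg10
  have hg1d : ∀ᶠ s in nhds e, AnalyticAt ℂ g₁ s := hg1.eventually_analyticAt
  rcases le_or_gt p q with hpq | hpq
  · left
    obtain ⟨r, hr, h⟩ := Metric.eventually_nhds_iff_ball.1
      (hDe.and (hg2ne.and (hNe.and (hg1d.and hg2d))))
    refine ⟨r, hr, fun s => (s - e) ^ (q - p) * g₁ s / g₂ s, ?_, fun s hs hse => ?_⟩
    · intro s hs
      obtain ⟨h1, h2, h3, h4, h5⟩ := h s hs
      have h6 : DifferentiableAt ℂ (fun s : ℂ => (s - e) ^ (q - p)) s :=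
        ((differentiableAt_id).sub_const e).pow _
      exact ((h6.mul h4.differentiableAt).div h5.differentiableAt h2).differentiableWithinAt
    · obtain ⟨h1, h2, h3, h4, h5⟩ := h s hs
      have h6 : s - e ≠ 0 := sub_ne_zero.2 hse
      have h7 : (s - e) ^ p ≠ 0 := pow_ne_zero _ h6
      refine ⟨?_, ?_⟩
      · rw [h1, smul_eq_mul]
        exact mul_ne_zero h7 h2
      · rw [h1, h3, smul_eq_mul, smul_eq_mul]
        have h8 : (s - e) ^ q = (s - e) ^ p * (s - e) ^ (q - p) := by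
          rw [← pow_add]
          congr 1
          omega
        rw [h8]
        field_simp
  · right
    intro C
    -- `D / N` tends to zero
    have hk : p - q ≠ 0 := by omega
    have hlim : Tendsto (fun s => (s - e) ^ (p - q) * (g₂ s / g₁ s)) (nhds e) (nhds 0) := by
      have h1 : ContinuousAt (fun s => (s - e) ^ (p - q) * (g₂ s / g₁ s)) e := by
        refine ContinuousAt.mul ?_ (hg2.continuousAt.div hg1.continuousAt hg10)
        exact (continuousAt_id.sub continuousAt_const).pow _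
      have h2 : (e - e) ^ (p - q) * (g₂ e / g₁ e) = 0 := by
        rw [sub_self, zero_pow hk, zero_mul]
      have h3 : Tendsto (fun s => (s - e) ^ (p - q) * (g₂ s / g₁ s)) (nhds e)
        (nhds ((e - e) ^ (p - q) * (g₂ e / g₁ e))) := h1
      rw [h2] at h3
      exact h3
    have hev : ∀ᶠ s in nhds e, ‖(s - e) ^ (p - q) * (g₂ s / g₁ s)‖ < 1 / (|C| + 1) := by
      have h1 : (0 : ℝ) < 1 / (|C| + 1) := by positivity
      have h2 := hlim.norm
      rw [norm_zero] at h2
      exact h2.eventually (gt_mem_nhds h1)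
    have h3 : ∀ᶠ s in nhds e, s ∈ ({e}ᶜ : Set ℂ) → C < ‖N s / D s‖ := by
      filter_upwards [hev, hDe, hNe, hg1ne, hg2ne] with s h1 h2 h3 h4 h5 hs
      have h6 : s - e ≠ 0 := sub_ne_zero.2 hs
      have h7 : N s / D s = ((s - e) ^ (p - q) * (g₂ s / g₁ s))⁻¹ := by
        rw [h2, h3, smul_eq_mul, smul_eq_mul]
        have h8 : (s - e) ^ p = (s - e) ^ q * (s - e) ^ (p - q) := by
          rw [← pow_add]
          congr 1
          omega
        have h9 : (s - e) ^ q ≠ 0 := pow_ne_zero _ h6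
        have h10 : (s - e) ^ (p - q) ≠ 0 := pow_ne_zero _ h6
        rw [h8]
        field_simp
      have h11 : (s - e) ^ (p - q) * (g₂ s / g₁ s) ≠ 0 :=
        mul_ne_zero (pow_ne_zero _ h6) (div_ne_zero h5 h4)
      have h12 : 0 < ‖(s - e) ^ (p - q) * (g₂ s / g₁ s)‖ := norm_pos_iff.2 h11
      rw [h7, norm_inv]
      have h13 : |C| + 1 < ‖(s - e) ^ (p - q) * (g₂ s / g₁ s)‖⁻¹ := by
        rw [lt_inv_comm₀ (by positivity) h12, ← one_div]
        exact h1
      have h14 : C ≤ |C| := le_abs_self C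
      linarith
    exact eventually_nhdsWithin_iff.2 h3

theorem BG8_mev {k : ℕ} (F : MvPolynomial (Option (Fin k)) K0) (As : Fin k → ℂ → ℂ) (x : ℂ → ℂ)
    (V : Set ℂ) (hA : ∀ i, DifferentiableOn ℂ (As i) V) (hx : DifferentiableOn ℂ x V) :
    DifferentiableOn ℂ (fun s => mev F (fun i => As i s) (x s)) V := by
  unfold mev
  induction F using MvPolynomial.induction_on with
  | C a =>
    have h : (fun s : ℂ => MvPolynomial.aeval
        (fun o : Option (Fin k) => o.elim (x s) (fun i => As i s)) (MvPolynomial.C a)) =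
        fun _ => algebraMap K0 ℂ a := by
      funext s
      rw [MvPolynomial.aeval_C]
    rw [h]
    exact differentiableOn_const _
  | add p q hp hq =>
    have h : (fun s : ℂ => MvPolynomial.aeval
        (fun o : Option (Fin k) => o.elim (x s) (fun i => As i s)) (p + q)) =
        fun s => MvPolynomial.aeval
        (fun o : Option (Fin k) => o.elim (x s) (fun i => As i s)) p + MvPolynomial.aeval
        (fun o : Option (Fin k) => o.elim (x s) (fun i => As i s)) q := by
      funext s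
      rw [map_add]
    rw [h]
    exact hp.fun_add hq
  | mul_X p o hp =>
    have h : (fun s : ℂ => MvPolynomial.aeval
        (fun o : Option (Fin k) => o.elim (x s) (fun i => As i s)) (p * MvPolynomial.X o)) =
        fun s => MvPolynomial.aeval
        (fun o : Option (Fin k) => o.elim (x s) (fun i => As i s)) p *
          (o.elim (x s) (fun i => As i s)) := by
      funext s
      rw [map_mul, MvPolynomial.aeval_X]
    rw [h]
    refine hp.fun_mul ?_
    cases o with
    | none => exact hx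
    | some i => exact hA i

/-- the multipliers are bounded on compact sets -/
theorem BG8_bound (d : ℕ) (hd : 2 ≤ d) (m : ℕ) (hm : 1 ≤ m) (U : ℂ → VI d → ℂ) (O K : Set ℂ)
    (hU : DifferentiableOn ℂ U O) (hnf : ∀ s ∈ O, Nf d (U s)) (hK : IsCompact K) (hKO : K ⊆ O) :
    ∃ C : ℝ, ∀ s ∈ K, ∀ z, PX d (U s) m z → ‖mu d (U s) m z‖ ≤ C := by
  obtain ⟨hpf, hco⟩ := fixF_pf d m hd hm O U hU
  obtain ⟨C₀, hC₀⟩ := pf_bound hpf K hK hKO
  obtain ⟨hc1, hc2⟩ := pf_cont hpf
  -- continuity of the denominator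
  have hB : ContinuousOn (fun p : ℂ × ℂ =>
      (iter d (nP d (U p.1)) (nQ d (U p.1)) m).2.eval p.2) (O ×ˢ Set.univ) := by
    have h1 : (fun p : ℂ × ℂ => (iter d (nP d (U p.1)) (nQ d (U p.1)) m).2.eval p.2) =
        fun p : ℂ × ℂ => ∑ i ∈ Finset.range (d ^ m + 1),
          (iter d (nP d (U p.1)) (nQ d (U p.1)) m).2.coeff i * p.2 ^ i := by
      funext p
      exact eval_eq_sum_range' (fixF_monic d m hd hm (U p.1)).2.2 p.2
    rw [h1]
    refine continuousOn_finsetSum _ fun i _ => ?_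
    refine ContinuousOn.mul ?_ ((continuous_snd.pow i).continuousOn)
    exact (hco i).continuousOn.comp continuous_fst.continuousOn (fun p hp => hp.1)
  obtain ⟨S, hS⟩ : ∃ S : Set (ℂ × ℂ), S = (K ×ˢ closedBall (0 : ℂ) C₀) ∩
    (fun p : ℂ × ℂ => (fixF d m (U p.1)).eval p.2) ⁻¹' {0} := ⟨_, rfl⟩
  have hsub : K ×ˢ closedBall (0 : ℂ) C₀ ⊆ O ×ˢ Set.univ :=
    Set.prod_mono hKO (Set.subset_univ _)
  have hKc : IsCompact (K ×ˢ closedBall (0 : ℂ) C₀) := hK.prod (isCompact_closedBall _ _)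
  have hScl : IsClosed S := by
    rw [hS]
    exact (hc1.mono hsub).preimage_isClosed_of_isClosed hKc.isClosed isClosed_singleton
  have hScp : IsCompact S := hKc.of_isClosed_subset hScl (by rw [hS]; exact Set.inter_subset_left)
  have hSsub : S ⊆ O ×ˢ Set.univ := by
    rw [hS]
    exact Set.inter_subset_left.trans hsub
  have hmem : ∀ p ∈ S, (fv d (U p.1))^[m] p.2 = p.2 := by
    intro p hp
    rw [hS] at hp
    exact (fixF_root d m hm (U p.1) (hnf _ (hKO hp.1.1)) p.2).1 hp.2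
  have hBne : ∀ p ∈ S, (iter d (nP d (U p.1)) (nQ d (U p.1)) m).2.eval p.2 ≠ 0 := by
    intro p hp
    have h1 := hSsub hp
    exact (fixF_deriv d m hm (U p.1) (hnf _ h1.1) p.2 (hmem p hp)).1
  have hcont : ContinuousOn (fun p : ℂ × ℂ => 1 - (derivative (fixF d m (U p.1))).eval p.2 /
      (iter d (nP d (U p.1)) (nQ d (U p.1)) m).2.eval p.2) S := by
    refine continuousOn_const.sub (ContinuousOn.div (hc2.mono hSsub) (hB.mono hSsub) hBne)
  obtain ⟨C, hC⟩ := hScp.exists_bound_of_continuousOn hcont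
  refine ⟨C, fun s hs z hz => ?_⟩
  have hzz : (fv d (U s))^[m] z = z := hz.1.2
  have h0 : (fixF d m (U s)).eval z = 0 := (fixF_root d m hm (U s) (hnf _ (hKO hs)) z).2 hzz
  have h1 : ((s, z) : ℂ × ℂ) ∈ S := by
    rw [hS]
    refine ⟨⟨hs, ?_⟩, h0⟩
    rw [mem_closedBall, dist_zero_right]
    exact hC₀ s hs z h0
  have h2 := hC (s, z) h1
  have h3 := hBne (s, z) h1
  have h4 := (fixF_deriv d m hm (U s) (hnf _ (hKO hs)) z hzz).2
  have h5 : 1 - (derivative (fixF d m (U s))).eval z /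
      (iter d (nP d (U s)) (nQ d (U s)) m).2.eval z = mu d (U s) m z := by
    rw [h4, mul_div_cancel_left₀ _ h3]
    ring
  rw [← h5]
  exact h2

theorem split_transfer (d : ℕ) (MM : Set ℕ) (k : ℕ) (L : LinkD k) (m : ℕ) (hm : m.Prime)
    (c : ℂ) (R : ℝ) (V U : ℂ → VI d → ℂ) (As : Fin k → ℂ → ℂ) (hV : Fam d MM c R V)
    (hU : Fam d MM c R U) (hA : ∀ i, DifferentiableOn ℂ (As i) (ball c R)) (Z : Set ℂ)
    (hZ : Z.Countable)
    (hlink : ∀ s ∈ ball c R, s ∉ Z → ∀ y ∈ XV d (U s) m, ∃ x ∈ XV d (V s) m,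
      mev (L.D m) (fun i => As i s) x ≠ 0 ∧ L.b m (fun i => As i s) x = y)
    (e : ℂ) (he : e ∈ ball c R) (hsp : Split d V m e) : Split d U m e := by
  obtain ⟨r, hr, k', x, hx, Z₁, hZ₁, hsp⟩ := hsp
  have hd : 2 ≤ d := (hU.nf e he).two_le
  obtain ⟨r₀, hr₀, hr₀s⟩ := Metric.isOpen_iff.1 isOpen_ball e he
  obtain ⟨r₁, hr₁0, hr₁r, hr₁r₀⟩ : ∃ r₁ > 0, r₁ < r ∧ r₁ < r₀ := by
    refine ⟨min r r₀ / 2, ?_, ?_, ?_⟩
    · have := lt_min hr hr₀
      linarith
    · have h1 := min_le_left r r₀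
      have h2 := lt_min hr hr₀
      linarith
    · have h1 := min_le_right r r₀
      have h2 := lt_min hr hr₀
      linarith
  have hcb : closedBall e r₁ ⊆ ball c R := (closedBall_subset_ball hr₁r₀).trans hr₀s
  obtain ⟨C, hC⟩ := BG8_bound d hd m hm.one_lt.le U (ball c R) (closedBall e r₁) hU.diff hU.nf
    (isCompact_closedBall _ _) hcb
  have hbr : ball e r₁ ⊆ ball e r := ball_subset_ball hr₁r.le
  have hbc : ball e r₁ ⊆ ball c R := ball_subset_closedBall.trans hcb
  have hNan : ∀ (F : MvPolynomial (Option (Fin k)) K0) (i : Fin k'),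
      AnalyticAt ℂ (fun s => mev F (fun j => As j s) (x i s)) e := by
    intro F i
    have h1 := BG8_mev F As (x i) (ball e r₁) (fun j => (hA j).mono hbc) ((hx i).mono hbr)
    exact h1.analyticAt (isOpen_ball.mem_nhds (mem_ball_self hr₁0))
  have key : ∀ i : Fin k', ∃ y : ℂ → ℂ, (∀ᶠ s in nhds e, DifferentiableAt ℂ y s) ∧
      ∀ᶠ s in nhds e, s ≠ e → (mev (L.D m) (fun j => As j s) (x i s) = 0 ∨
        C < ‖mev (L.N m) (fun j => As j s) (x i s) / mev (L.D m) (fun j => As j s) (x i s)‖ ∨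
        mev (L.N m) (fun j => As j s) (x i s) / mev (L.D m) (fun j => As j s) (x i s) = y s) := by
    intro i
    rcases mer_dich _ _ e (hNan (L.N m) i) (hNan (L.D m) i) with h | ⟨ρ, hρ, y, hy1, hy2⟩ | h
    · refine ⟨fun _ => 0, Eventually.of_forall fun s => differentiableAt_const _, ?_⟩
      filter_upwards [h] with s hs _
      exact Or.inl hs
    · refine ⟨y, ?_, ?_⟩
      · filter_upwards [ball_mem_nhds e hρ] with s hs
        exact hy1.differentiableAt (isOpen_ball.mem_nhds hs)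
      · filter_upwards [ball_mem_nhds e hρ] with s hs hse
        exact Or.inr (Or.inr (hy2 s hs hse).2)
    · refine ⟨fun _ => 0, Eventually.of_forall fun s => differentiableAt_const _, ?_⟩
      have h1 := eventually_nhdsWithin_iff.1 (h C)
      filter_upwards [h1] with s hs hse
      exact Or.inr (Or.inl (hs hse))
  choose y hy1 hy2 using key
  have e1 := eventually_all.2 hy1
  have e2 := eventually_all.2 hy2
  obtain ⟨ρ, hρ, hρ2⟩ := Metric.eventually_nhds_iff_ball.1
    (e1.and (e2.and (ball_mem_nhds e hr₁0)))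
  refine ⟨ρ, hρ, k', y, fun i s hs => ((hρ2 s hs).1 i).differentiableWithinAt,
    Z ∪ Z₁ ∪ {e}, (hZ.union hZ₁).union (Set.countable_singleton e), ?_⟩
  intro s hs hsZ z hz
  obtain ⟨-, h2, h3⟩ := hρ2 s hs
  have hse : s ≠ e := fun h => hsZ (Or.inr h)
  have hsZ0 : s ∉ Z := fun h => hsZ (Or.inl (Or.inl h))
  have hsZ1 : s ∉ Z₁ := fun h => hsZ (Or.inl (Or.inr h))
  have hmem : mu d (U s) m z ∈ XV d (U s) m := ⟨z, hz, rfl⟩
  obtain ⟨x', hx', hD, hb⟩ := hlink s (hbc h3) hsZ0 _ hmem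
  obtain ⟨z', hz', rfl⟩ := hx'
  obtain ⟨i, hi⟩ := hsp s (hbr h3) hsZ1 z' hz'
  have hi' : mult (nP d (V s)) (nQ d (V s)) m z' = x i s := hi
  rw [hi'] at hD hb
  refine ⟨i, ?_⟩
  unfold LinkD.b at hb
  rcases h2 i hse with h4 | h4 | h4
  · exact absurd h4 hD
  · rw [hb] at h4
    exact absurd (hC s (ball_subset_closedBall h3) z hz) (not_le.2 h4)
  · rw [← h4, hb]

end Pool.Agent.LSF
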