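import Pool.Agent.LSF.BG4
import Pool.Agent.LSF.BG8

/-!
BG9: slices through generic linked pairs.

`GSl`: a slice over `A` with parameter near `t`; `V`, `U`, `As` are the parameters of the two maps
and the tuple, `Y` further algebraic functions; at every `s ∉ A` they are conjugate over `A` to
the values at `t`.

Complete proof of `mk_slice`. `v i`, `u i`, `a i` and `y j` are in `ACL (insert t A)` (`hv`, and
`vu`, `av` with `acl_le`). `slice_ext` applied to the tuple `(v, u, a, y)` (index `Fin n'` via an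
equivalence with `VI d ⊕ VI d ⊕ Fin k ⊕ Fin n`) gives `R₁` and holomorphic functions, and for
`s ∉ A` an automorphism `σ` over `A`. `A ≥ K0` (`hK`), so `σ` restricts to an automorphism over
`K0` (`AlgEquiv.restrictScalars` needs the tower; or build the `K0`-algebra automorphism by hand),
hence `GP` at `s` (`gp_aut`), `VG` at `s` for both (`GP.vgv`, `GP.vgu`).
`Nf d (V s)` for all `s` near `t`: `Nf d (V s)` is an open condition at `t`: `IsCoprime` of
`nP, nQ` is equivalent to the nonvanishing of a resultant, a polynomial in the parameters; or: on a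
small closed ball the polynomials `nP d (V s)`, `nQ d (V s)` have no common root because the set of
`(s, z)` with both zero is closed, and roots of the monic `nQ` are bounded, so if common roots
existed for `s_n → t` a limit point would be a common root at `t`; the other two conditions are
open by continuity. So with a smaller `R ≤ R₁`, `Fam d MM t R V` and `Fam d MM t R U`, exceptional
set `(A : Set ℂ)`, countable. `Slice.link` by `split_transfer` in both directions (`L` and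
`L.swap`, `hlink` from `GP.lnk'`, `GP.lnk` at `s`: for `y ∈ XV d (U s) m` take
`x := L.swap.b m _ y`).
-/

namespace Pool.Agent.LSF

open Polynomial Pool.Agent.LenSpec Metric Filter

/-- a slice through a generic linked pair -/
structure GSl (d : ℕ) (MM : Set ℕ) (k : ℕ) (L : LinkD k) (A : IntermediateField ℚ ℂ) (t : ℂ)
    (R : ℝ) (v u : VI d → ℂ) (a : Fin k → ℂ) (n : ℕ) (y : Fin n → ℂ)
    (V U : ℂ → VI d → ℂ) (As : Fin k → ℂ → ℂ) (Y : Fin n → ℂ → ℂ) : Prop where
  slice : Slice d MM t R V U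
  dA : ∀ i, DifferentiableOn ℂ (As i) (ball t R)
  dY : ∀ i, DifferentiableOn ℂ (Y i) (ball t R)
  V0 : V t = v
  U0 : U t = u
  A0 : ∀ i, As i t = a i
  Y0 : ∀ i, Y i t = y i
  conj : ∀ s ∈ ball t R, s ∉ A → ∃ σ : ℂ ≃ₐ[A] ℂ, σ t = s ∧ (∀ i, σ (v i) = V s i) ∧
    (∀ i, σ (u i) = U s i) ∧ (∀ i, σ (a i) = As i s) ∧ ∀ i, σ (y i) = Y i s
  gp : ∀ s ∈ ball t R, s ∉ A → GP d MM k L (V s) (U s) (fun i => As i s)

theorem bg9_dense (A : Set ℂ) (hA : A.Countable) (t : ℂ) (r : ℝ) (F G : ℂ → ℂ)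
    (hF : ContinuousOn F (ball t r)) (hG : ContinuousOn G (ball t r))
    (h : ∀ s ∈ ball t r, s ∉ A → F s = G s) : ∀ s ∈ ball t r, F s = G s := by
  intro s hs
  by_contra hne
  have hcF : ContinuousAt F s := hF.continuousAt (isOpen_ball.mem_nhds hs)
  have hcG : ContinuousAt G s := hG.continuousAt (isOpen_ball.mem_nhds hs)
  have h1 : ∀ᶠ w in nhds s, F w - G w ≠ 0 :=
    (hcF.sub hcG).eventually_ne (sub_ne_zero.2 hne)
  have h2 : ∀ᶠ w in nhds s, F w - G w ≠ 0 ∧ w ∈ ball t r := h1.and (isOpen_ball.mem_nhds hs)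
  obtain ⟨O, hO, hOo, hsO⟩ := _root_.mem_nhds_iff.mp h2
  obtain ⟨w, hwO, hwA⟩ := (hA.dense_compl ℂ).inter_open_nonempty O hOo ⟨s, hsO⟩
  have h3 := hO hwO
  exact h3.1 (sub_eq_zero.2 (h w h3.2 hwA))

theorem bg9_nf (d : ℕ) (t : ℂ) (R : ℝ) (hR : 0 < R) (V : ℂ → VI d → ℂ)
    (hV : DifferentiableOn ℂ V (ball t R)) (h : Nf d (V t)) :
    ∃ r > 0, r ≤ R ∧ ∀ s ∈ ball t r, Nf d (V s) := by
  have hd := h.two_le
  have hVi : ∀ i, ContinuousAt (fun s => V s i) t := fun i =>
    (((differentiableOn_pi.mp hV) i).differentiableAt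
      (isOpen_ball.mem_nhds (mem_ball_self hR))).continuousAt
  -- coefficients of the numerator
  have hcoef : ∀ m, ContinuousAt (fun s => (nP d (V s)).coeff m) t := by
    intro m
    have h1 : (fun s => (nP d (V s)).coeff m) = fun s => ∑ i : Fin (d - 1),
        V s (Sum.inl i) * (X ^ (i.val + 1) : ℂ[X]).coeff m := by
      funext s
      rw [nP, finsetSum_coeff]
      apply Finset.sum_congr rfl
      intro i _
      rw [coeff_C_mul]
    rw [h1]
    exact tendsto_finsetSum _ (fun i _ => (hVi (Sum.inl i)).mul continuousAt_const)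
  have hQcoef : ∀ m, DifferentiableOn ℂ (fun s => (nQ d (V s)).coeff m) (ball t R) := by
    intro m
    have h1 : (fun s => (nQ d (V s)).coeff m) = fun s => (1 : ℂ[X]).coeff m + (∑ i : Fin (d - 1),
        V s (Sum.inr i) * (X ^ (i.val + 1) : ℂ[X]).coeff m) + (X ^ d : ℂ[X]).coeff m := by
      funext s
      rw [nQ, nR, coeff_add, coeff_add, finsetSum_coeff]
      congr 2
      apply Finset.sum_congr rfl
      intro i _
      rw [coeff_C_mul]
    rw [h1]
    exact ((differentiableOn_const _).add (DifferentiableOn.fun_sum fun i _ =>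
      ((differentiableOn_pi.mp hV) (Sum.inr i)).mul_const _)).add (differentiableOn_const _)
  have hpf : PF (ball t R) d (fun s => nQ d (V s)) :=
    ⟨fun s _ => (nQ_monic d hd (V s)).1, fun s _ => (nQ_monic d hd (V s)).2, hQcoef⟩
  have hK : closedBall t (R / 2) ⊆ ball t R := closedBall_subset_ball (by linarith)
  obtain ⟨C, hC⟩ := pf_bound hpf (closedBall t (R / 2)) (isCompact_closedBall _ _) hK
  have hcop : ∀ᶠ s in nhds t, ∀ w ∈ closedBall (0 : ℂ) C,
      ¬ ((nP d (V s)).eval w = 0 ∧ (nQ d (V s)).eval w = 0) := by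
    apply (isCompact_closedBall (0 : ℂ) C).eventually_forall_of_forall_eventually
    intro w _
    have hne := (isCoprime_iff_aeval_ne_zero_of_isAlgClosed (k := ℂ) ℂ (nP d (V t)) (nQ d (V t))).1 h.cop w
    rw [coe_aeval_eq_eval] at hne
    have hcP : ContinuousAt (fun p : ℂ × ℂ => (nP d (V p.1)).eval p.2) (t, w) := by
      simp only [bf1_nP]
      apply tendsto_finsetSum
      intro i _
      have h1 : ContinuousAt (fun p : ℂ × ℂ => V p.1 (Sum.inl i)) (t, w) :=
        ContinuousAt.comp (f := fun p : ℂ × ℂ => p.1) (g := fun s => V s (Sum.inl i))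
          (hVi (Sum.inl i)) continuousAt_fst
      exact h1.mul (continuousAt_snd.pow _)
    have hcQ : ContinuousAt (fun p : ℂ × ℂ => (nQ d (V p.1)).eval p.2) (t, w) :=
      (pf_cont hpf).1.continuousAt
        ((isOpen_ball.prod isOpen_univ).mem_nhds ⟨mem_ball_self hR, Set.mem_univ _⟩)
    rcases hne with h1 | h1
    · exact (hcP.eventually_ne h1).mono fun p hp hc => hp hc.1
    · exact (hcQ.eventually_ne h1).mono fun p hp hc => hp hc.2
  have h1 : ∀ᶠ s in nhds t, (nP d (V s)).coeff 1 ≠ 1 := (hcoef 1).eventually_ne h.one_ne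
  have h2 : ∀ᶠ s in nhds t, (nP d (V s)).coeff (d - 1) ≠ 0 := (hcoef (d - 1)).eventually_ne h.top_ne
  obtain ⟨r, hr, hball⟩ := Metric.eventually_nhds_iff_ball.mp (hcop.and (h1.and h2))
  refine ⟨min r (R / 2), lt_min hr (by linarith), (min_le_right _ _).trans (by linarith), ?_⟩
  intro s hs
  obtain ⟨g1, g2, g3⟩ := hball s (ball_subset_ball (min_le_left _ _) hs)
  refine ⟨hd, ?_, g2, g3⟩
  rw [isCoprime_iff_aeval_ne_zero_of_isAlgClosed (k := ℂ) ℂ]
  intro w
  rw [coe_aeval_eq_eval]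
  by_contra hcon
  rw [not_or, not_not, not_not] at hcon
  have hs2 : s ∈ closedBall t (R / 2) :=
    ball_subset_closedBall (ball_subset_ball (min_le_right _ _) hs)
  have h3 := hC s hs2 w hcon.2
  exact g1 w (by rw [mem_closedBall_zero_iff]; exact h3) hcon

theorem bg9_restrict (A : IntermediateField ℚ ℂ) (hK : K0 ≤ A) (σ : ℂ ≃ₐ[A] ℂ) :
    ∃ τ : ℂ ≃ₐ[K0] ℂ, ∀ x, τ x = σ x := by
  refine ⟨AlgEquiv.ofRingEquiv (f := (σ : ℂ ≃+* ℂ)) ?_, fun x => rfl⟩
  intro x
  have h1 := σ.commutes ⟨(x : ℂ), hK x.2⟩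
  exact h1

theorem mk_slice (d : ℕ) (MM : Set ℕ) (k : ℕ) (L : LinkD k) (v u : VI d → ℂ) (a : Fin k → ℂ)
    (h : GP d MM k L v u a) (A : IntermediateField ℚ ℂ) (hA : (A : Set ℂ).Countable)
    (hc : IsAlgClosed A) (hK : K0 ≤ A) (t : ℂ) (ht : t ∉ A)
    (hv : ∀ i, v i ∈ ACL (insert t (A : Set ℂ))) (n : ℕ) (y : Fin n → ℂ)
    (hy : ∀ i, y i ∈ ACL (Set.range v)) :
    ∃ R > 0, ∃ (V U : ℂ → VI d → ℂ) (As : Fin k → ℂ → ℂ) (Y : Fin n → ℂ → ℂ),
      GSl d MM k L A t R v u a n y V U As Y := by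
  classical
  have hle : ACL (Set.range v) ≤ ACL (insert t (A : Set ℂ)) := by
    apply acl_le
    rintro _ ⟨i, rfl⟩
    exact hv i
  let I := (VI d ⊕ VI d) ⊕ (Fin k ⊕ Fin n)
  let e : I ≃ Fin (Fintype.card I) := Fintype.equivFin I
  let w : I → ℂ := Sum.elim (Sum.elim v u) (Sum.elim a y)
  have hw : ∀ i, w i ∈ ACL (insert t (A : Set ℂ)) := by
    rintro ((i | i) | (i | i))
    · exact hv i
    · exact hle (h.vu i)
    · exact hle (h.av i)
    · exact hle (hy i)
  obtain ⟨R₁, hR₁, Yf, hYd, hYt, hYs⟩ := slice_ext A hA hc t ht (Fintype.card I)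
    (fun j => w (e.symm j)) (fun j => hw _)
  let W : I → ℂ → ℂ := fun i => Yf (e i)
  have hWd : ∀ i, DifferentiableOn ℂ (W i) (ball t R₁) := fun i => hYd (e i)
  have hWt : ∀ i, W i t = w i := by
    intro i
    have h1 := hYt (e i)
    rw [Equiv.symm_apply_apply] at h1
    exact h1
  have hWs : ∀ s ∈ ball t R₁, s ∉ A → ∃ σ : ℂ ≃ₐ[A] ℂ, σ t = s ∧ ∀ i, σ (w i) = W i s := by
    intro s hs hsA
    obtain ⟨σ, h1, h2⟩ := hYs s hs hsA
    refine ⟨σ, h1, fun i => ?_⟩
    have h3 := h2 (e i)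
    rw [Equiv.symm_apply_apply] at h3
    exact h3
  let V : ℂ → VI d → ℂ := fun s i => W (Sum.inl (Sum.inl i)) s
  let U : ℂ → VI d → ℂ := fun s i => W (Sum.inl (Sum.inr i)) s
  let As : Fin k → ℂ → ℂ := fun i => W (Sum.inr (Sum.inl i))
  let Y : Fin n → ℂ → ℂ := fun i => W (Sum.inr (Sum.inr i))
  have hVd : DifferentiableOn ℂ V (ball t R₁) := differentiableOn_pi.mpr fun i => hWd _
  have hUd : DifferentiableOn ℂ U (ball t R₁) := differentiableOn_pi.mpr fun i => hWd _
  have hV0 : V t = v := funext fun i => hWt _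
  have hU0 : U t = u := funext fun i => hWt _
  have hgp : ∀ s ∈ ball t R₁, s ∉ A → GP d MM k L (V s) (U s) (fun i => As i s) := by
    intro s hs hsA
    obtain ⟨σ, -, hσ⟩ := hWs s hs hsA
    obtain ⟨τ, hτ⟩ := bg9_restrict A hK σ
    have h1 := gp_aut h τ
    have e1 : (fun i => τ (v i)) = V s := funext fun i => by
      rw [hτ]
      exact hσ (Sum.inl (Sum.inl i))
    have e2 : (fun i => τ (u i)) = U s := funext fun i => by
      rw [hτ]
      exact hσ (Sum.inl (Sum.inr i))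
    have e3 : (fun i => τ (a i)) = fun i => As i s := funext fun i => by
      rw [hτ]
      exact hσ (Sum.inr (Sum.inl i))
    rw [e1, e2, e3] at h1
    exact h1
  obtain ⟨r1, hr1, hr1R, hnf1⟩ := bg9_nf d t R₁ hR₁ V hVd (by rw [hV0]; exact h.vgv.nf)
  obtain ⟨r2, hr2, hr2R, hnf2⟩ := bg9_nf d t R₁ hR₁ U hUd (by rw [hU0]; exact h.vgu.nf)
  have hs1 : ball t (min r1 r2) ⊆ ball t r1 := ball_subset_ball (min_le_left _ _)
  have hs2 : ball t (min r1 r2) ⊆ ball t r2 := ball_subset_ball (min_le_right _ _)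
  have hsR : ball t (min r1 r2) ⊆ ball t R₁ :=
    ball_subset_ball ((min_le_left _ _).trans hr1R)
  have hR : 0 < min r1 r2 := lt_min hr1 hr2
  have hfV : Fam d MM t (min r1 r2) V := ⟨hR, hVd.mono hsR, fun s hs => hnf1 s (hs1 hs),
    (A : Set ℂ), hA, fun s hs hsA => (hgp s (hsR hs) hsA).vgv⟩
  have hfU : Fam d MM t (min r1 r2) U := ⟨hR, hUd.mono hsR, fun s hs => hnf2 s (hs2 hs),
    (A : Set ℂ), hA, fun s hs hsA => (hgp s (hsR hs) hsA).vgu⟩
  have hprime : ∀ m ∈ MM, m.Prime := h.prime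
  refine ⟨min r1 r2, hR, V, U, As, Y, ⟨⟨hfV, hfU, ?_⟩, fun i => (hWd _).mono hsR,
    fun i => (hWd _).mono hsR, hV0, hU0, fun i => hWt _, fun i => hWt _, ?_,
    fun s hs hsA => hgp s (hsR hs) hsA⟩⟩
  · intro m hm e he
    constructor
    · intro hsp
      refine split_transfer d MM k L m (hprime m hm) t (min r1 r2) V U As hfV hfU
        (fun i => (hWd _).mono hsR) (A : Set ℂ) hA ?_ e he hsp
      intro s hs hsA y hy
      obtain ⟨-, g2, g3, g4⟩ := (hgp s (hsR hs) hsA).lnk' m hm y hy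
      exact ⟨_, g2, g3, g4⟩
    · intro hsp
      refine split_transfer d MM k L.swap m (hprime m hm) t (min r1 r2) U V As hfU hfV
        (fun i => (hWd _).mono hsR) (A : Set ℂ) hA ?_ e he hsp
      intro s hs hsA x hx
      obtain ⟨-, g2, g3, g4⟩ := (hgp s (hsR hs) hsA).lnk m hm x hx
      exact ⟨_, g2, g3, g4⟩
  · intro s hs hsA
    obtain ⟨σ, h1, h2⟩ := hWs s (hsR hs) hsA
    exact ⟨σ, h1, fun i => h2 (Sum.inl (Sum.inl i)), fun i => h2 (Sum.inl (Sum.inr i)),
      fun i => h2 (Sum.inr (Sum.inl i)), fun i => h2 (Sum.inr (Sum.inr i))⟩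

end Pool.Agent.LSF
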