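import Pool.Agent.LSF.BFDefs

/-!
Definitions for the algebraic side: algebraic closure of a set of complex numbers, curves,
generic linked pairs.
-/

namespace Pool.Agent.LSF

open Polynomial Pool.Agent.LenSpec Metric

/-- the field of the complex numbers algebraic over `ℚ(S)` -/
noncomputable def ACL (S : Set ℂ) : IntermediateField ℚ ℂ :=
  (algebraicClosure (IntermediateField.adjoin ℚ S) ℂ).restrictScalars ℚ

/-- the field of all algebraic numbers -/
noncomputable abbrev K0 : IntermediateField ℚ ℂ := ACL ∅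

/-- value of a polynomial in two variables: the inner variable is `x`, the outer one is `y` -/
noncomputable def ev2 {k : Type} [Field k] [Algebra k ℂ] (Φ : Polynomial (Polynomial k))
    (x y : ℂ) : ℂ :=
  (Φ.map (Polynomial.eval₂RingHom (algebraMap k ℂ) x)).eval y

/-- value of a polynomial in the variables `some i` and `none` -/
noncomputable def mev {k : ℕ} (F : MvPolynomial (Option (Fin k)) K0) (a : Fin k → ℂ) (x : ℂ) : ℂ :=
  MvPolynomial.aeval (fun o : Option (Fin k) => o.elim x a) F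

/-- numerators and denominators of the linking maps and of their inverses, for every period -/
structure LinkD (k : ℕ) where
  /-- numerator -/
  N : ℕ → MvPolynomial (Option (Fin k)) K0
  /-- denominator -/
  D : ℕ → MvPolynomial (Option (Fin k)) K0
  /-- numerator of the inverse -/
  N' : ℕ → MvPolynomial (Option (Fin k)) K0
  /-- denominator of the inverse -/
  D' : ℕ → MvPolynomial (Option (Fin k)) K0

/-- the data of the inverse maps -/
def LinkD.swap {k : ℕ} (L : LinkD k) : LinkD k where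
  N := L.N'
  D := L.D'
  N' := L.N
  D' := L.D

/-- the linking map -/
noncomputable def LinkD.b {k : ℕ} (L : LinkD k) (m : ℕ) (a : Fin k → ℂ) (x : ℂ) : ℂ :=
  mev (L.N m) a x / mev (L.D m) a x

/-- a generic linked pair `(v, u)`; `a` is a tuple that contains the parameters `v` and `u` -/
structure GP (d : ℕ) (MM : Set ℕ) (k : ℕ) (L : LinkD k) (v u : VI d → ℂ) (a : Fin k → ℂ) :
    Prop where
  aiv : AlgebraicIndependent ℚ v
  aiu : AlgebraicIndependent ℚ u
  vu : ∀ i, u i ∈ ACL (Set.range v)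
  uv : ∀ i, v i ∈ ACL (Set.range u)
  av : ∀ i, a i ∈ ACL (Set.range v)
  va : ∀ i, v i ∈ Set.range a
  ua : ∀ i, u i ∈ Set.range a
  vgv : VG d MM v
  vgu : VG d MM u
  lnk : ∀ m ∈ MM, ∀ x ∈ XV d v m, mev (L.D m) a x ≠ 0 ∧ L.b m a x ∈ XV d u m ∧
    mev (L.D' m) a (L.b m a x) ≠ 0 ∧ L.swap.b m a (L.b m a x) = x
  lnk' : ∀ m ∈ MM, ∀ y ∈ XV d u m, mev (L.D' m) a y ≠ 0 ∧ L.swap.b m a y ∈ XV d v m ∧
    mev (L.D m) a (L.swap.b m a y) ≠ 0 ∧ L.b m a (L.swap.b m a y) = y
  sym : ∀ S : Finset ℕ, (∀ m ∈ S, m ∈ MM) → ∀ π : ℕ → ℂ → ℂ,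
    (∀ m ∈ S, Set.BijOn (π m) (XV d v m) (XV d v m)) →
    ∃ σ : ℂ ≃ₐ[K0] ℂ, (∀ i, σ (a i) = a i) ∧ ∀ m ∈ S, ∀ x ∈ XV d v m, σ x = π m x
  rankv : ∀ m ∈ MM, ∀ i, v i ∈ ACL (XV d v m)
  ranku : ∀ m ∈ MM, ∀ i, u i ∈ ACL (XV d u m)
  fin : ∀ m ∈ MM, (XV d v m).Finite
  card : ∀ m ∈ MM, 5 ≤ (XV d v m).ncard
  prime : ∀ m ∈ MM, m.Prime
  inf : MM.Infinite

end Pool.Agent.LSF
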