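import Pool.Agent.LSF.BBas1

/-!
BH1: fibres of the iterates of a map in normal form (`f = ev P Q`, `f 0 = 0`, in Lean `f z = 0` if `z`
is a pole).
-/

namespace Pool.Agent.LSF

open Polynomial Pool.Agent.LenSpec

variable {d : ℕ} {P Q : ℂ[X]}

theorem BH1_zero (hR : RM d P Q) (n : ℕ) : (ev P Q)^[n] 0 = 0 :=
  Function.iterate_fixed (ev_zero hR) n

theorem pole_free (hR : RM d P Q) (n : ℕ) (w : ℂ) (hw : (ev P Q)^[n] w ≠ 0) :
    ∀ k < n, Q.eval ((ev P Q)^[k] w) ≠ 0 := by
  intro k hk h0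
  apply hw
  have h1 : (ev P Q)^[k + 1] w = 0 := by
    rw [Function.iterate_succ_apply', ev, h0, div_zero]
  have h2 : n = (n - (k + 1)) + (k + 1) := by omega
  rw [h2, Function.iterate_add_apply, h1, BH1_zero hR]

theorem fib_root (hR : RM d P Q) (y w : ℂ) (hy : y ≠ 0) :
    ev P Q w = y ↔ (P - C y * Q).eval w = 0 := by
  rw [ev, eval_sub, eval_mul, eval_C, sub_eq_zero]
  constructor
  · intro h
    have hQ : Q.eval w ≠ 0 := by
      intro h0
      rw [h0, div_zero] at h
      exact hy h.symm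
    rw [← h, div_mul_cancel₀ _ hQ]
  · intro h
    have hQ : Q.eval w ≠ 0 := by
      intro h0
      rw [h0, mul_zero] at h
      obtain ⟨a, b, hab⟩ := hR.cop
      have h1 := congrArg (eval w) hab
      rw [eval_add, eval_mul, eval_mul, h, h0, eval_one] at h1
      simp at h1
    rw [h, mul_div_cancel_right₀ _ hQ]

theorem BH1_deg (hR : RM d P Q) (y : ℂ) (hy : y ≠ 0) : (P - C y * Q).degree = d := by
  have h1 : (C y * Q).degree = d := by
    rw [degree_C_mul hy, degree_eq_natDegree hR.monic.ne_zero, hR.degQ]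
  have h2 : P.degree < (C y * Q).degree := by
    rw [h1]
    calc P.degree ≤ P.natDegree := degree_le_natDegree
      _ < d := by exact_mod_cast hR.degP
  rw [degree_sub_eq_right_of_degree_lt h2, h1]

theorem ev_surj (hR : RM d P Q) (y : ℂ) (hy : y ≠ 0) : ∃ w, ev P Q w = y ∧ w ≠ 0 := by
  have h1 : (P - C y * Q).degree ≠ 0 := by
    rw [BH1_deg hR y hy]
    have := hR.two_le
    exact_mod_cast (by omega : d ≠ 0)
  obtain ⟨w, hw⟩ := IsAlgClosed.exists_root _ h1
  have h2 : ev P Q w = y := (fib_root hR y w hy).2 hw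
  refine ⟨w, h2, ?_⟩
  rintro rfl
  rw [ev_zero hR] at h2
  exact hy h2.symm

theorem iter_surj (hR : RM d P Q) (n : ℕ) (y : ℂ) (hy : y ≠ 0) :
    ∃ w, (ev P Q)^[n] w = y ∧ w ≠ 0 := by
  induction n with
  | zero => exact ⟨y, rfl, hy⟩
  | succ n ih =>
    obtain ⟨u, hu, hu0⟩ := ih
    obtain ⟨w, hw, hw0⟩ := ev_surj hR u hu0
    refine ⟨w, ?_, hw0⟩
    rw [Function.iterate_succ_apply, hw, hu]

theorem BH1_fin (hR : RM d P Q) (u : ℂ) : {w | ev P Q w = u}.Finite := by
  by_cases hu : u = 0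
  · have hP : P ≠ 0 := by
      intro h0
      have h1 := hR.cop
      rw [h0, isCoprime_zero_left] at h1
      have h2 := natDegree_eq_zero_of_isUnit h1
      have h3 := hR.degQ
      have h4 := hR.two_le
      omega
    refine ((finite_setOf_isRoot hP).union (finite_setOf_isRoot hR.monic.ne_zero)).subset ?_
    intro w hw
    have hw1 : ev P Q w = u := hw
    rw [hu, ev, div_eq_zero_iff] at hw1
    exact hw1
  · have hne : P - C u * Q ≠ 0 := by
      intro h0
      have h1 := BH1_deg hR u hu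
      rw [h0, degree_zero] at h1
      exact WithBot.bot_ne_coe h1
    refine (finite_setOf_isRoot hne).subset ?_
    intro w hw
    exact (fib_root hR u w hu).1 hw

theorem fin_fib (hR : RM d P Q) (n : ℕ) (v : ℂ) : {w | (ev P Q)^[n] w = v}.Finite := by
  induction n with
  | zero =>
    have h1 : {w : ℂ | (ev P Q)^[0] w = v} = {v} := by
      ext w
      simp
    rw [h1]
    exact Set.finite_singleton v
  | succ n ih =>
    refine (ih.biUnion (fun u _ => BH1_fin hR u)).subset ?_
    intro w hw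
    have hw1 : (ev P Q)^[n + 1] w = v := hw
    rw [Function.iterate_succ_apply] at hw1
    rw [Set.mem_iUnion₂]
    exact ⟨ev P Q w, hw1, rfl⟩

theorem BH1_an (P Q : ℂ[X]) (w : ℂ) (hw : Q.eval w ≠ 0) : AnalyticAt ℂ (ev P Q) w := by
  have h1 : AnalyticAt ℂ (fun z => P.eval z) w := P.differentiable.analyticAt w
  have h2 : AnalyticAt ℂ (fun z => Q.eval z) w := Q.differentiable.analyticAt w
  exact h1.div h2 hw

theorem an_iter (P Q : ℂ[X]) (n : ℕ) (w : ℂ) (hw : ∀ k < n, Q.eval ((ev P Q)^[k] w) ≠ 0) :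
    AnalyticAt ℂ ((ev P Q)^[n]) w := by
  induction n with
  | zero => exact analyticAt_id
  | succ n ih =>
    rw [Function.iterate_succ']
    exact (BH1_an P Q _ (hw n (Nat.lt_succ_self n))).comp
      (ih (fun k hk => hw k (Nat.lt_succ_of_lt hk)))

end Pool.Agent.LSF
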