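import Pool.Agent.LSF.BH1

/-!
BH2: three preimages of a repelling periodic point that are not periodic.
-/

namespace Pool.Agent.LSF

open Polynomial Pool.Agent.LenSpec

variable {d : ℕ} {P Q : ℂ[X]}

theorem per_dvd {n0 : ℕ} {z0 : ℂ} (h : PerX P Q n0 z0) (hn : 1 ≤ n0) (m : ℕ)
    (hm : (ev P Q)^[m] z0 = z0) : n0 ∣ m := by
  have hper := h.1.2
  rw [Nat.dvd_iff_mod_eq_zero]
  by_contra hne
  have hr : 0 < m % n0 := Nat.pos_of_ne_zero hne
  have hlt : m % n0 < n0 := Nat.mod_lt _ (by omega)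
  apply h.2 (m % n0) hr hlt
  have h1 : (ev P Q)^[n0 * (m / n0)] z0 = z0 := by
    rw [Function.iterate_mul]
    exact Function.iterate_fixed hper _
  have h2 : m = m % n0 + n0 * (m / n0) := (Nat.mod_add_div m n0).symm
  rw [h2, Function.iterate_add_apply, h1] at hm
  exact hm

theorem per_ne_zero (hR : RM d P Q) {n0 : ℕ} (hn : 2 ≤ n0) {z0 : ℂ} (h : PerX P Q n0 z0) :
    z0 ≠ 0 := by
  intro e
  have h1 := h.2 1 one_pos (by omega)
  apply h1
  rw [Function.iterate_one, e, ev_zero hR]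

/-- another preimage of `z0` -/
theorem BH2_other (hR : RM d P Q) (n0 : ℕ) (hn : 2 ≤ n0) (z0 : ℂ) (h : PerX P Q n0 z0)
    (hrep : mult P Q n0 z0 ≠ 0) : ∃ w, w ≠ (ev P Q)^[n0 - 1] z0 ∧ ev P Q w = z0 := by
  have hz0 : z0 ≠ 0 := per_ne_zero hR hn h
  have hd2 := hR.two_le
  set z' := (ev P Q)^[n0 - 1] z0 with hz'
  have hfz : ev P Q z' = z0 := by
    rw [hz', ← Function.iterate_succ_apply' (ev P Q), Nat.succ_eq_add_one,
      Nat.sub_add_cancel (by omega)]
    exact h.1.2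
  set p : ℂ[X] := P - C z0 * Q with hp
  have hCQ : (C z0 * Q).natDegree = d := by rw [natDegree_C_mul hz0, hR.degQ]
  have hpd : p.natDegree = d := by
    rw [hp, natDegree_sub_eq_right_of_natDegree_lt (by rw [hCQ]; exact hR.degP), hCQ]
  by_contra hcon
  push Not at hcon
  have hroot : ∀ w ∈ p.roots, w = z' := by
    intro w hw
    by_contra hne
    have h1 : p.eval w = 0 := (mem_roots'.1 hw).2
    exact hcon w hne ((fib_root hR z0 w hz0).2 h1)
  have hsp : p.Splits := IsAlgClosed.splits p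
  have hcard : p.roots.card = d := by rw [← hpd]; exact hsp.natDegree_eq_card_roots.symm
  have hrep' : p.roots = Multiset.replicate d z' := by
    rw [← hcard]
    exact Multiset.eq_replicate_card.2 hroot
  have hp0 : p ≠ 0 := by
    intro e
    rw [e, natDegree_zero] at hpd
    omega
  have hdvd : (X - C z') ^ 2 ∣ p := by
    rw [← le_rootMultiplicity_iff hp0, ← count_roots, hrep', Multiset.count_replicate_self]
    exact hd2
  obtain ⟨q, hq⟩ := hdvd
  have hder : (derivative p).eval z' = 0 := by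
    rw [hq, derivative_mul, derivative_pow]
    simp
  have hpz : p.eval z' = 0 := by
    rw [hq]; simp
  have e1 : (derivative P).eval z' = z0 * (derivative Q).eval z' := by
    rw [hp, derivative_sub, derivative_C_mul, eval_sub, eval_mul, eval_C] at hder
    exact sub_eq_zero.1 hder
  have e2 : P.eval z' = z0 * Q.eval z' := by
    rw [hp, eval_sub, eval_mul, eval_C] at hpz
    exact sub_eq_zero.1 hpz
  apply hrep
  unfold mult
  refine Finset.prod_eq_zero (i := n0 - 1) (Finset.mem_range.2 (by omega)) ?_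
  rw [← hz', derivAt, e1, e2]
  rw [show z0 * eval z' (derivative Q) * eval z' Q - z0 * eval z' Q * eval z' (derivative Q) = 0 by
    ring, zero_div]

theorem targets (hR : RM d P Q) (n0 : ℕ) (hn : 2 ≤ n0) (z0 : ℂ) (h : PerX P Q n0 z0)
    (hrep : mult P Q n0 z0 ≠ 0) :
    ∃ w1 w2 w3 : ℂ, (w1 ≠ 0 ∧ w2 ≠ 0 ∧ w3 ≠ 0) ∧ (w1 ≠ w2 ∧ w1 ≠ w3 ∧ w2 ≠ w3) ∧
      ev P Q w1 = z0 ∧ (ev P Q)^[n0] w2 = w1 ∧ (ev P Q)^[n0] w3 = w2 ∧
      ∀ j, (ev P Q)^[j] z0 ≠ w1 ∧ (ev P Q)^[j] z0 ≠ w2 ∧ (ev P Q)^[j] z0 ≠ w3 := by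
  have hz0 : z0 ≠ 0 := per_ne_zero hR hn h
  have hper := h.1.2
  have hadd : ∀ a b w, (ev P Q)^[a + b] w = (ev P Q)^[a] ((ev P Q)^[b] w) := fun a b w =>
    Function.iterate_add_apply (ev P Q) a b w
  have hmul : ∀ q, (ev P Q)^[n0 * q] z0 = z0 := by
    intro q
    rw [Function.iterate_mul]
    exact Function.iterate_fixed hper _
  obtain ⟨w1, hw1, hfw1⟩ := BH2_other hR n0 hn z0 h hrep
  have hw10 : w1 ≠ 0 := by
    intro e
    rw [e, ev_zero hR] at hfw1
    exact hz0 hfw1.symm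
  obtain ⟨w2, hfw2, hw20⟩ := iter_surj hR n0 w1 hw10
  obtain ⟨w3, hfw3, hw30⟩ := iter_surj hR n0 w2 hw20
  -- `w1` is not in the orbit
  have ho1 : ∀ j, (ev P Q)^[j] z0 ≠ w1 := by
    intro j e
    have h1 : (ev P Q)^[j + 1] z0 = z0 := by rw [Function.iterate_succ_apply', e, hfw1]
    obtain ⟨q, hq⟩ := per_dvd h (by omega) _ h1
    have hq1 : 1 ≤ q := by
      rcases Nat.eq_zero_or_pos q with hq0 | hq0
      · rw [hq0, mul_zero] at hq; omega
      · exact hq0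
    obtain ⟨q', rfl⟩ := Nat.exists_eq_add_of_le hq1
    have hj : j = (n0 - 1) + n0 * q' := by
      have : n0 * (1 + q') = n0 + n0 * q' := by ring
      omega
    rw [hj, hadd, hmul] at e
    exact hw1 e.symm
  -- `w1` is not periodic
  have hnp : ∀ m, 1 ≤ m → (ev P Q)^[m] w1 ≠ w1 := by
    intro m hm e
    obtain ⟨m', rfl⟩ := Nat.exists_eq_add_of_le hm
    rw [add_comm, hadd, Function.iterate_one, hfw1] at e
    exact ho1 _ e
  have ho2 : ∀ j, (ev P Q)^[j] z0 ≠ w2 := by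
    intro j e
    apply ho1 (n0 + j)
    rw [hadd, e, hfw2]
  have ho3 : ∀ j, (ev P Q)^[j] z0 ≠ w3 := by
    intro j e
    apply ho2 (n0 + j)
    rw [hadd, e, hfw3]
  refine ⟨w1, w2, w3, ⟨hw10, hw20, hw30⟩, ⟨?_, ?_, ?_⟩, hfw1, hfw2, hfw3,
    fun j => ⟨ho1 j, ho2 j, ho3 j⟩⟩
  · intro e
    rw [← e] at hfw2
    exact hnp n0 (by omega) hfw2
  · intro e
    rw [← e] at hfw3
    apply hnp (n0 + n0) (by omega)
    rw [hadd, hfw3, hfw2]
  · intro e
    rw [← e] at hfw3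
    rw [hfw3] at hfw2
    -- `w2 = w1`, periodic
    rw [hfw2] at hfw3
    exact hnp n0 (by omega) hfw3

end Pool.Agent.LSF
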