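import Pool.Agent.LSF.BBas1
import Pool.Agent.LenSpec.A1
import Pool.Agent.LenSpec.A2
import Pool.Agent.LenSpec.A3

/-!
BH3: the iterates as quotients of polynomials, composed with a Moebius map.
-/

namespace Pool.Agent.LSF

open Polynomial Pool.Agent.LenSpec Metric

variable {d : ℕ} {P Q : ℂ[X]}

theorem BH3_homComp (d : ℕ) (R A B : ℂ[X]) (y : ℂ) :
    (homComp d R A B).eval y = hom d R (A.eval y) (B.eval y) := by
  rw [homComp, hom, eval_finsetSum]
  refine Finset.sum_congr rfl fun i _ => ?_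
  rw [eval_mul, eval_mul, eval_C, eval_pow, eval_pow]

theorem BH3_cop {A B : ℂ[X]} (h : IsCoprime A B) (y : ℂ) (hA : A.eval y = 0) (hB : B.eval y = 0) :
    False := by
  obtain ⟨u, v, huv⟩ := h
  have := congrArg (fun p => p.eval y) huv
  simp [hA, hB] at this

theorem iter_value (hR : RM d P Q) (n : ℕ) (y w : ℂ) (hw : w ≠ 0)
    (h : (iter d P Q n).1.eval y = w * (iter d P Q n).2.eval y) :
    (ev P Q)^[n] y = w ∧ (iter d P Q n).2.eval y ≠ 0 := by
  induction n generalizing w with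
  | zero =>
    have h1 : (iter d P Q 0).1.eval y = y := by simp [iter]
    have h2 : (iter d P Q 0).2.eval y = 1 := by simp [iter]
    rw [h1, h2, mul_one] at h
    exact ⟨by simpa using h, by rw [h2]; exact one_ne_zero⟩
  | succ n ih =>
    have hd2 := hR.two_le
    have hPd : P.natDegree ≤ d := hR.degP.le
    have hQd : Q.natDegree ≤ d := hR.degQ.le
    obtain ⟨-, -, -, hcop⟩ := a2_holds ℂ d n P Q (by omega) hPd hQd (Or.inr hR.degQ) hR.cop
    have e1 : (iter d P Q (n + 1)).1.eval y =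
        hom d P ((iter d P Q n).1.eval y) ((iter d P Q n).2.eval y) := BH3_homComp d P _ _ y
    have e2 : (iter d P Q (n + 1)).2.eval y =
        hom d Q ((iter d P Q n).1.eval y) ((iter d P Q n).2.eval y) := BH3_homComp d Q _ _ y
    rw [e1, e2] at h
    rw [e2]
    have hab : ¬ ((iter d P Q n).1.eval y = 0 ∧ (iter d P Q n).2.eval y = 0) := fun hh =>
      BH3_cop hcop y hh.1 hh.2
    set a := (iter d P Q n).1.eval y with ha
    set b := (iter d P Q n).2.eval y with hb
    by_cases hb0 : b = 0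
    · exfalso
      rw [hb0, hom_zero_right, hom_zero_right, coeff_eq_zero_of_natDegree_lt hR.degP, zero_mul] at h
      have hQc : Q.coeff d = 1 := by
        have := hR.monic.coeff_natDegree
        rwa [hR.degQ] at this
      rw [hQc, one_mul] at h
      have ha0 : a ≠ 0 := fun e => hab ⟨e, hb0⟩
      exact (mul_ne_zero hw (pow_ne_zero d ha0)) h.symm
    · rw [hom_of_ne hPd a hb0, hom_of_ne hQd a hb0] at h
      rw [hom_of_ne hQd a hb0]
      have hbd : b ^ d ≠ 0 := pow_ne_zero d hb0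
      have hPQ : P.eval (a / b) = w * Q.eval (a / b) := by
        have : b ^ d * P.eval (a / b) = b ^ d * (w * Q.eval (a / b)) := by rw [h]; ring
        exact mul_left_cancel₀ hbd this
      have hQx : Q.eval (a / b) ≠ 0 := by
        intro e
        rw [e, mul_zero] at hPQ
        exact BH3_cop hR.cop _ hPQ e
      have hfx : ev P Q (a / b) = w := by
        unfold ev
        rw [hPQ, mul_div_assoc, div_self hQx, mul_one]
      have hx0 : a / b ≠ 0 := by
        intro e
        rw [e, ev_zero hR] at hfx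
        exact hw hfx.symm
      have hab' : a = a / b * b := by field_simp
      obtain ⟨h1, -⟩ := ih (a / b) hx0 hab'
      refine ⟨?_, mul_ne_zero hbd hQx⟩
      rw [Function.iterate_succ_apply', h1, hfx]

theorem moeb (hR : RM d P Q) (n : ℕ) (w1 w2 w3 z0 : ℂ) (ρ : ℝ) (hρ : 0 < ρ) (h1 : w1 ≠ 0)
    (h2 : w2 ≠ 0) (h3 : w3 ≠ 0) (h12 : w1 ≠ w2) (h13 : w1 ≠ w3) (h23 : w2 ≠ w3)
    (hz : ∀ k, Q.eval ((ev P Q)^[k] z0) ≠ 0)
    (ho : ∀ y ∈ ball z0 ρ, (ev P Q)^[n] y ≠ w1 ∧ (ev P Q)^[n] y ≠ w2 ∧ (ev P Q)^[n] y ≠ w3) :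
    ∃ u : ℂ → ℂ, DifferentiableOn ℂ u (ball z0 ρ) ∧ (∀ y ∈ ball z0 ρ, u y ≠ 0 ∧ u y ≠ 1) ∧
      u z0 = (w3 - w2) / (w3 - w1) * (((ev P Q)^[n] z0 - w1) / ((ev P Q)^[n] z0 - w2)) ∧
      deriv u z0 = (w3 - w2) / (w3 - w1) * ((w1 - w2) / ((ev P Q)^[n] z0 - w2) ^ 2) *
        mult P Q n z0 := by
  have hne : ∀ w, w ≠ 0 → (∀ y ∈ ball z0 ρ, (ev P Q)^[n] y ≠ w) → ∀ y ∈ ball z0 ρ,
      (iter d P Q n).1.eval y - w * (iter d P Q n).2.eval y ≠ 0 := by
    intro w hw hy y hyb e
    exact hy y hyb (iter_value hR n y w hw (sub_eq_zero.1 e)).1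
  have hn1 := hne w1 h1 fun y hy => (ho y hy).1
  have hn2 := hne w2 h2 fun y hy => (ho y hy).2.1
  have hn3 := hne w3 h3 fun y hy => (ho y hy).2.2
  obtain ⟨hB, hA, hD⟩ := a1_holds ℂ d n P Q z0 hR.degP.le hR.degQ.le fun k _ => hz k
  set A := (iter d P Q n).1 with hAdef
  set B := (iter d P Q n).2 with hBdef
  have h31 : w3 - w1 ≠ 0 := sub_ne_zero.2 (Ne.symm h13)
  have h32 : w3 - w2 ≠ 0 := sub_ne_zero.2 (Ne.symm h23)
  have hz0b : z0 ∈ ball z0 ρ := mem_ball_self hρ
  have hF2 : (ev P Q)^[n] z0 - w2 ≠ 0 := sub_ne_zero.2 (ho z0 hz0b).2.1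
  have hdA : ∀ y, HasDerivAt (fun y => A.eval y) ((derivative A).eval y) y := fun y =>
    A.hasDerivAt y
  have hdB : ∀ y, HasDerivAt (fun y => B.eval y) ((derivative B).eval y) y := fun y =>
    B.hasDerivAt y
  have hder : ∀ y ∈ ball z0 ρ, HasDerivAt
      (fun y => (w3 - w2) / (w3 - w1) * ((A.eval y - w1 * B.eval y) / (A.eval y - w2 * B.eval y)))
      ((w3 - w2) / (w3 - w1) * ((((derivative A).eval y - w1 * (derivative B).eval y) *
        (A.eval y - w2 * B.eval y) - (A.eval y - w1 * B.eval y) *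
        ((derivative A).eval y - w2 * (derivative B).eval y)) /
        (A.eval y - w2 * B.eval y) ^ 2)) y := by
    intro y hy
    exact (((hdA y).sub ((hdB y).const_mul w1)).div ((hdA y).sub ((hdB y).const_mul w2))
      (hn2 y hy)).const_mul _
  refine ⟨fun y => (w3 - w2) / (w3 - w1) * ((A.eval y - w1 * B.eval y) /
    (A.eval y - w2 * B.eval y)), ?_, ?_, ?_, ?_⟩
  · intro y hy
    exact (hder y hy).differentiableAt.differentiableWithinAt
  · intro y hy
    refine ⟨mul_ne_zero (div_ne_zero h32 h31) (div_ne_zero (hn1 y hy) (hn2 y hy)), ?_⟩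
    intro e
    have e' : (w3 - w2) * (A.eval y - w1 * B.eval y) = (w3 - w1) * (A.eval y - w2 * B.eval y) := by
      have := hn2 y hy
      field_simp at e
      linear_combination e
    have e'' : (w1 - w2) * (A.eval y - w3 * B.eval y) = 0 := by linear_combination e'
    rcases mul_eq_zero.1 e'' with e3 | e3
    · exact h12 (sub_eq_zero.1 e3)
    · exact hn3 y hy e3
  · change (w3 - w2) / (w3 - w1) * ((A.eval z0 - w1 * B.eval z0) /
      (A.eval z0 - w2 * B.eval z0)) = _
    rw [hA]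
    congr 1
    rw [← sub_mul, ← sub_mul]
    exact mul_div_mul_right _ _ hB
  · rw [(hder z0 hz0b).deriv, ← hD, derivAt, hA]
    have hb := hB
    have hd2 : (ev P Q)^[n] z0 * B.eval z0 - w2 * B.eval z0 ≠ 0 := by
      rw [← sub_mul]
      exact mul_ne_zero hF2 hB
    field_simp
    ring

end Pool.Agent.LSF
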