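import Mathlib

/-!
BS3: holomorphic logarithms on a ball; functions omitting `1` and `-1` are cosines.

Complete proof.
`ball_log`: `deriv v / v` is differentiable on the ball (`DifferentiableOn.deriv`), so it has a
primitive `L` on the ball with `L c = Complex.log (v c)` (`DifferentiableOn.isExactOn_ball`,
`IsExactOn.with_val_at`). The function `v z * exp (- L z)` has derivative `0` on the ball and value
`1` at `c`, so it is `1` (e.g. `IsOpen.is_const_of_deriv_eq_zero` / `Convex.is_const_of_fderivWithin_eq_zero`).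
`cos_lift`: `u ^ 2 - 1` has no zero; let `L` be its logarithm, `s = exp (L / 2)`, `s ^ 2 = u ^ 2 - 1`.
`(u + s) * (u - s) = 1`, so `u + s` has no zero; let `L₂` be its logarithm, `F₀ = L₂ / (π * I)`.
Then `cos (π F₀) = (exp (I π F₀) + exp (- I π F₀)) / 2 = ((u + s) + (u - s)) / 2 = u`. Let
`k = round ((F₀ c).re / 2)`, `F = F₀ - 2 k`: `cos (π F) = cos (π F₀ - k * (2 π)) = cos (π F₀)`
(`Complex.cos_sub_int_mul_two_pi`) and `|(F c).re| = 2 * |(F₀ c).re / 2 - k| ≤ 1`.
`norm_sinh_le_cos`: `cos (x + i y) = cos x cosh y - i sin x sinh y`, its squared norm is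
`cos² x + sinh² y ≥ sinh² y ≥ y²`. With `y = π (F c).im`: `|(F c).im| ≤ π |(F c).im| ≤ ‖u c‖`.
`‖F c‖ ≤ |re| + |im| ≤ 1 + ‖u c‖`.
-/

namespace Pool.Agent.LSF

open Metric

theorem ball_log (c : ℂ) (R : ℝ) (hR : 0 < R) (v : ℂ → ℂ)
    (hv : DifferentiableOn ℂ v (ball c R)) (h0 : ∀ z ∈ ball c R, v z ≠ 0) :
    ∃ L : ℂ → ℂ, DifferentiableOn ℂ L (ball c R) ∧ ∀ z ∈ ball c R, Complex.exp (L z) = v z := by
  have hd : DifferentiableOn ℂ (fun z => deriv v z / v z) (ball c R) :=
    (hv.deriv isOpen_ball).fun_div hv h0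
  obtain ⟨L, hLc, hL⟩ := hd.isExactOn_ball.with_val_at c (Complex.log (v c))
  have hc : c ∈ ball c R := mem_ball_self hR
  have hvd : ∀ z ∈ ball c R, HasDerivAt v (deriv v z) z := fun z hz =>
    (hv.differentiableAt (isOpen_ball.mem_nhds hz)).hasDerivAt
  have hD : ∀ z ∈ ball c R, HasDerivAt (fun z => v z * Complex.exp (-L z)) 0 z := by
    intro z hz
    have h1 := (hvd z hz).fun_mul (hL z hz).fun_neg.cexp
    refine h1.congr_deriv ?_
    have := h0 z hz
    field_simp
    ring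
  have hconst : ∀ z ∈ ball c R, v z * Complex.exp (-L z) = v c * Complex.exp (-L c) := by
    intro z hz
    refine isOpen_ball.is_const_of_deriv_eq_zero (convex_ball c R).isPreconnected
      (fun x hx => (hD x hx).differentiableAt.differentiableWithinAt) (fun x hx => ?_) hz hc
    exact (hD x hx).deriv
  refine ⟨L, fun z hz => (hL z hz).differentiableAt.differentiableWithinAt, fun z hz => ?_⟩
  have h1 := hconst z hz
  rw [hLc, Complex.exp_neg, Complex.exp_neg, Complex.exp_log (h0 c hc),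
    mul_inv_cancel₀ (h0 c hc)] at h1
  have h2 := Complex.exp_ne_zero (L z)
  field_simp at h1
  exact h1.symm

theorem bs3_sinh (y : ℝ) : y ^ 2 ≤ Real.sinh y ^ 2 := by
  rcases le_total 0 y with h | h
  · have := Real.self_le_sinh_iff.2 h
    nlinarith
  · have := Real.sinh_le_self_iff.2 h
    nlinarith

theorem im_le_norm_cos (z : ℂ) : |z.im| ≤ ‖Complex.cos z‖ := by
  have h1 : (Complex.cos z).re = Real.cos z.re * Real.cosh z.im := by
    rw [Complex.cos_eq]
    simp [← Complex.ofReal_cos, ← Complex.ofReal_sin, ← Complex.ofReal_cosh, ← Complex.ofReal_sinh]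
  have h2 : (Complex.cos z).im = -(Real.sin z.re * Real.sinh z.im) := by
    rw [Complex.cos_eq]
    simp [← Complex.ofReal_cos, ← Complex.ofReal_sin, ← Complex.ofReal_cosh, ← Complex.ofReal_sinh]
  have h3 : ‖Complex.cos z‖ ^ 2 = Real.cos z.re ^ 2 + Real.sinh z.im ^ 2 := by
    rw [Complex.sq_norm, Complex.normSq_apply, h1, h2]
    have e1 := Real.cosh_sq z.im
    have e2 := Real.sin_sq_add_cos_sq z.re
    have e3 : Real.sin z.re ^ 2 = 1 - Real.cos z.re ^ 2 := by linarith
    calc Real.cos z.re * Real.cosh z.im * (Real.cos z.re * Real.cosh z.im) +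
          -(Real.sin z.re * Real.sinh z.im) * -(Real.sin z.re * Real.sinh z.im)
        = Real.cos z.re ^ 2 * Real.cosh z.im ^ 2 + Real.sin z.re ^ 2 * Real.sinh z.im ^ 2 := by ring
      _ = _ := by rw [e1, e3]; ring
  have h4 := bs3_sinh z.im
  refine abs_le_of_sq_le_sq ?_ (norm_nonneg _)
  rw [h3]
  nlinarith [sq_nonneg (Real.cos z.re)]

theorem cos_lift (c : ℂ) (R : ℝ) (hR : 0 < R) (u : ℂ → ℂ)
    (hu : DifferentiableOn ℂ u (ball c R)) (h : ∀ z ∈ ball c R, u z ≠ 1 ∧ u z ≠ -1) :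
    ∃ F : ℂ → ℂ, DifferentiableOn ℂ F (ball c R) ∧
      (∀ z ∈ ball c R, u z = Complex.cos (Real.pi * F z)) ∧ ‖F c‖ ≤ 1 + ‖u c‖ := by
  have hpi : (Real.pi : ℂ) ≠ 0 := by exact_mod_cast Real.pi_ne_zero
  obtain ⟨L, hLd, hL⟩ := ball_log c R hR (fun z => u z ^ 2 - 1) ((hu.fun_pow 2).sub_const 1)
    (fun z hz h0 => by
      have h1 : (u z - 1) * (u z + 1) = 0 := by
        have : u z ^ 2 - 1 = 0 := h0
        linear_combination this
      rcases mul_eq_zero.1 h1 with h2 | h2
      · exact (h z hz).1 (sub_eq_zero.1 h2)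
      · exact (h z hz).2 (eq_neg_of_add_eq_zero_left h2))
  have hs2 : ∀ z ∈ ball c R, Complex.exp (L z / 2) ^ 2 = u z ^ 2 - 1 := by
    intro z hz
    rw [← hL z hz, ← Complex.exp_nat_mul]
    congr 1
    push_cast
    ring
  have hprod : ∀ z ∈ ball c R, (u z + Complex.exp (L z / 2)) * (u z - Complex.exp (L z / 2)) = 1 := by
    intro z hz
    linear_combination -(hs2 z hz)
  obtain ⟨L₂, hL₂d, hL₂⟩ := ball_log c R hR (fun z => u z + Complex.exp (L z / 2))
    (hu.fun_add (hLd.div_const 2).cexp) (fun z hz h0 => by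
      have h1 := hprod z hz
      have h2 : u z + Complex.exp (L z / 2) = 0 := h0
      rw [h2, zero_mul] at h1
      exact zero_ne_one h1)
  have hcos : ∀ z ∈ ball c R, Complex.cos (Real.pi * (L₂ z / (Real.pi * Complex.I))) = u z := by
    intro z hz
    have e1 : (Real.pi : ℂ) * (L₂ z / (Real.pi * Complex.I)) * Complex.I = L₂ z := by
      have := Complex.I_ne_zero
      field_simp
    have e2 : -((Real.pi : ℂ) * (L₂ z / (Real.pi * Complex.I))) * Complex.I = -L₂ z := by
      rw [neg_mul, e1]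
    unfold Complex.cos
    rw [e1, e2, Complex.exp_neg, hL₂ z hz]
    have h1 := hprod z hz
    have h2 : (u z + Complex.exp (L z / 2))⁻¹ = u z - Complex.exp (L z / 2) :=
      inv_eq_of_mul_eq_one_right h1
    rw [h2]
    ring
  obtain ⟨k, hk⟩ : ∃ k : ℤ, |(L₂ c / (Real.pi * Complex.I)).re / 2 - k| ≤ 1 / 2 :=
    ⟨round _, abs_sub_round _⟩
  have hcos' : ∀ z ∈ ball c R,
      Complex.cos (Real.pi * (L₂ z / (Real.pi * Complex.I) - 2 * k)) = u z := by
    intro z hz
    rw [← hcos z hz]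
    have e : (Real.pi : ℂ) * (L₂ z / (Real.pi * Complex.I) - 2 * k) =
        Real.pi * (L₂ z / (Real.pi * Complex.I)) - k * (2 * Real.pi) := by ring
    rw [e, Complex.cos_sub_int_mul_two_pi]
  refine ⟨fun z => L₂ z / (Real.pi * Complex.I) - 2 * k, (hL₂d.div_const _).sub_const _,
    fun z hz => (hcos' z hz).symm, ?_⟩
  have hc : c ∈ ball c R := mem_ball_self hR
  refine (Complex.norm_le_abs_re_add_abs_im _).trans (add_le_add ?_ ?_)
  · have e : (L₂ c / (Real.pi * Complex.I) - 2 * k).re =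
        2 * ((L₂ c / (Real.pi * Complex.I)).re / 2 - k) := by
      rw [Complex.sub_re]
      have : (2 * (k : ℂ)).re = 2 * (k : ℝ) := by simp
      rw [this]
      ring
    rw [e, abs_mul, abs_two]
    linarith
  · have h1 := im_le_norm_cos (Real.pi * (L₂ c / (Real.pi * Complex.I) - 2 * k))
    rw [hcos' c hc] at h1
    refine le_trans ?_ h1
    rw [Complex.im_ofReal_mul, abs_mul, abs_of_pos Real.pi_pos]
    have := Real.pi_gt_three
    have h2 := abs_nonneg (L₂ c / (Real.pi * Complex.I) - 2 * k).im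
    nlinarith

end Pool.Agent.LSF
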