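import Mathlib

/-!
BS4: every disc of radius 1 contains a point `a` for which `cos (π a)` is an integer.

Complete proof. Let `m = round w.re`, so `|w.re - m| ≤ 1 / 2`, and `y₀ = |w.im|`. The function
`h y = cosh (π y)` is continuous and `h (y₀ + 3 / 4) - h y₀ ≥ 1`: with `x = π y₀ ≥ 0`, `s = 3 π / 4`:
`cosh (x + s) = cosh x * cosh s + sinh x * sinh s ≥ cosh x * cosh s`, so the difference is at least
`cosh x * (cosh s - 1) ≥ cosh s - 1 ≥ s ^ 2 / 2 ≥ 1`. So there is an integer `n` in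
`[h y₀, h (y₀ + 3 / 4)]` (`n = ⌈h y₀⌉`) and by the intermediate value theorem `y ∈ [y₀, y₀ + 3 / 4]`
with `cosh (π y) = n`. Put `a = m + i ε y`, `ε = 1` if `w.im ≥ 0`, `ε = -1` otherwise. Then
`‖w - a‖ ^ 2 = (w.re - m) ^ 2 + (y₀ - y) ^ 2 ≤ 1 / 4 + 9 / 16 < 1`, and
`cos (π a) = cos (π m) * cosh (π y) - i ε sin (π m) * sinh (π y) = (-1) ^ m * n`.
-/

namespace Pool.Agent.LSF

open Metric

theorem bs4_cosh_ge (s : ℝ) (hs : 0 ≤ s) : 1 + s ^ 2 / 2 ≤ Real.cosh s := by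
  have h := Real.cosh_eq s
  have h1 := Real.quadratic_le_exp_of_nonneg hs
  have h2 : Real.exp (-s) * Real.exp s = 1 := by
    rw [← Real.exp_add]; simp
  have h3 := Real.exp_pos (-s)
  have h4 := Real.exp_pos s
  -- use the half-angle formula: cosh s - 1 = 2 sinh^2 (s/2), sinh x ≥ x
  have h5 : Real.cosh s = 1 + 2 * Real.sinh (s / 2) ^ 2 := by
    have h6 := Real.cosh_two_mul (s / 2)
    have h7 := Real.cosh_sq (s / 2)
    have h8 : 2 * (s / 2) = s := by ring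
    rw [h8] at h6
    rw [h6, h7]; ring
  have h9 : s / 2 ≤ Real.sinh (s / 2) := Real.self_le_sinh_iff.2 (by linarith)
  rw [h5]
  nlinarith

theorem bs4_real (y₀ : ℝ) (hy : 0 ≤ y₀) :
    ∃ y, y₀ ≤ y ∧ y ≤ y₀ + 3 / 4 ∧ ∃ n : ℤ, Real.cosh (Real.pi * y) = n := by
  have hpi := Real.pi_gt_three
  have hx : 0 ≤ Real.pi * y₀ := by positivity
  have hs : (0 : ℝ) ≤ Real.pi * (3 / 4) := by positivity
  have hc1 : 1 ≤ Real.cosh (Real.pi * y₀) := Real.one_le_cosh _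
  have hc2 := bs4_cosh_ge (Real.pi * (3 / 4)) hs
  have hc3 : 2 ≤ Real.cosh (Real.pi * (3 / 4)) := by nlinarith
  have hadd : Real.cosh (Real.pi * (y₀ + 3 / 4)) =
      Real.cosh (Real.pi * y₀) * Real.cosh (Real.pi * (3 / 4)) +
      Real.sinh (Real.pi * y₀) * Real.sinh (Real.pi * (3 / 4)) := by
    rw [mul_add, Real.cosh_add]
  have hsn1 : 0 ≤ Real.sinh (Real.pi * y₀) := Real.sinh_nonneg_iff.2 hx
  have hsn2 : 0 ≤ Real.sinh (Real.pi * (3 / 4)) := Real.sinh_nonneg_iff.2 hs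
  have hge : Real.cosh (Real.pi * y₀) + 1 ≤ Real.cosh (Real.pi * (y₀ + 3 / 4)) := by
    rw [hadd]
    have := mul_nonneg hsn1 hsn2
    nlinarith
  have hcont : ContinuousOn (fun y : ℝ => Real.cosh (Real.pi * y)) (Set.Icc y₀ (y₀ + 3 / 4)) := by
    apply Continuous.continuousOn
    exact Real.continuous_cosh.comp (continuous_const.mul continuous_id)
  have hivt := intermediate_value_Icc (by linarith : y₀ ≤ y₀ + 3 / 4) hcont
  have hmem : ((⌈Real.cosh (Real.pi * y₀)⌉ : ℤ) : ℝ) ∈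
      Set.Icc (Real.cosh (Real.pi * y₀)) (Real.cosh (Real.pi * (y₀ + 3 / 4))) := by
    refine ⟨Int.le_ceil _, ?_⟩
    have := Int.ceil_lt_add_one (Real.cosh (Real.pi * y₀))
    linarith
  obtain ⟨y, hy1, hy2⟩ := hivt hmem
  exact ⟨y, hy1.1, hy1.2, _, hy2⟩

theorem bs4_cos (m : ℤ) (y : ℝ) (n : ℤ) (h : Real.cosh (Real.pi * y) = n) :
    ∃ k : ℤ, Complex.cos (Real.pi * ((m : ℂ) + y * Complex.I)) = k := by
  have h1 : (Real.pi : ℂ) * ((m : ℂ) + y * Complex.I) =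
      (m : ℂ) * Real.pi + ((Real.pi * y : ℝ) : ℂ) * Complex.I := by
    push_cast; ring
  have h2 : Complex.sin ((m : ℂ) * Real.pi) = 0 := Complex.sin_int_mul_pi m
  have h3 : Complex.cos ((m : ℂ) * Real.pi) = (-1 : ℂ) ^ m := by
    have h4 := Real.cos_int_mul_pi m
    have h5 : Complex.cos ((m : ℂ) * Real.pi) = ((Real.cos ((m : ℝ) * Real.pi) : ℝ) : ℂ) := by
      push_cast; rfl
    rw [h5, h4]; push_cast; rfl
  have h6 : Complex.cosh (((Real.pi * y : ℝ)) : ℂ) = (n : ℂ) := by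
    rw [← Complex.ofReal_cosh, h]; push_cast; rfl
  rw [h1, Complex.cos_add, Complex.cos_mul_I, h2, h3, h6]
  rcases Int.even_or_odd m with hm | hm
  · refine ⟨n, ?_⟩
    rw [hm.neg_one_zpow]; simp
  · refine ⟨-n, ?_⟩
    rw [hm.neg_one_zpow]; simp

theorem cos_net (w : ℂ) : ∃ a ∈ ball w 1, ∃ n : ℤ, Complex.cos (Real.pi * a) = n := by
  obtain ⟨y, hy1, hy2, n, hn⟩ := bs4_real |w.im| (abs_nonneg _)
  set m : ℤ := round w.re with hm
  have hr : |w.re - m| ≤ 1 / 2 := abs_sub_round w.re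
  have hcosh : ∀ t : ℝ, |t| = y → Real.cosh (Real.pi * t) = n := by
    intro t ht
    rw [← hn]
    rcases le_total 0 t with h | h
    · rw [abs_of_nonneg h] at ht; rw [ht]
    · rw [abs_of_nonpos h] at ht
      rw [← ht, mul_neg, Real.cosh_neg]
  have key : ∀ t : ℝ, |t| = y → |w.im - t| ≤ 3 / 4 →
      ∃ a ∈ ball w 1, ∃ n : ℤ, Complex.cos (Real.pi * a) = n := by
    intro t ht htt
    refine ⟨(m : ℂ) + t * Complex.I, ?_, bs4_cos m t n (hcosh t ht)⟩
    rw [mem_ball, Complex.dist_eq]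
    have hsq : ‖(m : ℂ) + t * Complex.I - w‖ ^ 2 = (w.re - m) ^ 2 + (w.im - t) ^ 2 := by
      rw [Complex.sq_norm, Complex.normSq_apply]
      simp
      ring
    have h1 : (w.re - m) ^ 2 ≤ 1 / 4 := by
      have := abs_le.1 hr
      nlinarith [this.1, this.2]
    have h2 : (w.im - t) ^ 2 ≤ 9 / 16 := by
      have := abs_le.1 htt
      nlinarith [this.1, this.2]
    have h3 : ‖(m : ℂ) + t * Complex.I - w‖ ^ 2 < 1 := by rw [hsq]; linarith
    have h4 := norm_nonneg ((m : ℂ) + t * Complex.I - w)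
    nlinarith
  have hy0 : 0 ≤ y := le_trans (abs_nonneg _) hy1
  rcases le_total 0 w.im with h | h
  · rw [abs_of_nonneg h] at hy1 hy2
    refine key y (abs_of_nonneg hy0) ?_
    rw [abs_le]; constructor <;> linarith
  · rw [abs_of_nonpos h] at hy1 hy2
    refine key (-y) (by rw [abs_neg, abs_of_nonneg hy0]) ?_
    rw [abs_le]; constructor <;> linarith

end Pool.Agent.LSF
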