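import Pool.Agent.LSF.BS2
import Pool.Agent.LSF.BS3
import Pool.Agent.LSF.BS4

/-!
BS5: functions omitting `0` and `1`; the theorem of Schottky (centre of the disc) and the theorem of
Landau.

Complete proof.
`omit_lift`: `u = 2 f - 1` omits `1` and `-1`; `cos_lift` gives `F` with `u = cos (π F)`,
`‖F c‖ ≤ 1 + ‖u c‖`. `F` omits all integers `n`, since `cos (π n) = ± 1`. `cos_lift` for `F` gives
`g` with `F = cos (π g)`, `‖g c‖ ≤ 1 + ‖F c‖ ≤ 2 + ‖u c‖ ≤ 3 + 2 * ‖f c‖`. If `ball w 1` were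
contained in the image of `g`, then the point `a` of `cos_net w` would be `g z`, `F z = n`:
contradiction.
`schottky`: let `C = 1 + exp (π * exp (π * (75 + 2 * M)))`. Let `g` be as in `omit_lift`. For
`‖z - c‖ ≤ R / 2` we have `ball z (R / 2) ⊆ ball c R`, and by `bloch` for `g` on `ball z (R / 2)`
some ball of radius `R / 2 * ‖deriv g z‖ / 72` is contained in the image of `g`, so this radius is
`< 1` (otherwise it contains `ball w 1`), `‖deriv g z‖ ≤ 144 / R`. By the mean value inequality on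
`closedBall c (R / 2)`: `‖g z - g c‖ ≤ 144 / R * (R / 2) = 72`, `‖g z‖ ≤ 75 + 2 * M`. Now
`‖cos x‖ ≤ exp ‖x‖`: `‖F z‖ ≤ exp (π * (75 + 2 M))`, `‖2 * f z - 1‖ ≤ exp (π * exp (..))`.
`landau`: with the `C` of `schottky M`: `f` is bounded by `C` on `closedBall c (R / 2)`, so
`‖deriv f c‖ ≤ C / (R / 2)` (`Complex.norm_deriv_le_of_forall_mem_sphere_norm_le`, `f` is
`DiffContOnCl` on `ball c (R / 2)`); take `2 * C` (replace `C` by `max C 0`).
-/

namespace Pool.Agent.LSF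

open Metric

theorem bs5_cos_int (n : ℤ) : Complex.cos (Real.pi * n) = 1 ∨ Complex.cos (Real.pi * n) = -1 := by
  have h1 : Complex.sin (Real.pi * n) = 0 := by
    rw [mul_comm]
    exact Complex.sin_int_mul_pi n
  have h2 := Complex.sin_sq_add_cos_sq (Real.pi * n)
  rw [h1] at h2
  have h3 : (Complex.cos (Real.pi * n) - 1) * (Complex.cos (Real.pi * n) + 1) = 0 := by
    linear_combination h2
  rcases mul_eq_zero.1 h3 with h | h
  · left; exact sub_eq_zero.1 h
  · right; exact eq_neg_of_add_eq_zero_left h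

theorem bs5_norm_cos (x : ℂ) : ‖Complex.cos x‖ ≤ Real.exp ‖x‖ := by
  unfold Complex.cos
  rw [norm_div, Complex.norm_two]
  have h1 : ‖Complex.exp (x * Complex.I)‖ ≤ Real.exp ‖x‖ := by
    refine (Complex.norm_exp_le_exp_norm _).trans (le_of_eq ?_)
    rw [norm_mul, Complex.norm_I, mul_one]
  have h2 : ‖Complex.exp (-x * Complex.I)‖ ≤ Real.exp ‖x‖ := by
    refine (Complex.norm_exp_le_exp_norm _).trans (le_of_eq ?_)
    rw [norm_mul, Complex.norm_I, mul_one, norm_neg]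
  have h3 := norm_add_le (Complex.exp (x * Complex.I)) (Complex.exp (-x * Complex.I))
  rw [div_le_iff₀ (by norm_num)]
  linarith

theorem omit_lift (c : ℂ) (R : ℝ) (hR : 0 < R) (f : ℂ → ℂ)
    (hf : DifferentiableOn ℂ f (ball c R)) (h : ∀ z ∈ ball c R, f z ≠ 0 ∧ f z ≠ 1) :
    ∃ g : ℂ → ℂ, DifferentiableOn ℂ g (ball c R) ∧
      (∀ z ∈ ball c R, 2 * f z - 1 = Complex.cos (Real.pi * Complex.cos (Real.pi * g z))) ∧
      ‖g c‖ ≤ 3 + 2 * ‖f c‖ ∧ ∀ w, ¬ (ball w 1 ⊆ g '' (ball c R)) := by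
  have hom : ∀ z ∈ ball c R, 2 * f z - 1 ≠ 1 ∧ 2 * f z - 1 ≠ -1 := by
    intro z hz
    obtain ⟨h0, h1⟩ := h z hz
    constructor
    · intro h2
      exact h1 (by linear_combination h2 / 2)
    · intro h2
      exact h0 (by linear_combination h2 / 2)
  obtain ⟨F, hFd, hF, hFc⟩ := cos_lift c R hR (fun z => 2 * f z - 1)
    ((hf.const_mul 2).sub_const 1) hom
  have hFn : ∀ z ∈ ball c R, ∀ n : ℤ, F z ≠ n := by
    intro z hz n hn
    have h1 := hF z hz
    rw [hn] at h1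
    have h2 : 2 * f z - 1 = Complex.cos (Real.pi * n) := h1
    rcases bs5_cos_int n with h3 | h3
    · exact (hom z hz).1 (h2.trans h3)
    · exact (hom z hz).2 (h2.trans h3)
  obtain ⟨g, hgd, hg, hgc⟩ := cos_lift c R hR F hFd (fun z hz =>
    ⟨by simpa using hFn z hz 1, by simpa using hFn z hz (-1)⟩)
  refine ⟨g, hgd, fun z hz => ?_, ?_, fun w hw => ?_⟩
  · rw [← hg z hz]
    exact hF z hz
  · have h1 : ‖2 * f c - 1‖ ≤ 2 * ‖f c‖ + 1 := by
      refine (norm_sub_le _ _).trans ?_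
      rw [norm_mul, Complex.norm_two, norm_one]
    have h2 : ‖F c‖ ≤ 1 + ‖2 * f c - 1‖ := hFc
    linarith
  · obtain ⟨a, ha, n, hn⟩ := cos_net w
    obtain ⟨z, hz, rfl⟩ := hw ha
    exact hFn z hz n ((hg z hz).trans hn)

theorem schottky (M : ℝ) : ∃ C : ℝ, ∀ (c : ℂ) (R : ℝ) (f : ℂ → ℂ), 0 < R →
    DifferentiableOn ℂ f (ball c R) → (∀ z ∈ ball c R, f z ≠ 0 ∧ f z ≠ 1) → ‖f c‖ ≤ M →
    ∀ z, ‖z - c‖ ≤ R / 2 → ‖f z‖ ≤ C := by
  refine ⟨1 + Real.exp (Real.pi * Real.exp (Real.pi * (75 + 2 * M))), ?_⟩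
  intro c R f hR hf h hM z hz
  obtain ⟨g, hgd, hg, hgc, hgw⟩ := omit_lift c R hR f hf h
  have hsub : ∀ y, ‖y - c‖ ≤ R / 2 → ball y (R / 2) ⊆ ball c R := by
    intro y hy
    refine ball_subset_ball' ?_
    rw [dist_eq_norm]
    linarith
  have hder : ∀ y, ‖y - c‖ ≤ R / 2 → ‖deriv g y‖ ≤ 144 / R := by
    intro y hy
    obtain ⟨w, hw⟩ := bloch y (R / 2) (by linarith) g (hgd.mono (hsub y hy))
    have h1 : R / 2 * ‖deriv g y‖ / 72 < 1 := by
      by_contra hc
      push Not at hc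
      exact hgw w ((ball_subset_ball hc).trans (hw.trans (Set.image_mono (hsub y hy))))
    rw [le_div_iff₀ hR]
    linarith
  have hmem : ∀ y, ‖y - c‖ ≤ R / 2 → y ∈ ball c R := by
    intro y hy
    rw [mem_ball, dist_eq_norm]
    linarith
  have hmv : ‖g z - g c‖ ≤ 144 / R * ‖z - c‖ := by
    refine (convex_closedBall c (R / 2)).norm_image_sub_le_of_norm_deriv_le (𝕜 := ℂ) (f := g)
      (fun y hy => ?_) (fun y hy => ?_) (mem_closedBall_self (by linarith)) ?_
    · rw [mem_closedBall, dist_eq_norm] at hy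
      exact hgd.differentiableAt (isOpen_ball.mem_nhds (hmem y hy))
    · rw [mem_closedBall, dist_eq_norm] at hy
      exact hder y hy
    · rw [mem_closedBall, dist_eq_norm]
      exact hz
  have h72 : 144 / R * ‖z - c‖ ≤ 72 := by
    have : 144 / R * ‖z - c‖ ≤ 144 / R * (R / 2) := mul_le_mul_of_nonneg_left hz (by positivity)
    refine this.trans (le_of_eq ?_)
    field_simp
    norm_num
  have hgz : ‖g z‖ ≤ 75 + 2 * M := by
    have h1 : ‖g z‖ ≤ ‖g z - g c‖ + ‖g c‖ := by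
      have := norm_add_le (g z - g c) (g c)
      rwa [sub_add_cancel] at this
    linarith
  have hz' := hmem z hz
  have h3 : ‖Complex.cos (Real.pi * g z)‖ ≤ Real.exp (Real.pi * (75 + 2 * M)) := by
    refine (bs5_norm_cos _).trans (Real.exp_le_exp.2 ?_)
    rw [norm_mul, Complex.norm_real, Real.norm_of_nonneg Real.pi_pos.le]
    exact mul_le_mul_of_nonneg_left hgz Real.pi_pos.le
  have h4 : ‖2 * f z - 1‖ ≤ Real.exp (Real.pi * Real.exp (Real.pi * (75 + 2 * M))) := by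
    rw [hg z hz']
    refine (bs5_norm_cos _).trans (Real.exp_le_exp.2 ?_)
    rw [norm_mul, Complex.norm_real, Real.norm_of_nonneg Real.pi_pos.le]
    exact mul_le_mul_of_nonneg_left h3 Real.pi_pos.le
  have h5 : 2 * ‖f z‖ ≤ ‖2 * f z - 1‖ + 1 := by
    have := norm_add_le (2 * f z - 1) 1
    rw [sub_add_cancel, norm_mul, Complex.norm_two, norm_one] at this
    exact this
  have h6 := norm_nonneg (f z)
  linarith

theorem landau (M : ℝ) : ∃ C : ℝ, ∀ (c : ℂ) (R : ℝ) (f : ℂ → ℂ), 0 < R →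
    DifferentiableOn ℂ f (ball c R) → (∀ z ∈ ball c R, f z ≠ 0 ∧ f z ≠ 1) → ‖f c‖ ≤ M →
    R * ‖deriv f c‖ ≤ C := by
  obtain ⟨C, hC⟩ := schottky M
  refine ⟨2 * C, fun c R f hR hf h hM => ?_⟩
  have h1 : ‖deriv f c‖ ≤ C / (R / 2) := by
    refine Complex.norm_deriv_le_of_forall_mem_sphere_norm_le (by linarith) ?_ ?_
    · refine (hf.mono ?_).diffContOnCl
      rw [closure_ball c (by linarith : R / 2 ≠ 0)]
      exact closedBall_subset_ball (by linarith)
    · intro z hz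
      refine hC c R f hR hf h hM z ?_
      rw [mem_sphere, dist_eq_norm] at hz
      exact hz.le
  rw [le_div_iff₀ (by linarith)] at h1
  linarith

end Pool.Agent.LSF
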