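import Pool.Agent.LSF.BH2
import Pool.Agent.LSF.BH3
import Pool.Agent.LSF.BS5

/-!
BH4: a homoclinic point near a repelling periodic point.
-/

namespace Pool.Agent.LSF

open Polynomial Pool.Agent.LenSpec

variable {d : ℕ} {P Q : ℂ[X]}

theorem BH4_per {n0 : ℕ} {z0 : ℂ} (h : (ev P Q)^[n0] z0 = z0) (j : ℕ) :
    (ev P Q)^[n0 * j] z0 = z0 := by
  rw [Function.iterate_mul]
  exact Function.iterate_fixed h j

theorem mult_block {n0 : ℕ} {z0 : ℂ} (h : (ev P Q)^[n0] z0 = z0) (j : ℕ) :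
    mult P Q (n0 * j) z0 = mult P Q n0 z0 ^ j := by
  induction j with
  | zero => simp [mult]
  | succ j ih =>
    rw [pow_succ, ← ih, mul_add, mul_one]
    unfold mult
    rw [Finset.prod_range_add]
    congr 1
    refine Finset.prod_congr rfl fun x _ => ?_
    rw [add_comm (n0 * j) x, Function.iterate_add_apply, BH4_per h]

theorem hom_point (hR : RM d P Q) (n0 : ℕ) (hn : 2 ≤ n0) (z0 : ℂ) (h : PerX P Q n0 z0)
    (hrep : 1 < ‖mult P Q n0 z0‖) (ρ : ℝ) (hρ : 0 < ρ) :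
    ∃ (y : ℂ) (k : ℕ), ‖y - z0‖ < ρ ∧ (ev P Q)^[n0 * k + 1] y = z0 ∧
      ∀ j, (ev P Q)^[j] z0 ≠ y := by
  have hm0 : mult P Q n0 z0 ≠ 0 := by
    intro e
    rw [e, norm_zero] at hrep
    linarith
  obtain ⟨w1, w2, w3, ⟨h1, h2, h3⟩, ⟨h12, h13, h23⟩, hf1, hf2, hf3, ho⟩ :=
    targets hR n0 hn z0 h hm0
  have hper := h.1.2
  -- iteration formula
  have hadd : ∀ a b w, (ev P Q)^[a + b] w = (ev P Q)^[a] ((ev P Q)^[b] w) := fun a b w =>
    Function.iterate_add_apply (ev P Q) a b w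
  have key : ∃ (y : ℂ) (j : ℕ), y ∈ Metric.ball z0 ρ ∧ ((ev P Q)^[n0 * j] y = w1 ∨
      (ev P Q)^[n0 * j] y = w2 ∨ (ev P Q)^[n0 * j] y = w3) := by
    by_contra hcon
    have hcon' : ∀ j, ∀ y ∈ Metric.ball z0 ρ, (ev P Q)^[n0 * j] y ≠ w1 ∧
        (ev P Q)^[n0 * j] y ≠ w2 ∧ (ev P Q)^[n0 * j] y ≠ w3 := by
      intro j y hy
      refine ⟨fun e => hcon ⟨y, j, hy, Or.inl e⟩, fun e => hcon ⟨y, j, hy, Or.inr (Or.inl e)⟩,
        fun e => hcon ⟨y, j, hy, Or.inr (Or.inr e)⟩⟩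
    set κ : ℂ := (w3 - w2) / (w3 - w1) with hκ
    have hκ0 : κ ≠ 0 := div_ne_zero (sub_ne_zero.2 (Ne.symm h23)) (sub_ne_zero.2 (Ne.symm h13))
    obtain ⟨C, hC⟩ := landau ‖κ * ((z0 - w1) / (z0 - w2))‖
    have hz02 : z0 - w2 ≠ 0 := by
      intro e
      exact (ho 0).2.1 (by simpa using sub_eq_zero.1 e)
    set s : ℂ := κ * ((w1 - w2) / (z0 - w2) ^ 2) with hs
    have hs0 : s ≠ 0 := mul_ne_zero hκ0 (div_ne_zero (sub_ne_zero.2 h12) (pow_ne_zero 2 hz02))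
    have hbound : ∀ j : ℕ, ρ * ‖s‖ * ‖mult P Q n0 z0‖ ^ j ≤ C := by
      intro j
      obtain ⟨u, hu1, hu2, hu3, hu4⟩ := moeb hR (n0 * j) w1 w2 w3 z0 ρ hρ h1 h2 h3 h12 h13 h23
        h.1.1 (hcon' j)
      rw [BH4_per hper] at hu3 hu4
      rw [mult_block hper] at hu4
      have := hC z0 ρ u hρ hu1 hu2 (by rw [hu3])
      rw [hu4, norm_mul, norm_pow, ← mul_assoc] at this
      exact this
    have hpos : 0 < ρ * ‖s‖ := mul_pos hρ (norm_pos_iff.2 hs0)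
    have ht := (tendsto_pow_atTop_atTop_of_one_lt hrep).const_mul_atTop hpos
    obtain ⟨j, hj⟩ := (ht.eventually_gt_atTop C).exists
    exact absurd (hbound j) (not_le.2 hj)
  obtain ⟨y, j, hy, hyj⟩ := key
  have hyρ : ‖y - z0‖ < ρ := by rwa [Metric.mem_ball, dist_eq_norm] at hy
  have horb : ∀ i, (ev P Q)^[i] z0 ≠ y := by
    intro i e
    rw [← e, ← hadd] at hyj
    rcases hyj with e | e | e
    · exact (ho _).1 e
    · exact (ho _).2.1 e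
    · exact (ho _).2.2 e
  have hfin : ∀ k, (ev P Q)^[n0 * k] y = w1 → (ev P Q)^[n0 * k + 1] y = z0 := by
    intro k e
    rw [add_comm, hadd, e]
    simpa using hf1
  rcases hyj with e | e | e
  · exact ⟨y, j, hyρ, hfin j e, horb⟩
  · refine ⟨y, 1 + j, hyρ, hfin _ ?_, horb⟩
    rw [mul_add, mul_one, hadd, e, hf2]
  · refine ⟨y, 1 + (1 + j), hyρ, hfin _ ?_, horb⟩
    rw [mul_add, mul_one, hadd, mul_add, mul_one, hadd, e, hf3, hf2]

end Pool.Agent.LSF
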