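import Mathlib

/-!
BH5: the contracting local inverse at a repelling fixed point.
-/

namespace Pool.Agent.LSF

open Metric

theorem loc_inv (h : ℂ → ℂ) (z0 : ℂ) (hh : AnalyticAt ℂ h z0) (h0 : h z0 = z0)
    (hrep : 1 < ‖deriv h z0‖) (ρ : ℝ) (hρ : 0 < ρ) :
    ∃ (g : ℂ → ℂ) (r θ : ℝ), 0 < r ∧ r ≤ ρ ∧ 0 < θ ∧ θ < 1 ∧
      DifferentiableOn ℂ g (ball z0 r) ∧ ∀ x ∈ ball z0 r, h (g x) = x ∧
      ‖g x - z0‖ ≤ θ * ‖x - z0‖ := by
  have h1 : deriv h z0 ≠ 0 := by
    intro h2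
    rw [h2, norm_zero] at hrep
    linarith
  set ψ : ℂ → ℂ := hh.hasStrictDerivAt.localInverse _ _ _ h1 with hψ
  have han : AnalyticAt ℂ ψ (h z0) := hh.analyticAt_localInverse h1
  have hright : ∀ᶠ z in nhds (h z0), h (ψ z) = z := HasStrictDerivAt.eventually_right_inverse ..
  have hpp : ψ (h z0) = z0 := HasStrictFDerivAt.localInverse_apply_image ..
  have hder : HasStrictDerivAt ψ (deriv h z0)⁻¹ (h z0) :=
    hh.hasStrictDerivAt.to_localInverse h1
  rw [h0] at han hright hpp hder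
  set κ : ℝ := ‖(deriv h z0)⁻¹‖ with hκ
  have hκ1 : κ < 1 := by
    rw [hκ, norm_inv]
    exact inv_lt_one_of_one_lt₀ hrep
  have hκ0 : 0 ≤ κ := norm_nonneg _
  have hlo := (hasDerivAt_iff_isLittleO.1 hder.hasDerivAt).def
    (show 0 < (1 + κ) / 2 - κ by linarith)
  obtain ⟨r, hr, hball⟩ := Metric.eventually_nhds_iff_ball.1
    ((han.eventually_analyticAt.and hright).and hlo)
  refine ⟨ψ, min r ρ, (1 + κ) / 2, lt_min hr hρ, min_le_right _ _, by linarith, by linarith,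
    ?_, ?_⟩
  · intro z hz
    have hz' : z ∈ ball z0 r := ball_subset_ball (min_le_left _ _) hz
    exact (hball z hz').1.1.differentiableAt.differentiableWithinAt
  · intro z hz
    have hz' : z ∈ ball z0 r := ball_subset_ball (min_le_left _ _) hz
    refine ⟨(hball z hz').1.2, ?_⟩
    have h2 := (hball z hz').2
    rw [hpp] at h2
    have h3 : ψ z - z0 = (ψ z - z0 - (z - z0) • (deriv h z0)⁻¹) + (z - z0) • (deriv h z0)⁻¹ := by
      ring
    rw [h3]
    refine (norm_add_le _ _).trans ?_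
    rw [norm_smul (z - z0)]
    have h4 : ‖z - z0‖ * ‖(deriv h z0)⁻¹‖ = κ * ‖z - z0‖ := by rw [← hκ]; ring
    rw [h4]
    linarith

end Pool.Agent.LSF
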