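import Pool.Agent.LSF.BS3

/-!
BH6: lifting functions with small values through a holomorphic function near a (possibly critical)
point.
-/

namespace Pool.Agent.LSF

open Metric

theorem root_lift_local_power {f : ℂ → ℂ} {x : ℂ} (hf : AnalyticAt ℂ f x)
    (hne : ¬ ∀ᶠ z in nhds x, f z = f x) :
    ∃ (m : ℕ) (η : ℂ → ℂ), 1 ≤ m ∧ AnalyticAt ℂ η x ∧ η x = 0 ∧ deriv η x ≠ 0 ∧
      ∀ᶠ z in nhds x, f z = f x + η z ^ m := by
  have hF : AnalyticAt ℂ (fun z => f z - f x) x := hf.sub analyticAt_const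
  have hne' : ¬ ∀ᶠ z in nhds x, (fun z => f z - f x) z = 0 := by
    intro h
    exact hne (h.mono (fun z hz => sub_eq_zero.1 hz))
  obtain ⟨m, g, hg, hgx, hfg⟩ := hF.exists_eventuallyEq_pow_smul_nonzero_iff.2 hne'
  have hm : m ≠ 0 := by
    rintro rfl
    have := hfg.self_of_nhds
    simp only [sub_self, pow_zero, one_smul] at this
    exact hgx this.symm
  have hmpos : 0 < m := Nat.pos_of_ne_zero hm
  have hmC : (m : ℂ) ≠ 0 := by exact_mod_cast hm
  obtain ⟨c, hc⟩ := IsAlgClosed.exists_pow_nat_eq (g x) hmpos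
  have hc0 : c ≠ 0 := by
    rintro rfl
    rw [zero_pow hm] at hc
    exact hgx hc.symm
  set h : ℂ → ℂ := fun z => c * Complex.exp (Complex.log (g z / g x) / m) with hh
  have hquot : AnalyticAt ℂ (fun z => g z / g x) x := hg.div_const
  have hslit : (fun z => g z / g x) x ∈ Complex.slitPlane := by
    simp only
    rw [div_self hgx]
    exact Complex.one_mem_slitPlane
  have hhan : AnalyticAt ℂ h x :=
    analyticAt_const.mul ((hquot.clog hslit).div_const).cexp
  have hhx : h x = c := by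
    simp only [hh]
    rw [div_self hgx, Complex.log_one, zero_div, Complex.exp_zero, mul_one]
  refine ⟨m, fun z => (z - x) * h z, hmpos, (analyticAt_id.sub analyticAt_const).mul hhan,
    by simp, ?_, ?_⟩
  · have hd : HasDerivAt (fun z => (z - x) * h z) (1 * h x + (x - x) * deriv h x) x :=
      ((hasDerivAt_id x).sub_const x).mul hhan.differentiableAt.hasDerivAt
    rw [hd.deriv, hhx]
    simpa using hc0
  · have hgne : ∀ᶠ z in nhds x, g z ≠ 0 := hg.continuousAt.eventually_ne hgx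
    filter_upwards [hfg, hgne] with z hz hgz
    have hz' : f z = f x + (z - x) ^ m * g z := by
      rw [← smul_eq_mul, ← hz]
      ring
    rw [hz']
    congr 1
    rw [mul_pow]
    congr 1
    simp only [hh]
    rw [mul_pow, hc, ← Complex.exp_nat_mul, mul_div_cancel₀ _ hmC, Complex.exp_log (div_ne_zero hgz hgx)]
    field_simp

theorem root_lift (F : ℂ → ℂ) (y z0 : ℂ) (hF : AnalyticAt ℂ F y) (hy : F y = z0)
    (hnc : ¬ ∀ᶠ w in nhds y, F w = z0) (ε : ℝ) (hε : 0 < ε) :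
    ∃ η > 0, ∀ (b : ℂ) (R : ℝ) (G : ℂ → ℂ), 0 < R → DifferentiableOn ℂ G (ball b R) →
      (∀ w ∈ ball b R, G w ≠ z0 ∧ ‖G w - z0‖ < η) →
      ∃ β : ℂ → ℂ, DifferentiableOn ℂ β (ball b R) ∧
        ∀ w ∈ ball b R, ‖β w - y‖ < ε ∧ F (β w) = G w := by
  obtain ⟨μ, ψ, hμ, hψ, hψ0, hψd, hpow⟩ := root_lift_local_power hF (by rw [hy]; exact hnc)
  set φ : ℂ → ℂ := hψ.hasStrictDerivAt.localInverse _ _ _ hψd with hφ
  have han : AnalyticAt ℂ φ (ψ y) := hψ.analyticAt_localInverse hψd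
  have hright : ∀ᶠ z in nhds (ψ y), ψ (φ z) = z := HasStrictDerivAt.eventually_right_inverse ..
  have hpp : φ (ψ y) = y := HasStrictFDerivAt.localInverse_apply_image ..
  rw [hψ0] at han hright hpp
  have hcont : Filter.Tendsto φ (nhds 0) (nhds y) := by
    have := han.continuousAt.tendsto
    rwa [hpp] at this
  have hnear : ∀ᶠ z in nhds (0 : ℂ), φ z ∈ ball y ε := hcont (ball_mem_nhds y hε)
  have hpow' : ∀ᶠ z in nhds (0 : ℂ), F (φ z) = F y + ψ (φ z) ^ μ := hcont.eventually hpow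
  obtain ⟨t0, ht0, hball⟩ := Metric.eventually_nhds_iff_ball.1
    ((han.eventually_analyticAt.and hright).and (hnear.and hpow'))
  have hμ0 : μ ≠ 0 := by omega
  have hμC : (μ : ℂ) ≠ 0 := by exact_mod_cast hμ0
  refine ⟨t0 ^ μ, pow_pos ht0 μ, ?_⟩
  intro b R G hR hG hGz
  obtain ⟨L, hL, hLe⟩ := ball_log b R hR (fun w => G w - z0) (hG.sub_const z0)
    (fun w hw => sub_ne_zero.2 (hGz w hw).1)
  set q : ℂ → ℂ := fun w => Complex.exp (L w / μ) with hq
  have hqμ : ∀ w ∈ ball b R, q w ^ μ = G w - z0 := by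
    intro w hw
    simp only [hq]
    rw [← Complex.exp_nat_mul, mul_div_cancel₀ _ hμC]
    exact hLe w hw
  have hqt : ∀ w ∈ ball b R, q w ∈ ball (0 : ℂ) t0 := by
    intro w hw
    rw [mem_ball_zero_iff]
    refine lt_of_pow_lt_pow_left₀ μ ht0.le ?_
    rw [← norm_pow, hqμ w hw]
    exact (hGz w hw).2
  refine ⟨fun w => φ (q w), ?_, ?_⟩
  · have hφd : DifferentiableOn ℂ φ (ball 0 t0) := fun z hz =>
      (hball z hz).1.1.differentiableAt.differentiableWithinAt
    refine hφd.comp ?_ hqt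
    exact (hL.div_const (μ : ℂ)).cexp
  · intro w hw
    obtain ⟨⟨_, h1⟩, h2, h3⟩ := hball (q w) (hqt w hw)
    refine ⟨?_, ?_⟩
    · rwa [mem_ball, dist_eq_norm] at h2
    · rw [h3, h1, hqμ w hw, hy]
      ring

end Pool.Agent.LSF
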