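import Pool.Agent.LSF.BHDefs
import Pool.Agent.LSF.BH4
import Pool.Agent.LSF.BH5
import Pool.Agent.LSF.BH6

/-!
BH7: the homoclinic inverse branches.
-/

namespace Pool.Agent.LSF

open Polynomial Pool.Agent.LenSpec Metric

variable {d : ℕ} {P Q : ℂ[X]}

theorem BH7_it {H g : ℂ → ℂ} {z0 : ℂ} {r θ : ℝ} (hθ : 0 < θ) (hθ1 : θ < 1)
    (hg : ∀ x ∈ ball z0 r, H (g x) = x ∧ ‖g x - z0‖ ≤ θ * ‖x - z0‖) (m : ℕ) :
    ∀ x ∈ ball z0 r, g^[m] x ∈ ball z0 r ∧ ‖g^[m] x - z0‖ ≤ θ ^ m * ‖x - z0‖ ∧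
      H^[m] (g^[m] x) = x := by
  induction m with
  | zero => intro x hx; simp [hx]
  | succ m ih =>
    intro x hx
    obtain ⟨h1, h2, h3⟩ := ih x hx
    obtain ⟨h4, h5⟩ := hg _ h1
    have h6 : ‖g^[m + 1] x - z0‖ ≤ θ ^ (m + 1) * ‖x - z0‖ := by
      rw [Function.iterate_succ_apply']
      refine h5.trans ?_
      rw [pow_succ]
      calc θ * ‖g^[m] x - z0‖ ≤ θ * (θ ^ m * ‖x - z0‖) := mul_le_mul_of_nonneg_left h2 hθ.le
        _ = θ ^ m * θ * ‖x - z0‖ := by ring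
    refine ⟨?_, h6, ?_⟩
    · rw [mem_ball, dist_eq_norm] at hx ⊢
      refine h6.trans_lt (lt_of_le_of_lt ?_ hx)
      have : θ ^ (m + 1) ≤ 1 := pow_le_one₀ hθ.le hθ1.le
      nlinarith [norm_nonneg (x - z0)]
    · have e1 : g^[m + 1] x = g (g^[m] x) := Function.iterate_succ_apply' g m x
      rw [e1, Function.iterate_succ_apply, h4, h3]

theorem BH7_diff {g : ℂ → ℂ} {z0 : ℂ} {r : ℝ} (hgd : DifferentiableOn ℂ g (ball z0 r))
    (hm : ∀ m, ∀ x ∈ ball z0 r, g^[m] x ∈ ball z0 r) (m : ℕ) :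
    DifferentiableOn ℂ (g^[m]) (ball z0 r) := by
  induction m with
  | zero => simpa using differentiableOn_id
  | succ m ih =>
    rw [Function.iterate_succ']
    exact hgd.comp ih (hm m)

/-- Lipschitz constant of a map from a ball of radius `ε` to a ball of radius `ε / 8` -/
theorem BH7_lip {b : ℂ → ℂ} {y : ℂ} {ε : ℝ} (hε : 0 < ε) (hd : DifferentiableOn ℂ b (ball y ε))
    (hb : ∀ w ∈ ball y ε, ‖b w - y‖ < ε / 8) :
    ∀ w ∈ closedBall y (ε / 4), ∀ w' ∈ closedBall y (ε / 4), ‖b w - b w'‖ ≤ 1 / 2 * ‖w - w'‖ := by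
  have hsub : ∀ w ∈ closedBall y (ε / 4), ball w (ε / 2) ⊆ ball y ε := by
    intro w hw x hx
    rw [mem_ball] at hx ⊢
    rw [mem_closedBall] at hw
    linarith [dist_triangle x w y]
  have hder : ∀ w ∈ closedBall y (ε / 4), ‖deriv b w‖ ≤ 1 / 2 := by
    intro w hw
    have hw' : w ∈ ball y ε := hsub w hw (mem_ball_self (by linarith))
    have h1 : Set.MapsTo b (ball w (ε / 2)) (closedBall (b w) (ε / 4)) := by
      intro x hx
      rw [mem_closedBall]
      have h2 := hb x (hsub w hw hx)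
      have h3 := hb w hw'
      rw [← dist_eq_norm] at h2 h3
      have := dist_triangle_right (b x) (b w) y
      linarith
    have h2 := Complex.norm_deriv_le_div_of_mapsTo_ball (hd.mono (hsub w hw)) h1 (by linarith)
    refine h2.trans (le_of_eq ?_)
    field_simp
    norm_num
  intro w hw w' hw'
  have hdiff : ∀ x ∈ closedBall y (ε / 4), DifferentiableAt ℂ b x := fun x hx =>
    hd.differentiableAt (isOpen_ball.mem_nhds (hsub x hx (mem_ball_self (by linarith))))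
  exact (convex_closedBall y (ε / 4)).norm_image_sub_le_of_norm_deriv_le hdiff hder hw' hw

theorem hom_sys (hR : RM d P Q) (n0 : ℕ) (hn : 2 ≤ n0) (z0 : ℂ) (h : PerX P Q n0 z0)
    (hrep : 1 < ‖mult P Q n0 z0‖) (δ : ℝ) (hδ : 0 < δ) :
    ∃ (K : Set ℂ) (β : ℕ → ℂ → ℂ) (k : ℕ), HS (ev P Q) n0 (n0 * k + 1) K β ∧
      ∀ z ∈ K, ‖z - z0‖ < δ := by
  have hpf : ∀ k, Q.eval ((ev P Q)^[k] z0) ≠ 0 := h.1.1
  have hz0 : z0 ≠ 0 := per_ne_zero hR hn h
  have hper : (ev P Q)^[n0] z0 = z0 := h.1.2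
  have hd : HasDerivAt ((ev P Q)^[n0]) (mult P Q n0 z0) z0 :=
    rm_deriv_iter P Q n0 z0 (fun k _ => hpf k)
  obtain ⟨g, r, θ, hr, -, hθ, hθ1, hgd, hg⟩ := loc_inv ((ev P Q)^[n0]) z0
    (an_iter P Q n0 z0 (fun k _ => hpf k)) hper (by rw [hd.deriv]; exact hrep) 1 one_pos
  obtain ⟨y, k, hy, hyk, hyo⟩ := hom_point hR n0 hn z0 h hrep (min (δ / 2) (r / 2)) (by positivity)
  have hyz : y ≠ z0 := fun e => hyo 0 (by simpa using e.symm)
  have hdist : 0 < ‖y - z0‖ := norm_pos_iff.2 (sub_ne_zero.2 hyz)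
  have hy1 : ‖y - z0‖ < δ / 2 := hy.trans_le (min_le_left _ _)
  have hy2 : ‖y - z0‖ < r / 2 := hy.trans_le (min_le_right _ _)
  have hne : (ev P Q)^[n0 * k + 1] y ≠ 0 := by rw [hyk]; exact hz0
  have hFa : AnalyticAt ℂ ((ev P Q)^[n0 * k + 1]) y := an_iter P Q _ y (pole_free hR _ y hne)
  have hnc : ¬ ∀ᶠ w in nhds y, (ev P Q)^[n0 * k + 1] w = z0 := by
    intro hev
    have hfin := fin_fib hR (n0 * k + 1) z0
    have hmem : {w | (ev P Q)^[n0 * k + 1] w = z0} ∈ nhds y := hev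
    exact (infinite_of_mem_nhds y hmem) hfin
  -- choice of ε
  obtain ⟨ε, hε, hε1, hε2, hε3, hε4⟩ : ∃ ε : ℝ, 0 < ε ∧ ε ≤ δ / 2 ∧ ε ≤ r / 2 ∧
      ε < ‖y - z0‖ ∧ ε * (1 + θ) < (1 - θ) * ‖y - z0‖ := by
    refine ⟨min (min (δ / 2) (r / 2)) ((1 - θ) * ‖y - z0‖ / 4), ?_, ?_, ?_, ?_, ?_⟩
    · have : 0 < (1 - θ) * ‖y - z0‖ := mul_pos (by linarith) hdist
      positivity
    · exact (min_le_left _ _).trans (min_le_left _ _)
    · exact (min_le_left _ _).trans (min_le_right _ _)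
    · refine (min_le_right _ _).trans_lt ?_
      nlinarith
    · have h1 := min_le_right (min (δ / 2) (r / 2)) ((1 - θ) * ‖y - z0‖ / 4)
      have h2 : 0 < (1 - θ) * ‖y - z0‖ := mul_pos (by linarith) hdist
      nlinarith
  obtain ⟨η, hη, hlift⟩ := root_lift ((ev P Q)^[n0 * k + 1]) y z0 hFa hyk hnc (ε / 8) (by linarith)
  have hsub : ball y ε ⊆ ball z0 r := by
    intro x hx
    rw [mem_ball, dist_eq_norm] at hx ⊢
    have : x - z0 = (x - y) + (y - z0) := by ring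
    rw [this]
    exact (norm_add_le _ _).trans_lt (by linarith)
  have hnz : ∀ x ∈ ball y ε, x ≠ z0 := by
    intro x hx e
    rw [mem_ball, dist_eq_norm, e, ← norm_neg, neg_sub] at hx
    linarith
  have hit := fun m => BH7_it (H := (ev P Q)^[n0]) hθ hθ1 hg m
  have hgm : ∀ m, DifferentiableOn ℂ (g^[m]) (ball z0 r) :=
    BH7_diff hgd (fun m x hx => (hit m x hx).1)
  have hHz : ∀ m, ((ev P Q)^[n0])^[m] z0 = z0 := fun m => Function.iterate_fixed hper m
  have hGne : ∀ m, ∀ x ∈ ball y ε, g^[m] x ≠ z0 := by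
    intro m x hx e
    have h1 := (hit m x (hsub hx)).2.2
    rw [e, hHz] at h1
    exact hnz x hx h1.symm
  obtain ⟨M, hM⟩ : ∃ M : ℕ, θ ^ M * r < η := by
    have h1 : Filter.Tendsto (fun M : ℕ => θ ^ M * r) Filter.atTop (nhds (0 * r)) :=
      (tendsto_pow_atTop_nhds_zero_of_lt_one hθ.le hθ1).mul_const r
    rw [zero_mul] at h1
    exact (h1.eventually_lt_const hη).exists
  have hsmall : ∀ m, ∀ x ∈ ball y ε, ‖g^[M + m] x - z0‖ < η := by
    intro m x hx
    have h1 := (hit (M + m) x (hsub hx)).2.1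
    have h2 : ‖x - z0‖ < r := by simpa [dist_eq_norm] using hsub hx
    refine (h1.trans ?_).trans_lt hM
    have h3 : θ ^ (M + m) ≤ θ ^ M := pow_le_pow_of_le_one hθ.le hθ1.le (by omega)
    have h4 : 0 ≤ θ ^ (M + m) := by positivity
    have h5 : 0 ≤ θ ^ M := by positivity
    nlinarith [norm_nonneg (x - z0)]
  have hβ : ∀ m : ℕ, ∃ β : ℂ → ℂ, DifferentiableOn ℂ β (ball y ε) ∧
      ∀ w ∈ ball y ε, ‖β w - y‖ < ε / 8 ∧ (ev P Q)^[n0 * k + 1] (β w) = g^[M + m] w := fun m =>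
    hlift y ε (g^[M + m]) hε ((hgm (M + m)).mono hsub)
      (fun w hw => ⟨hGne (M + m) w hw, hsmall m w hw⟩)
  choose β hβd hβ using hβ
  have hKsub : closedBall y (ε / 4) ⊆ ball y ε := closedBall_subset_ball (by linarith)
  -- decoding
  have hdec : ∀ m j, ∀ w ∈ closedBall y (ε / 4), ∀ w' ∈ closedBall y (ε / 4),
      g^[M + m] w = g^[M + (m + j)] w' → j = 0 ∧ w = w' := by
    intro m j w hw w' hw' e
    have e0 : g^[M + (m + j)] w' = g^[M + m] (g^[j] w') := by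
      rw [show M + (m + j) = (M + m) + j by ring]
      exact Function.iterate_add_apply g (M + m) j w'
    have e1 := congrArg (((ev P Q)^[n0])^[M + m]) e
    rw [(hit (M + m) w (hsub (hKsub hw))).2.2, e0,
      (hit (M + m) _ (hit j w' (hsub (hKsub hw'))).1).2.2] at e1
    rcases Nat.eq_zero_or_pos j with hj | hj
    · subst hj
      exact ⟨rfl, by simpa using e1⟩
    · exfalso
      have h1 := (hit j w' (hsub (hKsub hw'))).2.1
      rw [← e1] at h1
      have h2 : θ ^ j ≤ θ := by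
        calc θ ^ j ≤ θ ^ 1 := pow_le_pow_of_le_one hθ.le hθ1.le hj
          _ = θ := pow_one θ
      have h3 : ‖w' - z0‖ ≤ ε / 4 + ‖y - z0‖ := by
        have : w' - z0 = (w' - y) + (y - z0) := by ring
        rw [this]
        refine (norm_add_le _ _).trans ?_
        rw [mem_closedBall, dist_eq_norm] at hw'
        linarith
      have h4 : ‖y - z0‖ ≤ ε / 4 + ‖w - z0‖ := by
        have : y - z0 = (y - w) + (w - z0) := by ring
        rw [this]
        refine (norm_add_le _ _).trans ?_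
        rw [mem_closedBall, dist_eq_norm, ← norm_neg, neg_sub] at hw
        linarith
      have h5 : ‖w - z0‖ ≤ θ * ‖w' - z0‖ :=
        h1.trans (mul_le_mul_of_nonneg_right h2 (norm_nonneg _))
      nlinarith [norm_nonneg (w' - z0)]
  refine ⟨closedBall y (ε / 4), β, k + M, ⟨isCompact_closedBall _ _, ?_, ?_, ?_, ?_, ?_⟩, ?_⟩
  · exact ⟨y, mem_closedBall_self (by linarith)⟩
  · intro m w hw
    rw [mem_closedBall, dist_eq_norm]
    linarith [(hβ m w (hKsub hw)).1]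
  · intro m
    exact BH7_lip hε (hβd m) (fun w hw => (hβ m w hw).1)
  · intro m w hw
    have e : n0 * (k + M) + 1 + n0 * m = n0 * (M + m) + (n0 * k + 1) := by ring
    rw [e, Function.iterate_add_apply, (hβ m w (hKsub hw)).2, Function.iterate_mul]
    exact (hit (M + m) w (hsub (hKsub hw))).2.2
  · intro m m' w hw w' hw' e
    have e1 := congrArg ((ev P Q)^[n0 * k + 1]) e
    rw [(hβ m w (hKsub hw)).2, (hβ m' w' (hKsub hw')).2] at e1
    rcases Nat.le_total m m' with hmm | hmm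
    · obtain ⟨j, rfl⟩ := Nat.exists_eq_add_of_le hmm
      obtain ⟨h1, h2⟩ := hdec m j w hw w' hw' e1
      subst h1
      exact ⟨rfl, h2⟩
    · obtain ⟨j, rfl⟩ := Nat.exists_eq_add_of_le hmm
      obtain ⟨h1, h2⟩ := hdec m' j w' hw' w hw e1.symm
      subst h1
      exact ⟨rfl, h2.symm⟩
  · intro z hz
    rw [mem_closedBall, dist_eq_norm] at hz
    have : z - z0 = (z - y) + (y - z0) := by ring
    rw [this]
    exact (norm_add_le _ _).trans_lt (by linarith)

end Pool.Agent.LSF
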