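import Mathlib

/-!
Definition for group H: systems of homoclinic inverse branches.
-/

namespace Pool.Agent.LSF

/-- contracting inverse branches `β m` of `f^[k0 + n0 * m]` on the compact set `K`, with decodable
images -/
structure HS (f : ℂ → ℂ) (n0 k0 : ℕ) (K : Set ℂ) (β : ℕ → ℂ → ℂ) : Prop where
  cpt : IsCompact K
  ne : K.Nonempty
  maps : ∀ m, Set.MapsTo (β m) K K
  lip : ∀ m, ∀ w ∈ K, ∀ w' ∈ K, ‖β m w - β m w'‖ ≤ 1 / 2 * ‖w - w'‖
  back : ∀ m, ∀ w ∈ K, f^[k0 + n0 * m] (β m w) = w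
  dec : ∀ m m', ∀ w ∈ K, ∀ w' ∈ K, β m w = β m' w' → m = m' ∧ w = w'

end Pool.Agent.LSF
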