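import Pool.Agent.LSF.BG11
import Pool.Agent.LSF.BG10

/-!
BM0: small lemmas for the chain.
-/

namespace Pool.Agent.LSF

open Polynomial Pool.Agent.LenSpec Metric Filter

theorem lab_sub (d n : ℕ) (hn : 1 ≤ n) (c : ℂ) (R : ℝ) (v : ℂ → VI d → ℂ)
    (hv : DifferentiableOn ℂ v (ball c R)) (hnf : ∀ s ∈ ball c R, Nf d (v s)) (ρ ρ' : ℝ)
    (hρ : ρ ≤ R) (h0 : 0 < ρ') (h1 : ρ' ≤ ρ) (z : ℂ → ℂ) (hl : Lab d v c n ρ z) :
    Lab d v c n ρ' z := by
  have hsub : ball c ρ' ⊆ ball c ρ := ball_subset_ball h1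
  refine ⟨h0, hl.diff.mono hsub, fun s hs => hl.per s (hsub hs), hl.one, hl.ne1, ?_⟩
  by_contra hcon
  push Not at hcon
  have hd : DifferentiableOn ℂ (fun s => mu d (v s) n (z s)) (ball c ρ) :=
    (mu_diff d n (ball c ρ) v (hv.mono (ball_subset_ball hρ)) z hl.diff
      (fun s hs k _ => (hl.per s hs).1.1 k)).1
  have han : AnalyticOnNhd ℂ (fun s => mu d (v s) n (z s)) (ball c ρ) :=
    hd.analyticOnNhd isOpen_ball
  have hcon2 : AnalyticOnNhd ℂ (fun _ : ℂ => mu d (v c) n (z c)) (ball c ρ) :=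
    analyticOnNhd_const
  have hev : (fun s => mu d (v s) n (z s)) =ᶠ[nhds c] (fun _ : ℂ => mu d (v c) n (z c)) := by
    filter_upwards [ball_mem_nhds c h0] with s hs
    exact hcon s hs
  have heq := han.eqOn_of_preconnected_of_eventuallyEq hcon2
    (convex_ball c ρ).isPreconnected (mem_ball_self hl.pos) hev
  obtain ⟨s, hs, hs2⟩ := hl.nc
  exact hs2 (heq hs)

theorem restr (A : IntermediateField ℚ ℂ) (hK : K0 ≤ A) (σ : ℂ ≃ₐ[A] ℂ) :
    ∃ τ : ℂ ≃ₐ[K0] ℂ, ∀ x, τ x = σ x := by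
  refine ⟨AlgEquiv.ofRingEquiv (f := σ.toRingEquiv) ?_, fun x => rfl⟩
  intro r
  exact σ.commutes ⟨r, hK r.2⟩

theorem at_open_fin (d : ℕ) (T : Finset ℕ) (hT : ∀ n ∈ T, 1 ≤ n) (c : ℂ) (R : ℝ) (hR : 0 < R)
    (V U : ℂ → VI d → ℂ) (hv : DifferentiableOn ℂ V (ball c R))
    (hnf : ∀ s ∈ ball c R, Nf d (V s)) (hu : DifferentiableOn ℂ U (ball c R))
    (hnf' : ∀ s ∈ ball c R, Nf d (U s)) (h : ∀ n ∈ T, At d (V c) n ∧ At d (U c) n) :
    ∃ r > 0, r ≤ R ∧ ∀ s ∈ ball c r, ∀ n ∈ T, At d (V s) n ∧ At d (U s) n := by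
  classical
  induction T using Finset.induction_on with
  | empty => exact ⟨R, hR, le_rfl, fun s _ n hn => absurd hn (Finset.notMem_empty n)⟩
  | insert a T ha ih =>
    obtain ⟨r, hr, hrR, h1⟩ := ih (fun n hn => hT n (Finset.mem_insert_of_mem hn))
      (fun n hn => h n (Finset.mem_insert_of_mem hn))
    have haT := Finset.mem_insert_self a T
    obtain ⟨r1, hr1, hr1R, h2⟩ := at_open d a (hT a haT) c R hR V hv hnf (h a haT).1
    obtain ⟨r2, hr2, hr2R, h3⟩ := at_open d a (hT a haT) c R hR U hu hnf' (h a haT).2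
    refine ⟨min r (min r1 r2), lt_min hr (lt_min hr1 hr2), (min_le_left _ _).trans hrR, ?_⟩
    intro s hs n hn
    have hs0 : s ∈ ball c r := ball_subset_ball (min_le_left _ _) hs
    have hs1 : s ∈ ball c r1 :=
      ball_subset_ball ((min_le_right _ _).trans (min_le_left _ _)) hs
    have hs2 : s ∈ ball c r2 :=
      ball_subset_ball ((min_le_right _ _).trans (min_le_right _ _)) hs
    rcases Finset.mem_insert.1 hn with rfl | hn
    · exact ⟨h2 s hs1, h3 s hs2⟩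
    · exact h1 s hs0 n hn

theorem xv_fix (d n : ℕ) (A : IntermediateField ℚ ℂ) (σ : ℂ ≃ₐ[A] ℂ) (v : VI d → ℂ) (w : ℂ)
    (hw : w ∈ XV d v n) : (w ∈ A → w ∈ XV d (fun i => σ (v i)) n) ∧
    σ w ∈ XV d (fun i => σ (v i)) n := by
  have h1 : σ w ∈ XV d (fun i => σ (v i)) n := by
    have h2 := (aut_px d σ.toRingEquiv v).2.2.2.1 n
    have h3 : σ.toRingEquiv w ∈ XV d (fun i => σ.toRingEquiv (v i)) n := by
      rw [h2]
      exact Set.mem_image_of_mem _ hw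
    exact h3
  refine ⟨fun hwA => ?_, h1⟩
  have h4 : σ w = w := σ.commutes ⟨w, hwA⟩
  rwa [h4] at h1

end Pool.Agent.LSF
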