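import Pool.Agent.LSF.BM0
import Pool.Agent.LSF.BF9

/-!
BM1 (chain): a generic linked pair can be moved to a position with many common attracting periods.

`St j v u a T n b`: `b i ∈ XV d v (n i)` for `2 d - 2` different periods `n i ∈ MM`, of modulus `1`
for `i ≥ j`, and `T` is a set of `j` periods in `MM` for which both maps have attracting points.

Complete proof.
`st_start`: `MM` is infinite: choose an injective `n : Fin (2d-2) → ℕ` with values in `MM`, and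
`b₀ i ∈ XV d v (n i)` (nonempty, `GP.card`). They are independent (`gp_ind`). `unit_gen` gives
independent unimodular `e i`, `ext_alg` an automorphism `σ` over `K0` with `σ (b₀ i) = e i`. Use
`gp_aut` and `xv`-images (`aut_px`): `St 0` with `T = ∅`.
`st_step`: let `i₀ = ⟨j, _⟩`, `t := b i₀`, `‖t‖ = 1`, `A := ACL (b '' {i | i ≠ i₀})` (countable,
algebraically closed, `K0 ≤ A` by `acl_mono`). `b` is independent, so `t ∉ A` (`ai_not_mem`),
`v i ∈ ACL (range b) ≤ ACL (insert t A)` (`gp_basis`, `acl_insert`). Let `z₀` be a point of exact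
period `n i₀` with multiplier `t`; `z₀, t ∈ ACL (range v)` (`px_acl`). `mk_slice` with
`y = ![z₀, t]`, `sl_lab` (`i = 0`, `j = 1`; `t ∉ A`) gives `Lab d V t (n i₀) ρ (Y 0)`, `ρ ≤ R`.
`at_open_fin` for `T` gives `r`. Put `R' := min r ρ`; `slice_sub` to `ball t R'`, `lab_sub`. `VG` at
`t` holds for `V t = v`, `U t = u`. `stg` (radius `R'`) gives `l₀`; choose `l ∈ MM`, `l ≥ l₀`,
`l ∉ T`. There is `s₁ ∈ ball t R'` with `Par` for both; `par_near` with `Z = A` and slice ball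
`ball t R'`: `s ∈ ball t R'`, `s ∉ A`, `At d (V s) l`, `At d (U s) l`. Let `σ` be the automorphism over
`A` from `GSl.conj`: `V s = σ ∘ v` etc., `GP` at `s` (`GSl.gp`). New `T' = insert l T`, the same `n`,
`b' i := σ (b i)`: `= b i` for `i ≠ i₀` (in `A`), `= s` for `i = i₀`. `b' i ∈ XV d (V s) (n i)`
(`xv_fix`). Restrict `σ` to `K0` (`restr`).
`chain`: induction on `j` composing the automorphisms.
-/

namespace Pool.Agent.LSF

open Polynomial Pool.Agent.LenSpec Metric Filter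

/-- the state after `j` steps of the chain -/
structure St (d : ℕ) (MM : Set ℕ) (k : ℕ) (L : LinkD k) (j : ℕ) (v u : VI d → ℂ)
    (a : Fin k → ℂ) (T : Finset ℕ) (n : Fin (2 * d - 2) → ℕ) (b : Fin (2 * d - 2) → ℂ) :
    Prop where
  gp : GP d MM k L v u a
  inj : Function.Injective n
  nM : ∀ i, n i ∈ MM
  bx : ∀ i, b i ∈ XV d v (n i)
  one : ∀ i : Fin (2 * d - 2), j ≤ i.val → ‖b i‖ = 1
  card : T.card = j
  TM : ∀ m ∈ T, m ∈ MM
  TA : ∀ m ∈ T, At d v m ∧ At d u m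

theorem st_start {d : ℕ} {MM : Set ℕ} {k : ℕ} {L : LinkD k} {v u : VI d → ℂ} {a : Fin k → ℂ}
    (h : GP d MM k L v u a) :
    ∃ (σ : ℂ ≃ₐ[K0] ℂ) (n : Fin (2 * d - 2) → ℕ) (b : Fin (2 * d - 2) → ℂ),
      St d MM k L 0 (fun i => σ (v i)) (fun i => σ (u i)) (fun i => σ (a i)) ∅ n b := by
  classical
  obtain ⟨n, hn⟩ : ∃ n : Fin (2 * d - 2) → ℕ,
      n = fun i => ((h.inf.natEmbedding MM i.val : MM) : ℕ) := ⟨_, rfl⟩
  have hinj : Function.Injective n := by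
    intro i j hij
    rw [hn] at hij
    exact Fin.ext ((h.inf.natEmbedding MM).injective (Subtype.ext hij))
  have hM : ∀ i, n i ∈ MM := by
    intro i
    rw [hn]
    exact Subtype.coe_prop _
  have hb : ∀ i, ∃ w, w ∈ XV d v (n i) := by
    intro i
    have h1 := h.card (n i) (hM i)
    exact Set.nonempty_of_ncard_ne_zero (by omega)
  choose b₀ hb₀ using hb
  have hai := gp_ind h _ le_rfl n hM hinj b₀ hb₀
  obtain ⟨e, he, he1⟩ := unit_gen (2 * d - 2)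
  obtain ⟨σ, hσ⟩ := ext_alg b₀ e hai he
  refine ⟨σ, n, e, ⟨gp_aut h σ, hinj, hM, fun i => ?_, fun i _ => he1 i, rfl, ?_, ?_⟩⟩
  · rw [← hσ i]
    exact (xv_fix d (n i) K0 σ v (b₀ i) (hb₀ i)).2
  · intro m hm
    exact absurd hm (Finset.notMem_empty m)
  · intro m hm
    exact absurd hm (Finset.notMem_empty m)

theorem st_step {d : ℕ} {MM : Set ℕ} {k : ℕ} {L : LinkD k} {j : ℕ} {v u : VI d → ℂ}
    {a : Fin k → ℂ} {T : Finset ℕ} {n : Fin (2 * d - 2) → ℕ} {b : Fin (2 * d - 2) → ℂ}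
    (h : St d MM k L j v u a T n b) (hj : j < 2 * d - 2) :
    ∃ (σ : ℂ ≃ₐ[K0] ℂ) (T' : Finset ℕ) (b' : Fin (2 * d - 2) → ℂ),
      St d MM k L (j + 1) (fun i => σ (v i)) (fun i => σ (u i)) (fun i => σ (a i)) T' n b' := by
  classical
  obtain ⟨i₀, hi₀⟩ : ∃ i₀ : Fin (2 * d - 2), i₀ = ⟨j, hj⟩ := ⟨_, rfl⟩
  obtain ⟨t, htd⟩ : ∃ t, t = b i₀ := ⟨_, rfl⟩
  obtain ⟨S, hS⟩ : ∃ S : Set ℂ, S = b '' {i | i ≠ i₀} := ⟨_, rfl⟩
  obtain ⟨A, hAd⟩ : ∃ A : IntermediateField ℚ ℂ, A = ACL S := ⟨_, rfl⟩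
  have hSc : S.Countable := by rw [hS]; exact (Set.toFinite _).countable
  have hA : (A : Set ℂ).Countable := by rw [hAd]; exact acl_countable S hSc
  have hc : IsAlgClosed A := by rw [hAd]; exact acl_isAlgClosed S
  have hK : K0 ≤ A := by rw [hAd]; exact acl_mono _ _ (Set.empty_subset S)
  have hai := gp_ind h.gp _ le_rfl n h.nM h.inj b h.bx
  have ht : t ∉ A := by rw [hAd, hS, htd]; exact ai_not_mem b hai i₀
  have hbA : ∀ i, i ≠ i₀ → b i ∈ A := by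
    intro i hi
    rw [hAd]
    exact acl_sub S (by rw [hS]; exact ⟨i, hi, rfl⟩)
  have hv : ∀ i, v i ∈ ACL (insert t (A : Set ℂ)) := by
    intro i
    rw [hAd, acl_insert]
    refine acl_mono _ _ ?_ (gp_basis h.gp n h.nM h.inj b h.bx i)
    rintro _ ⟨l, rfl⟩
    by_cases hl : l = i₀
    · left; rw [hl, htd]
    · right; rw [hS]; exact ⟨l, hl, rfl⟩
  have hrv : ∀ x ∈ ACL (Set.range v), x ∈ ACL (insert t (A : Set ℂ)) := by
    intro x hx
    refine acl_le _ _ ?_ hx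
    rintro _ ⟨l, rfl⟩
    exact hv l
  obtain ⟨z₀, hz₀, hmu⟩ := h.bx i₀
  have hp := h.gp.prime (n i₀) (h.nM i₀)
  have hpx := px_acl d (n i₀) hp.one_le v h.gp.vgv.nf z₀ hz₀
  have hmut : mu d v (n i₀) z₀ = t := by rw [htd]; exact hmu
  obtain ⟨y, hy⟩ : ∃ y : Fin 2 → ℂ, y = ![z₀, t] := ⟨_, rfl⟩
  have hy0 : y 0 = z₀ := by rw [hy]; rfl
  have hy1 : y 1 = t := by rw [hy]; rfl
  have hyv : ∀ i, y i ∈ ACL (Set.range v) := by
    intro i
    fin_cases i
    · change y 0 ∈ _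
      rw [hy0]; exact hpx.1
    · change y 1 ∈ _
      rw [hy1, ← hmut]; exact hpx.2
  obtain ⟨R, hR, V, U, As, Y, hG⟩ := mk_slice d MM k L v u a h.gp A hA hc hK t ht hv 2 y hyv
  obtain ⟨ρ, hρ, hρR, hlab⟩ := (sl_lab hG hA hc (fun i => hrv _ (hyv i)) (n i₀) hp.one_le z₀ 0 1
    hy0 (by rw [hy1]; exact ht) (by
      rw [hy1, htd]
      exact h.one i₀ (by rw [hi₀]))).1 hz₀ (by rw [hy1, hmut])
  obtain ⟨r, hr, hrR, hopen⟩ := at_open_fin d T (fun m hm => (h.gp.prime m (h.TM m hm)).one_le)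
    t R hR V U hG.slice.fam.diff hG.slice.fam.nf hG.slice.fam'.diff hG.slice.fam'.nf
    (fun m hm => by rw [hG.V0, hG.U0]; exact h.TA m hm)
  obtain ⟨R', hR'⟩ : ∃ R', R' = min r ρ := ⟨_, rfl⟩
  have hR'0 : 0 < R' := by rw [hR']; exact lt_min hr hρ
  have hR'r : R' ≤ r := by rw [hR']; exact min_le_left _ _
  have hR'ρ : R' ≤ ρ := by rw [hR']; exact min_le_right _ _
  have hR'R : R' ≤ R := hR'ρ.trans hρR
  have hsl := slice_sub d MM t R V U hG.slice t R' hR'0 (ball_subset_ball hR'R)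
  have hlab' := lab_sub d (n i₀) hp.one_le t R V hG.slice.fam.diff hG.slice.fam.nf ρ R' hρR
    hR'0 hR'ρ (Y 0) hlab
  obtain ⟨l₀, hl₀⟩ := stg d MM h.gp.prime t R' V U hsl (by rw [hG.V0]; exact h.gp.vgv)
    (by rw [hG.U0]; exact h.gp.vgu) (n i₀) (h.nM i₀) R' le_rfl (Y 0) hlab' R' hR'0
  obtain ⟨l, hlM, hlT⟩ := h.gp.inf.exists_notMem_finset (T ∪ Finset.range l₀)
  rw [Finset.mem_union, not_or, Finset.mem_range, not_lt] at hlT
  obtain ⟨s₁, hs₁, -, hpv, hpu⟩ := hl₀ l hlM hlT.2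
  obtain ⟨s, -, hs, hsA, hatv, hatu⟩ := par_near d l MM (h.gp.prime l hlM) hlM t R' V U hsl.fam
    hsl.fam' s₁ hs₁ hpv hpu 1 one_pos A hA
  obtain ⟨σ, hσt, hσv, hσu, hσa, hσy⟩ := hG.conj s (ball_subset_ball hR'R hs) hsA
  obtain ⟨τ, hτ⟩ := restr A hK σ
  have hVs : (fun i => τ (v i)) = V s := by
    funext i; rw [hτ, hσv]
  have hUs : (fun i => τ (u i)) = U s := by
    funext i; rw [hτ, hσu]
  refine ⟨τ, insert l T, fun i => τ (b i), ⟨gp_aut h.gp τ, h.inj, h.nM, fun i => ?_,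
    fun i hi => ?_, ?_, ?_, ?_⟩⟩
  · exact (xv_fix d (n i) K0 τ v (b i) (h.bx i)).2
  · have hne : i ≠ i₀ := by
      rw [hi₀]
      rintro rfl
      simp only at hi
      omega
    have h1 : τ (b i) = b i := by
      rw [hτ]
      exact σ.commutes ⟨b i, hbA i hne⟩
    change ‖τ (b i)‖ = 1
    rw [h1]
    exact h.one i (by omega)
  · rw [Finset.card_insert_of_notMem hlT.1, h.card]
  · intro m hm
    rcases Finset.mem_insert.1 hm with rfl | hm
    · exact hlM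
    · exact h.TM m hm
  · intro m hm
    rw [hVs, hUs]
    rcases Finset.mem_insert.1 hm with rfl | hm
    · exact ⟨hatv, hatu⟩
    · exact hopen s (ball_subset_ball hR'r hs) m hm

theorem chain {d : ℕ} {MM : Set ℕ} {k : ℕ} {L : LinkD k} {v u : VI d → ℂ} {a : Fin k → ℂ}
    (h : GP d MM k L v u a) (j : ℕ) (hj : j ≤ 2 * d - 2) :
    ∃ (σ : ℂ ≃ₐ[K0] ℂ) (T : Finset ℕ) (n : Fin (2 * d - 2) → ℕ) (b : Fin (2 * d - 2) → ℂ),
      St d MM k L j (fun i => σ (v i)) (fun i => σ (u i)) (fun i => σ (a i)) T n b := by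
  induction j with
  | zero =>
    obtain ⟨σ, n, b, hst⟩ := st_start h
    exact ⟨σ, ∅, n, b, hst⟩
  | succ j ih =>
    obtain ⟨σ, T, n, b, hst⟩ := ih (by omega)
    obtain ⟨σ', T', b', hst'⟩ := st_step hst (by omega)
    exact ⟨σ.trans σ', T', n, b', hst'⟩

end Pool.Agent.LSF
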