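import Pool.Agent.LSF.BM0
import Pool.Agent.LSF.BF9

/-!
BM2 (core of FD): at a generic linked pair where `2 d - 3` periods are attracting for both maps and
a point `x` of `v` and a point `y` of `u`, both of exact period `m`, have multipliers of modulus
one, the multiplier `μ` of `y` is algebraic over the multiplier `λ` of `x`.

Complete proof. Let `ι := Option (Fin (2 d - 3))`, `c none := λ`, `c (some i) := b i`. The family `c`
consists of elements of `XV d v (..)` for different periods (`hnm`), so it is algebraically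
independent (`gp_ind`, reindexed by `ι ≃ Fin (2 d - 2)`), and `v i ∈ ACL (range c)` (`gp_basis`).
Fix `j` and put `A := ACL (c '' {i | i ≠ some j})`, `t := b j ∉ A` (`ai_not_mem`); `λ ∈ A`,
`v i ∈ ACL (insert t A)`. `mk_slice` with `y = ![x, λ, y, μ]` (all in `ACL (range v)`: `px_acl`, for
`u` combined with `GP.vu`). By `sl_point` there is `ρ > 0` such that on `ball t ρ`:
`PX d (V s) m (Y 0 s)`, `mu = Y 1 s = λ` (`sl_const`), `PX d (U s) m (Y 2 s)`, `mu = Y 3 s`; and by
`at_open_fin` (shrink `ρ`) all `n ∈ T` are attracting for `V s` and `U s`.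
Claim: `1 ≤ ‖Y 3 s‖` for `s ∈ ball t ρ`, `s ∉ A`. Suppose `‖Y 3 s‖ < 1`. Let `σ` be the
automorphism of `GSl.conj` at `s`; `GP` holds at `(V s, U s, As s)`. `c' i := σ (c i)` is independent
(`ai_aut`), `c' none = λ`, `V s i ∈ ACL (range c')` (`acl_aut`). Let
`A' := ACL (c' '' {i | i ≠ none})`, `λ ∉ A'`, `V s i ∈ ACL (insert λ A')`. `mk_slice` for the pair
`(V s, U s, As s)` over `A'` with parameter `λ` and tuple `![Y 0 s, λ]`: families `V'`, `U'` near `λ`;
`sl_lab` gives `Lab d V' λ m ρ' (Y' 0)` (`‖λ‖ = 1`, `λ ∉ A'`). `At d (U s) m` holds, `At d (U s) n` for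
`n ∈ T`: by `at_open` these hold for `U' s'`, `s'` near `λ`. `insert m T` has `2 d - 2` elements. On
a small ball apply `bst` to `slice_symm` of the slice (first family `U'`, second family `V'`,
label of `V'`): `False`.
So `1 ≤ ‖Y 3 s‖` off the countable set `A`, hence on the whole ball by continuity, while
`‖Y 3 t‖ = ‖μ‖ = 1`. The holomorphic function `1 / Y 3` has a maximum of its modulus at `t`, so it
is constant on the ball (maximum principle), so `Y 3` is constant `= μ`; by `sl_nonconst`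
(contrapositive; `μ ∈ ACL (insert t A)`) `μ ∈ A = ACL (c '' {i | i ≠ some j})`.
This holds for all `j`; and `μ ∈ ACL (range u) ≤ ACL (range v) ≤ ACL (range c)`. By `ai_inter` with
`i₀ = none`: `μ ∈ ACL {λ}`.
-/
namespace Pool.Agent.LSF

open Polynomial Pool.Agent.LenSpec Metric Filter

/-- the claim: the multiplier in the second family does not enter the disc -/
theorem BM2_claim {d : ℕ} {MM : Set ℕ} {k : ℕ} {L : LinkD k} {v u : VI d → ℂ} {a : Fin k → ℂ}
    (h : GP d MM k L v u a) (T : Finset ℕ) (hT : T.card + 1 = 2 * d - 2)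
    (hTM : ∀ n ∈ T, n ∈ MM) (hTA : ∀ n ∈ T, At d v n ∧ At d u n) (m : ℕ) (hm : m ∈ MM)
    (hmT : m ∉ T) {N : ℕ} (c : Option (Fin N) → ℂ) (hc : AlgebraicIndependent ℚ c)
    (hv : ∀ i, v i ∈ ACL (Set.range c)) (x y : ℂ) (hx : PX d v m x)
    (hxc : mu d v m x = c none) (h1 : ‖c none‖ = 1) (hy : PX d u m y) : 1 ≤ ‖mu d u m y‖ := by
  by_contra hlt
  push Not at hlt
  have hm1 : 1 ≤ m := (h.prime m hm).one_lt.le
  set A : IntermediateField ℚ ℂ := ACL (c '' {i | i ≠ none}) with hA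
  have hAc : (A : Set ℂ).Countable := acl_countable _ (Set.toFinite _).countable
  have hAa : IsAlgClosed A := acl_isAlgClosed _
  have hAK : K0 ≤ A := acl_mono _ _ (Set.empty_subset _)
  have hlA : c none ∉ A := ai_not_mem c hc none
  have hcA : Set.range c ⊆ insert (c none) (A : Set ℂ) := by
    rintro _ ⟨o, rfl⟩
    by_cases ho : o = none
    · rw [ho]
      exact Set.mem_insert _ _
    · exact Set.mem_insert_of_mem _ (acl_sub _ ⟨o, ho, rfl⟩)
  have hvA : ∀ i, v i ∈ ACL (insert (c none) (A : Set ℂ)) := fun i =>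
    acl_mono _ _ hcA (hv i)
  have hvle : ACL (Set.range v) ≤ ACL (insert (c none) (A : Set ℂ)) := by
    refine acl_le _ _ ?_
    rintro _ ⟨i, rfl⟩
    exact hvA i
  have hpx := px_acl d m hm1 v h.vgv.nf x hx
  have hy0 : ∀ i, (![x, c none] : Fin 2 → ℂ) i ∈ ACL (Set.range v) := by
    intro i
    fin_cases i
    · exact hpx.1
    · show c none ∈ ACL (Set.range v)
      rw [← hxc]
      exact hpx.2
  obtain ⟨R, hR, V, U, As, Y, hS⟩ := mk_slice d MM k L v u a h A hAc hAa hAK (c none) hlA hvA 2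
    ![x, c none] hy0
  obtain ⟨ρ, hρ, hρR, hlab⟩ := (sl_lab hS hAc hAa (fun i => hvle (hy0 i)) m hm1 x 0 1 rfl hlA
    h1).1 hx hxc.symm
  have hTp : ∀ n ∈ insert m T, n ∈ MM := by
    intro n hn
    rcases Finset.mem_insert.1 hn with rfl | hn
    · exact hm
    · exact hTM n hn
  have hSl := hS.slice
  obtain ⟨r, hr, hrR, hAt⟩ := at_open_fin d (insert m T)
    (fun n hn => (h.prime n (hTp n hn)).one_lt.le) (c none) R hR U U hSl.fam'.diff hSl.fam'.nf
    hSl.fam'.diff hSl.fam'.nf (by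
      intro n hn
      have : At d (U (c none)) n := by
        rw [hS.U0]
        rcases Finset.mem_insert.1 hn with rfl | hn
        · exact ⟨y, hy, hlt⟩
        · exact (hTA n hn).2
      exact ⟨this, this⟩)
  have hsub : Slice d MM (c none) r V U :=
    slice_sub d MM (c none) R V U hSl (c none) r hr (ball_subset_ball hrR)
  have hsym : Slice d MM (c none) r U V := slice_symm d MM _ _ _ _ hsub
  have hlab' : Lab d V (c none) m (min ρ r) (Y 0) :=
    lab_sub d m hm1 (c none) R V hSl.fam.diff hSl.fam.nf ρ (min ρ r) hρR (lt_min hρ hr)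
      (min_le_left _ _) (Y 0) hlab
  refine bst d MM h.prime h.inf (c none) r U V hsym (insert m T) ?_ hTp
    (fun s hs n hn => (hAt s hs n hn).1) m hm (min ρ r) (min_le_right _ _) (Y 0) hlab'
  rw [Finset.card_insert_of_notMem hmT, hT]

theorem fd_core {d : ℕ} {MM : Set ℕ} {k : ℕ} {L : LinkD k} {v u : VI d → ℂ} {a : Fin k → ℂ}
    (h : GP d MM k L v u a) (T : Finset ℕ) (hT : T.card + 1 = 2 * d - 2)
    (hTM : ∀ n ∈ T, n ∈ MM) (hTA : ∀ n ∈ T, At d v n ∧ At d u n) (m : ℕ) (hm : m ∈ MM)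
    (hmT : m ∉ T) (n : Fin (2 * d - 3) → ℕ) (hn : Function.Injective n) (hnM : ∀ i, n i ∈ MM)
    (hnm : ∀ i, n i ≠ m) (b : Fin (2 * d - 3) → ℂ) (hb : ∀ i, b i ∈ XV d v (n i)) (x y : ℂ)
    (hx : PX d v m x) (hx1 : ‖mu d v m x‖ = 1) (hy : PX d u m y) (hy1 : ‖mu d u m y‖ = 1) :
    mu d u m y ∈ ACL {mu d v m x} := by
  have hd : 2 ≤ d := h.vgv.nf.two_le
  have hm1 : 1 ≤ m := (h.prime m hm).one_lt.le
  set l : ℂ := mu d v m x with hl
  set μ : ℂ := mu d u m y with hμ
  have hlX : l ∈ XV d v m := ⟨x, hx, rfl⟩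
  set c : Option (Fin (2 * d - 3)) → ℂ := fun o => o.elim l b with hcd
  set nn : Option (Fin (2 * d - 3)) → ℕ := fun o => o.elim m n with hnnd
  have hcX : ∀ o, c o ∈ XV d v (nn o) := by
    intro o
    cases o with
    | none => exact hlX
    | some i => exact hb i
  have hnnM : ∀ o, nn o ∈ MM := by
    intro o
    cases o with
    | none => exact hm
    | some i => exact hnM i
  have hnni : Function.Injective nn := by
    intro o o' hoo
    cases o with
    | none =>
      cases o' with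
      | none => rfl
      | some i => exact absurd hoo.symm (hnm i)
    | some i =>
      cases o' with
      | none => exact absurd hoo (hnm i)
      | some i' => rw [hn hoo]
  let e : Fin (2 * d - 2) ≃ Option (Fin (2 * d - 3)) :=
    (finCongr (by omega : 2 * d - 2 = 2 * d - 3 + 1)).trans (finSuccEquiv (2 * d - 3))
  have hind : AlgebraicIndependent ℚ c := by
    have h1 := gp_ind h (2 * d - 2) le_rfl (fun i => nn (e i)) (fun i => hnnM _)
      (hnni.comp e.injective) (fun i => c (e i)) (fun i => hcX _)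
    have h2 := h1.comp e.symm e.symm.injective
    have h3 : (fun i => c (e i)) ∘ e.symm = c := by
      ext o
      simp
    rwa [h3] at h2
  have hbas : ∀ i, v i ∈ ACL (Set.range c) := by
    intro i
    have h1 := gp_basis h (fun i => nn (e i)) (fun i => hnnM _) (hnni.comp e.injective)
      (fun i => c (e i)) (fun i => hcX _) i
    have h3 : Set.range (fun i => c (e i)) = Set.range c := by
      exact e.surjective.range_comp c
    rwa [h3] at h1
  have hvle : ACL (Set.range v) ≤ ACL (Set.range c) := by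
    refine acl_le _ _ ?_
    rintro _ ⟨i, rfl⟩
    exact hbas i
  have hule : ACL (Set.range u) ≤ ACL (Set.range v) := by
    refine acl_le _ _ ?_
    rintro _ ⟨i, rfl⟩
    exact h.vu i
  have hpx := px_acl d m hm1 v h.vgv.nf x hx
  have hpy := px_acl d m hm1 u h.vgu.nf y hy
  have hμv : μ ∈ ACL (Set.range v) := hule hpy.2
  refine ai_inter c hind none μ (hvle hμv) fun o ho => ?_
  obtain ⟨j, rfl⟩ := Option.ne_none_iff_exists'.1 ho
  set A : IntermediateField ℚ ℂ := ACL (c '' {i | i ≠ some j}) with hA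
  have hAc : (A : Set ℂ).Countable := acl_countable _ (Set.toFinite _).countable
  have hAa : IsAlgClosed A := acl_isAlgClosed _
  have hAK : K0 ≤ A := acl_mono _ _ (Set.empty_subset _)
  set t : ℂ := c (some j) with ht
  have htA : t ∉ A := ai_not_mem c hind (some j)
  have hlA : l ∈ A := acl_sub _ ⟨none, by simp, rfl⟩
  have hcA : Set.range c ⊆ insert t (A : Set ℂ) := by
    rintro _ ⟨o, rfl⟩
    by_cases ho : o = some j
    · rw [ho]
      exact Set.mem_insert _ _
    · exact Set.mem_insert_of_mem _ (acl_sub _ ⟨o, ho, rfl⟩)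
  have hvA : ∀ i, v i ∈ ACL (insert t (A : Set ℂ)) := fun i =>
    acl_mono _ _ hcA (hbas i)
  have hvle' : ACL (Set.range v) ≤ ACL (insert t (A : Set ℂ)) := by
    refine acl_le _ _ ?_
    rintro _ ⟨i, rfl⟩
    exact hvA i
  have hy0 : ∀ i, (![x, l, y, μ] : Fin 4 → ℂ) i ∈ ACL (Set.range v) := by
    intro i
    fin_cases i
    · exact hpx.1
    · exact hpx.2
    · exact hule hpy.1
    · exact hμv
  obtain ⟨R, hR, V, U, As, Y, hS⟩ := mk_slice d MM k L v u a h A hAc hAa hAK t htA hvA 4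
    ![x, l, y, μ] hy0
  have hSl := hS.slice
  obtain ⟨ρ₁, hρ₁, hρ₁R, hp1⟩ := (sl_point hS hAc m hm1 x 0 1 rfl).1 hx
    (h.vgv.mult_ne m hm x hx).1 rfl
  obtain ⟨ρ₂, hρ₂, hρ₂R, hp2⟩ := (sl_point hS hAc m hm1 y 2 3 rfl).2 hy
    (h.vgu.mult_ne m hm y hy).1 rfl
  obtain ⟨ρ₃, hρ₃, hρ₃R, hp3⟩ := at_open_fin d T
    (fun n hn => (h.prime n (hTM n hn)).one_lt.le) t R hR V U hSl.fam.diff hSl.fam.nf
    hSl.fam'.diff hSl.fam'.nf (by
      intro n hn
      rw [hS.V0, hS.U0]
      exact hTA n hn)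
  set ρ : ℝ := min (min ρ₁ ρ₂) ρ₃ with hρd
  have hρ : 0 < ρ := lt_min (lt_min hρ₁ hρ₂) hρ₃
  have hρR : ρ ≤ R := (min_le_right _ _).trans hρ₃R
  have hs1 : ball t ρ ⊆ ball t ρ₁ := ball_subset_ball ((min_le_left _ _).trans (min_le_left _ _))
  have hs2 : ball t ρ ⊆ ball t ρ₂ := ball_subset_ball ((min_le_left _ _).trans (min_le_right _ _))
  have hs3 : ball t ρ ⊆ ball t ρ₃ := ball_subset_ball (min_le_right _ _)
  have hsR : ball t ρ ⊆ ball t R := ball_subset_ball hρR
  have hcon := sl_const hS hAc 1 hlA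
  -- the claim
  have hclaim : ∀ s ∈ ball t ρ, s ∉ A → 1 ≤ ‖Y 3 s‖ := by
    intro s hs hsA
    obtain ⟨σ, -, hσv, -, -, -⟩ := hS.conj s (hsR hs) hsA
    have hgp := hS.gp s (hsR hs) hsA
    have hc' : AlgebraicIndependent ℚ (fun i => σ (c i)) := ai_aut (σ : ℂ ≃+* ℂ) c hind
    have hσl : σ l = l := σ.commutes ⟨l, hlA⟩
    have hv' : ∀ i, V s i ∈ ACL (Set.range (fun i => σ (c i))) := by
      intro i
      rw [← hσv i]
      have h1 := acl_aut (σ : ℂ ≃+* ℂ) (Set.range c) (v i) (hbas i)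
      have h2 : ((σ : ℂ ≃+* ℂ) '' Set.range c) = Set.range (fun i => σ (c i)) := by
        rw [← Set.range_comp]
        rfl
      rw [h2] at h1
      exact h1
    obtain ⟨q1, q2⟩ := hp1 s (hs1 hs)
    obtain ⟨q3, q4⟩ := hp2 s (hs2 hs)
    have hY1 : Y 1 s = l := hcon s (hsR hs)
    rw [← q4]
    refine BM2_claim hgp T hT hTM (fun n hn => hp3 s (hs3 hs) n hn) m hm hmT
      (fun i => σ (c i)) hc' hv' (Y 0 s) (Y 2 s) q1 ?_ ?_ q3
    · rw [q2, hY1]
      exact hσl.symm
    · show ‖σ l‖ = 1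
      rw [hσl]
      exact hx1
  have hdY : DifferentiableOn ℂ (Y 3) (ball t ρ) := (hS.dY 3).mono hsR
  have hge : ∀ s ∈ ball t ρ, 1 ≤ ‖Y 3 s‖ := by
    intro s hs
    by_contra hlt
    push Not at hlt
    have hopen : IsOpen {s ∈ ball t ρ | ‖Y 3 s‖ < 1} := by
      have h1 : ContinuousOn (fun s => ‖Y 3 s‖) (ball t ρ) := hdY.continuousOn.norm
      exact h1.isOpen_inter_preimage isOpen_ball isOpen_Iio
    obtain ⟨s', ⟨hs', hlt'⟩, hs'A⟩ := (hAc.dense_compl ℝ).inter_open_nonempty _ hopen ⟨s, hs, hlt⟩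
    exact absurd (hclaim s' hs' hs'A) (not_le.2 hlt')
  have hne : ∀ s ∈ ball t ρ, Y 3 s ≠ 0 := by
    intro s hs h0
    have := hge s hs
    rw [h0, norm_zero] at this
    linarith
  have hY3 : Y 3 t = μ := hS.Y0 3
  have hmax : IsMaxOn (norm ∘ (fun s => (Y 3 s)⁻¹)) (ball t ρ) t := by
    intro s hs
    show ‖(Y 3 s)⁻¹‖ ≤ ‖(Y 3 t)⁻¹‖
    rw [norm_inv, norm_inv, hY3, hy1, inv_one]
    exact inv_le_one_of_one_le₀ (hge s hs)
  have hconst := Complex.eqOn_of_isPreconnected_of_isMaxOn_norm (convex_ball t ρ).isPreconnected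
    isOpen_ball (hdY.inv hne) (mem_ball_self hρ) hmax
  by_contra hμA
  obtain ⟨s, hs, hne'⟩ := sl_nonconst hS hAc hAa 3 hμA (hvle' hμv) ρ hρ hρR
  refine hne' ?_
  have h2 := hconst hs
  simp only [Function.const_apply] at h2
  have h3 : Y 3 s = Y 3 t := inv_injective h2
  rw [h3]
  exact hY3

end Pool.Agent.LSF
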