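import Pool.Agent.LSF.BM0
import Pool.Agent.LSF.BA5
import Pool.Agent.LSF.BT12

/-!
BM3a: the linking map in a slice, near a generic parameter.

Complete proof. `s₀ ∉ A`, so `GP` and `VG` hold at `s₀`. Let `x(s)`, `y(s)` be the local branches of
the periodic points of `V` and `U` through `x`, `y` (`branch`, multipliers `≠ 1` by `VG`), with their
uniqueness radii. `c(s) := L.b m (As s) (mu d (V s) m (x s))` is continuous near `s₀`: the
denominator `mev (L.D m) (As s) (..)` is not zero at `s₀` (`GP.lnk`), everything is holomorphic.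
`c s₀ = μ := mu d (U s₀) m y` by hypothesis. At `s₀` all roots of `fixF d m (U s₀)` are simple
(`vg_nodup`), so by `reg_simple` there are holomorphic `w i`, `i : Fin (d^m+1)` listing the
`m`-periodic points of `U s` near `s₀`; `M i s := mu d (U s) m (w i s)` is holomorphic. For
`s ∉ A` near `s₀`, `c s ∈ XV d (U s) m` (`GP.lnk` at `s`), so `c s = M i s` for an `i` for which
`w i s` has exact period `m`. For the finitely many `i` with `M i s₀ ≠ μ` continuity shows
`M i s ≠ c s` near `s₀`. If `M i s₀ = μ` and `w i s` has exact period `m` for some `s` arbitrarily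
close to `s₀`, then `w i s₀` has exact period `m` too (otherwise it is a fixed point, simple, so
`w i s` is a fixed point for `s` near `s₀`), so by `VG.same` `w i s₀ = (fv d (U s₀))^[q] y`, and then
`w i s = (fv d (U s))^[q] (y s)` near `s₀` (both are continuous branches of simple roots through the
same point, `pf_root`), so `M i s = mu d (U s) m (y s)` (multipliers are constant on cycles, see
`orb_facts` in BT12). So there is `ε₀ > 0` such that for `s ∈ ball s₀ ε₀`, `s ∉ A`: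
`c s = mu d (U s) m (y s)`. Finally for `x'`, `y'` as in the statement with `ε₀` small:
`x' = x s`, `y' = y s` by uniqueness of periodic points near `x`, `y`.
-/

namespace Pool.Agent.LSF

open Polynomial Pool.Agent.LenSpec Metric Filter

theorem BM3a_mev {k : ℕ} (F : MvPolynomial (Option (Fin k)) K0) (a : Fin k → ℂ → ℂ)
    (x : ℂ → ℂ) (s₀ : ℂ) (ha : ∀ i, ContinuousAt (a i) s₀) (hx : ContinuousAt x s₀) :
    ContinuousAt (fun s => mev F (fun i => a i s) (x s)) s₀ := by
  induction F using MvPolynomial.induction_on with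
  | C c =>
    simp only [mev, MvPolynomial.aeval_C]
    exact continuousAt_const
  | add p q hp hq =>
    have : (fun s => mev (p + q) (fun i => a i s) (x s)) =
        fun s => mev p (fun i => a i s) (x s) + mev q (fun i => a i s) (x s) := by
      funext s
      simp only [mev, map_add]
    rw [this]
    exact hp.add hq
  | mul_X p o hp =>
    have : (fun s => mev (p * MvPolynomial.X o) (fun i => a i s) (x s)) =
        fun s => mev p (fun i => a i s) (x s) * (o.elim (x s) (fun i => a i s)) := by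
      funext s
      simp only [mev, map_mul, MvPolynomial.aeval_X]
    rw [this]
    refine hp.mul ?_
    cases o with
    | none => exact hx
    | some i => exact ha i

/-- a root near a simple root that stays of exact period `m` has the same multiplier as a given
branch with the same value at `s₀` -/
theorem BM3a_branch (d m : ℕ) (MM : Set ℕ) (hm : m.Prime) (hmM : m ∈ MM) (s₀ : ℂ) (r : ℝ)
    (hr : 0 < r) (U : ℂ → VI d → ℂ) (hU : DifferentiableOn ℂ U (ball s₀ r))
    (hnf : ∀ s ∈ ball s₀ r, Nf d (U s)) (hvg : VG d MM (U s₀)) (yb w : ℂ → ℂ)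
    (hyd : DifferentiableOn ℂ yb (ball s₀ r)) (hyp : ∀ s ∈ ball s₀ r, PX d (U s) m (yb s))
    (hwd : DifferentiableOn ℂ w (ball s₀ r))
    (hwp : ∀ s ∈ ball s₀ r, (fv d (U s))^[m] (w s) = w s)
    (heq : mu d (U s₀) m (w s₀) = mu d (U s₀) m (yb s₀)) :
    ∀ᶠ s in nhds s₀, PX d (U s) m (w s) → mu d (U s) m (w s) = mu d (U s) m (yb s) := by
  have h0 : s₀ ∈ ball s₀ r := mem_ball_self hr
  have hd : 2 ≤ d := (hnf s₀ h0).two_le
  have hne : mu d (U s₀) m (w s₀) ≠ 1 := by
    rw [heq]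
    exact (hvg.mult_ne m hmM _ (hyp s₀ h0)).1
  -- uniqueness of the root near `w s₀`
  have hPF := (fixF_pf d m hd hm.one_le (ball s₀ r) U hU).1
  have hroot : (fixF d m (U s₀)).eval (w s₀) = 0 :=
    (fixF_root d m hm.one_le _ (hnf s₀ h0) _).mpr (hwp s₀ h0)
  have hsimple : (derivative (fixF d m (U s₀))).eval (w s₀) ≠ 0 := fun hc =>
    hne ((fixF_simple d m hm.one_le _ (hnf s₀ h0) _ (hwp s₀ h0)).mp hc)
  obtain ⟨r₁, hr₁, ε, hε, hsub, zz, _, _, huniq⟩ := pf_root isOpen_ball hPF s₀ (w s₀) h0 hroot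
    hsimple
  have huq : ∀ s ∈ ball s₀ r₁, ∀ a, ‖a - w s₀‖ < ε → (fv d (U s))^[m] a = a → a = zz s :=
    fun s hs a ha hfa => (huniq s hs).2.2.2 a ha
      ((fixF_root d m hm.one_le _ (hnf s (hsub hs)) _).mpr hfa)
  have hwc : ContinuousAt w s₀ := (hwd.differentiableAt (isOpen_ball.mem_nhds h0)).continuousAt
  have hw1 : ∀ᶠ s in nhds s₀, ‖w s - w s₀‖ < ε := by
    have h1 := (hwc.sub (continuousAt_const (y := w s₀))).norm
    exact h1.eventually_lt_const (by simpa using hε)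
  rcases per_prime d m hm _ (hnf s₀ h0) (w s₀) (hwp s₀ h0) with hfix | hpx
  · -- the fixed point case
    have hPX1 : PX d (U s₀) 1 (w s₀) := by
      refine ⟨⟨rm_per (nf_rm (hnf s₀ h0)) hm.one_le (hwp s₀ h0), ?_⟩, ?_⟩
      · rw [Function.iterate_one]
        exact hfix
      · intro k hk hk1
        omega
    have hmu1 : mu d (U s₀) 1 (w s₀) ≠ 1 := by
      have := hvg.fix_ne _ hfix 1 le_rfl
      rwa [pow_one] at this
    obtain ⟨r₂, hr₂, hr₂r, ε₂, hε₂, φ, hφd, hφ0, hφ, _⟩ := branch d 1 le_rfl s₀ r hr U hU hnf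
      (w s₀) hPX1 hmu1
    have hφc : ContinuousAt φ s₀ :=
      (hφd.differentiableAt (isOpen_ball.mem_nhds (mem_ball_self hr₂))).continuousAt
    have hφ1 : ∀ᶠ s in nhds s₀, ‖φ s - w s₀‖ < ε := by
      have h1 := (hφc.sub (continuousAt_const (y := w s₀))).norm
      exact h1.eventually_lt_const (by simpa [hφ0] using hε)
    filter_upwards [hw1, hφ1, isOpen_ball.mem_nhds (mem_ball_self hr₁ : s₀ ∈ ball s₀ r₁),
      isOpen_ball.mem_nhds (mem_ball_self hr₂ : s₀ ∈ ball s₀ r₂)] with s h1 h2 h3 h4 hP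
    exfalso
    have hφf : fv d (U s) (φ s) = φ s := by
      have := (hφ s h4).1.1.2
      rwa [Function.iterate_one] at this
    have e1 : w s = zz s := huq s h3 _ h1 (hwp s (hsub h3))
    have e2 : φ s = zz s := huq s h3 _ h2 (Function.iterate_fixed hφf m)
    have h5 := hP.2 1 one_pos hm.one_lt
    rw [Function.iterate_one, e1, ← e2] at h5
    exact h5 hφf
  · obtain ⟨q, hq⟩ := hvg.same m hmM _ _ (hyp s₀ h0) hpx heq.symm
    have hd2 := (mu_diff d q (ball s₀ r) U hU yb hyd (fun s hs k _ =>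
      rm_per (nf_rm (hnf s hs)) hm.one_le (hyp s hs).1.2 k)).2 q le_rfl
    have hqc : ContinuousAt (fun s => (fv d (U s))^[q] (yb s)) s₀ :=
      (hd2.differentiableAt (isOpen_ball.mem_nhds h0)).continuousAt
    have hq1 : ∀ᶠ s in nhds s₀, ‖(fv d (U s))^[q] (yb s) - w s₀‖ < ε := by
      have h1 := (hqc.sub (continuousAt_const (y := w s₀))).norm
      exact h1.eventually_lt_const (by simpa [← hq] using hε)
    filter_upwards [hw1, hq1, isOpen_ball.mem_nhds (mem_ball_self hr₁ : s₀ ∈ ball s₀ r₁),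
      isOpen_ball.mem_nhds h0] with s h1 h2 h3 h4 _
    have e1 : w s = zz s := huq s h3 _ h1 (hwp s (hsub h3))
    have e2 : (fv d (U s))^[q] (yb s) = zz s := by
      refine huq s h3 _ h2 ?_
      rw [← Function.iterate_add_apply, add_comm, Function.iterate_add_apply, (hyp s h4).1.2]
    rw [e1, ← e2]
    obtain ⟨_, ho2, _, ho4, _⟩ := orb_facts _ _ m hm.one_le (yb s) (hyp s h4)
    exact (ho2 _ (ho4 q)).2.2.2

theorem pair_near {d : ℕ} {MM : Set ℕ} {k : ℕ} {L : LinkD k} {A : IntermediateField ℚ ℂ} {t : ℂ}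
    {R : ℝ} {v u : VI d → ℂ} {a : Fin k → ℂ} {n : ℕ} {y₀ : Fin n → ℂ} {V U : ℂ → VI d → ℂ}
    {As : Fin k → ℂ → ℂ} {Y : Fin n → ℂ → ℂ} (h : GSl d MM k L A t R v u a n y₀ V U As Y)
    (hA : (A : Set ℂ).Countable) (m : ℕ) (hm : m ∈ MM) (s₀ : ℂ) (hs : s₀ ∈ ball t R)
    (hsA : s₀ ∉ A) (x y : ℂ) (hx : PX d (V s₀) m x) (hy : PX d (U s₀) m y)
    (hb : mu d (U s₀) m y = L.b m (fun i => As i s₀) (mu d (V s₀) m x)) :
    ∃ ε₀ > 0, ∀ s ∈ ball s₀ ε₀, s ∈ ball t R → s ∉ A → ∀ x' y' : ℂ, PX d (V s) m x' →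
      ‖x' - x‖ < ε₀ → PX d (U s) m y' → ‖y' - y‖ < ε₀ →
      mu d (U s) m y' = L.b m (fun i => As i s) (mu d (V s) m x') := by
  have g := h.gp s₀ hs hsA
  have hmp : m.Prime := g.prime m hm
  have hm1 : 1 ≤ m := hmp.one_le
  obtain ⟨r, hr, hrs⟩ := Metric.isOpen_iff.mp isOpen_ball s₀ hs
  have hVd := h.slice.fam.diff.mono hrs
  have hUd := h.slice.fam'.diff.mono hrs
  have hVn : ∀ s ∈ ball s₀ r, Nf d (V s) := fun s hs => h.slice.fam.nf s (hrs hs)
  have hUn : ∀ s ∈ ball s₀ r, Nf d (U s) := fun s hs => h.slice.fam'.nf s (hrs hs)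
  obtain ⟨r₁, hr₁, hr₁r, ε₁, hε₁, xb, hxd, hx0, hxb, hxm⟩ := branch d m hm1 s₀ r hr V hVd hVn x hx
    (g.vgv.mult_ne m hm x hx).1
  obtain ⟨r₂, hr₂, hr₂r, ε₂, hε₂, yb, hyd, hy0, hyb, hym⟩ := branch d m hm1 s₀ r hr U hUd hUn y hy
    (g.vgu.mult_ne m hm y hy).1
  -- all roots of `U`
  have hd : 2 ≤ d := (hUn s₀ (mem_ball_self hr)).two_le
  have hPF := (fixF_pf d m hd hm1 (ball s₀ r) U hUd).1
  obtain ⟨r₃, hr₃, w, hwd, hwr⟩ := reg_simple isOpen_ball hPF s₀ (mem_ball_self hr)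
    (vg_nodup d m MM hmp hm (U s₀) g.vgu)
  set r₄ : ℝ := min r (min r₂ r₃) with hr₄
  have hr₄0 : 0 < r₄ := lt_min hr (lt_min hr₂ hr₃)
  have hb1 : ball s₀ r₄ ⊆ ball s₀ r := ball_subset_ball (min_le_left _ _)
  have hb2 : ball s₀ r₄ ⊆ ball s₀ r₂ := ball_subset_ball ((min_le_right _ _).trans (min_le_left _ _))
  have hb3 : ball s₀ r₄ ⊆ ball s₀ r₃ :=
    ball_subset_ball ((min_le_right _ _).trans (min_le_right _ _))
  have h04 : s₀ ∈ ball s₀ r₄ := mem_ball_self hr₄0
  have hwp : ∀ i, ∀ s ∈ ball s₀ r₄, (fv d (U s))^[m] (w i s) = w i s := by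
    intro i s hs
    have h1 := hwr s (hb3 hs)
    have hmem : w i s ∈ (fixF d m (U s)).roots := by
      rw [h1]
      exact Multiset.mem_map.mpr ⟨i, Finset.mem_univ_val i, rfl⟩
    exact (fixF_root d m hm1 _ (hUn s (hb1 hs)) _).mp (isRoot_of_mem_roots hmem)
  -- the linking function
  have hAc : ∀ i, ContinuousAt (As i) s₀ := fun i =>
    ((h.dA i).differentiableAt (isOpen_ball.mem_nhds hs)).continuousAt
  have hmc : ContinuousAt (fun s => mu d (V s) m (xb s)) s₀ :=
    (hxm.differentiableAt (isOpen_ball.mem_nhds (mem_ball_self hr₁))).continuousAt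
  have hXV : mu d (V s₀) m (xb s₀) ∈ XV d (V s₀) m := ⟨xb s₀, by rw [hx0]; exact hx, rfl⟩
  have hden := (g.lnk m hm _ hXV).1
  have hcc : ContinuousAt (fun s => L.b m (fun i => As i s) (mu d (V s) m (xb s))) s₀ := by
    have h1 := BM3a_mev (L.N m) As (fun s => mu d (V s) m (xb s)) s₀ hAc hmc
    have h2 := BM3a_mev (L.D m) As (fun s => mu d (V s) m (xb s)) s₀ hAc hmc
    exact h1.div h2 hden
  have hev : ∀ i, ∀ᶠ s in nhds s₀, PX d (U s) m (w i s) →
      mu d (U s) m (w i s) = L.b m (fun i => As i s) (mu d (V s) m (xb s)) →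
      mu d (U s) m (w i s) = mu d (U s) m (yb s) := by
    intro i
    by_cases hi : mu d (U s₀) m (w i s₀) = mu d (U s₀) m (yb s₀)
    · have h1 := BM3a_branch d m MM hmp hm s₀ r₄ hr₄0 U (hUd.mono hb1) (fun s hs => hUn s (hb1 hs))
        g.vgu yb (w i) (hyd.mono hb2) (fun s hs => (hyb s (hb2 hs)).1) ((hwd i).mono hb3) (hwp i) hi
      filter_upwards [h1] with s h2 h3 _
      exact h2 h3
    · have h1 := (mu_diff d m (ball s₀ r₄) U (hUd.mono hb1) (w i) ((hwd i).mono hb3)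
        (fun s hs k _ => rm_per (nf_rm (hUn s (hb1 hs))) hm1 (hwp i s hs) k)).1
      have h2 : ContinuousAt (fun s => mu d (U s) m (w i s)) s₀ :=
        (h1.differentiableAt (isOpen_ball.mem_nhds h04)).continuousAt
      have h3 : mu d (U s₀) m (w i s₀) ≠
          L.b m (fun i => As i s₀) (mu d (V s₀) m (xb s₀)) := by
        rw [hx0, ← hb, ← hy0]
        exact hi
      have h4 := (h2.sub hcc).eventually_ne (sub_ne_zero.mpr h3)
      filter_upwards [h4] with s h5 _ h6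
      exact absurd h6 (sub_ne_zero.mp h5)
  have hevall := eventually_all.mpr hev
  rw [Metric.eventually_nhds_iff_ball] at hevall
  obtain ⟨r₅, hr₅, hkey⟩ := hevall
  refine ⟨min (min r₄ r₅) (min r₁ (min ε₁ ε₂)),
    lt_min (lt_min hr₄0 hr₅) (lt_min hr₁ (lt_min hε₁ hε₂)), ?_⟩
  intro s hs' hst hsA' x' y' hx' hxx hy' hyy
  have hs4 : s ∈ ball s₀ r₄ := ball_subset_ball ((min_le_left _ _).trans (min_le_left _ _)) hs'
  have hs5 : s ∈ ball s₀ r₅ := ball_subset_ball ((min_le_left _ _).trans (min_le_right _ _)) hs'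
  have hs1 : s ∈ ball s₀ r₁ := ball_subset_ball ((min_le_right _ _).trans (min_le_left _ _)) hs'
  have hx1 : ‖x' - x‖ < ε₁ := hxx.trans_le
    ((min_le_right _ _).trans ((min_le_right _ _).trans (min_le_left _ _)))
  have hy1 : ‖y' - y‖ < ε₂ := hyy.trans_le
    ((min_le_right _ _).trans ((min_le_right _ _).trans (min_le_right _ _)))
  have ex : x' = xb s := (hxb s hs1).2.2 x' hx1 hx'.1.2
  have ey : y' = yb s := (hyb s (hb2 hs4)).2.2 y' hy1 hy'.1.2
  have gs := h.gp s hst hsA'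
  have hXVs : mu d (V s) m (xb s) ∈ XV d (V s) m := ⟨xb s, by rw [← ex]; exact hx', rfl⟩
  obtain ⟨z', hz', hz'm⟩ := (gs.lnk m hm _ hXVs).2.1
  have hz'r : z' ∈ (fixF d m (U s)).roots := by
    rw [mem_roots (fixF_monic d m hd hm1 (U s)).1.ne_zero]
    exact (fixF_root d m hm1 _ (hUn s (hb1 hs4)) z').mpr hz'.1.2
  rw [hwr s (hb3 hs4)] at hz'r
  obtain ⟨i, _, hi⟩ := Multiset.mem_map.mp hz'r
  have h6 := hkey s hs5 i
  rw [hi] at h6
  have h7 := h6 hz' hz'm
  rw [ex, ey, ← h7]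
  exact hz'm

end Pool.Agent.LSF
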