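import Pool.Agent.LSF.BM1
import Pool.Agent.LSF.BM2
import Pool.Agent.LSF.BM3a
import Pool.Agent.LSF.BF10

/-!
BM3 (FD): for all large `m ∈ MM` the linking map is algebraic, `b x ∈ ACL {x}`, and there are
conjugate pairs with both entries in the unit disc.

Complete proof. `chain` with `j = 2 d - 3` (note `2 ≤ d`): `σ₀`, `T`, `n`, `b` with `St` at
`w = σ₀ (v, u, a)` (write `(v₁, u₁, a₁)`). `i₀ := ⟨2 d - 3, _⟩`, `t := b i₀`, `‖t‖ = 1`,
`A := ACL (b '' {i | i ≠ i₀})`; slice, label and attracting periods on a ball `ball t R'` exactly as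
in `st_step` (BM1) (tuple `![z₀, t]`). `fda` (BF10) for the restricted slice gives `l₀`. Let `m ∈ MM`,
`m ≥ l₀` and larger than all elements of `T` and all `n i`. Apply `fda` with `Z = A`:
`s ∈ ball t R'`, `s ∉ A`, `x`, `y`. `GP` holds at `(V s, U s, As s) = σ (v₁, u₁, a₁)`, `σ` over `A`. For
`i ≠ i₀`: `b i ∈ A`, so `b i ∈ XV d (V s) (n i)` (`xv_fix`). `fd_core` (with the `2 d - 3` elements
`b i`, `i ≠ i₀`, i.e. `i.val < 2 d - 3`) gives `μ := mu d (U s) m y ∈ ACL {λ}`,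
`λ := mu d (V s) m x`. `gp_link_self` at `s`: `μ = L.b m (As s) λ`, and for all `x' ∈ XV d (V s) m`:
`L.b m (As s) x' ∈ ACL {x'}` and conversely. Pull back by the automorphism `σ σ₀` over `K0`
(`aut_px`, `b_aut`, `acl_aut`): first conclusion.
Second conclusion: `pair_near` at `s₀ = s` gives `ε₀`. The function `λ(s') := mu d (V s') m (x s')`
along the branch through `x` (`branch`) is not constant near `s` (it has modulus `1` at `s` and,
by the last statement of `fda`, modulus `< 1` at points arbitrarily close), so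
`{s' | λ(s') ∈ Zc}` is countable near `s` (a nonconstant holomorphic function takes each value on
a discrete set). Apply the last statement of `fda` with small `ε ≤ ε₀` and `Z' = A ∪` this set:
`s'`, `x'`, `y'` with `‖mu x'‖ < 1`, `‖mu y'‖ < 1`; `x' = x(s')` by uniqueness (choose `ε` small), so
`ξ := mu d (V s') m x' ∉ Zc`, and `mu d (U s') m y' = L.b m (As s') ξ` by `pair_near`. With `σ'` over
`A` from `GSl.conj` at `s'`: `V s' = σ' ∘ v₁`, so `ξ = σ' (σ₀ x₀)` for an `x₀ ∈ XV d v m`, and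
`L.b m (As s') ξ = σ' (σ₀ (L.b m a x₀))`. Take `σ := σ' ∘ σ₀` over `K0`.
-/
namespace Pool.Agent.LSF

open Polynomial Pool.Agent.LenSpec Metric Filter

/-- identity theorem on a ball -/
theorem BM3_ident {c : ℂ} {r : ℝ} {g : ℂ → ℂ} (hg : DifferentiableOn ℂ g (ball c r)) (A : Set ℂ)
    (hA : A ⊆ ball c r) (hAc : ¬ A.Countable) (h0 : ∀ τ ∈ A, g τ = 0) :
    ∀ τ ∈ ball c r, g τ = 0 := by
  have han : AnalyticOnNhd ℂ g (ball c r) := hg.analyticOnNhd isOpen_ball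
  have hacc : ∃ x ∈ A, AccPt x (𝓟 A) := by
    by_contra hno
    push Not at hno
    have hd : DiscreteTopology A := discreteTopology_of_noAccPts hno
    exact hAc (Set.countable_coe_iff.1 (TopologicalSpace.separableSpace_iff_countable.1
      (inferInstance : TopologicalSpace.SeparableSpace A)))
  obtain ⟨x, hxA, hx⟩ := hacc
  have hfr : ∃ᶠ y in nhdsWithin x {x}ᶜ, g y = 0 := by
    have h1 := accPt_iff_frequently.1 hx
    rw [frequently_nhdsWithin_iff]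
    exact h1.mono fun y hy => ⟨h0 y hy.2, hy.1⟩
  exact fun τ hτ => han.eqOn_zero_of_preconnected_of_frequently_eq_zero
    (convex_ball _ _).isPreconnected (hA hxA) hfr hτ

/-- a nonconstant holomorphic function takes values in a countable set on a countable set -/
theorem BM3_countable {c : ℂ} {r : ℝ} {g : ℂ → ℂ} (hg : DifferentiableOn ℂ g (ball c r))
    (s s' : ℂ) (hs : s ∈ ball c r) (hs' : s' ∈ ball c r) (hne : g s ≠ g s') (Z : Set ℂ)
    (hZ : Z.Countable) : ({τ ∈ ball c r | g τ ∈ Z}).Countable := by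
  have h1 : {τ ∈ ball c r | g τ ∈ Z} ⊆ ⋃ w ∈ Z, {τ ∈ ball c r | g τ - w = 0} := by
    rintro τ ⟨hτ, hτZ⟩
    exact Set.mem_biUnion hτZ ⟨hτ, sub_self _⟩
  refine Set.Countable.mono h1 (hZ.biUnion fun w _ => ?_)
  by_contra hc
  have h2 := BM3_ident (hg.sub (differentiableOn_const w)) _ (fun x hx => hx.1) hc
    (fun x hx => hx.2)
  exact hne ((sub_eq_zero.1 (h2 s hs)).trans (sub_eq_zero.1 (h2 s' hs')).symm)

theorem fd_main {d : ℕ} {MM : Set ℕ} {k : ℕ} {L : LinkD k} {v u : VI d → ℂ} {a : Fin k → ℂ}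
    (h : GP d MM k L v u a) :
    ∃ l₀ : ℕ, ∀ m ∈ MM, l₀ ≤ m →
      (∀ x ∈ XV d v m, L.b m a x ∈ ACL {x} ∧ x ∈ ACL {L.b m a x}) ∧
      ∀ Zc : Set ℂ, Zc.Countable → ∃ σ : ℂ ≃ₐ[K0] ℂ, ∃ x ∈ XV d v m,
        ‖σ x‖ < 1 ∧ ‖σ (L.b m a x)‖ < 1 ∧ σ x ∉ Zc := by
  have hd : 2 ≤ d := h.vgv.nf.two_le
  obtain ⟨σ₀, T, n, b, hSt⟩ := chain h (2 * d - 3) (by omega)
  set v₁ : VI d → ℂ := fun i => σ₀ (v i) with hv₁
  set u₁ : VI d → ℂ := fun i => σ₀ (u i) with hu₁
  set a₁ : Fin k → ℂ := fun i => σ₀ (a i) with ha₁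
  have hg1 := hSt.gp
  let i₀ : Fin (2 * d - 2) := ⟨2 * d - 3, by omega⟩
  set t : ℂ := b i₀ with ht
  have ht1 : ‖t‖ = 1 := hSt.one i₀ le_rfl
  have hind : AlgebraicIndependent ℚ b :=
    gp_ind hg1 (2 * d - 2) le_rfl n hSt.nM hSt.inj b hSt.bx
  have hbas := gp_basis hg1 n hSt.nM hSt.inj b hSt.bx
  set A : IntermediateField ℚ ℂ := ACL (b '' {i | i ≠ i₀}) with hA
  have hAc : (A : Set ℂ).Countable := acl_countable _ (Set.toFinite _).countable
  have hAa : IsAlgClosed A := acl_isAlgClosed _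
  have hAK : K0 ≤ A := acl_mono _ _ (Set.empty_subset _)
  have htA : t ∉ A := ai_not_mem b hind i₀
  have hbA : Set.range b ⊆ insert t (A : Set ℂ) := by
    rintro _ ⟨o, rfl⟩
    by_cases ho : o = i₀
    · rw [ho]
      exact Set.mem_insert _ _
    · exact Set.mem_insert_of_mem _ (acl_sub _ ⟨o, ho, rfl⟩)
  have hvA : ∀ i, v₁ i ∈ ACL (insert t (A : Set ℂ)) := fun i =>
    acl_mono _ _ hbA (hbas i)
  have hvle : ACL (Set.range v₁) ≤ ACL (insert t (A : Set ℂ)) := by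
    refine acl_le _ _ ?_
    rintro _ ⟨i, rfl⟩
    exact hvA i
  have hn1 : 1 ≤ n i₀ := (hg1.prime _ (hSt.nM i₀)).one_lt.le
  obtain ⟨z₀, hz₀, hz₀t⟩ := hSt.bx i₀
  have hpx := px_acl d (n i₀) hn1 v₁ hg1.vgv.nf z₀ hz₀
  have hy0 : ∀ i, (![z₀, t] : Fin 2 → ℂ) i ∈ ACL (Set.range v₁) := by
    intro i
    fin_cases i
    · exact hpx.1
    · show t ∈ ACL (Set.range v₁)
      rw [ht, ← hz₀t]
      exact hpx.2
  obtain ⟨R, hR, V, U, As, Y, hS⟩ := mk_slice d MM k L v₁ u₁ a₁ hg1 A hAc hAa hAK t htA hvA 2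
    ![z₀, t] hy0
  have hSl := hS.slice
  obtain ⟨ρ, hρ, hρR, hlab⟩ := (sl_lab hS hAc hAa (fun i => hvle (hy0 i)) (n i₀) hn1 z₀ 0 1 rfl
    htA ht1).1 hz₀ hz₀t.symm
  obtain ⟨r, hr, hrR, hAt⟩ := at_open_fin d T
    (fun n hn => (h.prime n (hSt.TM n hn)).one_lt.le) t R hR V U hSl.fam.diff hSl.fam.nf
    hSl.fam'.diff hSl.fam'.nf (by
      intro n hn
      rw [hS.V0, hS.U0]
      exact hSt.TA n hn)
  set R' : ℝ := min r ρ with hR'd
  have hR' : 0 < R' := lt_min hr hρ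
  have hR'r : R' ≤ r := min_le_left _ _
  have hR'R : R' ≤ R := hR'r.trans hrR
  have hsub : Slice d MM t R' V U :=
    slice_sub d MM t R V U hSl t R' hR' (ball_subset_ball hR'R)
  have hlab' : Lab d V t (n i₀) R' (Y 0) :=
    lab_sub d (n i₀) hn1 t R V hSl.fam.diff hSl.fam.nf ρ R' hρR hR' (min_le_right _ _) (Y 0) hlab
  obtain ⟨l₀, hl₀⟩ := fda d MM h.prime h.inf t R' V U hsub (by rw [hS.V0]; exact hg1.vgv)
    (by rw [hS.U0]; exact hg1.vgu) T (by rw [hSt.card]; omega) hSt.TM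
    (fun s hs n hn => hAt s (ball_subset_ball hR'r hs) n hn) (n i₀) (hSt.nM i₀) R' le_rfl (Y 0)
    hlab'
  refine ⟨l₀ + (∑ i ∈ T, i) + (∑ i, n i) + 1, fun m hm hlm => ?_⟩
  have hm1 : 1 ≤ m := (h.prime m hm).one_lt.le
  have hmT : m ∉ T := by
    intro hmT
    have := Finset.single_le_sum (f := fun i : ℕ => i) (fun i _ => Nat.zero_le i) hmT
    omega
  have hnm : ∀ i, n i ≠ m := by
    intro i hi
    have := Finset.single_le_sum (f := n) (fun i _ => Nat.zero_le _) (Finset.mem_univ i)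
    omega
  obtain ⟨s, hs, hsA, x, y, hx, hx1, hxne, hy, hy1, hyne, hnear⟩ := hl₀ m hm (by omega)
    (A : Set ℂ) hAc
  have hsR : s ∈ ball t R := ball_subset_ball hR'R hs
  have hgs := hS.gp s hsR hsA
  -- the automorphisms
  have haut : ∀ s ∈ ball t R, s ∉ A → ∃ τ : ℂ ≃ₐ[K0] ℂ, (fun i => τ (v i)) = V s ∧
      (fun i => τ (a i)) = (fun i => As i s) := by
    intro s hs hsA
    obtain ⟨σ, -, h1, -, h2, -⟩ := hS.conj s hs hsA
    obtain ⟨τ', hτ'⟩ := restr A hAK σ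
    refine ⟨σ₀.trans τ', ?_, ?_⟩
    · ext i
      rw [← h1 i, AlgEquiv.trans_apply, hτ']
    · ext i
      rw [← h2 i, AlgEquiv.trans_apply, hτ']
  obtain ⟨σ, -, hσv, -, -, -⟩ := hS.conj s hsR hsA
  have hσv' : (fun i => σ (v₁ i)) = V s := funext hσv
  have hbX : ∀ i, i ≠ i₀ → b i ∈ XV d (V s) (n i) := by
    intro i hi
    have h1 := (xv_fix d (n i) A σ v₁ (b i) (hSt.bx i)).1 (acl_sub _ ⟨i, hi, rfl⟩)
    rw [hσv'] at h1
    exact h1
  have hcore := fd_core hgs T (by rw [hSt.card]; omega) hSt.TM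
    (fun n hn => hAt s (ball_subset_ball hR'r hs) n hn) m hm hmT
    (fun i => n ⟨i.val, by omega⟩) (fun i j hij => by
      have := hSt.inj hij
      simp only [Fin.mk.injEq] at this
      exact Fin.ext this) (fun i => hSt.nM _) (fun i => hnm _)
    (fun i => b ⟨i.val, by omega⟩) (fun i => hbX _ (by
      intro h0
      have h2 := i.2
      have h3 : i.val = 2 * d - 3 := congrArg Fin.val h0
      omega)) x y hx hx1 hy hy1
  obtain ⟨hb, hself⟩ := gp_link_self hgs m hm (mu d (V s) m x) (mu d (U s) m y) ⟨x, hx, rfl⟩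
    ⟨y, hy, rfl⟩ hcore
  refine ⟨?_, ?_⟩
  · -- first conclusion
    intro x₀ hx₀
    obtain ⟨τ, hτv, hτa⟩ := haut s hsR hsA
    have hτx : τ x₀ ∈ XV d (V s) m := by
      have h1 := ((aut_px d (τ : ℂ ≃+* ℂ) v).2.2.2.1 m).symm.subset ⟨x₀, hx₀, rfl⟩
      have h2 : (fun i => (τ : ℂ ≃+* ℂ) (v i)) = V s := hτv
      rw [h2] at h1
      exact h1
    obtain ⟨e1, e2⟩ := hself (τ x₀) hτx
    have hba := b_aut L m τ a x₀
    rw [hτa] at hba
    rw [hba] at e1 e2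
    have f1 := acl_aut (τ.symm : ℂ ≃+* ℂ) _ _ e1
    have f2 := acl_aut (τ.symm : ℂ ≃+* ℂ) _ _ e2
    rw [Set.image_singleton] at f1 f2
    have g1 : (τ.symm : ℂ ≃+* ℂ) (τ (L.b m a x₀)) = L.b m a x₀ := τ.symm_apply_apply _
    have g2 : (τ.symm : ℂ ≃+* ℂ) (τ x₀) = x₀ := τ.symm_apply_apply _
    rw [g1, g2] at f1 f2
    exact ⟨f1, f2⟩
  · -- second conclusion
    intro Zc hZc
    obtain ⟨ε₀, hε₀, hpn⟩ := pair_near hS hAc m hm s hsR hsA x y hx hy hb
    have hRs : 0 < R - dist s t := sub_pos.2 hsR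
    have hbs : ball s (R - dist s t) ⊆ ball t R := by
      refine ball_subset_ball' ?_
      linarith
    obtain ⟨ρb, hρb, hρbR, εb, hεb, z, hzd, hz0, hzp, hzm⟩ := branch d m hm1 s (R - dist s t) hRs
      V (hSl.fam.diff.mono hbs) (fun s' hs' => hSl.fam.nf s' (hbs hs')) x hx hxne
    -- the multiplier along the branch is not constant
    obtain ⟨s₁, hs₁, -, -, x₁, y₁, hx₁, hx₁x, hx₁1, -, -, -⟩ := hnear (min ρb εb)
      (lt_min hρb hεb) ∅ Set.countable_empty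
    have hs₁b : s₁ ∈ ball s ρb := ball_subset_ball (min_le_left _ _) hs₁
    have hx₁z : x₁ = z s₁ := (hzp s₁ hs₁b).2.2 x₁ (hx₁x.trans_le (min_le_right _ _)) hx₁.1.2
    have hsb : s ∈ ball s ρb := mem_ball_self hρb
    have hncon : mu d (V s) m (z s) ≠ mu d (V s₁) m (z s₁) := by
      intro h0
      rw [hz0, ← hx₁z] at h0
      rw [← h0, hx1] at hx₁1
      exact lt_irrefl _ hx₁1
    have hcount := BM3_countable hzm s s₁ hsb hs₁b hncon Zc hZc
    obtain ⟨s', hs', hs't, hs'Z, x', y', hx', hx'x, hx'1, hy', hy'y, hy'1⟩ :=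
      hnear (min (min ρb εb) ε₀) (lt_min (lt_min hρb hεb) hε₀)
        ((A : Set ℂ) ∪ {τ ∈ ball s ρb | mu d (V τ) m (z τ) ∈ Zc}) (hAc.union hcount)
    have hs'A : s' ∉ A := fun h0 => hs'Z (Or.inl h0)
    have hs'R : s' ∈ ball t R := ball_subset_ball hR'R hs't
    have hs'b : s' ∈ ball s ρb :=
      ball_subset_ball ((min_le_left _ _).trans (min_le_left _ _)) hs'
    have hx'z : x' = z s' := (hzp s' hs'b).2.2 x'
      (hx'x.trans_le ((min_le_left _ _).trans (min_le_right _ _))) hx'.1.2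
    have hlink := hpn s' (ball_subset_ball (min_le_right _ _) hs') hs'R hs'A x' y' hx'
      (hx'x.trans_le (min_le_right _ _)) hy' (hy'y.trans_le (min_le_right _ _))
    obtain ⟨τ, hτv, hτa⟩ := haut s' hs'R hs'A
    have hξ : mu d (V s') m x' ∈ XV d (V s') m := ⟨x', hx', rfl⟩
    have hξ' : mu d (V s') m x' ∈ (τ : ℂ ≃+* ℂ) '' XV d v m := by
      have h1 := (aut_px d (τ : ℂ ≃+* ℂ) v).2.2.2.1 m
      have h2 : (fun i => (τ : ℂ ≃+* ℂ) (v i)) = V s' := hτv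
      rw [h2] at h1
      rw [← h1]
      exact hξ
    obtain ⟨x₀, hx₀, hx₀ξ⟩ := hξ'
    have hx₀ξ' : τ x₀ = mu d (V s') m x' := hx₀ξ
    have hba := b_aut L m τ a x₀
    rw [hτa, hx₀ξ', ← hlink] at hba
    refine ⟨τ, x₀, hx₀, ?_, ?_, ?_⟩
    · rw [hx₀ξ']
      exact hx'1
    · rw [← hba]
      exact hy'1
    · rw [hx₀ξ']
      intro h0
      refine hs'Z (Or.inr ⟨hs'b, ?_⟩)
      rw [← hx'z]
      exact h0

end Pool.Agent.LSF
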