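import Pool.Agent.LSF.BM3
import Pool.Agent.LSF.BG6

/-!
BM4 (P1): a conjugate of a linked pair of multipliers never has one entry in the open disc and the
other on the unit circle.
-/

namespace Pool.Agent.LSF

open Polynomial Pool.Agent.LenSpec Metric Filter

namespace BM4

/-- successive choice of conjugates of linked pairs with both entries in the open disc -/
theorem choose_seq {d : ℕ} {MM : Set ℕ} {k : ℕ} {L : LinkD k} {v : VI d → ℂ} {a : Fin k → ℂ}
    {l₀ : ℕ}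
    (hfd : ∀ m ∈ MM, l₀ ≤ m → ∀ Zc : Set ℂ, Zc.Countable → ∃ σ : ℂ ≃ₐ[K0] ℂ, ∃ x ∈ XV d v m,
        ‖σ x‖ < 1 ∧ ‖σ (L.b m a x)‖ < 1 ∧ σ x ∉ Zc) (t : ℂ) :
    ∀ (n : ℕ) (ms : Fin n → ℕ), (∀ j, ms j ∈ MM ∧ l₀ ≤ ms j) →
      ∃ (x' : Fin n → ℂ) (σ' : Fin n → (ℂ ≃ₐ[K0] ℂ)),
        (∀ j, x' j ∈ XV d v (ms j) ∧ ‖σ' j (x' j)‖ < 1 ∧ ‖σ' j (L.b (ms j) a (x' j))‖ < 1) ∧
        ∀ j, σ' j (x' j) ∉ ACL (insert t ((fun i => σ' i (x' i)) '' {i | i < j})) := by
  intro n
  induction n with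
  | zero =>
    intro ms _
    exact ⟨Fin.elim0, Fin.elim0, fun j => j.elim0, fun j => j.elim0⟩
  | succ n ih =>
    intro ms hms
    obtain ⟨x', σ', h1, h2⟩ := ih (fun j => ms j.castSucc) (fun j => hms _)
    obtain ⟨σ, x, hx, hx1, hx2, hx3⟩ := hfd (ms (Fin.last n)) (hms _).1 (hms _).2
      (ACL (insert t (Set.range (fun i => σ' i (x' i)))) : Set ℂ)
      (acl_countable _ ((Set.countable_range _).insert _))
    refine ⟨Fin.snoc (α := fun _ => ℂ) x' x, Fin.snoc (α := fun _ => ℂ ≃ₐ[K0] ℂ) σ' σ, ?_, ?_⟩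
    · intro j
      refine Fin.lastCases ?_ (fun i => ?_) j
      · simp only [Fin.snoc_last]
        exact ⟨hx, hx1, hx2⟩
      · simp only [Fin.snoc_castSucc]
        exact h1 i
    · intro j
      refine Fin.lastCases ?_ (fun i => ?_) j
      · simp only [Fin.snoc_last]
        intro hcon
        apply hx3
        refine acl_mono _ _ ?_ hcon
        apply Set.insert_subset_insert
        rintro y ⟨i, hi, rfl⟩
        have hi' : i < Fin.last n := hi
        obtain ⟨i', rfl⟩ := Fin.exists_castSucc_eq.mpr hi'.ne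
        simp only [Fin.snoc_castSucc]
        exact ⟨i', rfl⟩
      · simp only [Fin.snoc_castSucc]
        intro hcon
        apply h2 i
        refine acl_mono _ _ ?_ hcon
        apply Set.insert_subset_insert
        rintro y ⟨l, hl, rfl⟩
        have hl' : l < i.castSucc := hl
        have hll : l < Fin.last n := lt_of_lt_of_le hl' (Fin.le_last _)
        obtain ⟨l', rfl⟩ := Fin.exists_castSucc_eq.mpr hll.ne
        simp only [Fin.snoc_castSucc]
        exact ⟨l', by simpa using hl', rfl⟩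

theorem choose_periods {MM : Set ℕ} (hinf : MM.Infinite) (l₀ m n : ℕ) :
    ∃ ms : Fin n → ℕ, (∀ j, ms j ∈ MM ∧ l₀ ≤ ms j) ∧ (∀ j, ms j ≠ m) ∧ Function.Injective ms := by
  have h1 : (MM \ (Set.Iic (l₀ + m))).Infinite := hinf.sdiff (Set.finite_Iic _)
  have e := h1.natEmbedding
  refine ⟨fun j => (e j.val : ℕ), ?_, ?_, ?_⟩
  · intro j
    have h2 := (e j.val).2
    refine ⟨h2.1, ?_⟩
    have h3 := h2.2
    simp only [Set.mem_Iic, not_le] at h3
    change l₀ ≤ (e j.val : ℕ)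
    omega
  · intro j
    have h2 := (e j.val).2
    have h3 := h2.2
    simp only [Set.mem_Iic, not_le] at h3
    change (e j.val : ℕ) ≠ m
    omega
  · intro i j hij
    have h2 : e i.val = e j.val := Subtype.ext hij
    exact Fin.ext (e.injective h2)

theorem gp_basis' {d : ℕ} {MM : Set ℕ} {k : ℕ} {L : LinkD k} {v u : VI d → ℂ} {a : Fin k → ℂ}
    (h : GP d MM k L v u a) {N : ℕ} (hN : N = 2 * d - 2) (m : Fin N → ℕ)
    (hm : ∀ i, m i ∈ MM) (hi : Function.Injective m) (x : Fin N → ℂ)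
    (hx : ∀ i, x i ∈ XV d v (m i)) : ∀ j, v j ∈ ACL (Set.range x) := by
  subst hN
  exact gp_basis h m hm hi x hx

/-- the final contradictions, for a generic pair in good position -/
theorem core {d : ℕ} {MM : Set ℕ} {k : ℕ} {L : LinkD k} {v u : VI d → ℂ} {a : Fin k → ℂ}
    (h : GP d MM k L v u a) (S : Set ℂ) (hS : S.Countable) (t c : ℂ) (m : ℕ) (hm : m ∈ MM)
    (ht : t ∈ XV d v m) (hc : c ∈ XV d u m) (htS : t ∉ ACL S) (hcS : c ∉ ACL S)
    (hvS : ∀ i, v i ∈ ACL (insert t S)) (T : Finset ℕ) (hT : T.card + 1 = 2 * d - 2)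
    (hmT : m ∉ T) (hTM : ∀ n ∈ T, n ∈ MM) (hTA : ∀ n ∈ T, At d v n ∧ At d u n) :
    ¬ (‖t‖ < 1 ∧ ‖c‖ = 1) ∧ ¬ (‖t‖ = 1 ∧ ‖c‖ < 1) := by
  classical
  obtain ⟨z, hz, hzt⟩ := ht
  obtain ⟨w, hw, hwc⟩ := hc
  have hm1 : 1 ≤ m := (h.prime m hm).one_le
  have hnfv : Nf d v := h.vgv.nf
  have hnfu : Nf d u := h.vgu.nf
  have hAc : ((ACL S : IntermediateField ℚ ℂ) : Set ℂ).Countable := acl_countable _ hS
  have hAcl : IsAlgClosed (ACL S) := acl_isAlgClosed S
  have hK : K0 ≤ ACL S := acl_mono _ _ (Set.empty_subset _)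
  have hv' : ∀ i, v i ∈ ACL (insert t (ACL S : Set ℂ)) := fun i => (acl_insert S t _).2 (hvS i)
  have hvr : ACL (Set.range v) ≤ ACL (insert t (ACL S : Set ℂ)) := by
    apply acl_le
    rintro y ⟨i, rfl⟩
    exact hv' i
  have hur : ACL (Set.range u) ≤ ACL (Set.range v) := by
    apply acl_le
    rintro y ⟨i, rfl⟩
    exact h.vu i
  have pz := px_acl d m hm1 v hnfv z hz
  have pw := px_acl d m hm1 u hnfu w hw
  have hzt' : mu d v m z = t := hzt
  have hwc' : mu d u m w = c := hwc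
  have hy : ∀ i, (![z, t, w, c] : Fin 4 → ℂ) i ∈ ACL (Set.range v) := by
    intro i
    fin_cases i
    · exact pz.1
    · change t ∈ _
      rw [← hzt']
      exact pz.2
    · exact hur pw.1
    · change c ∈ _
      rw [← hwc']
      exact hur pw.2
  obtain ⟨R, hR, V, U, As, Y, G⟩ := mk_slice d MM k L v u a h (ACL S) hAc hAcl hK t htS hv' 4
    ![z, t, w, c] hy
  have hyA : ∀ i, (![z, t, w, c] : Fin 4 → ℂ) i ∈ ACL (insert t (ACL S : Set ℂ)) :=
    fun i => hvr (hy i)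
  have hTi : (insert m T).card = 2 * d - 2 := by
    rw [Finset.card_insert_of_notMem hmT, hT]
  have hTiM : ∀ n ∈ insert m T, n ∈ MM := by
    intro n hn
    rcases Finset.mem_insert.1 hn with rfl | hn
    · exact hm
    · exact hTM n hn
  have hTi1 : ∀ n ∈ insert m T, 1 ≤ n := fun n hn => (h.prime n (hTiM n hn)).one_le
  constructor
  · rintro ⟨h1, h2⟩
    have hA1 : ∀ n ∈ insert m T, At d (V t) n ∧ At d (V t) n := by
      intro n hn
      rw [G.V0]
      rcases Finset.mem_insert.1 hn with rfl | hn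
      · have : At d v n := ⟨z, hz, by rw [hzt']; exact h1⟩
        exact ⟨this, this⟩
      · exact ⟨(hTA n hn).1, (hTA n hn).1⟩
    obtain ⟨r, hr, hrR, hAt⟩ := at_open_fin d (insert m T) hTi1 t R hR V V G.slice.fam.diff
      G.slice.fam.nf G.slice.fam.diff G.slice.fam.nf hA1
    obtain ⟨ρ, hρ, hρR, hlab⟩ := (sl_lab G hAc hAcl hyA m hm1 w 2 3 rfl hcS h2).2 hw hwc'.symm
    have hpos : 0 < min r ρ := lt_min hr hρ
    have hsub : ball t (min r ρ) ⊆ ball t R :=
      ball_subset_ball ((min_le_left _ _).trans hrR)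
    have hsl := slice_sub d MM t R V U G.slice t (min r ρ) hpos hsub
    have hl' := lab_sub d m hm1 t R U G.slice.fam'.diff G.slice.fam'.nf ρ (min r ρ) hρR hpos
      (min_le_right _ _) _ hlab
    exact bst d MM h.prime h.inf t (min r ρ) V U hsl (insert m T) hTi hTiM
      (fun s hs n hn => (hAt s (ball_subset_ball (min_le_left _ _) hs) n hn).1) m hm (min r ρ)
      le_rfl _ hl'
  · rintro ⟨h1, h2⟩
    have hA1 : ∀ n ∈ insert m T, At d (U t) n ∧ At d (U t) n := by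
      intro n hn
      rw [G.U0]
      rcases Finset.mem_insert.1 hn with rfl | hn
      · have : At d u n := ⟨w, hw, by rw [hwc']; exact h2⟩
        exact ⟨this, this⟩
      · exact ⟨(hTA n hn).2, (hTA n hn).2⟩
    obtain ⟨r, hr, hrR, hAt⟩ := at_open_fin d (insert m T) hTi1 t R hR U U G.slice.fam'.diff
      G.slice.fam'.nf G.slice.fam'.diff G.slice.fam'.nf hA1
    obtain ⟨ρ, hρ, hρR, hlab⟩ := (sl_lab G hAc hAcl hyA m hm1 z 0 1 rfl htS h1).1 hz hzt'.symm
    have hpos : 0 < min r ρ := lt_min hr hρ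
    have hsub : ball t (min r ρ) ⊆ ball t R :=
      ball_subset_ball ((min_le_left _ _).trans hrR)
    have hsl := slice_symm d MM t (min r ρ) V U
      (slice_sub d MM t R V U G.slice t (min r ρ) hpos hsub)
    have hl' := lab_sub d m hm1 t R V G.slice.fam.diff G.slice.fam.nf ρ (min r ρ) hρR hpos
      (min_le_right _ _) _ hlab
    exact bst d MM h.prime h.inf t (min r ρ) U V hsl (insert m T) hTi hTiM
      (fun s hs n hn => (hAt s (ball_subset_ball (min_le_left _ _) hs) n hn).1) m hm (min r ρ)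
      le_rfl _ hl'

end BM4

theorem p1 {d : ℕ} {MM : Set ℕ} {k : ℕ} {L : LinkD k} {v u : VI d → ℂ} {a : Fin k → ℂ}
    (h : GP d MM k L v u a) :
    ∃ l₀ : ℕ, ∀ m ∈ MM, l₀ ≤ m → ∀ x ∈ XV d v m, ∀ σ : ℂ ≃ₐ[K0] ℂ,
      ¬ (‖σ x‖ < 1 ∧ ‖σ (L.b m a x)‖ = 1) ∧ ¬ (‖σ x‖ = 1 ∧ ‖σ (L.b m a x)‖ < 1) := by
  classical
  obtain ⟨l₀, hfd⟩ := fd_main h
  refine ⟨l₀, ?_⟩
  intro m hm hlm x hx σ
  have hd : 2 ≤ d := h.vgv.nf.two_le
  obtain ⟨n, hn⟩ : ∃ n, n + 1 = 2 * d - 2 := ⟨2 * d - 3, by omega⟩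
  obtain ⟨ms, hms, hmsm, hmsi⟩ := BM4.choose_periods h.inf l₀ m n
  obtain ⟨x', σ', hx', hind⟩ := BM4.choose_seq (fun m hm hl => (hfd m hm hl).2) (σ x) n ms hms
  -- the families
  let X : Fin (n + 1) → ℂ := Fin.cons x x'
  let M : Fin (n + 1) → ℕ := Fin.cons m ms
  let Tt : Fin (n + 1) → ℂ := Fin.cons (σ x) (fun j => σ' j (x' j))
  let Cc : Fin (n + 1) → ℂ := Fin.cons (σ (L.b m a x)) (fun j => σ' j (L.b (ms j) a (x' j)))
  have hMM : ∀ i, M i ∈ MM := by
    intro i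
    refine Fin.cases ?_ (fun j => ?_) i
    · exact hm
    · exact (hms j).1
  have hMl : ∀ i, l₀ ≤ M i := by
    intro i
    refine Fin.cases ?_ (fun j => ?_) i
    · exact hlm
    · exact (hms j).2
  have hMi : Function.Injective M := by
    rw [Fin.cons_injective_iff]
    refine ⟨?_, hmsi⟩
    rintro ⟨j, hj⟩
    exact hmsm j hj
  have hXM : ∀ i, X i ∈ XV d v (M i) := by
    intro i
    refine Fin.cases ?_ (fun j => ?_) i
    · exact hx
    · exact (hx' j).1
  have hXi : AlgebraicIndependent ℚ X := gp_ind h (n + 1) hn.le M hMM hMi X hXM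
  have hTi : AlgebraicIndependent ℚ Tt := by
    apply ai_of_not_mem
    intro i
    refine Fin.cases ?_ (fun j => ?_) i
    · intro hcon
      have h0 : Tt '' {j | j < 0} = ∅ := by
        ext y
        simp
      rw [h0] at hcon
      have h1 : σ x ∈ K0 := hcon
      have h2 : σ (algebraMap K0 ℂ ⟨σ x, h1⟩) = algebraMap K0 ℂ ⟨σ x, h1⟩ := σ.commutes _
      have h3 : σ (σ x) = σ x := h2
      have h4 : σ x = x := σ.injective h3
      exact gp_trans h m hm x hx (h4 ▸ h1)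
    · intro hcon
      apply hind j
      have h1 : Tt j.succ = σ' j (x' j) := rfl
      rw [h1] at hcon
      refine acl_mono _ _ ?_ hcon
      rintro y ⟨l, hl, rfl⟩
      revert hl
      refine Fin.cases ?_ (fun i => ?_) l
      · intro _
        exact Set.mem_insert _ _
      · intro hl
        refine Set.mem_insert_of_mem _ ⟨i, ?_, rfl⟩
        have hl' : i.succ < j.succ := hl
        exact Fin.succ_lt_succ_iff.mp hl'
  obtain ⟨γ, hγ⟩ := autp (n + 1) X (fun i => L.b (M i) a (X i)) Tt Cc hXi hTi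
    (fun i => ((hfd (M i) (hMM i) (hMl i)).1 (X i) (hXM i)).1) (by
      intro i
      refine Fin.cases ?_ (fun j => ?_) i
      · exact ⟨σ, rfl, rfl⟩
      · exact ⟨σ' j, rfl, rfl⟩)
  have hG := gp_aut h γ
  have hγx : γ x = σ x := (hγ 0).1
  have hγc : γ (L.b m a x) = σ (L.b m a x) := (hγ 0).2
  have hXV : ∀ n, XV d (fun i => γ (v i)) n = γ '' XV d v n :=
    (aut_px d (γ : ℂ ≃+* ℂ) v).2.2.2.1
  have hTX : ∀ i, Tt i ∈ XV d (fun i => γ (v i)) (M i) := by
    intro i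
    rw [hXV, ← (hγ i).1]
    exact ⟨X i, hXM i, rfl⟩
  have hCX : ∀ i, Cc i ∈ XV d (fun i => γ (u i)) (M i) := by
    intro i
    have h1 := (hG.lnk (M i) (hMM i) (Tt i) (hTX i)).2.1
    have h2 : L.b (M i) (fun i => γ (a i)) (Tt i) = Cc i := by
      rw [← (hγ i).1, ← (hγ i).2, b_aut]
    rwa [h2] at h1
  let S : Set ℂ := Tt '' {j | j ≠ 0}
  have htS : σ x ∉ ACL S := ai_not_mem Tt hTi 0
  have hcS : σ (L.b m a x) ∉ ACL S := by
    intro hcon
    apply htS
    have h1 := ((hfd m hm hlm).1 x hx).2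
    have h2 := acl_aut (γ : ℂ ≃+* ℂ) _ _ h1
    have h3 : σ x ∈ ACL {σ (L.b m a x)} := by
      rw [← hγx, ← hγc]
      rw [Set.image_singleton] at h2
      exact h2
    refine acl_le _ _ ?_ h3
    rw [Set.singleton_subset_iff]
    exact hcon
  have hvS : ∀ i, γ (v i) ∈ ACL (insert (σ x) S) := by
    intro i
    have h1 := BM4.gp_basis' hG hn M hMM hMi Tt hTX i
    refine acl_mono _ _ ?_ h1
    rintro y ⟨j, rfl⟩
    by_cases hj : j = 0
    · subst hj
      exact Set.mem_insert _ _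
    · exact Set.mem_insert_of_mem _ ⟨j, hj, rfl⟩
  have hScount : S.Countable := (Set.to_countable _).image _
  refine BM4.core hG S hScount (σ x) (σ (L.b m a x)) m hm (hTX 0) (hCX 0) htS hcS hvS
    (Finset.univ.image ms) ?_ ?_ ?_ ?_
  · rw [Finset.card_image_of_injective _ hmsi, Finset.card_univ, Fintype.card_fin, hn]
  · intro hcon
    obtain ⟨j, -, hj⟩ := Finset.mem_image.1 hcon
    exact hmsm j hj
  · intro q hq
    obtain ⟨j, -, rfl⟩ := Finset.mem_image.1 hq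
    exact (hms j).1
  · intro q hq
    obtain ⟨j, -, rfl⟩ := Finset.mem_image.1 hq
    obtain ⟨z, hz, hz2⟩ := hTX j.succ
    obtain ⟨w, hw, hw2⟩ := hCX j.succ
    refine ⟨⟨z, hz, ?_⟩, ⟨w, hw, ?_⟩⟩
    · have e : mu d (fun i => γ (v i)) (ms j) z = σ' j (x' j) := hz2
      rw [e]
      exact (hx' j).2.1
    · have e : mu d (fun i => γ (u i)) (ms j) w = σ' j (L.b (ms j) a (x' j)) := hw2
      rw [e]
      exact (hx' j).2.2

end Pool.Agent.LSF
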