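import Pool.Agent.LSF.BF1
import Pool.Agent.LSF.BA6

/-!
BM6 (`h(1) = 1`).

Complete proof. Suppose `κ (1 - α) ≠ 1 - conj α`; we show `Split d V m e`, a contradiction. Let
`F s = fixF d m (V s)`, `G s = fixF d m (U s)`; Puiseux data at `e` with a common exponent `M` and
radius `r` (`puiseux`, `punct`, `pui_mul`): `z i` for `V`, `y j` for `U`;
`x i τ := mu d (V (e + τ^M)) m (z i τ)`, `c j τ := mu d (U (e + τ^M)) m (y j τ)`, holomorphic on
`ball 0 r`; `ω = exp(2πI/M)`. Let `I` be the set of the `i` such that `z i τ` has exact period `m` for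
uncountably many `τ` (then for all `τ` but a discrete set: the complement is the zero set of the
holomorphic function `fv d (V s) (z i τ) - z i τ`). For `i ∈ I`:
(1) for all but countably many `τ` there is `j` with `c j τ (1 - conj α x i τ) = κ (x i τ - α)`
(`hlink`); by pigeonhole and the identity theorem one `j = j(i)` works for all `τ ∈ ball 0 r`.
(2) Claim: `x i (ω τ) = x i τ`. If `x i 0 ≠ 1`: `z i 0` is a simple root of `F e` (`fixF_simple`),
`z i (ω τ)` is a root function (equal to some `z i' τ`, as in BF4) with the same value at `0`, so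
`i' = i` (multiplicity one) and `z i (ω τ) = z i τ`, so the claim. If `x i 0 = 1`: by (1) at `τ = 0`:
`c j 0 (1 - conj α) = κ (1 - α)`, so `c j 0 ≠ 1` by assumption (`1 - conj α ≠ 0`), hence `y j 0` is a
simple root of `G e` and `y j (ω τ) = y j τ`, `c j (ω τ) = c j τ`. Now (1) at `τ` and at `ω τ` say
that `x i τ` and `x i (ω τ)` both solve `c (1 - conj α x) = κ (x - α)`, i.e.
`x (κ + conj α c) = c + κ α` with the same `c = c j τ`. The solution is unique unless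
`κ + conj α c = 0 = c + κ α`, i.e. `c = - κ α`, `κ (1 - |α|²) = 0`, impossible as `|α| < 1`,
`|κ| = 1`. So `x i (ω τ) = x i τ`.
(3) So `x i τ = X i (τ^M)` with `X i` holomorphic on `ball 0 (r^M)` (as in BF4), and for
`s = e + τ^M`, off a countable set, every multiplier of exact period `m` is `X i (s - e)` for some
`i ∈ I`: `Split d V m e`.
-/

namespace Pool.Agent.LSF

open Polynomial Pool.Agent.LenSpec Metric Filter

/-- identity theorem on a ball -/
private theorem BM6_ident {r : ℝ} {g : ℂ → ℂ} (hg : DifferentiableOn ℂ g (ball 0 r)) (A : Set ℂ)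
    (hA : A ⊆ ball 0 r) (hAc : ¬ A.Countable) (h0 : ∀ τ ∈ A, g τ = 0) :
    ∀ τ ∈ ball (0 : ℂ) r, g τ = 0 := by
  have han : AnalyticOnNhd ℂ g (ball 0 r) := hg.analyticOnNhd isOpen_ball
  have hacc : ∃ x ∈ A, AccPt x (𝓟 A) := by
    by_contra hno
    push Not at hno
    have hd : DiscreteTopology A := discreteTopology_of_noAccPts hno
    exact hAc (Set.countable_coe_iff.1 (TopologicalSpace.separableSpace_iff_countable.1
      (inferInstance : TopologicalSpace.SeparableSpace A)))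
  obtain ⟨x, hxA, hx⟩ := hacc
  have hfr : ∃ᶠ y in nhdsWithin x {x}ᶜ, g y = 0 := by
    have h1 := accPt_iff_frequently.1 hx
    rw [frequently_nhdsWithin_iff]
    exact h1.mono fun y hy => ⟨h0 y hy.2, hy.1⟩
  exact fun τ hτ => han.eqOn_zero_of_preconnected_of_frequently_eq_zero
    (convex_ball _ _).isPreconnected (hA hxA) hfr hτ

/-- pigeonhole for holomorphic functions -/
private theorem BM6_pigeon {r : ℝ} (hr : 0 < r) {ι : Type} [Finite ι] (g : ι → ℂ → ℂ)
    (hg : ∀ i, DifferentiableOn ℂ (g i) (ball 0 r)) (B : Set ℂ) (hB : B.Countable)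
    (h : ∀ τ ∈ ball (0 : ℂ) r, τ ∉ B → ∃ i, g i τ = 0) :
    ∃ i, ∀ τ ∈ ball (0 : ℂ) r, g i τ = 0 := by
  by_contra hno
  push Not at hno
  have hc : ∀ i, ({τ ∈ ball (0 : ℂ) r | g i τ = 0}).Countable := by
    intro i
    by_contra hi
    obtain ⟨τ, hτ, hne⟩ := hno i
    exact hne (BM6_ident (hg i) _ (fun x hx => hx.1) hi (fun x hx => hx.2) τ hτ)
  have hU : (B ∪ ⋃ i, {τ ∈ ball (0 : ℂ) r | g i τ = 0}).Countable :=
    hB.union (Set.countable_iUnion hc)
  have hd := hU.dense_compl ℝ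
  obtain ⟨x, hx1, hx2⟩ := hd.inter_open_nonempty (ball 0 r) isOpen_ball ⟨0, mem_ball_self hr⟩
  refine hx2 ?_
  by_cases hxB : x ∈ B
  · exact Or.inl hxB
  · obtain ⟨i, hi⟩ := h x hx1 hxB
    exact Or.inr (Set.mem_iUnion.2 ⟨i, hx1, hi⟩)

/-- the preimage of a countable set -/
private theorem BM6_pre (e : ℂ) (M : ℕ) (hM : 1 ≤ M) (Z : Set ℂ) (hZ : Z.Countable) :
    ({τ : ℂ | e + τ ^ M ∈ Z}).Countable := by
  have h1 : {τ : ℂ | e + τ ^ M ∈ Z} ⊆ ⋃ c ∈ Z, {τ : ℂ | τ ^ M = c - e} := by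
    intro τ hτ
    refine Set.mem_biUnion (show e + τ ^ M ∈ Z from hτ) ?_
    show τ ^ M = e + τ ^ M - e
    ring
  refine Set.Countable.mono h1 (hZ.biUnion fun c _ => ?_)
  have h2 : {τ : ℂ | τ ^ M = c - e} ⊆ ((nthRoots M (c - e)).toFinset : Set ℂ) := by
    intro τ hτ
    simp only [Finset.mem_coe, Multiset.mem_toFinset]
    exact (mem_nthRoots (by omega)).2 hτ
  exact ((Finset.finite_toSet _).subset h2).countable

/-- two equal entries in the list of roots give a multiple root -/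
private theorem BM6_mult {D : ℕ} {p : ℂ[X]} (hp : p ≠ 0) (w : Fin D → ℂ)
    (h : p.roots = Finset.univ.val.map w) {i j : Fin D} (hij : i ≠ j) (hw : w i = w j) :
    (derivative p).eval (w i) = 0 := by
  classical
  have h1 : 1 < p.rootMultiplicity (w i) := by
    rw [← count_roots, h, Multiset.count_map]
    have h2 : ({i, j} : Finset (Fin D)).val ≤
        Multiset.filter (fun a => w i = w a) (Finset.univ : Finset (Fin D)).val := by
      rw [← Finset.filter_val, Finset.val_le_iff]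
      intro a ha
      rw [Finset.mem_insert, Finset.mem_singleton] at ha
      rw [Finset.mem_filter]
      refine ⟨Finset.mem_univ _, ?_⟩
      rcases ha with rfl | rfl
      · rfl
      · exact hw
    have h3 := Multiset.card_le_card h2
    rw [Finset.card_val, Finset.card_pair hij] at h3
    omega
  exact ((one_lt_rootMultiplicity_iff_isRoot hp).1 h1).2

/-- descent of one function to the base -/
private theorem BM6_desc (e : ℂ) (M : ℕ) (hM1 : 1 ≤ M) (r : ℝ) (hr : 0 < r) (g : ℂ → ℂ)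
    (hg : DifferentiableOn ℂ g (ball 0 r)) (ω : ℂ) (hω : IsPrimitiveRoot ω M)
    (hinv : ∀ τ ∈ ball (0 : ℂ) r, g (ω * τ) = g τ) :
    ∃ G : ℂ → ℂ, DifferentiableOn ℂ G (ball e (r ^ M)) ∧
      ∀ τ ∈ ball (0 : ℂ) r, g τ = G (e + τ ^ M) := by
  have hM : M ≠ 0 := by omega
  have hNZ : NeZero M := ⟨hM⟩
  have hnω : ‖ω‖ = 1 := hω.norm'_eq_one hM
  have hpow : ∀ (k : ℕ), ∀ τ ∈ ball (0 : ℂ) r, g (ω ^ k * τ) = g τ := by
    intro k τ hτ
    induction k with
    | zero => rw [pow_zero, one_mul]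
    | succ k ih =>
      rw [pow_succ', mul_assoc, hinv (ω ^ k * τ), ih]
      rw [mem_ball_zero_iff, norm_mul, norm_pow, hnω, one_pow, one_mul]
      exact mem_ball_zero_iff.1 hτ
  have hsame : ∀ τ ∈ ball (0 : ℂ) r, ∀ τ' : ℂ, τ' ^ M = τ ^ M → g τ' = g τ := by
    intro τ hτ τ' hτ'
    by_cases h0 : τ = 0
    · rw [h0, zero_pow hM] at hτ'
      rw [h0, pow_eq_zero_iff hM |>.1 hτ']
    · have h1 : (τ' / τ) ^ M = 1 := by
        rw [div_pow, hτ', div_self (pow_ne_zero _ h0)]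
      obtain ⟨k, -, hk⟩ := hω.eq_pow_of_pow_eq_one h1
      have h2 : τ' = ω ^ k * τ := by
        rw [hk, div_mul_cancel₀ _ h0]
      rw [h2, hpow k τ hτ]
  set κ₀ : ℂ → ℂ := fun s => (s - e) ^ ((M : ℂ)⁻¹) with hκ₀
  have hκM : ∀ s, κ₀ s ^ M = s - e := fun s => Complex.cpow_nat_inv_pow _ hM
  have hκn : ∀ s, ∀ ρ : ℝ, 0 < ρ → ‖s - e‖ < ρ ^ M → ‖κ₀ s‖ < ρ := by
    intro s ρ hρ hs
    rw [← hκM s, norm_pow] at hs
    exact lt_of_pow_lt_pow_left₀ M hρ.le hs
  have hrM : 0 < r ^ M := pow_pos hr M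
  have hmem : ∀ s ∈ ball e (r ^ M), κ₀ s ∈ ball (0 : ℂ) r := by
    intro s hs
    rw [mem_ball_zero_iff]
    exact hκn s r hr (by rwa [mem_ball_iff_norm] at hs)
  refine ⟨fun s => g (κ₀ s), ?_, fun τ hτ => ?_⟩
  · rw [← Complex.differentiableOn_compl_singleton_and_continuousAt_iff (c := e)
      (isOpen_ball.mem_nhds (mem_ball_self hrM))]
    refine ⟨?_, ?_⟩
    · intro s₀ hs₀
      obtain ⟨hs1, hs2⟩ := hs₀
      have hne : s₀ - e ≠ 0 := sub_ne_zero.2 hs2
      refine DifferentiableAt.differentiableWithinAt ?_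
      set κ : ℂ → ℂ := fun s => κ₀ s₀ * ((s - e) / (s₀ - e)) ^ ((M : ℂ)⁻¹) with hκ
      have hκd : DifferentiableAt ℂ κ s₀ := by
        refine DifferentiableAt.const_mul ?_ _
        refine DifferentiableAt.cpow_const ?_ ?_
        · exact (differentiableAt_id.sub_const e).div_const _
        · rw [div_self hne]
          exact Complex.one_mem_slitPlane
      have hκs : κ s₀ = κ₀ s₀ := by
        rw [hκ]
        simp only [div_self hne, Complex.one_cpow, mul_one]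
      have hκp : ∀ s, κ s ^ M = s - e := by
        intro s
        rw [hκ]
        simp only [mul_pow]
        rw [hκM, Complex.cpow_nat_inv_pow _ hM, mul_div_cancel₀ _ hne]
      have hz : DifferentiableAt ℂ g (κ s₀) := by
        rw [hκs]
        exact hg.differentiableAt (isOpen_ball.mem_nhds (hmem s₀ hs1))
      have hcomp : DifferentiableAt ℂ (fun s => g (κ s)) s₀ := hz.comp s₀ hκd
      refine hcomp.congr_of_eventuallyEq ?_
      filter_upwards [isOpen_ball.mem_nhds hs1] with s hs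
      exact (hsame (κ₀ s) (hmem s hs) (κ s) (by rw [hκp, hκM])).symm
    · have h0 : κ₀ e = 0 := by
        have := hκM e
        rw [sub_self] at this
        exact pow_eq_zero_iff hM |>.1 this
      have hc : ContinuousAt κ₀ e := by
        rw [Metric.continuousAt_iff]
        intro ε hε
        refine ⟨ε ^ M, pow_pos hε M, fun {s} hs => ?_⟩
        rw [h0, dist_zero_right]
        exact hκn s ε hε (by rwa [dist_eq_norm] at hs)
      have hz : ContinuousAt g (κ₀ e) := by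
        rw [h0]
        exact (hg.differentiableAt
          (isOpen_ball.mem_nhds (mem_ball_self hr))).continuousAt
      exact ContinuousAt.comp (f := κ₀) (g := g) hz hc
  · show g τ = g (κ₀ (e + τ ^ M))
    refine (hsame τ hτ _ ?_).symm
    rw [hκM, add_sub_cancel_left]

/-- Puiseux data of a family: root functions and their multipliers -/
private theorem BM6_data (d : ℕ) (m : ℕ) (hm : m.Prime) (c : ℂ) (R : ℝ)
    (V : ℂ → VI d → ℂ) (hVd : DifferentiableOn ℂ V (ball c R))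
    (hVn : ∀ s ∈ ball c R, Nf d (V s)) (e : ℂ)
    (he : e ∈ ball c R) (M : ℕ) (r : ℝ) (z : Fin (d ^ m + 1) → ℂ → ℂ)
    (hp : Pui (d ^ m + 1) (fun s => fixF d m (V s)) e M r z)
    (hmem : ∀ τ ∈ ball (0 : ℂ) r, e + τ ^ M ∈ ball c R) (ω : ℂ)
    (hω : IsPrimitiveRoot ω M) :
    (∀ τ ∈ ball (0 : ℂ) r, ∀ w : ℂ,
      ((fv d (V (e + τ ^ M)))^[m] w = w ↔ ∃ i, z i τ = w)) ∧
    (∀ i, DifferentiableOn ℂ (fun τ => mu d (V (e + τ ^ M)) m (z i τ)) (ball 0 r)) ∧
    (∀ i, DifferentiableOn ℂ (fun τ => fv d (V (e + τ ^ M)) (z i τ) - z i τ) (ball 0 r)) ∧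
    (∀ i, mu d (V e) m (z i 0) ≠ 1 →
      ∀ τ ∈ ball (0 : ℂ) r, mu d (V (e + (ω * τ) ^ M)) m (z i (ω * τ)) =
        mu d (V (e + τ ^ M)) m (z i τ)) := by
  have hm1 : 1 ≤ m := hm.one_lt.le
  have hd : 2 ≤ d := (hVn e he).two_le
  have hM1 : 1 ≤ M := hp.posM
  have hM0 : M ≠ 0 := by omega
  have hrpos := hp.posr
  have hne0 : ∀ s, fixF d m (V s) ≠ 0 := fun s => (fixF_monic d m hd hm1 (V s)).1.ne_zero
  have hroot : ∀ τ ∈ ball (0 : ℂ) r, ∀ w : ℂ,
      ((fv d (V (e + τ ^ M)))^[m] w = w ↔ ∃ i, z i τ = w) := by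
    intro τ hτ w
    rw [← fixF_root d m hm1 (V (e + τ ^ M)) (hVn _ (hmem τ hτ)) w]
    have h2 : (fixF d m (V (e + τ ^ M))).eval w = 0 ↔ w ∈ (fixF d m (V (e + τ ^ M))).roots := by
      rw [mem_roots (hne0 _), IsRoot.def]
    rw [h2]
    have h1' : (fixF d m (V (e + τ ^ M))).roots = Finset.univ.val.map (fun i => z i τ) :=
      hp.roots τ hτ
    rw [h1', Multiset.mem_map]
    constructor
    · rintro ⟨i, -, hi⟩
      exact ⟨i, hi⟩
    · rintro ⟨i, hi⟩
      exact ⟨i, Finset.mem_univ_val i, hi⟩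
  have hper : ∀ τ ∈ ball (0 : ℂ) r, ∀ i, (fv d (V (e + τ ^ M)))^[m] (z i τ) = z i τ :=
    fun τ hτ i => (hroot τ hτ _).2 ⟨i, rfl⟩
  have hvd : DifferentiableOn ℂ (fun τ => V (e + τ ^ M)) (ball 0 r) := by
    refine hVd.comp (t := ball c R) ?_ hmem
    exact ((differentiable_const e).add (differentiable_id.pow M)).differentiableOn
  have hmu := fun i => mu_diff d m (ball 0 r) (fun τ => V (e + τ ^ M)) hvd (z i) (hp.diff i)
    (fun τ hτ k _ => rm_per (nf_rm (hVn _ (hmem τ hτ))) hm1 (hper τ hτ i) k)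
  refine ⟨hroot, fun i => (hmu i).1, fun i => ((hmu i).2 1 hm1).sub (hp.diff i), ?_⟩
  -- rotation
  have hnω : ‖ω‖ = 1 := hω.norm'_eq_one hM0
  have hωM : ω ^ M = 1 := hω.pow_eq_one
  have hrot : ∀ τ ∈ ball (0 : ℂ) r, ω * τ ∈ ball (0 : ℂ) r := by
    intro τ hτ
    rw [mem_ball_zero_iff, norm_mul, hnω, one_mul]
    exact mem_ball_zero_iff.1 hτ
  have hrotp : ∀ τ : ℂ, (ω * τ) ^ M = τ ^ M := fun τ => by rw [mul_pow, hωM, one_mul]
  have hrotd : ∀ g : ℂ → ℂ, DifferentiableOn ℂ g (ball 0 r) →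
      DifferentiableOn ℂ (fun τ => g (ω * τ)) (ball 0 r) := by
    intro g hg
    exact hg.comp (t := ball 0 r) ((differentiable_const ω).mul differentiable_id).differentiableOn
      hrot
  intro i hi1
  obtain ⟨j, hj⟩ := BM6_pigeon hrpos (fun (j : Fin (d ^ m + 1)) τ => z i (ω * τ) - z j τ)
    (fun j => (hrotd _ (hp.diff i)).sub (hp.diff j)) ∅ Set.countable_empty (by
      intro τ hτ _
      have h1 := hper (ω * τ) (hrot τ hτ) i
      rw [hrotp] at h1
      obtain ⟨j, hj⟩ := (hroot τ hτ _).1 h1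
      exact ⟨j, by rw [hj, sub_self]⟩)
  have hj' : ∀ τ ∈ ball (0 : ℂ) r, z i (ω * τ) = z j τ := fun τ hτ => sub_eq_zero.1 (hj τ hτ)
  have h0r : (0 : ℂ) ∈ ball (0 : ℂ) r := mem_ball_self hrpos
  have he0 : e + (0 : ℂ) ^ M = e := by rw [zero_pow hM0, add_zero]
  have hij : i = j := by
    by_contra hij
    have hz0 : z i 0 = z j 0 := by
      have := hj' 0 h0r
      rwa [mul_zero] at this
    have hperi : (fv d (V e))^[m] (z i 0) = z i 0 := by
      have := hper 0 h0r i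
      rwa [he0] at this
    have hder : (derivative (fixF d m (V e))).eval (z i 0) = 0 := by
      refine BM6_mult (hne0 e) (fun i => z i 0) ?_ hij hz0
      have := hp.roots 0 h0r
      rwa [he0] at this
    exact hi1 ((fixF_simple d m hm1 (V e) (hVn e he) _ hperi).1 hder)
  intro τ hτ
  rw [hrotp, hj' τ hτ, hij]

private theorem BM6_uniq {α κ c x x' : ℂ} (hα : ‖α‖ < 1) (hκ : ‖κ‖ = 1)
    (h : c * (1 - starRingEnd ℂ α * x) = κ * (x - α))
    (h' : c * (1 - starRingEnd ℂ α * x') = κ * (x' - α)) : x = x' := by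
  have h1 : (x - x') * (κ + c * starRingEnd ℂ α) = 0 := by linear_combination h' - h
  rcases mul_eq_zero.1 h1 with h2 | h2
  · exact sub_eq_zero.1 h2
  · exfalso
    have h3 : c + κ * α = 0 := by linear_combination h + x * h2
    have h4 : κ * (1 - starRingEnd ℂ α * α) = 0 := by
      linear_combination h2 - (starRingEnd ℂ α) * h3
    have hκ0 : κ ≠ 0 := by
      intro h5
      rw [h5, norm_zero] at hκ
      exact zero_ne_one hκ
    rcases mul_eq_zero.1 h4 with h5 | h5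
    · exact hκ0 h5
    · have h6 : ‖starRingEnd ℂ α * α‖ = 1 := by
        rw [← sub_eq_zero.1 h5, norm_one]
      rw [norm_mul, Complex.norm_conj] at h6
      have h7 : ‖α‖ * ‖α‖ < 1 := by
        have := norm_nonneg α
        nlinarith
      linarith

theorem h_one (d : ℕ) (MM : Set ℕ) (m : ℕ) (hm : m.Prime) (hM : m ∈ MM) (c : ℂ) (R : ℝ)
    (V U : ℂ → VI d → ℂ) (hV : Fam d MM c R V) (hU : Fam d MM c R U) (e : ℂ)
    (he : e ∈ ball c R) (hsp : ¬ Split d V m e) (α κ : ℂ) (hα : ‖α‖ < 1) (hκ : ‖κ‖ = 1)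
    (Z : Set ℂ) (hZ : Z.Countable)
    (hlink : ∀ s ∈ ball c R, s ∉ Z → ∀ x ∈ XV d (V s) m, ∃ y ∈ XV d (U s) m,
      y * (1 - starRingEnd ℂ α * x) = κ * (x - α)) :
    κ * (1 - α) = 1 - starRingEnd ℂ α := by
  by_contra hne
  apply hsp
  have hm1 : 1 ≤ m := hm.one_lt.le
  have hd : 2 ≤ d := (hV.nf e he).two_le
  obtain ⟨hPF, -⟩ := fixF_pf d m hd hm1 (ball c R) V hV.diff
  obtain ⟨hPG, -⟩ := fixF_pf d m hd hm1 (ball c R) U hU.diff
  obtain ⟨M₁, r₁, z₁, hp₁, hmem₁⟩ := puiseux isOpen_ball hPF e he (punct d m MM hm hM c R V hV e he)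
  obtain ⟨M₂, r₂, y₁, hp₂, hmem₂⟩ := puiseux isOpen_ball hPG e he (punct d m MM hm hM c R U hU e he)
  -- common exponent
  have hq₁ := pui_mul hp₁ M₂ hp₂.posM
  have hq₂ := pui_mul hp₂ M₁ hp₁.posM
  rw [mul_comm M₂ M₁] at hq₁
  set M : ℕ := M₁ * M₂ with hMd
  have hM1 : 1 ≤ M := hq₁.posM
  have hM0 : M ≠ 0 := by omega
  set r : ℝ := min (min r₁ 1) (min r₂ 1) with hrd
  have hr : 0 < r := lt_min hq₁.posr hq₂.posr
  have hs₁ : ball (0 : ℂ) r ⊆ ball 0 (min r₁ 1) := ball_subset_ball (min_le_left _ _)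
  have hs₂ : ball (0 : ℂ) r ⊆ ball 0 (min r₂ 1) := ball_subset_ball (min_le_right _ _)
  have hmem : ∀ τ ∈ ball (0 : ℂ) r, e + τ ^ M ∈ ball c R := by
    intro τ hτ
    have h1 := hs₁ hτ
    rw [mem_ball_zero_iff, lt_min_iff] at h1
    have h2 : τ ^ M₂ ∈ ball (0 : ℂ) r₁ := by
      rw [mem_ball_zero_iff, norm_pow]
      refine lt_of_le_of_lt ?_ h1.1
      exact pow_le_of_le_one (norm_nonneg _) h1.2.le (by have := hp₂.posM; omega)
    have h3 := hmem₁ _ h2
    rwa [← pow_mul, mul_comm M₂ M₁] at h3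
  obtain ⟨z, hz⟩ : ∃ z : Fin (d ^ m + 1) → ℂ → ℂ,
      Pui (d ^ m + 1) (fun s => fixF d m (V s)) e M r z :=
    ⟨_, hM1, hr, fun i => (hq₁.diff i).mono hs₁, fun τ hτ => hq₁.roots τ (hs₁ hτ)⟩
  obtain ⟨y, hy⟩ : ∃ y : Fin (d ^ m + 1) → ℂ → ℂ,
      Pui (d ^ m + 1) (fun s => fixF d m (U s)) e M r y :=
    ⟨_, hM1, hr, fun i => (hq₂.diff i).mono hs₂, fun τ hτ => hq₂.roots τ (hs₂ hτ)⟩
  set ω : ℂ := Complex.exp (2 * Real.pi * Complex.I / M) with hωd
  have hω : IsPrimitiveRoot ω M := Complex.isPrimitiveRoot_exp M hM0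
  have hnω : ‖ω‖ = 1 := hω.norm'_eq_one hM0
  have hrot : ∀ τ ∈ ball (0 : ℂ) r, ω * τ ∈ ball (0 : ℂ) r := by
    intro τ hτ
    rw [mem_ball_zero_iff, norm_mul, hnω, one_mul]
    exact mem_ball_zero_iff.1 hτ
  obtain ⟨hrz, hmz, hfz, hiz⟩ := BM6_data d m hm c R V hV.diff hV.nf e he M r z hz hmem ω hω
  obtain ⟨hry, hmy, -, hiy⟩ := BM6_data d m hm c R U hU.diff hU.nf e he M r y hy hmem ω hω
  have h0r : (0 : ℂ) ∈ ball (0 : ℂ) r := mem_ball_self hr
  have he0 : e + (0 : ℂ) ^ M = e := by rw [zero_pow hM0, add_zero]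
  -- invariance of the multipliers
  have hinv : ∀ i, ({τ ∈ ball (0 : ℂ) r | fv d (V (e + τ ^ M)) (z i τ) - z i τ = 0}).Countable →
      ∀ τ ∈ ball (0 : ℂ) r, mu d (V (e + (ω * τ) ^ M)) m (z i (ω * τ)) =
        mu d (V (e + τ ^ M)) m (z i τ) := by
    intro i hB
    by_cases hi1 : mu d (V e) m (z i 0) = 1
    swap
    · exact hiz i hi1
    obtain ⟨j, hj⟩ := BM6_pigeon hr (fun (j : Fin (d ^ m + 1)) τ =>
      mu d (U (e + τ ^ M)) m (y j τ) * (1 - starRingEnd ℂ α * mu d (V (e + τ ^ M)) m (z i τ)) -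
        κ * (mu d (V (e + τ ^ M)) m (z i τ) - α))
      (fun j => ((hmy j).mul ((differentiableOn_const (1 : ℂ)).sub
        ((differentiableOn_const _).mul (hmz i)))).sub
        ((differentiableOn_const _).mul ((hmz i).sub (differentiableOn_const _))))
      ({τ ∈ ball (0 : ℂ) r | fv d (V (e + τ ^ M)) (z i τ) - z i τ = 0} ∪ {τ | e + τ ^ M ∈ Z})
      (hB.union (BM6_pre e M hM1 Z hZ)) (by
        intro τ hτ hτB
        have hper : (fv d (V (e + τ ^ M)))^[m] (z i τ) = z i τ := (hrz τ hτ _).2 ⟨i, rfl⟩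
        have hPX : PX d (V (e + τ ^ M)) m (z i τ) := by
          rcases per_prime d m hm (V (e + τ ^ M)) (hV.nf _ (hmem τ hτ)) (z i τ) hper with h1 | h1
          · exact absurd (Or.inl ⟨hτ, sub_eq_zero.2 h1⟩) hτB
          · exact h1
        obtain ⟨w, ⟨q, hq, rfl⟩, hw⟩ := hlink _ (hmem τ hτ) (fun h => hτB (Or.inr h)) _
          ⟨z i τ, hPX, rfl⟩
        obtain ⟨j, hj⟩ := (hry τ hτ q).1 hq.1.2
        refine ⟨j, ?_⟩
        show mu d (U (e + τ ^ M)) m (y j τ) *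
          (1 - starRingEnd ℂ α * mu d (V (e + τ ^ M)) m (z i τ)) -
          κ * (mu d (V (e + τ ^ M)) m (z i τ) - α) = 0
        rw [hj]
        exact sub_eq_zero.2 hw)
    have hj' : ∀ τ ∈ ball (0 : ℂ) r, mu d (U (e + τ ^ M)) m (y j τ) *
        (1 - starRingEnd ℂ α * mu d (V (e + τ ^ M)) m (z i τ)) =
        κ * (mu d (V (e + τ ^ M)) m (z i τ) - α) := fun τ hτ => sub_eq_zero.1 (hj τ hτ)
    have hc0 : mu d (U e) m (y j 0) ≠ 1 := by
      intro hc
      have h1 := hj' 0 h0r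
      rw [he0, hi1, hc] at h1
      apply hne
      rw [← h1]
      ring
    intro τ hτ
    have h1 := hj' τ hτ
    have h2 := hj' (ω * τ) (hrot τ hτ)
    rw [hiy j hc0 τ hτ] at h2
    exact BM6_uniq hα hκ h2 h1
  -- the holomorphic functions
  have hX : ∀ i, ∃ G : ℂ → ℂ, DifferentiableOn ℂ G (ball e (r ^ M)) ∧
      (({τ ∈ ball (0 : ℂ) r | fv d (V (e + τ ^ M)) (z i τ) - z i τ = 0}).Countable →
        ∀ τ ∈ ball (0 : ℂ) r, mu d (V (e + τ ^ M)) m (z i τ) = G (e + τ ^ M)) := by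
    intro i
    by_cases hB : ({τ ∈ ball (0 : ℂ) r | fv d (V (e + τ ^ M)) (z i τ) - z i τ = 0}).Countable
    · obtain ⟨G, hG1, hG2⟩ := BM6_desc e M hM1 r hr
        (fun τ => mu d (V (e + τ ^ M)) m (z i τ)) (hmz i) ω hω (hinv i hB)
      exact ⟨G, hG1, fun _ => hG2⟩
    · exact ⟨fun _ => 0, differentiableOn_const _, fun h => absurd h hB⟩
  choose X hX1 hX2 using hX
  refine ⟨r ^ M, pow_pos hr M, d ^ m + 1, X, hX1, ∅, Set.countable_empty, ?_⟩
  intro s hs _ w hw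
  obtain ⟨τ, hτM⟩ : ∃ τ : ℂ, τ ^ M = s - e := ⟨(s - e) ^ ((M : ℂ)⁻¹),
    Complex.cpow_nat_inv_pow _ hM0⟩
  have hτ : τ ∈ ball (0 : ℂ) r := by
    rw [mem_ball_zero_iff]
    rw [mem_ball_iff_norm, ← hτM, norm_pow] at hs
    exact lt_of_pow_lt_pow_left₀ M hr.le hs
  have hse : s = e + τ ^ M := by rw [hτM]; ring
  subst hse
  obtain ⟨i, hi⟩ := (hrz τ hτ w).1 hw.1.2
  refine ⟨i, ?_⟩
  rw [← hi]
  refine hX2 i ?_ τ hτ
  by_contra hB
  have h1 := BM6_ident (hfz i) _ (fun x hx => hx.1) hB (fun x hx => hx.2) τ hτ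
  refine hw.2 1 one_pos hm.one_lt ?_
  rw [Function.iterate_one, ← hi]
  exact sub_eq_zero.1 h1

end Pool.Agent.LSF
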