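import Mathlib

/-!
BM7a: automorphisms of the unit disc.

Complete proof. Let `α := g' 0`, so `g α = 0`, `|α| < 1`. `T z := (z + α)/(1 + conj α z)` is an
automorphism of the disc with inverse `T⁻¹ z = (z - α)/(1 - conj α z)`, `T 0 = α`. `f := g ∘ T` maps
the disc to itself, `f 0 = 0`, and has the inverse `T⁻¹ ∘ g'` (`g'(0) = α`, so this inverse maps `0`
to `0`). Schwarz's lemma for `f` and its inverse: `|f z| ≤ |z|` and `|z| = |f⁻¹ (f z)| ≤ |f z|`, so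
`|f z| = |z|` on the disc; so `f z = κ z` with `|κ| = 1` (equality in Schwarz's lemma; or: `f z / z`
is holomorphic of constant modulus one on the connected punctured disc/disc, hence constant).
`g z = f (T⁻¹ z) = κ (z - α)/(1 - conj α z)`.
-/

namespace Pool.Agent.LSF

open Metric

theorem bm7a_ne {a z : ℂ} (ha : ‖a‖ < 1) (hz : ‖z‖ < 1) : 1 + starRingEnd ℂ a * z ≠ 0 := by
  intro h
  have h1 : starRingEnd ℂ a * z = -1 := by
    linear_combination h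
  have h2 : ‖starRingEnd ℂ a * z‖ = 1 := by rw [h1, norm_neg, norm_one]
  rw [norm_mul, RCLike.norm_conj] at h2
  have h3 : ‖a‖ * ‖z‖ < 1 := by
    have := norm_nonneg a
    have := norm_nonneg z
    nlinarith
  linarith

theorem bm7a_id (a z : ℂ) : ‖1 + starRingEnd ℂ a * z‖ ^ 2 - ‖z + a‖ ^ 2 =
    (1 - ‖a‖ ^ 2) * (1 - ‖z‖ ^ 2) := by
  rw [← Complex.normSq_eq_norm_sq, ← Complex.normSq_eq_norm_sq, ← Complex.normSq_eq_norm_sq,
    ← Complex.normSq_eq_norm_sq]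
  simp only [Complex.normSq_apply, Complex.add_re, Complex.add_im, Complex.mul_re,
    Complex.mul_im, Complex.one_re, Complex.one_im, Complex.conj_re, Complex.conj_im]
  ring

theorem bm7a_lt {a z : ℂ} (ha : ‖a‖ < 1) (hz : ‖z‖ < 1) :
    ‖(z + a) / (1 + starRingEnd ℂ a * z)‖ < 1 := by
  have h0 := bm7a_ne ha hz
  have hp : 0 < ‖1 + starRingEnd ℂ a * z‖ := norm_pos_iff.2 h0
  rw [norm_div, div_lt_one hp]
  have h1 := bm7a_id a z
  have h2 : 0 < (1 - ‖a‖ ^ 2) * (1 - ‖z‖ ^ 2) := by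
    have := norm_nonneg a
    have := norm_nonneg z
    apply mul_pos
    · nlinarith
    · nlinarith
  have h3 : ‖z + a‖ ^ 2 < ‖1 + starRingEnd ℂ a * z‖ ^ 2 := by linarith
  exact lt_of_pow_lt_pow_left₀ 2 hp.le h3

theorem bm7a_diff {a : ℂ} (ha : ‖a‖ < 1) :
    DifferentiableOn ℂ (fun z => (z + a) / (1 + starRingEnd ℂ a * z)) (ball 0 1) := by
  intro z hz
  have hz' : ‖z‖ < 1 := mem_ball_zero_iff.1 hz
  have h0 := bm7a_ne ha hz'
  refine DifferentiableAt.differentiableWithinAt ?_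
  refine DifferentiableAt.div (by fun_prop) (by fun_prop) h0

theorem bm7a_inv {a z : ℂ} (ha : ‖a‖ < 1) (hz : ‖z‖ < 1) :
    ((z + a) / (1 + starRingEnd ℂ a * z) + (-a)) /
      (1 + starRingEnd ℂ (-a) * ((z + a) / (1 + starRingEnd ℂ a * z))) = z := by
  have h0 := bm7a_ne ha hz
  have hw := bm7a_lt ha hz
  have h1 := bm7a_ne (a := -a) (by rwa [norm_neg]) hw
  rw [div_eq_iff h1]
  rw [map_neg]
  generalize starRingEnd ℂ a = c at h0
  have h2 : (z + a) / (1 + c * z) * (1 + c * z) = z + a := div_mul_cancel₀ _ h0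
  generalize (z + a) / (1 + c * z) = w at h2
  linear_combination h2

theorem disc_aut (g g' : ℂ → ℂ) (hg : DifferentiableOn ℂ g (ball 0 1))
    (hg' : DifferentiableOn ℂ g' (ball 0 1)) (hm : ∀ z ∈ ball (0 : ℂ) 1, ‖g z‖ < 1)
    (hm' : ∀ z ∈ ball (0 : ℂ) 1, ‖g' z‖ < 1) (h1 : ∀ z ∈ ball (0 : ℂ) 1, g' (g z) = z)
    (h2 : ∀ z ∈ ball (0 : ℂ) 1, g (g' z) = z) :
    ∃ α κ : ℂ, ‖α‖ < 1 ∧ ‖κ‖ = 1 ∧
      ∀ z ∈ ball (0 : ℂ) 1, g z * (1 - starRingEnd ℂ α * z) = κ * (z - α) := by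
  have hz0 : (0 : ℂ) ∈ ball (0 : ℂ) 1 := mem_ball_self one_pos
  have hα : ‖g' 0‖ < 1 := hm' 0 hz0
  have hgα : g (g' 0) = 0 := h2 0 hz0
  set α := g' 0 with hαd
  have hα' : ‖-α‖ < 1 := by rwa [norm_neg]
  set T : ℂ → ℂ := fun z => (z + α) / (1 + starRingEnd ℂ α * z) with hT
  set S : ℂ → ℂ := fun z => (z + -α) / (1 + starRingEnd ℂ (-α) * z) with hS
  have hTm : Set.MapsTo T (ball 0 1) (ball 0 1) := fun z hz =>
    mem_ball_zero_iff.2 (bm7a_lt hα (mem_ball_zero_iff.1 hz))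
  have hSm : Set.MapsTo S (ball 0 1) (ball 0 1) := fun z hz =>
    mem_ball_zero_iff.2 (bm7a_lt hα' (mem_ball_zero_iff.1 hz))
  have hgm : Set.MapsTo g (ball 0 1) (ball 0 1) := fun z hz => mem_ball_zero_iff.2 (hm z hz)
  have hgm' : Set.MapsTo g' (ball 0 1) (ball 0 1) := fun z hz => mem_ball_zero_iff.2 (hm' z hz)
  have hTd : DifferentiableOn ℂ T (ball 0 1) := bm7a_diff hα
  have hSd : DifferentiableOn ℂ S (ball 0 1) := bm7a_diff hα'
  have hST : ∀ z ∈ ball (0 : ℂ) 1, S (T z) = z := fun z hz =>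
    bm7a_inv hα (mem_ball_zero_iff.1 hz)
  have hTS : ∀ z ∈ ball (0 : ℂ) 1, T (S z) = z := by
    intro z hz
    have h := bm7a_inv hα' (mem_ball_zero_iff.1 hz)
    rw [neg_neg] at h
    exact h
  have hfd : DifferentiableOn ℂ (g ∘ T) (ball 0 1) := hg.comp hTd hTm
  have hFd : DifferentiableOn ℂ (S ∘ g') (ball 0 1) := hSd.comp hg' hgm'
  have hfm : Set.MapsTo (g ∘ T) (ball 0 1) (ball 0 1) := hgm.comp hTm
  have hFm : Set.MapsTo (S ∘ g') (ball 0 1) (ball 0 1) := hSm.comp hgm'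
  have hf0 : (g ∘ T) 0 = 0 := by
    change g (T 0) = 0
    have : T 0 = α := by
      simp only [hT]
      simp
    rw [this, hgα]
  have hF0 : (S ∘ g') 0 = 0 := by
    change S (g' 0) = 0
    rw [← hαd]
    simp only [hS]
    simp
  have hle1 : ∀ z ∈ ball (0 : ℂ) 1, ‖(g ∘ T) z‖ ≤ ‖z‖ := fun z hz =>
    Complex.norm_le_norm_of_mapsTo_ball hfd (hfm.mono_right ball_subset_closedBall) hf0
      (mem_ball_zero_iff.1 hz)
  have hle2 : ∀ z ∈ ball (0 : ℂ) 1, ‖(S ∘ g') z‖ ≤ ‖z‖ := fun z hz =>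
    Complex.norm_le_norm_of_mapsTo_ball hFd (hFm.mono_right ball_subset_closedBall) hF0
      (mem_ball_zero_iff.1 hz)
  have heq : ∀ z ∈ ball (0 : ℂ) 1, ‖(g ∘ T) z‖ = ‖z‖ := by
    intro z hz
    refine le_antisymm (hle1 z hz) ?_
    have h3 : (S ∘ g') ((g ∘ T) z) = z := by
      change S (g' (g (T z))) = z
      rw [h1 _ (hTm hz), hST z hz]
    have h4 := hle2 _ (hfm hz)
    rwa [h3] at h4
  have hhalf : (1 / 2 : ℂ) ∈ ball (0 : ℂ) 1 := by
    rw [mem_ball_zero_iff]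
    norm_num
  have hds : ‖dslope (g ∘ T) 0 (1 / 2)‖ = 1 / 1 := by
    have hne : (1 / 2 : ℂ) ≠ 0 := by norm_num
    rw [dslope_of_ne _ hne, slope_def_field, hf0, norm_div, sub_zero, sub_zero, heq _ hhalf]
    rw [div_self (norm_ne_zero_iff.2 hne)]
    norm_num
  obtain ⟨κ, hκ, hE⟩ := Complex.affine_of_mapsTo_ball_of_exists_norm_dslope_eq_div' hfd
    (by rw [hf0]; exact hfm.mono_right ball_subset_closedBall) ⟨1 / 2, hhalf, hds⟩
  refine ⟨α, κ, hα, by rw [hκ]; norm_num, ?_⟩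
  intro z hz
  have h5 := hE (hSm hz)
  simp only at h5
  rw [hf0, sub_zero, zero_add, Function.comp_apply, hTS z hz, smul_eq_mul] at h5
  have hne := bm7a_ne hα' (mem_ball_zero_iff.1 hz)
  have h6 : S z * (1 + starRingEnd ℂ (-α) * z) = z + -α := div_mul_cancel₀ _ hne
  rw [map_neg] at h6
  rw [h5]
  linear_combination κ * h6

end Pool.Agent.LSF
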