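import Pool.Agent.LSF.BG6
import Pool.Agent.LSF.BM7a

/-!
BM7: two mutually inverse branches of a curve on the disc; a curve that contains the graph of a
Moebius map is this graph.

`bm7_sep`: the partial derivative in the second variable does not vanish at a point of an
irreducible curve with first coordinate outside `K0` (Gauss lemma and separability).
`bm7_loc_uniq`: local uniqueness of branches.
`bilin`: `L := (1 - conj α X) Y - κ (X - α)` divides `u ^ n Φ - R`, `R ∈ ℂ[X]`, `u = 1 - conj α X`;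
`R` vanishes on the disc, so `Φ ∣ u ^ n Φ = L M`; `Φ` is prime, and `Φ ∣ M` is impossible.
-/

namespace Pool.Agent.LSF

open Metric

theorem bm7_transc (x : ℂ) (hx : x ∉ K0) : Transcendental K0 x := by
  intro halg
  apply hx
  have hA : IsAlgClosed K0 := acl_isAlgClosed ∅
  have hint : IsIntegral K0 x := halg.isIntegral
  have hirr := minpoly.irreducible hint
  have hdeg : (minpoly K0 x).degree = 1 := IsAlgClosed.degree_eq_one_of_irreducible K0 hirr
  obtain ⟨a, ha⟩ := minpoly.mem_range_of_degree_eq_one K0 x hdeg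
  rw [← ha]
  exact a.2

/-- the partial derivative -/
theorem bm7_sep (Φ : Polynomial (Polynomial K0)) (hΦ : Irreducible Φ) (x y : ℂ) (hx : x ∉ K0)
    (h : ev2 Φ x y = 0) : ev2 (Polynomial.derivative Φ) x y ≠ 0 := by
  have htr := bm7_transc x hx
  have hinj : Function.Injective (Polynomial.eval₂RingHom (algebraMap K0 ℂ) x) := by
    have h1 := transcendental_iff_injective.mp htr
    intro a b hab
    apply h1
    simpa [Polynomial.aeval_def] using hab
  set φ : FractionRing (Polynomial K0) →+* ℂ := IsFractionRing.lift hinj with hφ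
  have hcomp : φ.comp (algebraMap (Polynomial K0) (FractionRing (Polynomial K0))) =
      Polynomial.eval₂RingHom (algebraMap K0 ℂ) x := by
    ext a
    · simp [hφ]
    · simp [hφ]
  have hev : ∀ G : Polynomial (Polynomial K0), ev2 G x y =
      (G.map (algebraMap (Polynomial K0) (FractionRing (Polynomial K0)))).eval₂ φ y := by
    intro G
    rw [Polynomial.eval₂_map, hcomp, ev2, Polynomial.eval_map]
  have hdeg : Φ.natDegree ≠ 0 := by
    intro h0
    obtain ⟨p, hp⟩ := Polynomial.natDegree_eq_zero.1 h0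
    rw [← hp, ev2, Polynomial.map_C, Polynomial.eval_C] at h
    have h2 : p = 0 := hinj (by rw [h, map_zero])
    rw [h2, Polynomial.C_0] at hp
    exact hΦ.ne_zero hp.symm
  have hprim : Φ.IsPrimitive := hΦ.isPrimitive hdeg
  have hirr := (hprim.irreducible_iff_irreducible_map_fraction_map
    (K := FractionRing (Polynomial K0))).1 hΦ
  have hsep : (Φ.map (algebraMap (Polynomial K0) (FractionRing (Polynomial K0)))).Separable :=
    hirr.separable
  rw [hev] at h ⊢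
  rw [← Polynomial.derivative_map]
  exact hsep.eval₂_derivative_ne_zero φ h

/-- the difference quotient -/
noncomputable def bm7Q (Φ : Polynomial (Polynomial K0)) (x a b : ℂ) : ℂ :=
  ∑ i ∈ Finset.range (Φ.natDegree + 1),
    Polynomial.eval₂ (algebraMap K0 ℂ) x (Φ.coeff i) *
      ∑ j ∈ Finset.range i, a ^ j * b ^ (i - 1 - j)

theorem bm7_ev2 (Φ : Polynomial (Polynomial K0)) (x y : ℂ) : ev2 Φ x y =
    ∑ i ∈ Finset.range (Φ.natDegree + 1),
      Polynomial.eval₂ (algebraMap K0 ℂ) x (Φ.coeff i) * y ^ i := by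
  rw [ev2, Polynomial.eval_map, Polynomial.eval₂_eq_sum_range]
  rfl

theorem bm7Q_mul (Φ : Polynomial (Polynomial K0)) (x a b : ℂ) :
    bm7Q Φ x a b * (a - b) = ev2 Φ x a - ev2 Φ x b := by
  rw [bm7Q, bm7_ev2, bm7_ev2, Finset.sum_mul, ← Finset.sum_sub_distrib]
  refine Finset.sum_congr rfl fun i _ => ?_
  rw [mul_assoc, (Commute.all a b).geom_sum₂_mul]
  ring

theorem bm7Q_self (Φ : Polynomial (Polynomial K0)) (x y : ℂ) :
    bm7Q Φ x y y = ev2 (Polynomial.derivative Φ) x y := by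
  have h1 : ev2 (Polynomial.derivative Φ) x y = Polynomial.eval y (Polynomial.derivative
      (Φ.map (Polynomial.eval₂RingHom (algebraMap K0 ℂ) x))) := by
    rw [ev2, Polynomial.derivative_map]
  have h2 : (Φ.map (Polynomial.eval₂RingHom (algebraMap K0 ℂ) x)).natDegree < Φ.natDegree + 1 :=
    Nat.lt_succ_of_le (Polynomial.natDegree_map_le)
  rw [h1, Polynomial.derivative_eval, Polynomial.sum_over_range' _ (fun n => by simp) _ h2, bm7Q]
  refine Finset.sum_congr rfl fun i _ => ?_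
  rw [Polynomial.coeff_map, mul_assoc]
  congr 1
  have h3 : ∀ j ∈ Finset.range i, y ^ j * y ^ (i - 1 - j) = y ^ (i - 1) := by
    intro j hj
    rw [← pow_add]
    congr 1
    have := Finset.mem_range.1 hj
    omega
  rw [Finset.sum_congr rfl h3, Finset.sum_const, Finset.card_range, nsmul_eq_mul]

theorem bm7_poly_cont (P : Polynomial K0) :
    Continuous fun x : ℂ => Polynomial.eval₂ (algebraMap K0 ℂ) x P := by
  have h1 : (fun x : ℂ => Polynomial.eval₂ (algebraMap K0 ℂ) x P) =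
      fun x => (P.map (algebraMap K0 ℂ)).eval x := by
    funext x
    rw [Polynomial.eval_map]
  rw [h1]
  exact (P.map (algebraMap K0 ℂ)).continuous

theorem bm7_ev2_cont (Φ : Polynomial (Polynomial K0)) :
    Continuous fun p : ℂ × ℂ => ev2 Φ p.1 p.2 := by
  have h1 : (fun p : ℂ × ℂ => ev2 Φ p.1 p.2) = fun p =>
      ∑ i ∈ Finset.range (Φ.natDegree + 1),
        Polynomial.eval₂ (algebraMap K0 ℂ) p.1 (Φ.coeff i) * p.2 ^ i := by
    funext p
    rw [bm7_ev2]
  rw [h1]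
  refine continuous_finsetSum _ fun i _ => ?_
  exact ((bm7_poly_cont _).comp continuous_fst).mul (continuous_snd.pow _)

theorem bm7Q_cont (Φ : Polynomial (Polynomial K0)) :
    Continuous fun p : ℂ × ℂ × ℂ => bm7Q Φ p.1 p.2.1 p.2.2 := by
  unfold bm7Q
  refine continuous_finsetSum _ fun i _ => ?_
  refine ((bm7_poly_cont _).comp continuous_fst).mul ?_
  refine continuous_finsetSum _ fun j _ => ?_
  exact ((continuous_fst.comp continuous_snd).pow _).mul
    ((continuous_snd.comp continuous_snd).pow _)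

theorem bm7_loc_uniq (Φ : Polynomial (Polynomial K0)) (p f₁ f₂ : ℂ → ℂ) (s₀ : ℂ)
    (hp : ContinuousAt p s₀) (h1 : ContinuousAt f₁ s₀) (h2 : ContinuousAt f₂ s₀)
    (h12 : f₁ s₀ = f₂ s₀) (hd : ev2 (Polynomial.derivative Φ) (p s₀) (f₁ s₀) ≠ 0)
    (hz1 : ∀ᶠ s in nhds s₀, ev2 Φ (p s) (f₁ s) = 0)
    (hz2 : ∀ᶠ s in nhds s₀, ev2 Φ (p s) (f₂ s) = 0) :
    ∀ᶠ s in nhds s₀, f₁ s = f₂ s := by
  have hc : ContinuousAt (fun s => bm7Q Φ (p s) (f₁ s) (f₂ s)) s₀ :=
    ContinuousAt.comp (g := fun q : ℂ × ℂ × ℂ => bm7Q Φ q.1 q.2.1 q.2.2)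
      (f := fun s => (p s, f₁ s, f₂ s)) (bm7Q_cont Φ).continuousAt
      (hp.prodMk (h1.prodMk h2))
  have hne : bm7Q Φ (p s₀) (f₁ s₀) (f₂ s₀) ≠ 0 := by
    rw [← h12, bm7Q_self]
    exact hd
  filter_upwards [hc.eventually_ne hne, hz1, hz2] with s hs e1 e2
  have h3 := bm7Q_mul Φ (p s) (f₁ s) (f₂ s)
  rw [e1, e2, sub_zero] at h3
  rcases mul_eq_zero.1 h3 with h4 | h4
  · exact absurd h4 hs
  · exact sub_eq_zero.1 h4

theorem bm7_dense (F : ℂ → ℂ) (hF : ContinuousOn F (ball 0 1))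
    (h : ∀ z ∈ ball (0 : ℂ) 1, z ∉ K0 → F z = 0) : ∀ z ∈ ball (0 : ℂ) 1, F z = 0 := by
  intro z hz
  by_contra hne
  have hc : ContinuousAt F z := hF.continuousAt (isOpen_ball.mem_nhds hz)
  have h1 : ∀ᶠ w in nhds z, F w ≠ 0 ∧ w ∈ ball (0 : ℂ) 1 :=
    (hc.eventually_ne hne).and (isOpen_ball.mem_nhds hz)
  have hd : Dense ((K0 : Set ℂ)ᶜ) :=
    (acl_countable ∅ Set.countable_empty).dense_compl ℝ
  obtain ⟨U, hU1, hU2, hU3⟩ := _root_.eventually_nhds_iff.1 h1
  obtain ⟨w, hw1, hw2⟩ := hd.inter_open_nonempty U hU2 ⟨z, hU3⟩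
  exact (hU1 w hw1).1 (h w (hU1 w hw1).2 hw2)

/-- one half -/
theorem bm7_half (Φ Φ' : Polynomial (Polynomial K0)) (hΦ : Irreducible Φ)
    (hΦ' : Irreducible Φ') (x y : ℂ) (hx : x ∉ K0) (h : ev2 Φ x y = 0)
    (h' : ev2 Φ' y x = 0) (g g' : ℂ → ℂ) (hg : DifferentiableOn ℂ g (ball 0 1))
    (hg' : DifferentiableOn ℂ g' (ball 0 1))
    (hgm : ∀ z ∈ ball (0 : ℂ) 1, ‖g z‖ < 1 ∧ ev2 Φ z (g z) = 0)
    (hgm' : ∀ z ∈ ball (0 : ℂ) 1, ‖g' z‖ < 1 ∧ ev2 Φ' z (g' z) = 0) (z₁ c₁ : ℂ)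
    (hz₁ : ‖z₁‖ < 1) (hc₁ : ‖c₁‖ < 1) (hcK : c₁ ∉ K0) (h1 : g z₁ = c₁)
    (h1' : g' c₁ = z₁) :
    ∀ z ∈ ball (0 : ℂ) 1, g' (g z) = z := by
  have hK : IsAlgClosed K0 := acl_isAlgClosed ∅
  have hKc : (K0 : Set ℂ).Countable := acl_countable ∅ Set.countable_empty
  have hz₁' : z₁ ∈ ball (0 : ℂ) 1 := mem_ball_zero_iff.2 hz₁
  have hc₁' : c₁ ∈ ball (0 : ℂ) 1 := mem_ball_zero_iff.2 hc₁
  have hmaps : Set.MapsTo g (ball 0 1) (ball 0 1) := fun z hz =>
    mem_ball_zero_iff.2 (hgm z hz).1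
  have hgc : ContinuousAt g z₁ := hg.continuousOn.continuousAt (isOpen_ball.mem_nhds hz₁')
  have hgc' : ContinuousAt g' (g z₁) := by
    rw [h1]
    exact hg'.continuousOn.continuousAt (isOpen_ball.mem_nhds hc₁')
  have key : ∀ z ∈ ball (0 : ℂ) 1, ev2 Φ' (g z) z = 0 := by
    apply bm7_dense
    · exact (bm7_ev2_cont Φ').comp_continuousOn (hg.continuousOn.prodMk continuousOn_id)
    · intro z hz hzK
      obtain ⟨σ, hσ1, hσ2⟩ := conj_curve K0 K0 hK hK hKc le_rfl Φ hΦ x y z (g z) h (hgm z hz).2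
        hx hzK
      have h3 : ev2 Φ' (σ y) (σ x) = σ (ev2 Φ' y x) := by
        rw [ev2, ev2, Polynomial.eval_map, Polynomial.eval_map]
        have h4 := Polynomial.hom_eval₂ Φ' (Polynomial.eval₂RingHom (algebraMap K0 ℂ) y)
          (σ : ℂ →+* ℂ) x
        have h5 : (σ : ℂ →+* ℂ).comp (Polynomial.eval₂RingHom (algebraMap K0 ℂ) y)
            = Polynomial.eval₂RingHom (algebraMap K0 ℂ) (σ y) := by
          ext a
          · have := σ.commutes a
            simpa using this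
          · simp
        rw [h5] at h4
        exact h4.symm
      rw [h', map_zero, hσ1, hσ2] at h3
      exact h3
  have hnear : ∀ᶠ z in nhds z₁, z = (g' ∘ g) z := by
    refine bm7_loc_uniq Φ' g (fun z => z) (g' ∘ g) z₁ hgc continuousAt_id
      (ContinuousAt.comp hgc' hgc) ?_ ?_ ?_ ?_
    · rw [Function.comp_apply, h1, h1']
    · have := bm7_sep Φ' hΦ' c₁ z₁ hcK (by
        have := key z₁ hz₁'
        rwa [h1] at this)
      rwa [h1]
    · filter_upwards [isOpen_ball.mem_nhds hz₁'] with z hz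
      exact key z hz
    · filter_upwards [isOpen_ball.mem_nhds hz₁'] with z hz
      exact (hgm' (g z) (hmaps hz)).2
  have ha1 : AnalyticOnNhd ℂ (g' ∘ g) (ball 0 1) :=
    (hg'.comp hg hmaps).analyticOnNhd isOpen_ball
  have ha2 : AnalyticOnNhd ℂ (fun z : ℂ => z) (ball 0 1) :=
    differentiableOn_id.analyticOnNhd isOpen_ball
  have hconn : IsPreconnected (ball (0 : ℂ) 1) := (convex_ball (0 : ℂ) 1).isPreconnected
  have := ha1.eqOn_of_preconnected_of_eventuallyEq ha2 hconn hz₁'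
    (by filter_upwards [hnear] with z hz using hz.symm)
  exact fun z hz => this hz

theorem inv_branches (Φ Φ' : Polynomial (Polynomial K0)) (hΦ : Irreducible Φ)
    (hΦ' : Irreducible Φ') (x y : ℂ) (hx : x ∉ K0) (hy : y ∉ K0) (h : ev2 Φ x y = 0)
    (h' : ev2 Φ' y x = 0) (g g' : ℂ → ℂ) (hg : DifferentiableOn ℂ g (ball 0 1))
    (hg' : DifferentiableOn ℂ g' (ball 0 1))
    (hgm : ∀ z ∈ ball (0 : ℂ) 1, ‖g z‖ < 1 ∧ ev2 Φ z (g z) = 0)
    (hgm' : ∀ z ∈ ball (0 : ℂ) 1, ‖g' z‖ < 1 ∧ ev2 Φ' z (g' z) = 0) (z₁ c₁ : ℂ)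
    (hz₁ : ‖z₁‖ < 1) (hc₁ : ‖c₁‖ < 1) (hzK : z₁ ∉ K0) (hcK : c₁ ∉ K0) (h1 : g z₁ = c₁)
    (h1' : g' c₁ = z₁) :
    (∀ z ∈ ball (0 : ℂ) 1, g' (g z) = z) ∧ ∀ z ∈ ball (0 : ℂ) 1, g (g' z) = z :=
  ⟨bm7_half Φ Φ' hΦ hΦ' x y hx h h' g g' hg hg' hgm hgm' z₁ c₁ hz₁ hc₁ hcK h1 h1',
    bm7_half Φ' Φ hΦ' hΦ y x hy h' h g' g hg' hg hgm' hgm c₁ z₁ hc₁ hz₁ hzK h1' h1⟩

/-- evaluation of complex polynomials in two variables -/
noncomputable def bm7E (z c : ℂ) : Polynomial (Polynomial ℂ) →+* ℂ :=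
  Polynomial.eval₂RingHom (Polynomial.evalRingHom z) c

theorem bm7E_map (Φ : Polynomial (Polynomial K0)) (z c : ℂ) :
    bm7E z c (Φ.map (Polynomial.mapRingHom (algebraMap K0 ℂ))) = ev2 Φ z c := by
  rw [bm7E, Polynomial.coe_eval₂RingHom, Polynomial.eval₂_map, ev2, Polynomial.eval_map]
  congr 1
  ext a
  · simp
  · simp

theorem bilin (Φ : Polynomial (Polynomial K0)) (hΦ : Irreducible Φ) (x y : ℂ) (hx : x ∉ K0)
    (h : ev2 Φ x y = 0) (g : ℂ → ℂ) (hgm : ∀ z ∈ ball (0 : ℂ) 1, ev2 Φ z (g z) = 0) (α κ : ℂ)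
    (hα : ‖α‖ < 1) (hκ : ‖κ‖ = 1)
    (hm : ∀ z ∈ ball (0 : ℂ) 1, g z * (1 - starRingEnd ℂ α * z) = κ * (z - α)) :
    ∀ z c : ℂ, ev2 Φ z c = 0 → z ∉ K0 → c * (1 - starRingEnd ℂ α * z) = κ * (z - α) := by
  have hK : IsAlgClosed K0 := acl_isAlgClosed ∅
  set Ψ : Polynomial (Polynomial ℂ) := Φ.map (Polynomial.mapRingHom (algebraMap K0 ℂ)) with hΨ
  have hirr : Irreducible Ψ := girr K0 ℂ Φ hΦ
  have hprime : Prime Ψ := hirr.prime
  set u : Polynomial ℂ := 1 - Polynomial.C (starRingEnd ℂ α) * Polynomial.X with hu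
  set w : Polynomial ℂ := Polynomial.C κ * (Polynomial.X - Polynomial.C α) with hw
  set L : Polynomial (Polynomial ℂ) := Polynomial.C u * Polynomial.X - Polynomial.C w with hL
  have hu0 : u ≠ 0 := by
    intro h0
    have := congrArg (Polynomial.eval 0) h0
    simp [hu] at this
  set n := Ψ.natDegree with hn
  set R : Polynomial ℂ := ∑ i ∈ Finset.range (n + 1), Ψ.coeff i * w ^ i * u ^ (n - i) with hR
  have hLdvd : L ∣ Polynomial.C (u ^ n) * Ψ - Polynomial.C R := by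
    have h1 : Polynomial.C (u ^ n) * Ψ - Polynomial.C R = ∑ i ∈ Finset.range (n + 1),
        Polynomial.C (Ψ.coeff i * u ^ (n - i)) *
          ((Polynomial.C u * Polynomial.X) ^ i - (Polynomial.C w) ^ i) := by
      conv_lhs => rw [Ψ.as_sum_range_C_mul_X_pow]
      rw [hR, map_sum, Finset.mul_sum, ← Finset.sum_sub_distrib]
      refine Finset.sum_congr rfl fun i hi => ?_
      have hi' : i ≤ n := Nat.lt_succ_iff.1 (Finset.mem_range.1 hi)
      have h2 : u ^ n = u ^ (n - i) * u ^ i := by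
        rw [← pow_add]
        congr 1
        omega
      rw [h2]
      simp only [map_mul, map_pow]
      ring
    rw [h1]
    refine Finset.dvd_sum fun i _ => ?_
    exact Dvd.dvd.mul_left (sub_dvd_pow_sub_pow _ _ i) _
  have hEL : ∀ z c : ℂ, bm7E z c L = c * (1 - starRingEnd ℂ α * z) - κ * (z - α) := by
    intro z c
    simp [bm7E, hL, hu, hw]
    ring
  have hR0 : R = 0 := by
    refine Polynomial.eq_zero_of_infinite_isRoot R ?_
    refine Set.Infinite.mono (s := ball (0 : ℂ) 1) ?_ ?_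
    · intro z hz
      obtain ⟨M, hM⟩ := hLdvd
      have h1 := congrArg (bm7E z (g z)) hM
      rw [map_mul, hEL, hm z hz, sub_self, zero_mul, map_sub, map_mul, hΨ, bm7E_map, hgm z hz,
        mul_zero, zero_sub, neg_eq_zero] at h1
      simpa [bm7E] using h1
    · exact infinite_of_mem_nhds (0 : ℂ) (ball_mem_nhds 0 one_pos)
  rw [hR0, Polynomial.C_0, sub_zero] at hLdvd
  obtain ⟨M, hM⟩ := hLdvd
  have hdvd : Ψ ∣ L * M := ⟨Polynomial.C (u ^ n), by rw [← hM, mul_comm]⟩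
  have hL1 : L.natDegree = 1 := by
    have h1 : L = Polynomial.C u * Polynomial.X + Polynomial.C (-w) := by
      rw [hL, Polynomial.C_neg, sub_eq_add_neg]
    rw [h1]
    exact Polynomial.natDegree_linear hu0
  have hΨL : Ψ ∣ L := by
    rcases hprime.dvd_or_dvd hdvd with h1 | h1
    · exact h1
    · exfalso
      obtain ⟨N, hN⟩ := h1
      rw [hN] at hM
      have h2 : Polynomial.C (u ^ n) = L * N := by
        apply mul_right_cancel₀ hirr.ne_zero
        rw [hM]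
        ring
      have hN0 : N ≠ 0 := by
        intro h0
        rw [h0, mul_zero] at h2
        exact pow_ne_zero n hu0 (Polynomial.C_eq_zero.1 h2)
      have hL0 : L ≠ 0 := by
        intro h0
        rw [h0, Polynomial.natDegree_zero] at hL1
        exact zero_ne_one hL1
      have h3 := congrArg Polynomial.natDegree h2
      rw [Polynomial.natDegree_C, Polynomial.natDegree_mul hL0 hN0, hL1] at h3
      omega
  intro z c hzc _
  obtain ⟨N, hN⟩ := hΨL
  have h1 := congrArg (bm7E z c) hN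
  rw [map_mul, hEL, hΨ, bm7E_map, hzc, zero_mul] at h1
  exact sub_eq_zero.1 h1

end Pool.Agent.LSF
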