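import Pool.Agent.LSF.BM4
import Pool.Agent.LSF.BM6
import Pool.Agent.LSF.BM7
import Pool.Agent.LSF.BExt

/-!
BM9 (Theorem B, assembly).

Complete proof. `h' := gp_swap h`. Let `bad₁`, `bad₂` be the exceptional sets of `ebr h` and
`ebr h'`, `l₁` from `fd_main h`, `l₂` from `p1 h`, `l₂'` from `p1 h'`.
`l₃`: from `f1p`: `st_start` gives `σ₀` and a position `(v₁, u₁, a₁)` with `b 0` unimodular in
`XV d v₁ (n 0)` (`2 d - 2 ≥ 1`, index `0`); with `t := b 0`, `A := ACL (b '' {i | i ≠ 0})` we get as in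
`st_step` (BM1) a slice `GSl` with a label `Lab d V t (n 0) ρ (Y 0)` (tuple `![z₀, t]`); `f1p` with
`C = 0`, radius `R`: `l₃` such that for `m ∈ MM`, `m ≥ l₃` (with `E = ∅`) there is
`e ∈ ball t R` with `¬ Split d V m e`.
`bad := bad₁ ∪ bad₂ ∪ {m | m < max of l₁, l₂, l₂', l₃}`. Let `m ∈ MM`, `m ∉ bad`.
Choose `x₀ ∈ XV d v m` (`GP.card`), `y₀ := L.b m a x₀`. `x₀ ∉ K0`, `y₀ ∉ K0` (`gp_trans` for `h` and
`h'`; `y₀ ∈ XV d u m`). `y₀ ∈ ACL {x₀}` and `x₀ ∈ ACL {y₀}` (`fd_main`), so `acl_rel` with `A = K0`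
(`ACL {x₀} ≤ ACL (insert x₀ K0)`) gives irreducible `Φ`, `Φ'` with `ev2 Φ x₀ y₀ = 0`,
`ev2 Φ' y₀ x₀ = 0`. For every `x ∈ XV d v m` there is by `GP.sym` (transposition of `x₀` and `x`)
`σ` over `K0` fixing `a` with `σ x₀ = x`, then `σ y₀ = L.b m a x` (`b_aut`), so
`ev2 Φ x (L.b m a x) = 0` and `ev2 Φ' (L.b m a x) x = 0` (`ev2` commutes with `σ` fixing the
coefficients). For the swapped pair: every `y ∈ XV d u m` is `L.b m a x` with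
`x = L.swap.b m a y` (`lnk'`), so `ev2 Φ' y (L.swap.b m a y) = 0`.
P1 for the curves: if `ev2 Φ z c = 0`, `z ∉ K0` then `conj_curve` (`k = A = K0`) gives `σ` with
`σ x₀ = z`, `σ y₀ = c`, so `p1 h` gives: not `‖z‖ < 1 ∧ ‖c‖ = 1`. Similarly `p1 h'` for `Φ'`
(applied to `y₀ ∈ XV d u m`, `L.swap.b m a y₀ = x₀`).
By the second part of `fd_main` there are `σ`, `x ∈ XV d v m` with `z₁ := σ x`,
`c₁ := σ (L.b m a x)` of modulus `< 1`; not in `K0` (automorphisms over `K0` preserve the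
complement of `K0`); `ev2 Φ z₁ c₁ = 0`, `ev2 Φ' c₁ z₁ = 0`. `ebr h` gives `g`, `ebr h'` gives `g'`.
`inv_branches`, `disc_aut`, `bilin` give `α`, `κ` with `c (1 - conj α z) = κ (z - α)` for all
zeros `(z, c)` of `Φ` with `z ∉ K0`, in particular for `(x, L.b m a x)`, `x ∈ XV d v m`.
`κ (1 - α) = 1 - conj α`: `h_one` for the slice above and the parameter `e`: `hlink` with `Z = A`:
for `s ∉ A`, `x ∈ XV d (V s) m`, `y := L.b m (As s) x ∈ XV d (U s) m` and `(x, y)` is the image under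
an automorphism over `K0` of a pair `(x', L.b m a x')` so a zero of `Φ`, `x ∉ K0`.
-/

namespace Pool.Agent.LSF

open Polynomial Pool.Agent.LenSpec Metric Filter

theorem BM9_ev2_aut (σ : ℂ ≃ₐ[K0] ℂ) (Φ : Polynomial (Polynomial K0)) (x y : ℂ) :
    ev2 Φ (σ x) (σ y) = σ (ev2 Φ x y) := by
  have h1 : ∀ (x y : ℂ), ev2 Φ x y =
      Polynomial.eval₂ (Polynomial.eval₂RingHom (algebraMap K0 ℂ) x) y Φ := by
    intro x y
    rw [ev2, Polynomial.eval_map]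
  rw [h1, h1]
  have h2 := Polynomial.hom_eval₂ Φ (Polynomial.eval₂RingHom (algebraMap K0 ℂ) x)
    ((σ : ℂ ≃+* ℂ) : ℂ →+* ℂ) y
  have h3 : ((σ : ℂ ≃+* ℂ) : ℂ →+* ℂ).comp (Polynomial.eval₂RingHom (algebraMap K0 ℂ) x) =
      Polynomial.eval₂RingHom (algebraMap K0 ℂ) (σ x) := by
    apply Polynomial.ringHom_ext
    · intro r
      simp
      exact σ.commutes r
    · simp
  rw [h3] at h2
  exact h2.symm

theorem BM9_notK (σ : ℂ ≃ₐ[K0] ℂ) (x : ℂ) (hx : x ∉ K0) : σ x ∉ K0 := by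
  intro h
  apply hx
  have h1 : σ ((⟨σ x, h⟩ : K0) : ℂ) = ((⟨σ x, h⟩ : K0) : ℂ) := σ.commutes (⟨σ x, h⟩ : K0)
  have h2 : σ (σ x) = σ x := h1
  rw [← σ.injective h2]
  exact h

theorem BM9_symx {d : ℕ} {MM : Set ℕ} {k : ℕ} {L : LinkD k} {v u : VI d → ℂ} {a : Fin k → ℂ}
    (h : GP d MM k L v u a) (m : ℕ) (hm : m ∈ MM) (x₀ x : ℂ) (hx₀ : x₀ ∈ XV d v m)
    (hx : x ∈ XV d v m) : ∃ σ : ℂ ≃ₐ[K0] ℂ, (∀ i, σ (a i) = a i) ∧ σ x₀ = x := by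
  classical
  obtain ⟨σ, h1, h2⟩ := h.sym {m} (by simpa using hm) (fun _ => Equiv.swap x₀ x) (by
    intro m' hm'
    have hm'' : m' = m := by simpa using hm'
    subst hm''
    have hmaps : Set.MapsTo (Equiv.swap x₀ x) (XV d v m') (XV d v m') := by
      intro y hy
      by_cases hy1 : y = x₀
      · subst hy1
        rw [Equiv.swap_apply_left]
        exact hx
      by_cases hy2 : y = x
      · subst hy2
        rw [Equiv.swap_apply_right]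
        exact hx₀
      rw [Equiv.swap_apply_of_ne_of_ne hy1 hy2]
      exact hy
    refine ⟨hmaps, (Equiv.swap x₀ x).injective.injOn, ?_⟩
    intro y hy
    exact ⟨Equiv.swap x₀ x y, hmaps hy, Equiv.swap_apply_self _ _ _⟩)
  refine ⟨σ, h1, ?_⟩
  rw [h2 m (by simp) x₀ hx₀]
  exact Equiv.swap_apply_left _ _

theorem BM9_slice {d : ℕ} {MM : Set ℕ} {k : ℕ} {L : LinkD k} {v u : VI d → ℂ} {a : Fin k → ℂ}
    (h : GP d MM k L v u a) :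
    ∃ l₀ : ℕ, ∀ m ∈ MM, l₀ ≤ m → ∃ (c : ℂ) (R : ℝ) (V U : ℂ → VI d → ℂ) (As : Fin k → ℂ → ℂ)
      (e : ℂ) (Z : Set ℂ), Fam d MM c R V ∧ Fam d MM c R U ∧ e ∈ ball c R ∧ ¬ Split d V m e ∧
      Z.Countable ∧ ∀ s ∈ ball c R, s ∉ Z → GP d MM k L (V s) (U s) (fun i => As i s) ∧
        ∃ σ : ℂ ≃ₐ[K0] ℂ, (∀ i, σ (v i) = V s i) ∧ (∀ i, σ (a i) = As i s) := by
  obtain ⟨σ₀, n, b, hS⟩ := st_start h
  have hd : 2 ≤ d := h.vgv.nf.two_le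
  set v₁ : VI d → ℂ := fun i => σ₀ (v i) with hv₁
  set u₁ : VI d → ℂ := fun i => σ₀ (u i) with hu₁
  set a₁ : Fin k → ℂ := fun i => σ₀ (a i) with ha₁
  obtain ⟨i₀, hi₀⟩ : ∃ i₀ : Fin (2 * d - 2), i₀.val = 0 := ⟨⟨0, by omega⟩, rfl⟩
  obtain ⟨t, ht⟩ : ∃ t, t = b i₀ := ⟨_, rfl⟩
  have ht1 : ‖t‖ = 1 := by rw [ht]; exact hS.one i₀ (Nat.zero_le _)
  have hbi : AlgebraicIndependent ℚ b := gp_ind hS.gp (2 * d - 2) le_rfl n hS.nM hS.inj b hS.bx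
  obtain ⟨A, hAdef⟩ : ∃ A : IntermediateField ℚ ℂ, A = ACL (b '' {i | i ≠ i₀}) := ⟨_, rfl⟩
  have hAc : (A : Set ℂ).Countable := by
    rw [hAdef]
    exact acl_countable _ (Set.toFinite _).countable
  have hAcl : IsAlgClosed A := by rw [hAdef]; exact acl_isAlgClosed _
  have hK : K0 ≤ A := by rw [hAdef]; exact acl_mono _ _ (Set.empty_subset _)
  have htA : t ∉ A := by rw [ht, hAdef]; exact ai_not_mem b hbi i₀
  have hrb : Set.range b ⊆ (ACL (insert t (A : Set ℂ)) : Set ℂ) := by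
    rintro _ ⟨i, rfl⟩
    apply acl_sub
    by_cases hi : i = i₀
    · left
      rw [ht, hi]
    · right
      rw [hAdef]
      exact acl_sub _ ⟨i, hi, rfl⟩
  have hvA : ∀ i, v₁ i ∈ ACL (insert t (A : Set ℂ)) := fun i =>
    acl_le _ _ hrb (gp_basis hS.gp n hS.nM hS.inj b hS.bx i)
  have hva : ∀ x ∈ ACL (Set.range v₁), x ∈ ACL (insert t (A : Set ℂ)) := fun x hx =>
    acl_le _ _ (by rintro _ ⟨i, rfl⟩; exact hvA i) hx
  have hp : 1 ≤ n i₀ := (h.prime _ (hS.nM i₀)).one_lt.le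
  obtain ⟨z₀, hz₀, hz₀t⟩ := hS.bx i₀
  have hz₀t' : mu d v₁ (n i₀) z₀ = t := by rw [ht]; exact hz₀t
  have hz₀' : PX d v₁ (n i₀) z₀ := hz₀
  have hpa := px_acl d (n i₀) hp v₁ hS.gp.vgv.nf z₀ hz₀'
  rw [hz₀t'] at hpa
  obtain ⟨R, hR, V, U, As, Y, hG⟩ := mk_slice d MM k L v₁ u₁ a₁ hS.gp A hAc hAcl hK t htA hvA 2
    ![z₀, t] (by
      intro i
      fin_cases i
      · exact hpa.1
      · exact hpa.2)
  obtain ⟨ρ, hρ, hρR, hlab⟩ := (sl_lab hG hAc hAcl (by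
      intro i
      fin_cases i
      · exact hva _ hpa.1
      · exact hva _ hpa.2) (n i₀) hp z₀ 0 1 rfl htA ht1).1 hz₀' hz₀t'.symm
  have hVt : VG d MM (V t) := by rw [hG.V0]; exact hS.gp.vgv
  obtain ⟨l₀, hl₀⟩ := f1p d MM h.prime t R V hG.slice.fam hVt (n i₀) (hS.nM i₀) ρ hρR (Y 0) hlab
    0 R hR
  refine ⟨l₀, fun m hm hml => ?_⟩
  obtain ⟨e, he, -, -, -, hsp⟩ := hl₀ m hm hml ∅ (by simp)
  refine ⟨t, R, V, U, As, e, (A : Set ℂ), hG.slice.fam, hG.slice.fam', he, hsp, hAc, ?_⟩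
  intro s hs hsA
  have hsA' : s ∉ A := hsA
  refine ⟨hG.gp s hs hsA', ?_⟩
  obtain ⟨σ, -, h1, -, h3, -⟩ := hG.conj s hs hsA'
  obtain ⟨τ, hτ⟩ := restr A hK σ
  refine ⟨σ₀.trans τ, fun i => ?_, fun i => ?_⟩
  · rw [← h1 i, ← hτ]
    rfl
  · rw [← h3 i, ← hτ]
    rfl

theorem thmB {d : ℕ} {MM : Set ℕ} {k : ℕ} {L : LinkD k} {v u : VI d → ℂ} {a : Fin k → ℂ}
    (h : GP d MM k L v u a) :
    ∃ bad : Finset ℕ, ∀ m ∈ MM, m ∉ bad → ∃ α κ : ℂ, ‖α‖ < 1 ∧ ‖κ‖ = 1 ∧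
      κ * (1 - α) = 1 - starRingEnd ℂ α ∧
      ∀ x ∈ XV d v m, L.b m a x * (1 - starRingEnd ℂ α * x) = κ * (x - α) := by
  classical
  have h' := gp_swap h
  obtain ⟨bad₁, hb₁⟩ := ebr h
  obtain ⟨bad₂, hb₂⟩ := ebr h'
  obtain ⟨l₁, hl₁⟩ := fd_main h
  obtain ⟨l₂, hl₂⟩ := p1 h
  obtain ⟨l₂', hl₂'⟩ := p1 h'
  obtain ⟨l₃, hl₃⟩ := BM9_slice h
  refine ⟨bad₁ ∪ bad₂ ∪ Finset.range (l₁ + l₂ + l₂' + l₃), fun m hm hmb => ?_⟩
  simp only [Finset.mem_union, Finset.mem_range, not_or, not_lt] at hmb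
  obtain ⟨⟨hm₁, hm₂⟩, hml⟩ := hmb
  have hne : (XV d v m).Nonempty := by
    have := h.card m hm
    apply Set.nonempty_of_ncard_ne_zero
    omega
  obtain ⟨x₀, hx₀⟩ := hne
  obtain ⟨y₀, hy₀d⟩ : ∃ y₀, y₀ = L.b m a x₀ := ⟨_, rfl⟩
  obtain ⟨-, hy₀, -, hback⟩ := h.lnk m hm x₀ hx₀
  rw [← hy₀d] at hy₀ hback
  have hxK : x₀ ∉ K0 := gp_trans h m hm x₀ hx₀
  have hyK : y₀ ∉ K0 := gp_trans h' m hm y₀ hy₀
  obtain ⟨hfd1, hfd2⟩ := hl₁ m hm (by omega)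
  have hac := hfd1 x₀ hx₀
  rw [← hy₀d] at hac
  obtain ⟨Φ, hΦ, -, hΦ0⟩ := acl_rel K0 (acl_isAlgClosed ∅) x₀ y₀ hxK
    (acl_mono _ _ (by intro z hz; left; exact hz) hac.1)
  obtain ⟨Φ', hΦ', -, hΦ'0⟩ := acl_rel K0 (acl_isAlgClosed ∅) y₀ x₀ hyK
    (acl_mono _ _ (by intro z hz; left; exact hz) hac.2)
  have hpair : ∀ x ∈ XV d v m, ev2 Φ x (L.b m a x) = 0 ∧ ev2 Φ' (L.b m a x) x = 0 := by
    intro x hx
    obtain ⟨σ, hσa, hσx⟩ := BM9_symx h m hm x₀ x hx₀ hx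
    have hσy : σ y₀ = L.b m a x := by
      rw [hy₀d, ← b_aut L m σ a x₀, hσx]
      congr 1
      funext i
      exact hσa i
    have e1 := BM9_ev2_aut σ Φ x₀ y₀
    have e2 := BM9_ev2_aut σ Φ' y₀ x₀
    rw [hσx, hσy, hΦ0, map_zero] at e1
    rw [hσx, hσy, hΦ'0, map_zero] at e2
    exact ⟨e1, e2⟩
  have hKcl : IsAlgClosed K0 := acl_isAlgClosed ∅
  have hKc : (K0 : Set ℂ).Countable := acl_countable _ Set.countable_empty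
  have hP : ∀ z c : ℂ, ev2 Φ z c = 0 → z ∉ K0 → ‖z‖ < 1 → ‖c‖ ≠ 1 := by
    intro z c hzc hz hz1 hc1
    obtain ⟨σ, s1, s2⟩ := conj_curve K0 K0 hKcl hKcl hKc le_rfl Φ hΦ x₀ y₀ z c hΦ0 hzc hxK hz
    apply (hl₂ m hm (by omega) x₀ hx₀ σ).1
    rw [s1, ← hy₀d, s2]
    exact ⟨hz1, hc1⟩
  have hP' : ∀ z c : ℂ, ev2 Φ' z c = 0 → z ∉ K0 → ‖z‖ < 1 → ‖c‖ ≠ 1 := by
    intro z c hzc hz hz1 hc1
    obtain ⟨σ, s1, s2⟩ := conj_curve K0 K0 hKcl hKcl hKc le_rfl Φ' hΦ' y₀ x₀ z c hΦ'0 hzc hyK hz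
    apply (hl₂' m hm (by omega) y₀ hy₀ σ).1
    rw [hback, s1, s2]
    exact ⟨hz1, hc1⟩
  obtain ⟨σ, x, hx, hσx, hσc, -⟩ := hfd2 ∅ Set.countable_empty
  have hxx := gp_trans h m hm x hx
  have hcc := gp_trans h' m hm (L.b m a x) (h.lnk m hm x hx).2.1
  have hz₁ := BM9_notK σ x hxx
  have hc₁ := BM9_notK σ _ hcc
  have e1 : ev2 Φ (σ x) (σ (L.b m a x)) = 0 := by
    rw [BM9_ev2_aut, (hpair x hx).1, map_zero]
  have e2 : ev2 Φ' (σ (L.b m a x)) (σ x) = 0 := by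
    rw [BM9_ev2_aut, (hpair x hx).2, map_zero]
  obtain ⟨g, hg, hgm, hg1⟩ := hb₁ m hm hm₁ Φ hΦ (fun x hx => (hpair x hx).1) hP (σ x)
    (σ (L.b m a x)) hσx hσc hz₁ e1
  obtain ⟨g', hg', hgm', hg1'⟩ := hb₂ m hm hm₂ Φ' hΦ' (by
      intro y hy
      obtain ⟨-, q1, -, q2⟩ := h.lnk' m hm y hy
      have := (hpair _ q1).2
      rw [q2] at this
      exact this) hP' (σ (L.b m a x)) (σ x) hσc hσx hc₁ e2
  obtain ⟨i1, i2⟩ := inv_branches Φ Φ' hΦ hΦ' x₀ y₀ hxK hyK hΦ0 hΦ'0 g g' hg hg' hgm hgm'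
    (σ x) (σ (L.b m a x)) hσx hσc hz₁ hc₁ hg1 hg1'
  obtain ⟨α, κ, hα, hκ, hακ⟩ := disc_aut g g' hg hg' (fun z hz => (hgm z hz).1)
    (fun z hz => (hgm' z hz).1) i1 i2
  have hbil := bilin Φ hΦ x₀ y₀ hxK hΦ0 g (fun z hz => (hgm z hz).2) α κ hα hκ hακ
  refine ⟨α, κ, hα, hκ, ?_, fun x hx => hbil x _ (hpair x hx).1 (gp_trans h m hm x hx)⟩
  obtain ⟨c, R, V, U, As, e, Z, hV, hU, he, hsp, hZ, hsl⟩ := hl₃ m hm (by omega)
  refine h_one d MM m (h.prime m hm) hm c R V U hV hU e he hsp α κ hα hκ Z hZ ?_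
  intro s hs hsZ x hx
  obtain ⟨hgp, ρ, hρv, hρa⟩ := hsl s hs hsZ
  refine ⟨L.b m (fun i => As i s) x, (hgp.lnk m hm x hx).2.1, ?_⟩
  have hX : XV d (V s) m = (ρ : ℂ ≃+* ℂ) '' XV d v m := by
    have h4 := (aut_px d (ρ : ℂ ≃+* ℂ) v).2.2.2.1 m
    rw [← h4]
    have h5 : V s = fun i => (ρ : ℂ ≃+* ℂ) (v i) := by
      funext i
      exact (hρv i).symm
    rw [h5]
  rw [hX] at hx
  obtain ⟨x', hx', rfl⟩ := hx
  have hAs : (fun i => As i s) = fun i => ρ (a i) := by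
    funext i
    exact (hρa i).symm
  have hb' : L.b m (fun i => As i s) ((ρ : ℂ ≃+* ℂ) x') = ρ (L.b m a x') := by
    rw [hAs]
    exact b_aut L m ρ a x'
  rw [hb']
  have e3 : ev2 Φ (ρ x') (ρ (L.b m a x')) = 0 := by
    rw [BM9_ev2_aut, (hpair x' hx').1, map_zero]
  exact hbil _ _ e3 (BM9_notK ρ x' (gp_trans h m hm x' hx'))

end Pool.Agent.LSF
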