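import Mathlib

/-!
BS1: Bloch's theorem, local version.

Complete proof. If `deriv g a = 0` the ball on the left is empty. Otherwise put `m = ‖deriv g a‖`,
`r = t / 6`.
(1) `deriv g` is differentiable on `ball a t` (`DifferentiableOn.deriv hg isOpen_ball`) and maps
`ball a t` into `closedBall (deriv g a) (3 * m)`; Schwarz
(`Complex.dist_le_div_mul_dist_of_mapsTo_ball`): `‖deriv g z - deriv g a‖ ≤ 3 * m / t * ‖z - a‖`.
(2) `φ z = g z - deriv g a * z` has derivative `deriv g z - deriv g a` on the convex set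
`closedBall a r ⊆ ball a t`, of norm at most `3 * m / t * r = m / 2`; the mean value inequality
(`Convex.norm_image_sub_le_of_norm_deriv_le` or `..._hasDerivWithin_le`) gives
`‖φ z - φ a‖ ≤ m / 2 * ‖z - a‖`, so for `‖z - a‖ = r`:
`‖g z - g a‖ ≥ m * r - m / 2 * r = m * t / 12`.
(3) `g` is `DiffContOnCl` on `ball a r` (`DifferentiableOn.diffContOnCl_ball`), and
`∃ᶠ z in 𝓝 a, g z ≠ g a` since `deriv g a ≠ 0` (`HasDerivAt.eventually_ne` in `𝓝[≠] a`).
`DiffContOnCl.ball_subset_image_closedBall` with `ε = m * t / 12` gives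
`ball (g a) (m * t / 24) ⊆ g '' closedBall a r ⊆ g '' ball a t`.
-/

namespace Pool.Agent.LSF

open Metric

theorem bloch_local (a : ℂ) (t : ℝ) (ht : 0 < t) (g : ℂ → ℂ)
    (hg : DifferentiableOn ℂ g (ball a t))
    (h : ∀ z ∈ ball a t, ‖deriv g z‖ ≤ 2 * ‖deriv g a‖) :
    ball (g a) (t * ‖deriv g a‖ / 24) ⊆ g '' (ball a t) := by
  by_cases h0 : deriv g a = 0
  · rw [h0]
    simp
  have ham : a ∈ ball a t := mem_ball_self ht
  have hm : 0 < ‖deriv g a‖ := norm_pos_iff.2 h0
  have hr : 0 < t / 6 := by positivity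
  have hsub : closedBall a (t / 6) ⊆ ball a t := closedBall_subset_ball (by linarith)
  -- step 1
  have h1 : ∀ z ∈ ball a t, ‖deriv g z - deriv g a‖ ≤ 3 * ‖deriv g a‖ / t * ‖z - a‖ := by
    intro z hz
    have hmaps : Set.MapsTo (deriv g) (ball a t) (closedBall (deriv g a) (3 * ‖deriv g a‖)) := by
      intro y hy
      rw [mem_closedBall, dist_eq_norm]
      calc ‖deriv g y - deriv g a‖ ≤ ‖deriv g y‖ + ‖deriv g a‖ := norm_sub_le _ _
        _ ≤ 2 * ‖deriv g a‖ + ‖deriv g a‖ := by linarith [h y hy]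
        _ = 3 * ‖deriv g a‖ := by ring
    have := Complex.dist_le_div_mul_dist_of_mapsTo_ball (hg.deriv isOpen_ball) hmaps hz
    rwa [dist_eq_norm, dist_eq_norm] at this
  -- step 2
  have hd : ∀ z ∈ ball a t, HasDerivAt g (deriv g z) z := fun z hz =>
    (hg.differentiableAt (isOpen_ball.mem_nhds hz)).hasDerivAt
  have h2 : ∀ z ∈ closedBall a (t / 6),
      ‖(g z - deriv g a * z) - (g a - deriv g a * a)‖ ≤ ‖deriv g a‖ / 2 * ‖z - a‖ := by
    intro z hz
    refine Convex.norm_image_sub_le_of_norm_hasDerivWithin_le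
      (f := fun y => g y - deriv g a * y) (f' := fun y => deriv g y - deriv g a)
      (s := closedBall a (t / 6)) ?_ ?_ (convex_closedBall a (t / 6))
      (mem_closedBall_self hr.le) hz
    · intro y hy
      have hy' := (hd y (hsub hy)).sub ((hasDerivAt_id y).const_mul (deriv g a))
      rw [mul_one] at hy'
      exact hy'.hasDerivWithinAt
    · intro y hy
      have hy1 := h1 y (hsub hy)
      have hy2 : ‖y - a‖ ≤ t / 6 := by
        rw [← dist_eq_norm]
        exact mem_closedBall.1 hy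
      calc ‖deriv g y - deriv g a‖ ≤ 3 * ‖deriv g a‖ / t * ‖y - a‖ := hy1
        _ ≤ 3 * ‖deriv g a‖ / t * (t / 6) := by gcongr
        _ = ‖deriv g a‖ / 2 := by field_simp; ring
  have h3 : ∀ z ∈ sphere a (t / 6), t * ‖deriv g a‖ / 12 ≤ ‖g z - g a‖ := by
    intro z hz
    have hz' : ‖z - a‖ = t / 6 := by
      rw [← dist_eq_norm]
      exact mem_sphere.1 hz
    have h4 := h2 z (sphere_subset_closedBall hz)
    rw [hz'] at h4
    have h5 : ‖deriv g a * (z - a)‖ = ‖deriv g a‖ * (t / 6) := by rw [norm_mul, hz']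
    have h6 : ‖deriv g a * (z - a)‖ ≤ ‖g z - g a‖ +
        ‖(g z - deriv g a * z) - (g a - deriv g a * a)‖ := by
      have h7 : deriv g a * (z - a) =
          (g z - g a) - ((g z - deriv g a * z) - (g a - deriv g a * a)) := by ring
      calc ‖deriv g a * (z - a)‖ =
          ‖(g z - g a) - ((g z - deriv g a * z) - (g a - deriv g a * a))‖ := by rw [← h7]
        _ ≤ _ := norm_sub_le _ _
    rw [h5] at h6
    linarith
  -- step 3
  have h4 : DiffContOnCl ℂ g (ball a (t / 6)) := hg.diffContOnCl_ball hsub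
  have h5 : ∃ᶠ z in nhds a, g z ≠ g a := by
    have h6 : ∀ᶠ z in nhdsWithin a {a}ᶜ, g z ≠ g a := (hd a ham).eventually_ne h0
    exact h6.frequently.filter_mono nhdsWithin_le_nhds
  have h6 := h4.ball_subset_image_closedBall hr h3 h5
  have h7 : t * ‖deriv g a‖ / 12 / 2 = t * ‖deriv g a‖ / 24 := by ring
  rw [h7] at h6
  exact h6.trans (Set.image_mono hsub)

end Pool.Agent.LSF
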