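import Pool.Agent.LSF.BS1

/-!
BS2: Bloch's theorem.
-/

namespace Pool.Agent.LSF

open Metric

theorem bloch (c : ℂ) (R : ℝ) (hR : 0 < R) (f : ℂ → ℂ)
    (hf : DifferentiableOn ℂ f (ball c R)) :
    ∃ w : ℂ, ball w (R * ‖deriv f c‖ / 72) ⊆ f '' (ball c R) := by
  by_cases h0 : deriv f c = 0
  · refine ⟨0, ?_⟩
    rw [h0, norm_zero, mul_zero, zero_div, ball_zero]
    exact Set.empty_subset _
  have hc : 0 < ‖deriv f c‖ := norm_pos_iff.2 h0
  have hsub : closedBall c (2 * R / 3) ⊆ ball c R := closedBall_subset_ball (by linarith)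
  have hd : ContinuousOn (fun z => ‖deriv f z‖ * (2 * R / 3 - ‖z - c‖))
      (closedBall c (2 * R / 3)) := by
    have h1 : ContinuousOn (deriv f) (closedBall c (2 * R / 3)) :=
      ((hf.deriv isOpen_ball).continuousOn).mono hsub
    exact h1.norm.mul (by fun_prop)
  obtain ⟨a, haK, hmax⟩ := (isCompact_closedBall c (2 * R / 3)).exists_isMaxOn
    ⟨c, mem_closedBall_self (by linarith)⟩ hd
  have hΦ : ∀ z ∈ closedBall c (2 * R / 3), ‖deriv f z‖ * (2 * R / 3 - ‖z - c‖) ≤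
      ‖deriv f a‖ * (2 * R / 3 - ‖a - c‖) := fun z hz => hmax hz
  have hcc := hΦ c (mem_closedBall_self (by linarith))
  rw [sub_self, norm_zero, sub_zero] at hcc
  have ha0 : 0 ≤ ‖deriv f a‖ := norm_nonneg _
  have ha1 : ‖a - c‖ ≤ 2 * R / 3 := by
    rw [← dist_eq_norm]
    exact haK
  have hpos : 0 < ‖deriv f a‖ * (2 * R / 3 - ‖a - c‖) :=
    lt_of_lt_of_le (mul_pos hc (by linarith)) hcc
  have ht : 0 < 2 * R / 3 - ‖a - c‖ := by
    by_contra h
    have h2 : 2 * R / 3 - ‖a - c‖ = 0 := by linarith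
    rw [h2, mul_zero] at hpos
    exact lt_irrefl _ hpos
  set t : ℝ := (2 * R / 3 - ‖a - c‖) / 2 with htdef
  have ht0 : 0 < t := by rw [htdef]; linarith
  have htsub : ball a t ⊆ ball c R := by
    refine ball_subset_ball' ?_
    rw [dist_eq_norm, htdef]
    linarith
  have hloc := bloch_local a t ht0 f (hf.mono htsub) (by
    intro z hz
    have hz1 : ‖z - a‖ < t := by
      rw [← dist_eq_norm]
      exact hz
    have hz2 : ‖z - c‖ ≤ ‖z - a‖ + ‖a - c‖ := by
      have := norm_add_le (z - a) (a - c)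
      rwa [sub_add_sub_cancel] at this
    have hz3 : t ≤ 2 * R / 3 - ‖z - c‖ := by
      rw [htdef] at hz1 ⊢
      linarith
    have hzK : z ∈ closedBall c (2 * R / 3) := by
      rw [mem_closedBall, dist_eq_norm]
      linarith
    have h3 := hΦ z hzK
    have h4 : ‖deriv f z‖ * t ≤ ‖deriv f z‖ * (2 * R / 3 - ‖z - c‖) :=
      mul_le_mul_of_nonneg_left hz3 (norm_nonneg _)
    have h5 : ‖deriv f a‖ * (2 * R / 3 - ‖a - c‖) = 2 * ‖deriv f a‖ * t := by
      rw [htdef]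
      ring
    have h6 : ‖deriv f z‖ * t ≤ 2 * ‖deriv f a‖ * t := by linarith
    exact le_of_mul_le_mul_right h6 ht0)
  refine ⟨f a, (ball_subset_ball ?_).trans (hloc.trans (Set.image_mono htsub))⟩
  have h7 : t * ‖deriv f a‖ / 24 = ‖deriv f a‖ * (2 * R / 3 - ‖a - c‖) / 48 := by
    rw [htdef]
    ring
  rw [h7]
  have h8 : R * ‖deriv f c‖ / 72 = ‖deriv f c‖ * (2 * R / 3) / 48 := by ring
  rw [h8]
  linarith

end Pool.Agent.LSF
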