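import Pool.Agent.LSF.BS5

/-!
BS6: the theorem of Schottky for two arbitrary points of a disc, and `sprime`.

Complete proof.
`schottky_chain`: put `ρ = R - max ‖a - c‖ ‖b - c‖ > 0`, choose `n ≥ 1` with `‖a - b‖ / n ≤ ρ / 2`,
`p k = b + (k / n) * (a - b)`, `k = 0, ..., n`. As the closed ball `closedBall c (R - ρ)` is convex
and contains `a` and `b`, it contains all `p k`, so `ball (p k) ρ ⊆ ball c R`. By induction on `k`:
for every `k ≤ n` there is `C k` (depending only on `M`, `a`, `b`, `c`, `R`) such that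
`‖f (p k)‖ ≤ C k` for all `f` in question: `C 0 = M`, `C (k + 1)` is the constant of `schottky (C k)`
applied to `ball (p k) ρ`, `‖p (k + 1) - p k‖ ≤ ρ / 2`.
`sprime`: let `C` be the constant of `schottky_chain` for `M = 1 / ε` and `w = 1 / (1 - u)`, which is
differentiable and omits `0` and `1` (since `u` omits `1` and `0`). Put `δ = 1 / (max C 0 + 1)`. If
`‖u a - 1‖ < δ` then `‖w a‖ > max C 0 + 1 > C`, so `‖w b‖ > 1 / ε`, i.e. `‖u b - 1‖ < ε`.
-/

namespace Pool.Agent.LSF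

open Metric

theorem schottky_chain (c : ℂ) (R : ℝ) (a b : ℂ) (ha : a ∈ ball c R) (hb : b ∈ ball c R) (M : ℝ) :
    ∃ C : ℝ, ∀ f : ℂ → ℂ, DifferentiableOn ℂ f (ball c R) →
      (∀ z ∈ ball c R, f z ≠ 0 ∧ f z ≠ 1) → ‖f b‖ ≤ M → ‖f a‖ ≤ C := by
  rw [mem_ball, dist_eq_norm] at ha hb
  obtain ⟨ρ, hρ, ha', hb'⟩ : ∃ ρ : ℝ, 0 < ρ ∧ ‖a - c‖ ≤ R - ρ ∧ ‖b - c‖ ≤ R - ρ := by
    refine ⟨R - max ‖a - c‖ ‖b - c‖, by linarith [max_lt ha hb], ?_, ?_⟩
    · linarith [le_max_left ‖a - c‖ ‖b - c‖]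
    · linarith [le_max_right ‖a - c‖ ‖b - c‖]
  obtain ⟨n, hn⟩ := exists_nat_gt (2 * ‖a - b‖ / ρ)
  have hn0 : 0 < (n : ℝ) := lt_of_le_of_lt (by positivity) hn
  have hstep : ‖a - b‖ / n ≤ ρ / 2 := by
    rw [div_lt_iff₀ hρ] at hn
    rw [div_le_iff₀ hn0]
    linarith
  -- the points of the chain
  have hp : ∀ k : ℕ, k ≤ n → ‖b + ((k / n : ℝ) : ℂ) * (a - b) - c‖ ≤ R - ρ := by
    intro k hk
    have ht0 : (0 : ℝ) ≤ k / n := by positivity
    have ht1 : (k : ℝ) / n ≤ 1 := by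
      rw [div_le_one hn0]
      exact_mod_cast hk
    have e : b + ((k / n : ℝ) : ℂ) * (a - b) - c =
        ((1 - k / n : ℝ) : ℂ) * (b - c) + ((k / n : ℝ) : ℂ) * (a - c) := by
      push_cast
      ring
    rw [e]
    refine (norm_add_le _ _).trans ?_
    rw [norm_mul, norm_mul, Complex.norm_real, Complex.norm_real, Real.norm_of_nonneg ht0,
      Real.norm_of_nonneg (by linarith)]
    have h1 : (1 - (k : ℝ) / n) * ‖b - c‖ ≤ (1 - (k : ℝ) / n) * (R - ρ) :=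
      mul_le_mul_of_nonneg_left hb' (by linarith)
    have h2 : (k : ℝ) / n * ‖a - c‖ ≤ (k : ℝ) / n * (R - ρ) :=
      mul_le_mul_of_nonneg_left ha' ht0
    linarith
  have hind : ∀ k : ℕ, k ≤ n → ∃ C : ℝ, ∀ f : ℂ → ℂ, DifferentiableOn ℂ f (ball c R) →
      (∀ z ∈ ball c R, f z ≠ 0 ∧ f z ≠ 1) → ‖f b‖ ≤ M →
      ‖f (b + ((k / n : ℝ) : ℂ) * (a - b))‖ ≤ C := by
    intro k
    induction k with
    | zero =>
      intro _
      refine ⟨M, fun f _ _ hM => ?_⟩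
      simpa using hM
    | succ k ih =>
      intro hk
      obtain ⟨C, hC⟩ := ih (by omega)
      obtain ⟨C', hC'⟩ := schottky C
      refine ⟨C', fun f hf h hM => ?_⟩
      have hsub : ball (b + ((k / n : ℝ) : ℂ) * (a - b)) ρ ⊆ ball c R := by
        refine ball_subset_ball' ?_
        rw [dist_eq_norm]
        linarith [hp k (by omega)]
      refine hC' _ ρ f hρ (hf.mono hsub) (fun z hz => h z (hsub hz)) (hC f hf h hM) _ ?_
      have e : b + (((k + 1 : ℕ) / n : ℝ) : ℂ) * (a - b) - (b + ((k / n : ℝ) : ℂ) * (a - b)) =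
          ((1 / n : ℝ) : ℂ) * (a - b) := by
        push_cast
        ring
      rw [e, norm_mul, Complex.norm_real, Real.norm_of_nonneg (by positivity)]
      refine le_trans (le_of_eq ?_) hstep
      ring
  obtain ⟨C, hC⟩ := hind n le_rfl
  refine ⟨C, fun f hf h hM => ?_⟩
  have h1 := hC f hf h hM
  rw [div_self hn0.ne'] at h1
  simpa using h1

theorem sprime (c : ℂ) (R : ℝ) (a b : ℂ) (ha : a ∈ ball c R) (hb : b ∈ ball c R) :
    ∀ ε > 0, ∃ δ > 0, ∀ u : ℂ → ℂ, DifferentiableOn ℂ u (ball c R) →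
      (∀ z ∈ ball c R, u z ≠ 0 ∧ u z ≠ 1) → ‖u a - 1‖ < δ → ‖u b - 1‖ < ε := by
  intro ε hε
  obtain ⟨C, hC⟩ := schottky_chain c R a b ha hb (1 / ε)
  have hmax : 0 ≤ max C 0 := le_max_right _ _
  refine ⟨1 / (max C 0 + 1), by positivity, fun u hu h hua => ?_⟩
  by_contra hub
  push Not at hub
  have h1u : ∀ z ∈ ball c R, 1 - u z ≠ 0 := fun z hz h0 => (h z hz).2 (sub_eq_zero.1 h0).symm
  have h1 : ‖(fun z => 1 / (1 - u z)) a‖ ≤ C := by
    refine hC (fun z => 1 / (1 - u z)) ?_ ?_ ?_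
    · exact (differentiableOn_const 1).fun_div (hu.const_sub 1) h1u
    · intro z hz
      refine ⟨one_div_ne_zero (h1u z hz), fun h2 => (h z hz).1 ?_⟩
      have h3 : 1 / (1 - u z) = 1 := h2
      rw [div_eq_one_iff_eq (h1u z hz)] at h3
      linear_combination h3
    · change ‖1 / (1 - u b)‖ ≤ 1 / ε
      rw [norm_div, norm_one, norm_sub_rev]
      exact one_div_le_one_div_of_le hε hub
  have hpos : 0 < ‖u a - 1‖ := by
    rw [norm_sub_rev]
    exact norm_pos_iff.2 (h1u a ha)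
  have h2 : 1 / ‖u a - 1‖ ≤ C := by
    have e : ‖(fun z => 1 / (1 - u z)) a‖ = 1 / ‖u a - 1‖ := by
      change ‖1 / (1 - u a)‖ = _
      rw [norm_div, norm_one, norm_sub_rev]
    rwa [e] at h1
  have h3 : 1 ≤ C * ‖u a - 1‖ := by
    rwa [div_le_iff₀ hpos] at h2
  have h4 : C * ‖u a - 1‖ ≤ max C 0 * ‖u a - 1‖ :=
    mul_le_mul_of_nonneg_right (le_max_left _ _) hpos.le
  rw [lt_div_iff₀ (by positivity)] at hua
  nlinarith

end Pool.Agent.LSF
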