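import Pool.Agent.LSF.BDefs

/-!
BT1: partial fractions with a polynomial part.
-/

namespace Pool.Agent.LSF

open Polynomial

theorem lag (D R : ℂ[X]) (hD : D ≠ 0) (hn : D.roots.Nodup) (z : ℂ) (hz : D.eval z ≠ 0) :
    ∑ w ∈ D.roots.toFinset, R.eval w / ((derivative D).eval w * (z - w)) =
      R.eval z / D.eval z - (R / D).eval z := by
  classical
  set s := D.roots.toFinset with hs
  set a := D.leadingCoeff with ha
  have ha0 : a ≠ 0 := leadingCoeff_ne_zero.mpr hD
  have hprod : D = C a * Lagrange.nodal s (id : ℂ → ℂ) := by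
    have h1 := (IsAlgClosed.splits D).eq_prod_roots
    rw [Lagrange.nodal_eq]
    have h2 : (∏ i ∈ s, (X - C (id i)) : ℂ[X]) = (D.roots.map (fun x => X - C x)).prod := by
      rw [Finset.prod_eq_multiset_prod, hs, Multiset.toFinset_val, Multiset.dedup_eq_self.mpr hn]
      rfl
    rw [h2]
    exact h1
  have hcard : s.card = D.natDegree := by
    conv_rhs => rw [hprod]
    rw [natDegree_C_mul ha0, Lagrange.natDegree_nodal]
  set S := R % D with hS
  have hdm : R = D * (R / D) + S := (EuclideanDomain.div_add_mod R D).symm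
  have hSdeg : S.degree < (s.card : ℕ) := by
    have h1 : S.degree < D.degree := EuclideanDomain.mod_lt R hD
    rwa [degree_eq_natDegree hD, ← hcard] at h1
  have hroot : ∀ w ∈ s, R.eval w = S.eval w := by
    intro w hw
    have h1 : D.eval w = 0 := by
      rw [hs, Multiset.mem_toFinset] at hw
      exact (mem_roots'.mp hw).2
    rw [hdm, eval_add, eval_mul, h1]
    simp
  have hinj : Set.InjOn (id : ℂ → ℂ) s := Function.injective_id.injOn
  have hne : ∀ w ∈ s, z ≠ id w := by
    intro w hw h
    apply hz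
    rw [hs, Multiset.mem_toFinset] at hw
    rw [h]
    exact (mem_roots'.mp hw).2
  have hint : S = Lagrange.interpolate s (id : ℂ → ℂ) (fun w => S.eval w) :=
    Lagrange.eq_interpolate hinj hSdeg
  have hev : S.eval z = (Lagrange.nodal s (id : ℂ → ℂ)).eval z *
      ∑ i ∈ s, Lagrange.nodalWeight s (id : ℂ → ℂ) i * (z - id i)⁻¹ * S.eval i := by
    conv_lhs => rw [hint]
    exact Lagrange.eval_interpolate_not_at_node _ hne
  have hDz : D.eval z = a * (Lagrange.nodal s (id : ℂ → ℂ)).eval z := by
    conv_lhs => rw [hprod]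
    rw [eval_mul, eval_C]
  have hnz : (Lagrange.nodal s (id : ℂ → ℂ)).eval z ≠ 0 := by
    intro h
    apply hz
    rw [hDz, h, mul_zero]
  have hD' : ∀ w, (derivative D).eval w = a * (derivative (Lagrange.nodal s (id : ℂ → ℂ))).eval w := by
    intro w
    conv_lhs => rw [hprod]
    rw [derivative_C_mul, eval_mul, eval_C]
  have hR : R.eval z = D.eval z * (R / D).eval z + S.eval z := by
    conv_lhs => rw [hdm]
    rw [eval_add, eval_mul]
  have hfin : R.eval z / D.eval z - (R / D).eval z = S.eval z / D.eval z := by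
    rw [hR]
    field_simp
    ring
  rw [hfin, hev, hDz, Finset.mul_sum, Finset.sum_div]
  refine Finset.sum_congr rfl fun w hw => ?_
  rw [hroot w hw, hD' w, Lagrange.nodalWeight_eq_eval_derivative_nodal hw]
  have h3 : z - w ≠ 0 := sub_ne_zero.mpr (hne w hw)
  show eval w S / (a * eval w (derivative (Lagrange.nodal s (id : ℂ → ℂ))) * (z - w)) =
    eval z (Lagrange.nodal s (id : ℂ → ℂ)) *
      ((eval w (derivative (Lagrange.nodal s (id : ℂ → ℂ))))⁻¹ * (z - w)⁻¹ * eval w S) /
      (a * eval z (Lagrange.nodal s (id : ℂ → ℂ)))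
  generalize eval w (derivative (Lagrange.nodal s (id : ℂ → ℂ))) = e
  generalize eval z (Lagrange.nodal s (id : ℂ → ℂ)) = n at hnz
  by_cases h4 : e = 0
  · rw [h4]
    simp
  · field_simp

theorem lag_deg (d : ℕ) (D R : ℂ[X]) (hD : D.natDegree = d) (hD0 : D ≠ 0)
    (hR : R.natDegree ≤ 3 * d) : (R / D).natDegree ≤ 2 * d := by
  by_cases h0 : R / D = 0
  · rw [h0]
    simp
  have h1 : D.degree + (R / D).degree = R.degree := by
    apply degree_add_div hD0
    by_contra h
    exact h0 ((Polynomial.div_eq_zero_iff hD0).mpr (not_le.mp h))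
  have hR0 : R ≠ 0 := by
    intro h
    apply h0
    rw [h]
    simp
  rw [degree_eq_natDegree hD0, degree_eq_natDegree h0, degree_eq_natDegree hR0] at h1
  have h2 : D.natDegree + (R / D).natDegree = R.natDegree := by exact_mod_cast h1
  omega

end Pool.Agent.LSF
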