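import Pool.Agent.LSF.BBas1

/-!
BT10: tangent directions and infinitesimal conjugations span all polynomials of degree `≤ 2 d`.

Complete proof. Let `P = nP d v`, `Q = nQ d v`, `E = EE P Q`. The linear map
`Φ : (VI d → ℂ) × (Fin 3 → ℂ) → degreeLT ℂ (2 d + 1)`,
`Φ (δ, c) = tanP d v δ + c₀ (Q² - E) + c₁ (P Q - X E) + c₂ (P² - X² E)` is injective (below) and
both sides have dimension `2 (d-1) + 3 = 2 d + 1`, so it is surjective
(`LinearMap.injective_iff_surjective_of_finrank_eq_finrank`; all degrees are `≤ 2 d`).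
Injectivity: let `A = nP d δ`, `B = nR d δ` and suppose
`A Q - P B + c₀ (Q² - E) + c₁ (P Q - X E) + c₂ (P² - X² E) = 0`.
* evaluate at `0`: `A(0) = P(0) = 0`, `Q(0) = 1`, `E(0) = P'(0) = P.coeff 1`:
  `c₀ (1 - P.coeff 1) = 0`, so `c₀ = 0` (`Nf.one_ne`).
* coefficient of `X^(2d)`: `A Q`, `P B`, `P Q` have degree `≤ 2d-1`, `E` has degree `≤ 2d-2` with
  coefficient of `X^(2d-2)` equal to `(d-1) p - d p = -p`, `p := P.coeff (d-1) ≠ 0`, and
  `P²` has degree `≤ 2d-2`. So `c₂ * p = 0`, `c₂ = 0`.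
* now `A Q - P B + c₁ (P Q - X (P' Q - P Q')) = 0`, i.e.
  `Q (A + c₁ P - c₁ X P') = P (B - c₁ X Q')`. `Q` is coprime to `P`, so `Q ∣ B - c₁ X Q'`, which has
  degree `≤ d`, so `B - c₁ X Q' = C κ * Q`; at `0`: `0 = κ`. So `B = c₁ X Q'`; the coefficient of
  `X^d` is `0 = c₁ d` (`natDegree B < d`, `Q` monic of degree `d`), so `c₁ = 0` and `B = 0`,
  `A Q = 0`, `A = 0`. Finally `δ = 0`: the coefficients of `nP d δ`, `nR d δ` are the `δ`'s.
-/

namespace Pool.Agent.LSF

open Polynomial Pool.Agent.LenSpec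

theorem bt10_nP_add (d : ℕ) (δ ε : VI d → ℂ) : nP d (δ + ε) = nP d δ + nP d ε := by
  simp [nP, add_mul, Finset.sum_add_distrib]

theorem bt10_nR_add (d : ℕ) (δ ε : VI d → ℂ) : nR d (δ + ε) = nR d δ + nR d ε := by
  simp [nR, add_mul, Finset.sum_add_distrib]

theorem bt10_nP_smul (d : ℕ) (a : ℂ) (δ : VI d → ℂ) : nP d (a • δ) = C a * nP d δ := by
  simp [nP, Finset.mul_sum, mul_assoc]

theorem bt10_nR_smul (d : ℕ) (a : ℂ) (δ : VI d → ℂ) : nR d (a • δ) = C a * nR d δ := by
  simp [nR, Finset.mul_sum, mul_assoc]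

theorem bt10_nP_coeff (d : ℕ) (δ : VI d → ℂ) (i : Fin (d - 1)) :
    (nP d δ).coeff (i.val + 1) = δ (Sum.inl i) := by
  unfold nP
  rw [finsetSum_coeff, Finset.sum_eq_single i]
  · simp
  · intro j _ hj
    rw [coeff_C_mul, coeff_X_pow, if_neg, mul_zero]
    intro h
    apply hj
    ext
    omega
  · simp

theorem bt10_nR_coeff (d : ℕ) (δ : VI d → ℂ) (i : Fin (d - 1)) :
    (nR d δ).coeff (i.val + 1) = δ (Sum.inr i) := by
  unfold nR
  rw [finsetSum_coeff, Finset.sum_eq_single i]
  · simp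
  · intro j _ hj
    rw [coeff_C_mul, coeff_X_pow, if_neg, mul_zero]
    intro h
    apply hj
    ext
    omega
  · simp

theorem bt10_zero (d : ℕ) (δ : VI d → ℂ) (hP : nP d δ = 0) (hR : nR d δ = 0) : δ = 0 := by
  funext i
  rcases i with i | i
  · have := bt10_nP_coeff d δ i
    rw [hP, coeff_zero] at this
    exact this.symm
  · have := bt10_nR_coeff d δ i
    rw [hR, coeff_zero] at this
    exact this.symm

/-- the linear map of the proof -/
noncomputable def bt10_F (d : ℕ) (v : VI d → ℂ) (x : (VI d → ℂ) × (Fin 3 → ℂ)) : ℂ[X] :=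
  tanP d v x.1 +
      C (x.2 0) * ((nQ d v) ^ 2 - EE (nP d v) (nQ d v)) +
      C (x.2 1) * (nP d v * nQ d v - X * EE (nP d v) (nQ d v)) +
      C (x.2 2) * ((nP d v) ^ 2 - X ^ 2 * EE (nP d v) (nQ d v))

theorem bt10_F_add (d : ℕ) (v : VI d → ℂ) (x y : (VI d → ℂ) × (Fin 3 → ℂ)) :
    bt10_F d v (x + y) = bt10_F d v x + bt10_F d v y := by
  simp only [bt10_F, tanP, Prod.fst_add, Prod.snd_add, Pi.add_apply, bt10_nP_add, bt10_nR_add,
    C_add]
  ring

theorem bt10_F_smul (d : ℕ) (v : VI d → ℂ) (a : ℂ) (x : (VI d → ℂ) × (Fin 3 → ℂ)) :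
    bt10_F d v (a • x) = C a * bt10_F d v x := by
  simp only [bt10_F, tanP, Prod.smul_fst, Prod.smul_snd, Pi.smul_apply, bt10_nP_smul,
    bt10_nR_smul, smul_eq_mul, C_mul]
  ring

theorem bt10_E_natDegree (e : ℕ) (P Q : ℂ[X]) (hP : P.natDegree ≤ e + 1)
    (hQ : Q.natDegree ≤ e + 2) : (EE P Q).natDegree ≤ 2 * e + 2 := by
  have h1 : (derivative P).natDegree ≤ e := (natDegree_derivative_le P).trans (by omega)
  have h2 : (derivative Q).natDegree ≤ e + 1 := (natDegree_derivative_le Q).trans (by omega)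
  unfold EE
  refine (natDegree_sub_le _ _).trans (max_le ?_ ?_)
  · exact natDegree_mul_le.trans (by omega)
  · exact natDegree_mul_le.trans (by omega)

theorem bt10_E_coeff (e : ℕ) (P Q : ℂ[X]) (hP : P.natDegree ≤ e + 1)
    (hQ : Q.natDegree = e + 2) (hm : Q.Monic) : (EE P Q).coeff (2 * e + 2) = - P.coeff (e + 1) := by
  have h1 : (derivative P).natDegree ≤ e := (natDegree_derivative_le P).trans (by omega)
  have h2 : (derivative Q).natDegree ≤ e + 1 := (natDegree_derivative_le Q).trans (by omega)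
  have hq : Q.coeff (e + 2) = 1 := by rw [← hQ]; exact hm
  have e1 : (derivative P * Q).coeff (2 * e + 2) = P.coeff (e + 1) * (e + 1) := by
    rw [show 2 * e + 2 = e + (e + 2) by ring, coeff_mul_add_eq_of_natDegree_le h1 hQ.le, hq, mul_one,
      coeff_derivative]
  have e2 : (P * derivative Q).coeff (2 * e + 2) = P.coeff (e + 1) * (e + 2) := by
    rw [show 2 * e + 2 = (e + 1) + (e + 1) by ring, coeff_mul_add_eq_of_natDegree_le hP h2,
      coeff_derivative, show e + 1 + 1 = e + 2 by ring, hq]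
    push_cast
    ring
  unfold EE
  rw [coeff_sub, e1, e2]
  ring

theorem bt10_F_natDegree (d : ℕ) (v : VI d → ℂ) (hv : Nf d v) (x : (VI d → ℂ) × (Fin 3 → ℂ)) :
    (bt10_F d v x).natDegree ≤ 2 * d := by
  obtain ⟨e, rfl⟩ : ∃ e, d = e + 2 := ⟨d - 2, by have := hv.two_le; omega⟩
  have hP := nP_natDegree (e + 2) hv.two_le v
  have hQ := (nQ_monic (e + 2) hv.two_le v).2
  have hA := nP_natDegree (e + 2) hv.two_le x.1
  have hB := nR_natDegree (e + 2) hv.two_le x.1
  have hE := bt10_E_natDegree e (nP (e + 2) v) (nQ (e + 2) v) (by omega) (by omega)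
  unfold bt10_F tanP
  refine (natDegree_add_le _ _).trans (max_le ?_ ?_)
  · refine (natDegree_add_le _ _).trans (max_le ?_ ?_)
    · refine (natDegree_add_le _ _).trans (max_le ?_ ?_)
      · refine (natDegree_sub_le _ _).trans (max_le ?_ ?_)
        · exact natDegree_mul_le.trans (by omega)
        · exact natDegree_mul_le.trans (by omega)
      · refine (natDegree_C_mul_le _ _).trans ?_
        refine (natDegree_sub_le _ _).trans (max_le ?_ ?_)
        · exact natDegree_pow_le.trans (by omega)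
        · omega
    · refine (natDegree_C_mul_le _ _).trans ?_
      refine (natDegree_sub_le _ _).trans (max_le ?_ ?_)
      · exact natDegree_mul_le.trans (by omega)
      · refine natDegree_mul_le.trans ?_
        rw [natDegree_X]
        omega
  · refine (natDegree_C_mul_le _ _).trans ?_
    refine (natDegree_sub_le _ _).trans (max_le ?_ ?_)
    · exact natDegree_pow_le.trans (by omega)
    · refine natDegree_mul_le.trans ?_
      rw [natDegree_X_pow]
      omega

theorem bt10_inj (d : ℕ) (v : VI d → ℂ) (hv : Nf d v) (x : (VI d → ℂ) × (Fin 3 → ℂ))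
    (hx : bt10_F d v x = 0) : x = 0 := by
  obtain ⟨e, rfl⟩ : ∃ e, d = e + 2 := ⟨d - 2, by have := hv.two_le; omega⟩
  obtain ⟨δ, c⟩ := x
  have hP := nP_natDegree (e + 2) hv.two_le v
  obtain ⟨hm, hQ⟩ := nQ_monic (e + 2) hv.two_le v
  have hA := nP_natDegree (e + 2) hv.two_le δ
  have hB := nR_natDegree (e + 2) hv.two_le δ
  obtain ⟨hP0, -, hQ0⟩ := n_eval_zero (e + 2) hv.two_le v
  obtain ⟨hA0, hB0, -⟩ := n_eval_zero (e + 2) hv.two_le δ
  have hone := hv.one_ne
  have htop := hv.top_ne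
  have hcop := hv.cop
  have hE := bt10_E_natDegree e (nP (e + 2) v) (nQ (e + 2) v) (by omega) (by omega)
  have hEc := bt10_E_coeff e (nP (e + 2) v) (nQ (e + 2) v) (by omega) (by omega) hm
  have hz : nP (e + 2) δ = 0 → nR (e + 2) δ = 0 → δ = 0 := bt10_zero (e + 2) δ
  simp only [bt10_F, tanP] at hx
  revert hP hm hQ hA hB hP0 hQ0 hA0 hB0 hone htop hcop hE hEc hx hz
  generalize nP (e + 2) v = P
  generalize nQ (e + 2) v = Q
  generalize nP (e + 2) δ = A
  generalize nR (e + 2) δ = B
  intro hx hP hm hQ hA hB hP0 hQ0 hA0 hB0 hone htop hcop hE hEc hz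
  rw [show e + 2 - 1 = e + 1 by omega] at htop
  have hc0 : c 0 = 0 := by
    have h := congrArg (eval 0) hx
    simp only [EE, eval_add, eval_sub, eval_mul, eval_pow, eval_C, eval_X, hP0, hQ0, hA0, hB0,
      eval_zero] at h
    have hd : eval 0 (derivative P) = P.coeff 1 := by
      rw [← coeff_zero_eq_eval_zero, coeff_derivative]; simp
    rw [hd] at h
    have h' : c 0 * (1 - P.coeff 1) = 0 := by linear_combination h
    rcases mul_eq_zero.1 h' with h'' | h''
    · exact h''
    · exact absurd (by linear_combination -h'') hone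
  have hc2 : c 2 = 0 := by
    have h := congrArg (fun R : ℂ[X] => R.coeff (2 * e + 4)) hx
    simp only [hc0, C_0, zero_mul, add_zero, coeff_add, coeff_sub, coeff_C_mul, coeff_zero] at h
    have k1 : (A * Q).coeff (2 * e + 4) = 0 :=
      coeff_eq_zero_of_natDegree_lt (natDegree_mul_le.trans_lt (by omega))
    have k2 : (P * B).coeff (2 * e + 4) = 0 :=
      coeff_eq_zero_of_natDegree_lt (natDegree_mul_le.trans_lt (by omega))
    have k3 : (P * Q).coeff (2 * e + 4) = 0 :=
      coeff_eq_zero_of_natDegree_lt (natDegree_mul_le.trans_lt (by omega))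
    have k4 : (P ^ 2).coeff (2 * e + 4) = 0 :=
      coeff_eq_zero_of_natDegree_lt (natDegree_pow_le.trans_lt (by omega))
    have k5 : (X * EE P Q).coeff (2 * e + 4) = 0 := by
      rw [show 2 * e + 4 = (2 * e + 3) + 1 by ring, coeff_X_mul]
      exact coeff_eq_zero_of_natDegree_lt (by omega)
    have k6 : (X ^ 2 * EE P Q).coeff (2 * e + 4) = - P.coeff (e + 1) := by
      rw [show 2 * e + 4 = (2 * e + 2) + 2 by ring, coeff_X_pow_mul, hEc]
    rw [k1, k2, k3, k4, k5, k6] at h
    have h' : c 2 * P.coeff (e + 1) = 0 := by linear_combination h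
    rcases mul_eq_zero.1 h' with h'' | h''
    · exact h''
    · exact absurd h'' htop
  have hkey : Q * (A + C (c 1) * P - C (c 1) * X * derivative P) =
      P * (B - C (c 1) * X * derivative Q) := by
    simp only [hc0, hc2, C_0, zero_mul, add_zero, EE] at hx
    linear_combination hx
  have hdvd : Q ∣ B - C (c 1) * X * derivative Q :=
    hcop.symm.dvd_of_dvd_mul_left ⟨_, hkey.symm⟩
  obtain ⟨S, hS⟩ := hdvd
  have hdeg : (B - C (c 1) * X * derivative Q).natDegree ≤ e + 2 := by
    have h2 : (derivative Q).natDegree ≤ e + 1 := (natDegree_derivative_le Q).trans (by omega)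
    refine (natDegree_sub_le _ _).trans (max_le (by omega) ?_)
    rw [mul_assoc]
    refine (natDegree_C_mul_le _ _).trans ?_
    refine natDegree_mul_le.trans ?_
    rw [natDegree_X]
    omega
  have hS0 : S = 0 := by
    by_contra hne
    have h1 := hm.natDegree_mul' hne
    rw [← hS] at h1
    have h2 : S.natDegree = 0 := by omega
    obtain ⟨κ, rfl⟩ := natDegree_eq_zero.1 h2
    have h3 := congrArg (eval 0) hS
    simp only [eval_sub, eval_mul, eval_C, eval_X, hB0, hQ0] at h3
    apply hne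
    have : κ = 0 := by linear_combination -h3
    rw [this, C_0]
  rw [hS0, mul_zero] at hS
  have hc1 : c 1 = 0 := by
    have h := congrArg (fun R : ℂ[X] => R.coeff (e + 2)) hS
    simp only [coeff_sub, coeff_zero] at h
    rw [coeff_eq_zero_of_natDegree_lt hB, mul_assoc, coeff_C_mul, show e + 2 = (e + 1) + 1 by ring,
      coeff_X_mul, coeff_derivative, show e + 1 + 1 = e + 2 by ring] at h
    have hq : Q.coeff (e + 2) = 1 := by rw [← hQ]; exact hm
    rw [hq] at h
    have h' : c 1 * ((e : ℂ) + 2) = 0 := by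
      push_cast at h
      linear_combination -h
    rcases mul_eq_zero.1 h' with h'' | h''
    · exact h''
    · exfalso
      have : ((e + 2 : ℕ) : ℂ) = 0 := by push_cast; exact h''
      rw [Nat.cast_eq_zero] at this
      omega
  have hB' : B = 0 := by
    rw [hc1] at hS
    simpa using hS
  have hA' : A = 0 := by
    rw [hc1, hB'] at hkey
    simp only [C_0, zero_mul, add_zero, sub_zero, mul_zero] at hkey
    rcases mul_eq_zero.1 hkey with h | h
    · exact absurd h hm.ne_zero
    · exact h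
  have hδ := hz hA' hB'
  refine Prod.ext hδ ?_
  funext i
  fin_cases i
  · exact hc0
  · exact hc1
  · exact hc2

/-- the coefficients of `bt10_F` -/
noncomputable def bt10_L (d : ℕ) (v : VI d → ℂ) :
    ((VI d → ℂ) × (Fin 3 → ℂ)) →ₗ[ℂ] (Fin (2 * d + 1) → ℂ) where
  toFun x := fun i => (bt10_F d v x).coeff i.val
  map_add' x y := by
    funext i
    simp [bt10_F_add]
  map_smul' a x := by
    funext i
    simp [bt10_F_smul]

theorem cob (d : ℕ) (v : VI d → ℂ) (hv : Nf d v) (H : ℂ[X]) (hH : H.natDegree ≤ 2 * d) :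
    ∃ (δ : VI d → ℂ) (c₀ c₁ c₂ : ℂ), H = tanP d v δ +
      C c₀ * ((nQ d v) ^ 2 - EE (nP d v) (nQ d v)) +
      C c₁ * (nP d v * nQ d v - X * EE (nP d v) (nQ d v)) +
      C c₂ * ((nP d v) ^ 2 - X ^ 2 * EE (nP d v) (nQ d v)) := by
  have hd := hv.two_le
  have heq : ∀ R : ℂ[X], R.natDegree ≤ 2 * d → ∀ R' : ℂ[X], R'.natDegree ≤ 2 * d →
      (∀ i : Fin (2 * d + 1), R.coeff i.val = R'.coeff i.val) → R = R' := by
    intro R hR R' hR' h
    ext n
    by_cases hn : n < 2 * d + 1
    · exact h ⟨n, hn⟩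
    · rw [coeff_eq_zero_of_natDegree_lt (by omega), coeff_eq_zero_of_natDegree_lt (by omega)]
  have hinj : Function.Injective (bt10_L d v) := by
    rw [injective_iff_map_eq_zero]
    intro x hx
    apply bt10_inj d v hv x
    apply heq _ (bt10_F_natDegree d v hv x) 0 (by simp)
    intro i
    rw [coeff_zero]
    exact congrFun hx i
  have hfin : Module.finrank ℂ ((VI d → ℂ) × (Fin 3 → ℂ)) =
      Module.finrank ℂ (Fin (2 * d + 1) → ℂ) := by
    rw [Module.finrank_prod, Module.finrank_pi, Module.finrank_pi, Module.finrank_pi]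
    simp only [Fintype.card_sum, Fintype.card_fin]
    omega
  have hsurj := (LinearMap.injective_iff_surjective_of_finrank_eq_finrank hfin).1 hinj
  obtain ⟨x, hx⟩ := hsurj (fun i => H.coeff i.val)
  refine ⟨x.1, x.2 0, x.2 1, x.2 2, ?_⟩
  apply heq _ hH (bt10_F d v x) (bt10_F_natDegree d v hv x)
  intro i
  exact (congrFun hx i).symm

end Pool.Agent.LSF
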