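import Pool.Agent.LSF.BT9
import Pool.Agent.LSF.BT10

/-!
BT11: an invariant functional on attracting cycles that vanishes on all tangent directions is
zero.

Complete proof. `P = nP d v`, `Q = nQ d v`, `RM` by `nf_rm`. By `kill0` it suffices that
`LF (z ↦ z^i/Q^2) = 0` for `i ≤ 2 d`. Apply `cob` to `H = X^i`. `LF` is linear
(`lf_add`, `lf_smul`); the tangent part vanishes by `hL` (`LT`). The three others: near `Z`,
`(Q² - E)/Q² = 1 - f'`, `(P Q - z E)/Q² = f - z f'`, `(P² - z² E)/Q² = f² - z² f'`, and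
`LF (φ ∘ f) = LF (f' φ)` (`lf_inv`) for `φ = 1`, `φ = z`, `φ = z²`.
-/

namespace Pool.Agent.LSF

open Polynomial Pool.Agent.LenSpec

theorem bt11_diff (P Q : ℂ[X]) (z : ℂ) (hz : Q.eval z ≠ 0) :
    DifferentiableAt ℂ (derivAt P Q) z := by
  have he : derivAt P Q = fun z => ((derivative P).eval z * Q.eval z -
      P.eval z * (derivative Q).eval z) / (Q.eval z) ^ 2 := rfl
  rw [he]
  exact DifferentiableAt.div
    (((Polynomial.differentiable _).differentiableAt.mul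
      (Polynomial.differentiable _).differentiableAt).sub
      ((Polynomial.differentiable _).differentiableAt.mul
      (Polynomial.differentiable _).differentiableAt))
    ((Polynomial.differentiable _).differentiableAt.pow 2) (pow_ne_zero 2 hz)

theorem bt11_comp (P Q : ℂ[X]) (z : ℂ) (hz : Q.eval z ≠ 0) (φ : ℂ → ℂ)
    (hφ : DifferentiableAt ℂ φ (ev P Q z)) :
    DifferentiableAt ℂ (fun z => φ (ev P Q z)) z :=
  DifferentiableAt.comp z hφ (rm_deriv P Q z hz).differentiableAt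

theorem bt11_dfun (P Q : ℂ[X]) (Z : Finset ℂ) (β γ : ℂ → ℂ) (h : Inv P Q Z β γ) (φ : ℂ → ℂ)
    (c : ℂ) (hφ : ∀ z ∈ Z, DifferentiableAt ℂ φ z) (z : ℂ) (hz : z ∈ Z) :
    DifferentiableAt ℂ (fun z => c * (φ (ev P Q z) + (-1) * (derivAt P Q z * φ z))) z := by
  have h1 := bt11_comp P Q z (h.ne z hz) φ (hφ _ (h.mem z hz))
  have h2 := bt11_diff P Q z (h.ne z hz)
  have h3 := hφ z hz
  exact (h1.add ((h2.mul h3).const_mul (-1))).const_mul c

theorem bt11_zero (P Q : ℂ[X]) (Z : Finset ℂ) (β γ : ℂ → ℂ) (h : Inv P Q Z β γ) (φ : ℂ → ℂ)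
    (c : ℂ) (hφ : ∀ z ∈ Z, DifferentiableAt ℂ φ z) :
    LF Z β γ (fun z => c * (φ (ev P Q z) + (-1) * (derivAt P Q z * φ z))) = 0 := by
  rw [lf_smul, lf_add, lf_smul, lf_inv P Q Z β γ h φ hφ]
  · ring
  · intro z hz
    exact bt11_comp P Q z (h.ne z hz) φ (hφ _ (h.mem z hz))
  · intro z hz
    exact ((bt11_diff P Q z (h.ne z hz)).mul (hφ z hz)).const_mul (-1)

theorem kill (d : ℕ) (v : VI d → ℂ) (hv : Nf d v) (Z : Finset ℂ) (β γ : ℂ → ℂ)
    (h : Inv (nP d v) (nQ d v) Z β γ) (hatt : Att (nP d v) (nQ d v) Z)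
    (hL : ∀ δ, LT d v Z β γ δ = 0) : ∀ z ∈ Z, β z = 0 ∧ γ z = 0 := by
  apply kill0 d (nP d v) (nQ d v) (nf_rm hv) Z β γ h hatt
  intro i hi
  obtain ⟨δ, c₀, c₁, c₂, hH⟩ := cob d v hv (X ^ i) (by rw [natDegree_X_pow]; exact hi)
  have hLδ := hL δ
  unfold LT at hLδ
  have hd0 : ∀ z ∈ Z, DifferentiableAt ℂ (fun _ : ℂ => (1 : ℂ)) z := fun z _ =>
    differentiableAt_const _
  have hd1 : ∀ z ∈ Z, DifferentiableAt ℂ (fun z : ℂ => z) z := fun z _ => differentiableAt_id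
  have hd2 : ∀ z ∈ Z, DifferentiableAt ℂ (fun z : ℂ => z ^ 2) z := fun z _ =>
    differentiableAt_id.pow 2
  have hdT : ∀ z ∈ Z, DifferentiableAt ℂ
      (fun z => (tanP d v δ).eval z / ((nQ d v).eval z) ^ 2) z := fun z hz =>
    DifferentiableAt.div (Polynomial.differentiable _).differentiableAt
      ((Polynomial.differentiable _).differentiableAt.pow 2) (pow_ne_zero 2 (h.ne z hz))
  have z0 := bt11_zero _ _ Z β γ h (fun _ => 1) c₀ hd0
  have z1 := bt11_zero _ _ Z β γ h (fun z => z) c₁ hd1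
  have z2 := bt11_zero _ _ Z β γ h (fun z => z ^ 2) c₂ hd2
  have d0 := bt11_dfun _ _ Z β γ h (fun _ => 1) c₀ hd0
  have d1 := bt11_dfun _ _ Z β γ h (fun z => z) c₁ hd1
  have d2 := bt11_dfun _ _ Z β γ h (fun z => z ^ 2) c₂ hd2
  have s1 := lf_add Z β γ _ _ d0 d1
  have s2 := lf_add Z β γ _ _ (fun z hz => (d0 z hz).add (d1 z hz)) d2
  have s3 := lf_add Z β γ _ _ hdT (fun z hz => ((d0 z hz).add (d1 z hz)).add (d2 z hz))
  refine (lf_congr Z β γ (fun z => z ^ i / ((nQ d v).eval z) ^ 2) _ (fun z hz => ?_)).trans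
    (s3.trans ?_)
  · have hne := h.ne z hz
    have hev : ∀ᶠ w in nhds z, (nQ d v).eval w ≠ 0 :=
      (Polynomial.continuous (nQ d v)).continuousAt.eventually_ne hne
    filter_upwards [hev] with w hw
    have hw2 : (nQ d v).eval w ^ 2 ≠ 0 := pow_ne_zero 2 hw
    have e := congrArg (eval w) hH
    simp only [EE, eval_add, eval_sub, eval_mul, eval_pow, eval_C, eval_X] at e
    simp only [Pi.add_apply, ev, derivAt]
    rw [e]
    field_simp
    ring
  · rw [hLδ, zero_add]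
    refine s2.trans ?_
    rw [z2, add_zero]
    refine s1.trans ?_
    rw [z0, z1, add_zero]

end Pool.Agent.LSF
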