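import Pool.Agent.LSF.BDefs
import Pool.Agent.LSF.BBas1

/-!
BT2: linearity and conjugation invariance of the functionals `LF`.
-/

namespace Pool.Agent.LSF

open Polynomial Pool.Agent.LenSpec

theorem lf_add (Z : Finset ℂ) (β γ η₁ η₂ : ℂ → ℂ) (h₁ : ∀ z ∈ Z, DifferentiableAt ℂ η₁ z)
    (h₂ : ∀ z ∈ Z, DifferentiableAt ℂ η₂ z) :
    LF Z β γ (fun z => η₁ z + η₂ z) = LF Z β γ η₁ + LF Z β γ η₂ := by
  unfold LF
  rw [← Finset.sum_add_distrib]
  refine Finset.sum_congr rfl fun z hz => ?_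
  rw [deriv_fun_add (h₁ z hz) (h₂ z hz)]
  ring

theorem lf_smul (Z : Finset ℂ) (β γ η : ℂ → ℂ) (c : ℂ) :
    LF Z β γ (fun z => c * η z) = c * LF Z β γ η := by
  unfold LF
  rw [Finset.mul_sum]
  refine Finset.sum_congr rfl fun z _ => ?_
  rw [deriv_const_mul_field]
  ring

theorem lf_sum {ι : Type} (s : Finset ι) (Z : Finset ℂ) (β γ : ℂ → ℂ) (η : ι → ℂ → ℂ)
    (h : ∀ i ∈ s, ∀ z ∈ Z, DifferentiableAt ℂ (η i) z) :
    LF Z β γ (fun z => ∑ i ∈ s, η i z) = ∑ i ∈ s, LF Z β γ (η i) := by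
  unfold LF
  rw [Finset.sum_comm]
  refine Finset.sum_congr rfl fun z hz => ?_
  rw [deriv_fun_sum (fun i hi => h i hi z hz), Finset.mul_sum, Finset.mul_sum,
    ← Finset.sum_add_distrib]

theorem lf_congr (Z : Finset ℂ) (β γ η₁ η₂ : ℂ → ℂ) (h : ∀ z ∈ Z, η₁ =ᶠ[nhds z] η₂) :
    LF Z β γ η₁ = LF Z β γ η₂ := by
  unfold LF
  refine Finset.sum_congr rfl fun z hz => ?_
  rw [(h z hz).deriv_eq, (h z hz).eq_of_nhds]

theorem lf_inv (P Q : ℂ[X]) (Z : Finset ℂ) (β γ : ℂ → ℂ) (h : Inv P Q Z β γ) (φ : ℂ → ℂ)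
    (hφ : ∀ z ∈ Z, DifferentiableAt ℂ φ z) :
    LF Z β γ (fun z => φ (ev P Q z)) = LF Z β γ (fun z => derivAt P Q z * φ z) := by
  classical
  have hf : ∀ z ∈ Z, HasDerivAt (ev P Q) (derivAt P Q z) z := fun z hz =>
    rm_deriv P Q z (h.ne z hz)
  have hd : ∀ z ∈ Z, DifferentiableAt ℂ (fun w => derivAt P Q w) z := by
    intro z hz
    have hq : Q.eval z ≠ 0 := h.ne z hz
    unfold derivAt
    refine DifferentiableAt.div ?_ ?_ (pow_ne_zero 2 hq)
    · exact (((derivative P).differentiableAt).mul (Q.differentiableAt)).sub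
        ((P.differentiableAt).mul ((derivative Q).differentiableAt))
    · exact (Q.differentiableAt).pow 2
  have himg : Z.image (ev P Q) = Z := by
    apply Finset.eq_of_subset_of_card_le
    · intro w hw
      obtain ⟨z, hz, rfl⟩ := Finset.mem_image.mp hw
      exact h.mem z hz
    · rw [Finset.card_image_of_injOn]
      intro z hz z' hz' he
      exact h.inj z hz z' hz' he
  have hinj : Set.InjOn (ev P Q) Z := fun z hz z' hz' he => h.inj z hz z' hz' he
  unfold LF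
  have hR : ∑ z ∈ Z, (β z * deriv (fun z => derivAt P Q z * φ z) z + γ z * (derivAt P Q z * φ z)) =
      ∑ z ∈ Z, (β (ev P Q z) * (f2 P Q (ev P Q z) * φ (ev P Q z) +
        derivAt P Q (ev P Q z) * deriv φ (ev P Q z)) +
        γ (ev P Q z) * (derivAt P Q (ev P Q z) * φ (ev P Q z))) := by
    have h1 : ∀ z ∈ Z, β z * deriv (fun z => derivAt P Q z * φ z) z +
        γ z * (derivAt P Q z * φ z) = β z * (f2 P Q z * φ z +
        derivAt P Q z * deriv φ z) + γ z * (derivAt P Q z * φ z) := by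
      intro z hz
      rw [deriv_fun_mul (hd z hz) (hφ z hz)]
      rfl
    rw [Finset.sum_congr rfl h1]
    conv_lhs => rw [← himg]
    rw [Finset.sum_image hinj]
  rw [hR]
  refine Finset.sum_congr rfl fun z hz => ?_
  have h2 : deriv (fun z => φ (ev P Q z)) z = deriv φ (ev P Q z) * derivAt P Q z := by
    have h3 := ((hφ _ (h.mem z hz)).hasDerivAt.comp z (hf z hz)).deriv
    exact h3
  rw [h2]
  have hb := h.beta z hz
  have hg := h.gamma z hz
  rw [hg]
  linear_combination (deriv φ (ev P Q z)) * hb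

theorem lf_kill (d : ℕ) (Q : ℂ[X]) (Z : Finset ℂ) (β γ : ℂ → ℂ) (hne : ∀ z ∈ Z, Q.eval z ≠ 0)
    (hK : ∀ i ≤ 2 * d, LF Z β γ (fun z => z ^ i / (Q.eval z) ^ 2) = 0) (H : ℂ[X])
    (hH : H.natDegree ≤ 2 * d) : LF Z β γ (fun z => H.eval z / (Q.eval z) ^ 2) = 0 := by
  have h1 : (fun z => H.eval z / (Q.eval z) ^ 2) = (fun z => ∑ i ∈ Finset.range (2 * d + 1),
      (H.coeff i * (z ^ i / (Q.eval z) ^ 2))) := by
    funext z
    rw [Polynomial.eval_eq_sum_range' (Nat.lt_succ_of_le hH), Finset.sum_div]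
    refine Finset.sum_congr rfl fun i _ => ?_
    rw [mul_div_assoc]
  rw [h1, lf_sum]
  · apply Finset.sum_eq_zero
    intro i hi
    rw [lf_smul, hK i (by have := Finset.mem_range.mp hi; omega), mul_zero]
  · intro i _ z hz
    have hq : Q.eval z ≠ 0 := hne z hz
    exact ((differentiableAt_id.pow i).div ((Q.differentiableAt).pow 2)
      (pow_ne_zero 2 hq)).const_mul _

end Pool.Agent.LSF
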