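import Pool.Agent.LSF.BT1
import Pool.Agent.LSF.BT2

/-!
BT4: the quadratic differential `qq` is invariant under push-forward.

Complete proof. `D := P - C W * Q`, `natDegree D = d` (leading coefficient `- W ≠ 0` because
`P.natDegree < Q.natDegree = d`). Let `s := D.roots.toFinset`. For `w ∈ s`: `Q w ≠ 0` (else
`P w = 0`, contradicting coprimality), `f w = W` (`ev P Q w = W`), `w ∉ Z` (else `W = f w ∈ Z`),
`D'(w) = P'(w) - W Q'(w) = E(w)/Q(w)` where `E = EE P Q` (use `W = P w / Q w`), and `D'(w) ≠ 0` by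
`hn` (simple root), so `E(w) ≠ 0`; `derivAt P Q w = E(w)/Q(w)^2`. Hence
`qq w / f'(w)^2 = E(w) TT(w) Q(w)^4 / E(w)^2 = TT(w) Q(w)^3 / D'(w)`.
By linearity (`lf_sum`, `lf_smul`; everything is differentiable at the points of `Z` because
`Q z ≠ 0` and `w ≠ z`):
`∑_w TT(w) Q(w)^3/D'(w) = LF (z ↦ (1/Q(z)^2) * ∑_w Q(w)^3/(D'(w) (w - z)))`.
For `z` near a point of `Z`: `D z ≠ 0` (for `z ∈ Z`: `D z = Q z (f z - W)` and `W ≠ f z` since
`f z ∈ Z`; this is an open condition), so by `lag` (with `R = Q^3`, note the sign `w - z = -(z-w)`):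
`∑_w Q(w)^3/(D'(w)(w - z)) = - Q(z)^3/D(z) + H(z)`, `H := Q^3 / D`, `natDegree H ≤ 2 d`
(`lag_deg`). So (`lf_congr`, `lf_add`, `lf_kill`) the sum equals
`LF (z ↦ - Q(z)/D(z)) = LF (z ↦ 1/(W - f z))` (`D(z) = P z - W Q z = Q z (f z - W)`).
By `lf_inv` with `φ z = 1/(W - z)` (differentiable on `Z` since `W ∉ Z`) this is
`LF (z ↦ f'(z)/(W - z)) = LF (z ↦ E(z)/(Q(z)^2 (W - z)))` (equal near `Z`).
Finally `E(z) = E(W) + (z - W) E₁(z)` with `E₁ := (E - C (E(W))) /ₘ (X - C W)`, of degree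
`≤ 2 d` (`natDegree E ≤ 2 d - 1`), so it equals `E(W) * TT(W) - LF (E₁/Q^2) = E(W) TT(W) = qq W`.
-/

namespace Pool.Agent.LSF

open Polynomial Pool.Agent.LenSpec

theorem bt4_diff (Q : ℂ[X]) (z : ℂ) : DifferentiableAt ℂ (fun z => Q.eval z) z :=
  Q.differentiableAt

theorem bt4_near (Q : ℂ[X]) (z : ℂ) (h : Q.eval z ≠ 0) : ∀ᶠ u in nhds z, Q.eval u ≠ 0 :=
  (bt4_diff Q z).continuousAt.eventually_ne h

theorem bt4_natDegree (d : ℕ) (P Q : ℂ[X]) (hR : RM d P Q) (W : ℂ) (hW0 : W ≠ 0) :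
    (P - C W * Q).natDegree = d := by
  have h1 : (C W * Q).natDegree = d := by rw [natDegree_C_mul hW0, hR.degQ]
  rw [natDegree_sub_eq_right_of_natDegree_lt (by rw [h1]; exact hR.degP), h1]

theorem bt4_root (d : ℕ) (P Q : ℂ[X]) (hR : RM d P Q) (Z : Finset ℂ) (β γ : ℂ → ℂ)
    (h : Inv P Q Z β γ) (W : ℂ) (hW0 : W ≠ 0) (hWZ : W ∉ Z) (hn : (P - C W * Q).roots.Nodup)
    (w : ℂ) (hw : w ∈ (P - C W * Q).roots.toFinset) :
    Q.eval w ≠ 0 ∧ ev P Q w = W ∧ w ∉ Z ∧ (derivative (P - C W * Q)).eval w ≠ 0 ∧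
      (EE P Q).eval w = Q.eval w * (derivative (P - C W * Q)).eval w ∧
      derivAt P Q w = (derivative (P - C W * Q)).eval w / Q.eval w := by
  have hD : P - C W * Q ≠ 0 := by
    intro hc
    have := bt4_natDegree d P Q hR W hW0
    rw [hc, natDegree_zero] at this
    have := hR.two_le
    omega
  rw [Multiset.mem_toFinset, mem_roots hD] at hw
  have hw1 : P.eval w = W * Q.eval w := by
    have := hw
    rw [IsRoot.def, eval_sub, eval_mul, eval_C, sub_eq_zero] at this
    exact this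
  have hQ : Q.eval w ≠ 0 := by
    intro hc
    obtain ⟨a, b, hab⟩ := hR.cop
    have := congrArg (eval w) hab
    rw [eval_add, eval_mul, eval_mul, hc, hw1, hc] at this
    simp at this
  have hev : ev P Q w = W := by
    unfold ev
    rw [hw1, mul_div_assoc, div_self hQ, mul_one]
  have hZ : w ∉ Z := by
    intro hc
    have := h.mem w hc
    rw [hev] at this
    exact hWZ this
  have hd : (derivative (P - C W * Q)).eval w ≠ 0 := by
    intro hc
    have h1 : 1 < (P - C W * Q).rootMultiplicity w :=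
      (one_lt_rootMultiplicity_iff_isRoot hD).2 ⟨hw, hc⟩
    have h2 := Multiset.nodup_iff_count_le_one.1 hn w
    rw [count_roots] at h2
    omega
  have hE : (EE P Q).eval w = Q.eval w * (derivative (P - C W * Q)).eval w := by
    unfold EE
    rw [derivative_sub, derivative_C_mul]
    simp only [eval_sub, eval_mul, eval_C]
    rw [hw1]
    ring
  refine ⟨hQ, hev, hZ, hd, hE, ?_⟩
  have h3 : derivAt P Q w = (EE P Q).eval w / Q.eval w ^ 2 := by
    unfold derivAt EE
    simp only [eval_sub, eval_mul]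
  rw [h3, hE]
  field_simp

theorem bt4_EE_deg (d : ℕ) (P Q : ℂ[X]) (hR : RM d P Q) : (EE P Q).natDegree ≤ 2 * d := by
  unfold EE
  refine (natDegree_sub_le _ _).trans (max_le ?_ ?_)
  · refine natDegree_mul_le.trans ?_
    have h1 := natDegree_derivative_le P
    have h2 := hR.degP
    have h3 := hR.degQ
    omega
  · refine natDegree_mul_le.trans ?_
    have h1 := natDegree_derivative_le Q
    have h2 := hR.degP
    have h3 := hR.degQ
    omega

theorem bt4_diff_one (Q : ℂ[X]) (w z : ℂ) (hQ : Q.eval z ≠ 0) (hz : w ≠ z) :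
    DifferentiableAt ℂ (fun z => 1 / (Q.eval z ^ 2 * (w - z))) z := by
  have h1 := bt4_diff Q z
  refine (differentiableAt_const _).div ((h1.pow 2).mul ((differentiableAt_const _).sub
    differentiableAt_id)) ?_
  exact mul_ne_zero (pow_ne_zero _ hQ) (sub_ne_zero.2 hz)

/-- the last step -/
theorem bt4_last (d : ℕ) (P Q : ℂ[X]) (hR : RM d P Q) (Z : Finset ℂ) (β γ : ℂ → ℂ)
    (h : Inv P Q Z β γ) (hK : ∀ i ≤ 2 * d, LF Z β γ (fun z => z ^ i / (Q.eval z) ^ 2) = 0)
    (W : ℂ) (hWZ : W ∉ Z) :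
    LF Z β γ (fun z => derivAt P Q z * (1 / (W - z))) = qq P Q Z β γ W := by
  set E := EE P Q with hE
  set E₁ := E /ₘ (X - C W) with hE₁
  have hdeg : (-E₁).natDegree ≤ 2 * d := by
    rw [natDegree_neg, hE₁, natDegree_divByMonic _ (monic_X_sub_C W)]
    exact (Nat.sub_le _ _).trans (bt4_EE_deg d P Q hR)
  have hid : ∀ z, E.eval z = E.eval W + (z - W) * E₁.eval z := by
    intro z
    have h1 := modByMonic_add_div E (X - C W)
    rw [modByMonic_X_sub_C_eq_C_eval] at h1
    have h2 := congrArg (eval z) h1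
    rw [eval_add, eval_C, eval_mul, eval_sub, eval_X, eval_C] at h2
    exact h2.symm
  have hneZ : ∀ z ∈ Z, W ≠ z := fun z hz hc => hWZ (hc ▸ hz)
  have h1 : LF Z β γ (fun z => derivAt P Q z * (1 / (W - z))) =
      LF Z β γ (fun z => E.eval W * (1 / (Q.eval z ^ 2 * (W - z))) +
        (-E₁).eval z / Q.eval z ^ 2) := by
    refine lf_congr Z β γ _ _ fun z hz => ?_
    have hw : ∀ᶠ u in nhds z, W ≠ u := by
      have : ContinuousAt (fun u : ℂ => u) z := continuousAt_id
      filter_upwards [this.eventually_ne (hneZ z hz).symm] with u hu using hu.symm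
    filter_upwards [hw, bt4_near Q z (h.ne z hz)] with u hu hQu
    have h3 : derivAt P Q u = E.eval u / Q.eval u ^ 2 := by
      rw [hE]
      unfold derivAt EE
      simp only [eval_sub, eval_mul]
    have h4 : W - u ≠ 0 := sub_ne_zero.2 hu
    rw [h3, hid u, eval_neg]
    field_simp
    ring
  rw [h1, lf_add, lf_smul, lf_kill d Q Z β γ h.ne hK _ hdeg, add_zero]
  · rfl
  · intro z hz
    exact (bt4_diff_one Q W z (h.ne z hz) (hneZ z hz)).const_mul _
  · intro z hz
    exact (bt4_diff _ z).div ((bt4_diff Q z).pow 2) (pow_ne_zero _ (h.ne z hz))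

theorem push (d : ℕ) (P Q : ℂ[X]) (hR : RM d P Q) (Z : Finset ℂ) (β γ : ℂ → ℂ)
    (h : Inv P Q Z β γ) (hK : ∀ i ≤ 2 * d, LF Z β γ (fun z => z ^ i / (Q.eval z) ^ 2) = 0)
    (W : ℂ) (hW0 : W ≠ 0) (hWZ : W ∉ Z) (hn : (P - C W * Q).roots.Nodup) :
    (∀ w ∈ (P - C W * Q).roots.toFinset, Q.eval w ≠ 0 ∧ ev P Q w = W ∧ w ∉ Z ∧
      derivAt P Q w ≠ 0) ∧
    ∑ w ∈ (P - C W * Q).roots.toFinset, qq P Q Z β γ w / (derivAt P Q w) ^ 2 =
      qq P Q Z β γ W := by
  have hroot := bt4_root d P Q hR Z β γ h W hW0 hWZ hn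
  refine ⟨fun w hw => ?_, ?_⟩
  · obtain ⟨h1, h2, h3, h4, -, h6⟩ := hroot w hw
    refine ⟨h1, h2, h3, ?_⟩
    rw [h6]
    exact div_ne_zero h4 h1
  set D := P - C W * Q with hDdef
  have hDd : D.natDegree = d := bt4_natDegree d P Q hR W hW0
  have hD0 : D ≠ 0 := by
    intro hc
    rw [hc, natDegree_zero] at hDd
    have := hR.two_le
    omega
  set s := D.roots.toFinset with hs
  set H := Q ^ 3 / D with hH
  have hHd : H.natDegree ≤ 2 * d := by
    refine lag_deg d D (Q ^ 3) hDd hD0 ?_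
    rw [natDegree_pow, hR.degQ]
  have hDz : ∀ z ∈ Z, D.eval z ≠ 0 := by
    intro z hz hc
    apply hWZ
    have h1 := h.mem z hz
    have h2 : ev P Q z = W := by
      unfold ev
      rw [div_eq_iff (h.ne z hz)]
      rw [hDdef, eval_sub, eval_mul, eval_C, sub_eq_zero] at hc
      exact hc
    rwa [h2] at h1
  have e1 : ∑ w ∈ s, qq P Q Z β γ w / (derivAt P Q w) ^ 2 =
      ∑ w ∈ s, LF Z β γ (fun z => (Q.eval w ^ 3 / (derivative D).eval w) *
        (1 / (Q.eval z ^ 2 * (w - z)))) := by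
    refine Finset.sum_congr rfl fun w hw => ?_
    obtain ⟨h1, h2, h3, h4, h5, h6⟩ := hroot w hw
    rw [lf_smul]
    unfold qq
    rw [h5, h6]
    unfold TT
    field_simp
  have e2 : ∑ w ∈ s, LF Z β γ (fun z => (Q.eval w ^ 3 / (derivative D).eval w) *
        (1 / (Q.eval z ^ 2 * (w - z)))) =
      LF Z β γ (fun z => ∑ w ∈ s, (Q.eval w ^ 3 / (derivative D).eval w) *
        (1 / (Q.eval z ^ 2 * (w - z)))) := by
    refine (lf_sum s Z β γ (fun w z => (Q.eval w ^ 3 / (derivative D).eval w) *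
        (1 / (Q.eval z ^ 2 * (w - z)))) ?_).symm
    intro w hw z hz
    obtain ⟨h1, h2, h3, h4, h5, h6⟩ := hroot w hw
    exact (bt4_diff_one Q w z (h.ne z hz) (fun hc => h3 (hc ▸ hz))).const_mul _
  have e3 : LF Z β γ (fun z => ∑ w ∈ s, (Q.eval w ^ 3 / (derivative D).eval w) *
        (1 / (Q.eval z ^ 2 * (w - z)))) =
      LF Z β γ (fun z => 1 / (W - ev P Q z) + H.eval z / Q.eval z ^ 2) := by
    refine lf_congr Z β γ _ _ fun z hz => ?_
    filter_upwards [bt4_near D z (hDz z hz), bt4_near Q z (h.ne z hz)] with u hu hQu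
    have hl := lag D (Q ^ 3) hD0 hn u hu
    have h7 : ∑ w ∈ s, (Q.eval w ^ 3 / (derivative D).eval w) * (1 / (Q.eval u ^ 2 * (w - u))) =
        -(1 / Q.eval u ^ 2) * ∑ w ∈ s, (Q ^ 3).eval w / ((derivative D).eval w * (u - w)) := by
      rw [Finset.mul_sum]
      refine Finset.sum_congr rfl fun w hw => ?_
      obtain ⟨h1, h2, h3, h4, h5, h6⟩ := hroot w hw
      have h8 : u - w ≠ 0 := by
        intro hc
        rw [sub_eq_zero] at hc
        apply hu
        rw [hc]
        rw [hs, Multiset.mem_toFinset, mem_roots hD0] at hw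
        exact hw
      have h9 : w - u ≠ 0 := by
        rw [← neg_sub]
        exact neg_ne_zero.2 h8
      rw [eval_pow]
      have : w - u = -(u - w) := by ring
      rw [this]
      field_simp
    rw [h7, hl, eval_pow]
    have h10 : W - ev P Q u = -(D.eval u / Q.eval u) := by
      unfold ev
      rw [hDdef, eval_sub, eval_mul, eval_C]
      field_simp
      ring
    rw [h10]
    field_simp
    ring
  have hφ : ∀ z ∈ Z, DifferentiableAt ℂ (fun u : ℂ => 1 / (W - u)) z := by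
    intro z hz
    refine (differentiableAt_const _).div ((differentiableAt_const _).sub differentiableAt_id) ?_
    exact sub_ne_zero.2 (fun hc => hWZ (hc ▸ hz))
  have e4 : LF Z β γ (fun z => 1 / (W - ev P Q z) + H.eval z / Q.eval z ^ 2) =
      LF Z β γ (fun z => 1 / (W - ev P Q z)) := by
    rw [lf_add, lf_kill d Q Z β γ h.ne hK H hHd, add_zero]
    · intro z hz
      have hev : DifferentiableAt ℂ (fun z => ev P Q z) z := by
        unfold ev
        exact (bt4_diff P z).div (bt4_diff Q z) (h.ne z hz)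
      refine (differentiableAt_const _).div ((differentiableAt_const _).sub hev) ?_
      exact sub_ne_zero.2 (fun hc => hWZ (hc ▸ h.mem z hz))
    · intro z hz
      exact (bt4_diff _ z).div ((bt4_diff Q z).pow 2) (pow_ne_zero _ (h.ne z hz))
  rw [e1, e2, e3, e4]
  have e5 := lf_inv P Q Z β γ h (fun u => 1 / (W - u)) hφ
  rw [e5]
  exact bt4_last d P Q hR Z β γ h hK W hWZ

end Pool.Agent.LSF
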