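import Pool.Agent.LSF.BBas1

/-!
BT5: trapping discs around attracting cycles.
-/

namespace Pool.Agent.LSF

open Polynomial Pool.Agent.LenSpec

theorem bt5_mult_add (P Q : ℂ[X]) (m n : ℕ) (z : ℂ) :
    mult P Q (m + n) z = mult P Q m z * mult P Q n ((ev P Q)^[m] z) := by
  unfold mult
  rw [Finset.prod_range_add]
  congr 1
  refine Finset.prod_congr rfl fun k _ => ?_
  rw [← Function.iterate_add_apply, add_comm m k]

theorem bt5_iter_mul (P Q : ℂ[X]) (m : ℕ) (z : ℂ) (h : (ev P Q)^[m] z = z) (k : ℕ) :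
    (ev P Q)^[m * k] z = z ∧ mult P Q (m * k) z = (mult P Q m z) ^ k := by
  induction k with
  | zero => simp [mult]
  | succ k ih =>
    rw [Nat.mul_succ]
    constructor
    · rw [Function.iterate_add_apply, h, ih.1]
    · rw [bt5_mult_add, ih.1, ih.2, pow_succ]

theorem bt5_common (P Q : ℂ[X]) (Z : Finset ℂ) (hatt : Att P Q Z) :
    ∃ M, 1 ≤ M ∧ ∀ z ∈ Z, (ev P Q)^[M] z = z ∧ ‖mult P Q M z‖ < 1 := by
  classical
  induction Z using Finset.induction_on with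
  | empty => exact ⟨1, le_refl 1, by simp⟩
  | insert a s ha ih =>
    obtain ⟨M, hM1, hM⟩ := ih (fun z hz => hatt z (Finset.mem_insert_of_mem hz))
    obtain ⟨m, hm1, hm2, hm3⟩ := hatt a (Finset.mem_insert_self a s)
    refine ⟨M * m, Nat.mul_pos hM1 hm1, fun z hz => ?_⟩
    rcases Finset.mem_insert.mp hz with h | h
    · subst h
      obtain ⟨h1, h2⟩ := bt5_iter_mul P Q m z hm2 M
      rw [mul_comm M m]
      refine ⟨h1, ?_⟩
      rw [h2, norm_pow]
      exact pow_lt_one₀ (norm_nonneg _) hm3 (by omega)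
    · obtain ⟨h3, h4⟩ := hM z h
      obtain ⟨h1, h2⟩ := bt5_iter_mul P Q M z h3 m
      refine ⟨h1, ?_⟩
      rw [h2, norm_pow]
      exact pow_lt_one₀ (norm_nonneg _) h4 (by omega)

/-- the weights: `W M z = ∑_{k<M} ∏_{j<k} a (f^(M-1-j) z)` -/
noncomputable def bt5W (P Q : ℂ[X]) (M : ℕ) (z : ℂ) : ℝ :=
  ∑ k ∈ Finset.range M, ∏ j ∈ Finset.range k, ‖derivAt P Q ((ev P Q)^[M - 1 - j] z)‖

theorem bt5_W_pos (P Q : ℂ[X]) (M : ℕ) (hM : 1 ≤ M) (z : ℂ) : 1 ≤ bt5W P Q M z := by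
  unfold bt5W
  obtain ⟨n, rfl⟩ : ∃ n, M = n + 1 := ⟨M - 1, by omega⟩
  rw [Finset.sum_range_succ']
  simp only [Finset.range_zero, Finset.prod_empty]
  have : 0 ≤ ∑ k ∈ Finset.range n, ∏ j ∈ Finset.range (k + 1),
      ‖derivAt P Q ((ev P Q)^[n + 1 - 1 - j] z)‖ :=
    Finset.sum_nonneg fun k _ => Finset.prod_nonneg fun j _ => norm_nonneg _
  linarith

theorem bt5_W_step (P Q : ℂ[X]) (M : ℕ) (hM : 1 ≤ M) (z : ℂ) (hz : (ev P Q)^[M] z = z) :
    bt5W P Q M (ev P Q z) = 1 + ‖derivAt P Q z‖ * bt5W P Q M z - ‖mult P Q M z‖ := by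
  unfold bt5W
  obtain ⟨n, rfl⟩ : ∃ n, M = n + 1 := ⟨M - 1, by omega⟩
  have h1 : ∀ k, k ≤ n → ∏ j ∈ Finset.range (k + 1),
      ‖derivAt P Q ((ev P Q)^[n + 1 - 1 - j] (ev P Q z))‖ =
      ‖derivAt P Q z‖ * ∏ j ∈ Finset.range k, ‖derivAt P Q ((ev P Q)^[n + 1 - 1 - j] z)‖ := by
    intro k hk
    rw [Finset.prod_range_succ', mul_comm]
    congr 1
    · have : (ev P Q)^[n + 1 - 1 - 0] (ev P Q z) = z := by
        rw [← Function.iterate_succ_apply]
        simpa using hz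
      rw [this]
    · refine Finset.prod_congr rfl fun j hj => ?_
      have hj' := Finset.mem_range.mp hj
      rw [← Function.iterate_succ_apply]
      have : (n + 1 - 1 - (j + 1)).succ = n + 1 - 1 - j := by omega
      rw [this]
  rw [Finset.sum_range_succ']
  have h2 : ∑ k ∈ Finset.range n, ∏ j ∈ Finset.range (k + 1),
      ‖derivAt P Q ((ev P Q)^[n + 1 - 1 - j] (ev P Q z))‖ =
      ‖derivAt P Q z‖ * ∑ k ∈ Finset.range n,
        ∏ j ∈ Finset.range k, ‖derivAt P Q ((ev P Q)^[n + 1 - 1 - j] z)‖ := by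
    rw [Finset.mul_sum]
    refine Finset.sum_congr rfl fun k hk => ?_
    exact h1 k (by have := Finset.mem_range.mp hk; omega)
  rw [h2, Finset.sum_range_succ (fun k => ∏ j ∈ Finset.range k,
    ‖derivAt P Q ((ev P Q)^[n + 1 - 1 - j] z)‖) n]
  have h3 : ‖mult P Q (n + 1) z‖ = ‖derivAt P Q z‖ *
      ∏ j ∈ Finset.range n, ‖derivAt P Q ((ev P Q)^[n + 1 - 1 - j] z)‖ := by
    unfold mult
    rw [norm_prod, Finset.prod_range_succ', mul_comm]
    congr 1
    rw [← Finset.prod_range_reflect]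
    refine Finset.prod_congr rfl fun j hj => ?_
    have hj' := Finset.mem_range.mp hj
    have : n - 1 - j + 1 = n + 1 - 1 - j := by omega
    rw [this]
  rw [h3]
  simp only [Finset.range_zero, Finset.prod_empty]
  ring

theorem trap (P Q : ℂ[X]) (Z : Finset ℂ) (hne : ∀ z ∈ Z, Q.eval z ≠ 0)
    (hmem : ∀ z ∈ Z, ev P Q z ∈ Z) (hatt : Att P Q Z) :
    ∃ r : ℂ → ℝ, (∀ z ∈ Z, 0 < r z) ∧ ∀ z ∈ Z, ∀ w, ‖w - z‖ ≤ r z →
      Q.eval w ≠ 0 ∧ ‖ev P Q w - ev P Q z‖ < r (ev P Q z) := by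
  classical
  obtain ⟨M, hM1, hM⟩ := bt5_common P Q Z hatt
  set W := bt5W P Q M with hW
  have hWpos : ∀ z, 0 < W z := fun z => lt_of_lt_of_le one_pos (bt5_W_pos P Q M hM1 z)
  -- for each `z` a threshold
  have key : ∀ z ∈ Z, ∃ t₀ > 0, ∀ t, 0 < t → t ≤ t₀ → ∀ w, ‖w - z‖ ≤ t * W z →
      Q.eval w ≠ 0 ∧ ‖ev P Q w - ev P Q z‖ < t * W (ev P Q z) := by
    intro z hz
    have hstep := bt5_W_step P Q M hM1 z (hM z hz).1
    have hlt : ‖derivAt P Q z‖ * W z < W (ev P Q z) := by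
      rw [hW, hstep]
      have := (hM z hz).2
      linarith
    set ε : ℝ := (W (ev P Q z) - ‖derivAt P Q z‖ * W z) / (2 * W z) with hε
    have hεpos : 0 < ε := by
      rw [hε]
      have := hWpos z
      apply div_pos (by linarith) (by linarith)
    have hε2 : (‖derivAt P Q z‖ + ε) * W z < W (ev P Q z) := by
      have h1 := hWpos z
      have : ε * W z = (W (ev P Q z) - ‖derivAt P Q z‖ * W z) / 2 := by
        rw [hε]
        field_simp
      nlinarith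
    have hd := rm_deriv P Q z (hne z hz)
    have h1 : ∀ᶠ w in nhds z, ‖ev P Q w - ev P Q z - (w - z) • derivAt P Q z‖ ≤ ε * ‖w - z‖ :=
      (hasDerivAt_iff_isLittleO.mp hd).def hεpos
    have h2 : ∀ᶠ w in nhds z, Q.eval w ≠ 0 :=
      (Q.continuous.continuousAt).eventually_ne (hne z hz)
    obtain ⟨ρ, hρ, hball⟩ := Metric.eventually_nhds_iff.mp (h1.and h2)
    refine ⟨ρ / (2 * W z), div_pos hρ (by have := hWpos z; linarith), fun t ht0 ht w hw => ?_⟩
    have hWz := hWpos z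
    have hdist : dist w z < ρ := by
      rw [dist_eq_norm]
      have h3 : t * W z ≤ ρ / 2 := by
        calc t * W z ≤ ρ / (2 * W z) * W z := by
              apply mul_le_mul_of_nonneg_right ht hWz.le
          _ = ρ / 2 := by field_simp
      linarith
    obtain ⟨h4, h5⟩ := hball hdist
    refine ⟨h5, ?_⟩
    have h6 : ‖ev P Q w - ev P Q z‖ ≤ (‖derivAt P Q z‖ + ε) * ‖w - z‖ := by
      have h7 : ev P Q w - ev P Q z = (ev P Q w - ev P Q z - (w - z) • derivAt P Q z) +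
          (w - z) • derivAt P Q z := by ring
      calc ‖ev P Q w - ev P Q z‖ ≤ ‖ev P Q w - ev P Q z - (w - z) • derivAt P Q z‖ +
            ‖(w - z) • derivAt P Q z‖ := by
              conv_lhs => rw [h7]
              exact norm_add_le _ _
        _ ≤ ε * ‖w - z‖ + ‖w - z‖ * ‖derivAt P Q z‖ := by
              rw [norm_smul]
              linarith
        _ = (‖derivAt P Q z‖ + ε) * ‖w - z‖ := by ring
    have h8 : 0 ≤ ‖derivAt P Q z‖ + ε := by positivity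
    calc ‖ev P Q w - ev P Q z‖ ≤ (‖derivAt P Q z‖ + ε) * ‖w - z‖ := h6
      _ ≤ (‖derivAt P Q z‖ + ε) * (t * W z) := mul_le_mul_of_nonneg_left hw h8
      _ = t * ((‖derivAt P Q z‖ + ε) * W z) := by ring
      _ < t * W (ev P Q z) := mul_lt_mul_of_pos_left hε2 ht0
  -- a common threshold
  have key2 : ∀ s : Finset ℂ, s ⊆ Z → ∃ t, 0 < t ∧ ∀ z ∈ s, ∀ w, ‖w - z‖ ≤ t * W z →
      Q.eval w ≠ 0 ∧ ‖ev P Q w - ev P Q z‖ < t * W (ev P Q z) := by
    intro s hs
    have h9 : ∃ t₁, 0 < t₁ ∧ ∀ t, 0 < t → t ≤ t₁ → ∀ z ∈ s, ∀ w, ‖w - z‖ ≤ t * W z →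
        Q.eval w ≠ 0 ∧ ‖ev P Q w - ev P Q z‖ < t * W (ev P Q z) := by
      induction s using Finset.induction_on with
      | empty => exact ⟨1, one_pos, by simp⟩
      | insert a s ha ih =>
        obtain ⟨t₁, ht₁, h₁⟩ := ih (fun x hx => hs (Finset.mem_insert_of_mem hx))
        obtain ⟨t₀, ht₀, h₀⟩ := key a (hs (Finset.mem_insert_self a s))
        refine ⟨min t₁ t₀, lt_min ht₁ ht₀, fun t ht htm z hz w hw => ?_⟩
        rcases Finset.mem_insert.mp hz with h | h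
        · subst h
          exact h₀ t ht (htm.trans (min_le_right _ _)) w hw
        · exact h₁ t ht (htm.trans (min_le_left _ _)) z h w hw
    obtain ⟨t₁, ht₁, h⟩ := h9
    exact ⟨t₁, ht₁, h t₁ ht₁ le_rfl⟩
  obtain ⟨t, ht, h⟩ := key2 Z (Finset.Subset.refl Z)
  exact ⟨fun z => t * W z, fun z _ => mul_pos ht (hWpos z), h⟩

end Pool.Agent.LSF
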