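import Pool.Agent.LSF.BDefs

/-!
BT6: contraction of the push-forward of quadratic differentials (only Mathlib).

`q : ℂ → ENNReal` is the absolute value of a quadratic differential, `f` a map that is locally
injective with derivative `f'` on the open set `G` with countable complement.

Complete proof. Let `G` be open, `f` has nonzero derivative `f' z` at each `z ∈ G`, and is
differentiable on `G`, so (holomorphic, `HasStrictDerivAt`, inverse function theorem:
`HasStrictDerivAt.toOpenPartialHomeomorph` or `HasStrictFDerivAt.injOn...`) every `z ∈ G` has a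
ball `B z ⊆ G` on which `f` is injective. By Lindelöf
(`TopologicalSpace.countable_cover_nhds` / `TopologicalSpace.isOpen_iUnion_countable`) countably
many balls `B_j`, `j : ℕ`, cover `G`; put `A_j := B_j \ ⋃_{i<j} B_i` (measurable, disjoint, union
`G`; `disjointed`). For measurable `A` with `f` injective on `A ⊆ G` and `g : ℂ → ENNReal`:
`∫⁻ W in f '' A, g W = ∫⁻ w in A, ENNReal.ofReal (‖f' w‖^2) * g (f w)`
(`MeasureTheory.lintegral_image_eq_lintegral_abs_det_fderiv_mul`; the determinant of the real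
linear map `w ↦ f' z * w` is `‖f' z‖^2`: `Complex.normSq`, see `Algebra.norm_complex_eq`,
`LinearMap.det_restrictScalars` or compute in the basis `Complex.basisOneI`).
With `A = A_j ∩ f⁻¹ K` and `g = g_j`, `g_j W := q w / ofReal (‖f' w‖^2)` for the unique `w ∈ A_j`
with `f w = W`: `∫⁻ W in f '' (A_j ∩ f⁻¹ K), g_j W = ∫⁻ w in A_j ∩ f⁻¹ K, q w`.
For `W ∈ K \ N` the hypothesis gives a finite set `s` of points of `G` over `W` with
`q W ≤ ∑_{w ∈ s} q w/ofReal(‖f' w‖^2)`; each `w ∈ s` lies in exactly one `A_j` and different points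
of `s` lie in different `A_j` (injectivity), so
`q W ≤ ∑' j, indicator (f '' (A_j ∩ f⁻¹ K)) g_j W`. Integrating over `K` (`N` is a null set;
the integrals of non measurable `g_j` are avoided by replacing `g_j` with the measurable function
`q ∘ inv_j / ...`, or by using that `g_j` is AEMeasurable on the image;
`MeasureTheory.lintegral_tsum`, alternatively use outer inequalities
`lintegral_iUnion_le`), we get
`∫⁻ K q ≤ ∑' j ∫⁻ (A_j ∩ f⁻¹ K) q ≤ ∫⁻ (G ∩ f⁻¹ K) q ≤ ∫⁻ (K ∩ f⁻¹ K) q`
(`G ∩ f⁻¹ K ⊆ K`: hypothesis `hT`). Since `∫⁻ K q < ∞` and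
`∫⁻ K q = ∫⁻ (K ∩ f⁻¹ K) q + ∫⁻ (K \ f⁻¹ K) q`, the last integral is `0`.

Measurability of `g_j`: the inverse of `f` on the ball `B_j` is continuous on the open set
`f '' B_j` (open mapping), so `g_j := (q / ofReal ‖f'‖^2) ∘ inv_j` restricted to `f '' (A_j ∩ ..)`
is measurable; use `MeasurableEmbedding` of `f` restricted to `A_j`
(`MeasureTheory.measurableEmbedding_of_fderivWithin`) if convenient.
-/

namespace Pool.Agent.LSF

open MeasureTheory

/-- the real derivative of a holomorphic function and its determinant -/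
theorem bt6_det (a : ℂ) :
    ((ContinuousLinearMap.toSpanSingleton ℂ a).restrictScalars ℝ).det = ‖a‖ ^ 2 := by
  have h : ((ContinuousLinearMap.toSpanSingleton ℂ a).restrictScalars ℝ).det =
      (((ContinuousLinearMap.toSpanSingleton ℂ a : ℂ →L[ℂ] ℂ) : ℂ →ₗ[ℂ] ℂ).restrictScalars ℝ).det :=
    rfl
  rw [h, LinearMap.det_restrictScalars, Algebra.norm_complex_eq]
  have h2 : ((ContinuousLinearMap.toSpanSingleton ℂ a : ℂ →L[ℂ] ℂ) : ℂ →ₗ[ℂ] ℂ).det = a := by
    have := ContinuousLinearMap.det_toSpanSingleton (𝕜 := ℂ) a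
    exact this
  rw [h2]
  show Complex.normSq a = ‖a‖ ^ 2
  exact Complex.normSq_eq_norm_sq a

theorem bt6_fderiv {f : ℂ → ℂ} {a z : ℂ} (h : HasDerivAt f a z) :
    HasFDerivAt f ((ContinuousLinearMap.toSpanSingleton ℂ a).restrictScalars ℝ) z :=
  h.hasFDerivAt.restrictScalars ℝ

/-- local injectivity -/
theorem bt6_loc (f f' : ℂ → ℂ) (G : Set ℂ) (hG : IsOpen G)
    (hd : ∀ z ∈ G, HasDerivAt f (f' z) z ∧ f' z ≠ 0) (z : ℂ) (hz : z ∈ G) :
    ∃ U : Set ℂ, IsOpen U ∧ z ∈ U ∧ U ⊆ G ∧ Set.InjOn f U := by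
  have hdiff : DifferentiableOn ℂ f G := fun w hw =>
    (hd w hw).1.differentiableAt.differentiableWithinAt
  have han : AnalyticAt ℂ f z := hdiff.analyticAt (hG.mem_nhds hz)
  have hs : HasStrictDerivAt f (deriv f z) z := han.hasStrictDerivAt
  have hne : deriv f z ≠ 0 := by
    rw [(hd z hz).1.deriv]
    exact (hd z hz).2
  have hs2 := hs.hasStrictFDerivAt_equiv hne
  refine ⟨(hs2.toOpenPartialHomeomorph f).source ∩ G,
    (hs2.toOpenPartialHomeomorph f).open_source.inter hG,
    ⟨hs2.mem_toOpenPartialHomeomorph_source, hz⟩, Set.inter_subset_right, ?_⟩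
  have h3 := (hs2.toOpenPartialHomeomorph f).injOn
  exact h3.mono Set.inter_subset_left

/-- a countable disjoint decomposition into measurable sets on which `f` is injective -/
theorem bt6_dec (f f' : ℂ → ℂ) (G : Set ℂ) (hG : IsOpen G)
    (hd : ∀ z ∈ G, HasDerivAt f (f' z) z ∧ f' z ≠ 0) :
    ∃ A : ℕ → Set ℂ, (∀ j, MeasurableSet (A j)) ∧ Pairwise (Function.onFun Disjoint A) ∧
      (⋃ j, A j) = G ∧ ∀ j, Set.InjOn f (A j) := by
  classical
  choose! U hU using fun z (hz : z ∈ G) => bt6_loc f f' G hG hd z hz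
  obtain ⟨t, htG, htc, hcov⟩ := TopologicalSpace.countable_cover_nhdsWithin (f := U) (s := G)
    (fun z hz => mem_nhdsWithin_of_mem_nhds ((hU z hz).1.mem_nhds (hU z hz).2.1))
  obtain ⟨u, hu⟩ := Set.countable_iff_exists_subset_range.1 htc
  obtain ⟨B, hB⟩ : ∃ B : ℕ → Set ℂ, B = fun j => if u j ∈ G then U (u j) else ∅ := ⟨_, rfl⟩
  have hBo : ∀ j, IsOpen (B j) := by
    intro j
    rw [hB]
    by_cases h : u j ∈ G
    · simp only [h, if_true]
      exact (hU _ h).1
    · simp only [h, if_false]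
      exact isOpen_empty
  have hBG : ∀ j, B j ⊆ G := by
    intro j
    rw [hB]
    by_cases h : u j ∈ G
    · simp only [h, if_true]
      exact (hU _ h).2.2.1
    · simp only [h, if_false]
      exact Set.empty_subset _
  have hBi : ∀ j, Set.InjOn f (B j) := by
    intro j
    rw [hB]
    by_cases h : u j ∈ G
    · simp only [h, if_true]
      exact (hU _ h).2.2.2
    · simp only [h, if_false]
      exact Set.injOn_empty _
  have hBc : (⋃ j, B j) = G := by
    apply Set.Subset.antisymm (Set.iUnion_subset hBG)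
    intro z hz
    obtain ⟨x, hx⟩ := Set.mem_iUnion.1 (hcov hz)
    obtain ⟨hxt, hzx⟩ := Set.mem_iUnion.1 hx
    obtain ⟨j, hj⟩ := hu hxt
    refine Set.mem_iUnion.2 ⟨j, ?_⟩
    rw [hB]
    have : u j ∈ G := by rw [hj]; exact htG hxt
    simp only [this, if_true]
    rw [hj]
    exact hzx
  refine ⟨disjointed B, fun j => MeasurableSet.disjointed (fun i => (hBo i).measurableSet) j,
    disjoint_disjointed B, ?_, fun j => (hBi j).mono (disjointed_subset B j)⟩
  rw [iUnion_disjointed, hBc]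

/-- the transported density on a set where `f` is injective -/
theorem bt6_ext (f f' : ℂ → ℂ) (q : ℂ → ENNReal) (hq : Measurable q) (hf : Measurable f)
    (hf' : Measurable f') (S : Set ℂ) (hS : MeasurableSet S)
    (hd : ∀ z ∈ S, HasDerivAt f (f' z) z ∧ f' z ≠ 0) (hi : Set.InjOn f S) :
    ∃ g : ℂ → ENNReal, Measurable g ∧
      (∀ w ∈ S, g (f w) = q w / ENNReal.ofReal (‖f' w‖ ^ 2)) ∧
      ∫⁻ W, g W = ∫⁻ w in S, q w := by
  classical
  have hinj : Function.Injective (S.domRestrict f) := by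
    intro a b hab
    exact Subtype.ext (hi a.2 b.2 hab)
  have hme : MeasurableEmbedding (S.domRestrict f) :=
    measurableEmbedding_of_fderivWithin hS
      (fun x hx => (bt6_fderiv (hd x hx).1).hasFDerivWithinAt) hi
  have hr : Measurable (fun w : ℂ => q w / ENNReal.ofReal (‖f' w‖ ^ 2)) :=
    hq.div ((hf'.norm.pow_const 2).ennreal_ofReal)
  refine ⟨Function.extend (S.domRestrict f)
    (fun w : S => q w / ENNReal.ofReal (‖f' w‖ ^ 2)) (fun _ => 0),
    hme.measurable_extend (hr.comp measurable_subtype_coe) measurable_const, ?_, ?_⟩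
  · intro w hw
    exact hinj.extend_apply _ _ (⟨w, hw⟩ : S)
  · have hval : ∀ w ∈ S, Function.extend (S.domRestrict f)
        (fun w : S => q w / ENNReal.ofReal (‖f' w‖ ^ 2)) (fun _ => 0) (f w) =
          q w / ENNReal.ofReal (‖f' w‖ ^ 2) := fun w hw =>
      hinj.extend_apply _ _ (⟨w, hw⟩ : S)
    obtain ⟨g, hg⟩ : ∃ g : ℂ → ENNReal, g = Function.extend (S.domRestrict f)
      (fun w : S => q w / ENNReal.ofReal (‖f' w‖ ^ 2)) (fun _ => 0) := ⟨_, rfl⟩
    have hzero : ∀ W, W ∉ f '' S → g W = 0 := by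
      intro W hW
      rw [hg]
      apply Function.extend_apply'
      rintro ⟨a, ha⟩
      exact hW ⟨a, a.2, ha⟩
    rw [← hg] at hval ⊢
    have hSim : MeasurableSet (f '' S) := by
      have := hme.measurableSet_range
      rwa [Set.range_domRestrict] at this
    have h1 : ∫⁻ W, g W = ∫⁻ W in f '' S, g W := by
      rw [← lintegral_indicator hSim]
      apply lintegral_congr
      intro W
      by_cases hW : W ∈ f '' S
      · rw [Set.indicator_of_mem hW]
      · rw [Set.indicator_of_notMem hW, hzero W hW]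
    rw [h1, lintegral_image_eq_lintegral_abs_det_fderiv_mul volume hS
      (fun x hx => (bt6_fderiv (hd x hx).1).hasFDerivWithinAt) hi g]
    apply setLIntegral_congr_fun hS
    intro w hw
    have hpos : 0 < ‖f' w‖ ^ 2 := by
      have := norm_pos_iff.2 (hd w hw).2
      positivity
    show ENNReal.ofReal |((ContinuousLinearMap.toSpanSingleton ℂ (f' w)).restrictScalars ℝ).det| *
      g (f w) = q w
    rw [bt6_det, abs_of_pos hpos, hval w hw]
    apply ENNReal.mul_div_cancel
    · exact (ENNReal.ofReal_pos.2 hpos).ne'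
    · exact ENNReal.ofReal_ne_top

theorem l1 (f f' : ℂ → ℂ) (q : ℂ → ENNReal) (G K N : Set ℂ) (hq : Measurable q)
    (hf : Measurable f) (hf' : Measurable f') (hG : IsOpen G)
    (hd : ∀ z ∈ G, HasDerivAt f (f' z) z ∧ f' z ≠ 0) (hK : MeasurableSet K)
    (hT : ∀ w ∈ G, f w ∈ K → w ∈ K) (hN : volume N = 0)
    (hp : ∀ W ∈ K, W ∉ N → ∃ s : Finset ℂ, (∀ w ∈ s, w ∈ G ∧ f w = W) ∧
      q W ≤ ∑ w ∈ s, q w / ENNReal.ofReal (‖f' w‖ ^ 2))
    (hfin : ∫⁻ w in K, q w < ⊤) : ∫⁻ w in K \ f ⁻¹' K, q w = 0 := by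
  classical
  obtain ⟨A, hAm, hAd, hAG, hAi⟩ := bt6_dec f f' G hG hd
  have hAsub : ∀ j, A j ⊆ G := fun j => by
    rw [← hAG]
    exact Set.subset_iUnion A j
  have hKf : MeasurableSet (f ⁻¹' K) := hf hK
  have hSm : ∀ j, MeasurableSet (A j ∩ f ⁻¹' K) := fun j => (hAm j).inter hKf
  choose g hgm hgv hgi using fun j => bt6_ext f f' q hq hf hf' (A j ∩ f ⁻¹' K) (hSm j)
    (fun z hz => hd z (hAsub j hz.1)) ((hAi j).mono Set.inter_subset_left)
  have hpt : ∀ W ∈ K, W ∉ N → q W ≤ ∑' j, g j W := by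
    intro W hW hWN
    obtain ⟨s, hs, hle⟩ := hp W hW hWN
    have hidx : ∀ w ∈ s, ∃ j, w ∈ A j := by
      intro w hw
      have : w ∈ ⋃ j, A j := by rw [hAG]; exact (hs w hw).1
      exact Set.mem_iUnion.1 this
    choose! J hJ using hidx
    have hJinj : Set.InjOn J (s : Set ℂ) := by
      intro a ha b hb hab
      have h1 := hJ a ha
      have h2 := hJ b hb
      rw [← hab] at h2
      apply hAi (J a) h1 h2
      rw [(hs a ha).2, (hs b hb).2]
    refine hle.trans ?_
    have h3 : ∑ w ∈ s, q w / ENNReal.ofReal (‖f' w‖ ^ 2) = ∑ j ∈ s.image J, g j W := by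
      rw [Finset.sum_image (fun a ha b hb hab => hJinj ha hb hab)]
      apply Finset.sum_congr rfl
      intro w hw
      have h4 : w ∈ A (J w) ∩ f ⁻¹' K := ⟨hJ w hw, by
        show f w ∈ K
        rw [(hs w hw).2]
        exact hW⟩
      have h5 := hgv (J w) w h4
      rw [(hs w hw).2] at h5
      exact h5.symm
    rw [h3]
    exact ENNReal.sum_le_tsum _
  have h1 : ∫⁻ w in K, q w ≤ ∫⁻ w in K ∩ f ⁻¹' K, q w := by
    calc ∫⁻ w in K, q w ≤ ∫⁻ w in K, ∑' j, g j w := by
          apply lintegral_mono_ae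
          rw [ae_restrict_iff' hK]
          have hN' : ∀ᵐ w ∂(volume : Measure ℂ), w ∉ N := by
            rw [ae_iff]
            simpa using hN
          filter_upwards [hN'] with w hw hwK
          exact hpt w hwK hw
      _ ≤ ∫⁻ w, ∑' j, g j w := setLIntegral_le_lintegral _ _
      _ = ∑' j, ∫⁻ w, g j w := lintegral_tsum (fun j => (hgm j).aemeasurable)
      _ = ∑' j, ∫⁻ w in A j ∩ f ⁻¹' K, q w := by
          congr 1
          funext j
          exact hgi j
      _ = ∫⁻ w in ⋃ j, (A j ∩ f ⁻¹' K), q w := by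
          rw [lintegral_iUnion hSm]
          intro i j hij
          exact (hAd hij).mono Set.inter_subset_left Set.inter_subset_left
      _ ≤ ∫⁻ w in K ∩ f ⁻¹' K, q w := by
          apply lintegral_mono_set
          apply Set.iUnion_subset
          intro j w hw
          exact ⟨hT w (hAsub j hw.1) hw.2, hw.2⟩
  have h2 : (∫⁻ w in K ∩ f ⁻¹' K, q w) + (∫⁻ w in K \ f ⁻¹' K, q w) = ∫⁻ w in K, q w :=
    lintegral_inter_add_sdiff _ _ hKf
  have h3 : ∫⁻ w in K ∩ f ⁻¹' K, q w ≠ ⊤ :=
    (lt_of_le_of_lt (lintegral_mono_set Set.inter_subset_left) hfin).ne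
  have h4 : (∫⁻ w in K ∩ f ⁻¹' K, q w) + (∫⁻ w in K \ f ⁻¹' K, q w) ≤
      (∫⁻ w in K ∩ f ⁻¹' K, q w) + 0 := by
    rw [h2, add_zero]
    exact h1
  have h5 := (ENNReal.add_le_add_iff_left h3).1 h4
  exact le_antisymm h5 bot_le

end Pool.Agent.LSF
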