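import Pool.Agent.LSF.BT2

/-!
BT7: explicit form of `TT`, decay at infinity, uniqueness.

Complete proof.
`tt_formula`: for `w ∉ Z`, with `b z := β z / Q(z)^2` and
`a z := γ z / Q(z)^2 - 2 β z Q'(z) / Q(z)^3`:
`TT Q Z β γ w = ∑ z ∈ Z, (a z / (w - z) + b z / (w - z)^2)`, because
`d/dz (1/(Q(z)^2 (w - z))) = -2 Q'(z)/(Q(z)^3 (w - z)) + 1/(Q(z)^2 (w - z)^2)`.
`tt_decay`: for `z ≠ w`, `w ≠ 0`:
`1/(w - z) = ∑_{i ≤ 2d} z^i / w^(i+1) + z^(2d+1)/(w^(2d+1) (w - z))` (geometric sum). Divide by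
`Q(z)^2` and apply `LF` (in the variable `z`, linear, `hK` kills the first sum):
`TT w = w^(-(2d+1)) LF (z ↦ z^(2d+1)/(Q(z)^2 (w - z)))`. The last functional is, by the same
computation as in `tt_formula`, of the form `∑ z ∈ Z, (a' z/(w - z) + b' z/(w - z)^2)`, so it is
bounded by `C'/‖w‖` for `‖w‖ ≥ R` (with `‖w - z‖ ≥ ‖w‖/2`). Together
`‖TT w‖ ≤ C' ‖w‖^(-(2d+2))`, and `‖(EE P Q)(w)‖ ≤ C'' ‖w‖^(2d-2)` for `‖w‖ ≥ 1`
(`natDegree (EE P Q) ≤ 2 d - 2`: `P'Q` and `PQ'` have degree at most `(d-2)+d` and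
`(d-1)+(d-1)`).
`tt_unique`: suppose `TT = 0` on a nonempty open set `U` disjoint from `Z`. Multiply
`tt_formula` by `∏_{z ∈ Z} (w - z)^2`: a polynomial in `w` that vanishes on `U`, hence is zero
(infinitely many zeros). So the formula gives `∑ z ∈ Z, (a z/(w - z) + b z/(w - z)^2) = 0` for all
`w ∉ Z`. Fix `z₀ ∈ Z`; multiply by `(w - z₀)^2` and let `w → z₀`: `b z₀ = 0`, for every `z₀`; then
multiply by `(w - z₀)` and let `w → z₀`: `a z₀ = 0`. So `β z₀ = 0` and `γ z₀ = 0`.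
-/

namespace Pool.Agent.LSF

open Polynomial Pool.Agent.LenSpec

theorem bt7_hasDeriv (N Q : ℂ[X]) (w z : ℂ) (hQ : Q.eval z ≠ 0) (hw : w ≠ z) :
    HasDerivAt (fun z => N.eval z / (Q.eval z ^ 2 * (w - z)))
      (((derivative N).eval z / Q.eval z ^ 2 -
        2 * N.eval z * (derivative Q).eval z / Q.eval z ^ 3) / (w - z) +
      (N.eval z / Q.eval z ^ 2) / (w - z) ^ 2) z := by
  have hw' : w - z ≠ 0 := sub_ne_zero.2 hw
  have h1 : HasDerivAt (fun z => Q.eval z ^ 2) (2 * Q.eval z * (derivative Q).eval z) z := by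
    have := (Q.hasDerivAt z).fun_pow 2
    refine this.congr_deriv ?_
    simp
  have h2 : HasDerivAt (fun z : ℂ => w - z) (-1) z := (hasDerivAt_id z).const_sub w
  have h3 := (N.hasDerivAt z).fun_div (h1.fun_mul h2) (mul_ne_zero (pow_ne_zero 2 hQ) hw')
  refine h3.congr_deriv ?_
  field_simp
  ring

theorem bt7_lf (N Q : ℂ[X]) (Z : Finset ℂ) (β γ : ℂ → ℂ) (hne : ∀ z ∈ Z, Q.eval z ≠ 0)
    (w : ℂ) (hw : w ∉ Z) :
    LF Z β γ (fun z => N.eval z / (Q.eval z ^ 2 * (w - z))) =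
      ∑ z ∈ Z, ((γ z * (N.eval z / Q.eval z ^ 2) + β z * ((derivative N).eval z / Q.eval z ^ 2 -
        2 * N.eval z * (derivative Q).eval z / Q.eval z ^ 3)) / (w - z) +
      (β z * (N.eval z / Q.eval z ^ 2)) / (w - z) ^ 2) := by
  unfold LF
  refine Finset.sum_congr rfl fun z hz => ?_
  have hwz : w ≠ z := by
    rintro rfl
    exact hw hz
  have hw' : w - z ≠ 0 := sub_ne_zero.2 hwz
  have hQ := hne z hz
  rw [(bt7_hasDeriv N Q w z hQ hwz).deriv]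
  field_simp
  ring

theorem tt_formula (Q : ℂ[X]) (Z : Finset ℂ) (β γ : ℂ → ℂ) (hne : ∀ z ∈ Z, Q.eval z ≠ 0)
    (w : ℂ) (hw : w ∉ Z) :
    TT Q Z β γ w = ∑ z ∈ Z, ((γ z / Q.eval z ^ 2 -
      2 * β z * (derivative Q).eval z / Q.eval z ^ 3) / (w - z) +
      (β z / Q.eval z ^ 2) / (w - z) ^ 2) := by
  have h := bt7_lf 1 Q Z β γ hne w hw
  simp only [eval_one, derivative_one, eval_zero] at h
  unfold TT
  rw [h]
  refine Finset.sum_congr rfl fun z hz => ?_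
  have hwz : w ≠ z := by
    rintro rfl
    exact hw hz
  have hw' : w - z ≠ 0 := sub_ne_zero.2 hwz
  have hQ := hne z hz
  field_simp
  ring

theorem bt7_geom (w z : ℂ) (hw : w ≠ 0) (hwz : w ≠ z) (m : ℕ) :
    1 / (w - z) = ∑ i ∈ Finset.range m, z ^ i / w ^ (i + 1) + z ^ m / (w ^ m * (w - z)) := by
  have hw' : w - z ≠ 0 := sub_ne_zero.2 hwz
  induction m with
  | zero => simp
  | succ m ih =>
    rw [Finset.sum_range_succ, ih]
    have e : z ^ m / (w ^ m * (w - z)) = z ^ m / w ^ (m + 1) + z ^ (m + 1) / (w ^ (m + 1) * (w - z)) := by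
      field_simp
      ring
    rw [e]
    ring

theorem bt7_bound (p : ℂ[X]) (n : ℕ) (hp : p.natDegree ≤ n) :
    ∃ C : ℝ, 0 ≤ C ∧ ∀ w : ℂ, 1 ≤ ‖w‖ → ‖p.eval w‖ ≤ C * ‖w‖ ^ n := by
  refine ⟨∑ i ∈ Finset.range (n + 1), ‖p.coeff i‖, by positivity, fun w hw => ?_⟩
  rw [eval_eq_sum_range' (by omega : p.natDegree < n + 1), Finset.sum_mul]
  refine (norm_sum_le _ _).trans (Finset.sum_le_sum fun i hi => ?_)
  rw [norm_mul, norm_pow]
  have hi' := Finset.mem_range.1 hi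
  exact mul_le_mul_of_nonneg_left (pow_le_pow_right₀ hw (by omega)) (norm_nonneg _)

theorem bt7_EE (d : ℕ) (P Q : ℂ[X]) (hR : RM d P Q) : (EE P Q).natDegree ≤ 2 * d - 2 := by
  have h2 := hR.two_le
  have hP := hR.degP
  have hQ := hR.degQ
  unfold EE
  refine (natDegree_sub_le _ _).trans (max_le ?_ ?_)
  · refine natDegree_mul_le.trans ?_
    have := natDegree_derivative_le P
    omega
  · refine natDegree_mul_le.trans ?_
    have := natDegree_derivative_le Q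
    omega

theorem tt_decay (d : ℕ) (P Q : ℂ[X]) (hR : RM d P Q) (Z : Finset ℂ) (β γ : ℂ → ℂ)
    (hne : ∀ z ∈ Z, Q.eval z ≠ 0)
    (hK : ∀ i ≤ 2 * d, LF Z β γ (fun z => z ^ i / (Q.eval z) ^ 2) = 0) :
    ∃ C R : ℝ, 1 ≤ R ∧ ∀ w : ℂ, R ≤ ‖w‖ → w ∉ Z ∧ ‖qq P Q Z β γ w‖ ≤ C / ‖w‖ ^ 4 := by
  obtain ⟨C₁, hC₁, hb⟩ := bt7_bound (EE P Q) (2 * d - 2) (bt7_EE d P Q hR)
  -- coefficients
  obtain ⟨a, ha⟩ : ∃ a : ℂ → ℂ, ∀ z, a z = γ z * ((X ^ (2 * d + 1) : ℂ[X]).eval z / Q.eval z ^ 2) +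
      β z * ((derivative (X ^ (2 * d + 1) : ℂ[X])).eval z / Q.eval z ^ 2 -
        2 * (X ^ (2 * d + 1) : ℂ[X]).eval z * (derivative Q).eval z / Q.eval z ^ 3) :=
    ⟨_, fun _ => rfl⟩
  obtain ⟨b, hbb⟩ : ∃ b : ℂ → ℂ, ∀ z, b z = β z * ((X ^ (2 * d + 1) : ℂ[X]).eval z / Q.eval z ^ 2) :=
    ⟨_, fun _ => rfl⟩
  have hM : ∀ z ∈ Z, ‖z‖ ≤ ∑ y ∈ Z, ‖y‖ := fun z hz =>
    Finset.single_le_sum (f := fun y : ℂ => ‖y‖) (fun y _ => norm_nonneg y) hz
  have hM0 : 0 ≤ ∑ y ∈ Z, ‖y‖ := Finset.sum_nonneg fun y _ => norm_nonneg y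
  refine ⟨C₁ * ∑ z ∈ Z, (2 * ‖a z‖ + 4 * ‖b z‖), 2 * ∑ y ∈ Z, ‖y‖ + 1, by linarith, fun w hw => ?_⟩
  have hw1 : 1 ≤ ‖w‖ := by linarith
  have hw0 : w ≠ 0 := norm_pos_iff.1 (by linarith)
  have hwZ : w ∉ Z := fun h => by
    have := hM w h
    linarith
  refine ⟨hwZ, ?_⟩
  -- the geometric sum
  have hTT : TT Q Z β γ w = (1 / w ^ (2 * d + 1)) *
      ∑ z ∈ Z, (a z / (w - z) + b z / (w - z) ^ 2) := by
    have e1 : TT Q Z β γ w = LF Z β γ (fun z => (∑ i ∈ Finset.range (2 * d + 1),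
        (1 / w ^ (i + 1)) * (z ^ i / Q.eval z ^ 2)) +
        (1 / w ^ (2 * d + 1)) * ((X ^ (2 * d + 1) : ℂ[X]).eval z / (Q.eval z ^ 2 * (w - z)))) := by
      unfold TT
      refine lf_congr Z β γ _ _ fun z hz => ?_
      have hwz : z ≠ w := by
        rintro rfl
        exact hwZ hz
      filter_upwards [isOpen_ne.mem_nhds hwz] with u hu
      have hu' : w ≠ u := fun h => hu h.symm
      have h1 := bt7_geom w u hw0 hu' (2 * d + 1)
      have h2 : 1 / (Q.eval u ^ 2 * (w - u)) = (1 / Q.eval u ^ 2) * (1 / (w - u)) := by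
        rw [one_div_mul_one_div]
      rw [h2, h1, mul_add, Finset.mul_sum, eval_pow, eval_X]
      congr 1
      · refine Finset.sum_congr rfl fun i _ => ?_
        ring
      · rw [div_mul_div_comm, div_mul_div_comm]
        congr 1
        ring
    have hQd : ∀ z ∈ Z, ∀ i : ℕ, DifferentiableAt ℂ (fun z : ℂ => z ^ i / Q.eval z ^ 2) z := by
      intro z hz i
      exact (differentiableAt_id.pow i).div (Q.differentiable.differentiableAt.pow 2)
        (pow_ne_zero 2 (hne z hz))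
    have hXd : ∀ z ∈ Z, DifferentiableAt ℂ
        (fun z : ℂ => (X ^ (2 * d + 1) : ℂ[X]).eval z / (Q.eval z ^ 2 * (w - z))) z := by
      intro z hz
      have hwz : w ≠ z := by
        rintro rfl
        exact hwZ hz
      exact (bt7_hasDeriv _ Q w z (hne z hz) hwz).differentiableAt
    rw [e1, lf_add, lf_sum, lf_smul, bt7_lf _ Q Z β γ hne w hwZ, Finset.sum_eq_zero, zero_add]
    · congr 1
      refine Finset.sum_congr rfl fun z _ => ?_
      rw [ha, hbb]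
    · intro i hi
      have := Finset.mem_range.1 hi
      rw [lf_smul, hK i (by omega), mul_zero]
    · intro i _ z hz
      exact (hQd z hz i).const_mul _
    · intro z hz
      exact DifferentiableAt.fun_sum fun i _ => (hQd z hz i).const_mul _
    · intro z hz
      exact (hXd z hz).const_mul _
  -- the bound
  have hG : ‖∑ z ∈ Z, (a z / (w - z) + b z / (w - z) ^ 2)‖ ≤
      (∑ z ∈ Z, (2 * ‖a z‖ + 4 * ‖b z‖)) / ‖w‖ := by
    rw [Finset.sum_div]
    refine (norm_sum_le _ _).trans (Finset.sum_le_sum fun z hz => ?_)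
    have hz1 := hM z hz
    have hd : ‖w‖ / 2 ≤ ‖w - z‖ := by
      have := norm_sub_norm_le w z
      linarith
    have hd0 : 0 < ‖w - z‖ := by linarith
    refine (norm_add_le _ _).trans ?_
    rw [norm_div, norm_div, norm_pow]
    have h1 : ‖a z‖ / ‖w - z‖ ≤ 2 * ‖a z‖ / ‖w‖ := by
      rw [div_le_div_iff₀ hd0 (by linarith)]
      nlinarith [norm_nonneg (a z)]
    have h2 : ‖b z‖ / ‖w - z‖ ^ 2 ≤ 4 * ‖b z‖ / ‖w‖ := by
      rw [div_le_div_iff₀ (by positivity) (by linarith)]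
      have h3 : ‖w‖ ≤ 4 * ‖w - z‖ ^ 2 := by nlinarith
      nlinarith [norm_nonneg (b z), mul_le_mul_of_nonneg_left h3 (norm_nonneg (b z))]
    rw [add_div]
    exact add_le_add h1 h2
  unfold qq
  rw [hTT, norm_mul, norm_mul, norm_div, norm_one, norm_pow]
  have hS0 : 0 ≤ ∑ z ∈ Z, (2 * ‖a z‖ + 4 * ‖b z‖) := Finset.sum_nonneg fun z _ => by positivity
  have h5 : ‖(EE P Q).eval w‖ * (1 / ‖w‖ ^ (2 * d + 1) *
      ‖∑ z ∈ Z, (a z / (w - z) + b z / (w - z) ^ 2)‖) ≤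
      (C₁ * ‖w‖ ^ (2 * d - 2)) * (1 / ‖w‖ ^ (2 * d + 1) *
        ((∑ z ∈ Z, (2 * ‖a z‖ + 4 * ‖b z‖)) / ‖w‖)) := by
    refine mul_le_mul (hb w hw1) ?_ (by positivity) (by positivity)
    exact mul_le_mul_of_nonneg_left hG (by positivity)
  refine h5.trans (le_of_eq ?_)
  have hw2 : ‖w‖ ≠ 0 := by positivity
  have hd := hR.two_le
  have e : ‖w‖ ^ (2 * d + 1) = ‖w‖ ^ (2 * d - 2) * ‖w‖ ^ 3 := by
    rw [← pow_add]
    congr 1
    omega
  rw [e]
  field_simp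

theorem bt7_zero (p : ℂ[X]) (U : Set ℂ) (hU : IsOpen U) (hUn : U.Nonempty)
    (h : ∀ w ∈ U, p.eval w = 0) : p = 0 := by
  obtain ⟨u, hu⟩ := hUn
  exact eq_zero_of_infinite_isRoot p ((infinite_of_mem_nhds u (hU.mem_nhds hu)).mono h)

theorem tt_unique (Q : ℂ[X]) (Z : Finset ℂ) (β γ : ℂ → ℂ) (hne : ∀ z ∈ Z, Q.eval z ≠ 0)
    (U : Set ℂ) (hU : IsOpen U) (hUn : U.Nonempty) (hUZ : ∀ w ∈ U, w ∉ Z)
    (h0 : ∀ w ∈ U, TT Q Z β γ w = 0) : ∀ z ∈ Z, β z = 0 ∧ γ z = 0 := by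
  classical
  obtain ⟨a, ha⟩ : ∃ a : ℂ → ℂ, ∀ z, a z = γ z / Q.eval z ^ 2 -
      2 * β z * (derivative Q).eval z / Q.eval z ^ 3 := ⟨_, fun _ => rfl⟩
  obtain ⟨b, hb⟩ : ∃ b : ℂ → ℂ, ∀ z, b z = β z / Q.eval z ^ 2 := ⟨_, fun _ => rfl⟩
  have hS : ∀ w ∈ U, ∑ z ∈ Z, (a z / (w - z) + b z / (w - z) ^ 2) = 0 := by
    intro w hw
    rw [← h0 w hw, tt_formula Q Z β γ hne w (hUZ w hw)]
    refine Finset.sum_congr rfl fun z _ => ?_
    rw [ha, hb]
  -- the coefficients b vanish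
  have hp : (∑ z ∈ Z, (C (a z) * (X - C z) + C (b z)) * ∏ y ∈ Z.erase z, (X - C y) ^ 2 : ℂ[X]) = 0 := by
    refine bt7_zero _ U hU hUn fun w hw => ?_
    have hprod : ∀ z ∈ Z, (∏ y ∈ Z.erase z, (w - y) ^ 2) * (w - z) ^ 2 = ∏ y ∈ Z, (w - y) ^ 2 :=
      fun z hz => Finset.prod_erase_mul Z (fun y => (w - y) ^ 2) hz
    have e : ∀ z ∈ Z, ((C (a z) * (X - C z) + C (b z)) * ∏ y ∈ Z.erase z, (X - C y) ^ 2 : ℂ[X]).eval w
        = (a z / (w - z) + b z / (w - z) ^ 2) * ∏ y ∈ Z, (w - y) ^ 2 := by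
      intro z hz
      have hwz : w - z ≠ 0 := sub_ne_zero.2 (by
        rintro rfl
        exact hUZ _ hw hz)
      rw [← hprod z hz]
      simp only [eval_mul, eval_add, eval_C, eval_sub, eval_X, eval_prod, eval_pow]
      field_simp
    rw [eval_finsetSum, Finset.sum_congr rfl e, ← Finset.sum_mul, hS w hw, zero_mul]
  have hb0 : ∀ z ∈ Z, b z = 0 := by
    intro z hz
    have h1 := congrArg (fun p : ℂ[X] => p.eval z) hp
    simp only [eval_finsetSum, eval_mul, eval_add, eval_C, eval_sub, eval_X, eval_prod, eval_pow,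
      eval_zero] at h1
    rw [Finset.sum_eq_single z] at h1
    · rw [sub_self, mul_zero, zero_add] at h1
      rcases mul_eq_zero.1 h1 with h | h
      · exact h
      · exfalso
        obtain ⟨y, hy, hy0⟩ := Finset.prod_eq_zero_iff.1 h
        have h2 := pow_eq_zero_iff (two_ne_zero) |>.1 hy0
        exact (Finset.ne_of_mem_erase hy) (sub_eq_zero.1 h2).symm
    · intro y hy hyz
      have : ∏ x ∈ Z.erase y, (z - x) ^ 2 = 0 :=
        Finset.prod_eq_zero (Finset.mem_erase.2 ⟨hyz.symm, hz⟩) (by simp)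
      rw [this, mul_zero]
    · intro h
      exact absurd hz h
  -- the coefficients a vanish
  have hq : (∑ z ∈ Z, C (a z) * ∏ y ∈ Z.erase z, (X - C y) : ℂ[X]) = 0 := by
    refine bt7_zero _ U hU hUn fun w hw => ?_
    have hprod : ∀ z ∈ Z, (∏ y ∈ Z.erase z, (w - y)) * (w - z) = ∏ y ∈ Z, (w - y) :=
      fun z hz => Finset.prod_erase_mul Z (fun y => (w - y)) hz
    have e : ∀ z ∈ Z, (C (a z) * ∏ y ∈ Z.erase z, (X - C y) : ℂ[X]).eval w
        = (a z / (w - z) + b z / (w - z) ^ 2) * ∏ y ∈ Z, (w - y) := by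
      intro z hz
      have hwz : w - z ≠ 0 := sub_ne_zero.2 (by
        rintro rfl
        exact hUZ _ hw hz)
      rw [← hprod z hz, hb0 z hz]
      simp only [eval_mul, eval_C, eval_sub, eval_X, eval_prod, zero_div, add_zero]
      field_simp
    rw [eval_finsetSum, Finset.sum_congr rfl e, ← Finset.sum_mul, hS w hw, zero_mul]
  have ha0 : ∀ z ∈ Z, a z = 0 := by
    intro z hz
    have h1 := congrArg (fun p : ℂ[X] => p.eval z) hq
    simp only [eval_finsetSum, eval_mul, eval_C, eval_sub, eval_X, eval_prod, eval_zero] at h1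
    rw [Finset.sum_eq_single z] at h1
    · rcases mul_eq_zero.1 h1 with h | h
      · exact h
      · exfalso
        obtain ⟨y, hy, hy0⟩ := Finset.prod_eq_zero_iff.1 h
        exact (Finset.ne_of_mem_erase hy) (sub_eq_zero.1 hy0).symm
    · intro y hy hyz
      have : ∏ x ∈ Z.erase y, (z - x) = 0 :=
        Finset.prod_eq_zero (Finset.mem_erase.2 ⟨hyz.symm, hz⟩) (by simp)
      rw [this, mul_zero]
    · intro h
      exact absurd hz h
  intro z hz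
  have hQ := hne z hz
  have hβ : β z = 0 := by
    have := hb0 z hz
    rw [hb] at this
    rcases div_eq_zero_iff.1 this with h | h
    · exact h
    · exact absurd h (pow_ne_zero 2 hQ)
  refine ⟨hβ, ?_⟩
  have := ha0 z hz
  rw [ha, hβ, mul_zero, zero_mul, zero_div, sub_zero] at this
  rcases div_eq_zero_iff.1 this with h | h
  · exact h
  · exact absurd h (pow_ne_zero 2 hQ)

end Pool.Agent.LSF
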