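import Pool.Agent.LSF.BT7

/-!
BT8: integrability of a function with decay `‖w‖ ^ (-4)` away from the discs.

Complete proof. `K` is closed and disjoint from a neighbourhood of `Z` (the open discs), `g` is
continuous on `K`, and `‖g w‖ ≤ C/‖w‖^4` for `‖w‖ ≥ R`. On `K ∩ closedBall 0 R` (compact) `g` is
bounded, so the integral is finite (`ContinuousOn.integrableOn_compact` or bound by a constant
times the volume). On `{‖w‖ ≥ R}`, `R ≥ 1`: `C/‖w‖^4 ≤ 16 C/(1+‖w‖)^4`, and
`(1+‖w‖)^(-4)` is integrable on `ℂ` (`integrable_one_add_norm`, real dimension `2 < 4`).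
-/

namespace Pool.Agent.LSF

open MeasureTheory

theorem intK (g : ℂ → ℂ) (K : Set ℂ) (hK : IsClosed K) (hg : ContinuousOn g K) (C R : ℝ)
    (hR : 1 ≤ R) (hb : ∀ w ∈ K, R ≤ ‖w‖ → ‖g w‖ ≤ C / ‖w‖ ^ 4) :
    ∫⁻ w in K, ‖g w‖ₑ < ⊤ := by
  have h1 : IntegrableOn g (K ∩ Metric.closedBall 0 R) :=
    ContinuousOn.integrableOn_compact ((isCompact_closedBall (0 : ℂ) R).inter_left hK)
      (hg.mono Set.inter_subset_left)
  have hcl : IsClosed (K ∩ {w : ℂ | R ≤ ‖w‖}) := hK.inter (isClosed_le continuous_const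
    continuous_norm)
  have h2 : IntegrableOn g (K ∩ {w : ℂ | R ≤ ‖w‖}) := by
    have hint : Integrable (fun w : ℂ => (1 + ‖w‖) ^ (-(4 : ℝ))) volume := by
      apply integrable_one_add_norm
      rw [Complex.finrank_real_complex]
      norm_num
    have hint' : IntegrableOn (fun w : ℂ => 16 * |C| * (1 + ‖w‖) ^ (-(4 : ℝ)))
        (K ∩ {w : ℂ | R ≤ ‖w‖}) := (hint.const_mul (16 * |C|)).integrableOn
    refine Integrable.mono' hint' ?_ ?_
    · exact (hg.mono Set.inter_subset_left).aestronglyMeasurable hcl.measurableSet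
    · rw [ae_restrict_iff' hcl.measurableSet]
      refine Filter.Eventually.of_forall ?_
      intro w hw
      have hw1 : R ≤ ‖w‖ := hw.2
      have hpos : 0 < ‖w‖ := by linarith
      refine (hb w hw.1 hw1).trans ?_
      rw [Real.rpow_neg (by positivity), show (4 : ℝ) = ((4 : ℕ) : ℝ) by norm_num,
        Real.rpow_natCast]
      have h3 : (1 + ‖w‖) ^ 4 ≤ 16 * ‖w‖ ^ 4 := by
        have : 1 + ‖w‖ ≤ 2 * ‖w‖ := by linarith
        calc (1 + ‖w‖) ^ 4 ≤ (2 * ‖w‖) ^ 4 := pow_le_pow_left₀ (by positivity) this 4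
          _ = 16 * ‖w‖ ^ 4 := by ring
      have h4 : C / ‖w‖ ^ 4 ≤ |C| / ‖w‖ ^ 4 :=
        div_le_div_of_nonneg_right (le_abs_self C) (by positivity)
      refine h4.trans ?_
      rw [← div_eq_mul_inv, div_le_div_iff₀ (by positivity) (by positivity)]
      calc |C| * (1 + ‖w‖) ^ 4 ≤ |C| * (16 * ‖w‖ ^ 4) :=
            mul_le_mul_of_nonneg_left h3 (abs_nonneg C)
        _ = 16 * |C| * ‖w‖ ^ 4 := by ring
  have h3 : IntegrableOn g K := by
    refine (h1.union h2).mono_set ?_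
    intro w hw
    rcases le_total ‖w‖ R with h | h
    · exact Or.inl ⟨hw, by simpa using h⟩
    · exact Or.inr ⟨hw, h⟩
  exact h3.2

end Pool.Agent.LSF
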