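import Pool.Agent.LSF.BT4
import Pool.Agent.LSF.BT5
import Pool.Agent.LSF.BT6
import Pool.Agent.LSF.BT8

/-!
BT9: a functional on attracting cycles that vanishes on infinitesimal conjugations and on all
`z ^ i / Q ^ 2`, `i ≤ 2 d`, is zero.

Complete proof. If `Z = ∅` nothing to prove. Let `f = ev P Q`, `q = qq P Q Z β γ`.
1. Discs: `trap` gives `r`. `T := ⋃_{z ∈ Z} ball z (r z)`, `K := Tᶜ` closed. If `w ∈ T` then
   `f w ∈ T` and `Q w ≠ 0` (indeed `‖f w - f z‖ < r (f z)`, `f z ∈ Z`).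
2. `S := {w | Q w = 0} ∪ {w | (EE P Q) w = 0}` is finite (`EE P Q ≠ 0`: otherwise `(P/Q)' = 0`; as
   `Q ∣ P Q' ` would follow, with `P, Q` coprime `Q ∣ Q'`, impossible for `natDegree Q = d ≥ 2` in
   characteristic zero), `G := Sᶜ` is open and `f` has derivative `derivAt P Q w ≠ 0` on `G`.
3. Exceptional `W`: `N := {0} ∪ Z ∪ f '' {w | EE w = 0, Q w ≠ 0}`, a finite set, `volume N = 0`.
   For `W ∉ N`: `(P - C W * Q).roots.Nodup` (a multiple root `w` has `P w = W Q w`,
   `P' w = W Q' w`, so `Q w ≠ 0` by coprimality, `EE w = 0` and `W = f w ∈ N`). By `push`,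
   `q W = ∑_{w ∈ s} q w/f'(w)^2` with `s = roots`, so
   `‖q W‖ₑ ≤ ∑ ‖q w‖ₑ/ofReal(‖f' w‖^2)` (`enorm_sum_le`), and the points of `s` lie in `G`, lie over
   `W`.
4. `hT` of `l1`: `w ∈ G`, `f w ∈ K` implies `w ∈ K` by 1.
5. `q` (as a function on all of `ℂ`; it is a measurable function because by `tt_formula` it equals
   off the finite set `Z` an explicit rational function: for `l1` use the measurable function
   `‖q̃ w‖ₑ` where `q̃ w := EE(w) * ∑ z ∈ Z, (..)` is the explicit formula, defined everywhere and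
   measurable; it agrees with `q` for `w ∉ Z`, in particular on `K` and on all `s`).
   Finite integral on `K`: `intK` with `tt_decay`.
6. `l1` gives `∫⁻_{K \ f⁻¹ K} ‖q̃‖ₑ = 0`. The set `K \ f⁻¹ K` contains a nonempty open set: let
   `w₀` be a point of the compact set `closure T ⊆ ⋃ closedBall z (r z)` with maximal real part;
   `w₀ ∈ closedBall z (r z)` for some `z ∈ Z`, so `f w₀ ∈ ball (f z) (r (f z)) ⊆ T` and `Q w₀ ≠ 0`,
   `f` is continuous at `w₀`: a ball `ball w₀ ε` is mapped into the open set `T`. The open set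
   `V := ball w₀ ε ∩ {w | Re w > Re w₀}` is nonempty, disjoint from `closure T`, so `V ⊆ K` and
   `f '' V ⊆ T`. So `q̃ = 0` almost everywhere on `V`, and by continuity (`V ∩ Z = ∅`) everywhere on
   `V`. Remove the finitely many zeros of `EE`: on a nonempty open set `TT = 0`. `tt_unique`.
-/

namespace Pool.Agent.LSF

open Polynomial Pool.Agent.LenSpec MeasureTheory

/-- explicit formula for the quadratic differential, defined everywhere -/
noncomputable def bt9_q (P Q : ℂ[X]) (Z : Finset ℂ) (β γ : ℂ → ℂ) (w : ℂ) : ℂ :=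
  (EE P Q).eval w * ∑ z ∈ Z, ((γ z / Q.eval z ^ 2 -
      2 * β z * (derivative Q).eval z / Q.eval z ^ 3) / (w - z) +
      (β z / Q.eval z ^ 2) / (w - z) ^ 2)

theorem bt9_q_eq (P Q : ℂ[X]) (Z : Finset ℂ) (β γ : ℂ → ℂ) (hne : ∀ z ∈ Z, Q.eval z ≠ 0)
    (w : ℂ) (hw : w ∉ Z) : bt9_q P Q Z β γ w = qq P Q Z β γ w := by
  unfold bt9_q qq
  rw [tt_formula Q Z β γ hne w hw]

theorem bt9_q_meas (P Q : ℂ[X]) (Z : Finset ℂ) (β γ : ℂ → ℂ) :
    Measurable (bt9_q P Q Z β γ) := by
  unfold bt9_q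
  refine (EE P Q).continuous.measurable.mul (Finset.measurable_sum _ fun z _ => ?_)
  exact (measurable_const.div (measurable_id.sub_const z)).add
    (measurable_const.div ((measurable_id.sub_const z).pow_const 2))

theorem bt9_q_cont (P Q : ℂ[X]) (Z : Finset ℂ) (β γ : ℂ → ℂ) (w : ℂ) (hw : w ∉ Z) :
    ContinuousAt (bt9_q P Q Z β γ) w := by
  unfold bt9_q
  refine (EE P Q).continuous.continuousAt.mul ?_
  refine tendsto_finsetSum _ fun z hz => ?_
  have h1 : w - z ≠ 0 := sub_ne_zero.2 (fun hc => hw (hc ▸ hz))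
  have h2 : ContinuousAt (fun w : ℂ => w - z) w := continuousAt_id.sub continuousAt_const
  exact (continuousAt_const.div h2 h1).add (continuousAt_const.div (h2.pow 2) (pow_ne_zero _ h1))

theorem bt9_EE_ne (d : ℕ) (P Q : ℂ[X]) (hR : RM d P Q) : EE P Q ≠ 0 := by
  intro hc
  unfold EE at hc
  rw [sub_eq_zero] at hc
  have h1 : Q ∣ P * derivative Q := ⟨derivative P, by rw [← hc]; ring⟩
  have h2 : Q ∣ derivative Q := hR.cop.symm.dvd_of_dvd_mul_left h1
  have hd := hR.two_le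
  have hQ := hR.degQ
  have h3 : derivative Q = 0 := by
    by_contra h0
    have h4 := natDegree_le_of_dvd h2 h0
    have h5 := natDegree_derivative_lt (p := Q) (by omega)
    omega
  have := derivative_eq_zero.1 h3
  omega

theorem bt9_E_derivAt (P Q : ℂ[X]) (w : ℂ) :
    derivAt P Q w = (EE P Q).eval w / Q.eval w ^ 2 := by
  unfold derivAt EE
  simp only [eval_sub, eval_mul]

theorem bt9_nodup (d : ℕ) (P Q : ℂ[X]) (hR : RM d P Q) (W : ℂ) (hW0 : W ≠ 0)
    (hW : W ∉ ev P Q '' {w | (EE P Q).eval w = 0 ∧ Q.eval w ≠ 0}) :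
    (P - C W * Q).roots.Nodup := by
  have hD : P - C W * Q ≠ 0 := by
    intro hc
    have h1 : (C W * Q).natDegree = d := by rw [natDegree_C_mul hW0, hR.degQ]
    have h2 := hR.degP
    rw [sub_eq_zero] at hc
    rw [← hc] at h1
    omega
  rw [Multiset.nodup_iff_count_le_one]
  intro w
  rw [count_roots]
  by_contra hc
  push Not at hc
  obtain ⟨h1, h2⟩ := (one_lt_rootMultiplicity_iff_isRoot hD).1 hc
  rw [IsRoot.def, eval_sub, eval_mul, eval_C, sub_eq_zero] at h1
  rw [IsRoot.def, derivative_sub, derivative_C_mul, eval_sub, eval_mul, eval_C, sub_eq_zero] at h2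
  have hQ : Q.eval w ≠ 0 := by
    intro hc
    obtain ⟨a, b, hab⟩ := hR.cop
    have := congrArg (eval w) hab
    rw [eval_add, eval_mul, eval_mul, hc, h1, hc] at this
    simp at this
  apply hW
  refine ⟨w, ⟨?_, hQ⟩, ?_⟩
  · unfold EE
    simp only [eval_sub, eval_mul]
    rw [h1, h2]
    ring
  · unfold ev
    rw [h1, mul_div_assoc, div_self hQ, mul_one]

theorem bt9_N (d : ℕ) (P Q : ℂ[X]) (hR : RM d P Q) (Z : Finset ℂ) :
    volume (({0} ∪ (Z : Set ℂ)) ∪ ev P Q '' {w | (EE P Q).eval w = 0 ∧ Q.eval w ≠ 0} : Set ℂ)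
      = 0 := by
  refine Set.Finite.measure_zero ?_ _
  refine ((Set.finite_singleton 0).union Z.finite_toSet).union (Set.Finite.image _ ?_)
  refine Set.Finite.subset (EE P Q).roots.toFinset.finite_toSet ?_
  rintro w ⟨hw, -⟩
  rw [Finset.mem_coe, Multiset.mem_toFinset, mem_roots (bt9_EE_ne d P Q hR)]
  exact hw

/-- the open set whose points leave the complement of the discs -/
theorem bt9_open (P Q : ℂ[X]) (Z : Finset ℂ) (hZ : Z.Nonempty) (r : ℂ → ℝ)
    (hr : ∀ z ∈ Z, 0 < r z) (hmem : ∀ z ∈ Z, ev P Q z ∈ Z)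
    (ht : ∀ z ∈ Z, ∀ w, ‖w - z‖ ≤ r z → Q.eval w ≠ 0 ∧ ‖ev P Q w - ev P Q z‖ < r (ev P Q z)) :
    ∃ V : Set ℂ, IsOpen V ∧ V.Nonempty ∧ ∀ w ∈ V, (∀ z ∈ Z, ¬ ‖w - z‖ < r z) ∧
      ∃ z ∈ Z, ‖ev P Q w - z‖ < r z := by
  set B : Set ℂ := ⋃ z ∈ Z, Metric.closedBall z (r z) with hB
  have hBc : IsCompact B := by
    rw [hB]
    exact Z.isCompact_biUnion fun z _ => isCompact_closedBall z (r z)
  have hBn : B.Nonempty := by
    obtain ⟨z, hz⟩ := hZ
    refine ⟨z, ?_⟩
    rw [hB]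
    exact Set.mem_biUnion hz (Metric.mem_closedBall_self (hr z hz).le)
  obtain ⟨w₀, hw₀, hmax⟩ := hBc.exists_isMaxOn hBn Complex.continuous_re.continuousOn
  obtain ⟨z, hz, hwz⟩ : ∃ z ∈ Z, w₀ ∈ Metric.closedBall z (r z) := by
    rw [hB] at hw₀
    simpa using hw₀
  rw [Metric.mem_closedBall, dist_eq_norm] at hwz
  obtain ⟨hQ, hlt⟩ := ht z hz w₀ hwz
  have hcont : ContinuousAt (ev P Q) w₀ := (rm_deriv P Q w₀ hQ).continuousAt
  have hev : ∀ᶠ w in nhds w₀, ‖ev P Q w - ev P Q z‖ < r (ev P Q z) := by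
    have h1 : ContinuousAt (fun w => ‖ev P Q w - ev P Q z‖) w₀ :=
      (hcont.sub continuousAt_const).norm
    exact h1.eventually_lt continuousAt_const hlt
  obtain ⟨ε, hε, hball⟩ := Metric.eventually_nhds_iff_ball.1 hev
  refine ⟨Metric.ball w₀ ε ∩ {w | w₀.re < w.re}, ?_, ?_, ?_⟩
  · exact Metric.isOpen_ball.inter (isOpen_lt continuous_const Complex.continuous_re)
  · refine ⟨w₀ + ((ε / 2 : ℝ) : ℂ), ?_, ?_⟩
    · rw [Metric.mem_ball, dist_eq_norm, add_sub_cancel_left, Complex.norm_real,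
        Real.norm_of_nonneg (by positivity)]
      linarith
    · show w₀.re < (w₀ + ((ε / 2 : ℝ) : ℂ)).re
      rw [Complex.add_re, Complex.ofReal_re]
      linarith
  · rintro w ⟨hw1, hw2⟩
    refine ⟨fun y hy hc => ?_, ev P Q z, hmem z hz, hball w hw1⟩
    have h2 : w ∈ B := by
      rw [hB]
      refine Set.mem_biUnion hy ?_
      rw [Metric.mem_closedBall, dist_eq_norm]
      exact hc.le
    have h3 := hmax h2
    simp only [Set.mem_ofPred_eq] at hw2 h3
    exact absurd h3 (not_le.2 hw2)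

theorem kill0 (d : ℕ) (P Q : ℂ[X]) (hR : RM d P Q) (Z : Finset ℂ) (β γ : ℂ → ℂ)
    (h : Inv P Q Z β γ) (hatt : Att P Q Z)
    (hK : ∀ i ≤ 2 * d, LF Z β γ (fun z => z ^ i / (Q.eval z) ^ 2) = 0) :
    ∀ z ∈ Z, β z = 0 ∧ γ z = 0 := by
  rcases Z.eq_empty_or_nonempty with hZ | hZ
  · intro z hz
    rw [hZ] at hz
    exact absurd hz (Finset.notMem_empty z)
  obtain ⟨r, hr, ht⟩ := trap P Q Z h.ne h.mem hatt
  set K : Set ℂ := {w | ∀ z ∈ Z, ¬ ‖w - z‖ < r z} with hKdef
  have hKc : IsClosed K := by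
    have : K = ⋂ z ∈ Z, {w : ℂ | r z ≤ ‖w - z‖} := by
      ext w
      simp [hKdef]
    rw [this]
    exact isClosed_biInter fun z _ => isClosed_le continuous_const (by fun_prop)
  have hKZ : ∀ w ∈ K, w ∉ Z := by
    intro w hw hwZ
    apply hw w hwZ
    rw [sub_self, norm_zero]
    exact hr w hwZ
  set q := bt9_q P Q Z β γ with hq
  have hqm : Measurable q := bt9_q_meas P Q Z β γ
  have hqeq : ∀ w, w ∉ Z → q w = qq P Q Z β γ w := bt9_q_eq P Q Z β γ h.ne
  set G : Set ℂ := {w | Q.eval w ≠ 0 ∧ (EE P Q).eval w ≠ 0} with hG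
  have hGo : IsOpen G := by
    have h1 : IsOpen {w : ℂ | Q.eval w ≠ 0} := isOpen_ne_fun Q.continuous continuous_const
    have h2 : IsOpen {w : ℂ | (EE P Q).eval w ≠ 0} :=
      isOpen_ne_fun (EE P Q).continuous continuous_const
    exact h1.inter h2
  obtain ⟨C, R, hR1, hdec⟩ := tt_decay d P Q hR Z β γ h.ne hK
  have hfin : ∫⁻ w in K, ‖q w‖ₑ < ⊤ := by
    refine intK q K hKc ?_ C R hR1 ?_
    · intro w hw
      exact (bt9_q_cont P Q Z β γ w (hKZ w hw)).continuousWithinAt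
    · intro w _ hRw
      obtain ⟨h1, h2⟩ := hdec w hRw
      rw [hqeq w h1]
      exact h2
  set N : Set ℂ := (({0} ∪ (Z : Set ℂ)) ∪
    ev P Q '' {w | (EE P Q).eval w = 0 ∧ Q.eval w ≠ 0} : Set ℂ) with hN
  have hl1 := l1 (ev P Q) (derivAt P Q) (fun w => ‖q w‖ₑ) G K N hqm.enorm
    (by
      unfold ev
      exact P.continuous.measurable.div Q.continuous.measurable)
    (by
      unfold derivAt
      exact (((derivative P).continuous.mul Q.continuous).sub
        (P.continuous.mul (derivative Q).continuous)).measurable.div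
        (Q.continuous.pow 2).measurable)
    hGo
    (fun z hz => ⟨rm_deriv P Q z hz.1, by
      rw [bt9_E_derivAt]
      exact div_ne_zero hz.2 (pow_ne_zero _ hz.1)⟩)
    hKc.measurableSet
    (by
      intro w _ hfw z hz hc
      exact hfw (ev P Q z) (h.mem z hz) (ht z hz w hc.le).2)
    (bt9_N d P Q hR Z)
    (by
      intro W hWK hWN
      have hW0 : W ≠ 0 := fun hc => hWN (Or.inl (Or.inl hc))
      have hWZ : W ∉ Z := fun hc => hWN (Or.inl (Or.inr hc))
      have hWE : W ∉ ev P Q '' {w | (EE P Q).eval w = 0 ∧ Q.eval w ≠ 0} :=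
        fun hc => hWN (Or.inr hc)
      have hn := bt9_nodup d P Q hR W hW0 hWE
      obtain ⟨hp1, hp2⟩ := push d P Q hR Z β γ h hK W hW0 hWZ hn
      refine ⟨(P - Polynomial.C W * Q).roots.toFinset, fun w hw => ?_, ?_⟩
      · obtain ⟨a1, a2, a3, a4⟩ := hp1 w hw
        refine ⟨⟨a1, fun hc => a4 ?_⟩, a2⟩
        rw [bt9_E_derivAt, hc, zero_div]
      · rw [hqeq W hWZ, ← hp2]
        refine (enorm_sum_le _ _).trans (le_of_eq ?_)
        refine Finset.sum_congr rfl fun w hw => ?_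
        obtain ⟨a1, a2, a3, a4⟩ := hp1 w hw
        rw [hqeq w a3, ← ofReal_norm, ← ofReal_norm, norm_div, norm_pow,
          ENNReal.ofReal_div_of_pos (pow_pos (norm_pos_iff.2 a4) 2)])
    hfin
  obtain ⟨V, hVo, hVn, hV⟩ := bt9_open P Q Z hZ r hr h.mem ht
  have hVK : V ⊆ K \ ev P Q ⁻¹' K := by
    intro w hw
    obtain ⟨h1, z, hz, h2⟩ := hV w hw
    exact ⟨h1, fun hc => hc z hz h2⟩
  have hVZ : ∀ w ∈ V, w ∉ Z := fun w hw => hKZ w (hVK hw).1
  have hV0 : ∫⁻ w in V, ‖q w‖ₑ = 0 := by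
    have := lintegral_mono_set (μ := volume) (f := fun w => ‖q w‖ₑ) hVK
    rw [hl1] at this
    exact le_antisymm this bot_le
  have hqV : ∀ w ∈ V, q w = 0 := by
    have hU : IsOpen (V ∩ q ⁻¹' {0}ᶜ) := by
      have hc : ContinuousOn q V := fun w hw =>
        (bt9_q_cont P Q Z β γ w (hVZ w hw)).continuousWithinAt
      exact hc.isOpen_inter_preimage hVo isOpen_compl_singleton
    have hm : volume (V ∩ q ⁻¹' {0}ᶜ) = 0 := by
      rw [lintegral_eq_zero_iff hqm.enorm] at hV0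
      have h1 := (ae_restrict_iff' hVo.measurableSet).1 hV0
      rw [ae_iff] at h1
      refine measure_mono_null ?_ h1
      rintro w ⟨hw1, hw2⟩
      simp only [Set.mem_ofPred_eq, Classical.not_imp]
      refine ⟨hw1, ?_⟩
      simp only [Pi.zero_apply, enorm_eq_zero]
      exact hw2
    have he := (hU.measure_eq_zero_iff (μ := volume)).1 hm
    intro w hw
    by_contra hc
    have : w ∈ V ∩ q ⁻¹' {0}ᶜ := ⟨hw, hc⟩
    rw [he] at this
    exact this
  set U : Set ℂ := V ∩ {w | (EE P Q).eval w ≠ 0} with hUdef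
  have hUo : IsOpen U := hVo.inter (isOpen_ne_fun (EE P Q).continuous continuous_const)
  have hUn : U.Nonempty := by
    by_contra hc
    rw [Set.not_nonempty_iff_eq_empty] at hc
    have h1 : V ⊆ ((EE P Q).roots.toFinset : Set ℂ) := by
      intro w hw
      rw [Finset.mem_coe, Multiset.mem_toFinset, mem_roots (bt9_EE_ne d P Q hR)]
      by_contra hroot
      have : w ∈ U := ⟨hw, hroot⟩
      rw [hc] at this
      exact this
    have h2 : volume V = 0 :=
      measure_mono_null h1 ((EE P Q).roots.toFinset.finite_toSet.measure_zero _)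
    rw [hVo.measure_eq_zero_iff (μ := volume)] at h2
    rw [h2] at hVn
    exact Set.not_nonempty_empty hVn
  refine tt_unique Q Z β γ h.ne U hUo hUn (fun w hw => hVZ w hw.1) ?_
  intro w hw
  have h1 := hqV w hw.1
  rw [hqeq w (hVZ w hw.1)] at h1
  unfold qq at h1
  exact (mul_eq_zero.1 h1).resolve_left hw.2

end Pool.Agent.LSF
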