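import Pool.Agent.LenSpec.GIDefs

/-!
Generic injectivity of the multiplier spectrum with the periods `1` and `p`: definitions and
statements.
-/

namespace Pool.Agent.LSF

open Polynomial Pool.Agent.LenSpec

section gi

variable {K : Type} [Field K] {d : ℕ}

/-- the sequence `z` is a periodic orbit of `z - 1 / N(z)`; no point of it is one of the fixed
points `w j` -/
structure PC (ι w : Fin d → K) (p : ℕ) (z : ℕ → K) : Prop where
  per : ∀ i, z (i + p) = z i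
  hz : ∀ i j, z i ≠ w j
  eq : ∀ i, nN ι w (z i) * (z i - z (i + 1)) = 1

/-- the multiplier of the orbit -/
noncomputable def mW (ι w : Fin d → K) (p : ℕ) (z : ℕ → K) : K :=
  ∏ i ∈ Finset.range p, (1 - nD ι w (z i) * (z i - z (i + 1)) ^ 2)

/-- the orbit `z` has the itinerary `σ`: the point `z i` is near `w (σ i)` -/
structure NearW {κ : Type} [Field κ] (P : Pl K κ) (δ : K) (c w : Fin d → K) (p : ℕ)
    (σ : ℕ → Fin d) (z : ℕ → K) : Prop where
  pc : PC (fun j => δ * c j) w p z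
  red : ∀ i, P.Red ((z i - w (σ i)) / δ)
    (P.rs (c (σ i)) * (P.rs (w (σ i)) - P.rs (w (σ (i + 1)))))

/-- the periodic word `s, …, s, l` of period `p` -/
def wd (p : ℕ) (s l : Fin d) (i : ℕ) : Fin d := if i % p = p - 1 then l else s

/-- if the product of `p` of the `c j` is `c s ^ (p - 1) * c l`, the factors are the same -/
def E5 (p : ℕ) (c : Fin d → K) : Prop := ∀ (σ : ℕ → Fin d) (s l : Fin d), s ≠ l →
  ∏ i ∈ Finset.range p, c (σ i) = c s ^ (p - 1) * c l →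
  ∃ k < p, σ k = l ∧ ∀ i < p, i ≠ k → σ i = s

end gi

/-- TC1p (may use N1): existence of the cycle with itinerary `s, …, s, l` -/
def TC1pS : Prop := ∀ (K κ : Type) [Field K] [IsAlgClosed K] [Field κ] (P : Pl K κ) (d p : ℕ)
  (c w : Fin d → K) (δ : K) (V : Finset (Fin d)), 2 ≤ p → Cfg P δ c w V →
  ∀ s ∈ V, ∀ l ∈ V, s ≠ l → ∃ z, NearW P δ c w p (wd p s l) z

/-- TC2p: expansion of the multiplier -/
def TC2pS : Prop := ∀ (K κ : Type) [Field K] [Field κ] (P : Pl K κ) (d p : ℕ)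
  (c w : Fin d → K) (δ : K) (V : Finset (Fin d)), Cfg P δ c w V →
  ∀ (σ : ℕ → Fin d) (z : ℕ → K), (∀ i, σ i ∈ V) → NearW P δ c w p σ z →
  P.Red (δ ^ p * mW (fun j => δ * c j) w p z) (∏ i ∈ Finset.range p, (-P.rs (c (σ i))))⁻¹ ∧
  P.Red ((mW (fun j => δ * c j) w p z /
      (∏ i ∈ Finset.range p, (1 - (δ * c (σ i))⁻¹)) - 1) / δ)
    (-2 * ∑ i ∈ Finset.range p, eE V (fun j => P.rs (c j)) (fun j => P.rs (w j)) (σ i) *
      (P.rs (w (σ i)) - P.rs (w (σ (i + 1)))))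

/-- TC3p (may use A1, A2): the multiplier of a cycle is in `multSpec p` -/
def TC3pS : Prop := ∀ (K : Type) [Field K] (d p : ℕ) (f : RatMap K d) (w ι : Fin d → K)
  (z : ℕ → K), 2 ≤ d → 1 ≤ p → IsNf f w ι → PC ι w p z → mW ι w p z ∈ f.multSpec p

/-- TC4a (may use A1, A2, A3): the fixed points of the `p`-th iterate of a map in normal form -/
def TC4aS : Prop := ∀ (K : Type) [Field K] [IsAlgClosed K] (d p : ℕ) (f : RatMap K d)
  (w ι : Fin d → K), 2 ≤ d → 1 ≤ p → Function.Injective w → (∀ j, ι j ≠ 0) → ∑ j, ι j ≠ 1 →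
  IsNf f w ι → ∀ x ∈ f.multSpec p, x = (1 - (1 - ∑ j, ι j)⁻¹) ^ p ∨
    (∃ j, x = (1 - (ι j)⁻¹) ^ p) ∨ ∃ z, PC ι w p z ∧ x = mW ι w p z

/-- TC4b: every cycle has an itinerary -/
def TC4bS : Prop := ∀ (K κ : Type) [Field K] [Field κ] (P : Pl K κ) (d p : ℕ)
  (c w : Fin d → K) (δ : K) (z : ℕ → K), 1 ≤ p → Cfg P δ c w Finset.univ →
  PC (fun j => δ * c j) w p z →
  ∃ σ : ℕ → Fin d, (∀ i, σ (i + p) = σ i) ∧ NearW P δ c w p σ z

/-- GG5: generic parameters satisfy the condition `E5` -/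
def GG5S : Prop := ∀ (K : Type) [Field K] [CharZero K] (d : ℕ) (hd : 2 ≤ d)
  (w ι : Fin d → K) (p : ℕ), 2 ≤ p → NGen hd w ι → E5 p (fun j => ι j / ι ⟨0, by omega⟩)

/-- GRp (from V1): a place at which `δ = ι 0` is small and the other parameters are constants -/
def GRpS : Prop := ∀ (K : Type) [Field K] [IsAlgClosed K] [CharZero K] (d : ℕ) (hd : 2 ≤ d)
  (w ι : Fin d → K) (p : ℕ), NGen hd w ι →
  GGen (fun j => ι j / ι ⟨0, by omega⟩) w → E5 p (fun j => ι j / ι ⟨0, by omega⟩) →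
  ∃ (κ : Type) (_ : Field κ) (_ : CharZero κ) (P : Pl K κ),
    Cfg P (ι ⟨0, by omega⟩) (fun j => ι j / ι ⟨0, by omega⟩) w Finset.univ ∧
    GGen (fun j => P.rs (ι j / ι ⟨0, by omega⟩)) (fun j => P.rs (w j)) ∧
    E5 p (fun j => P.rs (ι j / ι ⟨0, by omega⟩))

/-- GMp (from TC2p, TC3p, TC4a, TC4b): matching cycles have equal multipliers -/
def GMpS : Prop := ∀ (K κ : Type) [Field K] [IsAlgClosed K] [Field κ] (P : Pl K κ) (d p : ℕ)
  (f g : RatMap K d) (c w w' : Fin d → K) (δ : K) (V : Finset (Fin d)), 2 ≤ d → 2 ≤ p →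
  Cfg P δ c w Finset.univ → E5 p (fun j => P.rs (c j)) → Function.Injective w →
  IsNf f w (fun j => δ * c j) → Cfg P δ c w' V → IsNf g w' (fun j => δ * c j) →
  (∀ x ∈ g.multSpec p, x ∈ f.multSpec p) →
  ∀ s ∈ V, ∀ l ∈ V, s ≠ l → ∀ z', NearW P δ c w' p (wd p s l) z' →
  ∃ z, NearW P δ c w p (wd p s l) z ∧
    mW (fun j => δ * c j) w p z = mW (fun j => δ * c j) w' p z'

/-- LOCp: local injectivity -/
def LOCpS : Prop := ∀ (K κ : Type) [Field K] [Field κ] [CharZero κ] (P : Pl K κ) (d p : ℕ)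
  (hd : 2 ≤ d) (c w w' : Fin d → K) (δ : K), 2 ≤ p → Cfg P δ c w Finset.univ →
  Cfg P δ c w' Finset.univ → GGen (fun j => P.rs (c j)) (fun j => P.rs (w j)) →
  (∀ s, P.rs (w s) = P.rs (w' s)) → w ⟨0, by omega⟩ = w' ⟨0, by omega⟩ →
  w ⟨1, by omega⟩ = w' ⟨1, by omega⟩ →
  (∀ s l, s ≠ l → ∃ z y, NearW P δ c w p (wd p s l) z ∧ NearW P δ c w' p (wd p s l) y ∧
    mW (fun j => δ * c j) w p z = mW (fun j => δ * c j) w' p y) →
  w = w'

/-- GCp (from TC1p, TC2p, GG, GG5, GRp, CLO, GMp, VU, RIG, LOCp, NF2, MC1): the core -/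
def GCpS : Prop := ∀ (K : Type) [Field K] [IsAlgClosed K] [CharZero K] (d p : ℕ) (hd : 2 ≤ d)
  (f g : RatMap K d) (w w' ι : Fin d → K), 2 ≤ p → NGen hd w ι → Function.Injective w' →
  IsNf f w ι → IsNf g w' ι → (∀ x ∈ g.multSpec p, x ∈ f.multSpec p) →
  ∃ a b : K, a ≠ 0 ∧ ∀ j, w' j = a * w j + b

/-- GIp (from NF1, NF2, NF3, MC1, MC2, GCp): generic injectivity of the multiplier spectrum -/
def GIpS : Prop := ∀ (K : Type) [Field K] [IsAlgClosed K] [CharZero K] (d p : ℕ)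
  (f g : RatMap K d), 2 ≤ d → 2 ≤ p → AlgebraicIndependent ℚ f.coef →
  (∀ x ∈ f.multSpec 1, x ≠ 1) → f.multSpec 1 = g.multSpec 1 →
  (∀ x ∈ g.multSpec p, x ∈ f.multSpec p) → MobConj f g

end Pool.Agent.LSF
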