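import Pool.Agent.LSF.DDefs
import Pool.Agent.LenSpec.PlBasic

/-!
DC: an element that is constant at infinitely many places is algebraic over `k₀(x)`.
-/

namespace Pool.Agent.LSF

open Polynomial Pool.Agent.LenSpec

section dc

variable {K κ : Type} [Field K] [Field κ] {P : Pl K κ}

/-- reduction of the value of a polynomial -/
theorem dc_aeval {k₀ : Type} [Field k₀] [Algebra k₀ K] {σ : Type}
    (ρ : k₀ →+* κ) (hρ : ∀ a, P.Red (algebraMap k₀ K a) (ρ a)) (w : σ → K) (v : σ → κ)
    (hw : ∀ i, P.Red (w i) (v i)) (φ : MvPolynomial σ k₀) :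
    P.Red (MvPolynomial.aeval w φ) (MvPolynomial.eval₂ ρ v φ) := by
  induction φ using MvPolynomial.induction_on with
  | C a =>
    rw [MvPolynomial.aeval_C, MvPolynomial.eval₂_C]
    exact hρ a
  | add p q hp hq =>
    rw [map_add, MvPolynomial.eval₂_add]
    exact hp.add hq
  | mul_X p i hp =>
    rw [map_mul, MvPolynomial.aeval_X, MvPolynomial.eval₂_mul, MvPolynomial.eval₂_X]
    exact hp.mul (hw i)

/-- the residue map is injective on a subfield contained in the ring of the place -/
theorem dc_inj [CharZero K] (k : IntermediateField ℚ K) (hk : ∀ a ∈ k, a ∈ P.O) {a : K}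
    (ha : a ∈ k) (h : P.Red a 0) : a = 0 := by
  by_contra h0
  have h1 : P.Red a⁻¹ (P.rs a⁻¹) := Pl.red_rs (hk _ (k.inv_mem ha))
  have h2 := h.mul h1
  rw [mul_inv_cancel₀ h0, zero_mul] at h2
  exact one_ne_zero (Pl.red_one.unique h2)

end dc

theorem DC_holds (hDZ : DZS) : DCS := by
  classical
  intro K _ _ k₀ k ι y x μ hle hyk hy hx hμ S hS hpl
  -- the relation
  let w : Option Unit → K := fun o => o.elim μ (fun _ => x)
  have hμk : IsAlgebraic (IntermediateField.adjoin k ({x} : Set K)) μ := by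
    have h1 : (IntermediateField.adjoin k₀ (insert x (Set.range y))).toSubfield ≤
        (IntermediateField.adjoin k ({x} : Set K)).toSubfield := by
      have h2 : IntermediateField.adjoin k₀ (insert x (Set.range y)) ≤
          IntermediateField.adjoin k₀ ((k : Set K) ∪ {x}) := by
        apply IntermediateField.adjoin.mono
        rintro _ (rfl | ⟨i, rfl⟩)
        · exact Or.inr rfl
        · exact Or.inl (hyk i)
      have h3 : ∀ z ∈ IntermediateField.adjoin k₀ ((k : Set K) ∪ {x}),
          z ∈ IntermediateField.adjoin k ({x} : Set K) := by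
        intro z hz
        induction hz using IntermediateField.adjoin_induction with
        | mem z hz =>
          rcases hz with hz | hz
          · exact (IntermediateField.adjoin k ({x} : Set K)).algebraMap_mem ⟨z, hz⟩
          · exact IntermediateField.subset_adjoin k _ hz
        | algebraMap a =>
          exact (IntermediateField.adjoin k ({x} : Set K)).algebraMap_mem ⟨(a : K), hle a.2⟩
        | add a b _ _ ha hb => exact add_mem ha hb
        | inv a _ ha => exact inv_mem ha
        | mul a b _ _ ha hb => exact mul_mem ha hb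
      exact fun z hz => h3 z (h2 hz)
    let φ : IntermediateField.adjoin k₀ (insert x (Set.range y)) →+*
        IntermediateField.adjoin k ({x} : Set K) :=
      { toFun := fun z => ⟨z.1, h1 z.2⟩
        map_one' := rfl
        map_mul' := fun _ _ => rfl
        map_zero' := rfl
        map_add' := fun _ _ => rfl }
    obtain ⟨p, hp, hp0⟩ := hμ
    refine ⟨p.map φ, (Polynomial.map_ne_zero_iff φ.injective).2 hp, ?_⟩
    rw [Polynomial.aeval_def, Polynomial.eval₂_map]
    exact hp0
  have hwk : ∀ φ : MvPolynomial (Option Unit) k₀,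
      IsAlgebraic (IntermediateField.adjoin k ({x} : Set K)) (MvPolynomial.aeval w φ) := by
    intro φ
    induction φ using MvPolynomial.induction_on with
    | C a =>
      rw [MvPolynomial.aeval_C]
      exact isAlgebraic_algebraMap (⟨(a : K), (IntermediateField.adjoin k ({x} : Set K)).algebraMap_mem
        ⟨(a : K), hle a.2⟩⟩ : IntermediateField.adjoin k ({x} : Set K))
    | add p q hp hq =>
      rw [map_add]
      exact hp.add hq
    | mul_X p i hp =>
      rw [map_mul, MvPolynomial.aeval_X]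
      apply hp.mul
      rcases i with _ | i
      · exact hμk
      · exact isAlgebraic_algebraMap (⟨x, IntermediateField.subset_adjoin k _ rfl⟩ :
          IntermediateField.adjoin k ({x} : Set K))
  have hdep : ¬ AlgebraicIndependent k₀ (Sum.elim y w) := by
    intro h
    have h1 := h.transcendental_adjoin (s := {Sum.inr none}ᶜ) (i := Sum.inr none) (by simp)
    have h2 : Sum.elim y w '' {Sum.inr none}ᶜ = insert x (Set.range y) := by
      ext z
      constructor
      · rintro ⟨(i | (_ | i)), hi, rfl⟩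
        · exact Or.inr ⟨i, rfl⟩
        · exact absurd rfl hi
        · exact Or.inl rfl
      · rintro (rfl | ⟨i, rfl⟩)
        · exact ⟨Sum.inr (some ()), by simp, rfl⟩
        · exact ⟨Sum.inl i, by simp, rfl⟩
    rw [h2] at h1
    exact h1 (IntermediateField.isAlgebraic_adjoin_iff.1 hμ)
  obtain ⟨Φ, hΦ0, hΦ⟩ : ∃ Φ : MvPolynomial (ι ⊕ Option Unit) k₀,
      MvPolynomial.aeval (Sum.elim y w) Φ = 0 ∧ Φ ≠ 0 := by
    by_contra hc
    push Not at hc
    exact hdep (algebraicIndependent_iff.2 hc)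
  obtain ⟨Ψ, hΨ⟩ : ∃ Ψ, Ψ = MvPolynomial.sumAlgEquiv k₀ ι (Option Unit) Φ := ⟨_, rfl⟩
  have hΨ0 : Ψ ≠ 0 := by
    rw [hΨ]
    exact (map_ne_zero_iff _ (MvPolynomial.sumAlgEquiv k₀ ι (Option Unit)).injective).2 hΦ
  have heval : ∀ Θ : MvPolynomial (ι ⊕ Option Unit) k₀,
      MvPolynomial.eval₂ (MvPolynomial.aeval w : MvPolynomial (Option Unit) k₀ →ₐ[k₀] K).toRingHom y
        (MvPolynomial.sumAlgEquiv k₀ ι (Option Unit) Θ) =
      MvPolynomial.aeval (Sum.elim y w) Θ := by
    intro Θ
    induction Θ using MvPolynomial.induction_on with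
    | C a =>
      rw [MvPolynomial.sumAlgEquiv_C_inl, MvPolynomial.eval₂_C, MvPolynomial.aeval_C]
      exact MvPolynomial.aeval_C _ _
    | add p q hp hq => rw [map_add, MvPolynomial.eval₂_add, hp, hq, map_add]
    | mul_X p i hp =>
      rw [map_mul, MvPolynomial.eval₂_mul, hp, map_mul, MvPolynomial.aeval_X]
      rcases i with i | i
      · rw [MvPolynomial.sumAlgEquiv_X_inl, MvPolynomial.eval₂_X]
        rfl
      · rw [MvPolynomial.sumAlgEquiv_X_inr, MvPolynomial.eval₂_C]
        congr 1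
        exact MvPolynomial.aeval_X _ _
  have hsum : ∑ α ∈ Ψ.support, MvPolynomial.aeval w (Ψ.coeff α) * ∏ i ∈ α.support, y i ^ α i = 0 := by
    have h1 := heval Φ
    rw [← hΨ, hΦ0, MvPolynomial.eval₂_eq] at h1
    exact h1
  -- the claim
  have hclaim : ∀ α, ∀ ζ ∈ S, ∃ (κ : Type) (_ : Field κ) (P : Pl K κ), (∀ a ∈ k, a ∈ P.O) ∧
      P.Red (x - ζ) 0 ∧ P.Red (MvPolynomial.aeval w (Ψ.coeff α)) 0 := by
    intro α ζ hζ
    obtain ⟨hζ0, κ, _, P, hkO, hred, ω, hω, hμω⟩ := hpl ζ hζ
    refine ⟨κ, inferInstance, P, hkO, hred, ?_⟩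
    let ρ : k₀ →+* κ := P.res.comp
      { toFun := fun z => (⟨(z : K), hkO _ (hle z.2)⟩ : P.O)
        map_one' := rfl
        map_mul' := fun _ _ => rfl
        map_zero' := rfl
        map_add' := fun _ _ => rfl }
    have hρ : ∀ a : k₀, P.Red (algebraMap k₀ K a) (ρ a) := fun a => ⟨hkO _ (hle a.2), rfl⟩
    let w' : Option Unit → k₀ := fun o => o.elim ⟨ω, hω⟩ (fun _ => ⟨ζ, hζ0⟩)
    have hw' : ∀ i, P.Red (w i) (ρ (w' i)) := by
      rintro (_ | i)
      · have h1 := hμω.add (hρ ⟨ω, hω⟩)
        have h2 : (μ - ω) + algebraMap k₀ K ⟨ω, hω⟩ = μ := sub_add_cancel μ ω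
        rw [h2, zero_add] at h1
        exact h1
      · have h1 := hred.add (hρ ⟨ζ, hζ0⟩)
        have h2 : (x - ζ) + algebraMap k₀ K ⟨ζ, hζ0⟩ = x := sub_add_cancel x ζ
        rw [h2, zero_add] at h1
        exact h1
    have hcoef : ∀ φ : MvPolynomial (Option Unit) k₀,
        P.Red (MvPolynomial.aeval w φ) (ρ (MvPolynomial.eval w' φ)) := by
      intro φ
      have h1 := dc_aeval ρ hρ w (fun i => ρ (w' i)) hw' φ
      have h2 : ρ (MvPolynomial.eval w' φ) = MvPolynomial.eval₂ ρ (fun i => ρ (w' i)) φ := by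
        rw [MvPolynomial.eval, MvPolynomial.coe_eval₂Hom, MvPolynomial.eval₂_comp_left]
        rfl
      rw [h2]
      exact h1
    -- the specialised polynomial
    obtain ⟨Θ, hΘ⟩ : ∃ Θ : MvPolynomial ι k₀, Θ = MvPolynomial.map (MvPolynomial.eval w') Ψ :=
      ⟨_, rfl⟩
    have hΘsum : MvPolynomial.aeval y Θ =
        ∑ α ∈ Ψ.support, algebraMap k₀ K (MvPolynomial.eval w' (Ψ.coeff α)) *
          ∏ i ∈ α.support, y i ^ α i := by
      rw [hΘ, MvPolynomial.aeval_def, MvPolynomial.eval₂_map, MvPolynomial.eval₂_eq]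
      rfl
    have hprod : ∀ α : ι →₀ ℕ, ∏ i ∈ α.support, y i ^ α i ∈ k :=
      fun α => prod_mem (fun i _ => pow_mem (hyk i) _)
    have hΘk : MvPolynomial.aeval y Θ ∈ k := by
      rw [hΘsum]
      exact sum_mem (fun α _ => mul_mem (hle (MvPolynomial.eval w' (Ψ.coeff α)).2) (hprod α))
    have hΘred : P.Red (MvPolynomial.aeval y Θ) 0 := by
      have h1 := Pl.red_sum (p := P) Ψ.support
        (x := fun α => MvPolynomial.aeval w (Ψ.coeff α) * ∏ i ∈ α.support, y i ^ α i)
        (y := fun α => ρ (MvPolynomial.eval w' (Ψ.coeff α)) * P.rs (∏ i ∈ α.support, y i ^ α i))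
        (fun α _ => (hcoef _).mul (Pl.red_rs (hkO _ (hprod α))))
      rw [hsum] at h1
      have h2 := Pl.red_sum (p := P) Ψ.support
        (x := fun α => algebraMap k₀ K (MvPolynomial.eval w' (Ψ.coeff α)) *
          ∏ i ∈ α.support, y i ^ α i)
        (y := fun α => ρ (MvPolynomial.eval w' (Ψ.coeff α)) * P.rs (∏ i ∈ α.support, y i ^ α i))
        (fun α _ => (hρ _).mul (Pl.red_rs (hkO _ (hprod α))))
      rw [← hΘsum] at h2
      rw [← h1.unique Pl.red_zero]
      exact h2
    have hΘ0 : Θ = 0 := algebraicIndependent_iff.1 hy Θ (dc_inj k hkO hΘk hΘred)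
    have h3 : MvPolynomial.eval w' (Ψ.coeff α) = 0 := by
      have h4 := congrArg (MvPolynomial.coeff α) hΘ0
      rw [hΘ, MvPolynomial.coeff_map, MvPolynomial.coeff_zero] at h4
      exact h4
    have h5 := hcoef (Ψ.coeff α)
    rw [h3, map_zero] at h5
    exact h5
  have hzero : ∀ α, MvPolynomial.aeval w (Ψ.coeff α) = 0 := by
    intro α
    by_contra hne
    obtain ⟨Bad, hBad⟩ := hDZ K k x _ (hwk (Ψ.coeff α)) hne
    obtain ⟨ζ, hζ, hζB⟩ := hS.exists_notMem_finset Bad
    obtain ⟨κ, _, P, hkO, hred, h0⟩ := hclaim α ζ hζ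
    exact hBad κ P ζ (hle (hpl ζ hζ).1) hζB hkO hred h0
  obtain ⟨α, hα⟩ : ∃ α, Ψ.coeff α ≠ 0 := by
    by_contra hc
    push Not at hc
    exact hΨ0 (MvPolynomial.ext _ _ (fun α => by rw [hc α, MvPolynomial.coeff_zero]))
  by_contra hcon
  have hx1 : AlgebraicIndependent k₀ (fun _ : Unit => x) := by
    rw [algebraicIndependent_unique_type_iff]
    exact hx
  have hw : AlgebraicIndependent k₀ w := by
    have h1 := (hx1.option_iff_transcendental μ).2
    apply h1
    rw [Set.range_const]
    exact fun h2 => hcon (IntermediateField.isAlgebraic_adjoin_iff.2 h2)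
  exact hα (algebraicIndependent_iff.1 hw _ (hzero α))

end Pool.Agent.LSF
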