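import Pool.Agent.LSF.DDefs
import Pool.Agent.LenSpec.PlBasic

/-!
DD: an element with the same logarithmic derivative at infinitely many places is a multiple of `x`.

PROOF. Let `Ψ ∈ k₀[X][T]` be a nonzero polynomial in two variables with `Ψ(μ, x) = 0` (`T = μ`, `X = x`) of minimal degree in `T`; then
`Ψ_T(μ, x) ≠ 0` (characteristic zero). Put `h = μ Ψ_T(μ, x) + x Ψ_X(μ, x)`, algebraic over `k₀(x)`.
CLAIM: `P.Red h 0` for all `ζ ∈ S`. The residue map is injective on `k₀` (`a ∈ k₀`, `P.Red a 0` imply `a = 0`). First `P.Red (Ψ(μ,x) - Ψ(ω,ζ)) 0`, so `Ψ(ω, ζ) = 0`.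
Taylor: `0 = Ψ(μ, x) = Ψ_T(ω, ζ)(μ - ω) + Ψ_X(ω, ζ)(x - ζ) + A (μ - ω)² + B (μ - ω)(x - ζ) + C (x - ζ)²` with `A, B, C ∈ O` (polynomials in
`ω, ζ, μ, x` over `k₀`). Divide by `x - ζ` (it is `≠ 0`, `x` is transcendental and `ζ ∈ k₀`): by the hypothesis on
`(μ/ω - 1)/(x/ζ - 1) = (ζ/ω) (μ - ω)/(x - ζ)`, `(μ - ω)/(x - ζ)` reduces to the residue of `ω/ζ`. So `Ψ_T(ω, ζ) ω/ζ + Ψ_X(ω, ζ)`, an element of `k₀`, reduces
to `0` and is `0`; and `P.Red (h - (ω Ψ_T(ω, ζ) + ζ Ψ_X(ω, ζ))) 0`.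
By DZ (`k = k₀`) and `S` infinite: `h = 0`. By R1 there is a derivation `D` of `K` over `ℚ`, zero on `k₀`, with `D x ≠ 0`; replace it by
`(x / D x) • D`: `D x = x`. `0 = D (Ψ(μ, x)) = Ψ_T(μ, x) D μ + Ψ_X(μ, x) x = Ψ_T(μ, x) (D μ - μ)`, so `D μ = μ`, and `D (μ / x) = 0`. Suppose
`c := μ / x ∉ k₀`; then `c` is transcendental over `k₀` and algebraic over `k₀(x)`, so `x` is algebraic over `k₀(c)` (exchange), and a derivation that vanishes on
`k₀(c)` vanishes at `x` (see `RANK.der_alg` in `/team-store/lsf_RANK.lean`; copy it with your prefix): `D x = 0`, a contradiction.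
-/

namespace Pool.Agent.LSF

open Polynomial Pool.Agent.LenSpec

section dd

variable {K κ : Type} [Field K] [Field κ] {P : Pl K κ}

/-- the residue map is injective on a subfield contained in the ring of the place -/
theorem dd_inj [CharZero K] (k : IntermediateField ℚ K) (hk : ∀ a ∈ k, a ∈ P.O) {a : K}
    (ha : a ∈ k) (h : P.Red a 0) : a = 0 := by
  by_contra h0
  have h1 : P.Red a⁻¹ (P.rs a⁻¹) := Pl.red_rs (hk _ (k.inv_mem ha))
  have h2 := h.mul h1
  rw [mul_inv_cancel₀ h0, zero_mul] at h2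
  exact one_ne_zero (Pl.red_one.unique h2)

/-- elements of the maximal ideal -/
theorem dd_mul {a b : K} (ha : P.Red a 0) (hb : b ∈ P.O) : P.Red (a * b) 0 := by
  have h := ha.mul (Pl.red_rs hb)
  rw [zero_mul] at h
  exact h

theorem dd_add {a b : K} (ha : P.Red a 0) (hb : P.Red b 0) : P.Red (a + b) 0 := by
  have h := ha.add hb
  rw [zero_add] at h
  exact h

theorem dd_sub {a b : K} (ha : P.Red a 0) (hb : P.Red b 0) : P.Red (a - b) 0 := by
  have h := ha.sub hb
  rw [sub_zero] at h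
  exact h

/-- Taylor expansion at a place -/
theorem dd_taylor [CharZero K] (k₀ : IntermediateField ℚ K) (hk : ∀ a ∈ k₀, a ∈ P.O)
    (w : Fin 2 → K) (v δ : Fin 2 → k₀) (t : K) (hw : ∀ i, w i ∈ P.O)
    (hwv : ∀ i, P.Red (w i - v i) 0) (hδ : ∀ i, P.Red ((w i - v i) / t - δ i) 0)
    (φ : MvPolynomial (Fin 2) k₀) :
    MvPolynomial.aeval w φ ∈ P.O ∧
    P.Red (MvPolynomial.aeval w φ - (MvPolynomial.eval v φ : k₀)) 0 ∧
    P.Red ((MvPolynomial.aeval w φ - (MvPolynomial.eval v φ : k₀)) / t -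
      ((δ 0 * MvPolynomial.eval v (MvPolynomial.pderiv 0 φ) +
        δ 1 * MvPolynomial.eval v (MvPolynomial.pderiv 1 φ) : k₀) : K)) 0 := by
  induction φ using MvPolynomial.induction_on with
  | C a =>
    rw [MvPolynomial.aeval_C, MvPolynomial.eval_C, MvPolynomial.pderiv_C, MvPolynomial.pderiv_C,
      map_zero, mul_zero, mul_zero, add_zero]
    have h1 : algebraMap k₀ K a - (a : K) = 0 := sub_self _
    rw [h1, zero_div]
    refine ⟨hk _ a.2, Pl.red_zero, ?_⟩
    have h2 : (0 : K) - ((0 : k₀) : K) = 0 := sub_self _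
    rw [h2]
    exact Pl.red_zero
  | add p q hp hq =>
    obtain ⟨p1, p2, p3⟩ := hp
    obtain ⟨q1, q2, q3⟩ := hq
    refine ⟨?_, ?_, ?_⟩
    · rw [map_add]
      exact P.O.add_mem p1 q1
    · have h := dd_add p2 q2
      refine h.eq ?_ rfl
      rw [map_add, map_add]
      push_cast
      ring
    · have h := dd_add p3 q3
      refine h.eq ?_ rfl
      rw [map_add, map_add, map_add, map_add, map_add, map_add]
      push_cast
      ring
  | mul_X p j hp =>
    obtain ⟨p1, p2, p3⟩ := hp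
    have hv : ((v j : k₀) : K) ∈ P.O := hk _ (v j).2
    have hdj : ((δ j : k₀) : K) ∈ P.O := hk _ (δ j).2
    refine ⟨?_, ?_, ?_⟩
    · rw [map_mul, MvPolynomial.aeval_X]
      exact P.O.mul_mem p1 (hw j)
    · have h := dd_add (dd_mul (hwv j) p1) (dd_mul p2 hv)
      refine h.eq ?_ rfl
      rw [map_mul, MvPolynomial.aeval_X, map_mul, MvPolynomial.eval_X]
      push_cast
      ring
    · have h := dd_add (dd_add (dd_mul (hδ j) p1) (dd_mul p2 hdj)) (dd_mul p3 hv)
      refine h.eq ?_ rfl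
      rw [map_mul, MvPolynomial.aeval_X, map_mul, MvPolynomial.eval_X, MvPolynomial.pderiv_mul,
        MvPolynomial.pderiv_mul, map_add, map_add, map_mul, map_mul, map_mul, map_mul,
        MvPolynomial.eval_X]
      have hd : (δ 0 : k₀) * MvPolynomial.eval v (MvPolynomial.pderiv (0 : Fin 2)
            (MvPolynomial.X j : MvPolynomial (Fin 2) k₀)) +
          δ 1 * MvPolynomial.eval v (MvPolynomial.pderiv (1 : Fin 2)
            (MvPolynomial.X j : MvPolynomial (Fin 2) k₀)) = δ j := by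
        fin_cases j
        · simp [MvPolynomial.pderiv_X]
        · simp [MvPolynomial.pderiv_X]
      have hd' : ((δ j : k₀) : K) = ((δ 0 : k₀) : K) * ((MvPolynomial.eval v (MvPolynomial.pderiv (0 : Fin 2)
            (MvPolynomial.X j : MvPolynomial (Fin 2) k₀)) : k₀) : K) +
          ((δ 1 : k₀) : K) * ((MvPolynomial.eval v (MvPolynomial.pderiv (1 : Fin 2)
            (MvPolynomial.X j : MvPolynomial (Fin 2) k₀)) : k₀) : K) := by
        rw [← hd]
        push_cast
        rfl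
      rw [hd']
      push_cast
      ring

end dd

/-- the chain rule -/
theorem dd_chain {K : Type} [Field K] [CharZero K] (k₀ : IntermediateField ℚ K)
    (D : Derivation ℚ K K) (hD : ∀ y ∈ k₀, D y = 0) (w : Fin 2 → K)
    (φ : MvPolynomial (Fin 2) k₀) :
    D (MvPolynomial.aeval w φ) = MvPolynomial.aeval w (MvPolynomial.pderiv 0 φ) * D (w 0) +
      MvPolynomial.aeval w (MvPolynomial.pderiv 1 φ) * D (w 1) := by
  induction φ using MvPolynomial.induction_on with
  | C a =>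
    rw [MvPolynomial.aeval_C, MvPolynomial.pderiv_C, MvPolynomial.pderiv_C, map_zero, zero_mul,
      zero_mul, add_zero]
    exact hD _ a.2
  | add p q hp hq =>
    rw [map_add, map_add, hp, hq, map_add, map_add, map_add, map_add]
    ring
  | mul_X p j hp =>
    have hd : D (w j) = MvPolynomial.aeval w (MvPolynomial.pderiv (0 : Fin 2)
          (MvPolynomial.X j : MvPolynomial (Fin 2) k₀)) * D (w 0) +
        MvPolynomial.aeval w (MvPolynomial.pderiv (1 : Fin 2)
          (MvPolynomial.X j : MvPolynomial (Fin 2) k₀)) * D (w 1) := by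
      fin_cases j
      · simp [MvPolynomial.pderiv_X]
      · simp [MvPolynomial.pderiv_X]
    rw [map_mul, Derivation.leibniz, hp, MvPolynomial.aeval_X, hd, MvPolynomial.pderiv_mul,
      MvPolynomial.pderiv_mul, map_add, map_add, map_mul, map_mul, map_mul, map_mul,
      MvPolynomial.aeval_X, smul_eq_mul, smul_eq_mul]
    ring

/-- a polynomial relation whose derivative does not vanish -/
theorem dd_rel {K : Type} [Field K] [CharZero K] (k₀ : IntermediateField ℚ K) (x μ : K)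
    (hx : Transcendental k₀ x) (hμ : IsAlgebraic (IntermediateField.adjoin k₀ ({x} : Set K)) μ) :
    ∃ Ψ : MvPolynomial (Fin 2) k₀, MvPolynomial.aeval ![x, μ] Ψ = 0 ∧
      MvPolynomial.aeval ![x, μ] (MvPolynomial.pderiv 1 Ψ) ≠ 0 := by
  classical
  have hev : ∀ p : k₀[X][X], MvPolynomial.aeval ![x, μ] (Bivariate.equivMvPolynomial k₀ p) =
      aevalAeval x μ p := by
    intro p
    have h : (MvPolynomial.aeval ![x, μ] : MvPolynomial (Fin 2) k₀ →ₐ[k₀] K).comp
        (Bivariate.equivMvPolynomial k₀ : k₀[X][X] →ₐ[k₀] MvPolynomial (Fin 2) k₀) =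
        aevalAeval x μ := by
      apply (aevalAevalEquiv k₀ K).symm.injective
      simp [aevalAevalEquiv]
    exact congrArg (fun f => f p) h
  have hex : ∃ n : ℕ, ∃ p : k₀[X][X], p ≠ 0 ∧ aevalAeval x μ p = 0 ∧ p.natDegree = n := by
    obtain ⟨q, hq0, hq⟩ := IntermediateField.isAlgebraic_adjoin_iff.1 hμ
    let θ : k₀[X] →+* Algebra.adjoin k₀ ({x} : Set K) :=
      ((aeval (⟨x, Algebra.subset_adjoin rfl⟩ : Algebra.adjoin k₀ ({x} : Set K))) :
        k₀[X] →ₐ[k₀] Algebra.adjoin k₀ ({x} : Set K)).toRingHom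
    have hθ1 : ∀ r, ((θ r : Algebra.adjoin k₀ ({x} : Set K)) : K) = aeval x r := by
      intro r
      have h1 := Polynomial.aeval_algHom_apply (Algebra.adjoin k₀ ({x} : Set K)).val
        (⟨x, Algebra.subset_adjoin rfl⟩ : Algebra.adjoin k₀ ({x} : Set K)) r
      exact h1.symm
    have hθ : Function.Surjective θ := by
      rintro ⟨z, hz⟩
      have hz' := hz
      rw [Algebra.adjoin_singleton_eq_range_aeval] at hz'
      obtain ⟨r, hr⟩ := hz'
      refine ⟨r, Subtype.ext ?_⟩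
      rw [hθ1]
      exact hr
    obtain ⟨p, rfl⟩ := Polynomial.map_surjective θ hθ q
    refine ⟨p.natDegree, p, ?_, ?_, rfl⟩
    · rintro rfl
      exact hq0 (Polynomial.map_zero _)
    · rw [Polynomial.aeval_def, Polynomial.eval₂_map] at hq
      have h2 : (algebraMap (Algebra.adjoin k₀ ({x} : Set K)) K).comp θ =
          (aeval x : k₀[X] →ₐ[k₀] K).toRingHom := by
        apply RingHom.ext
        intro r
        exact hθ1 r
      rw [h2] at hq
      rw [← hev]
      have h3 : ∀ q : k₀[X][X], aevalAeval x μ q =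
          eval₂ (aeval x : k₀[X] →ₐ[k₀] K).toRingHom μ q := by
        intro q
        induction q using Polynomial.induction_on' with
        | add a b ha hb => rw [map_add, Polynomial.eval₂_add, ha, hb]
        | monomial n a =>
          rw [Polynomial.eval₂_monomial, ← Polynomial.C_mul_X_pow_eq_monomial, map_mul, map_pow,
            aevalAeval_C, aevalAeval_Y]
          rfl
      rw [hev, h3]
      exact hq
  obtain ⟨p, hp0, hp, hn⟩ := Nat.find_spec hex
  have hmin : ∀ q : k₀[X][X], q ≠ 0 → aevalAeval x μ q = 0 → p.natDegree ≤ q.natDegree := by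
    intro q h1 h2
    rw [hn]
    exact Nat.find_min' hex ⟨q, h1, h2, rfl⟩
  refine ⟨Bivariate.equivMvPolynomial k₀ p, by rw [hev, hp], ?_⟩
  rw [Bivariate.pderiv_one_equivMvPolynomial, hev]
  intro h0
  have hpos : 0 < p.natDegree := by
    rw [Nat.pos_iff_ne_zero]
    intro h1
    rw [Polynomial.natDegree_eq_zero] at h1
    obtain ⟨r, rfl⟩ := h1
    rw [aevalAeval_C] at hp
    have hr : r ≠ 0 := by
      rintro rfl
      exact hp0 (map_zero _)
    exact hx ⟨r, hr, hp⟩
  have hd : derivative p ≠ 0 := by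
    intro h1
    have h2 := Polynomial.derivative_eq_zero.1 h1
    omega
  have h3 := hmin _ hd h0
  have h4 := Polynomial.natDegree_derivative_lt (p := p) (by omega)
  omega

theorem DD_holds (hDZ : DZS) (hR1 : R1S) : DDS := by
  classical
  intro K _ _ k₀ x μ hk₀ hx hμ S hS hpl
  obtain ⟨Ψ, hΨ, hΨT⟩ := dd_rel k₀ x μ hx hμ
  obtain ⟨h, hh⟩ : ∃ h, h = x * MvPolynomial.aeval ![x, μ] (MvPolynomial.pderiv 0 Ψ) +
      μ * MvPolynomial.aeval ![x, μ] (MvPolynomial.pderiv 1 Ψ) := ⟨_, rfl⟩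
  have hx0 : x ≠ 0 := by
    rintro rfl
    exact hx (isAlgebraic_zero)
  have halg : ∀ φ : MvPolynomial (Fin 2) k₀,
      IsAlgebraic (IntermediateField.adjoin k₀ ({x} : Set K)) (MvPolynomial.aeval ![x, μ] φ) := by
    intro φ
    induction φ using MvPolynomial.induction_on with
    | C a =>
      rw [MvPolynomial.aeval_C]
      exact isAlgebraic_algebraMap (⟨(a : K), (IntermediateField.adjoin k₀ ({x} : Set K)).algebraMap_mem
        a⟩ : IntermediateField.adjoin k₀ ({x} : Set K))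
    | add p q hp hq =>
      rw [map_add]
      exact hp.add hq
    | mul_X p i hp =>
      rw [map_mul, MvPolynomial.aeval_X]
      apply hp.mul
      fin_cases i
      · exact isAlgebraic_algebraMap (⟨x, IntermediateField.subset_adjoin k₀ _ rfl⟩ :
          IntermediateField.adjoin k₀ ({x} : Set K))
      · exact hμ
  have hhalg : IsAlgebraic (IntermediateField.adjoin k₀ ({x} : Set K)) h := by
    rw [hh]
    exact ((isAlgebraic_algebraMap (⟨x, IntermediateField.subset_adjoin k₀ _ rfl⟩ :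
      IntermediateField.adjoin k₀ ({x} : Set K))).mul (halg _)).add (hμ.mul (halg _))
  have hh0 : h = 0 := by
    by_contra hne
    obtain ⟨Bad, hBad⟩ := hDZ K k₀ x h hhalg hne
    obtain ⟨ζ, hζS, hζB⟩ := hS.exists_notMem_finset Bad
    obtain ⟨hζ, hζ0, κ, _, P, hkO, hred, ω, hω, hω0, hμω, hratio⟩ := hpl ζ hζS
    refine hBad κ P ζ hζ hζB hkO hred ?_
    have hxζ : x - ζ ≠ 0 := by
      intro h0
      rw [sub_eq_zero] at h0
      rw [h0] at hx
      exact hx (isAlgebraic_algebraMap (⟨ζ, hζ⟩ : k₀))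
    have hxO : x ∈ P.O := by
      have h1 := P.O.add_mem hred.mem (hkO ζ hζ)
      rw [sub_add_cancel] at h1
      exact h1
    have hμO : μ ∈ P.O := by
      have h1 := P.O.add_mem hμω.mem (hkO ω hω)
      rw [sub_add_cancel] at h1
      exact h1
    have hwO : ∀ i, ![x, μ] i ∈ P.O := by
      intro i
      fin_cases i
      · exact hxO
      · exact hμO
    have hwv : ∀ i, P.Red (![x, μ] i - ((![⟨ζ, hζ⟩, ⟨ω, hω⟩] : Fin 2 → k₀) i : k₀)) 0 := by
      intro i
      fin_cases i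
      · exact hred
      · exact hμω
    have hδ : ∀ i, P.Red ((![x, μ] i - ((![⟨ζ, hζ⟩, ⟨ω, hω⟩] : Fin 2 → k₀) i : k₀)) / (x - ζ) -
        ((![1, ⟨ω / ζ, div_mem hω hζ⟩] : Fin 2 → k₀) i : k₀)) 0 := by
      intro i
      fin_cases i
      · have h1 : (x - ζ) / (x - ζ) - 1 = 0 := by
          rw [div_self hxζ, sub_self]
        exact Pl.red_zero.eq h1.symm rfl
      · have h1 : P.Red ((μ / ω - 1) / (x / ζ - 1) - 1) 0 := by
          have h2 := hratio.sub Pl.red_one
          rw [sub_self] at h2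
          exact h2
        have h3 := dd_mul h1 (hkO _ (div_mem hω hζ))
        refine h3.eq ?_ rfl
        have h4 : x / ζ - 1 ≠ 0 := by
          intro h5
          apply hxζ
          rw [sub_eq_zero, div_eq_one_iff_eq hζ0] at h5
          rw [h5, sub_self]
        change ((μ / ω - 1) / (x / ζ - 1) - 1) * (ω / ζ) = (μ - ω) / (x - ζ) - ω / ζ
        have h6 : μ / ω - 1 = (μ - ω) / ω := by
          rw [sub_div, div_self hω0]
        have h7 : x / ζ - 1 = (x - ζ) / ζ := by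
          rw [sub_div, div_self hζ0]
        rw [h6, h7]
        field_simp
    obtain ⟨-, t1, t2⟩ := dd_taylor (P := P) k₀ hkO ![x, μ] ![⟨ζ, hζ⟩, ⟨ω, hω⟩]
      ![1, ⟨ω / ζ, div_mem hω hζ⟩] (x - ζ) hwO hwv hδ Ψ
    rw [hΨ] at t1 t2
    have e1 : ((MvPolynomial.eval (![⟨ζ, hζ⟩, ⟨ω, hω⟩] : Fin 2 → k₀) Ψ : k₀) : K) = 0 := by
      apply dd_inj k₀ hkO (SetLike.coe_mem _)
      have h1 := t1.neg
      rw [neg_zero, zero_sub, neg_neg] at h1
      exact h1
    rw [e1, sub_zero, zero_div, zero_sub] at t2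
    have e2 := dd_inj k₀ hkO (SetLike.coe_mem _) (by
      have h1 := t2.neg
      rw [neg_zero, neg_neg] at h1
      exact h1)
    obtain ⟨-, a0, -⟩ := dd_taylor (P := P) k₀ hkO ![x, μ] ![⟨ζ, hζ⟩, ⟨ω, hω⟩]
      ![1, ⟨ω / ζ, div_mem hω hζ⟩] (x - ζ) hwO hwv hδ (MvPolynomial.pderiv 0 Ψ)
    obtain ⟨-, a1, -⟩ := dd_taylor (P := P) k₀ hkO ![x, μ] ![⟨ζ, hζ⟩, ⟨ω, hω⟩]
      ![1, ⟨ω / ζ, div_mem hω hζ⟩] (x - ζ) hwO hwv hδ (MvPolynomial.pderiv 1 Ψ)
    obtain ⟨B0, hB0⟩ : ∃ B, B = MvPolynomial.eval (![⟨ζ, hζ⟩, ⟨ω, hω⟩] : Fin 2 → k₀)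
      (MvPolynomial.pderiv 0 Ψ) := ⟨_, rfl⟩
    obtain ⟨B1, hB1⟩ : ∃ B, B = MvPolynomial.eval (![⟨ζ, hζ⟩, ⟨ω, hω⟩] : Fin 2 → k₀)
      (MvPolynomial.pderiv 1 Ψ) := ⟨_, rfl⟩
    rw [← hB0, ← hB1] at e2
    rw [← hB0] at a0
    rw [← hB1] at a1
    have e3 : (B0 : K) + ω / ζ * B1 = 0 := by
      have h1 : (((1 : k₀) * B0 + (⟨ω / ζ, div_mem hω hζ⟩ : k₀) * B1 : k₀) : K) = 0 := e2
      push_cast at h1
      rw [one_mul] at h1
      exact h1
    have e4 : ζ * (B0 : K) + ω * B1 = 0 := by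
      have h1 : ζ * ((B0 : K) + ω / ζ * B1) = ζ * (B0 : K) + ω * B1 := by
        field_simp
      rw [← h1, e3, mul_zero]
    have f := dd_add (dd_add (dd_mul a0 hxO) (dd_mul hred (hkO _ B0.2)))
      (dd_add (dd_mul a1 hμO) (dd_mul hμω (hkO _ B1.2)))
    refine f.eq ?_ rfl
    rw [hh]
    linear_combination -e4
  refine ⟨μ / x, ?_, (div_mul_cancel₀ μ hx0).symm⟩
  apply hk₀
  by_contra hc
  obtain ⟨D, hD0, hDc⟩ := hR1 K k₀ (μ / x) hc
  apply hDc
  have h1 := dd_chain k₀ D hD0 ![x, μ] Ψ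
  rw [hΨ, map_zero] at h1
  rw [hh0] at hh
  have h2 : MvPolynomial.aeval ![x, μ] (MvPolynomial.pderiv 1 Ψ) * (x * D μ - μ * D x) = 0 := by
    have h3 : (![x, μ] : Fin 2 → K) 0 = x := rfl
    have h4 : (![x, μ] : Fin 2 → K) 1 = μ := rfl
    rw [h3, h4] at h1
    linear_combination (-x) * h1 + D x * hh
  have h5 := (mul_eq_zero.1 h2).resolve_left hΨT
  rw [Derivation.leibniz_div, smul_eq_mul, smul_eq_mul, smul_eq_mul, h5, mul_zero]

end Pool.Agent.LSF
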