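import Pool.Agent.LSF.BDefs
import Pool.Agent.LenSpec.GIDefs

/-!
Statements: the parameters of the normal form are algebraic over the multipliers of one period;
comparison of multiplier spectra.
-/

namespace Pool.Agent.LSF

open Polynomial Pool.Agent.LenSpec

/-- the combination of a tangent direction and of the three infinitesimal conjugations -/
noncomputable def cobP {K : Type} [Field K] (d : ℕ) (v δ : VI d → K) (c₀ c₁ c₂ : K) : K[X] :=
  tanP d v δ + C c₀ * ((nQ d v) ^ 2 - EE (nP d v) (nQ d v)) +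
    C c₁ * (nP d v * nQ d v - X * EE (nP d v) (nQ d v)) +
    C c₂ * ((nP d v) ^ 2 - X ^ 2 * EE (nP d v) (nQ d v))

/-- RK1: tangent directions and infinitesimal conjugations are independent -/
def RK1S : Prop := ∀ (K : Type) [Field K] [CharZero K] (d : ℕ) (v δ : VI d → K) (c₀ c₁ c₂ : K),
  Nf d v → cobP d v δ c₀ c₁ c₂ = 0 → δ = 0

/-- RK2: a derivation that kills the coefficients of a conjugate map is an infinitesimal
conjugation -/
def RK2S : Prop := ∀ (K : Type) [Field K] [CharZero K] (d : ℕ) (f g : RatMap K d) (v : VI d → K)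
  (D : Derivation ℚ K K), 2 ≤ d → MobConj f g → g.num = nP d v → g.den = nQ d v →
  (∀ i, D (f.coef i) = 0) → ∃ c₀ c₁ c₂ : K, cobP d v (fun i => D (v i)) c₀ c₁ c₂ = 0

/-- RK3 (from FA1, FA2): the normal form of the generic map -/
def RK3S : Prop := ∀ (K : Type) [Field K] [IsAlgClosed K] [CharZero K] (d : ℕ)
  (f : RatMap K d), Good f → AlgebraicIndependent ℚ f.coef →
  ∃ f₁ : RatMap K d, NF f₁ ∧ MobConj f₁ f ∧ AlgebraicIndependent ℚ (nfc f₁) ∧
    ∀ n, 1 ≤ n → XS f₁.num f₁.den n ⊆ XS f.num f.den n

/-- RANK (from RK1, RK2, RK3, MC2, R1, R5): the parameters are algebraic over the field of the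
multipliers of the points of period `n` -/
def RANKS : Prop := ∀ (K : Type) [Field K] [IsAlgClosed K] [CharZero K] (d n : ℕ)
  (f g : RatMap K d) (v : VI d → K), 2 ≤ d → Good f → AlgebraicIndependent ℚ f.coef →
  MobConj f g → g.num = nP d v → g.den = nQ d v → Nf d v → n.Prime → 5 ≤ n →
  ∀ i, IsAlgebraic (IntermediateField.adjoin ℚ (XS f.num f.den n)) (v i)

/-- XSC (from G2): equal spectra have equal multipliers at the points of exact period `n` -/
def XSCS : Prop := ∀ (K : Type) [Field K] [IsAlgClosed K] (d : ℕ) (f g : RatMap K d),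
  Good f → Good g → (∀ n, 1 ≤ n → f.multSpec n = g.multSpec n) → ∀ n, 1 ≤ n →
  MX d f.num f.den n = MX d g.num g.den n ∧ XS f.num f.den n = XS g.num g.den n

/-- MEM (from G2): the spectrum of prime period is contained in the other one -/
def MEMS : Prop := ∀ (K : Type) [Field K] [IsAlgClosed K] (d p : ℕ) (f g : RatMap K d),
  Good f → Good g → p.Prime → f.multSpec 1 = g.multSpec 1 →
  XS g.num g.den p ⊆ XS f.num f.den p → ∀ x ∈ g.multSpec p, x ∈ f.multSpec p

end Pool.Agent.LSF
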