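import Pool.Agent.LSF.ADefs
import Pool.Agent.LSF.RDefs

/-!
Part D: the multipliers of the fixed points are determined by the multipliers of the points of
period `m` for infinitely many `m`; transfer of genericity. Statements.
-/

namespace Pool.Agent.LSF

open Polynomial Pool.Agent.LenSpec

/-- DZ: a nonzero element is small at finitely many places only -/
def DZS : Prop := ∀ (K : Type) [Field K] [CharZero K] (k : IntermediateField ℚ K) (x h : K),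
  IsAlgebraic (IntermediateField.adjoin k ({x} : Set K)) h → h ≠ 0 →
  ∃ Bad : Finset K, ∀ (κ : Type) [Field κ] (P : Pl K κ) (ζ : K), ζ ∈ k → ζ ∉ Bad →
    (∀ y ∈ k, y ∈ P.O) → P.Red (x - ζ) 0 → ¬ P.Red h 0

/-- DC (from DZ): an element that is constant at infinitely many places `x = ζ` is algebraic over
`k₀(x)` -/
def DCS : Prop := ∀ (K : Type) [Field K] [CharZero K] (k₀ k : IntermediateField ℚ K)
  (ι : Type) (y : ι → K) (x μ : K), k₀ ≤ k → (∀ i, y i ∈ k) →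
  AlgebraicIndependent k₀ y → Transcendental k₀ x →
  IsAlgebraic (IntermediateField.adjoin k₀ (insert x (Set.range y))) μ →
  ∀ S : Set K, S.Infinite → (∀ ζ ∈ S, ζ ∈ k₀ ∧ ∃ (κ : Type) (_ : Field κ) (P : Pl K κ),
    (∀ a ∈ k, a ∈ P.O) ∧ P.Red (x - ζ) 0 ∧ ∃ ω ∈ k₀, P.Red (μ - ω) 0) →
  IsAlgebraic (IntermediateField.adjoin k₀ ({x} : Set K)) μ

/-- DD (from DZ, R1): an element with the same logarithmic derivative at infinitely many places
is a multiple of `x` -/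
def DDS : Prop := ∀ (K : Type) [Field K] [CharZero K] (k₀ : IntermediateField ℚ K) (x μ : K),
  (∀ a : K, IsAlgebraic k₀ a → a ∈ k₀) → Transcendental k₀ x →
  IsAlgebraic (IntermediateField.adjoin k₀ ({x} : Set K)) μ →
  ∀ S : Set K, S.Infinite → (∀ ζ ∈ S, ζ ∈ k₀ ∧ ζ ≠ 0 ∧ ∃ (κ : Type) (_ : Field κ) (P : Pl K κ),
    (∀ a ∈ k₀, a ∈ P.O) ∧ P.Red (x - ζ) 0 ∧ ∃ ω ∈ k₀, ω ≠ 0 ∧ P.Red (μ - ω) 0 ∧
      P.Red ((μ / ω - 1) / (x / ζ - 1)) 1) →
  ∃ c ∈ k₀, μ = c * x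

/-- DP: comparison of the poles of two sums -/
def DPS : Prop := ∀ (K κ : Type) [Field K] [IsAlgClosed K] [Field κ] [CharZero κ] (P : Pl K κ)
  (m n n' : ℕ) (x : Fin n → K) (u : Fin n' → K) (i₀ : Fin n) (ζ : K), 1 ≤ m →
  (∀ i, x i ^ m ≠ 1) → (∀ j, u j ^ m ≠ 1) →
  ∑ i, (1 - x i ^ m)⁻¹ = ∑ j, (1 - u j ^ m)⁻¹ → ζ ^ m = 1 → P.Red (x i₀ - ζ) 0 →
  (∀ i, i ≠ i₀ → ¬ P.Red (x i ^ m) 1) →
  (∃ j, P.Red (u j ^ m) 1) ∧ ∀ j, P.Red (u j ^ m) 1 → (∀ j', j' ≠ j → ¬ P.Red (u j' ^ m) 1) →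
    ∃ ω, ω ^ m = 1 ∧ P.Red (u j - ω) 0 ∧ P.Red ((u j / ω - 1) / (x i₀ / ζ - 1)) 1

/-- DI (from NF1, NF3, NF2, MC2): the multipliers of the fixed points of the generic map -/
def DIS : Prop := ∀ (K : Type) [Field K] [IsAlgClosed K] [CharZero K] (d : ℕ)
  (f : RatMap K d), 2 ≤ d → AlgebraicIndependent ℚ f.coef → (∀ x ∈ f.multSpec 1, x ≠ 1) →
  ∀ x₀ ∈ f.multSpec 1, ∃ x : Fin d → K, f.multSpec 1 = x₀ ::ₘ Finset.univ.val.map x ∧
    AlgebraicIndependent ℚ x ∧ (1 - x₀)⁻¹ + ∑ j, (1 - x j)⁻¹ = 1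

/-- DK (from V1): a place over `x = ζ` -/
def DKS : Prop := ∀ (K : Type) [Field K] [IsAlgClosed K] [CharZero K] (d : ℕ) (x : Fin d → K)
  (i₀ : Fin d), AlgebraicIndependent ℚ x →
  ∃ (k₀ k : IntermediateField ℚ K) (ι : Type) (y : ι → K), (∀ a, a ∈ k₀ ↔ IsAlgebraic ℚ a) ∧
    k₀ ≤ k ∧ (∀ i, y i ∈ k) ∧ AlgebraicIndependent k₀ y ∧ Transcendental k₀ (x i₀) ∧
    (∀ i, i ≠ i₀ → x i ∈ k) ∧
    (∀ μ : K, IsAlgebraic (IntermediateField.adjoin k₀ (insert (x i₀) (Set.range y))) μ) ∧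
    ∀ ζ ∈ k₀, ∃ (κ : Type) (_ : Field κ) (_ : CharZero κ) (P : Pl K κ), (∀ a ∈ k, a ∈ P.O) ∧
      P.Red (x i₀ - ζ) 0

/-- DM (from DC, DD, DP, DI, DK): each multiplier of a fixed point of `f` is one of `g` -/
def DMS : Prop := ∀ (K : Type) [Field K] [IsAlgClosed K] [CharZero K] (d : ℕ)
  (f g : RatMap K d), 2 ≤ d → AlgebraicIndependent ℚ f.coef → AlgebraicIndependent ℚ g.coef →
  (∀ x ∈ f.multSpec 1, x ≠ 1) → (∀ x ∈ g.multSpec 1, x ≠ 1) →
  ∀ M : Set ℕ, M.Infinite → (∀ m ∈ M, m.Prime ∧ (∀ x ∈ f.multSpec 1, x ^ m ≠ 1) ∧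
    (∀ x ∈ g.multSpec 1, x ^ m ≠ 1) ∧ ((f.multSpec 1).map (fun x => (1 - x ^ m)⁻¹)).sum =
      ((g.multSpec 1).map (fun x => (1 - x ^ m)⁻¹)).sum) →
  ∀ x₀ ∈ f.multSpec 1, x₀ ∈ g.multSpec 1

/-- DS (from DM, DI, C2, G2, G1): the multipliers of the fixed points -/
def DSS : Prop := ∀ (K : Type) [Field K] [IsAlgClosed K] [CharZero K] (d : ℕ)
  (f g : RatMap K d), 2 ≤ d → AlgebraicIndependent ℚ f.coef → AlgebraicIndependent ℚ g.coef →
  Good f → Good g → ∀ M : Set ℕ, M.Infinite →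
  (∀ m ∈ M, m.Prime ∧ MX d f.num f.den m = MX d g.num g.den m) → f.multSpec 1 = g.multSpec 1

/-- DX (from G2, A5): the multiset of the multipliers of a map whose different cycles have
different multipliers is determined by the set -/
def DXS : Prop := ∀ (K : Type) [Field K] [IsAlgClosed K] (d n : ℕ) (f g : RatMap K d),
  Good f → Good g → 1 ≤ n →
  (∀ z z', PerX f.num f.den n z → PerX f.num f.den n z' →
      mult f.num f.den n z = mult f.num f.den n z' → ∃ k, z' = (ev f.num f.den)^[k] z) →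
  (∀ z z', PerX g.num g.den n z → PerX g.num g.den n z' →
      mult g.num g.den n z = mult g.num g.den n z' → ∃ k, z' = (ev g.num g.den)^[k] z) →
  XS f.num f.den n = XS g.num g.den n → MX d f.num f.den n = MX d g.num g.den n

/-- DG: an automorphism that maps one transcendence basis to another one -/
def DGS : Prop := ∀ (K : Type) [Field K] [IsAlgClosed K] [CharZero K] (ι : Type)
  (v u : ι → K), AlgebraicIndependent ℚ v → AlgebraicIndependent ℚ u →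
  (∀ i, IsAlgebraic (IntermediateField.adjoin ℚ (Set.range v)) (u i)) →
  (∀ i, IsAlgebraic (IntermediateField.adjoin ℚ (Set.range u)) (v i)) →
  ∃ τ : K ≃+* K, ∀ i, τ (v i) = u i

/-- DH (from DG): genericity passes to `g` -/
def DHS : Prop := ∀ (K : Type) [Field K] [IsAlgClosed K] [CharZero K] (d : ℕ)
  (f f' g' : RatMap K d) (v u : VI d → K), AlgebraicIndependent ℚ f.coef → MobConj f f' →
  f'.num = nP d v → f'.den = nQ d v → g'.num = nP d u → g'.den = nQ d u →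
  AlgebraicIndependent ℚ v → AlgebraicIndependent ℚ u →
  (∀ i, IsAlgebraic (IntermediateField.adjoin ℚ (Set.range v)) (u i)) →
  (∀ i, IsAlgebraic (IntermediateField.adjoin ℚ (Set.range u)) (v i)) →
  ∃ g : RatMap K d, AlgebraicIndependent ℚ g.coef ∧ MobConj g g'

end Pool.Agent.LSF
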