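import Pool.Agent.LSF.DDefs

/-!
DG: an automorphism that maps one transcendence basis to another one.
-/

namespace Pool.Agent.LSF

open Polynomial Pool.Agent.LenSpec

/-- A family with values in an algebraically closed-in-`K` field `F`, over which `F` is algebraic,
is a transcendence basis of `F`. -/
theorem DG_basis {K : Type} [Field K] [CharZero K] {ι : Type} (F : IntermediateField ℚ K)
    (v : ι → K) (hv : AlgebraicIndependent ℚ v) (hF : ∀ i, v i ∈ F)
    (h : ∀ a ∈ F, IsAlgebraic (IntermediateField.adjoin ℚ (Set.range v)) a) :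
    IsTranscendenceBasis ℚ (fun i => (⟨v i, hF i⟩ : F)) := by
  have hval : Function.Injective F.val := fun a b hab => Subtype.ext hab
  have hv' : AlgebraicIndependent ℚ (fun i => (⟨v i, hF i⟩ : F)) := by
    have h1 : AlgebraicIndependent ℚ (F.val ∘ fun i => (⟨v i, hF i⟩ : F)) := hv
    exact (F.val.algebraicIndependent_iff hval).1 h1
  rw [hv'.isTranscendenceBasis_iff_isAlgebraic]
  constructor
  intro a
  by_contra hna
  have h2 : AlgebraicIndependent ℚ (fun o : Option ι => o.elim a (fun i => (⟨v i, hF i⟩ : F))) :=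
    (hv'.option_iff_transcendental a).2 hna
  have h3 : AlgebraicIndependent ℚ (fun o : Option ι => o.elim (a : K) v) := by
    have h4 := (F.val.algebraicIndependent_iff hval).2 h2
    have h5 : (F.val ∘ fun o : Option ι => o.elim a (fun i => (⟨v i, hF i⟩ : F)))
        = fun o : Option ι => o.elim (a : K) v := by
      funext o
      cases o <;> rfl
    rw [h5] at h4
    exact h4
  have h6 : Transcendental (Algebra.adjoin ℚ (Set.range v)) (a : K) :=
    (hv.option_iff_transcendental (a : K)).1 h3
  exact h6 (IntermediateField.isAlgebraic_adjoin_iff.1 (h a a.2))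

theorem DG_equiv {K κ : Type} [Field K] [IsAlgClosed K] [CharZero K] (v w : κ → K)
    (hv : IsTranscendenceBasis ℚ v) (hw : IsTranscendenceBasis ℚ w) :
    ∃ τ : K ≃+* K, ∀ i, τ (v i) = w i := by
  letI := IsAlgClosed.isAlgClosure_of_transcendence_basis v hv
  letI := IsAlgClosed.isAlgClosure_of_transcendence_basis w hw
  let e : Algebra.adjoin ℚ (Set.range v) ≃+* Algebra.adjoin ℚ (Set.range w) :=
    hv.1.aevalEquiv.symm.toRingEquiv.trans hw.1.aevalEquiv.toRingEquiv
  refine ⟨IsAlgClosure.equivOfEquiv K K e, fun i => ?_⟩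
  have h1 := IsAlgClosure.equivOfEquiv_algebraMap K K e (hv.1.aevalEquiv (MvPolynomial.X i))
  have h2 : algebraMap (Algebra.adjoin ℚ (Set.range v)) K (hv.1.aevalEquiv (MvPolynomial.X i))
      = v i := by
    simp
  have h3 : algebraMap (Algebra.adjoin ℚ (Set.range w)) K
      (e (hv.1.aevalEquiv (MvPolynomial.X i))) = w i := by
    have h4 : e (hv.1.aevalEquiv (MvPolynomial.X i)) = hw.1.aevalEquiv (MvPolynomial.X i) := by
      simp only [e]
      change hw.1.aevalEquiv (hv.1.aevalEquiv.symm (hv.1.aevalEquiv (MvPolynomial.X i))) = _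
      rw [AlgEquiv.symm_apply_apply]
    rw [h4]
    simp
  rw [h2, h3] at h1
  exact h1

theorem DG_holds : DGS := by
  intro K _ _ _ ι v u hv hu huv hvu
  set L : IntermediateField ℚ K := IntermediateField.adjoin ℚ (Set.range v) with hL
  set M : IntermediateField ℚ K := IntermediateField.adjoin ℚ (Set.range u) with hM
  set F : IntermediateField ℚ K := (algebraicClosure L K).restrictScalars ℚ with hFdef
  have hFmem : ∀ a, a ∈ F ↔ IsAlgebraic L a := by
    intro a
    rw [hFdef, IntermediateField.mem_restrictScalars, mem_algebraicClosure_iff]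
  have hFv : ∀ i, v i ∈ F := fun i => (hFmem _).2
    (isAlgebraic_algebraMap (⟨v i, IntermediateField.subset_adjoin _ _ ⟨i, rfl⟩⟩ : L))
  have hFu : ∀ i, u i ∈ F := fun i => (hFmem _).2 (huv i)
  have hFu' : ∀ a ∈ F, IsAlgebraic M a := by
    intro a ha
    have h1 : IsAlgebraic L a := (hFmem a).1 ha
    -- `L` is inside the algebraic closure of `M`
    set G : IntermediateField ℚ K := (algebraicClosure M K).restrictScalars ℚ with hGdef
    have hGmem : ∀ a, a ∈ G ↔ IsAlgebraic M a := by
      intro a
      rw [hGdef, IntermediateField.mem_restrictScalars, mem_algebraicClosure_iff]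
    have hLG : L ≤ G := by
      rw [hL, IntermediateField.adjoin_le_iff]
      rintro _ ⟨i, rfl⟩
      exact (hGmem _).2 (hvu i)
    have h2 : IsAlgebraic G a := by
      obtain ⟨p, hp, hpa⟩ := h1
      refine ⟨p.map (IntermediateField.inclusion hLG).toRingHom, ?_, ?_⟩
      · exact (Polynomial.map_ne_zero_iff (IntermediateField.inclusion hLG).toRingHom.injective).2 hp
      · rw [Polynomial.aeval_def, Polynomial.eval₂_map]
        exact hpa
    have h3 : IsAlgebraic (algebraicClosure M K) a := h2
    exact h3.restrictScalars M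
  have hFv' : ∀ a ∈ F, IsAlgebraic L a := fun a ha => (hFmem a).1 ha
  have bv := DG_basis F v hv hFv hFv'
  have bu := DG_basis F u hu hFu hFu'
  obtain ⟨B, hB⟩ := exists_isTranscendenceBasis F K
  have cv := bv.sumElim_comp hB
  have cu := bu.sumElim_comp hB
  obtain ⟨τ, hτ⟩ := DG_equiv _ _ cv cu
  exact ⟨τ, fun i => hτ (Sum.inr i)⟩

end Pool.Agent.LSF
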