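import Pool.Agent.LSF.DDefs
import Pool.Agent.LenSpec.Final

/-!
DH: genericity passes to `g`.

PROOF. DG: `τ : K ≃+* K` with `τ (v i) = u i`. `g := f.mapHom τ`: `g.coef i = τ (f.coef i)`, independent over `ℚ` (`τ` is a `ℚ`-algebra isomorphism: `AlgebraicIndependent.map'` with `τ.toRatAlgEquiv` or similar).
`MobConj (f.mapHom τ) (f'.mapHom τ)` (`Final.mobConj_map`), and `f'.mapHom τ = g'`: `(nP d v).map τ = nP d u`, `(nQ d v).map τ = nQ d u` (`Polynomial.map_sum`, …), equality of `RatMap`s: `GI.eq_of_num_den`.
-/

namespace Pool.Agent.LSF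

open Polynomial Pool.Agent.LenSpec

theorem DH_holds (hDG : DGS) : DHS := by
  intro K _ _ _ d f f' g' v u hf hcf hn hdn hgn hgd hv hu h1 h2
  obtain ⟨τ, hτ⟩ := hDG K (VI d) v u hv hu h1 h2
  refine ⟨f.mapHom (τ : K →+* K), ?_, ?_⟩
  · have h3 : (f.mapHom (τ : K →+* K)).coef = fun i => τ (f.coef i) := by
      funext i
      rcases i with i | i
      · change ((f.num.map (τ : K →+* K)).coeff i) = τ (f.num.coeff i)
        rw [coeff_map]
        rfl
      · change ((f.den.map (τ : K →+* K)).coeff i) = τ (f.den.coeff i)
        rw [coeff_map]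
        rfl
    rw [h3]
    exact hf.map' (f := (τ.toRingHom.toRatAlgHom : K →ₐ[ℚ] K)) τ.injective
  · have h4 : f'.mapHom (τ : K →+* K) = g' := by
      apply GI.eq_of_num_den
      · change f'.num.map (τ : K →+* K) = g'.num
        rw [hn, hgn]
        unfold nP
        rw [Polynomial.map_sum]
        apply Finset.sum_congr rfl
        intro i _
        rw [Polynomial.map_mul, Polynomial.map_pow, map_C, map_X]
        congr 2
        exact hτ _
      · change f'.den.map (τ : K →+* K) = g'.den
        rw [hdn, hgd]
        unfold nQ nR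
        rw [Polynomial.map_add, Polynomial.map_add, Polynomial.map_one, Polynomial.map_pow, map_X,
          Polynomial.map_sum]
        congr 2
        apply Finset.sum_congr rfl
        intro i _
        rw [Polynomial.map_mul, Polynomial.map_pow, map_C, map_X]
        congr 2
        exact hτ _
    rw [← h4]
    exact Final.mobConj_map _ hcf

end Pool.Agent.LSF
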