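import Pool.Agent.LSF.DDefs
import Pool.Agent.LenSpec.Q1

/-!
DI: the multipliers of the fixed points of the generic map.

PROOF. NF1 gives `w`, `ι`, `f₁` with `1 - ∑ ι = (1 - x₀)⁻¹`, `f.multSpec 1 = x₀ ::ₘ {1 - (ι j)⁻¹}`; put `x j = 1 - (ι j)⁻¹`, so `(1 - x j)⁻¹ = ι j`.
NF2 with `a = (w 1 - w 0)⁻¹`, `b = - a w 0`: `f₂` in normal form with `w 0 = 0`, `w 1 = 1`, the same `ι`, conjugate to `f` (MC2). NF3: `NGen`, so `ι` is
algebraically independent (`NGen.indep.comp Sum.inl`); `ι j` is in `ℚ(x)`, so `x` is independent (`Q1.indep_of_alg` in `Pool/Agent/LenSpec/Q1.lean`). See the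
beginning of `GI_holds` (`Pool/Agent/LenSpec/GI.lean`) for the normalisation.
-/

namespace Pool.Agent.LSF

open Polynomial Pool.Agent.LenSpec

theorem DI_holds (hNF1 : NF1S) (hNF2 : NF2S) (hNF3 : NF3S) (hMC2 : MC2S) : DIS := by
  intro K _ _ _ d f hd hf hx x₀ hx₀
  have hd1 : 1 ≤ d := by omega
  obtain ⟨hrefl, hsymm, htrans⟩ := hMC2 K d hd1
  obtain ⟨w, ι, f₁, hw, hι, hnf, hcf, hsum, hspec⟩ := hNF1 K d f hd hx x₀ hx₀
  set i0 : Fin d := ⟨0, by omega⟩ with hi0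
  set i1 : Fin d := ⟨1, by omega⟩ with hi1
  have h01 : w i1 - w i0 ≠ 0 := by
    rw [sub_ne_zero]
    intro h
    have := hw h
    rw [hi0, hi1, Fin.mk.injEq] at this
    omega
  have ha : (w i1 - w i0)⁻¹ ≠ 0 := inv_ne_zero h01
  obtain ⟨f₂, hnf₂, hcf₂⟩ := hNF2 K d f₁ w ι (w i1 - w i0)⁻¹ (-((w i1 - w i0)⁻¹ * w i0)) hd1 ha
    hw hι hnf
  set w₂ : Fin d → K := fun j => (w i1 - w i0)⁻¹ * w j + -((w i1 - w i0)⁻¹ * w i0) with hw₂
  have hw20 : w₂ i0 = 0 := by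
    rw [hw₂]
    simp
  have hw21 : w₂ i1 = 1 := by
    rw [hw₂]
    simp only
    field_simp
    ring
  have hcff₂ : MobConj f f₂ := htrans _ _ _ hcf hcf₂
  have hgen : NGen hd w₂ ι := hNF3 K d hd f f₂ w₂ ι hf hcff₂ hnf₂ hw20 hw21
  have hind : AlgebraicIndependent ℚ ι := hgen.indep.comp Sum.inl Sum.inl_injective
  refine ⟨fun j => 1 - (ι j)⁻¹, hspec, ?_, ?_⟩
  · apply Q1.indep_of_alg hind
    intro j
    have h1 : IsAlgebraic (Algebra.adjoin ℚ (Set.range fun j => 1 - (ι j)⁻¹)) (1 - (ι j)⁻¹) :=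
      isAlgebraic_algebraMap (⟨_, Algebra.subset_adjoin ⟨j, rfl⟩⟩ :
        Algebra.adjoin ℚ (Set.range fun j => 1 - (ι j)⁻¹))
    have h2 : ι j = (1 - (1 - (ι j)⁻¹))⁻¹ := by
      rw [sub_sub_cancel, inv_inv]
    rw [h2]
    exact (isAlgebraic_one.sub h1).inv
  · have h3 : ∑ j, (1 - (1 - (ι j)⁻¹))⁻¹ = ∑ j, ι j := by
      apply Finset.sum_congr rfl
      intro j _
      rw [sub_sub_cancel, inv_inv]
    rw [h3, ← hsum, sub_add_cancel]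

end Pool.Agent.LSF
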