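import Pool.Agent.LSF.DDefs
import Pool.Agent.LenSpec.Q1
import Pool.Agent.LenSpec.PlBasic

/-!
DK: a place over `x = ζ`.
-/

namespace Pool.Agent.LSF

open Polynomial Pool.Agent.LenSpec

theorem DK_holds (hV1 : V1S) : DKS := by
  classical
  intro K _ _ _ d x i₀ hx
  set k₀ : IntermediateField ℚ K := algebraicClosure ℚ K with hk₀
  have hx₀ : AlgebraicIndependent k₀ x := hx.algebraicClosure
  obtain ⟨B, hB1, hB2⟩ := exists_isTranscendenceBasis_superset (R := k₀) (s := Set.range x)
    hx₀.to_subtype_range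
  set B₀ : Set K := B \ {x i₀} with hB₀
  set L : IntermediateField k₀ K := IntermediateField.adjoin k₀ B₀ with hL
  have hmemB : x i₀ ∈ B := hB1 ⟨i₀, rfl⟩
  have hinj := hx.injective
  have htr : AlgebraicIndependent L (fun _ : Unit => x i₀) := by
    rw [hL, IntermediateField.algebraicIndependent_adjoin_iff,
      algebraicIndependent_unique_type_iff]
    have h1 := hB2.1.transcendental_adjoin (s := {b : B | (b : K) ∈ B₀}) (i := ⟨x i₀, hmemB⟩)
      (by
        intro h
        exact h.2 rfl)
    have h2 : (Subtype.val : B → K) '' {b : B | (b : K) ∈ B₀} = B₀ := by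
      ext z
      constructor
      · rintro ⟨b, hb, rfl⟩
        exact hb
      · intro hz
        exact ⟨⟨z, hz.1⟩, hz, rfl⟩
    rw [h2] at h1
    exact h1
  have hle : k₀ ≤ L.restrictScalars ℚ := by
    intro a ha
    exact L.algebraMap_mem ⟨a, ha⟩
  have hBL : ∀ b ∈ B₀, b ∈ L := fun b hb => IntermediateField.subset_adjoin k₀ B₀ hb
  refine ⟨k₀, L.restrictScalars ℚ, B₀, Subtype.val, ?_, hle, fun i => hBL i i.2, ?_,
    hx₀.transcendental i₀, ?_, ?_, ?_⟩
  · intro a
    rw [hk₀, mem_algebraicClosure_iff]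
  · exact hB2.1.comp (fun b : B₀ => (⟨b.1, b.2.1⟩ : B)) (by
      intro a b hab
      exact Subtype.ext (congrArg (fun z : B => (z : K)) hab))
  · intro i hi
    refine hBL _ ⟨hB1 ⟨i, rfl⟩, ?_⟩
    intro h
    exact hi (hinj h)
  · intro μ
    have h1 := hB2.isAlgebraic
    rw [Subtype.range_val] at h1
    rw [Subtype.range_val]
    set M : IntermediateField k₀ K := IntermediateField.adjoin k₀ (insert (x i₀) B₀) with hM
    have h2 : Algebra.adjoin k₀ B ≤ M.toSubalgebra := by
      rw [Algebra.adjoin_le_iff]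
      intro z hz
      change z ∈ M
      apply IntermediateField.subset_adjoin
      by_cases h : z = x i₀
      · exact Or.inl h
      · exact Or.inr ⟨hz, h⟩
    let _ : Algebra (Algebra.adjoin k₀ B) M := (Subalgebra.inclusion h2).toRingHom.toAlgebra
    have : IsScalarTower (Algebra.adjoin k₀ B) M K := IsScalarTower.of_algebraMap_eq (congrFun rfl)
    exact (h1.isAlgebraic μ).extendScalars (Subalgebra.inclusion_injective h2)
  · intro ζ hζ
    obtain ⟨κ, i1, i2, p, -, hkO, hred⟩ := hV1 K (L.restrictScalars ℚ) Unit (fun _ => x i₀)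
      (fun _ => ζ) htr (fun _ => hle hζ)
    exact ⟨κ, i1, i2, p, hkO, hred ()⟩

end Pool.Agent.LSF
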