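import Pool.Agent.LSF.DDefs
import Pool.Agent.LenSpec.Q1
import Pool.Agent.LenSpec.PlBasic

/-!
DM: each multiplier of a fixed point of `f` is one of `g`.

PROOF. `f.multSpec 1` and `g.multSpec 1` have `d + 1 ≥ 3` elements (DI). Let `x₀ ∈ f.multSpec 1`, choose `x₁` with `f.multSpec 1 = x₀ ::ₘ x₁ ::ₘ rest`. DI for `x₁`:
`f.multSpec 1 = x₁ ::ₘ {λ j}`, `λ : Fin d → K` independent, so `{λ j} = x₀ ::ₘ rest` and `x₀ = λ i₀`. DK for `λ`, `i₀`: `k₀, k, y`; write `x = x₀`.
For `m ∈ M` let `ζ_m` be a primitive `m`-th root of unity in `K` (`m` prime, so `ζ_m ≠ 1`; `ζ_m ∈ k₀`), `P_m` the place over `x = ζ_m` of DK. Enumerate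
`g.multSpec 1 = {u j}`, `u : Fin (d+1) → K`. DP with the family `Fin.cons x₁ λ`, `i₀.succ`: for `i ≠ i₀`: `λ i ∈ k`, `(λ i)^m ≠ 1`, and the residue map is injective on `k`, so `¬ P.Red (λ i ^ m) 1`.
For `x₁`: `(1 - x₁)⁻¹ = 1 - ∑ (1 - λ j)⁻¹` reduces to the residue of `s = 1 - (1 - ζ)⁻¹ - ∑_{j ≠ i₀} (1 - λ j)⁻¹ ∈ k`; `s` is transcendental over `ℚ` (`d ≥ 2`: a nonempty sum of
members of an independent family, plus an algebraic number), so `s ≠ 0`, `x₁ → 1 - 1/s`, and `(1 - 1/s)^m ≠ 1` in `k`; hence `¬ P.Red (x₁ ^ m) 1`.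
So for every `m ∈ M` there is `j` with `P_m.Red (u j ^ m) 1`; `J j := {m ∈ M | P_m.Red (u j ^ m) 1}`. Pigeonhole: some `J j` is infinite. If `J j` is infinite then `u j` is algebraic over `k₀(x)`: DC with
`S = {ζ_m | m ∈ J j}` (infinite: `m` is the order of `ζ_m`), `ω` = the `m`-th root of unity with `P.Red (u j - ω) 0` (it exists as in DP: `∏ (u j - ω) = (u j)^m - 1 → 0`; it is in `k₀`).
If `J j` and `J j'`, `j ≠ j'`, were both infinite, `u j` and `u j'` would both be algebraic over `k₀(x)`, so `![u j, u j']` would not be independent over `ℚ`; but by DI for `g` and the element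
`u j''`, `j'' ≠ j, j'` (`d + 1 ≥ 3`), the `u i`, `i ≠ j''`, are independent (the multisets `{u i | i ≠ j''}` and `{y i}` of DI agree, so there is a bijection). So exactly one `J j` is infinite, and for all `m ∈ J j`
outside a finite set `j` is the only index with `P_m.Red (u j ^ m) 1`: DP gives `ω_m` and the quotient. DD (`S` = the `ζ_m` for these `m`): `u j = c x`, `c ∈ k₀`. Then `c x → c ζ_m` and `u j → ω_m`, so `c ζ_m = ω_m` (injectivity on `k₀`),
`c^m = 1` for at least two primes `m`: `c = 1`. So `x₀ = u j ∈ g.multSpec 1`.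
-/

namespace Pool.Agent.LSF

open Polynomial Pool.Agent.LenSpec

namespace DM

/-! ### algebraic elements -/

theorem alg_sub {K R₁ R₂ : Type} [Field K] [CommRing R₁] [CommRing R₂] [Algebra R₁ K]
    [Algebra R₂ K] (hinj : Function.Injective (algebraMap R₁ K))
    (h : ∀ a : R₁, ∃ b : R₂, algebraMap R₂ K b = algebraMap R₁ K a) {μ : K}
    (hμ : IsAlgebraic R₁ μ) : IsAlgebraic R₂ μ := by
  obtain ⟨p, hp, hpe⟩ := hμ
  have hq : p.map (algebraMap R₁ K) ≠ 0 := (Polynomial.map_ne_zero_iff hinj).2 hp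
  have hl : p.map (algebraMap R₁ K) ∈ Polynomial.lifts (algebraMap R₂ K) := by
    rw [Polynomial.lifts_iff_coeff_lifts]
    intro n
    rw [Polynomial.coeff_map]
    obtain ⟨b, hb⟩ := h (p.coeff n)
    exact ⟨b, hb⟩
  obtain ⟨r, hr⟩ := (Polynomial.mem_lifts _).1 hl
  refine ⟨r, ?_, ?_⟩
  · rintro rfl
    apply hq
    rw [← hr, Polynomial.map_zero]
  · rw [Polynomial.aeval_def, ← Polynomial.eval_map, hr, Polynomial.eval_map,
      ← Polynomial.aeval_def, hpe]

theorem cl {K : Type} [Field K] [CharZero K] (k₀ : IntermediateField ℚ K)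
    (hk₀ : ∀ a, a ∈ k₀ ↔ IsAlgebraic ℚ a) (x μ : K)
    (hμ : IsAlgebraic (IntermediateField.adjoin k₀ ({x} : Set K)) μ) :
    IsAlgebraic (IntermediateField.adjoin ℚ ({x} : Set K)) μ := by
  obtain ⟨A, hA⟩ : ∃ A : IntermediateField (IntermediateField.adjoin ℚ ({x} : Set K)) K,
    A = algebraicClosure (IntermediateField.adjoin ℚ ({x} : Set K)) K := ⟨_, rfl⟩
  have hmem : ∀ a, a ∈ A ↔ IsAlgebraic (IntermediateField.adjoin ℚ ({x} : Set K)) a := by
    intro a
    rw [hA]
    exact mem_algebraicClosure_iff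
  have hk : ∀ a ∈ k₀, a ∈ A := by
    intro a ha
    rw [hmem]
    exact ((hk₀ a).1 ha).tower_top _
  have hx : x ∈ A := by
    rw [hmem]
    exact isAlgebraic_algebraMap
      (⟨x, IntermediateField.subset_adjoin ℚ _ (Set.mem_singleton x)⟩ :
        IntermediateField.adjoin ℚ ({x} : Set K))
  have hsub : ∀ a ∈ IntermediateField.adjoin k₀ ({x} : Set K), a ∈ A := by
    intro a ha
    induction ha using IntermediateField.adjoin_induction with
    | mem y hy =>
      rw [Set.mem_singleton_iff.1 hy]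
      exact hx
    | algebraMap y => exact hk _ y.2
    | add y z _ _ hy hz => exact A.add_mem hy hz
    | inv y _ hy => exact A.inv_mem hy
    | mul y z _ _ hy hz => exact A.mul_mem hy hz
  have h1 : IsAlgebraic A μ := by
    apply alg_sub (R₁ := IntermediateField.adjoin k₀ ({x} : Set K)) (R₂ := A)
      (fun a b h => Subtype.ext h) _ hμ
    intro a
    exact ⟨⟨a, hsub a a.2⟩, rfl⟩
  have halg : Algebra.IsAlgebraic (IntermediateField.adjoin ℚ ({x} : Set K)) A := by
    rw [hA]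
    exact algebraicClosure.isAlgebraic _ _
  exact h1.restrictScalars (IntermediateField.adjoin ℚ ({x} : Set K))

theorem two {K : Type} [Field K] [CharZero K] (x a b : K)
    (hab : AlgebraicIndependent ℚ ![a, b])
    (ha : IsAlgebraic (IntermediateField.adjoin ℚ ({x} : Set K)) a)
    (hb : IsAlgebraic (IntermediateField.adjoin ℚ ({x} : Set K)) b) : False := by
  have hI : (AlgebraicIndependent.matroid ℚ K).Indep (Set.range ![a, b]) :=
    AlgebraicIndependent.matroid_indep_iff.2 hab.to_subtype_range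
  have hsub : Set.range ![a, b] ⊆ (AlgebraicIndependent.matroid ℚ K).closure ({x} : Set K) := by
    rw [AlgebraicIndependent.matroid_closure_eq]
    rintro _ ⟨i, rfl⟩
    fin_cases i
    · exact IntermediateField.isAlgebraic_adjoin_iff.1 ha
    · exact IntermediateField.isAlgebraic_adjoin_iff.1 hb
  have h1 := hI.encard_le_eRk_of_subset hsub
  rw [Matroid.eRk_closure_eq] at h1
  have h2 := Matroid.eRk_le_encard (AlgebraicIndependent.matroid ℚ K) ({x} : Set K)
  have h3 : (Set.range ![a, b]).encard = ENat.card (Fin 2) := by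
    rw [← Set.image_univ, hab.injective.encard_image, Set.encard_univ]
  rw [h3, ENat.card_eq_coe_natCard, Nat.card_fin] at h1
  rw [Set.encard_singleton] at h2
  have h4 : ((2 : ℕ) : ℕ∞) ≤ 1 := h1.trans h2
  exact absurd h4 (by decide)

theorem trans {K : Type} [Field K] [CharZero K] {d : ℕ} (l : Fin d → K)
    (hl : AlgebraicIndependent ℚ l) (i₀ j₁ : Fin d) (hij : j₁ ≠ i₀) :
    ¬ IsAlgebraic ℚ (∑ j ∈ Finset.univ.erase i₀, (1 - l j)⁻¹) := by
  classical
  obtain ⟨t, ht⟩ : ∃ t, t = ∑ j ∈ Finset.univ.erase i₀, (1 - l j)⁻¹ := ⟨_, rfl⟩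
  rw [← ht]
  have h1 : AlgebraicIndependent ℚ (Function.update l j₁ t) := by
    apply Q1.indep_of_alg hl
    intro i
    have hmem : ∀ j, j ≠ j₁ →
        l j ∈ IntermediateField.adjoin ℚ (Set.range (Function.update l j₁ t)) := by
      intro j hj
      apply IntermediateField.subset_adjoin
      exact ⟨j, Function.update_of_ne hj _ _⟩
    have htm : t ∈ IntermediateField.adjoin ℚ (Set.range (Function.update l j₁ t)) := by
      apply IntermediateField.subset_adjoin
      exact ⟨j₁, Function.update_self _ _ _⟩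
    rw [← IntermediateField.isAlgebraic_adjoin_iff]
    by_cases hi : i = j₁
    · subst hi
      have h2 : (1 - l i)⁻¹ = t - ∑ j ∈ (Finset.univ.erase i₀).erase i, (1 - l j)⁻¹ := by
        rw [ht, ← Finset.add_sum_erase _ _ (Finset.mem_erase.2 ⟨hij, Finset.mem_univ i⟩)]
        ring
      have h3 : (1 - l i)⁻¹ ∈
          IntermediateField.adjoin ℚ (Set.range (Function.update l i t)) := by
        rw [h2]
        apply sub_mem htm
        apply sum_mem
        intro j hj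
        apply inv_mem
        exact sub_mem (one_mem _) (hmem j (Finset.ne_of_mem_erase hj))
      have h4 : l i ∈ IntermediateField.adjoin ℚ (Set.range (Function.update l i t)) := by
        have h5 := inv_mem h3
        rw [inv_inv] at h5
        have h6 := sub_mem (one_mem _) h5
        rwa [sub_sub_cancel] at h6
      exact isAlgebraic_algebraMap (⟨l i, h4⟩ :
        IntermediateField.adjoin ℚ (Set.range (Function.update l i t)))
    · exact isAlgebraic_algebraMap (⟨l i, hmem i hi⟩ :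
        IntermediateField.adjoin ℚ (Set.range (Function.update l j₁ t)))
  have h2 := h1.transcendental j₁
  rw [Function.update_self] at h2
  exact h2

/-! ### places -/

section pl

variable {K κ : Type} [Field K] [Field κ] {P : Pl K κ}

/-- the residue map is injective on a subfield of the ring of the place -/
theorem inj {k : Set K} (hinv : ∀ a ∈ k, a⁻¹ ∈ k) (hO : ∀ a ∈ k, a ∈ P.O) {a : K} (ha : a ∈ k)
    (h : P.Red a 0) : a = 0 := by
  by_contra h0
  have h1 : P.Red a⁻¹ (P.rs a⁻¹) := Pl.red_rs (hO _ (hinv a ha))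
  have h2 := h.mul h1
  rw [mul_inv_cancel₀ h0, zero_mul] at h2
  exact one_ne_zero (Pl.red_one.unique h2)

theorem root [IsAlgClosed K] [CharZero K] {m : ℕ} (hm : 0 < m) {ζ : K}
    (hζ : IsPrimitiveRoot ζ m) {u : K} (hu : P.Red (u ^ m) 1) :
    ∃ ω, ω ^ m = 1 ∧ P.Red (u - ω) 0 := by
  classical
  have huO : u ∈ P.O := by
    by_contra hc
    have h1 := (Pl.not_mem_inv hc).pow m
    have h2 := hu.mul h1
    have hu0 : u ^ m ≠ 0 := hu.ne_zero one_ne_zero
    rw [inv_pow, mul_inv_cancel₀ hu0, zero_pow hm.ne', mul_zero] at h2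
    exact one_ne_zero (Pl.red_one.unique h2)
  have hωO : ∀ ω ∈ nthRootsFinset m (1 : K), ω ∈ P.O := by
    intro ω hω
    have hω1 : ω ^ m = 1 := by rwa [mem_nthRootsFinset hm] at hω
    by_contra hc
    have h1 := (Pl.not_mem_inv hc).pow m
    rw [inv_pow, hω1, inv_one, zero_pow hm.ne'] at h1
    exact one_ne_zero (Pl.red_one.unique h1)
  have hprod : u ^ m - 1 = ∏ ω ∈ nthRootsFinset m (1 : K), (u - ω) := by
    have h1 := X_pow_sub_one_eq_prod hm hζ
    have h2 := congrArg (Polynomial.eval u) h1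
    rw [eval_sub, eval_pow, eval_X, eval_one, eval_prod] at h2
    rw [h2]
    apply Finset.prod_congr rfl
    intro ω _
    rw [eval_sub, eval_X, eval_C]
  have h3 : P.Red (∏ ω ∈ nthRootsFinset m (1 : K), (u - ω))
      (∏ ω ∈ nthRootsFinset m (1 : K), P.rs (u - ω)) :=
    Pl.red_prod _ (fun ω hω => Pl.red_rs (P.O.sub_mem huO (hωO ω hω)))
  rw [← hprod] at h3
  have h4 : P.Red (u ^ m - 1) 0 := by
    have := hu.sub Pl.red_one
    rwa [sub_self] at this
  have h5 := h3.unique h4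
  obtain ⟨ω, hω, hω0⟩ := Finset.prod_eq_zero_iff.1 h5
  refine ⟨ω, by rwa [mem_nthRootsFinset hm] at hω, ?_⟩
  have h6 : P.Red (u - ω) (P.rs (u - ω)) := Pl.red_rs (P.O.sub_mem huO (hωO ω hω))
  rwa [hω0] at h6

end pl

/-- a place with a residue field of characteristic zero -/
structure PlC (K : Type) [Field K] where
  /-- the residue field -/
  κ : Type
  [fld : Field κ]
  [cz : CharZero κ]
  /-- the place -/
  P : Pl K κ

attribute [instance] PlC.fld PlC.cz

/-! ### multisets -/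

theorem cons_enum {K : Type} {n : ℕ} (a : K) (y : Fin n → K) :
    (Finset.univ : Finset (Fin (n + 1))).val.map (Fin.cons a y : Fin (n + 1) → K) =
      a ::ₘ Finset.univ.val.map y := by
  rw [Fin.univ_val_map, Fin.univ_val_map, List.ofFn_succ]
  simp

theorem exists_mult {K : Type} [Field K] [IsAlgClosed K] {d : ℕ} (g : RatMap K d) :
    ∃ x, x ∈ g.multSpec 1 := by
  unfold RatMap.multSpec fixMult
  by_cases h : ((iter d g.num g.den 1).1 - X * (iter d g.num g.den 1).2).natDegree = 0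
  · refine ⟨multInf (iter d g.num g.den 1).1 (iter d g.num g.den 1).2, ?_⟩
    rw [h, Multiset.mem_add]
    right
    rw [Multiset.mem_replicate]
    exact ⟨by omega, rfl⟩
  · have h1 : Multiset.card ((iter d g.num g.den 1).1 - X * (iter d g.num g.den 1).2).roots ≠
        0 := by
      rw [IsAlgClosed.card_roots_eq_natDegree]
      exact h
    obtain ⟨z, hz⟩ := Multiset.card_pos_iff_exists_mem.1 (Nat.pos_of_ne_zero h1)
    exact ⟨_, Multiset.mem_add.2 (Or.inl (Multiset.mem_map_of_mem _ hz))⟩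

/-- two different members of an enumeration of the multipliers are independent -/
theorem pair {K : Type} [Field K] [IsAlgClosed K] [CharZero K] {d : ℕ} (hDI : DIS)
    (g : RatMap K d) (hd : 2 ≤ d) (hg : AlgebraicIndependent ℚ g.coef)
    (hg1 : ∀ x ∈ g.multSpec 1, x ≠ 1) (u : Fin (d + 1) → K)
    (hu : g.multSpec 1 = Finset.univ.val.map u) (j j' : Fin (d + 1)) (hjj : j ≠ j') :
    AlgebraicIndependent ℚ ![u j, u j'] := by
  classical
  obtain ⟨i, hi⟩ : ∃ i : Fin (d + 1), i ∉ ({j, j'} : Finset (Fin (d + 1))) := by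
    by_contra hcon
    push Not at hcon
    have h1 : (Finset.univ : Finset (Fin (d + 1))) ⊆ {j, j'} := fun i _ => hcon i
    have h2 := Finset.card_le_card h1
    rw [Finset.card_univ, Fintype.card_fin] at h2
    have h3 : ({j, j'} : Finset (Fin (d + 1))).card ≤ 2 := Finset.card_le_two
    omega
  have hij : i ≠ j := by
    rintro rfl
    exact hi (Finset.mem_insert_self _ _)
  have hij' : i ≠ j' := by
    rintro rfl
    exact hi (Finset.mem_insert_of_mem (Finset.mem_singleton_self _))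
  have hmem : ∀ i, u i ∈ g.multSpec 1 := by
    intro i
    rw [hu]
    exact Multiset.mem_map_of_mem _ (Finset.mem_univ i)
  obtain ⟨y, hy, hyi, -⟩ := hDI K d g hd hg hg1 (u i) (hmem i)
  have h1 : (Finset.univ : Finset (Fin (d + 1))).val = i ::ₘ (Finset.univ.erase i).val := by
    rw [← Finset.insert_val_of_notMem (Finset.notMem_erase i _),
      Finset.insert_erase (Finset.mem_univ i)]
  have h2 : (Finset.univ.erase i).val.map u = Finset.univ.val.map y := by
    rw [hu, h1, Multiset.map_cons] at hy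
    exact (Multiset.cons_inj_right _).1 hy
  have h3 : ((Finset.univ.erase i).val.map u).Nodup := by
    rw [h2]
    exact Finset.univ.nodup.map hyi.injective
  have h4 := Multiset.inj_on_of_nodup_map h3
  have hu' : ∀ j, j ≠ i → ∃ a, y a = u j := by
    intro j hj
    have h5 : u j ∈ (Finset.univ.erase i).val.map u :=
      Multiset.mem_map_of_mem _ (Finset.mem_erase.2 ⟨hj, Finset.mem_univ j⟩)
    rw [h2] at h5
    obtain ⟨a, _, ha⟩ := Multiset.mem_map.1 h5
    exact ⟨a, ha⟩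
  obtain ⟨a, ha⟩ := hu' j hij.symm
  obtain ⟨b, hb⟩ := hu' j' hij'.symm
  have hab : a ≠ b := by
    rintro rfl
    apply hjj
    exact h4 j (Finset.mem_erase.2 ⟨hij.symm, Finset.mem_univ j⟩) j'
      (Finset.mem_erase.2 ⟨hij'.symm, Finset.mem_univ j'⟩) (by rw [← ha, ← hb])
  have h6 := hyi.comp (![a, b] : Fin 2 → Fin d) (by
    intro p q hpq
    fin_cases p <;> fin_cases q
    · rfl
    · exact absurd hpq hab
    · exact absurd (Eq.symm hpq) hab
    · rfl)
  convert h6 using 1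
  ext p
  fin_cases p
  · exact ha.symm
  · exact hb.symm

end DM

theorem DM_holds (hDC : DCS) (hDD : DDS) (hDP : DPS) (hDI : DIS) (hDK : DKS) : DMS := by
  classical
  intro K _ _ _ d f g hd hf hg hf1 hg1 M hM hMp x₀ hx₀
  -- the multipliers of `f`
  obtain ⟨x', hx', -, -⟩ := hDI K d f hd hf hf1 x₀ hx₀
  obtain ⟨x₁, hx₁⟩ : ∃ x₁, x₁ = x' ⟨0, by omega⟩ := ⟨_, rfl⟩
  have hx₁m : x₁ ∈ Finset.univ.val.map x' := by
    rw [hx₁]
    exact Multiset.mem_map.2 ⟨_, Finset.mem_univ_val _, rfl⟩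
  have hx₁f : x₁ ∈ f.multSpec 1 := by
    rw [hx']
    exact Multiset.mem_cons_of_mem hx₁m
  obtain ⟨l, hl, hli, hlsum⟩ := hDI K d f hd hf hf1 x₁ hx₁f
  obtain ⟨i₀, hi₀⟩ : ∃ i₀, l i₀ = x₀ := by
    obtain ⟨rest, hrest⟩ := Multiset.exists_cons_of_mem hx₁m
    rw [hrest, Multiset.cons_swap, hl] at hx'
    have h1 := (Multiset.cons_inj_right _).1 hx'
    have h2 : x₀ ∈ Finset.univ.val.map l := by
      rw [h1]
      exact Multiset.mem_cons_self _ _
    obtain ⟨i₀, _, hi₀⟩ := Multiset.mem_map.1 h2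
    exact ⟨i₀, hi₀⟩
  have hfenum : f.multSpec 1 = Finset.univ.val.map (Fin.cons x₁ l : Fin (d + 1) → K) := by
    rw [hl, DM.cons_enum]
  -- the multipliers of `g`
  obtain ⟨u₀, hu₀⟩ := DM.exists_mult g
  obtain ⟨u', hu', -, -⟩ := hDI K d g hd hg hg1 u₀ hu₀
  obtain ⟨u, hu⟩ : ∃ u : Fin (d + 1) → K, g.multSpec 1 = Finset.univ.val.map u :=
    ⟨Fin.cons u₀ u', by rw [hu', DM.cons_enum]⟩
  have hum : ∀ j, u j ∈ g.multSpec 1 := by
    intro j
    rw [hu]
    exact Multiset.mem_map_of_mem _ (Finset.mem_univ j)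
  have hxm : ∀ i, (Fin.cons x₁ l : Fin (d + 1) → K) i ∈ f.multSpec 1 := by
    intro i
    rw [hfenum]
    exact Multiset.mem_map_of_mem _ (Finset.mem_univ i)
  -- the places
  obtain ⟨k₀, k, ι, y, hk₀, hk₀k, hyk, hyi, hxtr, hlk, hμalg, hpl⟩ := hDK K d l i₀ hli
  rw [hi₀] at hxtr hμalg hpl
  have hk₀O : ∀ (Q : DM.PlC K), (∀ a ∈ k, a ∈ Q.P.O) → ∀ a ∈ k₀, a ∈ Q.P.O :=
    fun Q h a ha => h a (hk₀k ha)
  have hinjk : ∀ (Q : DM.PlC K), (∀ a ∈ k, a ∈ Q.P.O) → ∀ a ∈ k, Q.P.Red a 0 → a = 0 := by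
    intro Q h a ha hr
    exact DM.inj (k := (k : Set K)) (fun a ha => inv_mem ha) h ha hr
  have hrootk : ∀ (m : ℕ) (ω : K), 0 < m → ω ^ m = 1 → ω ∈ k₀ := by
    intro m ω hm hω
    rw [hk₀]
    refine ⟨X ^ m - 1, ?_, ?_⟩
    · exact X_pow_sub_C_ne_zero hm 1
    · simp [hω]
  have hpl2 : ∀ m : M, ∃ (ζ : K) (Q : DM.PlC K), IsPrimitiveRoot ζ m.1 ∧
      (∀ a ∈ k, a ∈ Q.P.O) ∧ Q.P.Red (x₀ - ζ) 0 := by
    rintro ⟨m, hm⟩
    have hmp := (hMp m hm).1
    have : NeZero (m : K) := ⟨by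
      rw [Nat.cast_ne_zero]
      exact hmp.ne_zero⟩
    obtain ⟨ζ, hζ⟩ := IsAlgClosed.exists_root (cyclotomic m K) (by
      rw [degree_cyclotomic]
      exact_mod_cast (Nat.totient_pos.2 hmp.pos).ne')
    rw [isRoot_cyclotomic_iff] at hζ
    obtain ⟨κ, _, _, P, h1, h2⟩ := hpl ζ (hrootk m ζ hmp.pos hζ.pow_eq_one)
    exact ⟨ζ, ⟨κ, P⟩, hζ, h1, h2⟩
  choose ζ Q hζ hQO hQx using hpl2
  have hmp : ∀ m : M, m.1.Prime := fun m => (hMp m.1 m.2).1
  have hζk₀ : ∀ m : M, ζ m ∈ k₀ := fun m => hrootk _ _ (hmp m).pos (hζ m).pow_eq_one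
  have hζk : ∀ m : M, ζ m ∈ k := fun m => hk₀k (hζk₀ m)
  have hζ0 : ∀ m : M, ζ m ≠ 0 := fun m => (hζ m).ne_zero (hmp m).ne_zero
  have hζinj : Function.Injective ζ := by
    intro m m' h
    apply Subtype.ext
    rw [(hζ m).eq_orderOf, (hζ m').eq_orderOf, h]
  have hζred : ∀ m : M, (Q m).P.Red (ζ m) ((Q m).P.rs (ζ m)) := fun m =>
    Pl.red_rs (hQO m _ (hζk m))
  have hxred : ∀ m : M, (Q m).P.Red x₀ ((Q m).P.rs (ζ m)) := by
    intro m
    have := (hQx m).add (hζred m)
    rwa [sub_add_cancel, zero_add] at this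
  -- the other multipliers of `f` do not become roots of unity
  have hne1 : ∀ m : M, ∀ i : Fin (d + 1), i ≠ i₀.succ →
      ¬ (Q m).P.Red ((Fin.cons x₁ l : Fin (d + 1) → K) i ^ m.1) 1 := by
    intro m i hi
    induction i using Fin.cases with
    | succ j =>
      have hj : j ≠ i₀ := fun h => hi (by rw [h])
      rw [Fin.cons_succ]
      intro hcon
      have h1 := hcon.sub Pl.red_one
      rw [sub_self] at h1
      have h2 := hinjk (Q m) (hQO m) _ (sub_mem (pow_mem (hlk j hj) _) (one_mem _)) h1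
      have h3 := (hMp m.1 m.2).2.1 (l j) (by
        rw [hl]
        exact Multiset.mem_cons_of_mem (Multiset.mem_map_of_mem _ (Finset.mem_univ j)))
      exact h3 (sub_eq_zero.1 h2)
    | zero =>
      rw [Fin.cons_zero]
      intro hcon
      obtain ⟨j₁, hj₁⟩ : ∃ j₁ : Fin d, j₁ ≠ i₀ := by
        have : Nontrivial (Fin d) := Fin.nontrivial_iff_two_le.2 hd
        exact exists_ne i₀
      obtain ⟨t, ht⟩ : ∃ t, t = ∑ j ∈ Finset.univ.erase i₀, (1 - l j)⁻¹ := ⟨_, rfl⟩
      have htk : t ∈ k := by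
        rw [ht]
        apply sum_mem
        intro j hj
        exact inv_mem (sub_mem (one_mem _) (hlk j (Finset.ne_of_mem_erase hj)))
      have htn : t ∉ k₀ := by
        rw [hk₀, ht]
        exact DM.trans l hli i₀ j₁ hj₁
      have hζ1 : (1 : K) - ζ m ≠ 0 := by
        intro h
        have h1 : ζ m = 1 := (sub_eq_zero.1 h).symm
        exact (hζ m).ne_one (hmp m).one_lt h1
      obtain ⟨s, hs⟩ : ∃ s, s = 1 - (1 - ζ m)⁻¹ - t := ⟨_, rfl⟩
      have hsk : s ∈ k := by
        rw [hs]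
        exact sub_mem (sub_mem (one_mem _) (inv_mem (sub_mem (one_mem _) (hζk m)))) htk
      have hsn : s ∉ k₀ := by
        intro hsk₀
        apply htn
        have : t = 1 - (1 - ζ m)⁻¹ - s := by
          rw [hs]
          ring
        rw [this]
        exact sub_mem (sub_mem (one_mem _) (inv_mem (sub_mem (one_mem _) (hζk₀ m)))) hsk₀
      have hs0 : s ≠ 0 := fun h => hsn (h ▸ zero_mem k₀)
      -- reductions
      have hζ1r : (Q m).P.Red (1 - ζ m) (1 - (Q m).P.rs (ζ m)) := Pl.red_one.sub (hζred m)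
      have hz1 : (1 : (Q m).κ) - (Q m).P.rs (ζ m) ≠ 0 := by
        intro h
        rw [h] at hζ1r
        exact hζ1 (hinjk (Q m) (hQO m) _ (sub_mem (one_mem _) (hζk m)) hζ1r)
      have hx1r : (Q m).P.Red (1 - x₀)⁻¹ (1 - (Q m).P.rs (ζ m))⁻¹ :=
        (Pl.red_one.sub (hxred m)).inv hz1
      have hsum : (1 - x₁)⁻¹ = 1 - (1 - x₀)⁻¹ - t := by
        have h1 := hlsum
        rw [← Finset.add_sum_erase _ _ (Finset.mem_univ i₀), hi₀, ← ht] at h1
        linear_combination h1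
      have hsr : (Q m).P.Red s ((Q m).P.rs s) := Pl.red_rs (hQO m _ hsk)
      have htr : (Q m).P.Red t ((Q m).P.rs t) := Pl.red_rs (hQO m _ htk)
      have hx₁r : (Q m).P.Red (1 - x₁)⁻¹ ((Q m).P.rs s) := by
        have h1 := (Pl.red_one.sub hx1r).sub htr
        rw [← hsum] at h1
        have h2 := (Pl.red_one.sub (hζ1r.inv hz1)).sub htr
        rw [← hs] at h2
        rw [hsr.unique h2]
        exact h1
      have hS0 : (Q m).P.rs s ≠ 0 := by
        intro h
        rw [h] at hsr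
        exact hs0 (hinjk (Q m) (hQO m) _ hsk hsr)
      have h3 := hx₁r.inv hS0
      rw [inv_inv] at h3
      have h4 := Pl.red_one.sub h3
      rw [sub_sub_cancel] at h4
      have h5 := h4.pow m.1
      have h6 : (1 - ((Q m).P.rs s)⁻¹) ^ m.1 = 1 := h5.unique hcon
      have h7 : (Q m).P.Red ((1 - s⁻¹) ^ m.1 - 1) 0 := by
        have h8 := ((Pl.red_one.sub (hsr.inv hS0)).pow m.1).sub Pl.red_one
        rw [h6, sub_self] at h8
        exact h8
      have h9 := hinjk (Q m) (hQO m) _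
        (sub_mem (pow_mem (sub_mem (one_mem _) (inv_mem hsk)) _) (one_mem _)) h7
      have h10 : (1 - s⁻¹) ∈ k₀ := hrootk m.1 _ (hmp m).pos (sub_eq_zero.1 h9)
      apply hsn
      have h11 := sub_mem (one_mem k₀) h10
      rw [sub_sub_cancel] at h11
      have h12 := inv_mem h11
      rwa [inv_inv] at h12
  -- comparison of the poles
  have hDPm : ∀ m : M, (∃ j, (Q m).P.Red (u j ^ m.1) 1) ∧ ∀ j, (Q m).P.Red (u j ^ m.1) 1 →
      (∀ j', j' ≠ j → ¬ (Q m).P.Red (u j' ^ m.1) 1) →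
        ∃ ω, ω ^ m.1 = 1 ∧ (Q m).P.Red (u j - ω) 0 ∧
          (Q m).P.Red ((u j / ω - 1) / (x₀ / ζ m - 1)) 1 := by
    intro m
    have h1 := hDP K (Q m).κ (Q m).P m.1 (d + 1) (d + 1) (Fin.cons x₁ l) u i₀.succ (ζ m)
      (hmp m).one_lt.le (fun i => (hMp m.1 m.2).2.1 _ (hxm i))
      (fun j => (hMp m.1 m.2).2.2.1 _ (hum j)) (by
        have h2 := (hMp m.1 m.2).2.2.2
        rw [hfenum, hu, Multiset.map_map, Multiset.map_map] at h2
        exact h2) (hζ m).pow_eq_one (by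
        rw [Fin.cons_succ, hi₀]
        exact hQx m) (hne1 m)
    rw [Fin.cons_succ, hi₀] at h1
    exact h1
  obtain ⟨J, hJ⟩ : ∃ J : Fin (d + 1) → Set M,
    J = fun j => {m | (Q m).P.Red (u j ^ m.1) 1} := ⟨_, rfl⟩
  have hJm : ∀ j m, m ∈ J j ↔ (Q m).P.Red (u j ^ m.1) 1 := by
    intro j m
    rw [hJ]
    exact Iff.rfl
  have hMinf : Infinite M := hM.to_subtype
  obtain ⟨j₀, hj₀⟩ : ∃ j₀, (J j₀).Infinite := by
    by_contra hcon
    push Not at hcon
    have h1 : (⋃ j, J j).Finite := Set.finite_iUnion (fun j => hcon j)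
    have h2 : (⋃ j, J j) = Set.univ := by
      ext m
      simp only [Set.mem_iUnion, Set.mem_univ, iff_true]
      obtain ⟨j, hj⟩ := (hDPm m).1
      exact ⟨j, (hJm j m).2 hj⟩
    rw [h2] at h1
    exact Set.infinite_univ h1
  -- algebraicity
  have halg : ∀ j, (J j).Infinite →
      IsAlgebraic (IntermediateField.adjoin k₀ ({x₀} : Set K)) (u j) := by
    intro j hj
    apply hDC K k₀ k ι y x₀ (u j) hk₀k hyk hyi hxtr (hμalg _) (ζ '' J j)
      (hj.image hζinj.injOn)
    rintro _ ⟨m, hm, rfl⟩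
    refine ⟨hζk₀ m, (Q m).κ, inferInstance, (Q m).P, hQO m, hQx m, ?_⟩
    obtain ⟨ω, hω, hωr⟩ := DM.root (hmp m).pos (hζ m) ((hJm j m).1 hm)
    exact ⟨ω, hrootk _ _ (hmp m).pos hω, hωr⟩
  have honly : ∀ j, j ≠ j₀ → (J j).Finite := by
    intro j hj
    by_contra hcon
    have h1 := DM.cl k₀ hk₀ x₀ _ (halg j hcon)
    have h2 := DM.cl k₀ hk₀ x₀ _ (halg j₀ hj₀)
    exact DM.two x₀ (u j) (u j₀) (DM.pair hDI g hd hg hg1 u hu j j₀ hj) h1 h2
  obtain ⟨M', hM'⟩ : ∃ M' : Set M, M' = J j₀ \ ⋃ j ∈ Finset.univ.erase j₀, J j := ⟨_, rfl⟩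
  have hM'inf : M'.Infinite := by
    rw [hM']
    apply hj₀.sdiff
    apply Set.Finite.biUnion (Finset.finite_toSet _)
    intro j hj
    exact honly j (Finset.ne_of_mem_erase (Finset.mem_coe.1 hj))
  have hω : ∀ m ∈ M', ∃ ω, ω ^ m.1 = 1 ∧ (Q m).P.Red (u j₀ - ω) 0 ∧
      (Q m).P.Red ((u j₀ / ω - 1) / (x₀ / ζ m - 1)) 1 := by
    intro m hm
    rw [hM'] at hm
    apply (hDPm m).2 j₀ ((hJm _ _).1 hm.1)
    intro j' hj' hcon
    apply hm.2
    rw [Set.mem_iUnion₂]
    exact ⟨j', Finset.mem_erase.2 ⟨hj', Finset.mem_univ j'⟩, (hJm _ _).2 hcon⟩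
  obtain ⟨c, hc, hcx⟩ := hDD K k₀ x₀ (u j₀) (by
      intro a ha
      rw [hk₀]
      have : Algebra.IsAlgebraic ℚ k₀ := by
        constructor
        intro b
        have h1 := (hk₀ b).1 b.2
        exact (isAlgebraic_algebraMap_iff (algebraMap k₀ K).injective).1 h1
      exact ha.restrictScalars ℚ) hxtr (halg j₀ hj₀) (ζ '' M')
      (hM'inf.image hζinj.injOn) (by
      rintro _ ⟨m, hm, rfl⟩
      obtain ⟨ω, hω1, hω2, hω3⟩ := hω m hm
      refine ⟨hζk₀ m, hζ0 m, (Q m).κ, inferInstance, (Q m).P, hk₀O (Q m) (hQO m), hQx m,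
        ω, hrootk _ _ (hmp m).pos hω1, ?_, hω2, hω3⟩
      rintro rfl
      rw [zero_pow (hmp m).ne_zero] at hω1
      exact zero_ne_one hω1)
  have hcm : ∀ m ∈ M', c ^ m.1 = 1 := by
    intro m hm
    obtain ⟨ω, hω1, hω2, -⟩ := hω m hm
    have hck : c ∈ k := hk₀k hc
    have hωk : ω ∈ k := hk₀k (hrootk _ _ (hmp m).pos hω1)
    have hcr : (Q m).P.Red c ((Q m).P.rs c) := Pl.red_rs (hQO m _ hck)
    have h1 : (Q m).P.Red (c * ζ m - ω) 0 := by
      have h2 := hω2.sub (hcr.mul (hQx m))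
      rw [hcx, mul_zero, sub_zero] at h2
      have h3 : c * x₀ - ω - c * (x₀ - ζ m) = c * ζ m - ω := by ring
      rwa [h3] at h2
    have h4 := hinjk (Q m) (hQO m) _ (sub_mem (mul_mem hck (hζk m)) hωk) h1
    have h5 : c * ζ m = ω := sub_eq_zero.1 h4
    have h6 : (c * ζ m) ^ m.1 = 1 := by rw [h5, hω1]
    rwa [mul_pow, (hζ m).pow_eq_one, mul_one] at h6
  have hc1 : c = 1 := by
    obtain ⟨m, hm⟩ := hM'inf.nonempty
    obtain ⟨m', hm', hne⟩ := hM'inf.exists_notMem_finset {m}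
    have h1 : m.1 ≠ m'.1 := by
      intro h
      apply hne
      rw [Finset.mem_singleton]
      exact Subtype.ext h.symm
    have h2 : Nat.Coprime m.1 m'.1 := (Nat.coprime_primes (hmp m) (hmp m')).2 h1
    have h3 : orderOf c ∣ m.1 := orderOf_dvd_of_pow_eq_one (hcm m hm)
    have h4 : orderOf c ∣ m'.1 := orderOf_dvd_of_pow_eq_one (hcm m' hm')
    have h5 : orderOf c ∣ 1 := by
      rw [← h2]
      exact Nat.dvd_gcd h3 h4
    rw [← orderOf_eq_one_iff]
    exact Nat.dvd_one.1 h5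
  rw [hc1, one_mul] at hcx
  rw [← hcx]
  exact hum j₀

end Pool.Agent.LSF
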