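import Pool.Agent.LSF.DDefs
import Pool.Agent.LenSpec.PlBasic

/-!
DP: comparison of the poles of two sums.
-/

namespace Pool.Agent.LSF

open Polynomial Pool.Agent.LenSpec

section dp

variable {K κ : Type} [Field K] [Field κ] {P : Pl K κ}

theorem dp_root_mem {m : ℕ} (hm : 1 ≤ m) {ω : K} (h : ω ^ m = 1) : ω ∈ P.O := by
  by_contra hc
  have h1 : P.Red ω⁻¹ 0 := Pl.not_mem_inv hc
  have h2 := h1.pow m
  rw [inv_pow, h, inv_one, zero_pow (by omega)] at h2
  exact one_ne_zero (Pl.red_one.unique h2)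

theorem dp_rs_pow {m : ℕ} (hm : 1 ≤ m) {ω : K} (h : ω ^ m = 1) : (P.rs ω) ^ m = 1 := by
  have h1 := (Pl.red_rs (dp_root_mem (P := P) hm h)).pow m
  rw [h] at h1
  exact h1.unique Pl.red_one

theorem dp_rs_ne {m : ℕ} (hm : 1 ≤ m) {ω : K} (h : ω ^ m = 1) : P.rs ω ≠ 0 := by
  intro h0
  have h1 := dp_rs_pow (P := P) hm h
  rw [h0, zero_pow (by omega)] at h1
  exact zero_ne_one h1

theorem dp_inv_mem {a : K} (h : ¬ P.Red a 1) : (1 - a)⁻¹ ∈ P.O := by
  by_cases hb : (1 - a) ∈ P.O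
  · have h1 : P.Red (1 - a) (P.rs (1 - a)) := Pl.red_rs hb
    by_cases h0 : P.rs (1 - a) = 0
    · exfalso
      apply h
      rw [h0] at h1
      have h2 := (Pl.red_one (p := P)).sub h1
      rw [sub_sub_cancel, sub_zero] at h2
      exact h2
    · exact (h1.inv h0).mem
  · exact (Pl.not_mem_inv hb).mem

theorem dp_inv_not_mem {a : K} (h : P.Red a 1) (ha : a ≠ 1) : (1 - a)⁻¹ ∉ P.O := by
  intro hc
  have h1 := (Pl.red_one (p := P)).sub h
  rw [sub_self] at h1
  have h2 := h1.mul (Pl.red_rs hc)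
  rw [mul_inv_cancel₀ (sub_ne_zero.2 (Ne.symm ha)), zero_mul] at h2
  exact one_ne_zero (Pl.red_one.unique h2)

theorem dp_prod (s : Multiset K) (h : ∀ a ∈ s, a ∈ P.O) (h0 : P.Red s.prod 0) :
    ∃ a ∈ s, P.Red a 0 := by
  induction s using Multiset.induction_on with
  | empty =>
    rw [Multiset.prod_zero] at h0
    exact absurd (Pl.red_one.unique h0) one_ne_zero
  | cons a s ih =>
    by_cases ha : P.rs a = 0
    · refine ⟨a, Multiset.mem_cons_self a s, ?_⟩
      have h1 := Pl.red_rs (h a (Multiset.mem_cons_self a s))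
      rw [ha] at h1
      exact h1
    · have h1 : P.Red a (P.rs a) := Pl.red_rs (h a (Multiset.mem_cons_self a s))
      have h2 : P.Red s.prod 0 := by
        have ha0 : a ≠ 0 := h1.ne_zero ha
        have h3 := (h1.inv ha).mul h0
        rw [Multiset.prod_cons, inv_mul_cancel_left₀ ha0, mul_zero] at h3
        exact h3
      obtain ⟨b, hb, hb'⟩ := ih (fun b hb => h b (Multiset.mem_cons_of_mem hb)) h2
      exact ⟨b, Multiset.mem_cons_of_mem hb, hb'⟩

theorem dp_exists_root [IsAlgClosed K] {m : ℕ} (hm : 1 ≤ m) {u : K} (hu : P.Red (u ^ m) 1) :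
    u ∈ P.O ∧ ∃ ω, ω ^ m = 1 ∧ P.Red (u - ω) 0 := by
  have hmem : u ∈ P.O := by
    by_contra hc
    have h1 : P.Red u⁻¹ 0 := Pl.not_mem_inv hc
    have hu0 : u ≠ 0 := by
      rintro rfl
      exact hc P.O.zero_mem
    have h2 := (h1.pow m).mul hu
    rw [inv_pow, inv_mul_cancel₀ (pow_ne_zero _ hu0), zero_pow (by omega), zero_mul] at h2
    exact one_ne_zero (Pl.red_one.unique h2)
  refine ⟨hmem, ?_⟩
  have hmon : (X ^ m - 1 : K[X]).Monic := by
    have := monic_X_pow_sub_C (1 : K) (show m ≠ 0 by omega)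
    rwa [C_1] at this
  have hsp := (IsAlgClosed.splits (X ^ m - 1 : K[X])).eq_prod_roots
  have h1 := congrArg (Polynomial.eval u) hsp
  rw [hmon.leadingCoeff, C_1, one_mul, eval_multiset_prod, Multiset.map_map] at h1
  simp only [eval_sub, eval_pow, eval_X, eval_one, Function.comp_def, eval_C] at h1
  have h2 : P.Red ((X ^ m - 1 : K[X]).roots.map (fun a => u - a)).prod 0 := by
    rw [← h1]
    have := hu.sub (Pl.red_one (p := P))
    rwa [sub_self] at this
  have hroot : ∀ a ∈ (X ^ m - 1 : K[X]).roots, a ^ m = 1 := by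
    intro a ha
    have := (mem_roots'.1 ha).2
    simp only [IsRoot.def, eval_sub, eval_pow, eval_X, eval_one] at this
    exact sub_eq_zero.1 this
  obtain ⟨b, hb, hb'⟩ := dp_prod _ (by
    intro b hb
    obtain ⟨a, ha, rfl⟩ := Multiset.mem_map.1 hb
    exact P.O.sub_mem hmem (dp_root_mem hm (hroot a ha))) h2
  obtain ⟨a, ha, rfl⟩ := Multiset.mem_map.1 hb
  exact ⟨a, hroot a ha, hb'⟩

/-- `u / ω` reduces to `1` -/
theorem dp_div_one {m : ℕ} (hm : 1 ≤ m) {u ω : K} (hω : ω ^ m = 1) (h : P.Red (u - ω) 0) :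
    P.Red (u / ω) 1 := by
  have h1 : P.Red ω (P.rs ω) := Pl.red_rs (dp_root_mem hm hω)
  have h2 := dp_rs_ne (P := P) hm hω
  have h3 := h.add h1
  rw [sub_add_cancel, zero_add] at h3
  have h4 := h3.div h1 h2
  rw [div_self h2] at h4
  exact h4

theorem dp_geom {m : ℕ} {y : K} (h : P.Red y 1) :
    P.Red (∑ i ∈ Finset.range m, y ^ i) (m : κ) := by
  have h1 := Pl.red_sum (p := P) (Finset.range m) (x := fun i => y ^ i) (y := fun _ => (1 : κ))
    (fun i _ => by
      have := h.pow i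
      rwa [one_pow] at this)
  rw [Finset.sum_const, Finset.card_range, nsmul_eq_mul, mul_one] at h1
  exact h1

theorem dp_sum_mem {n : ℕ} (s : Finset (Fin n)) (x : Fin n → K) (h : ∀ i ∈ s, x i ∈ P.O) :
    ∑ i ∈ s, x i ∈ P.O := sum_mem h

end dp

theorem DP_holds : DPS := by
  classical
  intro K κ _ _ _ _ P m n n' x u i₀ ζ hm hx hu hsum hζ hred hsep
  have hxi : P.Red (x i₀) (P.rs ζ) := by
    have := hred.add (Pl.red_rs (dp_root_mem (P := P) hm hζ))
    rwa [sub_add_cancel, zero_add] at this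
  have hxm : P.Red (x i₀ ^ m) 1 := by
    have := hxi.pow m
    rwa [dp_rs_pow hm hζ] at this
  have hA := dp_inv_not_mem hxm (hx i₀)
  have hleft : ∑ i ∈ Finset.univ.erase i₀, (1 - x i ^ m)⁻¹ ∈ P.O :=
    dp_sum_mem _ _ (fun i hi => dp_inv_mem (hsep i (Finset.ne_of_mem_erase hi)))
  have hL : ∑ i, (1 - x i ^ m)⁻¹ = (1 - x i₀ ^ m)⁻¹ +
      ∑ i ∈ Finset.univ.erase i₀, (1 - x i ^ m)⁻¹ :=
    (Finset.add_sum_erase _ _ (Finset.mem_univ i₀)).symm
  refine ⟨?_, ?_⟩
  · by_contra hc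
    push Not at hc
    apply hA
    have h1 : ∑ j, (1 - u j ^ m)⁻¹ ∈ P.O :=
      dp_sum_mem _ _ (fun j _ => dp_inv_mem (hc j))
    rw [← hsum, hL] at h1
    have h2 := P.O.sub_mem h1 hleft
    rwa [add_sub_cancel_right] at h2
  · intro j hj hj'
    obtain ⟨-, ω, hω, hω'⟩ := dp_exists_root hm hj
    refine ⟨ω, hω, hω', ?_⟩
    have hright : ∑ i ∈ Finset.univ.erase j, (1 - u i ^ m)⁻¹ ∈ P.O :=
      dp_sum_mem _ _ (fun i hi => dp_inv_mem (hj' i (Finset.ne_of_mem_erase hi)))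
    have hR : ∑ i, (1 - u i ^ m)⁻¹ = (1 - u j ^ m)⁻¹ +
        ∑ i ∈ Finset.univ.erase j, (1 - u i ^ m)⁻¹ :=
      (Finset.add_sum_erase _ _ (Finset.mem_univ j)).symm
    have hBA : (1 - u j ^ m)⁻¹ - (1 - x i₀ ^ m)⁻¹ ∈ P.O := by
      have h1 := P.O.sub_mem hleft hright
      have h2 : (1 - u j ^ m)⁻¹ - (1 - x i₀ ^ m)⁻¹ =
          ∑ i ∈ Finset.univ.erase i₀, (1 - x i ^ m)⁻¹ -
            ∑ i ∈ Finset.univ.erase j, (1 - u i ^ m)⁻¹ := by
        rw [hL, hR] at hsum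
        linear_combination -hsum
      rw [h2]
      exact h1
    have hx1 : (1 : K) - x i₀ ^ m ≠ 0 := sub_ne_zero.2 (Ne.symm (hx i₀))
    have hu1 : (1 : K) - u j ^ m ≠ 0 := sub_ne_zero.2 (Ne.symm (hu j))
    have he : P.Red (1 - x i₀ ^ m) 0 := by
      have := (Pl.red_one (p := P)).sub hxm
      rwa [sub_self] at this
    have hq : P.Red ((1 - x i₀ ^ m) / (1 - u j ^ m)) 1 := by
      have h1 := (he.mul (Pl.red_rs hBA)).add (Pl.red_one (p := P))
      rw [zero_mul, zero_add] at h1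
      refine h1.eq ?_ rfl
      rw [mul_sub, mul_inv_cancel₀ hx1, div_eq_mul_inv]
      ring
    have hq' : P.Red ((1 - u j ^ m) / (1 - x i₀ ^ m)) 1 := by
      have h1 := hq.inv one_ne_zero
      rw [inv_div, inv_one] at h1
      exact h1
    have hy : P.Red (u j / ω) 1 := dp_div_one hm hω hω'
    have hy' : P.Red (x i₀ / ζ) 1 := dp_div_one hm hζ hred
    have hym : (u j / ω) ^ m = u j ^ m := by rw [div_pow, hω, div_one]
    have hym' : (x i₀ / ζ) ^ m = x i₀ ^ m := by rw [div_pow, hζ, div_one]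
    have hmκ : (m : κ) ≠ 0 := Nat.cast_ne_zero.2 (by omega)
    have hS := dp_geom (m := m) hy
    have hS' := dp_geom (m := m) hy'
    have hS0 := hS.ne_zero hmκ
    have hS0' := hS'.ne_zero hmκ
    have hg := mul_geom_sum (u j / ω) m
    have hg' := mul_geom_sum (x i₀ / ζ) m
    rw [hym] at hg
    rw [hym'] at hg'
    have hy1 : x i₀ / ζ - 1 ≠ 0 := by
      intro h0
      rw [h0, zero_mul] at hg'
      apply hx i₀
      exact (sub_eq_zero.1 hg'.symm)
    have hfin := hq'.mul (hS'.div hS hmκ)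
    rw [div_self hmκ, one_mul] at hfin
    refine hfin.eq ?_ rfl
    have e1 : (1 : K) - u j ^ m = -((u j / ω - 1) * ∑ i ∈ Finset.range m, (u j / ω) ^ i) := by
      rw [hg]; ring
    have e2 : (1 : K) - x i₀ ^ m =
        -((x i₀ / ζ - 1) * ∑ i ∈ Finset.range m, (x i₀ / ζ) ^ i) := by
      rw [hg']; ring
    rw [e1, e2, neg_div_neg_eq]
    field_simp

end Pool.Agent.LSF
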