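import Pool.Agent.LSF.DDefs

/-!
DS: the multipliers of the fixed points.

PROOF. Let `m ∈ M`. G2: `f.multSpec m = (MX 1).map (· ^ m) + MX m` (`m` prime, `m.divisors = {1, m}`), `f.multSpec 1 = MX 1`, the same for `g`. C2 for `n = m`: the sums of `(1 - x)⁻¹` over `multSpec m` are `1`
for `f` and `g`; subtract the equal parts `MX m`: `∑_{x ∈ f.multSpec 1} (1 - x^m)⁻¹ = ∑_{x ∈ g.multSpec 1} (1 - x^m)⁻¹`. `x^m ≠ 1` for `x ∈ multSpec 1`: `x = mult 1 z`, `Per 1 z` (G1), so `Per m z` and `x^m = mult m z ≠ 1`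
(`Good.mult_ne`; the multiplier of the `m`-th iterate at a fixed point is the `m`-th power). DM: every element of `f.multSpec 1` is in `g.multSpec 1`. `f.multSpec 1` has no repetition: by DI for `x₀ ∈ f.multSpec 1`
the other elements `x j` are distinct (independent family), and `x₀ ≠ x j`: apply this to another element. Both have `d + 1` elements, so `f.multSpec 1 = g.multSpec 1`.
-/

namespace Pool.Agent.LSF

open Polynomial Pool.Agent.LenSpec

theorem DS_pow_ne {K : Type} [Field K] [IsAlgClosed K] {d : ℕ} (f : RatMap K d) (hf : Good f)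
    (hG1 : G1S) (m : ℕ) (hm : 1 ≤ m) (x : K) (hx : x ∈ f.multSpec 1) : x ^ m ≠ 1 := by
  obtain ⟨-, -, -, hr, hs⟩ := hG1 K d 1 f hf le_rfl
  rw [hs, Multiset.mem_map] at hx
  obtain ⟨z, hz, rfl⟩ := hx
  have hz1 := (hr z).1 hz
  obtain ⟨hq, hfix⟩ := hz1
  have hfix1 : ev f.num f.den z = z := by simpa using hfix
  have hit : ∀ k, (ev f.num f.den)^[k] z = z := fun k => Function.iterate_fixed hfix1 k
  have hper : Per f.num f.den m z := ⟨hq, hit m⟩
  have h := hf.mult_ne m z hm hper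
  have e1 : mult f.num f.den m z = (derivAt f.num f.den z) ^ m := by
    simp only [mult, hit, Finset.prod_const, Finset.card_range]
  have e2 : mult f.num f.den 1 z = derivAt f.num f.den z := by
    simp [mult]
  rw [e2, ← e1]
  exact h

theorem DS_spec1 {K : Type} [Field K] [IsAlgClosed K] {d : ℕ} (f : RatMap K d) (hf : Good f)
    (hG2 : G2S) : f.multSpec 1 = MX d f.num f.den 1 := by
  obtain ⟨-, h, -⟩ := hG2 K d 1 f hf le_rfl
  rw [h]
  simp

theorem DS_sum {K : Type} [Field K] [IsAlgClosed K] {d : ℕ} (f : RatMap K d) (hf : Good f)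
    (hG2 : G2S) (hC2 : C2S) (m : ℕ) (hm : m.Prime) :
    ((f.multSpec 1).map (fun x => (1 - x ^ m)⁻¹)).sum +
      ((MX d f.num f.den m).map (fun x => (1 - x)⁻¹)).sum = 1 := by
  have h1 := hC2 K d m f hf hm.one_lt.le
  obtain ⟨-, h, -⟩ := hG2 K d m f hf hm.one_lt.le
  rw [hm.divisors, Finset.sum_pair hm.one_lt.ne] at h
  rw [h, Multiset.map_add, Multiset.sum_add, Multiset.map_map, Multiset.map_map] at h1
  rw [DS_spec1 f hf hG2]
  refine Eq.trans ?_ h1
  congr 2
  · apply Multiset.map_congr rfl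
    intro x _
    simp
  · apply Multiset.map_congr rfl
    intro x _
    simp [Nat.div_self hm.pos]

theorem DS_nodup {K : Type} [Field K] [IsAlgClosed K] [CharZero K] {d : ℕ} (f : RatMap K d)
    (hd : 2 ≤ d) (hDI : DIS) (hi : AlgebraicIndependent ℚ f.coef)
    (h1 : ∀ x ∈ f.multSpec 1, x ≠ 1) (hc : Multiset.card (f.multSpec 1) = d + 1) :
    (f.multSpec 1).Nodup := by
  classical
  rw [Multiset.nodup_iff_count_le_one]
  intro a
  by_contra hcon
  push Not at hcon
  obtain ⟨x₀, hx₀, hcnt⟩ : ∃ x₀ ∈ f.multSpec 1, 2 ≤ Multiset.count a ((f.multSpec 1).erase x₀) := by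
    by_cases h : ∃ b ∈ f.multSpec 1, b ≠ a
    · obtain ⟨b, hb, hba⟩ := h
      refine ⟨b, hb, ?_⟩
      rw [Multiset.count_erase_of_ne hba.symm]
      omega
    · push Not at h
      have ha : a ∈ f.multSpec 1 := by
        rw [← Multiset.count_pos]; omega
      refine ⟨a, ha, ?_⟩
      rw [Multiset.count_erase_self]
      have : Multiset.count a (f.multSpec 1) = Multiset.card (f.multSpec 1) := by
        rw [Multiset.count_eq_card]
        intro x hx
        exact (h x hx).symm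
      rw [this, hc]
      omega
  obtain ⟨x, hs, hx, -⟩ := hDI K d f hd hi h1 x₀ hx₀
  rw [hs, Multiset.erase_cons_head] at hcnt
  have hnd : (Finset.univ.val.map x).Nodup :=
    (Multiset.nodup_map_iff_of_injective hx.injective).2 Finset.univ.nodup
  have := Multiset.nodup_iff_count_le_one.1 hnd a
  omega

theorem DS_holds (hDM : DMS) (hDI : DIS) (hC2 : C2S) (hG1 : G1S) (hG2 : G2S) : DSS := by
  intro K _ _ _ d f g hd hif hig hf hg M hM hMM
  have hf1 : ∀ x ∈ f.multSpec 1, x ≠ 1 := fun x hx => by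
    simpa using DS_pow_ne f hf hG1 1 le_rfl x hx
  have hg1 : ∀ x ∈ g.multSpec 1, x ≠ 1 := fun x hx => by
    simpa using DS_pow_ne g hg hG1 1 le_rfl x hx
  have hsub : ∀ x₀ ∈ f.multSpec 1, x₀ ∈ g.multSpec 1 := by
    apply hDM K d f g hd hif hig hf1 hg1 M hM
    intro m hm
    obtain ⟨hmp, hmx⟩ := hMM m hm
    refine ⟨hmp, fun x hx => DS_pow_ne f hf hG1 m hmp.one_lt.le x hx,
      fun x hx => DS_pow_ne g hg hG1 m hmp.one_lt.le x hx, ?_⟩
    have e1 := DS_sum f hf hG2 hC2 m hmp
    have e2 := DS_sum g hg hG2 hC2 m hmp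
    rw [← hmx] at e2
    exact add_right_cancel (e1.trans e2.symm)
  have hcf : Multiset.card (f.multSpec 1) = d + 1 := by
    obtain ⟨-, -, hc, -, hs⟩ := hG1 K d 1 f hf le_rfl
    rw [hs, Multiset.card_map, hc, pow_one]
  have hcg : Multiset.card (g.multSpec 1) = d + 1 := by
    obtain ⟨-, -, hc, -, hs⟩ := hG1 K d 1 g hg le_rfl
    rw [hs, Multiset.card_map, hc, pow_one]
  have hnd := DS_nodup f hd hDI hif hf1 hcf
  exact Multiset.eq_of_le_of_card_le ((Multiset.le_iff_subset hnd).2 hsub) (by rw [hcf, hcg])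

end Pool.Agent.LSF
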