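import Pool.Agent.LSF.DDefs

/-!
DX: multiset and set of the multipliers.
-/

namespace Pool.Agent.LSF

open Polynomial Pool.Agent.LenSpec

theorem dx_count (hG2 : G2S) (hA5 : A5S) (K : Type) [Field K] [IsAlgClosed K] (d n : ℕ)
    (f : RatMap K d) (hf : Good f) (hn : 1 ≤ n)
    (hinj : ∀ z z', PerX f.num f.den n z → PerX f.num f.den n z' →
      mult f.num f.den n z = mult f.num f.den n z' → ∃ k, z' = (ev f.num f.den)^[k] z)
    (x : K) : (x ∈ XS f.num f.den n → by
      classical exact (MX d f.num f.den n).count x = n) ∧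
      (x ∉ XS f.num f.den n → by
      classical exact (MX d f.num f.den n).count x = 0) := by
  classical
  obtain ⟨hmem, _, hcount⟩ := hG2 K d n f hf hn
  have horb : ∀ z, PerX f.num f.den n z →
      ((Finset.range n).image (fun k => (ev f.num f.den)^[k] z)).card = n ∧
      (Finset.range n).image (fun k => (ev f.num f.den)^[k] z) ⊆
        (perF d f.num f.den n).filter
          (fun u => mult f.num f.den n u = mult f.num f.den n z) := by
    intro z hz
    obtain ⟨h1, h2, h3⟩ := hA5 K f.num f.den n z hn hz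
    refine ⟨?_, ?_⟩
    · rw [Finset.card_image_of_injOn, Finset.card_range]
      intro i hi j hj h
      exact h3 i (Finset.mem_range.1 hi) j (Finset.mem_range.1 hj) h
    · intro u hu
      obtain ⟨k, _, rfl⟩ := Finset.mem_image.1 hu
      exact Finset.mem_filter.2 ⟨(hmem _).2 (h1 k), h2 k⟩
  refine ⟨?_, ?_⟩
  · rintro ⟨z, hz, rfl⟩
    obtain ⟨h1, h2⟩ := horb z hz
    have h3 : (Finset.range n).image (fun k => (ev f.num f.den)^[k] z) =
        (perF d f.num f.den n).filter
          (fun u => mult f.num f.den n u = mult f.num f.den n z) := by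
      refine Finset.Subset.antisymm h2 ?_
      intro u hu
      obtain ⟨hu1, hu2⟩ := Finset.mem_filter.1 hu
      obtain ⟨k, rfl⟩ := hinj z u hz ((hmem u).1 hu1) hu2.symm
      refine Finset.mem_image.2 ⟨k % n, Finset.mem_range.2 (Nat.mod_lt _ hn), ?_⟩
      exact Function.IsPeriodicPt.iterate_mod_apply hz.1.2 k
    have h4 : (perF d f.num f.den n).filter
        (fun u => mult f.num f.den n z = mult f.num f.den n u) =
        (perF d f.num f.den n).filter
          (fun u => mult f.num f.den n u = mult f.num f.den n z) :=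
      Finset.filter_congr (fun u _ => eq_comm)
    unfold MX
    rw [Multiset.count_map, ← Finset.filter_val, Finset.card_val, h4, ← h3]
    exact h1
  · intro hx
    unfold MX
    rw [Multiset.count_eq_zero]
    intro hc
    obtain ⟨z, hz, rfl⟩ := Multiset.mem_map.1 hc
    exact hx ⟨z, (hmem z).1 hz, rfl⟩

theorem DX_holds (hG2 : G2S) (hA5 : A5S) : DXS := by
  classical
  intro K _ _ d n f g hf hg hn h1 h2 hXS
  ext x
  by_cases hx : x ∈ XS f.num f.den n
  · have hx' : x ∈ XS g.num g.den n := hXS ▸ hx
    have e1 := (dx_count hG2 hA5 K d n f hf hn h1 x).1 hx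
    have e2 := (dx_count hG2 hA5 K d n g hg hn h2 x).1 hx'
    exact (e1.trans e2.symm)
  · have hx' : x ∉ XS g.num g.den n := hXS ▸ hx
    have e1 := (dx_count hG2 hA5 K d n f hf hn h1 x).2 hx
    have e2 := (dx_count hG2 hA5 K d n g hg hn h2 x).2 hx'
    exact (e1.trans e2.symm)

end Pool.Agent.LSF
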