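import Pool.Agent.LSF.DDefs
import Pool.Agent.LenSpec.PlBasic

/-!
DZ: a nonzero element is small at finitely many places only.

PROOF. `h ≠ 0` is algebraic over `k(x)`: clearing denominators (elements of `adjoin k {x}` are quotients of polynomials in
`x`: `IntermediateField.mem_adjoin_simple_iff`, or pass from algebraic over the field to algebraic over the ring
`Algebra.adjoin k {x}`: `IntermediateField.isAlgebraic_adjoin_iff`) and dividing by a power of `h`: there are polynomials
`a_0, …, a_N` over `k` with `∑ a_i(x) h^i = 0` and `a_0(x) ≠ 0`. `Bad` = the roots of `a_0` in `K`. Let `ζ ∈ k`, `P` as in the statement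
and suppose `P.Red h 0`. Elements of `k` are in `P.O` and the residue map is injective on the field `k`: if `a ∈ k`, `P.Red a 0`
then `a = 0` (else `a⁻¹ ∈ k ⊆ O` and `1 = a a⁻¹` reduces to `0`). `x = ζ + (x - ζ) ∈ O`, so `a_i(x) ∈ O` and `P.Red (a_0(x) - a_0(ζ)) 0` (`x - ζ` divides it).
Reducing `∑ a_i(x) h^i = 0`: `P.Red (a_0(x)) 0`, so `P.Red (a_0(ζ)) 0`, `a_0(ζ) = 0`, `ζ ∈ Bad`.
-/

namespace Pool.Agent.LSF

open Polynomial Pool.Agent.LenSpec

theorem DZ_holds : DZS := by
  intro K _ _ k x h halg hne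
  classical
  have h1 : IsAlgebraic (Algebra.adjoin k ({x} : Set K)) h :=
    IntermediateField.isAlgebraic_adjoin_iff.1 halg
  obtain ⟨q, hq0, hq⟩ :=
    h1.exists_nonzero_coeff_and_aeval_eq_zero (mem_nonZeroDivisors_of_ne_zero hne)
  have hrep : ∀ i, ∃ a : k[X], aeval x a = (q.coeff i : K) := by
    intro i
    have h2 := (q.coeff i).2
    generalize (q.coeff i : K) = w at h2 ⊢
    rw [Algebra.adjoin_singleton_eq_range_aeval] at h2
    exact h2
  choose a ha using hrep
  have ha0 : a 0 ≠ 0 := by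
    intro h0
    apply hq0
    apply Subtype.ext
    rw [← ha 0, h0, map_zero]
    rfl
  have hsum : ∑ i ∈ Finset.range (q.natDegree + 1), aeval x (a i) * h ^ i = 0 := by
    rw [aeval_eq_sum_range] at hq
    rw [← hq]
    apply Finset.sum_congr rfl
    intro i _
    rw [ha, Algebra.smul_def]
    rfl
  refine ⟨((a 0).roots.map (algebraMap k K)).toFinset, ?_⟩
  intro κ _ P ζ hζk hζb hk hx hh
  apply hζb
  have hxO : x ∈ P.O := by
    have h2 := P.O.add_mem (hk ζ hζk) hx.mem
    rwa [add_sub_cancel] at h2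
  have hpol : ∀ b : k[X], aeval x b ∈ P.O := by
    intro b
    rw [aeval_eq_sum_range]
    apply P.O.sum_mem
    intro i _
    rw [Algebra.smul_def]
    exact P.O.mul_mem (hk _ (b.coeff i).2) (P.O.pow_mem hxO i)
  have hr0 : P.Red (aeval x (a 0)) 0 := by
    rw [Finset.sum_range_succ'] at hsum
    have h3 : aeval x (a 0) = -(h * ∑ i ∈ Finset.range q.natDegree,
        aeval x (a (i + 1)) * h ^ i) := by
      rw [Finset.mul_sum]
      rw [pow_zero, mul_one] at hsum
      rw [eq_neg_iff_add_eq_zero, add_comm, ← hsum]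
      congr 1
      apply Finset.sum_congr rfl
      intro i _
      ring
    have h4 : (∑ i ∈ Finset.range q.natDegree, aeval x (a (i + 1)) * h ^ i) ∈ P.O := by
      apply P.O.sum_mem
      intro i _
      exact P.O.mul_mem (hpol _) (P.O.pow_mem hh.mem i)
    have h5 := (hh.mul (Pl.red_rs h4)).neg
    rw [← h3, zero_mul, neg_zero] at h5
    exact h5
  obtain ⟨c, hc⟩ := X_sub_C_dvd_sub_C_eval (a := (⟨ζ, hζk⟩ : k)) (p := a 0)
  have hc2 : aeval x (a 0) - ((eval (⟨ζ, hζk⟩ : k) (a 0) : k) : K) = (x - ζ) * aeval x c := by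
    have h6 := congrArg (aeval x) hc
    rw [map_sub, map_mul, map_sub, aeval_X, aeval_C, aeval_C] at h6
    exact h6
  have hr1 : P.Red ((eval (⟨ζ, hζk⟩ : k) (a 0) : k) : K) 0 := by
    have h7 := hx.mul (Pl.red_rs (hpol c))
    rw [← hc2, zero_mul] at h7
    have h8 := hr0.sub h7
    rw [sub_sub_cancel, sub_zero] at h8
    exact h8
  have hev : eval (⟨ζ, hζk⟩ : k) (a 0) = 0 := by
    by_contra hcon
    have h9 : ((eval (⟨ζ, hζk⟩ : k) (a 0) : k) : K) ≠ 0 := by
      intro h10
      exact hcon (Subtype.ext h10)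
    have h11 : (((eval (⟨ζ, hζk⟩ : k) (a 0) : k) : K))⁻¹ ∈ P.O := hk _ (k.inv_mem (Subtype.mem _))
    have h12 := hr1.mul (Pl.red_rs h11)
    rw [mul_inv_cancel₀ h9, zero_mul] at h12
    exact zero_ne_one (h12.unique Pl.red_one)
  rw [Multiset.mem_toFinset, Multiset.mem_map]
  exact ⟨⟨ζ, hζk⟩, (mem_roots ha0).2 hev, rfl⟩

end Pool.Agent.LSF
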