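import Pool.Agent.LSF.FDefs
import Pool.Agent.LenSpec.Final

/-!
FC: conjugate coefficients.

PROOF. `c.conj f = f.mapHom c.σ`. `MobConj`: `Final.mobConj_map`. `(nP d v).map σ = nP d (σ ∘ v)`, the same for `nR`, `nQ` (sums). `c.conj (c.conj f) = f` and the statement on `XS`: E3 (`XS` of the conjugate: `z ↦ σ z` is a bijection of the points of exact period `n`, `σ` is an involution).
`Nf`: `IsCoprime.map`, coefficients, `σ` is injective.
-/

namespace Pool.Agent.LSF

open Polynomial Pool.Agent.LenSpec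

theorem fc_nP {K L : Type} [Field K] [Field L] (φ : K →+* L) (d : ℕ) (v : VI d → K) :
    (nP d v).map φ = nP d (fun i => φ (v i)) := by
  unfold nP
  rw [Polynomial.map_sum]
  refine Finset.sum_congr rfl fun i _ => ?_
  rw [Polynomial.map_mul, Polynomial.map_pow, map_C, map_X]

theorem fc_nR {K L : Type} [Field K] [Field L] (φ : K →+* L) (d : ℕ) (v : VI d → K) :
    (nR d v).map φ = nR d (fun i => φ (v i)) := by
  unfold nR
  rw [Polynomial.map_sum]
  refine Finset.sum_congr rfl fun i _ => ?_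
  rw [Polynomial.map_mul, Polynomial.map_pow, map_C, map_X]

theorem fc_nQ {K L : Type} [Field K] [Field L] (φ : K →+* L) (d : ℕ) (v : VI d → K) :
    (nQ d v).map φ = nQ d (fun i => φ (v i)) := by
  unfold nQ
  rw [Polynomial.map_add, Polynomial.map_add, Polynomial.map_one, Polynomial.map_pow, map_X,
    fc_nR]

theorem FC_holds (hE3 : E3S) : FCS := by
  intro K _ c d f f' v
  obtain ⟨_, _, hX, hM, _, hcc⟩ := hE3 K c d f
  refine ⟨fun h => Final.mobConj_map c.σ h, ?_, hcc, ?_, ?_, ?_⟩
  · rintro ⟨h1, h2⟩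
    refine ⟨?_, ?_⟩
    · change f.num.map c.σ = _
      rw [h1, fc_nP]
    · change f.den.map c.σ = _
      rw [h2, fc_nQ]
  · intro h
    refine ⟨h.two_le, ?_, ?_, ?_⟩
    · rw [← fc_nP, ← fc_nQ]
      exact h.cop.map (mapRingHom c.σ)
    · rw [← fc_nP, coeff_map]
      intro h1
      apply h.one_ne
      apply c.σ.injective
      rw [h1, map_one]
    · rw [← fc_nP, coeff_map]
      exact (map_ne_zero c.σ).2 h.top_ne
  · intro h
    rw [← fc_nP, coeff_map]
    intro h1
    apply h
    apply c.σ.injective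
    rw [h1, map_one]
  · intro n
    ext x
    constructor
    · rintro ⟨z, hz, hx⟩
      have hz' : PerX (c.conj f).num (c.conj f).den n (c.σ (c.σ z)) := by
        rw [c.invol]
        exact hz
      refine ⟨mult f.num f.den n (c.σ z), ⟨c.σ z, (hX n (c.σ z)).1 hz', rfl⟩, ?_⟩
      rw [← hM, c.invol]
      exact hx
    · rintro ⟨y, ⟨z, hz, hy⟩, hx⟩
      refine ⟨c.σ z, (hX n z).2 hz, ?_⟩
      rw [hM, hy, hx]

end Pool.Agent.LSF
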