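import Pool.Agent.LSF.FDefs

/-!
FE: the end.

PROOF. DH: a generic `h` (`h.coef` independent) with `MobConj h g'`. AFG: `Good f`, `Good h`. MC1: `f.multSpec = f'.multSpec`, `h.multSpec = g'.multSpec`. FN0, FGd: `Good f'`, `Good g'`. XSC: `XS f n = XS f' n`, `XS h n = XS g' n` (`n ≥ 1`). So `XS f n = XS h n` for `n ∈ M`; ADst and DX: `MX f n = MX h n`.
DS: `f.multSpec 1 = h.multSpec 1`. Let `p ∈ M` (prime, `p ≥ 2`); MEM: every element of `h.multSpec p` is in `f.multSpec p`. `f.multSpec 1` does not contain `1` (G1, `Good`). GIp: `MobConj f h`. MC2: `MobConj f g'`, and `MobConj g' g`: `MobConj f g`.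
-/

namespace Pool.Agent.LSF

open Polynomial Pool.Agent.LenSpec

theorem FE_holds (hAFG : AFGS) (hADst : ADstS) (hFN0 : FN0S) (hFGd : FGdS) (hXSC : XSCS)
    (hDH : DHS) (hDX : DXS) (hDS : DSS) (hMEM : MEMS) (hGIp : GIpS) (hMC1 : MC1S) (hMC2 : MC2S)
    (hG1 : G1S) : FES := by
  intro K _ _ _ d f f' g g' v u hd hf hff' hf'v hgg' hg'u hvu M hM hprime hXS
  have hd1 : 1 ≤ d := by omega
  obtain ⟨h, hh, hhg'⟩ := hDH K d f f' g' v u hf hff' hf'v.1 hf'v.2 hg'u.1 hg'u.2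
    hvu.indep hvu.indep' hvu.alg hvu.alg'
  obtain ⟨gf, -⟩ := hAFG K d f hd hf
  obtain ⟨gh, -⟩ := hAFG K d h hd hh
  have m1 : ∀ n, f.multSpec n = f'.multSpec n := hMC1 K d f f' hd1 hff'
  have m2 : ∀ n, h.multSpec n = g'.multSpec n := hMC1 K d h g' hd1 hhg'
  have gf' : Good f' := hFGd K d f f' gf (by rw [hf'v.1, hf'v.2]; exact hFN0 K d v hd)
    (fun n _ => m1 n)
  have gg' : Good g' := hFGd K d h g' gh (by rw [hg'u.1, hg'u.2]; exact hFN0 K d u hd)
    (fun n _ => m2 n)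
  have x1 : ∀ n, 1 ≤ n → XS f.num f.den n = XS f'.num f'.den n := fun n hn =>
    (hXSC K d f f' gf gf' (fun k _ => m1 k) n hn).2
  have x2 : ∀ n, 1 ≤ n → XS h.num h.den n = XS g'.num g'.den n := fun n hn =>
    (hXSC K d h g' gh gg' (fun k _ => m2 k) n hn).2
  have x3 : ∀ n ∈ M, XS f.num f.den n = XS h.num h.den n := fun n hn => by
    have hp := hprime n hn
    rw [x1 n hp.one_lt.le, x2 n hp.one_lt.le, hXS n hn]
  have x4 : ∀ n ∈ M, MX d f.num f.den n = MX d h.num h.den n := fun n hn => by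
    have hp := hprime n hn
    exact hDX K d n f h gf gh hp.one_lt.le (hADst K d n f hd hf hp.two_le)
      (hADst K d n h hd hh hp.two_le) (x3 n hn)
  have x5 : f.multSpec 1 = h.multSpec 1 :=
    hDS K d f h hd hf hh gf gh M hM (fun m hm => ⟨hprime m hm, x4 m hm⟩)
  obtain ⟨p, hp⟩ := hM.nonempty
  have pp := hprime p hp
  have x6 : ∀ x ∈ h.multSpec p, x ∈ f.multSpec p :=
    hMEM K d p f h gf gh pp x5 (by rw [x3 p hp])
  have x7 : ∀ x ∈ f.multSpec 1, x ≠ 1 := by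
    intro x hx
    obtain ⟨-, -, -, hr, hms⟩ := hG1 K d 1 f gf le_rfl
    rw [hms, Multiset.mem_map] at hx
    obtain ⟨z, hz, rfl⟩ := hx
    exact gf.mult_ne 1 z le_rfl ((hr z).1 hz)
  have x8 : MobConj f h := hGIp K d p f h hd pp.two_le hf x7 x5 x6
  obtain ⟨-, symm, trans⟩ := hMC2 K d hd1
  exact trans f h g x8 (trans h g' g hhg' (symm g g' hgg'))

end Pool.Agent.LSF
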