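import Pool.Agent.LSF.FDefs

/-!
FL: linked multipliers.

PROOF. AFG: `Good f`. MC1: `f.multSpec n = f'.multSpec n`, `g.multSpec n = g'.multSpec n`. FN0: `NoInf` for `f'`, `g'`. FGd: `Good f'`. XSC: `XS f n = XS f' n` (`n ≥ 1`). `c.spec f n = c.spec g' n`.
`A` := the finite set of all `f.coef i`, `v i`, `u i`, all coefficients `f'.coef i`, `g'.coef i` and the images of all these under `σ`: finite, stable under `σ` (`σ` is an involution). AL2 (with `N := max 7 (d + 2)`) for `f`: `m`, `FullSeq A (XS f (m i))`, i.e.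
`FullSeq A (XS f' (m i))`. Let `n = m i`. ANrm for `f`, `g'` (the hypothesis on equal multipliers is ADst): norms, finiteness, `n * r + d = d ^ n`, `r = (XS f n).ncard`, and `(XS g' n).ncard ≤ r`. `10 ≤ r`: `d^n ≥ 10 n + d` for `n ≥ 7`, `n ≥ d + 2`, `d ≥ 2` (induction / `2^n ≥ …`).
`Link c A (XS f' n) (XS g' n)`: `conj`: `A` is `σ`-stable; `finX`, `finU`, `card`, `nrm` from ANrm; `invX`, `invU` from AAct (coefficients in `A`); `sym` from `FullSeq` with `N = i + 1` and the permutation which is `π` at `i` and the identity elsewhere; `ten`; `zero`: AFG and `XS f n ⊆ f.multSpec n` (G1 / G2).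
AA3: `Types`.
-/

namespace Pool.Agent.LSF

open Polynomial Pool.Agent.LenSpec

theorem FL_two (n : ℕ) (hn : 7 ≤ n) : 10 * n < 2 ^ n := by
  induction n, hn using Nat.le_induction with
  | base => norm_num
  | succ n hn ih =>
    rw [pow_succ]
    omega

theorem FL_ten {n r d : ℕ} (hn : 7 ≤ n) (hd : 2 ≤ d) (hdn : d + 2 ≤ n)
    (h : n * r + d = d ^ n) : 10 ≤ r := by
  by_contra hr
  have h1 : r ≤ 9 := by omega
  have h2 : 2 ^ n ≤ d ^ n := Nat.pow_le_pow_left hd n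
  have h3 := FL_two n hn
  have h4 : n * r ≤ n * 9 := Nat.mul_le_mul_left _ h1
  omega

theorem FL_sym {K : Type} [Field K] [CharZero K] {A : Set K} {X : ℕ → Set K}
    (h : FullSeq A X) (i : ℕ) : SymOn A (X i) := by
  intro π
  obtain ⟨τ, h1, h2⟩ := h (i + 1) (Function.update (fun j => (1 : Equiv.Perm (X j))) i π)
  refine ⟨τ, h1, ?_⟩
  intro x
  have := h2 i (Nat.lt_succ_self i) x
  rw [Function.update_self] at this
  exact this

theorem FL_holds (hAFG : AFGS) (hADst : ADstS) (hAAct : AActS) (hANrm : ANrmS) (hAL2 : AL2S)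
    (hAA3 : AA3S) (hXSC : XSCS) (hFN0 : FN0S) (hFGd : FGdS) (hMC1 : MC1S) (hG1 : G1S) : FLS := by
  intro K _ _ _ φ c R _ _ _ hR d f f' g g' v u hd hif hff' hf'v hgg' hg'u hspec
  obtain ⟨hGf, hnz⟩ := hAFG K d f hd hif
  have hmf := hMC1 K d f f' (by omega) hff'
  have hmg := hMC1 K d g g' (by omega) hgg'
  have hNf : NoInf d f'.num f'.den := by
    rw [hf'v.1, hf'v.2]; exact hFN0 K d v hd
  have hNg : NoInf d g'.num g'.den := by
    rw [hg'u.1, hg'u.2]; exact hFN0 K d u hd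
  have hGf' : Good f' := hFGd K d f f' hGf hNf (fun n _ => hmf n)
  have hXS : ∀ n, 1 ≤ n → XS f.num f.den n = XS f'.num f'.den n := fun n hn =>
    (hXSC K d f f' hGf hGf' (fun n _ => hmf n) n hn).2
  have hsp : ∀ n, 1 ≤ n → c.spec f n = c.spec g' n := by
    intro n hn
    rw [hspec n hn, Cj.spec, Cj.spec, hmg n]
  let S : Set K := ((Set.range f.coef ∪ Set.range f'.coef) ∪ Set.range g'.coef) ∪
    (Set.range v ∪ Set.range u)
  have hS : S.Finite := by
    refine Set.Finite.union (Set.Finite.union (Set.Finite.union ?_ ?_) ?_) (Set.Finite.union ?_ ?_) <;>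
      exact Set.finite_range _
  let A : Set K := S ∪ c.σ '' S
  have hA : A.Finite := hS.union (hS.image _)
  have hAσ : ∀ x ∈ A, c.σ x ∈ A := by
    rintro x (hx | ⟨y, hy, rfl⟩)
    · exact Or.inr ⟨x, hx, rfl⟩
    · rw [c.invol]; exact Or.inl hy
  have hfA : ∀ i, f.coef i ∈ A := fun i => Or.inl (Or.inl (Or.inl (Or.inl ⟨i, rfl⟩)))
  have hf'A : ∀ i, f'.coef i ∈ A := fun i => Or.inl (Or.inl (Or.inl (Or.inr ⟨i, rfl⟩)))
  have hg'A : ∀ i, g'.coef i ∈ A := fun i => Or.inl (Or.inl (Or.inr ⟨i, rfl⟩))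
  have hvA : ∀ i, v i ∈ A := fun i => Or.inl (Or.inr (Or.inl ⟨i, rfl⟩))
  have huA : ∀ i, u i ∈ A := fun i => Or.inl (Or.inr (Or.inr ⟨i, rfl⟩))
  obtain ⟨m, hm, hmN, hmp, hFull⟩ := hAL2 K φ d f hd hif A (max 7 (d + 2)) hA hfA
  have hm1 : ∀ i, 1 ≤ m i := fun i => (hmp i).one_lt.le
  have hFull' : FullSeq A (fun i => XS f'.num f'.den (m i)) := by
    have : (fun i => XS f'.num f'.den (m i)) = (fun i => XS f.num f.den (m i)) := by
      funext i
      rw [hXS _ (hm1 i)]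
    rw [this]; exact hFull
  refine ⟨A, m, hA, hvA, huA, hAσ, hm, hmp, hFull', ?_⟩
  intro i
  have h7 : 7 ≤ m i := le_trans (le_max_left _ _) (hmN i)
  have hd2 : d + 2 ≤ m i := le_trans (le_max_right _ _) (hmN i)
  obtain ⟨a1, a2, a3, a4, a5⟩ := hANrm K c d (m i) f g' hGf hNg (hmp i) (by omega)
    (hADst K d (m i) f hd hif (by omega)) (hsp _ (hm1 i))
  rw [hXS _ (hm1 i)] at a1 a2 a4 a5
  have h10 : 10 ≤ (XS f'.num f'.den (m i)).ncard := FL_ten h7 hd hd2 a4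
  refine ⟨h10, hAA3 K c R hR A _ _ ?_⟩
  refine ⟨hAσ, a2, a3, (hAAct K c d (m i) f' A).1 hf'A, (hAAct K c d (m i) g' A).1 hg'A,
    FL_sym hFull' i, h10, a5, ?_, a1⟩
  intro x hx
  rw [← hXS _ (hm1 i)] at hx
  obtain ⟨z, hz, rfl⟩ := hx
  apply hnz (m i) (hm1 i)
  obtain ⟨-, -, -, hr, hs⟩ := hG1 K d (m i) f hGf (hm1 i)
  rw [hs]
  exact Multiset.mem_map_of_mem _ ((hr z).2 hz.1)

end Pool.Agent.LSF
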