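import Pool.Agent.LSF.FDefs

/-!
FM: identities between disc automorphisms at many points.

PROOF. Write `z = φ x` (at least `5` values, `φ` is injective). A polynomial over `ℂ` of degree `≤ 4` with `5` roots is zero.
(1) `φ(κ⁻¹) z (1 - conj a z) = th (z - a)`: so `- φ(κ⁻¹) conj a = 0`, `φ(κ⁻¹) - th = 0`, `th a = 0`: `a = 0`, `th = 1` (from `th (1 - a) = 1 - conj a`), `φ(κ⁻¹) = 1`, `κ = 1`.
(2) multiply `φ(β x) (1 - conj a z) = th (z - a)` by `z`: `φ(C) (1 - conj a z) = th (z - a) z`: the coefficient of `z²` gives `th = 0`, a contradiction.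
(3) `a₂, th₂` for `β`; `a₃, th₃` for `b`; `a₄, th₄` for `b'`. Multiply `z φ(β x) = φ(b x) φ(b' x)` by the three denominators: `z th₂ (z - a₂) (1 - conj a₃ z) (1 - conj a₄ z) = th₃ th₄ (z - a₃) (z - a₄) (1 - conj a₂ z)`, degree `≤ 4`, so an identity; at `z = 0`: `a₃ a₄ = 0`.
If `a₃ = 0`: `th₃ = 1`, `φ(b x) = φ x`, `b x = x`. If `a₄ = 0`: `b' x = x`.
-/

namespace Pool.Agent.LSF

open Polynomial Pool.Agent.LenSpec

theorem FM_poly {K : Type} [Field K] (φ : K →+* ℂ) (X : Set K) (hX : X.Finite)
    (h5 : 5 ≤ X.ncard) (P : ℂ[X]) (hP : P.natDegree ≤ 4)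
    (h : ∀ x ∈ X, P.eval (φ x) = 0) : P = 0 := by
  classical
  have hinj : Function.Injective φ := φ.injective
  have hfin : (φ '' X).Finite := hX.image _
  apply Polynomial.eq_zero_of_natDegree_lt_card_of_eval_eq_zero' P hfin.toFinset
  · intro i hi
    rw [Set.Finite.mem_toFinset] at hi
    obtain ⟨x, hx, rfl⟩ := hi
    exact h x hx
  · have h1 : hfin.toFinset.card = X.ncard := by
      rw [← Set.ncard_eq_toFinset_card _ hfin]
      exact Set.ncard_image_of_injective X hinj
    omega

theorem FM_id {K : Type} [Field K] (φ : K →+* ℂ) (X : Set K) (b : K → K) (a th : ℂ)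
    (hth : th * (1 - a) = 1 - starRingEnd ℂ a)
    (h : ∀ x ∈ X, φ (b x) * (1 - starRingEnd ℂ a * φ x) = th * (φ x - a)) (ha : a = 0) :
    ∀ x ∈ X, b x = x := by
  intro x hx
  have h1 := h x hx
  subst ha
  simp at hth h1
  rw [hth, one_mul] at h1
  exact φ.injective h1

theorem FM_holds : FMS := by
  intro K _ φ X hX h5
  refine ⟨?_, ?_, ?_⟩
  · rintro κ hκ ⟨a, th, ha, hth, h1, h⟩
    have hth0 : th ≠ 0 := by
      intro h0
      rw [h0] at hth
      simp at hth
    have hP := FM_poly φ X hX h5
      (C (φ κ⁻¹) * Polynomial.X * (1 - C (starRingEnd ℂ a) * Polynomial.X)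
        - C th * (Polynomial.X - C a)) (by compute_degree; norm_num) (by
      intro x hx
      have := h x hx
      simp only [map_mul] at this
      simp only [eval_sub, eval_mul, eval_C, eval_X, eval_one]
      rw [this]
      ring)
    have e0 := congrArg (fun p => p.eval 0) hP
    simp at e0
    have ha0 : a = 0 := by
      rcases e0 with h | h
      · exact absurd h hth0
      · exact h
    obtain ⟨x, hx, hx0⟩ : ∃ x ∈ X, x ≠ 0 := by
      by_contra hcon
      push Not at hcon
      have : X ⊆ {0} := fun x hx => hcon x hx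
      have := Set.ncard_le_ncard this (Set.finite_singleton 0)
      rw [Set.ncard_singleton] at this
      omega
    have := FM_id φ X _ a th h1 h ha0 x hx
    have h3 : κ⁻¹ = 1 := by
      have h4 : κ⁻¹ * x = 1 * x := by rw [one_mul]; exact this
      exact mul_right_cancel₀ hx0 h4
    exact inv_eq_one.mp h3
  · rintro β C' ⟨a, th, ha, hth, h1, h⟩ hC
    have hth0 : th ≠ 0 := by
      intro h0
      rw [h0] at hth
      simp at hth
    have hP := FM_poly φ X hX h5
      (C (φ C') * (1 - C (starRingEnd ℂ a) * Polynomial.X)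
        - C th * (Polynomial.X - C a) * Polynomial.X) (by compute_degree; norm_num) (by
      intro x hx
      have := h x hx
      have h2 := congrArg φ (hC x hx)
      rw [map_mul] at h2
      simp only [eval_sub, eval_mul, eval_C, eval_X, eval_one]
      rw [← h2, ← this]
      ring)
    have e2 := congrArg (fun p => p.coeff 2) hP
    have e3 : (C (φ C') * (1 - C (starRingEnd ℂ a) * Polynomial.X)
        - C th * (Polynomial.X - C a) * Polynomial.X).coeff 2 = - th := by
      have : (C (φ C') * (1 - C (starRingEnd ℂ a) * Polynomial.X)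
        - C th * (Polynomial.X - C a) * Polynomial.X) =
        C (φ C') + C (-(φ C' * starRingEnd ℂ a) + th * a) * Polynomial.X
          + C (-th) * Polynomial.X ^ 2 := by
        simp only [map_mul, map_neg, map_add]
        ring
      rw [this]
      simp
    simp only [e3, coeff_zero] at e2
    exact hth0 (neg_eq_zero.mp e2)
  · rintro β b b' ⟨a2, th2, ha2, hth2, k2, h2⟩ ⟨a3, th3, ha3, hth3, k3, h3⟩
      ⟨a4, th4, ha4, hth4, k4, h4⟩ h
    have ht3 : th3 ≠ 0 := by
      intro h0
      rw [h0] at hth3
      simp at hth3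
    have ht4 : th4 ≠ 0 := by
      intro h0
      rw [h0] at hth4
      simp at hth4
    have hP := FM_poly φ X hX h5
      (Polynomial.X * C th2 * (Polynomial.X - C a2) * (1 - C (starRingEnd ℂ a3) * Polynomial.X)
        * (1 - C (starRingEnd ℂ a4) * Polynomial.X)
        - C th3 * C th4 * (Polynomial.X - C a3) * (Polynomial.X - C a4)
          * (1 - C (starRingEnd ℂ a2) * Polynomial.X)) (by compute_degree) (by
      intro x hx
      have e2 := h2 x hx
      have e3 := h3 x hx
      have e4 := h4 x hx
      have e := congrArg φ (h x hx)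
      rw [map_mul, map_mul] at e
      simp only [eval_sub, eval_mul, eval_C, eval_X, eval_one]
      have : φ x * (th2 * (φ x - a2)) * (1 - (starRingEnd ℂ) a3 * φ x)
          * (1 - (starRingEnd ℂ) a4 * φ x)
          = (th3 * (φ x - a3)) * (th4 * (φ x - a4)) * (1 - (starRingEnd ℂ) a2 * φ x) := by
        rw [← e2, ← e3, ← e4]
        have : φ x * (φ (β x) * (1 - (starRingEnd ℂ) a2 * φ x)) * (1 - (starRingEnd ℂ) a3 * φ x)
          * (1 - (starRingEnd ℂ) a4 * φ x) = (φ x * φ (β x)) * ((1 - (starRingEnd ℂ) a2 * φ x) * (1 - (starRingEnd ℂ) a3 * φ x)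
          * (1 - (starRingEnd ℂ) a4 * φ x)) := by ring
        rw [this, e]
        ring
      linear_combination this)
    have e0 := congrArg (fun p => p.eval 0) hP
    simp only [eval_sub, eval_mul, eval_C, eval_X, eval_one, eval_zero] at e0
    have h34 : a3 * a4 = 0 := by
      have : th3 * th4 * (a3 * a4) = 0 := by linear_combination -e0
      rcases mul_eq_zero.mp this with h | h
      · exact absurd h (mul_ne_zero ht3 ht4)
      · exact h
    rcases mul_eq_zero.mp h34 with h | h
    · left
      exact FM_id φ X b a3 th3 k3 h3 h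
    · right
      exact FM_id φ X b' a4 th4 k4 h4 h

end Pool.Agent.LSF
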