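import Pool.Agent.LSF.FDefs

/-!
FP: pigeonhole for the types, subsequences.

PROOF. `ℕ` is the union of four sets according to the alternative of `Types` that holds at `i`; one of them, `J`, is infinite; `s` = the increasing enumeration of `J` (`Nat.nth` or `Nat.orderEmbeddingOfSet`). `FullSeq`: given `N` and `π i : Perm (X (s i))`, define
`π' j := π i` (transported) if `j = s i`, and the identity if `j` is not in the range of `s` (`s` is injective), and use `FullSeq A X` with `s N` in place of `N`.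
-/

namespace Pool.Agent.LSF

open Polynomial Pool.Agent.LenSpec

/-- independence passes to a subsequence -/
theorem fp_full {K : Type} [Field K] [CharZero K] (A : Set K) (X : ℕ → Set K) (s : ℕ → ℕ)
    (hs : StrictMono s) (h : FullSeq A X) : FullSeq A (fun i => X (s i)) := by
  classical
  intro N π
  have key : ∃ π' : ∀ j : ℕ, Equiv.Perm (X j), ∀ i, π' (s i) = π i := by
    refine ⟨fun j => if hj : ∃ i, s i = j then hj.choose_spec ▸ π hj.choose else 1, ?_⟩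
    intro i
    have hj : ∃ i', s i' = s i := ⟨i, rfl⟩
    simp only [dif_pos hj]
    have h1 : hj.choose = i := hs.injective hj.choose_spec
    have gen : ∀ (i' : ℕ) (e : s i' = s i), i' = i → (e ▸ π i' : Equiv.Perm (X (s i))) = π i := by
      intro i' e hi
      subst hi
      rfl
    exact gen _ hj.choose_spec h1
  obtain ⟨π', hπ'⟩ := key
  obtain ⟨τ, hτ, hτ'⟩ := h (s N) π'
  refine ⟨τ, hτ, ?_⟩
  intro i hi x
  have h1 := hτ' (s i) (hs hi) x
  rw [hπ' i] at h1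
  exact h1

theorem FP_holds : FPS := by
  classical
  intro K _ _ c A X U hT
  have hsub : ∀ Q : ℕ → Prop, {i | Q i}.Infinite → ∃ s : ℕ → ℕ, StrictMono s ∧ ∀ i, Q (s i) := by
    intro Q hQ
    exact ⟨Nat.nth Q, Nat.nth_strictMono hQ, fun i => Nat.nth_mem_of_infinite hQ i⟩
  obtain ⟨Q1, hQ1⟩ : ∃ Q : ℕ → Prop, Q = fun i => ∃ κ : K, κ ≠ 0 ∧
    EqB A (X i) (U i) (fun x => κ⁻¹ * x) := ⟨_, rfl⟩
  obtain ⟨Q2, hQ2⟩ : ∃ Q : ℕ → Prop, Q = fun i => ∃ κ : K, κ ≠ 0 ∧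
    EqB A (X i) (c.σ '' U i) (fun x => κ⁻¹ * x) := ⟨_, rfl⟩
  obtain ⟨Q3, hQ3⟩ : ∃ Q : ℕ → Prop, Q = fun i => ∃ (β : K → K) (C : K),
    EqB A (X i) (c.σ '' X i) β ∧ ∀ x ∈ X i, x * β x = C := ⟨_, rfl⟩
  obtain ⟨Q4, hQ4⟩ : ∃ Q : ℕ → Prop, Q = fun i => ∃ β b b' : K → K,
    EqB A (X i) (c.σ '' X i) β ∧ EqB A (X i) (U i) b ∧ EqB A (X i) (c.σ '' U i) b' ∧
    ∀ x ∈ X i, x * β x = b x * b' x := ⟨_, rfl⟩
  have hcov : ∀ i, Q1 i ∨ Q2 i ∨ Q3 i ∨ Q4 i := by
    intro i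
    subst hQ1 hQ2 hQ3 hQ4
    exact hT i
  have hinf : {i | Q1 i}.Infinite ∨ {i | Q2 i}.Infinite ∨ {i | Q3 i}.Infinite ∨
      {i | Q4 i}.Infinite := by
    by_contra hc
    push Not at hc
    obtain ⟨h1, h2, h3, h4⟩ := hc
    apply Set.infinite_univ (α := ℕ)
    refine ((h1.union h2).union (h3.union h4)).subset ?_
    intro i _
    rcases hcov i with h | h | h | h
    · exact Or.inl (Or.inl h)
    · exact Or.inl (Or.inr h)
    · exact Or.inr (Or.inl h)
    · exact Or.inr (Or.inr h)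
  rcases hinf with h | h | h | h
  · obtain ⟨s, hs, hs'⟩ := hsub _ h
    refine ⟨s, hs, fp_full A X s hs, Or.inl ?_⟩
    subst hQ1
    exact hs'
  · obtain ⟨s, hs, hs'⟩ := hsub _ h
    refine ⟨s, hs, fp_full A X s hs, Or.inr (Or.inl ?_)⟩
    subst hQ2
    exact hs'
  · obtain ⟨s, hs, hs'⟩ := hsub _ h
    refine ⟨s, hs, fp_full A X s hs, Or.inr (Or.inr (Or.inl ?_))⟩
    subst hQ3
    exact hs'
  · obtain ⟨s, hs, hs'⟩ := hsub _ h
    refine ⟨s, hs, fp_full A X s hs, Or.inr (Or.inr (Or.inr ?_))⟩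
    subst hQ4
    exact hs'

end Pool.Agent.LSF
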