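import Pool.Agent.LSF.FDefs

/-!
FT: equal multipliers for infinitely many periods.

PROOF. FP (with `X i = XS f' (m i)`, `U i = XS g' (m i)`) gives `s`; put `m' = m ∘ s` (strictly increasing, primes, `FullSeq`). BMain will be applied with `m'`, the same `A` and with `(g', u)`, or `(c.conj g', σ ∘ u)`, or `(c.conj f', σ ∘ v)`; by FC these are `IsV`, their coefficient of index `1` is `≠ 1` (for `f'`: `Nf.one_ne`), the
parameters are in `A` (`A` is `σ`-stable), and `XS (c.conj h) n = σ '' XS h n`.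
Type 1: `β i = κ_i⁻¹ x`; BMain: `InterA v u`, and for `i ≥ i₀` `DiscAut`; FM: `κ_i = 1`; so the identity is a bijection of `X` and `U`: `X = U`. `M := {m' i | i ≥ i₀}`. Type 2: the same with `c.conj g'`: second alternative.
Type 3: BMain for `(c.conj f', σ ∘ v)`, `β i`: `DiscAut`, contradiction by FM.
Type 4: BMain for `β i` (`c.conj f'`), `b i` (`g'`), `b' i` (`c.conj g'`); for `i` large FM (3): `b i` or `b' i` is the identity on `X`; one of the two happens for infinitely many `i`: `M` = the set of the corresponding `m' i`; `X = U` or `X = σ '' U = XS (c.conj g')`.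
-/

namespace Pool.Agent.LSF

open Polynomial Pool.Agent.LenSpec

theorem FT_bij {K : Type} [Field K] {X U : Set K} {b : K → K} (hb : Set.BijOn b X U)
    (h : ∀ x ∈ X, b x = x) : X = U := by
  rw [← hb.image_eq]
  ext y
  constructor
  · intro hy
    exact ⟨y, hy, h y hy⟩
  · rintro ⟨x, hx, rfl⟩
    rw [h x hx]; exact hx

theorem FT_one {K : Type} [Field K] [CharZero K] (φ : K →+* ℂ) (hFM : FMS) {A X U : Set K} {κ : K}
    (hX : 10 ≤ X.ncard) (hκ : κ ≠ 0) (hE : EqB A X U (fun x => κ⁻¹ * x))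
    (hD : DiscAut φ X (fun x => κ⁻¹ * x)) : X = U := by
  have hfin : X.Finite := Set.finite_of_ncard_pos (by omega)
  have h1 := (hFM K φ X hfin (by omega)).1 κ hκ hD
  subst h1
  exact FT_bij hE.bij (fun x _ => by simp)

theorem FT_inf {m : ℕ → ℕ} (hm : StrictMono m) (S : Set ℕ) (hS : S.Infinite) :
    (m '' S).Infinite := hS.image hm.injective.injOn

theorem FT_holds (hB : BMainS) (hFP : FPS) (hFM : FMS) (hFC : FCS) : FTS := by
  intro K _ _ _ φ c d f f' g' v u A m hd hif hff' hf'v hNf hiv hg'u hu1 hA hvA huA hσA hm hmp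
    hFull hT
  obtain ⟨s, hs, hsF, hcases⟩ := hFP K c A (fun i => XS f'.num f'.den (m i))
    (fun i => XS g'.num g'.den (m i)) (fun i => (hT i).2)
  have hFull' := hsF hFull
  have hm' : StrictMono (fun i => m (s i)) := hm.comp hs
  -- properties of the conjugates
  obtain ⟨-, hfV, -, -, hf1, hfX⟩ := hFC K c d f' f' v
  obtain ⟨-, hgV, -, -, hg1, hgX⟩ := hFC K c d g' g' u
  have B1 : ∀ β : ℕ → K → K, (∀ i, EqB A (XS f'.num f'.den (m (s i)))
      (XS g'.num g'.den (m (s i))) (β i)) → InterA v u ∧ ∃ i₀, ∀ i, i₀ ≤ i →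
      DiscAut φ (XS f'.num f'.den (m (s i))) (β i) := fun β hβ =>
    hB K φ d f f' g' v u A (fun i => m (s i)) β hd hif hff' hf'v hNf hiv hg'u hu1 hA hvA huA
      hm' (fun i => hmp (s i)) hFull' hβ
  have B2 : ∀ β : ℕ → K → K, (∀ i, EqB A (XS f'.num f'.den (m (s i)))
      (c.σ '' XS g'.num g'.den (m (s i))) (β i)) → InterA v (fun i => c.σ (u i)) ∧ ∃ i₀, ∀ i,
      i₀ ≤ i → DiscAut φ (XS f'.num f'.den (m (s i))) (β i) := fun β hβ =>
    hB K φ d f f' (c.conj g') v (fun i => c.σ (u i)) A (fun i => m (s i)) β hd hif hff' hf'v hNf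
      hiv (hgV hg'u) (hg1 hu1) hA hvA (fun i => hσA _ (huA i))
      hm' (fun i => hmp (s i)) hFull' (fun i => by rw [hgX]; exact hβ i)
  have B3 : ∀ β : ℕ → K → K, (∀ i, EqB A (XS f'.num f'.den (m (s i)))
      (c.σ '' XS f'.num f'.den (m (s i))) (β i)) → ∃ i₀, ∀ i,
      i₀ ≤ i → DiscAut φ (XS f'.num f'.den (m (s i))) (β i) := fun β hβ =>
    (hB K φ d f f' (c.conj f') v (fun i => c.σ (v i)) A (fun i => m (s i)) β hd hif hff' hf'v hNf
      hiv (hfV hf'v) (hf1 hNf.one_ne) hA hvA (fun i => hσA _ (hvA i))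
      hm' (fun i => hmp (s i)) hFull' (fun i => by rw [hfX]; exact hβ i)).2
  have hten : ∀ i, 10 ≤ (XS f'.num f'.den (m (s i))).ncard := fun i => (hT (s i)).1
  have hfin : ∀ i, (XS f'.num f'.den (m (s i))).Finite := fun i =>
    Set.finite_of_ncard_pos (by have := hten i; omega)
  rcases hcases with h | h | h | h
  · choose κ hκ hE using h
    obtain ⟨hI, i₀, hi₀⟩ := B1 (fun i x => (κ i)⁻¹ * x) hE
    refine ⟨(fun i => m (s i)) '' Set.Ici i₀, FT_inf hm' _ (Set.Ici_infinite i₀), ?_, Or.inl ⟨hI, ?_⟩⟩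
    · rintro n ⟨i, -, rfl⟩
      exact hmp (s i)
    · rintro n ⟨i, hi, rfl⟩
      exact FT_one φ hFM (hten i) (hκ i) (hE i) (hi₀ i hi)
  · choose κ hκ hE using h
    obtain ⟨hI, i₀, hi₀⟩ := B2 (fun i x => (κ i)⁻¹ * x) hE
    refine ⟨(fun i => m (s i)) '' Set.Ici i₀, FT_inf hm' _ (Set.Ici_infinite i₀), ?_, Or.inr ⟨hI, ?_⟩⟩
    · rintro n ⟨i, -, rfl⟩
      exact hmp (s i)
    · rintro n ⟨i, hi, rfl⟩
      rw [hgX]
      exact FT_one φ hFM (hten i) (hκ i) (hE i) (hi₀ i hi)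
  · choose β C hE hC using h
    obtain ⟨i₀, hi₀⟩ := B3 β hE
    exact ((hFM K φ _ (hfin i₀) (by have := hten i₀; omega)).2.1 (β i₀) (C i₀) (hi₀ i₀ le_rfl)
      (hC i₀)).elim
  · choose β b b' hE1 hE2 hE3 hx using h
    obtain ⟨i₁, hi₁⟩ := B3 β hE1
    obtain ⟨hI, i₂, hi₂⟩ := B1 b hE2
    obtain ⟨hI', i₃, hi₃⟩ := B2 b' hE3
    let i₀ := max i₁ (max i₂ i₃)
    have hor : ∀ i ∈ Set.Ici i₀, (∀ x ∈ XS f'.num f'.den (m (s i)), b i x = x) ∨
        (∀ x ∈ XS f'.num f'.den (m (s i)), b' i x = x) := by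
      intro i hi
      have hi' : i₀ ≤ i := hi
      exact (hFM K φ _ (hfin i) (by have := hten i; omega)).2.2 (β i) (b i) (b' i)
        (hi₁ i (le_trans (le_max_left _ _) hi'))
        (hi₂ i (le_trans (le_trans (le_max_left _ _) (le_max_right _ _)) hi'))
        (hi₃ i (le_trans (le_trans (le_max_right _ _) (le_max_right _ _)) hi')) (hx i)
    have hunion : Set.Ici i₀ ⊆ {i | ∀ x ∈ XS f'.num f'.den (m (s i)), b i x = x} ∪
        {i | ∀ x ∈ XS f'.num f'.den (m (s i)), b' i x = x} := fun i hi => hor i hi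
    have hinf := (Set.Ici_infinite i₀).mono hunion
    rcases Set.infinite_union.1 hinf with hS | hS
    · refine ⟨_, FT_inf hm' _ hS, ?_, Or.inl ⟨hI, ?_⟩⟩
      · rintro n ⟨i, -, rfl⟩
        exact hmp (s i)
      · rintro n ⟨i, hi, rfl⟩
        exact FT_bij (hE2 i).bij hi
    · refine ⟨_, FT_inf hm' _ hS, ?_, Or.inr ⟨hI', ?_⟩⟩
      · rintro n ⟨i, -, rfl⟩
        exact hmp (s i)
      · rintro n ⟨i, hi, rfl⟩
        rw [hgX]
        exact FT_bij (hE3 i).bij hi

end Pool.Agent.LSF
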