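import Pool.Agent.LSF.FDefs
import Pool.Agent.LenSpec.NF1
import Pool.Agent.LenSpec.MC2
import Pool.Agent.LenSpec.A2
import Pool.Agent.LenSpec.B1
import Pool.Agent.LenSpec.B2
import Pool.Agent.LenSpec.B3

/-!
FU: the normal form: a fixed point with multiplier `x ≠ 0, 1` is moved to `0`, another preimage of
this fixed point to infinity.
-/

namespace Pool.Agent.LSF

open Polynomial Pool.Agent.LenSpec

section fu

variable {K : Type} [Field K]

private lemma fu_affine [IsAlgClosed K] (d : ℕ) (f : RatMap K d) (a b : K) (hd : 1 ≤ d)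
    (ha : a ≠ 0) : ∃ f' : RatMap K d,
    f'.num = C a⁻¹ * (f.num.comp (C a * X + C b) - C b * f.den.comp (C a * X + C b)) ∧
    f'.den = f.den.comp (C a * X + C b) ∧ MobConj f' f := by
  obtain ⟨f', hn, hdn, -⟩ := b1_holds a2_holds K d f a b hd ha
  refine ⟨f', hn, hdn, a, b, 0, 1, 1, by simpa using ha, one_ne_zero, ?_, ?_⟩
  · simp only [C_0, zero_mul, C_1, one_mul, zero_add]
    rw [NF1.homComp_one _ _ _ f.num_le, hn, hdn, ← mul_assoc, ← C_mul, mul_inv_cancel₀ ha, C_1,
      one_mul]
    ring
  · simp only [C_0, zero_mul, C_1, one_mul, zero_add]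
    rw [NF1.homComp_one _ _ _ f.den_le, hdn]

private lemma fu_inv [IsAlgClosed K] (d : ℕ) (f : RatMap K d) (hd : 1 ≤ d) :
    ∃ f' : RatMap K d, f'.num = f.den.reflect d ∧ f'.den = f.num.reflect d ∧ MobConj f f' := by
  obtain ⟨f', hn, hdn, -⟩ := b2_holds a2_holds K d f hd
  refine ⟨f', hn, hdn, 0, 1, 1, 0, 1, by simp, one_ne_zero, ?_, ?_⟩
  · rw [hn, NF1.homComp_reflect]
    simp only [C_0, zero_mul, C_1, one_mul, zero_add, add_zero]
    rw [NF1.homComp_one _ _ _ f.den_le, comp_X]
  · rw [hdn, NF1.homComp_reflect]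
    simp only [C_0, zero_mul, C_1, one_mul, zero_add, add_zero]
    rw [NF1.homComp_one _ _ _ f.num_le, comp_X]

private lemma fu_scale (d : ℕ) (f : RatMap K d) (a : K) (ha : a ≠ 0) :
    ∃ f' : RatMap K d, f'.num = C a * f.num ∧ f'.den = C a * f.den ∧ MobConj f f' := by
  obtain ⟨f', hn, hdn, -⟩ := b3_holds K d f a ha
  refine ⟨f', hn, hdn, 1, 0, 0, 1, a, by simp, ha, ?_, ?_⟩
  · rw [hn, NF1.homComp_C_mul]
    simp only [C_0, zero_mul, C_1, one_mul, zero_add, add_zero]
    rw [NF1.homComp_one _ _ _ f.num_le, comp_X]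
  · rw [hdn, NF1.homComp_C_mul]
    simp only [C_0, zero_mul, C_1, one_mul, zero_add, add_zero]
    rw [NF1.homComp_one _ _ _ f.den_le, comp_X]

private lemma fu_coeff_comp (n : ℕ) (P : K[X]) (b : K) (hP : P.natDegree ≤ n) :
    (P.comp (C 1 * X + C b)).coeff n = P.coeff n := by
  have hL : (C 1 * X + C b : K[X]).natDegree = 1 := natDegree_linear one_ne_zero
  rcases lt_or_eq_of_le hP with h | h
  · rw [coeff_eq_zero_of_natDegree_lt h]
    refine coeff_eq_zero_of_natDegree_lt ?_
    rw [natDegree_comp, hL, mul_one]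
    exact h
  · have h1 := coeff_comp_degree_mul_degree (p := P) (q := C 1 * X + C b) (by rw [hL]; simp)
    have hlc : (C 1 * X + C b : K[X]).leadingCoeff = 1 := leadingCoeff_linear one_ne_zero
    rw [hL, mul_one, h, hlc, one_pow, mul_one] at h1
    rw [h1, leadingCoeff, h]

private lemma fu_coeff_sum (d : ℕ) (w : Fin (d - 1) → K) (j : ℕ) :
    (∑ i : Fin (d - 1), C (w i) * X ^ (i.val + 1) : K[X]).coeff j =
      if h : 1 ≤ j ∧ j < d then w ⟨j - 1, by omega⟩ else 0 := by
  rw [finsetSum_coeff]
  split_ifs with h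
  · rw [Finset.sum_eq_single (⟨j - 1, by omega⟩ : Fin (d - 1))]
    · rw [coeff_C_mul, coeff_X_pow, if_pos (by simp; omega), mul_one]
    · intro i _ hi
      rw [coeff_C_mul, coeff_X_pow, if_neg, mul_zero]
      intro h2
      apply hi
      apply Fin.ext
      simp only
      omega
    · intro h2
      exact absurd (Finset.mem_univ _) h2
  · refine Finset.sum_eq_zero fun i _ => ?_
    rw [coeff_C_mul, coeff_X_pow, if_neg, mul_zero]
    intro h2
    apply h
    have := i.2
    omega

end fu

theorem FU_holds (hMC2 : MC2S) : FUS := by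
  intro K _ _ d g x hd hx hx0 hx1
  obtain ⟨hrefl, hsymm, htrans⟩ := hMC2 K d (by omega)
  -- step A: the fixed point is moved to infinity
  obtain ⟨g1, hg1, hA1, hA2, hA3⟩ : ∃ g1 : RatMap K d, MobConj g g1 ∧ g1.den.coeff d = 0 ∧
      g1.num.coeff d ≠ 0 ∧ x = g1.den.coeff (d - 1) / g1.num.coeff d := by
    have hms := NF1.multSpec_one g
    rw [hms, fixMult, Multiset.mem_add] at hx
    rcases hx with hx | hx
    · obtain ⟨z, hz, hzx⟩ := Multiset.mem_map.1 hx
      have hF0 : g.num - X * g.den ≠ 0 := by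
        intro h; rw [h, roots_zero] at hz; exact Multiset.notMem_zero _ hz
      have hz1 : g.num.eval z = z * g.den.eval z := by
        have := ((mem_roots hF0).1 hz).eq_zero
        rw [eval_sub, eval_mul, eval_X, sub_eq_zero] at this
        exact this
      have hz2 : g.den.eval z ≠ 0 := by
        intro h
        obtain ⟨u, v, huv⟩ := g.coprime
        have := congrArg (eval z) huv
        rw [eval_add, eval_mul, eval_mul, hz1, h, mul_zero, mul_zero, mul_zero,
          add_zero, eval_one] at this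
        exact zero_ne_one this
      obtain ⟨f', hn', hd', hm'⟩ := fu_affine d g 1 z (by omega) one_ne_zero
      obtain ⟨g1, hng, hdg, hmg⟩ := fu_inv d f' (by omega)
      rw [inv_one, C_1, one_mul, one_mul] at hn'
      rw [C_1, one_mul] at hd'
      have hzero : f'.num.eval 0 = 0 := by
        rw [hn']
        simp [eval_comp, hz1]
      have hc1 : g1.den.coeff d = 0 := by
        rw [hdg, coeff_reflect, revAt_le le_rfl, Nat.sub_self, coeff_zero_eq_eval_zero, hzero]
      have hc2 : g1.num.coeff d = g.den.eval z := by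
        rw [hng, coeff_reflect, revAt_le le_rfl, Nat.sub_self, coeff_zero_eq_eval_zero, hd']
        simp [eval_comp]
      have hc3 : g1.den.coeff (d - 1) =
          (derivative g.num).eval z - z * (derivative g.den).eval z := by
        have e1 : d - (d - 1) = 1 := by omega
        rw [hdg, coeff_reflect, revAt_le (Nat.sub_le d 1), e1]
        have e2 : f'.num.coeff 1 = (derivative f'.num).eval 0 := by
          rw [← coeff_zero_eq_eval_zero, coeff_derivative]
          simp
        rw [e2, hn']
        simp [derivative_comp, eval_comp]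
      refine ⟨g1, htrans _ _ _ (hsymm _ _ hm') hmg, hc1, ?_, ?_⟩
      · rw [hc2]; exact hz2
      · rw [hc2, hc3, ← hzx]
        unfold derivAt
        rw [hz1]
        field_simp
    · obtain ⟨hx1, hx2⟩ := Multiset.mem_replicate.1 hx
      have hdeg : (g.num - X * g.den).natDegree ≤ d := by omega
      have hc1 : g.den.coeff d = 0 := by
        have h4 : (g.num - X * g.den).coeff (d + 1) = 0 :=
          coeff_eq_zero_of_natDegree_lt (by omega)
        rw [coeff_sub, coeff_X_mul, coeff_eq_zero_of_natDegree_lt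
          (lt_of_le_of_lt g.num_le (Nat.lt_succ_self d)), zero_sub, neg_eq_zero] at h4
        exact h4
      have hBd : g.den.natDegree < d := by
        rcases lt_or_eq_of_le g.den_le with h | h
        · exact h
        · exfalso
          have h5 : g.den.leadingCoeff = 0 := by
            rw [leadingCoeff, h]; exact hc1
          rw [leadingCoeff_eq_zero] at h5
          rw [h5, natDegree_zero] at h
          omega
      have hAd : g.num.natDegree = d := by
        rcases g.deg_eq with h | h
        · exact h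
        · omega
      have hAne : g.num.coeff d ≠ 0 := by
        have h1 : g.num ≠ 0 := by
          intro h; rw [h, natDegree_zero] at hAd; omega
        have h2 := leadingCoeff_ne_zero.2 h1
        rwa [leadingCoeff, hAd] at h2
      refine ⟨g, hrefl g, hc1, hAne, ?_⟩
      rw [hx2]
      unfold multInf
      split_ifs with h
      · rw [leadingCoeff, leadingCoeff, hAd]
        have h1 : g.den.natDegree = d - 1 := by omega
        rw [h1]
      · have h1 : g.den.coeff (d - 1) = 0 := coeff_eq_zero_of_natDegree_lt (by omega)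
        rw [h1, zero_div]
  -- step B: a zero of the denominator is moved to `0`
  have hB1 : g1.den.coeff (d - 1) ≠ 0 := by
    intro h
    rw [h, zero_div] at hA3
    exact hx0 hA3
  have hBd : g1.den.natDegree ≤ d - 1 := by
    have : g1.den.natDegree ≠ d := by
      intro h
      have h5 : g1.den.leadingCoeff = 0 := by
        rw [leadingCoeff, h]; exact hA1
      rw [leadingCoeff_eq_zero] at h5
      rw [h5, natDegree_zero] at h
      omega
    have := g1.den_le
    omega
  have hBd' : g1.den.natDegree = d - 1 := le_antisymm hBd (le_natDegree_of_ne_zero hB1)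
  obtain ⟨ψ, hψ⟩ := IsAlgClosed.exists_root g1.den (by
    intro h
    have h0 : g1.den.natDegree = 0 := natDegree_eq_of_degree_eq_some h
    omega)
  have hψ1 : g1.num.eval ψ ≠ 0 := by
    intro h
    obtain ⟨u, v, huv⟩ := g1.coprime
    have := congrArg (eval ψ) huv
    rw [eval_add, eval_mul, eval_mul, h, hψ.eq_zero, mul_zero, mul_zero, add_zero,
      eval_one] at this
    exact zero_ne_one this
  obtain ⟨g2, hn2, hd2, hm2⟩ := fu_affine d g1 1 ψ (by omega) one_ne_zero
  rw [inv_one, C_1, one_mul] at hn2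
  rw [C_1] at hd2
  have hn2d : g2.num.coeff d = g1.num.coeff d := by
    have e1 := fu_coeff_comp d g1.num ψ g1.num_le
    have e2 := fu_coeff_comp d g1.den ψ g1.den_le
    rw [C_1] at e1 e2
    rw [hn2, coeff_sub, coeff_C_mul, e1, e2, hA1, mul_zero, sub_zero]
  have hd2d : g2.den.coeff (d - 1) = g1.den.coeff (d - 1) := by
    have e2 := fu_coeff_comp (d - 1) g1.den ψ hBd
    rw [C_1] at e2
    rw [hd2, e2]
  have hd2dd : g2.den.coeff d = 0 := by
    have e2 := fu_coeff_comp d g1.den ψ g1.den_le
    rw [C_1] at e2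
    rw [hd2, e2, hA1]
  have hn20 : g2.num.coeff 0 ≠ 0 := by
    rw [hn2, coeff_zero_eq_eval_zero]
    simpa [eval_comp, hψ.eq_zero] using hψ1
  have hd20 : g2.den.coeff 0 = 0 := by
    rw [hd2, coeff_zero_eq_eval_zero]
    simpa [eval_comp] using hψ.eq_zero
  -- step C: the coordinate `1 / z`
  obtain ⟨g3, hn3, hd3, hm3⟩ := fu_inv d g2 (by omega)
  have hc30 : g3.num.coeff 0 = 0 := by
    rw [hn3, coeff_reflect, revAt_le (Nat.zero_le d), Nat.sub_zero, hd2dd]
  have hc3d : g3.num.coeff d = 0 := by
    rw [hn3, coeff_reflect, revAt_le le_rfl, Nat.sub_self, hd20]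
  have hc31 : g3.num.coeff 1 = g1.den.coeff (d - 1) := by
    rw [hn3, coeff_reflect, revAt_le (by omega), hd2d]
  have he30 : g3.den.coeff 0 = g1.num.coeff d := by
    rw [hd3, coeff_reflect, revAt_le (Nat.zero_le d), Nat.sub_zero, hn2d]
  have he3d : g3.den.coeff d ≠ 0 := by
    rw [hd3, coeff_reflect, revAt_le le_rfl, Nat.sub_self]
    exact hn20
  have he30' : g3.den.coeff 0 ≠ 0 := by rw [he30]; exact hA2
  have hx3 : x = g3.num.coeff 1 / g3.den.coeff 0 := by rw [hA3, hc31, he30]
  -- step D: scaling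
  obtain ⟨l, hl⟩ := IsAlgClosed.exists_pow_nat_eq (g3.den.coeff 0 / g3.den.coeff d)
    (show 0 < d by omega)
  have hl0 : l ≠ 0 := by
    intro h
    rw [h, zero_pow (by omega)] at hl
    exact (div_ne_zero he30' he3d) hl.symm
  obtain ⟨g4, hn4, hd4, hm4⟩ := fu_scale d g3 (g3.den.coeff 0)⁻¹ (inv_ne_zero he30')
  obtain ⟨g5, hn5, hd5, hm5⟩ := fu_affine d g4 l 0 (by omega) hl0
  have hn5c : ∀ i, g5.num.coeff i = l⁻¹ * ((g3.den.coeff 0)⁻¹ * g3.num.coeff i * l ^ i) := by
    intro i
    rw [hn5, hn4]
    simp only [C_0, add_zero, zero_mul, sub_zero]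
    rw [coeff_C_mul, comp_C_mul_X_coeff, coeff_C_mul]
  have hd5c : ∀ i, g5.den.coeff i = (g3.den.coeff 0)⁻¹ * g3.den.coeff i * l ^ i := by
    intro i
    rw [hd5, hd4]
    simp only [C_0, add_zero]
    rw [comp_C_mul_X_coeff, coeff_C_mul]
  have hn50 : g5.num.coeff 0 = 0 := by rw [hn5c, hc30]; ring
  have hn5d : g5.num.coeff d = 0 := by rw [hn5c, hc3d]; ring
  have hn51 : g5.num.coeff 1 = x := by
    rw [hn5c, hx3, pow_one]
    field_simp
  have hd50 : g5.den.coeff 0 = 1 := by
    rw [hd5c, pow_zero, mul_one, inv_mul_cancel₀ he30']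
  have hd5d : g5.den.coeff d = 1 := by
    rw [hd5c, hl]
    field_simp
  -- step E: the parameters
  set u : VI d → K := Sum.elim (fun i => g5.num.coeff (i.val + 1))
    (fun i => g5.den.coeff (i.val + 1)) with hu
  have hP : g5.num = nP d u := by
    ext j
    unfold nP
    rw [fu_coeff_sum d (fun i => u (Sum.inl i)) j]
    split_ifs with h
    · simp only [hu, Sum.elim_inl]
      congr 1
      omega
    · rcases Nat.eq_zero_or_pos j with h0 | h0
      · rw [h0, hn50]
      · rcases Nat.lt_or_ge d j with h1 | h1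
        · exact coeff_eq_zero_of_natDegree_lt (lt_of_le_of_lt g5.num_le h1)
        · have : j = d := by omega
          rw [this, hn5d]
  have hQ : g5.den = nQ d u := by
    ext j
    unfold nQ nR
    rw [coeff_add, coeff_add, fu_coeff_sum d (fun i => u (Sum.inr i)) j, coeff_one, coeff_X_pow]
    rcases Nat.eq_zero_or_pos j with h0 | h0
    · rw [if_pos h0, dif_neg (by omega), if_neg (by omega), add_zero, add_zero, h0, hd50]
    · rcases lt_trichotomy j d with h1 | h1 | h1
      · rw [if_neg (by omega), dif_pos ⟨h0, h1⟩, if_neg (by omega), add_zero, zero_add]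
        simp only [hu, Sum.elim_inr]
        congr 1
        omega
      · rw [if_neg (by omega), dif_neg (by omega), if_pos h1, zero_add, zero_add, h1, hd5d]
      · rw [if_neg (by omega), dif_neg (by omega), if_neg (by omega), add_zero, add_zero]
        exact coeff_eq_zero_of_natDegree_lt (lt_of_le_of_lt g5.den_le h1)
  refine ⟨u, g5, ?_, ⟨hP, hQ⟩, ?_⟩
  · exact htrans _ _ _ hg1 (htrans _ _ _ (hsymm _ _ hm2) (htrans _ _ _ hm3
      (htrans _ _ _ hm4 (hsymm _ _ hm5))))
  · rw [← hP, hn51]

end Pool.Agent.LSF
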