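import Pool.Agent.LSF.FDefs
import Pool.Agent.LenSpec.FA2

/-!
FW: the parameters of the generic map are independent.

PROOF. `MobConj f f'`: `homComp d P A B = C k (C a F + C b G)`, `homComp d Q A B = C k (C c F + C e G)`, `P = nP d v`, `Q = nQ d v`, `F = f.num`, `G = f.den`, `A = C a X + C b`, `B = C c X + C e`. Replacing `(a, b, c, e)` by `t (a, b, c, e)` multiplies
the left sides by `t^d` and the right sides by `t` (with the same `k`), so it changes `k` to `k t^(d-1)`; choose `t` with `k t^(d-1) = 1` (`IsAlgClosed`, `2 ≤ d`): we may assume `k = 1`. Then `(a e - b c) F = e * homComp d P A B - b * homComp d Q A B`,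
`(a e - b c) G = a * homComp d Q A B - c * homComp d P A B`, so all coefficients of `F`, `G` are in the field generated by the `v i` and `S = {a, b, c, e}` (`S.card ≤ 4`). FA2 (`y := v`).
-/

namespace Pool.Agent.LSF

open Polynomial Pool.Agent.LenSpec

theorem fw_scale {K : Type} [Field K] (d : ℕ) (P A B : K[X]) (t : K) :
    homComp d P (C t * A) (C t * B) = C (t ^ d) * homComp d P A B := by
  unfold homComp
  rw [Finset.mul_sum]
  refine Finset.sum_congr rfl (fun i hi => ?_)
  have hid : i ≤ d := Nat.lt_succ_iff.1 (Finset.mem_range.1 hi)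
  have h1 : t ^ d = t ^ i * t ^ (d - i) := by
    rw [← pow_add]
    congr 1
    omega
  rw [mul_pow, mul_pow, h1, C_mul, C_pow, C_pow]
  ring

theorem fw_lifts {K : Type} [Field K] [CharZero K] (L : IntermediateField ℚ K) (d : ℕ) (P : K[X])
    (hP : ∀ n, P.coeff n ∈ L) (a b c e : K) (ha : a ∈ L) (hb : b ∈ L) (hc : c ∈ L) (he : e ∈ L)
    (n : ℕ) : (homComp d P (C a * X + C b) (C c * X + C e)).coeff n ∈ L := by
  have hC : ∀ z ∈ L, (C z : K[X]) ∈ Polynomial.lifts (algebraMap L K) :=
    fun z hz => Polynomial.C_mem_lifts (algebraMap L K) ⟨z, hz⟩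
  have hX : (X : K[X]) ∈ Polynomial.lifts (algebraMap L K) := Polynomial.X_mem_lifts _
  have h1 : homComp d P (C a * X + C b) (C c * X + C e) ∈ Polynomial.lifts (algebraMap L K) := by
    unfold homComp
    refine sum_mem (fun i _ => ?_)
    exact mul_mem (mul_mem (hC _ (hP i)) (pow_mem (add_mem (mul_mem (hC a ha) hX) (hC b hb)) _))
      (pow_mem (add_mem (mul_mem (hC c hc) hX) (hC e he)) _)
  obtain ⟨z, hz⟩ := (Polynomial.lifts_iff_coeff_lifts _).1 h1 n
  rw [← hz]
  exact z.2

theorem FW_holds (hFA2 : FA2S) : FWS := by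
  classical
  intro K _ _ _ d f f' v hd hf hconj hv
  obtain ⟨a₀, b₀, c₀, e₀, k, hdet₀, hk, hn₀, hd₀⟩ := hconj
  obtain ⟨t, ht⟩ := IsAlgClosed.exists_pow_nat_eq k⁻¹ (show 0 < d - 1 by omega)
  have ht0 : t ≠ 0 := by
    rintro rfl
    rw [zero_pow (by omega)] at ht
    exact inv_ne_zero hk ht.symm
  obtain ⟨a, b, c, e, hdet, hnum, hden⟩ : ∃ a b c e : K, a * e - b * c ≠ 0 ∧
      homComp d f'.num (C a * X + C b) (C c * X + C e) = C a * f.num + C b * f.den ∧
      homComp d f'.den (C a * X + C b) (C c * X + C e) = C c * f.num + C e * f.den := by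
    refine ⟨t * a₀, t * b₀, t * c₀, t * e₀, ?_, ?_, ?_⟩
    · have h1 : t * a₀ * (t * e₀) - t * b₀ * (t * c₀) = t ^ 2 * (a₀ * e₀ - b₀ * c₀) := by ring
      rw [h1]
      exact mul_ne_zero (pow_ne_zero 2 ht0) hdet₀
    all_goals
      have h1 : (C (t * a₀) * X + C (t * b₀) : K[X]) = C t * (C a₀ * X + C b₀) := by
        rw [C_mul, C_mul]
        ring
      have h2 : (C (t * c₀) * X + C (t * e₀) : K[X]) = C t * (C c₀ * X + C e₀) := by
        rw [C_mul, C_mul]
        ring
      have h3 : t ^ d * k = t := by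
        obtain ⟨j, rfl⟩ : ∃ j, d = j + 1 := ⟨d - 1, by omega⟩
        have h4 : t ^ j = k⁻¹ := ht
        rw [pow_succ, h4]
        field_simp
      rw [h1, h2, fw_scale]
      first
        | rw [hn₀]
          rw [← mul_assoc, ← C_mul, h3, C_mul, C_mul]
          ring
        | rw [hd₀]
          rw [← mul_assoc, ← C_mul, h3, C_mul, C_mul]
          ring
  obtain ⟨hv1, hv2⟩ := hv
  obtain ⟨S, hS⟩ : ∃ S : Finset K, S = {a, b, c, e} := ⟨_, rfl⟩
  refine hFA2 K d f.coef v S hd hf ?_ ?_
  · rw [hS]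
    exact Finset.card_le_four
  obtain ⟨L, hL⟩ : ∃ L, L = IntermediateField.adjoin ℚ (Set.range v ∪ (S : Set K)) := ⟨_, rfl⟩
  rw [← hL]
  have hvL : ∀ i, v i ∈ L := fun i => by
    rw [hL]
    exact IntermediateField.subset_adjoin _ _ (Or.inl ⟨i, rfl⟩)
  have hSL : ∀ z ∈ S, z ∈ L := fun z hz => by
    rw [hL]
    exact IntermediateField.subset_adjoin _ _ (Or.inr hz)
  have haL : a ∈ L := hSL a (by rw [hS]; simp)
  have hbL : b ∈ L := hSL b (by rw [hS]; simp)
  have hcL : c ∈ L := hSL c (by rw [hS]; simp)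
  have heL : e ∈ L := hSL e (by rw [hS]; simp)
  have hPL : ∀ n, f'.num.coeff n ∈ L := by
    intro n
    rw [hv1, nP, Polynomial.finsetSum_coeff]
    refine sum_mem (fun i _ => ?_)
    rw [Polynomial.coeff_C_mul_X_pow]
    split_ifs
    · exact hvL _
    · exact zero_mem _
  have hQL : ∀ n, f'.den.coeff n ∈ L := by
    intro n
    rw [hv2, nQ, nR, Polynomial.coeff_add, Polynomial.coeff_add, Polynomial.finsetSum_coeff,
      Polynomial.coeff_one, Polynomial.coeff_X_pow]
    refine add_mem (add_mem ?_ (sum_mem (fun i _ => ?_))) ?_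
    · split_ifs
      · exact one_mem _
      · exact zero_mem _
    · rw [Polynomial.coeff_C_mul_X_pow]
      split_ifs
      · exact hvL _
      · exact zero_mem _
    · split_ifs
      · exact one_mem _
      · exact zero_mem _
  have hHP := fw_lifts L d f'.num hPL a b c e haL hbL hcL heL
  have hHQ := fw_lifts L d f'.den hQL a b c e haL hbL hcL heL
  rw [hnum] at hHP
  rw [hden] at hHQ
  have hdetL : (a * e - b * c)⁻¹ ∈ L :=
    inv_mem (sub_mem (mul_mem haL heL) (mul_mem hbL hcL))
  have hF : ∀ n, f.num.coeff n ∈ L := by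
    intro n
    have h1 : f.num.coeff n = (a * e - b * c)⁻¹ * (e * (C a * f.num + C b * f.den).coeff n -
        b * (C c * f.num + C e * f.den).coeff n) := by
      rw [coeff_add, coeff_add, coeff_C_mul, coeff_C_mul, coeff_C_mul, coeff_C_mul]
      field_simp
      ring
    rw [h1]
    exact mul_mem hdetL (sub_mem (mul_mem heL (hHP n)) (mul_mem hbL (hHQ n)))
  have hG : ∀ n, f.den.coeff n ∈ L := by
    intro n
    have h1 : f.den.coeff n = (a * e - b * c)⁻¹ * (a * (C c * f.num + C e * f.den).coeff n -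
        c * (C a * f.num + C b * f.den).coeff n) := by
      rw [coeff_add, coeff_add, coeff_C_mul, coeff_C_mul, coeff_C_mul, coeff_C_mul]
      field_simp
      ring
    rw [h1]
    exact mul_mem hdetL (sub_mem (mul_mem haL (hHQ n)) (mul_mem hcL (hHP n)))
  rintro (i | i)
  · exact hF i
  · exact hG i

end Pool.Agent.LSF
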