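import Pool.Agent.LSF.FDefs

/-!
FX: some fixed point of `g` has a multiplier different from `0` and `1`.

PROOF. Otherwise every element of `c.spec g 1 = (g.multSpec 1).map nrm` is `0` or `1` (`nrm 0 = 0`, `nrm 1 = 1`). For `y ∈ f.multSpec 1`: `nrm y = y σ(y) ≠ 0`, so `y σ(y) = 1`, `σ y = y⁻¹`. C2 (`n = 1`):
`∑_{y ∈ f.multSpec 1} (1 - y)⁻¹ = 1`; apply `σ`: `∑ (1 - y⁻¹)⁻¹ = 1`. As `y ≠ 1` (`Good`, via G1), `(1 - y⁻¹)⁻¹ = 1 - (1 - y)⁻¹`, so `1 = (d + 1) - 1` (`card (f.multSpec 1) = d + 1` by G1), i.e. `d = 1` in characteristic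
zero, a contradiction to `2 ≤ d`.
-/

namespace Pool.Agent.LSF

open Polynomial Pool.Agent.LenSpec

theorem FX_holds (g1 : G1S) (c2 : C2S) : FXS := by
  intro K _ _ _ c d f g hf h0 hspec
  by_contra hcon
  push Not at hcon
  have hd : 2 ≤ d := hf.two_le
  have hg : ∀ x ∈ g.multSpec 1, x = 0 ∨ x = 1 := by
    intro x hx
    by_cases hx0 : x = 0
    · exact Or.inl hx0
    · exact Or.inr (hcon x hx hx0)
  have hσ : ∀ y ∈ f.multSpec 1, y * c.σ y = 1 := by
    intro y hy
    have h1 : c.nrm y ∈ c.spec f 1 := Multiset.mem_map_of_mem _ hy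
    rw [hspec] at h1
    obtain ⟨x, hx, hxy⟩ := Multiset.mem_map.mp h1
    have hy0 : c.nrm y ≠ 0 := by
      unfold Cj.nrm
      exact mul_ne_zero (h0 y hy) ((map_ne_zero c.σ).mpr (h0 y hy))
    rcases hg x hx with rfl | rfl
    · exfalso
      apply hy0
      rw [← hxy]
      unfold Cj.nrm
      rw [zero_mul]
    · have : c.nrm y = 1 := by
        rw [← hxy]
        unfold Cj.nrm
        rw [map_one, mul_one]
      exact this
  obtain ⟨_, _, hcard, hroots, hms⟩ := g1 K d 1 f hf le_rfl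
  have h1 : ∀ y ∈ f.multSpec 1, y ≠ 1 := by
    intro y hy
    rw [hms] at hy
    obtain ⟨z, hz, rfl⟩ := Multiset.mem_map.mp hy
    exact hf.mult_ne 1 z le_rfl ((hroots z).mp hz)
  have hsum := c2 K d 1 f hf le_rfl
  have hsum2 := congrArg c.σ hsum
  rw [map_multiset_sum, Multiset.map_map, map_one] at hsum2
  have hterm : ∀ y ∈ f.multSpec 1, (c.σ ∘ fun x => (1 - x)⁻¹) y = 1 - (1 - y)⁻¹ := by
    intro y hy
    have hy0 := h0 y hy
    have hy1 : 1 - y ≠ 0 := sub_ne_zero.mpr (Ne.symm (h1 y hy))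
    have hs : c.σ y = y⁻¹ := by
      field_simp
      rw [mul_comm]
      exact hσ y hy
    have hs1 : 1 - y⁻¹ ≠ 0 := by
      intro hc
      apply hy1
      have : y⁻¹ = 1 := (sub_eq_zero.mp hc).symm
      rw [inv_eq_one] at this
      rw [this, sub_self]
    simp only [Function.comp, map_inv₀, map_sub, map_one, hs]
    have hy2 : y - 1 ≠ 0 := by
      intro hc
      apply hy1
      rw [← neg_sub, hc, neg_zero]
    have e1 : (1 - y⁻¹) = (y - 1) / y := by field_simp
    rw [e1, inv_div]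
    field_simp
    ring
  rw [Multiset.map_congr rfl hterm, Multiset.sum_map_sub, hsum] at hsum2
  have hc2 : Multiset.card (f.multSpec 1) = d + 1 := by
    rw [hms, Multiset.card_map, hcard, pow_one]
  simp only [Multiset.map_const', Multiset.sum_replicate, hc2, nsmul_eq_mul, mul_one] at hsum2
  push_cast at hsum2
  have h3 : (d : K) = ((1 : ℕ) : K) := by
    push_cast
    linear_combination hsum2
  have := Nat.cast_injective h3
  omega

end Pool.Agent.LSF
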