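import Pool.Agent.LSF.CDefs

/-!
GG5: generic parameters satisfy the condition `E5`.

PROOF. `c j = ι j / ι 0`, `ι 0 ≠ 0`. Multiplying by `ι 0 ^ p`: `∏_{i<p} ι (σ i) = ι s ^ (p-1) * ι l`.
The `ι j` are algebraically independent over `ℚ` (`NGen.indep`, composed with `Sum.inl`). The monomials
`∏ X (σ i)` and `X s ^ (p-1) * X l` in `MvPolynomial (Fin d) ℚ` have the same value at `ι`, so they are equal
(`AlgebraicIndependent` is injectivity of `aeval`); compare exponents: the finsupps
`∑_{i<p} single (σ i) 1` and `(p-1) • single s 1 + single l 1` are equal. At `l`: exactly one `k < p` has `σ k = l`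
(as `s ≠ l`), and at every `m ≠ s, l` the value is `0`, so the other `σ i` are `s`.
-/

namespace Pool.Agent.LSF

open Polynomial Pool.Agent.LenSpec

theorem GG5_holds : GG5S := by
  intro K _ _ d hd w ι p hp hN σ s l hsl h
  have hi : AlgebraicIndependent ℚ ι := by
    have := hN.indep.comp Sum.inl Sum.inl_injective
    rwa [Sum.elim_comp_inl] at this
  have h0 : ι ⟨0, by omega⟩ ≠ 0 := hi.ne_zero _
  have h1 : ∏ i ∈ Finset.range p, ι (σ i) = ι s ^ (p - 1) * ι l := by
    simp only [Finset.prod_div_distrib, Finset.prod_const, Finset.card_range] at h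
    have hp' : ι ⟨0, by omega⟩ ^ p = ι ⟨0, by omega⟩ ^ (p - 1) * ι ⟨0, by omega⟩ := by
      rw [← pow_succ]
      congr 1
      omega
    have hpp : ι ⟨0, by omega⟩ ^ p ≠ 0 := pow_ne_zero _ h0
    rw [div_pow, div_mul_div_comm, ← hp'] at h
    exact (div_left_inj' hpp).1 h
  have h2 : (∏ i ∈ Finset.range p, (MvPolynomial.X (σ i) : MvPolynomial (Fin d) ℚ)) =
      MvPolynomial.X s ^ (p - 1) * MvPolynomial.X l := by
    apply hi
    simpa using h1
  have h3 : (∑ i ∈ Finset.range p, Finsupp.single (σ i) 1) =
      Finsupp.single s (p - 1) + Finsupp.single l 1 := by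
    apply MvPolynomial.monomial_left_injective (R := ℚ) (one_ne_zero)
    simp only
    rw [MvPolynomial.monomial_sum_one, ← one_mul (1 : ℚ), ← MvPolynomial.monomial_mul,
      ← MvPolynomial.X_pow_eq_monomial, one_mul]
    exact h2
  have h4 : ∀ m, ((Finset.range p).filter (fun i => σ i = m)).card =
      (if s = m then p - 1 else 0) + (if l = m then 1 else 0) := by
    intro m
    have := DFunLike.congr_fun h3 m
    rw [Finsupp.finsetSum_apply, Finsupp.add_apply] at this
    simp only [Finsupp.single_apply] at this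
    rw [Finset.card_filter]
    exact this
  have h5 := h4 l
  rw [if_neg hsl, if_pos rfl, zero_add, Finset.card_eq_one] at h5
  obtain ⟨k, hk⟩ := h5
  have hk' : k ∈ (Finset.range p).filter (fun i => σ i = l) := by
    rw [hk]; exact Finset.mem_singleton_self k
  rw [Finset.mem_filter, Finset.mem_range] at hk'
  refine ⟨k, hk'.1, hk'.2, fun i hip hik => ?_⟩
  have hil : σ i ≠ l := by
    intro hc
    have : i ∈ (Finset.range p).filter (fun i => σ i = l) :=
      Finset.mem_filter.2 ⟨Finset.mem_range.2 hip, hc⟩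
    rw [hk, Finset.mem_singleton] at this
    exact hik this
  have h6 := h4 (σ i)
  have h7 : 0 < ((Finset.range p).filter (fun j => σ j = σ i)).card :=
    Finset.card_pos.2 ⟨i, Finset.mem_filter.2 ⟨Finset.mem_range.2 hip, rfl⟩⟩
  by_contra hs
  rw [if_neg (fun hc => hs hc.symm), if_neg (fun hc => hil hc.symm)] at h6
  omega

end Pool.Agent.LSF
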