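import Pool.Agent.LSF.CDefs
import Pool.Agent.LenSpec.GI

/-!
GIp: generic injectivity of the multiplier spectrum (periods `1` and `p`).
-/

namespace Pool.Agent.LSF

open Polynomial Pool.Agent.LenSpec

theorem GIp_holds (hNF1 : NF1S) (hNF2 : NF2S) (hNF3 : NF3S) (hMC1 : MC1S) (hMC2 : MC2S)
    (hGC : GCpS) : GIpS := by
  intro K _ _ _ d q f g hd hq hf hx h1 h2
  have hd1 : 1 ≤ d := by omega
  obtain ⟨hrefl, hsymm, htrans⟩ := hMC2 K d hd1
  -- a multiplier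
  have hne : ∃ x₀, x₀ ∈ f.multSpec 1 := GI.multSpec_nonempty f 1
  obtain ⟨x₀, hx₀⟩ := hne
  obtain ⟨w, ι, f₁, hw, hι, hnf, hcf, hsum, hspec⟩ := hNF1 K d f hd hx x₀ hx₀
  have hxg : ∀ x ∈ g.multSpec 1, x ≠ 1 := by rw [← h1]; exact hx
  obtain ⟨w', ι', g₁, hw', hι', hng, hcg, hsum', hspec'⟩ := hNF1 K d g hd hxg x₀ (h1 ▸ hx₀)
  -- match the fixed points
  have hp : Finset.univ.val.map (fun j => 1 - (ι j)⁻¹) =
      Finset.univ.val.map (fun j => 1 - (ι' j)⁻¹) := by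
    have := hspec.symm.trans (h1.trans hspec')
    exact (Multiset.cons_inj_right x₀).1 this
  obtain ⟨σ, hσ⟩ := rz_perm _ _ hp
  have hιι : ∀ j, ι' (σ j) = ι j := by
    intro j
    have := hσ j
    have h3 : (ι j)⁻¹ = (ι' (σ j))⁻¹ := by
      linear_combination -this
    exact (inv_injective h3).symm
  have hng2 : IsNf g₁ (fun j => w' (σ j)) ι := by
    have := GI.isNf_perm σ hng
    have h3 : (fun j => ι' (σ j)) = ι := funext hιι
    rwa [h3] at this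
  have hw'σ : Function.Injective (fun j => w' (σ j)) := hw'.comp σ.injective
  -- normalise f
  set i0 : Fin d := ⟨0, by omega⟩ with hi0
  set i1 : Fin d := ⟨1, by omega⟩ with hi1
  have h01 : w i1 - w i0 ≠ 0 := by
    rw [sub_ne_zero]
    intro h
    have := hw h
    rw [hi0, hi1, Fin.mk.injEq] at this
    omega
  have ha : (w i1 - w i0)⁻¹ ≠ 0 := inv_ne_zero h01
  obtain ⟨f₂, hnf₂, hcf₂⟩ := hNF2 K d f₁ w ι (w i1 - w i0)⁻¹ (-((w i1 - w i0)⁻¹ * w i0)) hd1 ha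
    hw hι hnf
  set w₂ : Fin d → K := fun j => (w i1 - w i0)⁻¹ * w j + -((w i1 - w i0)⁻¹ * w i0) with hw₂
  have hw20 : w₂ i0 = 0 := by
    rw [hw₂]
    simp
  have hw21 : w₂ i1 = 1 := by
    rw [hw₂]
    simp only
    field_simp
    ring
  have hcff₂ : MobConj f f₂ := htrans _ _ _ hcf hcf₂
  have hgen : NGen hd w₂ ι := hNF3 K d hd f f₂ w₂ ι hf hcff₂ hnf₂ hw20 hw21
  have hms : ∀ x ∈ g₁.multSpec q, x ∈ f₂.multSpec q := by
    rw [← hMC1 K d f f₂ hd1 hcff₂ q, ← hMC1 K d g g₁ hd1 hcg q]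
    exact h2
  obtain ⟨a, b, ha0, hab⟩ := hGC K d q hd f₂ g₁ w₂ (fun j => w' (σ j)) ι hq hgen hw'σ hnf₂ hng2
    hms
  have hw₂inj : Function.Injective w₂ := by
    intro j l hjl
    apply hw
    rw [hw₂] at hjl
    simp only at hjl
    have := add_right_cancel hjl
    exact mul_left_cancel₀ ha this
  obtain ⟨f₃, hnf₃, hcf₃⟩ := hNF2 K d f₂ w₂ ι a b hd1 ha0 hw₂inj hι hnf₂
  have heq : (fun j => a * w₂ j + b) = fun j => w' (σ j) := by
    funext j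
    exact (hab j).symm
  rw [heq] at hnf₃
  have hfg : f₃ = g₁ := GI.eq_of_num_den (by rw [hnf₃.1, hng2.1]) (by rw [hnf₃.2, hng2.2])
  rw [hfg] at hcf₃
  exact htrans _ _ _ (htrans _ _ _ hcff₂ hcf₃) (hsymm _ _ hcg)

end Pool.Agent.LSF
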