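import Pool.Agent.LSF.CDefs
import Pool.Agent.LenSpec.PlBasic

/-!
GMp: matching cycles have equal multipliers. Model: `Pool/Agent/LenSpec/GM.lean`.

PROOF. `x := mW … w' p z' ∈ g.multSpec p` (TC3p), hence `∈ f.multSpec p`. By TC2p (i) `δ^p x → (∏ (-c̄ (wd p s l i)))⁻¹ ≠ 0`,
`∏_{i<p} (-c̄ (wd p s l i)) = (-1)^p c̄ s^(p-1) c̄ l`. TC4a for `f`: (a) `x = (1 - (1 - ∑ δ c)⁻¹)^p`: `δ^p x → 0`, contradiction.
(b) `x = (1 - (δ c j)⁻¹)^p`: `δ^p x → (-1/c̄ j)^p`, so `c̄ j ^ p = c̄ s^(p-1) c̄ l`: `E5` with the constant word `j` gives `j = l` (at `k`) and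
`j = s` (at another index, `p ≥ 2`): contradiction. (c) `x = mW w z₀`, `PC`: TC4b gives `σ`, periodic, `NearW … σ z₀`; TC2p (i) with
`V = univ` gives `∏ (-c̄ (σ i)) = ∏ (-c̄ (wd p s l i))`, and `E5` gives `k < p`, `σ k = l`, `σ i = s` for the other `i < p`. Then
`z i := z₀ (i + k + 1)` is the required orbit: `σ (i + k + 1) = wd p s l i` (periodicity: `i % p = p - 1` iff `(i + k + 1) % p = k`), and the
product of a periodic function over `range p` is invariant under shifts (`Finset.prod_range_succ`, `prod_range_succ'`, induction on the shift).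
-/

namespace Pool.Agent.LSF

open Polynomial Pool.Agent.LenSpec
open Pool.Agent.LenSpec.Pl

section gmp

variable {K κ : Type} [Field K] [Field κ] {d : ℕ}

theorem gmp_shift {M : Type*} [CommMonoid M] (p : ℕ) (F : ℕ → M) (hF : ∀ i, F (i + p) = F i)
    (k : ℕ) : ∏ i ∈ Finset.range p, F (i + k) = ∏ i ∈ Finset.range p, F i := by
  induction k with
  | zero => rfl
  | succ k ih =>
    rw [← ih]
    have h4 : ∏ i ∈ Finset.range p, F (i + (k + 1)) = ∏ i ∈ Finset.range p, F (i + 1 + k) := by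
      refine Finset.prod_congr rfl fun i _ => ?_
      congr 1
      omega
    rw [h4]
    rcases p with _ | q
    · simp
    · rw [Finset.prod_range_succ (fun i => F (i + 1 + k)) q,
        Finset.prod_range_succ' (fun i => F (i + k)) q]
      have h5 : F (q + 1 + k) = F (0 + k) := by
        rw [show q + 1 + k = k + (q + 1) by omega, hF, Nat.zero_add]
      rw [h5]

theorem gmp_per {α : Type*} (p : ℕ) (F : ℕ → α) (hF : ∀ i, F (i + p) = F i) (m : ℕ) :
    F m = F (m % p) := by
  have h : ∀ q r : ℕ, F (r + p * q) = F r := by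
    intro q
    induction q with
    | zero => intro r; simp
    | succ q ih =>
      intro r
      rw [show r + p * (q + 1) = (r + p * q) + p by ring, hF, ih]
  conv_lhs => rw [← Nat.mod_add_div m p]
  exact h _ _

theorem gmp_wd_prod {R : Type*} [CommMonoid R] (p : ℕ) (hp : 1 ≤ p) (s l : Fin d)
    (F : Fin d → R) : ∏ i ∈ Finset.range p, F (wd p s l i) = F s ^ (p - 1) * F l := by
  obtain ⟨q, rfl⟩ : ∃ q, p = q + 1 := ⟨p - 1, by omega⟩
  rw [Finset.prod_range_succ]
  have h1 : wd (q + 1) s l q = l := by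
    unfold wd
    rw [if_pos]
    rw [Nat.mod_eq_of_lt (by omega)]
    omega
  have h2 : ∏ i ∈ Finset.range q, F (wd (q + 1) s l i) = ∏ _i ∈ Finset.range q, F s := by
    refine Finset.prod_congr rfl fun i hi => ?_
    have hi' := Finset.mem_range.1 hi
    congr 1
    unfold wd
    rw [if_neg]
    rw [Nat.mod_eq_of_lt (by omega)]
    omega
  rw [h1, h2, Finset.prod_const, Finset.card_range]
  simp

theorem gmp_wd_mem (p : ℕ) {s l : Fin d} {V : Finset (Fin d)} (hs : s ∈ V) (hl : l ∈ V) (i : ℕ) :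
    wd p s l i ∈ V := by
  unfold wd
  split_ifs
  · exact hl
  · exact hs

theorem gmp_sum (P : Pl K κ) {δ : K} {c : Fin d → K} (hδ : P.Red δ 0) (hc : ∀ j, c j ∈ P.O) :
    P.Red (∑ j, δ * c j) 0 := by
  have h1 : P.Red (∑ j, δ * c j) (∑ _j : Fin d, (0 : κ)) := by
    apply red_sum
    intro j _
    exact (hδ.mul (red_rs (hc j))).eq rfl (by simp)
  exact h1.eq rfl (by simp)

theorem gmp_inf (P : Pl K κ) {δ : K} {c : Fin d → K} {p : ℕ} (hp : 1 ≤ p) (hδ : P.Red δ 0)
    (hc : ∀ j, c j ∈ P.O) :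
    P.Red (δ ^ p * (1 - (1 - ∑ j, δ * c j)⁻¹) ^ p) 0 := by
  have h1 := gmp_sum P hδ hc
  have h2 : P.Red (1 - ∑ j, δ * c j) 1 := (red_one.sub h1).eq rfl (by simp)
  have h3 := h2.inv one_ne_zero
  have h4 : P.Red (1 - (1 - ∑ j, δ * c j)⁻¹) 0 := (red_one.sub h3).eq rfl (by simp)
  refine ((hδ.pow p).mul (h4.pow p)).eq rfl ?_
  rw [zero_pow (by omega)]
  simp

theorem gmp_fix (P : Pl K κ) {δ c : K} {p : ℕ} (hδ0 : δ ≠ 0) (hδ : P.Red δ 0) (hc : c ∈ P.O)
    (hc' : P.rs c ≠ 0) :
    P.Red (δ ^ p * (1 - (δ * c)⁻¹) ^ p) ((-P.rs c) ^ p)⁻¹ := by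
  have hc0 : c ≠ 0 := (red_rs hc).ne_zero hc'
  have h1 : P.Red ((δ - c⁻¹) ^ p) ((0 - (P.rs c)⁻¹) ^ p) := (hδ.sub ((red_rs hc).inv hc')).pow p
  refine h1.eq ?_ ?_
  · rw [← mul_pow]
    congr 1
    field_simp
  · rw [← inv_pow]
    congr 1
    rw [zero_sub, inv_neg]

end gmp

theorem GMp_holds (h2 : TC2pS) (h3 : TC3pS) (h4a : TC4aS) (h4b : TC4bS) : GMpS := by
  classical
  intro K κ _ _ _ P d p f g c w w' δ V hd hp hC hE hw hf hC' hg hfg s hs l hl hsl z' hz'
  have hp1 : 1 ≤ p := by omega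
  have hδ0 := hC.δ_ne
  have hc0 : ∀ j, c j ≠ 0 := fun j => (red_rs (hC.c_mem j)).ne_zero (hC.c_ne j)
  -- the multiplier is in the spectrum
  have hm : mW (fun j => δ * c j) w' p z' ∈ g.multSpec p :=
    h3 K d p g w' (fun j => δ * c j) z' hd hp1 hg hz'.pc
  have hm' := hfg _ hm
  have hr := (h2 K κ P d p c w' δ V hC' (wd p s l) z' (gmp_wd_mem p hs hl) hz').1
  have hprod : ∏ i ∈ Finset.range p, (-P.rs (c (wd p s l i))) ≠ 0 :=
    Finset.prod_ne_zero_iff.2 fun i _ => neg_ne_zero.2 (hC.c_ne _)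
  have hsum : ∑ j, (fun j => δ * c j) j ≠ 1 := by
    intro h
    have h5 := gmp_sum P hC.δ_red hC.c_mem
    have h6 : P.Red (1 : K) 0 := h5.eq h rfl
    exact one_ne_zero (red_one.unique h6)
  -- from equality of the products of `-c̄` to equality of the products of `c̄`
  have key : ∀ σ : ℕ → Fin d,
      ∏ i ∈ Finset.range p, (-P.rs (c (σ i))) = ∏ i ∈ Finset.range p, (-P.rs (c (wd p s l i))) →
      ∏ i ∈ Finset.range p, (fun j => P.rs (c j)) (σ i) =
        (fun j => P.rs (c j)) s ^ (p - 1) * (fun j => P.rs (c j)) l := by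
    intro σ h
    rw [← gmp_wd_prod p hp1 s l (fun j => P.rs (c j))]
    rw [Finset.prod_neg, Finset.prod_neg] at h
    have h0 : ((-1 : κ) ^ (Finset.range p).card) ≠ 0 := pow_ne_zero _ (neg_ne_zero.2 one_ne_zero)
    exact mul_left_cancel₀ h0 h
  rcases h4a K d p f w (fun j => δ * c j) hd hp1 hw (fun j => mul_ne_zero hδ0 (hc0 j)) hsum hf _ hm'
    with h | ⟨j, h⟩ | ⟨z₀, hz₀, h⟩
  · exfalso
    rw [h] at hr
    have h5 := hr.unique (gmp_inf P hp1 hC.δ_red hC.c_mem)
    exact inv_ne_zero hprod h5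
  · exfalso
    rw [h] at hr
    have h5 := hr.unique (gmp_fix P hδ0 hC.δ_red (hC.c_mem j) (hC.c_ne j))
    have h6 := (inv_injective h5).symm
    have h7 := key (fun _ => j) (by
      rw [← h6, Finset.prod_const, Finset.card_range])
    obtain ⟨k, hk, hkl, hks⟩ := hE (fun _ => j) s l hsl h7
    have hjl : j = l := hkl
    have hjs : j = s := by
      by_cases hk0 : k = 0
      · exact hks 1 (by omega) (by omega)
      · exact hks 0 (by omega) (by omega)
    exact hsl (hjs.symm.trans hjl)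
  · obtain ⟨σ, hσ, hN⟩ := h4b K κ P d p c w δ z₀ hp1 hC hz₀
    have h5 := (h2 K κ P d p c w δ Finset.univ hC σ z₀ (fun i => Finset.mem_univ _) hN).1
    rw [← h] at h5
    have h6 := key σ (inv_injective (h5.unique hr))
    obtain ⟨k, hk, hkl, hks⟩ := hE σ s l hsl h6
    have hwd : ∀ i, σ (i + (k + 1)) = wd p s l i := by
      intro i
      rw [gmp_per p σ hσ (i + (k + 1))]
      have hlt : (i + (k + 1)) % p < p := Nat.mod_lt _ (by omega)
      unfold wd
      by_cases hi : i % p = p - 1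
      · rw [if_pos hi]
        have h7 : (i + (k + 1)) % p = k := by
          have h8 : i = p * (i / p) + (p - 1) := by
            conv_lhs => rw [← Nat.div_add_mod i p, hi]
          have h9 : i + (k + 1) = k + p * (i / p + 1) := by
            rw [Nat.mul_add]
            omega
          rw [h9, Nat.add_mul_mod_self_left, Nat.mod_eq_of_lt hk]
        rw [h7, hkl]
      · rw [if_neg hi]
        apply hks _ hlt
        intro h7
        apply hi
        have h8 : i + (k + 1) = p * ((i + (k + 1)) / p) + k := by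
          conv_lhs => rw [← Nat.div_add_mod (i + (k + 1)) p, h7]
        have h9 : i + 1 = p * ((i + (k + 1)) / p) := by omega
        have h10 : 0 < (i + (k + 1)) / p := by
          rcases Nat.eq_zero_or_pos ((i + (k + 1)) / p) with h | h
          · rw [h] at h9
            omega
          · exact h
        obtain ⟨q, hq⟩ : ∃ q, (i + (k + 1)) / p = q + 1 := ⟨(i + (k + 1)) / p - 1, by omega⟩
        rw [hq] at h9
        have h11 : i = (p - 1) + p * q := by
          rw [Nat.mul_add] at h9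
          omega
        rw [h11, Nat.add_mul_mod_self_left, Nat.mod_eq_of_lt (by omega)]
    refine ⟨fun i => z₀ (i + (k + 1)), ⟨⟨?_, ?_, ?_⟩, ?_⟩, ?_⟩
    · intro i
      show z₀ (i + p + (k + 1)) = z₀ (i + (k + 1))
      rw [show i + p + (k + 1) = i + (k + 1) + p by omega, hz₀.per]
    · intro i j
      exact hz₀.hz _ _
    · intro i
      show nN (fun j => δ * c j) w (z₀ (i + (k + 1))) *
        (z₀ (i + (k + 1)) - z₀ (i + 1 + (k + 1))) = 1
      rw [show i + 1 + (k + 1) = i + (k + 1) + 1 by omega]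
      exact hz₀.eq _
    · intro i
      have h7 := hN.red (i + (k + 1))
      rw [hwd i, show i + (k + 1) + 1 = i + 1 + (k + 1) by omega, hwd (i + 1)] at h7
      exact h7
    · rw [h]
      unfold mW
      have h8 := gmp_shift p (fun i => 1 - nD (fun j => δ * c j) w (z₀ i) *
        (z₀ i - z₀ (i + 1)) ^ 2) (by
          intro i
          have e1 := hz₀.per i
          have e2 := hz₀.per (i + 1)
          rw [show i + 1 + p = i + p + 1 by omega] at e2
          simp only [e1, e2]) (k + 1)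
      rw [← h8]
      refine Finset.prod_congr rfl fun i _ => ?_
      show 1 - nD (fun j => δ * c j) w (z₀ (i + (k + 1))) *
        (z₀ (i + (k + 1)) - z₀ (i + 1 + (k + 1))) ^ 2 = _
      rw [show i + 1 + (k + 1) = i + (k + 1) + 1 by omega]

end Pool.Agent.LSF
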