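import Pool.Agent.LSF.CDefs
import Pool.Agent.LenSpec.GR

/-!
GRp: a place at which `δ = ι 0` is small and the other parameters are constants.

Model: `Pool/Agent/LenSpec/GR.lean`: copy the proof of `GR_holds`; `E5` is transferred like `GGen` by the
injective ring homomorphisms `algebraMap k K` and `φ : k → κ` (two small lemmas `e5_map`, `e5_of_map`).
-/

namespace Pool.Agent.LSF

open Polynomial Pool.Agent.LenSpec

section maps

variable {F L : Type} [Field F] [Field L] {d n : ℕ}

theorem e5_map (φ : F →+* L) (c : Fin d → F) (h : E5 n c) : E5 n (fun j => φ (c j)) := by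
  intro σ s l hsl hp
  apply h σ s l hsl
  apply φ.injective
  rw [map_prod, map_mul, map_pow]
  exact hp

theorem e5_of_map (φ : F →+* L) (c : Fin d → F) (h : E5 n (fun j => φ (c j))) : E5 n c := by
  intro σ s l hsl hp
  apply h σ s l hsl
  have h1 := congrArg φ hp
  rw [map_prod, map_mul, map_pow] at h1
  exact h1

end maps

open GR in
theorem GRp_holds (hV1 : V1S) : GRpS := by
  intro K _ _ _ d hd w ι n hN hG hE
  obtain ⟨hw0, hw1, hind⟩ := hN
  classical
  have hι0 : ι ⟨0, by omega⟩ ≠ 0 := hind.ne_zero (Sum.inl ⟨0, by omega⟩)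
  let x : Fin d ⊕ Fin (d - 2) → K := Sum.elim ι (fun j : Fin (d - 2) => w ⟨j + 2, by omega⟩)
  let i₀ : Fin d ⊕ Fin (d - 2) := Sum.inl ⟨0, by omega⟩
  let y : Fin d ⊕ Fin (d - 2) → K := fun i => match i with
    | Sum.inl j => if (j : ℕ) = 0 then ι ⟨0, by omega⟩ else ι j / ι ⟨0, by omega⟩
    | Sum.inr j => w ⟨j + 2, by omega⟩
  have hy0 : y i₀ = ι ⟨0, by omega⟩ := by
    simp [y, i₀]
  have hyi : AlgebraicIndependent ℚ y := by
    apply Q1.indep_of_alg hind
    intro i
    have hmem : x i ∈ Algebra.adjoin ℚ (Set.range y) := by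
      rcases i with j | j
      · by_cases hj : (j : ℕ) = 0
        · have h1 : x (Sum.inl j) = y i₀ := by
            rw [hy0]
            change ι j = _
            congr 1
            exact Fin.ext hj
          rw [h1]
          exact Algebra.subset_adjoin ⟨i₀, rfl⟩
        · have h1 : x (Sum.inl j) = y i₀ * y (Sum.inl j) := by
            rw [hy0]
            simp only [x, y, Sum.elim_inl, if_neg hj]
            field_simp
          rw [h1]
          exact mul_mem (Algebra.subset_adjoin ⟨i₀, rfl⟩) (Algebra.subset_adjoin ⟨Sum.inl j, by simp only [y, if_neg hj]⟩)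
      · exact Algebra.subset_adjoin ⟨Sum.inr j, rfl⟩
    exact isAlgebraic_algebraMap (⟨_, hmem⟩ : Algebra.adjoin ℚ (Set.range y))
  obtain ⟨k, hk⟩ : ∃ k, k = IntermediateField.adjoin ℚ (y '' {i₀}ᶜ) := ⟨_, rfl⟩
  have htr : AlgebraicIndependent k (fun _ : Unit => ι ⟨0, by omega⟩) := by
    rw [hk, IntermediateField.algebraicIndependent_adjoin_iff, algebraicIndependent_unique_type_iff,
      ← hy0]
    exact hyi.transcendental_adjoin (s := {i₀}ᶜ) (i := i₀) (by simp)
  have hck : ∀ j, ι j / ι ⟨0, by omega⟩ ∈ k := by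
    intro j
    by_cases hj : (j : ℕ) = 0
    · have h1 : ι j / ι ⟨0, by omega⟩ = 1 := by
        have h2 : j = ⟨0, by omega⟩ := Fin.ext hj
        rw [h2, div_self hι0]
      rw [h1]
      exact k.one_mem
    · rw [hk]
      apply IntermediateField.subset_adjoin
      refine ⟨Sum.inl j, ?_, ?_⟩
      · intro hc
        simp only [i₀, Set.mem_singleton_iff, Sum.inl.injEq] at hc
        apply hj
        rw [hc]
      · simp only [y, if_neg hj]
  have hwk : ∀ j, w j ∈ k := by
    rintro ⟨j, hj⟩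
    rcases j with _ | _ | j
    · rw [hw0]
      exact k.zero_mem
    · rw [hw1]
      exact k.one_mem
    · rw [hk]
      apply IntermediateField.subset_adjoin
      refine ⟨Sum.inr ⟨j, by omega⟩, ?_, rfl⟩
      intro hc
      simp [i₀] at hc
  obtain ⟨κ, _, _, p, -, hkO, hred⟩ := hV1 K k Unit (fun _ => ι ⟨0, by omega⟩) (fun _ => 0) htr
    (fun _ => k.zero_mem)
  have hred0 : p.Red (ι ⟨0, by omega⟩) 0 := by
    have := hred ()
    rwa [sub_zero] at this
  let φ : k →+* κ := p.res.comp
    { toFun := fun y => (⟨y, hkO y y.2⟩ : p.O)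
      map_one' := rfl
      map_mul' := fun _ _ => rfl
      map_zero' := rfl
      map_add' := fun _ _ => rfl }
  have hφ : ∀ z (hz : z ∈ k), p.rs z = φ ⟨z, hz⟩ := by
    intro z hz
    exact Pl.Red.rs_eq ⟨hkO z hz, rfl⟩
  have hG1 : GGen (fun j => (⟨ι j / ι ⟨0, by omega⟩, hck j⟩ : k)) (fun j => (⟨w j, hwk j⟩ : k)) := by
    apply ggen_of_map (algebraMap k K)
    exact hG
  have hG2 : GGen (fun j => p.rs (ι j / ι ⟨0, by omega⟩)) (fun j => p.rs (w j)) := by
    have h1 := ggen_map φ _ _ hG1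
    have h2 : (fun j => p.rs (ι j / ι ⟨0, by omega⟩)) =
        fun j => φ (⟨ι j / ι ⟨0, by omega⟩, hck j⟩ : k) := by
      funext j
      exact hφ _ _
    have h3 : (fun j => p.rs (w j)) = fun j => φ (⟨w j, hwk j⟩ : k) := by
      funext j
      exact hφ _ _
    rw [h2, h3]
    exact h1
  have hE1 : E5 n (fun j => (⟨ι j / ι ⟨0, by omega⟩, hck j⟩ : k)) := by
    apply e5_of_map (algebraMap k K)
    exact hE
  have hE2 : E5 n (fun j => p.rs (ι j / ι ⟨0, by omega⟩)) := by
    have h1 := e5_map φ _ hE1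
    have h2 : (fun j => p.rs (ι j / ι ⟨0, by omega⟩)) =
        fun j => φ (⟨ι j / ι ⟨0, by omega⟩, hck j⟩ : k) := by
      funext j
      exact hφ _ _
    rw [h2]
    exact h1
  refine ⟨κ, inferInstance, inferInstance, p, ?_, hG2, hE2⟩
  exact {
    δ_ne := hι0
    δ_red := hred0
    c_mem := fun j => hkO _ (hck j)
    c_ne := fun j => hG2.c_ne j
    w_mem := fun s _ => hkO _ (hwk s)
    w_ne := fun s _ l _ hsl hc => hsl (hG2.inj hc)
    w_inf := fun m hm => absurd (Finset.mem_univ m) hm }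

end Pool.Agent.LSF
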