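import Pool.Agent.LSF.CDefs
import Pool.Agent.LenSpec.LOC

/-!
LOCp: local injectivity.

Model: `Pool/Agent/LenSpec/LOC.lean` (the case `p = 2`). Its lemmas (namespace `LOCAux`) can be used: `sa`, `sb`,
`aa`, `alg1`, `Side` (with `a_lin`, `aa_diff`, `aa_red`, `aa_red'`; the field `sl : s ≠ l` of `Side` is an obstacle only
if it is used: here consecutive letters may be EQUAL, so make your own copy of `Side` without the field `sl`,
it is never used), `res_alg`. Only `lin2` and `pair` change.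

PROOF. Let `σ = wd p s l`, `z`, `y` the two orbits, `D_i = z i - z (i+1)`, `D'_i = y i - y (i+1)`,
`a_i = ((y i - w' (σ i)) - (z i - w (σ i))) / (δ θ)` (periodic), `h j = (w' j - w j)/θ`. Then `(D'_i - D_i)/θ = h (σ i) - h (σ (i+1)) +
δ (a_i - a_{i+1})`, so every `i` is a `Side` with `(s, l, a, b) := (σ i, σ (i+1), a_i, a_{i+1})`, and `a_lin` gives
`a_i = p_i + δ (q_i a_i + r_i a_{i+1})`, `p_i, q_i, r_i ∈ O`. ALL `a_i ∈ O`: choose (`Pl.exists_dvd_all` over `range p`) `m` with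
`a_m ≠ 0`, `a_j / a_m ∈ O` for all `j`; if `a_m ∉ O`, dividing by `a_m` gives `1 = p_m/a_m + δ (q_m + r_m a_{m+1}/a_m) → 0`.
Then `(aa'_i - aa_i)/(δ θ) → 2 R_i`, `R_i = E (σ i) (h (σ i) - h (σ (i+1))) + (W (σ i) - W (σ (i+1))) e (σ i)`, `aa_i → -1`, `aa'_i → -1`, and `∏ aa_i = ∏ aa'_i`
(multiply `mW = mW'` by `∏ δ c (σ i)`, `alg1`). Telescoping: `(∏ x'_i - ∏ x_i)/t → (-1)^(p-1) ∑ R'_i` if `x_i, x'_i → -1` and
`(x'_i - x_i)/t → R'_i` (induction). So `2 ∑_{i<p} R_i = 0`. For `σ = wd p s l` only `i = p-2` and `i = p-1` contribute: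
`∑ R_i = (h s - h l)(E s - E l) + (W s - W l)(e s - e l)`, which is the conclusion of `pair`; the end of the proof
(`res_alg`, `key`) is unchanged.
-/

namespace Pool.Agent.LSF

open Polynomial Pool.Agent.LenSpec Pool.Agent.LenSpec.Pl Pool.Agent.LenSpec.LOCAux

namespace LOCpAux

variable {K κ : Type} [Field K] [Field κ] {d : ℕ}

/-- the data of one side -/
structure SideP (p : Pl K κ) (δ : K) (c w w' : Fin d → K) (θ : K) (s l : Fin d)
    (z D z₁ D₁ a b : K) : Prop where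
  δ_ne : δ ≠ 0
  θ_ne : θ ≠ 0
  δ_red : p.Red δ 0
  c_mem : ∀ j, c j ∈ p.O
  w_mem : ∀ j, w j ∈ p.O
  w_mem' : ∀ j, w' j ∈ p.O
  w_eq : ∀ j, p.rs (w j) = p.rs (w' j)
  w_ne : ∀ j l, j ≠ l → p.rs (w j) ≠ p.rs (w l)
  h_mem : ∀ j, (w' j - w j) / θ ∈ p.O
  z_red : p.Red z (p.rs (w s))
  z_red' : p.Red z₁ (p.rs (w s))
  D_red : p.Red D (p.rs (w s) - p.rs (w l))
  D_red' : p.Red D₁ (p.rs (w s) - p.rs (w l))
  ha : a = ((z₁ - w' s) - (z - w s)) / (δ * θ)
  hD : (D₁ - D) / θ = (w' s - w s) / θ - (w' l - w l) / θ + δ * (a - b)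
  eqz : (z - w s) * (1 - δ * sa c w s z * D) = δ * c s * D
  eqz' : (z₁ - w' s) * (1 - δ * sa c w' s z₁ * D₁) = δ * c s * D₁

namespace SideP

variable {p : Pl K κ} {δ : K} {c w w' : Fin d → K} {θ : K} {s l : Fin d}
  {z D z₁ D₁ a b : K}

lemma x_red (S : SideP p δ c w w' θ s l z D z₁ D₁ a b) (j : Fin d) :
    p.Red (z - w j) (p.rs (w s) - p.rs (w j)) := S.z_red.sub (red_rs (S.w_mem j))

lemma x_red' (S : SideP p δ c w w' θ s l z D z₁ D₁ a b) (j : Fin d) :
    p.Red (z₁ - w' j) (p.rs (w s) - p.rs (w j)) :=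
  (S.z_red'.sub (red_rs (S.w_mem' j))).eq rfl (by rw [S.w_eq j])

lemma x_ne (S : SideP p δ c w w' θ s l z D z₁ D₁ a b) (j : Fin d) (hj : j ≠ s) :
    p.rs (w s) - p.rs (w j) ≠ 0 := sub_ne_zero.2 (S.w_ne s j hj.symm)

lemma sa_red (S : SideP p δ c w w' θ s l z D z₁ D₁ a b) :
    p.Red (sa c w s z) (eE Finset.univ (fun j => p.rs (c j)) (fun j => p.rs (w j)) s) := by
  unfold sa eE
  apply red_sum
  intro j hj
  exact (red_rs (S.c_mem j)).div (S.x_red j) (S.x_ne j (Finset.ne_of_mem_erase hj))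

lemma sa_red' (S : SideP p δ c w w' θ s l z D z₁ D₁ a b) :
    p.Red (sa c w' s z₁) (eE Finset.univ (fun j => p.rs (c j)) (fun j => p.rs (w j)) s) := by
  unfold sa eE
  apply red_sum
  intro j hj
  exact (red_rs (S.c_mem j)).div (S.x_red' j) (S.x_ne j (Finset.ne_of_mem_erase hj))

lemma sb_mem (S : SideP p δ c w w' θ s l z D z₁ D₁ a b) : sb c w s z ∈ p.O := by
  unfold sb
  apply p.O.sum_mem
  intro j hj
  exact ((red_rs (S.c_mem j)).div ((S.x_red j).pow 2)
    (pow_ne_zero 2 (S.x_ne j (Finset.ne_of_mem_erase hj)))).mem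

lemma sb_mem' (S : SideP p δ c w w' θ s l z D z₁ D₁ a b) : sb c w' s z₁ ∈ p.O := by
  unfold sb
  apply p.O.sum_mem
  intro j hj
  exact ((red_rs (S.c_mem j)).div ((S.x_red' j).pow 2)
    (pow_ne_zero 2 (S.x_ne j (Finset.ne_of_mem_erase hj)))).mem

/-- the differences -/
lemma x_diff (S : SideP p δ c w w' θ s l z D z₁ D₁ a b) (j : Fin d) :
    ((z₁ - w' j) - (z - w j)) / θ = (w' s - w s) / θ - (w' j - w j) / θ + δ * a := by
  have h1 := S.δ_ne
  have h2 := S.θ_ne
  rw [S.ha]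
  field_simp
  ring

/-- the constant term of the difference of the first sums -/
noncomputable def pp (_ : SideP p δ c w w' θ s l z D z₁ D₁ a b) : K :=
  -∑ j ∈ Finset.univ.erase s, c j * ((w' s - w s) / θ - (w' j - w j) / θ) /
    ((z - w j) * (z₁ - w' j))

/-- the linear term of the difference of the first sums -/
noncomputable def qq (_ : SideP p δ c w w' θ s l z D z₁ D₁ a b) : K :=
  -∑ j ∈ Finset.univ.erase s, c j / ((z - w j) * (z₁ - w' j))

lemma x0 (S : SideP p δ c w w' θ s l z D z₁ D₁ a b) (j : Fin d) (hj : j ≠ s) : z - w j ≠ 0 :=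
  (S.x_red j).ne_zero (S.x_ne j hj)

lemma x0' (S : SideP p δ c w w' θ s l z D z₁ D₁ a b) (j : Fin d) (hj : j ≠ s) :
    z₁ - w' j ≠ 0 := (S.x_red' j).ne_zero (S.x_ne j hj)

lemma sa_diff (S : SideP p δ c w w' θ s l z D z₁ D₁ a b) :
    (sa c w' s z₁ - sa c w s z) / θ = S.pp + δ * a * S.qq := by
  unfold sa pp qq
  rw [← Finset.sum_sub_distrib, Finset.sum_div, mul_neg, Finset.mul_sum, ← neg_add,
    ← Finset.sum_add_distrib, ← Finset.sum_neg_distrib]
  apply Finset.sum_congr rfl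
  intro j hj
  have hj' := Finset.ne_of_mem_erase hj
  have h1 := S.x0 j hj'
  have h2 := S.x0' j hj'
  have h3 := S.x_diff j
  have h4 : (c j / (z₁ - w' j) - c j / (z - w j)) / θ =
      -(c j * (((z₁ - w' j) - (z - w j)) / θ) / ((z - w j) * (z₁ - w' j))) := by
    have := S.θ_ne
    field_simp
    ring
  rw [h4, h3]
  ring

lemma pp_red (S : SideP p δ c w w' θ s l z D z₁ D₁ a b) :
    p.Red S.pp (-∑ j ∈ Finset.univ.erase s,
      p.rs (c j) * (p.rs ((w' s - w s) / θ) - p.rs ((w' j - w j) / θ)) /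
        (p.rs (w s) - p.rs (w j)) ^ 2) := by
  unfold pp
  apply Red.neg
  apply red_sum
  intro j hj
  have hj' := Finset.ne_of_mem_erase hj
  refine (((red_rs (S.c_mem j)).mul ((red_rs (S.h_mem s)).sub (red_rs (S.h_mem j)))).div
    ((S.x_red j).mul (S.x_red' j)) ?_).eq rfl ?_
  · exact mul_ne_zero (S.x_ne j hj') (S.x_ne j hj')
  · rw [sq]

lemma qq_mem (S : SideP p δ c w w' θ s l z D z₁ D₁ a b) : S.qq ∈ p.O := by
  unfold qq
  apply p.O.neg_mem
  apply p.O.sum_mem
  intro j hj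
  have hj' := Finset.ne_of_mem_erase hj
  exact ((red_rs (S.c_mem j)).div ((S.x_red j).mul (S.x_red' j))
    (mul_ne_zero (S.x_ne j hj') (S.x_ne j hj'))).mem

lemma u_red (S : SideP p δ c w w' θ s l z D z₁ D₁ a b) :
    p.Red (1 - δ * sa c w s z * D) 1 :=
  (red_one.sub ((S.δ_red.mul S.sa_red).mul S.D_red)).eq rfl (by ring)

lemma u_red' (S : SideP p δ c w w' θ s l z D z₁ D₁ a b) :
    p.Red (1 - δ * sa c w' s z₁ * D₁) 1 :=
  (red_one.sub ((S.δ_red.mul S.sa_red').mul S.D_red')).eq rfl (by ring)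

lemma a_lin (S : SideP p δ c w w' θ s l z D z₁ D₁ a b) :
    ∃ p₁ ∈ p.O, ∃ q₁ ∈ p.O, ∃ r₁ ∈ p.O, a = p₁ + δ * (q₁ * a + r₁ * b) := by
  have hu := S.u_red
  have hu' := S.u_red'
  have hu0 := hu.ne_zero one_ne_zero
  have hu0' := hu'.ne_zero one_ne_zero
  have hc : c s / ((1 - δ * sa c w s z * D) * (1 - δ * sa c w' s z₁ * D₁)) ∈ p.O :=
    ((red_rs (S.c_mem s)).div (hu.mul hu') (by simp)).mem
  have hpp := S.pp_red.mem
  have hqq := S.qq_mem
  have hDm := S.D_red.mem
  have hDm' := S.D_red'.mem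
  have hδm := S.δ_red.mem
  have hsa := S.sa_diff
  have hD := S.hD
  have h1 := S.eqz
  have h2 := S.eqz'
  have hδ := S.δ_ne
  have hθ := S.θ_ne
  refine ⟨c s / ((1 - δ * sa c w s z * D) * (1 - δ * sa c w' s z₁ * D₁)) *
      ((w' s - w s) / θ - (w' l - w l) / θ + δ * D * D₁ * S.pp), ?_,
    c s / ((1 - δ * sa c w s z * D) * (1 - δ * sa c w' s z₁ * D₁)) *
      (1 + δ * D * D₁ * S.qq), ?_,
    -(c s / ((1 - δ * sa c w s z * D) * (1 - δ * sa c w' s z₁ * D₁))), ?_, ?_⟩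
  · exact p.O.mul_mem hc (p.O.add_mem (p.O.sub_mem (S.h_mem s) (S.h_mem l))
      (p.O.mul_mem (p.O.mul_mem (p.O.mul_mem hδm hDm) hDm') hpp))
  · exact p.O.mul_mem hc (p.O.add_mem p.O.one_mem
      (p.O.mul_mem (p.O.mul_mem (p.O.mul_mem hδm hDm) hDm') hqq))
  · exact p.O.neg_mem hc
  · have ha := S.ha
    generalize S.pp = P at *
    generalize S.qq = Q at *
    have h3 : a = c s / ((1 - δ * sa c w s z * D) * (1 - δ * sa c w' s z₁ * D₁)) *
        ((D₁ - D) / θ + δ * D * D₁ * ((sa c w' s z₁ - sa c w s z) / θ)) := by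
      generalize sa c w s z = A at *
      generalize sa c w' s z₁ = B at *
      generalize z₁ - w' s = y' at *
      generalize z - w s = y at *
      have e1 : y = δ * c s * D / (1 - δ * A * D) := by
        rw [eq_div_iff hu0]
        exact h1
      have e2 : y' = δ * c s * D₁ / (1 - δ * B * D₁) := by
        rw [eq_div_iff hu0']
        exact h2
      have hU : δ * A * D = 1 - (1 - δ * A * D) := by ring
      have hV : δ * B * D₁ = 1 - (1 - δ * B * D₁) := by ring
      have e3 : (D₁ - D) + δ * D * D₁ * (B - A) =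
          D₁ * (1 - δ * A * D) - D * (1 - δ * B * D₁) := by ring
      have e4 : (D₁ - D) / θ + δ * D * D₁ * ((B - A) / θ) =
          (D₁ * (1 - δ * A * D) - D * (1 - δ * B * D₁)) / θ := by
        rw [← e3]
        ring
      rw [ha, e1, e2, e4]
      generalize 1 - δ * A * D = U at *
      generalize 1 - δ * B * D₁ = V at *
      field_simp
    rw [hsa, hD] at h3
    linear_combination h3

/-- the difference of the second sums -/
lemma sb_diff (S : SideP p δ c w w' θ s l z D z₁ D₁ a b) (ham : a ∈ p.O) :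
    (sb c w' s z₁ - sb c w s z) / θ ∈ p.O := by
  have h : (sb c w' s z₁ - sb c w s z) / θ = -∑ j ∈ Finset.univ.erase s,
      c j * (((w' s - w s) / θ - (w' j - w j) / θ + δ * a) * ((z₁ - w' j) + (z - w j))) /
        ((z - w j) ^ 2 * (z₁ - w' j) ^ 2) := by
    unfold sb
    rw [← Finset.sum_sub_distrib, Finset.sum_div, ← Finset.sum_neg_distrib]
    apply Finset.sum_congr rfl
    intro j hj
    have hj' := Finset.ne_of_mem_erase hj
    have h1 := S.x0 j hj'
    have h2 := S.x0' j hj'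
    rw [← S.x_diff j]
    have := S.θ_ne
    field_simp
    ring
  rw [h]
  apply p.O.neg_mem
  apply p.O.sum_mem
  intro j hj
  have hj' := Finset.ne_of_mem_erase hj
  exact ((red_rs (S.c_mem j)).mul ((((red_rs (S.h_mem s)).sub (red_rs (S.h_mem j))).add
    (S.δ_red.mul (red_rs ham))).mul ((S.x_red' j).add (S.x_red j)))).div
    (((S.x_red j).pow 2).mul ((S.x_red' j).pow 2))
    (mul_ne_zero (pow_ne_zero 2 (S.x_ne j hj')) (pow_ne_zero 2 (S.x_ne j hj'))) |>.mem

/-- the difference of the expansions -/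
lemma aa_diff (S : SideP p δ c w w' θ s l z D z₁ D₁ a b) (ham : a ∈ p.O) (hbm : b ∈ p.O) :
    p.Red ((aa c w' δ s z₁ D₁ - aa c w δ s z D) / (δ * θ))
      (2 * (eE Finset.univ (fun j => p.rs (c j)) (fun j => p.rs (w j)) s *
          (p.rs ((w' s - w s) / θ) - p.rs ((w' l - w l) / θ)) +
        (p.rs (w s) - p.rs (w l)) * (-∑ j ∈ Finset.univ.erase s,
          p.rs (c j) * (p.rs ((w' s - w s) / θ) - p.rs ((w' j - w j) / θ)) /
            (p.rs (w s) - p.rs (w j)) ^ 2))) := by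
  have hδ := S.δ_ne
  have hθ := S.θ_ne
  have hsa := S.sa_diff
  have hsb := S.sb_diff ham
  have hD := S.hD
  have rD : p.Red ((D₁ - D) / θ)
      (p.rs ((w' s - w s) / θ) - p.rs ((w' l - w l) / θ)) := by
    rw [hD]
    exact (((red_rs (S.h_mem s)).sub (red_rs (S.h_mem l))).add
      (S.δ_red.mul ((red_rs ham).sub (red_rs hbm)))).eq rfl (by ring)
  have rS : p.Red ((sa c w' s z₁ - sa c w s z) / θ) (-∑ j ∈ Finset.univ.erase s,
          p.rs (c j) * (p.rs ((w' s - w s) / θ) - p.rs ((w' j - w j) / θ)) /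
            (p.rs (w s) - p.rs (w j)) ^ 2) := by
    rw [hsa]
    exact (S.pp_red.add ((S.δ_red.mul (red_rs ham)).mul (red_rs S.qq_mem))).eq rfl (by ring)
  have r2 : p.Red (2 : K) (2 : κ) := (red_one.add red_one).eq (by norm_num) (by norm_num)
  have key : (aa c w' δ s z₁ D₁ - aa c w δ s z D) / (δ * θ) =
      2 * (sa c w' s z₁ * ((D₁ - D) / θ) + D * ((sa c w' s z₁ - sa c w s z) / θ)) -
      δ * ((sa c w' s z₁ * ((D₁ - D) / θ) + D * ((sa c w' s z₁ - sa c w s z) / θ)) *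
        (sa c w' s z₁ * D₁ + sa c w s z * D) +
        c s * (((D₁ - D) / θ) * (D₁ + D) * sb c w' s z₁ +
          D ^ 2 * ((sb c w' s z₁ - sb c w s z) / θ))) := by
    unfold aa
    field_simp
    ring
  rw [key]
  have r4 := S.sa_red'
  have r5 := S.sa_red
  have r6 := S.D_red
  have r7 := S.D_red'
  have r8 := (r4.mul rD).add (r6.mul rS)
  have r9 := red_rs S.sb_mem'
  exact ((r2.mul r8).sub (S.δ_red.mul ((r8.mul ((r4.mul r7).add (r5.mul r6))).add
    ((red_rs (S.c_mem s)).mul (((rD.mul (r7.add r6)).mul r9).add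
      ((r6.pow 2).mul (red_rs hsb))))))).eq rfl (by ring)

lemma aa_red (S : SideP p δ c w w' θ s l z D z₁ D₁ a b) : p.Red (aa c w δ s z D) (-1) := by
  unfold aa
  have r2 : p.Red (2 : K) (2 : κ) := (red_one.add red_one).eq (by norm_num) (by norm_num)
  have r5 := S.sa_red
  exact ((((S.δ_red.mul (red_rs (S.c_mem s))).sub red_one).add
    ((r2.mul S.δ_red).mul (r5.mul S.D_red))).sub ((S.δ_red.pow 2).mul
      ((S.D_red.pow 2).mul ((r5.pow 2).add ((red_rs (S.c_mem s)).mul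
        (red_rs S.sb_mem)))))).eq rfl (by ring)

lemma aa_red' (S : SideP p δ c w w' θ s l z D z₁ D₁ a b) :
    p.Red (aa c w' δ s z₁ D₁) (-1) := by
  unfold aa
  have r2 : p.Red (2 : K) (2 : κ) := (red_one.add red_one).eq (by norm_num) (by norm_num)
  have r5 := S.sa_red'
  exact ((((S.δ_red.mul (red_rs (S.c_mem s))).sub red_one).add
    ((r2.mul S.δ_red).mul (r5.mul S.D_red'))).sub ((S.δ_red.pow 2).mul
      ((S.D_red'.pow 2).mul ((r5.pow 2).add ((red_rs (S.c_mem s)).mul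
        (red_rs S.sb_mem')))))).eq rfl (by ring)

end SideP

lemma per_mod {α : Type*} (z : ℕ → α) (p : ℕ) (h : ∀ i, z (i + p) = z i) (i : ℕ) :
    z (i % p) = z i := by
  have h2 : ∀ (k i : ℕ), z (i + p * k) = z i := by
    intro k
    induction k with
    | zero =>
      intro i
      simp
    | succ k ih =>
      intro i
      rw [Nat.mul_succ, ← add_assoc, h, ih]
  have h3 := h2 (i / p) (i % p)
  rw [Nat.mod_add_div] at h3
  exact h3.symm

/-- a cyclic linear system close to the identity -/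
lemma linp (P : Pl K κ) (p : ℕ) (hp : 1 ≤ p) (δ : K) (a : ℕ → K) (hδ : P.Red δ 0)
    (hper : ∀ i, a (i + p) = a i)
    (h : ∀ i, ∃ p₁ ∈ P.O, ∃ q₁ ∈ P.O, ∃ r₁ ∈ P.O, a i = p₁ + δ * (q₁ * a i + r₁ * a (i + 1)))
    (i : ℕ) : a i ∈ P.O := by
  by_contra hcon
  have hmod := per_mod a p hper
  have hne : ∃ i ∈ Finset.range p, a i ≠ 0 := by
    refine ⟨i % p, Finset.mem_range.2 (Nat.mod_lt _ hp), ?_⟩
    rw [hmod]
    intro h0
    exact hcon (h0 ▸ P.O.zero_mem)
  obtain ⟨m, -, hm0, hm⟩ := exists_dvd_all P (Finset.range p) a hne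
  have hall : ∀ j, a j / a m ∈ P.O := by
    intro j
    have := hm (j % p) (Finset.mem_range.2 (Nat.mod_lt _ hp))
    rwa [hmod] at this
  have hmO : a m ∉ P.O := by
    intro h
    apply hcon
    have := P.O.mul_mem (hall i) h
    rwa [div_mul_cancel₀ _ hm0] at this
  have hinv : P.Red (a m)⁻¹ 0 := not_mem_inv hmO
  obtain ⟨p₁, hp₁, q₁, hq₁, r₁, hr₁, e⟩ := h m
  have h1 : p₁ * (a m)⁻¹ + δ * (q₁ + r₁ * (a (m + 1) / a m)) = 1 := by
    have h2 : (p₁ + δ * (q₁ * a m + r₁ * a (m + 1))) * (a m)⁻¹ = 1 := by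
      rw [← e, mul_inv_cancel₀ hm0]
    rw [← h2]
    generalize a (m + 1) = z'
    generalize a m = z at *
    field_simp
  have hred := ((red_rs hp₁).mul hinv).add (hδ.mul ((red_rs hq₁).add ((red_rs hr₁).mul
    (red_rs (hall (m + 1))))))
  rw [h1] at hred
  have := hred.unique red_one
  simp at this

/-- telescoping -/
lemma tele (P : Pl K κ) (x x' : ℕ → K) (R : ℕ → κ) (t : K) (n : ℕ)
    (h1 : ∀ i < n, P.Red (x i) (-1)) (h2 : ∀ i < n, P.Red (x' i) (-1))
    (h3 : ∀ i < n, P.Red ((x' i - x i) / t) (R i)) :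
    P.Red ((∏ i ∈ Finset.range n, x' i - ∏ i ∈ Finset.range n, x i) / t)
      (-(-1) ^ n * ∑ i ∈ Finset.range n, R i) := by
  induction n with
  | zero =>
    simpa using red_zero (p := P)
  | succ n ih =>
    have ih' := ih (fun i hi => h1 i (by omega)) (fun i hi => h2 i (by omega))
      (fun i hi => h3 i (by omega))
    have hp : P.Red (∏ i ∈ Finset.range n, x' i) ((-1) ^ n) := by
      have := red_prod (p := P) (Finset.range n) (x := x') (y := fun _ => (-1 : κ))
        (fun i hi => h2 i (by have := Finset.mem_range.1 hi; omega))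
      rwa [Finset.prod_const, Finset.card_range] at this
    have hn1 := h1 n (by omega)
    have hn3 := h3 n (by omega)
    refine ((hp.mul hn3).add (ih'.mul hn1)).eq ?_ ?_
    · rw [Finset.prod_range_succ, Finset.prod_range_succ]
      ring
    · rw [Finset.sum_range_succ]
      ring

lemma wd_per (p : ℕ) (s l : Fin d) (i : ℕ) : wd p s l (i + p) = wd p s l i := by
  unfold wd
  rw [Nat.add_mod_right]

/-- the sum over the word -/
lemma word_sum (p : ℕ) (hp : 2 ≤ p) (s l : Fin d) (W E h e : Fin d → κ) :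
    ∑ i ∈ Finset.range p, (E (wd p s l i) * (h (wd p s l i) - h (wd p s l (i + 1))) +
      (W (wd p s l i) - W (wd p s l (i + 1))) * e (wd p s l i)) =
    (h s - h l) * (E s - E l) + (W s - W l) * (e s - e l) := by
  obtain ⟨q, rfl⟩ : ∃ q, p = q + 2 := ⟨p - 2, by omega⟩
  have hs : ∀ i, i ≤ q → wd (q + 2) s l i = s := by
    intro i hi
    unfold wd
    rw [if_neg]
    rw [Nat.mod_eq_of_lt (by omega)]
    omega
  have hl : wd (q + 2) s l (q + 1) = l := by
    unfold wd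
    rw [if_pos]
    rw [Nat.mod_eq_of_lt (by omega)]
    omega
  have h0 : wd (q + 2) s l (q + 2) = s := by
    have := wd_per (q + 2) s l 0
    rw [zero_add] at this
    rw [this, hs 0 (by omega)]
  rw [Finset.sum_range_succ, Finset.sum_range_succ, Finset.sum_eq_zero, hs q le_rfl, hl,
    show q + 1 + 1 = q + 2 from rfl, h0]
  · ring
  · intro i hi
    have := Finset.mem_range.1 hi
    rw [hs i (by omega), hs (i + 1) (by omega)]
    ring

lemma pairp [CharZero κ] (P : Pl K κ) (p : ℕ) (hp : 2 ≤ p) (c w w' : Fin d → K) (δ θ : K)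
    (h1 : Cfg P δ c w Finset.univ) (h2 : Cfg P δ c w' Finset.univ)
    (he : ∀ s, P.rs (w s) = P.rs (w' s)) (hθ : θ ≠ 0) (hm : ∀ j, (w' j - w j) / θ ∈ P.O)
    (s l : Fin d) (z y : ℕ → K) (hn : NearW P δ c w p (wd p s l) z)
    (hn' : NearW P δ c w' p (wd p s l) y)
    (hmm : mW (fun j => δ * c j) w p z = mW (fun j => δ * c j) w' p y) :
    (P.rs ((w' s - w s) / θ) - P.rs ((w' l - w l) / θ)) *
        (eE Finset.univ (fun j => P.rs (c j)) (fun j => P.rs (w j)) s -
          eE Finset.univ (fun j => P.rs (c j)) (fun j => P.rs (w j)) l) +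
      (P.rs (w s) - P.rs (w l)) * ((-∑ j ∈ Finset.univ.erase s,
          P.rs (c j) * (P.rs ((w' s - w s) / θ) - P.rs ((w' j - w j) / θ)) /
            (P.rs (w s) - P.rs (w j)) ^ 2) -
        (-∑ j ∈ Finset.univ.erase l,
          P.rs (c j) * (P.rs ((w' l - w l) / θ) - P.rs ((w' j - w j) / θ)) /
            (P.rs (w l) - P.rs (w j)) ^ 2)) = 0 := by
  have hδ := h1.δ_ne
  have hδr := h1.δ_red
  have wm : ∀ j, w j ∈ P.O := fun j => h1.w_mem j (Finset.mem_univ j)
  have wm' : ∀ j, w' j ∈ P.O := fun j => h2.w_mem j (Finset.mem_univ j)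
  have aux : ∀ (u v : K) (t : κ), P.Red ((u - v) / δ) t → v ∈ P.O → P.Red u (P.rs v) := by
    intro u v t h hv
    refine ((hδr.mul h).add (red_rs hv)).eq ?_ (by ring)
    field_simp
    ring
  have hwd := wd_per (d := d) p s l
  generalize hσ : wd p s l = σ at *
  have rz : ∀ i, P.Red (z i) (P.rs (w (σ i))) := fun i => aux _ _ _ (hn.red i) (wm _)
  have ry : ∀ i, P.Red (y i) (P.rs (w (σ i))) := by
    intro i
    have := aux _ _ _ (hn'.red i) (wm' _)
    rwa [← he] at this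
  have cne : ∀ j, c j ≠ 0 := fun j => (red_rs (h1.c_mem j)).ne_zero (h1.c_ne j)
  have A1 := fun i => alg1 c w (σ i) δ (z i) (z i - z (i + 1)) (hn.pc.hz i _) (hn.pc.eq i)
  have A2 := fun i => alg1 c w' (σ i) δ (y i) (y i - y (i + 1)) (hn'.pc.hz i _) (hn'.pc.eq i)
  obtain ⟨a, ha⟩ : ∃ a : ℕ → K, ∀ i, a i = ((y i - w' (σ i)) - (z i - w (σ i))) / (δ * θ) :=
    ⟨_, fun _ => rfl⟩
  have S : ∀ i, SideP P δ c w w' θ (σ i) (σ (i + 1)) (z i) (z i - z (i + 1)) (y i)
      (y i - y (i + 1)) (a i) (a (i + 1)) := fun i =>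
    { δ_ne := hδ
      θ_ne := hθ
      δ_red := hδr
      c_mem := h1.c_mem
      w_mem := wm
      w_mem' := wm'
      w_eq := he
      w_ne := fun j l h => h1.w_ne j (Finset.mem_univ _) l (Finset.mem_univ _) h
      h_mem := hm
      z_red := rz i
      z_red' := ry i
      D_red := (rz i).sub (rz (i + 1))
      D_red' := (ry i).sub (ry (i + 1))
      ha := ha i
      hD := by
        rw [ha i, ha (i + 1)]
        field_simp
        ring
      eqz := (A1 i).1
      eqz' := (A2 i).1 }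
  have am : ∀ i, a i ∈ P.O := by
    apply linp P p (by omega) δ a hδr
    · intro i
      rw [ha, ha, hn.pc.per, hn'.pc.per, hwd]
    · intro i
      exact (S i).a_lin
  have hT := tele P (fun i => aa c w δ (σ i) (z i) (z i - z (i + 1)))
    (fun i => aa c w' δ (σ i) (y i) (y i - y (i + 1))) _ (δ * θ) p
    (fun i _ => (S i).aa_red) (fun i _ => (S i).aa_red')
    (fun i _ => (S i).aa_diff (am i) (am (i + 1)))
  have hprod : ∏ i ∈ Finset.range p, aa c w' δ (σ i) (y i) (y i - y (i + 1)) =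
      ∏ i ∈ Finset.range p, aa c w δ (σ i) (z i) (z i - z (i + 1)) := by
    unfold mW at hmm
    have e1 : ∏ i ∈ Finset.range p, aa c w δ (σ i) (z i) (z i - z (i + 1)) =
        (∏ i ∈ Finset.range p, δ * c (σ i)) * ∏ i ∈ Finset.range p,
          (1 - nD (fun j => δ * c j) w (z i) * (z i - z (i + 1)) ^ 2) := by
      rw [← Finset.prod_mul_distrib]
      exact Finset.prod_congr rfl fun i _ => ((A1 i).2).symm
    have e2 : ∏ i ∈ Finset.range p, aa c w' δ (σ i) (y i) (y i - y (i + 1)) =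
        (∏ i ∈ Finset.range p, δ * c (σ i)) * ∏ i ∈ Finset.range p,
          (1 - nD (fun j => δ * c j) w' (y i) * (y i - y (i + 1)) ^ 2) := by
      rw [← Finset.prod_mul_distrib]
      exact Finset.prod_congr rfl fun i _ => ((A2 i).2).symm
    rw [e1, e2, hmm]
  rw [hprod, sub_self, zero_div] at hT
  have h0 := hT.unique red_zero
  rw [← Finset.mul_sum, ← hσ] at h0
  have hw := word_sum (κ := κ) p hp s l (fun j => P.rs (w j))
    (eE Finset.univ (fun j => P.rs (c j)) (fun j => P.rs (w j)))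
    (fun j => P.rs ((w' j - w j) / θ))
    (fun s => -∑ j ∈ Finset.univ.erase s,
      P.rs (c j) * (P.rs ((w' s - w s) / θ) - P.rs ((w' j - w j) / θ)) /
        (P.rs (w s) - P.rs (w j)) ^ 2)
  beta_reduce at hw
  rw [hw] at h0
  have h2 : (2 : κ) ≠ 0 := two_ne_zero
  have h3 : (-(-1 : κ) ^ p) ≠ 0 := neg_ne_zero.2 (pow_ne_zero _ (neg_ne_zero.2 one_ne_zero))
  exact (mul_eq_zero.1 ((mul_eq_zero.1 h0).resolve_left h3)).resolve_left h2

end LOCpAux

open LOCpAux in
theorem LOCp_holds : LOCpS := by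
  intro K κ _ _ _ P d p hd c w w' δ hp h1 h2 hG he h0 h1' hex
  by_contra hne
  obtain ⟨j₀, hj₀⟩ : ∃ j, w j ≠ w' j := by
    by_contra h
    push Not at h
    exact hne (funext h)
  obtain ⟨i, -, hi, hd⟩ := exists_dvd_all P Finset.univ (fun j => w' j - w j)
    ⟨j₀, Finset.mem_univ _, sub_ne_zero.2 hj₀.symm⟩
  set θ : K := w' i - w i with hθ
  have hm : ∀ j, (w' j - w j) / θ ∈ P.O := fun j => hd j (Finset.mem_univ j)
  have key : ∀ s l, s ≠ l → (P.rs ((w' s - w s) / θ) - P.rs ((w' l - w l) / θ)) *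
        (eE Finset.univ (fun j => P.rs (c j)) (fun j => P.rs (w j)) s -
          eE Finset.univ (fun j => P.rs (c j)) (fun j => P.rs (w j)) l) +
      (P.rs (w s) - P.rs (w l)) * ((-∑ j ∈ Finset.univ.erase s,
          P.rs (c j) * (P.rs ((w' s - w s) / θ) - P.rs ((w' j - w j) / θ)) /
            (P.rs (w s) - P.rs (w j)) ^ 2) -
        (-∑ j ∈ Finset.univ.erase l,
          P.rs (c j) * (P.rs ((w' l - w l) / θ) - P.rs ((w' j - w j) / θ)) /
            (P.rs (w l) - P.rs (w j)) ^ 2)) = 0 := by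
    intro s l hsl
    obtain ⟨z, y, hn, hn', hmm⟩ := hex s l hsl
    exact pairp P p hp c w w' δ θ h1 h2 he hi hm s l z y hn hn' hmm
  have r0 : P.rs ((w' ⟨0, by omega⟩ - w ⟨0, by omega⟩) / θ) = 0 := by
    rw [h0, sub_self, zero_div]
    exact red_zero.rs_eq
  have r1 : P.rs ((w' ⟨1, by omega⟩ - w ⟨1, by omega⟩) / θ) = 0 := by
    rw [h1', sub_self, zero_div]
    exact red_zero.rs_eq
  have hfin := res_alg (fun j => P.rs (w j))
    (fun j => eE Finset.univ (fun j => P.rs (c j)) (fun j => P.rs (w j)) j)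
    (fun j => P.rs ((w' j - w j) / θ))
    (fun s => -∑ j ∈ Finset.univ.erase s,
      P.rs (c j) * (P.rs ((w' s - w s) / θ) - P.rs ((w' j - w j) / θ)) /
        (P.rs (w s) - P.rs (w j)) ^ 2)
    ⟨0, by omega⟩
    (fun s hs => h1.w_ne s (Finset.mem_univ _) _ (Finset.mem_univ _) hs)
    (fun s l h h' h'' => hG.e2 s l _ h h' h'')
    key ⟨1, by omega⟩ (by simp) (by simp only [r0, r1]) i
  simp only [r0] at hfin
  rw [div_self hi, red_one.rs_eq] at hfin
  exact one_ne_zero hfin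

end Pool.Agent.LSF
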