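import Pool.Agent.LSF.RDefs

/-!
MEM: the spectrum of prime period is contained in the other one.

PROOF. G2 for `g`, `n = p`: `g.multSpec p = (MX g 1).map (· ^ p) + MX g p` (`p.divisors = {1, p}`), `g.multSpec 1 = MX g 1`. An element of
`MX g p` is in `XS g p ⊆ XS f p`, so it is `mult f p z` with `PerX f p z`, and `z ∈ perF f p` (G2), so it is in `MX f p ⊆ f.multSpec p`.
An element of the first part is `x ^ p` with `x ∈ MX g 1 = g.multSpec 1 = f.multSpec 1 = MX f 1`.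
-/

namespace Pool.Agent.LSF

open Polynomial Pool.Agent.LenSpec

theorem memM_spec_iff (hG2 : G2S) {K : Type} [Field K] [IsAlgClosed K] {d n : ℕ} {f : RatMap K d}
    (hf : Good f) (hn : 1 ≤ n) (x : K) :
    x ∈ f.multSpec n ↔ ∃ m ∈ n.divisors, ∃ y ∈ MX d f.num f.den m, y ^ (n / m) = x := by
  rw [(hG2 K d n f hf hn).2.1, Multiset.mem_sum]
  simp only [Multiset.mem_map]

theorem memM_MX_iff (hG2 : G2S) {K : Type} [Field K] [IsAlgClosed K] {d n : ℕ} {f : RatMap K d}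
    (hf : Good f) (hn : 1 ≤ n) (x : K) :
    x ∈ MX d f.num f.den n ↔ ∃ z, PerX f.num f.den n z ∧ mult f.num f.den n z = x := by
  unfold MX
  simp only [Multiset.mem_map, Finset.mem_val, (hG2 K d n f hf hn).1]

theorem MEM_holds (hG2 : G2S) : MEMS := by
  intro K _ _ d p f g hf hg hp h1 hX x hx
  have hp1 : 1 ≤ p := hp.one_lt.le
  rw [memM_spec_iff hG2 hg hp1] at hx
  rw [memM_spec_iff hG2 hf hp1]
  obtain ⟨m, hm, y, hy, hyx⟩ := hx
  refine ⟨m, hm, ?_⟩
  have hm' : m = 1 ∨ m = p := by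
    rcases (Nat.dvd_prime hp).1 (Nat.dvd_of_mem_divisors hm) with h | h
    · exact Or.inl h
    · exact Or.inr h
  rcases hm' with rfl | rfl
  · refine ⟨y, ?_, hyx⟩
    have h2 : y ∈ g.multSpec 1 := by
      rw [memM_spec_iff hG2 hg le_rfl]
      exact ⟨1, by simp, y, hy, by simp⟩
    rw [← h1, memM_spec_iff hG2 hf le_rfl] at h2
    obtain ⟨m, hm, y', hy', h3⟩ := h2
    have hm1 : m = 1 := by
      have := Nat.dvd_of_mem_divisors hm
      exact Nat.dvd_one.1 this
    subst hm1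
    have h4 : y' = y := by simpa using h3
    rw [← h4]
    exact hy'
  · rw [memM_MX_iff hG2 hg hp1] at hy
    obtain ⟨z, hz, hzy⟩ := hy
    have h2 : y ∈ XS g.num g.den m := ⟨z, hz, hzy⟩
    obtain ⟨z', hz', hzy'⟩ := hX h2
    refine ⟨y, ?_, hyx⟩
    rw [memM_MX_iff hG2 hf hp1]
    exact ⟨z', hz', hzy'⟩

end Pool.Agent.LSF
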