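import Pool.Agent.LSF.CDefs
import Pool.Agent.LenSpec.TC1

/-!
TC1p: existence of the cycle with itinerary `s, …, s, l` (`p - 1` letters `s`).

Model: `Pool/Agent/LenSpec/TC1.lean` (the case `p = 2`, 348 lines); ALL its lemmas may be used
(namespace `Pool.Agent.LenSpec.TC1`: the predicate `FR p F G` with `fr_const`, `fr_id`, `FR.add`,
`FR.mul`, `FR.sub`, `FR.inv`, `FR.red`, `exists_root`, `fr_S`, `nN_eq`, `ne_w`, ...).

PROOF. One looks for `z i = w s + δ^(p-1-i) * α i` (`0 ≤ i ≤ p - 2`), `z (p-1) = w l + δ * β`.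
Put `D = w s - w l` and let `a i` be the constants `a i = (-c s)^(p-2-i) * c s * D`, divided
suitably: they satisfy exactly `a (i+1) = -(a i) / c s` for `i < p - 2` and `w s - a (p-2) / c s = w l`.
(`a (p-2) = c s * D`; all `a i ∈ O`, with reduction `≠ 0`.) The unknown `x ∈ O` enters by
`b 0 = x`, `α i = a i + δ * b i`, `k = p - 1 - i ≥ 1`,
`S i = ∑_{j ≠ s} c j / (w s + δ^k α i - w j)`   (`FR` with a constant reduction: `fr_S` with
  `δ^(k-1) * α i` in place of `α`; for `j ∉ V` the term reduces to `0`),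
`b (i+1) = -(b i)/c s + α i + δ^(k-1) * (α i)^2 * S i / (c s * (c s + δ^k * α i * S i))`.
Then `z (i+1) = z i - 1 / N (z i)` exactly: `N (z) = (c s + δ^k α S) / (δ^(k-1) α)` at
`z = w s + δ^k α` (see `nN_eq`), so `z i - 1/N(z i) = w s + δ^k α i - δ^(k-1) α i / (c s + δ^k α i S i)`, and
`1/(c s + u) = 1/c s - u/(c s (c s + u))`. So for `i < p - 2` this is `w s + δ^(k-1) (a (i+1) + δ b (i+1))`
and for `i = p - 2` (`k = 1`) it is `w l + δ * b (p-1)`; `β := b (p-1)`.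
By induction on `i`: `b i` is an `FR` function of `x` with reduction `C e + C ((-1/c s)^i) * X` (prove
it in the form: `∃ e, FR P (b i) (C e + C ((-(P.rs (c s))⁻¹)^i) * X)`).
The closing equation `z (p-1) - 1 / N (z (p-1)) = z 0` reads
`H x = w l + δ β - β / (c l + δ β S') - w s - δ^(p-1) * α 0 = 0`, `S' = ∑_{j ≠ l} c j/(w l + δ β - w j)`;
`H` is an `FR` function with reduction `C e' - C u * X`, `u ≠ 0`; multiply it by `u⁻¹` (or rather by the
constant `(-1)^(p-1) * (c s)^(p-1) * c l`, of reduction `1/u`) and use `exists_root`: there is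
`x ∈ O` with `H x = 0`. Finally the reductions: `α i → a i` (so `(z i - w s)/δ = δ^(k-1) α i` reduces
to `0` for `i < p - 2`, to `c s (w s - w l)` for `i = p - 2`); from `H x = 0`, `β` reduces to `c l (w l - w s)`, which
is `≠ 0`, so `N (z (p-1)) = (c l + δ β S')/β` and the equation for `i = p-1` holds. Extend `z` by
periodicity (`fun i => z (i % p)`); `z i ≠ w j` by `ne_w` (with `δ^(k-1) α i` one needs it directly:
`z i - w s = δ^k α i ≠ 0`, and `z i` reduces to `w s`).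
It is convenient to define the triple of sequences by `Nat.rec` on `i` as functions `ℕ → K → K`.
-/

namespace Pool.Agent.LSF

open Polynomial Pool.Agent.LenSpec

namespace TC1p

open Pool.Agent.LenSpec.TC1

variable {K κ : Type} [Field K] [Field κ] {P : Pl K κ} {d : ℕ}

/-- the sum without the term `s`, at the point `w s + δ y` -/
noncomputable def SS (c w : Fin d → K) (δ : K) (s : Fin d) (y : K) : K :=
  ∑ j ∈ Finset.univ.erase s, c j * (w s + δ * y - w j)⁻¹

/-- `c s + δ ^ (m + 1) α S` -/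
noncomputable def mu (c w : Fin d → K) (δ : K) (s : Fin d) (m : ℕ) (a b : K) : K :=
  c s + δ * (δ ^ m * (a + δ * b)) * SS c w δ s (δ ^ m * (a + δ * b))

/-- the next coefficient `b` -/
noncomputable def nb (c w : Fin d → K) (δ : K) (s : Fin d) (m : ℕ) (a b : K) : K :=
  -b * (c s)⁻¹ + (a + δ * b) + δ ^ m * (a + δ * b) * (a + δ * b) *
    SS c w δ s (δ ^ m * (a + δ * b)) * (c s)⁻¹ * (mu c w δ s m a b)⁻¹

theorem step_eq {c w : Fin d → K} {δ : K} {s : Fin d} {m : ℕ} {a b : K} (hδ : δ ≠ 0)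
    (hα : a + δ * b ≠ 0) (hcs : c s ≠ 0) (hμ : mu c w δ s m a b ≠ 0) :
    nN (fun j => δ * c j) w (w s + δ ^ (m + 1) * (a + δ * b)) *
      ((w s + δ ^ (m + 1) * (a + δ * b)) -
        (w s + δ ^ m * (-a * (c s)⁻¹ + δ * nb c w δ s m a b))) = 1 := by
  have hα' : δ ^ m * (a + δ * b) ≠ 0 := mul_ne_zero (pow_ne_zero m hδ) hα
  have e1 : w s + δ ^ (m + 1) * (a + δ * b) = w s + δ * (δ ^ m * (a + δ * b)) := by
    rw [pow_succ]
    ring
  rw [e1, nN_eq s hδ hα']
  have e2 : c s + δ * (δ ^ m * (a + δ * b)) *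
      ∑ j ∈ Finset.univ.erase s, c j * (w s + δ * (δ ^ m * (a + δ * b)) - w j)⁻¹ =
      mu c w δ s m a b := rfl
  rw [e2]
  have e3 : mu c w δ s m a b = c s + δ * (δ ^ m * (a + δ * b)) *
    SS c w δ s (δ ^ m * (a + δ * b)) := rfl
  have e4 : nb c w δ s m a b = -b * (c s)⁻¹ + (a + δ * b) + δ ^ m * (a + δ * b) * (a + δ * b) *
    SS c w δ s (δ ^ m * (a + δ * b)) * (c s)⁻¹ * (mu c w δ s m a b)⁻¹ := rfl
  have h1 : c s * (c s)⁻¹ = 1 := mul_inv_cancel₀ hcs
  have h2 : mu c w δ s m a b * (mu c w δ s m a b)⁻¹ = 1 := mul_inv_cancel₀ hμ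
  have key : (w s + δ * (δ ^ m * (a + δ * b)) -
      (w s + δ ^ m * (-a * (c s)⁻¹ + δ * nb c w δ s m a b))) * mu c w δ s m a b =
      δ ^ m * (a + δ * b) := by
    rw [e4]
    generalize SS c w δ s (δ ^ m * (a + δ * b)) = T at e3 ⊢
    generalize mu c w δ s m a b = μ at e3 h2 ⊢
    generalize μ⁻¹ = μi at h2 ⊢
    generalize (c s)⁻¹ = ci at h1 ⊢
    linear_combination (δ ^ m * ci * (a + δ * b)) * e3 +
      (-(δ ^ m * δ ^ m * δ * (a + δ * b) ^ 2 * T * ci)) * h2 + (δ ^ m * (a + δ * b)) * h1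
  have h3 : (w s + δ * (δ ^ m * (a + δ * b)) -
      (w s + δ ^ m * (-a * (c s)⁻¹ + δ * nb c w δ s m a b))) =
      δ ^ m * (a + δ * b) / mu c w δ s m a b := by
    rw [eq_div_iff hμ]
    exact key
  rw [h3]
  field_simp

section cfg

variable {c w : Fin d → K} {δ : K} {V : Finset (Fin d)}

theorem ne_w' (hC : Cfg P δ c w V) {s : Fin d} (hs : s ∈ V) {α : K} {y : κ}
    (hα : P.Red α y) (h0 : α ≠ 0) (j : Fin d) : w s + δ * α ≠ w j := by
  have hz : P.Red (w s + δ * α) (P.rs (w s)) := by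
    have := (Pl.red_rs (hC.w_mem s hs)).add (hC.δ_red.mul hα)
    rwa [zero_mul, add_zero] at this
  intro h
  by_cases hjs : j = s
  · rw [hjs] at h
    have h1 : δ * α = 0 := by linear_combination h
    rcases mul_eq_zero.1 h1 with h2 | h2
    · exact hC.δ_ne h2
    · exact h0 h2
  · rw [h] at hz
    by_cases hjV : j ∈ V
    · exact hC.w_ne j hjV s hs hjs hz.rs_eq
    · exact hC.w_inf j hjV hz.mem

theorem fr_al (hC : Cfg P δ c w V) {a : K} {ab : κ} (ha : P.Red a ab) {b : K → K} {G : κ[X]}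
    (hb : FR P b G) : FR P (fun x => a + δ * b x) (C ab) := by
  refine ((fr_const ha).add ((fr_const hC.δ_red).mul hb)).congr (fun x => rfl) ?_
  simp

theorem fr_al' (hC : Cfg P δ c w V) (m : ℕ) {a : K} {ab : κ} (ha : P.Red a ab) {b : K → K}
    {G : κ[X]} (hb : FR P b G) :
    FR P (fun x => δ ^ m * (a + δ * b x)) (C (0 ^ m * ab)) := by
  refine ((fr_const (hC.δ_red.pow m)).mul (fr_al hC ha hb)).congr (fun x => rfl) ?_
  rw [map_mul]

theorem fr_mu (hC : Cfg P δ c w V) {s : Fin d} (hs : s ∈ V) (m : ℕ) {a : K} {ab : κ}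
    (ha : P.Red a ab) {b : K → K} {G : κ[X]} (hb : FR P b G) :
    FR P (fun x => mu c w δ s m a (b x)) (C (P.rs (c s))) := by
  obtain ⟨σ, hσ⟩ := fr_S hC hs (fr_al' hC m ha hb)
  refine ((fr_const (Pl.red_rs (hC.c_mem s))).add
    (((fr_const hC.δ_red).mul (fr_al' hC m ha hb)).mul hσ)).congr (fun x => rfl) ?_
  simp

theorem fr_nb (hC : Cfg P δ c w V) {s : Fin d} (hs : s ∈ V) (m : ℕ) {a : K} {ab : κ}
    (ha : P.Red a ab) {b : K → K} {e u : κ} (hb : FR P b (C e + C u * X)) :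
    ∃ e', FR P (fun x => nb c w δ s m a (b x)) (C e' + C (-(P.rs (c s))⁻¹ * u) * X) := by
  obtain ⟨σ, hσ⟩ := fr_S hC hs (fr_al' hC m ha hb)
  have hci := fr_const ((Pl.red_rs (hC.c_mem s)).inv (hC.c_ne s))
  have hμi := (fr_mu hC hs m ha hb).inv (hC.c_ne s)
  have hα := fr_al hC ha hb
  refine ⟨-e * (P.rs (c s))⁻¹ + ab + 0 ^ m * ab * ab * σ * (P.rs (c s))⁻¹ * (P.rs (c s))⁻¹,
    (((hb.neg.mul hci).add hα).add ((((((fr_const (hC.δ_red.pow m)).mul hα).mul hα).mul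
      hσ).mul hci).mul hμi)).congr (fun x => rfl) ?_⟩
  simp only [map_add, map_mul, map_neg]
  ring

end cfg

/-- the coefficients `b i` as functions of `x` -/
noncomputable def bs (c w : Fin d → K) (δ : K) (s : Fin d) (p : ℕ) (a0 : K) : ℕ → K → K
  | 0, x => x
  | i + 1, x => nb c w δ s (p - 2 - i) (a0 * (-(c s)⁻¹) ^ i) (bs c w δ s p a0 i x)

theorem fr_bs {c w : Fin d → K} {δ : K} {V : Finset (Fin d)} (hC : Cfg P δ c w V) {s : Fin d}
    (hs : s ∈ V) (p : ℕ) {a0 : K} {ab : κ} (ha : P.Red a0 ab) (i : ℕ) :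
    ∃ e, FR P (bs c w δ s p a0 i) (C e + C ((-(P.rs (c s))⁻¹) ^ i) * X) := by
  induction i with
  | zero =>
    refine ⟨0, fr_id.congr (fun x => rfl) ?_⟩
    simp
  | succ i ih =>
    obtain ⟨e, he⟩ := ih
    have hai : P.Red (a0 * (-(c s)⁻¹) ^ i) (ab * (-(P.rs (c s))⁻¹) ^ i) :=
      ha.mul ((((Pl.red_rs (hC.c_mem s)).inv (hC.c_ne s)).neg).pow i)
    obtain ⟨e', he'⟩ := fr_nb hC hs (p - 2 - i) hai he
    refine ⟨e', he'.congr (fun x => rfl) ?_⟩
    rw [pow_succ']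

end TC1p

open TC1p Pool.Agent.LenSpec.TC1 in
theorem TC1p_holds (n1 : N1S) : TC1pS := by
  classical
  intro K κ _ _ _ P d p c w δ V hp hC s hs l hl hsl
  have hcs := Pl.red_rs (hC.c_mem s)
  have hcl := Pl.red_rs (hC.c_mem l)
  have hws := Pl.red_rs (hC.w_mem s hs)
  have hwl := Pl.red_rs (hC.w_mem l hl)
  have hane : P.rs (w s) - P.rs (w l) ≠ 0 := by
    rw [sub_ne_zero]
    exact hC.w_ne s hs l hl hsl
  have hane' : P.rs (w l) - P.rs (w s) ≠ 0 := by
    rw [sub_ne_zero]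
    exact hC.w_ne l hl s hs hsl.symm
  have ha : P.Red (w s - w l) (P.rs (w s) - P.rs (w l)) := hws.sub hwl
  have hcs0 : c s ≠ 0 := hcs.ne_zero (hC.c_ne s)
  have hδ := hC.δ_ne
  -- the constants
  obtain ⟨a0, ha0⟩ : ∃ a0 : K, a0 = (-(c s)) ^ (p - 2) * (c s * (w s - w l)) := ⟨_, rfl⟩
  obtain ⟨a, hadef⟩ : ∃ a : ℕ → K, a = fun i => a0 * (-(c s)⁻¹) ^ i := ⟨_, rfl⟩
  obtain ⟨A0, hA0⟩ : ∃ A0 : κ, A0 = (-(P.rs (c s))) ^ (p - 2) *
    (P.rs (c s) * (P.rs (w s) - P.rs (w l))) := ⟨_, rfl⟩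
  have hra0 : P.Red a0 A0 := by
    rw [ha0, hA0]
    exact (hcs.neg.pow (p - 2)).mul (hcs.mul ha)
  have hA0ne : A0 ≠ 0 := by
    rw [hA0]
    exact mul_ne_zero (pow_ne_zero _ (neg_ne_zero.2 (hC.c_ne s))) (mul_ne_zero (hC.c_ne s) hane)
  have hci : P.Red (-(c s)⁻¹) (-(P.rs (c s))⁻¹) := (hcs.inv (hC.c_ne s)).neg
  have hcine : -(P.rs (c s))⁻¹ ≠ 0 := neg_ne_zero.2 (inv_ne_zero (hC.c_ne s))
  have hra : ∀ i, P.Red (a i) (A0 * (-(P.rs (c s))⁻¹) ^ i) := fun i => by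
    rw [hadef]
    exact hra0.mul (hci.pow i)
  have hAne : ∀ i : ℕ, A0 * (-(P.rs (c s))⁻¹) ^ i ≠ 0 := fun i =>
    mul_ne_zero hA0ne (pow_ne_zero i hcine)
  have hasucc : ∀ i, a (i + 1) = -(a i) * (c s)⁻¹ := fun i => by
    rw [hadef]
    simp only []
    rw [pow_succ]
    ring
  have halast : a (p - 2) = c s * (w s - w l) := by
    rw [hadef, ha0]
    simp only []
    have h1 : (-(c s)) ^ (p - 2) * (-(c s)⁻¹) ^ (p - 2) = 1 := by
      rw [← mul_pow, neg_mul_neg, mul_inv_cancel₀ hcs0, one_pow]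
    linear_combination (c s * (w s - w l)) * h1
  -- the coefficients
  obtain ⟨B, hB⟩ : ∃ B : ℕ → K → K, B = bs c w δ s p a0 := ⟨_, rfl⟩
  have hB0 : ∀ x, B 0 x = x := fun x => by rw [hB]; rfl
  have hBsucc : ∀ i x, B (i + 1) x = nb c w δ s (p - 2 - i) (a i) (B i x) := fun i x => by
    rw [hB, hadef]
    rfl
  have hBF : ∀ i, ∃ e, FR P (B i) (C e + C ((-(P.rs (c s))⁻¹) ^ i) * X) := fun i => by
    rw [hB]
    exact fr_bs hC hs p hra0 i
  obtain ⟨eb, hβF⟩ := hBF (p - 1)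
  -- the closing equation
  obtain ⟨σ', hσ'⟩ := fr_S hC hl hβF
  obtain ⟨S', hS'⟩ : ∃ S' : K → K,
    S' = fun x => ∑ j ∈ Finset.univ.erase l, c j * (w l + δ * B (p - 1) x - w j)⁻¹ := ⟨_, rfl⟩
  rw [← hS'] at hσ'
  have hp1 : p - 1 ≠ 0 := by omega
  obtain ⟨k0, hk0⟩ : ∃ k0 : K, k0 = (-(c s)) ^ (p - 1) := ⟨_, rfl⟩
  have hk0r : P.Red k0 ((-(P.rs (c s))) ^ (p - 1)) := by
    rw [hk0]
    exact hcs.neg.pow (p - 1)
  have hk0ne : k0 ≠ 0 := by
    rw [hk0]
    exact pow_ne_zero _ (neg_ne_zero.2 hcs0)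
  obtain ⟨H, hH⟩ : ∃ H : K → K, H = fun x => k0 * ((c l + δ * B (p - 1) x * S' x) *
    (w l - w s + δ * B (p - 1) x - δ ^ (p - 1) * (a 0 + δ * x)) - B (p - 1) x) := ⟨_, rfl⟩
  obtain ⟨e, hHF⟩ : ∃ e : κ, FR P H (C e - X) := by
    refine ⟨(-(P.rs (c s))) ^ (p - 1) * (P.rs (c l) * (P.rs (w l) - P.rs (w s)) - eb), ?_⟩
    have h1 := (fr_const hcl).add (((fr_const hC.δ_red).mul hβF).mul hσ')
    have h2 := (((fr_const hwl).sub (fr_const hws)).add ((fr_const hC.δ_red).mul hβF)).sub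
      ((fr_const (hC.δ_red.pow (p - 1))).mul (fr_al hC (hra 0) fr_id))
    refine ((fr_const hk0r).mul ((h1.mul h2).sub hβF)).congr (fun x => by rw [hH]) ?_
    have h3 : (-(P.rs (c s))) ^ (p - 1) * (-(P.rs (c s))⁻¹) ^ (p - 1) = 1 := by
      rw [← mul_pow, neg_mul_neg, mul_inv_cancel₀ (hC.c_ne s), one_pow]
    have h4 : (C ((-(P.rs (c s))) ^ (p - 1)) : κ[X]) * C ((-(P.rs (c s))⁻¹) ^ (p - 1)) = 1 := by
      rw [← map_mul, h3, map_one]
    rw [zero_pow hp1, map_zero, zero_mul, zero_mul, zero_mul, add_zero, add_zero, sub_zero]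
    simp only [map_mul, map_sub]
    linear_combination (-X : κ[X]) * h4
  obtain ⟨x, hx, hHx⟩ := exists_root n1 hHF
  obtain ⟨β, hβ⟩ : ∃ β : K, β = B (p - 1) x := ⟨_, rfl⟩
  have rS' : P.Red (S' x) σ' := by
    have := hσ'.red hx
    rwa [eval_C] at this
  obtain ⟨β₀, rβ'⟩ : ∃ β₀ : κ, P.Red β β₀ := ⟨_, by rw [hβ]; exact hβF.red hx⟩
  have eH : β = (c l + δ * β * S' x) * (w l - w s + δ * β - δ ^ (p - 1) * (a 0 + δ * x)) := by
    rw [hH] at hHx
    have h1 := (mul_eq_zero.1 hHx).resolve_left hk0ne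
    rw [← hβ] at h1
    linear_combination -h1
  have rα : ∀ i, P.Red (a i + δ * B i x) (A0 * (-(P.rs (c s))⁻¹) ^ i) := fun i => by
    obtain ⟨e', he'⟩ := hBF i
    have := (fr_al hC (hra i) he').red hx
    rwa [eval_C] at this
  have rβ : P.Red β (P.rs (c l) * (P.rs (w l) - P.rs (w s))) := by
    have h0 : P.Red (a 0 + δ * x) (A0 * (-(P.rs (c s))⁻¹) ^ 0) := by
      have := rα 0
      rwa [hB0] at this
    have h1 := (hcl.add ((hC.δ_red.mul rβ').mul rS')).mul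
      (((hwl.sub hws).add (hC.δ_red.mul rβ')).sub ((hC.δ_red.pow (p - 1)).mul h0))
    rw [← eH, zero_pow hp1, zero_mul, zero_mul, zero_mul, add_zero, add_zero, sub_zero] at h1
    exact h1
  have nβ : β ≠ 0 := rβ.ne_zero (mul_ne_zero (hC.c_ne l) hane')
  have nα : ∀ i, a i + δ * B i x ≠ 0 := fun i => (rα i).ne_zero (hAne i)
  have nμ : ∀ i m, mu c w δ s m (a i) (B i x) ≠ 0 := fun i m => by
    obtain ⟨e', he'⟩ := hBF i
    have h1 := (fr_mu hC hs m (hra i) he').red hx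
    rw [eval_C] at h1
    exact h1.ne_zero (hC.c_ne s)
  -- the orbit
  obtain ⟨y, hy⟩ : ∃ y : ℕ → K, y = fun r => if r = p - 1 then w l + δ * β else
    w s + δ ^ (p - 1 - r) * (a r + δ * B r x) := ⟨_, rfl⟩
  have hylast : y (p - 1) = w l + δ * β := by
    rw [hy]
    simp
  have hylt : ∀ r, r < p - 1 → y r = w s + δ ^ (p - 1 - r) * (a r + δ * B r x) := fun r hr => by
    rw [hy]
    simp only []
    rw [if_neg hr.ne]
  have hstep : ∀ r, r < p - 1 → nN (fun j => δ * c j) w (y r) * (y r - y (r + 1)) = 1 := by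
    intro r hr
    have h1 : p - 1 - r = (p - 2 - r) + 1 := by omega
    have h2 := step_eq (c := c) (w := w) (s := s) (m := p - 2 - r) hδ (nα r) hcs0
      (nμ r (p - 2 - r))
    rw [← hBsucc, ← hasucc] at h2
    have h3 : y (r + 1) = w s + δ ^ (p - 2 - r) * (a (r + 1) + δ * B (r + 1) x) := by
      by_cases hr1 : r + 1 = p - 1
      · rw [hr1, hylast]
        have h4 : p - 2 - r = 0 := by omega
        have h5 : r = p - 2 := by omega
        have h6 : a (p - 1) = -(w s - w l) := by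
          rw [← hr1, hasucc, h5, halast]
          field_simp
        rw [h4, pow_zero, one_mul, h6, hβ]
        ring
      · rw [hylt (r + 1) (by omega)]
        congr 3
        omega
    rw [h3, hylt r hr, h1]
    exact h2
  have hclose : nN (fun j => δ * c j) w (y (p - 1)) * (y (p - 1) - y 0) = 1 := by
    rw [hylast, hylt 0 (by omega), nN_eq l hδ nβ, hB0, Nat.sub_zero]
    have eS : ∑ j ∈ Finset.univ.erase l, c j * (w l + δ * β - w j)⁻¹ = S' x := by rw [hS', hβ]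
    rw [eS, div_mul_eq_mul_div, div_eq_one_iff_eq nβ]
    linear_combination -eH
  have hmod : ∀ i, i % p = p - 1 → (i + 1) % p = 0 := by
    intro i hi
    rw [Nat.add_mod, hi, Nat.mod_eq_of_lt (show 1 < p by omega)]
    have : p - 1 + 1 = p := by omega
    rw [this, Nat.mod_self]
  have hmod' : ∀ i, i % p ≠ p - 1 → (i + 1) % p = i % p + 1 := by
    intro i hi
    have h1 : i % p < p := Nat.mod_lt i (by omega)
    rw [Nat.add_mod, Nat.mod_eq_of_lt (show 1 < p by omega), Nat.mod_eq_of_lt (by omega)]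
  refine ⟨fun i => y (i % p), ⟨?_, ?_, ?_⟩, ?_⟩
  · intro i
    rw [Nat.add_mod_right]
  · intro i j
    have h1 : i % p < p := Nat.mod_lt i (by omega)
    by_cases hi : i % p = p - 1
    · rw [hi, hylast]
      exact ne_w' hC hl rβ nβ j
    · rw [hylt _ (by omega)]
      have h2 : p - 1 - i % p = (p - 2 - i % p) + 1 := by omega
      rw [h2, pow_succ', mul_assoc]
      exact ne_w' hC hs ((hC.δ_red.pow (p - 2 - i % p)).mul (rα (i % p)))
        (mul_ne_zero (pow_ne_zero _ hδ) (nα _)) j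
  · intro i
    have h1 : i % p < p := Nat.mod_lt i (by omega)
    by_cases hi : i % p = p - 1
    · rw [hi, hmod i hi]
      exact hclose
    · rw [hmod' i hi]
      exact hstep _ (by omega)
  · intro i
    have h1 : i % p < p := Nat.mod_lt i (by omega)
    by_cases hi : i % p = p - 1
    · have h2 : wd p s l i = l := if_pos hi
      have h3 : wd p s l (i + 1) = s := if_neg (by rw [hmod i hi]; omega)
      rw [h2, h3, hi, hylast, add_sub_cancel_left, mul_div_cancel_left₀ _ hδ]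
      exact rβ
    · have h2 : wd p s l i = s := if_neg hi
      have h4 : p - 1 - i % p = (p - 2 - i % p) + 1 := by omega
      rw [h2, hylt _ (by omega), h4, add_sub_cancel_left, pow_succ', mul_assoc,
        mul_div_cancel_left₀ _ hδ]
      by_cases hi1 : i % p + 1 = p - 1
      · have h3 : wd p s l (i + 1) = l := if_pos (by rw [hmod' i hi]; exact hi1)
        have h5 : p - 2 - i % p = 0 := by omega
        have h6 : i % p = p - 2 := by omega
        rw [h3, h5, pow_zero, one_mul]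
        refine (rα (i % p)).eq rfl ?_
        rw [h6, hA0]
        have h7 : (-(P.rs (c s))) ^ (p - 2) * (-(P.rs (c s))⁻¹) ^ (p - 2) = 1 := by
          rw [← mul_pow, neg_mul_neg, mul_inv_cancel₀ (hC.c_ne s), one_pow]
        linear_combination (P.rs (c s) * (P.rs (w s) - P.rs (w l))) * h7
      · have h3 : wd p s l (i + 1) = s := if_neg (by rw [hmod' i hi]; exact hi1)
        rw [h3, sub_self, mul_zero]
        have h5 := (hC.δ_red.pow (p - 2 - i % p)).mul (rα (i % p))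
        have h6 : p - 2 - i % p ≠ 0 := by omega
        rwa [zero_pow h6, zero_mul] at h5

end Pool.Agent.LSF
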