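import Pool.Agent.LSF.CDefs
import Pool.Agent.LenSpec.PlBasic

/-!
TC2p: expansion of the multiplier of a cycle with itinerary `σ`.
-/

namespace Pool.Agent.LSF

open Polynomial Pool.Agent.LenSpec

section tc2p

variable {K κ : Type} [Field K] [Field κ] {p : Pl K κ} {d : ℕ}

private lemma tc2p_one {c w : Fin d → K} {δ : K} {V : Finset (Fin d)} (hC : Cfg p δ c w V)
    {s : Fin d} (hs : s ∈ V) {z D : K} {a : κ} (hz : ∀ j, z ≠ w j)
    (hred : p.Red ((z - w s) / δ) a) (heq : nN (fun j => δ * c j) w z * D = 1) :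
    ∃ S T : K, p.Red S (eE V (fun j => p.rs (c j)) (fun j => p.rs (w j)) s) ∧ T ∈ p.O ∧
      1 - nD (fun j => δ * c j) w z * D ^ 2 =
        (1 - (δ * c s)⁻¹) + 2 * S * D / c s - δ * D ^ 2 * T := by
  classical
  have hδ := hC.δ_ne
  have hcs : c s ≠ 0 := by
    intro h
    apply hC.c_ne s
    rw [h]
    exact (Pl.red_zero (p := p)).rs_eq
  have hx : z - w s ≠ 0 := sub_ne_zero.2 (hz s)
  have hzr : p.Red z (p.rs (w s)) := by
    have h1 : z = w s + δ * ((z - w s) / δ) := by
      rw [mul_div_cancel₀ _ hδ]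
      ring
    have h2 := (Pl.red_rs (hC.w_mem s hs)).add (hC.δ_red.mul hred)
    exact h2.eq h1.symm (by rw [zero_mul, add_zero])
  have hinv : ∀ j, j ≠ s → p.Red (z - w j)⁻¹
      (if j ∈ V then (p.rs (w s) - p.rs (w j))⁻¹ else 0) := by
    intro j hj
    by_cases hjV : j ∈ V
    · rw [if_pos hjV]
      refine (hzr.sub (Pl.red_rs (hC.w_mem j hjV))).inv ?_
      rw [sub_ne_zero]
      exact hC.w_ne s hs j hjV (Ne.symm hj)
    · rw [if_neg hjV]
      apply Pl.not_mem_inv
      intro hmem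
      apply hC.w_inf j hjV
      have : w j = z - (z - w j) := by ring
      rw [this]
      exact p.O.sub_mem hzr.mem hmem
  have hSred : p.Red (∑ j ∈ Finset.univ.erase s, c j / (z - w j))
      (eE V (fun j => p.rs (c j)) (fun j => p.rs (w j)) s) := by
    have h1 := Pl.red_sum (p := p) (Finset.univ.erase s) (x := fun j => c j / (z - w j))
      (y := fun j => p.rs (c j) * (if j ∈ V then (p.rs (w s) - p.rs (w j))⁻¹ else 0))
      (fun j hj => by
        have := (Pl.red_rs (hC.c_mem j)).mul (hinv j (Finset.ne_of_mem_erase hj))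
        rwa [← div_eq_mul_inv] at this)
    refine h1.eq rfl ?_
    unfold eE
    have h2 : V.erase s = (Finset.univ.erase s).filter (fun j => j ∈ V) := by
      ext j
      simp [and_comm]
    rw [h2, Finset.sum_filter]
    refine Finset.sum_congr rfl fun j _ => ?_
    split_ifs
    · rw [div_eq_mul_inv]
    · rw [mul_zero]
  have hQ : (∑ j ∈ Finset.univ.erase s, c j / (z - w j) ^ 2) ∈ p.O := by
    refine sum_mem fun j hj => ?_
    have h1 := (Pl.red_rs (hC.c_mem j)).mul ((hinv j (Finset.ne_of_mem_erase hj)).pow 2)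
    have h2 := h1.mem
    rwa [inv_pow, ← div_eq_mul_inv] at h2
  refine ⟨∑ j ∈ Finset.univ.erase s, c j / (z - w j),
    (∑ j ∈ Finset.univ.erase s, c j / (z - w j)) ^ 2 / c s +
      ∑ j ∈ Finset.univ.erase s, c j / (z - w j) ^ 2, hSred, ?_, ?_⟩
  · refine p.O.add_mem ?_ hQ
    exact ((hSred.pow 2).div (Pl.red_rs (hC.c_mem s)) (hC.c_ne s)).mem
  · have h1 : nN (fun j => δ * c j) w z =
        δ * c s / (z - w s) + δ * ∑ j ∈ Finset.univ.erase s, c j / (z - w j) := by
      unfold nN
      rw [← Finset.add_sum_erase _ _ (Finset.mem_univ s), Finset.mul_sum]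
      congr 1
      refine Finset.sum_congr rfl fun j _ => ?_
      rw [mul_div_assoc]
    have h2 : nD (fun j => δ * c j) w z =
        δ * c s / (z - w s) ^ 2 + δ * ∑ j ∈ Finset.univ.erase s, c j / (z - w j) ^ 2 := by
      unfold nD
      rw [← Finset.add_sum_erase _ _ (Finset.mem_univ s), Finset.mul_sum]
      congr 1
      refine Finset.sum_congr rfl fun j _ => ?_
      rw [mul_div_assoc]
    rw [h1] at heq
    rw [h2]
    set S := ∑ j ∈ Finset.univ.erase s, c j / (z - w j) with hS
    set Q := ∑ j ∈ Finset.univ.erase s, c j / (z - w j) ^ 2 with hQd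
    set x := z - w s with hxd
    have h3 : δ * c s * D / x = 1 - δ * S * D := by
      have h4 : (δ * c s / x + δ * S) * D = δ * c s * D / x + δ * S * D := by ring
      rw [h4] at heq
      linear_combination heq
    have h5 : δ * c s / x ^ 2 * D ^ 2 = (1 - δ * S * D) ^ 2 / (δ * c s) := by
      rw [← h3]
      field_simp
    have h6 : 1 - (δ * c s / x ^ 2 + δ * Q) * D ^ 2 =
        1 - δ * c s / x ^ 2 * D ^ 2 - δ * Q * D ^ 2 := by ring
    rw [h6, h5]
    field_simp
    ring

private lemma tc2p_prod {δ : K} (hδ : δ ≠ 0) (hδr : p.Red δ 0) {A : ℕ → K} {B : ℕ → κ}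
    (h : ∀ i, p.Red (A i) (B i)) (n : ℕ) :
    p.Red ((∏ i ∈ Finset.range n, (1 + δ * A i) - 1) / δ) (∑ i ∈ Finset.range n, B i) := by
  induction n with
  | zero =>
    rw [Finset.prod_range_zero, Finset.sum_range_zero, sub_self, zero_div]
    exact Pl.red_zero
  | succ n ih =>
    rw [Finset.prod_range_succ, Finset.sum_range_succ]
    refine ((ih.add (h n)).add (hδr.mul (ih.mul (h n)))).eq ?_ ?_
    · field_simp
      ring
    · rw [zero_mul, add_zero]

end tc2p

theorem TC2p_holds : TC2pS := by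
  intro K κ _ _ P d p c w δ V hC σ z hσ hN
  have hδ := hC.δ_ne
  have hc0 : ∀ j, c j ≠ 0 := by
    intro j h
    apply hC.c_ne j
    rw [h]
    exact (Pl.red_zero (p := P)).rs_eq
  have hcr : ∀ j, P.Red (c j) (P.rs (c j)) := fun j => Pl.red_rs (hC.c_mem j)
  have hone := fun i => tc2p_one hC (hσ i) (hN.pc.hz i) (hN.red i) (hN.pc.eq i)
  choose S T hS hT hA using hone
  have hz : ∀ i, P.Red (z i) (P.rs (w (σ i))) := by
    intro i
    have h1 : z i = w (σ i) + δ * ((z i - w (σ i)) / δ) := by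
      rw [mul_div_cancel₀ _ hδ]
      ring
    have h2 := (Pl.red_rs (hC.w_mem _ (hσ i))).add (hC.δ_red.mul (hN.red i))
    exact h2.eq h1.symm (by rw [zero_mul, add_zero])
  have hD : ∀ i, P.Red (z i - z (i + 1)) (P.rs (w (σ i)) - P.rs (w (σ (i + 1)))) :=
    fun i => (hz i).sub (hz (i + 1))
  have h2r : P.Red (2 : K) (2 : κ) := by
    have := Pl.red_natCast (p := P) 2
    push_cast at this
    exact this
  have hTr := fun i => Pl.red_rs (hT i)
  constructor
  · have h1 : P.Red (∏ i ∈ Finset.range p,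
        (δ * (1 - nD (fun j => δ * c j) w (z i) * (z i - z (i + 1)) ^ 2)))
        (∏ i ∈ Finset.range p, (-P.rs (c (σ i)))⁻¹) := by
      refine Pl.red_prod _ fun i _ => ?_
      have h1 := ((hC.δ_red.sub ((hcr (σ i)).inv (hC.c_ne (σ i)))).add
          (hC.δ_red.mul (((h2r.mul (hS i)).mul (hD i)).div (hcr (σ i)) (hC.c_ne (σ i))))).sub
          (hC.δ_red.mul ((hC.δ_red.mul ((hD i).pow 2)).mul (hTr i)))
      refine h1.eq ?_ ?_
      · rw [hA i]
        have := hc0 (σ i)
        field_simp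
      · rw [inv_neg]
        ring
    refine h1.eq ?_ (Finset.prod_inv_distrib _)
    rw [Finset.prod_mul_distrib, Finset.prod_const, Finset.card_range]
    rfl
  · have hu : ∀ j, P.Red (1 - δ * c j) 1 := by
      intro j
      refine (Pl.red_one.sub (hC.δ_red.mul (hcr j))).eq rfl ?_
      rw [zero_mul, sub_zero]
    have hu0 : ∀ j, 1 - δ * c j ≠ 0 := fun j => (hu j).ne_zero one_ne_zero
    have hB : ∀ i, P.Red (-(2 * S i * (z i - z (i + 1)) -
        δ * c (σ i) * (z i - z (i + 1)) ^ 2 * T i) / (1 - δ * c (σ i)))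
        (-2 * (eE V (fun j => P.rs (c j)) (fun j => P.rs (w j)) (σ i) *
          (P.rs (w (σ i)) - P.rs (w (σ (i + 1)))))) := by
      intro i
      have h1 := ((((h2r.mul (hS i)).mul (hD i)).sub
        (((hC.δ_red.mul (hcr (σ i))).mul ((hD i).pow 2)).mul (hTr i))).neg).div
          (hu (σ i)) one_ne_zero
      refine h1.eq rfl ?_
      ring
    refine (tc2p_prod hδ hC.δ_red hB p).eq ?_ (Finset.mul_sum _ _ _).symm
    have hus : ∀ j, 1 - (δ * c j)⁻¹ ≠ 0 := by
      intro j h
      have h7 : (δ * c j)⁻¹ = 1 := by linear_combination -h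
      have h8 : δ * c j = 1 := inv_eq_one.1 h7
      apply hu0 j
      rw [h8, sub_self]
    have key : ∀ j (S D T : K), (1 - (δ * c j)⁻¹) + 2 * S * D / c j - δ * D ^ 2 * T =
        (1 - (δ * c j)⁻¹) * (1 + δ * (-(2 * S * D - δ * c j * D ^ 2 * T) / (1 - δ * c j))) := by
      intro j S D T
      have h5 := hc0 j
      have h6 := hu0 j
      field_simp
      ring
    congr 2
    unfold mW
    rw [← Finset.prod_div_distrib]
    refine Finset.prod_congr rfl fun i _ => ?_
    rw [hA i, key, mul_div_cancel_left₀ _ (hus (σ i))]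

end Pool.Agent.LSF
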