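import Pool.Agent.LSF.CDefs
import Pool.Agent.LenSpec.TC3

/-!
TC3p: the multiplier of a cycle is in `multSpec p`.
-/

namespace Pool.Agent.LSF

open Polynomial Pool.Agent.LenSpec

/-- a point of a cycle is a root of `fixPoly p`; the multiplier of the `p`-th iterate -/
theorem tc3p_cyc (a1 : A1S) {K : Type} [Field K] {d p : ℕ} {w ι : Fin d → K} {f : RatMap K d}
    (hf : IsNf f w ι) {z : ℕ → K} (h : PC ι w p z) :
    ((iter d f.num f.den p).1 - X * (iter d f.num f.den p).2).eval (z 0) = 0 ∧
    derivAt (iter d f.num f.den p).1 (iter d f.num f.den p).2 (z 0) = mW ι w p z := by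
  have hev : ∀ i, f.den.eval (z i) ≠ 0 ∧ ev f.num f.den (z i) = z (i + 1) := by
    intro i
    have h1 := TC3.ev_cyc (w := w) (ι := ι) (h.hz i) (h.eq i)
    rw [← hf.1, ← hf.2] at h1
    exact h1
  have hm : ∀ i, derivAt f.num f.den (z i) = 1 - nD ι w (z i) * (z i - z (i + 1)) ^ 2 := by
    intro i
    have h1 := TC3.derivAt_cyc (w := w) (ι := ι) (h.hz i) (h.eq i)
    rw [← hf.1, ← hf.2] at h1
    exact h1
  have hit : ∀ k, (ev f.num f.den)^[k] (z 0) = z k := by
    intro k
    induction k with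
    | zero => rfl
    | succ k ih => rw [Function.iterate_succ_apply', ih, (hev k).2]
  obtain ⟨-, h2, h3⟩ := a1 K d p f.num f.den (z 0) f.num_le f.den_le
    (fun k _ => by
      rw [hit]
      exact (hev k).1)
  have h4 : z p = z 0 := by
    have := h.per 0
    rwa [zero_add] at this
  rw [hit, h4] at h2
  refine ⟨?_, ?_⟩
  · rw [eval_sub, eval_mul, eval_X, h2, sub_self]
  · rw [h3, mult, mW]
    refine Finset.prod_congr rfl fun k _ => ?_
    rw [hit, hm]

/-- the iterates are not the identity -/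
theorem tc3p_fixPoly_ne (a2 : A2S) {K : Type} [Field K] {d p : ℕ} (hd : 2 ≤ d) (hp : 1 ≤ p)
    (f : RatMap K d) :
    (iter d f.num f.den p).1 - X * (iter d f.num f.den p).2 ≠ 0 := by
  intro h0
  obtain ⟨h1, h2⟩ := TC3.iter_map (algebraMap K (AlgebraicClosure K)) d f.num f.den p
  obtain ⟨-, -, h3, h4⟩ := a2 (AlgebraicClosure K) d p
    (f.mapHom (algebraMap K (AlgebraicClosure K))).num
    (f.mapHom (algebraMap K (AlgebraicClosure K))).den (by omega)
    (f.mapHom (algebraMap K (AlgebraicClosure K))).num_le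
    (f.mapHom (algebraMap K (AlgebraicClosure K))).den_le
    (f.mapHom (algebraMap K (AlgebraicClosure K))).deg_eq
    (f.mapHom (algebraMap K (AlgebraicClosure K))).coprime
  have h5 : (f.mapHom (algebraMap K (AlgebraicClosure K))).num =
    f.num.map (algebraMap K (AlgebraicClosure K)) := rfl
  have h6 : (f.mapHom (algebraMap K (AlgebraicClosure K))).den =
    f.den.map (algebraMap K (AlgebraicClosure K)) := rfl
  rw [h5, h6, h1, h2] at h3 h4
  have h7 := congrArg (Polynomial.map (algebraMap K (AlgebraicClosure K))) h0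
  rw [Polynomial.map_sub, Polynomial.map_mul, Polynomial.map_X, Polynomial.map_zero,
    sub_eq_zero] at h7
  rw [h7] at h3 h4
  generalize (iter d f.num f.den p).2.map (algebraMap K (AlgebraicClosure K)) = B at *
  have h8 : IsUnit B := by
    refine isCoprime_self.1 ?_
    exact h4.of_mul_left_right
  have h9 : B.natDegree = 0 := natDegree_eq_zero_of_isUnit h8
  have h10 : B ≠ 0 := h8.ne_zero
  rw [natDegree_X_mul h10, h9] at h3
  have h11 : 2 ^ p ≤ d ^ p := Nat.pow_le_pow_left hd p
  have h12 : 2 ^ 1 ≤ 2 ^ p := Nat.pow_le_pow_right (by norm_num) hp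
  omega

theorem TC3p_holds (a1 : A1S) (a2 : A2S) : TC3pS := by
  intro K _ d p f w ι z hd hp hf h
  obtain ⟨h1, h2⟩ := tc3p_cyc a1 hf h
  rw [RatMap.multSpec, fixMult, ← h2]
  refine Multiset.mem_add.2 (Or.inl ?_)
  refine Multiset.mem_map_of_mem _ ?_
  rw [mem_roots (tc3p_fixPoly_ne a2 hd hp f)]
  exact h1

end Pool.Agent.LSF
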