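import Pool.Agent.LSF.CDefs
import Pool.Agent.LenSpec.TC3
import Pool.Agent.LenSpec.TC4
import Pool.Agent.LenSpec.A1

/-!
TC4a: the fixed points of the `p`-th iterate of a map in normal form.
-/

namespace Pool.Agent.LSF

open Polynomial Pool.Agent.LenSpec

namespace TC4a

section deg

variable {K : Type} [Field K] {d : ℕ}

/-- leading coefficients of a homogeneous composition -/
theorem homComp_coeff_gen {P Q R : K[X]} {D : ℕ} (hd : 1 ≤ d) (hD : 1 ≤ D)
    (hP : P.natDegree ≤ D) (hQ : Q.natDegree ≤ D - 1) :
    (homComp d R P Q).coeff (D * d) = R.coeff d * P.coeff D ^ d ∧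
    (R.coeff d = 0 → (homComp d R P Q).natDegree ≤ D * d - 1 ∧
      (homComp d R P Q).coeff (D * d - 1) =
        R.coeff (d - 1) * P.coeff D ^ (d - 1) * Q.coeff (D - 1)) := by
  obtain ⟨e, rfl⟩ := Nat.exists_eq_add_of_le' hd
  obtain ⟨E, rfl⟩ := Nat.exists_eq_add_of_le' hD
  rw [Nat.add_sub_cancel] at hQ
  rw [Nat.add_sub_cancel, Nat.add_sub_cancel]
  have hterm : ∀ i ≤ e + 1, (C (R.coeff i) * P ^ i * Q ^ (e + 1 - i)).natDegree ≤
      i * (E + 1) + (e + 1 - i) * E := fun i _ => TC4.natDegree_term hP hQ
  have hlt : ∀ i, i < e + 1 → i * (E + 1) + (e + 1 - i) * E + (e + 1 - i) =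
      (E + 1) * (e + 1) := by
    intro i hi
    obtain ⟨j, hj⟩ := Nat.exists_eq_add_of_lt hi
    have h1 : e + 1 - i = j + 1 := by omega
    rw [h1]
    have h2 : e = i + j := by omega
    subst h2
    ring
  refine ⟨?_, ?_⟩
  · rw [homComp, finsetSum_coeff, Finset.sum_range_succ, Finset.sum_eq_zero, zero_add,
      Nat.sub_self, pow_zero, mul_one, coeff_C_mul]
    · rw [mul_comm (E + 1) (e + 1), coeff_pow_of_natDegree_le hP]
    · intro i hi
      have hi' := Finset.mem_range.1 hi
      refine coeff_eq_zero_of_natDegree_lt ((hterm i hi'.le).trans_lt ?_)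
      have := hlt i hi'
      omega
  · intro hR
    refine ⟨?_, ?_⟩
    · rw [homComp]
      refine natDegree_sum_le_of_forall_le _ _ (fun i hi => ?_)
      have hi' : i < e + 1 + 1 := Finset.mem_range.1 hi
      by_cases h : i = e + 1
      · rw [h, hR]
        simp
      · refine (hterm i (by omega)).trans ?_
        have := hlt i (by omega)
        omega
    · rw [homComp, finsetSum_coeff, Finset.sum_range_succ, hR, Finset.sum_range_succ,
        Finset.sum_eq_zero]
      · simp only [map_zero, zero_mul, coeff_zero, add_zero, zero_add]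
        have h1 : e + 1 - e = 1 := by omega
        have h2 : (E + 1) * (e + 1) - 1 = e * (E + 1) + E := by
          have : (E + 1) * (e + 1) = e * (E + 1) + E + 1 := by ring
          omega
        rw [h1, pow_one, h2, coeff_mul_add_eq_of_natDegree_le _ hQ, coeff_C_mul,
          coeff_pow_of_natDegree_le hP]
        · exact (natDegree_C_mul_le _ _).trans (natDegree_pow_le_of_le e hP)
      · intro i hi
        have hi' := Finset.mem_range.1 hi
        refine coeff_eq_zero_of_natDegree_lt ((hterm i (by omega)).trans_lt ?_)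
        have := hlt i (by omega)
        omega

/-- the iterates at infinity -/
theorem iter_inf (hd : 1 ≤ d) {f : RatMap K d} {w ι : Fin d → K} (hf : IsNf f w ι)
    (a2 : ∀ n, (iter d f.num f.den n).1.natDegree ≤ d ^ n) (n : ℕ) :
    (iter d f.num f.den n).1.coeff (d ^ n) ≠ 0 ∧
    (iter d f.num f.den n).2.natDegree ≤ d ^ n - 1 ∧
    (iter d f.num f.den n).2.coeff (d ^ n - 1) * ((∑ j, ι j) - 1) ^ n =
      (∑ j, ι j) ^ n * (iter d f.num f.den n).1.coeff (d ^ n) := by
  have h1 : f.den.natDegree ≤ d - 1 := by
    rw [hf.2]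
    exact TC4.nfM_natDegree w ι
  have h2 : f.num.coeff d = (∑ j, ι j) - 1 := by
    rw [hf.1]
    exact TC4.num_coeff hd w ι
  have h3 : f.den.coeff (d - 1) = ∑ j, ι j := by
    rw [hf.2]
    exact TC4.nfM_coeff w ι
  have h4 : f.den.coeff d = 0 := coeff_eq_zero_of_natDegree_lt (by omega)
  have hS := TC4.sum_ne_one hd hf
  induction n with
  | zero =>
    simp [iter]
  | succ n ih =>
    obtain ⟨i1, i2, i3⟩ := ih
    have hD : 1 ≤ d ^ n := Nat.one_le_pow _ _ hd
    obtain ⟨h5, -⟩ := homComp_coeff_gen (R := f.num) hd hD (a2 n) i2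
    obtain ⟨-, h6⟩ := homComp_coeff_gen (R := f.den) hd hD (a2 n) i2
    obtain ⟨h7, h8⟩ := h6 h4
    rw [iter, pow_succ]
    refine ⟨?_, h7, ?_⟩
    · rw [h5, h2]
      exact mul_ne_zero hS (pow_ne_zero _ i1)
    · rw [h5, h8, h2, h3]
      generalize (iter d f.num f.den n).1.coeff (d ^ n) = a at *
      generalize (iter d f.num f.den n).2.coeff (d ^ n - 1) = b at *
      obtain ⟨e, rfl⟩ := Nat.exists_eq_add_of_le' hd
      rw [Nat.add_sub_cancel, pow_succ a e, pow_succ ((∑ j, ι j) - 1) n]
      linear_combination (∑ j, ι j) * a ^ e * ((∑ j, ι j) - 1) * i3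

/-- the multiplier of the `p`-th iterate at infinity -/
theorem multInf_pow (hd : 2 ≤ d) {f : RatMap K d} {w ι : Fin d → K} (hf : IsNf f w ι) {p : ℕ}
    (hp : 1 ≤ p) (a2 : ∀ n, (iter d f.num f.den n).1.natDegree ≤ d ^ n) :
    multInf (iter d f.num f.den p).1 (iter d f.num f.den p).2 =
      (1 - (1 - ∑ j, ι j)⁻¹) ^ p := by
  obtain ⟨h1, h2, h3⟩ := iter_inf (by omega) hf a2 p
  have hS := TC4.sum_ne_one (by omega : 1 ≤ d) hf
  have h4 := a2 p
  have hpos : 1 ≤ d ^ p := Nat.one_le_pow _ _ (by omega)
  have h5 : (iter d f.num f.den p).1.natDegree = d ^ p :=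
    le_antisymm h4 (le_natDegree_of_ne_zero h1)
  generalize (iter d f.num f.den p).1 = A at *
  generalize (iter d f.num f.den p).2 = B at *
  generalize ∑ j, ι j = S at *
  have hS' : 1 - S ≠ 0 := by
    intro h
    apply hS
    linear_combination -h
  rw [multInf]
  split_ifs with h
  · have h6 : B.natDegree = d ^ p - 1 := by omega
    have h7 : B.leadingCoeff = B.coeff (d ^ p - 1) := by
      rw [leadingCoeff, h6]
    have h8 : A.leadingCoeff = A.coeff (d ^ p) := by
      rw [leadingCoeff, h5]
    rw [h7, h8]
    have h9 := pow_ne_zero p hS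
    have h10 : 1 - (1 - S)⁻¹ = S / (S - 1) := by
      field_simp
      ring
    rw [h10, div_pow, div_eq_div_iff h1 h9, h3]
  · have h6 : B.coeff (d ^ p - 1) = 0 := coeff_eq_zero_of_natDegree_lt (by omega)
    rw [h6, zero_mul] at h3
    have h7 : S = 0 := by
      by_contra h0
      exact mul_ne_zero (pow_ne_zero _ h0) h1 h3.symm
    rw [h7, sub_zero, inv_one, sub_self, zero_pow (by omega)]

theorem homComp_eval_zero {P A B : K[X]} {z : K} (hB : B.eval z = 0) :
    (homComp d P A B).eval z = P.coeff d * (A.eval z) ^ d := by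
  rw [homComp, eval_finsetSum, Finset.sum_range_succ, Finset.sum_eq_zero, zero_add, Nat.sub_self,
    pow_zero, mul_one, eval_mul, eval_C, eval_pow]
  intro i hi
  have := Finset.mem_range.1 hi
  rw [eval_mul, eval_pow, hB, zero_pow (by omega), mul_zero]

/-- once the orbit meets infinity, it stays there -/
theorem iter_zero_of_le {f : RatMap K d} (h4 : f.den.coeff d = 0) {z : K} {m n : ℕ}
    (hmn : m ≤ n) (h : (iter d f.num f.den m).2.eval z = 0) :
    (iter d f.num f.den n).2.eval z = 0 := by
  induction n, hmn using Nat.le_induction with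
  | base => exact h
  | succ n _ ih => rw [iter, homComp_eval_zero ih, h4, zero_mul]

end deg

end TC4a

open TC4a in
theorem TC4a_holds (a1 : A1S) (a2 : A2S) (a3 : A3S) : TC4aS := by
  intro K _ _ d p f w ι hd hp hw hι hS1 hf x hx
  have hdeg : ∀ n, (iter d f.num f.den n).1.natDegree ≤ d ^ n := fun n =>
    (a2 K d n f.num f.den (by omega) f.num_le f.den_le f.deg_eq f.coprime).1
  have hdM : f.den.natDegree ≤ d - 1 := by
    rw [hf.2]
    exact TC4.nfM_natDegree w ι
  have hden0 : f.den.coeff d = 0 := coeff_eq_zero_of_natDegree_lt (by omega)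
  rw [RatMap.multSpec, fixMult] at hx
  rcases Multiset.mem_add.1 hx with hx | hx
  · right
    obtain ⟨z, hz, rfl⟩ := Multiset.mem_map.1 hx
    have hz' := (mem_roots'.1 hz).2
    rw [IsRoot, eval_sub, eval_mul, eval_X, sub_eq_zero] at hz'
    have hcop := (a2 K d p f.num f.den (by omega) f.num_le f.den_le f.deg_eq f.coprime).2.2.2
    have hBp : (iter d f.num f.den p).2.eval z ≠ 0 := by
      intro h0
      obtain ⟨u, v, huv⟩ := hcop
      have h1 := congrArg (Polynomial.eval z) huv
      rw [eval_add, eval_mul, eval_mul, h0, hz', h0, eval_one] at h1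
      simp at h1
    have hne : ∀ k < p, f.den.eval ((ev f.num f.den)^[k] z) ≠ 0 := by
      intro k
      induction k using Nat.strong_induction_on with
      | _ k ih =>
        intro hk h0
        obtain ⟨h1, h2, -⟩ := a1 K d k f.num f.den z f.num_le f.den_le
          (fun j hj => ih j hj (by omega))
        have h3 : (iter d f.num f.den (k + 1)).2.eval z = 0 := by
          rw [iter, homComp_eval f.den_le _ _ _ h1, h2, mul_div_cancel_right₀ _ h1, h0, zero_mul]
        exact hBp (iter_zero_of_le hden0 (by omega) h3)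
    obtain ⟨-, h2, h3⟩ := a1 K d p f.num f.den z f.num_le f.den_le hne
    have hfix : (ev f.num f.den)^[p] z = z := by
      rw [hz'] at h2
      exact (mul_right_cancel₀ hBp h2).symm
    have hper : ∀ i, (ev f.num f.den)^[i + p] z = (ev f.num f.den)^[i] z := by
      intro i
      rw [Function.iterate_add_apply, hfix]
    rw [h3]
    by_cases hcase : ∃ k j, (ev f.num f.den)^[k] z = w j
    · obtain ⟨k, j, hkj⟩ := hcase
      left
      refine ⟨j, ?_⟩
      have he := TC3.ev_fix hw hι j
      have hm := TC3.derivAt_fix hw hι j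
      rw [← hf.1, ← hf.2] at he hm
      have h5 : ∀ m, (ev f.num f.den)^[m + k] z = w j := by
        intro m
        rw [Function.iterate_add_apply, hkj]
        exact Function.iterate_fixed he m
      have h6 : ∀ m, (ev f.num f.den)^[m * p] z = z := by
        intro m
        induction m with
        | zero => simp
        | succ m ih => rw [Nat.succ_mul, hper, ih]
      have h7 : z = w j := by
        have h8 : k ≤ k * p := Nat.le_mul_of_pos_right k (by omega)
        rw [← h6 k, ← h5 (k * p - k), Nat.sub_add_cancel h8]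
      rw [h7, mult]
      rw [Finset.prod_congr rfl (g := fun _ => 1 - (ι j)⁻¹), Finset.prod_const, Finset.card_range]
      intro i _
      rw [Function.iterate_fixed he i, hm]
    · right
      push Not at hcase
      have hden : ∀ i, f.den.eval ((ev f.num f.den)^[i] z) ≠ 0 := by
        intro i
        induction i using Nat.strong_induction_on with
        | _ i ih =>
          by_cases hi : i < p
          · exact hne i hi
          · obtain ⟨j, rfl⟩ := Nat.exists_eq_add_of_le' (not_lt.1 hi)
            rw [hper]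
            exact ih j (by omega)
      have heq : ∀ i, nN ι w ((ev f.num f.den)^[i] z) *
          ((ev f.num f.den)^[i] z - (ev f.num f.den)^[i + 1] z) = 1 := by
        intro i
        have h8 := hden i
        have h9 := TC3.eval_nfR_ne (hcase i)
        have h10 := TC3.eval_nfM_eq (ι := ι) (hcase i)
        rw [Function.iterate_succ_apply']
        generalize (ev f.num f.den)^[i] z = y at *
        rw [ev, hf.1]
        rw [hf.2] at h8 ⊢
        rw [eval_sub, eval_mul, eval_X]
        have h11 : y - (y * (nfM w ι).eval y - (nfR w).eval y) / (nfM w ι).eval y =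
            (nfR w).eval y / (nfM w ι).eval y := by
          field_simp
          ring
        rw [h11, h10]
        rw [h10] at h8
        have h12 := left_ne_zero_of_mul h8
        field_simp
      refine ⟨fun i => (ev f.num f.den)^[i] z, ⟨hper, hcase, heq⟩, ?_⟩
      rw [mult, mW]
      refine Finset.prod_congr rfl (fun i _ => ?_)
      rw [← TC3.derivAt_cyc (hcase i) (heq i), ← hf.1, ← hf.2]
  · left
    rw [Multiset.eq_of_mem_replicate hx]
    exact multInf_pow hd hf hp hdeg

end Pool.Agent.LSF
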