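import Pool.Agent.LSF.CDefs
import Pool.Agent.LenSpec.PlBasic

/-!
TC4b: every cycle has an itinerary.

PROOF. Write `N z = ∑ δ c j / (z - w j)`.
(1) All `z i ∈ O`. Otherwise choose (`Pl.exists_dvd_all` over `Finset.range p`, periodicity `z i = z (i % p)`) an index `m`
with `z m ≠ 0` and `z j / z m ∈ O` for all `j`; `z m ∉ O` (else all `z j ∈ O`), so `(z m)⁻¹ → 0`. Then
`N (z m) = (δ / z m) * b`, `b = ∑ c j / (1 - w j / z m) ∈ O` (`w j ∈ O`, so `w j / z m → 0`), and
`1 = N (z m) (z m - z (m+1)) = δ * b * (1 - z (m+1) / z m)`, which reduces to `0`: contradiction.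
(2) For each `i` there is `j` with `(z i - w j) / δ ∈ O`: otherwise all `δ / (z i - w j)` reduce to `0`
(`Pl.not_mem_inv`), and `1 = (∑ c j * (δ / (z i - w j))) * (z i - z (i+1))` reduces to `0`. Call it `σ i` (choose). Then
`z i` reduces to `w̄ (σ i)`; as the `w̄ j` are distinct, `σ i` is determined by `z i`: `σ (i + p) = σ i`.
(3) Let `s = σ i`, `ε = z i - w s ≠ 0`, `D = z i - z (i+1)`, `S = ∑_{j ≠ s} c j / (z i - w j) ∈ O`. From
`(c s δ / ε + δ S) D = 1`: `ε (1 - δ S D) = c s δ D`, `ε / δ = c s D / (1 - δ S D)` reduces to `c̄ s (w̄ s - w̄ (σ (i+1)))`.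
-/

namespace Pool.Agent.LSF

open Polynomial Pool.Agent.LenSpec Pool.Agent.LenSpec.Pl

namespace TC4bAux

variable {K κ : Type} [Field K] [Field κ] {d : ℕ}

lemma per_mod {α : Type*} (z : ℕ → α) (p : ℕ) (h : ∀ i, z (i + p) = z i) (i : ℕ) :
    z (i % p) = z i := by
  have h2 : ∀ (k i : ℕ), z (i + p * k) = z i := by
    intro k
    induction k with
    | zero =>
      intro i
      simp
    | succ k ih =>
      intro i
      rw [Nat.mul_succ, ← add_assoc, h, ih]
  have h3 := h2 (i / p) (i % p)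
  rw [Nat.mod_add_div] at h3
  exact h3.symm

lemma nN_alt (c w : Fin d → K) (δ z : K) :
    nN (fun j => δ * c j) w z = ∑ j, c j * (δ / (z - w j)) := by
  unfold nN
  exact Finset.sum_congr rfl fun j _ => by ring

lemma all_mem (P : Pl K κ) (p : ℕ) (c w : Fin d → K) (δ : K) (z : ℕ → K) (hp : 1 ≤ p)
    (hC : Cfg P δ c w Finset.univ) (hz : PC (fun j => δ * c j) w p z) : ∀ i, z i ∈ P.O := by
  by_contra hcon
  push Not at hcon
  obtain ⟨i₀, hi₀⟩ := hcon
  have hmod := per_mod z p hz.per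
  have hne : ∃ i ∈ Finset.range p, z i ≠ 0 := by
    refine ⟨i₀ % p, Finset.mem_range.2 (Nat.mod_lt _ hp), ?_⟩
    rw [hmod]
    intro h0
    exact hi₀ (h0 ▸ P.O.zero_mem)
  obtain ⟨m, -, hm0, hm⟩ := exists_dvd_all P (Finset.range p) z hne
  have hall : ∀ j, z j / z m ∈ P.O := by
    intro j
    have := hm (j % p) (Finset.mem_range.2 (Nat.mod_lt _ hp))
    rwa [hmod] at this
  have hmO : z m ∉ P.O := by
    intro h
    apply hi₀
    have := P.O.mul_mem (hall i₀) h
    rwa [div_mul_cancel₀ _ hm0] at this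
  have hinv : P.Red (z m)⁻¹ 0 := not_mem_inv hmO
  have hwO : ∀ j, w j ∈ P.O := fun j => hC.w_mem j (Finset.mem_univ j)
  have hden : ∀ j, P.Red (1 - w j * (z m)⁻¹) 1 := fun j =>
    (red_one.sub ((red_rs (hwO j)).mul hinv)).eq rfl (by ring)
  have hb : ∑ j, c j / (1 - w j * (z m)⁻¹) ∈ P.O := by
    apply P.O.sum_mem
    intro j _
    exact ((red_rs (hC.c_mem j)).div (hden j) one_ne_zero).mem
  have hN : nN (fun j => δ * c j) w (z m) = (δ / z m) * ∑ j, c j / (1 - w j * (z m)⁻¹) := by
    unfold nN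
    rw [Finset.mul_sum]
    apply Finset.sum_congr rfl
    intro j _
    have h1 : z m - w j ≠ 0 := sub_ne_zero.2 (hz.hz m j)
    have h2 : 1 - w j * (z m)⁻¹ = (z m - w j) / z m := by
      field_simp
    rw [h2]
    field_simp
  have heq := hz.eq m
  rw [hN] at heq
  have heq2 : δ * (∑ j, c j / (1 - w j * (z m)⁻¹)) * (1 - z (m + 1) / z m) = 1 := by
    refine Eq.trans ?_ heq
    generalize ∑ j, c j / (1 - w j * (z m)⁻¹) = b
    generalize z (m + 1) = z'
    field_simp
  have hred := (hC.δ_red.mul (red_rs hb)).mul (red_one.sub (red_rs (hall (m + 1))))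
  rw [heq2] at hred
  have := hred.unique red_one
  simp at this

lemma ex_near (P : Pl K κ) (p : ℕ) (c w : Fin d → K) (δ : K) (z : ℕ → K)
    (hC : Cfg P δ c w Finset.univ) (hz : PC (fun j => δ * c j) w p z)
    (hO : ∀ i, z i ∈ P.O) (i : ℕ) : ∃ j, (z i - w j) / δ ∈ P.O := by
  by_contra hcon
  push Not at hcon
  have h1 : ∀ j, P.Red (δ / (z i - w j)) 0 := by
    intro j
    have := not_mem_inv (hcon j)
    rwa [inv_div] at this
  have heq := hz.eq i
  rw [nN_alt] at heq
  have hred := (red_sum Finset.univ fun j _ => (red_rs (hC.c_mem j)).mul (h1 j)).mul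
    ((red_rs (hO i)).sub (red_rs (hO (i + 1))))
  rw [heq] at hred
  have := hred.unique red_one
  simp at this

end TC4bAux

open TC4bAux

theorem TC4b_holds : TC4bS := by
  intro K κ _ _ P d p c w δ z hp hC hz
  have hO := all_mem P p c w δ z hp hC hz
  have hex := ex_near P p c w δ z hC hz hO
  choose σ hσ using hex
  have hwO : ∀ j, w j ∈ P.O := fun j => hC.w_mem j (Finset.mem_univ j)
  have hδ := hC.δ_ne
  have hδr := hC.δ_red
  have hred : ∀ i, P.Red (z i) (P.rs (w (σ i))) := by
    intro i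
    refine ((hδr.mul (red_rs (hσ i))).add (red_rs (hwO (σ i)))).eq ?_ (by ring)
    field_simp
    ring
  have hinj : ∀ j l, P.rs (w j) = P.rs (w l) → j = l := by
    intro j l h
    by_contra hne
    exact hC.w_ne j (Finset.mem_univ j) l (Finset.mem_univ l) hne h
  refine ⟨σ, ?_, hz, ?_⟩
  · intro i
    apply hinj
    have h1 := hred (i + p)
    rw [hz.per i] at h1
    exact h1.unique (hred i)
  · intro i
    have hs := hz.hz i (σ i)
    have h1 : z i - w (σ i) ≠ 0 := sub_ne_zero.2 hs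
    have hS : ∑ j ∈ Finset.univ.erase (σ i), c j / (z i - w j) ∈ P.O := by
      apply P.O.sum_mem
      intro j hj
      have hj' := Finset.ne_of_mem_erase hj
      exact ((red_rs (hC.c_mem j)).div ((hred i).sub (red_rs (hwO j)))
        (sub_ne_zero.2 fun h => hj' (hinj _ _ h).symm)).mem
    have hD : P.Red (z i - z (i + 1)) (P.rs (w (σ i)) - P.rs (w (σ (i + 1)))) :=
      (hred i).sub (hred (i + 1))
    have hu : P.Red (1 - δ * (∑ j ∈ Finset.univ.erase (σ i), c j / (z i - w j)) *
        (z i - z (i + 1))) 1 :=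
      (red_one.sub ((hδr.mul (red_rs hS)).mul hD)).eq rfl (by ring)
    have hu0 := hu.ne_zero one_ne_zero
    have heq := hz.eq i
    have h2 : nN (fun j => δ * c j) w (z i) = δ * c (σ i) / (z i - w (σ i)) +
        δ * ∑ j ∈ Finset.univ.erase (σ i), c j / (z i - w j) := by
      unfold nN
      rw [← Finset.add_sum_erase Finset.univ _ (Finset.mem_univ (σ i)), Finset.mul_sum]
      congr 1
      exact Finset.sum_congr rfl fun j _ => by ring
    rw [h2] at heq
    generalize hSg : ∑ j ∈ Finset.univ.erase (σ i), c j / (z i - w j) = S at *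
    have h3 : (z i - w (σ i)) / δ = c (σ i) * (z i - z (i + 1)) /
        (1 - δ * S * (z i - z (i + 1))) := by
      rw [div_eq_div_iff hδ hu0]
      have h4 : δ * c (σ i) * (z i - z (i + 1)) / (z i - w (σ i)) =
          1 - δ * S * (z i - z (i + 1)) := by
        rw [← heq]
        ring
      rw [← h4]
      field_simp
    rw [h3]
    exact (((red_rs (hC.c_mem (σ i))).mul hD).div hu one_ne_zero).eq rfl (by ring)

end Pool.Agent.LSF
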