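import Pool.Agent.LSF.ZDefs
import Pool.Agent.LSF.BG3

/-!
ZEx: a nonzero polynomial does not vanish at all rational maps.

Complete proof. By `unit_gen` (BG3) there is an algebraically independent family
`e : Fin n → ℂ` over `ℚ` with `n = Fintype.card (CI d)`, so an algebraically independent family
`x : CI d → ℂ` (`Fintype.equivFin`, `AlgebraicIndependent.comp`). Let `P := pnum d x`,
`Q := pden d x` (coefficients `x (inl i)`, `x (inr i)`, all nonzero: `AlgebraicIndependent.ne_zero`),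
degrees `= d`. Coprime: otherwise there is a common root `z` (`ℂ` is algebraically closed). `P ≠ 0` so
`z` is algebraic over `ℚ(x (inl i))`, i.e. `z ∈ ACL (Set.range (x ∘ inl))`. From `Q(z) = 0`:
`x (inr 0) = - ∑_{i ≥ 1} x (inr i) z ^ i ∈ ACL (x '' {j | j ≠ inr 0})` (`ACL` is a field containing
`z` and the other `x j`), contradicting `ai_not_mem` (BG2). So `f := ⟨P, Q, ..⟩ : RatMap ℂ d`,
`f.coef = x`, and `aeval x W ≠ 0` since `W ≠ 0` and `x` is algebraically independent.
-/

namespace Pool.Agent.LSF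

open Polynomial Pool.Agent.LenSpec

theorem zEx_coeff {R : Type} [CommRing R] (d : ℕ) (y : Fin (d + 1) → R) (n : ℕ) :
    (∑ i : Fin (d + 1), C (y i) * X ^ (i : ℕ)).coeff n = if h : n < d + 1 then y ⟨n, h⟩ else 0 := by
  rw [Polynomial.finsetSum_coeff]
  by_cases h : n < d + 1
  · rw [dif_pos h, Finset.sum_eq_single (⟨n, h⟩ : Fin (d + 1))]
    · rw [Polynomial.coeff_C_mul_X_pow, if_pos rfl]
    · intro b _ hb
      rw [Polynomial.coeff_C_mul_X_pow, if_neg]
      intro hc
      exact hb (Fin.ext hc.symm)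
    · intro hc
      exact absurd (Finset.mem_univ _) hc
  · rw [dif_neg h]
    refine Finset.sum_eq_zero fun i _ => ?_
    rw [Polynomial.coeff_C_mul_X_pow, if_neg]
    intro hc
    exact h (hc ▸ i.2)

theorem zEx_natDegree {R : Type} [CommRing R] (d : ℕ) (y : Fin (d + 1) → R)
    (hy : y (Fin.last d) ≠ 0) :
    (∑ i : Fin (d + 1), C (y i) * X ^ (i : ℕ)).natDegree = d := by
  refine Polynomial.natDegree_eq_of_le_of_coeff_ne_zero ?_ ?_
  · rw [Polynomial.natDegree_le_iff_coeff_eq_zero]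
    intro n hn
    rw [zEx_coeff, dif_neg (by omega)]
  · rw [zEx_coeff, dif_pos (by omega)]
    exact hy

theorem zEx_mem (S : Set ℂ) (d : ℕ) (y : Fin (d + 1) → ℂ) (hS : ∀ i, y i ∈ S)
    (hy : y (Fin.last d) ≠ 0) (z : ℂ)
    (hz : (∑ i : Fin (d + 1), C (y i) * X ^ (i : ℕ)).eval z = 0) : z ∈ ACL S := by
  rw [acl_mem]
  obtain ⟨y', hy'⟩ : ∃ y' : Fin (d + 1) → IntermediateField.adjoin ℚ S, ∀ i, (y' i : ℂ) = y i :=
    ⟨fun i => ⟨y i, IntermediateField.subset_adjoin ℚ S (hS i)⟩, fun _ => rfl⟩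
  refine ⟨∑ i : Fin (d + 1), C (y' i) * X ^ (i : ℕ), ?_, ?_⟩
  · intro h0
    have h1 := zEx_coeff d y' d
    rw [h0, dif_pos (by omega), Polynomial.coeff_zero] at h1
    apply hy
    rw [← hy']
    have h2 : y' (Fin.last d) = 0 := h1.symm
    rw [h2]
    rfl
  · rw [map_sum]
    rw [Polynomial.eval_finsetSum] at hz
    refine Eq.trans (Finset.sum_congr rfl fun i _ => ?_) hz
    rw [map_mul, map_pow, Polynomial.aeval_X, Polynomial.aeval_C, Polynomial.eval_mul,
      Polynomial.eval_pow, Polynomial.eval_X, Polynomial.eval_C, ← hy']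
    rfl

theorem ZEx : ZExS := by
  intro d W hd hW
  obtain ⟨e, he, -⟩ := unit_gen (Fintype.card (CI d))
  obtain ⟨x, hx⟩ : ∃ x : CI d → ℂ, AlgebraicIndependent ℚ x :=
    ⟨fun j => e (Fintype.equivFin (CI d) j), he.comp _ (Fintype.equivFin _).injective⟩
  have hne : ∀ j, x j ≠ 0 := fun j => hx.ne_zero j
  have hP : (pnum d x).natDegree = d := zEx_natDegree d (fun i => x (Sum.inl i)) (hne _)
  have hQ : (pden d x).natDegree = d := zEx_natDegree d (fun i => x (Sum.inr i)) (hne _)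
  have hcop : IsCoprime (pnum d x) (pden d x) := by
    rw [Polynomial.isCoprime_iff_aeval_ne_zero_of_isAlgClosed (k := ℂ) (K := ℂ)]
    intro z
    by_contra hcon
    push Not at hcon
    obtain ⟨h1, h2⟩ := hcon
    rw [Polynomial.coe_aeval_eq_eval] at h1 h2
    have hz : z ∈ ACL (x '' {j | j ≠ Sum.inr 0}) := by
      have hS : ∀ i : Fin (d + 1), x (Sum.inl i) ∈ x '' {j | j ≠ Sum.inr 0} :=
        fun i => ⟨Sum.inl i, fun h => Sum.inl_ne_inr h, rfl⟩
      exact zEx_mem _ d (fun i => x (Sum.inl i)) hS (hne _) z h1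
    refine ai_not_mem x hx (Sum.inr 0) ?_
    unfold pden at h2
    rw [Polynomial.eval_finsetSum, Fin.sum_univ_succ] at h2
    have h3 : x (Sum.inr 0) = - ∑ i : Fin d, x (Sum.inr i.succ) * z ^ ((i.succ : Fin (d + 1)) : ℕ) := by
      rw [eq_neg_iff_add_eq_zero]
      refine Eq.trans ?_ h2
      simp
    rw [h3]
    refine neg_mem (sum_mem fun i _ => mul_mem ?_ (pow_mem hz _))
    refine acl_sub _ ⟨Sum.inr i.succ, ?_, rfl⟩
    intro h
    exact Fin.succ_ne_zero i (Sum.inr_injective h)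
  refine ⟨⟨pnum d x, pden d x, hP.le, hQ.le, Or.inl hP, hcop⟩, ?_⟩
  have hc : RatMap.coef ⟨pnum d x, pden d x, hP.le, hQ.le, Or.inl hP, hcop⟩ = x := by
    funext j
    rcases j with i | i
    · show (pnum d x).coeff i = x (Sum.inl i)
      unfold pnum
      rw [zEx_coeff d (fun i => x (Sum.inl i)), dif_pos i.2]
    · show (pden d x).coeff i = x (Sum.inr i)
      unfold pden
      rw [zEx_coeff d (fun i => x (Sum.inr i)), dif_pos i.2]
  rw [hc]
  intro h
  exact hW (algebraicIndependent_iff.1 hx W h)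

end Pool.Agent.LSF
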