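import Pool.Agent.LSF.ZDefs

/-!
ZFin (from ARz, ZMob, ZRat, ZPol, ZEx, MC1, MC2): the final theorem.
-/

namespace Pool.Agent.LSF

open Polynomial Pool.Agent.LenSpec

theorem ZFin_homComp_map {K L : Type} [Field K] [Field L] (φ : K →+* L) (d : ℕ)
    (P A B : Polynomial K) :
    (homComp d P A B).map φ = homComp d (P.map φ) (A.map φ) (B.map φ) := by
  unfold homComp
  rw [Polynomial.map_sum]
  apply Finset.sum_congr rfl
  intro i _
  rw [Polynomial.map_mul, Polynomial.map_mul, Polynomial.map_pow, Polynomial.map_pow, map_C,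
    coeff_map]

theorem ZFin_mobConj_map {K L : Type} [Field K] [Field L] {d : ℕ} (φ : K →+* L) {f g : RatMap K d}
    (h : MobConj f g) : MobConj (f.mapHom φ) (g.mapHom φ) := by
  obtain ⟨a, b, c, e, k, h0, hk, h1, h2⟩ := h
  refine ⟨φ a, φ b, φ c, φ e, φ k, ?_, ?_, ?_, ?_⟩
  · rw [← map_mul, ← map_mul, ← map_sub]
    exact (map_ne_zero φ).2 h0
  · exact (map_ne_zero φ).2 hk
  · have := congrArg (Polynomial.map φ) h1
    rw [ZFin_homComp_map] at this
    simp only [Polynomial.map_mul, Polynomial.map_add, map_C, map_X] at this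
    exact this
  · have := congrArg (Polynomial.map φ) h2
    rw [ZFin_homComp_map] at this
    simp only [Polynomial.map_mul, Polynomial.map_add, map_C, map_X] at this
    exact this

theorem ZFin_eq_of_num_den {K : Type} [Field K] {d : ℕ} {f g : RatMap K d} (h1 : f.num = g.num)
    (h2 : f.den = g.den) : f = g := by
  cases f
  cases g
  simp only at h1 h2
  subst h1
  subst h2
  rfl

theorem ZFin_conj_conj {d : ℕ} (f : RatMap ℂ d) : f.conj.conj = f := by
  have h1 : f.conj.conj.num = f.num := by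
    change (f.num.map (starRingEnd ℂ)).map (starRingEnd ℂ) = f.num
    ext i
    rw [coeff_map, coeff_map]
    exact Complex.conj_conj _
  have h2 : f.conj.conj.den = f.den := by
    change (f.den.map (starRingEnd ℂ)).map (starRingEnd ℂ) = f.den
    ext i
    rw [coeff_map, coeff_map]
    exact Complex.conj_conj _
  exact ZFin_eq_of_num_den h1 h2

theorem ZFin_mobConj_conj {d : ℕ} {f g : RatMap ℂ d} (h : MobConj f.conj g) :
    MobConj f g.conj := by
  have := ZFin_mobConj_map (starRingEnd ℂ) h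
  have h2 : MobConj f.conj.conj g.conj := this
  rwa [ZFin_conj_conj] at h2

theorem ZFin_conj_coef {d : ℕ} (f : RatMap ℂ d) (i : CI d) :
    f.conj.coef i = starRingEnd ℂ (f.coef i) := by
  cases i with
  | inl i => exact coeff_map _ _
  | inr i => exact coeff_map _ _

theorem ZFin_aeval_conj {d : ℕ} (f : RatMap ℂ d) (V : MvPolynomial (CI d) ℚ) :
    MvPolynomial.aeval f.conj.coef V = starRingEnd ℂ (MvPolynomial.aeval f.coef V) := by
  have h1 : f.conj.coef = fun i => starRingEnd ℂ (f.coef i) := funext (ZFin_conj_coef f)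
  rw [h1]
  induction V using MvPolynomial.induction_on with
  | C a =>
    rw [MvPolynomial.aeval_C, MvPolynomial.aeval_C]
    simp
  | add p q hp hq => rw [map_add, map_add, map_add, hp, hq]
  | mul_X p i hp => rw [map_mul, map_mul, map_mul, hp, MvPolynomial.aeval_X, MvPolynomial.aeval_X]

theorem ZFin_ZS {d : ℕ} [DecidableEq (MvPolynomial (CI d) ℚ)]
    (V' : MvPolynomial (Fin 5) (MvPolynomial (CI d) ℚ)) (g : RatMap ℂ d) :
    ZS (V'.support.image (fun m => MvPolynomial.coeff m V')) g ↔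
      ∀ m, MvPolynomial.aeval g.coef (MvPolynomial.coeff m V') = 0 := by
  constructor
  · intro h m
    by_cases hm : m ∈ V'.support
    · exact h _ (Finset.mem_image_of_mem _ hm)
    · rw [MvPolynomial.notMem_support_iff.1 hm, map_zero]
  · intro h V hV
    obtain ⟨m, -, rfl⟩ := Finset.mem_image.1 hV
    exact h m

theorem ZFin (arz : ARzS) (zmob : ZMobS) (zrat : ZRatS) (zpol : ZPolS) (zex : ZExS)
    (mc1 : MC1S) (mc2 : MC2S) : ZFinS := by
  classical
  intro d hd
  obtain ⟨W, hW, hWf⟩ := arz d hd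
  obtain ⟨V', hV'⟩ := zpol d W
  have hd1 : 1 ≤ d := by omega
  obtain ⟨mrefl, msymm, mtrans⟩ := mc2 ℂ d hd1
  have claim : ∀ g : RatMap ℂ d, ¬ ZS (V'.support.image (fun m => MvPolynomial.coeff m V')) g ↔
      ∃ f : RatMap ℂ d, MobConj f g ∧ MvPolynomial.aeval f.coef W ≠ 0 := by
    intro g
    constructor
    · intro hg
      rw [ZFin_ZS] at hg
      push Not at hg
      obtain ⟨m, hm⟩ := hg
      let φ : MvPolynomial (CI d) ℚ →+* ℂ := (MvPolynomial.aeval (R := ℚ) g.coef).toRingHom
      let F : MvPolynomial (Fin 5) ℂ := MvPolynomial.map φ V'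
      have hF : F ≠ 0 := by
        intro h0
        apply hm
        have h1 : MvPolynomial.coeff m F = 0 := by rw [h0, MvPolynomial.coeff_zero]
        rw [MvPolynomial.coeff_map] at h1
        exact h1
      let Hp : MvPolynomial (Fin 5) ℂ := MvPolynomial.X 0 *
        (MvPolynomial.X 1 * MvPolynomial.X 4 - MvPolynomial.X 2 * MvPolynomial.X 3)
      have hH : Hp ≠ 0 := by
        intro h0
        have h1 : MvPolynomial.eval (![1, 1, 0, 0, 1] : Fin 5 → ℂ) Hp = 0 := by
          rw [h0, map_zero]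
        simp [Hp] at h1
      have hex : ∃ p : Fin 5 → ℂ, MvPolynomial.eval p (F * Hp) ≠ 0 := by
        by_contra hcon
        push Not at hcon
        apply mul_ne_zero hF hH
        apply MvPolynomial.funext
        intro x
        rw [hcon x, map_zero]
      obtain ⟨p, hp⟩ := hex
      rw [map_mul] at hp
      have hp1 := left_ne_zero_of_mul hp
      have hp2 := right_ne_zero_of_mul hp
      have hp3 : p 0 * (p 1 * p 4 - p 2 * p 3) ≠ 0 := by
        simpa [Hp] using hp2
      have h0 : p 0 ≠ 0 := left_ne_zero_of_mul hp3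
      have h1 : p 1 * p 4 - p 2 * p 3 ≠ 0 := right_ne_zero_of_mul hp3
      obtain ⟨f, hf⟩ := zrat ℂ d g p h0 h1
      refine ⟨f, (zmob ℂ d f g).2 ⟨p, h0, h1, hf⟩, ?_⟩
      rw [hf, hV' g.coef p]
      rw [MvPolynomial.eval_map] at hp1
      exact hp1
    · rintro ⟨f, hfg, hf⟩ hZ
      rw [ZFin_ZS] at hZ
      obtain ⟨p, -, -, hp⟩ := (zmob ℂ d f g).1 hfg
      apply hf
      rw [hp, hV' g.coef p, MvPolynomial.eval₂_eq]
      apply Finset.sum_eq_zero
      intro m _
      have h1 : (MvPolynomial.aeval (R := ℚ) g.coef).toRingHom (MvPolynomial.coeff m V') = 0 :=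
        hZ m
      rw [h1, zero_mul]
  refine ⟨V'.support.image (fun m => MvPolynomial.coeff m V'), ?_, ?_, ?_, ?_⟩
  · obtain ⟨f, hf⟩ := zex d W hd1 hW
    exact ⟨f, (claim f).2 ⟨f, mrefl f, hf⟩⟩
  · intro f g hfg
    rw [← not_iff_not, claim f, claim g]
    constructor
    · rintro ⟨f₁, h1, h2⟩
      exact ⟨f₁, mtrans _ _ _ h1 hfg, h2⟩
    · rintro ⟨f₁, h1, h2⟩
      exact ⟨f₁, mtrans _ _ _ h1 (msymm _ _ hfg), h2⟩
  · intro f
    rw [ZFin_ZS, ZFin_ZS]
    refine forall_congr' fun m => ?_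
    rw [ZFin_aeval_conj]
    exact (map_eq_zero_iff _ (starRingEnd ℂ).injective).symm
  · intro f hf g hg
    obtain ⟨f₁, h1, h2⟩ := (claim f).1 hf
    have h3 : ∀ n, 1 ≤ n → f₁.lenSpec n = g.lenSpec n := by
      intro n hn
      rw [← hg n hn]
      unfold RatMap.lenSpec
      rw [mc1 ℂ d f₁ f hd1 h1 n]
    rcases hWf f₁ h2 g h3 with h4 | h4
    · exact Or.inl (mtrans _ _ _ (msymm _ _ h1) h4)
    · right
      apply ZFin_mobConj_conj
      have h5 : MobConj f₁.conj f.conj := ZFin_mobConj_map (starRingEnd ℂ) h1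
      exact mtrans _ _ _ (msymm _ _ h5) h4

end Pool.Agent.LSF
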