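import Pool.Agent.LSF.ZDefs
import Pool.Agent.LenSpec.A3

/-!
ZMob: Moebius conjugation in terms of the coefficients.
-/

namespace Pool.Agent.LSF

open Polynomial Pool.Agent.LenSpec

theorem ZMob_pnum {K : Type} [Field K] {d : ℕ} (g : RatMap K d) : pnum d g.coef = g.num := by
  rw [pnum]
  have h1 : ∀ i : Fin (d + 1), C (g.coef (Sum.inl i)) * X ^ (i : ℕ) =
      C (g.num.coeff (i : ℕ)) * (X : K[X]) ^ (i : ℕ) := fun i => rfl
  rw [Finset.sum_congr rfl fun i _ => h1 i,
    Fin.sum_univ_eq_sum_range (fun i => C (g.num.coeff i) * (X : K[X]) ^ i)]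
  exact (as_sum_range_C_mul_X_pow' g.num (Nat.lt_succ_of_le g.num_le)).symm

theorem ZMob_pden {K : Type} [Field K] {d : ℕ} (g : RatMap K d) : pden d g.coef = g.den := by
  rw [pden]
  have h1 : ∀ i : Fin (d + 1), C (g.coef (Sum.inr i)) * X ^ (i : ℕ) =
      C (g.den.coeff (i : ℕ)) * (X : K[X]) ^ (i : ℕ) := fun i => rfl
  rw [Finset.sum_congr rfl fun i _ => h1 i,
    Fin.sum_univ_eq_sum_range (fun i => C (g.den.coeff i) * (X : K[X]) ^ i)]
  exact (as_sum_range_C_mul_X_pow' g.den (Nat.lt_succ_of_le g.den_le)).symm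

theorem ZMob_deg {K : Type} [Field K] (d : ℕ) (P : K[X]) (a b c e : K) :
    (homComp d P (C a * X + C b) (C c * X + C e)).natDegree ≤ d := by
  have h := homComp_natDegree (d := d) (D := 1) P (natDegree_linear_le (a := a) (b := b))
    (natDegree_linear_le (a := c) (b := e))
  rwa [mul_one] at h

theorem ZMob_deg2 {K : Type} [Field K] (d : ℕ) (U V : K[X]) (hU : U.natDegree ≤ d)
    (hV : V.natDegree ≤ d) (l r s : K) : (C l * (C r * U - C s * V)).natDegree ≤ d := by
  refine (natDegree_C_mul_le _ _).trans ((natDegree_sub_le _ _).trans (max_le ?_ ?_))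
  · exact (natDegree_C_mul_le _ _).trans hU
  · exact (natDegree_C_mul_le _ _).trans hV

theorem ZMob_ext {K : Type} [Field K] (d : ℕ) (U V : K[X]) (hU : U.natDegree ≤ d)
    (hV : V.natDegree ≤ d) (h : ∀ i : Fin (d + 1), U.coeff i = V.coeff i) : U = V := by
  ext i
  by_cases hi : i < d + 1
  · exact h ⟨i, hi⟩
  · rw [coeff_eq_zero_of_natDegree_lt (by omega), coeff_eq_zero_of_natDegree_lt (by omega)]

theorem ZMob_iff {K : Type} [Field K] {d : ℕ} (f g : RatMap K d) (p : Fin 5 → K) :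
    f.coef = ccf d p g.coef ↔
      f.num = C (p 0) * (C (p 4) *
        homComp d g.num (C (p 1) * X + C (p 2)) (C (p 3) * X + C (p 4)) -
        C (p 2) * homComp d g.den (C (p 1) * X + C (p 2)) (C (p 3) * X + C (p 4))) ∧
      f.den = C (p 0) * (C (p 1) *
        homComp d g.den (C (p 1) * X + C (p 2)) (C (p 3) * X + C (p 4)) -
        C (p 3) * homComp d g.num (C (p 1) * X + C (p 2)) (C (p 3) * X + C (p 4))) := by
  have hl : ∀ i : Fin (d + 1), ccf d p g.coef (Sum.inl i) = (C (p 0) * (C (p 4) *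
        homComp d g.num (C (p 1) * X + C (p 2)) (C (p 3) * X + C (p 4)) -
        C (p 2) * homComp d g.den (C (p 1) * X + C (p 2)) (C (p 3) * X + C (p 4)))).coeff i := by
    intro i
    rw [ccf, ZMob_pnum, ZMob_pden]
    rfl
  have hr : ∀ i : Fin (d + 1), ccf d p g.coef (Sum.inr i) = (C (p 0) * (C (p 1) *
        homComp d g.den (C (p 1) * X + C (p 2)) (C (p 3) * X + C (p 4)) -
        C (p 3) * homComp d g.num (C (p 1) * X + C (p 2)) (C (p 3) * X + C (p 4)))).coeff i := by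
    intro i
    rw [ccf, ZMob_pnum, ZMob_pden]
    rfl
  have h1 := ZMob_deg d g.num (p 1) (p 2) (p 3) (p 4)
  have h2 := ZMob_deg d g.den (p 1) (p 2) (p 3) (p 4)
  constructor
  · intro h
    constructor
    · refine ZMob_ext d _ _ f.num_le (ZMob_deg2 d _ _ h1 h2 _ _ _) fun i => ?_
      rw [← hl i, ← h]
      rfl
    · refine ZMob_ext d _ _ f.den_le (ZMob_deg2 d _ _ h2 h1 _ _ _) fun i => ?_
      rw [← hr i, ← h]
      rfl
  · rintro ⟨hn, hd⟩
    funext i
    rcases i with i | i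
    · rw [hl i, ← hn]
      rfl
    · rw [hr i, ← hd]
      rfl

theorem ZMob : ZMobS := by
  intro K _ d f g
  constructor
  · rintro ⟨a, b, c, e, k, hdet, hk, h1, h2⟩
    have hl : k * (a * e - b * c) ≠ 0 := mul_ne_zero hk hdet
    refine ⟨![(k * (a * e - b * c))⁻¹, a, b, c, e], inv_ne_zero hl, hdet, ?_⟩
    rw [ZMob_iff]
    change f.num = C (k * (a * e - b * c))⁻¹ * (C e *
        homComp d g.num (C a * X + C b) (C c * X + C e) -
        C b * homComp d g.den (C a * X + C b) (C c * X + C e)) ∧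
      f.den = C (k * (a * e - b * c))⁻¹ * (C a *
        homComp d g.den (C a * X + C b) (C c * X + C e) -
        C c * homComp d g.num (C a * X + C b) (C c * X + C e))
    rw [h1, h2]
    have h3 : C (k * (a * e - b * c))⁻¹ * (C k * (C a * C e - C b * C c)) = (1 : K[X]) := by
      rw [← C_mul, ← C_mul, ← C_sub, ← C_mul, ← C_mul, inv_mul_cancel₀ hl, C_1]
    constructor
    · linear_combination (-f.num) * h3
    · linear_combination (-f.den) * h3
  · rintro ⟨p, hp0, hdet, h⟩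
    rw [ZMob_iff] at h
    obtain ⟨hn, hd⟩ := h
    have hl : p 0 * (p 1 * p 4 - p 2 * p 3) ≠ 0 := mul_ne_zero hp0 hdet
    refine ⟨p 1, p 2, p 3, p 4, (p 0 * (p 1 * p 4 - p 2 * p 3))⁻¹, hdet, inv_ne_zero hl, ?_, ?_⟩
    · rw [hn, hd]
      have h3 : C (p 0 * (p 1 * p 4 - p 2 * p 3))⁻¹ *
          (C (p 0) * (C (p 1) * C (p 4) - C (p 2) * C (p 3))) = (1 : K[X]) := by
        rw [← C_mul, ← C_mul, ← C_sub, ← C_mul, ← C_mul, inv_mul_cancel₀ hl, C_1]
      linear_combination
        (-homComp d g.num (C (p 1) * X + C (p 2)) (C (p 3) * X + C (p 4))) * h3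
    · rw [hn, hd]
      have h3 : C (p 0 * (p 1 * p 4 - p 2 * p 3))⁻¹ *
          (C (p 0) * (C (p 1) * C (p 4) - C (p 2) * C (p 3))) = (1 : K[X]) := by
        rw [← C_mul, ← C_mul, ← C_sub, ← C_mul, ← C_mul, inv_mul_cancel₀ hl, C_1]
      linear_combination
        (-homComp d g.den (C (p 1) * X + C (p 2)) (C (p 3) * X + C (p 4))) * h3

end Pool.Agent.LSF
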