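import Pool.Agent.LSF.ZDefs

/-!
ZRat: conjugate maps exist.

Complete proof. Let `p = (l, a, b, c, e)`, `Δ = a e - b c ≠ 0`, `A := C a * X + C b`,
`B := C c * X + C e`, `G₁ := homComp d g.num A B`, `G₂ := homComp d g.den A B` (`hcR` is `homComp`;
`pnum d g.coef = g.num`, `pden d g.coef = g.den`). Put `P := C l * (C e * G₁ - C b * G₂)`,
`Q := C l * (C a * G₂ - C c * G₁)`: degrees `≤ d` and
`C (l * Δ) * G₁ = C a * P + C b * Q`, `C (l * Δ) * G₂ = C c * P + C e * Q`.
Coprime: otherwise (`K` is algebraically closed) `P`, `Q` have a common root `z`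
(`Polynomial.isCoprime_iff_aeval_ne_zero..`, or: a nonunit gcd has a root), so `G₁`, `G₂` vanish at
`z`. Let `α := a z + b`, `β := c z + e`; `(α, β) ≠ (0, 0)` since `Δ ≠ 0`
(`a β - c α = Δ`). `G₁.eval z = ∑ i, g.num.coeff i * α ^ i * β ^ (d - i)`. If `β ≠ 0` this is
`β ^ d * g.num.eval (α / β)`, so `g.num`, `g.den` have the common root `α / β`, a contradiction to
`g.coprime`. If `β = 0` it is `g.num.coeff d * α ^ d`, `α ≠ 0`, so both coefficients of index `d`
vanish, contradicting `g.deg_eq` (`natDegree = d`: if `d ≥ 1` the leading coefficient is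
nonzero; if `d = 0` a polynomial with `natDegree = 0` and coefficient zero is `0`, both are zero,
contradicting coprimality).
Degree: the coefficient of `G₁` at `d` is `∑ i, g.num.coeff i * a ^ i * c ^ (d - i)`, and
`(a, c) ≠ (0, 0)`, so by the same argument (`α := a`, `β := c`) the coefficients at `d` of `G₁`, `G₂`
are not both zero, hence those of `P`, `Q` are not both zero: `natDegree = d` for one of them.
So `f := ⟨P, Q, ..⟩`, `f.coef = ccf d p g.coef` by definition of `coef`.
-/

namespace Pool.Agent.LSF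

open Polynomial Pool.Agent.LenSpec

theorem zRat_coeff {R : Type} [CommRing R] (d : ℕ) (y : Fin (d + 1) → R) (n : ℕ) :
    (∑ i : Fin (d + 1), C (y i) * X ^ (i : ℕ)).coeff n = if h : n < d + 1 then y ⟨n, h⟩ else 0 := by
  rw [Polynomial.finsetSum_coeff]
  by_cases h : n < d + 1
  · rw [dif_pos h, Finset.sum_eq_single (⟨n, h⟩ : Fin (d + 1))]
    · rw [Polynomial.coeff_C_mul_X_pow, if_pos rfl]
    · intro b _ hb
      rw [Polynomial.coeff_C_mul_X_pow, if_neg]
      intro hc
      exact hb (Fin.ext hc.symm)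
    · intro hc
      exact absurd (Finset.mem_univ _) hc
  · rw [dif_neg h]
    refine Finset.sum_eq_zero fun i _ => ?_
    rw [Polynomial.coeff_C_mul_X_pow, if_neg]
    intro hc
    exact h (hc ▸ i.2)

theorem zRat_self {R : Type} [CommRing R] (d : ℕ) (P : R[X]) (hP : P.natDegree ≤ d) :
    (∑ i : Fin (d + 1), C (P.coeff i) * X ^ (i : ℕ)) = P := by
  ext n
  rw [zRat_coeff d (fun i => P.coeff i) n]
  by_cases h : n < d + 1
  · rw [dif_pos h]
  · rw [dif_neg h]
    exact (Polynomial.coeff_eq_zero_of_natDegree_lt (by omega)).symm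

theorem zRat_lin {R : Type} [CommRing R] (a b : R) : (C a * X + C b : R[X]).natDegree ≤ 1 :=
  Polynomial.natDegree_linear_le

theorem zRat_le {R : Type} [CommRing R] (d : ℕ) (P A B : R[X]) (hA : A.natDegree ≤ 1)
    (hB : B.natDegree ≤ 1) : (hcR d P A B).natDegree ≤ d := by
  unfold hcR
  refine Polynomial.natDegree_sum_le_of_forall_le _ _ fun i hi => ?_
  have hi' := Finset.mem_range.1 hi
  refine (Polynomial.natDegree_mul_le).trans ?_
  have h1 : (C (P.coeff i) * A ^ i).natDegree ≤ i := by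
    refine (Polynomial.natDegree_C_mul_le _ _).trans ?_
    refine (Polynomial.natDegree_pow_le_of_le i hA).trans (by omega)
  have h2 : (B ^ (d - i)).natDegree ≤ d - i :=
    (Polynomial.natDegree_pow_le_of_le (d - i) hB).trans (by omega)
  omega

theorem zRat_eval {R : Type} [CommRing R] (d : ℕ) (P A B : R[X]) (z : R) :
    (hcR d P A B).eval z =
      ∑ i ∈ Finset.range (d + 1), P.coeff i * (A.eval z) ^ i * (B.eval z) ^ (d - i) := by
  unfold hcR
  rw [Polynomial.eval_finsetSum]
  refine Finset.sum_congr rfl fun i _ => ?_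
  simp

theorem zRat_top {R : Type} [CommRing R] (d : ℕ) (P : R[X]) (a b c e : R) :
    (hcR d P (C a * X + C b) (C c * X + C e)).coeff d =
      ∑ i ∈ Finset.range (d + 1), P.coeff i * a ^ i * c ^ (d - i) := by
  unfold hcR
  rw [Polynomial.finsetSum_coeff]
  refine Finset.sum_congr rfl fun i hi => ?_
  have hi' := Finset.mem_range.1 hi
  have h1 : ∀ (u v : R) (n : ℕ), ((C u * X + C v) ^ n).natDegree ≤ n := fun u v n =>
    (Polynomial.natDegree_pow_le_of_le n (zRat_lin u v)).trans (by omega)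
  have h2 : ∀ (u v : R) (n : ℕ), ((C u * X + C v) ^ n).coeff n = u ^ n := by
    intro u v n
    have h3 := Polynomial.coeff_pow_of_natDegree_le (m := n) (zRat_lin u v)
    rw [mul_one] at h3
    rw [h3]
    congr 1
    simp
  have h4 : d = i + (d - i) := by omega
  rw [mul_assoc, Polynomial.coeff_C_mul, mul_assoc]
  congr 1
  have h5 := Polynomial.coeff_mul_add_eq_of_natDegree_le (h1 a b i) (h1 c e (d - i))
  rw [h2, h2] at h5
  rw [← h5]
  congr 1

theorem zRat_nz {K : Type} [Field K] (d : ℕ) (g : RatMap K d) (u v : K) (h : ¬ (u = 0 ∧ v = 0)) :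
    ¬ (∑ i ∈ Finset.range (d + 1), g.num.coeff i * u ^ i * v ^ (d - i) = 0 ∧
      ∑ i ∈ Finset.range (d + 1), g.den.coeff i * u ^ i * v ^ (d - i) = 0) := by
  rintro ⟨h1, h2⟩
  by_cases hv : v = 0
  · have hu : u ≠ 0 := fun hu => h ⟨hu, hv⟩
    have key : ∀ P : K[X], ∑ i ∈ Finset.range (d + 1), P.coeff i * u ^ i * v ^ (d - i) = 0 →
        P.coeff d = 0 := by
      intro P hP
      rw [Finset.sum_eq_single d] at hP
      · rw [Nat.sub_self, pow_zero, mul_one] at hP
        exact (mul_eq_zero.1 hP).resolve_right (pow_ne_zero _ hu)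
      · intro i hi hid
        have hi' := Finset.mem_range.1 hi
        rw [hv, zero_pow (by omega), mul_zero]
      · intro hc
        exact absurd (Finset.mem_range.2 (Nat.lt_succ_self d)) hc
    have k1 := key _ h1
    have k2 := key _ h2
    have fin : ∀ P Q : K[X], P.natDegree = d → Q.natDegree ≤ d → P.coeff d = 0 → Q.coeff d = 0 →
        P = 0 ∧ Q = 0 := by
      intro P Q hP hQ hP0 hQ0
      have e1 : P = 0 := by
        rw [← Polynomial.leadingCoeff_eq_zero, Polynomial.leadingCoeff, hP]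
        exact hP0
      refine ⟨e1, ?_⟩
      rw [e1, Polynomial.natDegree_zero] at hP
      rw [← hP] at hQ hQ0
      rw [Polynomial.eq_C_of_natDegree_le_zero hQ, hQ0, Polynomial.C_0]
    have h3 : g.num = 0 ∧ g.den = 0 := by
      rcases g.deg_eq with hd | hd
      · exact fin _ _ hd g.den_le k1 k2
      · exact (fin _ _ hd g.num_le k2 k1).symm
    have h4 := g.coprime
    rw [h3.1, h3.2] at h4
    exact not_isCoprime_zero_zero h4
  · have key : ∀ P : K[X], P.natDegree ≤ d →
        ∑ i ∈ Finset.range (d + 1), P.coeff i * u ^ i * v ^ (d - i) = 0 →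
        P.eval (u / v) = 0 := by
      intro P hPd hP
      have e1 : ∑ i ∈ Finset.range (d + 1), P.coeff i * u ^ i * v ^ (d - i) =
          v ^ d * P.eval (u / v) := by
        rw [Polynomial.eval_eq_sum_range' (Nat.lt_succ_of_le hPd), Finset.mul_sum]
        refine Finset.sum_congr rfl fun i hi => ?_
        have hi' := Finset.mem_range.1 hi
        have h4 : v ^ d = v ^ i * v ^ (d - i) := by
          rw [← pow_add]
          congr 1
          omega
        have h5 : v ^ i ≠ 0 := pow_ne_zero _ hv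
        rw [h4, div_pow]
        field_simp
      rw [e1] at hP
      exact (mul_eq_zero.1 hP).resolve_left (pow_ne_zero _ hv)
    have k1 := key _ g.num_le h1
    have k2 := key _ g.den_le h2
    obtain ⟨s, t, hst⟩ := g.coprime
    have h3 := congrArg (Polynomial.eval (u / v)) hst
    rw [Polynomial.eval_add, Polynomial.eval_mul, Polynomial.eval_mul, k1, k2,
      Polynomial.eval_one] at h3
    simp at h3

theorem ZRat : ZRatS := by
  intro K _ _ d g p hl hΔ
  obtain ⟨l, hl'⟩ : ∃ l, l = p 0 := ⟨_, rfl⟩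
  obtain ⟨a, ha⟩ : ∃ a, a = p 1 := ⟨_, rfl⟩
  obtain ⟨b, hb⟩ : ∃ b, b = p 2 := ⟨_, rfl⟩
  obtain ⟨c, hc⟩ : ∃ c, c = p 3 := ⟨_, rfl⟩
  obtain ⟨e, he⟩ : ∃ e, e = p 4 := ⟨_, rfl⟩
  rw [← hl'] at hl
  rw [← ha, ← hb, ← hc, ← he] at hΔ
  obtain ⟨G₁, hG₁⟩ : ∃ G₁, G₁ = hcR d g.num (C a * X + C b) (C c * X + C e) := ⟨_, rfl⟩
  obtain ⟨G₂, hG₂⟩ : ∃ G₂, G₂ = hcR d g.den (C a * X + C b) (C c * X + C e) := ⟨_, rfl⟩
  have d1 : G₁.natDegree ≤ d := by
    rw [hG₁]
    exact zRat_le _ _ _ _ (zRat_lin _ _) (zRat_lin _ _)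
  have d2 : G₂.natDegree ≤ d := by
    rw [hG₂]
    exact zRat_le _ _ _ _ (zRat_lin _ _) (zRat_lin _ _)
  have hP : (C l * (C e * G₁ - C b * G₂)).natDegree ≤ d := by
    refine (Polynomial.natDegree_C_mul_le _ _).trans ?_
    refine (Polynomial.natDegree_sub_le _ _).trans (max_le ?_ ?_)
    · exact (Polynomial.natDegree_C_mul_le _ _).trans d1
    · exact (Polynomial.natDegree_C_mul_le _ _).trans d2
  have hQ : (C l * (C a * G₂ - C c * G₁)).natDegree ≤ d := by
    refine (Polynomial.natDegree_C_mul_le _ _).trans ?_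
    refine (Polynomial.natDegree_sub_le _ _).trans (max_le ?_ ?_)
    · exact (Polynomial.natDegree_C_mul_le _ _).trans d2
    · exact (Polynomial.natDegree_C_mul_le _ _).trans d1
  have lin : ∀ x y : K, l * (e * x - b * y) = 0 → l * (a * y - c * x) = 0 → x = 0 ∧ y = 0 := by
    intro x y h1 h2
    have h1' := (mul_eq_zero.1 h1).resolve_left hl
    have h2' := (mul_eq_zero.1 h2).resolve_left hl
    constructor
    · have : (a * e - b * c) * x = 0 := by linear_combination a * h1' + b * h2'
      exact (mul_eq_zero.1 this).resolve_left hΔ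
    · have : (a * e - b * c) * y = 0 := by linear_combination c * h1' + e * h2'
      exact (mul_eq_zero.1 this).resolve_left hΔ
  have hcop : IsCoprime (C l * (C e * G₁ - C b * G₂)) (C l * (C a * G₂ - C c * G₁)) := by
    rw [Polynomial.isCoprime_iff_aeval_ne_zero_of_isAlgClosed (k := K) (K := K)]
    intro z
    by_contra hcon
    push Not at hcon
    obtain ⟨h1, h2⟩ := hcon
    rw [Polynomial.coe_aeval_eq_eval] at h1 h2
    have h3 := lin (G₁.eval z) (G₂.eval z) (by simpa using h1) (by simpa using h2)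
    rw [hG₁, hG₂, zRat_eval, zRat_eval] at h3
    refine zRat_nz d g _ _ ?_ h3
    rintro ⟨h4, h5⟩
    apply hΔ
    have h4' : a * z + b = 0 := by simpa using h4
    have h5' : c * z + e = 0 := by simpa using h5
    linear_combination a * h5' - c * h4'
  have hdeg : (C l * (C e * G₁ - C b * G₂)).natDegree = d ∨
      (C l * (C a * G₂ - C c * G₁)).natDegree = d := by
    by_contra hcon
    push Not at hcon
    obtain ⟨h1, h2⟩ := hcon
    have k1 : (C l * (C e * G₁ - C b * G₂)).coeff d = 0 :=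
      Polynomial.coeff_eq_zero_of_natDegree_lt (lt_of_le_of_ne hP h1)
    have k2 : (C l * (C a * G₂ - C c * G₁)).coeff d = 0 :=
      Polynomial.coeff_eq_zero_of_natDegree_lt (lt_of_le_of_ne hQ h2)
    have h3 := lin (G₁.coeff d) (G₂.coeff d)
      (by simpa only [Polynomial.coeff_C_mul, Polynomial.coeff_sub] using k1)
      (by simpa only [Polynomial.coeff_C_mul, Polynomial.coeff_sub] using k2)
    rw [hG₁, hG₂, zRat_top, zRat_top] at h3
    refine zRat_nz d g _ _ ?_ h3
    rintro ⟨h4, h5⟩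
    apply hΔ
    rw [h4, h5]
    ring
  have e1 : pnum d g.coef = g.num := zRat_self d g.num g.num_le
  have e2 : pden d g.coef = g.den := zRat_self d g.den g.den_le
  refine ⟨⟨_, _, hP, hQ, hdeg, hcop⟩, ?_⟩
  funext j
  rcases j with i | i
  · show (C l * (C e * G₁ - C b * G₂)).coeff i = ccf d p g.coef (Sum.inl i)
    simp only [ccf]
    rw [e1, e2, ← hl', ← ha, ← hb, ← hc, ← he, ← hG₁, ← hG₂]
  · show (C l * (C a * G₂ - C c * G₁)).coeff i = ccf d p g.coef (Sum.inr i)
    simp only [ccf]
    rw [e1, e2, ← hl', ← ha, ← hb, ← hc, ← he, ← hG₁, ← hG₂]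

end Pool.Agent.LSF
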