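import Pool.Agent.LSF.WAsm
import Pool.Agent.LSF.AMain
import Pool.Agent.LSF.DC
import Pool.Agent.LSF.DD
import Pool.Agent.LSF.DI
import Pool.Agent.LSF.DK
import Pool.Agent.LSF.DM
import Pool.Agent.LSF.DP
import Pool.Agent.LSF.DS
import Pool.Agent.LSF.DX
import Pool.Agent.LSF.DZ
import Pool.Agent.LSF.FC
import Pool.Agent.LSF.FE
import Pool.Agent.LSF.FL
import Pool.Agent.LSF.FM
import Pool.Agent.LSF.FP
import Pool.Agent.LSF.FT
import Pool.Agent.LSF.FU
import Pool.Agent.LSF.FV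
import Pool.Agent.LSF.FW
import Pool.Agent.LSF.FX
import Pool.Agent.LSF.GCp
import Pool.Agent.LSF.GG5
import Pool.Agent.LSF.GIp
import Pool.Agent.LSF.GMp
import Pool.Agent.LSF.GRp
import Pool.Agent.LSF.LOCp
import Pool.Agent.LSF.MEM
import Pool.Agent.LSF.TC1p
import Pool.Agent.LSF.TC2p
import Pool.Agent.LSF.TC3p
import Pool.Agent.LSF.TC4a
import Pool.Agent.LSF.TC4b
import Pool.Agent.LSF.ZEx
import Pool.Agent.LSF.ZFin
import Pool.Agent.LSF.ZMob
import Pool.Agent.LSF.ZPol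
import Pool.Agent.LSF.ZRat
import Pool.Agent.LenSpec.Final

/-!
The modules put together: the final theorem.
-/

namespace Pool.Agent.LSF

open Pool.Agent.LenSpec

namespace FAsm

theorem gcp : GCpS :=
  GCp_holds Asm.gg GG5_holds (GRp_holds v1_holds) CLO_holds (TC1p_holds N1_holds) TC2p_holds
    (GMp_holds TC2p_holds (TC3p_holds a1_holds a2_holds) (TC4a_holds a1_holds a2_holds a3_holds)
      TC4b_holds) VU_holds RIG_holds LOCp_holds NF2_holds Asm.mc1
theorem gip : GIpS := GIp_holds Asm.nf1 NF2_holds NF3_holds Asm.mc1 MC2_holds gcp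
theorem di : DIS := DI_holds Asm.nf1 NF2_holds NF3_holds MC2_holds
theorem dm : DMS :=
  DM_holds (DC_holds DZ_holds) (DD_holds DZ_holds R1_holds) DP_holds di (DK_holds v1_holds)
theorem ds : DSS := DS_holds dm di Asm.c2 Asm.g1 Asm.g2
theorem dx : DXS := DX_holds Asm.g2 A5_holds
theorem mem : MEMS := MEM_holds Asm.g2
theorem fu : FUS := FU_holds MC2_holds
theorem fv : FVS := FV_holds fu (FW_holds FA2_holds) AAsm.aFG Asm.g1
theorem fc : FCS := FC_holds E3_holds
theorem fl : FLS :=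
  FL_holds AAsm.aFG AAsm.aDst AAct_holds AAsm.aNrm AAsm.aL2 AAsm.aA3 WAsm.xsc FN0_holds WAsm.fgd
    Asm.mc1 Asm.g1
theorem ft : FTS := FT_holds WAsm.bMain FP_holds FM_holds fc
theorem fe : FES :=
  FE_holds AAsm.aFG AAsm.aDst FN0_holds WAsm.fgd WAsm.xsc WAsm.dh dx ds mem gip Asm.mc1 MC2_holds
    Asm.g1
theorem amain : AMainS := AMain_holds AAsm.aFG (FX_holds Asm.g1 Asm.c2) fu fv fc fl ft fe
theorem arz : ARzS := AAsm.aRz amain
theorem zfin : ZFinS := ZFin arz ZMob ZRat ZPol ZEx Asm.mc1 MC2_holds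

end FAsm

end Pool.Agent.LSF
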