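import Pool.Agent.LSF.DDefs
import Pool.Agent.LSF.CDefs

/-!
Part F: the final assembly. Statements.
-/

namespace Pool.Agent.LSF

open Polynomial Pool.Agent.LenSpec

section fdefs

variable {K : Type} [Field K] {d : ℕ}

/-- `f` is the map with the parameters `v` -/
def IsV (f : RatMap K d) (v : VI d → K) : Prop := f.num = nP d v ∧ f.den = nQ d v

/-- two interalgebraic independent families -/
structure InterA [CharZero K] {ι : Type} (v u : ι → K) : Prop where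
  indep : AlgebraicIndependent ℚ v
  indep' : AlgebraicIndependent ℚ u
  alg : ∀ i, IsAlgebraic (IntermediateField.adjoin ℚ (Set.range v)) (u i)
  alg' : ∀ i, IsAlgebraic (IntermediateField.adjoin ℚ (Set.range u)) (v i)

/-- a disc automorphism that fixes `1`, at the points of `X` -/
def DiscAut (φ : K →+* ℂ) (X : Set K) (β : K → K) : Prop :=
  ∃ a th : ℂ, ‖a‖ < 1 ∧ ‖th‖ = 1 ∧ th * (1 - a) = 1 - starRingEnd ℂ a ∧
    ∀ x ∈ X, φ (β x) * (1 - starRingEnd ℂ a * φ x) = th * (φ x - a)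

end fdefs

/-- BMain (part B): linked multipliers for infinitely many periods -/
def BMainS : Prop := ∀ (K : Type) [Field K] [IsAlgClosed K] [CharZero K] (φ : K →+* ℂ) (d : ℕ)
  (f f' g' : RatMap K d) (v u : VI d → K) (A : Set K) (m : ℕ → ℕ) (β : ℕ → K → K), 2 ≤ d →
  AlgebraicIndependent ℚ f.coef → MobConj f f' → IsV f' v → Nf d v → AlgebraicIndependent ℚ v →
  IsV g' u → (nP d u).coeff 1 ≠ 1 → A.Finite → (∀ i, v i ∈ A) → (∀ i, u i ∈ A) →
  StrictMono m → (∀ i, (m i).Prime) → FullSeq A (fun i => XS f'.num f'.den (m i)) →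
  (∀ i, EqB A (XS f'.num f'.den (m i)) (XS g'.num g'.den (m i)) (β i)) →
  InterA v u ∧ ∃ i₀, ∀ i, i₀ ≤ i → DiscAut φ (XS f'.num f'.den (m i)) (β i)

/-- FN0: infinity is never periodic in the normal form -/
def FN0S : Prop := ∀ (K : Type) [Field K] (d : ℕ) (u : VI d → K), 2 ≤ d →
  NoInf d (nP d u) (nQ d u)

/-- FGd (from A1, A4, G1): general position is determined by the spectrum -/
def FGdS : Prop := ∀ (K : Type) [Field K] [IsAlgClosed K] (d : ℕ) (f g : RatMap K d),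
  Good f → NoInf d g.num g.den → (∀ n, 1 ≤ n → f.multSpec n = g.multSpec n) → Good g

/-- FX (from C2): some fixed point of `g` has a multiplier different from `0` and `1` -/
def FXS : Prop := ∀ (K : Type) [Field K] [IsAlgClosed K] [CharZero K] (c : Cj K) (d : ℕ)
  (f g : RatMap K d), Good f → (∀ x ∈ f.multSpec 1, x ≠ 0) → c.spec f 1 = c.spec g 1 →
  ∃ x ∈ g.multSpec 1, x ≠ 0 ∧ x ≠ 1

/-- FU (may use MC2): the normal form -/
def FUS : Prop := ∀ (K : Type) [Field K] [IsAlgClosed K] (d : ℕ) (g : RatMap K d) (x : K),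
  2 ≤ d → x ∈ g.multSpec 1 → x ≠ 0 → x ≠ 1 →
  ∃ (u : VI d → K) (g' : RatMap K d), MobConj g g' ∧ IsV g' u ∧ (nP d u).coeff 1 = x

/-- FW (from FA2): the parameters of the generic map are independent -/
def FWS : Prop := ∀ (K : Type) [Field K] [IsAlgClosed K] [CharZero K] (d : ℕ)
  (f f' : RatMap K d) (v : VI d → K), 2 ≤ d → AlgebraicIndependent ℚ f.coef → MobConj f f' →
  IsV f' v → AlgebraicIndependent ℚ v

/-- FV (from FU, FW, AFG): the normal form of the generic map -/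
def FVS : Prop := ∀ (K : Type) [Field K] [IsAlgClosed K] [CharZero K] (d : ℕ)
  (f : RatMap K d), 2 ≤ d → AlgebraicIndependent ℚ f.coef →
  ∃ (v : VI d → K) (f' : RatMap K d), MobConj f f' ∧ IsV f' v ∧ Nf d v ∧
    AlgebraicIndependent ℚ v

/-- FC: conjugate coefficients -/
def FCS : Prop := ∀ (K : Type) [Field K] (c : Cj K) (d : ℕ) (f f' : RatMap K d) (v : VI d → K),
  (MobConj f f' → MobConj (c.conj f) (c.conj f')) ∧
  (IsV f v → IsV (c.conj f) (fun i => c.σ (v i))) ∧ c.conj (c.conj f) = f ∧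
  (Nf d v → Nf d (fun i => c.σ (v i))) ∧
  ((nP d v).coeff 1 ≠ 1 → (nP d (fun i => c.σ (v i))).coeff 1 ≠ 1) ∧
  ∀ n, XS (c.conj f).num (c.conj f).den n = c.σ '' XS f.num f.den n

/-- FL (from AFG, ADst, AAct, ANrm, AL2, AA3, XSC, FN0, FGd, MC1): linked multipliers -/
def FLS : Prop := ∀ (K : Type) [Field K] [IsAlgClosed K] [CharZero K] (_ : K →+* ℂ) (c : Cj K)
  (R : Type) [Field R] [LinearOrder R] [IsStrictOrderedRing R] (_ : AbV c R) (d : ℕ)
  (f f' g g' : RatMap K d) (v u : VI d → K), 2 ≤ d → AlgebraicIndependent ℚ f.coef →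
  MobConj f f' → IsV f' v → MobConj g g' → IsV g' u →
  (∀ n, 1 ≤ n → c.spec f n = c.spec g n) →
  ∃ (A : Set K) (m : ℕ → ℕ), A.Finite ∧ (∀ i, v i ∈ A) ∧ (∀ i, u i ∈ A) ∧
    (∀ x ∈ A, c.σ x ∈ A) ∧ StrictMono m ∧ (∀ i, (m i).Prime) ∧
    FullSeq A (fun i => XS f'.num f'.den (m i)) ∧
    ∀ i, 10 ≤ (XS f'.num f'.den (m i)).ncard ∧
      Types c A (XS f'.num f'.den (m i)) (XS g'.num g'.den (m i))

/-- FP: pigeonhole for the types, subsequences -/
def FPS : Prop := ∀ (K : Type) [Field K] [CharZero K] (c : Cj K) (A : Set K) (X U : ℕ → Set K),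
  (∀ i, Types c A (X i) (U i)) → ∃ s : ℕ → ℕ, StrictMono s ∧
    (FullSeq A X → FullSeq A (fun i => X (s i))) ∧
    ((∀ i, ∃ κ : K, κ ≠ 0 ∧ EqB A (X (s i)) (U (s i)) (fun x => κ⁻¹ * x)) ∨
    (∀ i, ∃ κ : K, κ ≠ 0 ∧ EqB A (X (s i)) (c.σ '' U (s i)) (fun x => κ⁻¹ * x)) ∨
    (∀ i, ∃ (β : K → K) (C : K), EqB A (X (s i)) (c.σ '' X (s i)) β ∧
      ∀ x ∈ X (s i), x * β x = C) ∨
    (∀ i, ∃ β b b' : K → K, EqB A (X (s i)) (c.σ '' X (s i)) β ∧ EqB A (X (s i)) (U (s i)) b ∧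
      EqB A (X (s i)) (c.σ '' U (s i)) b' ∧ ∀ x ∈ X (s i), x * β x = b x * b' x))

/-- FM: identities between disc automorphisms at many points -/
def FMS : Prop := ∀ (K : Type) [Field K] (φ : K →+* ℂ) (X : Set K), X.Finite → 5 ≤ X.ncard →
  (∀ κ : K, κ ≠ 0 → DiscAut φ X (fun x => κ⁻¹ * x) → κ = 1) ∧
  (∀ (β : K → K) (C : K), DiscAut φ X β → (∀ x ∈ X, x * β x = C) → False) ∧
  (∀ β b b' : K → K, DiscAut φ X β → DiscAut φ X b → DiscAut φ X b' →
    (∀ x ∈ X, x * β x = b x * b' x) → (∀ x ∈ X, b x = x) ∨ (∀ x ∈ X, b' x = x))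

/-- FT (from BMain, FP, FM, FC): equal multipliers for infinitely many periods -/
def FTS : Prop := ∀ (K : Type) [Field K] [IsAlgClosed K] [CharZero K] (_ : K →+* ℂ) (c : Cj K)
  (d : ℕ) (f f' g' : RatMap K d) (v u : VI d → K) (A : Set K) (m : ℕ → ℕ), 2 ≤ d →
  AlgebraicIndependent ℚ f.coef → MobConj f f' → IsV f' v → Nf d v → AlgebraicIndependent ℚ v →
  IsV g' u → (nP d u).coeff 1 ≠ 1 → A.Finite → (∀ i, v i ∈ A) → (∀ i, u i ∈ A) →
  (∀ x ∈ A, c.σ x ∈ A) → StrictMono m → (∀ i, (m i).Prime) →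
  FullSeq A (fun i => XS f'.num f'.den (m i)) →
  (∀ i, 10 ≤ (XS f'.num f'.den (m i)).ncard ∧
      Types c A (XS f'.num f'.den (m i)) (XS g'.num g'.den (m i))) →
  ∃ M : Set ℕ, M.Infinite ∧ (∀ n ∈ M, n.Prime) ∧
    ((InterA v u ∧ ∀ n ∈ M, XS f'.num f'.den n = XS g'.num g'.den n) ∨
    (InterA v (fun i => c.σ (u i)) ∧
      ∀ n ∈ M, XS f'.num f'.den n = XS (c.conj g').num (c.conj g').den n))

/-- FE (from AFG, ADst, FN0, FGd, XSC, DH, DX, DS, MEM, GIp, MC1, MC2): the end -/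
def FES : Prop := ∀ (K : Type) [Field K] [IsAlgClosed K] [CharZero K] (d : ℕ)
  (f f' g g' : RatMap K d) (v u : VI d → K), 2 ≤ d → AlgebraicIndependent ℚ f.coef →
  MobConj f f' → IsV f' v → MobConj g g' → IsV g' u → InterA v u →
  ∀ M : Set ℕ, M.Infinite → (∀ n ∈ M, n.Prime) →
  (∀ n ∈ M, XS f'.num f'.den n = XS g'.num g'.den n) → MobConj f g

end Pool.Agent.LSF
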