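import Pool.Agent.LSF.FDefs
import Pool.Agent.LenSpec.A3

/-!
FGd: general position is determined by the spectrum.

PROOF. `2 ≤ d` from `Good f`. Let `n ≥ 1`, `Per g n z`. A4: `z` is a root of `fixPoly` of `g` (which is `≠ 0`: its coefficient of index `d^n + 1` is `- B_n.coeff (d^n) ≠ 0` by `NoInf`), so
`derivAt A_n B_n z ∈ g.multSpec n`, and it is `mult g n z` (A1). Hence it is in `f.multSpec n = (roots).map (mult f n)` (G1), so it is `mult f n z'` with `Per f n z'`, which is `≠ 1`.
Compare `Pool/Agent/LenSpec/E2.lean` (the same argument with norms).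
-/

namespace Pool.Agent.LSF

open Polynomial Pool.Agent.LenSpec

theorem fgd_deg {K : Type} [Field K] (d : ℕ) (P Q : K[X]) (n : ℕ) :
    (iter d P Q n).1.natDegree ≤ d ^ n ∧ (iter d P Q n).2.natDegree ≤ d ^ n := by
  induction n with
  | zero =>
    rw [pow_zero, iter]
    exact ⟨natDegree_X_le, by simp⟩
  | succ n ih =>
    rw [iter, pow_succ, mul_comm (d ^ n)]
    exact ⟨homComp_natDegree P ih.1 ih.2, homComp_natDegree Q ih.1 ih.2⟩

theorem FGd_holds (a1 : A1S) (a4 : A4S) (g1 : G1S) : FGdS := by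
  intro K _ _ d f g hf hinf hspec
  have hd := hf.two_le
  refine ⟨hd, hinf, fun n z hn hz hm => ?_⟩
  have h1 := a1 K d n g.num g.den z g.num_le g.den_le (fun k _ => hz.1 k)
  have h2 := fgd_deg d g.num g.den n
  have hroot := (a4 K d n g z (by omega) hn hinf).2 hz
  have hne : fixPoly d g.num g.den n ≠ 0 := by
    intro h
    have h3 : (fixPoly d g.num g.den n).coeff (d ^ n + 1) = 0 := by rw [h, coeff_zero]
    unfold fixPoly at h3
    rw [coeff_sub, coeff_X_mul, coeff_eq_zero_of_natDegree_lt (by omega), zero_sub,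
      neg_eq_zero] at h3
    exact hinf n hn h3
  have hmem : (1 : K) ∈ g.multSpec n := by
    unfold RatMap.multSpec fixMult
    rw [Multiset.mem_add]
    left
    rw [Multiset.mem_map]
    refine ⟨z, ?_, ?_⟩
    · exact (mem_roots hne).2 hroot
    · rw [h1.2.2, hm]
  obtain ⟨-, -, -, h4, h5⟩ := g1 K d n f hf hn
  rw [← hspec n hn, h5] at hmem
  obtain ⟨z', hz', hz1⟩ := Multiset.mem_map.1 hmem
  exact hf.mult_ne n z' hn ((h4 z').1 hz') hz1

end Pool.Agent.LSF
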