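import Pool.Agent.LSF.FDefs
import Pool.Agent.LenSpec.A3

/-!
FN0: infinity is never periodic in the normal form.

PROOF. `(A_n, B_n) = iter d P Q n`, `P = nP d u` (degree `< d`, no constant term), `Q = nQ d u` (monic of degree `d`, constant term `1`).
By induction: `A_n.natDegree < d ^ n` or `A_n` … precisely: for `n ≥ 1` `B_n.natDegree ≤ d^n`, `B_n.coeff (d^n) = 1` and `A_n.natDegree < d^n` (for `n = 1`: `homComp d P X 1 = P`,
`homComp d Q X 1 = Q`). Step: `A_{n+1} = ∑_{1 ≤ i < d} p_i A_n^i B_n^(d-i)`: every term has degree `< d^(n+1)`; `B_{n+1} = B_n^d + ∑_{i ≥ 1} q_i A_n^i B_n^(d-i)`, the first term has coefficient `1` at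
`d^(n+1)`, the others have smaller degree. (It is convenient to use the value at infinity: the coefficient of index `d^(n+1)` of a product of `d` polynomials of degree `≤ d^n` is the product of the coefficients of index `d^n`:
`Polynomial.coeff_mul_of_natDegree_le`, `coeff_pow_of_natDegree_le`; so if `a_n, b_n` are the coefficients of index `d^n`, then `(a_0, b_0) = (1, 0)` and `(a_{n+1}, b_{n+1}) = (hom d P a_n b_n, hom d Q a_n b_n)`, i.e.
A3 at the vector `(1, 0)`: `(1,0) ↦ (P.coeff d, Q.coeff d) = (0, 1) ↦ (P.coeff 0, Q.coeff 0) = (0, 1) ↦ …`. This is the shortest proof: `b_n = 1` for `n ≥ 1`. See `Pool/Agent/LenSpec/A3.lean`, `a3_holds : A3S`, which may be imported.)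
-/

namespace Pool.Agent.LSF

open Polynomial Pool.Agent.LenSpec

/-- the value at `(0, 1)` -/
theorem fn0_hom {K : Type} [Field K] (d : ℕ) (P : K[X]) : hom d P 0 1 = P.coeff 0 := by
  rw [hom, Finset.sum_range_succ']
  rw [Finset.sum_eq_zero]
  · simp
  · intro i _
    rw [zero_pow (Nat.succ_ne_zero i), mul_zero, zero_mul]

theorem fn0_nP_coeff {K : Type} [Field K] (d : ℕ) (u : VI d → K) (j : ℕ) :
    (nP d u).coeff j = ∑ i : Fin (d - 1), if j = i.val + 1 then u (Sum.inl i) else 0 := by
  rw [nP, Polynomial.finsetSum_coeff]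
  refine Finset.sum_congr rfl (fun i _ => ?_)
  rw [Polynomial.coeff_C_mul_X_pow]

theorem fn0_nR_coeff {K : Type} [Field K] (d : ℕ) (u : VI d → K) (j : ℕ) :
    (nR d u).coeff j = ∑ i : Fin (d - 1), if j = i.val + 1 then u (Sum.inr i) else 0 := by
  rw [nR, Polynomial.finsetSum_coeff]
  refine Finset.sum_congr rfl (fun i _ => ?_)
  rw [Polynomial.coeff_C_mul_X_pow]

theorem FN0_holds : FN0S := by
  intro K _ d u hd n hn
  have hP0 : (nP d u).coeff 0 = 0 := by
    rw [fn0_nP_coeff]
    refine Finset.sum_eq_zero (fun i _ => ?_)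
    rw [if_neg (by omega)]
  have hPd : (nP d u).coeff d = 0 := by
    rw [fn0_nP_coeff]
    refine Finset.sum_eq_zero (fun i _ => ?_)
    rw [if_neg (by omega)]
  have hQ0 : (nQ d u).coeff 0 = 1 := by
    rw [nQ, Polynomial.coeff_add, Polynomial.coeff_add, fn0_nR_coeff, Polynomial.coeff_one_zero,
      Polynomial.coeff_X_pow, if_neg (by omega), add_zero]
    rw [Finset.sum_eq_zero, add_zero]
    intro i _
    rw [if_neg (by omega)]
  have hQd : (nQ d u).coeff d = 1 := by
    rw [nQ, Polynomial.coeff_add, Polynomial.coeff_add, fn0_nR_coeff, Polynomial.coeff_one,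
      Polynomial.coeff_X_pow, if_neg (by omega), if_pos rfl, zero_add]
    rw [Finset.sum_eq_zero, zero_add]
    intro i _
    rw [if_neg (by omega)]
  have h1 : lift2 d (nP d u) (nQ d u) (1, 0) = (0, 1) := by
    rw [lift2]
    simp only
    rw [hom_zero_right, hom_zero_right, hPd, hQd, one_pow, mul_one, mul_one]
  have h2 : lift2 d (nP d u) (nQ d u) (0, 1) = (0, 1) := by
    rw [lift2]
    simp only
    rw [fn0_hom, fn0_hom, hP0, hQ0]
  have h3 : ∀ m, (lift2 d (nP d u) (nQ d u))^[m + 1] (1, 0) = (0, 1) := by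
    intro m
    induction m with
    | zero => rw [zero_add, Function.iterate_one, h1]
    | succ m ih => rw [Function.iterate_succ_apply', ih, h2]
  obtain ⟨m, rfl⟩ : ∃ m, n = m + 1 := ⟨n - 1, by omega⟩
  have h4 := a3_holds K d (m + 1) (nP d u) (nQ d u) (1, 0) (by omega)
  rw [h3 m] at h4
  have h5 := congrArg Prod.snd h4
  simp only at h5
  rw [hom_zero_right, one_pow, mul_one] at h5
  rw [← h5]
  exact one_ne_zero

end Pool.Agent.LSF
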