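import Pool.Agent.LSF.FDefs
import Pool.Agent.LenSpec.GI

/-!
FV: the normal form of the generic map.

PROOF. AFG: `Good f`, all multipliers are `≠ 0`; by G1 (`multSpec 1 = roots.map mult`) all elements of `f.multSpec 1` are `≠ 1`. Take `x ∈ f.multSpec 1` (`GI.multSpec_nonempty`). FU gives `v = u`, `f' = g'`, `(nP d v).coeff 1 = x ≠ 1`; FW: `v` is independent; so
`v (inl (d - 2)) ≠ 0` (`AlgebraicIndependent.ne_zero`), which is `(nP d v).coeff (d - 1)`. `cop` from `f'.coprime`.
-/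

namespace Pool.Agent.LSF

open Polynomial Pool.Agent.LenSpec

theorem FV_holds (hFU : FUS) (hFW : FWS) (hAFG : AFGS) (hG1 : G1S) : FVS := by
  intro K _ _ _ d f hd hf
  obtain ⟨hgood, hne⟩ := hAFG K d f hd hf
  obtain ⟨x, hx⟩ := GI.multSpec_nonempty f 1
  have hx0 : x ≠ 0 := hne 1 le_rfl x hx
  have hx1 : x ≠ 1 := by
    obtain ⟨-, -, -, h4, h5⟩ := hG1 K d 1 f hgood le_rfl
    rw [h5] at hx
    obtain ⟨z, hz, hz1⟩ := Multiset.mem_map.1 hx
    rw [← hz1]
    exact hgood.mult_ne 1 z le_rfl ((h4 z).1 hz)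
  obtain ⟨v, f', hconj, hv, hcoef⟩ := hFU K d f x hd hx hx0 hx1
  have hind := hFW K d f f' v hd hf hconj hv
  refine ⟨v, f', hconj, hv, ⟨hd, ?_, ?_, ?_⟩, hind⟩
  · rw [← hv.1, ← hv.2]
    exact f'.coprime
  · rw [hcoef]
    exact hx1
  · have h1 : (nP d v).coeff (d - 1) = v (Sum.inl ⟨d - 2, by omega⟩) := by
      rw [nP, Polynomial.finsetSum_coeff, Finset.sum_eq_single (⟨d - 2, by omega⟩ : Fin (d - 1))]
      · rw [Polynomial.coeff_C_mul_X_pow, if_pos]
        change d - 1 = d - 2 + 1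
        omega
      · intro i _ hi
        rw [Polynomial.coeff_C_mul_X_pow, if_neg]
        intro h
        apply hi
        apply Fin.ext
        change i.val = d - 2
        omega
      · intro h
        exact absurd (Finset.mem_univ _) h
    rw [h1]
    exact hind.ne_zero _

end Pool.Agent.LSF
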