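import Pool.Agent.LSF.RDefs

/-!
RANK: the parameters of the normal form are algebraic over the field generated by the multipliers
of the points of exact period `n`.
-/

namespace Pool.Agent.LSF

open Polynomial Pool.Agent.LenSpec

namespace RANK

/-- a derivation that vanishes on a subfield vanishes on the elements that are algebraic over it -/
theorem der_alg {K : Type} [Field K] [CharZero K] (L : IntermediateField ℚ K)
    (D : Derivation ℚ K K) (hD : ∀ y ∈ L, D y = 0) (x : K) (hx : IsAlgebraic L x) : D x = 0 := by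
  obtain ⟨D', hD'⟩ : ∃ D' : Derivation L K K, ∀ y, D' y = D y := by
    refine ⟨Derivation.mk' (R := L) (A := K) (M := K)
      { toFun := D
        map_add' := map_add D
        map_smul' := ?_ } ?_, fun _ => rfl⟩
    · intro a y
      have h1 : a • y = (a : K) * y := rfl
      rw [h1, Derivation.leibniz, hD a a.2, smul_zero, add_zero]
      rfl
    · intro a b
      exact D.leibniz a b
  rw [← hD' x]
  have hint : IsIntegral L x := hx.isIntegral
  have h1 := D'.map_aeval (minpoly L x) x
  rw [minpoly.aeval, map_zero] at h1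
  have h2 : aeval x (derivative (minpoly L x)) ≠ 0 :=
    (minpoly.irreducible hint).separable.aeval_derivative_ne_zero (minpoly.aeval L x)
  have h3 := h1.symm
  rw [smul_eq_mul] at h3
  exact (mul_eq_zero.1 h3).resolve_left h2

end RANK

theorem RANK_holds (hRK1 : RK1S) (hRK2 : RK2S) (hRK3 : RK3S) (hMC2 : MC2S) (hR1 : R1S)
    (hR5 : R5S) : RANKS := by
  intro K _ _ _ d n f g v hd hgood hind hfg hnum hden hnf hn hn5 i
  by_contra halg
  obtain ⟨D, hD0, hDx⟩ := hR1 K (IntermediateField.adjoin ℚ (XS f.num f.den n)) (v i) halg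
  obtain ⟨f₁, hNF, hconj, hind₁, hXS⟩ := hRK3 K d f hgood hind
  have hn1 : 1 ≤ n := by omega
  have hkill : ∀ y ∈ XS f.num f.den n, D y = 0 := fun y hy =>
    hD0 y (IntermediateField.subset_adjoin _ _ hy)
  have hrat : ∀ y ∈ IntermediateField.adjoin ℚ
      {x : K | ∃ y ∈ XS f₁.num f₁.den n, ∃ y' ∈ XS f₁.num f₁.den n, x = y / y'}, D y = 0 := by
    intro y hy
    apply hD0
    refine IntermediateField.adjoin_le_iff.2 ?_ hy
    rintro x ⟨y, hy, y', hy', rfl⟩
    exact div_mem (IntermediateField.subset_adjoin _ _ (hXS n hn1 hy))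
      (IntermediateField.subset_adjoin _ _ (hXS n hn1 hy'))
  have hnfc : ∀ i, D (nfc f₁ i) = 0 := fun i =>
    RANK.der_alg _ D hrat _ (hR5 K d n f₁ hNF hind₁ hn hn5 i)
  have hcoef : ∀ i, D (f₁.coef i) = 0 := by
    rintro (⟨j, hj⟩ | ⟨j, hj⟩)
    · change D (f₁.num.coeff j) = 0
      rcases Nat.eq_zero_or_pos j with h0 | h0
      · rw [h0, hNF.num_0, map_zero]
      · rcases Nat.lt_or_ge j d with h1 | h1
        · obtain ⟨m, rfl⟩ : ∃ m, j = m + 1 := ⟨j - 1, by omega⟩
          exact hnfc (Sum.inl ⟨m, by omega⟩)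
        · have h2 : j = d := by omega
          rw [h2, hNF.num_d, Derivation.map_one_eq_zero]
    · change D (f₁.den.coeff j) = 0
      rcases Nat.eq_zero_or_pos j with h0 | h0
      · rw [h0, hNF.den_0, Derivation.map_one_eq_zero]
      · rcases Nat.lt_or_ge j d with h1 | h1
        · obtain ⟨m, rfl⟩ : ∃ m, j = m + 1 := ⟨j - 1, by omega⟩
          exact hnfc (Sum.inr ⟨m, by omega⟩)
        · have h2 : j = d := by omega
          rw [h2, hNF.den_d, map_zero]
  obtain ⟨-, -, htrans⟩ := hMC2 K d (by omega)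
  have hc : MobConj f₁ g := htrans _ _ _ hconj hfg
  obtain ⟨c₀, c₁, c₂, h0⟩ := hRK2 K d f₁ g v D hd hc hnum hden hcoef
  have h1 := hRK1 K d v _ c₀ c₁ c₂ hnf h0
  exact hDx (congrFun h1 i)

end Pool.Agent.LSF
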