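import Pool.Agent.LSF.RDefs

/-!
RK1: tangent directions and infinitesimal conjugations are independent.

(The same statement over `ℂ` is part of `BT10`; here `K` is any field of characteristic zero.)
-/

namespace Pool.Agent.LSF

open Polynomial Pool.Agent.LenSpec

theorem rk1_bbas1_deg {K : Type} [Field K] (d : ℕ) (c : Fin (d - 1) → K) :
    (∑ i : Fin (d - 1), C (c i) * X ^ (i.val + 1) : K[X]).natDegree ≤ d - 1 := by
  refine natDegree_sum_le_of_forall_le _ _ fun i _ => ?_
  refine (natDegree_C_mul_X_pow_le _ _).trans ?_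
  have := i.2
  omega

theorem rk1_bbas1_eval {K : Type} [Field K] (d : ℕ) (c : Fin (d - 1) → K) :
    (∑ i : Fin (d - 1), C (c i) * X ^ (i.val + 1) : K[X]).eval 0 = 0 := by
  rw [eval_finsetSum]
  refine Finset.sum_eq_zero fun i _ => ?_
  simp

theorem rk1_nP_natDegree {K : Type} [Field K] (d : ℕ) (hd : 2 ≤ d) (v : VI d → K) :
    (nP d v).natDegree < d := by
  have h : (nP d v).natDegree ≤ d - 1 := rk1_bbas1_deg d (fun i => v (Sum.inl i))
  omega

theorem rk1_nR_natDegree {K : Type} [Field K] (d : ℕ) (hd : 2 ≤ d) (v : VI d → K) :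
    (nR d v).natDegree < d := by
  have h : (nR d v).natDegree ≤ d - 1 := rk1_bbas1_deg d (fun i => v (Sum.inr i))
  omega

theorem rk1_nQ_monic {K : Type} [Field K] (d : ℕ) (hd : 2 ≤ d) (v : VI d → K) :
    (nQ d v).Monic ∧ (nQ d v).natDegree = d := by
  have h1 : (1 + nR d v).degree < (d : ℕ) := by
    refine (degree_le_natDegree (p := 1 + nR d v)).trans_lt ?_
    have h2 : (1 + nR d v).natDegree ≤ max (1 : K[X]).natDegree (nR d v).natDegree :=
      natDegree_add_le _ _
    have h3 := rk1_nR_natDegree d hd v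
    rw [natDegree_one] at h2
    exact_mod_cast (by omega : (1 + nR d v).natDegree < d)
  have hm : (nQ d v).Monic := by
    unfold nQ
    rw [add_comm]
    exact monic_X_pow_add h1
  refine ⟨hm, ?_⟩
  unfold nQ
  rw [add_comm, natDegree_add_eq_left_of_degree_lt (by rwa [degree_X_pow]), natDegree_X_pow]

theorem rk1_n_eval_zero {K : Type} [Field K] (d : ℕ) (hd : 2 ≤ d) (v : VI d → K) :
    (nP d v).eval 0 = 0 ∧ (nR d v).eval 0 = 0 ∧ (nQ d v).eval 0 = 1 := by
  have h1 : (nP d v).eval 0 = 0 := rk1_bbas1_eval d (fun i => v (Sum.inl i))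
  have h2 : (nR d v).eval 0 = 0 := rk1_bbas1_eval d (fun i => v (Sum.inr i))
  refine ⟨h1, h2, ?_⟩
  unfold nQ
  rw [eval_add, eval_add, h2, eval_one, eval_pow, eval_X, zero_pow (by omega)]
  ring

theorem rk1_nP_coeff {K : Type} [Field K] (d : ℕ) (δ : VI d → K) (i : Fin (d - 1)) :
    (nP d δ).coeff (i.val + 1) = δ (Sum.inl i) := by
  unfold nP
  rw [finsetSum_coeff, Finset.sum_eq_single i]
  · simp
  · intro j _ hj
    rw [coeff_C_mul, coeff_X_pow, if_neg, mul_zero]
    intro h
    apply hj
    ext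
    omega
  · simp

theorem rk1_nR_coeff {K : Type} [Field K] (d : ℕ) (δ : VI d → K) (i : Fin (d - 1)) :
    (nR d δ).coeff (i.val + 1) = δ (Sum.inr i) := by
  unfold nR
  rw [finsetSum_coeff, Finset.sum_eq_single i]
  · simp
  · intro j _ hj
    rw [coeff_C_mul, coeff_X_pow, if_neg, mul_zero]
    intro h
    apply hj
    ext
    omega
  · simp

theorem rk1_zero {K : Type} [Field K] (d : ℕ) (δ : VI d → K) (hP : nP d δ = 0) (hR : nR d δ = 0) : δ = 0 := by
  funext i
  rcases i with i | i
  · have := rk1_nP_coeff d δ i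
    rw [hP, coeff_zero] at this
    exact this.symm
  · have := rk1_nR_coeff d δ i
    rw [hR, coeff_zero] at this
    exact this.symm

theorem rk1_E_natDegree {K : Type} [Field K] (e : ℕ) (P Q : K[X]) (hP : P.natDegree ≤ e + 1)
    (hQ : Q.natDegree ≤ e + 2) : (EE P Q).natDegree ≤ 2 * e + 2 := by
  have h1 : (derivative P).natDegree ≤ e := (natDegree_derivative_le P).trans (by omega)
  have h2 : (derivative Q).natDegree ≤ e + 1 := (natDegree_derivative_le Q).trans (by omega)
  unfold EE
  refine (natDegree_sub_le _ _).trans (max_le ?_ ?_)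
  · exact natDegree_mul_le.trans (by omega)
  · exact natDegree_mul_le.trans (by omega)

theorem rk1_E_coeff {K : Type} [Field K] (e : ℕ) (P Q : K[X]) (hP : P.natDegree ≤ e + 1)
    (hQ : Q.natDegree = e + 2) (hm : Q.Monic) : (EE P Q).coeff (2 * e + 2) = - P.coeff (e + 1) := by
  have h1 : (derivative P).natDegree ≤ e := (natDegree_derivative_le P).trans (by omega)
  have h2 : (derivative Q).natDegree ≤ e + 1 := (natDegree_derivative_le Q).trans (by omega)
  have hq : Q.coeff (e + 2) = 1 := by rw [← hQ]; exact hm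
  have e1 : (derivative P * Q).coeff (2 * e + 2) = P.coeff (e + 1) * (e + 1) := by
    rw [show 2 * e + 2 = e + (e + 2) by ring, coeff_mul_add_eq_of_natDegree_le h1 hQ.le, hq, mul_one,
      coeff_derivative]
  have e2 : (P * derivative Q).coeff (2 * e + 2) = P.coeff (e + 1) * (e + 2) := by
    rw [show 2 * e + 2 = (e + 1) + (e + 1) by ring, coeff_mul_add_eq_of_natDegree_le hP h2,
      coeff_derivative, show e + 1 + 1 = e + 2 by ring, hq]
    push_cast
    ring
  unfold EE
  rw [coeff_sub, e1, e2]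
  ring

theorem RK1_holds : RK1S := by
  intro K _ _ d v δ c₀ c₁ c₂ hv hx
  obtain ⟨e, rfl⟩ : ∃ e, d = e + 2 := ⟨d - 2, by have := hv.two_le; omega⟩
  have hP := rk1_nP_natDegree (e + 2) hv.two_le v
  obtain ⟨hm, hQ⟩ := rk1_nQ_monic (e + 2) hv.two_le v
  have hA := rk1_nP_natDegree (e + 2) hv.two_le δ
  have hB := rk1_nR_natDegree (e + 2) hv.two_le δ
  obtain ⟨hP0, -, hQ0⟩ := rk1_n_eval_zero (e + 2) hv.two_le v
  obtain ⟨hA0, hB0, -⟩ := rk1_n_eval_zero (e + 2) hv.two_le δ
  have hone := hv.one_ne
  have htop := hv.top_ne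
  have hcop := hv.cop
  have hE := rk1_E_natDegree e (nP (e + 2) v) (nQ (e + 2) v) (by omega) (by omega)
  have hEc := rk1_E_coeff e (nP (e + 2) v) (nQ (e + 2) v) (by omega) (by omega) hm
  have hz : nP (e + 2) δ = 0 → nR (e + 2) δ = 0 → δ = 0 := rk1_zero (e + 2) δ
  simp only [cobP, tanP] at hx
  revert hP hm hQ hA hB hP0 hQ0 hA0 hB0 hone htop hcop hE hEc hx hz
  generalize nP (e + 2) v = P
  generalize nQ (e + 2) v = Q
  generalize nP (e + 2) δ = A
  generalize nR (e + 2) δ = B
  intro hx hP hm hQ hA hB hP0 hQ0 hA0 hB0 hone htop hcop hE hEc hz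
  rw [show e + 2 - 1 = e + 1 by omega] at htop
  have hc0 : c₀ = 0 := by
    have h := congrArg (eval 0) hx
    simp only [EE, eval_add, eval_sub, eval_mul, eval_pow, eval_C, eval_X, hP0, hQ0, hA0, hB0,
      eval_zero] at h
    have hd : eval 0 (derivative P) = P.coeff 1 := by
      rw [← coeff_zero_eq_eval_zero, coeff_derivative]; simp
    rw [hd] at h
    have h' : c₀ * (1 - P.coeff 1) = 0 := by linear_combination h
    rcases mul_eq_zero.1 h' with h'' | h''
    · exact h''
    · exact absurd (by linear_combination -h'') hone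
  have hc2 : c₂ = 0 := by
    have h := congrArg (fun R : K[X] => R.coeff (2 * e + 4)) hx
    simp only [hc0, C_0, zero_mul, add_zero, coeff_add, coeff_sub, coeff_C_mul, coeff_zero] at h
    have k1 : (A * Q).coeff (2 * e + 4) = 0 :=
      coeff_eq_zero_of_natDegree_lt (natDegree_mul_le.trans_lt (by omega))
    have k2 : (P * B).coeff (2 * e + 4) = 0 :=
      coeff_eq_zero_of_natDegree_lt (natDegree_mul_le.trans_lt (by omega))
    have k3 : (P * Q).coeff (2 * e + 4) = 0 :=
      coeff_eq_zero_of_natDegree_lt (natDegree_mul_le.trans_lt (by omega))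
    have k4 : (P ^ 2).coeff (2 * e + 4) = 0 :=
      coeff_eq_zero_of_natDegree_lt (natDegree_pow_le.trans_lt (by omega))
    have k5 : (X * EE P Q).coeff (2 * e + 4) = 0 := by
      rw [show 2 * e + 4 = (2 * e + 3) + 1 by ring, coeff_X_mul]
      exact coeff_eq_zero_of_natDegree_lt (by omega)
    have k6 : (X ^ 2 * EE P Q).coeff (2 * e + 4) = - P.coeff (e + 1) := by
      rw [show 2 * e + 4 = (2 * e + 2) + 2 by ring, coeff_X_pow_mul, hEc]
    rw [k1, k2, k3, k4, k5, k6] at h
    have h' : c₂ * P.coeff (e + 1) = 0 := by linear_combination h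
    rcases mul_eq_zero.1 h' with h'' | h''
    · exact h''
    · exact absurd h'' htop
  have hkey : Q * (A + C (c₁) * P - C (c₁) * X * derivative P) =
      P * (B - C (c₁) * X * derivative Q) := by
    simp only [hc0, hc2, C_0, zero_mul, add_zero, EE] at hx
    linear_combination hx
  have hdvd : Q ∣ B - C (c₁) * X * derivative Q :=
    hcop.symm.dvd_of_dvd_mul_left ⟨_, hkey.symm⟩
  obtain ⟨S, hS⟩ := hdvd
  have hdeg : (B - C (c₁) * X * derivative Q).natDegree ≤ e + 2 := by
    have h2 : (derivative Q).natDegree ≤ e + 1 := (natDegree_derivative_le Q).trans (by omega)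
    refine (natDegree_sub_le _ _).trans (max_le (by omega) ?_)
    rw [mul_assoc]
    refine (natDegree_C_mul_le _ _).trans ?_
    refine natDegree_mul_le.trans ?_
    rw [natDegree_X]
    omega
  have hS0 : S = 0 := by
    by_contra hne
    have h1 := hm.natDegree_mul' hne
    rw [← hS] at h1
    have h2 : S.natDegree = 0 := by omega
    obtain ⟨κ, rfl⟩ := natDegree_eq_zero.1 h2
    have h3 := congrArg (eval 0) hS
    simp only [eval_sub, eval_mul, eval_C, eval_X, hB0, hQ0] at h3
    apply hne
    have : κ = 0 := by linear_combination -h3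
    rw [this, C_0]
  rw [hS0, mul_zero] at hS
  have hc1 : c₁ = 0 := by
    have h := congrArg (fun R : K[X] => R.coeff (e + 2)) hS
    simp only [coeff_sub, coeff_zero] at h
    rw [coeff_eq_zero_of_natDegree_lt hB, mul_assoc, coeff_C_mul, show e + 2 = (e + 1) + 1 by ring,
      coeff_X_mul, coeff_derivative, show e + 1 + 1 = e + 2 by ring] at h
    have hq : Q.coeff (e + 2) = 1 := by rw [← hQ]; exact hm
    rw [hq] at h
    have h' : c₁ * ((e : K) + 2) = 0 := by
      push_cast at h
      linear_combination -h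
    rcases mul_eq_zero.1 h' with h'' | h''
    · exact h''
    · exfalso
      have : ((e + 2 : ℕ) : K) = 0 := by push_cast; exact h''
      rw [Nat.cast_eq_zero] at this
      omega
  have hB' : B = 0 := by
    rw [hc1] at hS
    simpa using hS
  have hA' : A = 0 := by
    rw [hc1, hB'] at hkey
    simp only [C_0, zero_mul, add_zero, sub_zero, mul_zero] at hkey
    rcases mul_eq_zero.1 hkey with h | h
    · exact absurd h hm.ne_zero
    · exact h
  exact hz hA' hB'

end Pool.Agent.LSF
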