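import Pool.Agent.LSF.RDefs
import Pool.Agent.LenSpec.A1

/-!
RK2: a derivation that kills the coefficients of a conjugate map is an infinitesimal conjugation.
-/

namespace Pool.Agent.LSF

open Polynomial Pool.Agent.LenSpec

namespace RK2

variable {K : Type} [Field K] [CharZero K]

theorem der_sum (D : Derivation ℚ K K) {n : ℕ} (c : Fin n → K) (m : K) :
    D ((∑ i : Fin n, C (c i) * X ^ (i.val + 1)).eval m) =
      (∑ i : Fin n, C (D (c i)) * X ^ (i.val + 1)).eval m +
        (derivative (∑ i : Fin n, C (c i) * X ^ (i.val + 1))).eval m * D m := by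
  rw [derivative_sum, eval_finsetSum, eval_finsetSum, eval_finsetSum, map_sum, Finset.sum_mul,
    ← Finset.sum_add_distrib]
  refine Finset.sum_congr rfl (fun i _ => ?_)
  rw [eval_mul, eval_C, eval_pow, eval_X, Derivation.leibniz, Derivation.leibniz_pow,
    derivative_C_mul, derivative_X_pow]
  simp only [smul_eq_mul, nsmul_eq_mul, Nat.add_sub_cancel, eval_mul, eval_C, eval_pow, eval_X]
  push_cast
  ring

theorem der_nP (D : Derivation ℚ K K) (d : ℕ) (v : VI d → K) (m : K) :
    D ((nP d v).eval m) = (nP d (fun i => D (v i))).eval m +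
      (derivative (nP d v)).eval m * D m :=
  der_sum D (fun i => v (Sum.inl i)) m

theorem der_nR (D : Derivation ℚ K K) (d : ℕ) (v : VI d → K) (m : K) :
    D ((nR d v).eval m) = (nR d (fun i => D (v i))).eval m +
      (derivative (nR d v)).eval m * D m :=
  der_sum D (fun i => v (Sum.inr i)) m

theorem der_nQ (D : Derivation ℚ K K) (d : ℕ) (v : VI d → K) (m : K) :
    D ((nQ d v).eval m) = (nR d (fun i => D (v i))).eval m +
      (derivative (nQ d v)).eval m * D m := by
  rw [nQ, eval_add, eval_add, map_add, map_add, der_nR, derivative_add, derivative_add,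
    eval_add, eval_add, eval_one, derivative_one, eval_zero, Derivation.map_one_eq_zero,
    eval_pow, eval_X, Derivation.leibniz_pow, derivative_X_pow]
  simp only [smul_eq_mul, nsmul_eq_mul, eval_mul, eval_C, eval_pow, eval_X]
  ring

theorem der_eval_nat (D : Derivation ℚ K K) (F : K[X]) (hF : ∀ i, D (F.coeff i) = 0) (q : ℕ) :
    D (F.eval (q : K)) = 0 := by
  rw [eval_eq_sum_range, map_sum]
  refine Finset.sum_eq_zero (fun i _ => ?_)
  rw [Derivation.leibniz, Derivation.leibniz_pow, Derivation.map_natCast, hF]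
  simp

theorem root_of (D : Derivation ℚ K K) {d : ℕ} {v : VI d → K} {a b c e k p₁ p₂ q : K}
    (hdet : a * e - b * c ≠ 0) (hk : k ≠ 0) (hq : D q = 0) (h1 : D p₁ = 0) (h2 : D p₂ = 0)
    (ht : c * q + e ≠ 0)
    (e1 : (nP d v).eval ((a * q + b) / (c * q + e)) * (c * q + e) ^ d = k * (a * p₁ + b * p₂))
    (e2 : (nQ d v).eval ((a * q + b) / (c * q + e)) * (c * q + e) ^ d = k * (c * p₁ + e * p₂)) :
    (cobP d v (fun i => D (v i)) (-((a * D b - b * D a) / (a * e - b * c)))
      (-((e * D a + b * D c - c * D b - a * D e) / (a * e - b * c)))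
      (-((c * D e - e * D c) / (a * e - b * c)))).eval ((a * q + b) / (c * q + e)) = 0 := by
  set m := (a * q + b) / (c * q + e) with hm
  have htm : (c * q + e) * m = a * q + b := by
    rw [hm]
    field_simp
  have d1 := congrArg D e1
  have d2 := congrArg D e2
  have d3 := congrArg D htm
  simp only [Derivation.leibniz, Derivation.leibniz_pow, map_add, der_nP, der_nQ, hq, h1, h2,
    smul_eq_mul, nsmul_eq_mul, mul_zero, zero_add, add_zero] at d1 d2 d3
  rw [cobP, tanP, EE]
  simp only [eval_add, eval_sub, eval_mul, eval_pow, eval_C, eval_X]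
  generalize (nP d v).eval m = P at *
  generalize (nQ d v).eval m = Q at *
  generalize (derivative (nP d v)).eval m = P' at *
  generalize (derivative (nQ d v)).eval m = Q' at *
  generalize (nP d (fun i => D (v i))).eval m = A at *
  generalize (nR d (fun i => D (v i))).eval m = B at *
  generalize D m = m' at *
  generalize D a = a' at *
  generalize D b = b' at *
  generalize D c = c' at *
  generalize D e = e' at *
  generalize D k = k' at *
  have htd : (c * q + e) ^ d ≠ 0 := pow_ne_zero _ ht
  generalize hT : (c * q + e) ^ d = T at *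
  generalize (d : K) * ((c * q + e) ^ (d - 1) * (q * c' + e')) = U at *
  have hΔ : (a - c * m) * (c * q + e) = a * e - b * c := by
    linear_combination -c * htm
  have hqm : q * (a - c * m) = e * m - b := by
    linear_combination -htm
  have hm' : (a * e - b * c) * m' = (a * b' - b * a') + (e * a' + b * c' - c * b' - a * e') * m +
      (c * e' - e * c') * m ^ 2 := by
    linear_combination (a - c * m) * d3 - m' * hΔ - (m * c' - a') * hqm
  have key : k * T * ((a * e - b * c) * (A * Q - P * B) +
      (P' * Q - P * Q') * ((a * e - b * c) * m') - ((a * b' - b * a') * Q ^ 2 +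
      (e * a' + b * c' - c * b' - a * e') * (P * Q) + (c * e' - e * c') * P ^ 2)) = 0 := by
    linear_combination k * (a * e - b * c) * (Q * d1 - P * d2) +
      (-k * e * (a' * Q - c' * P) + k * c * (b' * Q - e' * P) - (a * e - b * c) * k' * Q) * e1 +
      (k * b * (a' * Q - c' * P) - k * a * (b' * Q - e' * P) + (a * e - b * c) * k' * P) * e2
  have key2 := (mul_eq_zero.1 key).resolve_left (mul_ne_zero hk htd)
  have x0 : (a * b' - b * a') / (a * e - b * c) * (a * e - b * c) = a * b' - b * a' :=
    div_mul_cancel₀ _ hdet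
  have x1 : (e * a' + b * c' - c * b' - a * e') / (a * e - b * c) * (a * e - b * c) =
    e * a' + b * c' - c * b' - a * e' := div_mul_cancel₀ _ hdet
  have x2 : (c * e' - e * c') / (a * e - b * c) * (a * e - b * c) = c * e' - e * c' :=
    div_mul_cancel₀ _ hdet
  generalize (a * b' - b * a') / (a * e - b * c) = y0 at *
  generalize (e * a' + b * c' - c * b' - a * e') / (a * e - b * c) = y1 at *
  generalize (c * e' - e * c') / (a * e - b * c) = y2 at *
  refine mul_left_cancel₀ hdet ?_
  linear_combination key2 - (P' * Q - P * Q') * hm' - (Q ^ 2 - (P' * Q - P * Q')) * x0 -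
    (P * Q - m * (P' * Q - P * Q')) * x1 - (P ^ 2 - m ^ 2 * (P' * Q - P * Q')) * x2

end RK2

open RK2 in
theorem RK2_holds : RK2S := by
  intro K _ _ d f g v D hd hconj hnum hden hD
  obtain ⟨a, b, c, e, k, hdet, hk, h1, h2⟩ := hconj
  have hnumD : ∀ i, D (f.num.coeff i) = 0 := by
    intro i
    by_cases hi : i < d + 1
    · exact hD (Sum.inl ⟨i, hi⟩)
    · rw [coeff_eq_zero_of_natDegree_lt (by have := f.num_le; omega), map_zero]
  have hdenD : ∀ i, D (f.den.coeff i) = 0 := by
    intro i
    by_cases hi : i < d + 1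
    · exact hD (Sum.inr ⟨i, hi⟩)
    · rw [coeff_eq_zero_of_natDegree_lt (by have := f.den_le; omega), map_zero]
  refine ⟨-((a * D b - b * D a) / (a * e - b * c)),
    -((e * D a + b * D c - c * D b - a * D e) / (a * e - b * c)),
    -((c * D e - e * D c) / (a * e - b * c)), ?_⟩
  refine Polynomial.eq_zero_of_infinite_isRoot _ ?_
  have hfin : {q : ℕ | c * (q : K) + e = 0}.Subsingleton := by
    intro q hq q' hq'
    rw [Set.mem_setOf_eq] at hq hq'
    have hc : c ≠ 0 := by
      intro hc
      rw [hc, zero_mul, zero_add] at hq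
      apply hdet
      rw [hc, hq]
      ring
    have h3 : c * ((q : K) - q') = 0 := by linear_combination hq - hq'
    have h4 := (mul_eq_zero.1 h3).resolve_left hc
    exact_mod_cast sub_eq_zero.1 h4
  have hinf : {q : ℕ | c * (q : K) + e = 0}ᶜ.Infinite := hfin.finite.infinite_compl
  have hinj : Set.InjOn (fun q : ℕ => (a * (q : K) + b) / (c * q + e))
      {q : ℕ | c * (q : K) + e = 0}ᶜ := by
    intro q hq q' hq' h
    have hq1 : c * (q : K) + e ≠ 0 := hq
    have hq2 : c * (q' : K) + e ≠ 0 := hq'
    have h3 : (a * (q : K) + b) / (c * q + e) = (a * (q' : K) + b) / (c * q' + e) := h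
    rw [div_eq_div_iff hq1 hq2] at h3
    have h4 : (a * e - b * c) * ((q : K) - q') = 0 := by linear_combination h3
    have h5 := (mul_eq_zero.1 h4).resolve_left hdet
    exact_mod_cast sub_eq_zero.1 h5
  refine (hinf.image hinj).mono ?_
  rintro _ ⟨q, hq, rfl⟩
  have ht : c * (q : K) + e ≠ 0 := hq
  have hB : (C c * X + C e : K[X]).eval (q : K) ≠ 0 := by
    simpa using ht
  have e1 := congrArg (Polynomial.eval (q : K)) h1
  have e2 := congrArg (Polynomial.eval (q : K)) h2
  rw [homComp_eval g.num_le _ _ _ hB, hnum] at e1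
  rw [homComp_eval g.den_le _ _ _ hB, hden] at e2
  simp only [eval_add, eval_mul, eval_C, eval_X] at e1 e2
  exact root_of D hdet hk (Derivation.map_natCast D q) (der_eval_nat D _ hnumD q)
    (der_eval_nat D _ hdenD q) ht e1 e2

end Pool.Agent.LSF
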