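import Pool.Agent.LSF.RDefs
import Pool.Agent.LenSpec.FA1

/-!
RK3: the normal form of the generic map.
-/

namespace Pool.Agent.LSF

open Polynomial Pool.Agent.LenSpec

open Pool.Agent.LenSpec.FA1aux in
theorem RK3_mob {K : Type} [Field K] [IsAlgClosed K] {d : ℕ} {f : RatMap K d} {w0 w1 nu c : K}
    (h : Dat d f w0 w1 nu c) : MobConj h.map f := by
  have hk : nu * c * (w0 - w1) ≠ 0 :=
    mul_ne_zero (mul_ne_zero h.hnu h.c_ne) (sub_ne_zero.mpr h.hne)
  have hX : (C w1 * X + C (nu * w0) : K[X]) = U w0 w1 nu := rfl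
  have hV : (C 1 * X + C nu : K[X]) = V nu := by
    rw [V, C_1, one_mul]
  have hN : h.map.num = C (-nu * c) * (tr d w0 w1 nu f.num - C w0 * tr d w0 w1 nu f.den) := rfl
  have hM : h.map.den = C c * (tr d w0 w1 nu f.num - C w1 * tr d w0 w1 nu f.den) := rfl
  have hkk : (C (nu * c * (w0 - w1))⁻¹ * C (nu * c * (w0 - w1)) : K[X]) = 1 := by
    rw [← C_mul, inv_mul_cancel₀ hk, C_1]
  refine ⟨w1, nu * w0, 1, nu, (nu * c * (w0 - w1))⁻¹, ?_, inv_ne_zero hk, ?_, ?_⟩
  · have : w1 * nu - nu * w0 * 1 = -(nu * (w0 - w1)) := by ring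
    rw [this]
    exact neg_ne_zero.mpr (mul_ne_zero h.hnu (sub_ne_zero.mpr h.hne))
  · rw [hX, hV, hN, hM]
    change tr d w0 w1 nu f.num = _
    have e1 : (C w1 * (C (-nu * c) * (tr d w0 w1 nu f.num - C w0 * tr d w0 w1 nu f.den)) +
        C (nu * w0) * (C c * (tr d w0 w1 nu f.num - C w1 * tr d w0 w1 nu f.den)) : K[X]) =
        C (nu * c * (w0 - w1)) * tr d w0 w1 nu f.num := by
      simp only [C_mul, C_neg, C_sub]
      ring
    rw [e1, ← mul_assoc, hkk, one_mul]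
  · rw [hX, hV, hN, hM]
    change tr d w0 w1 nu f.den = _
    have e1 : (C 1 * (C (-nu * c) * (tr d w0 w1 nu f.num - C w0 * tr d w0 w1 nu f.den)) +
        C nu * (C c * (tr d w0 w1 nu f.num - C w1 * tr d w0 w1 nu f.den)) : K[X]) =
        C (nu * c * (w0 - w1)) * tr d w0 w1 nu f.den := by
      simp only [C_mul, C_neg, C_sub, C_1]
      ring
    rw [e1, ← mul_assoc, hkk, one_mul]

open Pool.Agent.LenSpec.FA1aux in
theorem RK3_holds (hA3 : A3S) (hG1 : G1S) (hFA2 : FA2S) : RK3S := by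
  intro K _ _ _ d f hf hind
  have hd := hf.two_le
  obtain ⟨-, hnod, hcard, hroot, -⟩ := hG1 K d 1 f hf le_rfl
  have hfix : fixPoly d f.num f.den 1 = f.num - X * f.den := by
    rw [fixPoly, iter, iter]
    simp only
    rw [homComp_X_one d _ f.num_le, homComp_X_one d _ f.den_le]
  obtain ⟨w0, h0, w1, h1, hne⟩ : ∃ w0 ∈ (fixPoly d f.num f.den 1).roots,
      ∃ w1 ∈ (fixPoly d f.num f.den 1).roots, w0 ≠ w1 := by
    classical
    have hc : 1 < ((fixPoly d f.num f.den 1).roots.toFinset).card := by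
      rw [Multiset.toFinset_card_of_nodup hnod, hcard, pow_one]
      omega
    obtain ⟨a, ha, b, hb, hab⟩ := Finset.one_lt_card.mp hc
    exact ⟨a, Multiset.mem_toFinset.mp ha, b, Multiset.mem_toFinset.mp hb, hab⟩
  have hfp : ∀ w ∈ (fixPoly d f.num f.den 1).roots, f.den.eval w ≠ 0 ∧
      f.num.eval w = w * f.den.eval w := by
    intro w hw
    obtain ⟨hw1, hw2⟩ := (hroot w).mp hw
    have hq := hw1 0
    simp only [Function.iterate_zero, id_eq] at hq
    refine ⟨hq, ?_⟩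
    simp only [Function.iterate_one, ev] at hw2
    rw [div_eq_iff hq] at hw2
    exact hw2
  obtain ⟨q0, p0⟩ := hfp w0 h0
  obtain ⟨q1, p1⟩ := hfp w1 h1
  obtain ⟨nu, hnu⟩ := IsAlgClosed.exists_pow_nat_eq (f.den.eval w1 / f.den.eval w0)
    (n := d - 1) (by omega)
  have hnu0 : nu ≠ 0 := by
    intro h
    rw [h, zero_pow (by omega)] at hnu
    exact div_ne_zero q1 q0 hnu.symm
  have hcne : nu ^ d * (w0 - w1) * f.den.eval w0 ≠ 0 :=
    mul_ne_zero (mul_ne_zero (pow_ne_zero d hnu0) (sub_ne_zero.mpr hne)) q0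
  have h : Dat d f w0 w1 nu (nu ^ d * (w0 - w1) * f.den.eval w0)⁻¹ :=
    { hd := hd
      hne := hne
      hnu := hnu0
      q0 := q0
      q1 := q1
      p0 := p0
      p1 := p1
      hpow := by rw [hnu, div_mul_cancel₀ _ q0]
      hc := inv_mul_cancel₀ hcne }
  classical
  have hcf : ∀ i, f.coef i ∈ IntermediateField.adjoin ℚ (Set.range (nfc h.map) ∪
      (({w0, w1, nu, (nu ^ d * (w0 - w1) * f.den.eval w0)⁻¹} : Finset K) : Set K)) := by
    obtain ⟨S, hS⟩ : ∃ S : Finset K, S = {w0, w1, nu, (nu ^ d * (w0 - w1) * f.den.eval w0)⁻¹} :=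
      ⟨_, rfl⟩
    rw [← hS]
    have hsub : ∀ x, x ∈ (Set.range (nfc h.map) ∪ (S : Set K)) →
        x ∈ (IntermediateField.adjoin ℚ (Set.range (nfc h.map) ∪ (S : Set K))).toSubfield :=
      fun x hx => IntermediateField.subset_adjoin _ _ hx
    have hmS : ∀ x, x ∈ S → x ∈ (IntermediateField.adjoin ℚ
        (Set.range (nfc h.map) ∪ (S : Set K))).toSubfield :=
      fun x hx => hsub x (Or.inr hx)
    obtain ⟨hN, hM⟩ := h.mem_of_nfc (IntermediateField.adjoin ℚ
        (Set.range (nfc h.map) ∪ (S : Set K))).toSubfield (fun i => hsub _ (Or.inl ⟨i, rfl⟩))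
    obtain ⟨hP, hQ⟩ := h.coef_mem _ (hmS _ (by simp [hS])) (hmS _ (by simp [hS]))
      (hmS _ (by simp [hS])) (hmS _ (by simp [hS])) hN hM
    rintro (i | i)
    · exact (mem_LR _ _).mp hP _
    · exact (mem_LR _ _).mp hQ _
  refine ⟨h.map, h.nf, RK3_mob h, ?_, ?_⟩
  · exact hFA2 K d f.coef (nfc h.map) _ hd hind Finset.card_le_four hcf
  · intro n hn
    exact h.xs_sub hA3 hf.noInf n hn

end Pool.Agent.LSF
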