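import Pool.Agent.LSF.BGDefs
import Pool.Agent.LSF.FDefs

/-!
Part W: from fields with automorphisms to generic linked pairs over the complex numbers.
-/

namespace Pool.Agent.LSF

open Polynomial Pool.Agent.LenSpec

/-- a linked pair `(v, u)` with `v` generic; nothing is known about `u` -/
structure WP (d : ℕ) (MM : Set ℕ) (k : ℕ) (L : LinkD k) (v u : VI d → ℂ) (a : Fin k → ℂ) :
    Prop where
  aiv : AlgebraicIndependent ℚ v
  vgv : VG d MM v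
  aa : ∀ i, a i ∈ Set.range v ∪ Set.range u
  lnk : ∀ m ∈ MM, ∀ x ∈ XV d v m, L.b m a x ∈ XV d u m ∧
    mev (L.D' m) a (L.b m a x) ≠ 0 ∧ L.swap.b m a (L.b m a x) = x
  uacl : ∀ m ∈ MM, ∀ y ∈ XV d u m, y ∈ ACL (Set.range u)
  rankv : ∀ m ∈ MM, ∀ i, v i ∈ ACL (XV d v m)
  ufin : ∀ m ∈ MM, (XV d u m).Finite
  prime : ∀ m ∈ MM, m.Prime
  inf : MM.Infinite

/-- a linked pair together with a field over which it has one parameter `t` of modulus one, the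
multiplier at a periodic point -/
structure WS (d : ℕ) (MM : Set ℕ) (k : ℕ) (L : LinkD k) (A : IntermediateField ℚ ℂ) (t : ℂ)
    (v u : VI d → ℂ) (a : Fin k → ℂ) (n : ℕ) (z : ℂ) : Prop where
  wp : WP d MM k L v u a
  cnt : (A : Set ℂ).Countable
  closed : IsAlgClosed A
  base : K0 ≤ A
  uA : ∀ i, u i ∈ A
  vA : ∀ i, v i ∈ ACL (insert t (A : Set ℂ))
  tA : t ∉ A
  one : ‖t‖ = 1
  nM : n ∈ MM
  px : PX d v n z
  mu : mu d v n z = t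

/-- a family through a linked pair with one parameter -/
structure WF (d : ℕ) (MM : Set ℕ) (k : ℕ) (A : IntermediateField ℚ ℂ) (t : ℂ)
    (v : VI d → ℂ) (a : Fin k → ℂ) (n : ℕ) (R : ℝ) (V : ℂ → VI d → ℂ) (As : Fin k → ℂ → ℂ)
    (Zs : ℂ → ℂ) : Prop where
  fam : Fam d MM t R V
  lab : Lab d V t n R Zs
  dA : ∀ i, DifferentiableOn ℂ (As i) (Metric.ball t R)
  V0 : V t = v
  conj : ∀ s ∈ Metric.ball t R, s ∉ A → ∃ σ : ℂ ≃ₐ[A] ℂ, σ t = s ∧ (∀ i, σ (v i) = V s i) ∧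
    ∀ i, σ (a i) = As i s

/-- very general position over any field -/
structure VGK {K : Type} [Field K] (d : ℕ) (v : VI d → K) : Prop where
  nf : Nf d v
  fix_ne : ∀ z, ev (nP d v) (nQ d v) z = z → ∀ k, 1 ≤ k → (mult (nP d v) (nQ d v) 1 z) ^ k ≠ 1
  mult_ne : ∀ n, 2 ≤ n → ∀ z, PerX (nP d v) (nQ d v) n z →
    mult (nP d v) (nQ d v) n z ≠ 1 ∧ mult (nP d v) (nQ d v) n z ≠ 0
  same : ∀ n, 2 ≤ n → ∀ z z', PerX (nP d v) (nQ d v) n z → PerX (nP d v) (nQ d v) n z' →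
    mult (nP d v) (nQ d v) n z = mult (nP d v) (nQ d v) n z' →
    ∃ k, z' = (ev (nP d v) (nQ d v))^[k] z

/-- the image of the parameters -/
abbrev phv {K : Type} [Field K] (φ : K →+* ℂ) {d : ℕ} (v : VI d → K) : VI d → ℂ :=
  fun i => φ (v i)

/-- WXs (from A2, A4, FN0, WHom): multipliers over `K` and over `ℂ` -/
def WXsS : Prop := ∀ (K : Type) [Field K] [IsAlgClosed K] [CharZero K] (φ : K →+* ℂ) (d n : ℕ)
  (u : VI d → K), 2 ≤ d → IsCoprime (nP d u) (nQ d u) → 1 ≤ n →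
  (∀ z, PX d (phv φ u) n z → ∃ z₀, PerX (nP d u) (nQ d u) n z₀ ∧ φ z₀ = z) ∧
  XV d (phv φ u) n = φ '' XS (nP d u) (nQ d u) n ∧
  (XS (nP d u) (nQ d u) n).Finite ∧
  (∀ x ∈ XS (nP d u) (nQ d u) n, IsAlgebraic (IntermediateField.adjoin ℚ (Set.range u)) x) ∧
  ∀ τ : K ≃+* K, (∀ i, τ (u i) = u i) → ∀ x ∈ XS (nP d u) (nQ d u) n,
    τ x ∈ XS (nP d u) (nQ d u) n

/-- WCn (from G3, A5): if the number of multipliers is the number of cycles then different cycles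
have different multipliers -/
def WCnS : Prop := ∀ (K : Type) [Field K] [IsAlgClosed K] (d n : ℕ) (f : RatMap K d), Good f →
  1 ≤ n → n * (XS f.num f.den n).ncard = (perF d f.num f.den n).card →
  ∀ z z', PerX f.num f.den n z → PerX f.num f.den n z' →
    mult f.num f.den n z = mult f.num f.den n z' → ∃ k, z' = (ev f.num f.den)^[k] z

/-- WVg (from AFG, ADst, XSC, MC1, FN0, FGd, G1, G2, G3, RANK, WCn): the normal form of the
generic map is in very general position -/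
def WVgS : Prop := ∀ (K : Type) [Field K] [IsAlgClosed K] [CharZero K] (d : ℕ)
  (f f' : RatMap K d) (v : VI d → K), 2 ≤ d → AlgebraicIndependent ℚ f.coef → MobConj f f' →
  IsV f' v → Nf d v →
  VGK d v ∧ (∀ n, n.Prime → n * (XS (nP d v) (nQ d v) n).ncard + d = d ^ n) ∧
  ∀ n, n.Prime → 5 ≤ n → ∀ i,
    IsAlgebraic (IntermediateField.adjoin ℚ (XS (nP d v) (nQ d v) n)) (v i)

/-- WVt (from WXs, WHom): very general position over `ℂ` -/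
def WVtS : Prop := ∀ (K : Type) [Field K] [IsAlgClosed K] [CharZero K] (φ : K →+* ℂ) (d : ℕ)
  (MM : Set ℕ) (v : VI d → K), VGK d v → (∀ n ∈ MM, 2 ≤ n) → VG d MM (phv φ v)

/-- WL (from WXs, WLk, WSy, WInv): linking data -/
def WLS : Prop := ∀ (K : Type) [Field K] [IsAlgClosed K] [CharZero K] (φ : K →+* ℂ) (d : ℕ)
  (v u : VI d → K) (m : ℕ → ℕ) (β : ℕ → K → K) (i₁ : ℕ) (MM : Set ℕ), 2 ≤ d →
  IsCoprime (nP d v) (nQ d v) → IsCoprime (nP d u) (nQ d u) → StrictMono m →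
  (∀ i, 1 ≤ m i) → (∀ n, n ∈ MM ↔ ∃ i, i₁ ≤ i ∧ m i = n) →
  FullSeq (Set.range v ∪ Set.range u) (fun i => XS (nP d v) (nQ d v) (m i)) →
  (∀ i, i₁ ≤ i → EqB (Set.range v ∪ Set.range u) (XS (nP d v) (nQ d v) (m i))
    (XS (nP d u) (nQ d u) (m i)) (β i)) →
  ∃ (k : ℕ) (L : LinkD k) (a : Fin k → ℂ),
    (∀ y, (∃ i, a i = y) ↔ (y ∈ Set.range (phv φ v) ∨ y ∈ Set.range (phv φ u))) ∧
    (∀ i, i₁ ≤ i → ∀ x ∈ XS (nP d v) (nQ d v) (m i), L.b (m i) a (φ x) = φ (β i x)) ∧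
    (∀ n ∈ MM, ∀ x ∈ XV d (phv φ v) n, mev (L.D n) a x ≠ 0 ∧ L.b n a x ∈ XV d (phv φ u) n ∧
      mev (L.D' n) a (L.b n a x) ≠ 0 ∧ L.swap.b n a (L.b n a x) = x) ∧
    (∀ n ∈ MM, ∀ y ∈ XV d (phv φ u) n, mev (L.D' n) a y ≠ 0 ∧
      L.swap.b n a y ∈ XV d (phv φ v) n ∧ mev (L.D n) a (L.swap.b n a y) ≠ 0 ∧
      L.b n a (L.swap.b n a y) = y) ∧
    ∀ S : Finset ℕ, (∀ n ∈ S, n ∈ MM) → ∀ π : ℕ → ℂ → ℂ,
      (∀ n ∈ S, Set.BijOn (π n) (XV d (phv φ v) n) (XV d (phv φ v) n)) →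
      ∃ σ : ℂ ≃ₐ[K0] ℂ, (∀ i, σ (a i) = a i) ∧
        ∀ n ∈ S, ∀ x ∈ XV d (phv φ v) n, σ x = π n x

/-- the linking maps are disc automorphisms (theorem B) -/
def ThmBS : Prop := ∀ (d : ℕ) (MM : Set ℕ) (k : ℕ) (L : LinkD k) (v u : VI d → ℂ)
  (a : Fin k → ℂ), GP d MM k L v u a → ∃ bad : Finset ℕ, ∀ m ∈ MM, m ∉ bad →
    ∃ al ka : ℂ, ‖al‖ < 1 ∧ ‖ka‖ = 1 ∧ ka * (1 - al) = 1 - starRingEnd ℂ al ∧
      ∀ x ∈ XV d v m, L.b m a x * (1 - starRingEnd ℂ al * x) = ka * (x - al)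

end Pool.Agent.LSF
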