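import Pool.Agent.LSF.BG1
import Pool.Agent.LSF.WDefs

/-!
WAl: algebraicity over subfields of `K` and over subfields of `ℂ`.

Complete proof. `φ : K →+* ℂ` is a homomorphism of `ℚ`-algebras (`RingHom.toRatAlgHom` or
`RingHom.equivRatAlgHom`).
1. `IsAlgebraic (adjoin ℚ S) x ↔ φ x ∈ ACL (φ '' S)`: `φ` maps `IntermediateField.adjoin ℚ S`
isomorphically onto `IntermediateField.adjoin ℚ (φ '' S)` (`IntermediateField.adjoin_map`), a
polynomial relation for `x` over the first field is mapped to a relation for `φ x` over the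
second one, and conversely the coefficients of a relation of `φ x` over the second field are
images (`IntermediateField.mem_map`), and `φ` is injective. (`acl_mem` in BG1.)
2. `AlgebraicIndependent ℚ v ↔ AlgebraicIndependent ℚ (φ ∘ v)`:
`AlgHom.algebraicIndependent_iff` for the injective `ℚ`-algebra homomorphism.
3. `φ` maps the algebraic numbers of the algebraically closed field `K` onto `K0 = ACL ∅`: for
`y ∈ ACL ∅` algebraic over `ℚ` the minimal polynomial splits in `K`, its roots in `ℂ` are the images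
of its roots in `K`.
-/

namespace Pool.Agent.LSF

theorem wal_iff {K : Type} [Field K] [CharZero K] (φ : K →+* ℂ) (S : Set K) (x : K) :
    IsAlgebraic (IntermediateField.adjoin ℚ S) x ↔ φ x ∈ ACL (φ '' S) := by
  rw [acl_mem]
  obtain ⟨f, hf⟩ : ∃ f : K →ₐ[ℚ] ℂ, ∀ x, f x = φ x := ⟨φ.toRatAlgHom, fun _ => rfl⟩
  have himg : φ '' S = f '' S := by
    ext y
    simp only [Set.mem_image, hf]
  rw [himg]
  obtain ⟨e, he⟩ : ∃ e : IntermediateField.adjoin ℚ S ≃ₐ[ℚ] IntermediateField.adjoin ℚ (f '' S),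
      ∀ a, ((e a : IntermediateField.adjoin ℚ (f '' S)) : ℂ) = f a := by
    refine ⟨(IntermediateField.equivMap _ f).trans
      (IntermediateField.equivOfEq (IntermediateField.adjoin_map ℚ S f)), fun a => rfl⟩
  exact (isAlgebraic_ringHom_iff_of_comp_eq e φ φ.injective (by
    refine RingHom.ext fun a => ?_
    show ((e a : IntermediateField.adjoin ℚ (f '' S)) : ℂ) = φ (a : K)
    rw [he, hf])).symm

theorem wal_ind {K : Type} [Field K] [CharZero K] (φ : K →+* ℂ) {ι : Type} (v : ι → K) :
    AlgebraicIndependent ℚ v ↔ AlgebraicIndependent ℚ (fun i => φ (v i)) := by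
  obtain ⟨f, hf⟩ : ∃ f : K →ₐ[ℚ] ℂ, ∀ x, f x = φ x := ⟨φ.toRatAlgHom, fun _ => rfl⟩
  have h1 : (fun i => φ (v i)) = f ∘ v := by
    funext i
    exact (hf _).symm
  rw [h1]
  exact (AlgHom.algebraicIndependent_iff f (fun a b h => φ.injective (by
    rw [← hf, ← hf, h]))).symm

theorem wal_empty {K : Type} [Field K] [CharZero K] (x : K) :
    IsAlgebraic (IntermediateField.adjoin ℚ (∅ : Set K)) x ↔ IsAlgebraic ℚ x := by
  constructor
  · intro h
    have h1 : Algebra.IsAlgebraic ℚ (IntermediateField.adjoin ℚ (∅ : Set K)) :=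
      IntermediateField.isAlgebraic_adjoin (fun x hx => absurd hx (Set.notMem_empty x))
    exact h.restrictScalars ℚ
  · intro h
    exact h.tower_top _

theorem wal_k0 {K : Type} [Field K] [IsAlgClosed K] [CharZero K] (φ : K →+* ℂ) (y : ℂ) :
    y ∈ K0 ↔ ∃ x : K, IsAlgebraic ℚ x ∧ φ x = y := by
  constructor
  · intro h
    have h1 : IsAlgebraic ℚ y := (wal_empty y).1 ((acl_mem ∅ y).1 h)
    obtain ⟨p, hp, hpy⟩ := h1
    have hs : (p.map (algebraMap ℚ K)).Splits := IsAlgClosed.splits _
    have h2 := hs.roots_map φ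
    have h3 : (p.map (algebraMap ℚ K)).map φ = p.map (algebraMap ℚ ℂ) := by
      rw [Polynomial.map_map]
      congr 1
      exact Subsingleton.elim _ _
    have h4 : p.map (algebraMap ℚ ℂ) ≠ 0 :=
      (Polynomial.map_ne_zero_iff (algebraMap ℚ ℂ).injective).2 hp
    have h5 : y ∈ (p.map (algebraMap ℚ ℂ)).roots := by
      rw [Polynomial.mem_roots h4, Polynomial.IsRoot.def, Polynomial.eval_map]
      exact hpy
    rw [← h3, h2, Multiset.mem_map] at h5
    obtain ⟨x, hx, rfl⟩ := h5
    refine ⟨x, ⟨p, hp, ?_⟩, rfl⟩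
    have h6 := Polynomial.isRoot_of_mem_roots hx
    rw [Polynomial.IsRoot.def, Polynomial.eval_map] at h6
    exact h6
  · rintro ⟨x, hx, rfl⟩
    have h1 := (wal_iff φ (∅ : Set K) x).1 ((wal_empty x).2 hx)
    rw [Set.image_empty] at h1
    exact h1

end Pool.Agent.LSF
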