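import Pool.Agent.LSF.WDefs

/-!
WCn (from G2, A5): if `n * (number of multipliers) = (number of points of exact period n)` then
points with the same multiplier are in the same cycle.

Complete proof. Let `S := perF d f.num f.den n` (a finset; `z ∈ S ↔ PerX f.num f.den n z` by G2),
`m := mult f.num f.den n`. `XS f.num f.den n` is the image of `S` under `m`; let
`T := S.image m`, `T.card = (XS ..).ncard`. For `x ∈ T` the fibre `S_x := S.filter (m z = x)` has at
least `n` elements: take `z ∈ S_x`, the points `(ev ..)^[k] z`, `k < n`, are distinct, have exact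
period `n` and the same multiplier (A5). `∑_{x ∈ T} card S_x = card S = n * card T`
(`Finset.card_eq_sum_card_image`), and every summand is `≥ n`, so every summand is `= n`
(`Finset.sum_eq_sum_iff_of_le`). So `S_x` is equal to its subset of the `n` points
`(ev ..)^[k] z` (`Finset.eq_of_subset_of_card_le`). If `z' ∈ S_x` then `z' = (ev ..)^[k] z`.
-/

namespace Pool.Agent.LSF

open Polynomial Pool.Agent.LenSpec

theorem WCn (g2 : G2S) (a5 : A5S) : WCnS := by
  intro K _ _ d n f hf hn hcard z z' hz hz' hm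
  classical
  obtain ⟨hmem, -, -⟩ := g2 K d n f hf hn
  obtain ⟨S, hS⟩ : ∃ S, S = perF d f.num f.den n := ⟨_, rfl⟩
  obtain ⟨μ, hμ⟩ : ∃ μ, μ = mult f.num f.den n := ⟨_, rfl⟩
  rw [← hS] at hmem hcard
  rw [← hμ] at hm
  have hXS : XS f.num f.den n = ((S.image μ : Finset K) : Set K) := by
    ext x
    rw [Finset.coe_image]
    constructor
    · rintro ⟨y, hy, hyx⟩
      exact ⟨y, (hmem y).2 hy, by rw [hμ]; exact hyx⟩
    · rintro ⟨y, hy, hyx⟩
      exact ⟨y, (hmem y).1 hy, by rw [hμ] at hyx; exact hyx⟩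
  rw [hXS, Set.ncard_coe_finset] at hcard
  -- the orbit of a point
  have horb : ∀ y, PerX f.num f.den n y →
      ((Finset.range n).image fun k => (ev f.num f.den)^[k] y) ⊆ S.filter (fun w => μ w = μ y) ∧
      ((Finset.range n).image fun k => (ev f.num f.den)^[k] y).card = n := by
    intro y hy
    obtain ⟨h1, h2, h3⟩ := a5 K f.num f.den n y hn hy
    constructor
    · intro w hw
      rw [Finset.mem_image] at hw
      obtain ⟨k, -, rfl⟩ := hw
      rw [Finset.mem_filter, hmem, hμ]
      exact ⟨h1 k, h2 k⟩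
    · rw [Finset.card_image_of_injOn, Finset.card_range]
      intro i hi j hj hij
      exact h3 i (Finset.mem_range.1 hi) j (Finset.mem_range.1 hj) hij
  have hle : ∀ x ∈ S.image μ, n ≤ (S.filter (fun w => μ w = x)).card := by
    intro x hx
    obtain ⟨y, hy, rfl⟩ := Finset.mem_image.1 hx
    obtain ⟨h1, h2⟩ := horb y ((hmem y).1 hy)
    calc n = _ := h2.symm
      _ ≤ _ := Finset.card_le_card h1
  have hsum : ∑ _x ∈ S.image μ, n = ∑ x ∈ S.image μ, (S.filter (fun w => μ w = x)).card := by
    rw [← Finset.card_eq_sum_card_image, Finset.sum_const, smul_eq_mul, mul_comm]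
    exact hcard
  have heq := (Finset.sum_eq_sum_iff_of_le hle).1 hsum
  have h1 := heq (μ z) (Finset.mem_image_of_mem μ ((hmem z).2 hz))
  obtain ⟨h2, h3⟩ := horb z hz
  have h4 := Finset.eq_of_subset_of_card_le h2 (by rw [h3, ← h1])
  have h5 : z' ∈ S.filter (fun w => μ w = μ z) :=
    Finset.mem_filter.2 ⟨(hmem z').2 hz', hm.symm⟩
  rw [← h4, Finset.mem_image] at h5
  obtain ⟨k, -, hk⟩ := h5
  exact ⟨k, hk.symm⟩

end Pool.Agent.LSF
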