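import Pool.Agent.LSF.WDefs

/-!
WInv: the inverse of an equivariant bijection; permutations.

Complete proof. `winv`: `b' := Function.invFunOn b X`. `b' (b x) = x` for `x ∈ X`
(`Set.BijOn.invOn_invFunOn`), `b (b' y) = y` for `y ∈ U`, `Set.BijOn b' U X`. Equivariance: `y ∈ U`,
`y = b x`, `x ∈ X`: `b' (τ y) = b' (τ (b x)) = b' (b (τ x)) = τ x = τ (b' y)` (`τ x ∈ X` by `InvX`).
`wfx_mono`: clear. `wfull_sym`: apply `FullSeq` with `N = i + 1` and the family that is the given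
permutation at `i` and the identity elsewhere (`Function.update`).
-/

namespace Pool.Agent.LSF

theorem winv {K : Type} [Field K] [CharZero K] (A X U : Set K) (b : K → K) (h : EqB A X U b)
    (hX : InvX A X) : ∃ b' : K → K, EqB A U X b' ∧ (∀ x ∈ X, b' (b x) = x) ∧
      ∀ y ∈ U, b (b' y) = y := by
  classical
  have h1 : ∀ x ∈ X, Function.invFunOn b X (b x) = x := fun x hx =>
    h.bij.injOn (Function.invFunOn_mem ⟨x, hx, rfl⟩) hx (Function.invFunOn_eq ⟨x, hx, rfl⟩)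
  have h2 : ∀ y ∈ U, b (Function.invFunOn b X y) = y := by
    intro y hy
    obtain ⟨x, hx, rfl⟩ := h.bij.surjOn hy
    rw [h1 x hx]
  refine ⟨Function.invFunOn b X, ⟨⟨?_, ?_, ?_⟩, ?_⟩, h1, h2⟩
  · intro y hy
    obtain ⟨x, hx, rfl⟩ := h.bij.surjOn hy
    rw [h1 x hx]
    exact hx
  · intro y hy y' hy' e
    rw [← h2 y hy, ← h2 y' hy', e]
  · intro x hx
    exact ⟨b x, h.bij.mapsTo hx, h1 x hx⟩
  · intro τ hτ y hy
    obtain ⟨x, hx, rfl⟩ := h.bij.surjOn hy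
    rw [← h.equi τ hτ x hx, h1 _ (hX τ hτ x hx), h1 x hx]

theorem wfx_mono {K : Type} [Field K] [CharZero K] (A A₁ : Set K) (hs : A₁ ⊆ A) :
    (∀ τ : K ≃+* K, Fx A τ → Fx A₁ τ) ∧ (∀ X : Set K, SymOn A X → SymOn A₁ X) ∧
    (∀ X : ℕ → Set K, FullSeq A X → FullSeq A₁ X) ∧ ∀ X : Set K, InvX A₁ X → InvX A X := by
  have h0 : ∀ τ : K ≃+* K, Fx A τ → Fx A₁ τ := fun τ h => ⟨h.1, fun x hx => h.2 x (hs hx)⟩
  refine ⟨h0, fun X h π => ?_, fun X h N π => ?_, fun X h τ hτ => h τ (h0 τ hτ)⟩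
  · obtain ⟨τ, hτ, h1⟩ := h π
    exact ⟨τ, h0 τ hτ, h1⟩
  · obtain ⟨τ, hτ, h1⟩ := h N π
    exact ⟨τ, h0 τ hτ, h1⟩

theorem wfull_sym {K : Type} [Field K] [CharZero K] (A : Set K) (X : ℕ → Set K)
    (h : FullSeq A X) (i : ℕ) : SymOn A (X i) := by
  classical
  intro π
  obtain ⟨τ, hτ, h1⟩ := h (i + 1) (Function.update (fun j => (1 : Equiv.Perm (X j))) i π)
  refine ⟨τ, hτ, fun x => ?_⟩
  have h2 := h1 i (Nat.lt_succ_self i) x
  rw [Function.update_self] at h2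
  exact h2

end Pool.Agent.LSF
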