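import Pool.Agent.LSF.BG3
import Pool.Agent.LSF.WAl

/-!
WSy: automorphisms of `ℂ` from automorphisms of `K`.

Complete proof. Apply `ext_iso` (BG3) with the field `K0` (countable: `acl_countable`), the index
type `↥Y` (countable), `x := fun y => φ y`, `y := fun y => φ (τ y)`. The hypothesis: let
`F : MvPolynomial ↥Y K0`. Every coefficient of `F` is `φ c` with `c` an algebraic number of `K`
(`wal_k0`), so there is `F₀ : MvPolynomial ↥Y (algebraicClosure ℚ K)` (or
`F₀ : MvPolynomial ↥Y K` with algebraic coefficients) mapped to `F` by `φ`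
(`MvPolynomial.map_surjective` for the surjective ring homomorphism
`algebraicClosure ℚ K →+* K0` induced by `φ`). Then `aeval (φ ∘ val) F = φ (F₀(val))` and
`aeval (φ ∘ τ ∘ val) F = φ (F₀(τ ∘ val)) = φ (τ (F₀(val)))`, since `τ` fixes the coefficients of
`F₀`. `φ` and `τ` are injective: both vanish iff `F₀(val) = 0`.
-/

namespace Pool.Agent.LSF

theorem wsy_g {K : Type} [Field K] [IsAlgClosed K] [CharZero K] (φ : K →+* ℂ) :
    ∃ g : K0 →+* K, (∀ c, φ (g c) = c) ∧ ∀ c, IsAlgebraic ℚ (g c) := by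
  choose! g hg1 hg2 using fun (c : K0) => (wal_k0 φ (c : ℂ)).1 c.2
  refine ⟨{ toFun := g, map_one' := ?_, map_mul' := ?_, map_zero' := ?_, map_add' := ?_ },
    hg2, hg1⟩
  · apply φ.injective; rw [hg2, map_one]; rfl
  · intro x y; apply φ.injective; rw [map_mul, hg2, hg2, hg2]; rfl
  · apply φ.injective; rw [hg2, map_zero]; rfl
  · intro x y; apply φ.injective; rw [map_add, hg2, hg2, hg2]; rfl

theorem wsy (K : Type) [Field K] [IsAlgClosed K] [CharZero K] (φ : K →+* ℂ) (τ : K ≃+* K)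
    (hτ : ∀ x, IsAlgebraic ℚ x → τ x = x) (Y : Set K) (hY : Y.Countable) :
    ∃ σ : ℂ ≃ₐ[K0] ℂ, ∀ y ∈ Y, σ (φ y) = φ (τ y) := by
  obtain ⟨g, hg1, hg2⟩ := wsy_g φ
  have hYc : Countable ↥Y := hY
  have h1 : algebraMap K0 ℂ = φ.comp g := by
    ext c
    exact (hg1 c).symm
  have h2 : algebraMap K0 ℂ = (φ.comp (τ : K →+* K)).comp g := by
    ext c
    simp only [RingHom.comp_apply, RingHom.coe_coe]
    rw [hτ _ (hg2 c)]
    exact (hg1 c).symm
  obtain ⟨σ, hσ⟩ := ext_iso K0 (acl_countable ∅ Set.countable_empty)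
    (fun y : ↥Y => φ (y : K)) (fun y : ↥Y => φ (τ (y : K))) (by
      intro F
      have e1 : MvPolynomial.aeval (fun y : ↥Y => φ (y : K)) F
          = φ (MvPolynomial.eval₂ g (fun y : ↥Y => (y : K)) F) := by
        rw [MvPolynomial.aeval_def, h1]
        exact (MvPolynomial.eval₂_comp_left φ g (fun y : ↥Y => (y : K)) F).symm
      have e2 : MvPolynomial.aeval (fun y : ↥Y => φ (τ (y : K))) F
          = φ (τ (MvPolynomial.eval₂ g (fun y : ↥Y => (y : K)) F)) := by
        rw [MvPolynomial.aeval_def, h2]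
        have := MvPolynomial.eval₂_comp_left (φ.comp (τ : K →+* K)) g
          (fun y : ↥Y => (y : K)) F
        simp only [RingHom.comp_apply, RingHom.coe_coe] at this
        rw [this]
        rfl
      rw [e1, e2, map_eq_zero, map_eq_zero, map_eq_zero])
  exact ⟨σ, fun y hy => hσ ⟨y, hy⟩⟩

end Pool.Agent.LSF
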