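import Pool.Agent.LSF.WLk
import Pool.Agent.LSF.WSy
import Pool.Agent.LSF.WInv

/-!
WL (from WXs): the linking data.
-/

namespace Pool.Agent.LSF

open Polynomial Pool.Agent.LenSpec

theorem wl_alg_mono {K : Type} [Field K] [CharZero K] {A B : Set K} (h : A ⊆ B) {x : K}
    (hx : IsAlgebraic (IntermediateField.adjoin ℚ A) x) :
    IsAlgebraic (IntermediateField.adjoin ℚ B) x := by
  have hle : IntermediateField.adjoin ℚ A ≤ IntermediateField.adjoin ℚ B :=
    IntermediateField.adjoin.mono _ _ _ h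
  letI := (IntermediateField.inclusion hle).toRingHom.toAlgebra
  haveI : IsScalarTower (IntermediateField.adjoin ℚ A) (IntermediateField.adjoin ℚ B) K :=
    IsScalarTower.of_algebraMap_eq (fun x => rfl)
  exact hx.tower_top _

theorem WL (wxs : WXsS) : WLS := by
  classical
  intro K _ _ _ φ d v u m β i₁ MM hd hcv hcu hm hm1 hMM hfull heq
  -- notation
  let k := Fintype.card (VI d ⊕ VI d)
  let e : Fin k ≃ VI d ⊕ VI d := (Fintype.equivFin _).symm
  let a₀ : Fin k → K := Sum.elim v u ∘ e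
  have hR : Set.range a₀ = Set.range v ∪ Set.range u := by
    show Set.range (Sum.elim v u ∘ e) = _
    rw [e.surjective.range_comp, Set.Sum.elim_range]
  set A₁ : Set K := Set.range v ∪ Set.range u with hA₁
  let X : ℕ → Set K := fun i => XS (nP d v) (nQ d v) (m i)
  let U : ℕ → Set K := fun i => XS (nP d u) (nQ d u) (m i)
  have hv := fun i => wxs K φ d (m i) v hd hcv (hm1 i)
  have hu := fun i => wxs K φ d (m i) u hd hcu (hm1 i)
  have hXfin : ∀ i, (X i).Finite := fun i => (hv i).2.2.1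
  have hUfin : ∀ i, (U i).Finite := fun i => (hu i).2.2.1
  have hXV : ∀ i, XV d (phv φ v) (m i) = φ '' X i := fun i => (hv i).2.1
  have hUV : ∀ i, XV d (phv φ u) (m i) = φ '' U i := fun i => (hu i).2.1
  have hXa : ∀ i, ∀ x ∈ X i, IsAlgebraic (IntermediateField.adjoin ℚ (Set.range a₀)) x := by
    intro i x hx
    rw [hR]
    exact wl_alg_mono Set.subset_union_left ((hv i).2.2.2.1 x hx)
  have hUa : ∀ i, ∀ x ∈ U i, IsAlgebraic (IntermediateField.adjoin ℚ (Set.range a₀)) x := by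
    intro i x hx
    rw [hR]
    exact wl_alg_mono Set.subset_union_right ((hu i).2.2.2.1 x hx)
  have hXi : ∀ i, InvX A₁ (X i) := by
    intro i τ hτ x hx
    exact (hv i).2.2.2.2 τ (fun j => hτ.2 _ (Or.inl ⟨j, rfl⟩)) x hx
  have hUi : ∀ i, InvX A₁ (U i) := by
    intro i τ hτ x hx
    exact (hu i).2.2.2.2 τ (fun j => hτ.2 _ (Or.inr ⟨j, rfl⟩)) x hx
  have h1 : ∀ i, i₁ ≤ i → ∃ N D : MvPolynomial (Option (Fin k)) K0, ∀ x ∈ X i,
      mev D (fun i => φ (a₀ i)) (φ x) ≠ 0 ∧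
      φ (β i x) = mev N (fun i => φ (a₀ i)) (φ x) / mev D (fun i => φ (a₀ i)) (φ x) := by
    intro i hi
    refine wlk K φ k a₀ (X i) (U i) (β i) (hXfin i) (hXa i) (hUa i) ?_ ?_
    · rw [hR]; exact hXi i
    · rw [hR]; exact heq i hi
  choose! N D hND using h1
  have h2 : ∀ i, i₁ ≤ i → ∃ b' : K → K, EqB A₁ (U i) (X i) b' ∧ (∀ x ∈ X i, b' (β i x) = x) ∧
      ∀ y ∈ U i, β i (b' y) = y := fun i hi => winv A₁ (X i) (U i) (β i) (heq i hi) (hXi i)
  choose! β' hβ' using h2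
  have h3 : ∀ i, i₁ ≤ i → ∃ N D : MvPolynomial (Option (Fin k)) K0, ∀ x ∈ U i,
      mev D (fun i => φ (a₀ i)) (φ x) ≠ 0 ∧
      φ (β' i x) = mev N (fun i => φ (a₀ i)) (φ x) / mev D (fun i => φ (a₀ i)) (φ x) := by
    intro i hi
    refine wlk K φ k a₀ (U i) (X i) (β' i) (hUfin i) (hUa i) (hXa i) ?_ ?_
    · rw [hR]; exact hUi i
    · rw [hR]; exact (hβ' i hi).1
  choose! N' D' hND' using h3
  let idx : ℕ → ℕ := fun n => if h : ∃ i, i₁ ≤ i ∧ m i = n then h.choose else 0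
  have hidx : ∀ i, i₁ ≤ i → idx (m i) = i := by
    intro i hi
    have h : ∃ j, i₁ ≤ j ∧ m j = m i := ⟨i, hi, rfl⟩
    show (if h : ∃ j, i₁ ≤ j ∧ m j = m i then h.choose else 0) = i
    rw [dif_pos h]
    exact hm.injective h.choose_spec.2
  let L : LinkD k := ⟨fun n => N (idx n), fun n => D (idx n), fun n => N' (idx n),
    fun n => D' (idx n)⟩
  let a : Fin k → ℂ := fun i => φ (a₀ i)
  have F1 : ∀ i, i₁ ≤ i → ∀ x ∈ X i, mev (L.D (m i)) a (φ x) ≠ 0 ∧
      L.b (m i) a (φ x) = φ (β i x) := by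
    intro i hi x hx
    have h := hND i hi x hx
    have hD : L.D (m i) = D i := by show D (idx (m i)) = D i; rw [hidx i hi]
    have hN : L.N (m i) = N i := by show N (idx (m i)) = N i; rw [hidx i hi]
    refine ⟨by rw [hD]; exact h.1, ?_⟩
    unfold LinkD.b
    rw [hD, hN]
    exact h.2.symm
  have F2 : ∀ i, i₁ ≤ i → ∀ x ∈ U i, mev (L.D' (m i)) a (φ x) ≠ 0 ∧
      L.swap.b (m i) a (φ x) = φ (β' i x) := by
    intro i hi x hx
    have h := hND' i hi x hx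
    have hD : L.D' (m i) = D' i := by show D' (idx (m i)) = D' i; rw [hidx i hi]
    have hN : L.N' (m i) = N' i := by show N' (idx (m i)) = N' i; rw [hidx i hi]
    refine ⟨by rw [hD]; exact h.1, ?_⟩
    show mev (L.N' (m i)) a (φ x) / mev (L.D' (m i)) a (φ x) = _
    rw [hD, hN]
    exact h.2.symm
  have hbX : ∀ i, i₁ ≤ i → ∀ x ∈ X i, β i x ∈ U i := fun i hi x hx => (heq i hi).bij.mapsTo hx
  have hbU : ∀ i, i₁ ≤ i → ∀ x ∈ U i, β' i x ∈ X i :=
    fun i hi x hx => (hβ' i hi).1.bij.mapsTo hx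
  refine ⟨k, L, a, ?_, fun i hi x hx => (F1 i hi x hx).2, ?_, ?_, ?_⟩
  · intro y
    constructor
    · rintro ⟨i, rfl⟩
      have : a₀ i ∈ A₁ := by rw [← hR]; exact ⟨i, rfl⟩
      rcases this with ⟨j, hj⟩ | ⟨j, hj⟩
      · exact Or.inl ⟨j, by show φ (v j) = φ (a₀ i); rw [hj]⟩
      · exact Or.inr ⟨j, by show φ (u j) = φ (a₀ i); rw [hj]⟩
    · rintro (⟨j, rfl⟩ | ⟨j, rfl⟩)
      · have : v j ∈ Set.range a₀ := by rw [hR]; exact Or.inl ⟨j, rfl⟩
        obtain ⟨i, hi⟩ := this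
        exact ⟨i, by show φ (a₀ i) = φ (v j); rw [hi]⟩
      · have : u j ∈ Set.range a₀ := by rw [hR]; exact Or.inr ⟨j, rfl⟩
        obtain ⟨i, hi⟩ := this
        exact ⟨i, by show φ (a₀ i) = φ (u j); rw [hi]⟩
  · intro n hn x hx
    obtain ⟨i, hi, rfl⟩ := (hMM n).1 hn
    rw [hXV i] at hx
    obtain ⟨x₀, hx₀, rfl⟩ := hx
    obtain ⟨f1, f2⟩ := F1 i hi x₀ hx₀
    obtain ⟨f3, f4⟩ := F2 i hi (β i x₀) (hbX i hi x₀ hx₀)
    refine ⟨f1, ?_, ?_, ?_⟩
    · rw [f2, hUV i]; exact ⟨_, hbX i hi x₀ hx₀, rfl⟩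
    · rw [f2]; exact f3
    · rw [f2, f4, (hβ' i hi).2.1 x₀ hx₀]
  · intro n hn y hy
    obtain ⟨i, hi, rfl⟩ := (hMM n).1 hn
    rw [hUV i] at hy
    obtain ⟨y₀, hy₀, rfl⟩ := hy
    obtain ⟨f1, f2⟩ := F2 i hi y₀ hy₀
    obtain ⟨f3, f4⟩ := F1 i hi (β' i y₀) (hbU i hi y₀ hy₀)
    refine ⟨f1, ?_, ?_, ?_⟩
    · rw [f2, hXV i]; exact ⟨_, hbU i hi y₀ hy₀, rfl⟩
    · rw [f2]; exact f3
    · rw [f2, f4, (hβ' i hi).2.2 y₀ hy₀]
  · intro S hS π hπ
    have h4 : ∀ i, ∃ ρ : Equiv.Perm (X i), m i ∈ S → ∀ x : X i,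
        φ (ρ x : K) = π (m i) (φ (x : K)) := by
      intro i
      by_cases hi : m i ∈ S
      · have hb : Set.BijOn (π (m i)) (φ '' X i) (φ '' X i) := by
          have := hπ _ hi
          rwa [hXV i] at this
        let E : X i ≃ (φ '' X i : Set ℂ) := Equiv.Set.image φ (X i) φ.injective
        let P : (φ '' X i : Set ℂ) ≃ (φ '' X i : Set ℂ) := hb.equiv _
        refine ⟨(E.trans P).trans E.symm, fun _ x => ?_⟩
        have h5 : (E (((E.trans P).trans E.symm) x) : ℂ) = P (E x) := by simp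
        have h6 : ∀ z : X i, (E z : ℂ) = φ (z : K) := fun z => rfl
        rw [h6] at h5
        rw [h5]
        rfl
      · exact ⟨Equiv.refl _, fun h => absurd h hi⟩
    choose ρ hρ using h4
    obtain ⟨τ, hτ, hτρ⟩ := hfull (S.sup id + 1) ρ
    have hτA : ∀ x ∈ A₁, τ x = x := hτ.2
    let Y : Set K := A₁ ∪ ⋃ i ∈ Set.Iio (S.sup id + 1), X i
    have hY : Y.Countable := by
      refine Set.Countable.union ?_ ?_
      · rw [hA₁]
        exact ((Set.finite_range v).union (Set.finite_range u)).countable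
      · refine Set.Countable.biUnion (Set.to_countable _) ?_
        intro i _
        exact (hXfin i).countable
    obtain ⟨σ, hσ⟩ := wsy K φ τ hτ.1 Y hY
    refine ⟨σ, ?_, ?_⟩
    · intro i
      have : a₀ i ∈ A₁ := by rw [← hR]; exact ⟨i, rfl⟩
      show σ (φ (a₀ i)) = φ (a₀ i)
      rw [hσ _ (Or.inl this), hτA _ this]
    · intro n hn x hx
      obtain ⟨i, hi, rfl⟩ := (hMM n).1 (hS n hn)
      rw [hXV i] at hx
      obtain ⟨x₀, hx₀, rfl⟩ := hx
      have hlt : i < S.sup id + 1 := by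
        have h7 : m i ≤ S.sup id := Finset.le_sup (f := id) hn
        have h8 := hm.le_apply (x := i)
        omega
      rw [hσ _ (Or.inr (Set.mem_biUnion hlt hx₀))]
      have h9 := hτρ i hlt ⟨x₀, hx₀⟩
      have h10 := hρ i hn ⟨x₀, hx₀⟩
      rw [← h10, ← h9]

end Pool.Agent.LSF
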