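import Pool.Agent.LSF.BG9
import Pool.Agent.LSF.WDefs

/-!
WC1: a linked pair such that `v` is not algebraic over `u` has a conjugate with one parameter.
-/

namespace Pool.Agent.LSF

open Polynomial Pool.Agent.LenSpec Metric

theorem wp_aut {d : ℕ} {MM : Set ℕ} {k : ℕ} {L : LinkD k} {v u : VI d → ℂ} {a : Fin k → ℂ}
    (h : WP d MM k L v u a) (σ : ℂ ≃ₐ[K0] ℂ) :
    WP d MM k L (fun i => σ (v i)) (fun i => σ (u i)) (fun i => σ (a i)) := by
  obtain ⟨-, -, -, hXv, -, hVGv⟩ := aut_px d (σ : ℂ ≃+* ℂ) v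
  obtain ⟨-, -, -, hXu, -, -⟩ := aut_px d (σ : ℂ ≃+* ℂ) u
  have hXv' : ∀ n, XV d (fun i => σ (v i)) n = σ '' XV d v n := hXv
  have hXu' : ∀ n, XV d (fun i => σ (u i)) n = σ '' XV d u n := hXu
  have hr : ∀ (w : VI d → ℂ) (x : ℂ), x ∈ ACL (Set.range w) →
      σ x ∈ ACL (Set.range (fun i => σ (w i))) := by
    intro w x hx
    have := acl_aut (σ : ℂ ≃+* ℂ) _ _ hx
    rw [← Set.range_comp] at this
    exact this
  have hinj : Function.Injective (σ : ℂ → ℂ) := σ.injective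
  refine ⟨ai_aut (σ : ℂ ≃+* ℂ) v h.aiv, hVGv MM h.vgv, ?_, ?_, ?_, ?_, ?_, h.prime, h.inf⟩
  · intro i
    rcases h.aa i with ⟨j, hj⟩ | ⟨j, hj⟩
    · exact Or.inl ⟨j, by simp only [hj]⟩
    · exact Or.inr ⟨j, by simp only [hj]⟩
  · intro m hm x hx
    rw [hXv'] at hx
    obtain ⟨x, hx, rfl⟩ := hx
    obtain ⟨h2, h3, h4⟩ := h.lnk m hm x hx
    refine ⟨?_, ?_, ?_⟩
    · rw [b_aut, hXu']
      exact ⟨_, h2, rfl⟩
    · rw [b_aut, mev_aut]
      exact (map_ne_zero_iff σ hinj).2 h3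
    · rw [b_aut, b_aut, h4]
  · intro m hm y hy
    rw [hXu'] at hy
    obtain ⟨y, hy, rfl⟩ := hy
    exact hr u _ (h.uacl m hm y hy)
  · intro m hm i
    rw [hXv']
    exact acl_aut (σ : ℂ ≃+* ℂ) _ _ (h.rankv m hm i)
  · intro m hm
    rw [hXu']
    exact (h.ufin m hm).image _

theorem wc1 {d : ℕ} {MM : Set ℕ} {k : ℕ} {L : LinkD k} {v u : VI d → ℂ} {a : Fin k → ℂ}
    (h : WP d MM k L v u a) (hn : ¬ ∀ i, v i ∈ ACL (Set.range u)) :
    ∃ (A : IntermediateField ℚ ℂ) (t : ℂ) (v' u' : VI d → ℂ) (a' : Fin k → ℂ) (n : ℕ) (z : ℂ),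
      WS d MM k L A t v' u' a' n z := by
  classical
  -- a maximal set of indices
  let P : Finset (VI d) → Prop := fun I =>
    ¬ ∀ j, v j ∈ ACL (Set.range u ∪ v '' (I : Set (VI d)))
  have hP0 : P ∅ := by
    show ¬ ∀ j, v j ∈ ACL (Set.range u ∪ v '' ((∅ : Finset (VI d)) : Set (VI d)))
    rw [Finset.coe_empty, Set.image_empty, Set.union_empty]
    exact hn
  obtain ⟨I, hI, hmax⟩ := ((Finset.univ : Finset (Finset (VI d))).filter P).exists_max_image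
    Finset.card ⟨∅, by simp only [Finset.mem_filter, Finset.mem_univ, true_and]; exact hP0⟩
  have hIP : P I := (Finset.mem_filter.1 hI).2
  have hmax' : ∀ J, P J → J.card ≤ I.card := fun J hJ =>
    hmax J (Finset.mem_filter.2 ⟨Finset.mem_univ _, hJ⟩)
  set T : Set ℂ := Set.range u ∪ v '' (I : Set (VI d)) with hT
  set A : IntermediateField ℚ ℂ := ACL T with hA
  have hTfin : T.Finite := (Set.finite_range u).union (I.finite_toSet.image _)
  have hAcnt : (A : Set ℂ).Countable := acl_countable T hTfin.countable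
  have hAc : IsAlgClosed A := acl_isAlgClosed T
  have hK : K0 ≤ A := acl_mono ∅ T (Set.empty_subset _)
  have huA : ∀ i, u i ∈ A := fun i => acl_sub T (Or.inl ⟨i, rfl⟩)
  obtain ⟨i₁, hi₁⟩ : ∃ i, v i ∉ A := by
    by_contra hno
    push Not at hno
    exact hIP hno
  have hi₁I : i₁ ∉ I := fun hmem => hi₁ (acl_sub T (Or.inr ⟨i₁, hmem, rfl⟩))
  have hall : ∀ j, v j ∈ ACL (insert (v i₁) (A : Set ℂ)) := by
    have h1 : ¬ P (insert i₁ I) := by
      intro hP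
      have := hmax' _ hP
      rw [Finset.card_insert_of_notMem hi₁I] at this
      omega
    have h2 : ∀ j, v j ∈ ACL (Set.range u ∪ v '' ((insert i₁ I : Finset (VI d)) : Set (VI d))) := by
      by_contra hc
      exact h1 hc
    intro j
    refine acl_le _ _ ?_ (h2 j)
    rintro x (⟨i, rfl⟩ | ⟨i, hi, rfl⟩)
    · exact acl_sub _ (Set.mem_insert_of_mem _ (huA i))
    · rw [Finset.coe_insert] at hi
      rcases hi with rfl | hi
      · exact acl_sub _ (Set.mem_insert _ _)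
      · exact acl_sub _ (Set.mem_insert_of_mem _ (acl_sub T (Or.inr ⟨i, hi, rfl⟩)))
  obtain ⟨n, hnM⟩ := h.inf.nonempty
  have hn1 : 1 ≤ n := (h.prime n hnM).one_lt.le
  have hx : ∃ x ∈ XV d v n, x ∉ A := by
    by_contra hno
    push Not at hno
    exact hi₁ (acl_closed A hAc _ (acl_mono _ _ (fun x hx => hno x hx) (h.rankv n hnM i₁)))
  obtain ⟨x₀, ⟨z₀, hz₀, hx₀⟩, hx₀A⟩ := hx
  have hx₀v : x₀ ∈ ACL (Set.range v) := by
    rw [← hx₀]
    exact (px_acl d n hn1 v h.vgv.nf z₀ hz₀).2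
  have hx₀i : x₀ ∈ ACL (insert (v i₁) (A : Set ℂ)) := by
    refine acl_le _ _ ?_ hx₀v
    rintro _ ⟨j, rfl⟩
    exact hall j
  have hself : ∀ x, x ∉ A → x ∉ ACL (A : Set ℂ) := fun x hx hc => hx (acl_closed A hAc x hc)
  have hex : v i₁ ∈ ACL (insert x₀ (A : Set ℂ)) :=
    acl_exch (A : Set ℂ) x₀ (v i₁) hx₀i (hself _ hx₀A)
  have hvx : ∀ j, v j ∈ ACL (insert x₀ (A : Set ℂ)) := by
    intro j
    refine acl_le _ _ ?_ (hall j)
    rintro x (rfl | hx)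
    · exact hex
    · exact acl_sub _ (Set.mem_insert_of_mem _ hx)
  obtain ⟨s₀, hs₀, hs₀A⟩ := BG3_circ (A : Set ℂ) hAcnt
  obtain ⟨σ, hσ⟩ := ext_trans A hAcnt hAc x₀ s₀ hx₀A hs₀A
  obtain ⟨τ, hτ⟩ := bg9_restrict A hK σ
  have hσA : ∀ x ∈ A, σ x = x := fun x hx => σ.commutes ⟨x, hx⟩
  have hWP := wp_aut h τ
  obtain ⟨-, hmu, hpx, -, -, -⟩ := aut_px d (σ : ℂ ≃+* ℂ) v
  refine ⟨A, s₀, fun i => τ (v i), fun i => τ (u i), fun i => τ (a i), n, σ z₀,
    hWP, hAcnt, hAc, hK, ?_, ?_, hs₀A, hs₀, hnM, ?_, ?_⟩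
  · intro i
    show τ (u i) ∈ A
    rw [hτ, hσA _ (huA i)]
    exact huA i
  · intro i
    show τ (v i) ∈ _
    rw [hτ]
    have h3 := acl_aut (σ : ℂ ≃+* ℂ) _ _ (hvx i)
    have h4 : (σ : ℂ ≃+* ℂ) '' (insert x₀ (A : Set ℂ)) = insert s₀ (A : Set ℂ) := by
      rw [Set.image_insert_eq]
      have h5 : (σ : ℂ ≃+* ℂ) x₀ = s₀ := hσ
      rw [h5]
      congr 1
      ext x
      constructor
      · rintro ⟨y, hy, rfl⟩
        have : (σ : ℂ ≃+* ℂ) y = y := hσA y hy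
        rw [this]
        exact hy
      · intro hx
        exact ⟨x, hx, hσA x hx⟩
    rw [h4] at h3
    exact h3
  · have h6 : (fun i => τ (v i)) = fun i => σ (v i) := funext fun i => hτ _
    rw [h6]
    exact (hpx n z₀).2 hz₀
  · have h6 : (fun i => τ (v i)) = fun i => σ (v i) := funext fun i => hτ _
    rw [h6]
    have h7 : mu d (fun i => σ (v i)) n (σ z₀) = σ (mu d v n z₀) := hmu n z₀
    rw [h7]
    have h8 : mu d v n z₀ = x₀ := hx₀
    rw [h8]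
    exact hσ

end Pool.Agent.LSF
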