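import Pool.Agent.LSF.BG10
import Pool.Agent.LSF.WDefs

/-!
WC2: the family through a linked pair with one parameter.

Complete proof. `z`, `v i`, `a i` are in `ACL (insert t A)`: `v i` by `vA`; `a i ∈ range v ∪ range u`,
`u i ∈ A`; `z ∈ ACL (range v)` (`px_acl`) `≤ ACL (insert t A)` (`acl_le`). `slice_ext` (BG4) for the
tuple `(v, a, z)` (index `Fin N` via an equivalence with `(VI d ⊕ Fin k) ⊕ Unit`) gives `R₁ > 0` and
holomorphic functions `V`, `As`, `Zs` on `ball t R₁` with the values `v, a, z` at `t`, and for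
`s ∉ A` an automorphism `σ` over `A`, `σ t = s`, with `σ v = V s` etc. `V : ℂ → VI d → ℂ` is
differentiable (`differentiableOn_pi`). `Nf d (V s)` for all `s` in a ball `ball t R₂`, `R₂ ≤ R₁`:
`bg9_nf` in lsf_BG9.lean. For `s ∉ A`: `VG d MM (V s)` by `aut_px`. So `Fam d MM t R₂ V` with the
exceptional set `(A : Set ℂ)`, countable.
Label: `bg10_point` in lsf_BG10.lean for `W := V`, `f := Zs`, `g := fun s => s`:
`PX d (V t) n (Zs t)` is `px`, the multiplier is `t ≠ 1` (`1 ∈ A`, `t ∉ A`), `g t = t`; the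
conjugation hypothesis is satisfied as `σ t = s`. It gives `ρ > 0`, `ρ ≤ R₂` with
`PX d (V s) n (Zs s)` and `mu d (V s) n (Zs s) = s` for `s ∈ ball t ρ`. Take `R := ρ`:
`Lab d V t n ρ Zs`: `one`: `‖t‖ = 1`; `ne1`: `t ≠ 1`; `nc`: at any `s ∈ ball t ρ`, `s ≠ t`, the
multiplier is `s ≠ t`. `Fam` on the smaller ball.
-/

namespace Pool.Agent.LSF

open Polynomial Pool.Agent.LenSpec Metric

theorem wc2 {d : ℕ} {MM : Set ℕ} {k : ℕ} {L : LinkD k} {A : IntermediateField ℚ ℂ} {t : ℂ}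
    {v u : VI d → ℂ} {a : Fin k → ℂ} {n : ℕ} {z : ℂ} (h : WS d MM k L A t v u a n z) :
    ∃ (R : ℝ) (V : ℂ → VI d → ℂ) (As : Fin k → ℂ → ℂ) (Zs : ℂ → ℂ),
      WF d MM k A t v a n R V As Zs := by
  classical
  have hw := h.wp
  have hn : 1 ≤ n := (hw.prime n h.nM).one_le
  have hle : ACL (Set.range v) ≤ ACL (insert t (A : Set ℂ)) := by
    apply acl_le
    rintro _ ⟨i, rfl⟩
    exact h.vA i
  have huA : ∀ i, u i ∈ ACL (insert t (A : Set ℂ)) := fun i =>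
    acl_sub _ (Set.mem_insert_of_mem t (h.uA i))
  let I := (VI d ⊕ Fin k) ⊕ Unit
  let e : I ≃ Fin (Fintype.card I) := Fintype.equivFin I
  let w : I → ℂ := Sum.elim (Sum.elim v a) (fun _ => z)
  have hwA : ∀ i, w i ∈ ACL (insert t (A : Set ℂ)) := by
    rintro ((i | i) | i)
    · exact h.vA i
    · show a i ∈ _
      rcases hw.aa i with ⟨j, hj⟩ | ⟨j, hj⟩
      · rw [← hj]; exact h.vA j
      · rw [← hj]; exact huA j
    · exact hle (px_acl d n hn v hw.vgv.nf z h.px).1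
  obtain ⟨R₁, hR₁, Yf, hYd, hYt, hYs⟩ := slice_ext A h.cnt h.closed t h.tA (Fintype.card I)
    (fun j => w (e.symm j)) (fun j => hwA _)
  let W : I → ℂ → ℂ := fun i => Yf (e i)
  have hWd : ∀ i, DifferentiableOn ℂ (W i) (ball t R₁) := fun i => hYd (e i)
  have hWt : ∀ i, W i t = w i := by
    intro i
    have h1 := hYt (e i)
    rw [Equiv.symm_apply_apply] at h1
    exact h1
  have hWs : ∀ s ∈ ball t R₁, s ∉ A → ∃ σ : ℂ ≃ₐ[A] ℂ, σ t = s ∧ ∀ i, σ (w i) = W i s := by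
    intro s hs hsA
    obtain ⟨σ, h1, h2⟩ := hYs s hs hsA
    refine ⟨σ, h1, fun i => ?_⟩
    have h3 := h2 (e i)
    rw [Equiv.symm_apply_apply] at h3
    exact h3
  let V : ℂ → VI d → ℂ := fun s i => W (Sum.inl (Sum.inl i)) s
  let As : Fin k → ℂ → ℂ := fun i => W (Sum.inl (Sum.inr i))
  let Zs : ℂ → ℂ := W (Sum.inr ())
  have hVd : DifferentiableOn ℂ V (ball t R₁) := differentiableOn_pi.mpr fun i => hWd _
  have hV0 : V t = v := funext fun i => hWt _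
  have hZ0 : Zs t = z := hWt _
  obtain ⟨R₂, hR₂, hR₂R, hnf⟩ := bg9_nf d t R₁ hR₁ V hVd (by rw [hV0]; exact hw.vgv.nf)
  have hs2 : ball t R₂ ⊆ ball t R₁ := ball_subset_ball hR₂R
  have hvg : ∀ s ∈ ball t R₁, s ∉ A → VG d MM (V s) := by
    intro s hs hsA
    obtain ⟨σ, -, hσ⟩ := hWs s hs hsA
    obtain ⟨-, -, -, -, -, hVG⟩ := aut_px d (σ : ℂ ≃+* ℂ) v
    have h1 := hVG MM hw.vgv
    have e1 : (fun i => (σ : ℂ ≃+* ℂ) (v i)) = V s := funext fun i =>
      hσ (Sum.inl (Sum.inl i))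
    rw [e1] at h1
    exact h1
  have ht1 : t ≠ 1 := fun h' => h.tA (by rw [h']; exact A.one_mem)
  obtain ⟨ρ, hρ, hρR, hprop⟩ := bg10_point d n hn t R₂ hR₂ V (hVd.mono hs2) hnf (A : Set ℂ)
    h.cnt Zs (fun s => s) ((hWd _).mono hs2) differentiableOn_id (by
      intro s hs hsA
      obtain ⟨σ, h1, hσ⟩ := hWs s (hs2 hs) hsA
      refine ⟨(σ : ℂ ≃+* ℂ), fun i => ?_, ?_, h1⟩
      · rw [hV0]
        exact hσ (Sum.inl (Sum.inl i))
      · rw [hZ0]
        exact hσ (Sum.inr ()))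
    (by rw [hV0, hZ0]; exact h.px) (by rw [hV0, hZ0, h.mu]; exact ht1)
    (by rw [hV0, hZ0]; exact h.mu.symm)
  have hs3 : ball t ρ ⊆ ball t R₂ := ball_subset_ball hρR
  have hs1 : ball t ρ ⊆ ball t R₁ := hs3.trans hs2
  refine ⟨ρ, V, As, Zs, ⟨⟨hρ, hVd.mono hs1, fun s hs => hnf s (hs3 hs), (A : Set ℂ), h.cnt,
    fun s hs hsA => hvg s (hs1 hs) hsA⟩, ⟨hρ, (hWd _).mono hs1, fun s hs => (hprop s hs).1,
      ?_, ?_, ?_⟩, fun i => (hWd _).mono hs1, hV0, ?_⟩⟩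
  · rw [(hprop t (mem_ball_self hρ)).2]
    exact h.one
  · rw [(hprop t (mem_ball_self hρ)).2]
    exact ht1
  · refine ⟨t + ρ / 2, ?_, ?_⟩
    · rw [mem_ball, dist_eq_norm, add_sub_cancel_left]
      have : ‖((ρ : ℂ) / 2)‖ = ρ / 2 := by
        rw [norm_div, Complex.norm_real, Real.norm_of_nonneg hρ.le]
        simp
      rw [this]
      linarith
    · have hm : t + (ρ : ℂ) / 2 ∈ ball t ρ := by
        rw [mem_ball, dist_eq_norm, add_sub_cancel_left]
        have : ‖((ρ : ℂ) / 2)‖ = ρ / 2 := by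
          rw [norm_div, Complex.norm_real, Real.norm_of_nonneg hρ.le]
          simp
        rw [this]
        linarith
      rw [(hprop t (mem_ball_self hρ)).2, (hprop _ hm).2]
      intro h0
      have h1 : (ρ : ℂ) / 2 = 0 := by linear_combination h0
      have h2 : (ρ : ℂ) = 0 := by linear_combination 2 * h1
      have h3 : ρ = 0 := by exact_mod_cast h2
      exact hρ.ne' h3
  · intro s hs hsA
    obtain ⟨σ, h1, hσ⟩ := hWs s (hs1 hs) hsA
    exact ⟨σ, h1, fun i => hσ (Sum.inl (Sum.inl i)), fun i => hσ (Sum.inl (Sum.inr i))⟩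

end Pool.Agent.LSF
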