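import Pool.Agent.LSF.BG8
import Pool.Agent.LSF.WDefs

/-!
WC3: all periods split.

Complete proof of `wc3`. Let `e ∈ ball c R`. For `y ∈ Y` put `Nf y s := mev (L.N' l) (As s) y`,
`Df y s := mev (L.D' l) (As s) y`, holomorphic on `ball c R` (`BG8_mev` in lsf_BG8.lean, with a
constant function), so analytic at `e`. Bound (`BG8_bound` in lsf_BG8.lean): there are `r₁ > 0` and
`C` with `‖mu d (V s) l z‖ ≤ C` for all `s ∈ closedBall e r₁`, `PX d (V s) l z`. For each `y ∈ Y`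
`mer_dich` (BG8) gives one of three cases: (a) `Df y` vanishes near `e`; (b) there is a holomorphic
`g_y` on a ball `ball e r_y` with `Nf y s / Df y s = g_y s` for `s ≠ e` in it; (c)
`C < ‖Nf y s / Df y s‖` for `s ≠ e` near `e`. Choose `r > 0` small enough for all `y ∈ Y` (finite) with
`ball e r ⊆ ball c R`. Let `Y_b ⊆ Y` be the set of the `y` in case (b); the functions of `Split` are
the `g_y`, `y ∈ Y_b` (index `Fin (card Y_b)`), the countable exceptional set is `A ∪ {e}`. Let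
`s ∈ ball e r` off this set, `PX d (V s) l z`, `x := mu d (V s) l z ∈ XV d (V s) l`. By `hx` there is
`y ∈ Y` with `Df y s ≠ 0` and `x = Nf y s / Df y s`. Case (a) is impossible as `Df y s ≠ 0`; case (c)
as `‖x‖ ≤ C`; so case (b), `x = g_y s`. This is the argument of `split_transfer` (BG8).
`wc3f`: for `s ∉ A` let `σ` be the automorphism of `WF.conj`, `σ' : ℂ ≃ₐ[K0] ℂ` the same map over
`K0` (`K0 ≤ A`). `x ∈ XV d (V s) l`, `V s = σ v`, so `x = σ x₁`, `x₁ ∈ XV d v l` (`aut_px`). By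
`WP.lnk` `y := L.b l a x₁ ∈ XV d u l =: Y`, `mev (L.D' l) a y ≠ 0`,
`x₁ = L.swap.b l a y = mev (L.N' l) a y / mev (L.D' l) a y`. `y ∈ ACL (range u) ≤ A` (`uacl`, `uA`,
`acl_le`, `acl_closed`), so `σ y = y`, and by `mev_aut`
`mev (L.D' l) (As s) y = σ (mev (L.D' l) a y) ≠ 0`, the same for `N'`, so
`x = σ x₁ = mev (L.N' l) (As s) y / mev (L.D' l) (As s) y`. `Y` is finite (`ufin`).
-/

namespace Pool.Agent.LSF

open Polynomial Pool.Agent.LenSpec Metric

open Filter in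
theorem wc3 (d : ℕ) (MM : Set ℕ) (k : ℕ) (L : LinkD k) (l : ℕ) (hl : 1 ≤ l) (A : Set ℂ)
    (hA : A.Countable) (c : ℂ) (R : ℝ) (V : ℂ → VI d → ℂ) (As : Fin k → ℂ → ℂ)
    (hV : Fam d MM c R V) (hAs : ∀ i, DifferentiableOn ℂ (As i) (ball c R)) (Y : Set ℂ)
    (hY : Y.Finite)
    (hx : ∀ s ∈ ball c R, s ∉ A → ∀ x ∈ XV d (V s) l, ∃ y ∈ Y,
      mev (L.D' l) (fun i => As i s) y ≠ 0 ∧
      x = mev (L.N' l) (fun i => As i s) y / mev (L.D' l) (fun i => As i s) y)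
    (e : ℂ) (he : e ∈ ball c R) : Split d V l e := by
  have hd : 2 ≤ d := (hV.nf e he).two_le
  obtain ⟨r₀, hr₀, hr₀s⟩ := Metric.isOpen_iff.1 isOpen_ball e he
  obtain ⟨r₁, hr₁0, hr₁r₀⟩ : ∃ r₁ > 0, r₁ < r₀ := ⟨r₀ / 2, by linarith, by linarith⟩
  have hcb : closedBall e r₁ ⊆ ball c R := (closedBall_subset_ball hr₁r₀).trans hr₀s
  obtain ⟨C, hC⟩ := BG8_bound d hd l hl V (ball c R) (closedBall e r₁) hV.diff hV.nf
    (isCompact_closedBall _ _) hcb
  have hbc : ball e r₁ ⊆ ball c R := ball_subset_closedBall.trans hcb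
  have hNan : ∀ (F : MvPolynomial (Option (Fin k)) K0) (y : ℂ),
      AnalyticAt ℂ (fun s => mev F (fun j => As j s) y) e := by
    intro F y
    have h1 := BG8_mev F As (fun _ => y) (ball e r₁) (fun j => (hAs j).mono hbc)
      (differentiableOn_const _)
    exact h1.analyticAt (isOpen_ball.mem_nhds (mem_ball_self hr₁0))
  have key : ∀ y : ℂ, ∃ g : ℂ → ℂ, (∀ᶠ s in nhds e, DifferentiableAt ℂ g s) ∧
      ∀ᶠ s in nhds e, s ≠ e → (mev (L.D' l) (fun j => As j s) y = 0 ∨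
        C < ‖mev (L.N' l) (fun j => As j s) y / mev (L.D' l) (fun j => As j s) y‖ ∨
        mev (L.N' l) (fun j => As j s) y / mev (L.D' l) (fun j => As j s) y = g s) := by
    intro y
    rcases mer_dich _ _ e (hNan (L.N' l) y) (hNan (L.D' l) y) with h | ⟨ρ, hρ, g, hy1, hy2⟩ | h
    · refine ⟨fun _ => 0, Eventually.of_forall fun s => differentiableAt_const _, ?_⟩
      filter_upwards [h] with s hs _
      exact Or.inl hs
    · refine ⟨g, ?_, ?_⟩
      · filter_upwards [ball_mem_nhds e hρ] with s hs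
        exact hy1.differentiableAt (isOpen_ball.mem_nhds hs)
      · filter_upwards [ball_mem_nhds e hρ] with s hs hse
        exact Or.inr (Or.inr (hy2 s hs hse).2)
    · refine ⟨fun _ => 0, Eventually.of_forall fun s => differentiableAt_const _, ?_⟩
      have h1 := eventually_nhdsWithin_iff.1 (h C)
      filter_upwards [h1] with s hs hse
      exact Or.inr (Or.inl (hs hse))
  choose g hg1 hg2 using key
  have hYf : Finite Y := hY.to_subtype
  obtain ⟨n, ⟨E⟩⟩ := Finite.exists_equiv_fin Y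
  have e1 := eventually_all.2 fun i : Fin n => hg1 (E.symm i : ℂ)
  have e2 := eventually_all.2 fun i : Fin n => hg2 (E.symm i : ℂ)
  obtain ⟨ρ, hρ, hρ2⟩ := Metric.eventually_nhds_iff_ball.1
    (e1.and (e2.and (ball_mem_nhds e hr₁0)))
  refine ⟨ρ, hρ, n, fun i => g (E.symm i : ℂ),
    fun i s hs => ((hρ2 s hs).1 i).differentiableWithinAt,
    A ∪ {e}, hA.union (Set.countable_singleton e), ?_⟩
  intro s hs hsZ z hz
  obtain ⟨-, h2, h3⟩ := hρ2 s hs
  have hse : s ≠ e := fun h => hsZ (Or.inr h)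
  have hsA : s ∉ A := fun h => hsZ (Or.inl h)
  obtain ⟨y, hyY, hD, hb⟩ := hx s (hbc h3) hsA _ ⟨z, hz, rfl⟩
  refine ⟨E ⟨y, hyY⟩, ?_⟩
  have h5 := h2 (E ⟨y, hyY⟩) hse
  rw [Equiv.symm_apply_apply] at h5
  have hb' : mu d (V s) l z =
    mev (L.N' l) (fun i => As i s) y / mev (L.D' l) (fun i => As i s) y := hb
  change mu d (V s) l z = g ((E.symm (E ⟨y, hyY⟩) : Y) : ℂ) s
  rw [Equiv.symm_apply_apply]
  rcases h5 with h4 | h4 | h4
  · exact absurd h4 hD
  · change C < ‖mev (L.N' l) (fun i => As i s) y / mev (L.D' l) (fun i => As i s) y‖ at h4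
    rw [← hb'] at h4
    exact absurd (hC s (ball_subset_closedBall h3) z hz) (not_le.2 h4)
  · rw [hb']
    exact h4

theorem wc3f {d : ℕ} {MM : Set ℕ} {k : ℕ} {L : LinkD k} {A : IntermediateField ℚ ℂ} {t : ℂ}
    {v u : VI d → ℂ} {a : Fin k → ℂ} {n : ℕ} {z : ℂ} (h : WS d MM k L A t v u a n z) {R : ℝ}
    {V : ℂ → VI d → ℂ} {As : Fin k → ℂ → ℂ} {Zs : ℂ → ℂ}
    (hF : WF d MM k A t v a n R V As Zs) (l : ℕ) (hl : l ∈ MM) (e : ℂ) (he : e ∈ ball t R) :
    Split d V l e := by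
  refine wc3 d MM k L l (h.wp.prime l hl).one_lt.le (A : Set ℂ) h.cnt t R V As hF.fam hF.dA
    (XV d u l) (h.wp.ufin l hl) ?_ e he
  intro s hs hsA x hx
  obtain ⟨σ, -, hσv, hσa⟩ := hF.conj s hs hsA
  have hV : V s = fun i => σ (v i) := by
    funext i
    exact (hσv i).symm
  have hAs : (fun i => As i s) = fun i => σ (a i) := by
    funext i
    exact (hσa i).symm
  obtain ⟨σ', hσ'⟩ : ∃ σ' : ℂ ≃ₐ[K0] ℂ, ∀ x, σ' x = σ x :=
    ⟨AlgEquiv.ofRingEquiv (f := (σ : ℂ ≃+* ℂ)) (fun r => σ.commutes (⟨r.1, h.base r.2⟩ : A)),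
      fun x => rfl⟩
  have hmev : ∀ (F : MvPolynomial (Option (Fin k)) K0) (y : ℂ), σ y = y →
      mev F (fun i => As i s) y = σ (mev F a y) := by
    intro F y hy
    have h1 := mev_aut σ' F a y
    rw [hσ', hσ'] at h1
    rw [← h1, hy, hAs]
    simp only [hσ']
  rw [hV] at hx
  have hXV : XV d (fun i => σ (v i)) l = σ '' XV d v l := (aut_px d (σ : ℂ ≃+* ℂ) v).2.2.2.1 l
  rw [hXV] at hx
  obtain ⟨x₁, hx₁, rfl⟩ := hx
  obtain ⟨h1, h2, h3⟩ := h.wp.lnk l hl x₁ hx₁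
  have hyA : L.b l a x₁ ∈ A := by
    refine acl_closed A h.closed _ ?_
    refine acl_mono _ _ ?_ (h.wp.uacl l hl _ h1)
    rintro _ ⟨i, rfl⟩
    exact h.uA i
  have hσy : σ (L.b l a x₁) = L.b l a x₁ := σ.commutes (⟨_, hyA⟩ : A)
  refine ⟨L.b l a x₁, h1, ?_, ?_⟩
  · rw [hmev _ _ hσy]
    exact (map_ne_zero σ).2 h2
  · rw [hmev _ _ hσy, hmev _ _ hσy, ← map_div₀]
    exact congrArg σ h3.symm

end Pool.Agent.LSF
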