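import Pool.Agent.LSF.BF7
import Pool.Agent.LSF.WC1
import Pool.Agent.LSF.WC2
import Pool.Agent.LSF.WC3

/-!
WCL: `v` is algebraic over `u`.

Complete proof. Otherwise `wc1` gives `WS`, `wc2` a family `V` over `ball t R` with a label, and
`wc3f`: `Split d V l e` for all `l ∈ MM`, `e ∈ ball t R`. `f1p` (BF7) for the family `V`, with
`c := t`, `hc : VG d MM (V t)` (`V t = v`, `WP.vgv`), `n₀ := n`, the label, `C := 0`, `ρ := R`, gives
`l₀`; `MM` is infinite: take `l ∈ MM`, `l ≥ l₀`, `E = ∅`: there is `s ∈ ball t R` with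
`¬ Split d V l s`, a contradiction.
-/

namespace Pool.Agent.LSF

open Polynomial Pool.Agent.LenSpec Metric

theorem wcl {d : ℕ} {MM : Set ℕ} {k : ℕ} {L : LinkD k} {v u : VI d → ℂ} {a : Fin k → ℂ}
    (h : WP d MM k L v u a) : ∀ i, v i ∈ ACL (Set.range u) := by
  by_contra hn
  obtain ⟨A, t, v', u', a', n, z, hS⟩ := wc1 h hn
  obtain ⟨R, V, As, Zs, hF⟩ := wc2 hS
  have hc : VG d MM (V t) := by
    rw [hF.V0]
    exact hS.wp.vgv
  have hR : 0 < R := hF.fam.pos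
  obtain ⟨l₀, hl₀⟩ := f1p d MM hS.wp.prime t R V hF.fam hc n hS.nM R le_rfl Zs hF.lab 0 R hR
  obtain ⟨l, hl, hle⟩ := hS.wp.inf.exists_gt l₀
  obtain ⟨s, hs, -, -, -, hsp⟩ := hl₀ l hl hle.le ∅ (by simp)
  exact hsp (wc3f hS hF l hl s hs)

end Pool.Agent.LSF
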