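import Pool.Agent.LSF.WRed
import Pool.Agent.LSF.WL
import Pool.Agent.LSF.WCL
import Pool.Agent.LSF.BG2

/-!
WMain: BMain from theorem B.

Complete proof. `f'.num = nP d v`, `f'.den = nQ d v`, `g'.num = nP d u`, `g'.den = nQ d u`, so
`IsCoprime (nP d u) (nQ d u)` and `IsCoprime (nP d v) (nQ d v)`. `A₁ := Set.range v ∪ Set.range u ⊆ A`.
`X i := XS (nP d v) (nQ d v) (m i)`, `U i := XS (nP d u) (nQ d u) (m i)`.
1. WXs (for `v` and `u`, all `n = m i ≥ 2`): finite, algebraic over `ℚ(range v)` resp.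
`ℚ(range u)`, so over `ℚ(A₁)`; `InvX A₁`. WVg: `VGK d v`, `n * ncard + d = d^n` for primes `n`, rank.
`wred` gives `r₀`. Growth: there is `n₀` such that `n * c + d = d^n`, `n ≥ n₀` imply
`max r₀ 5 ≤ c` (`d ≥ 2`; `d^n - d ≥ 2^n - 2 ≥ n * max r₀ 5` for large `n`; more precisely
`d^n - d = d (d^(n-1) - 1) ≥ 2 (2^(n-1) - 1)`). Let `i₁` be such that `m i ≥ max n₀ 5` for `i ≥ i₁`
(`i₁ := max n₀ 5`, `i ≤ m i`). For `i ≥ i₁`: `EqB A₁ (X i) (U i) (β i)` (`wred`, `wfull_sym`).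
`FullSeq A₁` (`wfx_mono`). `MM := {n | ∃ i, i₁ ≤ i ∧ m i = n}`, infinite (`m` injective), all
elements are primes `≥ 5`.
2. WL: `k, L, a`. Write `v' = phv φ v`, `u' = phv φ u`. `WP d MM k L v' u' a`: `aiv` (`wal_ind`),
`vgv` (WVt), `aa`, `lnk` (from WL), `uacl`: `XV d u' n = φ '' U`, `wal_iff`
(`φ '' range u = range u'`), `rankv`: WVg rank and `wal_iff` (`φ '' X = XV d v' n`), `ufin`: image.
`wcl`: `v' i ∈ ACL (range u')` for all `i`. `ai_basis` (BG2) for `x := v'`, `y := u'`: `u'` is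
independent and `u' j ∈ ACL (range v')`. Back to `K` (`wal_ind`, `wal_iff`): `InterA v u`.
3. DH: there is `g` with `AlgebraicIndependent ℚ g.coef`, `MobConj g g'`. `Nf d u`: `two_le`, `cop`,
`one_ne` is the hypothesis, `top_ne`: the coefficient of `nP d u` at `d - 1` is a coordinate of `u`
(`d ≥ 2`), nonzero since `u` is algebraically independent (`AlgebraicIndependent.ne_zero`). WVg for
`g, g', u`: `VGK d u`, rank. So `GP d MM k L v' u' a`: `aiv, aiu`; `vu, uv` above; `av`: `a i` is in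
`range v' ∪ range u'`; `va, ua`: WL; `vgv, vgu`: WVt; `lnk, lnk', sym`: WL; `rankv, ranku` as above;
`fin, card`: `XV d v' n = φ '' X i`, `(φ '' X).ncard = X.ncard ≥ 5` (`Set.ncard_image_of_injective`);
`prime`, `inf`.
4. Theorem B gives `bad`. Let `i₀` be `≥ i₁` and such that `m i ∉ bad` for `i ≥ i₀` (`m i ≥ i`, take
`i₀ := max i₁ (bad.sup id + 1)`). For `i ≥ i₀`: `al, ka` with the equation at all points of
`XV d v' (m i) = φ '' X i`, `L.b (m i) a (φ x) = φ (β i x)`: this is `DiscAut φ (X i) (β i)`.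
-/

namespace Pool.Agent.LSF

open Polynomial Pool.Agent.LenSpec

theorem wmain_sq (n : ℕ) (hn : 4 ≤ n) : n * n ≤ 2 ^ n := by
  induction n, hn using Nat.le_induction with
  | base => norm_num
  | succ n hn ih =>
    rw [pow_succ]
    nlinarith

theorem wgrow (d r : ℕ) (hd : 2 ≤ d) : ∃ n₀ : ℕ, ∀ n c : ℕ, n₀ ≤ n → n * c + d = d ^ n →
    r ≤ c := by
  refine ⟨max 4 (r + 1), fun n c hn h => ?_⟩
  by_contra hcon
  rw [not_le] at hcon
  have h4 : 4 ≤ n := (le_max_left _ _).trans hn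
  have hr : r + 1 ≤ n := (le_max_right _ _).trans hn
  have hc : c + 2 ≤ n := by omega
  obtain ⟨q, rfl⟩ : ∃ q, n = q + 1 := ⟨n - 1, by omega⟩
  have h1 : 2 ^ q ≤ d ^ q := Nat.pow_le_pow_left hd q
  have h2 := wmain_sq (q + 1) h4
  rw [pow_succ] at h h2
  have h3 : (q + 1) * (c + 2) ≤ (q + 1) * (q + 1) := Nat.mul_le_mul_left _ hc
  have h6 : 1 ≤ 2 ^ q := Nat.one_le_two_pow
  have h5 : 2 ^ q * 2 + d ≤ d ^ q * d + 2 := by
    obtain ⟨f, rfl⟩ : ∃ f, d = 2 + f := ⟨d - 2, by omega⟩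
    have h7 : 2 ^ q * (2 + f) ≤ (2 + f) ^ q * (2 + f) := Nat.mul_le_mul_right _ h1
    have h8 : 1 * f ≤ 2 ^ q * f := Nat.mul_le_mul_right _ h6
    nlinarith
  have h9 : (q + 1) * (c + 2) = (q + 1) * c + 2 * (q + 1) := by ring
  omega

theorem wmain_mono {K : Type} [Field K] [CharZero K] {S T : Set K} (h : S ⊆ T) {x : K}
    (hx : IsAlgebraic (IntermediateField.adjoin ℚ S) x) :
    IsAlgebraic (IntermediateField.adjoin ℚ T) x := by
  have hle : IntermediateField.adjoin ℚ S ≤ IntermediateField.adjoin ℚ T :=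
    IntermediateField.adjoin.mono ℚ S T h
  let _ : Algebra (IntermediateField.adjoin ℚ S) (IntermediateField.adjoin ℚ T) :=
    (IntermediateField.inclusion hle).toRingHom.toAlgebra
  have _ : IsScalarTower (IntermediateField.adjoin ℚ S) (IntermediateField.adjoin ℚ T) K :=
    IsScalarTower.of_algebraMap_eq fun _ => rfl
  exact hx.extendScalars (IntermediateField.inclusion hle).toRingHom.injective

theorem wmain_top {K : Type} [Field K] [CharZero K] (d : ℕ) (hd : 2 ≤ d) (u : VI d → K)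
    (hu : AlgebraicIndependent ℚ u) : (nP d u).coeff (d - 1) ≠ 0 := by
  have h1 : (nP d u).coeff (d - 1) = u (Sum.inl ⟨d - 2, by omega⟩) := by
    rw [nP, finsetSum_coeff, Finset.sum_eq_single (⟨d - 2, by omega⟩ : Fin (d - 1))]
    · rw [coeff_C_mul_X_pow, if_pos]
      show d - 1 = d - 2 + 1
      omega
    · intro j _ hj
      rw [coeff_C_mul_X_pow, if_neg]
      intro h2
      apply hj
      ext
      show j.val = d - 2
      omega
    · intro h
      exact absurd (Finset.mem_univ _) h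
  rw [h1]
  exact hu.ne_zero _

theorem WMain (wxs : WXsS) (wvg : WVgS) (wvt : WVtS) (wl : WLS) (dh : DHS) (b : ThmBS) :
    BMainS := by
  intro K _ _ _ φ d f f' g' v u A m β hd hf hff hv hnf hvi hu hu1 hA hvA huA hm hmp hfull hE
  obtain ⟨hvn, hvd⟩ := id hv
  obtain ⟨hun, hud⟩ := id hu
  simp only [hvn, hvd] at hfull hE ⊢
  simp only [hun, hud] at hE
  have hcv : IsCoprime (nP d v) (nQ d v) := hnf.cop
  have hcu : IsCoprime (nP d u) (nQ d u) := by
    rw [← hun, ← hud]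
    exact g'.coprime
  have hs : Set.range v ∪ Set.range u ⊆ A := by
    rintro x (⟨i, rfl⟩ | ⟨i, rfl⟩)
    · exact hvA i
    · exact huA i
  obtain ⟨hvgv, hnum, hrk⟩ := wvg K d f f' v hd hf hff hv hnf
  have hXv := fun n (hn : 1 ≤ n) => wxs K φ d n v hd hcv hn
  have hXu := fun n (hn : 1 ≤ n) => wxs K φ d n u hd hcu hn
  have hm1 : ∀ i, 1 ≤ m i := fun i => (hmp i).one_lt.le
  have hiv : ∀ n, 1 ≤ n → InvX (Set.range v ∪ Set.range u) (XS (nP d v) (nQ d v) n) :=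
    fun n hn τ hτ => (hXv n hn).2.2.2.2 τ fun i => hτ.2 _ (Or.inl ⟨i, rfl⟩)
  have hiu : ∀ n, 1 ≤ n → InvX (Set.range v ∪ Set.range u) (XS (nP d u) (nQ d u) n) :=
    fun n hn τ hτ => (hXu n hn).2.2.2.2 τ fun i => hτ.2 _ (Or.inr ⟨i, rfl⟩)
  obtain ⟨r₀, hr₀⟩ := wred K A (Set.range v ∪ Set.range u) hA hs
  obtain ⟨n₀, hn₀⟩ := wgrow d (max r₀ 5) hd
  obtain ⟨i₁, hi₁⟩ : ∃ i₁, i₁ = max n₀ 5 := ⟨_, rfl⟩
  have hmi : ∀ i, i₁ ≤ i → n₀ ≤ m i ∧ 5 ≤ m i := by
    intro i hi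
    have h1 := hm.le_apply (x := i)
    rw [hi₁, max_le_iff] at hi
    exact ⟨hi.1.trans h1, hi.2.trans h1⟩
  have hcard : ∀ i, i₁ ≤ i → r₀ ≤ (XS (nP d v) (nQ d v) (m i)).ncard ∧
      5 ≤ (XS (nP d v) (nQ d v) (m i)).ncard := fun i hi =>
    max_le_iff.1 (hn₀ _ _ (hmi i hi).1 (hnum _ (hmp i)))
  have hE₁ : ∀ i, i₁ ≤ i → EqB (Set.range v ∪ Set.range u) (XS (nP d v) (nQ d v) (m i))
      (XS (nP d u) (nQ d u) (m i)) (β i) := by
    intro i hi
    refine hr₀ _ _ _ ?_ ?_ (hiv _ (hm1 i)) (hiu _ (hm1 i)) (hXv _ (hm1 i)).2.2.1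
      (hcard i hi).1 (wfull_sym A _ hfull i) (hE i)
    · exact fun x hx => wmain_mono Set.subset_union_left ((hXv _ (hm1 i)).2.2.2.1 x hx)
    · exact fun x hx => wmain_mono Set.subset_union_right ((hXu _ (hm1 i)).2.2.2.1 x hx)
  have hfull₁ : FullSeq (Set.range v ∪ Set.range u) (fun i => XS (nP d v) (nQ d v) (m i)) :=
    (wfx_mono A _ hs).2.2.1 _ hfull
  obtain ⟨MM, hMM⟩ : ∃ MM : Set ℕ, ∀ n, n ∈ MM ↔ ∃ i, i₁ ≤ i ∧ m i = n :=
    ⟨{n | ∃ i, i₁ ≤ i ∧ m i = n}, fun n => Iff.rfl⟩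
  obtain ⟨k, L, a, ha, hb, hl, hl', hsym⟩ :=
    wl K φ d v u m β i₁ MM hd hcv hcu hm hm1 hMM hfull₁ hE₁
  have hpr : ∀ n ∈ MM, n.Prime := by
    intro n hn
    obtain ⟨i, -, rfl⟩ := (hMM n).1 hn
    exact hmp i
  have hone : ∀ n ∈ MM, 1 ≤ n := fun n hn => (hpr n hn).one_lt.le
  have htwo : ∀ n ∈ MM, 2 ≤ n := fun n hn => (hpr n hn).two_le
  have hfive : ∀ n ∈ MM, 5 ≤ n := by
    intro n hn
    obtain ⟨i, hi, rfl⟩ := (hMM n).1 hn
    exact (hmi i hi).2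
  have hinf : MM.Infinite := by
    have h1 : (m '' Set.Ici i₁).Infinite := (Set.infinite_coe_iff.1 inferInstance :
      (Set.Ici i₁).Infinite).image hm.injective.injOn
    refine h1.mono ?_
    rintro _ ⟨i, hi, rfl⟩
    exact (hMM _).2 ⟨i, hi, rfl⟩
  have hrv : φ '' Set.range v = Set.range (phv φ v) := by
    rw [← Set.range_comp]
    rfl
  have hru : φ '' Set.range u = Set.range (phv φ u) := by
    rw [← Set.range_comp]
    rfl
  have hXVv : ∀ n ∈ MM, XV d (phv φ v) n = φ '' XS (nP d v) (nQ d v) n :=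
    fun n hn => (hXv n (hone n hn)).2.1
  have hXVu : ∀ n ∈ MM, XV d (phv φ u) n = φ '' XS (nP d u) (nQ d u) n :=
    fun n hn => (hXu n (hone n hn)).2.1
  have hai : AlgebraicIndependent ℚ (phv φ v) := (wal_ind φ v).1 hvi
  have hvgt : VG d MM (phv φ v) := wvt K φ d MM v hvgv htwo
  have hrankv : ∀ n ∈ MM, ∀ i, phv φ v i ∈ ACL (XV d (phv φ v) n) := by
    intro n hn i
    rw [hXVv n hn]
    exact (wal_iff φ _ _).1 (hrk n (hpr n hn) (hfive n hn) i)
  have hWP : WP d MM k L (phv φ v) (phv φ u) a := by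
    refine ⟨hai, hvgt, fun i => (ha (a i)).1 ⟨i, rfl⟩, ?_, ?_, hrankv, ?_, hpr, hinf⟩
    · intro n hn x hx
      exact (hl n hn x hx).2
    · intro n hn y hy
      rw [hXVu n hn] at hy
      obtain ⟨y₀, hy₀, rfl⟩ := hy
      rw [← hru]
      exact (wal_iff φ _ _).1 ((hXu n (hone n hn)).2.2.2.1 y₀ hy₀)
    · intro n hn
      rw [hXVu n hn]
      exact (hXu n (hone n hn)).2.2.1.image _
  have hcl := wcl hWP
  obtain ⟨haiu, hclu⟩ := ai_basis (phv φ v) (phv φ u) le_rfl hai hcl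
  have hui : AlgebraicIndependent ℚ u := (wal_ind φ u).2 haiu
  have halg : ∀ i, IsAlgebraic (IntermediateField.adjoin ℚ (Set.range v)) (u i) := by
    intro i
    rw [wal_iff φ, hrv]
    exact hclu i
  have halg' : ∀ i, IsAlgebraic (IntermediateField.adjoin ℚ (Set.range u)) (v i) := by
    intro i
    rw [wal_iff φ, hru]
    exact hcl i
  refine ⟨⟨hvi, hui, halg, halg'⟩, ?_⟩
  obtain ⟨g, hg, hgg⟩ := dh K d f f' g' v u hf hff hvn hvd hun hud hvi hui halg halg'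
  have hnfu : Nf d u := ⟨hd, hcu, hu1, wmain_top d hd u hui⟩
  obtain ⟨hvgu, -, hrku⟩ := wvg K d g g' u hd hg hgg hu hnfu
  have hGP : GP d MM k L (phv φ v) (phv φ u) a := by
    refine ⟨hai, haiu, hclu, hcl, ?_, ?_, ?_, hvgt, wvt K φ d MM u hvgu htwo, hl, hl', hsym,
      hrankv, ?_, ?_, ?_, hpr, hinf⟩
    · intro i
      rcases (ha (a i)).1 ⟨i, rfl⟩ with h | h
      · exact acl_sub _ h
      · obtain ⟨j, hj⟩ := h
        rw [← hj]
        exact hclu j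
    · intro i
      exact (ha _).2 (Or.inl ⟨i, rfl⟩)
    · intro i
      exact (ha _).2 (Or.inr ⟨i, rfl⟩)
    · intro n hn i
      rw [hXVu n hn]
      exact (wal_iff φ _ _).1 (hrku n (hpr n hn) (hfive n hn) i)
    · intro n hn
      rw [hXVv n hn]
      exact (hXv n (hone n hn)).2.2.1.image _
    · intro n hn
      rw [hXVv n hn, Set.ncard_image_of_injective _ φ.injective]
      obtain ⟨i, hi, rfl⟩ := (hMM n).1 hn
      exact (hcard i hi).2
  obtain ⟨bad, hbad⟩ := b d MM k L (phv φ v) (phv φ u) a hGP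
  refine ⟨max i₁ (bad.sup id + 1), fun i hi => ?_⟩
  rw [max_le_iff] at hi
  have hmMM : m i ∈ MM := (hMM _).2 ⟨i, hi.1, rfl⟩
  have hnb : m i ∉ bad := by
    intro h
    have h1 : m i ≤ bad.sup id := Finset.le_sup (f := id) h
    have h2 := hm.le_apply (x := i)
    omega
  obtain ⟨al, ka, h1, h2, h3, h4⟩ := hbad (m i) hmMM hnb
  refine ⟨al, ka, h1, h2, h3, fun x hx => ?_⟩
  have h5 := h4 (φ x) (by rw [hXVv _ hmMM]; exact ⟨x, hx, rfl⟩)
  rw [hb i hi.1 x hx] at h5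
  exact h5

end Pool.Agent.LSF
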