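import Pool.Agent.LSF.WDefs

/-!
WVg: the normal form of the generic map is in very general position; number of multipliers; rank.

Complete proof. `IsV f' v` says `f'.num = nP d v`, `f'.den = nQ d v`. AFG: `Good f` and all
multipliers of `f` are `≠ 0`. MC1: `f.multSpec n = f'.multSpec n` for all `n`. FN0: `NoInf` for
`f'`. FGd: `Good f'`. XSC: `MX d f.num f.den n = MX d f'.num f'.den n` and
`XS f.num f.den n = XS f'.num f'.den n` for `n ≥ 1`.
`fix_ne`: let `ev z = z` (`ev = ev (nP d v) (nQ d v)`). Then `Per f'.num f'.den k z` for all `k`: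
poles: `(nQ d v).eval z ≠ 0`, since otherwise `ev z = P z / 0 = 0`, so `z = 0`, but
`(nQ d v).eval 0 = 1`. `mult .. k z = (mult .. 1 z)^k` (all factors are `derivAt .. z`), and
`Good.mult_ne` says `≠ 1`.
`mult_ne`: `≠ 1` by `Good.mult_ne`. `≠ 0`: by G1 (for `f'`) the multiplier is an element of
`f'.multSpec n = f.multSpec n` (`Per` point, so in the roots of `fixPoly`), `≠ 0` by AFG.
`same`: ADst gives it for `f` and `n ≥ 2`, so `n * (XS f n).ncard = (perF f n).card` (G3). As
`XS f n = XS f' n` and `(perF f n).card = card (MX f n) = card (MX f' n) = (perF f' n).card`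
(`Multiset.card_map`), WCn for `f'` gives the claim.
Number: `n` prime: G3 for `f`: `(perF f n).card + d = d^n`, `n * ncard = card`.
Rank: RANK for `f`, `g := f'`, `v`: algebraic over `ℚ(XS f.num f.den n) = ℚ(XS f'.num f'.den n)`.
-/

namespace Pool.Agent.LSF

open Polynomial Pool.Agent.LenSpec

private theorem wvg_nQ0 {K : Type} [Field K] (d : ℕ) (hd : 2 ≤ d) (v : VI d → K) :
    (nQ d v).eval 0 = 1 := by
  have hd0 : d ≠ 0 := by omega
  simp [nQ, nR, eval_finsetSum, hd0]

private theorem wvg_mult {K : Type} [Field K] (P Q : K[X]) (z : K) (hz : ev P Q z = z) (k : ℕ) :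
    mult P Q k z = (mult P Q 1 z) ^ k := by
  have hit : ∀ j, (ev P Q)^[j] z = z := fun j => Function.iterate_fixed hz j
  unfold mult
  rw [Finset.prod_congr rfl fun j _ => by rw [hit j], Finset.prod_const, Finset.card_range,
    Finset.prod_range_one]
  rfl

theorem WVg (afg : AFGS) (adst : ADstS) (xsc : XSCS) (mc1 : MC1S) (fn0 : FN0S) (fgd : FGdS)
    (g1 : G1S) (g3 : G3S) (rank : RANKS) (wcn : WCnS) : WVgS := by
  intro K _ _ _ d f f' v hd hf hc hv nf
  obtain ⟨hgood, hne⟩ := afg K d f hd hf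
  have hms := mc1 K d f f' (by omega) hc
  have hNo : NoInf d f'.num f'.den := by
    rw [hv.1, hv.2]
    exact fn0 K d v hd
  have hgood' := fgd K d f f' hgood hNo fun n _ => hms n
  have hX := fun n (hn : 1 ≤ n) => xsc K d f f' hgood hgood' (fun n _ => hms n) n hn
  have hcard : ∀ n, 2 ≤ n → n * (XS f.num f.den n).ncard = (perF d f.num f.den n).card :=
    fun n hn => (g3 K d n f hgood (by omega)).2.2.2 (adst K d n f hd hf hn)
  have hperF : ∀ n, 1 ≤ n → (perF d f.num f.den n).card = (perF d f'.num f'.den n).card := by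
    intro n hn
    have h1 := congrArg Multiset.card (hX n hn).1
    rw [MX, MX, Multiset.card_map, Multiset.card_map] at h1
    exact h1
  have hgn := hgood'.mult_ne
  rw [hv.1, hv.2] at hgn
  refine ⟨⟨nf, ?_, ?_, ?_⟩, ?_, ?_⟩
  · intro z hz k hk
    have hQ : (nQ d v).eval z ≠ 0 := by
      intro h0
      have h1 : z = 0 := by
        rw [← hz, ev, h0, div_zero]
      rw [h1, wvg_nQ0 d hd v] at h0
      exact one_ne_zero h0
    have hit : ∀ j, (ev (nP d v) (nQ d v))^[j] z = z := fun j => Function.iterate_fixed hz j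
    rw [← wvg_mult _ _ z hz k]
    exact hgn k z hk ⟨fun j => by rw [hit j]; exact hQ, hit k⟩
  · intro n hn z hz
    refine ⟨hgn n z (by omega) hz.1, ?_⟩
    obtain ⟨-, -, -, h4, h5⟩ := g1 K d n f' hgood' (by omega)
    refine hne n (by omega) _ ?_
    rw [hms n, h5]
    refine Multiset.mem_map.2 ⟨z, (h4 z).2 ?_, ?_⟩
    · rw [hv.1, hv.2]
      exact hz.1
    · rw [hv.1, hv.2]
  · intro n hn
    have h1 := wcn K d n f' hgood' (by omega) (by
      rw [← hperF n (by omega), ← hcard n hn, (hX n (by omega)).2])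
    rw [hv.1, hv.2] at h1
    exact h1
  · intro n hn
    have h1 := (g3 K d n f hgood hn.one_lt.le).1 hn
    rw [← hcard n hn.two_le, (hX n hn.one_lt.le).2, hv.1, hv.2] at h1
    exact h1
  · intro n hn h5 i
    have h1 := rank K d n f f' v hd hgood hf hc hv.1 hv.2 nf hn h5 i
    rw [(hX n hn.one_lt.le).2, hv.1, hv.2] at h1
    exact h1

end Pool.Agent.LSF
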