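import Pool.Agent.LSF.WHom

/-!
WVt (from WXs): very general position over `ℂ`.

Complete proof. Let `v' = phv φ v`. `nf`: `whom`. `fix_ne`: let `fv d v' z = z`. If
`(nQ d v').eval z = 0` then `fv d v' z = _ / 0 = 0`, so `z = 0`, but `(nQ d v').eval 0 = 1`. So
`PX d v' 1 z` (the orbit is constant; the condition on `m` with `0 < m < 1` is empty). By WXs
(`n = 1`) `z = φ z₀` with `PerX (nP d v) (nQ d v) 1 z₀`, so `ev .. z₀ = z₀`, and
`mu d v' 1 z = φ (mult .. 1 z₀)` (`whom`), so `(mu ..)^k = φ ((mult ..)^k) ≠ 1` by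
`VGK.fix_ne` and injectivity. `mult_ne`, `same`: for `n ∈ MM`, `n ≥ 2`, by WXs `z = φ z₀`,
`z' = φ z₀'`; `whom`; injectivity of `φ`; `z' = φ z₀' = φ ((ev ..)^[k] z₀) = (fv d v')^[k] z`
(iterate `whom`, induction on `k`).
-/

namespace Pool.Agent.LSF

open Polynomial Pool.Agent.LenSpec

theorem WVt (wxs : WXsS) : WVtS := by
  intro K _ _ _ φ d MM v hv hMM
  obtain ⟨-, -, h3, h4, h5, h6⟩ := whom φ d v
  obtain ⟨nf, fix_ne, mult_ne, same⟩ := hv
  have hd : 2 ≤ d := nf.two_le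
  have hinj : Function.Injective φ := φ.injective
  have hx : ∀ n, 1 ≤ n → ∀ z, PX d (phv φ v) n z →
      ∃ z₀, PerX (nP d v) (nQ d v) n z₀ ∧ φ z₀ = z :=
    fun n hn => (wxs K φ d n v hd nf.cop hn).1
  have hit : ∀ k z, (fv d (phv φ v))^[k] (φ z) = φ ((ev (nP d v) (nQ d v))^[k] z) := by
    intro k
    induction k with
    | zero => intro z; rfl
    | succ k ih =>
      intro z
      rw [Function.iterate_succ_apply', Function.iterate_succ_apply', ih]
      exact h3 _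
  have hQ0 : (nQ d (phv φ v)).eval 0 = 1 := by
    unfold nQ nR
    rw [eval_add, eval_add, eval_one, eval_pow, eval_X, zero_pow (by omega), eval_finsetSum,
      Finset.sum_eq_zero fun i _ => by simp]
    ring
  refine ⟨h6.2 nf, ?_, ?_, ?_⟩
  · intro z hz k hk
    have hne : (nQ d (phv φ v)).eval z ≠ 0 := by
      intro h0
      have h1 : fv d (phv φ v) z = 0 := by
        show (nP d (phv φ v)).eval z / (nQ d (phv φ v)).eval z = 0
        rw [h0, div_zero]
      have h2 : z = 0 := by rw [← hz, h1]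
      rw [h2, hQ0] at h0
      exact one_ne_zero h0
    have hiter : ∀ k, (fv d (phv φ v))^[k] z = z := fun k => Function.iterate_fixed hz k
    have hpx : PX d (phv φ v) 1 z := by
      refine ⟨⟨fun k => ?_, hiter 1⟩, fun m h1 h2 => by omega⟩
      have h7 : (ev (nP d (phv φ v)) (nQ d (phv φ v)))^[k] z = z := hiter k
      rw [h7]
      exact hne
    obtain ⟨z₀, hz₀, rfl⟩ := hx 1 le_rfl z hpx
    have h7 : mu d (phv φ v) 1 (φ z₀) = φ (mult (nP d v) (nQ d v) 1 z₀) := h4 1 z₀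
    rw [h7, ← map_pow]
    intro h8
    have h9 : (mult (nP d v) (nQ d v) 1 z₀) ^ k = 1 := hinj (by rw [h8, map_one])
    exact fix_ne z₀ hz₀.1.2 k hk h9
  · intro n hn z hz
    obtain ⟨z₀, hz₀, rfl⟩ := hx n (by have := hMM n hn; omega) z hz
    have h7 : mu d (phv φ v) n (φ z₀) = φ (mult (nP d v) (nQ d v) n z₀) := h4 n z₀
    obtain ⟨h8, h9⟩ := mult_ne n (hMM n hn) z₀ hz₀
    rw [h7]
    refine ⟨fun h => h8 (hinj (by rw [h, map_one])), fun h => h9 (hinj (by rw [h, map_zero]))⟩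
  · intro n hn z z' hz hz' he
    have hn1 : 1 ≤ n := by have := hMM n hn; omega
    obtain ⟨z₀, hz₀, rfl⟩ := hx n hn1 z hz
    obtain ⟨z₀', hz₀', rfl⟩ := hx n hn1 z' hz'
    have h7 : mu d (phv φ v) n (φ z₀) = φ (mult (nP d v) (nQ d v) n z₀) := h4 n z₀
    have h8 : mu d (phv φ v) n (φ z₀') = φ (mult (nP d v) (nQ d v) n z₀') := h4 n z₀'
    rw [h7, h8] at he
    obtain ⟨k, hk⟩ := same n (hMM n hn) z₀ z₀' hz₀ hz₀' (hinj he)
    exact ⟨k, by rw [hit, ← hk]⟩

end Pool.Agent.LSF
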