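import Pool.Agent.LSF.WHom
import Pool.Agent.LSF.BG7

/-!
WXs (from A2, A4, FN0): multipliers over `K` and over `ℂ`.
-/

namespace Pool.Agent.LSF

open Polynomial Pool.Agent.LenSpec

theorem wxs_nP_deg {K : Type} [Field K] (d : ℕ) (hd : 2 ≤ d) (v : VI d → K) :
    (nP d v).natDegree < d := by
  have h : (nP d v).natDegree ≤ d - 1 := by
    unfold nP
    refine natDegree_sum_le_of_forall_le _ _ ?_
    intro i _
    refine (natDegree_C_mul_X_pow_le _ _).trans ?_
    have := i.2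
    omega
  omega

theorem wxs_nQ_deg {K : Type} [Field K] (d : ℕ) (hd : 2 ≤ d) (v : VI d → K) :
    (nQ d v).natDegree = d := by
  have h : (1 + nR d v : K[X]).natDegree ≤ d - 1 := by
    refine (natDegree_add_le _ _).trans ?_
    rw [natDegree_one]
    refine max_le (Nat.zero_le _) ?_
    unfold nR
    refine natDegree_sum_le_of_forall_le _ _ ?_
    intro i _
    refine (natDegree_C_mul_X_pow_le _ _).trans ?_
    have := i.2
    omega
  unfold nQ
  rw [natDegree_add_eq_right_of_natDegree_lt]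
  · exact natDegree_X_pow d
  · rw [natDegree_X_pow]
    omega

/-- the map with the parameters `u` -/
noncomputable def wxs_map {K : Type} [Field K] (d : ℕ) (hd : 2 ≤ d) (u : VI d → K)
    (h : IsCoprime (nP d u) (nQ d u)) : RatMap K d where
  num := nP d u
  den := nQ d u
  num_le := (wxs_nP_deg d hd u).le
  den_le := (wxs_nQ_deg d hd u).le
  deg_eq := Or.inr (wxs_nQ_deg d hd u)
  coprime := h

theorem wxs_ne {K : Type} [Field K] [IsAlgClosed K] (a2 : A2S) (fn0 : FN0S) (d n : ℕ)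
    (hd : 2 ≤ d) (hn : 1 ≤ n) (u : VI d → K) (h : IsCoprime (nP d u) (nQ d u)) :
    fixPoly d (nP d u) (nQ d u) n ≠ 0 := by
  intro h0
  have h1 := fn0 K d u hd n hn
  have h2 := (a2 K d n (nP d u) (nQ d u) (by omega) (wxs_nP_deg d hd u).le
    (wxs_nQ_deg d hd u).le (Or.inr (wxs_nQ_deg d hd u)) h).1
  apply h1
  have h3 : (fixPoly d (nP d u) (nQ d u) n).coeff (d ^ n + 1) = 0 := by rw [h0, coeff_zero]
  unfold fixPoly at h3
  rw [coeff_sub, coeff_X_mul, coeff_eq_zero_of_natDegree_lt (Nat.lt_succ_of_le h2), zero_sub,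
    neg_eq_zero] at h3
  exact h3

theorem wxs_fix_map {K K' : Type} [Field K] [Field K'] (φ : K →+* K') (d n : ℕ)
    (u : VI d → K) : fixPoly d (nP d (fun i => φ (u i))) (nQ d (fun i => φ (u i))) n =
      (fixPoly d (nP d u) (nQ d u) n).map φ := by
  unfold fixPoly
  rw [bg7_nP, bg7_nQ, b5_iter_map]
  simp

theorem WXs (a2 : A2S) (a4 : A4S) (fn0 : FN0S) : WXsS := by
  classical
  intro K _ _ _ φ d n u hd hc hn
  have hF := wxs_ne a2 fn0 d n hd hn u hc
  set F := fixPoly d (nP d u) (nQ d u) n with hFdef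
  have hroot : ∀ z, PerX (nP d u) (nQ d u) n z → F.eval z = 0 := by
    intro z hz
    exact (a4 K d n (wxs_map d hd u hc) z (by omega) hn (fn0 K d u hd)).2 hz.1
  have hcC : IsCoprime (nP d (phv φ u)) (nQ d (phv φ u)) := by
    show IsCoprime (nP d (fun i => φ (u i))) (nQ d (fun i => φ (u i)))
    rw [bg7_nP, bg7_nQ]
    exact hc.map (mapRingHom φ)
  have h1 : ∀ z, PX d (phv φ u) n z → ∃ z₀, PerX (nP d u) (nQ d u) n z₀ ∧ φ z₀ = z := by
    intro z hz
    have h2 : (fixPoly d (nP d (phv φ u)) (nQ d (phv φ u)) n).eval z = 0 :=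
      (a4 ℂ d n (wxs_map d hd (phv φ u) hcC) z (by omega) hn (fn0 ℂ d _ hd)).2 hz.1
    have h3 : fixPoly d (nP d (phv φ u)) (nQ d (phv φ u)) n = F.map φ := wxs_fix_map φ d n u
    rw [h3] at h2
    have h4 : z ∈ (F.map φ).roots := by
      rw [mem_roots', IsRoot.def]
      exact ⟨(Polynomial.map_ne_zero_iff φ.injective).2 hF, h2⟩
    rw [(IsAlgClosed.splits F).roots_map φ] at h4
    obtain ⟨z₀, -, rfl⟩ := Multiset.mem_map.1 h4
    refine ⟨z₀, ?_, rfl⟩
    exact ((whom φ d u).2.2.2.2.1 n z₀).1 hz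
  refine ⟨h1, ?_, ?_, ?_, ?_⟩
  · ext x
    constructor
    · rintro ⟨z, hz, hx⟩
      obtain ⟨z₀, hz₀, rfl⟩ := h1 z hz
      refine ⟨mult (nP d u) (nQ d u) n z₀, ⟨z₀, hz₀, rfl⟩, ?_⟩
      rw [← hx]
      exact ((whom φ d u).2.2.2.1 n z₀).symm
    · rintro ⟨_, ⟨z₀, hz₀, rfl⟩, rfl⟩
      exact ⟨φ z₀, ((whom φ d u).2.2.2.2.1 n z₀).2 hz₀, (whom φ d u).2.2.2.1 n z₀⟩
  · have h5 : XS (nP d u) (nQ d u) n ⊆
        (mult (nP d u) (nQ d u) n) '' ((F.roots.toFinset : Finset K) : Set K) := by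
      rintro _ ⟨z, hz, rfl⟩
      refine ⟨z, ?_, rfl⟩
      rw [Finset.mem_coe, Multiset.mem_toFinset, mem_roots', IsRoot.def]
      exact ⟨hF, hroot z hz⟩
    exact ((Finset.finite_toSet _).image _).subset h5
  · rintro _ ⟨z, hz, rfl⟩
    set E := IntermediateField.adjoin ℚ (Set.range u) with hE
    have hzE : IsAlgebraic E z := by
      let uE : VI d → E := fun i => ⟨u i, IntermediateField.subset_adjoin ℚ _ ⟨i, rfl⟩⟩
      have h6 : F = (fixPoly d (nP d uE) (nQ d uE) n).map (algebraMap E K) :=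
        wxs_fix_map (algebraMap E K) d n uE
      refine ⟨fixPoly d (nP d uE) (nQ d uE) n, ?_, ?_⟩
      · intro h0
        rw [h0, Polynomial.map_zero] at h6
        exact hF h6
      · rw [aeval_def, ← eval_map, ← h6]
        exact hroot z hz
    have hzL : z ∈ algebraicClosure E K := mem_algebraicClosure_iff.2 hzE
    let uL : VI d → algebraicClosure E K := fun i => ⟨u i, by
      rw [mem_algebraicClosure_iff]
      exact isAlgebraic_algebraMap (⟨u i, IntermediateField.subset_adjoin ℚ _ ⟨i, rfl⟩⟩ : E)⟩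
    have h7 : mult (nP d u) (nQ d u) n z = algebraMap (algebraicClosure E K) K
        (mult (nP d uL) (nQ d uL) n ⟨z, hzL⟩) :=
      (whom (algebraMap (algebraicClosure E K) K) d uL).2.2.2.1 n ⟨z, hzL⟩
    rw [h7]
    exact mem_algebraicClosure_iff.1 (mult (nP d uL) (nQ d uL) n ⟨z, hzL⟩).2
  · rintro τ hτ _ ⟨z, hz, rfl⟩
    have h8 := whom (τ : K →+* K) d u
    have h9 : (fun i => (τ : K →+* K) (u i)) = u := funext hτ
    rw [h9] at h8
    exact ⟨τ z, (h8.2.2.2.2.1 n z).2 hz, h8.2.2.2.1 n z⟩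

end Pool.Agent.LSF
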