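import Pool.Agent.LSF.RDefs

/-!
XSC: equal spectra have equal multipliers at the points of exact period `n`.
-/

namespace Pool.Agent.LSF

open Polynomial Pool.Agent.LenSpec

theorem XSC_MX (hG2 : G2S) {K : Type} [Field K] [IsAlgClosed K] (d : ℕ) (f g : RatMap K d)
    (hf : Good f) (hg : Good g) (hspec : ∀ n, 1 ≤ n → f.multSpec n = g.multSpec n) (n : ℕ)
    (hn : 1 ≤ n) : MX d f.num f.den n = MX d g.num g.den n := by
  induction n using Nat.strong_induction_on with
  | _ n ih =>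
    have h := hspec n hn
    rw [(hG2 K d n f hf hn).2.1, (hG2 K d n g hg hn).2.1] at h
    have hmem : n ∈ n.divisors := Nat.mem_divisors.2 ⟨dvd_rfl, by omega⟩
    rw [← Finset.add_sum_erase _ _ hmem, ← Finset.add_sum_erase _ _ hmem] at h
    have h2 : ∑ m ∈ n.divisors.erase n,
        (MX d f.num f.den m).map (fun x => x ^ (n / m)) =
        ∑ m ∈ n.divisors.erase n, (MX d g.num g.den m).map (fun x => x ^ (n / m)) := by
      refine Finset.sum_congr rfl fun m hm => ?_
      obtain ⟨hm1, hm2⟩ := Finset.mem_erase.1 hm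
      have hm3 := Nat.divisor_le hm2
      have hm4 : 1 ≤ m := Nat.pos_of_mem_divisors hm2
      rw [ih m (by omega) hm4]
    rw [h2] at h
    have h3 := add_right_cancel h
    rw [Nat.div_self (by omega)] at h3
    simpa using h3

theorem XSC_XS (hG2 : G2S) {K : Type} [Field K] [IsAlgClosed K] (d : ℕ) (f : RatMap K d)
    (hf : Good f) (n : ℕ) (hn : 1 ≤ n) (x : K) :
    x ∈ XS f.num f.den n ↔ x ∈ MX d f.num f.den n := by
  have h1 := (hG2 K d n f hf hn).1
  unfold XS MX
  rw [Set.mem_setOf_eq, Multiset.mem_map]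
  constructor
  · rintro ⟨z, hz, hx⟩
    exact ⟨z, (h1 z).2 hz, hx⟩
  · rintro ⟨z, hz, hx⟩
    exact ⟨z, (h1 z).1 hz, hx⟩

theorem XSC_holds (hG2 : G2S) : XSCS := by
  intro K _ _ d f g hf hg hspec n hn
  have h := XSC_MX hG2 d f g hf hg hspec n hn
  refine ⟨h, ?_⟩
  ext x
  rw [XSC_XS hG2 d f hf n hn, XSC_XS hG2 d g hg n hn, h]

end Pool.Agent.LSF
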