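import Pool.Agent.LSF.AAsm
import Pool.Agent.LSF.BM9
import Pool.Agent.LSF.DG
import Pool.Agent.LSF.DH
import Pool.Agent.LSF.FGd
import Pool.Agent.LSF.FN0
import Pool.Agent.LSF.RANK
import Pool.Agent.LSF.RK1
import Pool.Agent.LSF.RK2
import Pool.Agent.LSF.RK3
import Pool.Agent.LSF.WCn
import Pool.Agent.LSF.WL
import Pool.Agent.LSF.WMain
import Pool.Agent.LSF.WVg
import Pool.Agent.LSF.WVt
import Pool.Agent.LSF.WXs
import Pool.Agent.LSF.XSC
import Pool.Agent.LenSpec.FA2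
import Pool.Agent.LenSpec.MC1
import Pool.Agent.LenSpec.MC2
import Pool.Agent.LenSpec.R5

/-!
Part W put together: BMain.
-/

namespace Pool.Agent.LSF

open Pool.Agent.LenSpec

namespace WAsm

theorem mc1 : MC1S := mc1_holds Asm.b1 Asm.b2 b3_holds
theorem rank : RANKS :=
  RANK_holds RK1_holds RK2_holds (RK3_holds a3_holds Asm.g1 FA2_holds) MC2_holds R1_holds Asm.r5
theorem xsc : XSCS := XSC_holds Asm.g2
theorem fgd : FGdS := FGd_holds a1_holds Asm.a4 Asm.g1
theorem dh : DHS := DH_holds DG_holds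
theorem thmBS : ThmBS := fun _ _ _ _ _ _ _ h => thmB h
theorem wxs : WXsS := WXs a2_holds Asm.a4 FN0_holds
theorem wcn : WCnS := WCn Asm.g2 A5_holds
theorem wvg : WVgS := WVg AAsm.aFG AAsm.aDst xsc mc1 FN0_holds fgd Asm.g1 Asm.g3 rank wcn
theorem wvt : WVtS := WVt wxs
theorem wl : WLS := WL wxs
theorem bMain : BMainS := WMain wxs wvg wvt wl dh thmBS

end WAsm

end Pool.Agent.LSF
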