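import Pool.Agent.LSF.WDefs

/-!
WEx: extension of an automorphism of a subfield.

Complete proof. Extend `B` to a transcendence basis `B'` of `K` over `L`
(`exists_isTranscendenceBasis_superset` or similar: `B ⊆ B'`, `B'` algebraically independent over
`L`, `K` algebraic over `L(B')`). Let `x : B' → K` be the inclusion, a transcendence basis over `L`.
The ring automorphism of `Algebra.adjoin L (Set.range x) ≅ MvPolynomial B' L` given by
`MvPolynomial.mapEquiv B' σ` maps the elements of `L` by `σ` and fixes the elements of `B'`. `K` is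
an algebraic closure of this ring (`IsAlgClosed.isAlgClosure_of_transcendence_basis`), so
`IsAlgClosure.equivOfEquiv K K e` extends it to an automorphism `τ` of `K`
(`IsAlgClosure.equivOfEquiv_algebraMap`). This is the argument of `DG_equiv` in the file
lsf_DG.lean of the team store (there with two bases over `ℚ`; here with one basis over `L` and
`hx.1.aevalEquiv.symm.toRingEquiv.trans ((MvPolynomial.mapEquiv B' σ).trans
hx.1.aevalEquiv.toRingEquiv)`).
-/

namespace Pool.Agent.LSF

theorem wext (K : Type) [Field K] [IsAlgClosed K] [CharZero K] (L : IntermediateField ℚ K)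
    (σ : L ≃+* L) (B : Set K) (hB : AlgebraicIndependent L (Subtype.val : B → K)) :
    ∃ τ : K ≃+* K, (∀ x : L, τ x = σ x) ∧ ∀ b ∈ B, τ b = b := by
  obtain ⟨B', hBB, hv⟩ := exists_isTranscendenceBasis_superset (R := L) (s := B) hB
  letI := IsAlgClosed.isAlgClosure_of_transcendence_basis (Subtype.val : B' → K) hv
  let e : Algebra.adjoin L (Set.range (Subtype.val : B' → K)) ≃+*
      Algebra.adjoin L (Set.range (Subtype.val : B' → K)) :=
    hv.1.aevalEquiv.symm.toRingEquiv.trans ((MvPolynomial.mapEquiv B' σ).trans
      hv.1.aevalEquiv.toRingEquiv)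
  have he : ∀ p : MvPolynomial B' L, e (hv.1.aevalEquiv p) =
      hv.1.aevalEquiv (MvPolynomial.map (σ : L →+* L) p) := by
    intro p
    simp only [e]
    change hv.1.aevalEquiv (MvPolynomial.mapEquiv B' σ
      (hv.1.aevalEquiv.symm (hv.1.aevalEquiv p))) = _
    rw [AlgEquiv.symm_apply_apply]
    rfl
  have key : ∀ p : MvPolynomial B' L, IsAlgClosure.equivOfEquiv K K e
      (MvPolynomial.aeval (Subtype.val : B' → K) p) =
      MvPolynomial.aeval (Subtype.val : B' → K) (MvPolynomial.map (σ : L →+* L) p) := by
    intro p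
    have h1 := IsAlgClosure.equivOfEquiv_algebraMap K K e (hv.1.aevalEquiv p)
    rw [he, hv.1.algebraMap_aevalEquiv, hv.1.algebraMap_aevalEquiv] at h1
    exact h1
  refine ⟨IsAlgClosure.equivOfEquiv K K e, fun x => ?_, fun b hb => ?_⟩
  · have h1 := key (MvPolynomial.C x)
    rw [MvPolynomial.map_C, MvPolynomial.aeval_C, MvPolynomial.aeval_C] at h1
    exact h1
  · have h1 := key (MvPolynomial.X ⟨b, hBB hb⟩)
    rw [MvPolynomial.map_X, MvPolynomial.aeval_X] at h1
    exact h1

end Pool.Agent.LSF
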