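import Pool.Agent.LSF.WEx

/-!
WFix: elements fixed by all automorphisms over `A`.

Complete proof. Let `k₀ := algebraicClosure ℚ K`, `F := IntermediateField.adjoin k₀ A` (an
intermediate field of `K` over `k₀`), and suppose `y ∉ F`. `y` is algebraic over `F` (it is
algebraic over the smaller field `IntermediateField.adjoin ℚ A`). Let
`M := algebraicClosure F K`: it is algebraically closed (as `K` is), normal over `F` (algebraic
closure, characteristic zero: Galois), `y ∈ M`. `y` is separable over `F` (characteristic zero)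
and not in `F`, so it has a conjugate `y' ≠ y`, `y' ∈ M`
(`notMem_iff_exists_ne_and_isConjRoot` or: the minimal polynomial has degree `≥ 2`, is
separable and splits), and there is an `F`-automorphism `σ` of `M` with `σ y = y'`
(`isConjRoot_iff_exists_algEquiv`, or `Normal` lifting). Regard `M` as an intermediate field `L` of
`K` over `ℚ` (same carrier: `restrictScalars`) and `σ` as a ring automorphism of `L`. `wext` with
`B = ∅` extends it to an automorphism `τ` of `K`. `τ` fixes `F`, so it fixes the algebraic numbers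
and `A`: `Fx A τ` (`IsAlgebraic ℚ x` means `x ∈ k₀`, whose elements are in `F`). So `τ y = y` by
hypothesis, but `τ y = y' ≠ y`.
-/

namespace Pool.Agent.LSF

theorem wfix (K : Type) [Field K] [IsAlgClosed K] [CharZero K] (A : Set K) (y : K)
    (hy : IsAlgebraic (IntermediateField.adjoin ℚ A) y) (h : ∀ τ, Fx A τ → τ y = y) :
    y ∈ IntermediateField.adjoin (algebraicClosure ℚ K) A := by
  classical
  by_contra hy0
  obtain ⟨F, hF⟩ : ∃ F : IntermediateField ℚ K, F =
    (IntermediateField.adjoin (algebraicClosure ℚ K) A).restrictScalars ℚ := ⟨_, rfl⟩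
  have hmem : ∀ x : K, x ∈ F ↔ x ∈ IntermediateField.adjoin (algebraicClosure ℚ K) A := by
    intro x
    rw [hF]
    exact Iff.rfl
  have hA : A ⊆ F := by
    intro a ha
    exact (hmem a).2 (IntermediateField.subset_adjoin _ _ ha)
  have hk : ∀ x : K, IsAlgebraic ℚ x → x ∈ F := by
    intro x hx
    exact (hmem x).2 (IntermediateField.algebraMap_mem _
      (⟨x, mem_algebraicClosure_iff.2 hx⟩ : algebraicClosure ℚ K))
  have hle : IntermediateField.adjoin ℚ A ≤ F := IntermediateField.adjoin_le_iff.2 hA
  have hyF : IsAlgebraic F y := by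
    let _ : Algebra (IntermediateField.adjoin ℚ A) F :=
      (IntermediateField.inclusion hle).toRingHom.toAlgebra
    have _ : IsScalarTower (IntermediateField.adjoin ℚ A) F K :=
      IsScalarTower.of_algebraMap_eq (fun _ => rfl)
    exact hy.extendScalars (IntermediateField.inclusion hle).toRingHom.injective
  obtain ⟨yM, hyM⟩ : ∃ yM : algebraicClosure F K, (yM : K) = y :=
    ⟨⟨y, mem_algebraicClosure_iff.2 hyF⟩, rfl⟩
  have hac : IsAlgClosed (algebraicClosure F K) := IsAlgClosure.isAlgClosed F
  have hnorm : Normal F (algebraicClosure F K) := IsAlgClosure.normal F _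
  have hnot : yM ∉ (⊥ : Subalgebra F (algebraicClosure F K)) := by
    intro hm
    obtain ⟨f, hf⟩ := Algebra.mem_bot.1 hm
    apply hy0
    rw [← hmem, ← hyM, ← hf]
    exact f.2
  obtain ⟨y', hne, hconj⟩ := (notMem_iff_exists_ne_and_isConjRoot
    (Algebra.IsSeparable.isSeparable F yM) (IsAlgClosed.splits _)).1 hnot
  obtain ⟨σ, hσ⟩ := isConjRoot_iff_exists_algEquiv.1 hconj
  have hinj : Function.Injective
      (algebraMap ((algebraicClosure F K).restrictScalars ℚ : IntermediateField ℚ K) K) :=
    fun a b hab => Subtype.ext hab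
  obtain ⟨τ, hτ, -⟩ := wext K ((algebraicClosure F K).restrictScalars ℚ) σ.toRingEquiv ∅
    (algebraicIndependent_empty_type_iff.2 hinj)
  have hτF : ∀ x ∈ F, τ x = x := by
    intro x hx
    have h1 := hτ (algebraMap F (algebraicClosure F K) ⟨x, hx⟩)
    have h2 : σ (algebraMap F (algebraicClosure F K) ⟨x, hx⟩) =
      algebraMap F (algebraicClosure F K) ⟨x, hx⟩ := σ.commutes _
    have h3 : (σ.toRingEquiv (algebraMap F (algebraicClosure F K) ⟨x, hx⟩) :
      algebraicClosure F K) = algebraMap F (algebraicClosure F K) ⟨x, hx⟩ := h2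
    have h4 := h1.trans (congrArg Subtype.val h3)
    exact h4
  have hFx : Fx A τ := ⟨fun x hx => hτF x (hk x hx), fun x hx => hτF x (hA hx)⟩
  have h5 := h τ hFx
  have h6 := hτ yM
  apply hne
  apply σ.injective
  rw [hσ]
  apply Subtype.ext
  rw [hyM]
  rw [← hyM] at h5
  rw [← hyM, ← h5]
  exact h6.symm

end Pool.Agent.LSF
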