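import Pool.Agent.LSF.WDefs

/-!
WHom: homomorphisms of fields act on everything.
-/

namespace Pool.Agent.LSF

open Polynomial Pool.Agent.LenSpec

theorem WHom_nP {K L : Type} [Field K] [Field L] (φ : K →+* L) (d : ℕ) (v : VI d → K) :
    nP d (fun i => φ (v i)) = (nP d v).map φ := by
  simp [nP, Polynomial.map_sum]

theorem WHom_nQ {K L : Type} [Field K] [Field L] (φ : K →+* L) (d : ℕ) (v : VI d → K) :
    nQ d (fun i => φ (v i)) = (nQ d v).map φ := by
  simp [nQ, nR, Polynomial.map_sum]

theorem WHom_ev {K L : Type} [Field K] [Field L] (φ : K →+* L) (P Q : Polynomial K) (z : K) :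
    ev (P.map φ) (Q.map φ) (φ z) = φ (ev P Q z) := by
  simp only [ev, Polynomial.eval_map_apply, map_div₀]

theorem WHom_it {K L : Type} [Field K] [Field L] (φ : K →+* L) (P Q : Polynomial K) (z : K)
    (k : ℕ) : (ev (P.map φ) (Q.map φ))^[k] (φ z) = φ ((ev P Q)^[k] z) := by
  induction k with
  | zero => rfl
  | succ k ih => rw [Function.iterate_succ_apply', Function.iterate_succ_apply', ih, WHom_ev]

theorem WHom_derivAt {K L : Type} [Field K] [Field L] (φ : K →+* L) (P Q : Polynomial K) (z : K) :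
    derivAt (P.map φ) (Q.map φ) (φ z) = φ (derivAt P Q z) := by
  simp only [derivAt, Polynomial.derivative_map, Polynomial.eval_map_apply, map_div₀, map_sub,
    map_mul, map_pow]

theorem WHom_mult {K L : Type} [Field K] [Field L] (φ : K →+* L) (P Q : Polynomial K) (z : K)
    (n : ℕ) : mult (P.map φ) (Q.map φ) n (φ z) = φ (mult P Q n z) := by
  unfold mult
  rw [map_prod]
  refine Finset.prod_congr rfl fun k _ => ?_
  rw [WHom_it, WHom_derivAt]

theorem WHom_perX {K L : Type} [Field K] [Field L] (φ : K →+* L) (P Q : Polynomial K) (z : K)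
    (n : ℕ) : PerX (P.map φ) (Q.map φ) n (φ z) ↔ PerX P Q n z := by
  have hinj := φ.injective
  unfold PerX Per
  simp only [WHom_it, Polynomial.eval_map_apply, hinj.eq_iff, ne_eq, map_eq_zero]

theorem whom {K K' : Type} [Field K] [Field K'] (ψ : K →+* K') (d : ℕ) (v : VI d → K) :
    nP d (fun i => ψ (v i)) = (nP d v).map ψ ∧ nQ d (fun i => ψ (v i)) = (nQ d v).map ψ ∧
    (∀ z, ev (nP d (fun i => ψ (v i))) (nQ d (fun i => ψ (v i))) (ψ z) =
      ψ (ev (nP d v) (nQ d v) z)) ∧
    (∀ n z, mult (nP d (fun i => ψ (v i))) (nQ d (fun i => ψ (v i))) n (ψ z) =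
      ψ (mult (nP d v) (nQ d v) n z)) ∧
    (∀ n z, PerX (nP d (fun i => ψ (v i))) (nQ d (fun i => ψ (v i))) n (ψ z) ↔
      PerX (nP d v) (nQ d v) n z) ∧
    (Nf d (fun i => ψ (v i)) ↔ Nf d v) := by
  have hP := WHom_nP ψ d v
  have hQ := WHom_nQ ψ d v
  refine ⟨hP, hQ, ?_, ?_, ?_, ?_⟩
  · intro z
    rw [hP, hQ, WHom_ev]
  · intro n z
    rw [hP, hQ, WHom_mult]
  · intro n z
    rw [hP, hQ, WHom_perX]
  · have hc : IsCoprime (nP d (fun i => ψ (v i))) (nQ d (fun i => ψ (v i))) ↔
        IsCoprime (nP d v) (nQ d v) := by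
      rw [hP, hQ]
      exact Polynomial.isCoprime_map ψ
    have hk : ∀ k, (nP d (fun i => ψ (v i))).coeff k = ψ ((nP d v).coeff k) := by
      intro k
      rw [hP, Polynomial.coeff_map]
    constructor
    · intro h
      refine ⟨h.two_le, hc.1 h.cop, ?_, ?_⟩
      · intro h1'
        apply h.one_ne
        rw [hk, h1', map_one]
      · intro h0
        apply h.top_ne
        rw [hk, h0, map_zero]
    · intro h
      refine ⟨h.two_le, hc.2 h.cop, ?_, ?_⟩
      · intro h1'
        apply h.one_ne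
        rw [hk] at h1'
        exact (map_eq_one_iff ψ ψ.injective).1 h1'
      · intro h0
        apply h.top_ne
        rw [hk] at h0
        exact (map_eq_zero_iff ψ ψ.injective).1 h0

end Pool.Agent.LSF
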