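import Pool.Agent.LSF.WFix
import Pool.Agent.LSF.WAl

/-!
WLk: an equivariant map is given by a rational function over the algebraic numbers.
-/

namespace Pool.Agent.LSF

open Polynomial in
/-- a finite family of elements of `k₀(a)` with a common denominator -/
theorem wlk_quot {k₀ K : Type} [Field k₀] [Field K] [Algebra k₀ K] {k : ℕ} (a : Fin k → K)
    (y : K) (hy : y ∈ IntermediateField.adjoin k₀ (Set.range a)) :
    ∃ r s : MvPolynomial (Fin k) k₀, MvPolynomial.aeval a s ≠ 0 ∧
      y * MvPolynomial.aeval a s = MvPolynomial.aeval a r := by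
  obtain ⟨r, s, hrs⟩ := (IntermediateField.mem_adjoin_range_iff k₀ a y).1 hy
  by_cases hs : MvPolynomial.aeval a s = 0
  · refine ⟨0, 1, by simp, ?_⟩
    rw [hrs, hs]
    simp
  · exact ⟨r, s, hs, by rw [hrs, div_mul_cancel₀ _ hs]⟩

theorem wlk (K : Type) [Field K] [IsAlgClosed K] [CharZero K] (φ : K →+* ℂ) (k : ℕ)
    (a : Fin k → K) (X U : Set K) (b : K → K) (hX : X.Finite)
    (hXa : ∀ x ∈ X, IsAlgebraic (IntermediateField.adjoin ℚ (Set.range a)) x)
    (hUa : ∀ x ∈ U, IsAlgebraic (IntermediateField.adjoin ℚ (Set.range a)) x)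
    (hI : InvX (Set.range a) X) (h : EqB (Set.range a) X U b) :
    ∃ N D : MvPolynomial (Option (Fin k)) K0, ∀ x ∈ X,
      mev D (fun i => φ (a i)) (φ x) ≠ 0 ∧
      φ (b x) = mev N (fun i => φ (a i)) (φ x) / mev D (fun i => φ (a i)) (φ x) := by
  classical
  set A := Set.range a with hA
  -- the interpolation polynomial
  set s : Finset K := hX.toFinset with hs
  have hmem : ∀ x, x ∈ s ↔ x ∈ X := fun x => hX.mem_toFinset
  set Q : Polynomial K := Lagrange.interpolate s id b with hQ
  have hinj : Set.InjOn (id : K → K) s := Set.injOn_id _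
  have hQdeg : Q.degree < s.card := Lagrange.degree_interpolate_lt b hinj
  have hQev : ∀ x ∈ s, Q.eval x = b x := fun x hx => by
    have := Lagrange.eval_interpolate_at_node b hinj hx
    exact this
  -- invariance under automorphisms
  have hfixQ : ∀ τ : K ≃+* K, Fx A τ → Q.map (τ : K →+* K) = Q := by
    intro τ hτ
    have hdeg : (Q.map (τ : K →+* K)).degree < s.card := by
      rw [Polynomial.degree_map]
      exact hQdeg
    have himg : s.image τ = s := by
      refine Finset.eq_of_subset_of_card_le ?_ ?_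
      · intro y hy
        obtain ⟨x, hx, rfl⟩ := Finset.mem_image.1 hy
        exact (hmem _).2 (hI τ hτ x ((hmem x).1 hx))
      · rw [Finset.card_image_of_injective _ τ.injective]
    refine Polynomial.eq_of_degrees_lt_of_eval_finset_eq s hdeg hQdeg ?_
    intro y hy
    rw [← himg] at hy
    obtain ⟨x, hx, rfl⟩ := Finset.mem_image.1 hy
    have h1 : (Q.map (τ : K →+* K)).eval (τ x) = τ (Q.eval x) := by
      have := Polynomial.eval_map_apply (p := Q) (τ : K →+* K) x
      exact this
    have h2 : τ x ∈ s := by rw [← himg]; exact Finset.mem_image_of_mem _ hx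
    rw [h1, hQev x hx, hQev _ h2]
    exact (h.equi τ hτ x ((hmem x).1 hx)).symm
  have hfixc : ∀ j, ∀ τ : K ≃+* K, Fx A τ → τ (Q.coeff j) = Q.coeff j := by
    intro j τ hτ
    have h1 := congrArg (fun p => Polynomial.coeff p j) (hfixQ τ hτ)
    simp only [Polynomial.coeff_map] at h1
    exact h1
  -- the coefficients are algebraic
  set E := IntermediateField.adjoin ℚ A with hE
  have halg : ∀ j, IsAlgebraic E (Q.coeff j) := by
    let xs : s → algebraicClosure E K := fun x =>
      ⟨x.1, mem_algebraicClosure_iff.2 (hXa x.1 ((hmem _).1 x.2))⟩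
    let bs : s → algebraicClosure E K := fun x =>
      ⟨b x.1, mem_algebraicClosure_iff.2 (hUa _ (h.bij.mapsTo ((hmem _).1 x.2)))⟩
    have hmap : Q = (Lagrange.interpolate (s.attach) xs bs).map
        (algebraMap (algebraicClosure E K) K) := by
      refine Polynomial.eq_of_degrees_lt_of_eval_finset_eq s hQdeg ?_ ?_
      · rw [Polynomial.degree_map]
        have : Set.InjOn xs (s.attach : Set s) := by
          intro x _ y _ hxy
          have := congrArg (fun z : algebraicClosure E K => (z : K)) hxy
          exact Subtype.ext this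
        have h1 := Lagrange.degree_interpolate_lt bs this
        rwa [Finset.card_attach] at h1
      · intro x hx
        rw [hQev x hx]
        have : Set.InjOn xs (s.attach : Set s) := by
          intro x _ y _ hxy
          have := congrArg (fun z : algebraicClosure E K => (z : K)) hxy
          exact Subtype.ext this
        have h1 := Lagrange.eval_interpolate_at_node bs this (Finset.mem_attach s ⟨x, hx⟩)
        have h2 : (Polynomial.map (algebraMap (algebraicClosure E K) K)
            (Lagrange.interpolate (s.attach) xs bs)).eval x =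
            algebraMap (algebraicClosure E K) K
              ((Lagrange.interpolate (s.attach) xs bs).eval (xs ⟨x, hx⟩)) :=
          Polynomial.eval_map_apply (algebraMap (algebraicClosure E K) K) (xs ⟨x, hx⟩)
        rw [h2, h1]
        rfl
    intro j
    rw [hmap, Polynomial.coeff_map]
    exact mem_algebraicClosure_iff.1 (Subtype.mem _)
  have hmemF : ∀ j, Q.coeff j ∈ IntermediateField.adjoin (algebraicClosure ℚ K) A :=
    fun j => wfix K A (Q.coeff j) (halg j) (hfixc j)
  have hq := fun j => wlk_quot (k₀ := algebraicClosure ℚ K) a (Q.coeff j) (hmemF j)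
  choose n e he hne using hq
  -- the ring homomorphism to `K0`
  have hk0 : ∀ x : algebraicClosure ℚ K, φ (x : K) ∈ K0 := fun x =>
    (wal_k0 φ _).2 ⟨x, mem_algebraicClosure_iff.1 x.2, rfl⟩
  let ψ : algebraicClosure ℚ K →+* K0 :=
    (φ.comp (algebraMap (algebraicClosure ℚ K) K)).codRestrict K0.toSubfield.toSubring hk0
  have hψ : ∀ x : algebraicClosure ℚ K, ((ψ x : K0) : ℂ) = φ (x : K) := fun x => rfl
  have hev : ∀ (F : MvPolynomial (Fin k) (algebraicClosure ℚ K)) (x : K),
      mev (MvPolynomial.rename some (MvPolynomial.map ψ F)) (fun i => φ (a i)) (φ x) =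
        φ (MvPolynomial.aeval a F) := by
    intro F x
    unfold mev
    rw [MvPolynomial.aeval_rename, MvPolynomial.aeval_def, MvPolynomial.eval₂_map,
      MvPolynomial.aeval_def]
    have h1 : φ (MvPolynomial.eval₂ (algebraMap (algebraicClosure ℚ K) K) a F) =
        MvPolynomial.eval₂ (φ.comp (algebraMap (algebraicClosure ℚ K) K)) (φ ∘ a) F :=
      MvPolynomial.hom_eval₂ _ _ _ _
    rw [h1]
    rfl
  let M := s.card
  let R := Finset.range M
  let N₀ : MvPolynomial (Option (Fin k)) K0 :=
    ∑ j ∈ R, MvPolynomial.rename some (MvPolynomial.map ψ (n j)) *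
      (∏ i ∈ R.erase j, MvPolynomial.rename some (MvPolynomial.map ψ (e i))) *
      MvPolynomial.X none ^ j
  let D₀ : MvPolynomial (Option (Fin k)) K0 :=
    ∏ i ∈ R, MvPolynomial.rename some (MvPolynomial.map ψ (e i))
  have hD₀ : ∀ x, mev D₀ (fun i => φ (a i)) (φ x) = ∏ i ∈ R, φ (MvPolynomial.aeval a (e i)) := by
    intro x
    show MvPolynomial.aeval _ D₀ = _
    rw [map_prod]
    exact Finset.prod_congr rfl fun i _ => hev (e i) x
  have hN₀ : ∀ x, mev N₀ (fun i => φ (a i)) (φ x) = ∑ j ∈ R, φ (MvPolynomial.aeval a (n j)) *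
      (∏ i ∈ R.erase j, φ (MvPolynomial.aeval a (e i))) * φ x ^ j := by
    intro x
    show MvPolynomial.aeval _ N₀ = _
    rw [map_sum]
    refine Finset.sum_congr rfl fun j _ => ?_
    rw [map_mul, map_mul, map_prod, map_pow, MvPolynomial.aeval_X]
    congr 1
    congr 1
    · exact hev (n j) x
    · exact Finset.prod_congr rfl fun i _ => hev (e i) x
  refine ⟨N₀, D₀, fun x hx => ?_⟩
  have hDne : mev D₀ (fun i => φ (a i)) (φ x) ≠ 0 := by
    rw [hD₀]
    exact Finset.prod_ne_zero_iff.2 fun i _ => (map_ne_zero φ).2 (he i)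
  refine ⟨hDne, ?_⟩
  rw [eq_div_iff hDne, hD₀, hN₀]
  have hbx : b x = ∑ j ∈ R, Q.coeff j * x ^ j := by
    rw [← hQev x ((hmem x).2 hx)]
    by_cases hQ0 : Q = 0
    · rw [hQ0]; simp
    · refine Polynomial.eval_eq_sum_range' ?_ x
      exact (Polynomial.natDegree_lt_iff_degree_lt hQ0).2 hQdeg
  rw [hbx, map_sum, Finset.sum_mul]
  refine Finset.sum_congr rfl fun j hj => ?_
  rw [← Finset.mul_prod_erase R _ hj, ← hne j, map_mul, map_mul, map_pow]
  ring

end Pool.Agent.LSF
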