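import Pool.Agent.LSF.WEx

/-!
WRb: automorphisms over `A₁` take finitely many values on `A`, after a change that is not seen by
the algebraic closure of `ℚ(A₁)`.

Complete proof. Let `L` be the intermediate field of the elements of `K` algebraic over
`IntermediateField.adjoin ℚ A₁` (`(algebraicClosure _ K).restrictScalars ℚ`). Choose a subset
`B ⊆ A` that is algebraically independent over `L` and maximal with this property (finite set, or
`exists_maximal_algebraicIndependent`; or `exists_isTranscendenceBasis_between`). Then every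
`a ∈ A` is algebraic over the field `E := IntermediateField.adjoin ℚ (L ∪ B)` (if `a` were
transcendental over `L(B)`, `insert a B` would be independent over `L`:
`AlgebraicIndependent.option_iff_transcendental` or `insert_iff`; for `a ∈ B` clear).
For `a ∈ A` let `R a` be the finite set of the roots in `K` of the minimal polynomial of `a` over
`E`. Every automorphism `τ` of `K` that fixes `E` pointwise maps `a` into `R a`.
`D := ∏_{a ∈ A} card (R a) + 1` or just: the set `T` of the functions `A → K` with values in `R a`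
at `a` is finite (`Set.Finite.pi`), let `D` be larger than its cardinality.
Let `γ : ι → K ≃+* K`, `ι = Fin D` be automorphisms with `Fx A₁ (γ i)`. `γ i` maps `L` onto `L` (it
fixes `ℚ(A₁)`; the image of an algebraic element is algebraic, same for the inverse), so it
restricts to an automorphism of `L`; `wext` extends this to an automorphism `γ' i` of `K` that
fixes `B` pointwise and agrees with `γ i` on `L`. But `γ' i` need not fix `L`, so compare: the tuple
`(γ' i a)_{a ∈ A}` is a root tuple of the minimal polynomials mapped by `γ' i`, coefficients in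
`L ∪ B`-field. To have finitely many values use `ℚ(A₁ ∪ B)` instead of `E`: every `a ∈ A` is
algebraic over `E₁ := IntermediateField.adjoin ℚ (A₁ ∪ B)` (transitivity: `L` is algebraic over
`ℚ(A₁)`), and `γ' i` fixes `E₁` pointwise. So take the roots of the minimal polynomials over `E₁` in
the definition of `R a` (replace `E` by `E₁` above). By the pigeonhole principle there are
`i ≠ j` with `γ' i a = γ' j a` for all `a ∈ A`. Then `δ := (γ' i)⁻¹ ∘ γ' j` fixes `A` pointwise, fixes
the algebraic numbers (they are in `L`, fixed by `γ i` and `γ j`), and for `x ∈ L`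
`γ i (δ x) = γ j x` (note `δ x ∈ L`: `γ j x ∈ L`, `γ' i` maps `L` onto `L`, so
`(γ' i)⁻¹ (γ j x) ∈ L` and `γ' i` agrees with `γ i` on `L`).
-/

namespace Pool.Agent.LSF

open Polynomial

section wrb

variable {K : Type} [Field K] [CharZero K]

/-- an automorphism that fixes the generators fixes the field -/
private theorem wrb_fix (S : Set K) (τ : K ≃+* K) (h : ∀ x ∈ S, τ x = x) :
    ∀ x ∈ IntermediateField.adjoin ℚ S, τ x = x := by
  intro x hx
  induction hx using IntermediateField.adjoin_induction with
  | mem x hx => exact h x hx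
  | algebraMap r => simp
  | add x y _ _ hx hy => rw [map_add, hx, hy]
  | inv x _ hx => rw [map_inv₀, hx]
  | mul x y _ _ hx hy => rw [map_mul, hx, hy]

private theorem wrb_alg (S : Set K) (τ : K ≃+* K) (h : ∀ x ∈ S, τ x = x) (x : K)
    (hx : IsAlgebraic (IntermediateField.adjoin ℚ S) x) :
    IsAlgebraic (IntermediateField.adjoin ℚ S) (τ x) := by
  refine hx.ringHom_of_comp_eq (RingHom.id _) (τ : K →+* K) Function.injective_id ?_
  ext y
  exact (wrb_fix S τ h y y.2).symm

private theorem wrb_fx_symm {A₁ : Set K} {τ : K ≃+* K} (h : Fx A₁ τ) : Fx A₁ τ.symm := by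
  constructor
  · intro x hx
    rw [RingEquiv.symm_apply_eq]
    exact (h.1 x hx).symm
  · intro x hx
    rw [RingEquiv.symm_apply_eq]
    exact (h.2 x hx).symm

private theorem wrb_root (E : IntermediateField ℚ K) (a : K) (τ : K ≃+* K)
    (h : ∀ x ∈ E, τ x = x) (ha : IsAlgebraic E a) : τ a ∈ (minpoly E a).rootSet K := by
  rw [mem_rootSet]
  refine ⟨minpoly.ne_zero ha.isIntegral, ?_⟩
  have h1 : (τ : K →+* K).comp (algebraMap E K) = algebraMap E K := by
    ext y
    exact h y y.2
  have h2 := hom_eval₂ (minpoly E a) (algebraMap E K) (τ : K →+* K) a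
  rw [h1] at h2
  rw [aeval_def]
  change eval₂ (algebraMap E K) ((τ : K →+* K) a) (minpoly E a) = 0
  rw [← h2, ← aeval_def, minpoly.aeval, map_zero]

end wrb

theorem wrb (K : Type) [Field K] [IsAlgClosed K] [CharZero K] (A A₁ : Set K) (hA : A.Finite)
    (hs : A₁ ⊆ A) : ∃ D : ℕ, ∀ γ : Fin D → (K ≃+* K), (∀ i, Fx A₁ (γ i)) →
    ∃ i j, i ≠ j ∧ ∃ δ : K ≃+* K, Fx A δ ∧
      ∀ x, IsAlgebraic (IntermediateField.adjoin ℚ A₁) x → γ i (δ x) = γ j x := by
  classical
  obtain ⟨L, hL⟩ : ∃ L : IntermediateField ℚ K, ∀ x, x ∈ L ↔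
      IsAlgebraic (IntermediateField.adjoin ℚ A₁) x :=
    ⟨(algebraicClosure (IntermediateField.adjoin ℚ A₁) K).restrictScalars ℚ, fun x => by
      rw [IntermediateField.mem_restrictScalars, mem_algebraicClosure_iff]⟩
  obtain ⟨B, hB⟩ := (AlgebraicIndependent.matroid L K).exists_isBasis A
  obtain ⟨hB1, hB2, hB3⟩ := AlgebraicIndependent.matroid_isBasis_iff.1 hB
  obtain ⟨E, hE⟩ : ∃ E, E = IntermediateField.adjoin ℚ (A₁ ∪ B) := ⟨_, rfl⟩
  have hA₁E : IntermediateField.adjoin ℚ A₁ ≤ E := by
    rw [hE]
    exact IntermediateField.adjoin.mono _ _ _ Set.subset_union_left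
  have hBE : B ⊆ (E : Set K) := by
    rw [hE]
    exact Set.subset_union_right.trans (IntermediateField.subset_adjoin _ _)
  -- every element of `A` is algebraic over `E`
  have hLE : ∀ x ∈ L, IsAlgebraic E x := by
    intro x hx
    refine ((hL x).1 hx).ringHom_of_comp_eq
      (IntermediateField.inclusion hA₁E : IntermediateField.adjoin ℚ A₁ →+* E) (RingHom.id K)
      (RingHom.injective _) ?_
    ext y
    rfl
  have hAE : ∀ a ∈ A, IsAlgebraic E a := by
    intro a ha
    have h1 : ∀ y ∈ Algebra.adjoin L B, y ∈ algebraicClosure E K := by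
      intro y hy
      rw [mem_algebraicClosure_iff]
      induction hy using Algebra.adjoin_induction with
      | mem y hy => exact isAlgebraic_algebraMap (⟨y, hBE hy⟩ : E)
      | algebraMap r => exact hLE r r.2
      | add x y _ _ hx hy => exact hx.add hy
      | mul x y _ _ hx hy => exact hx.mul hy
    have h2 : IsAlgebraic (algebraicClosure E K) a := by
      let F : Algebra.adjoin L B →+* algebraicClosure E K :=
        { toFun := fun c => ⟨c, h1 c c.2⟩
          map_one' := rfl
          map_mul' := fun _ _ => rfl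
          map_zero' := rfl
          map_add' := fun _ _ => rfl }
      refine (hB3 a ha).ringHom_of_comp_eq F (RingHom.id K) ?_ ?_
      · intro x y hxy
        have hxy' : (x : K) = y := congrArg (Subtype.val : algebraicClosure E K → K) hxy
        exact Subtype.ext hxy'
      · ext y
        rfl
    exact h2.restrictScalars E
  have hAf : Finite A := hA.to_subtype
  have hT : (Set.pi Set.univ fun a : A => (minpoly E (a : K)).rootSet K).Finite :=
    Set.Finite.pi fun a => rootSet_finite _ _
  refine ⟨hT.toFinset.card + 1, fun γ hγ => ?_⟩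
  have hγL : ∀ i, ∀ x ∈ L, γ i x ∈ L := by
    intro i x hx
    rw [hL] at hx ⊢
    exact wrb_alg A₁ (γ i) (hγ i).2 x hx
  have hγL' : ∀ i, ∀ x ∈ L, (γ i).symm x ∈ L := by
    intro i x hx
    rw [hL] at hx ⊢
    exact wrb_alg A₁ (γ i).symm (wrb_fx_symm (hγ i)).2 x hx
  let σ : Fin (hT.toFinset.card + 1) → (L ≃+* L) := fun i =>
    { toFun := fun x => ⟨γ i x, hγL i x x.2⟩
      invFun := fun x => ⟨(γ i).symm x, hγL' i x x.2⟩
      left_inv := fun x => Subtype.ext ((γ i).symm_apply_apply _)
      right_inv := fun x => Subtype.ext ((γ i).apply_symm_apply _)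
      map_mul' := fun x y => Subtype.ext (map_mul (γ i) _ _)
      map_add' := fun x y => Subtype.ext (map_add (γ i) _ _) }
  choose γ' h1 h2 using fun i => wext K L (σ i) B hB1
  have h1' : ∀ i, ∀ x ∈ L, γ' i x = γ i x := fun i x hx => h1 i ⟨x, hx⟩
  have hAL : ∀ x ∈ A₁, x ∈ L := by
    intro x hx
    rw [hL]
    exact isAlgebraic_algebraMap
      (⟨x, IntermediateField.subset_adjoin _ _ hx⟩ : IntermediateField.adjoin ℚ A₁)
  have hfixE : ∀ i, ∀ x ∈ E, γ' i x = x := by
    intro i x hx
    rw [hE] at hx
    refine wrb_fix (A₁ ∪ B) (γ' i) ?_ x hx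
    rintro y (hy | hy)
    · rw [h1' i y (hAL y hy)]
      exact (hγ i).2 y hy
    · exact h2 i y hy
  obtain ⟨i, -, j, -, hij, heq⟩ := Finset.exists_ne_map_eq_of_card_lt_of_maps_to
    (s := (Finset.univ : Finset (Fin (hT.toFinset.card + 1)))) (t := hT.toFinset)
    (f := fun i => fun a : A => γ' i (a : K)) (by
      rw [Finset.card_univ, Fintype.card_fin]
      exact Nat.lt_succ_self _) (by
      intro i _
      rw [Finset.mem_coe, Set.Finite.mem_toFinset, Set.mem_univ_pi]
      intro a
      exact wrb_root E a (γ' i) (hfixE i) (hAE a a.2))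
  have key : ∀ x ∈ L, (γ' i).symm (γ' j x) = (γ i).symm (γ j x) := by
    intro x hx
    rw [h1' j x hx, RingEquiv.symm_apply_eq, h1' i _ (hγL' i _ (hγL j x hx)),
      RingEquiv.apply_symm_apply]
  refine ⟨i, j, hij, (γ' j).trans (γ' i).symm, ⟨?_, ?_⟩, ?_⟩
  · intro x hx
    have hxL : x ∈ L := by
      rw [hL]
      exact hx.tower_top _
    rw [RingEquiv.trans_apply, key x hxL, (hγ j).1 x hx, RingEquiv.symm_apply_eq]
    exact ((hγ i).1 x hx).symm
  · intro a ha
    rw [RingEquiv.trans_apply, RingEquiv.symm_apply_eq]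
    exact (congrFun heq ⟨a, ha⟩).symm
  · intro x hx
    rw [RingEquiv.trans_apply, key x ((hL x).2 hx), RingEquiv.apply_symm_apply]

end Pool.Agent.LSF
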