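import Pool.Agent.LSF.WRb

/-!
WRed: equivariance over the smaller set `A₁`.

Complete proof. Let `D` be as in `wrb` and `r₀ := D + 3`. Let `X, U, b` be given. Composition and
inverse of automorphisms with `Fx` have `Fx`; `Fx A τ → Fx A₁ τ`.
Suppose `τ₀`, `Fx A₁ τ₀`, `x₀ ∈ X` with `b (τ₀ x₀) ≠ τ₀ (b x₀)`. `τ₀` maps the finite set `X`
injectively into itself (`InvX A₁ X`), so it induces a permutation `π` of `X`, and `SymOn A X` gives
`τ'`, `Fx A τ'`, with `τ' x = τ₀ x` for all `x ∈ X`. Let `τ₁ := τ'⁻¹ ∘ τ₀`: `Fx A₁ τ₁`, it fixes `X`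
pointwise, and for `y₀ := b x₀ ∈ U`: `y' := τ₁ y₀ ≠ y₀` (otherwise
`τ₀ (b x₀) = τ' (b x₀) = b (τ' x₀) = b (τ₀ x₀)` by the equivariance over `A`). `y' ∈ U`
(`InvX A₁ U`).
For every `w ∈ U`, `w ≠ y₀` there is `δ_w` with `Fx A₁ δ_w` that fixes `X` pointwise and
`δ_w y₀ = w`: for `w = y'` take `τ₁`; for `w ≠ y'` let `w = b x_w`, `y' = b x'` with
`x_w, x' ∈ X` (`b` is bijective), and realise the transposition of `x_w` and `x'` on `X` by `γ`,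
`Fx A γ` (`SymOn A X`). By equivariance `γ y' = b (γ x') = w`, `γ y₀ = b (γ x₀) = b x₀ = y₀`
(`x₀ ≠ x_w, x'` because `y₀ ≠ w, y'`). `δ_w := γ ∘ τ₁ ∘ γ⁻¹`: it fixes `X` pointwise (`γ⁻¹` maps `X`
into `X`), `δ_w y₀ = γ (τ₁ y₀) = γ y' = w`.
`U` has as many elements as `X`, `≥ D + 3`, so there are `D` distinct elements `w_i ∈ U`,
`w_i ≠ y₀`, `i : Fin D`. `wrb` for the `δ_{w_i}` gives `i ≠ j` and `δ`, `Fx A δ`, with
`δ_{w_i} (δ x) = δ_{w_j} x` for all `x` algebraic over `ℚ(A₁)`. For `x ∈ X`: `δ_{w_i} (δ x) = x`, so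
`δ x = x` (apply `δ_{w_i}⁻¹`, which fixes `x`). So `δ y₀ = δ (b x₀) = b (δ x₀) = b x₀ = y₀` and
`w_i = δ_{w_i} y₀ = δ_{w_i} (δ y₀) = δ_{w_j} y₀ = w_j`, a contradiction.
-/

namespace Pool.Agent.LSF

theorem wred_trans {K : Type} [Field K] [CharZero K] {A : Set K} {σ τ : K ≃+* K}
    (h1 : Fx A σ) (h2 : Fx A τ) : Fx A (σ.trans τ) := by
  refine ⟨fun x hx => ?_, fun x hx => ?_⟩
  · rw [RingEquiv.trans_apply, h1.1 x hx, h2.1 x hx]
  · rw [RingEquiv.trans_apply, h1.2 x hx, h2.2 x hx]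

theorem wred_symm {K : Type} [Field K] [CharZero K] {A : Set K} {σ : K ≃+* K}
    (h1 : Fx A σ) : Fx A σ.symm := by
  refine ⟨fun x hx => ?_, fun x hx => ?_⟩
  · rw [RingEquiv.symm_apply_eq, h1.1 x hx]
  · rw [RingEquiv.symm_apply_eq, h1.2 x hx]

theorem wred_mono {K : Type} [Field K] [CharZero K] {A A₁ : Set K} (hs : A₁ ⊆ A) {σ : K ≃+* K}
    (h1 : Fx A σ) : Fx A₁ σ := ⟨h1.1, fun x hx => h1.2 x (hs hx)⟩

theorem wred (K : Type) [Field K] [IsAlgClosed K] [CharZero K] (A A₁ : Set K) (hA : A.Finite)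
    (hs : A₁ ⊆ A) : ∃ r₀ : ℕ, ∀ (X U : Set K) (b : K → K),
    (∀ x ∈ X, IsAlgebraic (IntermediateField.adjoin ℚ A₁) x) →
    (∀ x ∈ U, IsAlgebraic (IntermediateField.adjoin ℚ A₁) x) → InvX A₁ X → InvX A₁ U →
    X.Finite → r₀ ≤ X.ncard → SymOn A X → EqB A X U b → EqB A₁ X U b := by
  classical
  obtain ⟨D, hD⟩ := wrb K A A₁ hA hs
  refine ⟨D + 3, fun X U b hXa hUa hIX hIU hfin hcard hsym hE => ⟨hE.bij, fun τ₀ hτ₀ x₀ hx₀ => ?_⟩⟩
  by_contra hne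
  -- the permutation induced by `τ₀`
  have hFin : Finite X := hfin.to_subtype
  obtain ⟨f, hf⟩ : ∃ f : X → X, ∀ x : X, ((f x : X) : K) = τ₀ x :=
    ⟨fun x => ⟨τ₀ x, hIX τ₀ hτ₀ x x.2⟩, fun _ => rfl⟩
  have hfinj : Function.Injective f := by
    intro x y hxy
    have h1 := congrArg (Subtype.val) hxy
    rw [hf, hf] at h1
    exact Subtype.ext (τ₀.injective h1)
  have hfb : Function.Bijective f := (Finite.injective_iff_bijective).1 hfinj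
  obtain ⟨τ', hτ', hτ'x⟩ := hsym (Equiv.ofBijective f hfb)
  have h2 : ∀ x ∈ X, τ' x = τ₀ x := by
    intro x hx
    have h3 := hτ'x ⟨x, hx⟩
    rw [Equiv.ofBijective_apply, hf] at h3
    exact h3
  obtain ⟨τ₁, hτ₁, hτ₁e⟩ : ∃ τ₁ : K ≃+* K, Fx A₁ τ₁ ∧ ∀ x, τ' (τ₁ x) = τ₀ x := by
    refine ⟨τ₀.trans τ'.symm, wred_trans hτ₀ (wred_symm (wred_mono hs hτ')), fun x => ?_⟩
    rw [RingEquiv.trans_apply, RingEquiv.apply_symm_apply]
  have hτ₁X : ∀ x ∈ X, τ₁ x = x := by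
    intro x hx
    apply τ'.injective
    rw [hτ₁e, h2 x hx]
  have hbU : ∀ x ∈ X, b x ∈ U := fun x hx => hE.bij.mapsTo hx
  have hy' : τ₁ (b x₀) ≠ b x₀ := by
    intro h3
    apply hne
    rw [← h2 x₀ hx₀, hE.equi τ' hτ' x₀ hx₀, ← hτ₁e (b x₀), h3]
  have hy'U : τ₁ (b x₀) ∈ U := hIU τ₁ hτ₁ _ (hbU x₀ hx₀)
  -- the automorphisms `δ_w`
  have key : ∀ w ∈ U, w ≠ b x₀ → ∃ δ : K ≃+* K, Fx A₁ δ ∧ (∀ x ∈ X, δ x = x) ∧ δ (b x₀) = w := by
    intro w hw hw0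
    by_cases hw1 : w = τ₁ (b x₀)
    · exact ⟨τ₁, hτ₁, hτ₁X, hw1.symm⟩
    obtain ⟨xw, hxw, rfl⟩ := hE.bij.surjOn hw
    obtain ⟨x', hx', hbx'⟩ := hE.bij.surjOn hy'U
    have hxw0 : xw ≠ x₀ := fun h => hw0 (by rw [h])
    have hx'0 : x' ≠ x₀ := fun h => hy' (by rw [← hbx', h])
    obtain ⟨γ, hγ, hγx⟩ := hsym (Equiv.swap ⟨xw, hxw⟩ ⟨x', hx'⟩)
    have e1 : γ x' = xw := by
      have h3 := hγx ⟨x', hx'⟩
      rw [Equiv.swap_apply_right] at h3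
      exact h3
    have e2 : γ x₀ = x₀ := by
      have h3 := hγx ⟨x₀, hx₀⟩
      rw [Equiv.swap_apply_of_ne_of_ne] at h3
      · exact h3
      · intro h4
        exact hxw0 (congrArg Subtype.val h4).symm
      · intro h4
        exact hx'0 (congrArg Subtype.val h4).symm
    have hγX : ∀ x ∈ X, γ x ∈ X := fun x hx => by
      have h3 := hγx ⟨x, hx⟩
      rw [h3]
      exact Subtype.coe_prop _
    have hγsX : ∀ x ∈ X, γ.symm x ∈ X := fun x hx => by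
      have h3 := hγx ((Equiv.swap ⟨xw, hxw⟩ ⟨x', hx'⟩).symm ⟨x, hx⟩)
      rw [Equiv.apply_symm_apply] at h3
      have h4 : γ.symm x = ((Equiv.swap ⟨xw, hxw⟩ ⟨x', hx'⟩).symm ⟨x, hx⟩ : X) := by
        rw [RingEquiv.symm_apply_eq, h3]
      rw [h4]
      exact Subtype.coe_prop _
    have e3 : γ (τ₁ (b x₀)) = b xw := by
      rw [← hbx', ← hE.equi γ hγ x' hx', e1]
    have e4 : γ (b x₀) = b x₀ := by
      rw [← hE.equi γ hγ x₀ hx₀, e2]
    have e5 : γ.symm (b x₀) = b x₀ := by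
      rw [RingEquiv.symm_apply_eq, e4]
    refine ⟨(γ.symm.trans τ₁).trans γ, wred_trans (wred_trans (wred_symm (wred_mono hs hγ)) hτ₁)
      (wred_mono hs hγ), fun x hx => ?_, ?_⟩
    · rw [RingEquiv.trans_apply, RingEquiv.trans_apply, hτ₁X _ (hγsX x hx),
        RingEquiv.apply_symm_apply]
    · rw [RingEquiv.trans_apply, RingEquiv.trans_apply, e5, e3]
  -- `D` distinct elements
  have hUfin : U.Finite := by
    rw [← hE.bij.image_eq]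
    exact hfin.image _
  have hUcard : U.ncard = X.ncard := by
    rw [← hE.bij.image_eq, Set.ncard_image_of_injOn hE.bij.injOn]
  have h5 : D ≤ (U \ {b x₀}).ncard := by
    have h6 := Set.le_ncard_sdiff ({b x₀} : Set K) U (hs := Set.finite_singleton _)
    rw [Set.ncard_singleton] at h6
    omega
  obtain ⟨W, hWs, hWc⟩ := Set.exists_subset_card_eq h5
  have hWfin : W.Finite := (hUfin.subset Set.sdiff_subset).subset hWs
  have hcW : Nat.card W = D := by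
    rw [← hWc]
    rfl
  have : Finite W := hWfin.to_subtype
  obtain ⟨e⟩ : Nonempty (Fin D ≃ W) := by
    rw [← hcW]
    exact ⟨(Finite.equivFin W).symm⟩
  have hw : ∀ i : Fin D, ((e i : W) : K) ∈ U ∧ ((e i : W) : K) ≠ b x₀ := fun i =>
    ⟨(hWs (e i).2).1, (hWs (e i).2).2⟩
  choose δ hδ1 hδ2 hδ3 using fun i : Fin D => key (e i) (hw i).1 (hw i).2
  obtain ⟨i, j, hij, ε, hε, hεx⟩ := hD δ hδ1
  have h7 : ∀ x ∈ X, ε x = x := by
    intro x hx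
    have h8 := hεx x (hXa x hx)
    rw [hδ2 j x hx] at h8
    apply (δ i).injective
    rw [h8, hδ2 i x hx]
  have h9 : ε (b x₀) = b x₀ := by
    rw [← hE.equi ε hε x₀ hx₀, h7 x₀ hx₀]
  have h10 := hεx (b x₀) (hUa _ (hbU x₀ hx₀))
  rw [h9, hδ3, hδ3] at h10
  exact hij (e.injective (Subtype.ext h10))

end Pool.Agent.LSF
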