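import Pool.Agent.LSF.ADefs

/-!
Part Z: from a nonvanishing polynomial to an invariant Zariski closed set. Definitions.
-/

namespace Pool.Agent.LSF

open Polynomial Pool.Agent.LenSpec

/-- all polynomials of `S` vanish at the coefficients of `f` -/
def ZS {d : ℕ} (S : Finset (MvPolynomial (CI d) ℚ)) (f : RatMap ℂ d) : Prop :=
  ∀ V ∈ S, MvPolynomial.aeval f.coef V = 0

section ring

variable {R : Type} [CommRing R]

/-- the form `P` of degree `d` at `(A, B)`, over a ring -/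
noncomputable def hcR (d : ℕ) (P A B : R[X]) : R[X] :=
  ∑ i ∈ Finset.range (d + 1), C (P.coeff i) * A ^ i * B ^ (d - i)

/-- the numerator with the coefficients `x` -/
noncomputable def pnum (d : ℕ) (x : CI d → R) : R[X] :=
  ∑ i : Fin (d + 1), C (x (Sum.inl i)) * X ^ (i : ℕ)

/-- the denominator with the coefficients `x` -/
noncomputable def pden (d : ℕ) (x : CI d → R) : R[X] :=
  ∑ i : Fin (d + 1), C (x (Sum.inr i)) * X ^ (i : ℕ)

/-- the coefficients of a conjugate of the map with the coefficients `x`; the Moebius map is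
`(p 1 z + p 2) / (p 3 z + p 4)`, and `p 0` is a factor of numerator and denominator -/
noncomputable def ccf (d : ℕ) (p : Fin 5 → R) (x : CI d → R) : CI d → R
  | Sum.inl i => (C (p 0) * (C (p 4) *
      hcR d (pnum d x) (C (p 1) * X + C (p 2)) (C (p 3) * X + C (p 4)) -
      C (p 2) * hcR d (pden d x) (C (p 1) * X + C (p 2)) (C (p 3) * X + C (p 4)))).coeff i
  | Sum.inr i => (C (p 0) * (C (p 1) *
      hcR d (pden d x) (C (p 1) * X + C (p 2)) (C (p 3) * X + C (p 4)) -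
      C (p 3) * hcR d (pnum d x) (C (p 1) * X + C (p 2)) (C (p 3) * X + C (p 4)))).coeff i

end ring

/-- ZMob: Moebius conjugation in terms of the coefficients -/
def ZMobS : Prop := ∀ (K : Type) [Field K] (d : ℕ) (f g : RatMap K d),
  MobConj f g ↔ ∃ p : Fin 5 → K, p 0 ≠ 0 ∧ p 1 * p 4 - p 2 * p 3 ≠ 0 ∧ f.coef = ccf d p g.coef

/-- ZRat: conjugate maps exist -/
def ZRatS : Prop := ∀ (K : Type) [Field K] [IsAlgClosed K] (d : ℕ) (g : RatMap K d)
  (p : Fin 5 → K), p 0 ≠ 0 → p 1 * p 4 - p 2 * p 3 ≠ 0 → ∃ f : RatMap K d, f.coef = ccf d p g.coef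

/-- ZPol: the coefficients of the conjugate maps are polynomials -/
def ZPolS : Prop := ∀ (d : ℕ) (V : MvPolynomial (CI d) ℚ),
  ∃ V' : MvPolynomial (Fin 5) (MvPolynomial (CI d) ℚ), ∀ (x : CI d → ℂ) (p : Fin 5 → ℂ),
    MvPolynomial.aeval (ccf d p x) V =
      MvPolynomial.eval₂ (MvPolynomial.aeval (R := ℚ) x).toRingHom p V'

/-- ZEx: a nonzero polynomial does not vanish at all rational maps -/
def ZExS : Prop := ∀ (d : ℕ) (W : MvPolynomial (CI d) ℚ), 1 ≤ d → W ≠ 0 →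
  ∃ f : RatMap ℂ d, MvPolynomial.aeval f.coef W ≠ 0

/-- ZFin (from ARz, ZMob, ZRat, ZPol, ZEx, MC1, MC2): the final theorem -/
def ZFinS : Prop := ∀ d : ℕ, 2 ≤ d → ∃ S : Finset (MvPolynomial (CI d) ℚ),
  (∃ f : RatMap ℂ d, ¬ ZS S f) ∧
  (∀ f g : RatMap ℂ d, MobConj f g → (ZS S f ↔ ZS S g)) ∧
  (∀ f : RatMap ℂ d, ZS S f ↔ ZS S f.conj) ∧
  ∀ f : RatMap ℂ d, ¬ ZS S f → ∀ g : RatMap ℂ d,
    (∀ n, 1 ≤ n → f.lenSpec n = g.lenSpec n) → MobConj f g ∨ MobConj f g.conj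

end Pool.Agent.LSF
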