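import Pool.Agent.LSF.ZDefs

/-!
ZPol: the coefficients of the conjugate maps are polynomials.

Complete proof. `ccf` commutes with ring homomorphisms `ε : R →+* R'`:
`ccf d (ε ∘ p) (ε ∘ x) i = ε (ccf d p x i)`: `hcR`, `pnum`, `pden` commute with `Polynomial.map ε`
(`Polynomial.map_sum`, `map_mul`, `coeff_map`). Let
`R := MvPolynomial (Fin 5) (MvPolynomial (CI d) ℚ)`, `p₀ i := MvPolynomial.X i`,
`x₀ j := MvPolynomial.C (MvPolynomial.X j)`, and
`V' := MvPolynomial.eval₂ (algebraMap ℚ R) (ccf d p₀ x₀) V = aeval (ccf d p₀ x₀) V`. Let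
`ε : R →+* ℂ := MvPolynomial.eval₂Hom (aeval x).toRingHom p`. `ε (p₀ i) = p i`, `ε (x₀ j) = x j`. So
`ε V' = aeval (ε ∘ ccf d p₀ x₀) V = aeval (ccf d p x) V` (`MvPolynomial.map_aeval` or
`MvPolynomial.eval₂_comp_left`, ring homomorphisms are compatible with `algebraMap ℚ`).
-/

namespace Pool.Agent.LSF

open Polynomial Pool.Agent.LenSpec

theorem zPol_hcR {R S : Type} [CommRing R] [CommRing S] (ε : R →+* S) (d : ℕ) (P A B : R[X]) :
    (hcR d P A B).map ε = hcR d (P.map ε) (A.map ε) (B.map ε) := by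
  unfold hcR
  rw [Polynomial.map_sum]
  refine Finset.sum_congr rfl fun i _ => ?_
  simp [Polynomial.map_mul, Polynomial.map_pow]

theorem zPol_pnum {R S : Type} [CommRing R] [CommRing S] (ε : R →+* S) (d : ℕ) (x : CI d → R) :
    (pnum d x).map ε = pnum d (fun j => ε (x j)) := by
  unfold pnum
  rw [Polynomial.map_sum]
  refine Finset.sum_congr rfl fun i _ => ?_
  simp [Polynomial.map_mul, Polynomial.map_pow]

theorem zPol_pden {R S : Type} [CommRing R] [CommRing S] (ε : R →+* S) (d : ℕ) (x : CI d → R) :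
    (pden d x).map ε = pden d (fun j => ε (x j)) := by
  unfold pden
  rw [Polynomial.map_sum]
  refine Finset.sum_congr rfl fun i _ => ?_
  simp [Polynomial.map_mul, Polynomial.map_pow]

theorem zPol_ccf {R S : Type} [CommRing R] [CommRing S] (ε : R →+* S) (d : ℕ) (p : Fin 5 → R)
    (x : CI d → R) (j : CI d) :
    ccf d (fun i => ε (p i)) (fun j => ε (x j)) j = ε (ccf d p x j) := by
  rcases j with i | i
  · simp only [ccf]
    rw [← Polynomial.coeff_map]
    congr 1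
    simp only [Polynomial.map_mul, Polynomial.map_sub, zPol_hcR, zPol_pnum, zPol_pden,
      Polynomial.map_add, Polynomial.map_C, Polynomial.map_X]
  · simp only [ccf]
    rw [← Polynomial.coeff_map]
    congr 1
    simp only [Polynomial.map_mul, Polynomial.map_sub, zPol_hcR, zPol_pnum, zPol_pden,
      Polynomial.map_add, Polynomial.map_C, Polynomial.map_X]

theorem ZPol : ZPolS := by
  intro d V
  obtain ⟨p₀, hp₀⟩ : ∃ p₀ : Fin 5 → MvPolynomial (Fin 5) (MvPolynomial (CI d) ℚ),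
      ∀ i, p₀ i = MvPolynomial.X i := ⟨_, fun _ => rfl⟩
  obtain ⟨x₀, hx₀⟩ : ∃ x₀ : CI d → MvPolynomial (Fin 5) (MvPolynomial (CI d) ℚ),
      ∀ j, x₀ j = MvPolynomial.C (MvPolynomial.X j) := ⟨_, fun _ => rfl⟩
  refine ⟨MvPolynomial.aeval (ccf d p₀ x₀) V, fun x p => ?_⟩
  obtain ⟨ε, hε⟩ : ∃ ε : MvPolynomial (Fin 5) (MvPolynomial (CI d) ℚ) →+* ℂ,
      ε = MvPolynomial.eval₂Hom (MvPolynomial.aeval (R := ℚ) x).toRingHom p := ⟨_, rfl⟩
  have e1 : ∀ i, ε (p₀ i) = p i := by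
    intro i
    rw [hε, hp₀ i, MvPolynomial.eval₂Hom_X']
  have e2 : ∀ j, ε (x₀ j) = x j := by
    intro j
    rw [hε, hx₀ j, MvPolynomial.eval₂Hom_C]
    exact MvPolynomial.aeval_X x j
  have e3 : MvPolynomial.eval₂ (MvPolynomial.aeval (R := ℚ) x).toRingHom p
      (MvPolynomial.aeval (ccf d p₀ x₀) V) = ε (MvPolynomial.aeval (ccf d p₀ x₀) V) := by
    rw [hε]
    rfl
  rw [e3, MvPolynomial.map_aeval, MvPolynomial.aeval_def, MvPolynomial.coe_eval₂Hom]
  have e4 : ccf d p x = fun i => ε (ccf d p₀ x₀ i) := by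
    funext i
    rw [← zPol_ccf ε d p₀ x₀ i]
    congr 1
    · funext i
      exact (e1 i).symm
    · funext j
      exact (e2 j).symm
  rw [e4]
  congr 1
  exact Subsingleton.elim _ _

end Pool.Agent.LSF
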